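import Pool.Agent.P.MP_68214b_ag.Basic

open Polynomial Filter Topology Finset

namespace Pool.Agent.P.MP_68214b_ag

theorem Arch_lower {N : ℕ → ℝ} (hN : ∀ n, 0 < N n) {q : ℝ} (hq : 0 < q) (m : ℕ) :
    ∀ c : ℝ, 0 < c → (∀ n, m ≤ n → c * q ^ n ≤ N n) →
      ∃ c' : ℝ, 0 < c' ∧ ∀ n, c' * q ^ n ≤ N n := by
  induction m with
  | zero => exact fun c hc h => ⟨c, hc, fun n => h n (Nat.zero_le n)⟩
  | succ m ih =>
    intro c hc h
    refine ih (min c (N m / q ^ m)) (lt_min hc (div_pos (hN m) (pow_pos hq m))) fun n hn => ?_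
    rcases hn.eq_or_lt with rfl | hn
    · exact (le_div_iff₀ (pow_pos hq m)).1 (min_le_right _ _)
    · exact (mul_le_mul_of_nonneg_right (min_le_left _ _) (pow_pos hq n).le).trans (h n hn)

theorem Arch_upper {N : ℕ → ℝ} {q : ℝ} (hq : 0 < q) (m : ℕ) :
    ∀ c : ℝ, (∀ n, m ≤ n → N n ≤ c * q ^ n) → ∃ c' : ℝ, ∀ n, N n ≤ c' * q ^ n := by
  induction m with
  | zero => exact fun c h => ⟨c, fun n => h n (Nat.zero_le n)⟩
  | succ m ih =>
    intro c h
    refine ih (max c (N m / q ^ m)) fun n hn => ?_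
    rcases hn.eq_or_lt with rfl | hn
    · exact (div_le_iff₀ (pow_pos hq m)).1 (le_max_right _ _)
    · exact (h n hn).trans (mul_le_mul_of_nonneg_right (le_max_left _ _) (pow_pos hq n).le)

theorem Arch_ratio {θ : ℝ} (h : θ < 1) : ∃ m : ℕ, ∀ n : ℕ, m ≤ n → θ ≤ 1 - 1 / ((n : ℝ) + 2) := by
  obtain ⟨m, hm⟩ := exists_nat_gt (1 / (1 - θ))
  refine ⟨m, fun n hn => ?_⟩
  have h1 : (m : ℝ) ≤ n := by exact_mod_cast hn
  have h2 : 0 < 1 - θ := by linarith
  have h3 : 1 / ((n : ℝ) + 2) ≤ 1 - θ := by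
    rw [div_le_iff₀ (by positivity)]
    rw [div_lt_iff₀ h2] at hm
    nlinarith
  linarith

theorem Arch_dom {M N : ℕ → ℝ} (hN : ∀ n, 0 < N n) {g K : ℝ} (hg : 0 < g) (hK : 0 < K) {m : ℕ}
    (h0 : 0 < M m) (hs : ∀ n, m ≤ n → (1 - 1 / ((n : ℝ) + 2)) * g * M n ≤ M (n + 1))
    (hM : ∀ n, M n ≤ K * N n) {θ : ℝ} (h1 : 0 < θ) (h2 : θ < 1) :
    ∃ c : ℝ, 0 < c ∧ ∀ n, c * (θ * g) ^ n ≤ N n := by
  have hq : 0 < θ * g := mul_pos h1 hg
  have pos : ∀ n, m ≤ n → 0 < M n := by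
    intro n hn
    induction n, hn using Nat.le_induction with
    | base => exact h0
    | succ n hn ih =>
      refine lt_of_lt_of_le (mul_pos (mul_pos ?_ hg) ih) (hs n hn)
      have : 1 / ((n : ℝ) + 2) < 1 := by
        rw [div_lt_one (by positivity)]
        have : (0 : ℝ) ≤ n := n.cast_nonneg
        linarith
      linarith
  obtain ⟨k, hk⟩ := Arch_ratio h2
  have low : ∀ n, max m k ≤ n → M (max m k) / (θ * g) ^ (max m k) * (θ * g) ^ n ≤ M n := by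
    intro n hn
    induction n, hn using Nat.le_induction with
    | base => rw [div_mul_cancel₀ _ (pow_pos hq _).ne']
    | succ n hn ih =>
      have a := hs n (le_of_max_le_left hn)
      have b := hk n (le_of_max_le_right hn)
      have c := pos n (le_of_max_le_left hn)
      calc _ = θ * g * (M (max m k) / (θ * g) ^ (max m k) * (θ * g) ^ n) := by ring
        _ ≤ θ * g * M n := mul_le_mul_of_nonneg_left ih hq.le
        _ ≤ (1 - 1 / ((n : ℝ) + 2)) * g * M n := by gcongr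
        _ ≤ _ := a
  refine Arch_lower hN hq (max m k) (M (max m k) / (θ * g) ^ (max m k) / K)
    (div_pos (div_pos (pos _ (le_max_left _ _)) (pow_pos hq _)) hK) fun n hn => ?_
  rw [div_mul_eq_mul_div, div_le_iff₀' hK]
  exact (low n hn).trans (hM n)

theorem Arch_step {a b : ℂ} {e : ℝ} (he : 0 ≤ e) (h : ‖b‖ ≤ ‖a‖) :
    (1 - e) * ‖a‖ ≤ ‖a - (e / 2 : ℝ) * (a + b)‖ := by
  have h1 : ‖((e / 2 : ℝ) : ℂ) * (a + b)‖ ≤ e * ‖a‖ := by
    rw [norm_mul, Complex.norm_real, Real.norm_of_nonneg (by positivity)]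
    have := norm_add_le a b
    nlinarith
  have := norm_sub_norm_le a (((e / 2 : ℝ) : ℂ) * (a + b))
  linarith

theorem Arch_step' {a b : ℂ} {e M : ℝ} (he : 0 ≤ e) (he' : e ≤ 1) (ha : ‖a‖ ≤ M) (hb : ‖b‖ ≤ M) :
    ‖a - (e / 2 : ℝ) * (a + b)‖ ≤ M := by
  rw [show a - (e / 2 : ℝ) * (a + b) = ((1 - e / 2 : ℝ) : ℂ) * a - ((e / 2 : ℝ) : ℂ) * b by
    push_cast; ring]
  refine (norm_sub_le _ _).trans ?_
  rw [norm_mul, norm_mul, Complex.norm_real, Complex.norm_real,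
    Real.norm_of_nonneg (by linarith), Real.norm_of_nonneg (by positivity)]
  nlinarith

theorem Arch_dich {al be : ℂ} (hle : ‖be‖ ≤ ‖al‖) (hbe : be ≠ 0) (hne : al ≠ be) {s : ℕ → ℂ}
    (hs : Rec ((al + be) / 2) (al * be) s) (h0 : s 0 ≠ 0 ∨ s 1 ≠ 0) :
    (∀ θ : ℝ, 0 < θ → θ < 1 →
      ∃ c : ℝ, 0 < c ∧ ∀ n, c * (θ * ‖al‖) ^ n ≤ max ‖s (n + 1)‖ ‖s n‖) ∨
    (‖be‖ < ‖al‖ ∧ ∃ C : ℝ, ∀ n, ‖s n‖ ≤ C * ‖be‖ ^ n) := by
  have hb : 0 < ‖be‖ := norm_pos_iff.2 hbe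
  have hg : 0 < ‖al‖ := hb.trans_le hle
  have hal : al ≠ 0 := norm_pos_iff.1 hg
  have hd : al - be ≠ 0 := sub_ne_zero.2 hne
  have nz : ∀ n, s n ≠ 0 ∨ s (n + 1) ≠ 0 := by
    intro n
    induction n with
    | zero => exact h0
    | succ n ih =>
      by_contra hc
      push Not at hc
      have h1 := hs n
      have h2 : ((n : ℂ) + 1) ≠ 0 := by exact_mod_cast n.succ_ne_zero
      rw [hc.1, hc.2] at h1
      have : ((n : ℂ) + 1) * (al * be) * s n = 0 := by linear_combination h1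
      simp [h2, hal, hbe] at this
      simp [this, hc.1] at ih
  have hN : ∀ n, 0 < max ‖s (n + 1)‖ ‖s n‖ := fun n => by
    rcases nz n with h | h
    · exact lt_max_of_lt_right (norm_pos_iff.2 h)
    · exact lt_max_of_lt_left (norm_pos_iff.2 h)
  obtain ⟨Y, hY⟩ : ∃ Y : ℕ → ℂ, ∀ n, Y n = s (n + 1) - be * s n := ⟨_, fun _ => rfl⟩
  obtain ⟨Z, hZ⟩ : ∃ Z : ℕ → ℂ, ∀ n, Z n = s (n + 1) - al * s n := ⟨_, fun _ => rfl⟩
  have rY : ∀ n : ℕ, Y (n + 1) =
      al * Y n - (1 / ((n : ℝ) + 2) / 2 : ℝ) * (al * Y n + be * Z n) := fun n => by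
    have h2 : ((n : ℂ) + 2) ≠ 0 := by exact_mod_cast (show n + 2 ≠ 0 by omega)
    simp only [hY, hZ]
    push_cast
    field_simp
    linear_combination 2 * hs n
  have rZ : ∀ n : ℕ, Z (n + 1) =
      be * Z n - (1 / ((n : ℝ) + 2) / 2 : ℝ) * (be * Z n + al * Y n) := fun n => by
    have h2 : ((n : ℂ) + 2) ≠ 0 := by exact_mod_cast (show n + 2 ≠ 0 by omega)
    simp only [hY, hZ]
    push_cast
    field_simp
    linear_combination 2 * hs n
  have e0 : ∀ n : ℕ, 0 ≤ 1 / ((n : ℝ) + 2) := fun n => by positivity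
  have e1 : ∀ n : ℕ, 1 / ((n : ℝ) + 2) ≤ 1 := fun n => by
    rw [div_le_one (by positivity)]
    have : (0 : ℝ) ≤ n := n.cast_nonneg
    linarith
  have bd : ∀ (c : ℂ), ‖c‖ ≤ ‖al‖ → ∀ n, ‖s (n + 1) - c * s n‖ ≤
      (1 + ‖al‖) * max ‖s (n + 1)‖ ‖s n‖ := fun c hc n => by
    refine (norm_sub_le _ _).trans ?_
    rw [norm_mul, add_mul, one_mul]
    exact add_le_add (le_max_left _ _) (mul_le_mul hc (le_max_right _ _) (norm_nonneg _) hg.le)
  have bY : ∀ n, ‖Y n‖ ≤ (1 + ‖al‖) * max ‖s (n + 1)‖ ‖s n‖ := fun n => hY n ▸ bd be hle n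
  have bZ : ∀ n, ‖Z n‖ ≤ (1 + ‖al‖) * max ‖s (n + 1)‖ ‖s n‖ := fun n => hZ n ▸ bd al le_rfl n
  have YZ : ∀ n, Y n ≠ 0 ∨ Z n ≠ 0 := fun n => by
    by_contra hc
    push Not at hc
    have h1 : (al - be) * s n = 0 := by linear_combination hc.1 - hc.2 - hY n + hZ n
    have h2 : s n = 0 := by simpa [hd] using h1
    have h3 : s (n + 1) = 0 := by simpa [h2, hc.1] using (hY n).symm
    simpa [h2, h3] using nz n
  rcases hle.eq_or_lt with heq | hlt
  · refine Or.inl fun θ h1 h2 => Arch_dom (M := fun n => max ‖Y n‖ ‖Z n‖) (m := 0) hN hg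
      (K := 1 + ‖al‖) (by positivity) ?_ (fun n _ => ?_) (fun n => max_le (bY n) (bZ n)) h1 h2
    · rcases YZ 0 with h | h
      · exact lt_max_of_lt_left (norm_pos_iff.2 h)
      · exact lt_max_of_lt_right (norm_pos_iff.2 h)
    · rcases le_total ‖Z n‖ ‖Y n‖ with h | h
      · refine le_max_of_le_left ?_
        rw [max_eq_left h, rY, mul_assoc, ← norm_mul]
        refine Arch_step (e0 n) ?_
        rw [norm_mul, norm_mul, heq]
        gcongr
      · refine le_max_of_le_right ?_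
        rw [max_eq_right h, rZ, mul_assoc, ← heq, ← norm_mul]
        refine Arch_step (e0 n) ?_
        rw [norm_mul, norm_mul, heq]
        gcongr
  obtain ⟨k, hk⟩ := Arch_ratio ((div_lt_one hg).2 hlt)
  by_cases hc : ∃ m, k ≤ m ∧ ‖be * Z m‖ ≤ ‖al * Y m‖
  · obtain ⟨m, hm, hm'⟩ := hc
    have cone : ∀ n, m ≤ n → ‖be * Z n‖ ≤ ‖al * Y n‖ := by
      intro n hn
      induction n, hn using Nat.le_induction with
      | base => exact hm'
      | succ n hn ih =>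
        have a := Arch_step (e0 n) ih
        have b := Arch_step' (e0 n) (e1 n) ih le_rfl
        have c := (div_le_iff₀ hg).1 (hk n (hm.trans hn))
        rw [← rY] at a
        rw [← rZ] at b
        rw [norm_mul be, norm_mul al (Y (n + 1))]
        calc _ ≤ ((1 - 1 / ((n : ℝ) + 2)) * ‖al‖) * ‖al * Y n‖ :=
              mul_le_mul c b (norm_nonneg _) (hb.le.trans c)
          _ = ‖al‖ * ((1 - 1 / ((n : ℝ) + 2)) * ‖al * Y n‖) := by ring
          _ ≤ _ := by gcongr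
    refine Or.inl fun θ h1 h2 => Arch_dom (M := fun n => ‖Y n‖) (m := m) hN hg
      (K := 1 + ‖al‖) (by positivity) ?_ (fun n hn => ?_) bY h1 h2
    · refine norm_pos_iff.2 fun h => ?_
      rw [h, mul_zero, norm_zero, norm_le_zero_iff] at hm'
      have : Z m = 0 := by simpa [hbe] using hm'
      simpa [h, this] using YZ m
    · rw [rY, mul_assoc, ← norm_mul]
      exact Arch_step (e0 n) (cone n hn)
  push Not at hc
  refine Or.inr ⟨hlt, Arch_upper hb k (2 * (‖Z k‖ / ‖be‖ ^ k) / ‖al - be‖) fun n hn => ?_⟩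
  have up : ∀ n, k ≤ n → ‖Z n‖ ≤ ‖Z k‖ / ‖be‖ ^ k * ‖be‖ ^ n := by
    intro n hn
    induction n, hn using Nat.le_induction with
    | base => rw [div_mul_cancel₀ _ (pow_pos hb _).ne']
    | succ n hn ih =>
      have b := Arch_step' (e0 n) (e1 n) le_rfl (hc n hn).le
      rw [← rZ, norm_mul] at b
      calc _ ≤ _ := b
        _ ≤ ‖be‖ * (‖Z k‖ / ‖be‖ ^ k * ‖be‖ ^ n) := by gcongr
        _ = _ := by ring
  have h1 : ‖Y n‖ ≤ ‖Z n‖ := by
    have := hc n hn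
    rw [norm_mul, norm_mul] at this
    refine le_of_mul_le_mul_left (this.le.trans ?_) hg
    gcongr
  have h2 : ‖al - be‖ * ‖s n‖ ≤ 2 * ‖Z n‖ := by
    rw [← norm_mul, show (al - be) * s n = Y n - Z n by rw [hY, hZ]; ring]
    linarith [norm_sub_le (Y n) (Z n)]
  rw [div_mul_eq_mul_div, le_div_iff₀' (norm_pos_iff.2 hd)]
  linarith [up n hn]

theorem Arch_ode {A B : ℂ} {u : ℕ → ℂ} (hu : Rec A B u) {C ρ : ℝ} (hρ0 : 0 ≤ ρ) (hρ : ρ < 1)
    (hb : ∀ n, ‖u n‖ ≤ C * ρ ^ n) :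
    ∃ G G' : ℝ → ℂ, G 0 = u 0 ∧ ∀ r ∈ Set.Icc (0 : ℝ) 1, HasDerivAt G (G' r) r ∧
      (1 - 2 * A * r + B * r ^ 2) * G' r = (A - B * r) * G r + (u 1 - A * u 0) := by
  have hC : 0 ≤ C := by simpa using (norm_nonneg _).trans (hb 0)
  obtain ⟨R, hR1, hR⟩ : ∃ R : ℝ, 1 < R ∧ ρ * R < 1 := by
    refine ⟨2 / (1 + ρ), ?_, ?_⟩
    · rw [one_lt_div (by positivity)]; linarith
    · rw [← mul_div_assoc, div_lt_one (by positivity)]; linarith
  have hq : ‖ρ * R‖ < 1 := by rwa [Real.norm_of_nonneg (by positivity)]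
  have sm : Summable fun n : ℕ => C * ((n : ℝ) ^ 1 * (ρ * R) ^ n) :=
    (summable_pow_mul_geometric_of_norm_lt_one 1 hq).mul_left C
  have bd : ∀ (n : ℕ) (r : ℝ), r ∈ Set.Ioo (-R) R →
      ‖u n * ((n : ℂ) * (r : ℂ) ^ (n - 1))‖ ≤ C * ((n : ℝ) ^ 1 * (ρ * R) ^ n) := fun n r hr => by
    have h1 : |r| ≤ R := (abs_lt.2 hr).le
    have h2 : |r| ^ (n - 1) ≤ R ^ n :=
      (pow_le_pow_left₀ (abs_nonneg r) h1 _).trans (pow_le_pow_right₀ hR1.le (Nat.sub_le _ _))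
    rw [norm_mul, norm_mul, norm_pow, Complex.norm_real, Complex.norm_natCast, Real.norm_eq_abs]
    calc _ ≤ C * ρ ^ n * (n * R ^ n) := by gcongr; exact hb n
      _ = _ := by ring
  have s0 : ∀ r ∈ Set.Icc (0 : ℝ) 1, Summable fun n => u n * (r : ℂ) ^ n := fun r hr => by
    refine Summable.of_norm_bounded ((summable_geometric_of_lt_one hρ0 hρ).mul_left C) fun n => ?_
    rw [norm_mul, norm_pow, Complex.norm_real, Real.norm_of_nonneg hr.1]
    exact (mul_le_of_le_one_right (norm_nonneg _) (pow_le_one₀ hr.1 hr.2)).trans (hb n)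
  refine ⟨fun r => ∑' n, u n * (r : ℂ) ^ n, fun r => ∑' n, u n * ((n : ℂ) * (r : ℂ) ^ (n - 1)),
    ?_, fun r hr => ?_⟩
  · simp only
    rw [tsum_eq_single 0 fun n hn => by simp [hn]]
    simp
  have hr' : r ∈ Set.Ioo (-R) R := ⟨by linarith [hr.1], by linarith [hr.2]⟩
  refine ⟨hasDerivAt_tsum_of_isPreconnected (g := fun n (r : ℝ) => u n * (r : ℂ) ^ n)
    (g' := fun n (r : ℝ) => u n * ((n : ℂ) * (r : ℂ) ^ (n - 1))) (t := Set.Ioo (-R) R)
    sm isOpen_Ioo isPreconnected_Ioo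
    (fun n y _ => ((hasDerivAt_pow n (y : ℂ)).comp_ofReal).const_mul (u n)) bd hr' (s0 r hr) hr', ?_⟩
  have a := (s0 r hr).hasSum
  have e := (Summable.of_norm_bounded sm fun n => bd n r hr').hasSum
  beta_reduce
  generalize ∑' n, u n * (r : ℂ) ^ n = G at a ⊢
  generalize ∑' n, u n * ((n : ℂ) * (r : ℂ) ^ (n - 1)) = G' at e ⊢
  have a1 := (hasSum_nat_add_iff' 1).2 a
  have e1 := (hasSum_nat_add_iff' 1).2 e
  have e2 := (hasSum_nat_add_iff' 2).2 e
  have key := (((e1.mul_left (2 * A * r)).add (a1.mul_left A)).sub (e.mul_left (B * r ^ 2))).sub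
    (a.mul_left (B * r))
  have eq : (fun n : ℕ => u (n + 2) * (((n + 2 : ℕ) : ℂ) * (r : ℂ) ^ (n + 2 - 1))) = fun n : ℕ =>
      2 * A * r * (u (n + 1) * (((n + 1 : ℕ) : ℂ) * (r : ℂ) ^ (n + 1 - 1))) +
        A * (u (n + 1) * (r : ℂ) ^ (n + 1)) - B * r ^ 2 * (u n * ((n : ℂ) * (r : ℂ) ^ (n - 1))) -
        B * r * (u n * (r : ℂ) ^ n) := by
    funext n
    have h1 : (r : ℂ) ^ 2 * ((n : ℂ) * (r : ℂ) ^ (n - 1)) = n * r ^ (n + 1) := by
      rcases n with _ | n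
      · simp
      · simp only [Nat.add_sub_cancel]; ring
    simp only [show n + 2 - 1 = n + 1 from rfl, Nat.add_sub_cancel]
    push_cast
    linear_combination (r : ℂ) ^ (n + 1) * hu n + B * u n * h1
  rw [eq] at e2
  have := e2.unique key
  simp [Finset.sum_range_succ] at this
  linear_combination this

theorem Arch_sqrt {k : ℂ} (hk : ‖k‖ < 1) :
    ∃ W : ℝ → ℂ, ContinuousOn W (Set.Icc 0 1) ∧ W 0 = 1 ∧ W 1 = 0 ∧ ∀ r ∈ Set.Ico (0 : ℝ) 1,
      W r ≠ 0 ∧ W r ^ 2 = (1 - r) * (1 - k * r) ∧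
        HasDerivAt W ((k * r - (1 + k) / 2) / W r) r := by
  have sl : ∀ r ∈ Set.Icc (0 : ℝ) 1, 1 - k * r ∈ Complex.slitPlane := fun r hr => by
    rw [sub_eq_add_neg]
    refine Complex.mem_slitPlane_of_norm_lt_one ?_
    rw [norm_neg, norm_mul, Complex.norm_real, Real.norm_of_nonneg hr.1]
    exact (mul_le_of_le_one_right (norm_nonneg _) hr.2).trans_lt hk
  have dE : ∀ r ∈ Set.Icc (0 : ℝ) 1, HasDerivAt
      (fun r : ℝ => Complex.exp (Complex.log (1 - k * r) / 2))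
      (Complex.exp (Complex.log (1 - k * r) / 2) * (-k / (1 - k * r) / 2)) r := fun r hr => by
    have h1 : HasDerivAt (fun z : ℂ => 1 - k * z) (-k) r := by
      simpa using ((hasDerivAt_id (r : ℂ)).const_mul k).const_sub 1
    exact (((h1.clog (sl r hr)).div_const 2).cexp).comp_ofReal
  refine ⟨fun r => (√(1 - r) : ℝ) * Complex.exp (Complex.log (1 - k * r) / 2), ?_, by simp,
    by simp, fun r hr => ?_⟩
  · refine ContinuousOn.mul (Continuous.continuousOn (by fun_prop)) fun r hr =>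
      (dE r hr).continuousAt.continuousWithinAt
  have hr' : r ∈ Set.Icc (0 : ℝ) 1 := ⟨hr.1, hr.2.le⟩
  have h0 : 0 < 1 - r := sub_pos.2 hr.2
  have h1 : ((√(1 - r) : ℝ) : ℂ) ≠ 0 := by
    exact_mod_cast (Real.sqrt_pos.2 h0).ne'
  have h2 : ((√(1 - r) : ℝ) : ℂ) ^ 2 = 1 - r := by
    exact_mod_cast Real.sq_sqrt h0.le
  have h3 : Complex.exp (Complex.log (1 - k * r) / 2) ^ 2 = 1 - k * r := by
    rw [← Complex.exp_nat_mul, show ((2 : ℕ) : ℂ) * (Complex.log (1 - k * r) / 2) =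
      Complex.log (1 - k * r) by push_cast; ring,
      Complex.exp_log (Complex.slitPlane_ne_zero (sl r hr'))]
  have h4 := Complex.exp_ne_zero (Complex.log (1 - k * r) / 2)
  have h5 : HasDerivAt (fun r : ℝ => √(1 - r)) (-1 / (2 * √(1 - r))) r :=
    ((hasDerivAt_id r).const_sub 1).sqrt h0.ne'
  refine ⟨mul_ne_zero h1 h4, by rw [mul_pow, h2, h3], ?_⟩
  refine (h5.ofReal_comp.mul (dE r hr')).congr_deriv ?_
  beta_reduce
  generalize Complex.exp (Complex.log (1 - k * r) / 2) = E at *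
  push_cast
  generalize ((√(1 - r) : ℝ) : ℂ) = a at *
  rw [← h3]
  field_simp
  linear_combination (-1) * h3 - k * h2

theorem Arch_rec {k : ℂ} (hk : ‖k‖ < 1) {u : ℕ → ℂ} (hu : Rec ((1 + k) / 2) k u) {C : ℝ}
    (hb : ∀ n, ‖u n‖ ≤ C * ‖k‖ ^ n) :
    (u 1 - (1 + k) / 2 * u 0 = 0 → u 0 = 0) ∧
      ∀ b m : ℂ, b ^ 2 = k → m * (u 1 - (1 + k) / 2 * u 0) = b →
        Complex.exp (-(m * u 0)) * (b - (1 + k) / 2) = k - (1 + k) / 2 := by
  obtain ⟨G, G', hG0, hG⟩ := Arch_ode hu (norm_nonneg k) hk hb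
  obtain ⟨W, cW, W0, W1, hW⟩ := Arch_sqrt hk
  set mu := u 1 - (1 + k) / 2 * u 0
  have cG : ContinuousOn G (Set.Icc 0 1) := fun r hr =>
    (hG r hr).1.continuousAt.continuousWithinAt
  have dI : ∀ r ∈ Set.Ico (0 : ℝ) 1, HasDerivAt (fun r => G r * W r) (mu / W r) r := by
    intro r hr
    obtain ⟨h1, h2, h3⟩ := hW r hr
    obtain ⟨h4, h5⟩ := hG r ⟨hr.1, hr.2.le⟩
    refine (h4.mul h3).congr_deriv ?_
    field_simp
    linear_combination 2 * G' r * h2 + 2 * h5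
  refine ⟨fun h => ?_, fun b m hb hm => ?_⟩
  · have := constant_of_has_deriv_right_zero (f := fun r => G r * W r) (cG.mul cW)
      (fun r hr => by simpa [h] using (dI r hr).hasDerivWithinAt) 1 ⟨zero_le_one, le_rfl⟩
    simpa [W0, W1, hG0] using this.symm
  have := constant_of_has_deriv_right_zero
    (f := fun r : ℝ => Complex.exp (-(m * (G r * W r))) * (k * r - (1 + k) / 2 + b * W r))
    (a := 0) (b := 1) (by fun_prop) (fun r hr => ?_) 1 ⟨zero_le_one, le_rfl⟩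
  · simp only [W0, W1, hG0] at this
    simp at this
    linear_combination -this
  obtain ⟨h1, h2, h3⟩ := hW r hr
  have h6 : HasDerivAt (fun r : ℝ => k * (r : ℂ)) k r := by
    simpa using ((hasDerivAt_id (r : ℂ)).const_mul k).comp_ofReal
  refine HasDerivAt.hasDerivWithinAt ?_
  refine ((((dI r hr).const_mul m).neg.cexp).mul
    ((h6.sub_const ((1 + k) / 2)).add (h3.const_mul b))).congr_deriv ?_
  simp only [Pi.neg_apply, Pi.add_apply]
  rw [← mul_div_assoc, hm]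
  generalize Complex.exp _ = E
  field_simp
  linear_combination (-2) * W r * E * hb

/-- growth of a solution at an archimedean place: dominant, or an exponential relation holds -/
theorem arch_growth {x y : ℂ} (hx : x ≠ 0) (hy : y ≠ 0) (hxy : x ≠ y) :
    ∃ g : ℝ, ‖x‖ + ‖y‖ ≤ g ∧ ‖(x - y) ^ 2‖ ≤ g ^ 2 ∧
      (‖x‖ = ‖y‖ → ‖x + y‖ * ‖(x - y) ^ 2‖ ≤ g * ‖y‖ ^ 2) ∧
      ∀ s : ℕ → ℂ, Rec (x + y) ((x - y) ^ 2) s → (s 0 ≠ 0 ∨ s 1 ≠ 0) →
        (∀ θ : ℝ, 0 < θ → θ < 1 → ∃ c : ℝ, 0 < c ∧ ∀ n, c * (θ * g) ^ n ≤ max ‖s (n + 1)‖ ‖s n‖) ∨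
        (x + y ≠ 0 ∧ s 1 - (x + y) * s 0 ≠ 0 ∧
          Complex.exp (-2 * (x - y) * s 0 / (s 1 - (x + y) * s 0)) = x / y) := by
  obtain ⟨p, hp⟩ := IsAlgClosed.exists_eq_mul_self x
  obtain ⟨q, hq, hpq⟩ : ∃ q : ℂ, y = q * q ∧ ‖p - q‖ ≤ ‖p + q‖ := by
    obtain ⟨q, hq⟩ := IsAlgClosed.exists_eq_mul_self y
    rcases le_total ‖p - q‖ ‖p + q‖ with h | h
    · exact ⟨q, hq, h⟩
    · exact ⟨-q, by rw [hq]; ring, by simpa [← sub_eq_add_neg] using h⟩
  obtain ⟨al, hal⟩ : ∃ al, al = (p + q) ^ 2 := ⟨_, rfl⟩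
  obtain ⟨be, hbe⟩ : ∃ be, be = (p - q) ^ 2 := ⟨_, rfl⟩
  have hle : ‖be‖ ≤ ‖al‖ := by rw [hal, hbe, norm_pow, norm_pow]; gcongr
  have hA : x + y = (al + be) / 2 := by rw [hal, hbe, hp, hq]; ring
  have hB : (x - y) ^ 2 = al * be := by rw [hal, hbe, hp, hq]; ring
  have hB0 : al * be ≠ 0 := hB ▸ pow_ne_zero 2 (sub_ne_zero.2 hxy)
  have hal0 : al ≠ 0 := left_ne_zero_of_mul hB0
  have hbe0 : be ≠ 0 := right_ne_zero_of_mul hB0
  have hg : 0 < ‖al‖ := norm_pos_iff.2 hal0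
  have hne : al ≠ be := fun h => by
    have : x * y = 0 := by
      rw [h] at hA hB
      linear_combination (x + y + be) / 4 * hA - hB / 4
    exact mul_ne_zero hx hy this
  have hs : ‖al‖ + ‖be‖ = 2 * (‖x‖ + ‖y‖) := by
    have := parallelogram_law_with_norm_mul ℝ p q
    rw [hal, hbe, hp, hq, norm_pow, norm_pow, norm_mul, norm_mul]
    linarith
  refine ⟨‖al‖, by linarith, ?_, fun h => ?_, fun s hs h0 => ?_⟩
  · rw [hB, norm_mul, sq]; gcongr
  · have h1 := parallelogram_law_with_norm_mul ℝ x y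
    have h2 : ‖x - y‖ * ‖x - y‖ = ‖al‖ * ‖be‖ := by rw [← norm_mul, ← norm_mul, ← sq, hB]
    have h3 : ‖al‖ - ‖be‖ = 2 * ‖x + y‖ := by
      refine (pow_left_inj₀ (by linarith) (by positivity) two_ne_zero).1 ?_
      rw [h] at h1 hs
      linear_combination (‖al‖ + ‖be‖ + 4 * ‖y‖) * hs - 4 * h1 + 4 * h2
    rw [hB, norm_mul, mul_left_comm]
    refine mul_le_mul_of_nonneg_left ?_ hg.le
    rw [show ‖be‖ = 2 * ‖y‖ - ‖x + y‖ by linarith]
    nlinarith [sq_nonneg (‖x + y‖ - ‖y‖)]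
  rw [hA, hB] at hs
  refine (Arch_dich hle hbe0 hne hs h0).imp_right fun ⟨hlt, C, hC⟩ => ?_
  have hk : ‖be / al‖ < 1 := by rwa [norm_div, div_lt_one hg]
  have hu := hs.scale al⁻¹
  rw [show al⁻¹ * ((al + be) / 2) = (1 + be / al) / 2 by field_simp,
    show al⁻¹ ^ 2 * (al * be) = be / al by field_simp] at hu
  obtain ⟨r1, r2⟩ := Arch_rec hk hu (C := C) fun n => by
    rw [norm_mul, norm_pow, norm_inv, norm_div, div_pow, inv_pow, mul_comm, ← div_eq_mul_inv,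
      ← mul_div_assoc]
    gcongr
    exact hC n
  simp only [pow_zero, pow_one, one_mul] at r1 r2
  have e : al⁻¹ * s 1 - (1 + be / al) / 2 * s 0 = (s 1 - (x + y) * s 0) / al := by
    rw [hA]; field_simp
  rw [e] at r1 r2
  have hmu : s 1 - (x + y) * s 0 ≠ 0 := fun h => by
    have h1 := r1 (by rw [h, zero_div])
    simp [h1] at h h0
    exact h0 h
  refine ⟨fun h => ?_, hmu, ?_⟩
  · have : al = -be := by linear_combination 2 * h - 2 * hA
    simp [this] at hlt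
  have := r2 ((x - y) / al) ((x - y) / (s 1 - (x + y) * s 0))
    (by rw [div_pow, hB]; field_simp) (by field_simp)
  rw [show -2 * (x - y) * s 0 / (s 1 - (x + y) * s 0) =
    ((2 : ℕ) : ℂ) * -((x - y) / (s 1 - (x + y) * s 0) * s 0) by push_cast; ring,
    Complex.exp_nat_mul]
  generalize Complex.exp (-((x - y) / (s 1 - (x + y) * s 0) * s 0)) = E at this ⊢
  have h1 : E * (-2 * y) = (be - al) / 2 := by
    field_simp at this
    linear_combination this / 2 - E * hA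
  have h2 : ((be - al) / 2) ^ 2 = 4 * x * y := by
    linear_combination (-1) * (x + y + (al + be) / 2) * hA + hB
  rw [eq_div_iff hy]
  refine mul_left_cancel₀ (mul_ne_zero (by norm_num : (4 : ℂ) ≠ 0) hy) ?_
  rw [← h1] at h2
  linear_combination h2

end Pool.Agent.P.MP_68214b_ag
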