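import Mathlib

open Polynomial NumberField Height Filter Topology

namespace Pool.Agent.P.MP_68214b_ag

/-- the Legendre type recurrence -/
def Rec {R : Type*} [CommRing R] (A B : R) (s : ℕ → R) : Prop :=
  ∀ n : ℕ, ((n : R) + 2) * s (n + 2) = (2 * n + 3) * A * s (n + 1) - (n + 1) * B * s n

/-- homogeneous Legendre polynomial, equal to the sum of choose n k ^ 2 * x ^ (n-k) * y ^ k -/
noncomputable def LP {R : Type*} [CommRing R] (x y : R) (n : ℕ) : R :=
  (((C x * X + C y) * (1 + X)) ^ n).coeff n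

/-- truncated series of log (1 + x) -/
noncomputable def Lg {K : Type*} [Field K] (N : ℕ) (x : K) : K :=
  ∑ i ∈ Finset.range N, (-1) ^ i * x ^ (i + 1) / ((i : K) + 1)

section Ring
variable {R : Type*} [CommRing R]

@[simp] theorem P_zero (x y : R) : LP x y 0 = 1 := by simp [LP]

@[simp] theorem P_one (x y : R) : LP x y 1 = x + y := by
  simp [LP, mul_add, add_mul, coeff_X, coeff_C, coeff_mul_X, add_comm]

theorem P_map {S : Type*} [CommRing S] (f : R →+* S) (x y : R) (n : ℕ) :
    f (LP x y n) = LP (f x) (f y) n := by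
  simp [LP, ← coeff_map, Polynomial.map_pow]

theorem P_frob (p : ℕ) [Fact p.Prime] [CharP R p] (x y : R) (m : ℕ) :
    LP x y (m * p) = LP x y m ^ p := by
  have hp : 0 < p := (Fact.out : p.Prime).pos
  unfold LP
  rw [pow_mul, ← Polynomial.map_frobenius_expand, coeff_map, coeff_expand_mul hp, frobenius_def]

theorem Rec.map {S : Type*} [CommRing S] (f : R →+* S) {A B : R} {s : ℕ → R} (h : Rec A B s) :
    Rec (f A) (f B) fun n => f (s n) := fun n => by
  simpa [map_ofNat] using congrArg f (h n)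

theorem Rec.comb {A B : R} {s t : ℕ → R} (hs : Rec A B s) (ht : Rec A B t) (a b : R) :
    Rec A B fun n => a * s n + b * t n := fun n => by
  linear_combination a * hs n + b * ht n

theorem Rec.scale {A B : R} {s : ℕ → R} (hs : Rec A B s) (c : R) :
    Rec (c * A) (c ^ 2 * B) fun n => c ^ n * s n := fun n => by
  linear_combination c ^ (n + 2) * hs n

variable [IsDomain R] [CharZero R]

theorem Rec.ext {A B : R} {s t : ℕ → R} (hs : Rec A B s) (ht : Rec A B t) (h0 : s 0 = t 0)
    (h1 : s 1 = t 1) (n : ℕ) : s n = t n := by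
  induction n using Nat.twoStepInduction with
  | zero => exact h0
  | one => exact h1
  | more n a b =>
    have : ((n : R) + 2) ≠ 0 := by exact_mod_cast (show n + 2 ≠ 0 by omega)
    exact mul_left_cancel₀ this (by rw [hs, ht, a, b])

omit [IsDomain R] [CharZero R] in
theorem Rec.cas {A B : R} {s t : ℕ → R} (hs : Rec A B s) (ht : Rec A B t) (n : ℕ) :
    ((n : R) + 1) * (s (n + 1) * t n - s n * t (n + 1)) = (s 1 * t 0 - s 0 * t 1) * B ^ n := by
  induction n with
  | zero => simp
  | succ n ih =>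
    push_cast
    linear_combination t (n + 1) * hs n - s (n + 1) * ht n + B * ih

theorem P_rec (x y : R) : Rec (x + y) ((x - y) ^ 2) (LP x y) := by
  set L : R[X] := (C x * X + C y) * (1 + X) with hL
  have e : L = C x * X ^ 2 + C (x + y) * X + C y := by rw [hL, C_add]; ring
  have d : derivative L = C (2 * x) * X + C (x + y) := by
    rw [e]; simp only [derivative_add, derivative_mul, derivative_C, derivative_X_pow,
      derivative_X, C_mul]; simp [map_ofNat]; ring
  have a1 : ∀ n j : ℕ, (L ^ (n + 1)).coeff (j + 2) =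
      y * (L ^ n).coeff (j + 2) + (x + y) * (L ^ n).coeff (j + 1) + x * (L ^ n).coeff j := by
    intro n j
    rw [pow_succ', show L * L ^ n = C x * (X ^ 2 * L ^ n) + C (x + y) * (X * L ^ n) + C y * L ^ n by
      nth_rewrite 1 [e]; ring]
    simp only [coeff_add, coeff_C_mul, coeff_X_pow_mul, coeff_X_mul]; ring
  have a2 : ∀ n j : ℕ, ((j : R) + 2) * (L ^ (n + 1)).coeff (j + 2) =
      (n + 1) * ((x + y) * (L ^ n).coeff (j + 1) + 2 * x * (L ^ n).coeff j) := by
    intro n j
    have := congrArg (fun q => coeff q (j + 1)) (derivative_pow_succ L n)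
    simp only [d, coeff_derivative] at this
    rw [show C ((n : R) + 1) * L ^ n * (C (2 * x) * X + C (x + y)) =
      C ((n : R) + 1) * (C (2 * x) * (X * L ^ n) + C (x + y) * L ^ n) by ring] at this
    simp only [coeff_add, coeff_C_mul, coeff_X_mul] at this
    push_cast at this
    linear_combination this
  have c0 : ∀ n : ℕ, (L ^ n).coeff 0 = y ^ n := fun n => by
    rw [coeff_zero_eq_eval_zero]; simp [hL]
  have c1 : ∀ n : ℕ, (L ^ (n + 1)).coeff 1 = (n + 1) * (x + y) * y ^ n := fun n => by
    have := congrArg (fun q => coeff q 0) (derivative_pow_succ L n)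
    simp only [d, coeff_derivative, mul_coeff_zero, c0] at this
    simp at this
    linear_combination this
  have b1 : ∀ n : ℕ, (L ^ (n + 2)).coeff (n + 2) =
      (x + y) * (L ^ (n + 1)).coeff (n + 1) + 2 * x * (L ^ (n + 1)).coeff n := fun n => by
    have : ((n : R) + 2) ≠ 0 := by exact_mod_cast (show n + 2 ≠ 0 by omega)
    refine mul_left_cancel₀ this ?_
    have := a2 (n + 1) n
    push_cast at this
    linear_combination this
  intro n
  change ((n : R) + 2) * (L ^ (n + 2)).coeff (n + 2) =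
    (2 * n + 3) * (x + y) * (L ^ (n + 1)).coeff (n + 1) - (n + 1) * (x - y) ^ 2 * (L ^ n).coeff n
  rcases n with _ | n
  · have := b1 0
    have h1 := c1 0
    simp only [zero_add, c0] at this h1 ⊢
    rw [this, h1]; simp; ring
  rcases n with _ | n
  · have h3 := b1 1
    have h2 := b1 0
    have h1 := c1 0
    have h4 := c1 1
    simp only [zero_add, c0, Nat.reduceAdd] at h1 h2 h3 h4 ⊢
    rw [h3, h2, h4, h1]; push_cast; ring
  have h1 := b1 (n + 2)
  have h2 := b1 (n + 1)
  have h3 := a1 (n + 2) n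
  have h4 := a2 (n + 2) n
  simp only [add_assoc, Nat.reduceAdd] at h1 h2 h3 h4 ⊢
  push_cast at h4 ⊢
  linear_combination ((n : R) + 4) * h1 - ((n : R) + 3) * (x + y) * h2 +
    4 * x * ((n : R) + 3) * h3 - 2 * x * h4

theorem P_comm (x y : R) (n : ℕ) : LP x y n = LP y x n :=
  (P_rec x y).ext (by rw [add_comm, ← neg_sub, neg_sq]; exact P_rec y x) (by simp)
    (by simp [add_comm]) n

theorem P_two (x y : R) : 2 * LP x y 2 = 3 * (x + y) ^ 2 - (x - y) ^ 2 := by
  have := P_rec x y 0
  simp only [Nat.cast_zero, zero_add, P_one, P_zero] at this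
  linear_combination this

theorem Rec.casP {x y : R} {s : ℕ → R} (hs : Rec (x + y) ((x - y) ^ 2) s) (n : ℕ) :
    ((n : R) + 1) * (s (n + 1) * LP x y n - s n * LP x y (n + 1)) =
      (s 1 - (x + y) * s 0) * ((x - y) ^ 2) ^ n := by
  rw [hs.cas (P_rec x y)]; simp [mul_comm]

end Ring

section Field
variable {K : Type*} [Field K]

theorem P_smul [CharZero K] (c x y : K) (n : ℕ) : LP (c * x) (c * y) n = c ^ n * LP x y n :=
  (P_rec (c * x) (c * y)).ext
    (by rw [← mul_add, ← mul_sub, mul_pow]; exact (P_rec x y).scale c) (by simp)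
    (by simp [mul_add]) n

/-- the valuation ring of a nonarchimedean absolute value -/
def intR {v : AbsoluteValue K ℝ} (hv : IsNonarchimedean v) : Subring K where
  carrier := {x | v x ≤ 1}
  mul_mem' := fun {a b} ha hb => by
    simp only [Set.mem_ofPred_eq, map_mul] at *
    exact mul_le_one₀ ha (v.nonneg b) hb
  one_mem' := by simp
  add_mem' := fun {a b} ha hb => (hv a b).trans (max_le ha hb)
  zero_mem' := by simp
  neg_mem' := fun {a} ha => by simpa using ha

theorem v_nat_le {v : AbsoluteValue K ℝ} (hv : IsNonarchimedean v) (n : ℕ) : v n ≤ 1 :=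
  natCast_mem (intR hv) n

theorem v_int_le {v : AbsoluteValue K ℝ} (hv : IsNonarchimedean v) (n : ℤ) : v n ≤ 1 :=
  intCast_mem (intR hv) n

theorem v_sub_le {v : AbsoluteValue K ℝ} (hv : IsNonarchimedean v) (a b : K) :
    v (a - b) ≤ max (v a) (v b) := by
  simpa [sub_eq_add_neg] using hv a (-b)

theorem P_le_one {v : AbsoluteValue K ℝ} (hv : IsNonarchimedean v) {x y : K} (hx : v x ≤ 1)
    (hy : v y ≤ 1) (n : ℕ) : v (LP x y n) ≤ 1 := by
  have := P_map (intR hv).subtype ⟨x, hx⟩ ⟨y, hy⟩ n
  simp only [Subring.subtype_apply] at this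
  rw [← this]
  exact (LP (⟨x, hx⟩ : intR hv) ⟨y, hy⟩ n).2

theorem P_le [CharZero K] {v : AbsoluteValue K ℝ} (hv : IsNonarchimedean v) (x y : K)
    (n : ℕ) : v (LP x y n) ≤ max (v x) (v y) ^ n := by
  wlog h : v x ≤ v y generalizing x y
  · rw [P_comm, max_comm]; exact this y x (le_of_not_ge h)
  rw [max_eq_right h]
  by_cases hy : y = 0
  · subst hy
    have hx : x = 0 := by simpa using h
    subst hx
    simpa using mul_le_of_le_one_right (v.nonneg (0 ^ n)) (P_le_one hv (x := 0) (y := 0)
      (by simp) (by simp) n) |>.trans_eq' (by rw [← map_mul, ← P_smul]; simp)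
  have hp : 0 < v y := v.pos hy
  rw [show LP x y n = y ^ n * LP (x / y) 1 n by rw [← P_smul]; congr 1 <;> field_simp, map_mul,
    map_pow]
  exact mul_le_of_le_one_right (by positivity)
    (P_le_one hv (by rwa [map_div₀, div_le_one hp]) (by simp) n)

/-- Lucas congruence -/
theorem P_lucas {v : AbsoluteValue K ℝ} (hv : IsNonarchimedean v) {x y : K} (hx : v x ≤ 1)
    (hy : v y ≤ 1) {p : ℕ} (hp : p.Prime) (hvp : v p < 1) {m : ℕ} (hm : v (LP x y m) = 1) :
    v (LP x y (m * p)) = 1 := by
  have : Fact p.Prime := ⟨hp⟩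
  let I : Ideal (intR hv) :=
    { carrier := {a | v a < 1}
      add_mem' := fun {a b} ha hb => (hv a b).trans_lt (max_lt ha hb)
      zero_mem' := by simp
      smul_mem' := fun c a ha => by
        simp only [Set.mem_ofPred_eq, smul_eq_mul, Subring.coe_mul, map_mul] at *
        exact (mul_le_of_le_one_left (v.nonneg _) c.2).trans_lt ha }
  have mem : ∀ a : intR hv, Ideal.Quotient.mk I a = 0 ↔ v a < 1 := fun a =>
    Ideal.Quotient.eq_zero_iff_mem
  have : Nontrivial (intR hv ⧸ I) := ⟨⟨1, 0, fun h => by simpa using (mem 1).1 h⟩⟩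
  have : CharP (intR hv ⧸ I) p := (CharP.charP_iff_prime_eq_zero hp).2 (by
    rw [← map_natCast (Ideal.Quotient.mk I), mem]; simpa using hvp)
  have e : ∀ n, LP x y n = (LP (⟨x, hx⟩ : intR hv) ⟨y, hy⟩ n : intR hv) := fun n =>
    (P_map (intR hv).subtype ⟨x, hx⟩ ⟨y, hy⟩ n).symm
  refine le_antisymm (P_le_one hv hx hy _) (not_lt.1 fun h => ?_)
  rw [e, ← mem, P_map, P_frob, ← P_map, ← map_pow, mem] at h
  rw [e] at hm
  simp [hm] at h

end Field

end Pool.Agent.P.MP_68214b_ag
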