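import Mathlib

open Polynomial

namespace Pool.Agent.P.MP_68214b_ag.DS

noncomputable section

variable {A B C : Type*} [Field A] [Field B] [Field C]

/-- the trace along a ring map of fields -/
def tr (ι : A →+* B) : B →+ A := (@Algebra.trace A B _ _ ι.toAlgebra).toAddMonoidHom

/-- the degree along a ring map of fields -/
def rk (ι : A →+* B) : ℕ := @Module.finrank A B _ _ ι.toAlgebra.toModule

theorem tr_mul (ι : A →+* B) (a : A) (z : B) : tr ι (ι a * z) = a * tr ι z := by
  let := ι.toAlgebra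
  exact (Algebra.trace A B).map_smul a z

theorem tr_comp {ι : A →+* B} {κ : B →+* C} (h1 : ι.Finite) (h2 : κ.Finite) (z : C) :
    tr (κ.comp ι) z = tr ι (tr κ z) := by
  let := ι.toAlgebra
  let := κ.toAlgebra
  let := (κ.comp ι).toAlgebra
  have : IsScalarTower A B C := IsScalarTower.of_algebraMap_eq' rfl
  have : Module.Finite A B := h1
  have : Module.Finite B C := h2
  exact (Algebra.trace_trace z).symm

theorem rk_comp (ι : A →+* B) (κ : B →+* C) : rk (κ.comp ι) = rk ι * rk κ := by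
  let := ι.toAlgebra
  let := κ.toAlgebra
  let := (κ.comp ι).toAlgebra
  have : IsScalarTower A B C := IsScalarTower.of_algebraMap_eq' rfl
  exact (Module.finrank_mul_finrank A B C).symm

theorem rk_pos {ι : A →+* B} (h : ι.Finite) : 0 < rk ι := by
  let := ι.toAlgebra
  have : Module.Finite A B := h
  exact Module.finrank_pos

theorem tr_val [CharZero A] [IsAlgClosed C] {ι : A →+* B} (h : ι.Finite) (τ0 : A →+* C)
    {Γ : Type*} [LinearOrderedCommMonoidWithZero Γ] (v : Valuation C Γ) (z : B) :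
    ∃ τ : B →+* C, τ.comp ι = τ0 ∧ v (τ0 (tr ι z)) ≤ v (τ z) := by
  let := ι.toAlgebra
  let := τ0.toAlgebra
  have : Module.Finite A B := h
  have e : τ0 (tr ι z) = ∑ σ : B →ₐ[A] C, σ z := trace_eq_sum_embeddings C
  obtain ⟨σ, -, hσ⟩ := Finset.univ.exists_max_image (fun σ : B →ₐ[A] C => v (σ z))
    ⟨IsAlgClosed.lift, Finset.mem_univ _⟩
  exact ⟨σ, σ.comp_algebraMap, e ▸ v.map_sum_le hσ⟩

theorem tr_nd [CharZero A] {ι : A →+* B} (h : ι.Finite) : ∃ b : Fin (rk ι) → B,
    ∀ (c : Fin (rk ι) → A) (z : B), (∀ i, c i ≠ 0) → (∀ i, tr ι (z * (ι (c i) * b i)) = 0) →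
      z = 0 := by
  let := ι.toAlgebra
  have : Module.Finite A B := h
  let b := Module.finBasis A B
  refine ⟨b, fun c z hc hz => (traceForm_nondegenerate A B).1 z fun y => ?_⟩
  have : Algebra.traceForm A B z = 0 := b.ext fun i => by
    have := hz i
    rw [mul_left_comm, tr_mul] at this
    exact (mul_eq_zero.1 this).resolve_left (hc i)
  rw [this, LinearMap.zero_apply]

theorem tr_rel {ι : A →+* B} (h : ι.Finite) (z : B) :
    ∃ p : A[X], p ≠ 0 ∧ p.natDegree ≤ rk ι ∧ p.eval₂ ι z = 0 := by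
  let := ι.toAlgebra
  have : Module.Finite A B := h
  exact ⟨minpoly A z, minpoly.ne_zero_of_finite A z, minpoly.natDegree_le z, minpoly.aeval A z⟩

theorem tr_basis {ι : A →+* B} {D : ℕ} (hD : 0 < D) (h : rk ι = D) (b : Fin D → B)
    (hb : ∀ c : Fin D → A, ∑ i, ι (c i) * b i = 0 → ∀ i, c i = 0) (u : B) :
    ∃ c : Fin D → Fin D → A, (∀ i, u * b i = ∑ j, ι (c i j) * b j) ∧ tr ι u = ∑ i, c i i := by
  let := ι.toAlgebra
  have : Nonempty (Fin D) := ⟨⟨0, hD⟩⟩
  have hl : LinearIndependent A b := Fintype.linearIndependent_iff.2 hb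
  let β := basisOfLinearIndependentOfCardEqFinrank hl ((Fintype.card_fin D).trans h.symm)
  have hβ : ∀ i, β i = b i := fun i => by simp [β]
  refine ⟨fun i j => β.repr (u * b i) j, fun i => ?_, ?_⟩
  · conv_lhs => rw [← β.sum_repr (u * b i)]
    exact Finset.sum_congr rfl fun j _ => by rw [hβ]; rfl
  · change Algebra.trace A B u = _
    rw [Algebra.trace_eq_matrix_trace β, Matrix.trace]
    exact Finset.sum_congr rfl fun i _ => by
      rw [Matrix.diag_apply, Algebra.leftMulMatrix_eq_repr_mul, hβ]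

theorem rk_dep {ι : A →+* B} (h : ι.Finite) (b : Fin (rk ι + 1) → B) :
    ∃ c : Fin (rk ι + 1) → A, ∑ i, ι (c i) * b i = 0 ∧ ∃ i, c i ≠ 0 := by
  let := ι.toAlgebra
  have : Module.Finite A B := h
  refine Fintype.not_linearIndependent_iff.1 fun hl => ?_
  have := hl.fintype_card_le_finrank
  rw [Fintype.card_fin] at this
  exact Nat.not_succ_le_self _ this

end

end Pool.Agent.P.MP_68214b_ag.DS
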