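import Pool.Agent.P.MP_68214b_ag.DG1

open Polynomial Pointwise

namespace Pool.Agent.P.MP_68214b_ag.DS

theorem dg2_irr (f : ℂ[X]) : Irreducible (f.map C - C X : ℂ[X][X]) := by
  have e : (f.map C - C X : ℂ[X][X]) = Bivariate.swap (-(X - C f) : ℂ[X][X]) := by
    rw [neg_sub, map_sub, Bivariate.swap_C, Bivariate.swap_Y]
  rw [e, MulEquiv.irreducible_iff]
  exact (Associated.neg_right (Associated.refl _)).irreducible (irreducible_X_sub_C f)

theorem dual {K L : Type*} [Field K] [Field L] [Algebra ℂ[X] K] [IsFractionRing ℂ[X] K]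
    (ψ : K →+* L) (e : ℂ[X] →+* L) {f : ℂ[X]} (hf : f.Monic) (hd : 0 < f.natDegree)
    (he : ∀ p, ψ (algebraMap ℂ[X] K p) = e (p.comp f)) (hs : ∀ z, ∃ p q, z = e p / e q) :
    ψ.Finite ∧ rk ψ = f.natDegree ∧ ∀ z : L,
      (∀ r, tr ψ (z * e r / e (derivative f)) ∈ (algebraMap ℂ[X] K).range) ↔ z ∈ e.range := by
  let := ψ.toAlgebra
  let := (ψ.comp (algebraMap ℂ[X] K)).toAlgebra
  have : IsScalarTower ℂ[X] K L := IsScalarTower.of_algebraMap_eq' rfl
  have : CharZero K := charZero_of_injective_algebraMap (IsFractionRing.injective ℂ[X] K)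
  have ha : ∀ p, algebraMap ℂ[X] L p = e (p.comp f) := he
  have hr : ∀ r : ℂ[X], aeval (e X) (r.map C : ℂ[X][X]) = e r := fun r => by
    induction r using Polynomial.induction_on' with
    | add p q hp hq => rw [Polynomial.map_add, map_add, hp, hq, map_add]
    | monomial n a =>
      rw [Polynomial.map_monomial, aeval_monomial, ha, C_comp, ← map_pow, ← map_mul,
        C_mul_X_pow_eq_monomial]
  have hm : (f.map C - C X : ℂ[X][X]).Monic := (hf.map C).sub_of_left
    (degree_C_le.trans_lt (by rw [hf.degree_map]; exact natDegree_pos_iff_degree_pos.1 hd))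
  have h0 : aeval (e X) (f.map C - C X : ℂ[X][X]) = 0 := by
    rw [map_sub, hr, aeval_C, ha, X_comp, sub_self]
  have hi : IsIntegral ℂ[X] (e X) := ⟨_, hm, h0⟩
  have hK : IsIntegral K (e X) := hi.tower_top
  have hp : (f.map C - C X : ℂ[X][X]).map (algebraMap ℂ[X] K) = minpoly K (e X) :=
    minpoly.eq_of_irreducible_of_monic
      (hm.irreducible_iff_irreducible_map_fraction_map.1 (dg2_irr f))
      (by rw [aeval_map_algebraMap, h0]) (hm.map _)
  have hA : ∀ z, z ∈ Algebra.adjoin ℂ[X] {e X} ↔ z ∈ e.range := fun z => by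
    rw [Algebra.adjoin_singleton_eq_range_aeval]
    refine ⟨?_, fun ⟨r, h⟩ => ⟨r.map C, (hr r).trans h⟩⟩
    rintro ⟨G, rfl⟩
    change aeval (e X) G ∈ _
    rw [aeval_eq_sum_range]
    exact sum_mem fun i _ => by
      rw [Algebra.smul_def, ha]
      exact mul_mem ⟨_, rfl⟩ (pow_mem (e.mem_range_self X) _)
  have hT : IntermediateField.adjoin K {e X} = ⊤ := by
    have : ∀ r, e r ∈ IntermediateField.adjoin K {e X} := fun r => by
      rw [← hr r, ← aeval_map_algebraMap K]
      exact IntermediateField.algebra_adjoin_le_adjoin K _ (aeval_mem_adjoin_singleton K _)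
    refine eq_top_iff.2 fun z _ => ?_
    obtain ⟨p, q, rfl⟩ := hs z
    exact div_mem (this p) (this q)
  have hT' : Algebra.adjoin K {e X} = ⊤ := by
    rw [← IntermediateField.adjoin_simple_toSubalgebra_of_isAlgebraic hK.isAlgebraic, hT]
    rfl
  have hF : Module.Finite K L := by
    have := IntermediateField.adjoin.finiteDimensional hK
    rw [hT] at this
    exact IntermediateField.topEquiv.toLinearEquiv.finiteDimensional
  refine ⟨hF, ?_, fun z => ?_⟩
  · refine ((Field.primitive_element_iff_minpoly_natDegree_eq K (e X)).1 hT).symm.trans ?_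
    rw [← hp, hm.natDegree_map, natDegree_sub_C, hf.natDegree_map]
  have hD := traceForm_dualSubmodule_adjoin ℂ[X] K hT' hi
  have e1 : aeval (e X) (derivative (minpoly K (e X))) = e (derivative f) := by
    rw [← hp, derivative_map, aeval_map_algebraMap, derivative_sub, derivative_C, sub_zero,
      derivative_map, hr]
  have e0 : e (derivative f) ≠ 0 := by
    rw [← e1]
    exact (Algebra.IsSeparable.isSeparable K (e X)).aeval_derivative_ne_zero (minpoly.aeval K _)
  have := SetLike.ext_iff.1 hD ((e (derivative f))⁻¹ * z)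
  rw [e1, ← smul_eq_mul, Submodule.mem_smul_pointwise_iff_exists,
    LinearMap.BilinForm.mem_dualSubmodule] at this
  simp only [smul_eq_mul, mul_right_inj' (inv_ne_zero e0), exists_eq_right, Subalgebra.mem_toSubmodule,
    hA] at this
  rw [← this]
  have e2 : ∀ r, tr ψ (z * e r / e (derivative f)) =
      Algebra.traceForm K L ((e (derivative f))⁻¹ * z) (e r) := fun r => by
    rw [Algebra.traceForm_apply, mul_assoc, ← div_eq_inv_mul]
    rfl
  simp only [e2, Submodule.mem_one]
  exact ⟨fun h _ ⟨r, hr⟩ => hr ▸ h r, fun h r => h _ ⟨r, rfl⟩⟩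

end Pool.Agent.P.MP_68214b_ag.DS
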