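import Mathlib

open Polynomial

namespace Pool.Agent.P.MP_68214b_ag.DS

variable {L : Type*} [Field L] [Algebra ℂ L] {Γ : Type*} [LinearOrderedCommGroupWithZero Γ]
  {v : Valuation L Γ}

/-- a relation of degree at most m over the polynomials in x -/
def Rl (x a : L) (m : ℕ) : Prop :=
  ∃ G : ℂ[X][X], G ≠ 0 ∧ G.natDegree ≤ m ∧ aevalAeval x a G = 0

theorem ae_eq (x a : L) (G : ℂ[X][X]) :
    aevalAeval x a G = G.eval₂ (aeval x : ℂ[X] →ₐ[ℂ] L) a := by
  induction G using Polynomial.induction_on' with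
  | add p q hp hq => rw [map_add, hp, hq, eval₂_add]
  | monomial n p =>
    rw [eval₂_monomial, ← C_mul_X_pow_eq_monomial, map_mul, map_pow, aevalAeval_C, aevalAeval_Y]
    rfl

theorem exists_cdeg (G : ℂ[X][X]) : ∃ s, ∀ i, (G.coeff i).natDegree ≤ s :=
  ⟨G.support.sup fun j => (G.coeff j).natDegree, fun j => by
    by_cases hj : j ∈ G.support
    · exact Finset.le_sup (f := fun j => (G.coeff j).natDegree) hj
    · rw [notMem_support_iff.1 hj]; simp⟩

theorem v_top (hv : v.IsTrivialOn ℂ) {x : L} (h : 1 < v x) {p : ℂ[X]} (hp : p ≠ 0) :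
    v (aeval x p) = v x ^ p.natDegree :=
  valuation_aeval_eq_valuation_X_pow_natDegree_of_one_lt_valuation_X x h hp

theorem v_c (hv : v.IsTrivialOn ℂ) (c : ℂ) : v (algebraMap ℂ L c) ≤ 1 :=
  Valuation.IsTrivialOn.valuation_algebraMap_le_one v c

theorem v_le (hv : v.IsTrivialOn ℂ) {x : L} {t : Γ} (ht : 1 ≤ t) (h : v x ≤ t) {p : ℂ[X]} {s : ℕ}
    (hs : p.natDegree ≤ s) : v (aeval x p) ≤ t ^ s := by
  rw [aeval_eq_sum_range]
  refine v.map_sum_le fun i hi => ?_
  rw [Algebra.smul_def, map_mul, map_pow]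
  exact (mul_le_of_le_one_left' (v_c hv _)).trans ((pow_le_pow_left₀ zero_le h i).trans
    (pow_le_pow_right₀ ht ((Nat.lt_succ_iff.1 (Finset.mem_range.1 hi)).trans hs)))

theorem v_le1 (hv : v.IsTrivialOn ℂ) {x : L} (h : v x ≤ 1) (p : ℂ[X]) : v (aeval x p) ≤ 1 :=
  (v_le hv le_rfl h le_rfl).trans_eq (one_pow _)

theorem v_lc (hv : v.IsTrivialOn ℂ) {x a : L} {G : ℂ[X][X]} (h : aevalAeval x a G = 0) {s : ℕ}
    (hs : ∀ i, (G.coeff i).natDegree ≤ s) {t : Γ} (ht : 1 ≤ t) (hx : v x ≤ t) (ha : 1 ≤ v a) :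
    v (aeval x G.leadingCoeff) * v a ≤ t ^ s := by
  rw [ae_eq, eval₂_eq_sum_range, Finset.sum_range_succ, add_eq_zero_iff_neg_eq] at h
  have h1 := congrArg v h
  rw [v.map_neg, map_mul, map_pow] at h1
  rw [leadingCoeff]
  change _ = v (aeval x _) * _ at h1
  generalize G.natDegree = n at h1
  rcases n with _ | n
  · rw [Finset.sum_range_zero, map_zero, pow_zero, mul_one] at h1
    rw [← h1, zero_mul]
    exact zero_le
  have a0 : 0 < v a ^ n := pow_pos (zero_lt_one.trans_le ha) n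
  refine le_of_mul_le_mul_right ?_ a0
  rw [mul_assoc, ← pow_succ', ← h1]
  refine v.map_sum_le fun i hi => ?_
  rw [map_mul, map_pow]
  exact mul_le_mul' (v_le hv ht hx (hs i))
    (pow_le_pow_right₀ ha (Nat.lt_succ_iff.1 (Finset.mem_range.1 hi)))

theorem v_tie (hv : v.IsTrivialOn ℂ) {x a : L} (hx : 1 < v x) (ha : a ≠ 0) {m : ℕ}
    (h : Rl x a m) : ∃ t n1 n2 : ℕ, 0 < t ∧ t ≤ m ∧ v a ^ t * v x ^ n1 = v x ^ n2 := by
  classical
  obtain ⟨G, hG, hm, h⟩ := h
  rw [ae_eq, eval₂_eq_sum, sum_def] at h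
  set T : ℕ → L := fun i => aeval x (G.coeff i) * a ^ i with hT
  have a0 : v a ≠ 0 := (v.ne_zero_iff).2 ha
  have x0 : v x ≠ 0 := (zero_lt_one.trans hx).ne'
  have e : ∀ i ∈ G.support, v (T i) = v x ^ (G.coeff i).natDegree * v a ^ i := fun i hi => by
    rw [hT, map_mul, map_pow, v_top hv hx (mem_support_iff.1 hi)]
  obtain ⟨j, hj, hmax⟩ := G.support.exists_max_image (fun i => v (T i)) (support_nonempty.2 hG)
  obtain ⟨i, hi, hne, hij⟩ : ∃ i ∈ G.support, i ≠ j ∧ v (T i) = v (T j) := by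
    by_contra! hc
    have := v.map_sum_eq_of_lt (f := T) hj fun i hi => by
      rw [Finset.mem_sdiff, Finset.mem_singleton] at hi
      exact (hmax i hi.1).lt_of_ne (hc i hi.1 hi.2)
    rw [show ∑ i ∈ G.support, T i = 0 from h, map_zero, e j hj] at this
    exact mul_ne_zero (pow_ne_zero _ x0) (pow_ne_zero _ a0) this.symm
  have key : ∀ i ∈ G.support, ∀ j ∈ G.support, i < j → v (T i) = v (T j) →
      ∃ t n1 n2 : ℕ, 0 < t ∧ t ≤ m ∧ v a ^ t * v x ^ n1 = v x ^ n2 := fun i hi j hj hlt hij => by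
    obtain ⟨t, rfl⟩ := Nat.exists_eq_add_of_le hlt.le
    have := le_natDegree_of_mem_supp _ hj
    refine ⟨t, (G.coeff (i + t)).natDegree, (G.coeff i).natDegree, by omega, by omega,
      mul_right_cancel₀ (pow_ne_zero i a0) ?_⟩
    rw [← e i hi, hij, e _ hj, pow_add, mul_comm (v a ^ t), mul_comm (v a ^ i), mul_assoc]
  rcases hne.lt_or_gt with h1 | h1
  exacts [key i hi j hj h1 hij, key j hj i hi h1 hij.symm]

theorem v_root (hv : v.IsTrivialOn ℂ) {a : L} {p : ℂ[X]} (hp : p ≠ 0) (h : v (aeval a p) < 1) :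
    ∃ c, v (a - algebraMap ℂ L c) < 1 := by
  by_contra! hc
  refine h.not_ge ?_
  rw [(IsAlgClosed.splits p).eq_prod_roots, map_mul, map_mul, aeval_C,
    hv.eq_one _ (leadingCoeff_ne_zero.2 hp), one_mul, map_multiset_prod, map_multiset_prod]
  refine Multiset.one_le_prod_of_one_le fun y hy => ?_
  simp only [Multiset.map_map, Multiset.mem_map, Function.comp_apply] at hy
  obtain ⟨c, -, rfl⟩ := hy
  rw [map_sub, aeval_X, aeval_C]
  exact hc c

theorem v_res (hv : v.IsTrivialOn ℂ) {x a : L} (hx : 1 < v x) (ha : v a ≤ 1) {G : ℂ[X][X]}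
    (hG : G ≠ 0) (h : aevalAeval a x G = 0) : ∃ c, v (a - algebraMap ℂ L c) < 1 := by
  obtain ⟨s, hs⟩ := exists_cdeg G
  have := v_lc hv h hs le_rfl ha hx.le
  rw [one_pow] at this
  refine v_root hv (leadingCoeff_ne_zero.2 hG) (lt_of_not_ge fun hc => ?_)
  exact (hx.trans_le (le_mul_of_one_le_left' hc)).not_ge this

theorem v_rm (hv : v.IsTrivialOn ℂ) {x : L} {c : ℂ} (h : v (x - algebraMap ℂ L c) < 1) {p : ℂ[X]}
    (hp : p ≠ 0) : v (aeval x p) = v (x - algebraMap ℂ L c) ^ rootMultiplicity c p := by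
  obtain ⟨q, h1, h2⟩ := exists_eq_pow_rootMultiplicity_mul_and_not_dvd p hp c
  have hx : v x ≤ 1 := by
    rw [← sub_add_cancel x (algebraMap ℂ L c)]
    exact v.map_add_le h.le (v_c hv c)
  have h3 : v (aeval x q) = 1 := by
    have e := modByMonic_add_div q (X - C c)
    rw [modByMonic_X_sub_C_eq_C_eval] at e
    have h4 := hv.eq_one _ (mt dvd_iff_isRoot.2 h2)
    rw [← e, map_add, aeval_C, v.map_add_eq_of_lt_left, h4]
    rw [h4, map_mul, map_mul, map_sub, aeval_X, aeval_C]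
    exact (mul_le_of_le_one_right' (v_le1 hv hx _)).trans_lt h
  conv_lhs => rw [h1]
  rw [map_mul, map_mul, h3, mul_one, map_pow, map_pow, map_sub, aeval_X, aeval_C]

end Pool.Agent.P.MP_68214b_ag.DS
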