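import Pool.Agent.P.MP_68214b_ag.DG1
import Pool.Agent.P.MP_68214b_ag.DG3

open Polynomial

namespace Pool.Agent.P.MP_68214b_ag.DS

variable {L : Type*} [Field L] [Algebra ℂ L] {Γ : Type*} [LinearOrderedCommGroupWithZero Γ]
  {v : Valuation L Γ}

theorem v_cyc (hv : v.IsTrivialOn ℂ) {x : L} (hx : 1 < v x) {m : ℕ} (h : ∀ a, Rl x a m) :
    ∃ π : L, π ≠ 0 ∧ v π ≠ 1 ∧ ∀ a, a ≠ 0 → ∃ n : ℤ, v a = v π ^ n := by
  have x0 : v x ≠ 0 := (zero_lt_one.trans hx).ne'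
  let H : AddSubgroup ℤ :=
    { carrier := {n | ∃ a, a ≠ 0 ∧ v a ^ m.factorial = v x ^ n}
      zero_mem' := ⟨1, one_ne_zero, by simp⟩
      add_mem' := fun ⟨a, a0, ha⟩ ⟨b, b0, hb⟩ =>
        ⟨a * b, mul_ne_zero a0 b0, by rw [map_mul, mul_pow, ha, hb, zpow_add₀ x0]⟩
      neg_mem' := fun ⟨a, a0, ha⟩ => ⟨a⁻¹, inv_ne_zero a0, by rw [map_inv₀, inv_pow, ha, zpow_neg]⟩ }
  obtain ⟨g, hg⟩ := Int.subgroup_cyclic H
  obtain ⟨π, π0, hπ⟩ : g ∈ H := hg ▸ AddSubgroup.mem_closure_singleton_self g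
  have key : ∀ a, a ≠ 0 → ∃ n : ℤ, v a = v π ^ n := fun a ha => by
    obtain ⟨t, n1, n2, t0, tm, e⟩ := v_tie hv hx ha (h a)
    obtain ⟨k, hk⟩ := Nat.dvd_factorial t0 tm
    have h1 : ((n2 : ℤ) - n1) * k ∈ H := ⟨a, ha, by
      rw [hk, pow_mul, zpow_mul, zpow_sub₀ x0, zpow_natCast, zpow_natCast, zpow_natCast, ← e,
        mul_div_cancel_right₀ _ (pow_ne_zero _ x0)]⟩
    have h2 : v a ^ m.factorial = v x ^ (((n2 : ℤ) - n1) * k) := by
      rw [hk, pow_mul, zpow_mul, zpow_sub₀ x0, zpow_natCast, zpow_natCast, zpow_natCast, ← e,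
        mul_div_cancel_right₀ _ (pow_ne_zero _ x0)]
    rw [hg, AddSubgroup.mem_closure_singleton] at h1
    obtain ⟨n, hn⟩ := h1
    refine ⟨n, (pow_left_inj₀ zero_le zero_le m.factorial_ne_zero).1 ?_⟩
    rw [h2, ← hn, smul_eq_mul, mul_comm, zpow_mul, ← hπ, ← zpow_natCast, ← zpow_mul, mul_comm,
      zpow_mul, zpow_natCast]
  refine ⟨π, π0, fun h1 => ?_, key⟩
  obtain ⟨n, hn⟩ := key x (v.ne_zero_iff.1 x0)
  rw [h1, one_zpow] at hn
  exact hx.ne' hn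

theorem tr_ne (hv : v.IsTrivialOn ℂ) {x : L} (hx : 1 < v x) {m : ℕ} (h : ∀ a, Rl x a m)
    {φ : L →+* L} {D : ℕ} (hD : 0 < D) (hr : rk φ = D) (hφ : ∀ a, v (φ a) = v a ^ D) {u : L}
    (hu : v u = 1) : tr φ u ≠ 0 := by
  obtain ⟨π, π0, π1, hπ⟩ := v_cyc hv hx h
  have p0 : 0 < v π := zero_lt_iff.2 (v.ne_zero_iff.2 π0)
  have dis : ∀ (c c' : L) (i j : Fin D), c ≠ 0 →
      v (φ c * π ^ (i : ℕ)) = v (φ c' * π ^ (j : ℕ)) → i = j := fun c c' i j hc e => by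
    have hc' : c' ≠ 0 := fun h0 => by
      rw [h0, map_zero, zero_mul, map_zero, v.zero_iff] at e
      exact mul_ne_zero ((map_ne_zero φ).2 hc) (pow_ne_zero _ π0) e
    obtain ⟨n, hn⟩ := hπ c hc
    obtain ⟨n', hn'⟩ := hπ c' hc'
    rw [map_mul, map_mul, hφ, hφ, hn, hn', map_pow, map_pow] at e
    simp only [← zpow_natCast, ← zpow_mul, ← zpow_add₀ p0.ne'] at e
    have e1 := congrArg (· % (D : ℤ)) (zpow_right_injective₀ p0 π1 e)
    simp only [Int.mul_add_emod_self_right] at e1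
    exact Fin.ext (by
      rw [← Nat.mod_eq_of_lt i.2, ← Nat.mod_eq_of_lt j.2]; exact_mod_cast e1)
  have mx : ∀ (c : Fin D → L) (i : Fin D),
      v (φ (c i) * π ^ (i : ℕ)) ≤ v (∑ j, φ (c j) * π ^ (j : ℕ)) := fun c i => by
    obtain ⟨j, -, hj⟩ := Finset.univ.exists_max_image (fun j => v (φ (c j) * π ^ (j : ℕ)))
      ⟨i, Finset.mem_univ _⟩
    by_cases h0 : c j = 0
    · refine (hj i (Finset.mem_univ _)).trans ?_
      rw [h0, map_zero, zero_mul, map_zero]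
      exact zero_le
    rw [v.map_sum_eq_of_lt (f := fun j => φ (c j) * π ^ (j : ℕ)) (Finset.mem_univ j) fun k hk =>
      (hj k (Finset.mem_univ _)).lt_of_ne fun e => (Finset.mem_sdiff.1 hk).2
        (Finset.mem_singleton.2 (dis _ _ _ _ h0 e.symm).symm)]
    exact hj i (Finset.mem_univ _)
  obtain ⟨c, h1, h2⟩ := tr_basis hD hr (fun i => π ^ (i : ℕ)) (fun c hc i => by
    have := mx c i
    rw [hc, map_zero, le_zero_iff, v.zero_iff] at this
    exact (map_eq_zero φ).1 ((mul_eq_zero.1 this).resolve_right (pow_ne_zero _ π0))) u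
  have h3 : ∀ i, v (φ (c i i) - u) < 1 := fun i => by
    have q0 : 0 < v (π ^ (i : ℕ)) := by rw [map_pow]; exact pow_pos p0 _
    have e : (u - φ (c i i)) * π ^ (i : ℕ) =
        ∑ j ∈ Finset.univ.erase i, φ (c i j) * π ^ (j : ℕ) := by
      rw [sub_mul, h1, ← Finset.add_sum_erase _ _ (Finset.mem_univ i), add_sub_cancel_left]
    have := v.map_sum_lt (s := Finset.univ.erase i) (f := fun j => φ (c i j) * π ^ (j : ℕ)) q0.ne'
      fun j hj => by
        have h4 := mx (c i) j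
        rw [← h1, map_mul v u, hu, one_mul] at h4
        refine h4.lt_of_ne fun e => (Finset.mem_erase.1 hj).1
          (dis 1 (c i j) i j one_ne_zero ?_).symm
        rw [map_one, one_mul, e]
    rw [← e, map_mul] at this
    rw [v.map_sub_swap]
    exact (mul_lt_iff_lt_one_left q0).1 this
  intro h0
  have h4 := v.map_sum_lt (s := Finset.univ) one_ne_zero fun i _ => h3 i
  rw [Finset.sum_sub_distrib, ← map_sum, ← h2, h0, map_zero, zero_sub, v.map_neg, Finset.sum_const,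
    Finset.card_fin, nsmul_eq_mul, map_mul, hu, mul_one, ← map_natCast (algebraMap ℂ L),
    hv.eq_one _ (Nat.cast_ne_zero.2 hD.ne')] at h4
  exact lt_irrefl _ h4

end Pool.Agent.P.MP_68214b_ag.DS
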