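import Pool.Agent.P.MP_68214b_ag.DG1
import Pool.Agent.P.MP_68214b_ag.DG3

open Polynomial

namespace Pool.Agent.P.MP_68214b_ag.DS

noncomputable section

variable {L : Type} [Field L] [Algebra ℂ L]

/-- a valuation of L from an embedding and a valuation ring of the algebraic closure -/
def vl (τ : L →+* AlgebraicClosure L) (V : ValuationSubring (AlgebraicClosure L)) :
    Valuation L V.ValueGroup := V.valuation.comap τ

/-- regular where x is regular -/
def Fn (x : L) : Subring L where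
  carrier := {z | ∀ τ V, (vl τ V).IsTrivialOn ℂ → vl τ V x ≤ 1 → vl τ V z ≤ 1}
  one_mem' _ _ _ _ := (map_one _).le
  zero_mem' _ _ _ _ := (map_zero _).trans_le zero_le
  mul_mem' ha hb τ V h1 h2 := (map_mul _ _ _).trans_le (mul_le_one' (ha τ V h1 h2) (hb τ V h1 h2))
  add_mem' ha hb τ V h1 h2 := (vl τ V).map_add_le (ha τ V h1 h2) (hb τ V h1 h2)
  neg_mem' ha τ V h1 h2 := ((vl τ V).map_neg _).trans_le (ha τ V h1 h2)

/-- at most j times the poles of x -/
def Inf (x : L) (j : ℕ) (z : L) : Prop :=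
  ∀ τ V, (vl τ V).IsTrivialOn ℂ → 1 < vl τ V x → vl τ V z ≤ vl τ V x ^ j

/-- L is finite over the rational functions in x -/
structure FF (x : L) (ι : FractionRing ℂ[X] →+* L) : Prop where
  fin : ι.Finite
  map : ∀ p, ι (algebraMap ℂ[X] _ p) = aeval x p

theorem vl_triv {τ τ' : L →+* AlgebraicClosure L} {V : ValuationSubring (AlgebraicClosure L)}
    (h : ∀ c, τ (algebraMap ℂ L c) = τ' (algebraMap ℂ L c)) (hv : (vl τ' V).IsTrivialOn ℂ) :
    (vl τ V).IsTrivialOn ℂ :=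
  ⟨fun c hc => (congrArg V.valuation (h c)).trans (hv.eq_one c hc)⟩

theorem exists_vl {y : L} (hy : Function.Injective (aeval y : ℂ[X] →ₐ[ℂ] L)) (c : ℂ)
    (τ : L →+* AlgebraicClosure L) :
    ∃ V, (vl τ V).IsTrivialOn ℂ ∧ vl τ V (y - algebraMap ℂ L c) < 1 := by
  let g : ℂ[X] →+* AlgebraicClosure L := τ.comp (aeval y : ℂ[X] →ₐ[ℂ] L)
  obtain ⟨V, h1, h2⟩ := Ideal.image_subset_nonunits_valuationSubring (A := g.range)
    (Ideal.span {g.rangeRestrict (X - C c)}) (by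
      rw [Ne, Ideal.eq_top_iff_one, Ideal.mem_span_singleton']
      rintro ⟨a, h⟩
      obtain ⟨q, rfl⟩ := g.rangeRestrict_surjective a
      have h1 : g (q * (X - C c)) = g 1 := by
        rw [map_mul, map_one]; exact congrArg Subtype.val h
      simpa using congrArg (eval c) ((τ.injective.comp hy) h1))
  refine ⟨V, Valuation.IsTrivialOn.of_le_one _ fun a => (V.valuation_le_one_iff _).2
    (h1 ⟨C a, congrArg τ (aeval_C y a)⟩), ?_⟩
  have := V.mem_nonunits_iff.1 (h2 ⟨_, Ideal.mem_span_singleton_self _, rfl⟩)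
  rwa [show g.range.subtype (g.rangeRestrict (X - C c)) = τ (y - algebraMap ℂ L c) from
    congrArg τ (by simp)] at this

theorem Fn_aeval (x : L) (p : ℂ[X]) : aeval x p ∈ Fn x := fun _ _ h1 h2 => v_le1 h1 h2 p

theorem Inf.mul {x a b : L} {i j : ℕ} (ha : Inf x i a) (hb : Inf x j b) : Inf x (i + j) (a * b) :=
  fun τ V h1 h2 => by
    rw [map_mul, pow_add]; exact mul_le_mul' (ha τ V h1 h2) (hb τ V h1 h2)

theorem Inf.mono {x a : L} {i j : ℕ} (ha : Inf x i a) (h : i ≤ j) : Inf x j a :=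
  fun τ V h1 h2 => (ha τ V h1 h2).trans (pow_le_pow_right₀ h2.le h)

theorem Rl.fn {x a : L} {m : ℕ} (h : Rl x a m) : ∃ q : ℂ[X], q ≠ 0 ∧ aeval x q * a ∈ Fn x := by
  obtain ⟨G, hG, -, h⟩ := h
  obtain ⟨s, hs⟩ := exists_cdeg G
  refine ⟨_, leadingCoeff_ne_zero.2 hG, fun τ V h1 h2 => ?_⟩
  rw [map_mul]
  rcases le_total (vl τ V a) 1 with ha | ha
  · exact mul_le_one' (v_le1 h1 h2 _) ha
  · exact (v_lc h1 h hs le_rfl h2 ha).trans_eq (one_pow _)

theorem Rl.bd {x a : L} {m : ℕ} (h : Rl x a m) : ∃ s, ∀ {Γ : Type} [LinearOrderedCommGroupWithZero Γ]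
    (v : Valuation L Γ), v.IsTrivialOn ℂ → 1 < v x → v a ≤ v x ^ s := by
  obtain ⟨G, hG, -, h⟩ := h
  obtain ⟨s, hs⟩ := exists_cdeg G
  refine ⟨s, fun v h1 h2 => ?_⟩
  rcases le_total (v a) 1 with ha | ha
  · exact ha.trans (one_le_pow₀ h2.le)
  · refine le_trans (le_mul_of_one_le_left' ?_) (v_lc h1 h hs h2.le le_rfl ha)
    rw [v_top h1 h2 (leadingCoeff_ne_zero.2 hG)]
    exact one_le_pow₀ h2.le

theorem Rl.inf {x a : L} {m : ℕ} (h : Rl x a m) : ∃ s, Inf x s a :=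
  h.bd.imp fun _ hs τ V => hs (vl τ V)

variable {x : L} {ι : FractionRing ℂ[X] →+* L}

theorem FF.inj (h : FF x ι) : Function.Injective (aeval x : ℂ[X] →ₐ[ℂ] L) := fun p q e =>
  IsFractionRing.injective ℂ[X] (FractionRing ℂ[X]) (ι.injective (by rw [h.map, h.map, e]))

theorem FF.rl (h : FF x ι) (a : L) : Rl x a (rk ι) := by
  obtain ⟨p, p0, p1, p2⟩ := tr_rel h.fin a
  refine ⟨IsLocalization.integerNormalization (nonZeroDivisors ℂ[X]) p,
    mt IsFractionRing.integerNormalization_eq_zero_iff.1 p0, le_trans ?_ p1, ?_⟩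
  · exact natDegree_le_iff_coeff_eq_zero.2 fun n hn => notMem_support_iff.1 fun e =>
      (le_natDegree_of_mem_supp _ (IsLocalization.integerNormalization_support _ p e)).not_gt hn
  · rw [ae_eq, ← IsLocalization.integerNormalization_eval₂_eq_zero (nonZeroDivisors ℂ[X]) ι p p2]
    congr 1
    exact RingHom.ext fun q => (h.map q).symm

theorem FF.tv (h : FF x ι) (z : L) {τ0 : L →+* AlgebraicClosure L}
    {V : ValuationSubring (AlgebraicClosure L)} (hv : (vl τ0 V).IsTrivialOn ℂ) :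
    ∃ τ, (vl τ V).IsTrivialOn ℂ ∧ vl τ V x = vl τ0 V x ∧ vl τ0 V (ι (tr ι z)) ≤ vl τ V z := by
  obtain ⟨τ, h1, h2⟩ := tr_val h.fin (τ0.comp ι) V.valuation z
  have e : ∀ p : ℂ[X], τ (aeval x p) = τ0 (aeval x p) := fun p => by
    rw [← h.map]; exact RingHom.congr_fun h1 _
  exact ⟨τ, vl_triv (fun c => by simpa using e (C c)) hv,
    congrArg V.valuation (by simpa using e X), h2⟩

theorem FF.tr_fn (h : FF x ι) {z : L} (hz : z ∈ Fn x) :
    tr ι z ∈ (algebraMap ℂ[X] (FractionRing ℂ[X])).range := by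
  classical
  obtain ⟨p, q, hq, e⟩ := IsFractionRing.div_surjective ℂ[X] (tr ι z)
  have q0 : q ≠ 0 := nonZeroDivisors.ne_zero hq
  rcases eq_or_ne p 0 with rfl | p0
  · exact ⟨0, by rw [← e, map_zero, zero_div]⟩
  have hd : q ∣ p := (IsAlgClosed.dvd_iff_roots_le_roots q0 p0).2 (Multiset.le_iff_count.2 fun c => by
    rw [count_roots, count_roots]
    obtain ⟨V, h1, h2⟩ := exists_vl h.inj c (algebraMap L _)
    obtain ⟨τ, t1, t2, t3⟩ := h.tv z h1
    have h3 := t3.trans (hz τ V t1 (t2.trans_le (by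
      rw [← sub_add_cancel x (algebraMap ℂ L c)]
      exact Valuation.map_add_le _ h2.le (v_c h1 c))))
    have h4 : 0 < vl (algebraMap L _) V (x - algebraMap ℂ L c) :=
      zero_lt_iff.2 ((Valuation.ne_zero_iff _).2 fun e => X_sub_C_ne_zero c (h.inj (by simpa using e)))
    rw [← e, map_div₀, h.map, h.map, map_div₀, v_rm h1 h2 p0, v_rm h1 h2 q0,
      div_le_one₀ (pow_pos h4 _)] at h3
    exact (pow_le_pow_iff_right_of_lt_one₀ h4 h2).1 h3)
  obtain ⟨r, rfl⟩ := hd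
  exact ⟨r, by
    rw [← e, map_mul, mul_div_cancel_left₀ _ (IsFractionRing.to_map_ne_zero_of_mem_nonZeroDivisors hq)]⟩

theorem FF.tr_inf (h : FF x ι) {z : L} {s : ℕ} (hz : Inf x s z) {p : ℂ[X]}
    (e : algebraMap ℂ[X] (FractionRing ℂ[X]) p = tr ι z) : p.natDegree ≤ s := by
  rcases eq_or_ne p 0 with rfl | p0
  · exact Nat.zero_le _
  have x0 : x ≠ 0 := fun e => X_ne_zero (R := ℂ) (h.inj (by simpa using e))
  obtain ⟨V, h1, h2⟩ := exists_vl (y := x⁻¹) (transcendental_iff_injective.1 fun e =>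
    transcendental_iff_injective.2 h.inj (IsAlgebraic.inv_iff.1 e)) 0 (algebraMap L _)
  rw [map_zero, sub_zero, ← Valuation.one_lt_val_iff _ x0] at h2
  obtain ⟨τ, t1, t2, t3⟩ := h.tv z h1
  have h3 := t3.trans (hz τ V t1 (t2 ▸ h2))
  rw [← e, h.map, v_top h1 h2 p0, t2] at h3
  exact (pow_le_pow_iff_right₀ h2).1 h3

end

end Pool.Agent.P.MP_68214b_ag.DS
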