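import Pool.Agent.P.MP_68214b_ag.DG2
import Pool.Agent.P.MP_68214b_ag.DG5

open Polynomial

namespace Pool.Agent.P.MP_68214b_ag.DS

noncomputable section

variable {L : Type} [Field L] [Algebra ℂ L] {x : L} {ι : FractionRing ℂ[X] →+* L}
  {φ : L →ₐ[ℂ] L} {f : ℂ[X]}

theorem phi_ae (hφ : φ x = aeval x f) (p : ℂ[X]) : φ (aeval x p) = aeval x (p.comp f) := by
  rw [← aeval_algHom_apply, hφ, aeval_comp]

theorem FF.phi (h : FF x ι) (hφ : φ x = aeval x f) (hf : f.Monic) (hd : 0 < f.natDegree) :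
    (φ : L →+* L).Finite ∧ rk (φ : L →+* L) = f.natDegree ∧ ∀ z : L,
      (∀ r : ℂ[X], tr ι (tr (φ : L →+* L) (z * aeval x r / aeval x (derivative f))) ∈
        (algebraMap ℂ[X] (FractionRing ℂ[X])).range) ↔
      tr ι z ∈ (algebraMap ℂ[X] (FractionRing ℂ[X])).range := by
  have hi : Function.Injective ((algebraMap ℂ[X] (FractionRing ℂ[X])).comp (compRingHom f)) :=
    (IsFractionRing.injective _ _).comp ((injective_iff_map_eq_zero (compRingHom f)).2
      fun p hp => (comp_eq_zero_iff.1 hp).resolve_right fun e => by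
        have := congrArg natDegree e.2
        rw [natDegree_C] at this
        omega)
  let ψ : FractionRing ℂ[X] →+* FractionRing ℂ[X] := IsFractionRing.lift hi
  have hψ : ∀ p, ψ (algebraMap ℂ[X] _ p) = algebraMap ℂ[X] _ (p.comp f) :=
    IsFractionRing.lift_algebraMap hi
  have e : (φ : L →+* L).comp ι = ι.comp ψ := IsFractionRing.ringHom_ext (A := ℂ[X]) fun p => by
    rw [RingHom.comp_apply, RingHom.comp_apply, hψ, h.map, h.map, RingHom.coe_coe, phi_ae hφ]
  obtain ⟨h1, h2, h3⟩ := dual ψ (algebraMap ℂ[X] _) hf hd hψ fun z => by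
    obtain ⟨p, q, -, e⟩ := IsFractionRing.div_surjective ℂ[X] z
    exact ⟨p, q, e.symm⟩
  have h4 : (φ : L →+* L).Finite := RingHom.Finite.of_comp_finite (e ▸ h.fin.comp h1)
  refine ⟨h4, ?_, fun z => ?_⟩
  · have := congrArg rk e
    rw [rk_comp, rk_comp, h2, mul_comm] at this
    exact Nat.eq_of_mul_eq_mul_right (rk_pos h.fin) this
  rw [← h3]
  refine forall_congr' fun r => ?_
  rw [← tr_comp h.fin h4, e, tr_comp h1 h.fin, mul_div_assoc, mul_div_assoc, ← h.map, ← h.map,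
    ← map_div₀, mul_comm, tr_mul, mul_comm]

theorem vl_phi {τ : L →+* AlgebraicClosure L} {V : ValuationSubring (AlgebraicClosure L)}
    (hv : (vl τ V).IsTrivialOn ℂ) : (vl (τ.comp φ) V).IsTrivialOn ℂ :=
  vl_triv (fun c => congrArg τ (φ.commutes c)) hv

theorem phi_tv (h : (φ : L →+* L).Finite) (z : L) {τ0 : L →+* AlgebraicClosure L}
    {V : ValuationSubring (AlgebraicClosure L)} (hv : (vl τ0 V).IsTrivialOn ℂ) :
    ∃ τ, (vl τ V).IsTrivialOn ℂ ∧ (∀ y, vl τ V (φ y) = vl τ0 V y) ∧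
      vl τ0 V (tr (φ : L →+* L) z) ≤ vl τ V z := by
  have : CharZero L := charZero_of_injective_algebraMap (algebraMap ℂ L).injective
  obtain ⟨τ, h1, h2⟩ := tr_val h τ0 V.valuation z
  have e : ∀ y, τ (φ y) = τ0 y := RingHom.congr_fun h1
  exact ⟨τ, vl_triv (fun c => by rw [← e, φ.commutes]) hv, fun y => congrArg V.valuation (e y), h2⟩

theorem Fn_phi (hφ : φ x = aeval x f) {z : L} (hz : z ∈ Fn x) : φ z ∈ Fn x := fun τ V h1 h2 =>
  hz (τ.comp φ) V (vl_phi h1) (show vl τ V (φ x) ≤ 1 from hφ ▸ v_le1 h1 h2 f)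

theorem Fn_tr (h : (φ : L →+* L).Finite) (hφ : φ x = aeval x f) (hd : 0 < f.natDegree) {z : L}
    (hz : z ∈ Fn x) : tr (φ : L →+* L) z ∈ Fn x := fun τ0 V h1 h2 => by
  obtain ⟨τ, t1, t2, t3⟩ := phi_tv h z h1
  refine t3.trans (hz τ V t1 (le_of_not_gt fun hc => ?_))
  rw [← t2, hφ, v_top t1 hc (ne_zero_of_natDegree_gt hd)] at h2
  exact (one_lt_pow₀ hc hd.ne').not_ge h2

/-- the differentials a dx with at most simple poles, all at infinity -/
def Wd (x : L) (ι : FractionRing ℂ[X] →+* L) : Submodule ℂ L where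
  carrier := {a | (∀ h ∈ Fn x, tr ι (a * h) ∈ (algebraMap ℂ[X] (FractionRing ℂ[X])).range) ∧
    Inf x 0 (x * a)}
  zero_mem' := ⟨fun _ _ => by rw [zero_mul, map_zero]; exact zero_mem _,
    fun τ V _ _ => by rw [mul_zero, map_zero]; exact zero_le⟩
  add_mem' ha hb := ⟨fun h hh => by rw [add_mul, map_add]; exact add_mem (ha.1 h hh) (hb.1 h hh),
    fun τ V h1 h2 => by rw [mul_add]; exact (vl τ V).map_add_le (ha.2 τ V h1 h2) (hb.2 τ V h1 h2)⟩
  smul_mem' c a ha := ⟨fun h hh => by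
      rw [Algebra.smul_def, mul_comm _ a, mul_assoc, ← aeval_C x]
      exact ha.1 _ (mul_mem (Fn_aeval x _) hh),
    fun τ V h1 h2 => by
      rw [Algebra.smul_def, mul_left_comm, map_mul]
      exact (mul_le_of_le_one_left' (v_c h1 c)).trans (ha.2 τ V h1 h2)⟩

theorem dg6_der (hd : 0 < f.natDegree) : derivative f ≠ 0 := derivative_ne_zero.2 hd.ne'

theorem v_der {Γ : Type*} [LinearOrderedCommGroupWithZero Γ] {v : Valuation L Γ}
    (hv : v.IsTrivialOn ℂ) (hx : 1 < v x) (hd : 0 < f.natDegree) :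
    v x * v (aeval x (derivative f)) = v (aeval x f) := by
  rw [v_top hv hx (dg6_der hd), v_top hv hx (ne_zero_of_natDegree_gt hd), natDegree_derivative,
    ← pow_succ', Nat.sub_add_cancel hd]

theorem FF.pull (h : FF x ι) (hφ : φ x = aeval x f) (hf : f.Monic) (hd : 0 < f.natDegree) {a : L}
    (ha : a ∈ Wd x ι) : φ a * aeval x (derivative f) ∈ Wd x ι := by
  obtain ⟨h1, -, h3⟩ := h.phi hφ hf hd
  have d0 : aeval x (derivative f) ≠ 0 := (map_ne_zero_iff _ h.inj).2 (dg6_der hd)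
  refine ⟨fun y hy => (h3 _).1 fun r => ?_, fun τ V t1 t2 => ?_⟩
  · rw [show φ a * aeval x (derivative f) * y * aeval x r / aeval x (derivative f) =
      (φ : L →+* L) a * (y * aeval x r) by rw [RingHom.coe_coe]; field_simp, tr_mul]
    exact ha.1 _ (Fn_tr h1 hφ hd (mul_mem hy (Fn_aeval x r)))
  · have := ha.2 (τ.comp φ) V (vl_phi t1) (show 1 < vl τ V (φ x) by
      rw [hφ, v_top t1 t2 hf.ne_zero]; exact one_lt_pow₀ t2 hd.ne')
    rw [pow_zero] at this ⊢
    rw [mul_left_comm, map_mul, map_mul, v_der t1 t2 hd, ← hφ, ← map_mul, ← map_mul, mul_comm]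
    exact this

theorem FF.push (h : FF x ι) (hφ : φ x = aeval x f) (hf : f.Monic) {a : L} (ha : a ∈ Fn x) {j : ℕ}
    (hj : Inf x j (x * a)) (hD : rk ι * j < f.natDegree) :
    tr (φ : L →+* L) (a / aeval x (derivative f)) ∈ Wd x ι := by
  have hd : 0 < f.natDegree := by omega
  obtain ⟨h1, -, h3⟩ := h.phi hφ hf hd
  refine ⟨fun y hy => ?_, fun τ0 V t1 t2 => ?_⟩
  · rw [mul_comm, ← tr_mul]
    have := (h3 _).2 (h.tr_fn (mul_mem (Fn_phi hφ hy) ha)) 1
    rwa [map_one, mul_one, mul_div_assoc] at this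
  rw [← tr_mul, pow_zero]
  obtain ⟨τ, s1, s2, s3⟩ := phi_tv h1 ((φ : L →+* L) x * (a / aeval x (derivative f))) t1
  generalize tr (φ : L →+* L) _ = T at s3 ⊢
  have s4 : 1 < vl τ V x := lt_of_not_ge fun hc => by
    rw [← s2, hφ] at t2
    exact t2.not_ge (v_le1 s1 hc f)
  have d0 : vl τ V (aeval x (derivative f)) ≠ 0 :=
    (Valuation.ne_zero_iff _).2 ((map_ne_zero_iff _ h.inj).2 (dg6_der hd))
  rw [RingHom.coe_coe, hφ, map_mul, map_div₀, ← v_der s1 s4 hd, mul_assoc, mul_div_cancel₀ _ d0,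
    ← map_mul] at s3
  have s5 := pow_le_pow_left₀ zero_le (s3.trans (hj τ V s1 s4)) f.natDegree
  rw [← pow_mul, mul_comm, pow_mul, ← v_top s1 s4 hf.ne_zero, ← hφ, s2] at s5
  refine le_of_not_gt fun hc => ?_
  obtain ⟨t, n1, n2, t0, tm, e⟩ := v_tie t1 t2
    ((Valuation.ne_zero_iff _).1 (zero_lt_one.trans hc).ne') (h.rl T)
  have p0 : 0 < vl τ0 V x ^ n1 := pow_pos (zero_lt_one.trans t2) _
  have s6 : n1 + 1 ≤ n2 := (pow_lt_pow_iff_right₀ t2).1
    (e ▸ lt_mul_of_one_lt_left p0 (one_lt_pow₀ hc t0.ne'))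
  have s7 : vl τ0 V x ≤ vl τ0 V T ^ rk ι := by
    refine le_trans (le_of_mul_le_mul_right ?_ p0) (pow_le_pow_right₀ hc.le tm)
    rw [e, ← pow_succ']
    exact pow_le_pow_right₀ t2.le s6
  have s8 := s5.trans (pow_le_pow_left₀ zero_le s7 j)
  rw [← pow_mul] at s8
  exact hD.not_ge ((pow_le_pow_iff_right₀ hc).1 s8)

theorem FF.fd (h : FF x ι) : FiniteDimensional ℂ (Wd x ι) := by
  obtain ⟨b, hb⟩ := tr_nd h.fin
  choose q q0 hq using fun i => (h.rl (b i)).fn
  choose s hs using fun i => (h.rl (aeval x (q i) * b i)).inf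
  obtain ⟨S, hS⟩ := (Set.finite_range s).bddAbove
  choose p hp using fun (a : Wd x ι) i => a.2.1 _ (hq i)
  have inj := IsFractionRing.injective ℂ[X] (FractionRing ℂ[X])
  have hd : ∀ a i, (p a i).natDegree ≤ S := fun a i => by
    have h1 := (a.2.2.mul (hs i)).mono (show 0 + s i ≤ S by simpa using hS ⟨i, rfl⟩)
    have := h.tr_inf h1 (p := X * p a i) (by
      rw [map_mul, hp, ← tr_mul, h.map, aeval_X, mul_assoc])
    by_cases h0 : p a i = 0
    · simp [h0]
    · rw [natDegree_X_mul h0] at this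
      omega
  let F : Wd x ι →ₗ[ℂ] (Fin (rk ι) → degreeLE ℂ S) :=
    { toFun := fun a i => ⟨p a i, mem_degreeLE.2 (degree_le_of_natDegree_le (hd a i))⟩
      map_add' := fun a a' => funext fun i => Subtype.ext (inj (by
        simp only [Pi.add_apply, Submodule.coe_add, map_add, hp, add_mul]))
      map_smul' := fun c a => funext fun i => Subtype.ext (inj (by
        simp only [Pi.smul_apply, Submodule.coe_smul, RingHom.id_apply, hp]
        rw [smul_eq_C_mul, map_mul (algebraMap ℂ[X] _), hp, ← tr_mul, h.map, aeval_C, Algebra.smul_def, mul_assoc])) }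
  have : FiniteDimensional ℂ (degreeLE ℂ S) := by
    rw [← degreeLT_succ_eq_degreeLE]; infer_instance
  refine FiniteDimensional.of_injective F ((injective_iff_map_eq_zero F).2 fun a ha => Subtype.ext
    (hb (fun i => algebraMap ℂ[X] _ (q i)) a (fun i => (map_ne_zero_iff _ inj).2 (q0 i)) fun i => ?_))
  rw [h.map, ← hp, show p a i = 0 from congrArg Subtype.val (congrFun ha i), map_zero]

end

end Pool.Agent.P.MP_68214b_ag.DS
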