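import Pool.Agent.P.MP_68214b_ag.DSA1

open Polynomial Filter Asymptotics NumberField Topology

namespace Pool.Agent.P.MP_68214b_ag.DS

theorem iter_succ {R : Type*} [CommRing R] (f : R[X]) (l : ℕ) :
    iter f (l + 1) = f.comp (iter f l) := Function.iterate_succ_apply' _ _ _

theorem iter_zero {R : Type*} [CommRing R] (f : R[X]) : iter f 0 = X := rfl

theorem iter_succ' {R : Type*} [CommRing R] (f : R[X]) (l : ℕ) :
    iter f (l + 1) = (iter f l).comp f := by
  induction l with
  | zero => rw [iter_succ, iter_zero, comp_X, X_comp]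
  | succ l ih => rw [iter_succ, ih, ← comp_assoc, ← iter_succ, ← ih]

theorem iter_eval {R : Type*} [CommRing R] (f : R[X]) (l : ℕ) (x : R) :
    (iter f l).eval x = (fun y => f.eval y)^[l] x := by
  induction l with
  | zero => simp [iter_zero]
  | succ l ih => rw [iter_succ, eval_comp, ih, Function.iterate_succ_apply']

theorem iter_natDegree {R : Type*} [CommRing R] [IsDomain R] (f : R[X]) (l : ℕ) :
    (iter f l).natDegree = f.natDegree ^ l := by
  induction l with
  | zero => simp [iter_zero]
  | succ l ih => rw [iter_succ, natDegree_comp, ih, pow_succ']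

theorem iter_monic {R : Type*} [CommRing R] [IsDomain R] {f : R[X]} (hf : f.Monic)
    (hd : 0 < f.natDegree) (l : ℕ) : (iter f l).Monic := by
  induction l with
  | zero => exact monic_X
  | succ l ih =>
    rw [iter_succ]
    exact hf.comp ih (by rw [iter_natDegree]; exact (pow_pos hd _).ne')

theorem iter_map {R S : Type*} [CommRing R] [CommRing S] (φ : R →+* S) (f : R[X]) (l : ℕ) :
    (iter f l).map φ = iter (f.map φ) l := by
  induction l with
  | zero => simp [iter_zero]
  | succ l ih => rw [iter_succ, iter_succ, map_comp, ih]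

theorem iter_add {R : Type*} [CommRing R] (f : R[X]) (k l : ℕ) :
    iter f (k + l) = (iter f k).comp (iter f l) := by
  induction k with
  | zero => rw [zero_add, iter_zero, X_comp]
  | succ k ih => rw [add_right_comm, iter_succ, iter_succ, ih, comp_assoc]

theorem NoTot.iterate {g : ℂ[X]} (hd : 2 ≤ g.natDegree) (h : NoTot g) {l : ℕ} (hl : 0 < l) :
    NoTot (iter g l) := by
  intro E hE hne
  by_contra! hcon
  have hpos : ∀ j, 0 < (iter g j).natDegree := fun j => by
    rw [iter_natDegree]; exact pow_pos (by omega) _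
  obtain ⟨c, ⟨j, hj, hc⟩, hc'⟩ := h {c | ∃ j < l, (iter g j).eval c ∈ E}
    (by
      have : {c | ∃ j < l, (iter g j).eval c ∈ E} =
          ⋃ j ∈ Set.Iio l, {c | (iter g j).eval c ∈ E} := by ext; simp
      rw [this]
      exact (Set.finite_Iio l).biUnion fun j _ => pre_fin (hpos j) hE)
    (by obtain ⟨e, he⟩ := hne; exact ⟨e, 0, hl, by simpa [iter_zero] using he⟩)
  rw [← eval_comp, ← iter_succ'] at hc
  rcases (Nat.succ_le_of_lt hj).lt_or_eq with h1 | h1
  · exact hc' ⟨j + 1, h1, hc⟩
  · refine hc' ⟨0, hl, ?_⟩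
    rw [iter_zero, eval_X]
    exact hcon c (by rw [← h1]; exact hc)

theorem NS.iterate {g : ℂ[X]} (hd : 2 ≤ g.natDegree) (h : NS g) {l : ℕ} (hl : 0 < l) :
    NS (iter g l) := by
  have ht := h.tot.iterate hd hl
  refine ⟨ht, ?_⟩
  rintro ⟨e, ν, he, hfin, hν⟩
  have g0 : 0 < g.natDegree := by omega
  have h0 : 0 < (iter g l).natDegree := by rw [iter_natDegree]; exact pow_pos g0 _
  have hcomm : g.comp (iter g l) = (iter g l).comp g := by rw [← iter_succ, iter_succ']
  refine h.orb ⟨e, ν, he, hfin, ?_⟩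
  by_contra! hcon
  have hE : {c | ν c ≠ em g c * ν (g.eval c)}.Finite := by
    refine (hfin.union ((em_fin g0).union (pre_fin g0 hfin))).subset fun c hc => ?_
    by_contra hn
    simp only [Set.mem_union, Set.mem_ofPred_eq, not_or, not_not] at hn
    exact hc (by rw [hn.1, hn.2.1, hn.2.2]; simp)
  obtain ⟨c, hc, hc'⟩ := ht _ hE hcon
  refine hc ?_
  have e1 := em_comp g0 h0 c
  have e2 := em_comp h0 g0 c
  rw [hcomm, e2] at e1
  have e3 : (iter g l).eval (g.eval c) = g.eval ((iter g l).eval c) := by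
    rw [← eval_comp, ← hcomm, eval_comp]
  have h1 : ν c = em g c * ν (g.eval c) := not_not.1 hc'
  have h2 := hν c
  have h3 := hν (g.eval c)
  rw [e3] at h3
  have hp : (em (iter g l) c : ℤ) ≠ 0 := Nat.cast_ne_zero.2 (em_pos h0 c).ne'
  have e4 : (em g c : ℤ) * em (iter g l) (g.eval c) =
      em (iter g l) c * em g ((iter g l).eval c) := by exact_mod_cast e1
  refine mul_left_cancel₀ hp ?_
  rw [← h2, h1, h3, ← mul_assoc, e4, mul_assoc]

theorem step_iter {R : Type*} [CommRing R] {f : R[X]} {x : ℕ → R}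
    (h : ∀ n, x (n + 1) = f.eval (x n)) (n l : ℕ) : x (n + l) = (iter f l).eval (x n) := by
  induction l with
  | zero => simp [iter_zero]
  | succ l ih => rw [← add_assoc, h, ih, iter_succ, eval_comp]

theorem Orb.prog {K : Type*} [Field K] {f : K[X]} {x : ℕ → K} (h : Orb f x) (c : ℕ) {l : ℕ}
    (hl : 0 < l) : Orb (iter f l) fun t => x (c + l * t) := by
  have hd := h.deg
  refine ⟨iter_monic h.monic (by omega) l, ?_, fun t => ?_⟩
  · rw [iter_natDegree]
    exact hd.trans (Nat.le_self_pow hl.ne' _)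
  · rw [mul_add, mul_one, ← add_assoc, step_iter h.step]

theorem Orb.conj {K : Type*} [Field K] {f : K[X]} {x : ℕ → K} (h : Orb f x) (c : K →+* K) :
    Orb (f.map c) fun n => c (x n) := by
  refine ⟨h.monic.map c, by rw [natDegree_map]; exact h.deg, fun n => ?_⟩
  rw [h.step, eval_map, eval₂_at_apply]

theorem NSa.iter {K : Type*} [Field K] {f : K[X]} (h : NSa f) (hd : 2 ≤ f.natDegree) {l : ℕ}
    (hl : 0 < l) : NSa (iter f l) := fun σ => by
  rw [iter_map]
  exact (h σ).iterate (by rwa [natDegree_map]) hl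

theorem NSa.map {K : Type*} [Field K] {f : K[X]} (h : NSa f) (c : K →+* K) : NSa (f.map c) :=
  fun σ => by rw [Polynomial.map_map]; exact h _

end Pool.Agent.P.MP_68214b_ag.DS
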