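import Pool.Agent.P.MP_68214b_ag.DSDef

open Polynomial Filter Asymptotics NumberField Topology

namespace Pool.Agent.P.MP_68214b_ag.DS

theorem dsm1_field {B E : Type*} [CommRing B] [IsDomain B] [Field E] [Algebra B E]
    (hinj : Function.Injective (algebraMap B E)) (φ : E →+* E) (φB : B →+* B)
    (hc : ∀ b, φ (algebraMap B E b) = algebraMap B E (φB b)) {R : E} (hR : R ≠ 0)
    (halg : IsAlgebraic B R) {γ δ : B}
    (e1 : φ R * algebraMap B E γ = R * algebraMap B E δ) :
    ∃ (e : ℕ) (a b : B), 0 < e ∧ a ≠ 0 ∧ b ≠ 0 ∧ φB a * b * γ ^ e = a * φB b * δ ^ e := by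
  classical
  have hex : ∃ n, ∃ m : B[X], m ≠ 0 ∧ aeval R m = 0 ∧ m.natDegree = n := by
    obtain ⟨m, h1, h2⟩ := halg
    exact ⟨_, m, h1, h2, rfl⟩
  obtain ⟨m, hm, hmR, hdeg⟩ := Nat.find_spec hex
  have hmin : ∀ q : B[X], aeval R q = 0 → q.natDegree < m.natDegree → q = 0 := fun q h1 h2 => by
    by_contra h0
    exact Nat.find_min hex (hdeg ▸ h2) ⟨q, h0, h1, rfl⟩
  set e := m.natDegree with he
  have hb : m.coeff e ≠ 0 := leadingCoeff_ne_zero.2 hm
  have hpos : 0 < e := by
    by_contra h0
    have h0' : e = 0 := by omega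
    rw [eq_C_of_natDegree_eq_zero h0', aeval_C, map_eq_zero_iff _ hinj] at hmR
    exact hb (h0' ▸ hmR)
  have ha : m.coeff 0 ≠ 0 := fun h0 => by
    have h1 : m = X * m.divX := by
      have := X_mul_divX_add m
      rwa [h0, C_0, add_zero, eq_comm] at this
    have h2 : aeval R m.divX = 0 := by
      rw [h1, map_mul, aeval_X] at hmR
      exact (mul_eq_zero.1 hmR).resolve_left hR
    have h3 := hmin _ h2 (by rw [natDegree_divX_eq_natDegree_tsub_one]; omega)
    rw [h3, mul_zero] at h1
    exact hm h1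
  set m' : B[X] := ∑ t ∈ Finset.range (e + 1), monomial t (φB (m.coeff t) * γ ^ (e - t) * δ ^ t)
    with hm'
  have hco : ∀ t, m'.coeff t =
      if t ≤ e then φB (m.coeff t) * γ ^ (e - t) * δ ^ t else 0 := fun t => by
    simp only [hm', finsetSum_coeff, coeff_monomial, Finset.sum_ite_eq', Finset.mem_range,
      Nat.lt_succ_iff]
  have hR' : aeval R m' = 0 := by
    have h1 := congrArg φ hmR
    rw [aeval_eq_sum_range, map_sum, map_zero] at h1
    have h2 := congrArg (· * algebraMap B E γ ^ e) h1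
    simp only [zero_mul, Finset.sum_mul] at h2
    rw [hm', map_sum, ← h2]
    refine Finset.sum_congr rfl fun t ht => ?_
    have ht' : t ≤ e := Nat.lt_succ_iff.1 (Finset.mem_range.1 ht)
    obtain ⟨k, hk⟩ := Nat.exists_eq_add_of_le ht'
    have h3 : φ R ^ t * algebraMap B E γ ^ t = R ^ t * algebraMap B E δ ^ t := by
      rw [← mul_pow, e1, mul_pow]
    rw [aeval_monomial, Algebra.smul_def, map_mul φ, hc, map_pow φ, hk, Nat.add_sub_cancel_left,
      pow_add]
    simp only [map_mul, map_pow]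
    linear_combination (-(algebraMap B E (φB (m.coeff t)) * algebraMap B E γ ^ k)) * h3
  have hq : C (m.coeff e) * m' - C (m'.coeff e) * m = 0 := by
    refine hmin _ (by simp [hR', hmR]) ?_
    have : (C (m.coeff e) * m' - C (m'.coeff e) * m).natDegree ≤ e - 1 := by
      rw [natDegree_le_iff_coeff_eq_zero]
      intro N hN
      rw [coeff_sub, coeff_C_mul, coeff_C_mul]
      rcases (show N = e ∨ e < N by omega) with rfl | h
      · ring
      · rw [hco N, if_neg (by omega), coeff_eq_zero_of_natDegree_lt h]; ring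
    omega
  refine ⟨e, m.coeff 0, m.coeff e, hpos, ha, hb, ?_⟩
  have := congrArg (fun q => q.coeff 0) hq
  simp only [coeff_sub, coeff_C_mul, coeff_zero] at this
  rw [hco 0, hco e, if_pos (Nat.zero_le _), if_pos le_rfl] at this
  simp only [Nat.sub_zero, pow_zero, Nat.sub_self, mul_one] at this
  linear_combination this

theorem ms1 {A B : Type*} [CommRing A] [IsDomain A] [CommRing B] [IsDomain B] [Algebra B A]
    [FaithfulSMul B A] [Algebra.IsAlgebraic B A] (φA : A →+* A) (φB : B →+* B)
    (hc : ∀ b, φA (algebraMap B A b) = algebraMap B A (φB b)) (hφ : Function.Injective φA)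
    {α β h : A} (hα : α ≠ 0) (hβ : β ≠ 0) {γ δ : B} (hγ : γ ≠ 0) (hδ : δ ≠ 0)
    (e1 : φA α * algebraMap B A γ = α * h) (e2 : φA β * algebraMap B A δ = β * h) :
    ∃ (e : ℕ) (a b : B), 0 < e ∧ a ≠ 0 ∧ b ≠ 0 ∧ φB a * b * γ ^ e = a * φB b * δ ^ e := by
  let E := FractionRing A
  have hA : Function.Injective (algebraMap A E) := IsFractionRing.injective A E
  have hB : Function.Injective (algebraMap B A) := FaithfulSMul.algebraMap_injective B A
  have ht : ∀ b, algebraMap B E b = algebraMap A E (algebraMap B A b) := fun b =>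
    IsScalarTower.algebraMap_apply B A E b
  have hinj : Function.Injective (algebraMap B E) := fun x y e => hB (hA (by rw [← ht, ← ht, e]))
  have hg : Function.Injective ((algebraMap A E).comp φA) := hA.comp hφ
  let φ : E →+* E := IsFractionRing.lift hg
  have hφ' : ∀ a, φ (algebraMap A E a) = algebraMap A E (φA a) := fun a =>
    IsFractionRing.lift_algebraMap hg a
  have n1 : algebraMap A E α ≠ 0 := (map_ne_zero_iff _ hA).2 hα
  have n2 : algebraMap A E β ≠ 0 := (map_ne_zero_iff _ hA).2 hβ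
  have n3 : algebraMap A E (φA β) ≠ 0 := (map_ne_zero_iff _ hA).2 ((map_ne_zero_iff _ hφ).2 hβ)
  have al : ∀ a : A, IsAlgebraic B (algebraMap A E a) := fun a =>
    (Algebra.IsAlgebraic.isAlgebraic (R := B) a).algebraMap
  refine dsm1_field hinj φ φB (fun b => by rw [ht, hφ', hc, ht])
    (R := algebraMap A E α * (algebraMap A E β)⁻¹) (mul_ne_zero n1 (inv_ne_zero n2))
    ((al α).mul (al β).inv) ?_
  have f1 := congrArg (algebraMap A E) e1
  have f2 := congrArg (algebraMap A E) e2
  simp only [map_mul] at f1 f2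
  rw [map_mul, map_inv₀, hφ', hφ', ht, ht]
  have i1 := mul_inv_cancel₀ n2
  have i2 := mul_inv_cancel₀ n3
  linear_combination (algebraMap A E (φA β))⁻¹ * f1
    - algebraMap A E α * (algebraMap A E β)⁻¹ * (algebraMap A E (φA β))⁻¹ * f2
    - algebraMap A E α * algebraMap A E h * (algebraMap A E (φA β))⁻¹ * i1
    + algebraMap A E α * (algebraMap A E β)⁻¹ * algebraMap A E (algebraMap B A δ) * i2

end Pool.Agent.P.MP_68214b_ag.DS
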