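import Pool.Agent.P.MP_68214b_ag.DSA1

open Polynomial Filter Asymptotics NumberField Topology

namespace Pool.Agent.P.MP_68214b_ag.DS

theorem dsm4_pow {B : Type*} [CommRing B] [IsDomain B] {p : B[X]} (hp : p ≠ 0) (x : B) (m : ℕ) :
    rootMultiplicity x (p ^ m) = m * rootMultiplicity x p := by
  induction m with
  | zero => rw [pow_zero, zero_mul, ← C_1, rootMultiplicity_C]
  | succ m ih =>
    rw [pow_succ, rootMultiplicity_mul (mul_ne_zero (pow_ne_zero _ hp) hp), ih]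
    ring

theorem dsm4_key {B : Type*} [CommRing B] [IsDomain B] [Algebra ℂ B] (ψ : B →ₐ[ℂ] B)
    (hψ : Function.Injective ψ) {g : ℂ[X]} (hg : 0 < g.natDegree) (Φ : B[X] →+* B[X])
    (hC : ∀ b, Φ (C b) = C (ψ b)) (hX : Φ X = g.map (algebraMap ℂ B)) {a : B[X]} (ha : a ≠ 0)
    (c : ℂ) : Φ a ≠ 0 ∧ rootMultiplicity (algebraMap ℂ B c) (Φ a) =
      em g c * rootMultiplicity (algebraMap ℂ B (g.eval c)) a := by
  have hi : Function.Injective (algebraMap ℂ B) := (algebraMap ℂ B).injective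
  obtain ⟨a1, e1, hn⟩ :=
    exists_eq_pow_rootMultiplicity_mul_and_not_dvd a ha (algebraMap ℂ B (g.eval c))
  generalize rootMultiplicity (algebraMap ℂ B (g.eval c)) a = m at e1 ⊢
  have hE : (evalRingHom (algebraMap ℂ B c)).comp Φ =
      (ψ : B →+* B).comp (evalRingHom (algebraMap ℂ B (g.eval c))) := by
    refine ringHom_ext (fun b => ?_) ?_
    · simp [hC]
    · simp [hX, eval_map_algebraMap, aeval_algebraMap_apply]
  have h1 : (Φ a1).eval (algebraMap ℂ B c) ≠ 0 := by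
    have := RingHom.congr_fun hE a1
    simp only [RingHom.comp_apply, coe_evalRingHom, RingHom.coe_coe] at this
    rw [this]
    intro h0
    exact hn (dvd_iff_isRoot.2 (hψ (h0.trans (map_zero ψ).symm)))
  have h2 : Φ a1 ≠ 0 := fun h0 => h1 (by rw [h0, eval_zero])
  have h3 : g - C (g.eval c) ≠ 0 := fun h0 => by
    rw [sub_eq_zero] at h0
    rw [h0, natDegree_C] at hg
    exact lt_irrefl _ hg
  have h4 : (g - C (g.eval c)).map (algebraMap ℂ B) ≠ 0 := (Polynomial.map_ne_zero_iff hi).2 h3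
  have e2 : Φ a = (g - C (g.eval c)).map (algebraMap ℂ B) ^ m * Φ a1 := by
    rw [e1, map_mul, map_pow, map_sub, hX, hC, AlgHom.commutes, Polynomial.map_sub, map_C]
  have h5 : Φ a ≠ 0 := by rw [e2]; exact mul_ne_zero (pow_ne_zero _ h4) h2
  refine ⟨h5, ?_⟩
  rw [e2] at h5 ⊢
  rw [rootMultiplicity_mul h5, dsm4_pow h4, rootMultiplicity_eq_zero h1,
    ← eq_rootMultiplicity_map hi, em]
  ring

theorem ms3 {B : Type*} [CommRing B] [IsDomain B] [Algebra ℂ B] (ψ : B →ₐ[ℂ] B)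
    (hψ : Function.Injective ψ) {g : ℂ[X]} (hg : 0 < g.natDegree) (Φ : B[X] →+* B[X])
    (hC : ∀ b, Φ (C b) = C (ψ b)) (hX : Φ X = g.map (algebraMap ℂ B)) {a b : B[X]} (ha : a ≠ 0)
    (hb : b ≠ 0) {γ : B} (hγ : γ ≠ 0) {e : ℕ} (he : 0 < e)
    (h : Φ a * b * (derivative g).map (algebraMap ℂ B) ^ e = a * Φ b * C γ ^ e) : Orbi g := by
  have hi : Function.Injective (algebraMap ℂ B) := (algebraMap ℂ B).injective
  have hd : derivative g ≠ 0 := fun h0 => by
    rw [derivative_eq_zero.1 h0] at hg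
    exact lt_irrefl _ hg
  have hd' : (derivative g).map (algebraMap ℂ B) ≠ 0 := (Polynomial.map_ne_zero_iff hi).2 hd
  refine ⟨e, fun c => (rootMultiplicity (algebraMap ℂ B c) a : ℤ) -
    rootMultiplicity (algebraMap ℂ B c) b + e, by exact_mod_cast he, ?_, fun c => ?_⟩
  · refine ((finite_setOfPred_isRoot (mul_ne_zero ha hb)).preimage hi.injOn).subset fun c hc => ?_
    by_contra hn
    simp only [Set.mem_preimage, Set.mem_ofPred_eq, IsRoot.def, eval_mul, mul_eq_zero,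
      not_or] at hn
    apply hc
    beta_reduce
    rw [rootMultiplicity_eq_zero hn.1, rootMultiplicity_eq_zero hn.2]
    simp
  · obtain ⟨a0, a1⟩ := dsm4_key ψ hψ hg Φ hC hX ha c
    obtain ⟨b0, b1⟩ := dsm4_key ψ hψ hg Φ hC hX hb c
    have hγ' : (C γ : B[X]) ≠ 0 := C_ne_zero.2 hγ
    have := congrArg (rootMultiplicity (algebraMap ℂ B c)) h
    rw [rootMultiplicity_mul (mul_ne_zero (mul_ne_zero a0 hb) (pow_ne_zero _ hd')),
      rootMultiplicity_mul (mul_ne_zero a0 hb),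
      rootMultiplicity_mul (mul_ne_zero (mul_ne_zero ha b0) (pow_ne_zero _ hγ')),
      rootMultiplicity_mul (mul_ne_zero ha b0), dsm4_pow hd', dsm4_pow hγ', rootMultiplicity_C,
      ← eq_rootMultiplicity_map hi, a1, b1, ← rm_der hg c] at this
    rw [← rm_der hg c]
    have z := congrArg (Nat.cast : ℕ → ℤ) this
    push_cast at z ⊢
    linear_combination -z

end Pool.Agent.P.MP_68214b_ag.DS
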