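import Pool.Agent.P.MP_68214b_ag.DG4
import Pool.Agent.P.MP_68214b_ag.DG6
import Pool.Agent.P.MP_68214b_ag.DSM1
import Pool.Agent.P.MP_68214b_ag.DSM4
import Pool.Agent.P.MP_68214b_ag.DSA5

open Polynomial

namespace Pool.Agent.P.MP_68214b_ag.DS

variable {L : Type} [Field L] [Algebra ℂ L] {x : L} {ι : FractionRing ℂ[X] →+* L}
  {φ : L →ₐ[ℂ] L} {f : ℂ[X]}

theorem phi_pow (hφ : φ x = aeval x f) (k : ℕ) : (φ ^ k) x = aeval x (iter f k) := by
  induction k with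
  | zero => simp [iter_zero]
  | succ k ih => rw [pow_succ', AlgHom.mul_apply, ih, phi_ae hφ, iter_succ']

theorem v_pow {Γ : Type*} [LinearOrderedCommGroupWithZero Γ] {w : Valuation L Γ} {d : ℕ}
    (hw : ∀ a, w (φ a) = w a ^ d) (k : ℕ) (a : L) : w ((φ ^ k) a) = w a ^ d ^ k := by
  induction k with
  | zero => simp
  | succ k ih => rw [pow_succ', AlgHom.mul_apply, hw, ih, ← pow_mul, pow_succ]

theorem FF.orbi (h : FF x ι) (hφ : φ x = aeval x f) (hf : f.Monic) (hd : 0 < f.natDegree)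
    {a : L} (ha : a ∈ Wd x ι) (a0 : a ≠ 0) : Orbi f := by
  have := h.fd
  have : Nontrivial (Wd x ι) := ⟨⟨a, ha⟩, 0, fun e => a0 (congrArg Subtype.val e)⟩
  let Θ : Module.End ℂ (Wd x ι) :=
    { toFun := fun a => ⟨φ a * aeval x (derivative f), h.pull hφ hf hd a.2⟩
      map_add' := fun a b => Subtype.ext (by simp [add_mul])
      map_smul' := fun c a => Subtype.ext (by simp) }
  obtain ⟨c, hc⟩ := Θ.exists_eigenvalue
  obtain ⟨b, hb⟩ := hc.exists_hasEigenvector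
  have b0 : (b : L) ≠ 0 := fun e => hb.2 (Subtype.ext e)
  have e : φ b * aeval x (derivative f) = b * aeval x (C c) := by
    rw [aeval_C, mul_comm (b : L), ← Algebra.smul_def]
    exact congrArg Subtype.val hb.apply_eq_smul
  have c0 : c ≠ 0 := fun e' => by
    rw [e', map_zero, map_zero, mul_zero] at e
    exact mul_ne_zero ((map_ne_zero φ).2 b0) ((map_ne_zero_iff _ h.inj).2 (dg6_der hd)) e
  let := (aeval x : ℂ[X] →ₐ[ℂ] L).toRingHom.toAlgebra
  obtain ⟨G, G0, -, hG⟩ := h.rl b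
  obtain ⟨n, p, q, n0, p0, q0, hn⟩ := dsm1_field (B := ℂ[X]) (E := L) h.inj φ (compRingHom f)
    (phi_ae hφ) b0 ⟨G, G0, (ae_eq x b G).symm.trans hG⟩ e
  exact ms3 (AlgHom.id ℂ ℂ) Function.injective_id hd (compRingHom f) (fun _ => C_comp)
    (by simp) p0 q0 c0 n0 (by simpa using hn)

theorem FF.eigen (h : FF x ι) (hφ : φ x = aeval x f) (hf : f.Monic) (hd : 2 ≤ f.natDegree)
    {Γ : Type*} [LinearOrderedCommGroupWithZero Γ] {w : Valuation L Γ} (hv : w.IsTrivialOn ℂ)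
    (hx : 1 < w x) (hw : ∀ a, w (φ a) = w a ^ f.natDegree) {b : L} (b0 : b ≠ 0) (hb : b ∈ Fn x)
    (h1 : w b < 1) : Orbi f := by
  obtain ⟨t, n1, n2, t0, -, e⟩ := v_tie hv hx b0 (h.rl b)
  have x0 : 0 < w x := zero_lt_one.trans hx
  have h2 : n2 < n1 := (pow_lt_pow_iff_right₀ hx).1
    (e ▸ mul_lt_of_lt_one_left (pow_pos x0 _) (pow_lt_one₀ zero_le h1 t0.ne'))
  obtain ⟨s, rfl⟩ := Nat.exists_eq_add_of_lt h2
  have h3 : w (x * (x ^ s * b ^ t)) = 1 := by
    refine mul_right_cancel₀ (pow_pos x0 n2).ne' ?_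
    rw [one_mul, map_mul, map_mul, map_pow, map_pow]
    refine Eq.trans ?_ e
    rw [pow_succ, pow_add]
    ac_rfl
  obtain ⟨j, hj⟩ := (h.rl (x * (x ^ s * b ^ t))).inf
  have hk := phi_pow hφ (rk ι * j)
  have hm := iter_monic hf (by omega) (rk ι * j)
  have hD : rk ι * j < (iter f (rk ι * j)).natDegree := by
    rw [iter_natDegree]; exact Nat.lt_pow_self hd
  have d0 : 0 < (iter f (rk ι * j)).natDegree := by omega
  refine h.orbi hφ hf (by omega) (h.push hk hm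
    (mul_mem (pow_mem (by simpa using Fn_aeval x X) s) (pow_mem hb t)) hj hD) fun h0 => ?_
  refine tr_ne hv hx h.rl d0 (h.phi hk hm d0).2.1
    (fun a => by rw [iter_natDegree]; exact v_pow hw _ a)
    (u := ((φ ^ (rk ι * j) : L →ₐ[ℂ] L) : L →+* L) x *
      (x ^ s * b ^ t / aeval x (derivative (iter f (rk ι * j))))) ?_ (by rw [tr_mul, h0, mul_zero])
  rw [RingHom.coe_coe, hk, map_mul, map_div₀, ← v_der hv hx d0, mul_assoc, mul_div_cancel₀ _
    ((Valuation.ne_zero_iff _).2 ((map_ne_zero_iff _ h.inj).2 (dg6_der d0))), ← map_mul, h3]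

end Pool.Agent.P.MP_68214b_ag.DS
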