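import Pool.Agent.P.MP_68214b_ag.DSA1

open Polynomial Filter Asymptotics NumberField Topology

namespace Pool.Agent.P.MP_68214b_ag.DS

theorem dsa2_der (l b v : ℂ) (e : ℕ) :
    derivative (C l * (X - C b) ^ (e + 1) + C v) = C l * (C ((e : ℂ) + 1) * (X - C b) ^ e) := by
  simp [derivative_X_sub_C_pow]

theorem exc_of_pow {g : ℂ[X]} (hd : 2 ≤ g.natDegree) {b : ℂ}
    (h : g = C g.leadingCoeff * (X - C b) ^ g.natDegree + C b) : Exc g := by
  refine ⟨2 * b, b ^ 2, ?_⟩
  obtain ⟨e, he⟩ : ∃ e, g.natDegree = e + 1 := ⟨g.natDegree - 1, by omega⟩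
  rw [he] at h ⊢
  generalize g.leadingCoeff = l at h
  rw [h, dsa2_der]
  simp only [map_pow, map_mul, map_add, map_natCast, map_one, map_ofNat, Nat.cast_add, Nat.cast_one]
  ring

theorem noTot_of {g : ℂ[X]} (hd : 2 ≤ g.natDegree) (h : ¬ Exc g) : NoTot g := by
  intro E hE hne
  by_contra hc
  have hsub : {c | g.eval c ∈ E} ⊆ E := fun c h1 => by_contra fun h2 => hc ⟨c, h1, h2⟩
  have hg : 0 < g.natDegree := by omega
  have hP := hE.subset hsub
  have him : (fun c => g.eval c) '' {c | g.eval c ∈ E} = E := by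
    refine Set.Subset.antisymm ?_ fun v hv => ?_
    · rintro _ ⟨c, h1, rfl⟩
      exact h1
    · obtain ⟨c, rfl⟩ := eval_surj hg v
      exact ⟨c, hv, rfl⟩
  have h1 : E.ncard ≤ {c | g.eval c ∈ E}.ncard := by
    conv_lhs => rw [← him]
    exact Set.ncard_image_le hP
  have heq : {c | g.eval c ∈ E} = E := Set.eq_of_subset_of_ncard_le hsub h1 hE
  have hinj : Set.InjOn (fun c => g.eval c) {c | g.eval c ∈ E} :=
    Set.injOn_of_ncard_image_eq (by rw [him, heq]) hP
  have hem : ∀ c, g.eval c ∈ E → g = C g.leadingCoeff * (X - C c) ^ g.natDegree + C (g.eval c) := by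
    intro c h2
    refine em_top hg ?_
    rw [em, ← count_roots, ← natDegree_sub_C (a := g.eval c), ← IsAlgClosed.card_roots_eq_natDegree]
    refine Multiset.count_eq_card.2 fun r hr => ?_
    have h3 : g.eval r = g.eval c := by
      have := isRoot_of_mem_roots hr
      rwa [IsRoot, eval_sub, eval_C, sub_eq_zero] at this
    exact hinj h2 (show g.eval r ∈ E from h3 ▸ h2) h3.symm
  obtain ⟨c, h2⟩ := hne
  have h3 : g.eval c ∈ E := (Set.ext_iff.1 heq c).2 h2
  have h4 : g.eval (g.eval c) ∈ E := (Set.ext_iff.1 heq _).2 h3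
  have h5 := hem c h3
  have h6 := hem _ h4
  have h7 : g.eval c = c := by
    obtain ⟨e, he⟩ : ∃ e, g.natDegree = e + 1 + 1 := ⟨g.natDegree - 2, by omega⟩
    have hl : g.leadingCoeff ≠ 0 := leadingCoeff_ne_zero.2 (ne_zero_of_natDegree_gt hg)
    have h8 := congrArg (fun q => (derivative q).eval (g.eval c)) (h5.symm.trans h6)
    simp only [he, dsa2_der, eval_mul, eval_C, eval_pow, eval_sub, eval_X, sub_self,
      zero_pow (Nat.succ_ne_zero e), mul_zero] at h8
    have h9 : ((e + 1 : ℕ) : ℂ) + 1 ≠ 0 := Nat.cast_add_one_ne_zero _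
    exact sub_eq_zero.1 (pow_eq_zero_iff (Nat.succ_ne_zero e) |>.1
      ((mul_eq_zero.1 ((mul_eq_zero.1 h8).resolve_left hl)).resolve_left h9))
  rw [h7] at h5
  exact h (exc_of_pow hd h5)

theorem NoTot.em_ne {g : ℂ[X]} (hd : 2 ≤ g.natDegree) (h : NoTot g) {b : ℂ} (hb : g.eval b = b) :
    em g b ≠ g.natDegree := by
  intro e
  have hg : 0 < g.natDegree := by omega
  have h1 := em_top hg e
  obtain ⟨c, h2, h3⟩ := h {b} (Set.finite_singleton b) (Set.singleton_nonempty b)
  have h4 := congrArg (eval c) h1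
  have hl : g.leadingCoeff ≠ 0 := leadingCoeff_ne_zero.2 (ne_zero_of_natDegree_gt hg)
  rw [Set.mem_singleton_iff.1 h2, hb, eval_add, eval_mul, eval_C, eval_C, eval_pow, eval_sub, eval_X,
    eval_C] at h4
  have h5 : g.leadingCoeff * (c - b) ^ g.natDegree = 0 := by linear_combination -h4
  exact h3 (sub_eq_zero.1 ((pow_eq_zero_iff hg.ne').1 ((mul_eq_zero.1 h5).resolve_left hl)))

end Pool.Agent.P.MP_68214b_ag.DS
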