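import Pool.Agent.P.MP_68214b_ag.DSP1

open Polynomial Filter Asymptotics NumberField Topology

namespace Pool.Agent.P.MP_68214b_ag.DS

theorem dsp2_conj {x z : ℂ} (hz : aeval z (minpoly ℚ x) = 0) (q : ℚ[X]) (hq : aeval x q = 0) :
    aeval z q = 0 := by
  obtain ⟨r, hr⟩ := minpoly.dvd ℚ x hq
  rw [hr, map_mul, hz, zero_mul]

theorem dsp2_fin (B : ℝ) (e : ℕ) :
    {x : ℂ | IsIntegral ℤ x ∧ (minpoly ℚ x).natDegree ≤ e ∧
      ∀ z : ℂ, aeval z (minpoly ℚ x) = 0 → ‖z‖ ≤ B}.Finite := by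
  classical
  let C := Nat.ceil (max B 1 ^ e * e.choose (e / 2))
  have := bUnion_roots_finite (algebraMap ℤ ℂ) e (Set.finite_Icc (-C : ℤ) C)
  refine this.subset fun x hx => ?_
  simp_rw [Set.mem_iUnion]
  have hm := minpoly.isIntegrallyClosed_eq_field_fractions' ℚ hx.1
  have hq : IsIntegral ℚ x := hx.1.tower_top
  refine ⟨_, ⟨?_, fun i => ?_⟩, mem_rootSet.2 ⟨minpoly.ne_zero hx.1, minpoly.aeval ℤ x⟩⟩
  · rw [← (minpoly.monic hx.1).natDegree_map (algebraMap ℤ ℚ), ← hm]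
    exact hx.2.1
  rw [Set.mem_Icc, ← abs_le, ← @Int.cast_le ℝ]
  have hb := coeff_bdd_of_roots_le (B := B) (algebraMap ℚ ℂ) (minpoly.monic hq)
    (IsAlgClosed.splits _) hx.2.1 (fun z hz => hx.2.2 z (by
      have := (mem_roots'.1 hz).2
      rwa [IsRoot.def, eval_map_algebraMap] at this)) i
  refine (Eq.trans_le ?_ hb).trans (Nat.le_ceil _)
  rw [hm, coeff_map, coeff_map, eq_intCast, map_intCast, Complex.norm_intCast, Int.cast_abs]

theorem north {β1 : ℂ} (h : IsAlgebraic ℚ β1) (e : ℕ) :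
    {β : ℂ | (∃ n, 0 < n ∧ β ^ n = β1) ∧ (minpoly ℚ β).natDegree ≤ e}.Finite := by
  classical
  obtain ⟨N, hN0, hN⟩ := ((IsFractionRing.isAlgebraic_iff ℤ ℚ ℂ).2 h).exists_integral_multiple
  have hp0 : minpoly ℚ β1 ≠ 0 := minpoly.ne_zero h.isIntegral
  obtain ⟨R, hR⟩ := ((minpoly ℚ β1).rootSet_finite ℂ).isBounded.exists_norm_le
  have hNc : (N : ℂ) ≠ 0 := by exact_mod_cast hN0
  have hNq : (N : ℚ) ≠ 0 := by exact_mod_cast hN0
  have hinj : Function.Injective fun β : ℂ => (N : ℂ) * β := mul_right_injective₀ hNc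
  refine ((dsp2_fin (‖(N : ℂ)‖ * max 1 R) e).preimage hinj.injOn).subset ?_
  rintro β ⟨⟨n, hn, hβ⟩, he⟩
  have hβa : IsAlgebraic ℚ β := IsAlgebraic.of_pow hn (hβ ▸ h)
  have hev : ∀ (z : ℂ) (q : ℚ[X]), aeval z (q.comp (C (N : ℚ)⁻¹ * X)) = aeval ((N : ℂ)⁻¹ * z) q := by
    intro z q
    rw [aeval_comp]
    simp
  refine ⟨?_, ?_, ?_⟩
  · refine IsIntegral.of_pow hn ?_
    obtain ⟨m, rfl⟩ : ∃ m, n = m + 1 := ⟨n - 1, by omega⟩
    have e1 : ((N : ℂ) * β) ^ (m + 1) = (algebraMap ℤ ℂ N) ^ m * (N • β1) := by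
      rw [← hβ, zsmul_eq_mul, eq_intCast]
      ring
    rw [e1]
    exact (isIntegral_algebraMap.pow m).mul hN
  · have hd : ((minpoly ℚ β).comp (C (N : ℚ)⁻¹ * X)).natDegree = (minpoly ℚ β).natDegree := by
      rw [natDegree_comp, natDegree_C_mul_X _ (inv_ne_zero hNq), mul_one]
    have h0 : (minpoly ℚ β).comp (C (N : ℚ)⁻¹ * X) ≠ 0 := by
      intro h0
      have := minpoly.natDegree_pos hβa.isIntegral
      rw [← hd, h0, natDegree_zero] at this
      exact lt_irrefl _ this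
    refine le_trans (natDegree_le_natDegree (minpoly.degree_le_of_ne_zero ℚ _ h0 ?_)) (hd ▸ he)
    rw [hev, inv_mul_cancel_left₀ hNc, minpoly.aeval]
  · intro z hz
    have h1 := dsp2_conj hz ((expand ℚ n (minpoly ℚ β1)).comp (C (N : ℚ)⁻¹ * X)) (by
      rw [hev, inv_mul_cancel_left₀ hNc, expand_aeval, hβ, minpoly.aeval])
    rw [hev, expand_aeval] at h1
    have h2 := hR _ (mem_rootSet.2 ⟨hp0, h1⟩)
    rw [norm_pow] at h2
    have h3 : ‖(N : ℂ)⁻¹ * z‖ ≤ max 1 R := by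
      rcases le_or_gt ‖(N : ℂ)⁻¹ * z‖ 1 with h4 | h4
      · exact h4.trans (le_max_left _ _)
      · exact ((le_self_pow₀ h4.le hn.ne').trans h2).trans (le_max_right _ _)
    calc ‖z‖ = ‖(N : ℂ)‖ * ‖(N : ℂ)⁻¹ * z‖ := by rw [← norm_mul, mul_inv_cancel_left₀ hNc]
      _ ≤ _ := mul_le_mul_of_nonneg_left h3 (norm_nonneg _)

theorem deg_root {K : Type} [Field K] [NumberField K] [Algebra K ℂ] {β β1 : ℂ}
    (h : IsAlgebraic ℚ β1) {n : ℕ} (hn : 0 < n) (e : β ^ n = β1) :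
    IsIntegral K β ∧ (minpoly K β).natDegree ≤ n * (minpoly ℚ β1).natDegree ∧
      (minpoly ℚ β).natDegree ≤ Module.finrank ℚ K * (minpoly K β).natDegree := by
  have : IsScalarTower ℚ K ℂ := IsScalarTower.rat
  have hβa : IsIntegral ℚ β := (IsAlgebraic.of_pow hn (e ▸ h)).isIntegral
  have hK : IsIntegral K β := hβa.tower_top
  have hp0 : minpoly ℚ β1 ≠ 0 := minpoly.ne_zero h.isIntegral
  refine ⟨hK, ?_, ?_⟩
  · have h0 : expand K n ((minpoly ℚ β1).map (algebraMap ℚ K)) ≠ 0 :=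
      (expand_ne_zero hn).2 (Polynomial.map_ne_zero hp0)
    refine (natDegree_le_natDegree (minpoly.degree_le_of_ne_zero K β h0 ?_)).trans ?_
    · rw [expand_aeval, e, aeval_map_algebraMap, minpoly.aeval]
    · rw [natDegree_expand, natDegree_map, mul_comm]
  · have := IntermediateField.adjoin.finiteDimensional hK
    have : FiniteDimensional ℚ (IntermediateField.adjoin K {β}) :=
      Module.Finite.trans K (IntermediateField.adjoin K {β})
    rw [← IntermediateField.adjoin.finrank hK, Module.finrank_mul_finrank]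
    have h1 := minpoly.natDegree_le (A := ℚ) (IntermediateField.AdjoinSimple.gen K β)
    rwa [← minpoly.algebraMap_eq
      (algebraMap (IntermediateField.adjoin K {β}) ℂ).injective,
      IntermediateField.AdjoinSimple.algebraMap_gen] at h1

theorem pick {τ γ β1 : ℂ} (hτ : ‖τ‖ ≤ 1) (hβ : β1 ≠ 0) {b d e : ℕ} (hb : 0 < b) (hd : 2 ≤ d)
    (he : 0 < e) {B : Set ℂ} (hB : B.Finite)
    (h : ∀ᶠ k in atTop, ∃ β ∈ B, β ^ (b * d ^ k) = β1 ∧ Near d τ γ β (d ^ k / e)) :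
    ∃ β : ℂ, (∃ N, 0 < N ∧ β ^ N = 1) ∧ ∀ T, Near d τ γ β T := by
  have h1 : ∃ β ∈ B, ∃ᶠ k in atTop, β ^ (b * d ^ k) = β1 ∧ Near d τ γ β (d ^ k / e) := by
    by_contra hc
    push Not at hc
    have h2 := (Filter.eventually_all_finite hB).2 hc
    obtain ⟨k, ⟨β, hβB, h3⟩, h4⟩ := (h.and h2).exists
    exact h4 β hβB h3.1 h3.2
  obtain ⟨β, -, hf⟩ := h1
  refine ⟨β, ?_, fun T => ?_⟩
  · obtain ⟨k1, h1, -⟩ := hf.exists
    obtain ⟨k2, hk, h2, -⟩ := Filter.frequently_atTop.1 hf (k1 + 1)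
    have hlt : b * d ^ k1 < b * d ^ k2 :=
      Nat.mul_lt_mul_of_pos_left (Nat.pow_lt_pow_right (by omega) (by omega)) hb
    refine ⟨b * d ^ k2 - b * d ^ k1, by omega, ?_⟩
    have h3 : β ^ (b * d ^ k2 - b * d ^ k1) * β1 = 1 * β1 := by
      rw [one_mul]
      nth_rewrite 1 [← h1]
      rw [← pow_add, Nat.sub_add_cancel hlt.le, h2]
    exact mul_right_cancel₀ hβ h3
  · obtain ⟨k, hk, -, h2⟩ := Filter.frequently_atTop.1 hf (T * e)
    refine Near.mono hτ h2 ((Nat.le_div_iff_mul_le he).2 (hk.trans ?_))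
    exact (Nat.lt_pow_self (by omega)).le

end Pool.Agent.P.MP_68214b_ag.DS
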