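import Pool.Agent.P.MP_68214b_ag.DSC2x
import Pool.Agent.P.MP_68214b_ag.DSA5
import Pool.Agent.P.MP_68214b_ag.DSA2
import Pool.Agent.P.MP_68214b_ag.DSP2

open Polynomial Filter Asymptotics NumberField Topology

namespace Pool.Agent.P.MP_68214b_ag.DS

theorem root_near_mult {g : ℂ[X]} (hg : g ≠ 0) {𝓕 : Filter ℕ} [𝓕.NeBot] (hF : 𝓕 ≤ atTop) {d : ℕ}
    (hd : 2 ≤ d) {W : ℕ → ℂ} {lam : ℝ} (h0 : 0 ≤ lam) (h1 : lam < 1)
    (h : (fun n => g.eval (W n)) =O[𝓕] fun n => lam ^ d ^ n) : ∃ (β : ℂ) (C : ℝ), g.IsRoot β ∧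
      ∃ᶠ n in 𝓕, ‖W n - β‖ ^ rootMultiplicity β g ≤ C * lam ^ d ^ n := by
  obtain ⟨β, C, l, hβ, l0, l1, hf⟩ := root_near hg hF hd h0 h1 h
  obtain ⟨q, e1, e2⟩ := exists_eq_pow_rootMultiplicity_mul_and_not_dvd g hg β
  have q0 : 0 < ‖q.eval β‖ := norm_pos_iff.2 fun e => e2 (dvd_iff_isRoot.2 e)
  obtain ⟨δ, hδ, hq⟩ := Metric.continuousAt_iff.1 (q.continuousAt (a := β)) _ (half_pos q0)
  obtain ⟨C0, hC⟩ := h.bound
  have ht := (((tend_pp l0 l1 hd).mono_left hF).const_mul C).eventually
    (gt_mem_nhds (show C * 0 < δ by simpa using hδ))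
  refine ⟨β, C0 / (‖q.eval β‖ / 2), hβ, (hf.and_eventually (hC.and ht)).mono ?_⟩
  rintro n ⟨a, b, c⟩
  have h2 := hq (x := W n) (by rw [dist_eq_norm]; exact a.trans_lt c)
  rw [dist_eq_norm] at h2
  have h3 := norm_sub_norm_le (q.eval β) (q.eval (W n))
  rw [norm_sub_rev] at h3
  rw [Real.norm_of_nonneg (by positivity)] at b
  rw [div_mul_eq_mul_div, le_div_iff₀ (half_pos q0)]
  refine le_trans ?_ b
  conv_rhs => rw [e1, eval_mul, eval_pow, eval_sub, eval_X, eval_C, norm_mul, norm_pow]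
  gcongr
  linarith

theorem em_two {g : ℂ[X]} (hd : 2 ≤ g.natDegree) (h : NoTot g) (c : ℂ) :
    em (iter g 2) c < g.natDegree ^ 2 := by
  have g0 : 0 < g.natDegree := by omega
  have e : iter g 2 = g.comp g := by rw [iter_succ, iter_succ, iter_zero, comp_X]
  rw [e, em_comp g0 g0]
  have a := em_le g0 c
  have b := em_le g0 (g.eval c)
  by_contra hc
  have a' : em g c = g.natDegree := by nlinarith
  have b' : em g (g.eval c) = g.natDegree := by nlinarith
  have r : (derivative g).IsRoot (g.eval c) := by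
    have := rm_der g0 (g.eval c)
    exact (rootMultiplicity_pos'.1 (by omega)).2
  have e2 := congrArg (fun q => (derivative q).eval (g.eval c)) (em_top g0 a')
  simp only [derivative_add, derivative_C, add_zero, derivative_C_mul, derivative_X_sub_C_pow,
    eval_mul, eval_C, eval_pow, eval_sub, eval_X, eval_natCast] at e2
  rw [IsRoot.def, e2, mul_eq_zero, mul_eq_zero, leadingCoeff_eq_zero, Nat.cast_eq_zero] at r
  rcases r with r | r | r
  · rw [r] at hd; simp at hd
  · omega
  · exact h.em_ne hd (sub_eq_zero.1 (eq_zero_of_pow_eq_zero r)) a'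

theorem em_even {g : ℂ[X]} (hd : 2 ≤ g.natDegree) (h : NoTot g) (j : ℕ) (c : ℂ) :
    em (iter g (2 * j)) c ≤ (g.natDegree ^ 2 - 1) ^ j := by
  have p : ∀ k, 0 < (iter g k).natDegree := fun k => by
    rw [iter_natDegree]; exact pow_pos (by omega) _
  induction j with
  | zero => simpa [iter_zero] using em_le (g := X) (by simp) c
  | succ j ih =>
    rw [mul_add, mul_one, add_comm, iter_add, em_comp (p _) (p _), pow_succ]
    exact Nat.mul_le_mul ih (Nat.le_sub_one_of_lt (em_two hd h _))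

theorem deg_mult {K : Type*} [Field K] [CharZero K] [Algebra K ℂ] {H : K[X]} (hH : H ≠ 0) {w : ℂ}
    (hw : IsIntegral K w) :
    (minpoly K w).natDegree * rootMultiplicity w (H.map (algebraMap K ℂ)) ≤ H.natDegree := by
  have hi := minpoly.irreducible hw
  obtain ⟨j, r, hr, rfl⟩ := WfDvdMonoid.max_power_factor hH hi
  have r0 : ¬ (r.map (algebraMap K ℂ)).IsRoot w := fun h =>
    hr (minpoly.dvd K w (by rwa [IsRoot, eval_map_algebraMap] at h))
  have h1 := rootMultiplicity_le_one_of_separable (hi.separable.map (f := algebraMap K ℂ)) w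
  have m0 : (minpoly K w).map (algebraMap K ℂ) ≠ 0 := Polynomial.map_ne_zero hi.ne_zero
  have r1 := right_ne_zero_of_mul hH
  rw [Polynomial.map_mul, Polynomial.map_pow,
    rootMultiplicity_mul (mul_ne_zero (pow_ne_zero _ m0) (Polynomial.map_ne_zero r1)),
    rootMultiplicity_eq_zero r0, add_zero, dsa1_pow m0,
    natDegree_mul (pow_ne_zero _ hi.ne_zero) r1, natDegree_pow, mul_comm j]
  exact (Nat.mul_le_mul_left _ (by nlinarith)).trans (Nat.le_add_right _ _)

theorem back_bdd {g m : ℂ[X]} (hg : g.Monic) (hd : 2 ≤ g.natDegree) (hm : m ≠ 0) :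
    ∃ R : ℝ, ∀ k z, m.eval ((iter g k).eval z) = 0 → ‖z‖ ≤ R := by
  obtain ⟨R, hR, hl⟩ := dsn5_low hg hd
  obtain ⟨B, hB⟩ := (finite_setOfPred_isRoot hm).isBounded.exists_norm_le
  refine ⟨max R B, fun k => ?_⟩
  induction k with
  | zero => exact fun z hz => (hB z (by simpa [iter_zero] using hz)).trans (le_max_right _ _)
  | succ k ih =>
    intro z hz
    rw [iter_succ', eval_comp] at hz
    rcases le_or_gt ‖z‖ R with h | h
    · exact h.trans (le_max_left _ _)
    have h1 := hl z h.le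
    have h2 : ‖z‖ ^ 2 ≤ ‖z‖ ^ g.natDegree := pow_le_pow_right₀ (by linarith) hd
    exact le_trans (by nlinarith) (ih _ hz)

theorem den_C (s : Finset ℂ) (h : ∀ z ∈ s, IsAlgebraic ℚ z) :
    ∃ N : ℤ, N ≠ 0 ∧ ∀ z ∈ s, IsIntegral ℤ ((N : ℂ) * z) := by
  classical
  induction s using Finset.induction_on with
  | empty => exact ⟨1, one_ne_zero, by simp⟩
  | insert a s _ ih =>
    obtain ⟨N, h0, hN⟩ := ih fun z hz => h z (Finset.mem_insert_of_mem hz)
    obtain ⟨M, m0, hM⟩ := ((IsFractionRing.isAlgebraic_iff ℤ ℚ ℂ).2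
      (h a (Finset.mem_insert_self _ _))).exists_integral_multiple
    have zi : ∀ k : ℤ, IsIntegral ℤ (k : ℂ) := fun k => isIntegral_algebraMap
    refine ⟨N * M, mul_ne_zero h0 m0, fun z hz => ?_⟩
    rcases Finset.mem_insert.1 hz with rfl | hz
    · rw [zsmul_eq_mul] at hM
      simpa [mul_assoc] using (zi N).mul hM
    · simpa [mul_assoc, mul_left_comm] using (zi M).mul (hN z hz)

theorem back_int {g : ℂ[X]} (hg : g.Monic) (hd : 0 < g.natDegree) {N : ℤ}
    (hN : ∀ k, IsIntegral ℤ ((N : ℂ) * g.coeff k)) {w : ℂ}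
    (h : IsIntegral ℤ ((N : ℂ) * g.eval w)) : IsIntegral ℤ ((N : ℂ) * w) := by
  have zi : IsIntegral ℤ (N : ℂ) := isIntegral_algebraMap
  refine IsIntegral.of_aeval_monic_of_isIntegral_coeff (p := g.scaleRoots N)
    ((monic_scaleRoots_iff _).2 hg) (by rw [natDegree_scaleRoots]; omega) ?_ fun i => ?_
  · rw [scaleRoots_eval_mul, show g.natDegree = g.natDegree - 1 + 1 by omega, pow_succ, mul_assoc]
    exact (zi.pow _).mul h
  · rw [coeff_scaleRoots]
    rcases lt_trichotomy i g.natDegree with hi | rfl | hi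
    · rw [show g.natDegree - i = g.natDegree - i - 1 + 1 by omega, pow_succ', ← mul_assoc,
        mul_comm (g.coeff i)]
      exact (hN i).mul (zi.pow _)
    · simpa [hg.coeff_natDegree] using isIntegral_one
    · simpa [coeff_eq_zero_of_natDegree_lt hi] using isIntegral_zero

variable {K : Type} [Field K] [NumberField K]

theorem alg_emb (σ : K →+* ℂ) (y : K) : IsAlgebraic ℚ (σ y) :=
  (Algebra.IsAlgebraic.isAlgebraic (R := ℚ) y).algHom σ.toRatAlgHom

theorem north2 [Algebra K ℂ] {f M : K[X]} (hf : f.Monic) (hd : 2 ≤ f.natDegree) (hM : M ≠ 0)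
    (e : ℕ) : {w : ℂ | (∃ k, aeval w (M.comp (iter f k)) = 0) ∧ IsIntegral K w ∧
      (minpoly K w).natDegree ≤ e}.Finite := by
  classical
  have ev : ∀ (σ : K →+* ℂ) k z, (M.comp (iter f k)).eval₂ σ z =
      (M.map σ).eval ((iter (f.map σ) k).eval z) := fun σ k z => by
    rw [← eval_map, map_comp, iter_map, eval_comp]
  choose R hR using fun σ : K →+* ℂ => back_bdd (hf.map σ) (by rwa [natDegree_map])
    (Polynomial.map_ne_zero hM : M.map σ ≠ 0)
  obtain ⟨σ0, h0⟩ := @Finite.exists_max _ ℝ _ ⟨algebraMap K ℂ⟩ _ R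
  set g := f.map (algebraMap K ℂ) with hg
  have m0 : M.map (algebraMap K ℂ) ≠ 0 := Polynomial.map_ne_zero hM
  obtain ⟨N, N0, hN⟩ := den_C ((Finset.range (f.natDegree + 1)).image g.coeff ∪
      (M.map (algebraMap K ℂ)).roots.toFinset) (by
    intro z hz
    rcases Finset.mem_union.1 hz with hz | hz
    · obtain ⟨k, -, rfl⟩ := Finset.mem_image.1 hz
      rw [hg, coeff_map]; exact alg_emb _ _
    · exact alg_root m0 (fun k => by rw [coeff_map]; exact alg_emb _ _)
        ((mem_roots m0).1 (Multiset.mem_toFinset.1 hz)))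
  have gd : g.natDegree = f.natDegree := natDegree_map _
  have hi : ∀ k w, (M.map (algebraMap K ℂ)).eval ((iter g k).eval w) = 0 →
      IsIntegral ℤ ((N : ℂ) * w) := fun k => by
    induction k with
    | zero =>
      intro w hw
      exact hN w (Finset.mem_union_right _ (Multiset.mem_toFinset.2 ((mem_roots m0).2
        (by simpa [iter_zero] using hw))))
    | succ k ih =>
      intro w hw
      rw [iter_succ', eval_comp] at hw
      refine back_int (hf.map _) (by rw [natDegree_map]; omega) (fun j => ?_) (ih _ hw)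
      rcases le_or_gt j f.natDegree with hj | hj
      · exact hN _ (Finset.mem_union_left _ (Finset.mem_image_of_mem _
          (Finset.mem_range.2 (by omega))))
      · rw [coeff_eq_zero_of_natDegree_lt (by rwa [natDegree_map]), mul_zero]
        exact isIntegral_zero
  have Nc : (N : ℂ) ≠ 0 := Int.cast_ne_zero.2 N0
  refine ((dsp2_fin (‖(N : ℂ)‖ * R σ0) (Module.finrank ℚ K * e)).preimage
    (mul_right_injective₀ Nc).injOn).subset ?_
  rintro w ⟨⟨k, hk⟩, hw, he⟩
  set F := IntermediateField.adjoin K {w} with hF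
  have : FiniteDimensional K F := IntermediateField.adjoin.finiteDimensional hw
  have : NumberField F := NumberField.of_module_finite K F
  set v : F := IntermediateField.AdjoinSimple.gen K w with hv
  have em : minpoly ℚ ((N : ℂ) * w) = minpoly ℚ ((N : F) * v) := by
    rw [← minpoly.algHom_eq (F.val : F →+* ℂ).toRatAlgHom (F.val : F →+* ℂ).injective, map_mul,
      map_intCast]
    rfl
  refine ⟨hi k w (by rw [← ev]; exact hk), ?_, fun z hz => ?_⟩
  · rw [em]
    refine (minpoly.natDegree_le _).trans ?_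
    rw [← Module.finrank_mul_finrank ℚ K F, IntermediateField.adjoin.finrank hw]
    exact Nat.mul_le_mul_left _ he
  · rw [em] at hz
    obtain ⟨φ, rfl⟩ := (Embeddings.range_eval_eq_rootSet_minpoly F ℂ ((N : F) * v)).symm.subset
      (mem_rootSet.2 ⟨minpoly.ne_zero (Algebra.IsIntegral.isIntegral _), hz⟩)
    simp only [map_mul, map_intCast, norm_mul]
    refine mul_le_mul_of_nonneg_left ((hR (φ.comp (algebraMap K F)) k _ ?_).trans (h0 _))
      (norm_nonneg _)
    rw [← ev, ← hom_eval₂, ← aeval_def]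
    have : aeval v (M.comp (iter f k)) = 0 := by
      apply (algebraMap F ℂ).injective
      rw [← aeval_algebraMap_apply, map_zero]
      exact hk
    rw [this, map_zero]

end Pool.Agent.P.MP_68214b_ag.DS
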