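import Pool.Agent.P.MP_68214b_ag.DG7
import Pool.Agent.P.MP_68214b_ag.DSD1

open Polynomial Filter Topology

namespace Pool.Agent.P.MP_68214b_ag.DS

variable {L : Type} [Field L] [Algebra ℂ L] {x : L} {ι : FractionRing ℂ[X] →+* L}
  {φ : L →ₐ[ℂ] L} {f : ℂ[X]}

theorem dg8_top {D : ℕ} (hD : 0 < D) (c : ℕ) : ∃ j, c * (D - 1) ^ j < D ^ j := by
  have d0 : (0 : ℝ) < D := by positivity
  obtain ⟨j, hj⟩ := exists_pow_lt_of_lt_one (show (0 : ℝ) < 1 / (c + 1) by positivity)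
    ((div_lt_one d0).2 (show ((D - 1 : ℕ) : ℝ) < D by exact_mod_cast (by omega)))
  rw [div_pow, div_lt_div_iff₀ (by positivity) (by positivity), one_mul] at hj
  have : (D - 1) ^ j * (c + 1) < D ^ j := by exact_mod_cast hj
  exact ⟨j, by nlinarith [Nat.zero_le ((D - 1) ^ j)]⟩

theorem rl_inv {x y : L} {G : ℂ[X][X]} (hG : G ≠ 0) (h : aevalAeval x y G = 0) (c : ℂ) :
    ∃ m, Rl y (x - algebraMap ℂ L c)⁻¹ m := by
  let := (aeval y : ℂ[X] →ₐ[ℂ] L).toRingHom.toAlgebra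
  have h1 : IsAlgebraic ℂ[X] x := ⟨Bivariate.swap G, (map_ne_zero_iff _ Bivariate.swap.injective).2 hG,
    (ae_eq y x _).symm.trans ((Bivariate.aevalAeval_swap y x G).trans h)⟩
  obtain ⟨H, H0, hH⟩ := (h1.sub (isAlgebraic_algebraMap (C c))).inv
  rw [show algebraMap ℂ[X] L (C c) = algebraMap ℂ L c from aeval_C y c] at hH
  exact ⟨_, H, H0, le_rfl, (ae_eq _ _ H).trans hH⟩

theorem FF.int (h : FF x ι) (hφ : φ x = aeval x f) (hd : 2 ≤ f.natDegree) (hN : NoTot f) {y : L}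
    {g : ℂ[X]} (hy : φ y = aeval y g) (hg : g.natDegree = f.natDegree) : y ∈ Fn x := by
  intro τ V t1 t2
  by_contra! t3
  obtain ⟨G, G0, -, hG⟩ := h.rl y
  obtain ⟨c, hc⟩ := v_res t1 t3 t2 G0 hG
  obtain ⟨m, hm⟩ := rl_inv G0 hG c
  obtain ⟨s, hs⟩ := hm.bd
  have h1 := hs _ t1 t3
  have h2 : 0 < vl τ V (x - algebraMap ℂ L c) := zero_lt_iff.2
    ((Valuation.ne_zero_iff _).2 fun e => X_sub_C_ne_zero c (h.inj (by simpa using e)))
  obtain ⟨s', hs'⟩ := exists_cdeg G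
  have l0 := leadingCoeff_ne_zero.2 G0
  obtain ⟨j, hj⟩ := dg8_top (D := f.natDegree ^ 2) (by positivity) (s * G.leadingCoeff.natDegree)
  have p1 : 0 < (iter f (2 * j)).natDegree := by rw [iter_natDegree]; positivity
  have p2 : (iter g (2 * j)).natDegree = (f.natDegree ^ 2) ^ j := by
    rw [iter_natDegree, hg, pow_mul]
  have e1 : vl τ V ((φ ^ (2 * j)) y) = vl τ V y ^ (f.natDegree ^ 2) ^ j := by
    rw [phi_pow hy, v_top t1 t3 (ne_zero_of_natDegree_gt (n := 0) (by rw [p2]; positivity)), p2]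
  have h3 : vl τ V ((φ ^ (2 * j)) (aeval x G.leadingCoeff)) * vl τ V ((φ ^ (2 * j)) y) ≤ 1 ^ s' :=
    v_lc (vl_phi (φ := φ ^ (2 * j)) t1) hG hs' le_rfl
      (show vl τ V ((φ ^ (2 * j)) x) ≤ 1 from phi_pow hφ _ ▸ v_le1 t1 t2 _)
      (show 1 ≤ vl τ V ((φ ^ (2 * j)) y) from e1 ▸ one_le_pow₀ t3.le)
  have l1 : G.leadingCoeff.comp (iter f (2 * j)) ≠ 0 := fun e =>
    (comp_eq_zero_iff.1 e).elim l0 fun e => by
      have := congrArg natDegree e.2
      rw [natDegree_C] at this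
      omega
  rw [e1, phi_ae (phi_pow hφ _), v_rm t1 hc l1, rm_comp p1 l0, one_pow] at h3
  have h4 : em (iter f (2 * j)) c * rootMultiplicity ((iter f (2 * j)).eval c) G.leadingCoeff ≤
      (f.natDegree ^ 2 - 1) ^ j * G.leadingCoeff.natDegree :=
    Nat.mul_le_mul (em_even hd hN j c) (by
      simpa using natDegree_le_of_dvd (pow_rootMultiplicity_dvd G.leadingCoeff _) l0)
  generalize em (iter f (2 * j)) c * _ = r at h3 h4
  rw [map_inv₀] at h1
  have h5 := (le_div_iff₀' (pow_pos h2 r)).2 h3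
  rw [one_div, ← inv_pow] at h5
  replace h5 := h5.trans (pow_le_pow_left₀ zero_le h1 r)
  rw [← pow_mul _ s, pow_le_pow_iff_right₀ t3] at h5
  have h6 := Nat.mul_le_mul_left s h4
  nlinarith

end Pool.Agent.P.MP_68214b_ag.DS
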