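import Pool.Agent.P.MP_68214b_ag.DSDef

open Polynomial Filter Asymptotics NumberField Topology

namespace Pool.Agent.P.MP_68214b_ag.DS

theorem eval_phi {K J : Type*} [CommRing K] (f : J → K[X]) (x : J → K) (P : MvPolynomial J K) :
    MvPolynomial.eval x (phi f P) = MvPolynomial.eval (fun i => (f i).eval (x i)) P := by
  rw [← MvPolynomial.coe_aeval_eq_eval, ← MvPolynomial.coe_aeval_eq_eval]
  refine DFunLike.congr_fun (?_ : (MvPolynomial.aeval x).comp (phi f) =
    MvPolynomial.aeval fun i => (f i).eval (x i)) P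
  ext i
  rw [AlgHom.comp_apply, phi, MvPolynomial.aeval_X, ← Polynomial.aeval_algHom_apply,
    MvPolynomial.aeval_X, MvPolynomial.aeval_X, coe_aeval_eq_eval]

theorem dso1_shift {p : ℕ → Prop} : (∀ᶠ n in atTop, p (n + 1)) ↔ ∀ᶠ n in atTop, p n := by
  conv_rhs => rw [← map_add_atTop_eq_nat 1]
  rfl

theorem van_phi {K J : Type*} [Field K] {f : J → K[X]} {x : J → ℕ → K}
    (hs : ∀ i n, x i (n + 1) = (f i).eval (x i n)) (P : MvPolynomial J K) :
    Van x (phi f P) ↔ Van x P := by
  simp only [Van, eval_phi, ← hs]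
  exact dso1_shift (p := fun n => MvPolynomial.eval (fun i => x i n) P = 0)

/-- the ideal of the polynomials that vanish on the tail -/
def dso1_id {K J : Type*} [Field K] (x : J → ℕ → K) : Ideal (MvPolynomial J K) where
  carrier := {P | Van x P}
  zero_mem' := Eventually.of_forall fun _ => map_zero _
  add_mem' ha hb := (Eventually.and ha hb).mono fun _ h => by rw [map_add, h.1, h.2, add_zero]
  smul_mem' _ _ h := Eventually.mono h fun _ h => by rw [smul_eq_mul, map_mul, h, mul_zero]

theorem dso1_per {R : Type*} [CommRing R] [IsNoetherianRing R] (ψ : R →+* R) {I p : Ideal R}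
    (hI : I.comap ψ = I) (hp : p ∈ I.minimalPrimes) : ∃ l, 0 < l ∧ (Ideal.comap ψ)^[l] p = p := by
  have : Finite I.minimalPrimes := Ideal.finite_minimalPrimes_of_isNoetherianRing R I
  choose s h1 h2 using fun q : I.minimalPrimes =>
    Ideal.exists_minimalPrimes_comap_eq (I := I) ψ q.1 (hI.symm ▸ q.2)
  let g : I.minimalPrimes → I.minimalPrimes := fun q => ⟨s q, h1 q⟩
  have hg : Function.Injective g := fun a b h => Subtype.ext (by
    rw [← h2 a, ← h2 b, show s a = s b from congrArg Subtype.val h])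
  obtain ⟨l, h0, hl⟩ := hg.mem_periodicPts ⟨p, hp⟩
  have key : ∀ (n : ℕ) (q : I.minimalPrimes), (Ideal.comap ψ)^[n] (g^[n] q).1 = q.1 := by
    intro n
    induction n with
    | zero => exact fun _ => rfl
    | succ n ih =>
      intro q
      rw [Function.iterate_succ_apply', Function.iterate_succ_apply, ih]
      exact h2 q
  exact ⟨l, h0, by simpa only [hl.eq] using key l ⟨p, hp⟩⟩

theorem oc {K J : Type*} [Field K] [Finite J] (f : J → K[X]) (x : J → ℕ → K)
    (hs : ∀ i n, x i (n + 1) = (f i).eval (x i n)) :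
    ∃ l, 0 < l ∧ ∀ c, Dom fun i t => x i (c + l * t) := by
  let ψ : MvPolynomial J K →+* MvPolynomial J K := phi f
  let ev : ℕ → Ideal (MvPolynomial J K) := fun n => RingHom.ker (MvPolynomial.eval fun i => x i n)
  have hI : (dso1_id x).comap ψ = dso1_id x := Ideal.ext (van_phi hs)
  have hev : ∀ n, (ev n).comap ψ = ev (n + 1) := fun n => Ideal.ext fun P => by
    simp only [ev, ψ, Ideal.mem_comap, RingHom.mem_ker, RingHom.coe_coe, eval_phi, hs]
  obtain ⟨s, hs'⟩ := IsNoetherian.noetherian (dso1_id x)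
  obtain ⟨n0, h0⟩ := ((eventually_all_finset s).2 fun P hP =>
    show Van x P from (hs'.le (Submodule.subset_span hP) : P ∈ dso1_id x)).exists
  have : (ev n0).IsPrime := RingHom.ker_isPrime _
  obtain ⟨p, hp, hp0⟩ := Ideal.exists_minimalPrimes_le (I := dso1_id x) (J := ev n0)
    (hs'.ge.trans (Submodule.span_le.2 h0))
  obtain ⟨l, hl, hper⟩ := dso1_per ψ hI hp
  have hj : ∀ j, ((Ideal.comap ψ)^[j] p).IsPrime ∧ dso1_id x ≤ (Ideal.comap ψ)^[j] p ∧
      (Ideal.comap ψ)^[j] p ≤ ev (n0 + j) := by
    intro j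
    induction j with
    | zero => exact ⟨hp.1.1, hp.1.2, hp0⟩
    | succ j ih =>
      rw [Function.iterate_succ_apply', ← add_assoc, ← hev]
      have := ih.1
      exact ⟨Ideal.comap_isPrime _ _, hI.ge.trans (Ideal.comap_mono ih.2.1), Ideal.comap_mono ih.2.2⟩
  obtain ⟨j, -, hle⟩ := (hp.1.1.inf_le' (s := Finset.range l)
      (f := fun j => dso1_id fun i t => x i (n0 + j + l * t))).1 (le_trans (fun P hP => by
    obtain ⟨t0, ht⟩ := eventually_atTop.1 ((eventually_all_finset _).2 fun j hj =>
      show Van _ P from Submodule.mem_finsetInf.1 hP j hj)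
    refine eventually_atTop.2 ⟨n0 + l * t0, fun n hn => ?_⟩
    have := ht ((n - n0) / l) ((Nat.le_div_iff_mul_le hl).2 (by rw [mul_comm]; omega)) _
      (Finset.mem_range.2 (Nat.mod_lt (n - n0) hl))
    rwa [add_assoc, Nat.mod_add_div, Nat.add_sub_cancel' (by omega)] at this) hp.1.2)
  have hge : (Ideal.comap ψ)^[j] p ≤ dso1_id fun i t => x i (n0 + j + l * t) := fun P hP =>
    Eventually.of_forall fun t => by
      have := (hj (j + l * t)).2.2
      rw [Function.iterate_add_apply, Function.iterate_mul, Function.iterate_fixed hper,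
        ← add_assoc] at this
      exact this hP
  have he : (dso1_id fun i t => x i (n0 + j + l * t)) = p :=
    hle.antisymm ((hp.2 ⟨(hj j).1, (hj j).2.1⟩ (hge.trans hle)).trans hge)
  have h1 : ∀ k, Dom fun i t => x i (n0 + j + k + l * t) := by
    intro k
    induction k with
    | zero => exact fun P Q => (he ▸ hp.1.1).mem_or_mem (x := P) (y := Q)
    | succ k ih =>
      have e : ∀ P, Van (fun i t => x i (n0 + j + (k + 1) + l * t)) P ↔
          Van (fun i t => x i (n0 + j + k + l * t)) (phi f P) := fun P => by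
        simp only [Van, eval_phi, ← hs, add_assoc, add_comm 1]
      intro P Q
      rw [e, e, e, map_mul]
      exact ih _ _
  have h2 : ∀ k c P, Van (fun i t => x i (c + l * k + l * t)) P ↔
      Van (fun i t => x i (c + l * t)) P := by
    intro k c P
    unfold Van
    conv_rhs => rw [← map_add_atTop_eq_nat k]
    simp only [eventually_map, mul_add, add_assoc, add_comm (l * k)]
  refine ⟨l, hl, fun c P Q => ?_⟩
  have := h1 (c + l * (n0 + j) - (n0 + j)) P Q
  rwa [Nat.add_sub_cancel' (by nlinarith), h2, h2, h2] at this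

end Pool.Agent.P.MP_68214b_ag.DS
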