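import Pool.Agent.P.MP_68214b_ag.DG5
import Pool.Agent.P.MP_68214b_ag.DSO1

open Polynomial Filter Topology NNReal

namespace Pool.Agent.P.MP_68214b_ag.DS

theorem FF.two {L : Type} [Field L] [Algebra ℂ L] {x : L} {ι : FractionRing ℂ[X] →+* L}
    (h : FF x ι) (w : ℕ → Valuation L ℝ≥0) (hv : ∀ k, (w k).IsTrivialOn ℂ) {ρ : ℝ≥0} (hρ : 1 < ρ)
    (hx : ∀ k, w k x = ρ) : ∃ i j, i < j ∧ ∀ a, w i a = w j a := by
  by_contra! hc
  let A : Fin (rk ι + 1) → AbsoluteValue L ℝ := fun k =>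
    { toFun := fun a => w k a
      map_mul' := fun a b => by rw [map_mul, NNReal.coe_mul]
      nonneg' := fun a => NNReal.coe_nonneg _
      eq_zero' := fun a => by rw [NNReal.coe_eq_zero, Valuation.zero_iff]
      add_le' := fun a b => by
        exact_mod_cast ((w k).map_add a b).trans (max_le_add_of_nonneg zero_le zero_le) }
  have hA : ∀ k a, A k a = w k a := fun _ _ => rfl
  have x0 : x ≠ 0 := (w 0).ne_zero_iff.1 (by rw [hx]; positivity)
  have r1 : (1 : ℝ) < ρ := hρ
  choose a ha using AbsoluteValue.exists_one_lt_lt_one_pi_of_not_isEquiv (v := A)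
    (fun k => ⟨x, x0, by rw [hA, hx]; exact r1.ne'⟩) (fun i j hij e => by
      obtain ⟨c, c0, e⟩ := AbsoluteValue.isEquiv_iff_exists_rpow_eq.1 e
      have e1 := congrFun e x
      simp only [hA, hx] at e1
      have c1 : c = 1 := by
        rwa [← Real.rpow_right_inj (by linarith) r1.ne', Real.rpow_one]
      have e2 : ∀ a, w i a = w j a := fun a => by
        have := congrFun e a
        simp only [hA, c1, Real.rpow_one] at this
        exact_mod_cast this
      rcases hij.lt_or_gt with h1 | h1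
      · obtain ⟨a, ha⟩ := hc i j h1
        exact ha (e2 a)
      · obtain ⟨a, ha⟩ := hc j i h1
        exact ha (e2 a).symm)
  have a1 : ∀ i : Fin (rk ι + 1), 1 < w i (a i) := fun i => by exact_mod_cast (ha i).1
  have a2 : ∀ i j : Fin (rk ι + 1), j ≠ i → w j (a i) < 1 := fun i j e => by
    exact_mod_cast (ha i).2 j e
  have he : ∀ k r, w k (ι r) = w 0 (ι r) := fun k r => by
    have : ∀ p : ℂ[X], w k (aeval x p) = w 0 (aeval x p) := fun p => by
      rcases eq_or_ne p 0 with rfl | p0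
      · simp
      · rw [v_top (hv k) (hx k ▸ hρ) p0, v_top (hv 0) (hx 0 ▸ hρ) p0, hx, hx]
    obtain ⟨p, q, -, rfl⟩ := IsFractionRing.div_surjective ℂ[X] r
    rw [map_div₀, h.map, h.map, map_div₀, map_div₀, this, this]
  obtain ⟨c, h1, i0, h2⟩ := rk_dep h.fin fun i => a i / (1 + a i)
  obtain ⟨i, -, hi⟩ := Finset.univ.exists_max_image (fun i => w 0 (ι (c i))) ⟨i0, Finset.mem_univ _⟩
  have p0 : 0 < w 0 (ι (c i)) := (zero_lt_iff.2 ((w 0).ne_zero_iff.2 ((map_ne_zero ι).2 h2))).trans_le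
    (hi i0 (Finset.mem_univ _))
  have b1 : w i (ι (c i) * (a i / (1 + a i))) = w 0 (ι (c i)) := by
    rw [map_mul, he, map_div₀, (w i).map_add_eq_of_lt_right (by rw [map_one]; exact a1 i),
      div_self (zero_lt_one.trans (a1 i)).ne', mul_one]
  have := (w i).map_sum_eq_of_lt (f := fun j => ι (c j) * (a j / (1 + a j))) (Finset.mem_univ i)
    fun j hj => by
      have h3 := a2 j i fun e => (Finset.mem_sdiff.1 hj).2 (Finset.mem_singleton.2 e.symm)
      rw [b1, map_mul, he, map_div₀, (w i).map_one_add_of_lt h3, div_one]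
      exact (mul_le_mul_left (hi j (Finset.mem_univ _)) _).trans_lt (mul_lt_of_lt_one_right p0 h3)
  rw [h1, map_zero, b1] at this
  exact p0.ne this

theorem exists_L {J : Type} {g : J → ℂ[X]} {z : J → ℕ → ℂ}
    (hs : ∀ i n, z i (n + 1) = (g i).eval (z i n)) (hD : Dom z) :
    ∃ (L : Type) (_ : Field L) (_ : Algebra ℂ L) (π : MvPolynomial J ℂ →ₐ[ℂ] L) (φ : L →ₐ[ℂ] L),
      (∀ P, π P = 0 ↔ Van z P) ∧ (∀ a, ∃ P Q, a = π P / π Q) ∧ (∀ P, φ (π P) = π (phi g P)) ∧
      ∀ v : Valuation (MvPolynomial J ℂ) ℝ≥0, (∀ P, π P = 0 ↔ v P = 0) →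
        ∃ w : Valuation L ℝ≥0, ∀ P, w (π P) = v P := by
  have : (dso1_id z).IsPrime := ⟨fun ht => by
      have : Van z 1 := show (1 : MvPolynomial J ℂ) ∈ dso1_id z from ht ▸ Submodule.mem_top
      obtain ⟨n, hn⟩ := this.exists
      simp at hn, fun {p q} hpq => hD p q hpq⟩
  let A := MvPolynomial J ℂ ⧸ dso1_id z
  let π : MvPolynomial J ℂ →ₐ[ℂ] FractionRing A :=
    (IsScalarTower.toAlgHom ℂ A _).comp (Ideal.Quotient.mkₐ ℂ (dso1_id z))
  have hπ : ∀ P, π P = algebraMap A _ (Ideal.Quotient.mk _ P) := fun _ => rfl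
  have h0 : ∀ P, π P = 0 ↔ Van z P := fun P => by
    rw [hπ, map_eq_zero_iff _ (IsFractionRing.injective A _), Ideal.Quotient.eq_zero_iff_mem]
    rfl
  let ψ : A →ₐ[ℂ] FractionRing A := Ideal.Quotient.liftₐ _ (π.comp (phi g)) fun P hP =>
    (h0 _).2 ((van_phi hs P).2 hP)
  have hψ : Function.Injective ψ := (injective_iff_map_eq_zero ψ).2 fun a ha => by
    obtain ⟨P, rfl⟩ := Ideal.Quotient.mk_surjective a
    exact Ideal.Quotient.eq_zero_iff_mem.2 ((van_phi hs P).1 ((h0 _).1 ha))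
  refine ⟨FractionRing A, inferInstance, inferInstance, π, IsFractionRing.liftAlgHom hψ, h0,
    fun a => ?_, fun P => ?_, fun v hv => ?_⟩
  · obtain ⟨p, q, -, rfl⟩ := IsFractionRing.div_surjective A a
    obtain ⟨P, rfl⟩ := Ideal.Quotient.mk_surjective p
    obtain ⟨Q, rfl⟩ := Ideal.Quotient.mk_surjective q
    exact ⟨P, Q, rfl⟩
  · rw [hπ, IsFractionRing.liftAlgHom_apply, IsFractionRing.lift_algebraMap]
    rfl
  · have h1 : dso1_id z ≤ v.supp := fun P hP => (hv P).1 ((h0 P).2 hP)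
    refine ⟨(v.onQuot h1).extendToLocalization (S := nonZeroDivisors A) (fun a ha e => ?_) _,
      fun P => by rw [hπ, Valuation.extendToLocalization_apply_map_apply]; rfl⟩
    obtain ⟨P, rfl⟩ := Ideal.Quotient.mk_surjective a
    exact nonZeroDivisors.ne_zero ha (Ideal.Quotient.eq_zero_iff_mem.2 ((h0 P).1 ((hv P).2 e)))

theorem exists_FF {J : Type} [Finite J] {L : Type} [Field L] [Algebra ℂ L]
    (π : MvPolynomial J ℂ →ₐ[ℂ] L) (hs : ∀ a, ∃ P Q, a = π P / π Q) {x : L}
    (hx : Function.Injective (aeval x : ℂ[X] →ₐ[ℂ] L)) (h : ∀ j, ∃ m, Rl x (π (.X j)) m) :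
    ∃ ι, FF x ι := by
  let ι : FractionRing ℂ[X] →+* L :=
    IsFractionRing.lift (g := (aeval x : ℂ[X] →ₐ[ℂ] L).toRingHom) hx
  have hι : ∀ p, ι (algebraMap ℂ[X] _ p) = aeval x p := IsFractionRing.lift_algebraMap _
  refine ⟨ι, ?_, hι⟩
  let := ι.toAlgebra
  have hi : ∀ y ∈ Set.range fun j => π (.X j), IsIntegral (FractionRing ℂ[X]) y := by
    rintro _ ⟨j, rfl⟩
    obtain ⟨-, G, G0, -, hG⟩ := h j
    refine IsAlgebraic.isIntegral ⟨G.map (algebraMap ℂ[X] _),
      (Polynomial.map_ne_zero_iff (IsFractionRing.injective _ _)).2 G0, ?_⟩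
    rw [aeval_def, eval₂_map, ← hG, ae_eq]
    congr 1
    exact RingHom.ext hι
  have hF := IntermediateField.finiteDimensional_adjoin hi
  have hT : IntermediateField.adjoin (FractionRing ℂ[X]) (Set.range fun j => π (.X j)) = ⊤ := by
    have : ∀ P, π P ∈ IntermediateField.adjoin (FractionRing ℂ[X]) (Set.range fun j => π (.X j)) :=
      fun P => by
        induction P using MvPolynomial.induction_on with
        | C c =>
          rw [MvPolynomial.algHom_C, ← aeval_C x, ← hι]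
          exact IntermediateField.algebraMap_mem _ _
        | add p q hp hq => rw [map_add]; exact add_mem hp hq
        | mul_X p j hp =>
          rw [map_mul]; exact mul_mem hp (IntermediateField.subset_adjoin _ _ ⟨j, rfl⟩)
    refine eq_top_iff.2 fun a _ => ?_
    obtain ⟨P, Q, rfl⟩ := hs a
    exact div_mem (this P) (this Q)
  rw [hT] at hF
  exact IntermediateField.topEquiv.toLinearEquiv.finiteDimensional

end Pool.Agent.P.MP_68214b_ag.DS
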