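import Pool.Agent.P.MP_68214b_ag.DSO1

open Polynomial Filter Asymptotics Topology NNReal

namespace Pool.Agent.P.MP_68214b_ag.DS

/-- the d ^ n -th root of the size of the n-th term -/
noncomputable def rt (d : ℕ) (a : ℕ → ℂ) (n : ℕ) : ℝ≥0 := ‖a n‖₊ ^ ((d : ℝ) ^ n)⁻¹

variable {d : ℕ}

theorem rt_const (hd : 2 ≤ d) {c : ℝ≥0} (hc : c ≠ 0) :
    Tendsto (fun n : ℕ => c ^ ((d : ℝ) ^ n)⁻¹) atTop (𝓝 1) := by
  have := (tendsto_const_nhds (x := c)).nnrpow (tendsto_pow_atTop_atTop_of_one_lt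
    (show (1 : ℝ) < d by exact_mod_cast hd)).inv_tendsto_atTop (Or.inl hc)
  rwa [NNReal.rpow_zero] at this

theorem rt_pow (hd : 2 ≤ d) (ρ : ℝ≥0) (n : ℕ) : (ρ ^ d ^ n) ^ ((d : ℝ) ^ n)⁻¹ = ρ := by
  rw [← Nat.cast_pow]
  exact NNReal.pow_rpow_inv_natCast ρ (pow_ne_zero _ (by omega))

theorem rt_le (hd : 2 ≤ d) {𝓕 : Filter ℕ} [𝓕.NeBot] (hF : 𝓕 ≤ atTop) {a : ℕ → ℂ} {l ρ : ℝ≥0}
    (h : Tendsto (rt d a) 𝓕 (𝓝 l)) (hO : a =O[𝓕] fun n => (ρ : ℝ) ^ d ^ n) : l ≤ ρ := by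
  obtain ⟨C, C0, hC⟩ := hO.exists_pos
  have := ((rt_const hd (c := ⟨C, C0.le⟩) (fun e => C0.ne' (congrArg Subtype.val e))).mono_left
    hF).mul_const ρ
  rw [one_mul] at this
  refine le_of_tendsto_of_tendsto h this (hC.bound.mono fun n hn => ?_)
  rw [Real.norm_of_nonneg (by positivity)] at hn
  refine (NNReal.rpow_le_rpow (y := ⟨C, C0.le⟩ * ρ ^ d ^ n) hn (by positivity)).trans_eq ?_
  rw [NNReal.mul_rpow, rt_pow hd]

theorem rt_ge (hd : 2 ≤ d) {𝓕 : Filter ℕ} [𝓕.NeBot] {a : ℕ → ℂ} {l ρ : ℝ≥0}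
    (h : Tendsto (rt d a) 𝓕 (𝓝 l)) (hO : ∀ᶠ n in 𝓕, (ρ : ℝ) ^ d ^ n ≤ ‖a n‖) : ρ ≤ l :=
  ge_of_tendsto h (hO.mono fun n hn => (rt_pow hd ρ n).symm.trans_le
    (NNReal.rpow_le_rpow (x := ρ ^ d ^ n) hn (by positivity)))

theorem exists_gv (hd : 2 ≤ d) {J : Type*} {z : J → ℕ → ℂ}
    (hz : ∀ i, ∃ Λ : ℝ, 1 ≤ Λ ∧ ∀ n, ‖z i n‖ ≤ Λ ^ d ^ n) (𝒰 : Ultrafilter ℕ)
    (hU : (𝒰 : Filter ℕ) ≤ atTop) : ∃ v : Valuation (MvPolynomial J ℂ) ℝ≥0, ∀ P,
      Tendsto (rt d fun n => MvPolynomial.eval (fun i => z i n) P) 𝒰 (𝓝 (v P)) := by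
  have e0 : ∀ n : ℕ, 0 < ((d : ℝ) ^ n)⁻¹ := fun n => by
    have : (0 : ℝ) < d := by positivity
    positivity
  have e1 : ∀ n : ℕ, ((d : ℝ) ^ n)⁻¹ ≤ 1 := fun n =>
    inv_le_one_of_one_le₀ (one_le_pow₀ (by exact_mod_cast (by omega : 1 ≤ d)))
  set r := fun P : MvPolynomial J ℂ => rt d fun n => MvPolynomial.eval (fun i => z i n) P with hr
  have hm : ∀ P Q n, r (P * Q) n = r P n * r Q n := fun P Q n => by
    simp only [hr, rt, map_mul, nnnorm_mul, NNReal.mul_rpow]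
  have hb : ∀ P, ∃ B, ∀ n, r P n ≤ B := fun P => by
    induction P using MvPolynomial.induction_on with
    | C c =>
      refine ⟨max 1 ‖c‖₊, fun n => ?_⟩
      simp only [hr, rt, MvPolynomial.eval_C]
      exact (NNReal.rpow_le_rpow (le_max_right 1 _) (e0 n).le).trans
        ((NNReal.rpow_le_rpow_of_exponent_le (le_max_left _ _) (e1 n)).trans_eq (NNReal.rpow_one _))
    | add p q hp hq =>
      obtain ⟨B, hB⟩ := hp
      obtain ⟨B', hB'⟩ := hq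
      refine ⟨B + B', fun n => le_trans ?_ (add_le_add (hB n) (hB' n))⟩
      simp only [hr, rt, map_add]
      exact (NNReal.rpow_le_rpow (nnnorm_add_le _ _) (e0 n).le).trans
        (NNReal.rpow_add_le_add_rpow _ _ (e0 n).le (e1 n))
    | mul_X p i hp =>
      obtain ⟨B, hB⟩ := hp
      obtain ⟨Λ, h1, h2⟩ := hz i
      refine ⟨B * ⟨Λ, by linarith⟩, fun n => (hm _ _ n).trans_le (mul_le_mul' (hB n) ?_)⟩
      simp only [hr, rt, MvPolynomial.eval_X]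
      exact (NNReal.rpow_le_rpow (y := ⟨Λ, by linarith⟩ ^ d ^ n) (h2 n) (e0 n).le).trans_eq
        (rt_pow hd _ n)
  have hl : ∀ P, ∃ l, Tendsto (r P) 𝒰 (𝓝 l) := fun P => by
    obtain ⟨B, hB⟩ := hb P
    obtain ⟨l, -, hl⟩ := (isCompact_Icc (a := 0) (b := B)).ultrafilter_le_nhds (𝒰.map (r P))
      (le_principal_iff.2 (mem_map.2 (univ_mem' fun n => ⟨zero_le, hB n⟩)))
    exact ⟨l, hl⟩
  choose v hv using hl
  refine ⟨⟨⟨⟨v, ?_⟩, ?_, fun P Q => ?_⟩, fun P Q => ?_⟩, hv⟩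
  · refine tendsto_nhds_unique (hv 0) (tendsto_const_nhds.congr fun n => ?_)
    simp only [hr, rt, map_zero, nnnorm_zero, NNReal.zero_rpow (e0 n).ne']
  · refine tendsto_nhds_unique (hv 1) (tendsto_const_nhds.congr fun n => ?_)
    simp only [hr, rt, map_one, nnnorm_one, NNReal.one_rpow]
  · exact tendsto_nhds_unique (hv _) (((hv P).mul (hv Q)).congr fun n => (hm P Q n).symm)
  · have := ((rt_const hd (c := 2) two_ne_zero).mono_left hU).mul ((hv P).max (hv Q))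
    rw [one_mul] at this
    refine le_of_tendsto_of_tendsto' (hv _) this fun n => ?_
    simp only [hr, rt, map_add]
    rw [← Monotone.map_max (NNReal.monotone_rpow_of_nonneg (e0 n).le), ← NNReal.mul_rpow, two_mul]
    exact NNReal.rpow_le_rpow ((nnnorm_add_le _ _).trans
      (add_le_add (le_max_left _ _) (le_max_right _ _))) (e0 n).le

theorem rt_shift (hd : 2 ≤ d) {J : Type*} {g : J → ℂ[X]} {z : J → ℕ → ℂ}
    (hs : ∀ i n, z i (n + 1) = (g i).eval (z i n)) {𝓕 : Filter ℕ} (hF : 𝓕 ≤ atTop)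
    {P : MvPolynomial J ℂ} {l : ℝ≥0}
    (h : Tendsto (rt d fun n => MvPolynomial.eval (fun i => z i n) P) 𝓕 (𝓝 l)) :
    Tendsto (rt d fun n => MvPolynomial.eval (fun i => z i n) (phi g P)) (𝓕.map (· - 1))
      (𝓝 (l ^ d)) := by
  refine tendsto_map' ((h.pow d).congr' ((eventually_ge_atTop 1).filter_mono hF |>.mono
    fun n hn => ?_))
  obtain ⟨n, rfl⟩ := Nat.exists_eq_add_of_le' hn
  have : (d : ℝ) ≠ 0 := by positivity
  simp only [rt, Function.comp_apply, Nat.add_sub_cancel, eval_phi, ← hs]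
  rw [← NNReal.rpow_natCast, ← NNReal.rpow_mul, pow_succ, mul_inv, inv_mul_cancel_right₀ this]

end Pool.Agent.P.MP_68214b_ag.DS
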