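import Pool.Agent.P.MP_68214b_ag.DSDef

open Polynomial Filter Asymptotics NumberField Topology

namespace Pool.Agent.P.MP_68214b_ag.DS

theorem dsa1_ne {g : ℂ[X]} (hg : 0 < g.natDegree) (v : ℂ) : g - C v ≠ 0 := fun e => by
  rw [← natDegree_sub_C (a := v), e, natDegree_zero] at hg
  exact lt_irrefl _ hg

theorem dsa1_root (g : ℂ[X]) (c : ℂ) : (g - C (g.eval c)).IsRoot c := by simp

theorem dsa1_pow {p : ℂ[X]} (hp : p ≠ 0) (c : ℂ) (n : ℕ) :
    rootMultiplicity c (p ^ n) = rootMultiplicity c p * n := by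
  induction n with
  | zero => rw [pow_zero, mul_zero, ← C_1, rootMultiplicity_C]
  | succ n ih => rw [pow_succ, rootMultiplicity_mul (mul_ne_zero (pow_ne_zero _ hp) hp), ih, mul_add,
      mul_one]

theorem em_pos {g : ℂ[X]} (hg : 0 < g.natDegree) (c : ℂ) : 0 < em g c :=
  (rootMultiplicity_pos (dsa1_ne hg _)).2 (dsa1_root g c)

theorem em_le {g : ℂ[X]} (hg : 0 < g.natDegree) (c : ℂ) : em g c ≤ g.natDegree := by
  have := natDegree_le_of_dvd (pow_rootMultiplicity_dvd (g - C (g.eval c)) c) (dsa1_ne hg _)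
  rwa [natDegree_pow, natDegree_X_sub_C, mul_one, natDegree_sub_C] at this

theorem rm_comp {g a : ℂ[X]} (hg : 0 < g.natDegree) (ha : a ≠ 0) (c : ℂ) :
    rootMultiplicity c (a.comp g) = em g c * rootMultiplicity (g.eval c) a := by
  obtain ⟨q, h1, h2⟩ := exists_eq_pow_rootMultiplicity_mul_and_not_dvd a ha (g.eval c)
  have h3 : ¬ (q.comp g).IsRoot c := fun h => h2 (dvd_iff_isRoot.2 (by
    rwa [IsRoot, eval_comp] at h))
  have h4 : q.comp g ≠ 0 := fun e => h3 (by rw [e]; exact IsRoot.def.2 eval_zero)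
  conv_lhs => rw [h1]
  rw [mul_comp, pow_comp, sub_comp, X_comp, C_comp,
    rootMultiplicity_mul (mul_ne_zero (pow_ne_zero _ (dsa1_ne hg _)) h4),
    rootMultiplicity_eq_zero h3, add_zero, dsa1_pow (dsa1_ne hg _), em]

theorem em_comp {g h : ℂ[X]} (hg : 0 < g.natDegree) (hh : 0 < h.natDegree) (c : ℂ) :
    em (g.comp h) c = em h c * em g (h.eval c) := by
  have := rm_comp hh (dsa1_ne hg (g.eval (h.eval c))) c
  rw [sub_comp, C_comp] at this
  rw [em, eval_comp, this]
  rfl

theorem rm_der {g : ℂ[X]} (hg : 0 < g.natDegree) (c : ℂ) :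
    rootMultiplicity c (derivative g) + 1 = em g c := by
  have h1 := derivative_rootMultiplicity_of_root (dsa1_root g c)
  have h2 := em_pos hg c
  rw [derivative_sub, derivative_C, sub_zero] at h1
  rw [h1]
  exact Nat.sub_add_cancel h2

theorem em_fin {g : ℂ[X]} (hg : 0 < g.natDegree) : {c | em g c ≠ 1}.Finite := by
  have h : derivative g ≠ 0 := derivative_ne_zero.2 hg.ne'
  refine (finite_setOfPred_isRoot h).subset fun c hc => by_contra fun hn => hc ?_
  rw [← rm_der hg, rootMultiplicity_eq_zero hn]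

theorem pre_fin {g : ℂ[X]} (hg : 0 < g.natDegree) {E : Set ℂ} (hE : E.Finite) :
    {c | g.eval c ∈ E}.Finite := by
  refine (hE.biUnion fun v _ => finite_setOfPred_isRoot (dsa1_ne hg v)).subset fun c hc => ?_
  exact Set.mem_biUnion hc (dsa1_root g c)

theorem eval_surj {g : ℂ[X]} (hg : 0 < g.natDegree) (v : ℂ) : ∃ c, g.eval c = v := by
  obtain ⟨c, hc⟩ := IsAlgClosed.exists_root (g - C v)
    (natDegree_pos_iff_degree_pos.1 (by rwa [natDegree_sub_C])).ne'
  exact ⟨c, by simpa [sub_eq_zero] using hc⟩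

theorem eq_of_rm {p q : ℂ[X]} (hp : p ≠ 0) (hq : q ≠ 0)
    (h : ∀ c, rootMultiplicity c p = rootMultiplicity c q) :
    C q.leadingCoeff * p = C p.leadingCoeff * q := by
  classical
  have e : p.roots = q.roots := Multiset.ext.2 fun c => by rw [count_roots, count_roots, h]
  have h1 := (IsAlgClosed.splits p).eq_prod_roots
  have h2 := (IsAlgClosed.splits q).eq_prod_roots
  rw [e] at h1
  linear_combination C q.leadingCoeff * h1 - C p.leadingCoeff * h2

theorem em_top {g : ℂ[X]} (hg : 0 < g.natDegree) {c : ℂ} (h : em g c = g.natDegree) :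
    g = C g.leadingCoeff * (X - C c) ^ g.natDegree + C (g.eval c) := by
  have h1 := pow_rootMultiplicity_dvd (g - C (g.eval c)) c
  rw [← em, h] at h1
  have h2 := eq_leadingCoeff_mul_of_monic_of_dvd_of_natDegree_le ((monic_X_sub_C c).pow _) h1
    (by rw [natDegree_pow, natDegree_X_sub_C, mul_one, natDegree_sub_C])
  rw [leadingCoeff_sub_of_degree_lt (degree_C_le.trans_lt (natDegree_pos_iff_degree_pos.1 hg))] at h2
  exact sub_eq_iff_eq_add.1 h2

end Pool.Agent.P.MP_68214b_ag.DS
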