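import Pool.Agent.P.MP_68214b_ag.DSO1
import Pool.Agent.P.MP_68214b_ag.DSA1

open Polynomial Filter Asymptotics NumberField Topology

namespace Pool.Agent.P.MP_68214b_ag.DS

theorem bridge {J K : Type*} [DecidableEq J] [CommRing K] (k : J) :
    ∃ e : MvPolynomial J K ≃ₐ[K] (MvPolynomial {m // m ≠ k} K)[X],
      (∀ b, e (MvPolynomial.rename Subtype.val b) = C b) ∧ e (MvPolynomial.X k) = X ∧
      ∀ P, e (MvPolynomial.pderiv k P) = derivative (e P) := by
  let e := (MvPolynomial.renameEquiv K (Equiv.optionSubtypeNe k).symm).trans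
    (MvPolynomial.optionEquivLeft K {m // m ≠ k})
  have h1 : e (MvPolynomial.X k) = X := by simp [e]
  have h2 : ∀ m : {m // m ≠ k}, e (MvPolynomial.X m.1) = C (MvPolynomial.X m) := fun m => by
    simp [e, Equiv.optionSubtypeNe_symm_of_ne m.2]
  have h3 : ∀ a, e (MvPolynomial.C a) = C (MvPolynomial.C a) := fun a => by simp [e]
  refine ⟨e, fun b => ?_, h1, fun P => ?_⟩
  · induction b using MvPolynomial.induction_on with
    | C a => rw [MvPolynomial.rename_C, h3]
    | add p q hp hq => rw [map_add, map_add, hp, hq, map_add]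
    | mul_X p i hp => rw [map_mul, map_mul, hp, MvPolynomial.rename_X, h2, map_mul]
  · induction P using MvPolynomial.induction_on with
    | C a => rw [MvPolynomial.pderiv_C, h3, derivative_C, map_zero]
    | add p q hp hq => rw [map_add, map_add, hp, hq, map_add, map_add]
    | mul_X p i hp =>
      rw [MvPolynomial.pderiv_mul, map_add, map_mul, map_mul, hp, map_mul, derivative_mul]
      by_cases hi : i = k
      · rw [hi, MvPolynomial.pderiv_X_self, h1, derivative_X, map_one]
      · rw [MvPolynomial.pderiv_X_of_ne hi, h2 ⟨i, hi⟩, derivative_C, map_zero]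

theorem phi_X {J K : Type*} [CommRing K] (g : J → K[X]) (i : J) :
    phi g (MvPolynomial.X i) = aeval (MvPolynomial.X i : MvPolynomial J K) (g i) :=
  MvPolynomial.aeval_X _ _

theorem pderiv_phi {J K : Type*} [CommRing K] (g : J → K[X]) (i : J) (P : MvPolynomial J K) :
    MvPolynomial.pderiv i (phi g P) = phi g (MvPolynomial.pderiv i P) *
      aeval (MvPolynomial.X i : MvPolynomial J K) (derivative (g i)) := by
  classical
  induction P using MvPolynomial.induction_on with
  | C a =>
    rw [MvPolynomial.pderiv_C, map_zero, zero_mul, MvPolynomial.algHom_C,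
      MvPolynomial.algebraMap_eq, MvPolynomial.pderiv_C]
  | add p q hp hq => rw [map_add, map_add, hp, hq, map_add, map_add, add_mul]
  | mul_X p j hp =>
    rw [map_mul, MvPolynomial.pderiv_mul, hp, MvPolynomial.pderiv_mul, map_add, map_mul, map_mul,
      phi_X, Derivation.map_aeval]
    by_cases hj : j = i
    · rw [hj, MvPolynomial.pderiv_X_self, map_one, smul_eq_mul]
      ring
    · rw [MvPolynomial.pderiv_X_of_ne hj, map_zero, smul_zero]
      ring

theorem phi_rename {I J K : Type*} [CommRing K] (g : J → K[X]) (e : I → J) (b : MvPolynomial I K) :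
    phi g (MvPolynomial.rename e b) = MvPolynomial.rename e (phi (fun m => g (e m)) b) := by
  refine DFunLike.congr_fun (?_ : (phi g).comp (MvPolynomial.rename e) =
    (MvPolynomial.rename e).comp (phi fun m => g (e m))) b
  refine MvPolynomial.algHom_ext fun i => ?_
  rw [AlgHom.comp_apply, AlgHom.comp_apply, MvPolynomial.rename_X, phi_X, phi_X,
    ← aeval_algHom_apply, MvPolynomial.rename_X]

theorem rename_aeval_X {I J K : Type*} [CommRing K] (e : I → J) (i : I) (q : K[X]) :
    MvPolynomial.rename e (aeval (MvPolynomial.X i : MvPolynomial I K) q) =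
      aeval (MvPolynomial.X (e i) : MvPolynomial J K) q := by
  rw [← aeval_algHom_apply, MvPolynomial.rename_X]

theorem map_aeval_X {J K L : Type*} [CommRing K] [CommRing L] (σ : K →+* L) (i : J) (q : K[X]) :
    MvPolynomial.map σ (aeval (MvPolynomial.X i : MvPolynomial J K) q) =
      aeval (MvPolynomial.X i : MvPolynomial J L) (q.map σ) := by
  induction q using Polynomial.induction_on' with
  | add p q hp hq => rw [map_add, map_add, hp, hq, Polynomial.map_add, map_add]
  | monomial n a => simp [aeval_monomial]

theorem phi_map {J K L : Type*} [CommRing K] [CommRing L] (σ : K →+* L) (g : J → K[X])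
    (P : MvPolynomial J K) :
    MvPolynomial.map σ (phi g P) = phi (fun i => (g i).map σ) (MvPolynomial.map σ P) := by
  induction P using MvPolynomial.induction_on with
  | C a => simp [phi]
  | add p q hp hq => rw [map_add, map_add, hp, hq, map_add, map_add]
  | mul_X p j hp =>
    rw [map_mul, map_mul, hp, map_mul, map_mul, MvPolynomial.map_X, phi_X, phi_X, map_aeval_X]

theorem aeval_X_ne {J K : Type*} [CommRing K] (i : J) {q : K[X]} (hq : q ≠ 0) :
    aeval (MvPolynomial.X i : MvPolynomial J K) q ≠ 0 := by
  classical
  intro h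
  have := congrArg (MvPolynomial.aeval (R := K) fun _ : J => (X : K[X])) h
  rw [← aeval_algHom_apply, MvPolynomial.aeval_X, aeval_X_left_apply, map_zero] at this
  exact hq this

theorem phi_inj {J : Type*} (g : J → ℂ[X]) (hg : ∀ i, 0 < (g i).natDegree) :
    Function.Injective (phi g) := by
  intro P Q h
  refine MvPolynomial.funext fun y => ?_
  choose x hx using fun i => eval_surj (hg i) (y i)
  have := congrArg (MvPolynomial.eval x) h
  rwa [eval_phi, eval_phi, funext hx] at this

end Pool.Agent.P.MP_68214b_ag.DS
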