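import Pool.Agent.P.MP_68214b_ag.DG8
import Pool.Agent.P.MP_68214b_ag.DG9
import Pool.Agent.P.MP_68214b_ag.DGA
import Pool.Agent.P.MP_68214b_ag.DSM2

open Polynomial Filter Asymptotics Topology NNReal

namespace Pool.Agent.P.MP_68214b_ag.DS

theorem ae_hom {A B : Type*} [CommRing A] [CommRing B] [Algebra ℂ A] [Algebra ℂ B]
    (F : A →ₐ[ℂ] B) (a b : A) (G : ℂ[X][X]) : F (aevalAeval a b G) = aevalAeval (F a) (F b) G := by
  induction G using Polynomial.induction_on' with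
  | add p q hp hq => simp only [map_add, hp, hq]
  | monomial n p =>
    simp only [← C_mul_X_pow_eq_monomial, map_mul, map_pow, aevalAeval_C, aevalAeval_Y,
      aeval_algHom_apply]

/-- one place at infinity -/
theorem opi0 {J : Type} [Finite J] {g : J → ℂ[X]} {z : J → ℕ → ℂ} {d : ℕ} (hd : 2 ≤ d)
    (hg : ∀ i, (g i).natDegree = d) (hs : ∀ i n, z i (n + 1) = (g i).eval (z i n))
    (hz : ∀ i, ∃ Λ : ℝ, 1 ≤ Λ ∧ ∀ n, ‖z i n‖ ≤ Λ ^ d ^ n) (hD : Dom z) {i0 : J}
    (hm : (g i0).Monic) (hN : NS (g i0)) (hu : ¬ ∃ B : ℝ, ∀ n, ‖z i0 n‖ ≤ B)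
    (hp : ∀ j, Dep (z i0) (z j)) (𝒰 : Ultrafilter ℕ) (hU : (𝒰 : Filter ℕ) ≤ atTop)
    {R : MvPolynomial J ℂ} (hR : Sml 𝒰 d fun n => MvPolynomial.eval (fun i => z i n) R) :
    ∃ c, Van z (R - MvPolynomial.C c) := by
  obtain ⟨L, _, _, π, φ, h0, h1, h2, h3⟩ := exists_L hs hD
  have hφ : ∀ j, φ (π (.X j)) = aeval (π (.X j)) (g j) := fun j => by
    rw [h2, phi_X, aeval_algHom_apply]
  set x := π (.X i0) with hx
  have d2 : 2 ≤ (g i0).natDegree := hg i0 ▸ hd
  obtain ⟨ρ, r1, r2⟩ := escape hm d2 (hs i0) hu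
  rw [hg] at r2
  lift ρ to ℝ≥0 using zero_le_one.trans r1.le
  let U : ℕ → Ultrafilter ℕ := fun k => (Ultrafilter.map (· - 1))^[k] 𝒰
  have U1 : ∀ k, U (k + 1) = (U k).map (· - 1) := fun k => Function.iterate_succ_apply' _ _ _
  have U2 : ∀ k, (U k : Filter ℕ) ≤ atTop := fun k => by
    induction k with
    | zero => exact hU
    | succ k ih => rw [U1]; exact (map_mono ih).trans (tendsto_sub_atTop_nat 1)
  choose v hv using fun k => exists_gv hd hz (U k) (U2 k)
  have v1 : ∀ k, (v k).IsTrivialOn ℂ := fun k => ⟨fun c hc => tendsto_nhds_unique (hv k _)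
    (((rt_const hd (nnnorm_ne_zero_iff.2 hc)).mono_left (U2 k)).congr fun n => by simp [rt])⟩
  have v2 : ∀ k, 1 < v k (.X i0) := fun k => lt_of_lt_of_le (b := ρ) r1
    (rt_ge hd (hv k _) ((r2.filter_mono (U2 k)).mono fun n hn => by simpa using hn))
  have v3 : ∀ k P, π P = 0 → v k P = 0 := fun k P hP => tendsto_nhds_unique (hv k P)
    (tendsto_const_nhds.congr' ((((h0 P).1 hP).filter_mono (U2 k)).mono fun n hn => by
      have : (0 : ℝ) < d := by positivity
      simp only [rt, hn, nnnorm_zero]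
      exact (NNReal.zero_rpow (by positivity)).symm))
  have v4 : ∀ k, ∀ p : ℂ[X], p ≠ 0 → v k (aeval (MvPolynomial.X i0) p) ≠ 0 := fun k p hp => by
    have := v1 k
    rw [valuation_aeval_eq_valuation_X_pow_natDegree_of_one_lt_valuation_X _ (v2 k) hp]
    exact pow_ne_zero _ (zero_lt_one.trans (v2 k)).ne'
  obtain ⟨ι, h⟩ := exists_FF π h1 (x := x) ((injective_iff_map_eq_zero _).2 fun p hp =>
    by_contra fun p0 => v4 0 p p0 (v3 0 _ (by rw [← aeval_algHom_apply]; exact hp))) fun j => by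
      obtain ⟨G, G0, hG⟩ := hp j
      refine ⟨_, G, G0, le_rfl, ?_⟩
      rw [hx, ← ae_hom, h0]
      refine hG.mono fun n hn => ?_
      rw [← MvPolynomial.aeval_eq_eval, ae_hom, MvPolynomial.aeval_X, MvPolynomial.aeval_X,
        coe_aevalAeval_eq_evalEval, hn]
  choose w hw using fun k => h3 (v k) fun P => ⟨v3 k P, fun hP => by_contra fun P0 => by
    obtain ⟨G, G0, -, hG⟩ := h.rl (π P)
    obtain ⟨q, e, hq⟩ := exists_eq_pow_rootMultiplicity_mul_and_not_dvd G G0 0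
    rw [C_0, sub_zero] at e hq
    rw [e, map_mul, map_pow, aevalAeval_Y, mul_eq_zero, or_iff_right (pow_ne_zero _ P0), hx,
      ← ae_hom] at hG
    have e1 := v3 k _ hG
    rw [← X_mul_divX_add q, map_add, map_mul, aevalAeval_Y, aevalAeval_C,
      (v k).map_add_eq_of_lt_right] at e1
    · exact v4 k _ (mt X_dvd_iff.2 hq) e1
    · rw [map_mul, hP, zero_mul]
      exact zero_lt_iff.2 (v4 k _ (mt X_dvd_iff.2 hq))⟩
  have w1 : ∀ k, (w k).IsTrivialOn ℂ := fun k => ⟨fun c hc => by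
    rw [← π.commutes, hw]; exact (v1 k).eq_one c hc⟩
  have w2 : ∀ k, 1 < w k x := fun k => by rw [hx, hw]; exact v2 k
  have w3 : ∀ k a, w (k + 1) (φ a) = w k a ^ d := fun k a => by
    have : ∀ P, w (k + 1) (φ (π P)) = w k (π P) ^ d := fun P => by
      rw [h2, hw, hw]
      exact tendsto_nhds_unique (hv _ _) (U1 k ▸ rt_shift hd hs (U2 k) (hv k P))
    obtain ⟨P, Q, rfl⟩ := h1 a
    rw [map_div₀, map_div₀, map_div₀, this, this, div_pow]
  have w4 : ∀ t k a, w (k + t) ((φ ^ t) a) = w k a ^ d ^ t := fun t k a => by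
    induction t with
    | zero => simp
    | succ t ih => rw [pow_succ', AlgHom.mul_apply, ← add_assoc, w3, ih, ← pow_mul, pow_succ]
  have w5 : ∀ k, w k x = w 0 x := fun k => by
    induction k with
    | zero => rfl
    | succ k ih =>
      have := w3 k x
      rw [hφ, v_top (w1 _) (w2 _) hm.ne_zero, hg, ih] at this
      exact (pow_left_inj₀ zero_le zero_le (by omega)).1 this
  obtain ⟨i, j, hij, he⟩ := h.two w w1 (w2 0) w5
  obtain ⟨t, rfl⟩ := Nat.exists_eq_add_of_le hij.le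
  have t0 : 0 < t := by omega
  obtain ⟨G, G0, -, hG⟩ := h.rl (π R)
  obtain ⟨c, hc⟩ := v_res (w1 0) (w2 0) (a := π R)
    (by rw [hw]; exact le_of_forall_gt_imp_ge_of_dense fun r hr => rt_le hd hU (hv 0 R) (hR r hr))
    ((map_ne_zero_iff _ Bivariate.swap.injective).2 G0) ((Bivariate.aevalAeval_swap _ _ G).trans hG)
  refine ⟨c, (h0 _).1 (by_contra fun b0 => ?_)⟩
  have hF : ∀ P, π P ∈ Fn x := fun P => by
    induction P using MvPolynomial.induction_on with
    | C c => rw [MvPolynomial.algHom_C, ← aeval_C x]; exact Fn_aeval x _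
    | add p q hp hq => rw [map_add]; exact add_mem hp hq
    | mul_X p j hp =>
      rw [map_mul]; exact mul_mem hp (h.int (hφ i0) d2 hN.tot (hφ j) ((hg j).trans (hg i0).symm))
  refine (hN.iterate d2 t0).orb (h.eigen (phi_pow (hφ i0) t) (iter_monic hm (by omega) t)
    (by rw [iter_natDegree]; exact d2.trans (Nat.le_self_pow t0.ne' _)) (w1 (i + t)) (w2 _)
    (fun a => by rw [w4, he, iter_natDegree, hg]) ((map_ne_zero (φ ^ (i + t))).2 b0)
    (Fn_phi (phi_pow (hφ i0) _) (hF _)) ?_)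
  have := w4 (i + t) 0 (π (R - MvPolynomial.C c))
  rw [zero_add] at this
  rw [this, map_sub, MvPolynomial.algHom_C]
  exact pow_lt_one₀ zero_le hc (by positivity)

end Pool.Agent.P.MP_68214b_ag.DS
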