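import Pool.Agent.P.MP_68214b_ag.DSS6

open Polynomial Filter Asymptotics NumberField Topology

namespace Pool.Agent.P.MP_68214b_ag.DS

variable {K : Type} [Field K] [NumberField K]

/-- denominator and house at most B -/
def Ht (B : ℝ) (a : K) : Prop :=
  ∃ M : ℕ, 0 < M ∧ (M : ℝ) ≤ B ∧ IsIntegral ℤ ((M : K) * a) ∧ house a ≤ B

/-- small height growth -/
def SmH (𝓕 : Filter ℕ) (d : ℕ) (a : ℕ → K) : Prop :=
  ∀ ρ : ℝ, 1 < ρ → ∀ᶠ n in 𝓕, Ht (ρ ^ d ^ n) (a n)

theorem Ht.one_le {B : ℝ} {a : K} (h : Ht B a) : 1 ≤ B := by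
  obtain ⟨M, h1, h2, -⟩ := h
  exact (Nat.one_le_cast.2 h1).trans h2

theorem Ht.mono {B B' : ℝ} {a : K} (h : Ht B a) (hB : B ≤ B') : Ht B' a := by
  obtain ⟨M, h1, h2, h3, h4⟩ := h
  exact ⟨M, h1, h2.trans hB, h3, h4.trans hB⟩

theorem Ht.mul {B B' : ℝ} {a b : K} (h : Ht B a) (h' : Ht B' b) : Ht (B * B') (a * b) := by
  have := h.one_le
  obtain ⟨M, h1, h2, h3, h4⟩ := h
  obtain ⟨M', k1, k2, k3, k4⟩ := h'
  refine ⟨M * M', mul_pos h1 k1, ?_, ?_,
    (house_mul_le _ _).trans (mul_le_mul h4 k4 (house_nonneg _) (by linarith))⟩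
  · rw [Nat.cast_mul]; exact mul_le_mul h2 k2 (by positivity) (by linarith)
  · rw [Nat.cast_mul, mul_mul_mul_comm]; exact h3.mul k3

theorem Ht.add {B B' : ℝ} {a b : K} (h : Ht B a) (h' : Ht B' b) : Ht (2 * (B * B')) (a + b) := by
  have b1 := h.one_le
  have b2 := h'.one_le
  obtain ⟨M, h1, h2, h3, h4⟩ := h
  obtain ⟨M', k1, k2, k3, k4⟩ := h'
  refine ⟨M * M', mul_pos h1 k1, ?_, ?_, (house_add_le _ _).trans (by nlinarith)⟩
  · rw [Nat.cast_mul]
    exact (mul_le_mul h2 k2 (by positivity) (by linarith)).trans (by nlinarith)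
  · rw [mul_add]
    exact (Den.mono h3 (dvd_mul_right _ _)).add (Den.mono k3 (dvd_mul_left _ _))

theorem Ht.const (c : K) : ∃ B, Ht B c := by
  obtain ⟨N, hN, h⟩ := exists_den ({c} : Finset K)
  exact ⟨max N (house c), N, hN, le_max_left _ _, h c (Finset.mem_singleton_self c),
    le_max_right _ _⟩

theorem Ht.poly (p : K[X]) : ∃ e : ℕ, ∀ B a, 2 ≤ B → Ht B a → Ht (B ^ e) (p.eval a) := by
  induction p using Polynomial.recOnHorner with
  | M0 => exact ⟨0, fun B a _ _ => ⟨1, one_pos, by simp, by simpa using isIntegral_zero, by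
      simp [house]⟩⟩
  | MC p c _ _ ih =>
    obtain ⟨e, he⟩ := ih
    obtain ⟨B0, h0⟩ := Ht.const c
    obtain ⟨k, hk⟩ := pow_unbounded_of_one_lt B0 (one_lt_two (α := ℝ))
    refine ⟨e + k + 1, fun B a hB ha => ?_⟩
    rw [eval_add, eval_C, pow_succ', pow_add]
    exact ((he B a hB ha).add (h0.mono (hk.le.trans (pow_le_pow_left₀ zero_le_two hB k)))).mono
      (mul_le_mul_of_nonneg_right hB (by positivity))
  | MX p _ ih =>
    obtain ⟨e, he⟩ := ih
    exact ⟨e + 1, fun B a hB ha => by rw [eval_mul, eval_X, pow_succ]; exact (he B a hB ha).mul ha⟩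

theorem dh1_root {p : K[X]} (hp : p ≠ 0) (hi : ∀ j, IsIntegral ℤ (p.coeff j)) {B : ℝ} (b1 : 1 ≤ B)
    (hB : ∀ j, house (p.coeff j) ≤ B) {b : K} (hb : p.eval b = 0) :
    Ht (B ^ (Module.finrank ℚ K + 1) + 1) b := by
  obtain ⟨q, rfl⟩ := (mem_lifts (f := algebraMap (𝓞 K) K) p).1
    ((lifts_iff_coeff_lifts _).2 fun i => ⟨⟨_, hi i⟩, rfl⟩)
  have q0 : q.leadingCoeff ≠ 0 := leadingCoeff_ne_zero.2 fun e => hp (by rw [e, Polynomial.map_zero])
  obtain ⟨c, hc⟩ := Ideal.mem_span_singleton'.1 (Ideal.absNorm_mem (Ideal.span {q.leadingCoeff}))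
  rw [Ideal.absNorm_span_singleton] at hc
  refine ⟨(Algebra.norm ℤ q.leadingCoeff).natAbs, Int.natAbs_pos.2 (Algebra.norm_ne_zero_iff.2 q0),
    ?_, ?_, dss6_root hp hi hB hb⟩
  · obtain ⟨σ, hσ⟩ := exists_house (q.leadingCoeff : K)
    have h1 := norm_norm_le_norm_mul_house_pow (q.leadingCoeff : K) σ
    have h2 := hB q.natDegree
    rw [coeff_map] at h2
    rw [← Algebra.coe_norm_int, Int.norm_cast_rat, Int.norm_eq_abs, ← hσ, ← pow_succ'] at h1
    rw [Nat.cast_natAbs, Int.cast_abs]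
    exact (h1.trans ((pow_le_pow_left₀ (house_nonneg _) h2 _).trans
      (pow_le_pow_right₀ b1 (by omega)))).trans (le_add_of_nonneg_right zero_le_one)
  · have h1 := isIntegral_trans (R := ℤ) _ (isIntegral_leadingCoeff_smul q b (by
      rwa [aeval_def, ← eval_map]))
    rw [← map_natCast (algebraMap (𝓞 K) K), ← hc, map_mul, mul_assoc]
    exact c.isIntegral_coe.mul (by rwa [Algebra.smul_def] at h1)

theorem lemH' {G : K[X][X]} (hG : ∀ c : K, G.map (evalRingHom c) ≠ 0) :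
    ∃ e : ℕ, ∀ (B : ℝ) (a b : K), 2 ≤ B → Ht B a → G.evalEval a b = 0 → Ht (B ^ e) b := by
  choose e he using fun j => Ht.poly (G.coeff j)
  set E := G.support.sup e
  refine ⟨E * (G.support.card + 1) * (Module.finrank ℚ K + 1) + 1, fun B a b hB ha h => ?_⟩
  have b1 : 1 ≤ B ^ E := one_le_pow₀ (by linarith)
  choose! M m1 m2 m3 m4 using fun j (hj : j ∈ G.support) =>
    (he j B a hB ha).mono (pow_le_pow_right₀ (by linarith) (Finset.le_sup hj) : _ ≤ B ^ E)
  set N := ∏ j ∈ G.support, M j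
  have N0 : 0 < N := Finset.prod_pos m1
  have N1 : (N : ℝ) ≤ (B ^ E) ^ G.support.card := by
    rw [Nat.cast_prod, ← Finset.prod_const]
    exact Finset.prod_le_prod (fun _ _ => by positivity) m2
  have hc : ∀ j, ((N : K[X]) * G.map (evalRingHom a)).coeff j = N * (G.coeff j).eval a := fun j => by
    rw [← C_eq_natCast, coeff_C_mul, coeff_map, coe_evalRingHom]
  have key := dh1_root (p := (N : K[X]) * G.map (evalRingHom a))
    (B := (B ^ E) ^ (G.support.card + 1)) (b := b)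
    (mul_ne_zero (Nat.cast_ne_zero.2 N0.ne') (hG a)) (fun j => by
      rw [hc]
      by_cases hj : j ∈ G.support
      · exact Den.mono (m3 j hj) (Finset.dvd_prod_of_mem _ hj)
      · rw [notMem_support_iff.1 hj, eval_zero, mul_zero]
        exact isIntegral_zero) (one_le_pow₀ b1)
    (fun j => by
      rw [hc, house_nat_mul, pow_succ]
      refine mul_le_mul N1 ?_ (house_nonneg _) (by positivity)
      by_cases hj : j ∈ G.support
      · exact m4 j hj
      · rw [notMem_support_iff.1 hj, eval_zero]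
        simpa [house] using zero_le_one.trans b1)
    (by rw [eval_mul, map_evalRingHom_eval, h, mul_zero])
  rw [← pow_mul, ← pow_mul, ← mul_assoc] at key
  refine key.mono ?_
  rw [pow_succ]
  nlinarith [one_le_pow₀ (n := E * (G.support.card + 1) * (Module.finrank ℚ K + 1))
    (show 1 ≤ B by linarith)]

variable {𝓕 : Filter ℕ} {d : ℕ}

theorem dh1_two (hF : 𝓕 ≤ atTop) (hd : 2 ≤ d) {ρ : ℝ} (h : 1 < ρ) (k : ℕ) :
    ∃ r : ℝ, 1 < r ∧ (∀ n, (r ^ d ^ n) ^ (k + 1) = ρ ^ d ^ n) ∧ ∀ᶠ n in 𝓕, 2 ≤ r ^ d ^ n := by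
  obtain ⟨r, r1, rfl⟩ := dsn5_root h (Nat.succ_ne_zero k)
  exact ⟨r, r1, fun n => by rw [← pow_mul, ← pow_mul, mul_comm],
    hF ((tend_pp_top r1 hd).eventually_ge_atTop 2)⟩

theorem SmH.add (hF : 𝓕 ≤ atTop) (hd : 2 ≤ d) {a b : ℕ → K} (ha : SmH 𝓕 d a) (hb : SmH 𝓕 d b) :
    SmH 𝓕 d fun n => a n + b n := fun ρ hρ => by
  obtain ⟨r, r1, r2, r3⟩ := dh1_two hF hd hρ 2
  filter_upwards [ha r r1, hb r r1, r3] with n h1 h2 h3
  refine (h1.add h2).mono ?_
  rw [← r2, pow_succ', sq]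
  exact mul_le_mul_of_nonneg_right h3 (by positivity)

theorem SmH.poly (hF : 𝓕 ≤ atTop) (hd : 2 ≤ d) {a : ℕ → K} (ha : SmH 𝓕 d a) (p : K[X]) :
    SmH 𝓕 d fun n => p.eval (a n) := fun ρ hρ => by
  obtain ⟨e, he⟩ := Ht.poly p
  obtain ⟨r, r1, r2, r3⟩ := dh1_two hF hd hρ e
  filter_upwards [ha r r1, r3] with n h1 h3
  exact (he _ _ h3 h1).mono (r2 n ▸ pow_le_pow_right₀ (by linarith) e.le_succ)

theorem SmH.const (hF : 𝓕 ≤ atTop) (hd : 2 ≤ d) (c : K) : SmH 𝓕 d fun _ => c := fun ρ hρ => by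
  obtain ⟨B, hB⟩ := Ht.const c
  exact Eventually.mono (hF ((tend_pp_top hρ hd).eventually_ge_atTop B)) fun n hn => hB.mono hn

theorem SmH.sum (hF : 𝓕 ≤ atTop) (hd : 2 ≤ d) {ι : Type*} (s : Finset ι) {r : ι → ℕ → K}
    (h : ∀ i ∈ s, SmH 𝓕 d (r i)) : SmH 𝓕 d fun n => ∑ i ∈ s, r i n := by
  classical
  induction s using Finset.induction_on with
  | empty => simpa using SmH.const hF hd (0 : K)
  | insert a s ha ih =>
    simpa only [Finset.sum_insert ha] using (h a (Finset.mem_insert_self _ _)).add hF hd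
      (ih fun i hi => h i (Finset.mem_insert_of_mem hi))

theorem SmH.sml {a : ℕ → K} (ha : SmH 𝓕 d a) (σ : K →+* ℂ) : Sml 𝓕 d fun n => σ (a n) :=
  fun ρ hρ => IsBigO.of_bound' ((ha ρ hρ).mono fun n ⟨_, _, _, _, h⟩ => by
    rw [Real.norm_of_nonneg (by positivity)]
    exact (norm_embedding_le_house _ σ).trans h)

theorem dh1_den {f : K[X]} (hd : 2 ≤ f.natDegree) {x : ℕ → K} (h : ∀ n, x (n + 1) = f.eval (x n)) :
    ∃ N : ℕ, 0 < N ∧ ∀ n, IsIntegral ℤ (((N ^ f.natDegree ^ n : ℕ) : K) * x n) := by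
  classical
  obtain ⟨N, hN, hi⟩ := exists_den (insert (x 0) f.coeffs)
  have key : ∀ n, IsIntegral ℤ (((N ^ (2 * f.natDegree ^ n - 1) : ℕ) : K) * x n) := fun n => by
    induction n with
    | zero => simpa using hi _ (Finset.mem_insert_self _ _)
    | succ n ih =>
      rw [h, eval_eq_sum, sum_def, Finset.mul_sum]
      refine IsIntegral.sum _ fun i hi' => Den.mono
        (N := N * (N ^ (2 * f.natDegree ^ n - 1)) ^ i) ?_ ?_
      · rw [Nat.cast_mul, mul_mul_mul_comm, Nat.cast_pow, ← mul_pow]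
        exact (hi _ (Finset.mem_insert_of_mem (coeff_mem_coeffs (mem_support_iff.1 hi')))).mul
          (ih.pow i)
      · rw [← pow_mul, ← pow_succ']
        refine pow_dvd_pow _ ?_
        have h1 := Nat.mul_le_mul_left (2 * f.natDegree ^ n - 1) (le_natDegree_of_mem_supp _ hi')
        have h2 : 0 < f.natDegree ^ n := by positivity
        rw [Nat.sub_one_mul _ f.natDegree, mul_assoc, ← pow_succ] at h1
        have := hd
        have h3 : f.natDegree ≤ f.natDegree ^ (n + 1) := Nat.le_self_pow (by omega) _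
        omega
  exact ⟨N ^ 2, by positivity, fun n => Den.mono (key n) (by
    rw [← pow_mul]; exact pow_dvd_pow _ (Nat.sub_le _ _))⟩

theorem smh_low (hF : 𝓕 ≤ atTop) {f : K[X]} {x : ℕ → K} (hO : Orb f x) (hd : f.natDegree < d) :
    SmH 𝓕 d x := fun ρ hρ => by
  obtain ⟨N, hN, hi⟩ := dh1_den hO.deg hO.step
  obtain ⟨Λ, hΛ, h⟩ := growth_up hO.deg hO.step
  filter_upwards [hF (ev_pp_le hd hΛ hρ), hF (ev_pp_le hd (Nat.one_le_cast.2 hN) hρ)] with n h1 h2
  exact ⟨_, pow_pos hN _, by exact_mod_cast h2, hi n, (h n).trans h1⟩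

theorem smh_aff (hF : 𝓕 ≤ atTop) (hd : 2 ≤ d) {x : ℕ → K} {a b : K}
    (h : ∀ n, x (n + 1) = a * x n + b) (c l : ℕ) : SmH 𝓕 d fun t => x (c + l * t) := fun ρ hρ => by
  obtain ⟨B1, h1⟩ := Ht.const a
  obtain ⟨B2, h2⟩ := Ht.const b
  obtain ⟨B3, h3⟩ := Ht.const (x 0)
  have b1 := h1.one_le
  have b2 := h2.one_le
  have b3 := h3.one_le
  have b4 := one_le_mul_of_one_le_of_one_le b1 b2
  set B := 2 * (B1 * B2) * B3 with hB
  have b5 : 2 * (B1 * B2) ≤ B := le_mul_of_one_le_right (by positivity) b3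
  have key : ∀ n, Ht (B ^ (n + 1)) (x n) := fun n => by
    induction n with
    | zero => exact h3.mono (by rw [zero_add, pow_one]; nlinarith)
    | succ n ih =>
      rw [h]
      refine ((h1.mul ih).add h2).mono ?_
      rw [pow_succ' B (n + 1), mul_right_comm, ← mul_assoc]
      exact mul_le_mul_of_nonneg_right b5 (by positivity)
  obtain ⟨k, hk⟩ := pow_unbounded_of_one_lt B hρ
  have h4 : ∀ᶠ n : ℕ in atTop, k * (c + l * n + 1) ≤ d ^ n := by
    have := (tendsto_pow_const_div_const_pow_of_one_lt 1 (r := 2) one_lt_two).eventually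
      (gt_mem_nhds (show (0 : ℝ) < 1 / (k * (c + l + 1) + 1) by positivity))
    filter_upwards [this, eventually_ge_atTop 1] with n hn h1
    rw [pow_one, div_lt_div_iff₀ (by positivity) (by positivity), one_mul] at hn
    have h2 : n * (k * (c + l + 1) + 1) < 2 ^ n := by exact_mod_cast hn
    have h3 := Nat.pow_le_pow_left hd n
    have h5 : c + l * n + 1 ≤ n * (c + l + 1) := by nlinarith
    nlinarith [Nat.mul_le_mul_left k h5]
  refine Eventually.mono (hF h4) fun n hn => (key _).mono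
    ((pow_le_pow_left₀ (by positivity) hk.le _).trans ?_)
  rw [← pow_mul]
  exact pow_le_pow_right₀ hρ.le hn

open IsDedekindDomain in
theorem den_low {f : K[X]} {x : ℕ → K} (hO : Orb f x) (h : ¬ Den x) : ∃ ρ : ℝ, 1 < ρ ∧
    ∀ᶠ n in atTop, ∀ M : ℕ, 0 < M → IsIntegral ℤ ((M : K) * x n) → ρ ^ f.natDegree ^ n ≤ M := by
  obtain ⟨N, hN, hi⟩ := exists_den f.coeffs
  obtain ⟨m, hm⟩ : ∃ m, ¬ IsIntegral ℤ ((N : K) * x m) := not_forall.1 fun e => h ⟨N, hN, e⟩
  obtain ⟨v, hv⟩ : ∃ v : HeightOneSpectrum (𝓞 K), 1 < v.valuation K (N * x m) := by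
    by_contra! hc
    obtain ⟨y, hy⟩ := HeightOneSpectrum.mem_integers_of_valuation_le_one K _ hc
    exact hm (hy ▸ y.isIntegral_coe)
  set w := v.valuation K
  have w1 : ∀ y : K, IsIntegral ℤ y → w y ≤ 1 := fun y hy => v.valuation_le_one (⟨y, hy⟩ : 𝓞 K)
  have n1 : w N ≤ 1 := w1 _ (by simpa using (isIntegral_algebraMap (R := ℤ) (A := K) (x := N)))
  have n0 : 0 < w N := zero_lt_iff.2 (w.ne_zero_iff.2 (Nat.cast_ne_zero.2 hN.ne'))
  have w2 : ∀ y : K, 1 < w (N * y) → 1 < w y := fun y hy =>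
    hy.trans_le ((map_mul _ _ _).trans_le (mul_le_of_le_one_left' n1))
  have d2 := hO.deg
  have w3 : ∀ y : K, 1 < w (N * y) → w (f.eval y) = w y ^ f.natDegree := fun y hy => by
    have y1 := w2 y hy
    rw [eval_eq_sum_range, Finset.sum_range_succ, hO.monic.coeff_natDegree, one_mul,
      w.map_add_eq_of_lt_right, map_pow]
    rw [map_pow]
    refine w.map_sum_lt (pow_pos (zero_lt_one.trans y1) _).ne' fun i hi' => ?_
    have c1 : w (f.coeff i) < w y := by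
      by_cases e : f.coeff i = 0
      · rw [e, map_zero]; exact zero_lt_one.trans y1
      · have := (w1 _ (hi _ (coeff_mem_coeffs e))).trans_lt hy
        rw [map_mul, map_mul] at this
        exact lt_of_mul_lt_mul_left' this
    rw [map_mul, map_pow]
    exact (mul_lt_mul_of_pos_right c1 (pow_pos (zero_lt_one.trans y1) _)).trans_le (by
      rw [← pow_succ']; exact pow_le_pow_right₀ y1.le (Finset.mem_range.1 hi'))
  have w4 : ∀ t, 1 < w (N * x (m + t)) ∧ w (x (m + t)) = w (x m) ^ f.natDegree ^ t := fun t => by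
    induction t with
    | zero => exact ⟨hv, by simp⟩
    | succ t ih =>
      rw [← add_assoc, hO.step, map_mul, w3 _ ih.1]
      refine ⟨ih.1.trans_le ((map_mul _ _ _).trans_le (mul_le_mul_right
        (le_self_pow₀ (w2 _ ih.1).le (by omega)) _)), by rw [ih.2, ← pow_mul, pow_succ]⟩
  have w5 : WithZero.exp (1 : ℤ) ≤ w (x m) := by
    have := w2 _ hv
    rw [← WithZero.exp_log (zero_lt_one.trans this).ne', ← WithZero.exp_zero,
      WithZero.exp_lt_exp] at this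
    rw [← WithZero.exp_log (zero_lt_one.trans (w2 _ hv)).ne', WithZero.exp_le_exp]
    exact this
  have r0 : Module.finrank ℚ K ≠ 0 := Module.finrank_pos.ne'
  obtain ⟨ρ, r1, r2⟩ := dsn5_root one_lt_two (m := f.natDegree ^ m * Module.finrank ℚ K)
    (by positivity)
  refine ⟨ρ, r1, eventually_atTop.2 ⟨m, fun n hn M M0 hM => ?_⟩⟩
  obtain ⟨t, rfl⟩ := Nat.exists_eq_add_of_le hn
  have h1 := w1 _ hM
  rw [map_mul, (w4 t).2] at h1
  have h2 : v.intValuation (M : 𝓞 K) ≤ WithZero.exp (-((f.natDegree ^ t : ℕ) : ℤ)) := by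
    rw [← v.valuation_of_algebraMap (K := K), WithZero.exp_neg,
      ← nsmul_one (f.natDegree ^ t), WithZero.exp_nsmul,
      ← one_div, le_div_iff₀ (pow_pos WithZero.exp_pos _)]
    exact (mul_le_mul_right (pow_le_pow_left₀ zero_le w5 _) _).trans (by simpa using h1)
  have h3 := Ideal.absNorm_dvd_absNorm_of_le
    ((Ideal.span_singleton_le_iff_mem _).2 ((v.intValuation_le_pow_iff_mem _ _).1 h2))
  rw [map_pow, Ideal.absNorm_span_natCast, RingOfIntegers.rank] at h3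
  have h4 := (Nat.pow_le_pow_left (NumberField.HeightOneSpectrum.one_lt_absNorm v) _).trans
    (Nat.le_of_dvd (by positivity) h3)
  refine le_of_pow_le_pow_left₀ r0 (by positivity) ?_
  rw [← pow_mul, pow_add, mul_right_comm, pow_mul, r2]
  exact_mod_cast h4

theorem ht_low {f : K[X]} {x : ℕ → K} (hO : Orb f x) (h0 : ¬ Alg0 x) : ∃ ρ : ℝ, 1 < ρ ∧
    ∀ᶠ n in atTop, ∀ B, Ht B (x n) → ρ ^ f.natDegree ^ n ≤ B := by
  by_cases h : Den x
  · obtain ⟨σ, hb⟩ := exists_unbdd h h0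
    exact (hO.escape σ hb).imp fun ρ h => ⟨h.1, h.2.mono fun n hn B ⟨_, _, _, _, hB⟩ =>
      hn.trans ((norm_embedding_le_house _ σ).trans hB)⟩
  · exact (den_low hO h).imp fun ρ h => ⟨h.1, h.2.mono fun n hn B ⟨M, a, b, c, _⟩ =>
      (hn M a c).trans b⟩

theorem not_smh [𝓕.NeBot] (hF : 𝓕 ≤ atTop) {A : Subalgebra K (ℕ → K)} (hA : DomA A) {f : K[X]}
    {x a : ℕ → K} (hx : Orb f x) (mx : x ∈ A) (ma : a ∈ A) (x0 : ¬ Alg0 x) (a0 : ¬ Alg0 a)
    (hD : Dep a x) : ¬ SmH 𝓕 f.natDegree a := fun h => by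
  obtain ⟨G, hG, hz⟩ := hA.prim ma mx a0 hD
  obtain ⟨e, he⟩ := lemH' hG
  obtain ⟨ρ, hρ, hl⟩ := ht_low hx x0
  obtain ⟨r, r1, r2, r3⟩ := dh1_two hF hx.deg hρ e
  obtain ⟨n, h1, h2, h3, h4⟩ := ((h r r1).and (r3.and ((hz.and hl).filter_mono hF))).exists
  have := h4 _ (he _ _ _ h2 h1 h3)
  rw [← r2] at this
  exact this.not_gt (pow_lt_pow_right₀ (by linarith) e.lt_succ_self)

theorem deg_eq' {A : Subalgebra K (ℕ → K)} (hA : DomA A) {f g : K[X]} {x y : ℕ → K} (hx : Orb f x)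
    (hy : Orb g y) (mx : x ∈ A) (my : y ∈ A) (x0 : ¬ Alg0 x) (y0 : ¬ Alg0 y) (hD : Dep x y) :
    f.natDegree = g.natDegree :=
  le_antisymm (not_lt.1 fun h => not_smh le_rfl hA hx mx my x0 y0 hD.symm (smh_low le_rfl hy h))
    (not_lt.1 fun h => not_smh le_rfl hA hy my mx y0 x0 hD (smh_low le_rfl hx h))

end Pool.Agent.P.MP_68214b_ag.DS
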