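import Pool.Agent.P.MP_68214b_ag.DSC4
import Pool.Agent.P.MP_68214b_ag.DSO1
import Pool.Agent.P.MP_68214b_ag.DSA5
import Pool.Agent.P.MP_68214b_ag.DSSml

open Polynomial Filter Asymptotics NumberField Topology

namespace Pool.Agent.P.MP_68214b_ag.DS

theorem Dom.prod {K J ι : Type*} [Field K] {x : J → ℕ → K} (hD : Dom x) (s : Finset ι)
    (Q : ι → MvPolynomial J K) (h : Van x (∏ j ∈ s, Q j)) : ∃ j ∈ s, Van x (Q j) := by
  classical
  induction s using Finset.induction_on with
  | empty => obtain ⟨n, hn⟩ := h.exists; simp at hn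
  | insert a s ha ih =>
    rw [Finset.prod_insert ha] at h
    rcases hD _ _ h with h | h
    · exact ⟨a, Finset.mem_insert_self _ _, h⟩
    · obtain ⟨j, hj, h⟩ := ih h
      exact ⟨j, Finset.mem_insert_of_mem hj, h⟩

theorem van_of_prog {K J : Type*} [Field K] {f : J → K[X]} {x : J → ℕ → K}
    (hs : ∀ i n, x i (n + 1) = (f i).eval (x i n)) (hD : Dom x) {c l : ℕ} (hl : 0 < l)
    {P : MvPolynomial J K} (h : Van (fun i t => x i (c + l * t)) P) : Van x P := by
  have e : ∀ j n, MvPolynomial.eval (fun i => x i n) (phi (fun i => iter (f i) j) P) =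
      MvPolynomial.eval (fun i => x i (n + j)) P := fun j n => by
    rw [eval_phi]; simp only [step_iter (hs _)]
  obtain ⟨t0, h⟩ := eventually_atTop.1 h
  obtain ⟨j, -, hj⟩ := hD.prod (Finset.range l) (fun j => phi (fun i => iter (f i) j) P) (by
    filter_upwards [eventually_ge_atTop (c + l * t0)] with n hn
    obtain ⟨m, rfl⟩ := Nat.exists_eq_add_of_le hn
    have h1 := Nat.div_add_mod (m + (l - 1)) l
    have h2 := Nat.mod_lt (m + (l - 1)) hl
    rw [map_prod]
    refine Finset.prod_eq_zero (i := l - 1 - (m + (l - 1)) % l) (Finset.mem_range.2 (by omega)) ?_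
    rw [e, show c + l * t0 + m + (l - 1 - (m + (l - 1)) % l) = c + l * (t0 + (m + (l - 1)) / l) by
      rw [mul_add]; omega]
    exact h _ (Nat.le_add_right _ _))
  simp only [Van, e] at hj
  obtain ⟨n0, hj⟩ := eventually_atTop.1 hj
  filter_upwards [eventually_ge_atTop (n0 + j)] with n hn
  have := hj (n - j) (by omega)
  rwa [Nat.sub_add_cancel (by omega)] at this

theorem Dom.prog {K J : Type*} [Field K] {f : J → K[X]} {x : J → ℕ → K}
    (hs : ∀ i n, x i (n + 1) = (f i).eval (x i n)) (hD : Dom x) (c : ℕ) {l : ℕ} (hl : 0 < l) :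
    Dom fun i t => x i (c + l * t) := fun P Q h =>
  (hD P Q (van_of_prog hs hD hl h)).imp (tend_prog c hl).eventually (tend_prog c hl).eventually

theorem unif_van {K J : Type*} [Field K] [Finite J] (x : J → ℕ → K) (S : Set (MvPolynomial J K))
    (h : ∀ P ∈ S, Van x P) :
    ∀ᶠ n in atTop, ∀ P ∈ S, MvPolynomial.eval (fun i => x i n) P = 0 := by
  obtain ⟨T, hT⟩ := (IsNoetherian.noetherian (Ideal.span S) : (Ideal.span S).FG)
  have hv : ∀ P ∈ Ideal.span S, Van x P := fun P hP => by
    induction hP using Submodule.span_induction with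
    | mem P hP => exact h P hP
    | zero => exact Eventually.of_forall fun n => map_zero _
    | add P Q _ _ a b => exact (a.and b).mono fun n hn => by rw [map_add, hn.1, hn.2, add_zero]
    | smul a P _ b => exact b.mono fun n hn => by rw [smul_eq_mul, map_mul, hn, mul_zero]
  filter_upwards [(eventually_all_finset T).2 fun P hP => hv P (hT ▸ Ideal.subset_span hP)]
    with n hn P hP
  have : Ideal.span S ≤ RingHom.ker (MvPolynomial.eval fun i => x i n) := by
    rw [← hT, Ideal.span_le]; exact hn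
  exact this (Ideal.subset_span hP)

theorem per_of_core {K J : Type*} [Field K] [Finite J] (x : J → ℕ → K)
    (S : Set (MvPolynomial J K)) {l : ℕ} (hl : 0 < l) (h : ∀ c, ∀ P ∈ S,
      (∃ᶠ t in atTop, MvPolynomial.eval (fun i => x i (c + l * t)) P = 0) →
        Van (fun i t => x i (c + l * t)) P) :
    ∃ n0, ∀ n ≥ n0, ((∀ P ∈ S, MvPolynomial.eval (fun i => x i n) P = 0) ↔
      ∀ P ∈ S, MvPolynomial.eval (fun i => x i (n + l)) P = 0) := by
  set p : ℕ → Prop := fun n => ∀ P ∈ S, MvPolynomial.eval (fun i => x i n) P = 0 with hp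
  have h1 : ∀ c, ∀ᶠ t in atTop, (p (c + l * t) ↔ p (c + l * (t + 1))) := fun c => by
    have : (∀ᶠ t in atTop, p (c + l * t)) ∨ ∀ᶠ t in atTop, ¬ p (c + l * t) := by
      by_cases hv : ∀ P ∈ S, Van (fun i t => x i (c + l * t)) P
      · exact Or.inl (unif_van _ S hv)
      · push Not at hv
        obtain ⟨P, hP, hv⟩ := hv
        exact Or.inr ((not_frequently.1 (mt (h c P hP) hv)).mono fun t ht e => ht (e P hP))
    rcases this with e | e <;>
      filter_upwards [e, (tendsto_add_atTop_nat 1).eventually e] with t a b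
    · exact iff_of_true a b
    · exact iff_of_false a b
  obtain ⟨t0, h2⟩ := eventually_atTop.1
    ((eventually_all_finset (Finset.range l)).2 fun c _ => h1 c)
  refine ⟨l * t0, fun n hn => ?_⟩
  have := h2 (n / l) ((Nat.le_div_iff_mul_le hl).2 (by rwa [mul_comm])) (n % l)
    (Finset.mem_range.2 (Nat.mod_lt _ hl))
  rwa [mul_add, mul_one, ← add_assoc, Nat.mod_add_div] at this

theorem exp_sum {ι : Type*} (s : Finset ι) {r : ι → ℕ → ℂ}
    (h : ∀ i ∈ s, ∃ c : ℝ, 1 ≤ c ∧ ∀ n, ‖r i n‖ ≤ c ^ (n + 1)) :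
    ∃ c : ℝ, 1 ≤ c ∧ ∀ n, ‖∑ i ∈ s, r i n‖ ≤ c ^ (n + 1) := by
  classical
  induction s using Finset.induction_on with
  | empty => exact ⟨1, le_rfl, fun n => by simp⟩
  | insert a s ha ih =>
    obtain ⟨c, h1, h2⟩ := h a (Finset.mem_insert_self _ _)
    obtain ⟨c', h3, h4⟩ := ih fun i hi => h i (Finset.mem_insert_of_mem hi)
    refine ⟨c + c', by linarith, fun n => ?_⟩
    rw [Finset.sum_insert ha]
    exact ((norm_add_le _ _).trans (add_le_add (h2 n) (h4 n))).trans
      (pow_add_pow_le (by linarith) (by linarith) (by omega))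

variable {K : Type} [Field K] [NumberField K]

theorem topK (hK : Cj K) {J : Type} [Fintype J] {f : J → K[X]} {x : J → ℕ → K} (o : J → Prop)
    (hO : ∀ i, o i → Orb (f i) (x i)) (hI : ∀ i, o i → Den (x i))
    (hA : ∀ i, ¬ o i → ∃ a b, ∀ n, x i (n + 1) = a * x i n + b)
    (h4 : ∀ t : Finset J, 4 ≤ t.card → (∀ i ∈ t, o i) →
      (∀ i ∈ t, ∀ j ∈ t, (f i).natDegree = (f j).natDegree) → ∃ i ∈ t, NSa (f i))
    (𝓠 : Set (J → K[X])) : ∃ l, 0 < l ∧ ∃ n0, ∀ n ≥ n0,
      ((∀ q ∈ 𝓠, ∑ i, (q i).eval (x i n) = 0) ↔ ∀ q ∈ 𝓠, ∑ i, (q i).eval (x i (n + l)) = 0) := by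
  classical
  choose a b hab using fun i : {i // ¬ o i} => hA i i.2
  obtain ⟨l0, h0, hS⟩ := Pool.Agent.DS.sml_affine a b (fun i => x i) hab
  obtain ⟨l1, h1, hD⟩ := oc (fun i : {i // o i} => f i) (fun i => x i) fun i => (hO i i.2).step
  have hl : 0 < l1 * l0 := mul_pos h1 h0
  have ev : ∀ {I : Type} [Fintype I] (q : I → K[X]) (y : I → K), MvPolynomial.eval y
      (∑ i, aeval (MvPolynomial.X i : MvPolynomial I K) (q i)) = ∑ i, (q i).eval (y i) := by
    intro I _ q y
    rw [map_sum]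
    refine Finset.sum_congr rfl fun i _ => ?_
    rw [← MvPolynomial.coe_aeval_eq_eval, RingHom.coe_coe, ← aeval_algHom_apply,
      MvPolynomial.aeval_X, coe_aeval_eq_eval]
  obtain ⟨n0, h⟩ := per_of_core x
    ((fun q : J → K[X] => ∑ i, aeval (MvPolynomial.X i : MvPolynomial J K) (q i)) '' 𝓠) hl (by
    rintro c _ ⟨q, -, rfl⟩
    have sp : ∀ n, ∑ i, (q i).eval (x i n) =
        ∑ i : {i // ¬ o i}, (q i).eval (x i n) + ∑ i : {i // o i}, (q i).eval (x i n) := fun n => by
      rw [add_comm, Fintype.sum_subtype_add_sum_subtype o fun i => (q i).eval (x i n)]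
    simp only [Van, ev, sp]
    refine core hK (f := fun i : {i // o i} => iter (f i) (l1 * l0))
      (x := fun i t => x i (c + l1 * l0 * t)) (fun i => (hO i i.2).prog c hl)
      (fun i => (hI i i.2).imp fun N hN => ⟨hN.1, fun t => hN.2 _⟩) (fun t ht hd => ?_)
      ?_ (fun i => q i) (fun σ => ?_) fun e he => ?_
    · obtain ⟨i, hi, hN⟩ := h4 (t.map (Function.Embedding.subtype _)) (by simpa using ht)
        (by simp only [Finset.forall_mem_map]; exact fun i _ => i.2) (by
          simp only [Finset.forall_mem_map]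
          intro i hi j hj
          have := hd i hi j hj
          rw [iter_natDegree, iter_natDegree] at this
          exact Nat.pow_left_injective hl.ne' this)
      obtain ⟨j, hj, rfl⟩ := Finset.mem_map.1 hi
      exact ⟨j, hj, NSa.iter hN (hO j j.2).deg hl⟩
    · have := Dom.prog (fun i : {i // o i} => ((hO i i.2).prog c h1).step) (hD c) 0 h0
      simpa only [zero_add, mul_assoc] using this
    · simp only [map_sum]
      refine exp_sum _ fun i _ => ?_
      obtain ⟨C, h1, h2⟩ := Pool.Agent.DS.affine_growth (a := σ (a i)) (b := σ (b i))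
        (x := fun n => σ (x i n)) (fun n => by rw [hab, map_add, map_mul]) ((q i).map σ)
      refine ⟨C ^ (c + l1 * l0 + 1), one_le_pow₀ h1, fun n => ?_⟩
      have := h2 (c + l1 * l0 * n)
      rw [eval_map, eval₂_at_apply] at this
      rw [← pow_mul]
      exact this.trans (pow_le_pow_right₀ h1 (by nlinarith [Nat.zero_le (c * n)]))
    · have := hS c (∑ i : {i // ¬ o i},
        aeval (MvPolynomial.X i : MvPolynomial {i // ¬ o i} K) (q i) - MvPolynomial.C e)
      simp only [map_sub, ev, MvPolynomial.eval_C, sub_eq_zero] at this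
      have ht := tend_prog 0 h1
      have e1 : ∀ t, c + l0 * (0 + l1 * t) = c + l1 * l0 * t := fun t => by ring
      simpa only [e1] using ht.eventually (this (ht.frequently (by simpa only [e1] using he))))
  exact ⟨_, hl, n0, fun n hn => by simpa only [Set.forall_mem_image, ev] using h n hn⟩

theorem descend {L J : Type*} [Field L] [Fintype J] (ι : L →+* ℂ) (𝓠 : Set (J → ℂ[X])) :
    ∃ 𝓡 : Set (J → L[X]), ∀ x : J → L,
      (∀ q ∈ 𝓠, ∑ i, (q i).eval (ι (x i)) = 0) ↔ ∀ q ∈ 𝓡, ∑ i, (q i).eval (x i) = 0 := by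
  let := ι.toAlgebra
  have key : ∀ (lam : ℂ →ₗ[L] L) (q : J → ℂ[X]) (x : J → L),
      ∑ i, ((q i).sum fun k a => monomial k (lam a)).eval (x i) =
        lam (∑ i, (q i).eval (ι (x i))) := fun lam q x => by
    rw [map_sum]
    refine Finset.sum_congr rfl fun i _ => ?_
    rw [eval_eq_sum (p := q i), sum_def, sum_def, eval_finsetSum, map_sum]
    refine Finset.sum_congr rfl fun k _ => ?_
    rw [eval_monomial, ← map_pow, mul_comm, mul_comm (coeff _ _), ← smul_eq_mul, ← map_smul]
    rfl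
  refine ⟨{r | ∃ q ∈ 𝓠, ∃ lam : ℂ →ₗ[L] L, r = fun i => (q i).sum fun k a => monomial k (lam a)},
    fun x => ⟨?_, fun h q hq => ?_⟩⟩
  · rintro h _ ⟨q, hq, lam, rfl⟩
    rw [key, h q hq, map_zero]
  · refine (Module.forall_dual_apply_eq_zero_iff L _).1 fun lam => ?_
    rw [← key]
    exact h _ ⟨q, hq, lam, rfl⟩

end Pool.Agent.P.MP_68214b_ag.DS
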