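import Pool.Agent.P.MP_68214b_ag.DGB
import Pool.Agent.P.MP_68214b_ag.DH1
import Pool.Agent.P.MP_68214b_ag.DSC5

open Polynomial Filter Asymptotics NumberField Topology NNReal

namespace Pool.Agent.P.MP_68214b_ag.DS

variable {K : Type} [Field K] [NumberField K]

theorem unb_prog {L : Type*} [Field L] {f : L[X]} {x : ℕ → L} (hO : Orb f x) {σ : L →+* ℂ}
    (h : ¬ Bdd σ x) (c : ℕ) {l : ℕ} (hl : 0 < l) : ¬ Bdd σ fun t => x (c + l * t) := by
  obtain ⟨ρ, r1, r2⟩ := hO.escape σ h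
  rintro ⟨B, hB⟩
  obtain ⟨t, h1, h2⟩ := ((tend_prog c hl).eventually
    (r2.and ((tend_pp_top r1 hO.deg).eventually_gt_atTop B))).exists
  exact (h2.trans_le h1).not_ge (hB t)

theorem dh2_up {f : K[X]} {x : ℕ → K} (hO : Orb f x) (σ : K →+* ℂ) :
    ∃ Λ : ℝ, 1 ≤ Λ ∧ ∀ n, ‖σ (x n)‖ ≤ Λ ^ f.natDegree ^ n :=
  (growth_up hO.deg hO.step).imp fun _ h =>
    ⟨h.1, fun n => (norm_embedding_le_house _ σ).trans (h.2 n)⟩

theorem opi (σ : K →+* ℂ) {I : Type} [Finite I] {f : I → K[X]} {x : I → ℕ → K}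
    (hO : ∀ i, Orb (f i) (x i)) {d : ℕ} (he : ∀ i, (f i).natDegree = d) {i0 : I} (hN : NSa (f i0))
    (hu : ¬ Bdd σ (x i0)) (hp : ∀ j, Dep (x i0) (x j)) (P : MvPolynomial I K) (𝒰 : Ultrafilter ℕ)
    (hU : (𝒰 : Filter ℕ) ≤ atTop)
    (hR : Sml 𝒰 d fun n => σ (MvPolynomial.eval (fun i => x i n) P)) :
    ∃ c l k, 0 < l ∧ ∀ᶠ t in atTop, MvPolynomial.eval (fun i => x i (c + l * t)) P = k := by
  have st : ∀ {g : K[X]} {y : ℕ → K}, Orb g y → ∀ n, σ (y (n + 1)) = (g.map σ).eval (σ (y n)) :=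
    fun h n => by rw [h.step, eval_map, eval₂_hom]
  have ev : ∀ y : I → K, MvPolynomial.eval (fun i => σ (y i)) (MvPolynomial.map σ P) =
      σ (MvPolynomial.eval y P) := fun y => by
    rw [MvPolynomial.eval_map, MvPolynomial.eval, MvPolynomial.coe_eval₂Hom,
      MvPolynomial.eval₂_comp_left]
    rfl
  obtain ⟨l, hl, hD⟩ := oc (fun i => (f i).map σ) (fun i n => σ (x i n)) fun i => st (hO i)
  obtain ⟨c, hc⟩ : ∃ c : Fin l, ∀ᶠ n in (𝒰 : Filter ℕ), n % l = c :=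
    Ultrafilter.eventually_exists_iff.1 (Eventually.of_forall fun n => ⟨⟨_, Nat.mod_lt n hl⟩, rfl⟩)
  have d2 : 2 ≤ d := he i0 ▸ (hO i0).deg
  have hO' := fun i => (hO i).prog c hl
  have he' : ∀ i, (iter (f i) l).natDegree = d ^ l := fun i => by rw [iter_natDegree, he]
  obtain ⟨k, hk⟩ := opi0 (g := fun i => (iter (f i) l).map σ) (z := fun i t => σ (x i (c + l * t)))
    (d := d ^ l) (he' i0 ▸ (hO' i0).deg) (fun i => by rw [natDegree_map, he']) (fun i => st (hO' i))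
    (fun i => he' i ▸ dh2_up (hO' i) σ) (hD c) ((hO' i0).monic.map σ)
    (hN.iter (hO i0).deg hl σ) (unb_prog (hO i0) hu c hl) (fun j => by
      obtain ⟨G, hG, h⟩ := (hp j).of_prog c hl
      exact ⟨map2 σ G, fun e => hG (map2_inj σ.injective (e.trans (map_zero _).symm)),
        h.mono fun n hn => (map_mapRingHom_evalEval σ G _ _).trans (by rw [hn, map_zero])⟩)
    (𝒰.map (· / l)) ((map_mono hU).trans (Nat.tendsto_div_const_atTop hl.ne'))
    (R := MvPolynomial.map σ P) fun ρ hρ => by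
      obtain ⟨r, r1, rfl⟩ := dsn5_root hρ (m := d ^ (c : ℕ)) (by positivity)
      refine isBigO_map.2 ((hR r r1).congr' (hc.mono fun n hn => ?_) (hc.mono fun n hn => ?_))
      · simp only [Function.comp_apply, ev, ← hn, Nat.mod_add_div]
      · simp only [Function.comp_apply, ← pow_mul, ← pow_add, ← hn, Nat.mod_add_div]
  simp only [Van, map_sub, ev, MvPolynomial.eval_C, sub_eq_zero] at hk
  obtain ⟨t0, h0⟩ := hk.exists
  exact ⟨c, l, _, hl, hk.mono fun t ht => σ.injective (ht.trans h0.symm)⟩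

theorem single {σ : K →+* ℂ} {f : K[X]} {x : ℕ → K} (hO : Orb f x) (hu : ¬ Bdd σ x) {q : K[X]}
    (hq : 0 < q.natDegree) (𝒰 : Ultrafilter ℕ) (hU : (𝒰 : Filter ℕ) ≤ atTop) :
    ¬ Sml 𝒰 f.natDegree fun n => σ (q.eval (x n)) := fun h => by
  obtain ⟨ρ, r1, r2⟩ := hO.escape σ hu
  lift ρ to ℝ≥0 using zero_le_one.trans r1.le
  obtain ⟨v, hv⟩ := exists_gv hO.deg (z := fun (_ : Unit) n => σ (x n)) (fun _ => dh2_up hO σ) 𝒰 hU
  have v1 : v.IsTrivialOn ℂ := ⟨fun c hc => tendsto_nhds_unique (hv _)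
    (((rt_const hO.deg (nnnorm_ne_zero_iff.2 hc)).mono_left hU).congr fun n => by simp [rt])⟩
  have v2 : 1 < v (.X ()) := lt_of_lt_of_le (b := ρ) r1
    (rt_ge hO.deg (hv _) ((r2.filter_mono hU).mono fun n hn => by simpa using hn))
  have v3 : v (aeval (MvPolynomial.X ()) (q.map σ)) ≤ 1 :=
    le_of_forall_gt_imp_ge_of_dense fun r hr => rt_le hO.deg hU (hv _)
      ((h r hr).congr_left fun n => by
        rw [← MvPolynomial.aeval_eq_eval, ← aeval_algHom_apply, MvPolynomial.aeval_X,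
          coe_aeval_eq_eval, eval_map, eval₂_hom])
  rw [valuation_aeval_eq_valuation_X_pow_natDegree_of_one_lt_valuation_X _ v2
    (Polynomial.map_ne_zero (ne_zero_of_natDegree_gt hq)), natDegree_map] at v3
  exact v3.not_gt (one_lt_pow₀ v2 hq.ne')

end Pool.Agent.P.MP_68214b_ag.DS
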