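import Pool.Agent.P.MP_68214b_ag.DSN1

open Polynomial Filter Asymptotics NumberField Topology

namespace Pool.Agent.P.MP_68214b_ag.DS

variable {K : Type} [Field K] [NumberField K]

theorem liou {x : K} (hx : IsIntegral ℤ x) (h0 : x ≠ 0) (σ : K →+* ℂ) :
    1 ≤ ‖σ x‖ * house x ^ Module.finrank ℚ K := by
  obtain ⟨m, hm⟩ := IsIntegrallyClosed.isIntegral_iff.1 (Algebra.isIntegral_norm ℚ hx)
  have h1 : m ≠ 0 := fun e => Algebra.norm_ne_zero_iff.2 h0 (by rw [← hm, e, map_zero])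
  have h2 : 1 ≤ ‖Algebra.norm ℚ x‖ := by
    rw [← hm, eq_intCast, Int.norm_cast_rat, Int.norm_eq_abs]
    exact_mod_cast Int.one_le_abs h1
  exact h2.trans ((norm_norm_le_norm_mul_house_pow x σ).trans (mul_le_mul_of_nonneg_left
    (pow_le_pow_right₀ (one_le_house_of_isIntegral hx h0) (Nat.sub_le _ _)) (norm_nonneg _)))

theorem lv_nO (σ : K →+* ℂ) :
    LV (nO K) (σ.comp (algebraMap (𝓞 K) K)) (Module.finrank ℚ K) :=
  ⟨fun a => norm_embedding_le_house (a : K) σ,
    fun a h => liou a.isIntegral_coe (RingOfIntegers.coe_ne_zero_iff.2 h) σ⟩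

theorem exists_house (x : K) : ∃ σ : K →+* ℂ, house x = ‖σ x‖ := by
  obtain ⟨σ, -, h⟩ := Finset.exists_mem_eq_sup' Finset.univ_nonempty fun φ : K →+* ℂ => ‖φ x‖₊
  exact ⟨σ, by rw [house_eq_sup', h]; rfl⟩

theorem house_map {F : Type} [Field F] [NumberField F] (ι : K →+* F) (x : K) :
    house (ι x) ≤ house x := by
  obtain ⟨σ, h⟩ := exists_house (ι x)
  exact h.trans_le (norm_embedding_le_house x (σ.comp ι))

theorem exists_den (s : Finset K) : ∃ N : ℕ, 0 < N ∧ ∀ x ∈ s, IsIntegral ℤ ((N : K) * x) := by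
  obtain ⟨y, hy, h⟩ := exists_integral_multiples ℤ ℚ s
  refine ⟨y.natAbs, Int.natAbs_pos.2 hy, fun x hx => ?_⟩
  have := h x hx
  rw [zsmul_eq_mul] at this
  rcases Int.natAbs_eq y with e | e
  · rwa [e, Int.cast_natCast] at this
  · rw [e, Int.cast_neg, Int.cast_natCast, neg_mul] at this
    simpa using this.neg

theorem dsn4_lift {N : ℕ} {p : K[X]} (h : ∀ i, IsIntegral ℤ ((N : K) * p.coeff i)) :
    (N : K[X]) * p ∈ Set.range (mapRingHom (algebraMap (𝓞 K) K)) :=
  (mem_lifts _).1 ((lifts_iff_coeff_lifts _).2 fun i =>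
    ⟨⟨_, h i⟩, by rw [← C_eq_natCast, coeff_C_mul]; rfl⟩)

theorem exists_den1 (p : K[X]) : ∃ (N : ℕ) (q : (𝓞 K)[X]), 0 < N ∧
    q.map (algebraMap (𝓞 K) K) = (N : K[X]) * p := by
  obtain ⟨N, hN, h⟩ := exists_den p.coeffs
  obtain ⟨q, hq⟩ := dsn4_lift (N := N) (p := p) fun i => by
    by_cases e : p.coeff i = 0
    · rw [e, mul_zero]; exact isIntegral_zero
    · exact h _ (coeff_mem_coeffs e)
  exact ⟨N, q, hN, hq⟩

theorem exists_den2 (G : K[X][X]) : ∃ (N : ℕ) (G' : (𝓞 K)[X][X]), 0 < N ∧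
    map2 (algebraMap (𝓞 K) K) G' = (N : K[X][X]) * G := by
  classical
  obtain ⟨N, hN, h⟩ := exists_den (G.coeffs.biUnion coeffs)
  obtain ⟨q, hq⟩ := (mem_lifts (f := mapRingHom (algebraMap (𝓞 K) K)) ((N : K[X][X]) * G)).1
    ((lifts_iff_coeff_lifts _).2 fun j => by
      rw [← C_eq_natCast, coeff_C_mul]
      refine dsn4_lift fun i => ?_
      by_cases e : (G.coeff j).coeff i = 0
      · rw [e, mul_zero]; exact isIntegral_zero
      · exact h _ (Finset.mem_biUnion.2 ⟨_, coeff_mem_coeffs fun c => e (by simp [c]),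
          coeff_mem_coeffs e⟩))
  exact ⟨N, q, hN, hq⟩

theorem Den.mono {L : Type*} [Field L] {x : L} {N M : ℕ} (h : IsIntegral ℤ ((N : L) * x))
    (hd : N ∣ M) : IsIntegral ℤ ((M : L) * x) := by
  obtain ⟨k, rfl⟩ := hd
  rw [Nat.cast_mul, mul_right_comm]
  exact h.mul (by simpa using (isIntegral_algebraMap (R := ℤ) (A := L) (x := k)))

theorem Den.add {L : Type*} [Field L] {x y : ℕ → L} (hx : Den x) (hy : Den y) :
    Den fun n => x n + y n := by
  obtain ⟨N, hN, h1⟩ := hx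
  obtain ⟨M, hM, h2⟩ := hy
  refine ⟨N * M, mul_pos hN hM, fun n => ?_⟩
  rw [mul_add]
  exact (Den.mono (h1 n) (dvd_mul_right _ _)).add (Den.mono (h2 n) (dvd_mul_left _ _))

theorem Den.mul {L : Type*} [Field L] {x y : ℕ → L} (hx : Den x) (hy : Den y) :
    Den fun n => x n * y n := by
  obtain ⟨N, hN, h1⟩ := hx
  obtain ⟨M, hM, h2⟩ := hy
  refine ⟨N * M, mul_pos hN hM, fun n => ?_⟩
  rw [Nat.cast_mul, mul_mul_mul_comm]
  exact (h1 n).mul (h2 n)

theorem Den.const (c : K) : Den fun _ => c := by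
  obtain ⟨N, hN, h⟩ := exists_den ({c} : Finset K)
  exact ⟨N, hN, fun _ => h c (Finset.mem_singleton_self c)⟩

theorem Den.fin {L ι : Type*} [Field L] (s : Finset ι) {r : ι → ℕ → L} (h : ∀ j ∈ s, Den (r j)) :
    ∃ N : ℕ, 0 < N ∧ ∀ j ∈ s, ∀ n, IsIntegral ℤ ((N : L) * r j n) := by
  choose! N hN hi using h
  exact ⟨∏ j ∈ s, N j, Finset.prod_pos hN, fun j hj n =>
    Den.mono (hi j hj n) (Finset.dvd_prod_of_mem _ hj)⟩

theorem Den.sum {L ι : Type*} [Field L] (s : Finset ι) {r : ι → ℕ → L} (h : ∀ j ∈ s, Den (r j)) :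
    Den fun n => ∑ j ∈ s, r j n := by
  obtain ⟨N, hN, hi⟩ := Den.fin s h
  refine ⟨N, hN, fun n => ?_⟩
  rw [Finset.mul_sum]
  exact IsIntegral.sum _ fun j hj => hi j hj n

theorem Den.pow {L : Type*} [Field L] {x : ℕ → L} (hx : Den x) (k : ℕ) : Den fun n => x n ^ k := by
  obtain ⟨N, hN, h⟩ := hx
  refine ⟨N ^ k, pow_pos hN k, fun n => ?_⟩
  rw [Nat.cast_pow, ← mul_pow]
  exact (h n).pow k

theorem Den.poly {x : ℕ → K} (hx : Den x) (p : K[X]) : Den fun n => p.eval (x n) := by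
  simp only [eval_eq_sum, sum_def]
  exact Den.sum _ fun k _ => (Den.const _).mul (hx.pow k)

theorem Den.ev2 {x y : ℕ → K} (hx : Den x) (hy : Den y) (G : K[X][X]) :
    Den fun n => G.evalEval (x n) (y n) := by
  induction G using Polynomial.induction_on' with
  | add p q hp hq => simpa only [evalEval_add] using hp.add hq
  | monomial k p =>
    simpa only [evalEval, eval_monomial, eval_mul, eval_pow, eval_C] using (hx.poly p).mul (hy.pow k)

theorem Den.mv {J : Type*} {x : J → ℕ → K} (hx : ∀ i, Den (x i)) (P : MvPolynomial J K) :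
    Den fun n => MvPolynomial.eval (fun i => x i n) P := by
  induction P using MvPolynomial.induction_on with
  | C a => simpa only [MvPolynomial.eval_C] using Den.const a
  | add p q hp hq => simpa only [map_add] using hp.add hq
  | mul_X p i hp => simpa only [map_mul, MvPolynomial.eval_X] using hp.mul (hx i)

theorem mv_house {J : Type*} (P : MvPolynomial J K) {S : ℕ} (hS : P.totalDegree ≤ S) :
    ∃ C : ℝ, ∀ (x : J → K) (t : ℝ), 1 ≤ t → (∀ i, house (x i) ≤ t) →
      house (MvPolynomial.eval x P) ≤ C * t ^ S := by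
  refine ⟨∑ m ∈ P.support, house (P.coeff m), fun x t ht hx => ?_⟩
  rw [MvPolynomial.eval_eq, Finset.sum_mul]
  refine (house_sum_le_sum_house _ _).trans (Finset.sum_le_sum fun m hm => (house_mul_le _ _).trans
    (mul_le_mul_of_nonneg_left (((nH K).prod_le _ _).trans ?_) (house_nonneg _)))
  refine (Finset.prod_le_prod (fun i _ => house_nonneg _) fun i _ => (house_pow_le _ _).trans
    (pow_le_pow_left₀ (house_nonneg _) (hx i) _)).trans ?_
  rw [Finset.prod_pow_eq_pow_sum]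
  exact pow_le_pow_right₀ ht ((MvPolynomial.le_totalDegree hm).trans hS)

theorem growth_up {f : K[X]} (hd : 2 ≤ f.natDegree) {x : ℕ → K}
    (h : ∀ n, x (n + 1) = f.eval (x n)) :
    ∃ Λ : ℝ, 1 ≤ Λ ∧ ∀ n, house (x n) ≤ Λ ^ f.natDegree ^ n := by
  obtain ⟨A, h1, h2⟩ : ∃ A : ℝ, 1 ≤ A ∧ (nH K).l1.f f ≤ A := ⟨_, le_max_left _ _, le_max_right _ _⟩
  have hM : ∀ n, 1 ≤ max 1 (house (x n)) := fun n => le_max_left _ _
  have key : ∀ n, A * max 1 (house (x n)) ≤ (A * max 1 (house (x 0))) ^ f.natDegree ^ n := by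
    intro n
    induction n with
    | zero => simp
    | succ n ih =>
      have h3 : house (x (n + 1)) ≤ A * max 1 (house (x n)) ^ f.natDegree := by
        rw [h]
        exact ((nH K).eval₂_le (nH K) (RingHom.id K) (fun _ => le_rfl) (hM n) (le_max_right _ _)
          le_rfl).trans (mul_le_mul_of_nonneg_right h2 (by positivity))
      have h4 : max 1 (house (x (n + 1))) ≤ A * max 1 (house (x n)) ^ f.natDegree :=
        max_le (one_le_mul_of_one_le_of_one_le h1 (one_le_pow₀ (hM n))) h3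
      rw [pow_succ, pow_mul]
      refine le_trans ?_ (pow_le_pow_left₀ (by positivity) ih _)
      rw [mul_pow]
      refine (mul_le_mul_of_nonneg_left h4 (by positivity)).trans ?_
      rw [← mul_assoc, ← pow_two]
      exact mul_le_mul_of_nonneg_right (pow_le_pow_right₀ h1 hd) (by positivity)
  exact ⟨_, one_le_mul_of_one_le_of_one_le h1 (hM 0), fun n => ((le_max_right _ _).trans
    (le_mul_of_one_le_left (by positivity) h1)).trans (key n)⟩

end Pool.Agent.P.MP_68214b_ag.DS
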