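import Pool.Agent.P.MP_68214b_ag.DSA6
import Pool.Agent.P.MP_68214b_ag.DSN4

open Polynomial Filter Asymptotics NumberField Topology

namespace Pool.Agent.P.MP_68214b_ag.DS

theorem dsc6_K {k : Type} [Field k] [CharZero k] [Algebra k ℂ] (s : Finset ℂ)
    (h : ∀ z ∈ s, IsIntegral k z) :
    ∃ K : IntermediateField k ℂ, FiniteDimensional k K ∧ IsGalois k K ∧ ∀ z ∈ s, z ∈ K := by
  set p : k[X] := ∏ z ∈ s, minpoly k z with hp
  have p0 : p ≠ 0 := Finset.prod_ne_zero_iff.2 fun z hz => minpoly.ne_zero (h z hz)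
  have hs := IntermediateField.adjoin_rootSet_isSplittingField (K := k) (L := ℂ) (p := p)
    (IsAlgClosed.splits _)
  have hf := IsSplittingField.finiteDimensional (IntermediateField.adjoin k (p.rootSet ℂ)) p
  have hn := Normal.of_isSplittingField (E := IntermediateField.adjoin k (p.rootSet ℂ)) p
  refine ⟨_, hf, ⟨⟩, fun z hz => IntermediateField.subset_adjoin _ _ ?_⟩
  rw [mem_rootSet_of_ne p0, hp, map_prod]
  exact Finset.prod_eq_zero hz (minpoly.aeval k z)

theorem exists_K (s : Finset ℂ) (h : ∀ z ∈ s, IsIntegral ℚ z) :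
    ∃ K : IntermediateField ℚ ℂ, FiniteDimensional ℚ K ∧ Cj K ∧ ∀ z ∈ s, z ∈ K := by
  obtain ⟨K, hf, hg, hm⟩ := dsc6_K s h
  refine ⟨K, hf, fun σ => ?_, hm⟩
  obtain ⟨c, hc⟩ := @ComplexEmbedding.exists_comp_symm_eq_of_comp_eq K _ ℚ _ _ hg σ
    ((starRingEnd ℂ).comp σ) (Subsingleton.elim _ _)
  exact ⟨_, fun x => RingHom.congr_fun hc x⟩

theorem orbit_int {f : ℂ[X]} (hf : ∀ k, IsIntegral ℤ (f.coeff k)) {α : ℂ} (hα : IsIntegral ℤ α)
    (n : ℕ) : IsIntegral ℤ ((fun z => f.eval z)^[n] α) := by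
  induction n with
  | zero => exact hα
  | succ n ih =>
    rw [Function.iterate_succ_apply', eval_eq_sum, sum_def]
    exact IsIntegral.sum _ fun k _ => (hf k).mul (ih.pow k)

theorem exists_orb {J : Type} [Fintype J] (f : J → ℂ[X]) (α : J → ℂ)
    (hf : ∀ i k, IsAlgebraic ℚ ((f i).coeff k)) (hα : ∀ i, IsAlgebraic ℚ (α i))
    (s0 : Finset ℂ) (h0 : ∀ z ∈ s0, IsAlgebraic ℚ z) :
    ∃ (K : IntermediateField ℚ ℂ) (κ : J → K) (g : J → K[X]) (x : J → ℕ → K),
      FiniteDimensional ℚ K ∧ Cj K ∧ (∀ z ∈ s0, z ∈ K) ∧ (∀ i, κ i ≠ 0) ∧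
      (∀ i, 2 ≤ (f i).natDegree → Orb (g i) (x i) ∧ (g i).natDegree = (f i).natDegree ∧
        (¬ Special (f i) → NSa (g i))) ∧
      (∀ i, ¬ 2 ≤ (f i).natDegree → ∃ a b, ∀ n, x i (n + 1) = a * x i n + b) ∧
      ∀ i n, (x i n : ℂ) = κ i * (fun z => (f i).eval z)^[n] (α i) := by
  classical
  have hκ : ∀ i, ∃ κ : ℂ, κ ≠ 0 ∧ IsIntegral ℚ κ ∧
      (2 ≤ (f i).natDegree → κ ^ ((f i).natDegree - 1) = (f i).leadingCoeff) := fun i => by
    by_cases hd : 2 ≤ (f i).natDegree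
    · obtain ⟨κ, hκ⟩ := IsAlgClosed.exists_pow_nat_eq (f i).leadingCoeff
        (show 0 < (f i).natDegree - 1 by omega)
      refine ⟨κ, ?_, IsIntegral.of_pow (show 0 < (f i).natDegree - 1 by omega)
        (hκ ▸ (hf i _).isIntegral), fun _ => hκ⟩
      rintro rfl
      rw [zero_pow (by omega), eq_comm, leadingCoeff_eq_zero] at hκ
      rw [hκ] at hd
      simp at hd
    · exact ⟨1, one_ne_zero, isIntegral_one, fun h => absurd h hd⟩
  choose κ κ0 κi κd using hκ
  obtain ⟨K, hK, hC, hm⟩ := exists_K (s0 ∪ (Finset.univ.image κ ∪ (Finset.univ.image α ∪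
      Finset.univ.biUnion fun i => (f i).coeffs))) (by
    simp only [Finset.mem_union, Finset.mem_image, Finset.mem_biUnion, mem_coeffs_iff]
    rintro z (hz | ⟨i, -, rfl⟩ | ⟨i, -, rfl⟩ | ⟨i, -, k, -, rfl⟩)
    exacts [(h0 z hz).isIntegral, κi i, (hα i).isIntegral, (hf i k).isIntegral])
  have mκ : ∀ i, κ i ∈ K := fun i => hm _ (by simp)
  have mα : ∀ i, α i ∈ K := fun i => hm _ (by simp)
  have mf : ∀ i, ∃ f0 : K[X], f0.map (algebraMap K ℂ) = f i := fun i =>
    (mem_lifts _).1 ((lifts_iff_coeff_lifts _).2 fun k => by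
      by_cases h : (f i).coeff k = 0
      · exact ⟨0, by rw [h, map_zero]⟩
      · refine ⟨⟨_, hm _ ?_⟩, rfl⟩
        simp only [Finset.mem_union, Finset.mem_biUnion]
        exact Or.inr (Or.inr (Or.inr ⟨i, Finset.mem_univ _, coeff_mem_coeffs h⟩)))
  choose f0 hf0 using mf
  have : CharZero K := algebraRat.charZero K
  set k : J → K := fun i => ⟨κ i, mκ i⟩ with hk
  have k0 : ∀ i, k i ≠ 0 := fun i h => κ0 i (congrArg Subtype.val h)
  set y : J → ℕ → K := fun i n => (fun z => (f0 i).eval z)^[n] ⟨α i, mα i⟩ with hy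
  have y1 : ∀ i n, y i (n + 1) = (f0 i).eval (y i n) := fun i n => Function.iterate_succ_apply' _ _ _
  have y2 : ∀ i n, (y i n : ℂ) = (fun z => (f i).eval z)^[n] (α i) := fun i n => by
    induction n with
    | zero => rfl
    | succ n ih =>
      rw [y1, Function.iterate_succ_apply', ← ih, ← hf0, eval_map]
      exact (eval₂_at_apply (algebraMap K ℂ) _).symm
  have d0 : ∀ i, (f0 i).natDegree = (f i).natDegree := fun i => by rw [← hf0, natDegree_map]
  set g : J → K[X] := fun i => C (k i) * (f0 i).comp (C (k i)⁻¹ * X) with hg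
  have gd : ∀ i, (g i).natDegree = (f i).natDegree := fun i => by
    rw [hg, natDegree_C_mul (k0 i), natDegree_comp, natDegree_C_mul (inv_ne_zero (k0 i)),
      natDegree_X, mul_one, d0]
  refine ⟨K, k, g, fun i n => k i * y i n, hK, hC, fun z hz => hm z (Finset.mem_union_left _ hz),
    k0, fun i hd => ⟨⟨?_, gd i ▸ hd, fun n => ?_⟩, gd i, fun hs => ?_⟩,
    fun i hd => ?_, fun i n => by rw [← y2]; rfl⟩
  · have e : k i ^ ((f i).natDegree - 1) = (f0 i).leadingCoeff := by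
      apply (algebraMap K ℂ).injective
      rw [← leadingCoeff_map, hf0, ← κd i hd, map_pow]
      rfl
    rw [Monic, hg, leadingCoeff_mul, leadingCoeff_C, leadingCoeff_comp (by
      rw [natDegree_C_mul (inv_ne_zero (k0 i)), natDegree_X]; exact one_ne_zero),
      leadingCoeff_mul, leadingCoeff_C, leadingCoeff_X, mul_one, ← e, d0, ← mul_assoc, ← pow_succ',
      Nat.sub_add_cancel (by omega), ← mul_pow, mul_inv_cancel₀ (k0 i), one_pow]
  · simp only [hg, eval_mul, eval_C, eval_comp, eval_X, inv_mul_cancel_left₀ (k0 i), y1]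
  · refine ns_all (algebraMap K ℂ) (gd i ▸ hd) fun h => hs (special_scale (κ0 i) ?_)
    simp only [hg, Polynomial.map_mul, map_C, map_comp, map_X, hf0, map_inv₀] at h
    exact h
  · refine ⟨(f0 i).coeff 1, k i * (f0 i).coeff 0, fun n => ?_⟩
    simp only [y1]
    conv_lhs => rw [eq_X_add_C_of_natDegree_le_one (p := f0 i) (by rw [d0]; omega)]
    simp only [eval_add, eval_mul, eval_C, eval_X]
    ring

theorem den_of_map {K : Type} [Field K] [NumberField K] (ι : K →+* ℂ) {κ : K} (hκ : κ ≠ 0)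
    {x : ℕ → K} {z : ℕ → ℂ} (hx : ∀ n, ι (x n) = ι κ * z n) (h : Den z) : Den x := by
  obtain ⟨N, hN, hi⟩ := h
  have e : x = fun n => κ * (κ⁻¹ * x n) := funext fun n => (mul_inv_cancel_left₀ hκ _).symm
  rw [e]
  refine (Den.const κ).mul ⟨N, hN, fun n => ?_⟩
  refine (isIntegral_algHom_iff ι.toIntAlgHom ι.injective).1 ?_
  have : ι.toIntAlgHom ((N : K) * (κ⁻¹ * x n)) = N * z n := by
    change ι _ = _
    rw [map_mul, map_natCast, map_mul, hx, map_inv₀,
      inv_mul_cancel_left₀ ((_root_.map_ne_zero ι).2 hκ)]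
  rw [this]
  exact hi n

end Pool.Agent.P.MP_68214b_ag.DS
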