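import Pool.Agent.P.MP_68214b_ag.DSC5
import Pool.Agent.P.MP_68214b_ag.DSC6

open Polynomial Filter Asymptotics NumberField Topology

namespace Pool.Agent.P.MP_68214b_ag.DS

theorem mainAP' {J : Type} [Fintype J] (f : J → ℂ[X]) (α : J → ℂ)
    (hf : ∀ i k, IsAlgebraic ℚ ((f i).coeff k)) (hα : ∀ i, IsAlgebraic ℚ (α i))
    (hi : ∀ i, 2 ≤ (f i).natDegree → Den fun n => (fun z => (f i).eval z)^[n] (α i))
    (hs : ∀ d, 2 ≤ d → {i | (f i).natDegree = d ∧ Special (f i)}.ncard ≤ 3)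
    (𝓠 : Set (J → ℂ[X])) : ∃ l, 0 < l ∧ ∃ n0, ∀ n ≥ n0,
      ((∀ q ∈ 𝓠, ∑ i, (q i).eval ((fun z => (f i).eval z)^[n] (α i)) = 0) ↔
        ∀ q ∈ 𝓠, ∑ i, (q i).eval ((fun z => (f i).eval z)^[n + l] (α i)) = 0) := by
  obtain ⟨K, κ, g, x, hK, hC, -, hκ, hO, hA, hx⟩ := exists_orb f α hf hα ∅ (by simp)
  have : NumberField K := ⟨⟩
  obtain ⟨𝓡, h𝓡⟩ := descend (algebraMap K ℂ)
    ((fun q i => (q i).comp (C (κ i : ℂ)⁻¹ * X)) '' 𝓠 : Set (J → ℂ[X]))
  obtain ⟨l, hl, n0, h⟩ := topK hC (fun i => 2 ≤ (f i).natDegree) (fun i h => (hO i h).1)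
    (fun i h => den_of_map (algebraMap K ℂ) (hκ i) (hx i) (hi i h)) hA
    (fun t ht h2 hd => by
      by_contra! hn
      obtain ⟨i, hi⟩ := Finset.card_pos.1 (show 0 < t.card by omega)
      have := (Set.ncard_le_ncard (s := (t : Set J))
        (t := {j | (f j).natDegree = (f i).natDegree ∧ Special (f j)}) (fun j hj => ⟨by
        rw [← (hO j (h2 j hj)).2.1, hd j hj i hi, (hO i (h2 i hi)).2.1],
        by_contra fun h => hn j hj ((hO j (h2 j hj)).2.2 h)⟩)).trans (hs _ (h2 i hi))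
      rw [Set.ncard_coe_finset] at this
      omega) 𝓡
  have key (n : ℕ) : (∀ q ∈ 𝓠, ∑ i, (q i).eval ((fun z => (f i).eval z)^[n] (α i)) = 0) ↔
      ∀ q ∈ 𝓡, ∑ i, (q i).eval (x i n) = 0 := by
    rw [← h𝓡 fun i => x i n, Set.forall_mem_image]
    refine forall₂_congr fun q _ => ?_
    have e (i : J) : ((q i).comp (C (κ i : ℂ)⁻¹ * X)).eval (algebraMap K ℂ (x i n)) =
        (q i).eval ((fun z => (f i).eval z)^[n] (α i)) := by
      rw [eval_comp, eval_mul, eval_C, eval_X, show algebraMap K ℂ (x i n) = x i n from rfl, hx,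
        inv_mul_cancel_left₀ (by simpa using hκ i)]
    simp only [e]
  exact ⟨l, hl, n0, fun n hn => by rw [key, key]; exact h n hn⟩

theorem mainAP {J : Type} [Fintype J] (f : J → ℂ[X]) (α : J → ℂ)
    (hf : ∀ i k, IsAlgebraic ℚ ((f i).coeff k)) (hα : ∀ i, IsAlgebraic ℚ (α i))
    (hi : ∀ i, 2 ≤ (f i).natDegree → (∀ k, IsIntegral ℤ ((f i).coeff k)) ∧ IsIntegral ℤ (α i))
    (hs : ∀ d, 2 ≤ d → {i | (f i).natDegree = d ∧ Special (f i)}.ncard ≤ 3)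
    (𝓠 : Set (J → ℂ[X])) : ∃ l, 0 < l ∧ ∃ n0, ∀ n ≥ n0,
      ((∀ q ∈ 𝓠, ∑ i, (q i).eval ((fun z => (f i).eval z)^[n] (α i)) = 0) ↔
        ∀ q ∈ 𝓠, ∑ i, (q i).eval ((fun z => (f i).eval z)^[n + l] (α i)) = 0) :=
  mainAP' f α hf hα (fun i h => ⟨1, one_pos, fun n => by
    simpa only [Nat.cast_one, one_mul] using orbit_int (hi i h).1 (hi i h).2 n⟩) hs 𝓠

theorem dsc7_inj {A : Type*} (Φ : A → A) (α : A) (h : (Set.range fun n => Φ^[n] α).Infinite) :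
    Function.Injective fun n => Φ^[n] α := by
  refine Function.Injective.of_lt_imp_ne fun a b hab e => h ?_
  refine ((Set.finite_lt_nat b).image fun n => Φ^[n] α).subset ?_
  rintro _ ⟨n, rfl⟩
  induction n using Nat.strong_induction_on with
  | _ n ih =>
    by_cases hn : n < b
    · exact ⟨n, hn, rfl⟩
    · obtain ⟨c, rfl⟩ := Nat.exists_eq_add_of_le' (not_lt.1 hn)
      have := ih (c + a) (by omega)
      simp only [Function.iterate_add_apply] at this ⊢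
      rwa [← e]

theorem q1_of_ap {J : Type} (f : J → ℂ[X]) (α : J → ℂ) (I : Set (MvPolynomial J ℂ))
    (Φ : (J → ℂ) → J → ℂ) (hΦ : ∀ p i, Φ p i = (f i).eval (p i))
    (Z : Set (MvPolynomial J ℂ) → Set (J → ℂ))
    (hZ : ∀ S p, p ∈ Z S ↔ ∀ F ∈ S, MvPolynomial.eval p F = 0) {l n0 : ℕ} (hl : 0 < l)
    (h : ∀ n ≥ n0, (Φ^[n] α ∈ Z I ↔ Φ^[n + l] α ∈ Z I))
    (hn : ¬ ∃ S, (Z S).Infinite ∧ Z S ⊆ Z I ∧ (∃ k ≥ 1, Set.MapsTo Φ^[k] (Z S) (Z S)) ∧
      ∃ n, Φ^[n] α ∈ Z S) : (Z I ∩ Set.range fun n => Φ^[n] α).Finite := by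
  have hq (k : ℕ) : ∀ F : MvPolynomial J ℂ, ∃ G : MvPolynomial J ℂ, ∀ p,
      MvPolynomial.eval (Φ^[k] p) F = MvPolynomial.eval p G := by
    induction k with
    | zero => exact fun F => ⟨F, fun _ => rfl⟩
    | succ k ih =>
      intro F
      obtain ⟨G, hG⟩ := ih (phi f F)
      refine ⟨G, fun p => ?_⟩
      rw [← hG, eval_phi, Function.iterate_succ_apply']
      exact congrArg (fun y => MvPolynomial.eval y F) (funext (hΦ _))
  by_contra hinf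
  have inj := dsc7_inj Φ α (Set.Infinite.mono Set.inter_subset_right hinf)
  obtain ⟨n, hn0, hI⟩ : ∃ n ≥ n0, Φ^[n] α ∈ Z I := by
    by_contra! H
    refine hinf (((Set.finite_lt_nat n0).image fun n => Φ^[n] α).subset ?_)
    rintro _ ⟨h, n, rfl⟩
    exact ⟨n, not_le.1 fun hn => H n hn h, rfl⟩
  have mem (j : ℕ) : Φ^[n + l * j] α ∈
      Z {F | ∀ j, MvPolynomial.eval (Φ^[n + l * j] α) F = 0} := (hZ _ _).2 fun F hF => hF j
  have hI' (j : ℕ) : Φ^[n + l * j] α ∈ Z I := by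
    induction j with
    | zero => exact hI
    | succ j ih =>
      rw [mul_add, mul_one, ← add_assoc]
      exact (h _ (le_add_right hn0)).1 ih
  refine hn ⟨_, Set.infinite_of_injective_forall_mem (fun i j e => ?_) mem,
    fun p hp => (hZ _ _).2 fun F hF => (hZ _ _).1 hp F fun j => (hZ _ _).1 (hI' j) F hF,
    ⟨l, hl, fun p hp => (hZ _ _).2 fun F hF => ?_⟩, _, mem 0⟩
  · exact Nat.eq_of_mul_eq_mul_left hl (Nat.add_left_cancel (inj e))
  · obtain ⟨G, hG⟩ := hq l F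
    rw [hG]
    refine (hZ _ _).1 hp G fun j => ?_
    rw [← hG, ← Function.iterate_add_apply, ← hF (j + 1)]
    congr 3
    ring

end Pool.Agent.P.MP_68214b_ag.DS
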