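import Pool.Agent.P.MP_68214b_ag.DH3
import Pool.Agent.P.MP_68214b_ag.DSC7

open Polynomial Filter Asymptotics NumberField Topology

namespace Pool.Agent.P.MP_68214b_ag.DS

theorem mainH {J : Type} [Fintype J] (f : J → ℂ[X]) (α : J → ℂ)
    (hf : ∀ i k, IsAlgebraic ℚ ((f i).coeff k)) (hα : ∀ i, IsAlgebraic ℚ (α i))
    (hw : ∀ d, 2 ≤ d →
      {i | (f i).natDegree = d ∧ (Set.range fun n => (fun z => (f i).eval z)^[n] (α i)).Infinite ∧
        Special (f i)}.ncard +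
      2 * {i | (f i).natDegree = d ∧
        (Set.range fun n => (fun z => (f i).eval z)^[n] (α i)).Infinite ∧
        ∀ s : ℂ →+* ℂ, ∃ M : ℝ, ∀ n, ‖s ((fun z => (f i).eval z)^[n] (α i))‖ ≤ M}.ncard ≤ 3)
    (𝓠 : Set (J → ℂ[X])) : ∃ l, 0 < l ∧ ∃ n0, ∀ n ≥ n0,
      ((∀ q ∈ 𝓠, ∑ i, (q i).eval ((fun z => (f i).eval z)^[n] (α i)) = 0) ↔
        ∀ q ∈ 𝓠, ∑ i, (q i).eval ((fun z => (f i).eval z)^[n + l] (α i)) = 0) := by
  obtain ⟨K, κ, g, x, hK, hC, -, hκ, hO, hA, hx⟩ := exists_orb f α hf hα ∅ (by simp)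
  have : NumberField K := ⟨⟩
  obtain ⟨𝓡, h𝓡⟩ := descend (algebraMap K ℂ)
    ((fun q i => (q i).comp (C (κ i : ℂ)⁻¹ * X)) '' 𝓠 : Set (J → ℂ[X]))
  have inf (i : J) (h : ¬ Alg0 (x i)) :
      (Set.range fun n => (fun z => (f i).eval z)^[n] (α i)).Infinite := fun hfin => by
    refine h (alg0_of_finite (Set.Finite.of_finite_image (f := fun a : K => (a : ℂ))
      ((hfin.image fun z => (κ i : ℂ) * z).subset ?_) Subtype.val_injective.injOn))
    rintro _ ⟨_, ⟨n, rfl⟩, rfl⟩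
    exact ⟨_, ⟨n, rfl⟩, (hx i n).symm⟩
  have bd (i : J) (h : ∀ σ : K →+* ℂ, Bdd σ (x i)) (s : ℂ →+* ℂ) :
      ∃ M : ℝ, ∀ n, ‖s ((fun z => (f i).eval z)^[n] (α i))‖ ≤ M := by
    obtain ⟨B, hB⟩ := h (s.comp (algebraMap K ℂ))
    have h0 : 0 < ‖s (κ i)‖ := norm_pos_iff.2 ((map_ne_zero s).2 (by simpa using hκ i))
    refine ⟨B / ‖s (κ i)‖, fun n => ?_⟩
    have := hB n
    rw [RingHom.comp_apply, show algebraMap K ℂ (x i n) = x i n from rfl, hx, map_mul,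
      norm_mul] at this
    rw [le_div_iff₀ h0, mul_comm]
    exact this
  obtain ⟨l, hl, n0, h⟩ := topH hC (fun i => 2 ≤ (f i).natDegree) (fun i h => (hO i h).1) hA
    (fun d t t' h1 h2 => by
      by_cases hd : 2 ≤ d
      · refine le_trans (add_le_add ?_ (Nat.mul_le_mul_left 2 ?_)) (hw d hd)
        · rw [← Set.ncard_coe_finset]
          refine Set.ncard_le_ncard fun i hi => ?_
          obtain ⟨a, b, c, e⟩ := h1 i hi
          exact ⟨by rw [← (hO i a).2.1, c], inf i b, by_contra fun h => e ((hO i a).2.2 h)⟩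
        · rw [← Set.ncard_coe_finset]
          refine Set.ncard_le_ncard fun i hi => ?_
          obtain ⟨a, b, c, e⟩ := h2 i hi
          exact ⟨by rw [← (hO i a).2.1, c], inf i b, bd i e⟩
      · have e1 : t = ∅ := Finset.eq_empty_of_forall_notMem fun i hi =>
          hd ((h1 i hi).2.2.1 ▸ (hO i (h1 i hi).1).1.deg)
        have e2 : t' = ∅ := Finset.eq_empty_of_forall_notMem fun i hi =>
          hd ((h2 i hi).2.2.1 ▸ (hO i (h2 i hi).1).1.deg)
        simp [e1, e2]) 𝓡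
  have key (n : ℕ) : (∀ q ∈ 𝓠, ∑ i, (q i).eval ((fun z => (f i).eval z)^[n] (α i)) = 0) ↔
      ∀ q ∈ 𝓡, ∑ i, (q i).eval (x i n) = 0 := by
    rw [← h𝓡 fun i => x i n, Set.forall_mem_image]
    refine forall₂_congr fun q _ => ?_
    have e (i : J) : ((q i).comp (C (κ i : ℂ)⁻¹ * X)).eval (algebraMap K ℂ (x i n)) =
        (q i).eval ((fun z => (f i).eval z)^[n] (α i)) := by
      rw [eval_comp, eval_mul, eval_C, eval_X, show algebraMap K ℂ (x i n) = x i n from rfl, hx,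
        inv_mul_cancel_left₀ (by simpa using hκ i)]
    simp only [e]
  exact ⟨l, hl, n0, fun n hn => by rw [key, key]; exact h n hn⟩

end Pool.Agent.P.MP_68214b_ag.DS
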