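import Mathlib

/-! Definitions and the calculus of congruences at a valuation ring. -/

open Polynomial

namespace Pool.Agent.P.MP_68214b_ag.DP

variable {E : Type} [Field E]

/-- congruence modulo the maximal ideal -/
def Cg (A : ValuationSubring E) (x y : E) : Prop := A.valuation (x - y) < 1

/-- the place lies over the prime p -/
def Ov (A : ValuationSubring E) (p : ℕ) : Prop := p.Prime ∧ A.valuation (p : E) < 1

/-- the place lies over a prime larger than B -/
def Big (B : ℕ) (A : ValuationSubring E) : Prop := ∃ p, B < p ∧ Ov A p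

/-- integral coefficients -/
def IP (A : ValuationSubring E) (g : E[X]) : Prop := ∀ k, A.valuation (g.coeff k) ≤ 1

/-- the residue lies in the prime field -/
def Rt (A : ValuationSubring E) (x : E) : Prop := ∃ n : ℤ, Cg A x n

/-- iteration -/
def it (g : E[X]) (n : ℕ) (x : E) : E := (fun z => g.eval z)^[n] x

/-- infinite orbit -/
def Wand (g : E[X]) (x : E) : Prop := (Set.range fun n => it g n x).Infinite

/-- critical point -/
def Crit (g : E[X]) (x : E) : Prop := g.derivative.eval x = 0

/-- periodic point -/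
def Per (g : E[X]) (x : E) : Prop := ∃ k, 0 < k ∧ it g k x = x

/-- the stability condition -/
def Stab (g : E[X]) (γ : E) : Prop :=
  ∃ (A : ValuationSubring E) (p : ℕ), Ov A p ∧ IP A g ∧ (1 < A.valuation γ ∨ ∀ j x,
    A.valuation x ≤ 1 → Cg A (g.eval x) (it g (j + 1) γ) → Cg A x (it g j γ))

/-- unicritical -/
def TyU (g : E[X]) : Prop := ∃ b c, g = (X - C b) ^ g.natDegree + C c

/-- simple critical point with its own critical value -/
def TyC (g : E[X]) (γ : E) : Prop :=
  g.derivative.derivative.eval γ ≠ 0 ∧ ∀ δ, Crit g δ → g.eval δ = g.eval γ → δ = γ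

/-- the class of polynomials -/
def Good (g : E[X]) : Prop :=
  g.Monic ∧ 2 ≤ g.natDegree ∧ ∀ γ, Crit g γ → Wand g γ → Stab g γ ∧ (TyU g ∨ (TyC g γ ∧
    (g.natDegree = 3 ∨ g.natDegree.Coprime 6 ∨ ∀ δ, Crit g δ → Wand g δ → δ = γ)))

/-- the iterated polynomial -/
noncomputable def gi (g : E[X]) (n : ℕ) : E[X] := g.comp^[n] X

variable {A : ValuationSubring E} {g : E[X]} {x y z w : E}

theorem Big.mono {B B' : ℕ} (h : Big B A) (e : B' ≤ B) : Big B' A :=
  h.imp fun _ hp => ⟨e.trans_lt hp.1, hp.2⟩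

@[simp] theorem it_zero : it g 0 x = x := rfl
theorem it_one : it g 1 x = g.eval x := rfl
theorem it_succ (n : ℕ) : it g (n + 1) x = it g n (g.eval x) := rfl
theorem it_succ' (n : ℕ) : it g (n + 1) x = g.eval (it g n x) :=
  Function.iterate_succ_apply' _ _ _
theorem it_add (m n : ℕ) : it g (m + n) x = it g m (it g n x) := Function.iterate_add_apply _ _ _ _

theorem gi_eval (n : ℕ) : (gi g n).eval x = it g n x := by simp [gi, iterate_comp_eval, it]

theorem gi_succ (n : ℕ) : gi g (n + 1) = g.comp (gi g n) := Function.iterate_succ_apply' _ _ _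

theorem gi_natDegree (n : ℕ) : (gi g n).natDegree = g.natDegree ^ n := by
  simp [gi, natDegree_iterate_comp]

theorem gi_monic (hm : g.Monic) (hd : 2 ≤ g.natDegree) (n : ℕ) : (gi g n).Monic := by
  induction n with
  | zero => exact monic_X
  | succ n ih => rw [gi_succ]; exact hm.comp ih (by rw [gi_natDegree]; positivity)

theorem monic_sub_C (hm : g.Monic) (hd : 0 < g.natDegree) (b : E) : (g - C b).Monic :=
  hm.sub_of_left (degree_C_le.trans_lt (natDegree_pos_iff_degree_pos.1 hd))

theorem gi_sub_monic (hm : g.Monic) (hd : 2 ≤ g.natDegree) (n : ℕ) (b : E) :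
    (gi g n - C b).Monic :=
  monic_sub_C (gi_monic hm hd n) (by rw [gi_natDegree]; positivity) b

theorem mem_roots_gi (hm : g.Monic) (hd : 2 ≤ g.natDegree) {n : ℕ} {b : E} :
    x ∈ (gi g n - C b).roots ↔ it g n x = b := by
  rw [mem_roots (gi_sub_monic hm hd n b).ne_zero, IsRoot, eval_sub, eval_C, gi_eval, sub_eq_zero]

theorem fin_pre (hm : g.Monic) (hd : 2 ≤ g.natDegree) (n : ℕ) (b : E) :
    {x | it g n x = b}.Finite := by
  classical
  exact (gi g n - C b).roots.toFinset.finite_toSet.subset fun x hx => by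
    rwa [Finset.mem_coe, Multiset.mem_toFinset, mem_roots_gi hm hd]

theorem prod_gi [IsAlgClosed E] (hm : g.Monic) (hd : 2 ≤ g.natDegree) (n : ℕ) (b y : E) :
    it g n y - b = ((gi g n - C b).roots.map fun x => y - x).prod := by
  rw [← (IsAlgClosed.splits _).eval_eq_prod_roots_of_monic (gi_sub_monic hm hd n b), eval_sub,
    eval_C, gi_eval]

theorem exists_pre [IsAlgClosed E] (hd : 2 ≤ g.natDegree) (n : ℕ) (b : E) :
    ∃ x, it g n x = b := by
  obtain ⟨x, hx⟩ := IsAlgClosed.exists_root (gi g n - C b) (natDegree_pos_iff_degree_pos.1 (by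
    rw [natDegree_sub_C, gi_natDegree]; positivity)).ne'
  exact ⟨x, by simpa [gi_eval, sub_eq_zero] using hx⟩

theorem Wand.inj (h : Wand g x) : Function.Injective fun n => it g n x := by
  refine Function.Injective.of_lt_imp_ne fun a b hab e => h ?_
  refine ((Set.finite_lt_nat b).image fun n => it g n x).subset ?_
  rintro _ ⟨n, rfl⟩
  induction n using Nat.strong_induction_on with
  | _ n ih =>
    by_cases hn : n < b
    · exact ⟨n, hn, rfl⟩
    · obtain ⟨c, rfl⟩ := Nat.exists_eq_add_of_le' (not_lt.1 hn)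
      have := ih (c + a) (by omega)
      simp only [it_add] at this ⊢
      rwa [← e]

theorem Wand.not_per (h : Wand g x) : ¬ Per g x := fun ⟨_, hk, e⟩ =>
  hk.ne' (h.inj (a₂ := 0) e)

theorem fin_crit [CharZero E] (hd : 2 ≤ g.natDegree) : {x | Crit g x}.Finite :=
  (rootSet_finite g.derivative E).subset fun x hx => by
    rw [mem_rootSet]
    exact ⟨fun e => by have := derivative_eq_zero.1 e; omega, hx⟩

theorem v_int (A : ValuationSubring E) (n : ℤ) : A.valuation (n : E) ≤ 1 :=
  (A.valuation_le_one_iff _).2 (intCast_mem A n)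

theorem v_nat (A : ValuationSubring E) (n : ℕ) : A.valuation (n : E) ≤ 1 :=
  (A.valuation_le_one_iff _).2 (natCast_mem A n)

theorem Cg.refl (A : ValuationSubring E) (x : E) : Cg A x x := by simp [Cg]

theorem Cg.symm (h : Cg A x y) : Cg A y x := by rwa [Cg, Valuation.map_sub_swap]

theorem Cg.add (h : Cg A x y) (h' : Cg A z w) : Cg A (x + z) (y + w) := by
  rw [Cg, show x + z - (y + w) = x - y + (z - w) by ring]
  exact A.valuation.map_add_lt h h'

theorem Cg.trans (h : Cg A x y) (h' : Cg A y z) : Cg A x z := by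
  rw [Cg, show x - z = x - y + (y - z) by ring]
  exact A.valuation.map_add_lt h h'

theorem Cg.neg (h : Cg A x y) : Cg A (-x) (-y) := by
  rw [Cg, show -x - -y = y - x by ring]; exact h.symm

theorem Cg.sub (h : Cg A x y) (h' : Cg A z w) : Cg A (x - z) (y - w) := by
  simpa only [sub_eq_add_neg] using h.add h'.neg

theorem Cg.int (h : Cg A x y) (hy : A.valuation y ≤ 1) : A.valuation x ≤ 1 := by
  rw [show x = x - y + y by ring]; exact A.valuation.map_add_le h.le hy

theorem Cg.unit (h : Cg A x y) (hy : A.valuation y = 1) : A.valuation x = 1 := by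
  rw [show x = y + (x - y) by ring, A.valuation.map_add_eq_of_lt_left (by rw [hy]; exact h), hy]

theorem cg_zero : Cg A x 0 ↔ A.valuation x < 1 := by rw [Cg, sub_zero]

theorem Cg.lt (h : Cg A x y) (hy : A.valuation y < 1) : A.valuation x < 1 :=
  cg_zero.1 (h.trans (cg_zero.2 hy))

theorem Cg.mul_left (h : Cg A x y) (hz : A.valuation z ≤ 1) : Cg A (z * x) (z * y) := by
  rw [Cg, ← mul_sub, map_mul]; exact mul_lt_one_of_nonneg_of_lt_one_right hz zero_le h

theorem Cg.mul (h : Cg A x y) (h' : Cg A z w) (hy : A.valuation y ≤ 1) (hw : A.valuation w ≤ 1) :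
    Cg A (x * z) (y * w) :=
  (h'.mul_left (h.int hy)).trans (by simpa only [mul_comm w] using h.mul_left hw)

theorem Cg.pow (h : Cg A x y) (hy : A.valuation y ≤ 1) (n : ℕ) : Cg A (x ^ n) (y ^ n) := by
  induction n with
  | zero => simpa using Cg.refl A 1
  | succ n ih =>
    rw [pow_succ, pow_succ]
    exact ih.mul h (by rw [map_pow]; exact pow_le_one₀ zero_le hy) hy

theorem IP.lift (h : IP A g) : ∃ q : A[X], q.map A.subtype = g :=
  (mem_lifts g).1 ((lifts_iff_coeff_lifts g).2 fun k =>
    ⟨⟨_, (A.valuation_le_one_iff _).1 (h k)⟩, rfl⟩)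

theorem ip_map (q : A[X]) : IP A (q.map A.subtype) := fun k => by
  rw [coeff_map]; exact A.valuation_le_one _

theorem eval_lift (q : A[X]) (a : A) : (q.map A.subtype).eval (a : E) = (q.eval a : A) :=
  eval_map_apply A.subtype a

theorem IP.deriv (h : IP A g) : IP A g.derivative := by
  obtain ⟨q, rfl⟩ := h.lift
  rw [derivative_map]; exact ip_map _

theorem IP.sub_C (h : IP A g) (hx : A.valuation x ≤ 1) : IP A (g - C x) := by
  obtain ⟨q, rfl⟩ := h.lift
  lift x to A using (A.valuation_le_one_iff _).1 hx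
  simpa using ip_map (q - C x)

theorem IP.gi (h : IP A g) (n : ℕ) : IP A (gi g n) := by
  obtain ⟨q, rfl⟩ := h.lift
  induction n with
  | zero => simpa [DP.gi] using ip_map (X : A[X])
  | succ n ih =>
    obtain ⟨r, hr⟩ := ih.lift
    rw [gi_succ, ← hr, ← map_comp]; exact ip_map _

theorem IP.eval (h : IP A g) (hx : A.valuation x ≤ 1) : A.valuation (g.eval x) ≤ 1 := by
  obtain ⟨q, rfl⟩ := h.lift
  lift x to A using (A.valuation_le_one_iff _).1 hx
  rw [eval_lift]; exact A.valuation_le_one _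

theorem IP.it (h : IP A g) (hx : A.valuation x ≤ 1) (n : ℕ) : A.valuation (it g n x) ≤ 1 := by
  rw [← gi_eval]; exact (h.gi n).eval hx

/-- Taylor expansion to the second order -/
theorem IP.taylor (h : IP A g) (hx : A.valuation x ≤ 1) (hy : A.valuation y ≤ 1) :
    ∃ c, A.valuation c ≤ 1 ∧
      g.eval y = g.eval x + g.derivative.eval x * (y - x) + c * (y - x) ^ 2 := by
  obtain ⟨q, rfl⟩ := h.lift
  lift x to A using (A.valuation_le_one_iff _).1 hx
  lift y to A using (A.valuation_le_one_iff _).1 hy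
  obtain ⟨c, hc⟩ := q.binomExpansion x (y - x)
  refine ⟨c, A.valuation_le_one _, ?_⟩
  rw [derivative_map, eval_lift, eval_lift, eval_lift]
  rw [add_sub_cancel] at hc
  exact_mod_cast hc

theorem IP.lip (h : IP A g) (hx : A.valuation x ≤ 1) (hy : A.valuation y ≤ 1) :
    A.valuation (g.eval x - g.eval y) ≤ A.valuation (x - y) := by
  obtain ⟨q, rfl⟩ := h.lift
  lift x to A using (A.valuation_le_one_iff _).1 hx
  lift y to A using (A.valuation_le_one_iff _).1 hy
  obtain ⟨c, hc⟩ := sub_dvd_eval_sub x y q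
  have e : ((q.eval x : A) : E) - (q.eval y : A) = (x - y) * c := by exact_mod_cast hc
  rw [eval_lift, eval_lift, e, map_mul]
  exact mul_le_of_le_one_right' (A.valuation_le_one _)

theorem Cg.eval (h : Cg A x y) (hg : IP A g) (hy : A.valuation y ≤ 1) :
    Cg A (g.eval x) (g.eval y) := (hg.lip (h.int hy) hy).trans_lt h

theorem Cg.it (h : Cg A x y) (hg : IP A g) (hy : A.valuation y ≤ 1) (n : ℕ) :
    Cg A (it g n x) (it g n y) := by
  simpa only [gi_eval] using h.eval (hg.gi n) hy

/-- roots of monic integral polynomials are integral -/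
theorem IP.root (h : IP A g) (hm : g.Monic) (hx : g.eval x = 0) : A.valuation x ≤ 1 := by
  obtain ⟨q, rfl, -, hq⟩ := lifts_and_natDegree_eq_and_monic ((mem_lifts g).2 h.lift) hm
  obtain ⟨a, rfl⟩ := (IsIntegrallyClosed.isIntegral_iff (R := A)).1
    (show IsIntegral A x from ⟨q, hq, by rwa [eval₂_eq_eval_map]⟩)
  exact A.valuation_le_one _

theorem IP.pre (h : IP A g) (hm : g.Monic) (hd : 2 ≤ g.natDegree) {n : ℕ}
    (hx : A.valuation (DP.it g n x) ≤ 1) : A.valuation x ≤ 1 :=
  ((h.gi n).sub_C hx).root (gi_sub_monic hm hd n _) (by simp [gi_eval])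

theorem near_root [IsAlgClosed E] (h : IP A g) (hm : g.Monic) (hx : A.valuation x ≤ 1)
    (h0 : A.valuation (g.eval x) < 1) : ∃ r, g.eval r = 0 ∧ Cg A x r := by
  by_contra! H
  rw [(IsAlgClosed.splits g).eval_eq_prod_roots_of_monic hm, map_multiset_prod,
    Multiset.prod_eq_one] at h0
  · exact h0.false
  simp only [Multiset.map_map, Multiset.mem_map]
  rintro _ ⟨r, hr, rfl⟩
  have e := (mem_roots hm.ne_zero).1 hr
  exact le_antisymm (A.valuation.map_sub_le hx (h.root hm e)) (not_lt.1 (H r e))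

theorem near_pre [IsAlgClosed E] (h : IP A g) (hm : g.Monic) (hd : 2 ≤ g.natDegree) {n : ℕ}
    (hy : A.valuation y ≤ 1) (h0 : Cg A (it g n x) y) : ∃ r, it g n r = y ∧ Cg A x r := by
  obtain ⟨r, e, hr⟩ := near_root ((h.gi n).sub_C hy) (gi_sub_monic hm hd n y)
    (h.pre hm hd (h0.int hy)) (by rw [eval_sub, eval_C, gi_eval]; exact h0)
  exact ⟨r, by simpa only [eval_sub, eval_C, gi_eval, sub_eq_zero] using e, hr⟩

theorem near_crit [IsAlgClosed E] [CharZero E] (h : IP A g) (hm : g.Monic)
    (hd : A.valuation (g.natDegree : E) = 1) (hx : A.valuation x ≤ 1)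
    (h0 : A.valuation (g.derivative.eval x) < 1) : ∃ γ, Crit g γ ∧ Cg A x γ := by
  have d0 : (g.natDegree : E) ≠ 0 := fun e => by simp [e] at hd
  have e : ∀ z, (C (g.natDegree : E)⁻¹ * g.derivative).eval z =
    (g.natDegree : E)⁻¹ * g.derivative.eval z := fun z => by rw [eval_mul, eval_C]
  obtain ⟨r, e1, hr⟩ := near_root (g := C (g.natDegree : E)⁻¹ * g.derivative) (x := x)
    (fun k => by rw [coeff_C_mul, map_mul, map_inv₀, hd, inv_one, one_mul]; exact h.deriv k)
    (monic_C_mul_of_mul_leadingCoeff_eq_one (by simp [hm.leadingCoeff, d0])) hx (by rwa [e, map_mul, map_inv₀, hd, inv_one, one_mul])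
  exact ⟨r, by simpa [e, d0, Crit] using e1, hr⟩

/-- two congruent points with the same image are near a critical point -/
theorem crit_of_two (h : IP A g) (hy : A.valuation y ≤ 1) (hc : Cg A x y) (hn : x ≠ y)
    (e : g.eval x = g.eval y) : A.valuation (g.derivative.eval y) < 1 := by
  obtain ⟨c, h1, h2⟩ := h.taylor hy (hc.int hy)
  have : g.derivative.eval y = -(c * (x - y)) :=
    mul_right_cancel₀ (sub_ne_zero.2 hn) (by linear_combination e - h2)
  rw [this, Valuation.map_neg, map_mul]
  exact mul_lt_one_of_nonneg_of_lt_one_right h1 zero_le hc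

/-- three congruent points with the same image -/
theorem crit_of_three (h : IP A g) (hx : A.valuation x ≤ 1) (h1 : Cg A y x) (h2 : Cg A z x)
    (n1 : x ≠ y) (n2 : x ≠ z) (n3 : y ≠ z) (e1 : g.eval y = g.eval x) (e2 : g.eval z = g.eval x) :
    A.valuation (g.derivative.derivative.eval x) < 1 := by
  obtain ⟨q, rfl⟩ := h.lift
  lift y to A using (A.valuation_le_one_iff _).1 (h1.int hx)
  lift z to A using (A.valuation_le_one_iff _).1 (h2.int hx)
  lift x to A using (A.valuation_le_one_iff _).1 hx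
  rw [eval_lift, eval_lift, Subtype.coe_inj] at e1 e2
  rw [Ne, Subtype.coe_inj] at n1 n2 n3
  obtain ⟨r, hr⟩ := X_sub_C_dvd_sub_C_eval (p := q) (a := x)
  have a1 := congrArg (eval y) hr
  have a2 := congrArg (eval z) hr
  simp only [eval_sub, eval_mul, eval_C, eval_X, e1, e2, sub_self, zero_eq_mul, sub_eq_zero] at a1 a2
  obtain ⟨s, rfl⟩ := dvd_iff_isRoot.2 (a1.resolve_left (Ne.symm n1))
  simp only [eval_sub, eval_mul, eval_C, eval_X, mul_eq_zero, sub_eq_zero] at a2
  obtain ⟨t, rfl⟩ := dvd_iff_isRoot.2 ((a2.resolve_left (Ne.symm n2)).resolve_left (Ne.symm n3))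
  have a3 := congrArg (fun p => eval x (derivative (derivative p))) hr
  simp only [derivative_sub, derivative_mul, derivative_C, derivative_X, sub_zero, one_mul,
    derivative_add, eval_add, eval_mul, eval_sub, eval_X, eval_C, sub_self, zero_mul,
    add_zero] at a3
  rw [derivative_map, derivative_map, eval_lift, a3]
  have b1 := (cg_zero.2 h2.symm).mul_left (A.valuation_le_one (eval x t))
  have b2 := (cg_zero.2 h1.symm).mul_left
    (A.valuation_le_one (eval x t + (x - z) * eval x (derivative t)))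
  have b3 := (b1.add b2).add (b1.add b2)
  rw [← cg_zero]
  convert b3 using 1
  · push_cast; ring
  · simp

/-- two distinct points with the same iterate merge at some level -/
theorem merge {n : ℕ} (hn : x ≠ y) (e : it g n x = it g n y) :
    ∃ s < n, it g s x ≠ it g s y ∧ it g (s + 1) x = it g (s + 1) y := by
  induction n with
  | zero => exact (hn e).elim
  | succ n ih =>
    by_cases h : it g n x = it g n y
    · exact (ih h).imp fun s hs => ⟨by omega, hs.2⟩
    · exact ⟨n, by omega, h, e⟩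

/-- exact period modulo the place -/
theorem exact_per (h : IP A g) (hx : A.valuation x ≤ 1) {l : ℕ} (hl : l.Prime)
    (h1 : Cg A (it g l x) x) (h2 : ¬ Cg A (g.eval x) x) {j : ℕ} (h0 : 0 < j) (hj : j < l) :
    ¬ Cg A (it g j x) x := by
  intro hc
  have key : ∀ a b, Cg A (it g a x) x → Cg A (it g b x) x → Cg A (it g (a.gcd b) x) x := by
    intro a b
    induction a, b using Nat.gcd.induction with
    | H0 b => exact fun _ e => by rwa [Nat.gcd_zero_left]
    | H1 a b _ ih =>
      intro ha hb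
      have m : ∀ k, Cg A (it g (a * k) x) x := fun k => by
        induction k with
        | zero => exact Cg.refl A x
        | succ k ik => rw [mul_add, mul_one, add_comm, it_add]; exact (ik.it h hx a).trans ha
      rw [Nat.gcd_rec]
      refine ih (((m (b / a)).it h hx (b % a)).symm.trans ?_) ha
      rwa [← it_add, Nat.mod_add_div]
  have := key j l hc h1
  rw [(Nat.coprime_of_lt_prime h0.ne' hj hl).symm] at this
  exact h2 this

theorem Rt.int (h : Rt A x) : A.valuation x ≤ 1 := h.choose_spec.int (v_int A _)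

theorem Rt.cg (h : Rt A y) (e : Cg A x y) : Rt A x := h.imp fun _ => e.trans

theorem Rt.eval (h : Rt A x) (hg : ∀ k, Rt A (g.coeff k)) : Rt A (g.eval x) := by
  obtain ⟨n, hn⟩ := h
  rw [eval_eq_sum_range]
  refine Finset.sum_induction _ (Rt A) (fun a b ⟨k, hk⟩ ⟨l, hl⟩ => ⟨k + l, ?_⟩)
    ⟨0, by simpa using Cg.refl A 0⟩ fun k _ => ?_
  · simpa using hk.add hl
  · obtain ⟨c, hc⟩ := hg k
    exact ⟨c * n ^ k, by
      simpa using hc.mul (hn.pow (v_int A n) k) (v_int A c) (by simpa using v_int A (n ^ k))⟩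

theorem Rt.it (h : Rt A x) (hg : ∀ k, Rt A (g.coeff k)) (n : ℕ) : Rt A (it g n x) := by
  induction n with
  | zero => exact h
  | succ n ih => rw [it_succ']; exact ih.eval hg

theorem rt_iff {p : ℕ} (hp : Ov A p) (hx : A.valuation x ≤ 1) : Rt A x ↔ Cg A (x ^ p) x := by
  have := Fact.mk hp.1
  lift x to A using (A.valuation_le_one_iff _).1 hx
  have r : ∀ a b : A, Cg A a b ↔ IsLocalRing.residue A a = IsLocalRing.residue A b := fun a b => by
    rw [← sub_eq_zero, ← map_sub, IsLocalRing.residue_eq_zero_iff, A.valuation_lt_one_iff]; rfl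
  have : CharP (IsLocalRing.ResidueField A) p := (CharP.charP_iff_prime_eq_zero hp.1).2 (by
    simpa using (r p 0).1 (cg_zero.2 hp.2))
  refine Iff.trans ?_ ((Subfield.mem_bot_iff_pow_eq_self _ p).trans
    ((r (x ^ p) x).trans (by rw [map_pow])).symm)
  rw [mem_bot_iff_intCast p]
  exact exists_congr fun n => (r x n).trans (by rw [map_intCast, eq_comm])

theorem pigeon {p : ℕ} (hp : Ov A p) (u : ℕ → E) (hu : ∀ n, Rt A (u n)) :
    ∃ i j, i < j ∧ j ≤ p ∧ Cg A (u i) (u j) := by
  have := Fact.mk hp.1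
  choose c hc using hu
  have k : ∀ i j, (c i : ZMod p) = c j → Cg A (u i) (u j) := fun i j e => by
    obtain ⟨t, ht⟩ := (ZMod.intCast_eq_intCast_iff_dvd_sub _ _ p).1 e
    refine ((hc i).trans (Cg.symm ?_)).trans (hc j).symm
    rw [Cg, ← Int.cast_sub, ht, Int.cast_mul, map_mul, Int.cast_natCast]
    exact mul_lt_one_of_nonneg_of_lt_one_left zero_le hp.2 (v_int A t)
  obtain ⟨i, j, n, e⟩ := Fintype.exists_ne_map_eq_of_card_lt
    (fun i : Fin (p + 1) => (c i : ZMod p)) (by simp)
  rcases lt_or_gt_of_ne n with h | h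
  exacts [⟨i, j, h, Nat.lt_succ_iff.1 j.2, k _ _ e⟩, ⟨j, i, h, Nat.lt_succ_iff.1 i.2, k _ _ e.symm⟩]

theorem smul_eval [Algebra ℚ E] (s : E ≃ₐ[ℚ] E) (hs : ∀ k, s (g.coeff k) = g.coeff k) (x : E) :
    s (g.eval x) = g.eval (s x) := by
  simp [eval_eq_sum_range, hs]

theorem smul_it [Algebra ℚ E] (s : E ≃ₐ[ℚ] E) (hs : ∀ k, s (g.coeff k) = g.coeff k) (n : ℕ)
    (x : E) : s (it g n x) = it g n (s x) := by
  induction n with
  | zero => rfl
  | succ n ih => rw [it_succ', it_succ', smul_eval s hs, ih]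

instance instAlgClosure [CharZero E] [IsAlgClosed E] [Algebra.IsAlgebraic ℚ E] :
    IsAlgClosure ℚ E := ⟨inferInstance, inferInstance⟩

end Pool.Agent.P.MP_68214b_ag.DP
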