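import Pool.Agent.P.MP_68214b_ag.DP0

/-! Places of an algebraic closure of the rationals. -/

open Polynomial NumberField IsDedekindDomain

namespace Pool.Agent.P.MP_68214b_ag.DP

theorem comap_le {E E' : Type} [Field E] [Field E'] (A : ValuationSubring E) (f : E' →+* E)
    (x : E') : (A.comap f).valuation x ≤ 1 ↔ A.valuation (f x) ≤ 1 := by
  rw [ValuationSubring.valuation_le_one_iff, ValuationSubring.valuation_le_one_iff,
    ValuationSubring.mem_comap]

theorem comap_lt {E E' : Type} [Field E] [Field E'] (A : ValuationSubring E) (f : E' →+* E)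
    (x : E') : (A.comap f).valuation x < 1 ↔ A.valuation (f x) < 1 :=
  (Valuation.isEquiv_iff_val_le_one (v := (A.comap f).valuation)
    (v' := A.valuation.comap f)).2 (comap_le A f _) |>.lt_one_iff_lt_one

variable {E : Type} [Field E] [CharZero E] [IsAlgClosed E] [Algebra.IsAlgebraic ℚ E]

instance instNF (F : IntermediateField ℚ E) [FiniteDimensional ℚ F] : NumberField F := ⟨⟩

/-- Q is the centre of A on the number field F -/
def Ctr (A : ValuationSubring E) (F : IntermediateField ℚ E) [FiniteDimensional ℚ F]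
    (Q : HeightOneSpectrum (𝓞 F)) : Prop :=
  (A.valuation.comap (algebraMap F E)).IsEquiv (Q.valuation F)

theorem int_le (A : ValuationSubring E) {x : E} (h : IsIntegral ℤ x) : A.valuation x ≤ 1 := by
  obtain ⟨y, rfl⟩ := (IsIntegrallyClosed.isIntegral_iff (R := A) (K := E)).1 h.tower_top
  exact A.valuation_le_one y

theorem dp1_fac (A : ValuationSubring E) (n : ℕ) (h0 : n ≠ 0) (h : A.valuation (n : E) < 1) :
    ∃ p, p ∣ n ∧ Ov A p := by
  induction n using induction_on_primes with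
  | zero => exact absurd rfl h0
  | one => simp at h
  | prime_mul p a hp ih =>
    by_cases hl : A.valuation (p : E) < 1
    · exact ⟨p, Dvd.intro _ rfl, hp, hl⟩
    · rw [Nat.cast_mul, map_mul, (v_nat A p).eq_of_not_lt hl, one_mul] at h
      obtain ⟨q, h1, h2⟩ := ih (right_ne_zero_of_mul h0) h
      exact ⟨q, h1.mul_left _, h2⟩

theorem dp1_uniq {A : ValuationSubring E} {p q : ℕ} (hp : Ov A p) (hq : Ov A q) : p = q := by
  by_contra hne
  obtain ⟨a, b, h⟩ := Nat.isCoprime_iff_coprime.2 ((Nat.coprime_primes hp.1 hq.1).2 hne)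
  have h1 : (a : E) * p + b * q = 1 := by exact_mod_cast congrArg (Int.cast (R := E)) h
  have : A.valuation ((a : E) * p + b * q) < 1 := A.valuation.map_add_lt
    (by rw [map_mul]; exact mul_lt_one_of_nonneg_of_lt_one_right (v_int A a) zero_le hp.2)
    (by rw [map_mul]; exact mul_lt_one_of_nonneg_of_lt_one_right (v_int A b) zero_le hq.2)
  simp [h1] at this

theorem dp1_mult (Z : Finset E) : ∃ M : ℕ, M ≠ 0 ∧ ∀ A : ValuationSubring E, ∀ z ∈ Z,
    A.valuation (M : E) * A.valuation z ≤ 1 := by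
  have : Algebra.IsAlgebraic ℤ E := (IsFractionRing.comap_isAlgebraic_iff (K := ℚ)).2 inferInstance
  obtain ⟨M, hM, h⟩ := Algebra.IsAlgebraic.exists_integral_multiples ℤ Z
  refine ⟨M.natAbs, by simpa using hM, fun A z hz => ?_⟩
  have h1 := int_le A (h z hz)
  rw [zsmul_eq_mul, map_mul] at h1
  rcases Int.natAbs_eq M with e | e
  · rwa [e, Int.cast_natCast] at h1
  · rwa [e, Int.cast_neg, Valuation.map_neg, Int.cast_natCast] at h1

theorem unit_big {Z : Set E} (hZ : Z.Finite) :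
    ∃ B, ∀ A, Big B A → ∀ z ∈ Z, z ≠ 0 → A.valuation z = 1 := by
  classical
  obtain ⟨M, hM, h⟩ := dp1_mult (hZ.toFinset ∪ hZ.toFinset.image fun z => z⁻¹)
  refine ⟨M, fun A ⟨p, hp, hA⟩ z hz h0 => ?_⟩
  have h1 : A.valuation (M : E) = 1 := (v_nat A M).eq_of_not_lt fun hl => by
    obtain ⟨q, hq, hq'⟩ := dp1_fac A M hM hl
    have := Nat.le_of_dvd (Nat.pos_of_ne_zero hM) hq
    have := dp1_uniq hA hq'
    omega
  have h2 := h A z (by simp [hz])
  have h3 := h A z⁻¹ (Finset.mem_union_right _ (Finset.mem_image_of_mem _ (by simpa using hz)))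
  rw [h1, one_mul] at h2 h3
  rw [map_inv₀, inv_le_one₀ (by simpa [zero_lt_iff] using h0)] at h3
  exact le_antisymm h2 h3

theorem ov_of_lt {A : ValuationSubring E} {x : E} (h0 : x ≠ 0) (h : A.valuation x < 1) :
    ∃ p, Ov A p := by
  obtain ⟨M, hM, h1⟩ := dp1_mult {x⁻¹}
  have h2 := h1 A _ (Finset.mem_singleton_self _)
  rw [map_inv₀, mul_inv_le_iff₀ (by simpa [zero_lt_iff] using h0), one_mul] at h2
  exact (dp1_fac A M hM (h2.trans_lt h)).imp fun _ => And.right

theorem Ctr.mem {A : ValuationSubring E} {F : IntermediateField ℚ E} [FiniteDimensional ℚ F]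
    {Q : HeightOneSpectrum (𝓞 F)} (h : Ctr A F Q) (x : 𝓞 F) :
    x ∈ Q.asIdeal ↔ A.valuation ((x : F) : E) < 1 := by
  rw [← Q.valuation_lt_one_iff_mem (K := F)]
  exact h.lt_one_iff_lt_one.symm

/-- the ideal cut out by a place -/
noncomputable def dp1_id (A : ValuationSubring E) (F : IntermediateField ℚ E) : Ideal (𝓞 F) :=
  (IsLocalRing.maximalIdeal A).comap (((algebraMap F E).comp (algebraMap (𝓞 F) F)).codRestrict A
    fun x => (A.valuation_le_one_iff _).1 (int_le A (x.2.map (algebraMap F E).toIntAlgHom)))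

theorem dp1_mem (A : ValuationSubring E) (F : IntermediateField ℚ E) (x : 𝓞 F) :
    x ∈ dp1_id A F ↔ A.valuation ((x : F) : E) < 1 := by
  rw [dp1_id, Ideal.mem_comap, A.valuation_lt_one_iff]; rfl

theorem dp1_le (A : ValuationSubring E) {F : IntermediateField ℚ E} (x : 𝓞 F) :
    A.valuation ((x : F) : E) ≤ 1 := int_le A (x.2.map (algebraMap F E).toIntAlgHom)

theorem dp1_ctr {A : ValuationSubring E} {F : IntermediateField ℚ E} [FiniteDimensional ℚ F]
    {Q : HeightOneSpectrum (𝓞 F)} (h : ∀ x, x ∈ Q.asIdeal ↔ A.valuation ((x : F) : E) < 1) :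
    Ctr A F Q := by
  have key : ∀ y : F, Q.valuation F y ≤ 1 → ∃ n : 𝓞 F, Q.valuation F y = Q.valuation F n ∧
      A.valuation (y : E) = A.valuation ((n : F) : E) := fun y hy => by
    obtain ⟨n, d, e⟩ := Q.exists_primeCompl_mul_eq_of_integer y hy
    have h1 : A.valuation (((d : 𝓞 F) : F) : E) = 1 :=
      (dp1_le A _).eq_of_not_lt fun hl => d.2 ((h _).2 hl)
    refine ⟨n, ?_, ?_⟩
    · have := congrArg (Q.valuation F) e
      rwa [map_mul, Q.valuation_eq_one_iff_notMem.2 d.2, mul_one] at this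
    · have : (y : E) * (((d : 𝓞 F) : F) : E) = ((n : F) : E) := congrArg Subtype.val e
      rw [← this, map_mul, h1, mul_one]
  refine Valuation.isEquiv_iff_val_le_one.2 fun {y} => ⟨fun hy => ?_, fun hy => ?_⟩
  · by_contra hc
    have h0 : y ≠ 0 := by rintro rfl; simp at hc
    have h1 : Q.valuation F y⁻¹ < 1 := by
      rw [map_inv₀]; exact inv_lt_one_of_one_lt₀ (not_le.1 hc)
    obtain ⟨n, e1, e2⟩ := key _ h1.le
    rw [e1, Q.valuation_lt_one_iff_mem, h, ← e2, IntermediateField.coe_inv, map_inv₀,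
      inv_lt_one₀ (by simpa [zero_lt_iff] using h0)] at h1
    exact absurd hy (not_le.2 h1)
  · obtain ⟨n, -, e2⟩ := key y hy
    exact e2.le.trans (dp1_le A n)

theorem dp1_place {R : Type} [CommRing R] (φ : R →+* E) (hφ : Function.Injective φ) {I : Ideal R}
    (hI : I ≠ ⊤) : ∃ A : ValuationSubring E, ∀ x ∈ I, A.valuation (φ x) < 1 := by
  have hb : Function.Bijective φ.rangeRestrict :=
    ⟨fun a b e => hφ (congrArg Subtype.val e), φ.rangeRestrict_surjective⟩
  obtain ⟨A, -, h⟩ := Ideal.image_subset_nonunits_valuationSubring (I.map φ.rangeRestrict)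
    (by rwa [Ne, Ideal.map_eq_top_of_bijective _ hb])
  exact ⟨A, fun x hx => A.mem_nonunits_iff.1 (h ⟨_, Ideal.mem_map_of_mem _ hx, rfl⟩)⟩

theorem center (F : IntermediateField ℚ E) [FiniteDimensional ℚ F] {A : ValuationSubring E}
    {p : ℕ} (h : Ov A p) : ∃ Q : HeightOneSpectrum (𝓞 F), (p : 𝓞 F) ∈ Q.asIdeal ∧ Ctr A F Q := by
  have hp : (p : 𝓞 F) ∈ dp1_id A F := (dp1_mem A F _).2 (by simpa using h.2)
  refine ⟨⟨dp1_id A F, Ideal.comap_isPrime _ _, fun e => ?_⟩, hp, dp1_ctr (dp1_mem A F)⟩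
  rw [e, Ideal.mem_bot] at hp
  exact h.1.ne_zero (by exact_mod_cast hp)

theorem place_of (F : IntermediateField ℚ E) [FiniteDimensional ℚ F]
    (Q : HeightOneSpectrum (𝓞 F)) :
    ∃ (A : ValuationSubring E) (p : ℕ), Ov A p ∧ (p : 𝓞 F) ∈ Q.asIdeal ∧ Ctr A F Q := by
  obtain ⟨A, hA⟩ := dp1_place ((algebraMap F E).comp (algebraMap (𝓞 F) F))
    ((algebraMap F E).injective.comp (IsFractionRing.injective _ _)) Q.isPrime.ne_top
  have e : Q.asIdeal = dp1_id A F := Q.isMaximal.eq_of_le (Ideal.comap_isPrime _ _).ne_top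
    fun x hx => (dp1_mem A F x).2 (hA x hx)
  have h : ∀ x, x ∈ Q.asIdeal ↔ A.valuation ((x : F) : E) < 1 := fun x => e ▸ dp1_mem A F x
  obtain ⟨p, -, hp⟩ := dp1_fac A _ (Ideal.absNorm_eq_zero_iff.not.2 Q.ne_bot)
    (by simpa using (h _).1 (Ideal.absNorm_mem _))
  exact ⟨A, p, hp, (h _).2 (by simpa using hp.2), dp1_ctr h⟩

theorem exists_ov {p : ℕ} (hp : p.Prime) : ∃ A : ValuationSubring E, Ov A p := by
  obtain ⟨A, hA⟩ := dp1_place (Int.castRingHom E) Int.cast_injective (I := Ideal.span {(p : ℤ)})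
    (Ideal.span_singleton_ne_top (Nat.prime_iff_prime_int.1 hp).not_isUnit)
  exact ⟨A, hp, by simpa using hA _ (Ideal.mem_span_singleton_self _)⟩

/-- the valuation is discrete on a number field -/
theorem disc (F : IntermediateField ℚ E) [FiniteDimensional ℚ F] {A : ValuationSubring E}
    {p : ℕ} (h : Ov A p) {κ : E} (hκ : κ ∈ F) (h0 : κ ≠ 0) : ∃ C : ℕ, ∀ s : Multiset E,
      (∀ y ∈ s, y ∈ F ∧ A.valuation y < 1) → A.valuation κ ≤ A.valuation s.prod →
        s.card ≤ C := by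
  obtain ⟨Q, -, hQ⟩ := center F h
  have key : ∀ s : Multiset E, (∀ y ∈ s, y ∈ F ∧ A.valuation y < 1) →
      ∃ z : F, (z : E) = s.prod ∧ Q.valuation F z ≤ WithZero.exp (-(s.card : ℤ)) := by
    intro s
    induction s using Multiset.induction_on with
    | empty => exact fun _ => ⟨1, by simp, by simp⟩
    | cons a s ih =>
      intro hs
      obtain ⟨z, e, hz⟩ := ih fun y hy => hs y (Multiset.mem_cons_of_mem hy)
      obtain ⟨ha, ha'⟩ := hs a (Multiset.mem_cons_self _ _)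
      have h1 : Q.valuation F ⟨a, ha⟩ < 1 := hQ.lt_one_iff_lt_one.1 ha'
      have h2 : Q.valuation F ⟨a, ha⟩ ≤ WithZero.exp (-1) :=
        (WithZero.lt_mul_exp_iff_le WithZero.exp_ne_zero).1 (by simpa [← WithZero.exp_add] using h1)
      refine ⟨⟨a, ha⟩ * z, by simp [e], ?_⟩
      rw [map_mul, Multiset.card_cons, Nat.cast_succ, neg_add_rev, WithZero.exp_add]
      exact mul_le_mul' h2 hz
  refine ⟨(-WithZero.log (Q.valuation F ⟨κ, hκ⟩)).toNat, fun s hs hl => ?_⟩
  obtain ⟨z, e, hz⟩ := key s hs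
  have h1 : Q.valuation F ⟨κ, hκ⟩ ≤ Q.valuation F z := (hQ _ _).1 (by rwa [← e] at hl)
  have h2 := (WithZero.log_le_iff_le_exp ((Q.valuation F).ne_zero_iff.2
    (fun e => h0 (congrArg Subtype.val e)))).2 (h1.trans hz)
  omega

/-- the residue field of a number field is finite -/
theorem fin_res (F : IntermediateField ℚ E) [FiniteDimensional ℚ F] {A : ValuationSubring E}
    {p : ℕ} (h : Ov A p) (u : ℕ → E) (hu : ∀ n, u n ∈ F ∧ A.valuation (u n) ≤ 1) :
    ∃ i j, i < j ∧ Cg A (u i) (u j) := by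
  obtain ⟨Q, -, hQ⟩ := center F h
  have key : ∀ n, ∃ c : 𝓞 F, Cg A (u n) ((c : F) : E) := fun n => by
    obtain ⟨a, d, e⟩ := Q.exists_primeCompl_mul_eq_of_integer (⟨u n, (hu n).1⟩ : F)
      (hQ.le_one_iff_le_one.1 (hu n).2)
    obtain ⟨d', i, hi, e'⟩ := Q.isMaximal.exists_inv d.2
    have e1 : u n * (((d : 𝓞 F) : F) : E) = ((a : F) : E) := congrArg Subtype.val e
    have e2 : ((d' : F) : E) * (((d : 𝓞 F) : F) : E) + ((i : F) : E) = 1 := by
      exact_mod_cast congrArg (fun x : 𝓞 F => ((x : F) : E)) e'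
    refine ⟨d' * a, ?_⟩
    have e3 : u n - (((d' * a : 𝓞 F) : F) : E) = u n * ((i : F) : E) := by
      push_cast
      linear_combination (-u n) * e2 + ((d' : F) : E) * e1
    rw [Cg, e3, map_mul]
    exact mul_lt_one_of_nonneg_of_lt_one_right (hu n).2 zero_le ((hQ.mem i).1 hi)
  choose c hc using key
  have := Ideal.finiteQuotientOfFreeOfNeBot Q.asIdeal Q.ne_bot
  obtain ⟨i, j, hij, e⟩ := Finite.exists_ne_map_eq_of_infinite
    fun n => Ideal.Quotient.mk Q.asIdeal (c n)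
  have h1 : Cg A (u i) (u j) := by
    have h2 := (hQ.mem _).1 (Ideal.Quotient.eq.1 e)
    push_cast at h2
    exact (hc i).trans (Cg.trans h2 (hc j).symm)
  rcases hij.lt_or_gt with hl | hl
  · exact ⟨i, j, hl, h1⟩
  · exact ⟨j, i, hl, h1.symm⟩

theorem exists_gal {Z : Set E} (hZ : Z.Finite) : ∃ L : IntermediateField ℚ E,
    FiniteDimensional ℚ L ∧ IsGalois ℚ L ∧ ∀ z ∈ Z, z ∈ L := by
  have := hZ.to_subtype
  exact ⟨(FiniteGaloisIntermediateField.adjoin ℚ Z).toIntermediateField, inferInstance,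
    (FiniteGaloisIntermediateField.adjoin ℚ Z).isGalois,
    fun z hz => FiniteGaloisIntermediateField.subset_adjoin ℚ Z hz⟩

theorem exists_gal' (F : IntermediateField ℚ E) [FiniteDimensional ℚ F] {Z : Set E}
    (hZ : Z.Finite) : ∃ L : IntermediateField ℚ E,
      FiniteDimensional ℚ L ∧ IsGalois ℚ L ∧ F ≤ L ∧ ∀ z ∈ Z, z ∈ L := by
  obtain ⟨L, h1, h2, h3⟩ := exists_gal (hZ.union
    (Set.finite_range fun i => ((Module.finBasis ℚ F i : F) : E)))
  refine ⟨L, h1, h2, fun x hx => ?_, fun z hz => h3 z (Or.inl hz)⟩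
  have e := congrArg F.val ((Module.finBasis ℚ F).sum_repr ⟨x, hx⟩)
  rw [map_sum] at e
  rw [show x = _ from e.symm]
  exact sum_mem fun i _ => by
    rw [Rat.smul_def, map_mul, map_ratCast]
    exact mul_mem (SubfieldClass.ratCast_mem L _) (h3 _ (Or.inr ⟨i, rfl⟩))

theorem mem_of_fixed (K : IntermediateField ℚ E) {x : E}
    (h : ∀ s ∈ K.fixingSubgroup, s x = x) : x ∈ K := by
  rw [← InfiniteGalois.fixedField_fixingSubgroup K]
  exact fun s => h s.1 s.2

theorem fin_conj {Z : Set E} (hZ : Z.Finite) :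
    {y | ∃ s : E ≃ₐ[ℚ] E, ∃ z ∈ Z, s z = y}.Finite := by
  refine (hZ.biUnion fun z _ => rootSet_finite (minpoly ℚ z) E).subset ?_
  rintro _ ⟨s, z, hz, rfl⟩
  refine Set.mem_biUnion hz (mem_rootSet.2 ⟨minpoly.ne_zero (Algebra.IsIntegral.isIntegral z), ?_⟩)
  rw [aeval_algHom_apply, minpoly.aeval, map_zero]

theorem exists_pow_fix {Z : Set E} (hZ : Z.Finite) (s : E ≃ₐ[ℚ] E) :
    ∃ M, 0 < M ∧ ∀ z ∈ Z, (s ^ M) z = z := by
  have key : ∀ z : E, ∃ M, 0 < M ∧ s ^ M ∈ MulAction.stabilizer (E ≃ₐ[ℚ] E) z := fun z => by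
    obtain ⟨a, b, hab, e⟩ := Set.Finite.exists_lt_map_eq_of_forall_mem (f := fun n : ℕ => (s ^ n) z)
      (fun n => by exact ⟨_, z, rfl, rfl⟩) (fin_conj (Set.finite_singleton z))
    obtain ⟨c, rfl⟩ := Nat.exists_eq_add_of_lt hab
    refine ⟨c + 1, c.succ_pos, (s ^ a).injective ?_⟩
    rw [add_assoc, pow_add] at e
    exact e.symm
  choose M h1 h2 using key
  refine ⟨∏ z ∈ hZ.toFinset, M z, Finset.prod_pos fun z _ => h1 z, fun z hz => ?_⟩
  obtain ⟨c, hc⟩ := Finset.dvd_prod_of_mem M (hZ.mem_toFinset.2 hz)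
  rw [hc, pow_mul]
  exact pow_mem (h2 z) c

end Pool.Agent.P.MP_68214b_ag.DP
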