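import Pool.Agent.P.MP_68214b_ag.DSSml

/-! Orbits with unit Jacobians. -/

open Filter MvPolynomial

namespace Pool.Agent.P.MP_68214b_ag.DP

section Ultra

variable {Ω : Type} [NormedField Ω] [IsUltrametricDist Ω] {J : Type}

theorem dp10_O : ∃ O : Subring Ω, ∀ a, a ∈ O ↔ ‖a‖ ≤ 1 :=
  ⟨{ carrier := {a | ‖a‖ ≤ 1}
     mul_mem' := fun {a b} ha hb => (norm_mul_le a b).trans (mul_le_one₀ ha (norm_nonneg _) hb)
     one_mem' := norm_one.le
     add_mem' := fun {a b} ha hb => (IsUltrametricDist.norm_add_le_max a b).trans (max_le ha hb)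
     zero_mem' := by simp
     neg_mem' := fun {a} ha => by simpa using ha }, fun _ => Iff.rfl⟩

omit [IsUltrametricDist Ω] in
theorem dp10_der (O : Subring Ω) {P : MvPolynomial J Ω} (hP : ∀ m, coeff m P ∈ O) {u : J → Ω}
    (hu : ∀ j, u j ∈ O) (j : J) : eval u (pderiv j P) ∈ O :=
  eval_mem (fun m _ => by
    rw [coeff_pderiv]
    exact O.mul_mem (hP _) (O.add_mem (natCast_mem O _) O.one_mem)) hu

omit [IsUltrametricDist Ω] in
theorem dp10_jet [Fintype J] [DecidableEq J] (O : Subring Ω) (S : Subring (ℕ → Ω))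
    (hc : ∀ c ∈ O, (fun _ => c) ∈ S) {π : Ω} (hπ : π ∈ O) {u : J → Ω} (hu : ∀ j, u j ∈ O)
    {y : J → ℕ → Ω} (hy : ∀ j, y j ∈ S) {P : MvPolynomial J Ω} (hP : ∀ m, coeff m P ∈ O) :
    ∃ r ∈ S, ∀ t, eval (fun j => u j + π * y j t) P =
      eval u P + π * (∑ j, eval u (pderiv j P) * y j t + π * r t) := by
  obtain ⟨P, rfl⟩ : P ∈ Set.range (MvPolynomial.map O.subtype) := by
    rw [mem_range_map_iff_coeffs_subset]
    intro a ha
    obtain ⟨m, -, rfl⟩ := mem_coeffs_iff.1 ha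
    exact ⟨⟨_, hP m⟩, rfl⟩
  clear hP
  induction P using MvPolynomial.induction_on with
  | C a => exact ⟨0, S.zero_mem, fun t => by simp⟩
  | add P Q hP hQ =>
    obtain ⟨r, a1, a2⟩ := hP
    obtain ⟨r', b1, b2⟩ := hQ
    refine ⟨r + r', S.add_mem a1 b1, fun t => ?_⟩
    simp only [map_add, a2, b2, add_mul, Finset.sum_add_distrib, Pi.add_apply]
    ring
  | mul_X P i hP =>
    obtain ⟨r, a1, a2⟩ := hP
    have hd : ∀ j, eval u (pderiv j (MvPolynomial.map O.subtype P)) ∈ O :=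
      dp10_der O (fun m => by rw [coeff_map]; exact (coeff m P).2) hu
    have h1 : (∑ j, (fun _ => eval u (pderiv j (MvPolynomial.map O.subtype P))) * y j) ∈ S :=
      S.sum_mem fun j _ => S.mul_mem (hc _ (hd j)) (hy j)
    refine ⟨_, S.add_mem (S.mul_mem h1 (hy i)) (S.mul_mem a1 (S.add_mem (hc _ (hu i))
      (S.mul_mem (hc _ hπ) (hy i)))), fun t => ?_⟩
    have h2 : ∑ j, eval u (pderiv j (MvPolynomial.map O.subtype P * X i)) * y j t =
        (∑ j, eval u (pderiv j (MvPolynomial.map O.subtype P)) * y j t) * u i +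
          eval u (MvPolynomial.map O.subtype P) * y i t := by
      have h3 : ∀ j, eval u (pderiv j (MvPolynomial.map O.subtype P * X i)) * y j t =
          eval u (pderiv j (MvPolynomial.map O.subtype P)) * y j t * u i +
            if j = i then eval u (MvPolynomial.map O.subtype P) * y j t else 0 := fun j => by
        rw [pderiv_mul, pderiv_X, map_add, map_mul, map_mul, eval_X, Pi.single_apply]
        by_cases h : j = i
        · rw [if_pos h, if_pos h.symm, map_one]; ring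
        · rw [if_neg h, if_neg (Ne.symm h), map_zero]; ring
      simp only [h3, Finset.sum_add_distrib, Finset.sum_ite_eq', Finset.mem_univ, if_true,
        Finset.sum_mul]
    simp only [map_mul, map_X, eval_X, a2, h2, Pi.add_apply, Pi.mul_apply, Finset.sum_apply]
    ring

theorem dp10_diff {π : Ω} (hπ : ‖π‖ < 1) {y : J → ℕ → Ω} (S : Subring (ℕ → Ω))
    (hS : S = Subring.closure ({s | ∃ c, ‖c‖ ≤ 1 ∧ s = fun _ => c} ∪ Set.range y))
    (h1 : ∀ i, ‖y i 0‖ ≤ 1) (hy : ∀ i, ∃ s ∈ S, ∀ t, y i (t + 1) = y i t + π * s t)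
    {z : J → ℕ → Ω} (hz : ∀ i, z i ∈ S) (P : MvPolynomial J Ω) :
    ∃ j : ℕ, ∀ k, ‖(fwdDiff 1)^[k] (fun t => π ^ j * eval (z · t) P) 0‖ ≤ ‖π‖ ^ k := by
  have hc : ∀ c, ‖c‖ ≤ 1 → (fun _ => c) ∈ S := fun c h =>
    hS ▸ Subring.subset_closure (Or.inl ⟨c, h, rfl⟩)
  have hp := hc π hπ.le
  have key : ∀ s ∈ S, ‖s 0‖ ≤ 1 ∧ ∃ s' ∈ S, ∀ t, s (t + 1) = s t + π * s' t := by
    intro s hs
    rw [hS] at hs
    induction hs using Subring.closure_induction with
    | mem s h =>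
      rcases h with ⟨c, h, rfl⟩ | ⟨i, rfl⟩
      · exact ⟨h, 0, S.zero_mem, fun _ => by simp⟩
      · exact ⟨h1 i, hy i⟩
    | zero => exact ⟨by simp, 0, S.zero_mem, fun _ => by simp⟩
    | one => exact ⟨by simp, 0, S.zero_mem, fun _ => by simp⟩
    | add s u _ _ hs hu =>
      obtain ⟨a1, s', a2, a3⟩ := hs
      obtain ⟨b1, u', b2, b3⟩ := hu
      exact ⟨(IsUltrametricDist.norm_add_le_max _ _).trans (max_le a1 b1),
        _, S.add_mem a2 b2, fun t => by simp only [Pi.add_apply, a3, b3]; ring⟩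
    | neg s _ hs =>
      obtain ⟨a1, s', a2, a3⟩ := hs
      exact ⟨by simpa using a1, _, S.neg_mem a2, fun t => by simp only [Pi.neg_apply, a3]; ring⟩
    | mul s u hs' hu' hs hu =>
      obtain ⟨a1, s', a2, a3⟩ := hs
      obtain ⟨b1, u', b2, b3⟩ := hu
      rw [← hS] at hs' hu'
      exact ⟨(norm_mul_le _ _).trans (mul_le_one₀ a1 (norm_nonneg _) b1),
        _, S.add_mem (S.add_mem (S.mul_mem a2 hu') (S.mul_mem hs' b2))
          (S.mul_mem hp (S.mul_mem a2 b2)),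
        fun t => by simp only [Pi.mul_apply, Pi.add_apply, a3, b3]; ring⟩
  have iter : ∀ k, ∀ s ∈ S, ‖(fwdDiff 1)^[k] s 0‖ ≤ ‖π‖ ^ k := by
    intro k
    induction k with
    | zero => exact fun s hs => by simpa using (key s hs).1
    | succ k ih =>
      intro s hs
      obtain ⟨-, s', a2, a3⟩ := key s hs
      have e : fwdDiff 1 s = π • s' := by
        funext t
        simp [fwdDiff, a3]
      rw [Function.iterate_succ_apply, e, fwdDiff_iter_const_smul, Pi.smul_apply, norm_smul,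
        pow_succ']
      exact mul_le_mul_of_nonneg_left (ih s' a2) (norm_nonneg _)
  suffices h : ∃ j : ℕ, (fun t => π ^ j * eval (z · t) P) ∈ S from
    h.imp fun j hj k => iter k _ hj
  induction P using MvPolynomial.induction_on with
  | C a =>
    have h := ((tendsto_pow_atTop_nhds_zero_of_norm_lt_one hπ).mul_const a).norm
    rw [zero_mul, norm_zero] at h
    obtain ⟨j, hj⟩ := (h.eventually (eventually_le_nhds zero_lt_one)).exists
    exact ⟨j, by simpa using hc _ hj⟩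
  | add P Q hP hQ =>
    obtain ⟨j, hj⟩ := hP
    obtain ⟨k, hk⟩ := hQ
    refine ⟨j + k, (congrArg (· ∈ S) ?_).mp
      (S.add_mem (S.mul_mem (S.pow_mem hp k) hj) (S.mul_mem (S.pow_mem hp j) hk))⟩
    funext t
    simp only [map_add, Pi.add_apply, Pi.mul_apply, Pi.pow_apply]
    ring
  | mul_X P i hP =>
    obtain ⟨j, hj⟩ := hP
    refine ⟨j, (congrArg (· ∈ S) ?_).mp (S.mul_mem hj (hz i))⟩
    funext t
    simp [mul_assoc]

theorem dp10_core [Fintype J] [DecidableEq J] {π : Ω} (hπ : ‖π‖ < 1) (h0 : π ≠ 0) {l n : ℕ}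
    (Φ : ℕ → J → MvPolynomial J Ω) (hper : ∀ m, Φ (m + l) = Φ m)
    (hΦ : ∀ n j m, ‖coeff m (Φ n j)‖ ≤ 1) (x : ℕ → J → Ω)
    (hx : ∀ n j, x (n + 1) j = eval (x n) (Φ n j)) (hx1 : ∀ n j, ‖x n j‖ ≤ 1)
    (N : ℕ → Matrix J J Ω) (hN0 : N 0 = 1)
    (hN : ∀ s, N (s + 1) = (Matrix.of fun i j => eval (x (n + s)) (pderiv j (Φ (n + s) i))) * N s)
    (hN1 : ∀ s i j, ‖N s i j‖ ≤ 1) (h1 : ∀ j, ‖(x (n + l) j - x n j) / π ^ 2‖ ≤ 1)
    (h2 : ∀ i j, ‖(N l - 1) i j / π‖ ≤ 1) (s : ℕ) (P : MvPolynomial J Ω) :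
    ∃ j : ℕ, ∀ k, ‖(fwdDiff 1)^[k] (fun t => π ^ j * eval (x (n + s + l * t)) P) 0‖ ≤ ‖π‖ ^ k := by
  obtain ⟨O, hO⟩ := dp10_O (Ω := Ω)
  obtain ⟨Y, hY⟩ : ∃ Y : J → ℕ → Ω, ∀ j t, Y j t = (x (n + l * t) j - x n j) / π :=
    ⟨_, fun _ _ => rfl⟩
  obtain ⟨S, hS⟩ : ∃ S : Subring (ℕ → Ω),
      S = Subring.closure ({s | ∃ c, ‖c‖ ≤ 1 ∧ s = fun _ => c} ∪ Set.range Y) := ⟨_, rfl⟩
  have hc : ∀ c, ‖c‖ ≤ 1 → (fun _ => c) ∈ S := fun c h =>
    hS ▸ Subring.subset_closure (Or.inl ⟨c, h, rfl⟩)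
  have hYS : ∀ i, Y i ∈ S := fun i => hS ▸ Subring.subset_closure (Or.inr ⟨i, rfl⟩)
  have hp := hc π hπ.le
  have hper' : ∀ m t, Φ (m + l * t) = Φ m := fun m t => by
    induction t with
    | zero => rfl
    | succ t ih => rw [mul_add, mul_one, ← add_assoc, hper, ih]
  have hlin : ∀ (A : Matrix J J Ω) (y : J → ℕ → Ω), (∀ i j, ‖A i j‖ ≤ 1) → (∀ i, y i ∈ S) → ∀ j,
      (fun t => ∑ i, A j i * y i t) ∈ S := fun A y hA hy j => by
    refine (congrArg (· ∈ S) ?_).mp
      (S.sum_mem (t := Finset.univ) fun i _ => S.mul_mem (hc _ (hA j i)) (hy i))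
    funext t
    simp
  have step : ∀ s, ∃ r : J → ℕ → Ω, (∀ j, r j ∈ S) ∧ ∀ t j, x (n + s + l * t) j =
      x (n + s) j + π * (∑ i, N s j i * Y i t + π * r j t) := by
    intro s
    induction s with
    | zero =>
      refine ⟨0, fun _ => S.zero_mem, fun t j => ?_⟩
      simp only [hN0, Matrix.one_apply, ite_mul, one_mul, zero_mul, Finset.sum_ite_eq,
        Finset.mem_univ, if_true, Pi.zero_apply, mul_zero, add_zero, hY]
      field_simp
      ring
    | succ s ih =>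
      obtain ⟨r, a1, a2⟩ := ih
      have hy : ∀ j, (fun t => ∑ i, N s j i * Y i t + π * r j t) ∈ S := fun j =>
        S.add_mem (hlin _ _ (hN1 s) hYS j) (S.mul_mem hp (a1 j))
      choose r' b1 b2 using fun j => dp10_jet O S (fun c h => hc c ((hO c).1 h)) ((hO π).2 hπ.le)
        (fun i => (hO _).2 (hx1 (n + s) i)) hy (P := Φ (n + s) j) fun m => (hO _).2 (hΦ _ _ _)
      refine ⟨fun j => (fun t => ∑ i, (Matrix.of fun i j => eval (x (n + s))
        (pderiv j (Φ (n + s) i))) j i * r i t) + r' j, fun j => S.add_mem (hlin _ _ (fun i k =>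
          (hO _).1 (dp10_der O (fun m => (hO _).2 (hΦ _ _ _)) (fun i => (hO _).2 (hx1 _ i)) k))
            a1 j) (b1 j), fun t j => ?_⟩
      rw [show n + (s + 1) + l * t = n + s + l * t + 1 by ring, hx, hper', funext (a2 t), b2,
        ← add_assoc n, hx, hN]
      simp only [Matrix.mul_apply, Matrix.of_apply, Pi.add_apply, mul_add, Finset.sum_add_distrib,
        Finset.sum_mul, Finset.mul_sum]
      rw [Finset.sum_comm]
      simp only [mul_assoc, mul_left_comm π, add_assoc]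
  refine dp10_diff hπ S hS (fun i => by simp [hY]) (fun j => ?_)
    (z := fun j t => x (n + s + l * t) j) (fun j => ?_) P
  · obtain ⟨r, a1, a2⟩ := step l
    refine ⟨_, S.add_mem (S.add_mem (hc _ (h1 j))
      (hlin (Matrix.of fun i k => (N l - 1) i k / π) Y h2 hYS j)) (a1 j), fun t => ?_⟩
    have e : ∑ i, (N l - 1) j i / π * Y i t = (∑ i, N l j i * Y i t - Y j t) / π := by
      simp only [Matrix.sub_apply, Matrix.one_apply, div_mul_eq_mul_div, sub_mul, ite_mul, one_mul,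
        zero_mul, ← Finset.sum_div, Finset.sum_sub_distrib, Finset.sum_ite_eq, Finset.mem_univ,
        if_true]
    rw [hY j (t + 1), show n + l * (t + 1) = n + l + l * t by ring, a2]
    simp only [Pi.add_apply, Matrix.of_apply, e]
    field_simp
    ring
  · obtain ⟨r, a1, a2⟩ := step s
    refine (congrArg (· ∈ S) (funext fun t => (a2 t j).symm)).mp
      (S.add_mem (hc _ (hx1 (n + s) j)) (S.mul_mem hp
        (S.add_mem (hlin _ _ (hN1 s) hYS j) (S.mul_mem hp (a1 j)))))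

end Ultra

theorem dp10_pair {p : ℕ} [Fact p.Prime] (K : IntermediateField ℚ_[p] (PadicAlgCl p))
    [FiniteDimensional ℚ_[p] K] {I : Type} [Fintype I] (u : ℕ → I → PadicAlgCl p)
    (hK : ∀ n i, u n i ∈ K) (hu : ∀ n i, ‖u n i‖ ≤ 1) {ε : ℝ} (hε : 0 < ε) :
    ∃ n m, n < m ∧ ∀ i, ‖u m i - u n i‖ ≤ ε := by
  let V : Submodule ℚ_[p] (PadicAlgCl p) := K.toSubmodule
  have : FiniteDimensional ℚ_[p] V := ‹FiniteDimensional ℚ_[p] K›
  have : ProperSpace V := FiniteDimensional.proper ℚ_[p] V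
  obtain ⟨a, -, φ, h1, h2⟩ := tendsto_subseq_of_bounded
    (Metric.isBounded_closedBall (x := (0 : I → V)) (r := 1))
    (x := fun n i => ⟨u n i, hK n i⟩) fun n =>
      mem_closedBall_zero_iff.2 ((pi_norm_le_iff_of_nonneg zero_le_one).2 (hu n))
  obtain ⟨N, hN⟩ := Metric.cauchySeq_iff'.1 h2.cauchySeq ε hε
  refine ⟨φ N, φ (N + 1), h1 (Nat.lt_succ_self N), fun i => ?_⟩
  have h3 := (dist_le_pi_dist _ _ i).trans (hN (N + 1) (Nat.le_succ N)).le
  rwa [dist_eq_norm] at h3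

theorem pad {p : ℕ} [Fact p.Prime] {J : Type} [Fintype J] [DecidableEq J] {q : ℕ} (hq : 0 < q)
    (Φ : ℕ → J → MvPolynomial J (PadicAlgCl p)) (hper : ∀ n, Φ (n + q) = Φ n)
    (hΦ : ∀ n j m, ‖coeff m (Φ n j)‖ ≤ 1) (x : ℕ → J → PadicAlgCl p)
    (hx : ∀ n j, x (n + 1) j = eval (x n) (Φ n j)) (h0 : ∀ j, ‖x 0 j‖ ≤ 1)
    (hJ : ∀ n, ‖(Matrix.of fun i j => eval (x n) (pderiv j (Φ n i))).det‖ = 1) :
    ∃ l, 0 < l ∧ ∃ n0, ∀ c, n0 ≤ c → ∀ P : MvPolynomial J (PadicAlgCl p),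
      (∃ᶠ t in atTop, eval (x (c + l * t)) P = 0) → ∀ t, eval (x (c + l * t)) P = 0 := by
  obtain ⟨O, hO⟩ := dp10_O (Ω := PadicAlgCl p)
  obtain ⟨N, hN0, hN⟩ : ∃ N : ℕ → ℕ → Matrix J J (PadicAlgCl p), (∀ n, N n 0 = 1) ∧
      ∀ n s, N n (s + 1) =
        (Matrix.of fun i j => eval (x (n + s)) (pderiv j (Φ (n + s) i))) * N n s :=
    ⟨fun n s => Nat.rec 1 (fun s A =>
      (Matrix.of fun i j => eval (x (n + s)) (pderiv j (Φ (n + s) i))) * A) s,
      fun _ => rfl, fun _ _ => rfl⟩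
  have hmem : ∀ T : Subring (PadicAlgCl p), (∀ n j m, coeff m (Φ n j) ∈ T) → (∀ j, x 0 j ∈ T) →
      (∀ n j, x n j ∈ T) ∧ ∀ n s i j, N n s i j ∈ T := by
    intro T t1 t2
    have t3 : ∀ n j, x n j ∈ T := by
      intro n
      induction n with
      | zero => exact t2
      | succ n ih => exact fun j => by rw [hx]; exact eval_mem (fun m _ => t1 _ _ _) ih
    refine ⟨t3, fun n s => ?_⟩
    induction s with
    | zero =>
      intro i j
      rw [hN0, Matrix.one_apply]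
      split_ifs
      exacts [T.one_mem, T.zero_mem]
    | succ s ih =>
      intro i j
      rw [hN, Matrix.mul_apply]
      exact T.sum_mem fun k _ => T.mul_mem (dp10_der T (t1 _ _) (t3 _) k) (ih k j)
  obtain ⟨x1, N1⟩ := hmem O (fun n j m => (hO _).2 (hΦ n j m)) fun j => (hO _).2 (h0 j)
  have hper' : ∀ m t, Φ (m + q * t) = Φ m := fun m t => by
    induction t with
    | zero => rfl
    | succ t ih => rw [mul_add, mul_one, ← add_assoc, hper, ih]
  let Z : Set (PadicAlgCl p) :=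
    (⋃ a : Fin q × J, ((Φ a.1 a.2).coeffs : Set (PadicAlgCl p))) ∪ Set.range (x 0)
  have : Finite Z := ((Set.finite_iUnion fun _ => Finset.finite_toSet _).union
    (Set.finite_range _)).to_subtype
  have := IntermediateField.finiteDimensional_adjoin (K := ℚ_[p]) (S := Z) fun a _ =>
    Algebra.IsIntegral.isIntegral a
  obtain ⟨x2, N2⟩ := hmem (IntermediateField.adjoin ℚ_[p] Z).toSubalgebra.toSubring
    (fun n j m => by
      rw [← Nat.mod_add_div n q, hper']
      by_cases h : coeff m (Φ (n % q) j) = 0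
      · rw [h]; exact zero_mem _
      · exact IntermediateField.subset_adjoin ℚ_[p] Z (Or.inl (Set.mem_iUnion.2
          ⟨(⟨n % q, Nat.mod_lt _ hq⟩, j), coeff_mem_coeffs m h⟩)))
    fun j => IntermediateField.subset_adjoin ℚ_[p] Z (Or.inr ⟨j, rfl⟩)
  have np : ‖(p : PadicAlgCl p)‖ = (p : ℝ)⁻¹ := by
    rw [← map_natCast (algebraMap ℚ_[p] (PadicAlgCl p)), norm_algebraMap', Padic.norm_p]
  have p1 : (1 : ℝ) < p := by exact_mod_cast (Fact.out : p.Prime).one_lt
  have p0 : 0 < (p : ℝ)⁻¹ := by positivity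
  have p2 : (p : ℝ)⁻¹ < 1 := inv_lt_one_of_one_lt₀ p1
  obtain ⟨π, nπ⟩ : ∃ π : PadicAlgCl p, ‖π‖ = (p : ℝ)⁻¹ ^ 2 := ⟨p ^ 2, by rw [norm_pow, np]⟩
  have π0 : 0 < ‖π‖ := by rw [nπ]; positivity
  have π1 : ‖π‖ < 1 := by rw [nπ]; exact pow_lt_one₀ p0.le p2 two_ne_zero
  obtain ⟨a, b, hab, h⟩ := dp10_pair (IntermediateField.adjoin ℚ_[p] Z) (I := J ⊕ J × J)
    (fun k => Sum.elim (x (q * k)) fun e => N 0 (q * k) e.1 e.2)
    (by rintro n (i | i); exacts [x2 _ _, N2 _ _ _ _])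
    (by rintro n (i | i); exacts [(hO _).1 (x1 _ _), (hO _).1 (N1 _ _ _ _)]) (pow_pos π0 2)
  obtain ⟨d, rfl⟩ := Nat.exists_eq_add_of_le hab.le
  have hsp : ∀ n s, N 0 (n + s) = N n s * N 0 n := fun n s => by
    induction s with
    | zero => rw [hN0, one_mul, add_zero]
    | succ s ih => rw [← add_assoc, hN, hN, ih, zero_add, mul_assoc]
  have hdet : ∀ n, ‖(N 0 n).det‖ = 1 := fun n => by
    induction n with
    | zero => rw [hN0, Matrix.det_one, norm_one]
    | succ n ih => rw [hN, Matrix.det_mul, norm_mul, ih, hJ, one_mul]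
  refine ⟨q * d, Nat.mul_pos hq (by omega), q * a, fun c hc P hP t => ?_⟩
  obtain ⟨s, rfl⟩ := Nat.exists_eq_add_of_le hc
  obtain ⟨j, hj⟩ := dp10_core π1 (norm_pos_iff.1 π0) (l := q * d) (n := q * a) Φ
    (fun m => hper' m d) hΦ x hx (fun n j => (hO _).1 (x1 n j)) (N (q * a)) (hN0 _) (hN _)
    (fun s i j => (hO _).1 (N1 _ s i j)) (fun j => by
      have h1 := h (Sum.inl j)
      rw [norm_div, norm_pow, div_le_one (pow_pos π0 2), ← mul_add]
      exact h1) (fun i j => by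
      have hu : (N 0 (q * a)).det ≠ 0 := norm_ne_zero_iff.1 (by rw [hdet]; exact one_ne_zero)
      have e : N (q * a) (q * d) - 1 = ((N 0 (q * a)).det)⁻¹ •
          ((N 0 (q * (a + d)) - N 0 (q * a)) * (N 0 (q * a)).adjugate) := by
        rw [mul_add, hsp, ← sub_one_mul, mul_assoc, Matrix.mul_adjugate, Matrix.mul_smul, mul_one,
          smul_smul, inv_mul_cancel₀ hu, one_smul]
      have hadj : ∀ k j, ‖(N 0 (q * a)).adjugate k j‖ ≤ 1 := fun k j => by
        have e2 := O.subtype.map_adjugate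
          (Matrix.of fun i j => (⟨N 0 (q * a) i j, N1 _ _ i j⟩ : O))
        have e3 : (N 0 (q * a)).adjugate k j = _ := (congrFun (congrFun e2 k) j).symm
        rw [e3]
        exact (hO _).1 (Subtype.property _)
      rw [norm_div, div_le_one π0, e, Matrix.smul_apply, norm_smul, norm_inv, hdet, inv_one, one_mul,
        Matrix.mul_apply]
      refine IsUltrametricDist.norm_sum_le_of_forall_le_of_nonneg π0.le fun k _ => ?_
      rw [norm_mul]
      refine (mul_le_of_le_one_right (norm_nonneg _) (hadj k j)).trans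
        ((h (Sum.inr (i, k))).trans ?_)
      rw [sq]
      exact mul_le_of_le_one_right π0.le π1.le) s P
  have h0 := Pool.Agent.DS.dssml_hansel p0.le p2
    (s := fun t => π ^ j * eval (x (q * a + s + q * d * t)) P) (fun k => by
      have h1 : (p : ℝ)⁻¹ ^ k ≤ ‖(k.factorial : PadicAlgCl p)‖ := by
        rw [← map_natCast (algebraMap ℚ_[p] (PadicAlgCl p)), norm_algebraMap',
          Padic.norm_eq_zpow_neg_valuation (Nat.cast_ne_zero.2 k.factorial_ne_zero),
          Padic.valuation_natCast, zpow_neg, zpow_natCast, ← inv_pow]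
        exact pow_le_pow_of_le_one p0.le p2.le (padicValNat_factorial_le p k)
      rw [norm_div, div_le_iff₀ ((pow_pos p0 k).trans_le h1)]
      refine (hj k).trans ?_
      rw [nπ, sq, mul_pow]
      exact mul_le_mul_of_nonneg_left h1 (by positivity))
    (hP.mono fun t ht => by simp only [ht, mul_zero]) t
  exact (mul_eq_zero.1 h0).resolve_left (pow_ne_zero _ (norm_pos_iff.1 π0))

end Pool.Agent.P.MP_68214b_ag.DP
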