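import Mathlib

/-! Embedding the complex numbers into a p-adic field. -/

namespace Pool.Agent.P.MP_68214b_ag.DP

variable {E : Type} [Field E] [CharZero E] [IsAlgClosed E] [Algebra.IsAlgebraic ℚ E]

theorem dp11_root {K : Type} [NormedField K] [IsUltrametricDist K] {g : Polynomial K} {x : K}
    (h1 : ‖g.leadingCoeff‖ = 1) (h2 : ∀ i < g.natDegree, ‖g.coeff i‖ ≤ 1) (h0 : g.eval x = 0) :
    ‖x‖ ≤ 1 := by
  by_contra hx
  push Not at hx
  rw [Polynomial.eval_eq_sum_range, Finset.sum_range_succ, add_eq_zero_iff_eq_neg] at h0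
  have h3 : ‖∑ i ∈ Finset.range g.natDegree, x * (g.coeff i * x ^ i)‖ ≤ ‖x‖ ^ g.natDegree := by
    refine IsUltrametricDist.norm_sum_le_of_forall_le_of_nonneg (by positivity) fun i hi => ?_
    rw [Finset.mem_range] at hi
    rw [mul_left_comm, ← pow_succ', norm_mul, norm_pow]
    exact (mul_le_of_le_one_left (by positivity) (h2 i hi)).trans (pow_le_pow_right₀ hx.le hi)
  rw [← Finset.mul_sum, h0, norm_mul, norm_neg, norm_mul, norm_pow, Polynomial.coeff_natDegree, h1,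
    one_mul] at h3
  have h4 : 0 < ‖x‖ ^ g.natDegree := by positivity
  nlinarith

theorem dp11_jet {E T : Type} [Field E] (a : T → E) (q : MvPolynomial T E) :
    ∃ Z : Set E, Z.Finite ∧ ∀ (K : Type) [NormedField K] [IsUltrametricDist K] (ι : E →+* K)
      (w : T → K), (∀ z ∈ Z, ‖ι z‖ ≤ 1) → (∀ j, ‖w j - ι (a j)‖ < 1) →
        ‖q.eval₂ ι w - ι (q.eval a)‖ < 1 ∧ ‖ι (q.eval a)‖ ≤ 1 := by
  induction q using MvPolynomial.induction_on with
  | C x => exact ⟨{x}, Set.finite_singleton x, fun K _ _ ι w h _ => by simpa using h⟩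
  | add q r hq hr =>
    obtain ⟨Z, hZ, hq⟩ := hq
    obtain ⟨Z', hZ', hr⟩ := hr
    refine ⟨Z ∪ Z', hZ.union hZ', fun K _ _ ι w h hw => ?_⟩
    obtain ⟨h1, h2⟩ := hq K ι w (fun z hz => h z (Or.inl hz)) hw
    obtain ⟨h3, h4⟩ := hr K ι w (fun z hz => h z (Or.inr hz)) hw
    rw [MvPolynomial.eval₂_add, map_add, map_add, add_sub_add_comm]
    exact ⟨(IsUltrametricDist.norm_add_le_max _ _).trans_lt (max_lt h1 h3),
      (IsUltrametricDist.norm_add_le_max _ _).trans (max_le h2 h4)⟩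
  | mul_X q j hq =>
    obtain ⟨Z, hZ, hq⟩ := hq
    refine ⟨insert (a j) Z, hZ.insert _, fun K _ _ ι w h hw => ?_⟩
    obtain ⟨h1, h2⟩ := hq K ι w (fun z hz => h z (Or.inr hz)) hw
    have h3 := h _ (Or.inl rfl)
    have h4 : ‖w j‖ ≤ 1 := by
      rw [← sub_add_cancel (w j) (ι (a j))]
      exact (IsUltrametricDist.norm_add_le_max _ _).trans (max_le (hw j).le h3)
    rw [MvPolynomial.eval₂_mul, MvPolynomial.eval₂_X, map_mul, MvPolynomial.eval_X, map_mul]
    refine ⟨?_, by rw [norm_mul]; exact mul_le_one₀ h2 (norm_nonneg _) h3⟩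
    have h5 : q.eval₂ ι w * w j - ι (q.eval a) * ι (a j) =
        (q.eval₂ ι w - ι (q.eval a)) * w j + ι (q.eval a) * (w j - ι (a j)) := by ring
    rw [h5]
    refine (IsUltrametricDist.norm_add_le_max _ _).trans_lt (max_lt ?_ ?_) <;> rw [norm_mul]
    · exact (mul_le_of_le_one_right (norm_nonneg _) h4).trans_lt h1
    · exact (mul_le_of_le_one_left (norm_nonneg _) h2).trans_lt (hw j)

open Cardinal in
omit [IsAlgClosed E] in
theorem dp11_w {T : Set ℂ} (a : T → E) (p : ℕ) [Fact p.Prime] [Algebra E (PadicAlgCl p)] :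
    ∃ w : T → PadicAlgCl p, AlgebraicIndependent E w ∧ ∀ j, ‖w j - algebraMap E _ (a j)‖ < 1 := by
  obtain ⟨U, hU⟩ := exists_isTranscendenceBasis E (PadicAlgCl p)
  have h1 : 𝔠 ≤ Cardinal.mk (PadicAlgCl p) :=
    (continuum_le_cardinal_of_nontriviallyNormedField ℚ_[p]).trans
    (mk_le_of_injective (algebraMap ℚ_[p] (PadicAlgCl p)).injective)
  have h2 : Cardinal.mk E ≤ ℵ₀ := by simpa using Algebra.IsAlgebraic.cardinalMk_le_max ℚ E
  have h3 := IsAlgClosed.cardinal_eq_cardinal_transcendence_basis_of_aleph0_lt' _ hU h2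
    (aleph0_lt_continuum.trans_le h1)
  have h4 : Cardinal.mk T ≤ Cardinal.mk U := ((mk_set_le T).trans mk_complex.le).trans (h1.trans h3.le)
  obtain ⟨g⟩ := (Cardinal.le_def _ _).1 h4
  have hp : ‖(p : PadicAlgCl p)‖ < 1 := by
    rw [← map_natCast (algebraMap ℚ_[p] (PadicAlgCl p)), norm_algebraMap']
    exact Padic.norm_p_lt_one
  have h5 : ∀ u : PadicAlgCl p, ∃ k : ℕ, ‖(p : PadicAlgCl p) ^ k * u‖ < 1 := fun u => by
    have h := (tendsto_pow_atTop_nhds_zero_of_lt_one (norm_nonneg _) hp).mul_const ‖u‖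
    rw [zero_mul] at h
    obtain ⟨k, hk⟩ := (h.eventually (gt_mem_nhds zero_lt_one)).exists
    exact ⟨k, by rwa [norm_mul, norm_pow]⟩
  choose k hk using h5
  have hp0 : ∀ n : ℕ, (p : E) ^ n ≠ 0 := fun n =>
    pow_ne_zero _ (Nat.cast_ne_zero.2 (Fact.out : p.Prime).ne_zero)
  refine ⟨_, (hU.1.comp g g.injective).polynomial_aeval_of_transcendental
    (f := fun j => Polynomial.C ((p : E) ^ k (g j)) * Polynomial.X + Polynomial.C (a j))
    fun j => Polynomial.transcendental _ ?_ ?_, fun j => ?_⟩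
  · rw [Polynomial.natDegree_linear (hp0 _)]
    exact one_ne_zero
  · rw [Polynomial.leadingCoeff_linear (hp0 _)]
    exact mem_nonZeroDivisors_of_ne_zero (hp0 _)
  · simpa using hk (g j)

theorem emb (κ : E →+* ℂ) {D : Set ℂ} (hD : D.Finite) : ∃ Z : Set E, Z.Finite ∧
    ∀ (p : ℕ) [Fact p.Prime] (ι : E →+* PadicAlgCl p), (∀ z ∈ Z, z ≠ 0 → ‖ι z‖ = 1) →
      ∃ ψ : ℂ →+* PadicAlgCl p, (∀ z, ψ (κ z) = ι z) ∧ ∀ d ∈ D, ‖ψ d‖ ≤ 1 := by
  classical
  let : Algebra E ℂ := κ.toAlgebra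
  obtain ⟨T, hT⟩ := exists_isTranscendenceBasis E ℂ
  let e := hT.1.aevalEquiv
  have halg := hT.isAlgebraic
  choose f hf0 hf using halg.1
  obtain ⟨a, ha⟩ : ∃ a : T → E,
      MvPolynomial.eval a (∏ d ∈ hD.toFinset, e.symm (f d).leadingCoeff) ≠ 0 := by
    by_contra h
    push Not at h
    refine Finset.prod_ne_zero_iff.2 (fun d _ => ?_)
      (MvPolynomial.funext fun a => (h a).trans (map_zero _).symm)
    exact (map_ne_zero_iff _ e.symm.injective).2 (Polynomial.leadingCoeff_ne_zero.2 (hf0 d))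
  rw [map_prod, Finset.prod_ne_zero_iff] at ha
  choose Z hZ hq using dp11_jet a
  refine ⟨⋃ d ∈ D, insert (MvPolynomial.eval a (e.symm (f d).leadingCoeff))
    (⋃ i ∈ Set.Iic (f d).natDegree, Z (e.symm ((f d).coeff i))),
    hD.biUnion fun d _ => ((Set.finite_Iic _).biUnion fun i _ => hZ _).insert _,
    fun p _ ι hι => ?_⟩
  let : Algebra E (PadicAlgCl p) := ι.toAlgebra
  obtain ⟨w, hw, hwa⟩ := dp11_w a p
  let θ := (MvPolynomial.aeval w).comp e.symm.toAlgHom
  have hθ : Function.Injective θ := fun x y h =>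
    e.symm.injective (algebraicIndependent_iff_injective_aeval.1 hw h)
  let := θ.toRingHom.toAlgebra
  have := (Module.isTorsionFree_iff_algebraMap_injective
    (R := Algebra.adjoin E (Set.range ((↑) : T → ℂ))) (A := PadicAlgCl p)).2 hθ
  let ψ : ℂ →ₐ[Algebra.adjoin E (Set.range ((↑) : T → ℂ))] PadicAlgCl p := IsAlgClosed.lift
  refine ⟨ψ, fun z => (ψ.commutes (algebraMap E _ z)).trans (θ.commutes z), fun d hd => ?_⟩
  have h1 : ∀ i ≤ (f d).natDegree, _ := fun i hi => hq (e.symm ((f d).coeff i)) _ ι w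
    (fun z hz => by
      by_cases h0 : z = 0
      · simp [h0]
      · exact (hι z (Set.mem_biUnion hd (Or.inr (Set.mem_biUnion hi hz))) h0).le) hwa
  have h2 : ∀ x, θ x = (e.symm x).eval₂ ι w := fun _ => rfl
  refine dp11_root (g := (f d).map θ.toRingHom) ?_ (fun i hi => ?_) ?_
  · have h3 := hι _ (Set.mem_biUnion hd (Or.inl rfl)) (ha d (hD.mem_toFinset.2 hd))
    rw [Polynomial.leadingCoeff_map_of_injective hθ]
    change ‖θ _‖ = 1
    rw [h2, ← sub_add_cancel (MvPolynomial.eval₂ ι w _)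
      (ι (MvPolynomial.eval a (e.symm (f d).leadingCoeff))),
      IsUltrametricDist.norm_add_eq_max_of_norm_ne_norm (h3 ▸ (h1 _ le_rfl).1.ne), h3]
    exact max_eq_right (h1 _ le_rfl).1.le
  · have h3 := h1 i (hi.le.trans Polynomial.natDegree_map_le)
    rw [Polynomial.coeff_map]
    change ‖θ _‖ ≤ 1
    rw [h2, ← sub_add_cancel (MvPolynomial.eval₂ ι w _)
      (ι (MvPolynomial.eval a (e.symm ((f d).coeff i))))]
    exact (IsUltrametricDist.norm_add_le_max _ _).trans (max_le h3.1.le h3.2)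
  · have h3 := Polynomial.aeval_algHom_apply ψ d (f d)
    rw [hf, map_zero, Polynomial.aeval_def, Polynomial.eval₂_eq_eval_map] at h3
    exact h3

end Pool.Agent.P.MP_68214b_ag.DP
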