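import Pool.Agent.P.MP_68214b_ag.DP1
import Pool.Agent.P.MP_68214b_ag.DP11

/-! Embeddings close to a specialisation that avoids small sets. -/

open Polynomial

namespace Pool.Agent.P.MP_68214b_ag.DP

/-- finitely many points of bounded degree over every number field -/
def Nc {E : Type} [Field E] [CharZero E] (S : Set E) : Prop :=
  ∀ (F : IntermediateField ℚ E) [FiniteDimensional ℚ F] (n : ℕ), {r | r ∈ S ∧ ∃ q : E[X],
    q ≠ 0 ∧ q.natDegree ≤ n ∧ (∀ k, q.coeff k ∈ F) ∧ q.eval r = 0}.Finite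

theorem dp11b_min {R K : Type} [CommRing R] [IsDomain R] [Field K] [Algebra R K] {x : K}
    (hx : IsAlgebraic R x) :
    ∃ f : R[X], f ≠ 0 ∧ aeval x f = 0 ∧ ∀ r, algebraMap R K r ≠ x → f.eval r ≠ 0 := by
  classical
  have h : ∃ n, ∃ f : R[X], f ≠ 0 ∧ aeval x f = 0 ∧ f.natDegree = n :=
    let ⟨f, h1, h2⟩ := hx
    ⟨_, f, h1, h2, rfl⟩
  obtain ⟨f, h1, h2, h3⟩ := Nat.find_spec h
  refine ⟨f, h1, h2, fun r hr h4 => ?_⟩
  obtain ⟨g, rfl⟩ := dvd_iff_isRoot.2 h4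
  have h5 : g ≠ 0 := right_ne_zero_of_mul h1
  rw [map_mul, map_sub, aeval_X, aeval_C] at h2
  refine Nat.find_min h ?_ ⟨g, h5, (mul_eq_zero.1 h2).resolve_left (sub_ne_zero.2 hr.symm), rfl⟩
  rw [← h3, natDegree_mul (X_sub_C_ne_zero r) h5, natDegree_X_sub_C]
  omega

theorem dp11b_near {E K : Type} [Field E] [IsAlgClosed E] [NormedField K] [IsUltrametricDist K]
    (ι : E →+* K) {g : K[X]} {q : E[X]} {y : K} {n : ℕ} (hg : g.natDegree ≤ n)
    (hq : q.natDegree ≤ n) (hy : ‖y‖ ≤ 1) (h0 : g.eval y = 0)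
    (hc : ∀ k ≤ n, ‖g.coeff k - ι (q.coeff k)‖ < 1) (hl : ‖ι q.leadingCoeff‖ = 1) :
    ∃ r ∈ q.roots, ‖y - ι r‖ < 1 := by
  have h1 : ‖(g - q.map ι).eval y‖ < 1 := by
    rw [eval_eq_sum_range' (Nat.lt_succ_of_le
      ((natDegree_sub_le _ _).trans (max_le hg (natDegree_map_le.trans hq))))]
    obtain ⟨k, hk, h⟩ := IsUltrametricDist.exists_norm_finsetSum_le_of_nonempty
      (Finset.nonempty_range_add_one (n := n)) fun k => (g - q.map ι).coeff k * y ^ k
    refine h.trans_lt ?_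
    rw [norm_mul, norm_pow, coeff_sub, coeff_map]
    exact (mul_le_of_le_one_right (norm_nonneg _) (pow_le_one₀ (norm_nonneg _) hy)).trans_lt
      (hc k (Nat.lt_succ_iff.1 (Finset.mem_range.1 hk)))
  rw [eval_sub, h0, zero_sub, norm_neg, (IsAlgClosed.splits q).eq_prod_roots, Polynomial.map_mul,
    map_C, eval_mul, eval_C, norm_mul, hl, one_mul] at h1
  generalize q.roots = s at h1
  induction s using Multiset.induction_on with
  | empty => simp at h1
  | cons a s ih =>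
    by_cases h : ‖y - ι a‖ < 1
    · exact ⟨a, Multiset.mem_cons_self _ _, h⟩
    · rw [Multiset.map_cons, Multiset.prod_cons, Polynomial.map_mul, eval_mul, norm_mul,
        Polynomial.map_sub, map_X, map_C, eval_sub, eval_X, eval_C] at h1
      obtain ⟨r, hr, h2⟩ :=
        ih ((le_mul_of_one_le_left (norm_nonneg _) (not_lt.1 h)).trans_lt h1)
      exact ⟨r, Multiset.mem_cons_of_mem hr, h2⟩

variable {E : Type} [Field E] [CharZero E] [IsAlgClosed E] [Algebra.IsAlgebraic ℚ E]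

theorem emb2 (κ : E →+* ℂ) {D : Set ℂ} (hD : D.Finite) {I : Type} [Finite I] (z : I → ℂ)
    (S : I → Set E) (hS : ∀ i, Nc (S i)) : ∃ (Z : Set E) (R : I → Set E), Z.Finite ∧
      (∀ i, (R i).Finite ∧ ∀ r ∈ R i, κ r = z i ∨ r ∉ S i) ∧
      ∀ (p : ℕ) [Fact p.Prime] (ι : E →+* PadicAlgCl p), (∀ x ∈ Z, x ≠ 0 → ‖ι x‖ = 1) →
        ∃ ψ : ℂ →+* PadicAlgCl p, (∀ x, ψ (κ x) = ι x) ∧ (∀ d ∈ D, ‖ψ d‖ ≤ 1) ∧
          ∀ i, ∃ r ∈ R i, ‖ψ (z i) - ι r‖ < 1 := by
  classical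
  let : Algebra E ℂ := κ.toAlgebra
  obtain ⟨T, hT⟩ := exists_isTranscendenceBasis E ℂ
  let e := hT.1.aevalEquiv
  have halg := hT.isAlgebraic
  choose f hf0 hf hm using fun x => dp11b_min (halg.1 x)
  have hD' : (D ∪ Set.range z).Finite := hD.union (Set.finite_range z)
  obtain ⟨F, hF, -, hFm⟩ := exists_gal (Z := ⋃ i, ⋃ k ∈ Set.Iic (f (z i)).natDegree,
    ((e.symm ((f (z i)).coeff k)).coeffs : Set E))
    (Set.finite_iUnion fun i => (Set.finite_Iic _).biUnion fun k _ => Finset.finite_toSet _)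
  have hU : (((fun d => (f d).leadingCoeff) '' (D ∪ Set.range z)) ∪
      ⋃ i, (fun r => (f (z i)).eval (algebraMap E _ r)) '' {r | (r ∈ S i ∧ ∃ q : E[X], q ≠ 0 ∧
        q.natDegree ≤ (f (z i)).natDegree ∧ (∀ k, q.coeff k ∈ F) ∧ q.eval r = 0) ∧
          κ r ≠ z i}).Finite :=
    (hD'.image _).union (Set.finite_iUnion fun i =>
      ((hS i F _).subset fun r hr => hr.1).image _)
  obtain ⟨a, haZ, ha⟩ : ∃ a : T → E, (∀ j, a j ∈ F) ∧
      MvPolynomial.eval a (∏ x ∈ hU.toFinset, e.symm x) ≠ 0 := by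
    by_contra h
    push Not at h
    refine Finset.prod_ne_zero_iff.2 (fun x hx => ?_)
      (MvPolynomial.funext_set (fun _ => Set.range (Nat.cast : ℕ → E))
        (fun _ => Set.infinite_range_of_injective Nat.cast_injective) fun a ha =>
          (h a fun j => ?_).trans (map_zero _).symm)
    · refine (map_ne_zero_iff _ e.symm.injective).2 ?_
      rcases hU.mem_toFinset.1 hx with ⟨d, -, rfl⟩ | hx
      · exact Polynomial.leadingCoeff_ne_zero.2 (hf0 d)
      · obtain ⟨i, r, hr, rfl⟩ := Set.mem_iUnion.1 hx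
        exact hm _ _ hr.2
    · obtain ⟨n, hn⟩ := ha j (Set.mem_univ _)
      exact hn ▸ natCast_mem F n
  rw [map_prod, Finset.prod_ne_zero_iff] at ha
  choose Z hZ hq using dp11_jet a
  let σ := (MvPolynomial.eval a).comp e.symm.toAlgHom.toRingHom
  have hσ : ∀ r : E, σ (algebraMap E _ r) = r := fun r => by
    change MvPolynomial.eval a (e.symm (algebraMap E _ r)) = r
    rw [AlgEquiv.commutes, MvPolynomial.algebraMap_eq, MvPolynomial.eval_C]
  have hl : ∀ d ∈ D ∪ Set.range z, σ (f d).leadingCoeff ≠ 0 := fun d hd =>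
    ha _ (hU.mem_toFinset.2 (Or.inl ⟨d, hd, rfl⟩))
  have hl' : ∀ i, ((f (z i)).map σ).leadingCoeff = σ (f (z i)).leadingCoeff := fun i =>
    leadingCoeff_map_of_leadingCoeff_ne_zero _ (hl _ (Or.inr ⟨i, rfl⟩))
  refine ⟨⋃ d ∈ D ∪ Set.range z, insert (σ (f d).leadingCoeff)
    (⋃ i ∈ Set.Iic (f d).natDegree, Z (e.symm ((f d).coeff i))),
    fun i => {r | r ∈ ((f (z i)).map σ).roots},
    hD'.biUnion fun d _ => ((Set.finite_Iic _).biUnion fun i _ => hZ _).insert _,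
    fun i => ⟨Multiset.finite_toSet _, fun r hr => ?_⟩, fun p _ ι hι => ?_⟩
  · by_contra h
    push Not at h
    obtain ⟨h1, h2⟩ := mem_roots'.1 hr
    refine ha _ (hU.mem_toFinset.2 (Or.inr (Set.mem_iUnion.2
      ⟨i, r, ⟨⟨h.2, _, h1, natDegree_map_le, fun k => ?_, h2⟩, h.1⟩, rfl⟩))) ?_
    · by_cases hk : k ≤ (f (z i)).natDegree
      · rw [coeff_map]
        exact MvPolynomial.eval_mem (fun m hm => hFm _ (Set.mem_iUnion.2 ⟨i, Set.mem_biUnion hk
          (MvPolynomial.coeff_mem_coeffs m (MvPolynomial.mem_support_iff.1 hm))⟩)) haZ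
      · rw [coeff_map, coeff_eq_zero_of_natDegree_lt (not_le.1 hk), map_zero]
        exact zero_mem F
    · change σ _ = 0
      rw [← eval_map_apply, hσ]
      exact h2
  let : Algebra E (PadicAlgCl p) := ι.toAlgebra
  obtain ⟨w, hw, hwa⟩ := dp11_w a p
  let θ := (MvPolynomial.aeval w).comp e.symm.toAlgHom
  have hθ : Function.Injective θ := fun x y h =>
    e.symm.injective (algebraicIndependent_iff_injective_aeval.1 hw h)
  let := θ.toRingHom.toAlgebra
  have := (Module.isTorsionFree_iff_algebraMap_injective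
    (R := Algebra.adjoin E (Set.range ((↑) : T → ℂ))) (A := PadicAlgCl p)).2 hθ
  let ψ : ℂ →ₐ[Algebra.adjoin E (Set.range ((↑) : T → ℂ))] PadicAlgCl p := IsAlgClosed.lift
  have h1 : ∀ d ∈ D ∪ Set.range z, ∀ i ≤ (f d).natDegree,
      ‖θ ((f d).coeff i) - ι (σ ((f d).coeff i))‖ < 1 ∧ ‖ι (σ ((f d).coeff i))‖ ≤ 1 :=
    fun d hd i hi => hq (e.symm ((f d).coeff i)) _ ι w (fun z hz => by
      by_cases h0 : z = 0
      · simp [h0]
      · exact (hι z (Set.mem_biUnion hd (Or.inr (Set.mem_biUnion hi hz))) h0).le) hwa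
  have h3 : ∀ d ∈ D ∪ Set.range z, ‖ι (σ (f d).leadingCoeff)‖ = 1 := fun d hd =>
    hι _ (Set.mem_biUnion hd (Or.inl rfl)) (hl d hd)
  have h4 : ∀ d, ((f d).map θ.toRingHom).eval (ψ d) = 0 := fun d => by
    have h3 := Polynomial.aeval_algHom_apply ψ d (f d)
    rw [hf, map_zero, Polynomial.aeval_def, Polynomial.eval₂_eq_eval_map] at h3
    exact h3
  have h5 : ∀ d ∈ D ∪ Set.range z, ‖ψ d‖ ≤ 1 := fun d hd => by
    refine dp11_root (g := (f d).map θ.toRingHom) ?_ (fun i hi => ?_) (h4 d)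
    · have h6 : ‖θ (f d).leadingCoeff - ι (σ (f d).leadingCoeff)‖ < 1 := (h1 d hd _ le_rfl).1
      rw [Polynomial.leadingCoeff_map_of_injective hθ]
      change ‖θ _‖ = 1
      rw [← sub_add_cancel (θ _) (ι (σ (f d).leadingCoeff)),
        IsUltrametricDist.norm_add_eq_max_of_norm_ne_norm (h3 d hd ▸ h6.ne), h3 d hd]
      exact max_eq_right h6.le
    · have h6 := h1 d hd i (hi.le.trans Polynomial.natDegree_map_le)
      rw [Polynomial.coeff_map]
      change ‖θ _‖ ≤ 1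
      rw [← sub_add_cancel (θ _) (ι (σ ((f d).coeff i)))]
      exact (IsUltrametricDist.norm_add_le_max _ _).trans (max_le h6.1.le h6.2)
  refine ⟨ψ, fun z => (ψ.commutes (algebraMap E _ z)).trans (θ.commutes z),
    fun d hd => h5 d (Or.inl hd), fun i => ?_⟩
  refine dp11b_near ι natDegree_map_le natDegree_map_le (h5 _ (Or.inr ⟨i, rfl⟩)) (h4 _)
    (fun k hk => ?_) (hl' i ▸ h3 _ (Or.inr ⟨i, rfl⟩))
  rw [coeff_map, coeff_map]
  exact (h1 _ (Or.inr ⟨i, rfl⟩) k hk).1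

end Pool.Agent.P.MP_68214b_ag.DP
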