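import Pool.Agent.P.MP_68214b_ag.DP11b

/-! Preperiodic points of bounded degree. -/

open Polynomial

namespace Pool.Agent.P.MP_68214b_ag.DP

theorem dp11c_esc {E Γ : Type} [Field E] [Preorder Γ] {g : E[X]} (f : E → Γ) (c : Γ)
    (h : ∀ x, c < f x → f x < f (g.eval x)) {r : E} (hr : c < f r) : Wand g r := by
  have h1 : ∀ n, c < f (it g n r) := fun n => by
    induction n with
    | zero => exact hr
    | succ n ih => rw [it_succ']; exact ih.trans (h _ ih)
  have h2 : StrictMono fun n => f (it g n r) := strictMono_nat_of_lt_succ fun n => by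
    rw [it_succ']; exact h _ (h1 n)
  exact Set.infinite_range_of_injective fun a b e => by
    rcases lt_trichotomy a b with h3 | h3 | h3
    · exact absurd (congrArg f e) (h2 h3).ne
    · exact h3
    · exact absurd (congrArg f e) (h2 h3).ne'

theorem dp11c_eval {E : Type} [Field E] {g : E[X]} (hm : g.Monic) (x : E) :
    g.eval x = x ^ g.natDegree + ∑ i ∈ Finset.range g.natDegree, g.coeff i * x ^ i := by
  rw [eval_eq_sum_range, Finset.sum_range_succ_comm, hm.coeff_natDegree, one_mul]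

theorem dp11c_int {E : Type} [Field E] {x : E} (h : ∀ A : ValuationSubring E, x ∈ A) :
    IsIntegral ℤ x := by
  have h1 : x ∈ (integralClosure (Subring.closure (∅ : Set E)) E).toSubring := by
    rw [← iInf_valuationSubring_superset, Subring.mem_iInf]
    exact fun V => h V.1
  have : Algebra.IsIntegral ℤ (Subring.closure (∅ : Set E)) := ⟨fun y => by
    obtain ⟨n, hn⟩ := Subring.mem_bot.1 ((Subring.closure_empty (R := E)).le y.2)
    have e : y = algebraMap ℤ _ n := Subtype.ext (by simpa using hn.symm)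
    rw [e]
    exact isIntegral_algebraMap⟩
  exact isIntegral_trans (A := Subring.closure (∅ : Set E)) x h1

theorem dp11c_mem {E : Type} [Field E] {x : E} (h : IsIntegral ℤ x) (A : ValuationSubring E) :
    A.valuation x ≤ 1 := by
  have h1 : IsIntegral A x := h.tower_top
  obtain ⟨y, rfl⟩ := IsIntegrallyClosed.isIntegral_iff.1 h1
  exact A.valuation_le_one y

theorem dp11c_val {E : Type} [Field E] {g : E[X]} (hm : g.Monic) (hd : 2 ≤ g.natDegree) {M : ℤ}
    (hM : (M : E) ≠ 0) (hi : ∀ k < g.natDegree, IsIntegral ℤ ((M : E) * g.coeff k)) {r : E}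
    (hr : ¬ Wand g r) : IsIntegral ℤ ((M : E) * r) := by
  refine dp11c_int fun A => ?_
  rw [← A.valuation_le_one_iff]
  by_contra hc
  refine hr (dp11c_esc (fun x => A.valuation ((M : E) * x)) 1 (fun x hx => ?_) (not_le.1 hc))
  have h0 : 0 < A.valuation (M : E) := (Valuation.pos_iff _).2 hM
  simp only [map_mul] at hx ⊢
  have h1 : 1 < A.valuation x := hx.trans_le (mul_le_of_le_one_left' (v_int A M))
  have h2 : A.valuation (∑ i ∈ Finset.range g.natDegree, g.coeff i * x ^ i) <
      A.valuation (x ^ g.natDegree) := by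
    rw [map_pow]
    refine A.valuation.map_sum_lt' (pow_pos (zero_lt_one.trans h1) _) fun i hi' => ?_
    have h3 := (dp11c_mem (hi i (Finset.mem_range.1 hi')) A).trans_lt hx
    rw [map_mul] at h3
    rw [map_mul, map_pow]
    calc _ < A.valuation x * A.valuation x ^ i :=
          mul_lt_mul_of_pos_right (lt_of_mul_lt_mul_left h3 h0.le) (pow_pos (zero_lt_one.trans h1) _)
      _ ≤ _ := by
          rw [← pow_succ']
          exact pow_le_pow_right₀ h1.le (Finset.mem_range.1 hi')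
  rw [dp11c_eval hm, A.valuation.map_add_eq_of_lt_left h2, map_pow]
  exact mul_lt_mul_of_pos_left (lt_self_pow₀ h1 hd) h0

theorem dp11c_norm {E : Type} [Field E] {g : E[X]} (hm : g.Monic) (hd : 2 ≤ g.natDegree)
    (τ : E →+* ℂ) {B : ℝ} (hB0 : 0 ≤ B) (hB : ∀ k < g.natDegree, ‖τ (g.coeff k)‖ ≤ B) {r : E}
    (hr : ¬ Wand g r) : ‖τ r‖ ≤ g.natDegree * B + 1 := by
  by_contra hc
  refine hr (dp11c_esc (fun x => ‖τ x‖) (g.natDegree * B + 1) (fun x hx => ?_) (not_le.1 hc))
  obtain ⟨e, he⟩ : ∃ e, g.natDegree = e + 1 := ⟨g.natDegree - 1, by omega⟩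
  have hdB : (0 : ℝ) ≤ g.natDegree * B := by positivity
  have h1 : 1 ≤ ‖τ x‖ := by linarith
  have h2 : ‖∑ i ∈ Finset.range g.natDegree, τ (g.coeff i) * τ x ^ i‖ ≤
      g.natDegree * B * ‖τ x‖ ^ e := by
    refine (norm_sum_le_of_le _ (n := fun _ => B * ‖τ x‖ ^ e) fun i hi => ?_).trans (by
      simp [mul_assoc])
    rw [norm_mul, norm_pow]
    have := Finset.mem_range.1 hi
    exact mul_le_mul (hB i this) (pow_le_pow_right₀ h1 (by omega)) (by positivity) hB0
  have h3 : ‖τ x‖ ≤ ‖τ x‖ ^ e := le_self_pow₀ h1 (by omega)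
  have h4 := norm_sub_norm_le (τ x ^ g.natDegree)
    (-∑ i ∈ Finset.range g.natDegree, τ (g.coeff i) * τ x ^ i)
  rw [sub_neg_eq_add, norm_neg, norm_pow] at h4
  simp only [dp11c_eval hm, map_add, map_sum, map_mul, map_pow]
  have h5 : ‖τ x‖ ^ g.natDegree = ‖τ x‖ * ‖τ x‖ ^ e := by rw [he, pow_succ']
  nlinarith

variable {E : Type} [Field E] [CharZero E] [IsAlgClosed E] [Algebra.IsAlgebraic ℚ E]

omit [IsAlgClosed E] in
theorem dp11c_deg (F : IntermediateField ℚ E) [FiniteDimensional ℚ F] {n : ℕ} {r : E} {q : E[X]}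
    (h0 : q ≠ 0) (hn : q.natDegree ≤ n) (hF : ∀ k, q.coeff k ∈ F) (hq : q.eval r = 0) (M : ℤ) :
    (minpoly ℚ ((M : E) * r)).natDegree ≤ Module.finrank ℚ F * n := by
  obtain ⟨q', rfl, hq'⟩ := exists_natDegree_eq_of_mem_lifts (f := algebraMap F E)
    ((lifts_iff_coeff_lifts q).2 fun k => ⟨⟨_, hF k⟩, rfl⟩)
  have hi : IsIntegral F r := (Algebra.IsIntegral.isIntegral (R := ℚ) r).tower_top
  have h1 : (minpoly F r).natDegree ≤ n :=
    (natDegree_le_natDegree (minpoly.degree_le_of_ne_zero F r (p := q')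
      (fun e => h0 (by rw [e, Polynomial.map_zero])) (by rwa [eval_map_algebraMap] at hq))).trans
      (hq'.trans_le hn)
  have := IntermediateField.adjoin.finiteDimensional hi
  have := Module.Finite.trans (R := ℚ) F (IntermediateField.adjoin F {r})
  let y : IntermediateField.adjoin F {r} :=
    (M : IntermediateField.adjoin F {r}) * ⟨r, IntermediateField.mem_adjoin_simple_self F r⟩
  have e : (M : E) * r = algebraMap (IntermediateField.adjoin F {r}) E y := by simp [y]
  rw [e, minpoly.algebraMap_eq (algebraMap (IntermediateField.adjoin F {r}) E).injective]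
  refine (minpoly.natDegree_le y).trans ?_
  rw [← Module.finrank_mul_finrank ℚ F, IntermediateField.adjoin.finrank hi]
  exact Nat.mul_le_mul_left _ h1

theorem north {g : E[X]} (hm : g.Monic) (hd : 2 ≤ g.natDegree) : Nc {r | ¬ Wand g r} := by
  classical
  intro F _ n
  have : Algebra.IsAlgebraic ℤ E := (IsFractionRing.comap_isAlgebraic_iff (K := ℚ)).2 inferInstance
  obtain ⟨M, hM, hi⟩ := Algebra.IsAlgebraic.exists_integral_multiples ℤ
    ((Finset.range g.natDegree).image g.coeff)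
  have hM' : (M : E) ≠ 0 := Int.cast_ne_zero.2 hM
  obtain ⟨B0, hB0⟩ := (((Set.finite_lt_nat g.natDegree).biUnion fun k _ =>
    rootSet_finite (minpoly ℚ (g.coeff k)) ℂ).image norm).bddAbove
  have hB : ∀ (τ : E →ₐ[ℚ] ℂ), ∀ k < g.natDegree, ‖τ (g.coeff k)‖ ≤ max B0 0 := fun τ k hk =>
    (hB0 ⟨_, Set.mem_biUnion hk
      ((Algebra.IsAlgebraic.range_eval_eq_rootSet_minpoly ℂ (g.coeff k)).subset ⟨τ, rfl⟩),
      rfl⟩).trans (le_max_left _ _)
  set D := Module.finrank ℚ F * n
  set B : ℝ := ‖(M : ℂ)‖ * (g.natDegree * max B0 0 + 1)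
  let C := Nat.ceil (max B 1 ^ D * D.choose (D / 2))
  have hfin := bUnion_roots_finite (algebraMap ℤ E) D (Set.finite_Icc (-C : ℤ) C)
  refine (hfin.preimage (mul_right_injective₀ hM').injOn).subset ?_
  rintro r ⟨hr, q, h0, hn, hF, hq⟩
  have hx := dp11c_val hm hd hM' (fun k hk => by
    simpa using hi _ (Finset.mem_image_of_mem _ (Finset.mem_range.2 hk))) hr
  have hdeg := dp11c_deg F h0 hn hF hq M
  have hmap := minpoly.isIntegrallyClosed_eq_field_fractions' ℚ hx
  simp_rw [Set.mem_preimage, Set.mem_iUnion]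
  refine ⟨_, ⟨?_, fun i => ?_⟩, mem_rootSet.2 ⟨minpoly.ne_zero hx, minpoly.aeval ℤ _⟩⟩
  · rwa [← (minpoly.monic hx).natDegree_map (algebraMap ℤ ℚ), ← hmap]
  rw [Set.mem_Icc, ← abs_le, ← @Int.cast_le ℝ]
  have h1 := coeff_bdd_of_roots_le (B := B) (algebraMap ℚ ℂ)
    (minpoly.monic (hx.tower_top (A := ℚ))) (IsAlgClosed.splits _) hdeg (fun z hz => by
      rw [← Multiset.mem_toFinset] at hz
      obtain ⟨τ, rfl⟩ :=
        (Algebra.IsAlgebraic.range_eval_eq_rootSet_minpoly ℂ ((M : E) * r)).symm.subset hz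
      simp only [map_mul, map_intCast, norm_mul]
      exact mul_le_mul_of_nonneg_left
        (dp11c_norm hm hd (τ : E →+* ℂ) (le_max_right _ _) (hB τ) hr) (norm_nonneg _)) i
  refine (Eq.trans_le ?_ h1).trans (Nat.le_ceil _)
  rw [coeff_map, norm_algebraMap', hmap, coeff_map, eq_intCast, Int.norm_cast_rat, Int.norm_eq_abs,
    Int.cast_abs]

end Pool.Agent.P.MP_68214b_ag.DP
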