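import Pool.Agent.P.MP_68214b_ag.DP9
import Pool.Agent.P.MP_68214b_ag.DP11c

/-! A good p-adic embedding of the complex numbers. -/

open Polynomial Filter

namespace Pool.Agent.P.MP_68214b_ag.DP

section Map

variable {E F : Type} [Field E] [Field F] (κ : E →+* F) {g : E[X]} {x : E}

theorem it_map (n : ℕ) : it (g.map κ) n (κ x) = κ (it g n x) := by
  induction n with
  | zero => rfl
  | succ n ih => rw [it_succ', it_succ', ih, eval_map_apply]

theorem crit_map : Crit (g.map κ) (κ x) ↔ Crit g x := by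
  rw [Crit, derivative_map, eval_map_apply, map_eq_zero, Crit]

theorem wand_map : Wand (g.map κ) (κ x) ↔ Wand g x := by
  simp only [Wand, it_map]
  rw [← Set.infinite_image_iff κ.injective.injOn, ← Set.range_comp]; rfl

theorem crit_range [IsAlgClosed E] [CharZero E] (hd : 2 ≤ g.natDegree) {y : F}
    (h : Crit (g.map κ) y) : ∃ x, κ x = y :=
  (IsAlgClosed.splits g.derivative).mem_range_of_isRoot
    (fun e => by have := derivative_eq_zero.1 e; omega) (by rwa [← derivative_map])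

theorem cg_comap {A : ValuationSubring F} {x y : E} :
    Cg (A.comap κ) x y ↔ Cg A (κ x) (κ y) := by rw [Cg, comap_lt, map_sub, Cg]

theorem good_map [IsAlgClosed E] [CharZero E] (h : Good (g.map κ)) : Good g := by
  obtain ⟨h1, h2, h3⟩ := h
  rw [natDegree_map] at h2
  refine ⟨monic_map_iff.1 h1, h2, fun γ a b => ?_⟩
  obtain ⟨⟨A, p, hp, h4, h5⟩, h6⟩ := h3 _ ((crit_map κ).2 a) ((wand_map κ).2 b)
  simp only [TyU, TyC, natDegree_map, coeff_map, IP, derivative_map, eval_map_apply] at h4 h6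
  refine ⟨⟨A.comap κ, p, ⟨hp.1, (comap_lt A κ _).2 (by rw [map_natCast]; exact hp.2)⟩,
    fun k => (comap_le A κ _).2 (h4 k), h5.imp (by rw [← not_le, ← not_le, comap_le]; exact id)
      fun e j x c d => ?_⟩, h6.imp ?_ ?_⟩
  · rw [cg_comap, ← it_map] at d ⊢
    exact e j _ ((comap_le A κ _).1 c) (by rwa [eval_map_apply])
  · rintro ⟨b, c, e⟩
    obtain ⟨b, rfl⟩ := crit_range κ h2 (y := b) (by
      rw [Crit, e]; simp [derivative_pow, show g.natDegree - 1 ≠ 0 by omega])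
    have := congrArg (eval (κ b)) e
    rw [eval_map_apply] at this
    refine ⟨b, g.eval b, map_injective κ κ.injective ?_⟩
    simp [e, this, show g.natDegree ≠ 0 by omega]
  · exact fun ⟨⟨e3, e4⟩, e5⟩ => ⟨⟨fun e => e3 (by rw [e, map_zero]), fun δ c e =>
      κ.injective (e4 _ ((crit_map κ).2 c) (by rw [eval_map_apply, e]))⟩, e5.imp_right
      (Or.imp_right fun e δ c d => κ.injective (e _ ((crit_map κ).2 c) ((wand_map κ).2 d)))⟩

theorem ok_map [IsAlgClosed E] [CharZero E] {A : ValuationSubring F} (h : Ok A (g.map κ)) :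
    Ok (A.comap κ) g := by
  refine h.imp (good_map κ) fun ⟨h1, h2, h3, h4⟩ => ?_
  simp only [natDegree_map, coeff_map] at h2 h3 h4
  refine ⟨monic_map_iff.1 h1, le_antisymm (v_nat _ _) (not_lt.1 fun e => ?_),
    fun k hk => (comap_lt A κ _).2 (h3 k hk), h4⟩
  rw [comap_lt, map_natCast, h2] at e
  exact e.false

theorem it_mem [CharZero E] {K : IntermediateField ℚ E} (hK : ∀ k, g.coeff k ∈ K) (hx : x ∈ K)
    (n : ℕ) : it g n x ∈ K := by
  induction n with
  | zero => exact hx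
  | succ n ih =>
    rw [it_succ', eval_eq_sum_range]
    exact sum_mem fun k _ => mul_mem (hK k) (pow_mem ih k)

theorem fin_coeff (g : E[X]) : (Set.range g.coeff).Finite :=
  (g.coeffs.finite_toSet.insert 0).subset (by
    rintro _ ⟨k, rfl⟩
    exact (eq_or_ne _ _).imp_right coeff_mem_coeffs)

theorem exists_pl {p : ℕ} [Fact p.Prime] (ψ : F →+* PadicAlgCl p) : ∃ A : ValuationSubring F,
    ∀ x, (A.valuation x ≤ 1 ↔ ‖ψ x‖ ≤ 1) ∧ (A.valuation x < 1 ↔ ‖ψ x‖ < 1) := by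
  have e := (Valued.v : Valuation (PadicAlgCl p) NNReal).isEquiv_valuation_valuationSubring
  exact ⟨_, fun x => ⟨(comap_le _ ψ x).trans e.le_one_iff_le_one.symm,
    (comap_lt _ ψ x).trans e.lt_one_iff_lt_one.symm⟩⟩

end Map

theorem exists_cl : ∃ (E : Type) (_ : Field E) (_ : CharZero E) (_ : IsAlgClosed E)
    (_ : Algebra.IsAlgebraic ℚ E) (κ : E →+* ℂ), ∀ x : ℂ, IsAlgebraic ℚ x → ∃ y, κ y = x :=
  ⟨algebraicClosure ℚ ℂ, inferInstance, inferInstance,
    (algebraicClosure.isAlgClosure ℚ ℂ).isAlgClosed, algebraicClosure.isAlgebraic ℚ ℂ,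
    algebraMap _ ℂ, fun x hx => ⟨⟨x, mem_algebraicClosure_iff.2 hx⟩, rfl⟩⟩

theorem good_emb {I : Type} [Finite I] (g : I → ℂ[X]) {A0 : ValuationSubring ℂ}
    (hg : ∀ i, Ok A0 (g i)) (ha : ∀ i k, IsAlgebraic ℚ ((g i).coeff k)) (z : I → ℂ) {D : Set ℂ}
    (hD : D.Finite) : ∃ (p : ℕ) (_ : Fact p.Prime) (ψ : ℂ →+* PadicAlgCl p),
      (∀ d ∈ D, d ≠ 0 → ‖ψ d‖ = 1) ∧ ∀ i, Wand (g i) (z i) →
        ∀ᶠ n in atTop, ‖ψ ((g i).derivative.eval (it (g i) n (z i)))‖ = 1 := by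
  obtain ⟨E, _, _, _, _, κ, hκ⟩ := exists_cl
  choose f hf using fun i => (mem_lifts (g i)).1 ((lifts_iff_coeff_lifts (f := κ) _).2
    fun k => hκ _ (ha i k))
  obtain rfl : g = fun i => (f i).map κ := funext fun i => (hf i).symm
  have hG := fun i => ok_map κ (hg i)
  obtain ⟨Z, R, hZ, hR, H⟩ := emb2 κ ((hD.union hD.inv).union (Set.finite_range z)) z _
    fun i => north (hG i).mon (hG i).deg
  have hW := (hZ.union (Set.finite_iUnion fun i => (hR i).1)).union (Set.finite_iUnion fun i =>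
    ((fin_coeff (f i)).union (fin_crit (hG i).deg)).insert ((f i).natDegree : E))
  obtain ⟨F, _, -, hF⟩ := exists_gal hW
  obtain ⟨B, hB⟩ := unit_big hW
  have := fun i => (hR i).1.to_subtype
  obtain ⟨A, hA, hp⟩ := gp (I := Σ i, R i) (fun j => f j.1) (fun j => hG j.1) (fun j => j.2) B
  have U := hB A hA
  obtain ⟨p, -, ho⟩ := hA
  have := Fact.mk ho.1
  obtain ⟨ι, hι⟩ := iota F ho
  have U' : ∀ x, _ → x ≠ 0 → ‖ι x‖ = 1 := fun x hx h0 => le_antisymm
    ((hι x (hF x hx)).1.1 (U x hx h0).le) (not_lt.1 fun e =>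
      ((hι x (hF x hx)).2.2 e).ne (U x hx h0))
  obtain ⟨ψ, h1, h2, h3⟩ := H p ι fun x hx => U' x (Or.inl (Or.inl hx))
  obtain ⟨A', hA'⟩ := exists_pl ψ
  refine ⟨p, this, ψ, fun d hd h0 => le_antisymm (h2 d (Or.inl (Or.inl hd))) ?_, fun i hw => ?_⟩
  · have := h2 d⁻¹ (Or.inl (Or.inr (Set.inv_mem_inv.2 hd)))
    rwa [map_inv₀, norm_inv, inv_le_one₀ (norm_pos_iff.2 ((map_ne_zero ψ).2 h0))] at this
  have mem := fun x hx => Set.mem_union_right (Z ∪ ⋃ i, R i) (Set.mem_iUnion_of_mem (a := x)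
    (s := fun i => insert ((f i).natDegree : E) (Set.range (f i).coeff ∪ {x | Crit (f i) x})) i hx)
  have co : ∀ k, (f i).coeff k ∈ F := fun k => hF _ (mem _ (Or.inr (Or.inl ⟨k, rfl⟩)))
  have le : ∀ x, _ → A'.valuation (κ x) ≤ 1 := fun x hx => by
    rcases eq_or_ne x 0 with rfl | e
    exacts [by simp, (hA' _).1.2 (by rw [h1, U' x (mem x hx) e])]
  have ip : IP A' ((f i).map κ) := fun k => by
    rw [coeff_map]; exact le _ (Or.inr (Or.inl ⟨k, rfl⟩))
  have z0 := (hA' _).1.2 (h2 _ (Or.inr ⟨i, rfl⟩))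
  have zi := ip.it z0
  have cg : ∀ x ∈ F, ∀ y ∈ F, Cg A' (κ x) (κ y) → Cg A x y := fun x hx y hy e =>
    (hι _ (sub_mem hx hy)).2.2 (by rw [← h1, map_sub]; exact (hA' _).2.1 e)
  by_contra hn
  have hn := Nat.frequently_atTop_iff_infinite.1 (not_eventually.1 hn)
  choose! δ hδ using fun n (e : ¬ ‖ψ (((f i).map κ).derivative.eval
      (it ((f i).map κ) n (z i)))‖ = 1) => near_crit ip (hg i).mon (le_antisymm (v_nat _ _)
    (not_lt.1 fun c => ((hA' _).2.1 c).ne (by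
      rw [natDegree_map, ← map_natCast κ, h1]
      exact U' _ (mem _ (Or.inl rfl)) (Nat.cast_ne_zero.2 (by have := (hG i).deg; omega)))))
    (zi n) ((hA' _).2.2 (lt_of_le_of_ne ((hA' _).1.1 (ip.deriv.eval (zi n))) e))
  obtain ⟨n, c1, m, c2, lt, e⟩ := hn.exists_lt_map_eq_of_mapsTo (f := δ)
    (fun n e => (hδ n e).1) (fin_crit (hg i).deg)
  obtain ⟨k, rfl⟩ := Nat.exists_eq_add_of_lt lt
  obtain ⟨a1, a2⟩ := hδ _ c1
  have a3 := (hδ _ c2).2
  obtain ⟨γ, hγ⟩ := crit_range κ (hG i).deg a1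
  rw [← e, ← hγ] at a3
  rw [← hγ] at a1 a2
  rw [crit_map] at a1
  have m1 := mem γ (Or.inr (Or.inr a1))
  obtain ⟨r, hr, h4⟩ := h3 i
  have pr : Per (f i) γ := by_contra fun c => (hp ⟨i, r, hr⟩ γ a1).1 c (k + 1) k.succ_pos
    (cg _ (it_mem co (hF _ m1) _) _ (hF _ m1) (by
      rw [add_assoc, add_comm, it_add] at a3
      rw [← it_map]
      exact (a2.symm.it ip (zi n) _).trans a3))
  have c : Cg A' (z i) (κ r) := (hA' _).2.2 (by rwa [map_sub, h1])
  exact (hp ⟨i, r, hr⟩ γ a1).2 pr (((hR i).2 r hr).elim (fun e => (wand_map κ).1 (e ▸ hw))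
    not_not.1) n (cg _ (it_mem co (hF _ (Or.inl (Or.inr (Set.mem_iUnion_of_mem i hr)))) _) _
    (hF _ m1) (by rw [← it_map]; exact (c.symm.it ip z0 n).trans a2))

end Pool.Agent.P.MP_68214b_ag.DP
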