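import Pool.Agent.P.MP_68214b_ag.DP10
import Pool.Agent.P.MP_68214b_ag.DP12

/-! The main theorem. -/

open Polynomial Filter

namespace Pool.Agent.P.MP_68214b_ag.DP

theorem per_of {P : ℕ → Prop} {l n0 : ℕ} (hl : 0 < l)
    (h : ∀ c, n0 ≤ c → (∃ᶠ t in atTop, P (c + l * t)) → ∀ t, P (c + l * t)) :
    ∃ n1, ∀ n ≥ n1, (P n ↔ P (n + l)) := by
  have h1 : ∀ c, ∀ᶠ t in atTop, (P (n0 + c + l * t) ↔ P (n0 + c + l * (t + 1))) := fun c => by
    by_cases hv : ∃ᶠ t in atTop, P (n0 + c + l * t)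
    · exact .of_forall fun t => iff_of_true (h _ le_self_add hv _) (h _ le_self_add hv _)
    · have e := not_frequently.1 hv
      filter_upwards [e, (tendsto_add_atTop_nat 1).eventually e] with t a b using iff_of_false a b
  obtain ⟨t0, h2⟩ := eventually_atTop.1
    ((eventually_all_finset (Finset.range l)).2 fun c _ => h1 c)
  refine ⟨n0 + l * t0, fun n hn => ?_⟩
  obtain ⟨n, rfl⟩ := Nat.exists_eq_add_of_le (le_self_add.trans hn)
  have := h2 (n / l) ((Nat.le_div_iff_mul_le hl).2 (by rw [mul_comm]; omega)) (n % l)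
    (Finset.mem_range.2 (Nat.mod_lt _ hl))
  rwa [mul_add, mul_one, ← add_assoc, add_assoc n0, Nat.mod_add_div] at this

theorem ev_per {E : Type} [Field E] {g : E[X]} {x : E} (h : ¬ Wand g x) :
    ∃ q, 0 < q ∧ ∀ k, ∀ᶠ n in atTop, it g (n + q * k) x = it g n x := by
  obtain ⟨a, -, b, -, lt, e⟩ := Set.infinite_univ.exists_lt_map_eq_of_mapsTo
    (f := fun n => it g n x) (fun n _ => Set.mem_range_self n) (Set.not_infinite.1 h)
  obtain ⟨q, rfl⟩ := Nat.exists_eq_add_of_lt lt
  refine ⟨q + 1, q.succ_pos, fun k => eventually_atTop.2 ⟨a, fun n hn => ?_⟩⟩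
  obtain ⟨n, rfl⟩ := Nat.exists_eq_add_of_le hn
  induction k with
  | zero => rfl
  | succ k ih =>
    rw [← ih, show a + n + (q + 1) * (k + 1) = n + (q + 1) * k + (a + q + 1) by ring, it_add, ← e,
      ← it_add]
    congr 1; ring

theorem mainP {I J : Type} [Fintype I] [Fintype J] [DecidableEq J] (f : I → ℂ[X])
    (G : J → MvPolynomial (I ⊕ J) ℂ) {c : ℂ} (hc : c ≠ 0)
    (hG : (Matrix.of fun j k => MvPolynomial.pderiv (Sum.inr k) (G j)).det = MvPolynomial.C c)
    (x : ℕ → I ⊕ J → ℂ) (h1 : ∀ n i, x (n + 1) (.inl i) = (f i).eval (x n (.inl i)))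
    (h2 : ∀ n j, x (n + 1) (.inr j) = MvPolynomial.eval (x n) (G j))
    {A0 : ValuationSubring ℂ}
    (hf : ∀ i, ∃ a b : ℂ, ∃ g : ℂ[X], a ≠ 0 ∧ (f i).comp (C a * X + C b) = C a * g + C b ∧
      (∀ k, IsAlgebraic ℚ (g.coeff k)) ∧ Ok A0 g)
    (S : Set (MvPolynomial (I ⊕ J) ℂ)) : ∃ l, 0 < l ∧ ∃ n0, ∀ n ≥ n0,
      ((∀ P ∈ S, MvPolynomial.eval (x n) P = 0) ↔ ∀ P ∈ S, MvPolynomial.eval (x (n + l)) P = 0) := by
  classical
  choose a b g ha e h3 hg using hf
  set z := fun i => (x 0 (.inl i) - b i) / a i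
  have xz : ∀ i n, x n (.inl i) = a i * it (g i) n (z i) + b i := fun i n => by
    induction n with
    | zero => simp only [it_zero, z]; field_simp [ha i]; ring
    | succ n ih => simpa [h1, ih, it_succ'] using congrArg (eval (it (g i) n (z i))) (e i)
  have der : ∀ i n, (f i).derivative.eval (x n (.inl i)) =
      (g i).derivative.eval (it (g i) n (z i)) := fun i n => by
    simpa [derivative_comp, ← xz, ha i] using
      congrArg (fun q => eval (it (g i) n (z i)) (derivative q)) (e i)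
  obtain ⟨p, hp, ψ, hD, hψ⟩ := good_emb g hg h3 z ((((Set.finite_iUnion fun i =>
    fin_coeff (f i)).union (Set.finite_iUnion fun j => (G j).coeffs.finite_toSet)).union
    (Set.finite_range (x 0))).insert c)
  obtain ⟨A, hA⟩ := exists_pl ψ
  have hO := fun d hd => (A.valuation_le_one_iff d).1 ((hA d).1.2 (by
    rcases eq_or_ne d 0 with rfl | e
    exacts [by simp, (hD d (Or.inr hd) e).le]))
  let R := (MvPolynomial.map (σ := I ⊕ J) A.subtype).range
  have RC : ∀ d ∈ A, MvPolynomial.C d ∈ R := fun d hd => ⟨.C ⟨d, hd⟩, MvPolynomial.map_C _ _⟩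
  have RX : ∀ i, MvPolynomial.X i ∈ R := fun i => ⟨.X i, MvPolynomial.map_X _ _⟩
  have Rf : ∀ i, aeval (MvPolynomial.X (.inl i)) (f i) ∈ R := fun i => by
    rw [aeval_eq_sum_range]
    refine sum_mem fun k _ => ?_
    rw [MvPolynomial.smul_eq_C_mul]
    exact mul_mem (RC _ (hO _ (Or.inl (Or.inl (Set.mem_iUnion.2 ⟨i, k, rfl⟩))))) (pow_mem (RX _) k)
  have RG : ∀ j, G j ∈ R := fun j => MvPolynomial.mem_range_map_iff_coeffs_subset.2
    fun d hd => ⟨⟨d, hO d (Or.inl (Or.inr (Set.mem_iUnion.2 ⟨j, hd⟩)))⟩, rfl⟩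
  have ev : ∀ (y : I ⊕ J → ℂ) i (q : ℂ[X]), MvPolynomial.eval y (aeval (.X i) q) = q.eval (y i) :=
    fun y i q => MvPolynomial.eval_toMvPolynomial y i q
  have xA : ∀ n i, x n i ∈ A := fun n => by
    induction n with
    | zero => exact fun i => hO _ (Or.inr ⟨i, rfl⟩)
    | succ n ih =>
      have : ∀ P ∈ R, MvPolynomial.eval (x n) P ∈ A := by
        rintro _ ⟨P, rfl⟩
        rw [MvPolynomial.eval_map]
        exact MvPolynomial.eval₂_mem (s := A.toSubring) (fun m _ => (P.coeff m).2) ih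
      rintro (i | j)
      · rw [h1, ← ev]; exact this _ (Rf i)
      · rw [h2]; exact this _ (RG j)
  choose! q hq using fun i => ev_per (g := g i) (x := z i)
  let Q := ∏ i with ¬ Wand (g i) (z i), q i
  obtain ⟨n1, hn⟩ := eventually_atTop.1 (eventually_all.2 fun i => show ∀ᶠ n in atTop,
      (Wand (g i) (z i) → ‖ψ ((f i).derivative.eval (x n (.inl i)))‖ = 1) ∧
      (¬ Wand (g i) (z i) → x (n + Q) (.inl i) = x n (.inl i)) by
    by_cases w : Wand (g i) (z i)
    · exact (hψ i w).mono fun n e => ⟨fun _ => by rwa [der], fun c => (c w).elim⟩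
    · obtain ⟨k, hk⟩ := (Finset.dvd_prod_of_mem q (by simpa using w) : q i ∣ Q)
      exact ((hq i w).2 k).mono fun n e => ⟨fun c => (w c).elim, fun _ => by
        rw [xz, xz, ← e, ← hk]⟩)
  let Ψ : ℕ → I ⊕ J → MvPolynomial (I ⊕ J) ℂ := fun n => Sum.elim (fun i =>
    if Wand (g i) (z i) then aeval (.X (.inl i)) (f i) else
      .X (.inl i) + .C (x (n1 + n + 1) (.inl i) - x (n1 + n) (.inl i))) G
  have me : ∀ n P, MvPolynomial.eval (fun j => ψ (x n j)) (MvPolynomial.map ψ P) =
      ψ (MvPolynomial.eval (x n) P) := fun n P => (MvPolynomial.map_eval ψ (x n) P).symm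
  obtain ⟨l, hl, n0, H⟩ := pad (q := Q) (Finset.prod_pos fun i hi =>
      (hq i (Finset.mem_filter.1 hi).2).1) (fun n j => MvPolynomial.map ψ (Ψ n j)) (fun n => by
      funext j
      rcases j with i | j
      · simp only [Ψ, Sum.elim_inl]
        split_ifs with w
        · rfl
        · rw [← add_assoc, add_right_comm _ Q, (hn _ (by omega) i).2 w, (hn _ (by omega) i).2 w]
      · rfl) (fun n j m => by
      obtain ⟨P, hP⟩ : Ψ n j ∈ R := by
        rcases j with i | j
        · simp only [Ψ, Sum.elim_inl]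
          split_ifs
          exacts [Rf i, add_mem (RX _) (RC _ (sub_mem (xA _ _) (xA _ _)))]
        · exact RG j
      rw [MvPolynomial.coeff_map, ← hP, MvPolynomial.coeff_map]
      exact (hA _).1.1 (A.valuation_le_one _)) (fun n j => ψ (x (n1 + n) j)) (fun n j => by
      rw [me]
      rcases j with i | j
      · simp only [Ψ, Sum.elim_inl]
        split_ifs
        · rw [ev, ← h1, add_assoc]
        · simp [add_assoc]
      · exact congrArg ψ (h2 _ j))
    (fun j => (hA _).1.1 ((A.valuation_le_one_iff _).2 (xA _ j))) fun n => by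
      have : (Matrix.of fun i j => MvPolynomial.eval (fun j => ψ (x (n1 + n) j))
          (MvPolynomial.pderiv j (MvPolynomial.map ψ (Ψ n i)))) = ψ.mapMatrix (Matrix.fromBlocks
          (Matrix.diagonal fun i => if Wand (g i) (z i) then
            (f i).derivative.eval (x (n1 + n) (.inl i)) else 1) 0
          (.of fun j i => MvPolynomial.eval (x (n1 + n)) (MvPolynomial.pderiv (.inl i) (G j)))
          ((MvPolynomial.eval (x (n1 + n))).mapMatrix
            (.of fun j k => MvPolynomial.pderiv (Sum.inr k) (G j)))) := by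
        ext i j
        rw [Matrix.of_apply, MvPolynomial.pderiv_map, me]
        refine congrArg ψ ?_
        rcases i with i | i <;> rcases j with j | j
        · simp only [Ψ, Sum.elim_inl, Matrix.fromBlocks_apply₁₁, Matrix.diagonal_apply]
          split_ifs <;> simp [Derivation.map_aeval, *]
        · simp only [Ψ, Sum.elim_inl]
          split_ifs <;> simp [Derivation.map_aeval]
        · rfl
        · rfl
      rw [this, ← RingHom.map_det, Matrix.det_fromBlocks_zero₁₂, Matrix.det_diagonal,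
        ← RingHom.map_det, hG, MvPolynomial.eval_C, map_mul, map_prod, norm_mul, norm_prod,
        hD c (Or.inl rfl) hc, mul_one]
      refine Finset.prod_eq_one fun i _ => ?_
      split_ifs with w
      exacts [(hn _ (by omega) i).1 w, by simp]
  refine ⟨l, hl, per_of (n0 := n1 + n0) hl fun c hc hv t P hP => ?_⟩
  obtain ⟨c, rfl⟩ := Nat.exists_eq_add_of_le (le_self_add.trans hc)
  have := H c (by omega) (MvPolynomial.map ψ P) (hv.mono fun t e => by
    rw [me, ← add_assoc, e P hP, map_zero]) t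
  rwa [me, ← add_assoc, map_eq_zero] at this

theorem q1 {J : Type} (Ψ : J → MvPolynomial J ℂ) (α : J → ℂ) (I : Set (MvPolynomial J ℂ))
    (Φ : (J → ℂ) → J → ℂ) (hΦ : ∀ p i, Φ p i = MvPolynomial.eval p (Ψ i))
    (Z : Set (MvPolynomial J ℂ) → Set (J → ℂ))
    (hZ : ∀ S p, p ∈ Z S ↔ ∀ F ∈ S, MvPolynomial.eval p F = 0) {l n0 : ℕ} (hl : 0 < l)
    (h : ∀ n ≥ n0, (Φ^[n] α ∈ Z I ↔ Φ^[n + l] α ∈ Z I))
    (hn : ¬ ∃ S, (Z S).Infinite ∧ Z S ⊆ Z I ∧ (∃ k ≥ 1, Set.MapsTo Φ^[k] (Z S) (Z S)) ∧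
      ∃ n, Φ^[n] α ∈ Z S) : (Z I ∩ Set.range fun n => Φ^[n] α).Finite := by
  have hq (k : ℕ) : ∀ F : MvPolynomial J ℂ, ∃ G : MvPolynomial J ℂ, ∀ p,
      MvPolynomial.eval (Φ^[k] p) F = MvPolynomial.eval p G := by
    induction k with
    | zero => exact fun F => ⟨F, fun _ => rfl⟩
    | succ k ih =>
      intro F
      obtain ⟨G, hG⟩ := ih (MvPolynomial.bind₁ Ψ F)
      refine ⟨G, fun p => ?_⟩
      rw [← hG, Function.iterate_succ_apply', funext (hΦ _)]
      exact (MvPolynomial.aeval_bind₁ _ Ψ F).symm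
  by_contra hinf
  have inj : Function.Injective fun n => Φ^[n] α := by
    refine Function.Injective.of_lt_imp_ne fun a b hab e =>
      Set.Infinite.mono Set.inter_subset_right hinf ?_
    refine ((Set.finite_lt_nat b).image fun n => Φ^[n] α).subset ?_
    rintro _ ⟨n, rfl⟩
    induction n using Nat.strong_induction_on with
    | _ n ih =>
      by_cases hn : n < b
      · exact ⟨n, hn, rfl⟩
      · obtain ⟨c, rfl⟩ := Nat.exists_eq_add_of_le' (not_lt.1 hn)
        have := ih (c + a) (by omega)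
        simp only [Function.iterate_add_apply] at this ⊢
        rwa [← e]
  obtain ⟨n, hn0, hI⟩ : ∃ n ≥ n0, Φ^[n] α ∈ Z I := by
    by_contra! H
    refine hinf (((Set.finite_lt_nat n0).image fun n => Φ^[n] α).subset ?_)
    rintro _ ⟨h, n, rfl⟩
    exact ⟨n, not_le.1 fun hn => H n hn h, rfl⟩
  have mem (j : ℕ) : Φ^[n + l * j] α ∈
      Z {F | ∀ j, MvPolynomial.eval (Φ^[n + l * j] α) F = 0} := (hZ _ _).2 fun F hF => hF j
  have hI' (j : ℕ) : Φ^[n + l * j] α ∈ Z I := by
    induction j with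
    | zero => exact hI
    | succ j ih =>
      rw [mul_add, mul_one, ← add_assoc]
      exact (h _ (le_add_right hn0)).1 ih
  refine hn ⟨_, Set.infinite_of_injective_forall_mem (fun i j e => ?_) mem,
    fun p hp => (hZ _ _).2 fun F hF => (hZ _ _).1 hp F fun j => (hZ _ _).1 (hI' j) F hF,
    ⟨l, hl, fun p hp => (hZ _ _).2 fun F hF => ?_⟩, _, mem 0⟩
  · exact Nat.eq_of_mul_eq_mul_left hl (Nat.add_left_cancel (inj e))
  · obtain ⟨G, hG⟩ := hq l F
    rw [hG]
    refine (hZ _ _).1 hp G fun j => ?_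
    rw [← hG, ← Function.iterate_add_apply, ← hF (j + 1)]
    congr 3
    ring

end Pool.Agent.P.MP_68214b_ag.DP
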