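import Pool.Agent.P.MP_68214b_ag.DP1

/-! Inertia. -/

open Polynomial NumberField IsDedekindDomain

namespace Pool.Agent.P.MP_68214b_ag.DP

/-- the valuation upstairs is the power of the one downstairs given by the inertia group -/
theorem dp2_val (K M : Type) [Field K] [NumberField K] [Field M] [NumberField M] [Algebra K M]
    (G : Type) [Group G] [Finite G] [MulSemiringAction G M] [IsGaloisGroup G K M]
    (Q : HeightOneSpectrum (𝓞 M)) : ∃ P : HeightOneSpectrum (𝓞 K), ∀ x : K,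
      Q.valuation M (algebraMap K M x) = P.valuation K x ^ Nat.card (Q.asIdeal.inertia G) := by
  let P : HeightOneSpectrum (𝓞 K) := Q.under (𝓞 K)
  have : Q.asIdeal.LiesOver P.asIdeal := ⟨rfl⟩
  have := Q.isPrime
  have := P.isPrime
  have := P.isMaximal
  have : Finite (𝓞 K ⧸ P.asIdeal) := Ideal.finiteQuotientOfFreeOfNeBot _ P.ne_bot
  have : Finite P.asIdeal.ResidueField := inferInstance
  refine ⟨P, fun x => ?_⟩
  rw [← HeightOneSpectrum.valuation_liesOver M P Q x,
    Ideal.ramificationIdx'_eq_ramificationIdx _ _ P.ne_bot,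
    Ideal.card_inertia_eq_ramificationIdxIn (G := G) P.asIdeal Q.asIdeal,
    Ideal.ramificationIdxIn_eq_ramificationIdx P.asIdeal Q.asIdeal G]

theorem dp2_fix (K M : Type) [Field K] [NumberField K] [Field M] [NumberField M] [Algebra K M]
    [IsGalois K M] (Q : HeightOneSpectrum (𝓞 M)) (y : M)
    (hy : ∀ g ∈ Q.asIdeal.inertia (M ≃ₐ[K] M), g y = y) :
    ∃ z : K, Q.valuation M y = Q.valuation M (algebraMap K M z) := by
  let I := Q.asIdeal.inertia (M ≃ₐ[K] M)
  let F : IntermediateField K M := FixedPoints.intermediateField I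
  have : NumberField F := NumberField.of_intermediateField F
  obtain ⟨P, hP⟩ := dp2_val K M (M ≃ₐ[K] M) Q
  obtain ⟨P0, hP0⟩ := dp2_val F M I Q
  have key : ∀ H : Subgroup I, (∀ g, g ∈ H) → Nat.card H = Nat.card I := fun H hH => by
    rw [(Subgroup.eq_top_iff' H).2 hH, Subgroup.card_top]
  rw [key _ fun g => g.2] at hP0
  have hyF : y ∈ F := fun g => hy g.1 g.2
  obtain ⟨z, hz⟩ := P.valuation_surjective K (P0.valuation F ⟨y, hyF⟩)
  exact ⟨z, by rw [hP, hz, ← hP0]; rfl⟩

theorem dp2_cg (K M : Type) [Field K] [Field M] [NumberField M] [Algebra K M]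
    (Q : HeightOneSpectrum (𝓞 M)) (g : M ≃ₐ[K] M) (hg : g ∈ Q.asIdeal.inertia (M ≃ₐ[K] M))
    (x : M) (hx : Q.valuation M x ≤ 1) : Q.valuation M (g x - x) < 1 := by
  obtain ⟨a, ⟨b, hb⟩, hab⟩ := Q.exists_primeCompl_mul_eq_of_integer x hx
  have ha' : g • a - a ∈ Q.asIdeal := hg a
  have hb' : g • b - b ∈ Q.asIdeal := hg b
  have hgb : g • b ∉ Q.asIdeal := fun h => hb (by simpa using Q.asIdeal.sub_mem h hb')
  have e : ∀ c : 𝓞 M, algebraMap (𝓞 M) M (g • c) = g (algebraMap (𝓞 M) M c) := fun _ => rfl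
  have one : ∀ c : 𝓞 M, c ∉ Q.asIdeal → Q.valuation M (algebraMap (𝓞 M) M c) = 1 := fun c hc =>
    le_antisymm (Q.valuation_le_one c) (not_lt.1 fun h => hc ((Q.valuation_lt_one_iff_mem c).1 h))
  have hm : (g • a - a) * b - a * (g • b - b) ∈ Q.asIdeal :=
    Q.asIdeal.sub_mem (Q.asIdeal.mul_mem_right _ ha') (Q.asIdeal.mul_mem_left _ hb')
  have h1 : Q.valuation M (algebraMap (𝓞 M) M ((g • a - a) * b - a * (g • b - b))) < 1 :=
    (Q.valuation_lt_one_iff_mem (K := M) _).2 hm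
  have h2 : algebraMap (𝓞 M) M ((g • a - a) * b - a * (g • b - b)) =
      (g x - x) * algebraMap (𝓞 M) M b * algebraMap (𝓞 M) M (g • b) := by
    have hab' : x * algebraMap (𝓞 M) M b = algebraMap (𝓞 M) M a := hab
    simp only [map_sub, map_mul, e, ← hab']
    ring
  rwa [h2, map_mul, map_mul, one b hb, one _ hgb, mul_one, mul_one] at h1

variable {E : Type} [Field E] [CharZero E] [IsAlgClosed E] [Algebra.IsAlgebraic ℚ E]

theorem inert (L : IntermediateField ℚ E) [FiniteDimensional ℚ L] {W : Set E} (hW : W.Finite)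
    {A : ValuationSubring E} {p : ℕ} (h : Ov A p) (y : E) :
    (∃ z ∈ L, A.valuation y = A.valuation z) ∨ ∃ s ∈ L.fixingSubgroup,
      (∀ x ∈ W, A.valuation x ≤ 1 → Cg A (s x) x) ∧ s y ≠ y := by
  obtain ⟨M, hfin, hgal, hle, hM⟩ := exists_gal' L (hW.insert y)
  obtain ⟨Q, -, hQ⟩ := center M h
  let : Algebra L M := (IntermediateField.inclusion hle).toAlgebra
  have : IsScalarTower ℚ L M := IsScalarTower.of_algebraMap_eq fun x => by simp
  have : IsGalois L M := IsGalois.tower_top_of_isGalois ℚ L M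
  have hy : y ∈ M := hM y (Set.mem_insert _ _)
  by_cases hf : ∀ g ∈ Q.asIdeal.inertia (M ≃ₐ[L] M), g ⟨y, hy⟩ = ⟨y, hy⟩
  · obtain ⟨z, hz⟩ := dp2_fix L M Q ⟨y, hy⟩ hf
    exact Or.inl ⟨z, z.2, (Valuation.IsEquiv.eq_iff hQ).2 hz⟩
  · push Not at hf
    obtain ⟨g, hg, hgy⟩ := hf
    have hs : ∀ x : M, (g.restrictScalars ℚ).liftNormal E (x : E) = (g x : M) := fun x =>
      AlgEquiv.liftNormal_commutes (g.restrictScalars ℚ) E x
    refine Or.inr ⟨(g.restrictScalars ℚ).liftNormal E, ?_, fun x hx hx1 => ?_, fun e => hgy ?_⟩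
    · rw [IntermediateField.mem_fixingSubgroup_iff]
      intro x hx
      have e := hs (algebraMap L M ⟨x, hx⟩)
      rw [g.commutes] at e
      exact e
    · have hxM : x ∈ M := hM x (Set.mem_insert_of_mem _ hx)
      have h1 := dp2_cg L M Q g hg ⟨x, hxM⟩ ((Valuation.IsEquiv.le_one_iff_le_one hQ).1 hx1)
      have h2 := (Valuation.IsEquiv.lt_one_iff_lt_one hQ).2 h1
      have e := hs ⟨x, hxM⟩
      unfold Cg
      rw [show ((⟨x, hxM⟩ : M) : E) = x from rfl] at e
      rw [e]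
      exact h2
    · apply Subtype.ext
      rw [← hs]
      exact e

end Pool.Agent.P.MP_68214b_ag.DP
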