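import Pool.Agent.P.MP_68214b_ag.DP1

/-! Frobenius elements, conjugate places and p-adic embeddings. -/

open Polynomial NumberField IsDedekindDomain

namespace Pool.Agent.P.MP_68214b_ag.DP

variable {E : Type} [Field E] [CharZero E] [IsAlgClosed E] [Algebra.IsAlgebraic ℚ E]

theorem dp2b_under {R : Type} [CommRing R] {Q : Ideal R} [Q.IsPrime] {p : ℕ} (hp : p.Prime)
    (h : (p : R) ∈ Q) : Q.under ℤ = Ideal.span {(p : ℤ)} := by
  have hm : (Ideal.span {(p : ℤ)}).IsMaximal :=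
    PrincipalIdealRing.isMaximal_of_irreducible (Nat.prime_iff_prime_int.1 hp).irreducible
  refine (hm.eq_of_le (Ideal.IsPrime.ne_top inferInstance) ?_).symm
  rw [Ideal.span_singleton_le_iff_mem, Ideal.under_def, Ideal.mem_comap]
  simpa using h

theorem dp2b_lift (L : IntermediateField ℚ E) (σ : L ≃ₐ[ℚ] L) :
    ∃ φ : E ≃ₐ[ℚ] E, ∀ x : L, φ x = σ x :=
  ⟨σ.liftNormal E, fun x => σ.liftNormal_commutes E x⟩

theorem frobex (L : IntermediateField ℚ E) [FiniteDimensional ℚ L] [IsGalois ℚ L]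
    {A : ValuationSubring E} {p : ℕ} (h : Ov A p) :
    ∃ φ : E ≃ₐ[ℚ] E, ∀ x ∈ L, A.valuation x ≤ 1 → Cg A (φ x) (x ^ p) := by
  obtain ⟨Q, hp, hQ⟩ := center L h
  have := Q.isPrime
  have : Finite (𝓞 L ⧸ Q.asIdeal) := Ideal.finiteQuotientOfFreeOfNeBot _ Q.ne_bot
  obtain ⟨σ, hσ⟩ := IsArithFrobAt.exists_of_isInvariant ℤ (L ≃ₐ[ℚ] L) Q.asIdeal
  obtain ⟨φ, hφ⟩ := dp2b_lift L σ
  have hc : Nat.card (ℤ ⧸ Q.asIdeal.under ℤ) = p := by
    rw [dp2b_under h.1 hp, Nat.card_congr (Int.quotientSpanNatEquivZMod p).toEquiv, Nat.card_zmod]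
  have key : ∀ a : 𝓞 L, Cg A (φ ((a : L) : E)) (((a : L) : E) ^ p) := by
    intro a
    have h1 := hσ a
    rw [hc, hQ.mem] at h1
    rw [Cg, hφ]
    exact h1
  refine ⟨φ, fun x hx hv => ?_⟩
  obtain ⟨a, b, hab⟩ := Q.exists_primeCompl_mul_eq_of_integer (⟨x, hx⟩ : L)
    (hQ.le_one_iff_le_one.1 hv)
  have e : x * (((b : 𝓞 L) : L) : E) = ((a : L) : E) := congrArg Subtype.val hab
  have hb : A.valuation (((b : 𝓞 L) : L) : E) = 1 := by
    refine le_antisymm (int_le A ?_) (not_lt.1 fun hlt => b.2 ((hQ.mem _).2 hlt))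
    exact (b : 𝓞 L).isIntegral_coe.map (IsScalarTower.toAlgHom ℤ L E)
  have hb' : A.valuation (φ (((b : 𝓞 L) : L) : E)) = 1 :=
    (key b).unit (by rw [map_pow, hb, one_pow])
  have h2 : Cg A (x ^ p * φ (((b : 𝓞 L) : L) : E)) (((a : L) : E) ^ p) := by
    rw [← e, mul_pow]
    exact (key b).mul_left (by rw [map_pow]; exact pow_le_one₀ zero_le hv)
  have h3 := (key a).trans h2.symm
  rw [Cg, ← e, map_mul, ← sub_mul, map_mul, hb', mul_one] at h3
  exact h3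

theorem conj_place (F : IntermediateField ℚ E) [FiniteDimensional ℚ F]
    {A A' : ValuationSubring E} {p : ℕ} (h : Ov A p) (h' : Ov A' p) :
    ∃ t : E ≃ₐ[ℚ] E, ∀ x ∈ F, ((A.valuation x ≤ 1 ↔ A'.valuation (t x) ≤ 1) ∧
      (A.valuation x < 1 ↔ A'.valuation (t x) < 1)) := by
  obtain ⟨L, _, _, hFL, -⟩ := exists_gal' F Set.finite_empty
  obtain ⟨Q, hp, hQ⟩ := center L h
  obtain ⟨Q', hp', hQ'⟩ := center L h'
  have := Q.isPrime
  have := Q'.isPrime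
  obtain ⟨σ, hσ⟩ := Algebra.IsInvariant.exists_smul_of_under_eq ℤ (𝓞 L) (L ≃ₐ[ℚ] L)
    Q.asIdeal Q'.asIdeal ((dp2b_under h.1 hp).trans (dp2b_under h.1 hp').symm)
  obtain ⟨t, ht⟩ := dp2b_lift L σ
  have h'' : Ov (A'.comap (t : E →+* E)) p := ⟨h.1, by rw [comap_lt, map_natCast]; exact h'.2⟩
  obtain ⟨Q'', -, hQ''⟩ := center L h''
  have e : Q'' = Q := by
    refine HeightOneSpectrum.ext (Ideal.ext fun a => ?_)
    rw [hQ''.mem, comap_lt, ← Ideal.smul_mem_pointwise_smul_iff (a := σ), ← hσ, hQ'.mem]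
    erw [ht]
    rfl
  subst e
  have hE := hQ.trans hQ''.symm
  refine ⟨t, fun x hx => ⟨?_, ?_⟩⟩
  · exact (hE.le_one_iff_le_one (x := ⟨x, hFL hx⟩)).trans (comap_le A' (t : E →+* E) x)
  · exact (hE.lt_one_iff_lt_one (x := ⟨x, hFL hx⟩)).trans (comap_lt A' (t : E →+* E) x)

theorem iota (F : IntermediateField ℚ E) [FiniteDimensional ℚ F] {A : ValuationSubring E}
    {p : ℕ} [Fact p.Prime] (h : Ov A p) : ∃ ι : E →+* PadicAlgCl p,
      ∀ x ∈ F, ((A.valuation x ≤ 1 ↔ ‖ι x‖ ≤ 1) ∧ (A.valuation x < 1 ↔ ‖ι x‖ < 1)) := by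
  let ι0 : E →ₐ[ℚ] PadicAlgCl p := IsAlgClosed.lift
  let B : ValuationSubring (PadicAlgCl p) := (PadicAlgCl.valued p).v.valuationSubring
  have hE := (PadicAlgCl.valued p).v.isEquiv_valuation_valuationSubring
  have h1 : ∀ y, B.valuation y ≤ 1 ↔ ‖y‖ ≤ 1 := fun y =>
    hE.le_one_iff_le_one.symm.trans (by rw [← PadicAlgCl.valuation_coe]; norm_cast)
  have h2 : ∀ y, B.valuation y < 1 ↔ ‖y‖ < 1 := fun y =>
    hE.lt_one_iff_lt_one.symm.trans (by rw [← PadicAlgCl.valuation_coe]; norm_cast)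
  have h' : Ov (B.comap (ι0 : E →+* PadicAlgCl p)) p := by
    refine ⟨h.1, ?_⟩
    rw [comap_lt, map_natCast, h2, ← PadicAlgCl.valuation_coe, PadicAlgCl.valuation_p]
    have : (1 : ℝ) < p := by exact_mod_cast h.1.one_lt
    push_cast
    rw [div_lt_one (by linarith)]
    exact this
  obtain ⟨t, ht⟩ := conj_place F h h'
  refine ⟨(ι0 : E →+* PadicAlgCl p).comp (t : E →+* E), fun x hx => ⟨?_, ?_⟩⟩
  · exact (ht x hx).1.trans ((comap_le B _ _).trans (h1 _))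
  · exact (ht x hx).2.trans ((comap_lt B _ _).trans (h2 _))

end Pool.Agent.P.MP_68214b_ag.DP
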