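import Pool.Agent.P.MP_68214b_ag.DP2

/-! A generator of tame inertia. -/

open Polynomial NumberField IsDedekindDomain

namespace Pool.Agent.P.MP_68214b_ag.DP

section abs

variable {M Γ I : Type} [Field M] [LinearOrderedCommGroupWithZero Γ] (v : Valuation M Γ)

open Classical in
/-- the residue of an integral element -/
noncomputable def dp2c_res (x : M) : IsLocalRing.ResidueField v.valuationSubring :=
  if h : v x ≤ 1 then IsLocalRing.residue v.valuationSubring ⟨x, h⟩ else 0

theorem dp2c_mul {x y : M} (hx : v x ≤ 1) (hy : v y ≤ 1) :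
    dp2c_res v (x * y) = dp2c_res v x * dp2c_res v y := by
  have h : v (x * y) ≤ 1 := by rw [map_mul]; exact mul_le_one' hx hy
  rw [dp2c_res, dp2c_res, dp2c_res, dif_pos h, dif_pos hx, dif_pos hy, ← map_mul]
  rfl

theorem dp2c_one : dp2c_res v 1 = 1 := by
  rw [dp2c_res, dif_pos (map_one v).le]
  exact map_one _

theorem dp2c_eq {x y : M} (hx : v x ≤ 1) (hy : v y ≤ 1) :
    dp2c_res v x = dp2c_res v y ↔ v (x - y) < 1 := by
  rw [dp2c_res, dp2c_res, dif_pos hx, dif_pos hy, ← sub_eq_zero, ← map_sub,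
    IsLocalRing.residue_eq_zero_iff, ValuationSubring.valuation_lt_one_iff]
  exact v.isEquiv_valuation_valuationSubring.lt_one_iff_lt_one.symm

variable [Group I] [Finite I] [MulSemiringAction I M]

theorem dp2c_val (cg : ∀ (g : I) x, v x ≤ 1 → v (g • x - x) < 1) (g : I) (x : M) :
    v (g • x) = v x := by
  have lt : ∀ (g : I) x, v x < 1 → v (g • x) < 1 := fun g x h => by
    simpa using v.map_add_lt (cg g x h.le) h
  have key : ∀ (g : I) x, ¬ v (g • x) < v x := fun g x h => by
    have h0 : x ≠ 0 := fun e => by simp [e] at h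
    have h1 : v (g • x / x) < 1 := by
      rwa [map_div₀, div_lt_one₀ (zero_lt_iff.2 ((map_ne_zero v).2 h0))]
    have h2 : StrictAnti fun n : ℕ => v (g ^ n • x) := strictAnti_nat_of_succ_lt fun n => by
      have h3 := lt (g ^ n) _ h1
      rwa [div_eq_mul_inv, smul_mul', smul_inv'', ← div_eq_mul_inv, map_div₀,
        div_lt_one₀ (zero_lt_iff.2 ((map_ne_zero v).2 ((smul_ne_zero_iff_ne _).2 h0))),
        ← mul_smul, ← pow_succ] at h3
    have h4 := h2 (orderOf_pos g)
    simp [pow_orderOf_eq_one] at h4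
  exact le_antisymm (not_lt.1 (by simpa using key g⁻¹ (g • x))) (not_lt.1 (key g x))

theorem dp2c_abs (cg : ∀ (g : I) x, v x ≤ 1 → v (g • x - x) < 1) {p : ℕ} (hp : p.Prime)
    (hv : v p < 1) (π : Mˣ) (hπ : ∀ y : Mˣ, ∃ n : ℤ, v y = v (π ^ n : Mˣ)) :
    ∃ s : I, ∀ y : M, y ≠ 0 → ∀ a, s ^ a • y = y →
      ∃ w u, (∀ g : I, g • u = u) ∧ v y ^ (a * p ^ w) = v u := by
  classical
  have := Fact.mk hp
  have := Fintype.ofFinite I
  have val := dp2c_val v cg
  have v0 : ∀ y : Mˣ, v y ≠ 0 := fun y => (map_ne_zero v).2 y.ne_zero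
  have v1 : ∀ (g : I) (y : Mˣ), v (g • (y : M) / y) ≤ 1 := fun g y => by
    rw [map_div₀, val, div_self (v0 y)]
  have c1 : ∀ (g : I) (y : Mˣ),
      dp2c_res v (g • (y : M) / y) = 1 ↔ v (g • (y : M) - y) < v y := fun g y => by
    rw [← dp2c_one v, dp2c_eq v (v1 g y) (map_one v).le, div_sub_one y.ne_zero, map_div₀,
      div_lt_one₀ (zero_lt_iff.2 (v0 y))]
  let ψ : I → Mˣ →* IsLocalRing.ResidueField v.valuationSubring := fun g =>
    { toFun := fun y => dp2c_res v (g • (y : M) / y)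
      map_one' := by simpa using dp2c_one v
      map_mul' := fun y z => by
        rw [← dp2c_mul v (v1 g y) (v1 g z), Units.val_mul, smul_mul', mul_div_mul_comm] }
  let χ : Mˣ → I →* IsLocalRing.ResidueField v.valuationSubring := fun y =>
    { toFun := fun g => ψ g y
      map_one' := (c1 1 y).2 (by simpa using zero_lt_iff.2 (v0 y))
      map_mul' := fun g h => by
        change dp2c_res v _ = dp2c_res v _ * dp2c_res v _
        have h1 : v (g • (h • (y : M) / y)) ≤ 1 := by rw [val]; exact v1 h y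
        have h2 : g • (y : M) ≠ 0 := (smul_ne_zero_iff_ne _).2 y.ne_zero
        rw [← (dp2c_eq v h1 (v1 h y)).2 (cg g _ (v1 h y)), ← dp2c_mul v (v1 g y) h1, mul_smul,
          div_eq_mul_inv (h • (y : M)), smul_mul', smul_inv'']
        congr 1
        field_simp }
  have same : ∀ (g : I) (y z : Mˣ), v y = v z → ψ g y = ψ g z := fun g y z h => by
    have h1 : v (y / z : Mˣ) = 1 := by rw [Units.val_div_eq_div_val, map_div₀, h, div_self (v0 z)]
    have h2 : ψ g (y / z) = 1 := (c1 g _).2 (by rw [h1]; exact cg g _ h1.le)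
    rw [← div_mul_cancel y z, map_mul, h2, one_mul]
  have : IsCyclic (χ π).toHomUnits.range := isCyclic_of_injective_ringHom
    ((Units.coeHom _).comp (Subgroup.subtype _)) (Units.val_injective.comp Subtype.val_injective)
  obtain ⟨⟨_, s, rfl⟩, hs⟩ := IsCyclic.exists_generator (α := (χ π).toHomUnits.range)
  refine ⟨s, fun y0 hy a ha => ?_⟩
  lift y0 to Mˣ using hy.isUnit with y
  obtain ⟨m, hm⟩ := hπ y
  have h1 : ψ s y ^ a = 1 := (map_pow (χ y) s a).symm.trans
    ((c1 _ y).2 (by rw [ha]; simpa using zero_lt_iff.2 (v0 y)))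
  have h2 : ∀ g, ψ g y ^ a = 1 := fun g => by
    obtain ⟨n, hn⟩ := hs ⟨_, g, rfl⟩
    have h3 : ψ s π ^ n = ψ g π := by
      change χ π s ^ n = χ π g
      simpa using congrArg (fun x : (χ π).toHomUnits.range => x.1.1) hn
    rw [same s y _ hm, map_zpow] at h1
    rw [same g y _ hm, map_zpow, ← h3, ← zpow_mul, mul_comm, zpow_mul, ← zpow_natCast, ← zpow_mul,
      mul_comm, zpow_mul, zpow_natCast, h1, one_zpow]
  obtain ⟨P⟩ : Nonempty (Sylow p I) := inferInstance
  obtain ⟨w, hw⟩ := P.isPGroup'.exists_card_eq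
  obtain ⟨u, hu⟩ : ∃ u : M, u = ∏ t : (P : Subgroup I), (t : I) • (y : M) ^ a := ⟨_, rfl⟩
  have u1 : v u = v (y ^ (a * p ^ w) : Mˣ) := by
    rw [hu, map_prod]
    simp [val, ← Nat.card_eq_fintype_card, hw, pow_mul]
  have u2 : ∀ t ∈ (P : Subgroup I), t • u = u := fun t ht => by
    rw [hu, Finset.smul_prod']
    exact Fintype.prod_equiv (Equiv.mulLeft (⟨t, ht⟩ : (P : Subgroup I))) _ _ fun x =>
      (mul_smul _ _ _).symm
  lift u to Mˣ using ((map_ne_zero v).1 (u1 ▸ v0 _)).isUnit
  have u3 : ∀ g : I, v (g • (u : M) - u) < v u := fun g => (c1 g u).1 (by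
    change ψ g u = 1
    rw [same g u _ u1, map_pow, pow_mul, h2, one_pow])
  let f : I ⧸ (P : Subgroup I) → M := Quotient.lift (fun g => g • (u : M)) fun g h e => by
    have := u2 _ (QuotientGroup.leftRel_apply.1 e)
    rw [mul_smul, inv_smul_eq_iff] at this
    exact this.symm
  have vi : ∀ n : ℤ, v n ≤ 1 := fun n => intCast_mem v.integer n
  have vn : v ((P : Subgroup I).index : M) = 1 := by
    refine le_antisymm (by simpa using vi (P : Subgroup I).index) (not_lt.1 fun hlt => ?_)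
    obtain ⟨b, c, e⟩ :=
      Nat.isCoprime_iff_coprime.2 (hp.coprime_iff_not_dvd.2 P.not_dvd_index)
    have e1 : (b : M) * p + c * (P : Subgroup I).index = 1 := by
      exact_mod_cast congrArg (Int.cast : ℤ → M) e
    have e2 := v.map_add_lt (x := (b : M) * p) (y := c * (P : Subgroup I).index) (g := 1)
      (by rw [map_mul]; exact mul_lt_one_of_nonneg_of_lt_one_right (vi b) zero_le hv)
      (by rw [map_mul]; exact mul_lt_one_of_nonneg_of_lt_one_right (vi c) zero_le hlt)
    simp [e1] at e2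
  refine ⟨w, ∑ q, f q, fun g => ?_, ?_⟩
  · rw [Finset.smul_sum]
    refine Fintype.sum_equiv (MulAction.toPerm g) _ _ fun q => ?_
    induction q using QuotientGroup.induction_on with
    | H x => exact (mul_smul g x (u : M)).symm
  · have e1 : v (((P : Subgroup I).index : M) * u) = v u := by rw [map_mul, vn, one_mul]
    have e2 : ∑ q, f q - ((P : Subgroup I).index : M) * u = ∑ q, (f q - u) := by
      rw [Finset.sum_sub_distrib, Finset.sum_const, nsmul_eq_mul, Finset.card_univ,
        Subgroup.index, Nat.card_eq_fintype_card]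
    have e3 : v (∑ q, f q - ((P : Subgroup I).index : M) * u) < v u := by
      rw [e2]
      refine v.map_sum_lt (v0 u) fun q _ => ?_
      induction q using QuotientGroup.induction_on with
      | H x => exact u3 x
    rw [v.map_eq_of_sub_lt (x := ((P : Subgroup I).index : M) * u) (y := ∑ q, f q) (e1 ▸ e3), e1,
      u1, Units.val_pow_eq_pow_val, map_pow]

end abs

variable {E : Type} [Field E] [CharZero E] [IsAlgClosed E] [Algebra.IsAlgebraic ℚ E]

theorem tame (L : IntermediateField ℚ E) [FiniteDimensional ℚ L] {W : Set E} (hW : W.Finite)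
    {A : ValuationSubring E} {p : ℕ} (h : Ov A p) : ∃ s ∈ L.fixingSubgroup, ∀ y ∈ W, y ≠ 0 →
      ∀ a, 0 < a → (s ^ a) y = y → ∃ w, ∃ z ∈ L, A.valuation y ^ (a * p ^ w) = A.valuation z := by
  obtain ⟨M, hfin, hgal, hle, hM⟩ := exists_gal' L hW
  obtain ⟨Q, -, hQ⟩ := center M h
  let : Algebra L M := (IntermediateField.inclusion hle).toAlgebra
  have : IsScalarTower ℚ L M := IsScalarTower.of_algebraMap_eq fun x => by simp
  have : IsGalois L M := IsGalois.tower_top_of_isGalois ℚ L M
  obtain ⟨π, hπ⟩ := Q.valuation_exists_uniformizer M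
  have h0 : π ≠ 0 := fun e => by
    rw [e, map_zero] at hπ
    exact WithZero.exp_ne_zero hπ.symm
  obtain ⟨g, hg⟩ := dp2c_abs (I := Q.asIdeal.inertia (M ≃ₐ[L] M)) (Q.valuation M)
    (fun g x hx => dp2_cg L M Q g.1 g.2 x hx) h.1
    ((Valuation.IsEquiv.lt_one_iff_lt_one hQ).1 (by simpa using h.2)) (Units.mk0 π h0) fun y =>
      ⟨-WithZero.log (Q.valuation M y), by
        rw [Units.val_zpow_eq_zpow_val, map_zpow₀, Units.val_mk0, hπ, ← WithZero.exp_zsmul,
          smul_eq_mul, mul_neg_one, neg_neg, WithZero.exp_log ((Valuation.ne_zero_iff _).2 y.ne_zero)]⟩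
  have hs : ∀ x : M, (g.1.restrictScalars ℚ).liftNormal E (x : E) = (g • x : M) := fun x =>
    AlgEquiv.liftNormal_commutes (g.1.restrictScalars ℚ) E x
  have hs' : ∀ (a : ℕ) (x : M),
      ((g.1.restrictScalars ℚ).liftNormal E ^ a) (x : E) = (g ^ a • x : M) := fun a => by
    induction a with
    | zero => intro x; simp
    | succ a ih => intro x; rw [pow_succ, pow_succ, AlgEquiv.mul_apply, hs, ih, mul_smul]
  refine ⟨(g.1.restrictScalars ℚ).liftNormal E, ?_, fun y hy hy0 a _ ha => ?_⟩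
  · rw [IntermediateField.mem_fixingSubgroup_iff]
    intro x hx
    exact (hs (algebraMap L M ⟨x, hx⟩)).trans (congrArg Subtype.val (g.1.commutes ⟨x, hx⟩))
  · obtain ⟨w, u, u1, u2⟩ := hg ⟨y, hM y hy⟩ (fun e => hy0 (congrArg Subtype.val e)) a
      (Subtype.ext ((hs' a _).symm.trans ha))
    obtain ⟨z, hz⟩ := dp2_fix L M Q u fun t ht => u1 ⟨t, ht⟩
    rw [hz, ← map_pow] at u2
    refine ⟨w, z, z.2, ?_⟩
    rw [← map_pow]
    exact (Valuation.IsEquiv.eq_iff hQ).2 u2

end Pool.Agent.P.MP_68214b_ag.DP
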