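import Pool.Agent.P.MP_68214b_ag.HsG0

/-! Dirichlet density of the primes of degree one. -/

open Filter Topology NumberField

namespace Pool.Agent.P.MP_68214b_ag.DP

open Pool.Agent.P.MP_68214b_ag.Ch

/-- a bounded sequence with Dirichlet density -/
def Dens (c : ℕ → ℝ) (δ : ℝ) : Prop :=
  (∃ M, ∀ n, |c n| ≤ M) ∧ ∃ C, ∀ᶠ s in 𝓝[>] (1 : ℝ),
    |∑' n : ℕ, c n * (n : ℝ) ^ (-s) + δ * Real.log (s - 1)| ≤ C

theorem dp3a_geo {x : ℝ} (h0 : 0 ≤ x) (h1 : x ≤ 1 / 2) (K : ℕ) :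
    ∑ j ∈ Finset.range K, x ^ j ≤ 1 + x + 2 * x ^ 2 := by
  induction K with
  | zero => rw [Finset.sum_range_zero]; positivity
  | succ K ih =>
    rw [Finset.sum_range_succ']
    simp only [pow_succ _ _, ← Finset.sum_mul, pow_zero] at ih ⊢
    nlinarith [mul_le_mul_of_nonneg_right ih h0, mul_nonneg (mul_nonneg h0 h0) (sub_nonneg.2 h1)]

/-- the finite Euler product bound -/
theorem dp3a_euler {ι α : Type} (A : Finset ι) (m : ι → Multiset α) (hm : Set.InjOn m A)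
    (T : Finset α) (hT : ∀ i ∈ A, ∀ P ∈ m i, P ∈ T) (x : α → ℝ)
    (hx : ∀ P ∈ T, 0 ≤ x P ∧ x P ≤ 1 / 2) :
    ∑ i ∈ A, ((m i).map x).prod ≤ Real.exp (∑ P ∈ T, (x P + 2 * x P ^ 2)) := by
  classical
  obtain ⟨K, hK⟩ : ∃ K, ∀ i ∈ A, (m i).card < K :=
    ⟨A.sup (fun i => (m i).card) + 1, fun i hi =>
      Nat.lt_succ_of_le (Finset.le_sup (f := fun i => (m i).card) hi)⟩
  have inj : Set.InjOn (fun i (P : T) => (m i).count P.1) A := by
    intro i hi j hj e
    refine hm hi hj (Multiset.ext.2 fun P => ?_)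
    by_cases hP : P ∈ T
    · exact congrFun e ⟨P, hP⟩
    · rw [Multiset.count_eq_zero.2 fun h => hP (hT i hi P h),
        Multiset.count_eq_zero.2 fun h => hP (hT j hj P h)]
  calc ∑ i ∈ A, ((m i).map x).prod
      = ∑ i ∈ A, ∏ P : T, x P.1 ^ (m i).count P.1 := by
        refine Finset.sum_congr rfl fun i hi => ?_
        rw [Finset.prod_multiset_map_count, Finset.prod_coe_sort T fun P => x P ^ (m i).count P]
        refine Finset.prod_subset (fun P hP => hT i hi P (Multiset.mem_toFinset.1 hP))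
          fun P _ hP => ?_
        rw [Multiset.count_eq_zero.2 fun h => hP (Multiset.mem_toFinset.2 h), pow_zero]
    _ = ∑ e ∈ A.image (fun i (P : T) => (m i).count P.1), ∏ P : T, x P.1 ^ e P :=
        (Finset.sum_image (f := fun e : T → ℕ => ∏ P : T, x P.1 ^ e P) inj).symm
    _ ≤ ∑ e ∈ Fintype.piFinset (fun _ : T => Finset.range K), ∏ P : T, x P.1 ^ e P := by
        refine Finset.sum_le_sum_of_subset_of_nonneg (fun e he => ?_) fun e _ _ =>
          Finset.prod_nonneg fun P _ => pow_nonneg (hx _ P.2).1 _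
        obtain ⟨i, hi, rfl⟩ := Finset.mem_image.1 he
        exact Fintype.mem_piFinset.2 fun P =>
          Finset.mem_range.2 ((Multiset.count_le_card _ _).trans_lt (hK i hi))
    _ = ∏ P : T, ∑ j ∈ Finset.range K, x P.1 ^ j :=
        (Finset.prod_univ_sum (fun _ : T => Finset.range K) fun P j => x P.1 ^ j).symm
    _ ≤ ∏ P : T, Real.exp (x P.1 + 2 * x P.1 ^ 2) := by
        refine Finset.prod_le_prod (fun P _ => Finset.sum_nonneg fun j _ =>
          pow_nonneg (hx _ P.2).1 _) fun P _ => (dp3a_geo (hx _ P.2).1 (hx _ P.2).2 K).trans ?_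
        have := Real.add_one_le_exp (x P.1 + 2 * x P.1 ^ 2)
        linarith
    _ = _ := by
        rw [Real.exp_sum, Finset.prod_coe_sort T fun P => Real.exp (x P + 2 * x P ^ 2)]

theorem dp3a_fib {α : Type} (T : Finset α) (φ : α → ℕ) (w b : ℕ → ℝ) (hw : ∀ n, 0 ≤ w n)
    (hb0 : ∀ n, 0 ≤ b n) (hb : ∀ P ∈ T, ((T.filter fun Q => φ Q = φ P).card : ℝ) ≤ b (φ P))
    (hs : Summable fun n => b n * w n) : ∑ P ∈ T, w (φ P) ≤ ∑' n, b n * w n := by
  rw [Finset.sum_comp w φ]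
  refine le_trans (Finset.sum_le_sum fun n hn => ?_)
    (hs.sum_le_tsum (T.image φ) fun n _ => mul_nonneg (hb0 n) (hw n))
  obtain ⟨P, hP, rfl⟩ := Finset.mem_image.1 hn
  rw [nsmul_eq_mul]
  exact mul_le_mul_of_nonneg_right (hb P hP) (hw _)

variable (F : Type) [Field F] [NumberField F]

theorem dp3a_card {p : ℕ} (hp : p.Prime) (T : Finset (Ideal (𝓞 F)))
    (h : ∀ P ∈ T, Prime P ∧ (p : 𝓞 F) ∈ P) : T.card ≤ Module.finrank ℤ (𝓞 F) := by
  have d : ∀ I : Ideal (𝓞 F), I ∣ Ideal.span {(p : 𝓞 F)} →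
      I.absNorm ∣ p ^ Module.finrank ℤ (𝓞 F) := fun I hI => by
    rw [← Ideal.absNorm_span_natCast]; exact map_dvd Ideal.absNorm hI
  have h0 : ∀ P ∈ T, P ∣ Ideal.span {(p : 𝓞 F)} := fun P hP =>
    Ideal.dvd_span_singleton.2 (h P hP).2
  have h1 := d _ (Finset.prod_primes_dvd _ (fun P hP => (h P hP).1) h0)
  rw [map_prod] at h1
  refine (pow_le_pow_iff_right₀ hp.one_lt).1 ((Finset.pow_card_le_prod T _ p fun P hP => ?_).trans
    (Nat.le_of_dvd (pow_pos hp.pos _) h1))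
  obtain ⟨k, -, hk⟩ := (Nat.dvd_prime_pow hp).1 (d P (h0 P hP))
  have : k ≠ 0 := by
    rintro rfl
    exact (Ideal.isPrime_of_prime (h P hP).1).ne_top (Ideal.absNorm_eq_one_iff.1 hk)
  rw [hk]
  exact Nat.le_self_pow this p

theorem dp3a_nI (n : ℕ) : nI F n = (Ideal.finite_setOfPred_absNorm_eq (S := 𝓞 F) n).toFinset.card :=
  Nat.subtype_card _ fun I => by simp

theorem dp3a_le {p : ℕ} (hp : p.Prime) : nI F p ≤ Module.finrank ℤ (𝓞 F) := by
  rw [dp3a_nI]
  refine dp3a_card F hp _ fun P hP => ?_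
  have e : P.absNorm = p := by simpa using hP
  refine ⟨Ideal.prime_of_isPrime ?_ (Ideal.isPrime_of_irreducible_absNorm (e ▸ hp)),
    e ▸ Ideal.absNorm_mem P⟩
  rintro rfl
  exact hp.ne_zero (by simpa using e.symm)

theorem dp3a_pow {t s : ℝ} (ht : 1 ≤ t) (hs : 1 ≤ s) : t ^ (-s) ≤ 1 / t := by
  rw [one_div, ← Real.rpow_neg_one]
  exact Real.rpow_le_rpow_of_exponent_le ht (by linarith)

theorem dp3a_upper {s : ℝ} (hs : 1 < s)
    (hY : Summable fun n : ℕ => (if n.Prime then (nI F n : ℝ) else 0) * (n : ℝ) ^ (-s)) :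
    ∑' n : ℕ, (nI F n : ℝ) * (n : ℝ) ^ (-s) ≤
      Real.exp (∑' n : ℕ, (if n.Prime then (nI F n : ℝ) else 0) * (n : ℝ) ^ (-s) +
        3 * ∑' n : ℕ, (Module.finrank ℤ (𝓞 F) : ℝ) * (1 / (n : ℝ) ^ 2)) := by
  classical
  refine Real.tsum_le_of_sum_range_le (fun n => by positivity) fun N => ?_
  obtain ⟨A, hA⟩ : ∃ A : Finset (Ideal (𝓞 F)), ∀ I, I ∈ A ↔ I ≠ ⊥ ∧ I.absNorm ≤ N :=
    ⟨(Ideal.finite_setOfPred_absNorm_le (S := 𝓞 F) N).toFinset.erase ⊥, fun I => by simp⟩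
  have h1 : ∑ n ∈ Finset.range N, (nI F n : ℝ) * (n : ℝ) ^ (-s) ≤
      ∑ I ∈ A, (I.absNorm : ℝ) ^ (-s) := by
    rw [← Finset.sum_fiberwise_of_maps_to (g := fun I : Ideal (𝓞 F) => I.absNorm)
      (t := Finset.range (N + 1)) fun I hI => Finset.mem_range.2 (Nat.lt_succ_of_le ((hA I).1 hI).2),
      Finset.sum_range_succ]
    refine le_add_of_le_of_nonneg (Finset.sum_le_sum fun n hn => ?_)
      (Finset.sum_nonneg fun _ _ => by positivity)
    rcases eq_or_ne n 0 with rfl | h0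
    · rw [Nat.cast_zero, Real.zero_rpow (by linarith), mul_zero]
      exact Finset.sum_nonneg fun _ _ => by positivity
    · rw [Finset.sum_congr rfl fun I hI => by rw [(Finset.mem_filter.1 hI).2], Finset.sum_const,
        nsmul_eq_mul, dp3a_nI]
      refine mul_le_mul_of_nonneg_right (Nat.cast_le.2 (Finset.card_le_card fun I hI => ?_))
        (by positivity)
      have e : I.absNorm = n := by simpa using hI
      refine Finset.mem_filter.2 ⟨(hA I).2 ⟨?_, e ▸ (Finset.mem_range.1 hn).le⟩, e⟩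
      rintro rfl
      exact h0 (by simpa using e.symm)
  obtain ⟨T, hT, hP⟩ : ∃ T : Finset (Ideal (𝓞 F)),
      (∀ I ∈ A, ∀ P ∈ UniqueFactorizationMonoid.normalizedFactors I, P ∈ T) ∧ ∀ P ∈ T, Prime P :=
    ⟨A.biUnion fun I => (UniqueFactorizationMonoid.normalizedFactors I).toFinset,
      fun I hI P h => Finset.mem_biUnion.2 ⟨I, hI, Multiset.mem_toFinset.2 h⟩, fun P h => by
        obtain ⟨I, -, h⟩ := Finset.mem_biUnion.1 h
        exact UniqueFactorizationMonoid.prime_of_normalized_factor _ (Multiset.mem_toFinset.1 h)⟩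
  have hq : ∀ P ∈ T, ∃ p n : ℕ, 0 < n ∧ (p : 𝓞 F) ∈ P ∧ p.Prime ∧ P.absNorm = p ^ n ∧
      P.absNorm.minFac = p := fun P h => by
    have := (Ideal.isPrime_of_prime (hP P h)).isMaximal (hP P h).ne_zero
    obtain ⟨p, n, h1, h2, h3, h4⟩ := Ideal.exists_prime_and_absNorm_eq_pow P
    exact ⟨p, n, h1, h2, h3, h4, by rw [h4, h3.pow_minFac h1.ne']⟩
  have hx : ∀ P ∈ T, (P.absNorm : ℝ) ^ (-s) ≤ 1 / P.absNorm.minFac ∧ (2 : ℝ) ≤ P.absNorm.minFac ∧
      (¬ P.absNorm.Prime → (P.absNorm : ℝ) ^ (-s) ≤ 1 / (P.absNorm.minFac : ℝ) ^ 2) := by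
    intro P h
    obtain ⟨p, n, h1, -, h3, h4, h5⟩ := hq P h
    have a1 : (2 : ℝ) ≤ p := by exact_mod_cast h3.two_le
    have a2 : ∀ k, k ≤ n → (P.absNorm : ℝ) ^ (-s) ≤ 1 / (p : ℝ) ^ k := fun k hk => by
      rw [h4, Nat.cast_pow]
      refine (dp3a_pow (one_le_pow₀ (by linarith)) hs.le).trans ?_
      exact one_div_le_one_div_of_le (by positivity) (pow_le_pow_right₀ (by linarith) hk)
    rw [h5]
    refine ⟨by simpa using a2 1 h1, a1, fun hn => a2 2 ?_⟩
    by_contra hc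
    obtain rfl : n = 1 := by omega
    exact hn (by rw [h4, pow_one]; exact h3)
  have h2 := dp3a_euler A UniqueFactorizationMonoid.normalizedFactors (fun I hI J hJ e => by
      rw [← Ideal.prod_normalizedFactors_eq_self ((hA I).1 hI).1, e,
        Ideal.prod_normalizedFactors_eq_self ((hA J).1 hJ).1]) T hT
    (fun P => (P.absNorm : ℝ) ^ (-s)) fun P h => ⟨by positivity, (hx P h).1.trans
      (one_div_le_one_div_of_le two_pos (hx P h).2.1)⟩
  have h3 : ∑ I ∈ A, (I.absNorm : ℝ) ^ (-s) = ∑ I ∈ A,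
      ((UniqueFactorizationMonoid.normalizedFactors I).map
        fun P => (P.absNorm : ℝ) ^ (-s)).prod := by
    refine Finset.sum_congr rfl fun I hI => ?_
    conv_lhs => rw [← Ideal.prod_normalizedFactors_eq_self ((hA I).1 hI).1]
    induction UniqueFactorizationMonoid.normalizedFactors I using Multiset.induction_on with
    | empty => simp
    | cons P M ih =>
      rw [Multiset.prod_cons, Multiset.map_cons, Multiset.prod_cons, map_mul, Nat.cast_mul,
        Real.mul_rpow (Nat.cast_nonneg _) (Nat.cast_nonneg _), ih]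
  have h4 := dp3a_fib (T.filter fun P => P.absNorm.Prime) (fun P => P.absNorm)
    (fun n => (n : ℝ) ^ (-s)) (fun n => if n.Prime then (nI F n : ℝ) else 0)
    (fun n => by positivity) (fun n => by positivity) (fun P h => by
      rw [if_pos (Finset.mem_filter.1 h).2, dp3a_nI]
      exact Nat.cast_le.2 (Finset.card_le_card fun Q hQ => by
        simpa using (Finset.mem_filter.1 hQ).2)) hY
  have h5 := dp3a_fib T (fun P => P.absNorm.minFac) (fun n => 1 / (n : ℝ) ^ 2)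
    (fun _ => (Module.finrank ℤ (𝓞 F) : ℝ)) (fun n => by positivity) (fun n => by positivity)
    (fun P h => by
      obtain ⟨p, n, -, -, h3, -, h5⟩ := hq P h
      refine Nat.cast_le.2 (dp3a_card F h3 _ fun Q hQ => ?_)
      obtain ⟨hQ, e⟩ := Finset.mem_filter.1 hQ
      obtain ⟨q, k, -, g2, -, -, g5⟩ := hq Q hQ
      exact ⟨hP Q hQ, by rw [← h5, ← e, g5]; exact g2⟩)
    ((Real.summable_one_div_nat_pow.2 one_lt_two).mul_left _)
  refine h1.trans (h3.trans_le (h2.trans (Real.exp_le_exp.2 (le_trans ?_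
    (add_le_add h4 (mul_le_mul_of_nonneg_left h5 zero_le_three))))))
  rw [Finset.sum_filter, Finset.mul_sum, ← Finset.sum_add_distrib]
  refine Finset.sum_le_sum fun P h => ?_
  obtain ⟨a1, a2, a3⟩ := hx P h
  have a4 : ((P.absNorm : ℝ) ^ (-s)) ^ 2 ≤ 1 / (P.absNorm.minFac : ℝ) ^ 2 := by
    rw [← one_div_pow]; gcongr
  have a5 : 0 ≤ 1 / (P.absNorm.minFac : ℝ) ^ 2 := by positivity
  split_ifs with hp
  · linarith
  · linarith [a3 hp]

theorem dp3a_lower {s : ℝ} (hs : 1 < s)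
    (hZ : Summable fun n : ℕ => (nI F n : ℝ) * (n : ℝ) ^ (-s))
    (h0 : 0 < ∑' n : ℕ, (nI F n : ℝ) * (n : ℝ) ^ (-s)) :
    ∑' n : ℕ, (if n.Prime then (nI F n : ℝ) else 0) * (n : ℝ) ^ (-s) ≤
      Real.log (∑' n : ℕ, (nI F n : ℝ) * (n : ℝ) ^ (-s)) +
        ∑' n : ℕ, (Module.finrank ℤ (𝓞 F) : ℝ) ^ 2 * (1 / (n : ℝ) ^ 2) := by
  refine Real.tsum_le_of_sum_range_le (fun n => by positivity) fun N => ?_
  simp only [ite_mul, zero_mul]
  rw [← Finset.sum_filter]
  obtain ⟨R, hR'⟩ : ∃ R, R = (Finset.range N).filter Nat.Prime := ⟨_, rfl⟩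
  have hR : ∀ r ∈ R, r.Prime := fun r hr => (Finset.mem_filter.1 (hR' ▸ hr)).2
  rw [← hR']
  have h1 : ∏ r ∈ R, (1 + (nI F r : ℝ) * (r : ℝ) ^ (-s)) ≤
      ∑' n : ℕ, (nI F n : ℝ) * (n : ℝ) ^ (-s) := by
    rw [Finset.prod_one_add]
    have hinj : Set.InjOn (fun T : Finset ℕ => ∏ r ∈ T, r) R.powerset := by
      intro T hT T' hT' h
      have a1 := Nat.primeFactors_prod (s := T) fun p hp => hR p (Finset.mem_powerset.1 hT hp)
      have a2 := Nat.primeFactors_prod (s := T') fun p hp => hR p (Finset.mem_powerset.1 hT' hp)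
      rw [← a1, ← a2]
      exact congrArg Nat.primeFactors h
    refine le_trans (Finset.sum_le_sum fun T hT => ?_) ((Finset.sum_image
      (f := fun n : ℕ => (nI F n : ℝ) * (n : ℝ) ^ (-s)) hinj).symm.trans_le
        (hZ.sum_le_tsum _ fun n _ => by positivity))
    rw [Finset.prod_mul_distrib, Nat.cast_prod,
      Real.finsetProd_rpow _ _ (fun r _ => Nat.cast_nonneg r)]
    apply mul_le_mul_of_nonneg_right _ (by positivity)
    exact_mod_cast UpChebD_prod F T fun p hp => hR p (Finset.mem_powerset.1 hT hp)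
  have h2 : Real.exp (∑ r ∈ R, ((nI F r : ℝ) * (r : ℝ) ^ (-s) -
      ((nI F r : ℝ) * (r : ℝ) ^ (-s)) ^ 2)) ≤ ∏ r ∈ R, (1 + (nI F r : ℝ) * (r : ℝ) ^ (-s)) := by
    rw [Real.exp_sum]
    exact Finset.prod_le_prod (fun _ _ => (Real.exp_pos _).le) fun r _ =>
      UpChebD_exp (by positivity)
  have h3 := (Real.le_log_iff_exp_le h0).2 (h2.trans h1)
  have h4 : ∑ r ∈ R, ((nI F r : ℝ) * (r : ℝ) ^ (-s)) ^ 2 ≤
      ∑' n : ℕ, (Module.finrank ℤ (𝓞 F) : ℝ) ^ 2 * (1 / (n : ℝ) ^ 2) := by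
    refine le_trans (Finset.sum_le_sum fun r hr => ?_)
      (((Real.summable_one_div_nat_pow.2 one_lt_two).mul_left _).sum_le_tsum R
        fun n _ => by positivity)
    have a1 : (nI F r : ℝ) ≤ Module.finrank ℤ (𝓞 F) := Nat.cast_le.2 (dp3a_le F (hR r hr))
    have a2 := dp3a_pow (t := r) (by exact_mod_cast (hR r hr).one_le) hs.le
    rw [mul_pow, ← one_div_pow]
    gcongr
  rw [Finset.sum_sub_distrib] at h3
  linarith

theorem dp3a_zeta : ∀ᶠ s in 𝓝[>] (1 : ℝ),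
    (s - 1) * ∑' n : ℕ, (nI F n : ℝ) * (n : ℝ) ^ (-s) ∈
      Set.Ioo (dedekindZeta_residue F / 2) (dedekindZeta_residue F + 1) := by
  have h1 := (Complex.continuous_re.tendsto _).comp (tendsto_sub_one_mul_dedekindZeta_nhdsGT F)
  have hp := dedekindZeta_residue_pos F
  filter_upwards [h1.eventually (Ioo_mem_nhds (a := dedekindZeta_residue F / 2)
    (b := dedekindZeta_residue F + 1) (by simpa using hp) (by simp)), self_mem_nhdsWithin]
    with x hj hx
  have hx1 : (1 : ℝ) < x := hx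
  have hz : dedekindZeta F x = ((∑' n : ℕ, (nI F n : ℝ) * (n : ℝ) ^ (-x) : ℝ) : ℂ) := by
    rw [dedekindZeta, LSeries, Complex.ofReal_tsum]
    refine tsum_congr fun n => ?_
    by_cases hn : n = 0
    · subst hn
      rw [Nat.cast_zero, Real.zero_rpow (by linarith)]
      simp
    · rw [LSeries.term_of_ne_zero hn, nI, Real.rpow_neg (Nat.cast_nonneg n)]
      push_cast
      rw [Complex.ofReal_cpow (Nat.cast_nonneg n), div_eq_mul_inv]
      simp
  have hj2 : (((x : ℂ) - 1) * dedekindZeta F x).re ∈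
    Set.Ioo (dedekindZeta_residue F / 2) (dedekindZeta_residue F + 1) := hj
  rwa [hz, ← Complex.ofReal_one, ← Complex.ofReal_sub, ← Complex.ofReal_mul,
    Complex.ofReal_re] at hj2

theorem dens_nI (F : Type) [Field F] [NumberField F] :
    Dens (fun n => if n.Prime then (nI F n : ℝ) else 0) 1 := by
  refine ⟨⟨Module.finrank ℤ (𝓞 F), fun n => ?_⟩,
    |Real.log (dedekindZeta_residue F / 2)| + |Real.log (dedekindZeta_residue F + 1)| +
    3 * ∑' n : ℕ, (Module.finrank ℤ (𝓞 F) : ℝ) * (1 / (n : ℝ) ^ 2) +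
    ∑' n : ℕ, (Module.finrank ℤ (𝓞 F) : ℝ) ^ 2 * (1 / (n : ℝ) ^ 2), ?_⟩
  · dsimp only
    split_ifs with h
    · rw [Nat.abs_cast]; exact Nat.cast_le.2 (dp3a_le F h)
    · simp
  filter_upwards [dp3a_zeta F, self_mem_nhdsWithin] with s hz hs
  have hs1 : (1 : ℝ) < s := hs
  have hp := half_pos (dedekindZeta_residue_pos F)
  have h0 : 0 < ∑' n : ℕ, (nI F n : ℝ) * (n : ℝ) ^ (-s) :=
    pos_of_mul_pos_left (hp.trans hz.1 |>.trans_eq (mul_comm _ _)) (by linarith) |> fun h => h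
  have hZ : Summable fun n : ℕ => (nI F n : ℝ) * (n : ℝ) ^ (-s) := by
    by_contra hn
    exact h0.ne' (tsum_eq_zero_of_not_summable hn)
  have hY : Summable fun n : ℕ => (if n.Prime then (nI F n : ℝ) else 0) * (n : ℝ) ^ (-s) := by
    refine Summable.of_nonneg_of_le (fun n => by positivity) (fun n => ?_) hZ
    split_ifs
    · exact le_rfl
    · rw [zero_mul]; positivity
  have h1 := (Real.log_le_iff_le_exp h0).2 (dp3a_upper F hs1 hY)
  have h2 := dp3a_lower F hs1 hZ h0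
  have h3 := Real.log_le_log hp hz.1.le
  have h4 := Real.log_le_log (hp.trans hz.1) hz.2.le
  rw [Real.log_mul (by linarith) h0.ne'] at h3 h4
  have h5 : 0 ≤ ∑' n : ℕ, (Module.finrank ℤ (𝓞 F) : ℝ) * (1 / (n : ℝ) ^ 2) :=
    tsum_nonneg fun n => by positivity
  have h6 : 0 ≤ ∑' n : ℕ, (Module.finrank ℤ (𝓞 F) : ℝ) ^ 2 * (1 / (n : ℝ) ^ 2) :=
    tsum_nonneg fun n => by positivity
  rw [abs_le]
  constructor
  · linarith [neg_abs_le (Real.log (dedekindZeta_residue F / 2)),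
      abs_nonneg (Real.log (dedekindZeta_residue F + 1))]
  · linarith [le_abs_self (Real.log (dedekindZeta_residue F + 1)),
      abs_nonneg (Real.log (dedekindZeta_residue F / 2))]

end Pool.Agent.P.MP_68214b_ag.DP
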