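import Pool.Agent.P.MP_68214b_ag.DP3a

/-! The group theoretic part of the density theorem of Frobenius. -/

open Filter Topology

namespace Pool.Agent.P.MP_68214b_ag.DP

theorem dp3b_pow (n : ℕ) {s : ℝ} (hs : 1 < s) : |(n : ℝ) ^ (-s)| ≤ 1 := by
  rw [abs_of_nonneg (by positivity)]
  rcases Nat.eq_zero_or_pos n with rfl | hn
  · rw [Nat.cast_zero, Real.zero_rpow (by linarith)]
    exact zero_le_one
  · exact Real.rpow_le_one_of_one_le_of_nonpos (by exact_mod_cast hn) (by linarith)

theorem dp3b_sum {c : ℕ → ℝ} {M s : ℝ} (h : ∀ n, |c n| ≤ M) (hs : 1 < s) :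
    Summable fun n : ℕ => c n * (n : ℝ) ^ (-s) := by
  refine Summable.of_norm_bounded
    ((Real.summable_nat_rpow.2 (by linarith : -s < -1)).mul_left M) fun n => ?_
  rw [Real.norm_eq_abs, abs_mul, abs_of_nonneg (by positivity : 0 ≤ (n : ℝ) ^ (-s))]
  exact mul_le_mul_of_nonneg_right (h n) (by positivity)

theorem dp3b_add {c c' : ℕ → ℝ} {δ δ' : ℝ} (h : Dens c δ) (h' : Dens c' δ') :
    Dens (fun n => c n + c' n) (δ + δ') := by
  obtain ⟨⟨M, hM⟩, C, hC⟩ := h
  obtain ⟨⟨M', hM'⟩, C', hC'⟩ := h'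
  refine ⟨⟨M + M', fun n => (abs_add_le _ _).trans (add_le_add (hM n) (hM' n))⟩, C + C', ?_⟩
  filter_upwards [hC, hC', self_mem_nhdsWithin] with s h1 h2 hs
  simp only [add_mul]
  rw [(dp3b_sum hM hs).tsum_add (dp3b_sum hM' hs), add_add_add_comm]
  exact (abs_add_le _ _).trans (add_le_add h1 h2)

theorem dp3b_fin {c : ℕ → ℝ} {B : ℕ} (e : ∀ n, B < n → c n = 0) : Dens c 0 := by
  refine ⟨⟨∑ i ∈ Finset.range (B + 1), |c i|, fun n => ?_⟩, ∑ i ∈ Finset.range (B + 1), |c i|, ?_⟩
  · by_cases hn : B < n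
    · rw [e n hn, abs_zero]
      exact Finset.sum_nonneg fun _ _ => abs_nonneg _
    · exact Finset.single_le_sum (f := fun i => |c i|) (fun _ _ => abs_nonneg _)
        (Finset.mem_range.2 (by omega))
  · filter_upwards [self_mem_nhdsWithin] with s hs
    rw [zero_mul, add_zero, tsum_eq_sum (s := Finset.range (B + 1)) fun n hn => by
      rw [e n (by simpa using hn), zero_mul]]
    refine (Finset.abs_sum_le_sum_abs _ _).trans (Finset.sum_le_sum fun i _ => ?_)
    rw [abs_mul]
    exact mul_le_of_le_one_right (abs_nonneg _) (dp3b_pow i hs)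

theorem Dens.congr {c c' : ℕ → ℝ} {δ : ℝ} (h : Dens c δ) {B : ℕ} (e : ∀ n, B < n → c n = c' n) :
    Dens c' δ := by
  have := dp3b_add h (dp3b_fin (c := fun n => c' n - c n) (B := B) fun n hn => by
    simp only [e n hn, sub_self])
  simpa using this

theorem Dens.smul {c : ℕ → ℝ} {δ : ℝ} (h : Dens c δ) (a : ℝ) :
    Dens (fun n => a * c n) (a * δ) := by
  obtain ⟨⟨M, hM⟩, C, hC⟩ := h
  refine ⟨⟨|a| * M, fun n => ?_⟩, |a| * C, ?_⟩
  · rw [abs_mul]
    exact mul_le_mul_of_nonneg_left (hM n) (abs_nonneg _)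
  · filter_upwards [hC] with s h1
    simp only [mul_assoc]
    rw [tsum_mul_left, ← mul_add, abs_mul]
    exact mul_le_mul_of_nonneg_left h1 (abs_nonneg _)

theorem dp3b_finsum {ι : Type} (S : Finset ι) {c : ι → ℕ → ℝ} {δ : ι → ℝ}
    (h : ∀ i ∈ S, Dens (c i) (δ i)) : Dens (fun n => ∑ i ∈ S, c i n) (∑ i ∈ S, δ i) := by
  classical
  induction S using Finset.induction_on with
  | empty => exact dp3b_fin (B := 0) fun _ _ => by simp
  | insert a S ha ih =>
    simp only [Finset.sum_insert ha]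
    exact dp3b_add (h a (by simp)) (ih fun i hi => h i (by simp [hi]))

theorem dp3b_zero {δ : ℝ} (h : Dens (fun _ => 0) δ) : δ = 0 := by
  obtain ⟨-, C, hC⟩ := h
  by_contra hδ
  have h1 : Tendsto (fun s : ℝ => s - 1) (𝓝[>] 1) (𝓝[>] 0) := by
    refine tendsto_nhdsWithin_of_tendsto_nhds_of_eventually_within _ ?_ ?_
    · have : Tendsto (fun s : ℝ => s - 1) (𝓝 1) (𝓝 (1 - 1)) := tendsto_id.sub_const 1
      rw [sub_self] at this
      exact this.mono_left nhdsWithin_le_nhds
    · filter_upwards [self_mem_nhdsWithin] with s hs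
      exact sub_pos.2 (show (1 : ℝ) < s from hs)
  have h2 := (tendsto_abs_atBot_atTop.comp (Real.tendsto_log_nhdsGT_zero.comp h1)).const_mul_atTop
    (abs_pos.2 hδ)
  obtain ⟨s, a, b⟩ := (hC.and (h2.eventually_gt_atTop C)).exists
  simp only [zero_mul, tsum_zero, zero_add, abs_mul] at a
  exact absurd a (not_le.2 b)

open Classical in
theorem dp3b_card {Γ : Type} [Group Γ] [Finite Γ] [Fintype (Subgroup Γ)] (f : Γ → Γ)
    (H : Subgroup Γ) :
    (Nat.card {t : Γ // Subgroup.zpowers (f t) = H} : ℝ) = Nat.card {t : Γ // f t ∈ H} +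
      ∑ K ∈ Finset.univ.filter (· < H),
        -1 * (Nat.card {t : Γ // Subgroup.zpowers (f t) = K} : ℝ) := by
  have := Fintype.ofFinite Γ
  have h1 : (Finset.univ.filter fun t => f t ∈ H).card = ∑ K ∈ insert H (Finset.univ.filter (· < H)),
      ((Finset.univ.filter fun t => f t ∈ H).filter fun t => Subgroup.zpowers (f t) = K).card := by
    refine Finset.card_eq_sum_card_fiberwise fun t ht => ?_
    have h2 := Subgroup.zpowers_le.2 (Finset.mem_filter.1 ht).2
    simpa using h2.eq_or_lt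
  have h2 : ∀ K ∈ insert H (Finset.univ.filter (· < H)),
      ((Finset.univ.filter fun t => f t ∈ H).filter fun t => Subgroup.zpowers (f t) = K).card =
        Nat.card {t : Γ // Subgroup.zpowers (f t) = K} := by
    intro K hK
    have hK' : K ≤ H := le_iff_eq_or_lt.2 (by simpa using hK)
    rw [Nat.card_eq_fintype_card, Fintype.card_subtype]
    congr 1
    ext t
    simp only [Finset.mem_filter, Finset.mem_univ, true_and, and_iff_right_iff_imp]
    rintro rfl
    exact hK' (Subgroup.mem_zpowers _)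
  rw [Finset.sum_congr rfl h2, Finset.sum_insert (by simp), ← Fintype.card_subtype,
    ← Nat.card_eq_fintype_card] at h1
  rw [h1, ← Finset.mul_sum]
  push_cast
  ring

theorem frob_abs {Γ : Type} [Group Γ] [Finite Γ] (φ : ℕ → Γ)
    (h : ∀ H : Subgroup Γ, Dens (fun n => if n.Prime then
      (Nat.card {t : Γ // t⁻¹ * φ n * t ∈ H} : ℝ) else 0) (Nat.card H)) (s : Γ) (B : ℕ) :
    ∃ n, B < n ∧ n.Prime ∧ ∃ t, Subgroup.zpowers (t⁻¹ * φ n * t) = Subgroup.zpowers s := by
  classical
  have := Fintype.ofFinite (Subgroup Γ)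
  have key : ∀ H : Subgroup Γ, Dens (fun n => if n.Prime then
      (Nat.card {t : Γ // Subgroup.zpowers (t⁻¹ * φ n * t) = H} : ℝ) else 0)
      (Nat.card {t : Γ // Subgroup.zpowers t = H}) := by
    intro H
    induction H using WellFoundedLT.induction with
    | ind H ih =>
      have h1 := dp3b_add (h H) (dp3b_finsum (Finset.univ.filter (· < H)) fun K hK =>
        (ih K (Finset.mem_filter.1 hK).2).smul (-1))
      rw [dp3b_card (fun t => t) H]
      refine h1.congr (B := 0) fun n _ => ?_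
      by_cases hn : n.Prime
      · simp only [if_pos hn]
        exact (dp3b_card (fun t => t⁻¹ * φ n * t) H).symm
      · simp [hn]
  by_contra hne
  have h0 := dp3b_zero ((key (Subgroup.zpowers s)).congr (B := B) fun n hn => ?_)
  · have : Nonempty {t : Γ // Subgroup.zpowers t = Subgroup.zpowers s} := ⟨s, rfl⟩
    exact Nat.card_pos.ne' (by exact_mod_cast h0)
  · split_ifs with hp
    · have : IsEmpty {t : Γ // Subgroup.zpowers (t⁻¹ * φ n * t) = Subgroup.zpowers s} :=
        ⟨fun t => hne ⟨n, hn, hp, t.1, t.2⟩⟩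
      simp
    · rfl

end Pool.Agent.P.MP_68214b_ag.DP
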