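import Pool.Agent.P.MP_68214b_ag.DP2b
import Pool.Agent.P.MP_68214b_ag.DP3b

/-! The density theorem of Frobenius, existence form. -/

open Polynomial NumberField IsDedekindDomain

namespace Pool.Agent.P.MP_68214b_ag.DP

open Pool.Agent.P.MP_68214b_ag.Ch

variable {E : Type} [Field E] [CharZero E] [IsAlgClosed E] [Algebra.IsAlgebraic ℚ E]

theorem dp3c_sep (F : Type) [Field F] [NumberField F] : ∃ B, ∀ A : ValuationSubring E, Big B A →
    ∀ j j' : F →+* E, (∀ x : 𝓞 F, Cg A (j x) (j' x)) → j = j' := by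
  have h : ∀ q : (F →+* E) × (F →+* E), ∃ x : 𝓞 F, q.1 x = q.2 x → q.1 = q.2 := by
    intro q
    by_cases e : q.1 = q.2
    · exact ⟨0, fun _ => e⟩
    · by_contra! H
      exact e (IsLocalization.ringHom_ext (nonZeroDivisors (𝓞 F)) (RingHom.ext fun x => (H x).1))
  choose x hx using h
  obtain ⟨B, hB⟩ := unit_big (E := E) (Set.finite_range fun q : (F →+* E) × (F →+* E) =>
    q.1 (x q) - q.2 (x q))
  refine ⟨B, fun A hA j j' h => hx (j, j') ?_⟩
  by_contra n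
  exact (h (x (j, j'))).ne (hB A hA _ ⟨(j, j'), rfl⟩ (sub_ne_zero.2 n))

theorem dp3c_int (A : ValuationSubring E) {F : Type} [Field F] (j : F →+* E) (x : 𝓞 F) :
    A.valuation (j x) ≤ 1 :=
  int_le A (map_isIntegral_int j x.isIntegral_coe)

/-- reduction of integers along an embedding -/
noncomputable def dp3c_red (A : ValuationSubring E) {F : Type} [Field F] (j : F →+* E) :
    𝓞 F →+* IsLocalRing.ResidueField A :=
  (IsLocalRing.residue A).comp ((j.comp (algebraMap (𝓞 F) F)).codRestrict A.toSubring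
    fun x => (A.valuation_le_one_iff _).1 (dp3c_int A j x))

theorem dp3c_ker (A : ValuationSubring E) {F : Type} [Field F] (j : F →+* E) (x : 𝓞 F) :
    x ∈ RingHom.ker (dp3c_red A j) ↔ A.valuation (j x) < 1 := by
  rw [RingHom.mem_ker, dp3c_red, RingHom.comp_apply]
  exact (IsLocalRing.residue_eq_zero_iff _).trans (A.valuation_lt_one_iff _)

theorem dp3c_cg (A : ValuationSubring E) {F : Type} [Field F] (j : F →+* E) (x : 𝓞 F) (n : ℤ) :
    x - n ∈ RingHom.ker (dp3c_red A j) ↔ Cg A (j x) n := by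
  rw [dp3c_ker, Cg]
  simp

theorem dp3c_norm {A : ValuationSubring E} {p : ℕ} (hp : Ov A p) {F : Type} [Field F]
    [NumberField F] (j : F →+* E) (h : ∀ x : 𝓞 F, Rt A (j x)) :
    Ideal.absNorm (RingHom.ker (dp3c_red A j)) = p := by
  have := Fact.mk hp.1
  have : CharP (IsLocalRing.ResidueField A) p := (CharP.charP_iff_prime_eq_zero hp.1).2 (by
    have : (p : 𝓞 F) ∈ RingHom.ker (dp3c_red A j) := by
      rw [dp3c_ker]
      simpa using hp.2
    simpa using RingHom.mem_ker.1 this)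
  rw [Ideal.absNorm_apply, Submodule.cardQuot_apply]
  refine upChebA_card _ fun x => ?_
  rw [← map_pow, ← RingHom.sub_mem_ker_iff, dp3c_ker]
  simpa [Cg] using (rt_iff hp (dp3c_int A j x)).1 (h x)

theorem dp3c_rt {R : Type} [CommRing R] {p : ℕ} (hp : p.Prime) {I : Ideal R}
    (h : Nat.card (R ⧸ I) = p) (x : R) : ∃ n : ℤ, x - n ∈ I := by
  have := Fact.mk hp
  have h1 : Nontrivial (R ⧸ I) := by
    have : Finite (R ⧸ I) := Nat.finite_of_card_ne_zero (h ▸ hp.ne_zero)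
    exact Finite.one_lt_card_iff_nontrivial.1 (h ▸ hp.one_lt)
  obtain ⟨n, hn⟩ := AddSubgroup.mem_zmultiples_iff.1
    (mem_zmultiples_of_prime_card h (g := (1 : R ⧸ I)) one_ne_zero (g' := Ideal.Quotient.mk I x))
  exact ⟨n, Ideal.Quotient.eq.1 (by rw [← hn, map_intCast, zsmul_one])⟩

/-- the embedding of a fixed field given by an automorphism -/
noncomputable def dp3c_emb {L : IntermediateField ℚ E} (F : IntermediateField ℚ L)
    (t : L ≃ₐ[ℚ] L) : F →+* E :=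
  (algebraMap L E).comp ((t : L →+* L).comp (algebraMap F L))

omit [IsAlgClosed E] [Algebra.IsAlgebraic ℚ E] in
theorem dp3c_emb_eq {L : IntermediateField ℚ E} [FiniteDimensional ℚ L]
    (H : Subgroup (L ≃ₐ[ℚ] L)) (t t' : L ≃ₐ[ℚ] L) :
    dp3c_emb (IntermediateField.fixedField H) t = dp3c_emb (IntermediateField.fixedField H) t' ↔
      t'⁻¹ * t ∈ H := by
  conv_rhs => rw [← IntermediateField.fixingSubgroup_fixedField H]
  rw [IntermediateField.mem_fixingSubgroup_iff, RingHom.ext_iff, Subtype.forall]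
  refine forall₂_congr fun x hx => ?_
  rw [AlgEquiv.mul_apply, AlgEquiv.aut_inv, AlgEquiv.symm_apply_eq]
  exact Subtype.coe_inj

theorem dp3c_onto {L : IntermediateField ℚ E} [FiniteDimensional ℚ L] [IsGalois ℚ L]
    (F : IntermediateField ℚ L) [NumberField F] {A : ValuationSubring E} {p : ℕ} (hp : Ov A p)
    {I : Ideal (𝓞 F)} (hI : Ideal.absNorm I = p) :
    ∃ t : L ≃ₐ[ℚ] L, RingHom.ker (dp3c_red A (dp3c_emb F t)) = I := by
  have := Ideal.isPrime_of_irreducible_absNorm (I := I) (hI ▸ hp.1)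
  obtain ⟨⟨Q, hQ, hQI⟩⟩ := I.nonempty_primesOver (S := 𝓞 L)
  have m : ∀ x : 𝓞 F, x ∈ I ↔ algebraMap (𝓞 F) (𝓞 L) x ∈ Q := fun x => Ideal.mem_of_liesOver Q I x
  have pQ : (p : 𝓞 L) ∈ Q := by simpa using (m p).1 (hI ▸ Ideal.absNorm_mem I)
  have Q0 : Q ≠ ⊥ := fun e => hp.1.ne_zero (by simpa [e] using pQ)
  obtain ⟨A', _, -, -, hc⟩ := place_of L ⟨Q, hQ, Q0⟩
  obtain ⟨t, ht⟩ := conj_place L (A := A') ⟨hp.1, by simpa using (hc.mem p).1 pQ⟩ hp
  refine ⟨t.restrictNormal L, Ideal.ext fun x => ?_⟩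
  rw [dp3c_ker, m, hc.mem, (ht _ (Subtype.prop _)).2]
  exact iff_of_eq (congrArg (fun z => A.valuation z < 1) (t.restrictNormal_commutes L _))

theorem frob_count (L : IntermediateField ℚ E) [FiniteDimensional ℚ L] [IsGalois ℚ L]
    (H : Subgroup (L ≃ₐ[ℚ] L)) : ∃ B, ∀ (p : ℕ) (A : ValuationSubring E) (φ : L ≃ₐ[ℚ] L),
      B < p → Ov A p → (∀ x : L, A.valuation (x : E) ≤ 1 → Cg A (φ x) ((x : E) ^ p)) →
      Nat.card {t : L ≃ₐ[ℚ] L // t⁻¹ * φ * t ∈ H} =
        Nat.card H * @nI (IntermediateField.fixedField H) _ ⟨⟩ p := by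
  have : NumberField (IntermediateField.fixedField H) := ⟨⟩
  obtain ⟨B, hB⟩ := dp3c_sep (E := E) (IntermediateField.fixedField H)
  refine ⟨B, fun p A φ hp hA hφ => ?_⟩
  have sep := hB A ⟨p, hp, hA⟩
  set j := dp3c_emb (IntermediateField.fixedField H) with hj
  have fr : ∀ t (x : 𝓞 (IntermediateField.fixedField H)), Cg A (j (φ * t) x) (j t x ^ p) :=
    fun t x => hφ _ (dp3c_int A (j t) x)
  have good : ∀ t, t⁻¹ * φ * t ∈ H ↔
      ∀ x : 𝓞 (IntermediateField.fixedField H), Rt A (j t x) := fun t => by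
    rw [mul_assoc, ← dp3c_emb_eq, ← hj]
    refine ⟨fun e x => (rt_iff hA (dp3c_int A _ x)).2 ?_, fun h => sep _ _ fun x => ?_⟩
    · have := fr t x
      rw [e] at this
      exact this.symm
    · exact (fr t x).trans ((rt_iff hA (dp3c_int A _ x)).1 (h x))
  have onto : ∀ I : {I : Ideal (𝓞 (IntermediateField.fixedField H)) // Ideal.absNorm I = p},
      ∃ t, RingHom.ker (dp3c_red A (j t)) = I.1 := fun I => dp3c_onto _ hA I.2
  choose σ hσ using onto
  have cs : ∀ I (h : H), j (σ I * h) = j (σ I) := fun I h => (dp3c_emb_eq H _ _).2 (by simp)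
  have gd : ∀ I (h : H), (σ I * h)⁻¹ * φ * (σ I * h) ∈ H := fun I h => (good _).2 fun x => by
    obtain ⟨n, hn⟩ := dp3c_rt hA.1 (I := I.1) I.2 x
    rw [cs]
    exact ⟨n, (dp3c_cg _ _ _ _).1 (hσ I ▸ hn)⟩
  unfold nI
  rw [← Nat.card_prod]
  refine (Nat.card_congr (Equiv.ofBijective (fun q : H × _ => ⟨σ q.2 * q.1, gd _ _⟩)
    ⟨?_, ?_⟩)).symm
  · rintro ⟨h, I⟩ ⟨h', I'⟩ e
    have e1 : σ I * h = σ I' * h' := congrArg Subtype.val e
    have e2 : I = I' := Subtype.ext (by rw [← hσ, ← hσ, ← cs I h, e1, cs])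
    subst e2
    rw [Subtype.ext (mul_left_cancel e1)]
  · rintro ⟨t, ht⟩
    have h1 := (good t).1 ht
    let I : {I : Ideal (𝓞 (IntermediateField.fixedField H)) // Ideal.absNorm I = p} :=
      ⟨_, dp3c_norm hA (j t) h1⟩
    have h2 : j t = j (σ I) := sep _ _ fun x => by
      obtain ⟨n, hn⟩ := h1 x
      exact hn.trans ((dp3c_cg _ _ _ _).1 (hσ I ▸ (dp3c_cg _ _ _ _).2 hn)).symm
    exact ⟨(⟨_, (dp3c_emb_eq H _ _).1 h2⟩, I), Subtype.ext (mul_inv_cancel_left _ _)⟩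

theorem frob {W : Set E} (hW : W.Finite) (s : E ≃ₐ[ℚ] E) (B : ℕ) :
    ∃ A, Big B A ∧ ∀ x ∈ W, (s x = x ↔ Rt A x) := by
  obtain ⟨L, _, _, hL⟩ := exists_gal hW
  have h0 : ∀ n : ℕ, ∃ (A : ValuationSubring E) (φ : E ≃ₐ[ℚ] E), n.Prime → Ov A n ∧
      ∀ x ∈ L, A.valuation x ≤ 1 → Cg A (φ x) (x ^ n) := fun n => by
    by_cases hn : n.Prime
    · obtain ⟨A, hA⟩ := exists_ov (E := E) hn
      obtain ⟨φ, hφ⟩ := frobex L hA
      exact ⟨A, φ, fun _ => ⟨hA, hφ⟩⟩
    · exact ⟨⊤, 1, fun h => (hn h).elim⟩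
  choose A φ hA using h0
  have rn : ∀ (u : E ≃ₐ[ℚ] E) (x : L), (u.restrictNormal L x : E) = u x := fun u x =>
    u.restrictNormal_commutes L x
  have hV := fin_conj hW
  obtain ⟨B1, hB1⟩ := unit_big (hV.union (hV.image2 (· - ·) hV))
  obtain ⟨n, hn, hp, t, ht⟩ := frob_abs (fun n => (φ n).restrictNormal L) (fun H => by
    have : NumberField (IntermediateField.fixedField H) := ⟨⟩
    obtain ⟨B0, h⟩ := frob_count L H
    have := (dens_nI (IntermediateField.fixedField H)).smul (Nat.card H)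
    rw [mul_one] at this
    refine this.congr (B := B0) fun n hn => ?_
    split_ifs with hp
    · rw [h n (A n) _ hn (hA n hp).1 fun x hx => by rw [rn]; exact (hA n hp).2 x x.2 hx,
        Nat.cast_mul]
    · exact mul_zero _) (s.restrictNormal L) (max B B1)
  obtain ⟨hO, hF⟩ := hA n hp
  have hU := hB1 (A n) ⟨n, (le_max_right _ _).trans_lt hn, hO⟩
  let T : E ≃ₐ[ℚ] E := t.liftNormal E
  have hT : ∀ x : L, T x = t x := fun x => t.liftNormal_commutes E x
  refine ⟨(A n).comap (T : E →+* E), ⟨n, (le_max_left _ _).trans_lt hn, hp, ?_⟩, fun x hx => ?_⟩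
  · rw [comap_lt, map_natCast]
    exact hO.2
  lift x to L using hL x hx
  have hy : T x ∈ {y | ∃ s : E ≃ₐ[ℚ] E, ∃ z ∈ W, s z = y} := ⟨T, x, hx, rfl⟩
  have hy' : φ n (T x) ∈ {y | ∃ s : E ≃ₐ[ℚ] E, ∃ z ∈ W, s z = y} := ⟨φ n * T, x, hx, rfl⟩
  have hv : (A n).valuation (T x) ≤ 1 := by
    by_cases e : T x = 0
    · simp [e]
    · exact (hU _ (Or.inl hy) e).le
  have c1 := hF (T x) (hT x ▸ (t x).2) hv
  have e1 : Rt ((A n).comap (T : E →+* E)) x ↔ Rt (A n) (T x) :=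
    exists_congr fun k => by rw [Cg, Cg, comap_lt, map_sub, map_intCast]; rfl
  have e2 : Rt (A n) (T x) ↔ φ n (T x) = T x := by
    rw [rt_iff hO hv]
    refine ⟨fun h => ?_, fun h => by rw [h] at c1; exact c1.symm⟩
    by_contra ne
    exact (c1.trans h).ne (hU _ (Or.inr ⟨_, hy', _, hy, rfl⟩) (sub_ne_zero.2 ne))
  have e3 : ∀ u : L ≃ₐ[ℚ] L, u x = x ↔ Subgroup.zpowers u ≤ MulAction.stabilizer _ x := fun u =>
    (Subgroup.zpowers_le (H := MulAction.stabilizer (L ≃ₐ[ℚ] L) x)).symm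
  rw [e1, e2, hT, ← rn, ← rn, Subtype.coe_inj, Subtype.coe_inj, e3, ← ht, ← e3, mul_assoc,
    AlgEquiv.mul_apply, AlgEquiv.aut_inv, AlgEquiv.symm_apply_eq, AlgEquiv.mul_apply]

end Pool.Agent.P.MP_68214b_ag.DP
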