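import Pool.Agent.P.MP_68214b_ag.DP1
import Pool.Agent.P.MP_6e34ef_nt.AK.Main
import Pool.Agent.P.MP_6e34ef_nt.NF.Resid

/-! The unit equation. -/

open Polynomial NumberField IsDedekindDomain

namespace Pool.Agent.P.MP_68214b_ag.DP

open Pool.Agent.P.MP_6e34ef_nt.NF

theorem dp4a_ht (K : Type) [Field K] [NumberField K] (S : Finset (Pr K)) : ∃ M : ℝ, 0 ≤ M ∧
    ∀ u : K, u ≠ 0 → u ≠ 1 → (∀ v, v ∉ S → ord v u = 0 ∧ ord v (1 - u) = 0) →
      (∀ w : InfinitePlace K, w u ≤ Real.exp M) ∧ ∀ v : Pr K, -(ord v u : ℝ) * wt v ≤ M := by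
  classical
  obtain ⟨C, hC, h⟩ := Pool.Agent.P.MP_6e34ef_nt.AK.main 1 one_pos
  have hS : 0 ≤ ∑ v ∈ S, wt v := Finset.sum_nonneg fun v _ => (wt_pos v).le
  have hD := lD_nonneg (K := K)
  have hg : 0 ≤ C * dg K := mul_nonneg hC (zero_le_one.trans one_le_dg)
  refine ⟨Real.exp (lD K / 2 + 1 * (∑ v ∈ S, wt v + lD K + C * dg K)), (Real.exp_pos _).le,
    fun u h0 h1 hu => ?_⟩
  have hm : ∀ v : Pr K, ord v (-1 : K) = 0 := fun v => by rw [ord_neg, ord_one]
  have hs : ∀ v, v ∉ S.filter (fun v => ¬ ord v u = 0) → ord v u = 0 := fun v hv => by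
    by_contra hn
    exact hn (hu v fun hv' => hv (Finset.mem_filter.2 ⟨hv', hn⟩)).1
  have hh := h K (S.filter fun v => ¬ ord v u = 0) (S.filter fun v => ord v u = 0) u
    (∑ v ∈ S, wt v + lD K + C * dg K) h0 h1 hs
    (Finset.disjoint_filter_filter_not S S _).symm (fun v hv => by
      by_cases hv' : v ∈ S
      · have hn : ord v u ≠ 0 := fun e => hv (Finset.mem_filter.2 ⟨hv', e⟩)
        rcases lt_or_gt_of_ne hn with hl | hl
        · rw [sub_eq_add_neg, ord_add_of_lt v h0 (by norm_num) (by rwa [hm])]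
          exact hl.le
        · rw [sub_eq_neg_add, ord_add_of_lt v (by norm_num) h0 (by rwa [hm]), hm]
      · rw [← neg_sub, ord_neg, (hu v hv').2])
    (by rw [add_comm, Finset.sum_filter_add_sum_filter_not]; linarith) (by linarith) (by linarith)
  generalize Real.exp (lD K / 2 + 1 * (∑ v ∈ S, wt v + lD K + C * dg K)) = M at hh
  have n1 : ∀ w : InfinitePlace K, 0 ≤ mu w * max (la w u) 0 := fun w =>
    mul_nonneg (zero_le_one.trans (one_le_mu w)) (le_max_right _ _)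
  have n2 : ∀ v : Pr K, 0 ≤ max (-(ord v u : ℝ)) 0 * wt v := fun v =>
    mul_nonneg (le_max_right _ _) (wt_pos v).le
  have s1 : 0 ≤ ∑ w : InfinitePlace K, mu w * max (la w u) 0 := Finset.sum_nonneg fun w _ => n1 w
  have s2 : 0 ≤ ∑ v ∈ S.filter (fun v => ¬ ord v u = 0), max (-(ord v u : ℝ)) 0 * wt v :=
    Finset.sum_nonneg fun v _ => n2 v
  unfold ht at hh
  refine ⟨fun w => ?_, fun v => ?_⟩
  · have a1 := Finset.single_le_sum (fun w _ => n1 w) (Finset.mem_univ w)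
    have a2 := le_mul_of_one_le_left (le_max_right (la w u) 0) (one_le_mu w)
    have a3 := le_max_left (la w u) 0
    exact (Real.log_le_iff_le_exp (InfinitePlace.pos_iff.2 h0)).1 (by unfold la at *; linarith)
  · by_cases hv : v ∈ S.filter (fun v => ¬ ord v u = 0)
    · have a1 := Finset.single_le_sum (fun v _ => n2 v) hv
      have a2 := mul_le_mul_of_nonneg_right (le_max_left (-(ord v u : ℝ)) 0) (wt_pos v).le
      linarith
    · rw [hs v hv]
      simp only [Int.cast_zero, neg_zero, zero_mul]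
      linarith

theorem su0 (K : Type) [Field K] [NumberField K] (S : Finset (Pr K)) :
    {u : K | ∀ v, v ∉ S → v.valuation K u = 1 ∧ v.valuation K (1 - u) = 1}.Finite := by
  obtain ⟨M, hM, h⟩ := dp4a_ht K S
  obtain ⟨k, hk⟩ := exists_nat_ge (∑ v ∈ S, M / wt v)
  obtain ⟨D, hD, hD0⟩ := Submodule.exists_mem_ne_zero_of_ne_bot
    (p := ∏ v ∈ S, v.asIdeal) (Finset.prod_ne_zero_iff.2 fun v _ => v.ne_bot)
  have hDk : ((D ^ k : 𝓞 K) : K) ≠ 0 := by
    simpa using fun e => absurd e hD0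
  have hf := (NumberField.Embeddings.finite_of_norm_le K ℂ
    ((∑ w : InfinitePlace K, w ((D ^ k : 𝓞 K) : K)) * Real.exp M)).preimage
    (mul_right_injective₀ hDk).injOn
  refine ((hf.insert 0).insert 1).subset fun u hu => ?_
  by_cases h1 : u = 1
  · exact Or.inl h1
  by_cases h0 : u = 0
  · exact Or.inr (Or.inl h0)
  have ho : ∀ v, v ∉ S → ord v u = 0 ∧ ord v (1 - u) = 0 := fun v hv => by
    have := hu v hv
    rwa [val_eq v h0, val_eq v (sub_ne_zero.2 (Ne.symm h1)), ← WithZero.exp_zero, WithZero.exp_inj,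
      WithZero.exp_inj, neg_eq_zero, neg_eq_zero] at this
  obtain ⟨a1, a2⟩ := h u h0 h1 ho
  refine Or.inr (Or.inr ⟨?_, fun φ => ?_⟩)
  · obtain ⟨z, hz⟩ := exists_int (x := ((D ^ k : 𝓞 K) : K) * u) fun v => by
      by_cases hv : v ∈ S
      · have b1 : D ∈ v.asIdeal := Ideal.le_of_dvd (Finset.dvd_prod_of_mem _ hv) hD
        refine ((ge_of_mem v (Ideal.pow_mem_pow b1 k)).mul (Ge.self v u)).mono ?_
        have b2 := Finset.single_le_sum (f := fun v : Pr K => M / wt v)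
          (fun v _ => div_nonneg hM (wt_pos v).le) hv
        have b3 := (le_div_iff₀ (wt_pos v)).2 (a2 v)
        linarith
      · refine ((ge_of_mem v (m := 0) (x := D ^ k) (by simp)).mul (Ge.self v u)).mono ?_
        rw [(ho v hv).1]
        simp
    show IsIntegral ℤ (((D ^ k : 𝓞 K) : K) * u)
    rw [← hz]
    exact z.isIntegral_coe
  · show ‖φ (((D ^ k : 𝓞 K) : K) * u)‖ ≤ _
    rw [← InfinitePlace.apply, map_mul]
    exact mul_le_mul (Finset.single_le_sum (f := fun w : InfinitePlace K => w ((D ^ k : 𝓞 K) : K))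
      (fun w _ => apply_nonneg _ _) (Finset.mem_univ _)) (a1 _) (apply_nonneg _ _)
      (Finset.sum_nonneg fun w _ => apply_nonneg _ _)

variable {E : Type} [Field E] [CharZero E] [IsAlgClosed E] [Algebra.IsAlgebraic ℚ E]

/-- all primes outside a finite set are centres of big places -/
theorem big_ctr (F : IntermediateField ℚ E) [FiniteDimensional ℚ F] (B : ℕ) :
    ∃ S : Finset (HeightOneSpectrum (𝓞 F)), ∀ Q, Q ∉ S → ∃ A, Big B A ∧ Ctr A F Q := by
  have h0 : Ideal.span {((B.factorial : ℕ) : 𝓞 F)} ≠ 0 := by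
    rw [Ne, Ideal.zero_eq_bot, Ideal.span_singleton_eq_bot]
    exact_mod_cast B.factorial_ne_zero
  refine ⟨(Ideal.finite_factors h0).toFinset, fun Q hQ => ?_⟩
  obtain ⟨A, p, h1, h2, h3⟩ := place_of F Q
  refine ⟨A, ⟨p, not_le.1 fun hp => hQ ?_, h1⟩, h3⟩
  obtain ⟨c, hc⟩ := (h1.1.dvd_factorial).2 hp
  rw [Set.Finite.mem_toFinset, Set.mem_ofPred_eq, Ideal.dvd_span_singleton, hc, Nat.cast_mul]
  exact Ideal.mul_mem_right _ _ h2

theorem su (F : IntermediateField ℚ E) [FiniteDimensional ℚ F] (B : ℕ) :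
    {u : E | u ∈ F ∧ ∀ A, Big B A → A.valuation u = 1 ∧ A.valuation (1 - u) = 1}.Finite := by
  obtain ⟨S, hS⟩ := big_ctr F B
  refine ((su0 F S).image (algebraMap F E)).subset fun u hu => ⟨⟨u, hu.1⟩, fun v hv => ?_, rfl⟩
  obtain ⟨A, h1, h2⟩ := hS v hv
  exact ⟨h2.eq_one_iff_eq_one.1 (hu.2 A h1).1,
    h2.eq_one_iff_eq_one.1 (by simpa using (hu.2 A h1).2)⟩

end Pool.Agent.P.MP_68214b_ag.DP
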