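import Pool.Agent.P.MP_68214b_ag.DP4a

/-! Values that are almost powers. -/

open Polynomial NumberField IsDedekindDomain

namespace Pool.Agent.P.MP_68214b_ag.DP

open Pool.Agent.P.MP_6e34ef_nt.NF
open scoped nonZeroDivisors

theorem dp4b_rep {α β : Type} [Finite β] (Y : Set α) (c : α → β) :
    ∃ T : Set α, T.Finite ∧ T ⊆ Y ∧ ∀ y ∈ Y, ∃ t ∈ T, c t = c y := by
  have h : ∀ b : c '' Y, ∃ t ∈ Y, c t = b := fun b => b.2
  choose f f1 f2 using h
  exact ⟨Set.range f, Set.finite_range f, by rintro _ ⟨b, rfl⟩; exact f1 b,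
    fun y hy => ⟨f ⟨c y, y, hy, rfl⟩, ⟨_, rfl⟩, f2 _⟩⟩

theorem dp4b_ideal {K : Type} [Field K] [NumberField K] (f : Pr K → ℤ) (T : Finset (Pr K))
    (hT : ∀ v, v ∉ T → f v = 0) :
    ∃ I : (FractionalIdeal (𝓞 K)⁰ K)ˣ, ∀ v, FractionalIdeal.count K v I.1 = f v := by
  classical
  have h0 : ∀ w ∈ T, (w.asIdeal : FractionalIdeal (𝓞 K)⁰ K) ^ f w ≠ 0 := fun w _ =>
    zpow_ne_zero _ (FractionalIdeal.coeIdeal_ne_zero.2 w.ne_bot)
  refine ⟨Units.mk0 _ (Finset.prod_ne_zero_iff.2 h0), fun v => ?_⟩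
  rw [Units.val_mk0, FractionalIdeal.count_prod K v T _ h0]
  simp only [FractionalIdeal.count_zpow, FractionalIdeal.count_maximal, mul_ite, mul_one, mul_zero,
    Finset.sum_ite_eq']
  split_ifs with hv
  · rfl
  · exact (hT v hv).symm

theorem dp4b_unit {K : Type} [Field K] [NumberField K] {w : K} (h0 : w ≠ 0)
    (h : ∀ v : Pr K, ord v w = 0) : ∃ u : (𝓞 K)ˣ, ((u : 𝓞 K) : K) = w := by
  obtain ⟨a, ha⟩ := exists_int (x := w) fun v => Or.inr (by simp [h v])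
  obtain ⟨b, hb⟩ := exists_int (x := w⁻¹) fun v => Or.inr (by simp [ord_inv, h v])
  have hab : a * b = 1 := by
    apply RingOfIntegers.coe_injective
    rw [map_mul, map_one]
    change (a : K) * (b : K) = 1
    rw [ha, hb, mul_inv_cancel₀ h0]
  exact ⟨Units.mkOfMulEqOne a b hab, ha⟩

theorem selmer (K : Type) [Field K] [NumberField K] (S : Finset (HeightOneSpectrum (𝓞 K)))
    {r : ℕ} (hr : 0 < r) : ∃ Δ : Set K, Δ.Finite ∧ ∀ y : K,
      (∀ v, v ∉ S → ∃ z : K, v.valuation K y = v.valuation K z ^ r) →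
        ∃ δ ∈ Δ, ∃ z, y = δ * z ^ r := by
  have : NeZero r := ⟨hr.ne'⟩
  have hr' : (r : ℤ) ≠ 0 := by exact_mod_cast hr.ne'
  have hJ : ∀ y : K, ∃ I : (FractionalIdeal (𝓞 K)⁰ K)ˣ,
      ∀ v, FractionalIdeal.count K v I.1 = ord v y / r := by
    intro y
    obtain ⟨T, hT⟩ := exists_supp y
    exact dp4b_ideal _ T fun v hv => by rw [hT v hv, Int.zero_ediv]
  choose J hJ using hJ
  obtain ⟨T, T1, T2, T3⟩ := dp4b_rep {y : K | y ≠ 0 ∧ ∀ v, v ∉ S → (r : ℤ) ∣ ord v y}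
    fun y => ((fun v : S => (ord v.1 y : ZMod r)), ClassGroup.mk K (J y))
  have hfg : Group.FG (𝓞 K)ˣ := Group.fg_iff_monoid_fg.2 inferInstance
  have hfi := Subgroup.finiteIndex_range_powMonoidHom_of_fg (𝓞 K)ˣ hr.ne'
  obtain ⟨U, U1, -, U3⟩ := dp4b_rep (Set.univ : Set (𝓞 K)ˣ)
    fun u => (u : (𝓞 K)ˣ ⧸ (powMonoidHom (α := (𝓞 K)ˣ) r).range)
  refine ⟨Set.image2 (fun t (u : (𝓞 K)ˣ) => t * ((u : 𝓞 K) : K)) T U ∪ {0},
    (T1.image2 _ U1).union (Set.finite_singleton _), fun y hy => ?_⟩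
  by_cases y0 : y = 0
  · exact ⟨0, Or.inr rfl, 0, by simp [y0]⟩
  have hd : ∀ v, v ∉ S → (r : ℤ) ∣ ord v y := by
    intro v hv
    obtain ⟨z, hz⟩ := hy v hv
    have z0 : z ≠ 0 := by
      rintro rfl
      rw [map_zero, zero_pow hr.ne', map_eq_zero] at hz
      exact y0 hz
    rw [← map_pow, val_eq v y0, val_eq v (pow_ne_zero r z0), WithZero.exp_inj, neg_inj,
      ord_pow] at hz
    exact ⟨_, hz⟩
  obtain ⟨t, ht, hc⟩ := T3 y ⟨y0, hd⟩
  obtain ⟨t0, td⟩ := T2 ht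
  obtain ⟨c1, c2⟩ := Prod.mk.inj hc
  have c3 : ClassGroup.mk K (J y * (J t)⁻¹) = 1 := by rw [map_mul, map_inv, c2, mul_inv_cancel]
  rw [ClassGroup.mk_eq_one_iff, FractionalIdeal.isPrincipal_iff] at c3
  obtain ⟨z, hz⟩ := c3
  have z0 : z ≠ 0 := by
    rintro rfl
    exact (J y * (J t)⁻¹).ne_zero (by rw [hz, FractionalIdeal.spanSingleton_zero])
  have oz : ∀ v, ord v z = ord v y / r - ord v t / r := by
    intro v
    rw [ord, ← hz, Units.val_mul, Units.val_inv_eq_inv_val,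
      FractionalIdeal.count_mul K v (J y).ne_zero (inv_ne_zero (J t).ne_zero),
      FractionalIdeal.count_inv, hJ, hJ, sub_eq_add_neg]
  have hm : ∀ v, ord v t % r = ord v y % r := by
    intro v
    by_cases hv : v ∈ S
    · exact (ZMod.intCast_eq_intCast_iff' _ _ _).1 (congrFun c1 ⟨v, hv⟩)
    · rw [Int.emod_eq_zero_of_dvd (td v hv), Int.emod_eq_zero_of_dvd (hd v hv)]
  have tz : t * z ^ r ≠ 0 := mul_ne_zero t0 (pow_ne_zero r z0)
  obtain ⟨u, hu⟩ := dp4b_unit (div_ne_zero y0 tz) fun v => by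
    rw [ord_div v y0 tz, ord_mul v t0 (pow_ne_zero r z0), ord_pow, oz]
    have a1 := Int.emod_add_mul_ediv (ord v y) r
    have a2 := Int.emod_add_mul_ediv (ord v t) r
    have a3 := hm v
    linear_combination a2 - a1 - a3
  obtain ⟨u0, hu0, e⟩ := U3 u trivial
  obtain ⟨s, hs⟩ := QuotientGroup.eq.1 e
  have e2 : u = u0 * s ^ r := by
    rw [powMonoidHom_apply] at hs
    rw [hs, mul_inv_cancel_left]
  refine ⟨_, Or.inl ⟨t, ht, u0, hu0, rfl⟩, z * ((s : 𝓞 K) : K), ?_⟩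
  have e3 : ((u : 𝓞 K) : K) = ((u0 : 𝓞 K) : K) * ((s : 𝓞 K) : K) ^ r := by
    rw [e2]; simp
  rw [e3, eq_div_iff tz] at hu
  rw [← hu]; ring

variable {E : Type} [Field E] [CharZero E] [IsAlgClosed E] [Algebra.IsAlgebraic ℚ E]

theorem dp4b_val {E : Type} [Field E] (A : ValuationSubring E) {a b : E} {r : ℕ}
    (ha : A.valuation a ≤ 1) (hb : A.valuation b ≤ 1) (h : A.valuation (a ^ r - b ^ r) = 1) :
    A.valuation (a - b) = 1 := by
  obtain ⟨c, hc⟩ := sub_dvd_pow_sub_pow (⟨a, (A.valuation_le_one_iff a).1 ha⟩ : A)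
    ⟨b, (A.valuation_le_one_iff b).1 hb⟩ r
  have h1 : a ^ r - b ^ r = (a - b) * c := by simpa using congrArg Subtype.val hc
  have h2 : A.valuation (a - b) ≤ 1 := (A.valuation.map_sub a b).trans (max_le ha hb)
  refine le_antisymm h2 ?_
  rw [h1, map_mul] at h
  calc 1 = A.valuation (a - b) * A.valuation (c : E) := h.symm
    _ ≤ A.valuation (a - b) * 1 := mul_le_mul_right (A.valuation_le_one c) _
    _ = _ := mul_one _

theorem sg (L : IntermediateField ℚ E) [FiniteDimensional ℚ L] (B : ℕ) (e : Fin 3 → E)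
    (he : ∀ i, e i ∈ L) (hi : Function.Injective e) {r : ℕ} (hr : 2 ≤ r) :
    {x : E | x ∈ L ∧ ∀ A, Big B A → A.valuation x ≤ 1 ∧
      ∀ i, ∃ z ∈ L, A.valuation (x - e i) = A.valuation z ^ r}.Finite := by
  have r0 : r ≠ 0 := by omega
  obtain ⟨B1, hB1⟩ := unit_big ((Set.finite_range e).union
    (Set.finite_range fun q : Fin 3 × Fin 3 => e q.1 - e q.2))
  obtain ⟨S, hS⟩ := big_ctr L B
  obtain ⟨Δ, hΔ, hs⟩ := selmer L S (show 0 < r by omega)
  have hρ : ∀ δ : L, ∃ ρ : E, ρ ^ r = δ := fun δ => IsAlgClosed.exists_pow_nat_eq _ (by omega)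
  choose ρ hρ using hρ
  have : NeZero r := ⟨r0⟩
  obtain ⟨ζ, hζ⟩ := HasEnoughRootsOfUnity.exists_primitiveRoot E r
  have ζ1 : ζ ≠ 1 := hζ.ne_one (by omega)
  have ζr : ζ ^ r = 1 := hζ.pow_eq_one
  obtain ⟨L', f1, -, f2, f3⟩ := exists_gal' L ((hΔ.image ρ).union (Set.finite_singleton ζ))
  have hu := su L' (max B B1)
  refine ((hu.image2 (fun u0 u1 => (e 0 - ((ζ - u1 / u0) / (1 - u1 / u0)) ^ r * e 1) /
    (1 - ((ζ - u1 / u0) / (1 - u1 / u0)) ^ r)) hu).union (Set.finite_range e)).subset ?_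
  rintro x ⟨xL, hx⟩
  by_cases hxe : x ∈ Set.range e
  · exact Or.inr hxe
  have x0 : ∀ i, x - e i ≠ 0 := fun i h => hxe ⟨i, (sub_eq_zero.1 h).symm⟩
  have hw : ∀ i, ∃ w ∈ L', w ^ r = x - e i := by
    intro i
    obtain ⟨δ, hδ, z, hz⟩ := hs ⟨x - e i, sub_mem xL (he i)⟩ fun v hv => by
      obtain ⟨A, hA, hc⟩ := hS v hv
      obtain ⟨z, zL, hz⟩ := (hx A hA).2 i
      refine ⟨⟨z, zL⟩, ?_⟩
      rw [← map_pow] at hz ⊢
      exact hc.eq_iff.1 hz
    refine ⟨ρ δ * z, mul_mem (f3 _ (Or.inl ⟨δ, hδ, rfl⟩)) (f2 z.2), ?_⟩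
    have := congrArg Subtype.val hz
    rw [mul_pow, hρ]
    simpa using this.symm
  choose w wL hw using hw
  have ζL : ζ ∈ L' := f3 _ (Or.inr rfl)
  have w0 : ∀ i, w i ≠ 0 := fun i h => x0 i (by rw [← hw, h, zero_pow r0])
  have ne : ∀ (a b : E) (i j : Fin 3), i ≠ j → a ^ r = x - e i → b ^ r = x - e j → a - b ≠ 0 := by
    intro a b i j hij ha hb h
    rw [sub_eq_zero.1 h, hb, sub_right_inj] at ha
    exact hij (hi ha).symm
  have un : ∀ A, Big (max B B1) A → ∀ (a b : E) (i j : Fin 3), i ≠ j → a ^ r = x - e i →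
      b ^ r = x - e j → A.valuation (a - b) = 1 := by
    intro A hA a b i j hij ha hb
    have h1 := hB1 A (hA.mono (le_max_right _ _))
    have h2 := (hx A (hA.mono (le_max_left _ _))).1
    have h3 : ∀ (c : E) (l : Fin 3), c ^ r = x - e l → A.valuation c ≤ 1 := by
      intro c l hc
      have h4 : A.valuation (e l) ≤ 1 := by
        by_cases h5 : e l = 0
        · simp [h5]
        · exact (h1 _ (Or.inl ⟨l, rfl⟩) h5).le
      rw [← pow_le_one_iff_of_nonneg zero_le r0, ← map_pow, hc]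
      exact (A.valuation.map_sub _ _).trans (max_le h2 h4)
    refine dp4b_val A (r := r) (h3 a i ha) (h3 b j hb) ?_
    rw [ha, hb, sub_sub_sub_cancel_left]
    exact h1 _ (Or.inr ⟨(j, i), rfl⟩) (sub_ne_zero.2 fun h => hij (hi h).symm)
  have d02 := ne _ _ 0 2 (by decide) (hw 0) (hw 2)
  have d01 := ne _ _ 0 1 (by decide) (hw 0) (hw 1)
  have mem : ∀ b ∈ L', b ^ r = x - e 1 → (w 0 - b) / (w 0 - w 2) ∈ {u : E | u ∈ L' ∧
      ∀ A, Big (max B B1) A → A.valuation u = 1 ∧ A.valuation (1 - u) = 1} := by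
    intro b bL hb
    refine ⟨div_mem (sub_mem (wL 0) bL) (sub_mem (wL 0) (wL 2)), fun A hA => ?_⟩
    have e1 : 1 - (w 0 - b) / (w 0 - w 2) = (b - w 2) / (w 0 - w 2) := by field_simp; ring
    rw [e1, map_div₀, map_div₀, un A hA _ _ 0 1 (by decide) (hw 0) hb,
      un A hA _ _ 0 2 (by decide) (hw 0) (hw 2), un A hA _ _ 1 2 (by decide) hb (hw 2)]
    simp
  refine Or.inl ⟨_, mem _ (wL 1) (hw 1), _,
    mem (ζ * w 1) (mul_mem ζL (wL 1)) (by rw [mul_pow, ζr, one_mul, hw]), ?_⟩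
  have ζ0 : ζ - 1 ≠ 0 := sub_ne_zero.2 ζ1
  have w1 := w0 1
  have e1 : (w 0 - ζ * w 1) / (w 0 - w 2) / ((w 0 - w 1) / (w 0 - w 2)) =
      (w 0 - ζ * w 1) / (w 0 - w 1) := by field_simp
  have e2 : 1 - (w 0 - ζ * w 1) / (w 0 - w 1) = (ζ - 1) * w 1 / (w 0 - w 1) := by
    field_simp; ring
  have e3 : ζ - (w 0 - ζ * w 1) / (w 0 - w 1) = (ζ - 1) * w 0 / (w 0 - w 1) := by
    field_simp; ring
  have e4 : (ζ - 1) * w 0 / (w 0 - w 1) / ((ζ - 1) * w 1 / (w 0 - w 1)) = w 0 / w 1 := by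
    field_simp
  have x1 := x0 1
  have e5 : e 0 - e 1 ≠ 0 := sub_ne_zero.2 fun h => absurd (hi h) (by decide)
  have e6 : 1 - (x - e 0) / (x - e 1) = (e 0 - e 1) / (x - e 1) := by field_simp; ring
  simp only [e1, e2, e3, e4, div_pow, hw, e6]
  field_simp
  ring

end Pool.Agent.P.MP_68214b_ag.DP
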