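import Pool.Agent.P.MP_68214b_ag.DP1

/-! Eventual stability. -/

open Polynomial

namespace Pool.Agent.P.MP_68214b_ag.DP

variable {E : Type} [Field E] [CharZero E] [IsAlgClosed E] [Algebra.IsAlgebraic ℚ E]

/-- the orbit under the group fixing K -/
def dp5_orb (K : IntermediateField ℚ E) (x : E) : Set E := {y | ∃ s ∈ K.fixingSubgroup, s x = y}

omit [IsAlgClosed E] [Algebra.IsAlgebraic ℚ E] in
theorem dp5_fix {K : IntermediateField ℚ E} {s : E ≃ₐ[ℚ] E} (hs : s ∈ K.fixingSubgroup) {x : E}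
    (hx : x ∈ K) : s x = x := (IntermediateField.mem_fixingSubgroup_iff _ _).1 hs x hx

omit [IsAlgClosed E] [Algebra.IsAlgebraic ℚ E] in
theorem dp5_smul {K : IntermediateField ℚ E} {s : E ≃ₐ[ℚ] E} (hs : s ∈ K.fixingSubgroup)
    (x : E) : dp5_orb K (s x) = dp5_orb K x := by
  ext y
  refine ⟨fun ⟨t, ht, e⟩ => ⟨t * s, mul_mem ht hs, e⟩, fun ⟨t, ht, e⟩ =>
    ⟨t * s⁻¹, mul_mem ht (inv_mem hs), ?_⟩⟩
  rw [AlgEquiv.mul_apply, ← AlgEquiv.mul_apply s⁻¹, inv_mul_cancel, AlgEquiv.one_apply, e]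

omit [IsAlgClosed E] [Algebra.IsAlgebraic ℚ E] in
theorem dp5_img {K : IntermediateField ℚ E} {g : E[X]} (hK : ∀ k, g.coeff k ∈ K) (x : E) :
    (fun z => g.eval z) '' dp5_orb K x = dp5_orb K (g.eval x) := by
  ext y
  constructor
  · rintro ⟨_, ⟨s, hs, rfl⟩, rfl⟩
    exact ⟨s, hs, smul_eval s (fun k => dp5_fix hs (hK k)) x⟩
  · rintro ⟨s, hs, rfl⟩
    exact ⟨s x, ⟨s, hs, rfl⟩, (smul_eval s (fun k => dp5_fix hs (hK k)) x).symm⟩

omit [Algebra.IsAlgebraic ℚ E] in
theorem dp5_step {K : IntermediateField ℚ E} {g : E[X]} (hd : 2 ≤ g.natDegree)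
    (hK : ∀ k, g.coeff k ∈ K) (γ : E) (n : ℕ) :
    (Set.image fun z => g.eval z) '' (dp5_orb K '' {x | it g (n + 1) x = γ}) =
      dp5_orb K '' {x | it g n x = γ} := by
  rw [Set.image_image]
  simp only [dp5_img hK]
  ext O
  refine ⟨fun ⟨x, hx, e⟩ => ⟨_, hx, e⟩, fun ⟨x, hx, e⟩ => ?_⟩
  obtain ⟨z, rfl⟩ := exists_pre hd 1 x
  exact ⟨z, hx, e⟩

omit [Algebra.IsAlgebraic ℚ E] in
/-- a bounded number of orbits gives the claim -/
theorem dp5_of_bdd {K : IntermediateField ℚ E} {g : E[X]} (hm : g.Monic) (hd : 2 ≤ g.natDegree)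
    (hK : ∀ k, g.coeff k ∈ K) {γ : E} {B : ℕ}
    (hB : ∀ n, ∃ m, n ≤ m ∧ (dp5_orb K '' {x | it g m x = γ}).ncard ≤ B) :
    ∃ n0, ∀ k x y, it g n0 (it g k x) = γ → it g k x = it g k y →
      ∃ s ∈ K.fixingSubgroup, s x = y := by
  have fin := fun n => (fin_pre hm hd n γ).image (dp5_orb K)
  have mono : Monotone fun n => (dp5_orb K '' {x | it g n x = γ}).ncard :=
    monotone_nat_of_le_succ fun n => by
      rw [← dp5_step hd hK γ n]; exact Set.ncard_image_le (fin _)
  obtain ⟨b, N, hN⟩ := converges_of_monotone_of_bounded mono (c := B) fun n =>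
    (hB n).elim fun m h => (mono h.1).trans h.2
  have key : ∀ k x y, it g (N + k) x = γ → it g (N + k) y = γ → it g k x = it g k y →
      dp5_orb K x = dp5_orb K y := by
    intro k
    induction k with
    | zero => exact fun x y _ _ e => congrArg _ e
    | succ k ih =>
      intro x y hx hy e
      refine Set.injOn_of_ncard_image_eq (f := Set.image fun z => g.eval z) ?_ (fin (N + k + 1))
        ⟨x, hx, rfl⟩ ⟨y, hy, rfl⟩ ?_
      · rw [dp5_step hd hK γ]
        exact (hN _ (by omega)).trans (hN _ (by omega)).symm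
      · rw [dp5_img hK, dp5_img hK]; exact ih _ _ hx hy e
  refine ⟨N, fun k x y hx e => ?_⟩
  have h := key k x y (by rwa [it_add]) (by rwa [it_add, ← e]) e
  exact (Set.ext_iff.1 h y).2 ⟨1, one_mem _, rfl⟩

/-- the number of orbits is bounded by the valuation of the product -/
theorem dp5_bound (K : IntermediateField ℚ E) [FiniteDimensional ℚ K] {g : E[X]} (hm : g.Monic)
    (hd : 2 ≤ g.natDegree) (hK : ∀ k, g.coeff k ∈ K) {γ : E} (hγ : γ ∈ K)
    {A : ValuationSubring E} {p : ℕ} (hp : Ov A p) {κ : E} (hκ : κ ∈ K) (h0 : κ ≠ 0) (u : E → E)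
    (hu : ∀ s ∈ K.fixingSubgroup, ∀ x, s (u x) = u (s x)) : ∃ B, ∀ n,
      (∀ x, it g n x = γ → A.valuation (u x) < 1) →
      A.valuation κ ≤ A.valuation ((gi g n - C γ).roots.map u).prod →
      (dp5_orb K '' {x | it g n x = γ}).ncard ≤ B := by
  classical
  obtain ⟨B, hB⟩ := disc K hp hκ h0
  refine ⟨B, fun n h1 h2 => ?_⟩
  have hT : ∀ x, x ∈ (gi g n - C γ).roots.toFinset ↔ it g n x = γ := fun x => by
    rw [Multiset.mem_toFinset, mem_roots_gi hm hd]
  have h3 : A.valuation κ ≤ A.valuation (∏ x ∈ (gi g n - C γ).roots.toFinset, u x) := by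
    obtain ⟨r, hr⟩ := Multiset.le_iff_exists_add.1 (gi g n - C γ).roots.dedup_le
    refine h2.trans ?_
    conv_lhs => rw [hr, Multiset.map_add, Multiset.prod_add, map_mul]
    refine mul_le_of_le_one_right' ?_
    refine Multiset.prod_induction (fun z => A.valuation z ≤ 1) _ (fun a b ha hb => ?_)
      (by simp) fun z hz => ?_
    · rw [map_mul]; exact mul_le_one' ha hb
    · obtain ⟨x, hx, rfl⟩ := Multiset.mem_map.1 hz
      exact (h1 x ((mem_roots_gi hm hd).1 (by rw [hr]; exact Multiset.mem_add.2 (.inr hx)))).le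
  generalize (gi g n - C γ).roots.toFinset = T at hT h3
  have e : dp5_orb K '' {x | it g n x = γ} = ↑(T.image (dp5_orb K)) := by
    rw [Finset.coe_image]; congr 1; ext x; exact (hT x).symm
  rw [e, Set.ncard_coe_finset]
  have := hB ((T.image (dp5_orb K)).val.map fun O => ∏ x ∈ T with dp5_orb K x = O, u x) ?_ ?_
  · rwa [Multiset.card_map] at this
  · intro y hy
    obtain ⟨O, hO, rfl⟩ := Multiset.mem_map.1 hy
    obtain ⟨x0, hx0, rfl⟩ := Finset.mem_image.1 hO
    refine ⟨mem_of_fixed K fun s hs => ?_, ?_⟩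
    · rw [map_prod]
      refine Finset.prod_equiv s.toEquiv (fun x => ?_) fun x _ => hu s hs x
      simp only [Finset.mem_filter, hT, AlgEquiv.toEquiv_eq_coe, EquivLike.coe_coe, dp5_smul hs]
      rw [← smul_it s (fun k => dp5_fix hs (hK k)), ← s.injective.eq_iff (a := it g n x),
        dp5_fix hs hγ]
    · rw [← Finset.mul_prod_erase _ _ (a := x0) (by simpa using hx0), map_mul, map_prod]
      refine mul_lt_one_of_nonneg_of_lt_one_left zero_le (h1 _ ((hT _).1 hx0))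
        (Finset.prod_le_one' fun x hx => (h1 x ((hT x).1 ?_)).le)
      exact (Finset.mem_filter.1 (Finset.mem_of_mem_erase hx)).1
  · rwa [← Finset.prod_fiberwise_of_maps_to (g := dp5_orb K) (t := T.image (dp5_orb K))
      fun x hx => Finset.mem_image_of_mem _ hx] at h3

omit [CharZero E] [IsAlgClosed E] [Algebra.IsAlgebraic ℚ E] in
/-- a critical point that is periodic modulo the place -/
theorem dp5_val {A : ValuationSubring E} {g : E[X]} (h : IP A g) {γ : E} (hc : Crit g γ)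
    (hγ : A.valuation γ ≤ 1) {m : ℕ} (h0 : it g (m + 1) γ - γ ≠ 0)
    (h1 : Cg A (it g (m + 1) γ) γ) (j : ℕ) :
    A.valuation (it g ((m + 1) * (j + 1)) γ - γ) = A.valuation (it g (m + 1) γ - γ) := by
  induction j with
  | zero => rw [zero_add, mul_one]
  | succ j ih =>
    have hz := h.it hγ ((m + 1) * (j + 1))
    rw [mul_add_one, add_comm, it_add]
    generalize it g ((m + 1) * (j + 1)) γ = z at ih hz
    obtain ⟨c, c1, c2⟩ := h.taylor hγ hz
    have l := (h.gi m).lip (h.eval hz) (h.eval hγ)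
    rw [gi_eval, gi_eval, ← it_succ, ← it_succ, c2, show eval γ (derivative g) = 0 from hc,
      zero_mul, add_zero, add_sub_cancel_left, map_mul, map_pow, ih] at l
    rw [← sub_add_sub_cancel _ (it g (m + 1) γ)]
    refine Valuation.map_add_eq_of_lt_right _ (l.trans_lt ((mul_le_of_le_one_left' c1).trans_lt ?_))
    rw [sq]
    exact mul_lt_of_lt_one_left (zero_lt_iff.2 ((Valuation.ne_zero_iff _).2 h0)) h1

theorem es (K : IntermediateField ℚ E) [FiniteDimensional ℚ K] {g : E[X]} (hm : g.Monic)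
    (hd : 2 ≤ g.natDegree) (hK : ∀ k, g.coeff k ∈ K) {γ : E} (hγ : γ ∈ K) (hc : Crit g γ)
    (hw : Wand g γ) (hs : Stab g γ) : ∃ n0, ∀ k x y, it g n0 (it g k x) = γ →
      it g k x = it g k y → ∃ s ∈ K.fixingSubgroup, s x = y := by
  obtain ⟨A, p, hp, hI, hs⟩ := hs
  by_cases h1 : 1 < A.valuation γ
  · have g0 : γ ≠ 0 := fun e => by simp [e] at h1
    obtain ⟨B, hB⟩ := dp5_bound K hm hd hK hγ hp (inv_mem hγ) (inv_ne_zero g0)
      (fun x => (0 - x)⁻¹) fun s _ x => by simp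
    refine dp5_of_bdd hm hd hK fun n => ⟨n, le_rfl, hB n (fun x hx => ?_) ?_⟩
    · rw [zero_sub, map_inv₀, Valuation.map_neg]
      exact inv_lt_one_of_one_lt₀ (not_le.1 fun e => h1.not_ge (hx ▸ hI.it e n))
    · rw [Multiset.prod_map_inv, ← prod_gi hm hd, map_inv₀, map_inv₀,
        Valuation.map_sub_eq_of_lt_right _ ((hI.it (by simp) n).trans_lt h1)]
  have inj := hs.resolve_left h1
  replace h1 := not_lt.1 h1
  have ne : ∀ m, it g (m + 1) γ - γ ≠ 0 := fun m e =>
    hw.not_per ⟨m + 1, by omega, sub_eq_zero.1 e⟩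
  have inj' : ∀ n j x, A.valuation x ≤ 1 → Cg A (it g n x) (it g (j + n) γ) →
      Cg A x (it g j γ) := fun n j x hx => by
    induction n with
    | zero => exact id
    | succ n ih => exact fun h => ih (inj _ _ (hI.it hx n) (by rwa [it_succ'] at h))
  have mem : ∀ n, it g n γ ∈ K := fun n => mem_of_fixed K fun s hs => by
    rw [smul_it s (fun k => dp5_fix hs (hK k)), dp5_fix hs hγ]
  obtain ⟨i, j, hij, h⟩ := fin_res K hp (fun n => it g n γ) fun n => ⟨mem n, hI.it h1 n⟩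
  obtain ⟨m, rfl⟩ : ∃ m, j = m + 1 + i := ⟨j - i - 1, by omega⟩
  have h2 := (inj' i (m + 1) γ h1 h).symm
  obtain ⟨B, hB⟩ := dp5_bound K hm hd hK hγ hp (sub_mem (mem (m + 1)) hγ) (ne m)
    (fun x => γ - x) fun s hs x => by rw [map_sub, dp5_fix hs hγ]
  refine dp5_of_bdd hm hd hK fun n => ⟨(m + 1) * (n + 1), by nlinarith,
    hB _ (fun x hx => ?_) ?_⟩
  · refine (inj' ((m + 1) * (n + 1)) 0 x (hI.pre hm hd (hx ▸ h1)) (Cg.symm ?_)).symm
    rw [hx, zero_add, Cg, dp5_val hI hc h1 (ne m) h2]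
    exact h2
  · rw [← prod_gi hm hd, dp5_val hI hc h1 (ne m) h2]

end Pool.Agent.P.MP_68214b_ag.DP
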