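import Mathlib

/-! Group lemmas: cyclic fibres, full symmetric group on a fibre, fibres with three points. -/

open Equiv MulAction

namespace Pool.Agent.P.MP_68214b_ag.DP

namespace G6

section Pm

variable {α : Type} [Fintype α] [DecidableEq α]

lemma grp_sign {σ : Perm α} {o : ℕ} (ho : Odd o) (h : σ ^ o = 1) : Perm.sign σ = 1 := by
  have h1 : Perm.sign σ ^ o = 1 := by rw [← map_pow, h, map_one]
  rcases Int.units_eq_one_or (Perm.sign σ) with h2 | h2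
  · exact h2
  · rw [h2, ho.neg_one_pow] at h1
    exact absurd h1 (by decide)

lemma grp_free {p : ℕ} (hp : p.Prime) (hc : Fintype.card α = p) {σ : Perm α} (h : σ ^ p = 1)
    (h1 : σ ≠ 1) (y : α) : σ y ≠ y := by
  have := Fact.mk hp
  intro hy
  have h2 := Perm.card_compl_support_modEq (p := p) (n := 1) (σ := σ) (by rwa [pow_one])
  rw [hc] at h2
  have h3 : p ∣ σ.supportᶜ.card := (Nat.modEq_zero_iff_dvd).1 (h2.trans (Nat.modEq_zero_iff_dvd.2
    dvd_rfl))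
  have h4 : 0 < σ.supportᶜ.card := Finset.card_pos.2 ⟨y, by simp [hy]⟩
  have h5 := Perm.two_le_card_support_of_ne_one h1
  have h6 := Nat.le_of_dvd h4 h3
  have h7 := Finset.card_add_card_compl σ.support
  omega

lemma grp_cyc {p : ℕ} (hp : p.Prime) (hc : Fintype.card α = p) :
    ∃ c : Perm α, c ^ p = 1 ∧ c ≠ 1 := by
  have := Fact.mk hp
  obtain ⟨c, h⟩ := exists_prime_orderOf_dvd_card (G := Perm α) p
    (by rw [Fintype.card_perm, hc]; exact Nat.dvd_factorial hp.pos le_rfl)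
  refine ⟨c, h ▸ pow_orderOf_eq_one c, fun h1 => ?_⟩
  rw [h1, orderOf_one] at h
  exact hp.one_lt.ne h

lemma grp_central (hc : 3 ≤ Fintype.card α) {σ : Perm α} (h : ∀ τ, σ * τ = τ * σ) : σ = 1 := by
  ext x
  by_contra hx'
  have hx : σ x ≠ x := hx'
  obtain ⟨z, hz⟩ : ∃ z, z ∉ ({x, σ x} : Finset α) := by
    by_contra hn
    push Not at hn
    have h1 : (Finset.univ : Finset α) ⊆ {x, σ x} := fun z _ => hn z
    have h2 := (Finset.card_le_card h1).trans Finset.card_le_two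
    rw [Finset.card_univ] at h2
    omega
  simp only [Finset.mem_insert, Finset.mem_singleton, not_or] at hz
  have h1 := DFunLike.congr_fun (h (swap (σ x) z)) x
  rw [Perm.mul_apply, Perm.mul_apply, swap_apply_left,
    swap_apply_of_ne_of_ne (fun e => hx e.symm) (fun e => hz.1 e.symm)] at h1
  exact hz.2 h1.symm

lemma grp_cube (hc : Fintype.card α = 3) {σ : Perm α} (h : Perm.sign σ = 1) : σ ^ 3 = 1 := by
  have : Nontrivial α := Fintype.one_lt_card_iff_nontrivial.1 (by omega)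
  have h1 := two_mul_card_alternatingGroup (α := α)
  rw [Fintype.card_perm, hc] at h1
  have h2 : Fintype.card (alternatingGroup α) = 3 := by
    have : Nat.factorial 3 = 6 := rfl
    omega
  have h3 := pow_card_eq_one (x := (⟨σ, Perm.mem_alternatingGroup.2 h⟩ : alternatingGroup α))
  rw [h2] at h3
  exact congrArg Subtype.val h3

lemma grp_alt (hc : 5 ≤ Fintype.card α) :
    ∃ a b : Perm α, Perm.sign a = 1 ∧ Perm.sign b = 1 ∧ a * b ≠ b * a := by
  by_contra hn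
  push Not at hn
  have h1 := alternatingGroup.center_eq_bot (α := α) (by rw [Nat.card_eq_fintype_card]; omega)
  have := alternatingGroup.nontrivial_of_three_le_card (α := α)
    (by rw [Nat.card_eq_fintype_card]; omega)
  obtain ⟨a, ha⟩ := exists_ne (1 : alternatingGroup α)
  refine ha (Subgroup.mem_bot.1 (h1 ▸ Subgroup.mem_center_iff.2 fun b => Subtype.ext ?_))
  exact hn _ _ (Perm.mem_alternatingGroup.1 b.2) (Perm.mem_alternatingGroup.1 a.2)

end Pm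

variable {G X V : Type} [Group G] [MulAction G X]

/-- `g` acts on the fibre over `b` as the permutation `σ` -/
def Ac (π : X → V) (b : V) (g : G) (σ : Perm {z // π z = b}) : Prop :=
  ∀ z, ((σ z : {z // π z = b}) : X) = g • (z : X)

variable {π : X → V} {b : V}

lemma Ac.one : Ac π b (1 : G) 1 := fun z => by simp

lemma Ac.mul {g h : G} {σ τ : Perm {z // π z = b}} (h1 : Ac π b g σ) (h2 : Ac π b h τ) :
    Ac π b (g * h) (σ * τ) := fun z => by rw [Perm.mul_apply, h1, h2, mul_smul]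

lemma Ac.inv {g : G} {σ : Perm {z // π z = b}} (h1 : Ac π b g σ) : Ac π b g⁻¹ σ⁻¹ := fun z => by
  rw [eq_inv_smul_iff, ← h1]
  simp

lemma Ac.pow {g : G} {σ : Perm {z // π z = b}} (h1 : Ac π b g σ) (n : ℕ) :
    Ac π b (g ^ n) (σ ^ n) := by
  induction n with
  | zero => simpa using Ac.one
  | succ n ih => rw [pow_succ, pow_succ]; exact ih.mul h1

lemma Ac.uniq {g : G} {σ τ : Perm {z // π z = b}} (h1 : Ac π b g σ) (h2 : Ac π b g τ) : σ = τ :=
  Equiv.ext fun z => Subtype.ext ((h1 z).trans (h2 z).symm)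

lemma ac_triv {g : G} : Ac π b g 1 ↔ ∀ z, π z = b → g • z = z :=
  ⟨fun h z hz => (h ⟨z, hz⟩).symm, fun h z => (h z z.2).symm⟩

lemma ac_ex (heq : ∀ (g : G) (x y : X), π x = π y → π (g • x) = π (g • y)) {g : G} {x : X}
    (hx : π x = b) (h : π (g • x) = b) : ∃ σ, Ac π b g σ := by
  refine ⟨(MulAction.toPerm g).subtypePerm fun z => ⟨fun hz => ?_, fun hz => ?_⟩, fun z => rfl⟩
  · have h1 := heq g⁻¹ _ _ (hz.trans h.symm)
    simp only [MulAction.toPerm_apply, inv_smul_smul] at h1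
    exact h1.trans hx
  · exact (heq g z x (hz.trans hx.symm)).trans h

/-- the image of a subgroup in the permutations of a fibre -/
def Img (π : X → V) (b : V) (M : Subgroup G) : Subgroup (Perm {z // π z = b}) where
  carrier := {σ | ∃ g ∈ M, Ac π b g σ}
  mul_mem' := fun ⟨g, h1, h2⟩ ⟨h, h3, h4⟩ => ⟨g * h, M.mul_mem h1 h3, h2.mul h4⟩
  one_mem' := ⟨1, M.one_mem, Ac.one⟩
  inv_mem' := fun ⟨g, h1, h2⟩ => ⟨g⁻¹, M.inv_mem h1, h2.inv⟩

lemma img_normal {M N : Subgroup G} (hN : ∀ σ, σ ∈ Img π b N)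
    (h : ∀ n ∈ N, ∀ m ∈ M, n * m * n⁻¹ ∈ M) : (Img π b M).Normal := ⟨fun _ ⟨m, h1, h2⟩ τ => by
  obtain ⟨n, h3, h4⟩ := hN τ
  exact ⟨_, h n h3 m h1, (h4.mul h2).mul h4.inv⟩⟩

omit [MulAction G X] in
/-- removing bad points one at a time -/
lemma grp_greedy [Finite X] (N : Subgroup G) (I : G → Prop) (Bad : G → X → Prop)
    (step : ∀ g, I g → ∀ x : X, Bad g x → ∃ m ∈ N, I (g * m) ∧ ¬ Bad (g * m) x ∧
      ∀ y : X, Bad (g * m) y → Bad g y) (s : G) (hs : I s) :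
    ∃ h ∈ N, I (s * h) ∧ ∀ x : X, ¬ Bad (s * h) x := by
  induction hn : {y : X | Bad s y}.ncard using Nat.strong_induction_on generalizing s with
  | _ n ih =>
    by_cases h0 : ∃ x : X, Bad s x
    · obtain ⟨x, hx⟩ := h0
      obtain ⟨m, h1, h2, h3, h4⟩ := step s hs x hx
      have h5 : {y : X | Bad (s * m) y}.ncard < n :=
        hn ▸ Set.ncard_lt_ncard ⟨h4, fun h => h3 (h hx)⟩ (Set.toFinite _)
      obtain ⟨h, h6, h7⟩ := ih _ h5 (s * m) h2 rfl
      exact ⟨m * h, N.mul_mem h1 h6, by rwa [← mul_assoc]⟩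
    · push Not at h0
      exact ⟨1, N.one_mem, by rwa [mul_one], by rwa [mul_one]⟩

/-- the odd part of a group element on a finite stable set -/
lemma grp_odd {Y : Set X} (hY : Y.Finite) (g : G) (hg : ∀ y ∈ Y, g • y ∈ Y) :
    ∃ e : ℕ, (∃ o, Odd o ∧ ∀ y ∈ Y, (g ^ e) ^ o • y = y) ∧
      ∀ y ∈ Y, ∀ o, Odd o → g ^ o • y = y → g ^ e • y = g • y := by
  have h1 : ∀ y ∈ Y, 0 < period g y := by
    intro y hy
    have h2 : ∀ n : ℕ, g ^ n • y ∈ Y := fun n => by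
      induction n with
      | zero => simpa using hy
      | succ n ih => rw [pow_succ', mul_smul]; exact hg _ ih
    have := hY.to_subtype
    obtain ⟨a, c, h3, h4⟩ := Finite.exists_ne_map_eq_of_infinite fun n : ℕ => (⟨_, h2 n⟩ : Y)
    have h5 : g ^ a • y = g ^ c • y := congrArg Subtype.val h4
    wlog h6 : a < c generalizing a c
    · exact this c a h3.symm h4.symm h5.symm (by omega)
    obtain ⟨k, rfl⟩ := Nat.exists_eq_add_of_lt h6
    rw [add_assoc, pow_add, mul_smul, smul_left_cancel_iff] at h5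
    exact period_pos_of_fixed (Nat.succ_pos k) h5.symm
  obtain ⟨a, o, ho, h2⟩ := Nat.exists_eq_two_pow_mul_odd (n := ∏ y ∈ hY.toFinset, period g y)
    (Finset.prod_ne_zero_iff.2 fun y hy => (h1 y (hY.mem_toFinset.1 hy)).ne')
  have h3 : ∀ y ∈ Y, period g y ∣ 2 ^ a * o := fun y hy =>
    h2 ▸ Finset.dvd_prod_of_mem _ (hY.mem_toFinset.2 hy)
  obtain ⟨e, h4, h5⟩ := Nat.chineseRemainder (Nat.Coprime.pow_left a ho.coprime_two_left) 0 1
  refine ⟨e, ⟨o, ho, fun y hy => ?_⟩, fun y hy q hq h6 => ?_⟩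
  · rw [← pow_mul, pow_smul_eq_iff_period_dvd]
    exact (h3 y hy).trans (Nat.mul_dvd_mul_right (Nat.modEq_zero_iff_dvd.1 h4) o)
  · rw [pow_smul_eq_iff_period_dvd] at h6
    have h7 : period g y ∣ o := (Nat.Coprime.pow_right a
      (hq.of_dvd_nat h6).coprime_two_right).dvd_of_dvd_mul_left (h3 y hy)
    have h8 : e % period g y = 1 % period g y := h5.of_dvd h7
    rw [← pow_mod_period_smul, h8, pow_mod_period_smul, pow_one]


/-- a transitive action permuting the fibres of `π`; `N` preserves each fibre -/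
structure Tw (π : X → V) (N : Subgroup G) : Prop where
  heq : ∀ (g : G) (x y : X), π x = π y → π (g • x) = π (g • y)
  nor : N.Normal
  fix : ∀ n ∈ N, ∀ x : X, π (n • x) = π x
  tr : ∀ x y : X, ∃ g : G, g • x = y

variable {N : Subgroup G}

lemma Tw.ex (T : Tw π N) {n : G} (hn : n ∈ N) (x : X) : ∃ σ, Ac π (π x) n σ :=
  ac_ex T.heq rfl (T.fix n hn x)

lemma Tw.back (T : Tw π N) (g : G) {x y : X} (h : π (g • x) = π (g • y)) : π x = π y := by
  simpa using T.heq g⁻¹ _ _ h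

lemma conj_move {g w : G} {y : X} (h : (g * w * g⁻¹) • y ≠ y) : w • g⁻¹ • y ≠ g⁻¹ • y :=
  fun e => h (by rw [mul_smul, mul_smul, e, smul_inv_smul])

/-- the odd order condition on the fixed fibres -/
def OddOn (π : X → V) (g : G) : Prop :=
  ∀ (x : X) (σ : Perm {z // π z = π x}), Ac π (π x) g σ → ∃ o, Odd o ∧ σ ^ o = 1

theorem Tw.ku [Finite X] (T : Tw π N)
    (hfix : ∀ (g : G) (x y : X), π x = π y → g • x = x → g • y = y) {w : G} (hw : w ∈ N) {x1 : X}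
    (h1 : w • x1 ≠ x1) (h2 : ∀ x y : X, w • x ≠ x → w • y ≠ y → π x = π y) (s : G) :
    ∃ h ∈ N, ∀ x : X, (s * h) • x ≠ x := by
  obtain ⟨h, h3, -, h4⟩ := grp_greedy (X := X) N (fun _ => True) (fun g x => g • x = x)
    (fun g _ x hx => by
    obtain ⟨t, rfl⟩ := T.tr x1 x
    have hm := T.nor.conj_mem w hw t
    have h5 : ∀ y, π y = π (t • x1) → (g * (t * w * t⁻¹)) • y ≠ y := by
      intro y hy e
      rw [mul_smul, hfix g _ _ ((T.fix _ hm y).trans hy).symm hx] at e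
      have h6 := hfix _ _ _ hy e
      rw [mul_smul, mul_smul, inv_smul_smul, smul_left_cancel_iff] at h6
      exact h1 h6
    refine ⟨_, hm, trivial, h5 _ rfl, fun y hy => ?_⟩
    by_cases h6 : (t * w * t⁻¹) • y = y
    · rwa [mul_smul, h6] at hy
    · refine absurd hy (h5 y ?_)
      simpa using T.heq t _ _ (h2 _ _ (conj_move h6) h1)) s trivial
  exact ⟨h, h3, h4⟩

variable [Fintype X] [DecidableEq X] [DecidableEq V]

/-- a conjugate of `w` acts on a given fibre as a transposition -/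
lemma Tw.swap (T : Tw π N) {w : G} (hw : w ∈ N) {x1 : X} (h1 : w • x1 ≠ x1)
    (h2 : ∀ x y z : X, π x = π y → π x = π z → w • x ≠ x → w • y ≠ y → w • z ≠ z →
      x = y ∨ x = z ∨ y = z) (x : X) :
    ∃ (t : G) (σ : Perm {z // π z = π x}), Ac π (π x) (t * w * t⁻¹) σ ∧ σ.IsSwap := by
  obtain ⟨t, rfl⟩ := T.tr x1 x
  obtain ⟨σ, hσ⟩ := T.ex (T.nor.conj_mem w hw t) (t • x1)
  refine ⟨t, σ, hσ, Perm.card_support_eq_two.1 (le_antisymm ?_ ?_)⟩
  · by_contra hn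
    obtain ⟨a, ha, b, hb, c, hc, h3, h4, h5⟩ := Finset.two_lt_card.1 (not_le.1 hn)
    have key : ∀ a ∈ σ.support, w • t⁻¹ • (a : X) ≠ t⁻¹ • (a : X) := fun a ha =>
      conj_move fun e => Perm.mem_support.1 ha (Subtype.ext ((hσ a).trans e))
    rcases h2 _ _ _ (T.heq t⁻¹ _ _ (a.2.trans b.2.symm)) (T.heq t⁻¹ _ _ (a.2.trans c.2.symm))
      (key a ha) (key b hb) (key c hc) with h | h | h <;> rw [smul_left_cancel_iff] at h
    exacts [h3 (Subtype.ext h), h4 (Subtype.ext h), h5 (Subtype.ext h)]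
  · refine Perm.two_le_card_support_of_ne_one fun e => h1 ?_
    have h3 := ac_triv.1 (e ▸ hσ) (t • x1) rfl
    rwa [mul_smul, mul_smul, inv_smul_smul, smul_left_cancel_iff] at h3

/-- the normal subgroup induces the full symmetric group on each fibre -/
lemma Tw.sym (T : Tw π N) {x : X} (hp : (Fintype.card {z // π z = π x}).Prime)
    {σ : Perm {z // π z = π x}} (h1 : σ ∈ Img π (π x) N) (h2 : σ.IsSwap) (τ) :
    τ ∈ Img π (π x) N := by
  have h3 : IsPretransitive (Img π (π x) (⊤ : Subgroup G)) {z // π z = π x} := ⟨fun a b => by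
    obtain ⟨g, hg⟩ := T.tr a b
    obtain ⟨ρ, hρ⟩ := ac_ex T.heq (g := g) a.2 (hg ▸ b.2)
    exact ⟨⟨ρ, g, trivial, hρ⟩, Subtype.ext ((hρ a).trans hg)⟩⟩
  have h4 := Perm.subgroup_eq_top_of_isPreprimitive_of_isSwap_mem
    (IsPreprimitive.of_prime_card (G := Img π (π x) (⊤ : Subgroup G))
      (by rwa [Nat.card_eq_fintype_card])) σ h2 (h1.imp fun _ h => ⟨trivial, h.2⟩)
  have h5 : (Img π (π x) N).Normal :=
    img_normal (N := ⊤) (fun ρ => h4 ▸ Subgroup.mem_top ρ) fun n _ m hm => T.nor.conj_mem m hm n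
  have h6 : Subgroup.closure {ρ : Perm {z // π z = π x} | ρ.IsSwap} ≤ Img π (π x) N := by
    rw [Subgroup.closure_le]
    rintro _ ⟨a, b, hab, rfl⟩
    obtain ⟨c, d, hcd, rfl⟩ := h2
    obtain ⟨u, hu⟩ := isConj_iff.1 (Perm.isConj_swap hcd hab)
    exact hu ▸ h5.conj_mem _ h1 u
  exact h6 (by rw [Perm.closure_isSwap]; trivial)

/-- the greedy step for fibres with three points -/
lemma Tw.step3 (T : Tw π N) (hc : ∀ x, Fintype.card {z // π z = π x} = 3)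
    (hS : ∀ x τ, τ ∈ Img π (π x) N) {w : G} (hw : w ∈ N) {x1 : X} (h1 : w • x1 ≠ x1)
    (h3 : ∀ x y z : X, w • x ≠ x → w • y ≠ y → w • z ≠ z → π x = π y ∨ π x = π z ∨ π y = π z)
    (g : G) (hg : OddOn π g) (x : X) (hx : g • x = x) :
    ∃ m ∈ N, OddOn π (g * m) ∧ (g * m) • x ≠ x ∧ ∀ y : X, (g * m) • y = y → g • y = y := by
  obtain ⟨t, rfl⟩ := T.tr x1 x
  have hw' := T.nor.conj_mem w hw t
  have h1' : (t * w * t⁻¹) • t • x1 ≠ t • x1 := fun e => h1 (by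
    rwa [mul_smul, mul_smul, inv_smul_smul, smul_left_cancel_iff] at e)
  have h3' : ∀ y z : X, (t * w * t⁻¹) • y ≠ y → (t * w * t⁻¹) • z ≠ z → π y ≠ π (t • x1) →
      π z ≠ π (t • x1) → π y = π z := by
    intro y z hy hz hy' hz'
    rcases h3 _ _ _ h1 (conj_move hy) (conj_move hz) with h | h | h
    · exact absurd (by simpa using (T.heq t _ _ h).symm) hy'
    · exact absurd (by simpa using (T.heq t _ _ h).symm) hz'
    · exact T.back _ h
  generalize t * w * t⁻¹ = u at hw' h1' h3'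
  generalize t • x1 = x at hx h1' h3'
  obtain ⟨σ, hσ⟩ := T.ex hw' x
  obtain ⟨τ, hτ⟩ : ∃ τ, σ * τ ≠ τ * σ := by
    by_contra hn
    push Not at hn
    exact h1' (ac_triv.1 (grp_central (hc x).ge hn ▸ hσ) x rfl)
  obtain ⟨m, hm, hmτ⟩ := hS x τ
  obtain ⟨v, hv⟩ : ∃ v, v = u * m * u⁻¹ * m⁻¹ := ⟨_, rfl⟩
  have hvN : v ∈ N := hv ▸ N.mul_mem (N.mul_mem (N.mul_mem hw' hm) (N.inv_mem hw')) (N.inv_mem hm)
  have hA : ∀ {y a b}, Ac π (π y) u a → Ac π (π y) m b → Ac π (π y) v (a * b * a⁻¹ * b⁻¹) :=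
    fun ha hb => hv ▸ ((ha.mul hb).mul ha.inv).mul hb.inv
  have hev : ∀ y, ∃ ρ, Ac π (π y) v ρ ∧ Perm.sign ρ = 1 ∧
      ((∀ z, π z = π y → u • z = z) → ρ = 1) := by
    intro y
    obtain ⟨a, ha⟩ := T.ex hw' y
    obtain ⟨b, hb⟩ := T.ex hm y
    refine ⟨_, hA ha hb, ?_, fun h => ?_⟩
    · simp only [map_mul, map_inv]
      rw [mul_right_comm (Perm.sign a), mul_inv_cancel, one_mul, mul_inv_cancel]
    · rw [ha.uniq (ac_triv.2 h)]
      simp
  have hodd : ∀ k : ℕ, OddOn π (g * v ^ k) := by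
    intro k y ρ hρ
    obtain ⟨a, ha, h4, -⟩ := hev y
    obtain ⟨o, ho, h5⟩ := hg y _ (by simpa using hρ.mul (ha.pow k).inv)
    have h6 := grp_sign ho h5
    rw [map_mul, map_inv, map_pow, h4, one_pow, inv_one, mul_one] at h6
    exact ⟨3, by decide, grp_cube (hc y) h6⟩
  have htriv : ∀ {q : G} {y a}, OddOn π q → q • y = y → Ac π (π y) q a → a = 1 := by
    intro q y a hq hy ha
    obtain ⟨o, ho, h5⟩ := hq y a ha
    by_contra hn
    exact grp_free Nat.prime_three (hc y) (grp_cube (hc y) (grp_sign ho h5)) hn ⟨y, rfl⟩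
      (Subtype.ext ((ha _).trans hy))
  have hex : ∀ {k : ℕ} {y}, (g * v ^ k) • y = y → ∃ a, Ac π (π y) g a := fun {k y} h =>
    ac_ex T.heq (x := v ^ k • y) (T.fix _ (N.pow_mem hvN k) y) (by rw [← mul_smul, h])
  have hx' : ∀ k : ℕ, k = 1 ∨ k = 2 → ∀ y, π y = π x → (g * v ^ k) • y ≠ y := by
    intro k hk y hy e
    obtain ⟨a, ha⟩ := ac_ex T.heq (g := g) rfl (congrArg π hx)
    have h4 := hA hσ hmτ
    obtain ⟨ρ, hρ, h5, -⟩ := hev x
    have h6 : (g * v ^ k) • x = x := by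
      obtain ⟨c, h7⟩ := ac_ex T.heq (g := g * v ^ k) rfl (congrArg π e)
      exact ac_triv.1 (htriv (hodd k) e h7 ▸ h7) x hy.symm
    have h7 := htriv (hodd k) h6 (ha.mul (hρ.pow k))
    rw [htriv hg hx ha, one_mul] at h7
    have h8 := grp_cube (hc x) h5
    have h9 : ρ = 1 := by
      rcases hk with rfl | rfl
      · rwa [pow_one] at h7
      · rwa [pow_succ, h7, one_mul] at h8
    rw [h4.uniq hρ |>.symm, mul_inv_eq_one, mul_inv_eq_iff_eq_mul] at h9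
    exact hτ h9
  have hmv : ∀ {k : ℕ} {y}, (g * v ^ k) • y = y → g • y ≠ y → ∃ z, π z = π y ∧ u • z ≠ z := by
    intro k y h4 h5
    by_contra hn
    push Not at hn
    obtain ⟨ρ, hρ, -, h6⟩ := hev y
    have h7 := hρ.pow k
    rw [h6 hn, one_pow] at h7
    rw [mul_smul, ac_triv.1 h7 y rfl] at h4
    exact h5 h4
  by_cases hk : ∀ y : X, (g * v ^ 1) • y = y → g • y = y
  · exact ⟨_, N.pow_mem hvN 1, hodd 1, hx' 1 (Or.inl rfl) x rfl, hk⟩
  refine ⟨_, N.pow_mem hvN 2, hodd 2, hx' 2 (Or.inr rfl) x rfl, fun y hy => ?_⟩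
  push Not at hk
  obtain ⟨y', h4, h5⟩ := hk
  by_contra h6
  obtain ⟨z, hz, hz'⟩ := hmv hy h6
  obtain ⟨z', hz1, hz2⟩ := hmv h4 h5
  have h7 : π y = π y' := hz.symm.trans ((h3' z z' hz' hz2
    (fun e => hx' 2 (Or.inr rfl) y (hz.symm.trans e) hy)
    (fun e => hx' 1 (Or.inl rfl) y' (hz1.symm.trans e) h4)).trans hz1)
  obtain ⟨c, h8⟩ := ac_ex T.heq (g := g * v ^ 1) rfl (congrArg π h4)
  have h9 := ac_triv.1 (htriv (hodd 1) h4 h8 ▸ h8) y h7
  obtain ⟨a, ha⟩ := hex hy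
  obtain ⟨ρ, hρ, -, -⟩ := hev y
  have e1 := htriv (hodd 1) h9 (ha.mul (hρ.pow 1))
  have e2 := htriv (hodd 2) hy (ha.mul (hρ.pow 2))
  rw [pow_succ, ← mul_assoc, e1, one_mul] at e2
  rw [e2, one_pow, mul_one] at e1
  exact h6 (ac_triv.1 (e1 ▸ ha) y rfl)

lemma three_of_ncard {α : Type} {S : Set α} (hf : S.Finite) (h : S.ncard ≤ 2) {x y z : α}
    (hx : x ∈ S) (hy : y ∈ S) (hz : z ∈ S) : x = y ∨ x = z ∨ y = z := by
  by_contra hn
  push Not at hn
  exact absurd ((Set.two_lt_ncard hf).2 ⟨x, hx, y, hy, z, hz, hn⟩) (not_lt.2 h)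

end G6

open G6

variable {Γ X V : Type} [Group Γ] [MulAction Γ X] [MulAction Γ V] [Finite X]
  [MulAction.IsPretransitive Γ X] {π : X → V} (hπ : ∀ (g : Γ) x, π (g • x) = g • π x)
  {N : Subgroup Γ} [N.Normal] (hN : ∀ n ∈ N, ∀ x, π (n • x) = π x)

include hπ hN

omit [Finite X] in
lemma dp6_tw : G6.Tw π N :=
  ⟨fun g x y h => by rw [hπ, hπ, h], inferInstance, hN, fun x y => exists_smul_eq Γ x y⟩

theorem ku (hf : ∀ (g : Γ) x y, π x = π y → g • x = x → g • y = y) {ι : Γ} (hι : ι ∈ N)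
    (h0 : ∃ x : X, ι • x ≠ x) (h1 : ∀ x y : X, ι • x ≠ x → ι • y ≠ y → π x = π y) (s : Γ) :
    ∃ h ∈ N, ∀ x : X, (s * h) • x ≠ x := by
  obtain ⟨x, hx⟩ := h0
  exact (dp6_tw hπ hN).ku hf hι hx h1 s

theorem kp0 {p : ℕ} (hp : p.Prime) (hc : ∀ x, Nat.card {y // π y = π x} = p) {ι : Γ}
    (hι : ι ∈ N) (h0 : ∃ x : X, ι • x ≠ x)
    (h1 : ∀ b, {y : X | π y = b ∧ ι • y ≠ y}.ncard ≤ 2) (b : V)
    (σ : Equiv.Perm {y // π y = b}) : ∃ n ∈ N, ∀ y : {y // π y = b}, n • y.1 = (σ y).1 := by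
  classical
  have := Fintype.ofFinite X
  by_cases hb : ∃ x, π x = b
  · obtain ⟨x, rfl⟩ := hb
    obtain ⟨x1, hx1⟩ := h0
    have T := dp6_tw hπ hN
    obtain ⟨t, τ, h4, h5⟩ := T.swap hι hx1 (fun x y z e e' hx hy hz =>
      three_of_ncard (Set.toFinite _) (h1 (π x)) ⟨rfl, hx⟩ ⟨e.symm, hy⟩ ⟨e'.symm, hz⟩) x
    obtain ⟨n, h6, h7⟩ := T.sym (by rw [← Nat.card_eq_fintype_card, hc]; exact hp)
      ⟨_, T.nor.conj_mem ι hι t, h4⟩ h5 σ
    exact ⟨n, h6, fun y => (h7 y).symm⟩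
  · exact ⟨1, N.one_mem, fun y => (hb ⟨y, y.2⟩).elim⟩

theorem kp3 (hc : ∀ x, Nat.card {y // π y = π x} = 3) {ι : Γ} (hι : ι ∈ N)
    (h0 : ∃ x : X, ι • x ≠ x) (h1 : ∀ b, {y : X | π y = b ∧ ι • y ≠ y}.ncard ≤ 2)
    (h3 : (π '' {y : X | ι • y ≠ y}).ncard ≤ 2) (s : Γ) {m : ℕ} (hm : Odd m)
    (hs : ∀ x : X, s ^ m • x = x) :
    ∃ h ∈ N, ∀ x : X, s • π x = π x → (s * h) • x ≠ x ∧ (s * h) ^ 3 • x = x := by
  classical
  have := Fintype.ofFinite X
  have T := dp6_tw hπ hN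
  have hc' : ∀ x, Fintype.card {z // π z = π x} = 3 := fun x => by
    rw [← Nat.card_eq_fintype_card, hc]
  have hS := kp0 hπ hN Nat.prime_three hc hι h0 h1
  obtain ⟨x1, hx1⟩ := h0
  obtain ⟨h, h4, h5, h6⟩ := grp_greedy (X := X) N (OddOn π) (fun g x => g • x = x)
    (T.step3 hc' (fun x τ => (hS _ τ).imp fun n hn => ⟨hn.1, fun y => (hn.2 y).symm⟩) hι hx1
      fun x y z hx hy hz => three_of_ncard (Set.toFinite _) h3 ⟨x, hx, rfl⟩ ⟨y, hy, rfl⟩
        ⟨z, hz, rfl⟩) s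
    fun x σ hσ => ⟨m, hm, (hσ.pow m).uniq (ac_triv.2 fun z _ => hs z)⟩
  refine ⟨h, h4, fun x e => ⟨h6 x, ?_⟩⟩
  obtain ⟨σ, hσ⟩ := ac_ex T.heq (g := s * h) (x := x) rfl (by rw [mul_smul, hπ, hN h h4, e])
  obtain ⟨q, h7, h8⟩ := h5 x σ hσ
  exact ac_triv.1 (grp_cube (hc' x) (grp_sign h7 h8) ▸ hσ.pow 3) x rfl

end Pool.Agent.P.MP_68214b_ag.DP
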