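import Pool.Agent.P.MP_68214b_ag.DP6a

/-! Group lemmas: fibres of prime size at least five. -/

open Equiv MulAction

namespace Pool.Agent.P.MP_68214b_ag.DP

namespace G6

variable {G X V : Type} [Group G] [MulAction G X]

/-- elements of `N` that fix the fibres through the points of `S` -/
def KerS (π : X → V) (N : Subgroup G) (S : Set X) : Subgroup G where
  carrier := {n | n ∈ N ∧ ∀ y ∈ S, Ac π (π y) n 1}
  mul_mem' := fun h1 h2 => ⟨N.mul_mem h1.1 h2.1, fun y hy => by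
    simpa using (h1.2 y hy).mul (h2.2 y hy)⟩
  one_mem' := ⟨N.one_mem, fun _ _ => Ac.one⟩
  inv_mem' := fun h => ⟨N.inv_mem h.1, fun y hy => by simpa using (h.2 y hy).inv⟩

/-- the fibre of `y` is fixed by `g`, and `g` is not yet of order `p` at `y` -/
def Bad (π : X → V) (p : ℕ) (g : G) (y : X) : Prop :=
  π (g • y) = π y ∧ ¬ (g • y ≠ y ∧ g ^ p • y = y)

variable {π : X → V} {N : Subgroup G}

lemma Tw.kconj (T : Tw π N) (S : Set X) {n m : G} (hn : n ∈ N) (hm : m ∈ KerS π N S) :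
    n * m * n⁻¹ ∈ KerS π N S := ⟨T.nor.conj_mem m hm.1 n, fun y hy => by
  obtain ⟨a, ha⟩ := T.ex hn y
  simpa using (ha.mul (hm.2 y hy)).mul ha.inv⟩

section Fin

variable [Fintype X] [DecidableEq X] [DecidableEq V]

lemma Tw.alt (T : Tw π N) {x : X} (hc : 5 ≤ Fintype.card {z // π z = π x})
    (hS : ∀ τ, τ ∈ Img π (π x) N) {S : Set X} (hf : S.Finite)
    (h : ∀ y ∈ S, ¬ ∀ n ∈ N, Ac π (π y) n 1 → Ac π (π x) n 1) {τ : Perm {z // π z = π x}}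
    (hτ : Perm.sign τ = 1) : τ ∈ Img π (π x) (KerS π N S) := by
  have key : ∀ (S : Set X) (m : G) (σ : Perm {z // π z = π x}), m ∈ KerS π N S →
      Ac π (π x) m σ → σ ≠ 1 → ∀ τ, Perm.sign τ = 1 → τ ∈ Img π (π x) (KerS π N S) := by
    intro S m σ h1 h2 h3 τ hτ
    have := img_normal (M := KerS π N S) hS fun n hn m hm => T.kconj S hn hm
    exact Perm.alternatingGroup_le_of_normal (N := Img π (π x) (KerS π N S))
      (by rwa [Nat.card_eq_fintype_card])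
      ⟨⟨⟨σ, m, h1, h2⟩, 1, fun e => h3 (congrArg Subtype.val e)⟩⟩ (Perm.mem_alternatingGroup.2 hτ)
  induction S, hf using Set.Finite.induction_on generalizing τ with
  | empty =>
    obtain ⟨n, h1, h2⟩ := hS τ
    exact ⟨n, ⟨h1, fun _ h => h.elim⟩, h2⟩
  | @insert y S _ _ ih =>
    obtain ⟨a, b, ha, hb, hab⟩ := grp_alt hc
    obtain ⟨m, h1, h2⟩ := ih (fun z hz => h z (Set.mem_insert_of_mem _ hz)) ha
    have h3 := h y (Set.mem_insert _ _)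
    push Not at h3
    obtain ⟨n, h3, h4, h5⟩ := h3
    obtain ⟨σ, hσ⟩ := T.ex h3 x
    obtain ⟨k, h6, h7⟩ := key {y} n σ ⟨h3, fun z hz => hz ▸ h4⟩ hσ (fun e => h5 (e ▸ hσ)) b hb
    have h8 := (KerS π N {y}).mul_mem (T.kconj _ h1.1 h6) ((KerS π N {y}).inv_mem h6)
    have h9 := (KerS π N S).mul_mem h1 (T.kconj _ h6.1 ((KerS π N S).inv_mem h1))
    refine key _ (m * k * m⁻¹ * k⁻¹) _ ⟨h8.1, fun z hz => ?_⟩ (((h2.mul h7).mul h2.inv).mul h7.inv)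
      (fun e => hab ?_) τ hτ
    · rcases hz with rfl | hz
      · exact h8.2 _ rfl
      · simpa only [mul_assoc] using h9.2 z hz
    · rwa [mul_inv_eq_one, mul_inv_eq_iff_eq_mul] at e

lemma Tw.symm (T : Tw π N) (hc : ∀ x, 5 ≤ Fintype.card {z // π z = π x})
    (hS : ∀ x τ, τ ∈ Img π (π x) N) {x y : X} (h : ∀ n ∈ N, Ac π (π y) n 1 → Ac π (π x) n 1) :
    ∀ n ∈ N, Ac π (π x) n 1 → Ac π (π y) n 1 := by
  by_contra hn
  obtain ⟨a, b, -, -, hab⟩ := grp_alt (hc x)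
  obtain ⟨n1, h1, h2⟩ := hS x a
  obtain ⟨n2, h3, h4⟩ := hS x b
  obtain ⟨a', h5⟩ := T.ex h1 y
  obtain ⟨b', h6⟩ := T.ex h3 y
  obtain ⟨k, h7, h8⟩ := T.alt (hc y) (hS y) (Set.finite_singleton x) (fun z hz => hz ▸ hn)
    (τ := a' * b' * a'⁻¹ * b'⁻¹) (by
      simp only [map_mul, map_inv]
      rw [mul_right_comm (Perm.sign a'), mul_inv_cancel, one_mul, mul_inv_cancel])
  have h9 := h _ (N.mul_mem (N.mul_mem (N.mul_mem (N.mul_mem h1 h3) (N.inv_mem h1)) (N.inv_mem h3))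
    (N.inv_mem h7.1)) (by
      have := (((h5.mul h6).mul h5.inv).mul h6.inv).mul h8.inv
      rwa [mul_inv_cancel] at this)
  have e := ((((h2.mul h4).mul h2.inv).mul h4.inv).mul (h7.2 x rfl).inv).uniq h9
  rw [inv_one, mul_one, mul_inv_eq_one, mul_inv_eq_iff_eq_mul] at e
  exact hab e

/-- the greedy step for fibres with at least five points -/
lemma Tw.step5 (T : Tw π N) {p : ℕ} (hp : p.Prime) (h5 : 5 ≤ p)
    (hc : ∀ x, Fintype.card {z // π z = π x} = p) (hS : ∀ x τ, τ ∈ Img π (π x) N)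
    (g : G) (hg : OddOn π g) (x : X) (hx : Bad π p g x) :
    ∃ m ∈ N, OddOn π (g * m) ∧ ¬ Bad π p (g * m) x ∧ ∀ y : X, Bad π p (g * m) y → Bad π p g y := by
  have hc5 : ∀ x, 5 ≤ Fintype.card {z // π z = π x} := fun x => hc x ▸ h5
  have hpo : Odd p := hp.odd_of_ne_two (by omega)
  obtain ⟨a, ha⟩ := ac_ex T.heq (g := g) rfl hx.1
  obtain ⟨o, ho, h1⟩ := hg x a ha
  obtain ⟨c, h2, h3⟩ := grp_cyc hp (hc x)
  have hA := fun τ hτ => T.alt (hc5 x) (hS x)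
    (Set.toFinite {y | ¬ ∀ n ∈ N, Ac π (π y) n 1 → Ac π (π x) n 1}) (fun _ h => h) (τ := τ) hτ
  obtain ⟨m0, h4, h6⟩ := hA a⁻¹ (by rw [map_inv, grp_sign ho h1, inv_one])
  obtain ⟨m1, h7, h8⟩ := hA c (grp_sign hpo h2)
  have h9 := (KerS π N _).mul_mem h4 h7
  have h10 : Ac π (π x) (g * m0) 1 := by simpa using ha.mul h6
  have key : ∀ y ρ, (∀ n ∈ N, Ac π (π y) n 1 → Ac π (π x) n 1) → Ac π (π y) (g * (m0 * m1)) ρ →
      ρ ^ p = 1 ∧ ρ ≠ 1 := by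
    intro y ρ hy hρ
    have hy' := T.symm hc5 hS hy
    obtain ⟨τ, hτ⟩ := T.ex h7.1 y
    have e1 : Ac π (π y) (g * m0) (ρ * τ⁻¹) := by simpa [mul_assoc] using hρ.mul hτ.inv
    have e2 : ρ * τ⁻¹ = 1 := grp_central ((by omega : 3 ≤ 5).trans (hc5 y)) fun ν => by
      obtain ⟨n, hn, hν⟩ := hS y ν
      obtain ⟨ν', hν'⟩ := T.ex hn x
      have e3 := (((e1.mul hν).mul e1.inv).mul hν.inv).uniq
        (hy' _ (N.mul_mem (T.nor.conj_mem n hn _) (N.inv_mem hn))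
          (by simpa using ((h10.mul hν').mul h10.inv).mul hν'.inv))
      rwa [mul_inv_eq_one, mul_inv_eq_iff_eq_mul] at e3
    rw [mul_inv_eq_one] at e2
    subst e2
    exact ⟨(hτ.pow p).uniq (hy' _ (N.pow_mem h7.1 p) (h2 ▸ h8.pow p)),
      fun e => h3 (h8.uniq (hy _ h7.1 (e ▸ hτ)))⟩
  have key2 : ∀ y, (∀ n ∈ N, Ac π (π y) n 1 → Ac π (π x) n 1) → ¬ Bad π p (g * (m0 * m1)) y := by
    intro y hy e
    obtain ⟨ρ, hρ⟩ := ac_ex T.heq (g := g * (m0 * m1)) rfl e.1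
    exact e.2 ⟨fun e' => grp_free hp (hc y) (key y ρ hy hρ).1 (key y ρ hy hρ).2 ⟨y, rfl⟩
      (Subtype.ext ((hρ _).trans e')), ac_triv.1 ((key y ρ hy hρ).1 ▸ hρ.pow p) y rfl⟩
  have key3 : ∀ y ρ, (¬ ∀ n ∈ N, Ac π (π y) n 1 → Ac π (π x) n 1) →
      Ac π (π y) (g * (m0 * m1)) ρ → Ac π (π y) g ρ := by
    intro y ρ hy hρ
    have := hρ.mul (h9.2 y hy).inv
    rwa [mul_inv_cancel_right, inv_one, mul_one] at this
  refine ⟨_, h9.1, fun y ρ hρ => ?_, key2 x fun _ _ h => h, fun y e => ?_⟩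
  · by_cases hy : ∀ n ∈ N, Ac π (π y) n 1 → Ac π (π x) n 1
    · exact ⟨p, hpo, (key y ρ hy hρ).1⟩
    · exact hg y ρ (key3 y ρ hy hρ)
  · by_cases hy : ∀ n ∈ N, Ac π (π y) n 1 → Ac π (π x) n 1
    · exact absurd e (key2 y hy)
    · obtain ⟨ρ, hρ⟩ := ac_ex T.heq (g := g * (m0 * m1)) rfl e.1
      have e1 : (g * (m0 * m1)) • y = g • y := (hρ ⟨y, rfl⟩).symm.trans (key3 y ρ hy hρ _)
      have e2 : (g * (m0 * m1)) ^ p • y = g ^ p • y :=
        (hρ.pow p ⟨y, rfl⟩).symm.trans ((key3 y ρ hy hρ).pow p _)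
      unfold Bad at e ⊢
      rwa [e1, e2] at e

end Fin

end G6

open G6

variable {Γ X V : Type} [Group Γ] [MulAction Γ X] [MulAction Γ V] [Finite X]
  [MulAction.IsPretransitive Γ X] {π : X → V} (hπ : ∀ (g : Γ) x, π (g • x) = g • π x)
  {N : Subgroup Γ} [N.Normal] (hN : ∀ n ∈ N, ∀ x, π (n • x) = π x)

include hπ hN

theorem kp5 {p : ℕ} (hp : p.Prime) (h5 : 5 ≤ p) (hc : ∀ x, Nat.card {y // π y = π x} = p)
    (hS : ∀ (b : V) (σ : Equiv.Perm {y // π y = b}),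
      ∃ n ∈ N, ∀ y : {y // π y = b}, n • y.1 = (σ y).1) (s : Γ) {m : ℕ} (hm : Odd m)
    (hs : ∀ x : X, s ^ m • x = x) :
    ∃ h ∈ N, ∀ x : X, s • π x = π x → (s * h) • x ≠ x ∧ (s * h) ^ p • x = x := by
  classical
  have := Fintype.ofFinite X
  obtain ⟨h, h4, -, h6⟩ := grp_greedy (X := X) N (OddOn π) (Bad π p)
    ((dp6_tw hπ hN).step5 hp h5 (fun x => by rw [← Nat.card_eq_fintype_card, hc])
      fun x τ => (hS _ τ).imp fun n hn => ⟨hn.1, fun y => (hn.2 y).symm⟩) s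
    fun x σ hσ => ⟨m, hm, (hσ.pow m).uniq (ac_triv.2 fun z _ => hs z)⟩
  refine ⟨h, h4, fun x e => ?_⟩
  by_contra hn
  exact h6 x ⟨by rw [mul_smul, hπ, hN h h4, e], hn⟩

theorem kp {p : ℕ} (hp : p.Prime) (h2 : p ≠ 2) (hc : ∀ x, Nat.card {y // π y = π x} = p) {ι : Γ}
    (hι : ι ∈ N) (h0 : ∃ x : X, ι • x ≠ x) (h1 : ∀ b, {y : X | π y = b ∧ ι • y ≠ y}.ncard ≤ 2)
    (h3 : p = 3 → (π '' {y : X | ι • y ≠ y}).ncard ≤ 2) (s : Γ) {m : ℕ} (hm : Odd m)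
    (hs : ∀ x : X, s ^ m • x = x) :
    ∃ h ∈ N, ∀ x : X, s • π x = π x → (s * h) • x ≠ x ∧ (s * h) ^ p • x = x := by
  by_cases e : p = 3
  · subst e
    exact kp3 hπ hN hc hι h0 h1 (h3 rfl) s hm hs
  · exact kp5 hπ hN hp (hp.five_le_of_ne_two_of_ne_three h2 e) hc
      (kp0 hπ hN hp hc hι h0 h1) s hm hs

end Pool.Agent.P.MP_68214b_ag.DP
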