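import Pool.Agent.P.MP_68214b_ag.DP6b

/-! Group lemma: fibres of size prime to six. -/

open Equiv MulAction

namespace Pool.Agent.P.MP_68214b_ag.DP

namespace G6

section Pm

variable {α : Type} [DecidableEq α]

lemma sw_eq {σ : Perm α} (h : σ.IsSwap) {p q : α} (hpq : p ≠ q) (hp : σ p ≠ p) (hq : σ q ≠ q) :
    σ = swap p q := by
  obtain ⟨a, b, -, rfl⟩ := h
  have key : ∀ z, swap a b z ≠ z → z = a ∨ z = b := fun z hz => by
    by_contra hn
    push Not at hn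
    exact hz (swap_apply_of_ne_of_ne hn.1 hn.2)
  rcases key p hp with rfl | rfl <;> rcases key q hq with rfl | rfl
  exacts [absurd rfl hpq, rfl, swap_comm _ _, absurd rfl hpq]

omit [DecidableEq α] in
lemma sw_meet {σ τ : Perm α} (h : σ * τ ≠ τ * σ) : ∃ p, σ p ≠ p ∧ τ p ≠ p := by
  by_contra hn
  push Not at hn
  exact h (Perm.Disjoint.commute fun p => or_iff_not_imp_left.2 (hn p)).eq

lemma sw_two {σ : Perm α} (h : σ.IsSwap) {p q : α} (hpq : q ≠ p) (hp : σ p ≠ p) (hq : σ q ≠ q) :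
    q = σ p := by rw [sw_eq h hpq.symm hp hq, swap_apply_left]

/-- at least four pairwise non commuting transpositions have a common point -/
lemma sw_star {J : Type} [DecidableEq J] (S : Finset J) (h4 : 4 ≤ S.card) (σ : J → Perm α)
    (hs : ∀ z ∈ S, (σ z).IsSwap) (hn : ∀ z ∈ S, ∀ z' ∈ S, z ≠ z' → σ z * σ z' ≠ σ z' * σ z) :
    ∃! p, ∀ z ∈ S, σ z p ≠ p := by
  have hne : ∀ z ∈ S, ∀ z' ∈ S, z ≠ z' → σ z ≠ σ z' := fun z hz z' hz' h e =>
    hn z hz z' hz' h (by rw [e])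
  obtain ⟨a, ha, b, hb, hab⟩ := Finset.one_lt_card.1 (show 1 < S.card by omega)
  obtain ⟨p, h1, h2⟩ := sw_meet (hn a ha b hb hab)
  refine ⟨p, fun c hc h3 => ?_, fun q hq => ?_⟩
  · have h5 : σ a p ≠ σ b p := fun e => hne a ha b hb hab (by
      rw [sw_eq (hs a ha) h1.symm h1 (by simpa using h1), e,
        ← sw_eq (hs b hb) h2.symm h2 (by simpa using h2)])
    have key : ∀ c ∈ S, σ c p = p → σ c = swap (σ a p) (σ b p) := by
      intro c hc h3
      obtain ⟨q, h6, h7⟩ := sw_meet (hn a ha c hc fun e => h1 (e ▸ h3))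
      obtain ⟨r, h8, h9⟩ := sw_meet (hn b hb c hc fun e => h2 (e ▸ h3))
      rw [← sw_two (hs a ha) (fun e : q = p => h7 (by rw [e, h3])) h1 h6,
        ← sw_two (hs b hb) (fun e : r = p => h9 (by rw [e, h3])) h2 h8] at h5 ⊢
      exact sw_eq (hs c hc) h5 h7 h9
    obtain ⟨d, hd, hd'⟩ : ∃ d ∈ S, d ∉ ({a, b, c} : Finset J) := by
      by_contra hn
      push Not at hn
      have := (Finset.card_le_card hn).trans Finset.card_le_three
      omega
    simp only [Finset.mem_insert, Finset.mem_singleton, not_or] at hd'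
    by_cases h6 : σ d p = p
    · exact hne d hd c hc hd'.2.2 ((key d hd h6).trans (key c hc h3).symm)
    obtain ⟨q, h7, h8⟩ := sw_meet (hn d hd c hc hd'.2.2)
    have h9 : p ≠ q := fun e => h8 (e ▸ h3)
    have h10 := sw_eq (hs d hd) h9 h6 h7
    rw [key c hc h3] at h8
    by_cases e1 : q = σ a p
    · exact hne d hd a ha hd'.1
        (h10.trans (sw_eq (hs a ha) h9 h1 (by simpa [e1] using h1)).symm)
    by_cases e2 : q = σ b p
    · exact hne d hd b hb hd'.2.1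
        (h10.trans (sw_eq (hs b hb) h9 h2 (by simpa [e2] using h2)).symm)
    exact h8 (swap_apply_of_ne_of_ne e1 e2)
  · by_contra h
    exact hne a ha b hb hab
      ((sw_eq (hs a ha) h (hq a ha) h1).trans (sw_eq (hs b hb) h (hq b hb) h2).symm)

/-- every coset of the alternating group contains a derangement -/
lemma sw_der [Fintype α] (hc : 4 ≤ Fintype.card α) (a : Perm α) :
    ∃ τ : Perm α, Perm.sign τ = 1 ∧ ∀ x, (a * τ) x ≠ x := by
  obtain ⟨n, hn⟩ : ∃ n, Fintype.card α = n + 2 := ⟨Fintype.card α - 2, by omega⟩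
  obtain ⟨c, h1⟩ : ∃ c : Perm α, ∀ x, c x ≠ x := by
    let e := Fintype.equivFinOfCardEq hn
    refine ⟨e.symm.permCongr (Equiv.addRight 1), fun x hx => ?_⟩
    simp [permCongr_apply, symm_apply_eq] at hx
  by_cases h2 : Perm.sign a = Perm.sign c
  · exact ⟨a⁻¹ * c, by rw [map_mul, map_inv, h2, inv_mul_cancel], by simpa using h1⟩
  obtain ⟨x⟩ := Fintype.card_pos_iff.1 (show 0 < Fintype.card α by omega)
  obtain ⟨y, hy⟩ : ∃ y, y ∉ ({x, c x, c⁻¹ x} : Finset α) := by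
    by_contra hn
    push Not at hn
    have h1 : (Finset.univ : Finset α) ⊆ {x, c x, c⁻¹ x} := fun z _ => hn z
    have h2 := (Finset.card_le_card h1).trans Finset.card_le_three
    rw [Finset.card_univ] at h2
    omega
  simp only [Finset.mem_insert, Finset.mem_singleton, not_or] at hy
  refine ⟨a⁻¹ * (c * swap x y), ?_, fun z => ?_⟩
  · rw [map_mul, map_mul, map_inv, Perm.sign_swap (Ne.symm hy.1), mul_neg, mul_one,
      ← Int.units_ne_iff_eq_neg.1 h2, inv_mul_cancel]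
  · rw [mul_inv_cancel_left, Perm.mul_apply]
    by_cases e1 : z = x
    · rw [e1, swap_apply_left]
      exact fun e => hy.2.2 (by rw [← e]; simp)
    by_cases e2 : z = y
    · rw [e2, swap_apply_right]
      exact Ne.symm hy.2.1
    · rw [swap_apply_of_ne_of_ne e1 e2]
      exact h1 z

end Pm

variable {G X V : Type} [Group G] [MulAction G X] {π : X → V} {N : Subgroup G}
  [Fintype X] [DecidableEq X] [DecidableEq V]

/-- a conjugate of `w` acts on a fibre trivially or as a transposition -/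
lemma Tw.le_two (T : Tw π N) {w : G}
    (h2 : ∀ x y z : X, π x = π y → π x = π z → w • x ≠ x → w • y ≠ y → w • z ≠ z →
      x = y ∨ x = z ∨ y = z) {b : V} {t : G} {σ : Perm {z // π z = b}}
    (hσ : Ac π b (t * w * t⁻¹) σ) : σ = 1 ∨ σ.IsSwap := by
  refine or_iff_not_imp_left.2 fun h => Perm.card_support_eq_two.1
    (le_antisymm ?_ (Perm.two_le_card_support_of_ne_one h))
  by_contra hn
  obtain ⟨a, ha, b, hb, c, hc, h3, h4, h5⟩ := Finset.two_lt_card.1 (not_le.1 hn)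
  have key : ∀ a ∈ σ.support, w • t⁻¹ • (a : X) ≠ t⁻¹ • (a : X) := fun a ha =>
    conj_move fun e => Perm.mem_support.1 ha (Subtype.ext ((hσ a).trans e))
  rcases h2 _ _ _ (T.heq t⁻¹ _ _ (a.2.trans b.2.symm)) (T.heq t⁻¹ _ _ (a.2.trans c.2.symm))
    (key a ha) (key b hb) (key c hc) with h | h | h <;> rw [smul_left_cancel_iff] at h
  exacts [h3 (Subtype.ext h), h4 (Subtype.ext h), h5 (Subtype.ext h)]

/-- fixed points pass between coupled fibres -/
lemma Tw.pass (T : Tw π N) (hc : ∀ x, 5 ≤ Fintype.card {z // π z = π x})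
    (hS : ∀ x τ, τ ∈ Img π (π x) N) {w : G} (hw : w ∈ N) {x1 : X} (h1 : w • x1 ≠ x1)
    (h2 : ∀ x y z : X, π x = π y → π x = π z → w • x ≠ x → w • y ≠ y → w • z ≠ z →
      x = y ∨ x = z ∨ y = z) {x y : X} (hy : ∀ n ∈ N, Ac π (π y) n 1 → Ac π (π x) n 1)
    {g : G} {a : Perm {z // π z = π x}} (ha : Ac π (π x) g a) (hg : g • y = y) : ∃ p, a p = p := by
  have hx := T.symm hc hS hy
  obtain ⟨ρ, hρ⟩ := ac_ex T.heq (g := g) rfl (congrArg π hg)
  obtain ⟨t, τ0, h3, c, d, hcd, rfl⟩ := T.swap hw h1 h2 y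
  have hu := T.nor.conj_mem w hw t
  obtain ⟨σ0, h4⟩ := T.ex hu x
  obtain ⟨c', d', hcd', rfl⟩ := (T.le_two h2 h4).resolve_left fun e =>
    hcd (swap_eq_one_iff.1 (h3.uniq (hx _ hu (e ▸ h4))))
  let y0 : {z // π z = π y} := ⟨y, rfl⟩
  have h5 : ∀ z, ∃ n ∈ N, ∃ σ, Ac π (π x) n σ ∧
      (z ≠ y0 → Ac π (π y) n (Equiv.swap y0 z) ∧ σ.IsSwap) := by
    intro z
    by_cases hz : z = y0
    · exact ⟨1, N.one_mem, 1, Ac.one, fun h => absurd hz h⟩
    obtain ⟨u, h6⟩ := isConj_iff.1 (Perm.isConj_swap hcd (Ne.symm hz))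
    obtain ⟨n, h7, h8⟩ := hS y u
    obtain ⟨ν, h9⟩ := T.ex h7 x
    exact ⟨_, T.nor.conj_mem _ hu n, _, (h9.mul h4).mul h9.inv, fun _ =>
      ⟨h6 ▸ (h8.mul h3).mul h8.inv, _, _, ν.injective.ne hcd', (swap_apply_apply _ _ _).symm⟩⟩
  choose n h6 σ h7 h8 using h5
  have hm : ∀ {z}, z ∈ Finset.univ.erase y0 ↔ z ≠ y0 := by simp
  obtain ⟨p, h9, h10⟩ := sw_star (Finset.univ.erase y0)
    (by have := hc y; rw [Finset.card_erase_of_mem (Finset.mem_univ _), Finset.card_univ]; omega)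
    σ (fun z hz => (h8 z (hm.1 hz)).2) fun z hz z' hz' hzz e => by
      have e1 := (h8 z (hm.1 hz)).1
      have e2 := (h8 z' (hm.1 hz')).1
      have e3 := ((e1.mul e2).mul (e2.mul e1).inv).uniq (hx _
        (N.mul_mem (N.mul_mem (h6 z) (h6 z')) (N.inv_mem (N.mul_mem (h6 z') (h6 z)))) (by
          have := ((h7 z).mul (h7 z')).mul ((h7 z').mul (h7 z)).inv
          rwa [e, mul_inv_cancel] at this))
      rw [mul_inv_eq_one] at e3
      have e4 := DFunLike.congr_fun e3 y0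
      rw [Perm.mul_apply, Perm.mul_apply, swap_apply_left, swap_apply_left,
        swap_apply_of_ne_of_ne (hm.1 hz') (Ne.symm hzz),
        swap_apply_of_ne_of_ne (hm.1 hz) hzz] at e4
      exact hzz e4.symm
  have h11 : ρ y0 = y0 := Subtype.ext ((hρ y0).trans hg)
  refine ⟨p, h10 _ fun z' hz' => ?_⟩
  obtain ⟨z, rfl⟩ := ρ.surjective z'
  have hz : z ≠ y0 := fun e => hm.1 hz' (e ▸ h11)
  have e1 := (((ha.mul (h7 z)).mul ha.inv).mul (h7 (ρ z)).inv).uniq (hy _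
    (N.mul_mem (T.nor.conj_mem _ (h6 z) g) (N.inv_mem (h6 (ρ z)))) (by
      have := ((hρ.mul (h8 z hz).1).mul hρ.inv).mul (h8 _ (hm.1 hz')).1.inv
      rwa [← swap_apply_apply, h11, mul_inv_cancel] at this))
  rw [mul_inv_eq_one] at e1
  rw [← e1]
  simpa using h9 z (hm.2 hz)

lemma Tw.der (T : Tw π N) (hc : ∀ x, 5 ≤ Fintype.card {z // π z = π x})
    (hS : ∀ x τ, τ ∈ Img π (π x) N) {w : G} (hw : w ∈ N) {x1 : X} (h1 : w • x1 ≠ x1)
    (h2 : ∀ x y z : X, π x = π y → π x = π z → w • x ≠ x → w • y ≠ y → w • z ≠ z →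
      x = y ∨ x = z ∨ y = z) (s : G) : ∃ h ∈ N, ∀ x : X, (s * h) • x ≠ x := by
  obtain ⟨h, h3, -, h4⟩ := grp_greedy (X := X) N (fun _ => True) (fun g x => g • x = x)
    (fun g _ x hx => by
    obtain ⟨a, ha⟩ := ac_ex T.heq (g := g) rfl (congrArg π hx)
    obtain ⟨τ, h5, h6⟩ := sw_der ((by omega : 4 ≤ 5).trans (hc x)) a
    obtain ⟨m, h7, h8⟩ := T.alt (hc x) (hS x)
      (Set.toFinite {y | ¬ ∀ n ∈ N, Ac π (π y) n 1 → Ac π (π x) n 1}) (fun _ h => h) h5
    have key : ∀ y, (∀ n ∈ N, Ac π (π y) n 1 → Ac π (π x) n 1) → (g * m) • y ≠ y := fun y hy e =>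
      (T.pass hc hS hw h1 h2 hy (ha.mul h8) e).elim h6
    refine ⟨m, h7.1, trivial, key x fun _ _ h => h, fun y e => ?_⟩
    by_cases hy : ∀ n ∈ N, Ac π (π y) n 1 → Ac π (π x) n 1
    · exact absurd e (key y hy)
    · rwa [mul_smul, ac_triv.1 (h7.2 y hy) y rfl] at e) s trivial
  exact ⟨h, h3, h4⟩

end G6

open G6

variable {Γ X V : Type} [Group Γ] [MulAction Γ X] [MulAction Γ V] [Finite X]
  [MulAction.IsPretransitive Γ X] {π : X → V} (hπ : ∀ (g : Γ) x, π (g • x) = g • π x)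
  {N : Subgroup Γ} [N.Normal] (hN : ∀ n ∈ N, ∀ x, π (n • x) = π x)

include hπ hN

theorem kg {d : ℕ} (hd : d.Coprime 6) (hc : ∀ x, Nat.card {y // π y = π x} = d) {ι : Γ}
    (hι : ι ∈ N) (h0 : ∃ x : X, ι • x ≠ x) (h1 : ∀ b, {y : X | π y = b ∧ ι • y ≠ y}.ncard ≤ 2)
    (s : Γ) : ∃ h ∈ N, ∀ x : X, (s * h) • x ≠ x := by
  classical
  have := Fintype.ofFinite X
  obtain ⟨x1, hx1⟩ := h0
  obtain ⟨M, hM⟩ : ∃ M, M = Subgroup.normalClosure {ι} := ⟨_, rfl⟩
  have hMn : M.Normal := hM ▸ inferInstance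
  have hMN : M ≤ N := hM ▸ Subgroup.normalClosure_le_normal (by simpa using hι)
  have hιM : ι ∈ M := hM ▸ Subgroup.subset_normalClosure rfl
  obtain ⟨q, hq⟩ : ∃ q : X → Set X, ∀ x y, q x = q y ↔ ∃ m ∈ M, m • y = x :=
    ⟨fun x => orbit M x, fun x y => orbit_eq_iff.trans
      ⟨fun ⟨m, h⟩ => ⟨m, m.2, h⟩, fun ⟨m, h, h'⟩ => ⟨⟨m, h⟩, h'⟩⟩⟩
  have T : G6.Tw q M := ⟨fun g x y h => by
    obtain ⟨m, h2, rfl⟩ := (hq _ _).1 h
    exact (hq _ _).2 ⟨_, hMn.conj_mem m h2 g, by rw [mul_smul, mul_smul, inv_smul_smul]⟩,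
    hMn, fun n hn x => (hq _ _).2 ⟨n, hn, rfl⟩, fun x y => exists_smul_eq Γ x y⟩
  have hqπ : ∀ {x y}, q x = q y → π x = π y := fun h => by
    obtain ⟨m, h2, rfl⟩ := (hq _ _).1 h
    exact hN m (hMN h2) _
  have h2 : ∀ x y z : X, q x = q y → q x = q z → ι • x ≠ x → ι • y ≠ y → ι • z ≠ z →
      x = y ∨ x = z ∨ y = z := fun x y z e e' hx hy hz =>
    three_of_ncard (Set.toFinite _) (h1 (π x)) ⟨rfl, hx⟩ ⟨(hqπ e).symm, hy⟩ ⟨(hqπ e').symm, hz⟩
  have h3 : ∀ x, Fintype.card {z // q z = q x} = Fintype.card {z // q z = q x1} := fun x => by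
    obtain ⟨g, rfl⟩ := T.tr x1 x
    exact (Fintype.card_congr (Equiv.subtypeEquiv (MulAction.toPerm g) fun z =>
      ⟨T.heq g _ _, T.back g⟩)).symm
  have h4 : Fintype.card {z // q z = q x1} ∣ d := by
    rw [← hc x1, Nat.card_eq_fintype_card, Fintype.card_subtype (fun y => π y = π x1),
      Finset.card_eq_sum_card_image q]
    refine Finset.dvd_sum fun b hb => ?_
    obtain ⟨x, hx, rfl⟩ := Finset.mem_image.1 hb
    rw [← h3 x, Fintype.card_subtype]
    refine dvd_of_eq (congrArg _ (Finset.ext fun z => ?_))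
    simp only [Finset.mem_filter, Finset.mem_univ, true_and] at hx ⊢
    exact ⟨fun h => ⟨(hqπ h).trans hx, h⟩, fun h => h.2⟩
  have h5 : ∀ x, 5 ≤ Fintype.card {z // q z = q x} := fun x => by
    have h6 : 1 < Fintype.card {z // q z = q x1} := Fintype.one_lt_card_iff.2
      ⟨⟨_, T.fix ι hιM x1⟩, ⟨x1, rfl⟩, fun e => hx1 (congrArg Subtype.val e)⟩
    have h7 := Nat.Coprime.coprime_dvd_left h4 hd
    rw [h3]
    generalize Fintype.card {z // q z = q x1} = e at h6 h7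
    by_contra hn
    have h8 : e < 5 := not_le.1 hn
    interval_cases e <;> exact absurd h7 (by decide)
  have hS : ∀ x τ, τ ∈ Img q (q x) M := fun x τ => by
    let S : Set (Perm {z // q z = q x}) := {σ | σ.IsSwap ∧ σ ∈ Img q (q x) M}
    have h6 : ∀ m ∈ M, ∃ σ ∈ Subgroup.closure S, Ac q (q x) m σ := fun m hm => by
      rw [hM] at hm
      induction hm using Subgroup.closure_induction with
      | mem u hu =>
        obtain ⟨v, hv, hu'⟩ := Group.mem_conjugatesOfSet_iff.1 hu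
        obtain ⟨t, rfl⟩ := isConj_iff.1 ((show v = ι from hv) ▸ hu')
        obtain ⟨σ, hσ⟩ := T.ex (hMn.conj_mem _ hιM t) x
        rcases T.le_two h2 hσ with rfl | h
        · exact ⟨1, one_mem _, hσ⟩
        · exact ⟨σ, Subgroup.subset_closure ⟨h, _, hMn.conj_mem _ hιM t, hσ⟩, hσ⟩
      | one => exact ⟨1, one_mem _, Ac.one⟩
      | mul u v _ _ hu hv =>
        obtain ⟨σ, a1, a2⟩ := hu
        obtain ⟨τ, b1, b2⟩ := hv
        exact ⟨_, mul_mem a1 b1, a2.mul b2⟩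
      | inv u _ hu =>
        obtain ⟨σ, a1, a2⟩ := hu
        exact ⟨_, inv_mem a1, a2.inv⟩
    have : IsPretransitive (Subgroup.closure S) {z // q z = q x} := ⟨fun a b => by
      obtain ⟨m, h7, h8⟩ := (hq _ _).1 (b.2.trans a.2.symm)
      obtain ⟨σ, h9, h10⟩ := h6 m h7
      exact ⟨⟨σ, h9⟩, Subtype.ext ((h10 a).trans h8)⟩⟩
    refine (Subgroup.closure_le _).2 (fun σ (h : σ ∈ S) => h.2) ?_
    rw [closure_of_isSwap_of_isPretransitive fun σ (h : σ ∈ S) => h.1]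
    trivial
  obtain ⟨h, h6, h7⟩ := T.der h5 hS hιM hx1 h2 s
  exact ⟨h, hMN h6, h7⟩

end Pool.Agent.P.MP_68214b_ag.DP
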