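import Pool.Agent.P.MP_68214b_ag.DP1

/-! Local analysis at a place where a critical point has prime exact period. -/

open Polynomial

namespace Pool.Agent.P.MP_68214b_ag.DP

/-- the local data -/
structure Loc {E : Type} [Field E] (A : ValuationSubring E) (g : E[X]) (γ : E) (l : ℕ) :
    Prop where
  ip : IP A g
  mon : g.Monic
  deg : 2 ≤ g.natDegree
  vd : A.valuation (g.natDegree : E) = 1
  crit : Crit g γ
  int : ∀ δ, Crit g δ → A.valuation δ ≤ 1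
  sep : ∀ δ ε, Crit g δ → Crit g ε → Cg A δ ε → δ = ε
  val : ∀ δ ε, Crit g δ → Crit g ε → Cg A (g.eval δ) (g.eval ε) → g.eval δ = g.eval ε
  sec : ∀ δ, Crit g δ → A.valuation (g.derivative.derivative.eval δ) < 1 →
    g.derivative.derivative.eval δ = 0
  pre : ∀ δ n, Crit g δ → Cg A (it g n δ) γ → Wand g δ
  pr : l.Prime
  per : Cg A (it g l γ) γ
  nfix : ¬ Cg A (g.eval γ) γ

/-- a point of level n with a congruent sibling -/
def Tw {E : Type} [Field E] (A : ValuationSubring E) (g : E[X]) (γ : E) (n : ℕ) (x : E) : Prop :=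
  it g n x = γ ∧ ∃ y, y ≠ x ∧ g.eval y = g.eval x ∧ Cg A y x

variable {E : Type} [Field E] [CharZero E] [IsAlgClosed E] [Algebra.IsAlgebraic ℚ E]
  {A : ValuationSubring E} {g : E[X]} {γ : E} {l n : ℕ}

theorem exists_loc (hm : g.Monic) (hd : 2 ≤ g.natDegree) (hc : Crit g γ) (hw : Wand g γ) :
    ∃ B, ∀ A, Big B A → ∀ l, l.Prime → Cg A (it g l γ) γ → Loc A g γ l := by
  have fc := fin_crit (g := g) hd
  have f1 : (Set.range g.coeff).Finite := by
    refine ((g.support.finite_toSet.image g.coeff).insert 0).subset ?_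
    rintro _ ⟨k, rfl⟩
    by_cases e : g.coeff k = 0
    · exact Or.inl e
    · exact Or.inr ⟨k, mem_support_iff.2 e, rfl⟩
  have f2 := fc.image2 (fun a b : E => a - b) fc
  have f3 := fc.image2 (fun a b : E => g.eval a - g.eval b) fc
  have f4 := fc.image fun a : E => g.derivative.derivative.eval a
  have f5 : (⋃ δ ∈ {δ | Crit g δ ∧ ¬ Wand g δ},
      (fun z => z - γ) '' Set.range fun n => it g n δ).Finite :=
    (fc.subset fun δ hδ => hδ.1).biUnion fun δ hδ => (Set.not_infinite.1 hδ.2).image _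
  obtain ⟨B1, h1⟩ := unit_big f1
  obtain ⟨B2, h2⟩ := unit_big f2
  obtain ⟨B3, h3⟩ := unit_big f3
  obtain ⟨B4, h4⟩ := unit_big f4
  obtain ⟨B5, h5⟩ := unit_big f5
  obtain ⟨B6, h6⟩ := unit_big fc
  obtain ⟨B7, h7⟩ := unit_big (Set.toFinite ({(g.natDegree : E), g.eval γ - γ} : Set E))
  refine ⟨B1 + B2 + B3 + B4 + B5 + B6 + B7, fun A hA l hl hp => ?_⟩
  replace h1 := h1 A (hA.mono (by omega))
  replace h2 := h2 A (hA.mono (by omega))
  replace h3 := h3 A (hA.mono (by omega))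
  replace h4 := h4 A (hA.mono (by omega))
  replace h5 := h5 A (hA.mono (by omega))
  replace h6 := h6 A (hA.mono (by omega))
  replace h7 := h7 A (hA.mono (by omega))
  have k1 : ∀ z : E, (z ≠ 0 → A.valuation z = 1) → A.valuation z ≤ 1 := fun z hz => by
    by_cases e : z = 0
    · simp [e]
    · exact (hz e).le
  have k2 : ∀ z : E, (z ≠ 0 → A.valuation z = 1) → A.valuation z < 1 → z = 0 :=
    fun z hz h => by_contra fun e => h.ne (hz e)
  refine ⟨fun k => k1 _ (h1 _ ⟨k, rfl⟩), hm, hd, h7 _ (Or.inl rfl) (Nat.cast_ne_zero.2 (by omega)),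
    hc, fun δ hδ => k1 _ (h6 δ hδ),
    fun δ ε hδ hε e => sub_eq_zero.1 (k2 _ (h2 _ ⟨δ, hδ, ε, hε, rfl⟩) e),
    fun δ ε hδ hε e => sub_eq_zero.1 (k2 _ (h3 _ ⟨δ, hδ, ε, hε, rfl⟩) e),
    fun δ hδ e => k2 _ (h4 _ ⟨δ, hδ, rfl⟩) e, fun δ n hδ e => ?_, hl, hp, fun e => ?_⟩
  · by_contra hn
    have e1 : it g n δ = γ := sub_eq_zero.1 (k2 _ (h5 _
      (Set.mem_biUnion (show δ ∈ {δ | Crit g δ ∧ ¬ Wand g δ} from ⟨hδ, hn⟩)
        ⟨_, ⟨n, rfl⟩, rfl⟩)) e)
    refine hn (hw.mono ?_)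
    rintro _ ⟨k, rfl⟩
    exact ⟨k + n, by simp only [it_add, e1]⟩
  · exact hw.not_per ⟨1, one_pos, sub_eq_zero.1 (k2 _ (h7 _ (Or.inr rfl)) e)⟩

theorem dp7a_near (h : Loc A g γ l) {x y : E} (hx : A.valuation x ≤ 1) (hn : y ≠ x)
    (e : g.eval y = g.eval x) (hc : Cg A y x) : ∃ δ, Crit g δ ∧ Cg A x δ :=
  near_crit h.ip h.mon h.vd hx (crit_of_two h.ip hx hc hn e)

theorem dp7a_tw (h : Loc A g γ l) {x : E} (hx : Tw A g γ n x) :
    ∃ δ, Crit g δ ∧ Cg A x δ ∧ Cg A (it g n δ) γ := by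
  obtain ⟨e, y, hn, e1, hc⟩ := hx
  obtain ⟨δ, h1, h2⟩ := dp7a_near h
    (h.ip.pre h.mon h.deg (by rw [e]; exact h.int γ h.crit)) hn e1 hc
  exact ⟨δ, h1, h2, by simpa only [e] using (h2.it h.ip (h.int δ h1) n).symm⟩

theorem dp7a_three (h : Loc A g γ l) {δ x y z : E} (hδ : Crit g δ) (ht : TyC g δ)
    (hx : Cg A x δ) (hy : Cg A y δ) (hz : Cg A z δ) (n1 : x ≠ y) (n2 : x ≠ z) (n3 : y ≠ z)
    (e1 : g.eval y = g.eval x) (e2 : g.eval z = g.eval x) : False := by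
  have i := h.int δ hδ
  have a := crit_of_three h.ip (hx.int i) (hy.trans hx.symm) (hz.trans hx.symm) n1 n2 n3 e1 e2
  exact ht.1 (h.sec δ hδ ((hx.eval h.ip.deriv.deriv i).symm.lt a))

theorem dp7a_per (h : Loc A g γ l) {j : ℕ} (h0 : 0 < j) (hj : j < l) : ¬ Cg A (it g j γ) γ :=
  exact_per h.ip (h.int γ h.crit) h.pr h.per h.nfix h0 hj

theorem dp7a_merge (h : Loc A g γ l) {δ x y : E} (i : A.valuation δ ≤ 1) (hx : Cg A x δ)
    (hy : Cg A y δ) (h0 : 0 < n) (e : it g n x = it g n y) (hn : g.eval x ≠ g.eval y) :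
    ∃ s, 0 < s ∧ s < n ∧ it g s x ≠ it g s y ∧ g.eval (it g s x) = g.eval (it g s y) ∧
      ∃ ε, Crit g ε ∧ Cg A (it g s δ) ε := by
  obtain ⟨k, rfl⟩ := Nat.exists_eq_add_of_le' h0
  obtain ⟨s, hs, h1, h2⟩ := merge (g := g) (n := k) hn e
  rw [it_succ', it_succ'] at h2
  have a1 := hx.it h.ip i (s + 1)
  have a2 := hy.it h.ip i (s + 1)
  obtain ⟨ε, h3, h4⟩ := dp7a_near h (a2.int (h.ip.it i _)) h1 h2 (a1.trans a2.symm)
  exact ⟨s + 1, by omega, by omega, h1, h2, ε, h3, a2.symm.trans h4⟩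

theorem loc_two (h : Loc A g γ l) (hC : ∀ δ, Crit g δ → Wand g δ → TyC g δ) (b : E) :
    {x | g.eval x = b ∧ Tw A g γ n x}.ncard ≤ 2 := by
  by_contra! H
  obtain ⟨x, ⟨ex, hx⟩, y, ⟨ey, hy⟩, z, ⟨ez, hz⟩, n1, n2, n3⟩ :=
    (Set.two_lt_ncard ((fin_pre h.mon h.deg 1 b).subset fun x hx => hx.1)).1 H
  obtain ⟨δ, c1, c2, c3⟩ := dp7a_tw h hx
  have ht := hC δ c1 (h.pre δ n c1 c3)
  have k : ∀ u, g.eval u = b → Tw A g γ n u → Cg A u δ := fun u eu hu => by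
    obtain ⟨ε, d1, d2, -⟩ := dp7a_tw h hu
    have a1 := d2.eval h.ip (h.int ε d1)
    have a2 := c2.eval h.ip (h.int δ c1)
    rw [eu] at a1
    rw [ex] at a2
    rwa [ht.2 ε d1 (h.val ε δ d1 c1 (a1.symm.trans a2))] at d2
  exact dp7a_three h c1 ht c2 (k y ey hy) (k z ez hz) n1 n2 n3 (ey.trans ex.symm)
    (ez.trans ex.symm)

theorem dp7a_pow {b c δ : E} {d : ℕ} (hd : 2 ≤ d) (e : g = (X - C b) ^ d + C c) (hδ : Crit g δ) :
    δ = b := by
  rw [Crit, e] at hδ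
  simp only [derivative_add, derivative_C, add_zero, derivative_X_sub_C_pow, eval_mul, eval_C,
    eval_pow, eval_sub, eval_X, mul_eq_zero, Nat.cast_eq_zero] at hδ
  exact sub_eq_zero.1 (pow_eq_zero_iff (by omega) |>.1 (hδ.resolve_left (by omega)))

theorem loc_W (h : Loc A g γ l) (k : ∀ δ, Crit g δ → Wand g δ → δ = γ) (h0 : 0 < n) (hn : n ≤ l)
    {x y : E} (hx : Tw A g γ n x) (hy : Tw A g γ n y) : g.eval x = g.eval y := by
  obtain ⟨δ, c1, c2, c3⟩ := dp7a_tw h hx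
  obtain ⟨ε, d1, d2, d3⟩ := dp7a_tw h hy
  rw [k δ c1 (h.pre δ n c1 c3)] at c2
  rw [k ε d1 (h.pre ε n d1 d3)] at d2
  by_contra H
  obtain ⟨s, s0, s1, -, -, η, e1, e2⟩ :=
    dp7a_merge h (h.int γ h.crit) c2 d2 h0 (hx.1.trans hy.1.symm) H
  have a := e2.it h.ip (h.int η e1) (l - s)
  rw [← it_add, Nat.sub_add_cancel (by omega : s ≤ l)] at a
  rw [k η e1 (h.pre η _ e1 (a.symm.trans h.per))] at e2
  exact dp7a_per h s0 (by omega) e2

theorem loc_U (h : Loc A g γ l) (hU : TyU g) (h0 : 0 < n) (hn : n ≤ l) {x y : E}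
    (hx : Tw A g γ n x) (hy : Tw A g γ n y) : g.eval x = g.eval y := by
  obtain ⟨b, c, e⟩ := hU
  exact loc_W h (fun δ hδ _ => (dp7a_pow h.deg e hδ).trans (dp7a_pow h.deg e h.crit).symm)
    h0 hn hx hy

theorem dp7a_two_crit (h3 : g.natDegree = 3) {a b c : E} (ha : Crit g a) (hb : Crit g b)
    (hc : Crit g c) (n1 : a ≠ c) (n2 : b ≠ c) : a = b := by
  classical
  by_contra n3
  have h0 : g.derivative ≠ 0 := fun e => by have := derivative_eq_zero.1 e; omega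
  have h1 : ({a, b, c} : Finset E).val ⊆ g.derivative.roots := by
    intro x hx
    simp only [Finset.mem_val, Finset.mem_insert, Finset.mem_singleton] at hx
    rw [mem_roots h0]
    rcases hx with rfl | rfl | rfl <;> assumption
  have h2 := card_le_degree_of_subset_roots h1
  have h4 := natDegree_derivative_le g
  rw [Finset.card_eq_three.2 ⟨a, b, c, n3, n1, n2, rfl⟩] at h2
  omega

theorem loc_three (h : Loc A g γ l) (hC : ∀ δ, Crit g δ → Wand g δ → TyC g δ)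
    (h3 : g.natDegree = 3) (h0 : 0 < n) (hn : n ≤ l) :
    ((fun x => g.eval x) '' {x | Tw A g γ n x}).ncard ≤ 2 := by
  have iγ := h.int γ h.crit
  have ty : ∀ x, Tw A g γ n x → (Cg A x γ ∧ n = l) ∨
      ∃ δ, Crit g δ ∧ δ ≠ γ ∧ Cg A x δ ∧ Cg A (it g n δ) γ := fun x hx => by
    obtain ⟨δ, c1, c2, c3⟩ := dp7a_tw h hx
    by_cases e : δ = γ
    · rw [e] at c2 c3
      exact Or.inl ⟨c2, by_contra fun H => dp7a_per h h0 (by omega) c3⟩
    · exact Or.inr ⟨δ, c1, e, c2, c3⟩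
  have L22 : ∀ x y, Tw A g γ n x → Tw A g γ n y →
      (∃ δ, Crit g δ ∧ δ ≠ γ ∧ Cg A x δ ∧ Cg A (it g n δ) γ) →
      (∃ δ, Crit g δ ∧ δ ≠ γ ∧ Cg A y δ ∧ Cg A (it g n δ) γ) → g.eval x = g.eval y := by
    rintro x y hx hy ⟨δ, c1, c2, c3, c4⟩ ⟨δ', d1, d2, d3, -⟩
    rw [dp7a_two_crit h3 d1 c1 h.crit d2 c2] at d3
    by_contra H
    have i := h.int δ c1
    obtain ⟨s, s0, s1, -, -, η, e1, e2⟩ := dp7a_merge h i c3 d3 h0 (hx.1.trans hy.1.symm) H
    by_cases e : η = γ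
    · rw [e] at e2
      have a := e2.it h.ip iγ (n - s)
      rw [← it_add, Nat.sub_add_cancel s1.le] at a
      exact dp7a_per h (by omega) (by omega) (a.symm.trans c4)
    · rw [dp7a_two_crit h3 e1 c1 h.crit e c2] at e2
      have a := e2.it h.ip i n
      rw [← it_add, add_comm, it_add] at a
      exact dp7a_per h s0 (by omega) ((c4.it h.ip iγ s).symm.trans (a.trans c4))
  have L11 : ∀ x y, Tw A g γ n x → Tw A g γ n y → Cg A x γ → Cg A y γ → g.eval x ≠ g.eval y →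
      ∃ s, 0 < s ∧ s < n ∧ it g s x ≠ it g s y ∧ g.eval (it g s x) = g.eval (it g s y) ∧
        ∃ ε, Crit g ε ∧ ε ≠ γ ∧ Cg A (it g s γ) ε := by
    intro x y hx hy c d H
    obtain ⟨s, s0, s1, e3, e4, η, e1, e2⟩ := dp7a_merge h iγ c d h0 (hx.1.trans hy.1.symm) H
    exact ⟨s, s0, s1, e3, e4, η, e1, fun e => dp7a_per h s0 (by omega) (e ▸ e2), e2⟩
  have L112 : ∀ x y z, Tw A g γ n x → Tw A g γ n y → Cg A x γ ∧ n = l → Cg A y γ ∧ n = l →
      g.eval x ≠ g.eval y → ¬ ∃ δ, Crit g δ ∧ δ ≠ γ ∧ Cg A z δ ∧ Cg A (it g n δ) γ := by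
    rintro x y z hx hy ⟨c, e⟩ ⟨d, -⟩ H ⟨δ, c1, c2, -, c4⟩
    obtain ⟨s, -, -, -, -, η, e1, e2, e3⟩ := L11 x y hx hy c d H
    rw [dp7a_two_crit h3 e1 c1 h.crit e2 c2] at e3
    have a := e3.it h.ip (h.int δ c1) l
    rw [← it_add, add_comm, it_add] at a
    rw [e] at c4
    exact c2 (h.sep δ γ c1 h.crit
      (e3.symm.trans ((h.per.it h.ip iγ s).symm.trans (a.trans c4))))
  have U : ∀ s t ε η, 0 < s → s < t → t < n → Crit g ε → Crit g η → ε ≠ γ → η ≠ γ →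
      Cg A (it g s γ) ε → Cg A (it g t γ) η → False := by
    intro s t ε η s0 st tn c1 c2 n1 n2 d1 d2
    rw [dp7a_two_crit h3 c2 c1 h.crit n2 n1] at d2
    have a := (d1.trans d2.symm).it h.ip (h.ip.it iγ t) (l - t)
    rw [← it_add, ← it_add, Nat.sub_add_cancel (by omega : t ≤ l)] at a
    exact dp7a_per h (by omega) (by omega) (a.trans h.per)
  by_contra! H
  obtain ⟨_, ⟨x, hx, rfl⟩, _, ⟨y, hy, rfl⟩, _, ⟨z, hz, rfl⟩, n1, n2, n3⟩ :=
    (Set.two_lt_ncard (((fin_pre h.mon h.deg n γ).subset fun x hx => hx.1).image _)).1 H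
  rcases ty x hx with tx | tx <;> rcases ty y hy with ty' | ty' <;> rcases ty z hz with tz | tz
  · obtain ⟨s, s0, s1, a1, a2, ε, a3, a4, a5⟩ := L11 x y hx hy tx.1 ty'.1 n1
    obtain ⟨t, t0, t1, b1, b2, ε', b3, b4, b5⟩ := L11 x z hx hz tx.1 tz.1 n2
    obtain ⟨u, u0, u1, c1, -, ε'', c3, c4, c5⟩ := L11 y z hy hz ty'.1 tz.1 n3
    obtain rfl : s = t := le_antisymm
      (not_lt.1 fun q => U t s _ _ t0 q s1 b3 a3 b4 a4 b5 a5)
      (not_lt.1 fun q => U s t _ _ s0 q t1 a3 b3 a4 b4 a5 b5)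
    obtain rfl : s = u := le_antisymm
      (not_lt.1 fun q => U u s _ _ u0 q s1 c3 a3 c4 a4 c5 a5)
      (not_lt.1 fun q => U s u _ _ s0 q u1 a3 c3 a4 c4 a5 c5)
    have a := a5.it h.ip (h.int ε a3) (l - s)
    rw [← it_add, Nat.sub_add_cancel (by omega : s ≤ l)] at a
    exact dp7a_three h a3 (hC ε a3 (h.pre ε _ a3 (a.symm.trans h.per)))
      ((tx.1.it h.ip iγ s).trans a5) ((ty'.1.it h.ip iγ s).trans a5)
      ((tz.1.it h.ip iγ s).trans a5) a1 b1 c1 a2.symm b2.symm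
  · exact L112 x y z hx hy tx ty' n1 tz
  · exact L112 x z y hx hz tx tz n2 ty'
  · exact n3 (L22 y z hy hz ty' tz)
  · exact L112 y z x hy hz ty' tz n3 tx
  · exact n2 (L22 x z hx hz tx tz)
  · exact n1 (L22 x y hx hy tx ty')
  · exact n1 (L22 x y hx hy tx ty')

theorem fib_two (hm : g.Monic) (hd : 2 ≤ g.natDegree) (hc : Crit g γ) (hw : Wand g γ)
    {x : E} (hx : it g (n + 1) x = γ) :
    ∃ y, y ≠ x ∧ g.eval y = g.eval x := by
  by_contra! H
  have m := monic_sub_C hm (by omega) (g.eval x)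
  have r : (g - C (g.eval x)).roots = Multiset.replicate g.natDegree x := by
    refine Multiset.eq_replicate.2 ⟨by rw [IsAlgClosed.card_roots_eq_natDegree, natDegree_sub_C],
      fun y hy => by_contra fun e => H y e ?_⟩
    simpa [sub_eq_zero] using (mem_roots m.ne_zero).1 hy
  have e := (IsAlgClosed.splits _).eq_prod_roots_of_monic m
  rw [r, Multiset.map_replicate, Multiset.prod_replicate, sub_eq_iff_eq_add] at e
  rw [← dp7a_pow hd e hc] at hx
  exact hw.not_per ⟨n + 1, by omega, hx⟩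

theorem fib_card (hm : g.Monic) (hd : 2 ≤ g.natDegree) {b : E}
    (hb : ∀ x, g.eval x = b → ¬ Crit g x) : {x | g.eval x = b}.ncard = g.natDegree := by
  classical
  have m := monic_sub_C hm (by omega) b
  have e : {x | g.eval x = b} = ↑(g - C b).roots.toFinset := by
    ext x
    simp [m.ne_zero, sub_eq_zero]
  have nd : (g - C b).roots.Nodup := by
    refine Multiset.nodup_iff_count_le_one.2 fun x => ?_
    rw [count_roots]
    by_contra! H
    have k := (one_lt_rootMultiplicity_iff_isRoot m.ne_zero).1 H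
    exact hb x (by simpa [sub_eq_zero] using k.1) (by simpa [Crit] using k.2)
  rw [e, Set.ncard_coe_finset, Multiset.toFinset_card_of_nodup nd,
    IsAlgClosed.card_roots_eq_natDegree, natDegree_sub_C]

end Pool.Agent.P.MP_68214b_ag.DP
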