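import Pool.Agent.P.MP_68214b_ag.DP2
import Pool.Agent.P.MP_68214b_ag.DP4b

/-! An inertial element that moves a point of the tree. -/

open Polynomial

namespace Pool.Agent.P.MP_68214b_ag.DP

variable {E : Type} [Field E] [CharZero E] [IsAlgClosed E] [Algebra.IsAlgebraic ℚ E]

omit [IsAlgClosed E] [Algebra.IsAlgebraic ℚ E] in
theorem dp7b_mem (K : IntermediateField ℚ E) {g : E[X]} (hK : ∀ k, g.coeff k ∈ K) {γ : E}
    (hγ : γ ∈ K) (m : ℕ) : it g m γ ∈ K := by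
  induction m with
  | zero => exact hγ
  | succ m ih =>
    rw [it_succ', eval_eq_sum_range]
    exact sum_mem fun k _ => mul_mem (hK k) (pow_mem ih k)

theorem dp7b_big {Z : Set E} (hZ : Z.Finite) (g h : E[X]) : ∃ B, ∀ A, Big B A →
    IP A g ∧ IP A h ∧ (∀ z ∈ Z, A.valuation z ≤ 1) ∧ ∀ z ∈ Z, z ≠ 0 → A.valuation z = 1 := by
  obtain ⟨B, hB⟩ := unit_big ((hZ.union g.coeffs.finite_toSet).union h.coeffs.finite_toSet)
  have k : ∀ A, Big B A → ∀ z, (z ≠ 0 → z ∈ (Z ∪ g.coeffs) ∪ h.coeffs) → A.valuation z ≤ 1 :=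
    fun A hA z hz => by
      by_cases h0 : z = 0
      · rw [h0, map_zero]; exact zero_le
      · exact (hB A hA z (hz h0) h0).le
  exact ⟨B, fun A hA => ⟨fun j => k A hA _ fun h0 => .inl (.inr (coeff_mem_coeffs h0)),
    fun j => k A hA _ fun h0 => .inr (coeff_mem_coeffs h0),
    fun z hz => k A hA z fun _ => .inl (.inl hz), fun z hz => hB A hA z (.inl (.inl hz))⟩⟩

theorem kcA (K : IntermediateField ℚ E) [FiniteDimensional ℚ K] {g : E[X]} (hm : g.Monic)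
    (hd : 2 ≤ g.natDegree) (hK : ∀ k, g.coeff k ∈ K) {γ : E} (hγ : γ ∈ K) (hc : Crit g γ)
    (hw : Wand g γ) {n : ℕ} (e : Fin 3 → E) (hi : Function.Injective e)
    (he : ∀ i, it g n (e i) = γ) (B : ℕ) :
    ∃ m A, (n + m).Prime ∧ Big B A ∧ Cg A (it g (n + m) γ) γ ∧ ∀ W : Set E, W.Finite →
      ∃ s ∈ K.fixingSubgroup, (∀ x ∈ W, A.valuation x ≤ 1 → Cg A (s x) x) ∧
        ∃ i x, it g m x = e i ∧ s x ≠ x := by
  have h0 := (monic_sub_C hm (by omega) (g.eval γ)).ne_zero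
  have hr : 2 ≤ (g - C (g.eval γ)).rootMultiplicity γ :=
    (one_lt_rootMultiplicity_iff_isRoot h0).2 ⟨by simp, by simpa [Crit] using hc⟩
  obtain ⟨h, hh, hn⟩ := exists_eq_pow_rootMultiplicity_mul_and_not_dvd _ h0 γ
  generalize (g - C (g.eval γ)).rootMultiplicity γ = r at hr hh
  rw [dvd_iff_isRoot] at hn
  obtain ⟨L, hL, -, hKL, hLe⟩ := exists_gal' K (Set.finite_range e)
  obtain ⟨B0, hB0⟩ := dp7b_big (((Set.finite_range e).insert γ).insert (h.eval γ)) g h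
  have hM : {m | 1 ≤ m ∧ (n + m).Prime}.Infinite := Set.infinite_of_forall_exists_gt fun a => by
    obtain ⟨p, h1, h2⟩ := Nat.exists_infinite_primes (n + a + 1)
    obtain ⟨c, rfl⟩ := Nat.exists_eq_add_of_le h1
    exact ⟨a + 1 + c, ⟨by omega, by rwa [← add_assoc, ← add_assoc]⟩, by omega⟩
  obtain ⟨_, ⟨m, ⟨hm1, hmp⟩, rfl⟩, hT⟩ := (hM.image hw.inj.injOn).exists_notMem_finite
    (sg L (max B B0) e (fun i => hLe _ ⟨i, rfl⟩) hi hr)
  obtain ⟨A, hA, hT⟩ : ∃ A, Big (max B B0) A ∧ ¬ (A.valuation (it g m γ) ≤ 1 ∧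
      ∀ i, ∃ z ∈ L, A.valuation (it g m γ - e i) = A.valuation z ^ r) := by
    by_contra! H
    exact hT ⟨hKL (dp7b_mem K hK hγ m), H⟩
  obtain ⟨ig, ih, i1, i2⟩ := hB0 A (hA.mono (le_max_right _ _))
  have vγ : A.valuation γ ≤ 1 := i1 γ (.inr (.inl rfl))
  have vh : A.valuation (h.eval γ) = 1 := i2 _ (.inl rfl) hn
  obtain ⟨i, hT⟩ : ∃ i, ∀ z ∈ L, A.valuation (it g m γ - e i) ≠ A.valuation z ^ r := by
    by_contra! H
    exact hT ⟨ig.it vγ m, H⟩
  have ve : A.valuation (e i) ≤ 1 := i1 _ (.inr (.inr ⟨i, rfl⟩))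
  have c1 : Cg A (it g m γ) (e i) :=
    lt_of_le_of_ne (A.valuation.map_sub_le (ig.it vγ m) ve) (by simpa using hT 1 (one_mem L))
  refine ⟨m, A, hmp, hA.mono (le_max_left _ _), ?_, fun W hW => ?_⟩
  · have := c1.it ig ve n
    rwa [← it_add, he] at this
  by_contra! H
  obtain ⟨p, -, hp⟩ := hA
  have k1 : ∀ x, it g m x = e i → ∃ z ∈ L, A.valuation (x - γ) = A.valuation z := fun x hx => by
    refine (inert L hW hp (x - γ)).resolve_right fun ⟨s, hs, h1, h2⟩ => h2 ?_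
    have h3 : s ∈ K.fixingSubgroup := (K.mem_fixingSubgroup_iff s).2 fun y hy =>
      (L.mem_fixingSubgroup_iff s).1 hs y (hKL hy)
    rw [map_sub, H s h3 h1 i x hx, (K.mem_fixingSubgroup_iff s).1 h3 γ hγ]
  obtain ⟨m, rfl⟩ := Nat.exists_eq_add_of_le' hm1
  have k2 : ∃ z ∈ L, A.valuation (it g (m + 1) γ - e i) = A.valuation z ^ r := by
    rw [it_succ, prod_gi hm hd]
    refine Multiset.prod_induction (fun y => ∃ z ∈ L, A.valuation y = A.valuation z ^ r) _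
      (fun a b ⟨z, h1, h2⟩ ⟨w, h3, h4⟩ => ⟨z * w, mul_mem h1 h3, by
        rw [map_mul, map_mul, mul_pow, h2, h4]⟩) ⟨1, one_mem L, by simp⟩ fun y hy => ?_
    obtain ⟨b, hb, rfl⟩ := Multiset.mem_map.1 hy
    rw [mem_roots_gi hm hd] at hb
    have vb : A.valuation b ≤ 1 := ig.pre hm hd (by rwa [hb])
    rcases (A.valuation.map_sub_le (ig.eval vγ) vb).lt_or_eq with h1 | h1
    · obtain ⟨x, h2, h3⟩ := near_pre (n := 1) (x := γ) ig hm hd vb h1
      obtain ⟨z, h4, h5⟩ := k1 x (by rw [it_add, h2, hb])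
      have h6 := congrArg (eval x) hh
      rw [eval_sub, eval_C, eval_mul, eval_pow, eval_sub, eval_X, eval_C, ← it_one, h2] at h6
      refine ⟨z, h4, ?_⟩
      rw [Valuation.map_sub_swap, h6, map_mul, map_pow, h5, (h3.symm.eval ih vγ).unit vh, mul_one]
    · exact ⟨1, one_mem L, by simpa using h1⟩
  obtain ⟨z, h1, h2⟩ := k2
  exact hT z h1 h2

end Pool.Agent.P.MP_68214b_ag.DP
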