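import Pool.Agent.P.MP_68214b_ag.DP2c

/-! Polynomials that reduce to a power map at a common place. -/

open Polynomial

namespace Pool.Agent.P.MP_68214b_ag.DP

/-- reduction to a tame power map whose degree is not a power of two -/
def Tame {E : Type} [Field E] (A : ValuationSubring E) (g : E[X]) : Prop :=
  g.Monic ∧ A.valuation (g.natDegree : E) = 1 ∧ (∀ k < g.natDegree, A.valuation (g.coeff k) < 1) ∧
    ∃ q, q.Prime ∧ q ≠ 2 ∧ q ∣ g.natDegree

theorem Tame.deg {E : Type} [Field E] {A : ValuationSubring E} {g : E[X]} (h : Tame A g) :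
    2 ≤ g.natDegree := by
  obtain ⟨-, h1, -, q, hq, -, h2⟩ := h
  exact hq.two_le.trans (Nat.le_of_dvd (Nat.pos_of_ne_zero fun e => by simp [e] at h1) h2)

section
variable {E : Type} [Field E] {A : ValuationSubring E} {g h : E[X]} {a x y : E}

theorem dp8a_ip (hT : Tame A g) : IP A g := fun k => by
  rcases lt_trichotomy k g.natDegree with hk | rfl | hk
  · exact (hT.2.2.1 k hk).le
  · rw [hT.1.coeff_natDegree, map_one]
  · rw [coeff_eq_zero_of_natDegree_lt hk, map_zero]; exact zero_le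

theorem dp8a_dec (hT : Tame A g) : ∃ k h, A.valuation (g.coeff k) < 1 ∧ IP A h ∧
    g = X ^ g.natDegree + C (g.coeff k) * h := by
  obtain ⟨k, hk, hm⟩ := Finset.exists_max_image (Finset.range g.natDegree)
    (fun k => A.valuation (g.coeff k)) ⟨0, Finset.mem_range.2 (by have := hT.deg; omega)⟩
  have hb : ∀ j, A.valuation ((g - X ^ g.natDegree).coeff j) ≤ A.valuation (g.coeff k) := fun j => by
    rw [coeff_sub, coeff_X_pow]
    rcases lt_trichotomy j g.natDegree with hj | rfl | hj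
    · rw [if_neg hj.ne, sub_zero]; exact hm j (Finset.mem_range.2 hj)
    · simp [hT.1.coeff_natDegree]
    · simp [coeff_eq_zero_of_natDegree_lt hj, hj.ne']
  refine ⟨k, C (g.coeff k)⁻¹ * (g - X ^ g.natDegree), hT.2.2.1 k (Finset.mem_range.1 hk),
    fun j => ?_, ?_⟩
  · rw [coeff_C_mul, map_mul, map_inv₀]
    exact inv_mul_le_one_of_le₀ (hb j) zero_le
  · by_cases h0 : g.coeff k = 0
    · rw [h0, map_zero, zero_mul, add_zero, ← sub_eq_zero]
      ext j
      simpa [h0] using hb j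
    · rw [← mul_assoc, ← C_mul, mul_inv_cancel₀ h0, C_1, one_mul, add_sub_cancel]

theorem dp8a_lt {k : ℕ} (h : A.valuation x ^ k < 1) : A.valuation x < 1 :=
  not_le.1 fun e => (one_le_pow₀ e).not_gt h

theorem dp8a_pow {k : ℕ} (hk : k ≠ 0) (h : A.valuation x ≤ 1) :
    A.valuation (x ^ k) ≤ A.valuation x := by
  rw [map_pow]; exact pow_le_of_le_one zero_le h hk

variable (hT : Tame A g) (ha : A.valuation a < 1) (hh : IP A h)
  (e : g = X ^ g.natDegree + C a * h)
include hh e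

theorem dp8a_ev (hx : A.valuation x ≤ 1) :
    A.valuation (x ^ g.natDegree - g.eval x) ≤ A.valuation a ∧
    A.valuation (g.natDegree * x ^ (g.natDegree - 1) - g.derivative.eval x) ≤ A.valuation a := by
  have e1 := congrArg (eval x) e
  have e2 := congrArg (fun q => eval x (derivative q)) e
  simp only [eval_add, eval_mul, eval_pow, eval_X, eval_C, derivative_add, derivative_C_mul,
    derivative_X_pow, map_natCast, eval_natCast] at e1 e2
  rw [e1, e2, sub_add_cancel_left, sub_add_cancel_left, Valuation.map_neg, Valuation.map_neg,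
    map_mul, map_mul]
  exact ⟨mul_le_of_le_one_right' (hh.eval hx), mul_le_of_le_one_right' (hh.deriv.eval hx)⟩

include hT ha

theorem dp8a_pre (hx : A.valuation (g.eval x) < 1) : A.valuation x < 1 := by
  have h1 := (dp8a_ev hh e ((dp8a_ip hT).pre hT.1 hT.deg (n := 1) hx.le)).1.trans_lt ha
  exact dp8a_lt ((map_pow A.valuation _ _).symm.trans_lt (Cg.lt h1 hx))

theorem dp8a_big (n : ℕ) (h1 : A.valuation a < A.valuation (it g n x))
    (h2 : A.valuation (it g n x) < 1) : A.valuation a < A.valuation x ∧ A.valuation x < 1 ∧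
      A.valuation x ^ g.natDegree ^ n = A.valuation (it g n x) := by
  induction n generalizing x with
  | zero => exact ⟨h1, h2, pow_one _⟩
  | succ n ih =>
    obtain ⟨b1, b2, b3⟩ := ih (x := g.eval x) h1 h2
    have b4 := dp8a_pre hT ha hh e b2
    have b5 := A.valuation.map_eq_of_sub_lt ((dp8a_ev hh e b4.le).1.trans_lt b1)
    refine ⟨b1.trans_le (b5.symm.trans_le (dp8a_pow (by have := hT.deg; omega) b4.le)), b4, ?_⟩
    rw [pow_succ', pow_mul, ← map_pow, b5, b3, it_succ]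

theorem dp8a_small (hx : A.valuation x ≤ A.valuation a) (n : ℕ) :
    A.valuation (it g n x) ≤ A.valuation a ∧
      A.valuation (it g (n + 1) x - it g n x) ≤ A.valuation a ^ n := by
  have hd := hT.deg
  have st : ∀ y, A.valuation y ≤ A.valuation a → A.valuation (g.eval y) ≤ A.valuation a ∧
      A.valuation (g.derivative.eval y) ≤ A.valuation a := fun y hy => by
    have hy1 := hy.trans ha.le
    obtain ⟨b1, b2⟩ := dp8a_ev hh e hy1
    have b3 := A.valuation.map_sub_le ((dp8a_pow (k := g.natDegree) (by omega) hy1).trans hy) b1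
    have b4 := A.valuation.map_sub_le (x := g.natDegree * y ^ (g.natDegree - 1)) (by
      rw [map_mul, hT.2.1, one_mul]; exact (dp8a_pow (by omega) hy1).trans hy) b2
    rw [sub_sub_cancel] at b3 b4
    exact ⟨b3, b4⟩
  induction n with
  | zero => exact ⟨hx, (A.valuation.map_sub_le (st x hx).1 hx).trans (ha.le.trans_eq (pow_zero _).symm)⟩
  | succ n ih =>
    have b1 : A.valuation (it g (n + 1) x) ≤ A.valuation a := by rw [it_succ']; exact (st _ ih.1).1
    obtain ⟨c, b2, b3⟩ := (dp8a_ip hT).taylor (ih.1.trans ha.le) (b1.trans ha.le)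
    refine ⟨b1, ?_⟩
    rw [← it_succ', ← it_succ'] at b3
    rw [show it g (n + 1 + 1) x - it g (n + 1) x = (g.derivative.eval (it g n x) +
      c * (it g (n + 1) x - it g n x)) * (it g (n + 1) x - it g n x) by rw [b3]; ring, map_mul,
      pow_succ']
    refine mul_le_mul' (A.valuation.map_add_le (st _ ih.1).2 ?_) ih.2
    rw [map_mul]
    exact (mul_le_of_le_one_left' b2).trans (A.valuation.map_sub_le b1 ih.1)

theorem dp8a_crit [CharZero E] (hx : Crit g x) : A.valuation x < 1 ∧ A.valuation (g.eval x - x) < 1 := by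
  have d0 : (g.natDegree : E) ≠ 0 := fun e => by simpa [e] using hT.2.1
  have hd := hT.deg
  have h1 : A.valuation x ≤ 1 := IP.root (g := C (g.natDegree : E)⁻¹ * g.derivative)
    (fun k => by
      rw [coeff_C_mul, map_mul, map_inv₀, hT.2.1, inv_one, one_mul]; exact (dp8a_ip hT).deriv k)
    (monic_C_mul_of_mul_leadingCoeff_eq_one (by simp [hT.1.leadingCoeff, d0]))
    (by rw [eval_mul, hx, mul_zero])
  obtain ⟨b1, b2⟩ := dp8a_ev hh e h1
  rw [hx, sub_zero, map_mul, hT.2.1, one_mul, map_pow] at b2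
  have b3 := dp8a_lt (b2.trans_lt ha)
  exact ⟨b3, A.valuation.map_sub_lt (Cg.lt (Cg.symm (b1.trans_lt ha))
    ((dp8a_pow (by omega) h1).trans_lt b3)) b3⟩

end

theorem dp8a_bez {Γ : Type} [CommGroupWithZero Γ] {u : Γ} (hu : u ≠ 0) {m n : ℕ}
    (h : m.Coprime n) : ∃ α β : ℤ, (u ^ m) ^ α * (u ^ n) ^ β = u := by
  obtain ⟨α, β, e⟩ := Nat.isCoprime_iff_coprime.2 h
  refine ⟨α, β, ?_⟩
  rw [← zpow_natCast, ← zpow_natCast, ← zpow_mul, ← zpow_mul, ← zpow_add₀ hu, mul_comm _ α,
    mul_comm _ β, e, zpow_one]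

/-- the admissible polynomials -/
def Ok {E : Type} [Field E] (A : ValuationSubring E) (g : E[X]) : Prop := Good g ∨ Tame A g

theorem Ok.mon {E : Type} [Field E] {A : ValuationSubring E} {g : E[X]} (h : Ok A g) : g.Monic :=
  h.elim (·.1) (·.1)

theorem Ok.deg {E : Type} [Field E] {A : ValuationSubring E} {g : E[X]} (h : Ok A g) :
    2 ≤ g.natDegree := h.elim (·.2.1) (·.deg)

variable {E : Type} [Field E] [CharZero E] [IsAlgClosed E] [Algebra.IsAlgebraic ℚ E]

theorem dp8a_esc (K : IntermediateField ℚ E) [FiniteDimensional ℚ K] {g : E[X]}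
    {A : ValuationSubring E} (hT : Tame A g) (hK : ∀ k, g.coeff k ∈ K) {γ : E} (hγ : γ ∈ K)
    (hc : Crit g γ) (hw : Wand g γ) : (∃ p, Ov A p) ∧ ∀ᶠ n in Filter.atTop, ∀ x, it g n x = γ →
      x ≠ 0 ∧ A.valuation x < 1 ∧ ∀ j y, it g j y = x →
        A.valuation y ^ g.natDegree ^ j = A.valuation x := by
  obtain ⟨k, h, ha, hh, e⟩ := dp8a_dec hT
  obtain ⟨b1, b2⟩ := dp8a_crit hT ha hh e hc
  have h0 : g.eval γ - γ ≠ 0 := fun e => hw.not_per ⟨1, one_pos, sub_eq_zero.1 e⟩
  obtain ⟨p, hp⟩ := ov_of_lt h0 b2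
  obtain ⟨C, hC⟩ := disc K hp (κ := g.eval γ - γ) (sub_mem (by
    rw [eval_eq_sum_range]
    exact sum_mem fun i _ => mul_mem (hK i) (pow_mem hγ i)) hγ) h0
  refine ⟨⟨p, hp⟩, (Filter.eventually_gt_atTop C).mono fun n hn x hx => ?_⟩
  have b3 : ∀ j y, A.valuation (it g j y) < 1 → A.valuation y < 1 := fun j => by
    induction j with
    | zero => exact fun _ h => h
    | succ j ih => exact fun y hy => dp8a_pre hT ha hh e (ih _ hy)
  have b4 : A.valuation (g.coeff k) < A.valuation x := not_le.1 fun hl => by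
    have b5 := (dp8a_small hT ha hh e hl n).2
    rw [it_succ', hx] at b5
    have := hC (Multiset.replicate n (g.coeff k))
      (fun y hy => by rw [Multiset.eq_of_mem_replicate hy]; exact ⟨hK k, ha⟩)
      (by rwa [Multiset.prod_replicate, map_pow])
    rw [Multiset.card_replicate] at this
    omega
  have b6 := b3 n x (by rwa [hx])
  refine ⟨fun e => by simp [e] at b4, b6, ?_⟩
  rintro j y rfl
  exact (dp8a_big hT ha hh e j b4 b6).2.2

theorem tame_start (K : IntermediateField ℚ E) [FiniteDimensional ℚ K] {I : Type} [Finite I]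
    (g : I → E[X]) {A : ValuationSubring E} (hg : ∀ i, Tame A (g i))
    (hK : ∀ i k, (g i).coeff k ∈ K) (hc : ∀ i δ, Crit (g i) δ → δ ∈ K) :
    ∃ s ∈ K.fixingSubgroup, ∃ n o, Odd o ∧ ∀ i γ, Crit (g i) γ → Wand (g i) γ →
      ∀ x, it (g i) n x = γ → s x ≠ x ∧ (s ^ o) x = x := by
  by_cases hp : ∃ p, Ov A p
  swap
  · exact ⟨1, one_mem _, 0, 1, odd_one, fun i γ h1 h2 =>
      (hp (dp8a_esc K (hg i) (hK i) (hc i γ h1) h1 h2).1).elim⟩
  obtain ⟨p, hp⟩ := hp
  have hT : {t : I × E | Crit (g t.1) t.2 ∧ Wand (g t.1) t.2}.Finite :=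
    (Set.finite_iUnion fun i => (fin_crit (hg i).deg).image (Prod.mk i)).subset fun t ht =>
      Set.mem_iUnion.2 ⟨t.1, t.2, ht.1, rfl⟩
  have hZ := fun n => hT.biUnion fun t _ => fin_pre (hg t.1).1 (hg t.1).deg n t.2
  obtain ⟨n0, h0⟩ := ((Filter.eventually_all_finite hT).2 fun t ht =>
    (dp8a_esc K (hg t.1) (hK t.1) (hc _ _ ht.1) ht.1 ht.2).2).exists
  obtain ⟨L, _, -, hL, hZL⟩ := exists_gal' K (hZ n0)
  obtain ⟨j0, hj⟩ := ((Filter.eventually_all_finite (hZ n0)).2 fun x hx => show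
      ∀ᶠ C in Filter.atTop, x ≠ 0 → ∀ s : Multiset E, (∀ y ∈ s, y ∈ L ∧ A.valuation y < 1) →
        A.valuation x ≤ A.valuation s.prod → s.card ≤ C from by
    by_cases e : x = 0
    · exact .of_forall fun _ h => (h e).elim
    obtain ⟨C, hC⟩ := disc L hp (hZL x hx) e
    exact (Filter.eventually_ge_atTop C).mono fun _ h _ s h1 h2 => (hC s h1 h2).trans h).exists
  obtain ⟨s, hs, ht⟩ := tame L (hZ (n0 + j0)) hp
  obtain ⟨M, hM, hf⟩ := exists_pow_fix (hZ (n0 + j0)) s
  obtain ⟨b, o, ho, rfl⟩ := Nat.exists_eq_two_pow_mul_odd hM.ne'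
  refine ⟨s ^ 2 ^ b, pow_mem (IntermediateField.fixingSubgroup_antitone hL hs) _, n0 + j0, o, ho,
    fun i γ h1 h2 y hy => ?_⟩
  have hW := Set.mem_biUnion (t := fun t : I × E => {x | it (g t.1) (n0 + j0) x = t.2})
    (show (i, γ) ∈ {t : I × E | Crit (g t.1) t.2 ∧ Wand (g t.1) t.2} from ⟨h1, h2⟩) hy
  refine ⟨fun e => ?_, by rw [← pow_mul]; exact hf y hW⟩
  rw [it_add] at hy
  have hx := Set.mem_biUnion (t := fun t : I × E => {x | it (g t.1) n0 x = t.2})
    (show (i, γ) ∈ {t : I × E | Crit (g t.1) t.2 ∧ Wand (g t.1) t.2} from ⟨h1, h2⟩) hy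
  obtain ⟨b1, b2, b3⟩ := h0 (i, γ) ⟨h1, h2⟩ _ hy
  have b4 := b3 j0 y rfl
  generalize it (g i) j0 y = x at hx b1 b2 b4
  obtain ⟨-, d1, -, q, hq, q2, d, hd⟩ := hg i
  have y0 : A.valuation y ≠ 0 := fun e => b1 (by
    rw [e, zero_pow (pow_ne_zero _ fun e => by simp [e] at d1)] at b4
    simpa using b4.symm)
  obtain ⟨w, z, hz, b5⟩ := ht y hW (by simpa using y0) _ (by positivity) e
  have qp : q ≠ p := by
    rintro rfl
    rw [hd, Nat.cast_mul, map_mul] at d1
    exact (mul_lt_one_of_nonneg_of_lt_one_left zero_le hp.2 (v_nat A d)).ne d1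
  obtain ⟨α, β, b6⟩ := dp8a_bez (pow_ne_zero (d ^ j0) y0) (m := 2 ^ b * p ^ w) (n := q ^ j0)
    (Nat.Coprime.pow_right _ (Nat.Coprime.mul_left
      (Nat.Coprime.pow_left _ ((Nat.coprime_primes Nat.prime_two hq).2 q2.symm))
      (Nat.Coprime.pow_left _ ((Nat.coprime_primes hp.1 hq).2 qp.symm))))
  simp only [hd, mul_pow] at b4
  rw [mul_comm, pow_mul] at b4
  rw [b4, pow_right_comm, b5, ← map_pow, ← map_zpow₀, ← map_zpow₀, ← map_mul] at b6
  rw [← b6] at b4
  have := hj x hx b1 (Multiset.replicate (q ^ j0) ((z ^ d ^ j0) ^ α * x ^ β)) (fun u hu => by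
    rw [Multiset.eq_of_mem_replicate hu]
    exact ⟨mul_mem (zpow_mem (pow_mem hz _) _) (zpow_mem (hZL x hx) _),
      dp8a_lt (b4.trans_lt b2)⟩) (by rw [Multiset.prod_replicate, map_pow, b4])
  rw [Multiset.card_replicate] at this
  exact (Nat.lt_pow_self hq.one_lt).not_ge this

end Pool.Agent.P.MP_68214b_ag.DP
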