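import Pool.Agent.P.MP_68214b_ag.DP5
import Pool.Agent.P.MP_68214b_ag.DP6d
import Pool.Agent.P.MP_68214b_ag.DP7a
import Pool.Agent.P.MP_68214b_ag.DP7b
import Pool.Agent.P.MP_68214b_ag.DP8a

/-! An automorphism without fixed points on all the trees. -/

open Polynomial

set_option linter.unusedSectionVars false

namespace Pool.Agent.P.MP_68214b_ag.DP

theorem pow_fix {G Y : Type} [Group G] [MulAction G Y] {s : G} {y : Y} {m : ℕ}
    (h : s ^ m • y = y) (k : ℕ) : s ^ (m * k) • y = y := by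
  rw [pow_mul]; exact (MulAction.stabilizer G y).pow_mem h k

theorem pow_fix' {G Y : Type} [Group G] [MulAction G Y] {s : G} {y : Y} {m : ℕ}
    (h : s ^ m • y = y) (k : ℕ) : s ^ (m * k + 1) • y = s • y := by
  rw [pow_succ', mul_smul, pow_fix h]

theorem pow_agree {G Y : Type} [Group G] [MulAction G Y] {s r : G} {Z : Set Y}
    (h : ∀ z ∈ Z, s • z ∈ Z) (e : ∀ z ∈ Z, r • z = s • z) (k : ℕ) :
    ∀ z ∈ Z, r ^ k • z = s ^ k • z := by
  induction k with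
  | zero => simp
  | succ k ih => exact fun z hz => by rw [pow_succ, pow_succ, mul_smul, mul_smul, e z hz, ih _ (h z hz)]

theorem kw {G X : Type} [Group G] [MulAction G X] [Finite X] [MulAction.IsPretransitive G X]
    {N : Subgroup G} [N.Normal] {ι : G} (hι : ι ∈ N) (h0 : ∃ x : X, ι • x ≠ x)
    (h1 : {y : X | ι • y ≠ y}.ncard ≤ 2) (s : G) : ∃ h ∈ N, ∀ x : X, (s * h) • x ≠ x := by
  obtain ⟨h, hh, m⟩ := InvImage.wf (fun h : G => {x : X | (s * h) • x = x}.ncard)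
    wellFounded_lt |>.has_min N ⟨1, N.one_mem⟩
  refine ⟨h, hh, fun x e => ?_⟩
  obtain ⟨x0, h0⟩ := h0
  obtain ⟨t, rfl⟩ := MulAction.exists_smul_eq G x0 x
  refine m (h * (t * ι * t⁻¹)) (N.mul_mem hh (‹N.Normal›.conj_mem ι hι t))
    (Set.ncard_lt_ncard ⟨fun z hz => ?_, fun c => h0 ?_⟩)
  · obtain ⟨y, rfl⟩ := MulAction.surjective t z
    have hz : (s * h) • t • ι • y = t • y := by simpa [mul_smul] using hz
    by_cases c : ι • y = y
    · rwa [c] at hz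
    have c1 : ι • y ≠ x0 := fun a => c (by
      rw [a, e] at hz; rw [a]; exact MulAction.injective t hz)
    have c2 : y ≠ x0 := fun a => c1 (by
      rw [a, ← e] at hz; rw [a]; exact MulAction.injective t (MulAction.injective _ hz))
    exact (h1.not_gt ((Set.two_lt_ncard (Set.toFinite _)).2 ⟨_, h0, _, c, ι • y,
      fun a => c (MulAction.injective ι a), c2.symm, c1.symm, Ne.symm c⟩)).elim
  · have hz : (s * h) • t • ι • x0 = t • x0 := by simpa [mul_smul] using c e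
    rw [← e] at hz
    exact MulAction.injective t (MulAction.injective _ hz)

theorem seq {G Y T : Type} [Group G] [MulAction G Y] {S : Set T} (hS : S.Finite)
    (P : G → Set Y → Prop) (X : T → ℕ → Set Y)
    (step : ∀ τ ∈ S, ∀ s Z, P s Z → ∃ r k, (∀ z ∈ Z, r • z = s • z) ∧ (∀ y ∈ X τ k, r • y ≠ y) ∧
      P r (Z ∪ X τ k)) (s : G) (Z : Set Y) (h : P s Z) :
    ∃ r U, P r U ∧ Z ⊆ U ∧ (∀ z ∈ Z, r • z = s • z) ∧
      ∀ τ ∈ S, ∃ k, X τ k ⊆ U ∧ ∀ y ∈ X τ k, r • y ≠ y := by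
  induction S, hS using Set.Finite.induction_on with
  | empty => exact ⟨s, Z, h, subset_rfl, fun _ _ => rfl, by simp⟩
  | insert _ _ ih =>
    obtain ⟨r, U, h1, h2, h3, h4⟩ := ih fun τ hτ => step τ (Or.inr hτ)
    obtain ⟨r', k, e1, e2, e3⟩ := step _ (Or.inl rfl) r U h1
    refine ⟨r', _, e3, h2.trans Set.subset_union_left,
      fun z hz => (e1 z (h2 hz)).trans (h3 z hz), ?_⟩
    rintro τ (rfl | hτ)
    · exact ⟨k, Set.subset_union_right, e2⟩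
    · obtain ⟨j, a, b⟩ := h4 τ hτ
      exact ⟨j, a.trans Set.subset_union_left, fun y hy => e1 y (a hy) ▸ b y hy⟩

variable {E : Type} [Field E] [CharZero E] [IsAlgClosed E] [Algebra.IsAlgebraic ℚ E]
  {K : IntermediateField ℚ E}

theorem odd_part {Y : Set E} (hY : Y.Finite) (r : K.fixingSubgroup) {m : ℕ} (hm : Odd m) :
    ∃ k o, Odd o ∧ ∀ y ∈ Y, (r ^ (m * k + 1)) ^ o • y = y := by
  obtain ⟨M, h0, hM⟩ := exists_pow_fix hY r.1
  obtain ⟨a, o, ho, rfl⟩ := Nat.exists_eq_two_pow_mul_odd h0.ne'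
  obtain ⟨k, hk⟩ := (Nat.modEq_iff_dvd' (Nat.one_le_iff_ne_zero.2 (by positivity))).1
    (Nat.ModEq.pow_totient (Nat.Coprime.pow_left a (Nat.coprime_two_left.2 hm))).symm
  obtain ⟨c, hc⟩ := Nat.exists_eq_succ_of_ne_zero (Nat.totient_pos.2 hm.pos).ne'
  refine ⟨k, o, ho, fun y hy => ?_⟩
  have : 0 < (2 ^ a) ^ m.totient := by positivity
  rw [← pow_mul, show (m * k + 1) * o = 2 ^ a * o * (2 ^ a) ^ c by
    rw [← hk, Nat.sub_add_cancel this, hc, pow_succ]; ring]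
  exact pow_fix (hM y hy) _

/-- the points of level k above the orbit of w -/
def Lv (K : IntermediateField ℚ E) (g : E[X]) (w : E) (k : ℕ) : Set E :=
  {x | ∃ t : K.fixingSubgroup, it g k x = t • w}

/-- finite and stable -/
def St (K : IntermediateField ℚ E) (Z : Set E) : Prop :=
  Z.Finite ∧ ∀ t : K.fixingSubgroup, ∀ z ∈ Z, t • z ∈ Z

theorem St.union {Y Z : Set E} (h : St K Y) (h' : St K Z) : St K (Y ∪ Z) :=
  ⟨h.1.union h'.1, fun t z hz => hz.imp (h.2 t z) (h'.2 t z)⟩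

theorem fix_mem (t : K.fixingSubgroup) {x : E} (hx : x ∈ K) : t • x = x := t.2 ⟨x, hx⟩

/-- the data of one component -/
structure Cmp (K : IntermediateField ℚ E) (g : E[X]) (γ w : E) (n : ℕ) : Prop where
  good : Good g
  co : ∀ k, g.coeff k ∈ K
  cr : ∀ δ, Crit g δ → δ ∈ K
  crit : Crit g γ
  wand : Wand g γ
  lev : it g n w = γ
  es : ∀ k x y, it g n (it g k x) = γ → it g k x = it g k y → ∃ s ∈ K.fixingSubgroup, s x = y

namespace Cmp

variable {g : E[X]} {γ w : E} {n : ℕ} (h : Cmp K g γ w n)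
include h

theorem sm (t : K.fixingSubgroup) (k : ℕ) (x : E) : it g k (t • x) = t • it g k x :=
  (smul_it t.1 (fun k => fix_mem t (h.co k)) k x).symm

theorem up {k : ℕ} {x : E} (hx : x ∈ Lv K g w k) : it g n (it g k x) = γ := by
  obtain ⟨t, e⟩ := hx
  rw [e, h.sm, h.lev, fix_mem t (h.cr _ h.crit)]

theorem st (k : ℕ) : St K (Lv K g w k) :=
  ⟨(fin_pre h.good.1 h.good.2.1 (n + k) γ).subset fun _ hx => (it_add n k).trans (h.up hx),
    fun t _ ⟨u, e⟩ => ⟨t * u, by rw [h.sm, e, mul_smul]⟩⟩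

theorem tr {k : ℕ} {x y : E} (hx : x ∈ Lv K g w k) (hy : y ∈ Lv K g w k) :
    ∃ t : K.fixingSubgroup, t • x = y := by
  obtain ⟨t, e⟩ := hx
  obtain ⟨u, e'⟩ := hy
  obtain ⟨s, hs, a⟩ := h.es k y ((u * t⁻¹) • x) (h.up ⟨u, e'⟩)
    (by rw [h.sm, e, mul_smul, inv_smul_smul, e'])
  exact ⟨(⟨s, hs⟩ : K.fixingSubgroup)⁻¹ * (u * t⁻¹), by rw [mul_smul, inv_smul_eq_iff]; exact a.symm⟩

theorem two {k : ℕ} {x : E} (hx : x ∈ Lv K g w (k + 1)) : ∃ y, y ≠ x ∧ g.eval y = g.eval x :=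
  fib_two (n := n + k) h.good.1 h.good.2.1 h.crit h.wand
    ((it_add n (k + 1)).trans (h.up hx))

theorem card {k : ℕ} {x : E} (hx : x ∈ Lv K g w (k + 1)) :
    {y | g.eval y = g.eval x}.ncard = g.natDegree := by
  refine fib_card h.good.1 h.good.2.1 fun y e hc => ?_
  have hy : y ∈ Lv K g w (k + 1) := hx.imp fun t a => by rwa [it_succ, e]
  obtain ⟨z, n, e'⟩ := h.two hy
  obtain ⟨s, hs, a⟩ := h.es (k + 1) y z (h.up hy) (by rw [it_succ, it_succ, e'])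
  exact n (a.symm.trans (fix_mem ⟨s, hs⟩ (h.cr y hc)))

theorem core [FiniteDimensional ℚ K] {Z : Set E} (hZ : St K Z) :
    ∃ (k l : ℕ) (A : ValuationSubring E) (ι : K.fixingSubgroup), Loc A g γ l ∧ n + (k + 1) ≤ l ∧
      (∀ z ∈ Z ∪ Lv K g w k, ι • z = z) ∧ (∃ x ∈ Lv K g w (k + 1), ι • x ≠ x) ∧
      ∀ x ∈ Lv K g w (k + 1), ι • x ≠ x → Tw A g γ (n + (k + 1)) x := by
  obtain ⟨a, ha⟩ := exists_pre h.good.2.1 1 w
  obtain ⟨b, nb, hb⟩ := h.two (k := 0) ⟨1, ha⟩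
  obtain ⟨c, hc⟩ := exists_pre h.good.2.1 1 a
  obtain ⟨d, hd⟩ := exists_pre h.good.2.1 1 b
  rw [it_one] at ha hc hd
  obtain ⟨c', nc, hc'⟩ := h.two (k := 1) (x := c) ⟨1, by rw [it_succ, hc]; exact ha⟩
  have he : ∀ i, it g 2 (![c, c', d] i) = w := fun i => by
    fin_cases i <;> simp [it_succ, *]
  have hi : Function.Injective ![c, c', d] := by
    have : c ≠ d := fun e => nb (by rw [← hc, ← hd, e])
    have : c' ≠ d := fun e => nb (by rw [← hc, ← hd, ← hc', e])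
    intro i j
    fin_cases i <;> fin_cases j <;> simp [*, Ne.symm]
  have hY := hZ.union (h.st 0)
  obtain ⟨B, hB⟩ := unit_big (hY.1.union (hY.1.image2 (· - ·) hY.1))
  obtain ⟨B', hB'⟩ := exists_loc h.good.1 h.good.2.1 h.crit h.wand
  obtain ⟨m, A, hl, hA, hp, H⟩ := kcA K h.good.1 h.good.2.1 h.co (h.cr _ h.crit) h.crit h.wand
    (n := n + 2) _ hi (fun i => by rw [it_add, he, h.lev]) (B + B')
  have L := hB' A (hA.mono (by omega)) _ hl hp
  have U := hB A (hA.mono (by omega))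
  obtain ⟨s, hs, h1, i, x, h2, h3⟩ := H (Z ∪ ⋃ j ≤ 2 + m, Lv K g w j)
    (hZ.1.union ((Set.finite_le_nat _).biUnion fun j _ => (h.st j).1))
  set ι : K.fixingSubgroup := ⟨s, hs⟩
  have f0 : ∀ z ∈ Z ∪ Lv K g w 0, ι • z = z := fun z hz => by
    by_contra e
    have := h1 z (hz.imp_right fun a => Set.mem_biUnion (Nat.zero_le _) a) (by
      rcases eq_or_ne z 0 with rfl | e
      exacts [by simp, (U z (Or.inl hz) e).le])
    exact this.ne (U _ (Or.inr ⟨_, hY.2 ι z hz, z, hz, rfl⟩) (sub_ne_zero.2 e))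
  have ex : ∃ x ∈ Lv K g w (2 + m), ι • x ≠ x := ⟨x, ⟨1, by rw [it_add, h2, he, one_smul]⟩, h3⟩
  classical
  have ex' : ∃ j, ∃ x ∈ Lv K g w j, ι • x ≠ x := ⟨_, ex⟩
  have le := Nat.find_min' ex' ex
  have sp := Nat.find_spec ex'
  have mn := fun j => Nat.find_min ex' (m := j)
  generalize Nat.find ex' = j at le sp mn
  obtain _ | k := j
  · obtain ⟨y, a, b⟩ := sp
    exact (b (f0 y (Or.inr a))).elim
  have fk : ∀ z ∈ Lv K g w k, ι • z = z := fun z hz => by_contra fun e => mn k (by omega) ⟨z, hz, e⟩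
  refine ⟨k, _, A, ι, L, by omega, fun z hz => hz.elim (fun a => f0 z (Or.inl a)) (fk z), sp,
    fun y hy e => ?_⟩
  have u := (it_add n (k + 1)).trans (h.up hy)
  exact ⟨u, _, e, (h.sm ι 1 y).trans (fk _ hy), h1 y (Or.inr (Set.mem_biUnion le hy))
    (L.ip.pre L.mon L.deg (by rw [u]; exact L.int _ L.crit))⟩

/-- a level as an invariant set -/
def sub (k : ℕ) : SubMulAction K.fixingSubgroup E :=
  ⟨Lv K g w k, fun t _ hx => (h.st k).2 t _ hx⟩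

theorem fin (k : ℕ) : Finite (h.sub k) := (h.st k).1.to_subtype

theorem ptr (k : ℕ) : MulAction.IsPretransitive K.fixingSubgroup (h.sub k) :=
  ⟨fun x y => (h.tr x.2 y.2).imp fun _ e => Subtype.ext e⟩

omit h in
theorem nor {Z : Set E} (hZ : St K Z) : (fixingSubgroup K.fixingSubgroup Z).Normal :=
  ⟨fun a ha t => (mem_fixingSubgroup_iff _).2 fun y hy => by
    rw [mul_smul, mul_smul, (mem_fixingSubgroup_iff _).1 ha _ (hZ.2 _ y hy), smul_inv_smul]⟩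

theorem free (hU : TyU g) (hζ : ∀ ζ, ζ ^ g.natDegree = 1 → ζ ∈ K) (t : K.fixingSubgroup)
    {x y : E} (e : g.eval x = g.eval y) (a' : t.1 x = x) : t.1 y = y := by
  obtain ⟨b, c, hg⟩ := hU
  have d2 := h.good.2.1
  have hb : b ∈ K := h.cr b (by
    rw [Crit, hg]; simp [derivative_pow, show g.natDegree - 1 ≠ 0 by omega])
  have e' : (x - b) ^ g.natDegree = (y - b) ^ g.natDegree := by
    rw [hg] at e; simpa using e
  by_cases e0 : x - b = 0
  · rw [e0, zero_pow (by omega), eq_comm, pow_eq_zero_iff (by omega), sub_eq_zero] at e'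
    exact e' ▸ fix_mem t hb
  · have z : t.1 _ = _ := fix_mem t (hζ ((y - b) / (x - b)) (by
      rw [div_pow, ← e', div_self (pow_ne_zero _ e0)]))
    rwa [map_div₀, map_sub, map_sub, a', show t.1 b = b from fix_mem t hb, div_left_inj' e0,
      sub_left_inj] at z

theorem fib (k : ℕ) (x : h.sub (k + 1)) :
    Nat.card {y : h.sub (k + 1) // g.eval y.1 = g.eval x.1} = g.natDegree :=
  (Nat.card_congr ⟨fun y => ⟨y.1.1, y.2⟩, fun y => ⟨⟨y.1, x.2.imp fun t a => by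
    rwa [it_succ, y.2]⟩, y.2⟩, fun _ => rfl, fun _ => rfl⟩).trans (h.card x.2)

theorem le_two {k l : ℕ} {A : ValuationSubring E} (L : Loc A g γ l) (hU : ¬ TyU g)
    {P : h.sub k → Prop} {m : ℕ} (tw : ∀ y, P y → Tw A g γ m y) (b : E) :
    {y : h.sub k | g.eval y.1 = b ∧ P y}.ncard ≤ 2 :=
  (Set.ncard_le_ncard_of_injOn Subtype.val (fun y a => by exact ⟨a.1, tw y a.2⟩)
    Subtype.val_injective.injOn ((fin_pre L.mon L.deg 1 b).subset fun _ a => a.1)).trans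
    (loc_two L (fun δ a b => ((h.good.2.2 δ a b).2.resolve_left hU).1) b)

theorem kcU [FiniteDimensional ℚ K] (hU : TyU g ∨ g.natDegree ≠ 3)
    (hζ : ∀ ζ, ζ ^ g.natDegree = 1 → ζ ∈ K) (s : K.fixingSubgroup) {Z : Set E} (hZ : St K Z) :
    ∃ (r : K.fixingSubgroup) (k : ℕ),
      (∀ z ∈ Z, r • z = s • z) ∧ (∀ y ∈ Lv K g w k, r • y ≠ y) ∧ St K (Z ∪ Lv K g w k) := by
  obtain ⟨k, l, A, ι, L, hl, h1, ⟨x, hx, h2⟩, h3⟩ := h.core hZ
  have := h.fin (k + 1)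
  have := h.ptr (k + 1)
  have := nor (hZ.union (h.st k))
  have tw : ∀ y : h.sub (k + 1), ι • y ≠ y → Tw A g γ (n + (k + 1)) y :=
    fun y a => h3 _ y.2 fun e => a (Subtype.ext e)
  have a1 : ∀ (t : K.fixingSubgroup) (x : h.sub (k + 1)), g.eval (t • x).1 = t • g.eval x.1 :=
    fun t x => h.sm t 1 x
  have a2 : ∀ t ∈ fixingSubgroup K.fixingSubgroup (Z ∪ Lv K g w k), ∀ x : h.sub (k + 1),
      g.eval (t • x).1 = g.eval x.1 :=
    fun t ht x => (a1 t x).trans ((mem_fixingSubgroup_iff _).1 ht _ (Or.inr x.2))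
  have a3 := (mem_fixingSubgroup_iff _).2 h1
  have a4 : (⟨x, hx⟩ : h.sub (k + 1)) ∈ {y | ι • y ≠ y} := fun e => h2 congr($e.1)
  obtain ⟨u, hu, H⟩ : ∃ u ∈ fixingSubgroup K.fixingSubgroup (Z ∪ Lv K g w k),
      ∀ x : h.sub (k + 1), (s * u) • x ≠ x := by
    by_cases c : TyU g
    · exact ku a1 a2 (fun t x y e a => Subtype.ext (h.free c hζ t e (congrArg Subtype.val a))) a3 ⟨_, a4⟩
        (fun x y a b => loc_U L c (by omega) hl (tw x a) (tw y b)) s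
    rcases ((h.good.2.2 γ h.crit h.wand).2.resolve_left c).2 with e | e | e
    · exact (hU.resolve_left c e).elim
    · exact kg a1 a2 e (h.fib k) a3 ⟨_, a4⟩ (h.le_two L c tw) s
    · exact kw a3 ⟨_, a4⟩ ((Set.ncard_le_ncard fun y a => by
        exact ⟨loc_W L e (by omega) hl (tw y a) (tw _ a4), a⟩).trans (h.le_two L c tw _)) s
  exact ⟨s * u, k + 1, fun z hz => by
    rw [mul_smul, (mem_fixingSubgroup_iff _).1 hu z (Or.inl hz)],
    fun y hy e => H ⟨y, hy⟩ (Subtype.ext e), hZ.union (h.st _)⟩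

theorem kcC [FiniteDimensional ℚ K] (hU : ¬ (TyU g ∨ g.natDegree ≠ 3)) (s : K.fixingSubgroup)
    {Z : Set E} (hZ : St K Z ∧ ∃ m, Odd m ∧ ∀ z ∈ Z, s ^ m • z = z) :
    ∃ (r : K.fixingSubgroup) (k : ℕ),
      (∀ z ∈ Z, r • z = s • z) ∧ (∀ y ∈ Lv K g w k, r • y ≠ y) ∧ St K (Z ∪ Lv K g w k) ∧
        ∃ m, Odd m ∧ ∀ z ∈ Z ∪ Lv K g w k, r ^ m • z = z := by
  obtain ⟨hZ, m, hm, hs⟩ := hZ
  obtain ⟨hU, hp⟩ := not_or.1 hU
  rw [not_not] at hp
  obtain ⟨k, l, A, ι, L, hl, h1, ⟨x, hx, h2⟩, h3⟩ := h.core hZ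
  have := h.fin (k + 1)
  have := h.ptr (k + 1)
  have := nor (hZ.union (h.st k))
  have S1 := hZ.union (h.st (k + 1))
  obtain ⟨j, o, ho, e1⟩ := odd_part S1.1 s hm
  set s1 := s ^ (m * j + 1)
  have tw : ∀ y : h.sub (k + 1), ι • y ≠ y → Tw A g γ (n + (k + 1)) y :=
    fun y a => h3 _ y.2 fun e => a (Subtype.ext e)
  obtain ⟨u, hu, H⟩ := kp3 (X := h.sub (k + 1)) (π := fun x => g.eval x.1)
    (fun t x => h.sm t 1 x) (N := fixingSubgroup _ (Z ∪ Lv K g w k))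
    (fun t ht x => (h.sm t 1 x).trans ((mem_fixingSubgroup_iff _).1 ht _ (Or.inr x.2)))
    (fun x => (h.fib k x).trans hp) ((mem_fixingSubgroup_iff _).2 h1)
    ⟨⟨x, hx⟩, fun e => h2 congr($e.1)⟩ (h.le_two L hU tw)
    ((Set.ncard_le_ncard (by rintro _ ⟨y, a, rfl⟩; exact ⟨y, tw y a, rfl⟩)
      (((fin_pre L.mon L.deg _ γ).subset fun _ a => a.1).image _)).trans
      (loc_three L (fun δ a b => ((h.good.2.2 δ a b).2.resolve_left hU).1) hp (by omega) hl))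
    s1 ho (fun x => Subtype.ext (e1 x (Or.inr x.2)))
  obtain ⟨i, o', ho', e2⟩ := odd_part S1.1 (s1 * u) (ho.mul (by decide : Odd 3))
  have ag := pow_agree (r := s1 * u) ((hZ.union (h.st k)).2 s1) (fun z hz => by
    rw [mul_smul, (mem_fixingSubgroup_iff _).1 hu z hz]) (o * 3 * i + 1)
  refine ⟨_, k + 1, fun z hz => ?_, fun y hy e => ?_, S1, o', ho', e2⟩
  · rw [ag z (Or.inl hz), mul_assoc, pow_fix' (e1 z (Or.inl hz)), pow_fix' (hs z hz)]
  · have a := ag (g.eval y) (Or.inr hy)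
    rw [← it_one, ← h.sm, e, mul_assoc, pow_fix' (by rw [← h.sm, e1 y (Or.inr hy)])] at a
    obtain ⟨b, c⟩ := H ⟨y, hy⟩ a.symm
    rw [mul_comm o, mul_assoc, pow_fix' congr($c.1)] at e
    exact b (Subtype.ext e)

end Cmp

theorem kill (K : IntermediateField ℚ E) [FiniteDimensional ℚ K] {I : Type} [Finite I]
    (g : I → E[X]) {A : ValuationSubring E} (hg : ∀ i, Ok A (g i))
    (hK : ∀ i k, (g i).coeff k ∈ K) (hc : ∀ i δ, Crit (g i) δ → δ ∈ K)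
    (hζ : ∀ i ζ, ζ ^ (g i).natDegree = 1 → ζ ∈ K) :
    ∃ s ∈ K.fixingSubgroup, ∀ i γ, Crit (g i) γ → Wand (g i) γ →
      ∃ n, ∀ x, it (g i) n x = γ → s x ≠ x := by
  choose! n hn using fun i γ (c : Good (g i)) (a : Crit (g i) γ) (b : Wand (g i) γ) =>
    es K c.1 c.2.1 (hK i) (hc i γ a) a b (c.2.2 γ a b).1
  let S := {τ : I × E × E | Cmp K (g τ.1) τ.2.1 τ.2.2 (n τ.1 τ.2.1)}
  have hS : S.Finite := (Set.finite_iUnion fun i => (fin_crit (hg i).deg).biUnion fun γ _ =>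
    (fin_pre (hg i).mon (hg i).deg (n i γ) γ).image fun w => (i, γ, w)).subset fun τ a =>
      Set.mem_iUnion.2 ⟨τ.1, Set.mem_biUnion a.crit ⟨_, a.lev, rfl⟩⟩
  obtain ⟨s0, h0, n0, o, ho, H⟩ := tame_start K (I := {i // Tame A (g i)}) (fun i => g i)
    (fun i => i.2) (fun i => hK i) fun i => hc i
  obtain ⟨r, U, ⟨h1, -⟩, u1, u2, h2⟩ := seq (hS.sep fun τ => ¬ (TyU (g τ.1) ∨ (g τ.1).natDegree ≠ 3))
    (fun (s : K.fixingSubgroup) Z => St K Z ∧ ∃ m, Odd m ∧ ∀ z ∈ Z, s ^ m • z = z)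
    (fun τ => Lv K (g τ.1) τ.2.2) (fun τ a s Z b => Cmp.kcC a.1 a.2 s b) ⟨s0, h0⟩
    {x | ∃ i γ, Tame A (g i) ∧ Crit (g i) γ ∧ Wand (g i) γ ∧ it (g i) n0 x = γ}
    ⟨⟨(Set.finite_iUnion fun i => (fin_crit (hg i).deg).biUnion fun γ _ =>
      fin_pre (hg i).mon (hg i).deg n0 γ).subset fun x ⟨i, γ, _, a, _, e⟩ =>
        Set.mem_iUnion.2 ⟨i, Set.mem_biUnion a e⟩, fun t x ⟨i, γ, c, a, b, e⟩ => ⟨i, γ, c, a, b,
      (smul_it t.1 (fun k => fix_mem t (hK i k)) n0 x).symm.trans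
        (e ▸ fix_mem t (e ▸ hc i γ a))⟩⟩, o, ho,
      fun x ⟨i, γ, c, a, b, e⟩ => (H ⟨i, c⟩ γ a b x e).2⟩
  obtain ⟨s, U', -, -, h3, h4⟩ := seq (hS.sep fun τ => TyU (g τ.1) ∨ (g τ.1).natDegree ≠ 3)
    (fun (_ : K.fixingSubgroup) Z => St K Z) (fun τ => Lv K (g τ.1) τ.2.2)
    (fun τ a s Z b => Cmp.kcU a.1 a.2 (hζ _) s b) r U h1
  choose! k hk using show ∀ τ ∈ S, ∃ k, ∀ y ∈ Lv K (g τ.1) τ.2.2 k, s • y ≠ y from fun τ a => by
    by_cases e : TyU (g τ.1) ∨ (g τ.1).natDegree ≠ 3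
    · exact (h4 τ ⟨a, e⟩).imp fun _ b => b.2
    · exact (h2 τ ⟨a, e⟩).imp fun _ b y hy => by rw [h3 y (b.1 hy)]; exact b.2 y hy
  obtain ⟨M, hM⟩ := (hS.image k).bddAbove
  refine ⟨s, s.2, fun i γ a b => (hg i).elim (fun d => ⟨n i γ + M, fun x hx e => ?_⟩)
    fun d => ⟨n0, fun x hx e => (H ⟨i, d⟩ γ a b x hx).1 (((h3 x (u1 ⟨i, γ, d, a, b, hx⟩)).trans
      (u2 x ⟨i, γ, d, a, b, hx⟩)).symm.trans e)⟩⟩
  have c : (i, γ, it (g i) M x) ∈ S :=
    ⟨d, hK i, hc i, a, b, (it_add _ _).symm.trans hx, hn i γ d a b⟩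
  refine hk _ c (it (g i) (M - k (i, γ, it (g i) M x)) x) ⟨1, ?_⟩ ((Cmp.sm c s _ x).symm.trans ?_)
  · rw [← it_add, Nat.add_sub_cancel' (hM ⟨_, c, rfl⟩), one_smul]
  · rw [show s • x = x from e]

end Pool.Agent.P.MP_68214b_ag.DP
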