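import Pool.Agent.P.MP_68214b_ag.DP3c
import Pool.Agent.P.MP_68214b_ag.DP8

/-! The good place. -/

open Polynomial

namespace Pool.Agent.P.MP_68214b_ag.DP

variable {E : Type} [Field E] [CharZero E] [IsAlgClosed E] [Algebra.IsAlgebraic ℚ E]

/-- the union of the cycles of the periodic critical points -/
def dp9Cy {F : Type} [Field F] (g : F[X]) : Set F :=
  {c | ∃ γ, (Crit g γ ∧ ¬ Wand g γ) ∧ Per g γ ∧ ∃ j, it g j γ = c}

theorem dp9_orb {F : Type} [Field F] [CharZero F] {g : F[X]} (hd : 2 ≤ g.natDegree) :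
    {z : F × F | Crit g z.1 ∧ ¬ Wand g z.1 ∧ ∃ j, it g j z.1 = z.2}.Finite := by
  have h0 : {γ | Crit g γ ∧ ¬ Wand g γ}.Finite := (fin_crit hd).subset fun _ h => h.1
  refine (h0.biUnion (t := fun γ => (fun c => (γ, c)) '' Set.range fun n => it g n γ)
    fun γ h => (Set.not_infinite.1 h.2).image _).subset ?_
  rintro ⟨γ, c⟩ ⟨h1, h2, j, e⟩
  exact Set.mem_biUnion (x := γ) ⟨h1, h2⟩ ⟨c, ⟨j, e⟩, rfl⟩

theorem dp9_fin {F : Type} [Field F] [CharZero F] {g : F[X]} (hd : 2 ≤ g.natDegree) :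
    (dp9Cy g).Finite :=
  ((dp9_orb hd).image Prod.snd).subset fun c ⟨γ, h, _, e⟩ => ⟨(γ, c), ⟨h.1, h.2, e⟩, rfl⟩

theorem dp9_it {F : Type} [Field F] {g : F[X]} {c : F} (h : c ∈ dp9Cy g) (k : ℕ) :
    it g k c ∈ dp9Cy g := by
  obtain ⟨γ, h1, h2, j, rfl⟩ := h
  exact ⟨γ, h1, h2, k + j, it_add _ _⟩

theorem dp9_ne {F : Type} [Field F] {g : F[X]} {a c : F} (ha : Wand g a) (h : c ∈ dp9Cy g)
    (n : ℕ) : it g n a ≠ c := by
  obtain ⟨γ, -, ⟨k, hk, e⟩, j, rfl⟩ := h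
  intro h
  have : it g (k + n) a = it g n a := by
    rw [it_add, h, ← it_add, add_comm, it_add, e]
  have := ha.inj this
  omega

theorem dp9_W0 {F : Type} [Field F] [CharZero F] [IsAlgClosed F] {g : F[X]} (hg : g.Monic ∧ 2 ≤ g.natDegree)
    (a : F) : {x | (∃ k, g.coeff k = x) ∨ Crit g x ∨ x ^ g.natDegree = 1 ∨ x = a ∨
      it g 1 x ∈ dp9Cy g}.Finite := by
  have h1 : {x | ∃ k, g.coeff k = x}.Finite :=
    ((g.support.finite_toSet.image g.coeff).insert 0).subset (by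
      rintro _ ⟨k, rfl⟩
      by_cases h : g.coeff k = 0
      exacts [Or.inl h, Or.inr ⟨k, by simpa using h, rfl⟩])
  have h2 : {x : F | x ^ g.natDegree = 1}.Finite := by
    simpa [it] using fin_pre (g := (X : F[X]) ^ g.natDegree) (monic_X_pow _)
      (by simpa using hg.2) 1 1
  have h3 : {x | it g 1 x ∈ dp9Cy g}.Finite :=
    ((dp9_fin hg.2).biUnion fun c _ => fin_pre hg.1 hg.2 1 c).subset fun x hx =>
      Set.mem_biUnion hx rfl
  exact h1.union ((fin_crit hg.2).union (h2.union ((Set.finite_singleton a).union h3)))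

theorem dp9_le {F : Type} [Field F] {A : ValuationSubring F} {z : F}
    (h : z ≠ 0 → A.valuation z = 1) :
    A.valuation z ≤ 1 := by
  by_cases e : z = 0
  exacts [by simp [e], (h e).le]

theorem dp9_eq {F : Type} [Field F] {A : ValuationSubring F} {x y : F}
    (h : x - y ≠ 0 → A.valuation (x - y) = 1)
    (c : Cg A x y) : x = y := by
  by_contra n
  exact (h (sub_ne_zero.2 n)).not_lt c

theorem gp {I : Type} [Finite I] (g : I → E[X]) {A0 : ValuationSubring E}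
    (hg : ∀ i, Ok A0 (g i)) (a : I → E) (B : ℕ) :
    ∃ A, Big B A ∧ ∀ i γ, Crit (g i) γ →
      (¬ Per (g i) γ → ∀ k, 0 < k → ¬ Cg A (it (g i) k γ) γ) ∧
      (Per (g i) γ → Wand (g i) (a i) → ∀ n, ¬ Cg A (it (g i) n (a i)) γ) := by
  classical
  have hm := fun i => (hg i).mon
  have hd := fun i => (hg i).deg
  obtain ⟨W0, f0, c0, k0, z0, a0, t0⟩ : ∃ W0 : Set E, W0.Finite ∧ (∀ i k, (g i).coeff k ∈ W0) ∧
      (∀ i x, Crit (g i) x → x ∈ W0) ∧ (∀ i x, x ^ (g i).natDegree = 1 → x ∈ W0) ∧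
      (∀ i, a i ∈ W0) ∧ ∀ i x, it (g i) 1 x ∈ dp9Cy (g i) → x ∈ W0 :=
    ⟨_, Set.finite_iUnion fun i => dp9_W0 ⟨hm i, hd i⟩ (a i),
      fun i k => Set.mem_iUnion.2 ⟨i, .inl ⟨k, rfl⟩⟩,
      fun i _ h => Set.mem_iUnion.2 ⟨i, .inr (.inl h)⟩,
      fun i _ h => Set.mem_iUnion.2 ⟨i, .inr (.inr (.inl h))⟩,
      fun i => Set.mem_iUnion.2 ⟨i, .inr (.inr (.inr (.inl rfl)))⟩,
      fun i _ h => Set.mem_iUnion.2 ⟨i, .inr (.inr (.inr (.inr h)))⟩⟩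
  obtain ⟨K, _, -, hK⟩ := exists_gal f0
  obtain ⟨s, hs, hn⟩ := kill K g hg (fun i k => hK _ (c0 i k)) (fun i x h => hK _ (k0 i x h))
    fun i x h => hK _ (z0 i x h)
  have s0 : ∀ x ∈ W0, s x = x := fun x hx =>
    (IntermediateField.mem_fixingSubgroup_iff K s).1 hs x (hK x hx)
  choose! n hn using hn
  obtain ⟨W1, f1, l1, t1⟩ : ∃ W1 : Set E, W1.Finite ∧ W0 ⊆ W1 ∧
      ∀ i γ x, Crit (g i) γ → it (g i) (n i γ) x = γ → x ∈ W1 :=
    ⟨_, f0.union (Set.finite_iUnion fun i => (fin_crit (hd i)).biUnion fun γ _ =>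
      fin_pre (hm i) (hd i) (n i γ) γ), Set.subset_union_left,
      fun i γ x h e => .inr (Set.mem_iUnion.2 ⟨i, Set.mem_biUnion (x := γ) h e⟩)⟩
  obtain ⟨B1, u1⟩ := unit_big (f1.union ((fin_conj f1).image2 (· - ·) f1))
  obtain ⟨A1, b1, r1⟩ := frob f1 s B1
  replace u1 := u1 A1 b1
  obtain ⟨p, -, hp⟩ := b1
  have i1 : ∀ x ∈ W1, A1.valuation x ≤ 1 := fun x hx => dp9_le (u1 x (.inl hx))
  have d1 : ∀ (t : E ≃ₐ[ℚ] E), ∀ x ∈ W1, ∀ y ∈ W1, Cg A1 (t x) y → t x = y :=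
    fun t x hx y hy => dp9_eq (u1 _ (.inr ⟨_, ⟨t, x, hx, rfl⟩, y, hy, rfl⟩))
  have P1 : ∀ i, IP A1 (g i) := fun i k => i1 _ (l1 (c0 i k))
  obtain ⟨W2, f2, l2, t2⟩ : ∃ W2 : Set E, W2.Finite ∧ W1 ⊆ W2 ∧
      ∀ i x, it (g i) p x ∈ W0 → x ∈ W2 :=
    ⟨_, f1.union (Set.finite_iUnion fun i => f0.biUnion fun τ _ => fin_pre (hm i) (hd i) p τ),
      Set.subset_union_left, fun i x h => .inr (Set.mem_iUnion.2 ⟨i, Set.mem_biUnion h rfl⟩)⟩
  obtain ⟨L, _, _, hL⟩ := exists_gal f2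
  obtain ⟨φ, hφ⟩ := frobex L hp
  have F1 : ∀ x ∈ W2, A1.valuation x ≤ 1 → φ x = x → Rt A1 x := fun x hx h e =>
    (rt_iff hp h).2 (by simpa only [e] using (hφ x (hL x hx) h).symm)
  have R1 : ∀ x ∈ W0, Rt A1 x := fun x hx => (r1 x (l1 hx)).1 (s0 x hx)
  have F2 : ∀ x ∈ W0, φ x = x := fun x hx => d1 φ x (l1 hx) x (l1 hx)
    ((hφ x (hL x (l2 (l1 hx))) (i1 x (l1 hx))).trans ((rt_iff hp (i1 x (l1 hx))).1 (R1 x hx)))
  obtain ⟨B3, u3⟩ := unit_big (Set.finite_iUnion fun i =>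
    ((dp9_orb (hd i)).image fun z => z.2 - z.1).union
      (((Set.finite_le_nat p).image fun m => it (g i) m (a i)).image2 (· - ·) (dp9_fin (hd i))))
  obtain ⟨A, b3, r3⟩ := frob f2 φ (max B B3)
  replace u3 := u3 A (b3.mono (le_max_right _ _))
  have R3 : ∀ x ∈ W0, Rt A x := fun x hx => (r3 x (l2 (l1 hx))).1 (F2 x hx)
  have P3 : ∀ i, IP A (g i) := fun i k => (R3 _ (c0 i k)).int
  refine ⟨A, b3.mono (le_max_left _ _), fun i γ hγ => ⟨fun np k hk hc => ?_, fun hp' wa m hc => ?_⟩⟩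
  · have rγ := R3 γ (k0 i γ hγ)
    by_cases w : Wand (g i) γ
    · have mul : ∀ j, Cg A (it (g i) (k * j) γ) γ := fun j => by
        induction j with
        | zero => exact Cg.refl A γ
        | succ j ih =>
          rw [mul_add, mul_one, add_comm, it_add]; exact (ih.it (P3 i) rγ.int k).trans hc
      have h := mul (n i γ)
      obtain ⟨e, he⟩ := Nat.exists_eq_add_of_le (Nat.le_mul_of_pos_left (n i γ) hk)
      rw [he, it_add] at h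
      obtain ⟨x, ex, cx⟩ := near_pre (P3 i) (hm i) (hd i) rγ.int h
      have x1 := t1 i γ x hγ ex
      exact hn i γ hγ w x ex ((r1 x x1).2 (F1 x (l2 x1) (i1 x x1) ((r3 x (l2 x1)).2
        ((rγ.it (fun k => R3 _ (c0 i k)) e).cg cx.symm))))
    · exact np ⟨k, hk, dp9_eq (u3 _ (Set.mem_iUnion.2
        ⟨i, .inl ⟨(γ, _), ⟨hγ, w, k, rfl⟩, rfl⟩⟩)) hc⟩
  · have ex : ∃ m, ∃ c ∈ dp9Cy (g i), Cg A (it (g i) m (a i)) c :=
      ⟨m, γ, ⟨γ, ⟨hγ, fun w => w.not_per hp'⟩, hp', 0, rfl⟩, hc⟩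
    obtain ⟨c, hc1, hc2⟩ := Nat.find_spec ex
    have big : p < Nat.find ex := not_le.1 fun h => dp9_ne wa hc1 _ (dp9_eq (u3 _
      (Set.mem_iUnion.2 ⟨i, .inr ⟨_, ⟨_, h, rfl⟩, c, hc1, rfl⟩⟩)) hc2)
    obtain ⟨e, he⟩ := Nat.exists_eq_add_of_lt big
    have mn := Nat.find_min ex (m := p + e) (by omega)
    rw [he, add_comm, it_add] at hc2
    obtain ⟨τ, eτ, cτ⟩ := near_pre (P3 i) (hm i) (hd i) (R3 c (t0 i c (dp9_it hc1 1))).int hc2
    have τ0 := t0 i τ (eτ ▸ hc1)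
    have nτ : τ ∉ dp9Cy (g i) := fun h => mn ⟨τ, h, cτ⟩
    rw [it_add] at cτ
    obtain ⟨x, ex', cx⟩ := near_pre (P3 i) (hm i) (hd i) (R3 τ τ0).int cτ
    have x2 := t2 i x (ex' ▸ τ0)
    have rx := F1 x x2 ((P1 i).pre (hm i) (hd i) (n := p) (ex' ▸ i1 τ (l1 τ0)))
      ((r3 x x2).2 (((R3 _ (a0 i)).it (fun k => R3 _ (c0 i k)) e).cg cx.symm))
    have ru := fun j => rx.it (fun k => R1 _ (c0 i k)) j
    obtain ⟨j, l, jl, lp, cg⟩ := pigeon hp _ ru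
    have h := cg.it (P1 i) (ru l).int (p - j)
    obtain ⟨q, rfl⟩ := Nat.exists_eq_add_of_lt jl
    rw [← it_add, ← it_add, show p - j + j = p by omega,
      show p - j + (j + q + 1) = q + 1 + p by omega, it_add, ex', it_add] at h
    have hq := dp9_it (eτ ▸ hc1 : it (g i) 1 τ ∈ dp9Cy (g i)) q
    have e1 : τ = it (g i) q (it (g i) 1 τ) := d1 1 τ (l1 τ0) _ (l1 (t0 i _ (dp9_it hq 1))) h
    exact nτ (by rwa [← e1] at hq)

end Pool.Agent.P.MP_68214b_ag.DP
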