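import Pool.Agent.P.MP_68214b_ag.DSA2

open Polynomial Filter Asymptotics NumberField Topology

namespace Pool.Agent.P.MP_68214b_ag.DS

theorem dsa3_pow {p : ℂ[X]} (hp : p ≠ 0) (c : ℂ) (n : ℕ) :
    rootMultiplicity c (p ^ n) = n * rootMultiplicity c p := by
  induction n with
  | zero => simp
  | succ n ih =>
    rw [pow_succ, rootMultiplicity_mul (mul_ne_zero (pow_ne_zero n hp) hp), ih]
    ring

open Classical in
theorem dsa3_prod (E : Finset ℂ) (k : ℂ → ℕ) (c : ℂ) :
    rootMultiplicity c (∏ a ∈ E, (X - C a) ^ k a) = if c ∈ E then k c else 0 := by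
  induction E using Finset.induction_on with
  | empty => simp
  | insert a E ha ih =>
    have h1 : (∏ a ∈ E, (X - C a) ^ k a : ℂ[X]) ≠ 0 :=
      (monic_prod_of_monic _ _ fun b _ => (monic_X_sub_C b).pow _).ne_zero
    rw [Finset.prod_insert ha,
      rootMultiplicity_mul (mul_ne_zero (pow_ne_zero _ (X_sub_C_ne_zero a)) h1), ih,
      dsa3_pow (X_sub_C_ne_zero a), rootMultiplicity_X_sub_C]
    by_cases h : c = a
    · subst h
      simp [ha]
    · simp [h]

theorem dsa3_nat {g : ℂ[X]} (hd : 2 ≤ g.natDegree) (ht : NoTot g) (h : Orbi g) :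
    ∃ (n : ℕ) (μ : ℂ → ℕ), {c | μ c ≠ n}.Finite ∧ (∀ c, 0 < μ c) ∧ (∀ c, μ c ≤ n) ∧ (∀ c, μ c ∣ n) ∧
      ∀ c, μ c = em g c * μ (g.eval c) := by
  obtain ⟨e, ν, he, hf, hν⟩ := h
  have hem : ∀ c, (1 : ℤ) ≤ em g c := fun c => by exact_mod_cast em_pos (by omega) c
  have key : ∀ P : ℤ → Prop, P e → (∀ c, P (ν c) → P (ν (g.eval c))) → ∀ c, P (ν c) := by
    intro P h1 h2 c
    by_contra h3
    obtain ⟨a, h4, h5⟩ := ht {c | ¬ P (ν c)} (hf.subset fun a ha h6 => ha (h6 ▸ h1)) ⟨c, h3⟩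
    exact h4 (h2 a (not_not.mp h5))
  have h1 : ∀ c, 0 < ν c := key (0 < ·) he fun c hc => by
    have h2 := hem c
    rw [hν c] at hc
    exact (mul_pos_iff_of_pos_left (by omega)).mp hc
  have h2 : ∀ c, ν c ≤ e := key (· ≤ e) le_rfl fun c hc => by
    have h3 := hem c
    have h4 := h1 (g.eval c)
    rw [hν c] at hc
    nlinarith
  have h3 : ∀ c, ν c ∣ e := key (· ∣ e) dvd_rfl fun c hc => by
    rw [hν c] at hc
    exact (dvd_mul_left _ _).trans hc
  have h4 : ∀ c, ((ν c).toNat : ℤ) = ν c := fun c => Int.toNat_of_nonneg (h1 c).le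
  have h5 : (e.toNat : ℤ) = e := Int.toNat_of_nonneg he.le
  refine ⟨e.toNat, fun c => (ν c).toNat, hf.subset fun c hc h6 => hc (by simp only [h6]),
    fun c => ?_, fun c => Int.toNat_le_toNat (h2 c), fun c => ?_, fun c => ?_⟩
  · have := h1 c
    simp only
    omega
  · rw [← Int.natCast_dvd_natCast, h4, h5]
    exact h3 c
  · apply Nat.cast_injective (R := ℤ)
    push_cast
    rw [h4, h4]
    exact hν c

theorem exc_of_orbi {g : ℂ[X]} (hd : 2 ≤ g.natDegree) (ht : NoTot g) (h : Orbi g) : Exc g := by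
  classical
  obtain ⟨n, μ, hf, h0, hle, hdv, hμ⟩ := dsa3_nat hd ht h
  have hg : 0 < g.natDegree := by omega
  have hn : 0 < n := (h0 0).trans_le (hle 0)
  have hg0 : g ≠ 0 := ne_zero_of_natDegree_gt hg
  have hg' : derivative g ≠ 0 := fun h1 => by
    have := derivative_eq_zero.mp h1
    omega
  have hcomp : ∀ a : ℂ[X], a.Monic → a.comp g ≠ 0 := fun a ha h1 => by
    have h2 := leadingCoeff_comp (p := a) hg.ne'
    rw [h1, leadingCoeff_zero, ha.leadingCoeff, one_mul] at h2
    exact pow_ne_zero _ (leadingCoeff_ne_zero.mpr hg0) h2.symm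
  have hmul : ∀ c, em g c * (n - μ (g.eval c)) = n - μ c + n * rootMultiplicity c (derivative g) := by
    intro c
    have h1 := rm_der hg c
    have h2 := hle c
    have h3 := hμ c
    rw [Nat.mul_sub, ← h3, ← h1]
    have h4 : (rootMultiplicity c (derivative g) + 1) * n =
        n + n * rootMultiplicity c (derivative g) := by ring
    omega
  set E := hf.toFinset with hE
  have hmem : ∀ c, c ∈ E ↔ μ c ≠ n := fun c => hf.mem_toFinset
  set Ψ : ℂ[X] := ∏ a ∈ E, (X - C a) ^ (n - μ a) with hΨ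
  have hΨm : Ψ.Monic := monic_prod_of_monic _ _ fun b _ => (monic_X_sub_C b).pow _
  have hr : ∀ c, rootMultiplicity c Ψ = n - μ c := by
    intro c
    rw [hΨ, dsa3_prod E fun a => n - μ a]
    split_ifs with h1
    · rfl
    · rw [hmem, not_not] at h1
      omega
  have hq : Ψ * derivative g ^ n ≠ 0 := mul_ne_zero hΨm.ne_zero (pow_ne_zero _ hg')
  have h1 := eq_of_rm (hcomp Ψ hΨm) hq fun c => by
    rw [rm_comp hg hΨm.ne_zero, rootMultiplicity_mul hq, dsa3_pow hg', hr, hr, hmul]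
  have h2 := congrArg natDegree h1
  rw [natDegree_C_mul (leadingCoeff_ne_zero.mpr hq),
    natDegree_C_mul (leadingCoeff_ne_zero.mpr (hcomp Ψ hΨm)), natDegree_comp,
    natDegree_mul hΨm.ne_zero (pow_ne_zero _ hg'), natDegree_pow, natDegree_derivative] at h2
  have h3 : Ψ.natDegree = n := by
    obtain ⟨d, hd'⟩ : ∃ d, g.natDegree = d + 1 := ⟨g.natDegree - 1, by omega⟩
    rw [hd', Nat.add_sub_cancel, mul_add, mul_one, add_comm] at h2
    exact Nat.eq_of_mul_eq_mul_right (by omega) (Nat.add_left_cancel h2)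
  have h4 : ∑ a ∈ E, (n - μ a) = n := by
    rw [hΨ, natDegree_prod_of_monic _ _ fun b _ => (monic_X_sub_C b).pow _] at h3
    simpa using h3
  have h5 : ∀ a ∈ E, 2 * μ a ≤ n := by
    intro a ha
    obtain ⟨t, ht'⟩ := hdv a
    have h6 := (hmem a).1 ha
    have h7 : 2 ≤ t := by
      rcases t with _ | _ | t
      · omega
      · omega
      · omega
    rw [ht', mul_comm]
    exact Nat.mul_le_mul_left _ h7
  have h6 : E.card ≤ 2 := by
    have h7 : E.card • n ≤ ∑ a ∈ E, 2 * (n - μ a) :=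
      Finset.card_nsmul_le_sum _ _ _ fun a ha => by have := h5 a ha; omega
    rw [← Finset.mul_sum, h4, smul_eq_mul] at h7
    exact Nat.le_of_mul_le_mul_right h7 hn
  have h7 : E.card = 2 := by
    rcases Nat.lt_or_ge E.card 2 with h8 | h8
    · exfalso
      rcases Nat.lt_or_ge E.card 1 with h9 | h9
      · rw [Finset.card_eq_zero.mp (by omega : E.card = 0), Finset.sum_empty] at h4
        omega
      · obtain ⟨a, ha⟩ := Finset.card_eq_one.mp (by omega : E.card = 1)
        rw [ha, Finset.sum_singleton] at h4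
        have := h0 a
        omega
    · omega
  obtain ⟨a, b, hab, hE2⟩ := Finset.card_eq_two.mp h7
  have ha := h5 a (by simp [hE2])
  have hb := h5 b (by simp [hE2])
  rw [hE2, Finset.sum_pair hab] at h4
  set P : ℂ[X] := ∏ c ∈ E, (X - C c) ^ 1 with hP
  have hPm : P.Monic := monic_prod_of_monic _ _ fun b _ => (monic_X_sub_C b).pow _
  have hrP : ∀ c, μ a * rootMultiplicity c P = n - μ c := by
    intro c
    rw [hP, dsa3_prod E fun _ => 1]
    split_ifs with h8
    · rw [hE2, Finset.mem_insert, Finset.mem_singleton] at h8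
      rcases h8 with rfl | rfl <;> omega
    · rw [hmem, not_not] at h8
      omega
  have hq' : P * derivative g ^ 2 ≠ 0 := mul_ne_zero hPm.ne_zero (pow_ne_zero _ hg')
  have h8 := eq_of_rm (hcomp P hPm) hq' fun c => by
    refine Nat.eq_of_mul_eq_mul_left (h0 a) ?_
    rw [rm_comp hg hPm.ne_zero, rootMultiplicity_mul hq', dsa3_pow hg', mul_left_comm, hrP, mul_add,
      hrP, hmul, ← mul_assoc, show μ a * 2 = n by omega]
  have hP2 : P = (X - C a) * (X - C b) := by
    rw [hP, hE2, Finset.prod_pair hab, pow_one, pow_one]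
  have hPd : P.natDegree = 2 := by
    rw [hP2, natDegree_mul (X_sub_C_ne_zero a) (X_sub_C_ne_zero b), natDegree_X_sub_C,
      natDegree_X_sub_C]
  have hl : (derivative g).leadingCoeff = g.leadingCoeff * g.natDegree := by
    obtain ⟨d, hd'⟩ : ∃ d, g.natDegree = d + 1 := ⟨g.natDegree - 1, by omega⟩
    rw [leadingCoeff, natDegree_derivative, coeff_derivative, leadingCoeff, hd', Nat.add_sub_cancel]
    push_cast
    rfl
  rw [leadingCoeff_mul, leadingCoeff_pow, leadingCoeff_comp hg.ne', hPm.leadingCoeff, hPd, hl, hP2,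
    one_mul, one_mul, mul_pow, C_mul, mul_assoc] at h8
  have h9 := mul_left_cancel₀ (C_ne_zero.mpr (pow_ne_zero 2 (leadingCoeff_ne_zero.mpr hg0))) h8
  refine ⟨a + b, a * b, ?_⟩
  simp only [mul_comp, sub_comp, X_comp, C_comp] at h9
  rw [C_add, C_mul]
  linear_combination h9

theorem ns_of {g : ℂ[X]} (hd : 2 ≤ g.natDegree) (h : ¬ Exc g) : NS g :=
  ⟨noTot_of hd h, fun h' => h (exc_of_orbi hd (noTot_of hd h) h')⟩

end Pool.Agent.P.MP_68214b_ag.DS
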