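import Pool.Agent.P.MP_68214b_ag.DSDef

open Polynomial Filter Asymptotics NumberField Topology

namespace Pool.Agent.P.MP_68214b_ag.DS

theorem dsa4_E (h : ℂ[X]) (k : ℕ) : (X * derivative h).coeff k = k * h.coeff k := by
  cases k with
  | zero => simp
  | succ k => rw [coeff_X_mul, coeff_derivative]; push_cast; ring

theorem dsa4_zero {ε : ℂ} {d : ℕ} {h : ℂ[X]} (hd : h.degree < d)
    (e : C ((d : ℂ) ^ 2) * h = X * derivative h + (X ^ 2 - C ε) * derivative (derivative h)) :
    h = 0 := by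
  by_contra h0
  have hk : h.natDegree < d := (natDegree_lt_iff_degree_lt h0).2 hd
  have e' : C ((d : ℂ) ^ 2) * h =
      X * derivative (X * derivative h) - C ε * derivative (derivative h) := by
    rw [e, derivative_mul, derivative_X]; ring
  have := congrArg (coeff · h.natDegree) e'
  simp only [coeff_C_mul, coeff_sub, dsa4_E, coeff_derivative] at this
  rw [coeff_eq_zero_of_natDegree_lt (p := h) (n := h.natDegree + 1 + 1) (by omega)] at this
  have h1 : ((d : ℂ) ^ 2 - (h.natDegree : ℂ) ^ 2) * h.coeff h.natDegree = 0 := by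
    linear_combination this
  rcases mul_eq_zero.1 h1 with h2 | h2
  · have : d ^ 2 = h.natDegree ^ 2 := by exact_mod_cast sub_eq_zero.1 h2
    have := Nat.pow_lt_pow_left hk (n := 2) (by norm_num)
    omega
  · exact h0 (leadingCoeff_eq_zero.1 h2)

theorem dsa4_mul {ε : ℂ} {d : ℕ} {h T : ℂ[X]} (hd : h.natDegree = d) (hT : T.natDegree = d)
    (h0 : h ≠ 0) (T0 : T ≠ 0)
    (e : C ((d : ℂ) ^ 2) * h = X * derivative h + (X ^ 2 - C ε) * derivative (derivative h))
    (e' : C ((d : ℂ) ^ 2) * T = X * derivative T + (X ^ 2 - C ε) * derivative (derivative T)) :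
    ∃ c : ℂ, h = C c * T := by
  have hl := leadingCoeff_ne_zero.2 T0
  have hc : h.leadingCoeff / T.leadingCoeff ≠ 0 := div_ne_zero (leadingCoeff_ne_zero.2 h0) hl
  refine ⟨h.leadingCoeff / T.leadingCoeff, sub_eq_zero.1 (dsa4_zero (ε := ε) (d := d) ?_ ?_)⟩
  · rw [← hd, ← degree_eq_natDegree h0]
    refine degree_sub_lt ?_ h0 ?_
    · rw [degree_C_mul hc, degree_eq_natDegree h0, degree_eq_natDegree T0, hd, hT]
    · rw [leadingCoeff_mul, leadingCoeff_C, div_mul_cancel₀ _ hl]
  · simp only [derivative_sub, derivative_C_mul]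
    linear_combination e - C (h.leadingCoeff / T.leadingCoeff) * e'

theorem dsa4_norm {g : ℂ[X]} (hd : 2 ≤ g.natDegree) {s p α ε : ℂ} (hα : α ≠ 0)
    (hε : α ^ 2 * ε = s ^ 2 / 4 - p)
    (e : C ((g.natDegree : ℂ) ^ 2) * (g ^ 2 - C s * g + C p) =
      (X ^ 2 - C s * X + C p) * derivative g ^ 2) :
    ∃ h : ℂ[X], g.comp (C α * X + C (s / 2)) = C α * h + C (s / 2) ∧ h.natDegree = g.natDegree ∧
      C ((g.natDegree : ℂ) ^ 2) * (h ^ 2 - C ε) = (X ^ 2 - C ε) * derivative h ^ 2 ∧
      C ((g.natDegree : ℂ) ^ 2) * h =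
        X * derivative h + (X ^ 2 - C ε) * derivative (derivative h) := by
  have hi : (C α : ℂ[X]) * C α⁻¹ = 1 := by rw [← C_mul, mul_inv_cancel₀ hα, C_1]
  have hα' : (C α : ℂ[X]) ≠ 0 := C_ne_zero.2 hα
  obtain ⟨h, h1⟩ : ∃ h : ℂ[X], g.comp (C α * X + C (s / 2)) = C α * h + C (s / 2) :=
    ⟨C α⁻¹ * (g.comp (C α * X + C (s / 2)) - C (s / 2)), by
      rw [← mul_assoc, hi, one_mul, sub_add_cancel]⟩
  have h2 : h.natDegree = g.natDegree := by
    have := congrArg natDegree h1
    rwa [natDegree_comp, natDegree_linear hα, mul_one, natDegree_add_C, natDegree_C_mul hα,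
      eq_comm] at this
  have h3 : (derivative g).comp (C α * X + C (s / 2)) = derivative h := by
    have := congrArg derivative h1
    rw [derivative_comp] at this
    simp only [derivative_add, derivative_C_mul, derivative_X, derivative_C, mul_one,
      add_zero] at this
    exact mul_left_cancel₀ hα' this
  have h4 : C ((g.natDegree : ℂ) ^ 2) * (h ^ 2 - C ε) = (X ^ 2 - C ε) * derivative h ^ 2 := by
    have := congrArg (·.comp (C α * X + C (s / 2))) e
    simp only [mul_comp, add_comp, sub_comp, pow_comp, C_comp, X_comp, h1, h3] at this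
    have a1 : (C s : ℂ[X]) = 2 * C (s / 2) := by
      rw [show (2 : ℂ[X]) = C 2 from rfl, ← C_mul]; congr 1; ring
    have a2 : (C p : ℂ[X]) = C (s / 2) ^ 2 - C α ^ 2 * C ε := by
      rw [← C_pow, ← C_pow, ← C_mul, ← C_sub, hε]; congr 1; ring
    rw [a1, a2] at this
    refine mul_left_cancel₀ (pow_ne_zero 2 hα') ?_
    linear_combination this
  refine ⟨h, h1, h2, h4, ?_⟩
  have h5 : derivative h ≠ 0 := fun z => by
    have := natDegree_eq_zero_of_derivative_eq_zero z
    omega
  have := congrArg derivative h4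
  simp only [derivative_mul, derivative_sub, derivative_C, derivative_sq, derivative_X, zero_mul,
    zero_add, sub_zero, mul_one] at this
  refine mul_left_cancel₀ (mul_ne_zero (C_ne_zero.2 (two_ne_zero (α := ℂ))) h5) ?_
  linear_combination this

theorem special_of_exc {g : ℂ[X]} (hd : 2 ≤ g.natDegree) (h : Exc g) : Special g := by
  obtain ⟨s, p, e⟩ := h
  have ne : ∀ h : ℂ[X], h.natDegree = g.natDegree → h ≠ 0 := fun h e z => by
    rw [z, natDegree_zero] at e
    omega
  by_cases hD : s ^ 2 / 4 - p = 0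
  · obtain ⟨h, h1, h2, -, h4⟩ := dsa4_norm hd one_ne_zero (ε := 0) (by rw [hD, mul_zero]) e
    obtain ⟨d, hd'⟩ : ∃ d, g.natDegree = d + 2 := ⟨g.natDegree - 2, by omega⟩
    obtain ⟨c, hc⟩ := dsa4_mul h2 (natDegree_X_pow g.natDegree) (ne h h2) (pow_ne_zero _ X_ne_zero)
      h4 (by
        rw [hd']
        simp only [derivative_X_pow, derivative_C_mul, Nat.add_sub_cancel, map_pow, map_natCast,
          show d + 2 - 1 = d + 1 from rfl, derivative_mul, derivative_natCast, C_0]
        push_cast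
        ring)
    have c0 : c ≠ 0 := fun z => ne h h2 (by rw [hc, z, C_0, zero_mul])
    obtain ⟨α, hα⟩ := IsAlgClosed.exists_pow_nat_eq c⁻¹ (n := d + 1) (by omega)
    have α0 : α ≠ 0 := fun z => inv_ne_zero c0 (by rw [← hα, z, zero_pow (by omega)])
    refine ⟨α, s / 2, α0, _, Or.inl rfl, ?_⟩
    have := congrArg (·.comp (C α * X)) h1
    simp only [comp_assoc, hc, mul_comp, add_comp, pow_comp, C_comp, X_comp, C_1, one_mul,
      one_comp] at this
    rw [this, mul_pow, ← mul_assoc, ← C_pow, ← C_mul, hd', pow_succ α, hα, ← mul_assoc,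
      mul_inv_cancel₀ c0, one_mul]
  · obtain ⟨α, hα⟩ := IsAlgClosed.exists_pow_nat_eq (s ^ 2 / 4 - p) (n := 2) (by omega)
    have α0 : α ≠ 0 := fun z => hD (by rw [← hα, z, zero_pow (by omega)])
    obtain ⟨h, h1, h2, h3, h4⟩ := dsa4_norm hd α0 (ε := 1) (by rw [mul_one, hα]) e
    have hT : (Chebyshev.T ℂ g.natDegree).natDegree = g.natDegree := by
      rw [Chebyshev.natDegree_T, Int.natAbs_natCast]
    obtain ⟨c, hc⟩ := dsa4_mul h2 hT (ne h h2) (ne _ hT) h4 (by
      have := Chebyshev.one_sub_X_sq_mul_derivative_derivative_T_eq_poly_in_T (R := ℂ)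
        (g.natDegree : ℤ)
      simp only [Function.iterate_succ, Function.iterate_zero, Function.comp_apply, id,
        Int.cast_natCast] at this
      rw [map_pow, map_natCast, C_1]
      linear_combination this)
    have := congrArg (eval 1) h3
    simp only [hc, eval_mul, eval_sub, eval_pow, eval_C, eval_X, Chebyshev.T_eval_one, one_pow,
      sub_self, zero_mul, mul_one] at this
    have d0 : (g.natDegree : ℂ) ^ 2 ≠ 0 := pow_ne_zero _ (Nat.cast_ne_zero.2 (by omega))
    rcases sq_eq_one_iff.1 (sub_eq_zero.1 ((mul_eq_zero.1 this).resolve_left d0)) with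
      rfl | rfl
    · exact ⟨α, s / 2, α0, _, Or.inr (Or.inl rfl), by rw [h1, hc, C_1, one_mul]⟩
    · exact ⟨α, s / 2, α0, _, Or.inr (Or.inr rfl), by rw [h1, hc, C_neg, C_1, neg_one_mul]⟩

end Pool.Agent.P.MP_68214b_ag.DS
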