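import Pool.Agent.P.MP_68214b_ag.DSA3
import Pool.Agent.P.MP_68214b_ag.DSA4

open Polynomial Filter Asymptotics NumberField Topology

namespace Pool.Agent.P.MP_68214b_ag.DS

theorem Exc.map {K L : Type*} [Field K] [Field L] (σ : K →+* L) {f : K[X]} (h : Exc f) :
    Exc (f.map σ) := by
  obtain ⟨s, p, h⟩ := h
  refine ⟨σ s, σ p, ?_⟩
  have := congrArg (Polynomial.map σ) h
  simp only [Polynomial.map_mul, Polynomial.map_add, Polynomial.map_sub, Polynomial.map_pow,
    map_C, map_X, map_pow σ, map_natCast σ] at this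
  rw [natDegree_map, derivative_map]
  exact this

theorem exc_of_map {K L : Type*} [Field K] [CharZero K] [Field L] (σ : K →+* L) {f : K[X]}
    (hd : 2 ≤ f.natDegree) (h : Exc (f.map σ)) : Exc f := by
  obtain ⟨s, p, h⟩ := h
  let _ := σ.toAlgebra
  obtain ⟨l, hl⟩ := LinearMap.exists_leftInverse_of_injective (Algebra.linearMap K L)
    (LinearMap.ker_eq_bot.2 σ.injective)
  have h1 : ∀ x : K, l (σ x) = x := fun x => LinearMap.congr_fun hl x
  have h2 : ∀ (y : L) (x : K), l (y * σ x) = l y * x := fun y x => by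
    rw [mul_comm, mul_comm (l y), ← smul_eq_mul x (l y), ← map_smul]
    rfl
  have h3 : (C ((f.natDegree : K) ^ 2) * f ^ 2 - X ^ 2 * derivative f ^ 2).map σ =
      C s * (C ((f.natDegree : K) ^ 2) * f - X * derivative f ^ 2).map σ +
        C p * (derivative f ^ 2 - C ((f.natDegree : K) ^ 2)).map σ := by
    rw [natDegree_map, derivative_map] at h
    simp only [Polynomial.map_mul, Polynomial.map_sub, Polynomial.map_pow,
      map_C, map_X, map_pow σ, map_natCast σ]
    linear_combination h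
  have h4 : C ((f.natDegree : K) ^ 2) * f ^ 2 - X ^ 2 * derivative f ^ 2 =
      C (l s) * (C ((f.natDegree : K) ^ 2) * f - X * derivative f ^ 2) +
        C (l p) * (derivative f ^ 2 - C ((f.natDegree : K) ^ 2)) := by
    ext i
    have := congrArg (fun q => l (q.coeff i)) h3
    simp only [coeff_add, coeff_C_mul, coeff_map, map_add, h1, h2] at this
    rw [coeff_add, coeff_C_mul, coeff_C_mul, this]
  exact ⟨l s, l p, by linear_combination h4⟩

theorem special_scale {f : ℂ[X]} {κ : ℂ} (hκ : κ ≠ 0)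
    (h : Special (C κ * f.comp (C κ⁻¹ * X))) : Special f := by
  obtain ⟨a, b, ha, T, hT, h⟩ := h
  have hd : (C κ * f.comp (C κ⁻¹ * X)).natDegree = f.natDegree := by
    rw [natDegree_C_mul hκ, natDegree_comp, natDegree_C_mul_X _ (inv_ne_zero hκ), mul_one]
  rw [hd] at hT
  refine ⟨κ⁻¹ * a, κ⁻¹ * b, mul_ne_zero (inv_ne_zero hκ) ha, T, hT, ?_⟩
  have e : (C κ⁻¹ : ℂ[X]) * C κ = 1 := by rw [← C_mul, inv_mul_cancel₀ hκ, C_1]
  rw [mul_comp, C_comp, comp_assoc, mul_comp, C_comp, X_comp, mul_add, ← mul_assoc, ← C_mul,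
    ← C_mul] at h
  generalize f.comp (C (κ⁻¹ * a) * X + C (κ⁻¹ * b)) = W at h ⊢
  rw [C_mul, C_mul]
  linear_combination C κ⁻¹ * h - W * e

theorem ns_all {K : Type*} [Field K] [CharZero K] (ι : K →+* ℂ) {f : K[X]} (hd : 2 ≤ f.natDegree)
    (h : ¬ Special (f.map ι)) (σ : K →+* ℂ) : NS (f.map σ) := by
  refine ns_of (by rwa [natDegree_map]) fun h1 => h ?_
  exact special_of_exc (by rwa [natDegree_map]) ((exc_of_map σ hd h1).map ι)

end Pool.Agent.P.MP_68214b_ag.DS
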