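import Pool.Agent.P.MP_68214b_ag.DSDef

namespace Pool.Agent.P.MP_68214b_ag.DS

section formal

open PowerSeries Finset

variable {K : Type*} [Field K] [CharZero K]

/-- left side of the Boettcher equation -/
noncomputable def dsb1_F (f : Polynomial K) (p : K⟦X⟧) : K⟦X⟧ :=
  ∑ j ∈ range (f.natDegree + 1), C (f.coeff j) * X ^ (f.natDegree - j) * p ^ j

omit [CharZero K] in
theorem dsb1_F_split (f : Polynomial K) (hf : f.Monic) (p : K⟦X⟧) :
    dsb1_F f p = p ^ f.natDegree + X * ∑ j ∈ range f.natDegree,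
      C (f.coeff j) * X ^ (f.natDegree - 1 - j) * p ^ j := by
  unfold dsb1_F
  rw [sum_range_succ, hf.coeff_natDegree, map_one, Nat.sub_self, pow_zero, one_mul, one_mul,
    add_comm, mul_sum]
  congr 1
  refine sum_congr rfl fun j hj => ?_
  have hj' := mem_range.1 hj
  have : f.natDegree - j = f.natDegree - 1 - j + 1 := by omega
  rw [this, pow_succ]; ring

omit [CharZero K] in
theorem dsb1_F_dvd (f : Polynomial K) (p q : K⟦X⟧) : p - q ∣ dsb1_F f p - dsb1_F f q := by
  unfold dsb1_F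
  rw [← sum_sub_distrib]
  refine dvd_sum fun j _ => ?_
  rw [← mul_sub]
  exact Dvd.dvd.mul_left (sub_dvd_pow_sub_pow _ _ _) _

omit [CharZero K] in
theorem dsb1_expand_dvd {d : ℕ} (hd : d ≠ 0) {n : ℕ} {a : K⟦X⟧} (h : X ^ n ∣ a) :
    X ^ (d * n) ∣ expand d hd a := by
  obtain ⟨c, rfl⟩ := h
  rw [map_mul, map_pow, expand_X, ← pow_mul]
  exact Dvd.intro _ rfl

/-- the contraction -/
noncomputable def dsb1_Psi (f : Polynomial K) (hd : f.natDegree ≠ 0) (p : K⟦X⟧) : K⟦X⟧ :=
  p - C ((f.natDegree : K)⁻¹) * (dsb1_F f p - expand f.natDegree hd p)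

omit [CharZero K] in
theorem dsb1_Psi_const (f : Polynomial K) (hf : f.Monic) (hd : f.natDegree ≠ 0) (p : K⟦X⟧)
    (hp : constantCoeff p = 1) : constantCoeff (dsb1_Psi f hd p) = 1 := by
  unfold dsb1_Psi
  rw [dsb1_F_split f hf]
  simp [hp]

theorem dsb1_Psi_dvd (f : Polynomial K) (hf : f.Monic) (hd : f.natDegree ≠ 0) (h2 : 2 ≤ f.natDegree)
    (p q : K⟦X⟧) (hp : constantCoeff p = 1) (hq : constantCoeff q = 1) {n : ℕ} (hn : 1 ≤ n)
    (h : X ^ n ∣ p - q) : X ^ (n + 1) ∣ dsb1_Psi f hd p - dsb1_Psi f hd q := by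
  set d := f.natDegree with hdd
  have hdK : (d : K) ≠ 0 := Nat.cast_ne_zero.2 hd
  set S : K⟦X⟧ := ∑ i ∈ range d, p ^ i * q ^ (d - 1 - i) with hS
  have hgeo : S * (p - q) = p ^ d - q ^ d := geom_sum₂_mul p q d
  have hS1 : X ∣ 1 - C ((d : K)⁻¹) * S := by
    rw [X_dvd_iff]
    simp [hS, hp, hq, hdK]
  set A : K⟦X⟧ → K⟦X⟧ := fun p => ∑ j ∈ range d, C (f.coeff j) * X ^ (d - 1 - j) * p ^ j with hA
  have hAd : p - q ∣ A p - A q := by
    simp only [hA]
    rw [← sum_sub_distrib]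
    refine dvd_sum fun j _ => ?_
    rw [← mul_sub]
    exact Dvd.dvd.mul_left (sub_dvd_pow_sub_pow _ _ _) _
  have key : dsb1_Psi f hd p - dsb1_Psi f hd q = (p - q) * (1 - C ((d : K)⁻¹) * S)
      - C ((d : K)⁻¹) * ((A p - A q) * X) + C ((d : K)⁻¹) * expand d hd (p - q) := by
    unfold dsb1_Psi
    rw [dsb1_F_split f hf, dsb1_F_split f hf, map_sub]
    linear_combination (C ((d : K)⁻¹)) * hgeo
  rw [key]
  refine dvd_add (dvd_sub ?_ ?_) ?_
  · rw [pow_succ]; exact mul_dvd_mul h hS1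
  · refine Dvd.dvd.mul_left ?_ _
    rw [pow_succ]; exact mul_dvd_mul (h.trans hAd) dvd_rfl
  · refine Dvd.dvd.mul_left ?_ _
    refine (pow_dvd_pow _ ?_).trans (dsb1_expand_dvd hd h)
    nlinarith

/-- the formal Boettcher series -/
theorem dsb1_formal (f : Polynomial K) (hf : f.Monic) (hd : f.natDegree ≠ 0)
    (h2 : 2 ≤ f.natDegree) :
    ∃ p : K⟦X⟧, constantCoeff p = 1 ∧ dsb1_F f p = expand f.natDegree hd p := by
  set s : ℕ → K⟦X⟧ := fun k => (dsb1_Psi f hd)^[k] 1 with hs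
  have hsucc : ∀ k, s (k + 1) = dsb1_Psi f hd (s k) := fun k => by
    simp only [hs]; rw [Function.iterate_succ_apply']
  have hc : ∀ k, constantCoeff (s k) = 1 := by
    intro k
    induction k with
    | zero => simp [hs]
    | succ k ih => rw [hsucc]; exact dsb1_Psi_const f hf hd _ ih
  have hstep : ∀ k, X ^ (k + 1) ∣ s (k + 1) - s k := by
    intro k
    induction k with
    | zero => rw [zero_add, pow_one, X_dvd_iff, map_sub, hc, hc, sub_self]
    | succ k ih =>
      have := dsb1_Psi_dvd f hf hd h2 _ _ (hc (k + 1)) (hc k) (by omega) ih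
      rwa [← hsucc, ← hsucc] at this
  have hle : ∀ k m, k ≤ m → X ^ (k + 1) ∣ s m - s k := by
    intro k m hkm
    induction m, hkm using Nat.le_induction with
    | base => simp
    | succ m hm ih =>
      have : s (m + 1) - s k = (s (m + 1) - s m) + (s m - s k) := by ring
      rw [this]
      exact dvd_add ((pow_dvd_pow _ (by omega)).trans (hstep m)) ih
  set p : K⟦X⟧ := mk fun n => coeff n (s n) with hp
  have hpk : ∀ k, X ^ (k + 1) ∣ p - s k := by
    intro k
    rw [X_pow_dvd_iff]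
    intro m hm
    have h1 := X_pow_dvd_iff.1 (hle m k (by omega)) m (by omega)
    rw [map_sub] at h1 ⊢
    simp only [hp, coeff_mk]
    linear_combination -h1
  have hp0 : constantCoeff p = 1 := by
    have := hpk 0
    rw [zero_add, pow_one, X_dvd_iff, map_sub, hc] at this
    linear_combination this
  have hfix : dsb1_Psi f hd p = p := by
    rw [← sub_eq_zero]
    ext n
    have h1 := dsb1_Psi_dvd f hf hd h2 _ _ hp0 (hc n) (by omega) (hpk n)
    rw [← hsucc] at h1
    have h3 : X ^ (n + 1 + 1) ∣ dsb1_Psi f hd p - p := by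
      have : dsb1_Psi f hd p - p = (dsb1_Psi f hd p - s (n + 1)) - (p - s (n + 1)) := by ring
      rw [this]
      exact dvd_sub h1 (hpk (n + 1))
    rw [X_pow_dvd_iff.1 h3 n (by omega), map_zero]
  refine ⟨p, hp0, ?_⟩
  unfold dsb1_Psi at hfix
  have h0 : C ((f.natDegree : K)⁻¹) * (dsb1_F f p - expand f.natDegree hd p) = 0 := by
    linear_combination -hfix
  rcases mul_eq_zero.1 h0 with h | h
  · exfalso
    have := congrArg constantCoeff h
    simp [hd] at this
  · exact sub_eq_zero.1 h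

end formal

open Polynomial Filter Asymptotics NumberField Topology

theorem exists_bott {K : Type*} [Field K] [CharZero K] {f : K[X]} (hm : f.Monic)
    (hd : 2 ≤ f.natDegree) : ∃ p, PowerSeries.constantCoeff p = 1 ∧ Bott f p := by
  have h0 : f.natDegree ≠ 0 := by omega
  obtain ⟨p, h1, h2⟩ := dsb1_formal f hm h0 hd
  exact ⟨p, h1, h2.trans (ex_eq h0 p).symm⟩

theorem ex_map {R S : Type*} [CommRing R] [CommRing S] (φ : R →+* S) {d : ℕ} (hd : d ≠ 0)
    (p : PowerSeries R) : PowerSeries.map φ (ex d p) = ex d (PowerSeries.map φ p) := by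
  rw [ex_eq hd, ex_eq hd, PowerSeries.map_expand]

theorem Bott.map {K L : Type*} [Field K] [Field L] (φ : K →+* L) {f : K[X]} {p : PowerSeries K}
    (hd : 0 < f.natDegree) (h : Bott f p) : Bott (f.map φ) (PowerSeries.map φ p) := by
  unfold Bott at h ⊢
  rw [natDegree_map, ← ex_map φ hd.ne', ← h, map_sum]
  refine Finset.sum_congr rfl fun j _ => ?_
  simp

end Pool.Agent.P.MP_68214b_ag.DS
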