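import Pool.Agent.P.MP_68214b_ag.DSDef

open Polynomial Filter Asymptotics NumberField Topology

namespace Pool.Agent.P.MP_68214b_ag.DS

theorem dsb2_ratio {g : ℂ[X]} (hm : g.Monic) {z : ℕ → ℂ}
    (hz : Tendsto (fun n => ‖z n‖) atTop atTop) :
    Tendsto (fun n => g.eval (z n) / z n ^ g.natDegree) atTop (𝓝 1) := by
  have hi : Tendsto (fun n => (z n)⁻¹) atTop (𝓝 0) := by
    rw [tendsto_zero_iff_norm_tendsto_zero]
    simp only [norm_inv]
    exact hz.inv_tendsto_atTop
  have h1 : Tendsto (fun n => g.reverse.eval (z n)⁻¹) atTop (𝓝 (g.reverse.eval 0)) :=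
    (g.reverse.continuous.tendsto 0).comp hi
  rw [← coeff_zero_eq_eval_zero, coeff_zero_reverse, hm.leadingCoeff] at h1
  refine h1.congr' ?_
  filter_upwards [hz.eventually_gt_atTop 0] with n hn
  have h0 : z n ≠ 0 := norm_pos_iff.1 hn
  let _ := invertibleOfNonzero h0
  have := eval₂_reverse_mul_pow (RingHom.id ℂ) (z n) g
  rw [eval₂_id, eval₂_id, invOf_eq_inv] at this
  rw [eq_div_iff (pow_ne_zero _ h0), this]

theorem dsb2_sum {d : ℕ} (hd : 2 ≤ d) {L : ℕ → ℂ} (hL : Tendsto L atTop (𝓝 0)) :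
    ∃ S : ℕ → ℂ, Tendsto S atTop (𝓝 0) ∧ ∀ n, d * S n = L n + S (n + 1) := by
  obtain ⟨B, hB⟩ := isBounded_iff_forall_norm_le.1 (Metric.isBounded_range_of_tendsto L hL)
  have hB' : ∀ n, ‖L n‖ ≤ B := fun n => hB _ ⟨n, rfl⟩
  have hd0 : (d : ℂ) ≠ 0 := by exact_mod_cast (by omega : d ≠ 0)
  have hd2 : (2 : ℝ) ≤ d := by exact_mod_cast hd
  have hb : ∀ n k, ‖L (n + k) / (d : ℂ) ^ (k + 1)‖ ≤ B * (1 / 2) ^ k := fun n k => by
    rw [norm_div, norm_pow, Complex.norm_natCast, one_div, inv_pow, ← div_eq_mul_inv]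
    refine div_le_div₀ ((norm_nonneg _).trans (hB' 0)) (hB' _) (by positivity) ?_
    exact (pow_le_pow_left₀ (by norm_num) hd2 k).trans
      (pow_le_pow_right₀ (by linarith) (by omega))
  have hg : Summable fun k : ℕ => B * (1 / 2 : ℝ) ^ k := summable_geometric_two.mul_left B
  have hs : ∀ n, Summable fun k => L (n + k) / (d : ℂ) ^ (k + 1) := fun n =>
    Summable.of_norm_bounded hg (hb n)
  refine ⟨fun n => ∑' k, L (n + k) / (d : ℂ) ^ (k + 1), ?_, fun n => ?_⟩
  · have := tendsto_tsum_of_dominated_convergence (𝓕 := atTop)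
      (f := fun n k => L (n + k) / (d : ℂ) ^ (k + 1)) (g := fun _ => 0) hg
      (fun k => by
        simpa using (hL.comp (tendsto_add_atTop_nat k)).div_const ((d : ℂ) ^ (k + 1)))
      (Eventually.of_forall hb)
    simpa using this
  · dsimp only
    rw [(hs n).tsum_eq_zero_add, mul_add, ← tsum_mul_left]
    congr 1
    · simp [mul_div_cancel₀ _ hd0]
    · refine tsum_congr fun k => ?_
      rw [show n + (k + 1) = n + 1 + k by ring]
      field_simp
      ring

theorem exists_u {g : ℂ[X]} (hm : g.Monic) (hd : 2 ≤ g.natDegree) {z : ℕ → ℂ}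
    (hs : ∀ n, z (n + 1) = g.eval (z n)) (hz : Tendsto (fun n => ‖z n‖) atTop atTop) :
    ∃ u : ℂ, 1 < ‖u‖ ∧ Tendsto (fun n => z n * (u ^ g.natDegree ^ n)⁻¹) atTop (𝓝 1) := by
  have hr := dsb2_ratio hm hz
  simp only [← hs] at hr
  generalize g.natDegree = d at hd hr
  have hL : Tendsto (fun n => Complex.log (z (n + 1) / z n ^ d)) atTop (𝓝 0) := by
    have := (continuousAt_clog Complex.one_mem_slitPlane).tendsto.comp hr
    rwa [Complex.log_one] at this
  obtain ⟨S, hS, hd'⟩ := dsb2_sum hd hL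
  have hE : Tendsto (fun n => Complex.exp (S n)) atTop (𝓝 1) := by
    have := (Complex.continuous_exp.tendsto 0).comp hS
    rwa [Complex.exp_zero] at this
  have hU : Tendsto (fun n => ‖z n * Complex.exp (S n)‖) atTop atTop := by
    simp only [norm_mul]
    exact hz.atTop_mul_pos one_pos (by simpa using hE.norm)
  obtain ⟨m, hm⟩ := eventually_atTop.1 (hU.eventually_gt_atTop 1)
  have h0 : ∀ n, m ≤ n → z n ≠ 0 := fun n hn e => by
    have := hm n hn
    rw [e, zero_mul, norm_zero] at this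
    linarith
  obtain ⟨u, hu⟩ := IsAlgClosed.exists_pow_nat_eq (z m * Complex.exp (S m))
    (n := d ^ m) (by positivity)
  have key : ∀ n, m ≤ n → u ^ d ^ n = z n * Complex.exp (S n) := by
    intro n hn
    induction n, hn using Nat.le_induction with
    | base => exact hu
    | succ n hn ih =>
      have a := h0 n hn
      have b := h0 (n + 1) (by omega)
      rw [pow_succ, pow_mul, ih, mul_pow, ← Complex.exp_nat_mul, hd', Complex.exp_add,
        Complex.exp_log (div_ne_zero b (pow_ne_zero _ a))]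
      field_simp
  refine ⟨u, ?_, ?_⟩
  · by_contra h
    have := hm m le_rfl
    rw [← hu, norm_pow] at this
    exact absurd (pow_le_one₀ (norm_nonneg _) (not_lt.1 h)) (not_le.2 this)
  · have := hE.inv₀ one_ne_zero
    rw [inv_one] at this
    refine this.congr' ?_
    filter_upwards [eventually_ge_atTop m] with n hn
    rw [key n hn, mul_inv, mul_inv_cancel_left₀ (h0 n hn)]

end Pool.Agent.P.MP_68214b_ag.DS
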