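import Pool.Agent.P.MP_68214b_ag.DSN4

open Polynomial Filter Asymptotics NumberField Topology

namespace Pool.Agent.P.MP_68214b_ag.DS

variable {K : Type} [Field K] [NumberField K]

theorem alg0_of_finite {L : Type*} [Field L] {x : ℕ → L} (h : (Set.range x).Finite) : Alg0 x := by
  refine ⟨∏ a ∈ h.toFinset, (X - C a), Finset.prod_ne_zero_iff.2 fun a _ => X_sub_C_ne_zero a,
    Eventually.of_forall fun n => ?_⟩
  rw [eval_prod]
  exact Finset.prod_eq_zero (h.mem_toFinset.2 ⟨n, rfl⟩) (by simp)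

theorem alg0_of_eq {L : Type*} [Field L] {f : L[X]} {x : ℕ → L} (hs : ∀ n, x (n + 1) = f.eval (x n))
    {n m : ℕ} (h : n < m) (e : x n = x m) : Alg0 x := by
  have p : ∀ t, x (n + t) = x (m + t) := fun t => by
    induction t with
    | zero => exact e
    | succ t ih => rw [← add_assoc, ← add_assoc, hs, hs, ih]
  have q : ∀ k, x k ∈ x '' Set.Iio m := fun k => by
    induction k using Nat.strong_induction_on with
    | _ k ih =>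
      by_cases hk : k < m
      · exact ⟨k, hk, rfl⟩
      · obtain ⟨t, rfl⟩ := Nat.exists_eq_add_of_le (not_lt.1 hk)
        rw [← p]; exact ih _ (by omega)
  exact alg0_of_finite (((Set.finite_Iio m).image x).subset (Set.range_subset_iff.2 q))

theorem alg0_of_freq {L : Type*} [Field L] {f : L[X]} {x : ℕ → L}
    (hs : ∀ n, x (n + 1) = f.eval (x n)) (σ : L →+* ℂ) {B : Set ℂ} (hB : B.Finite)
    (h : ∃ᶠ n in atTop, σ (x n) ∈ B) : Alg0 x := by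
  have hi := Nat.frequently_atTop_iff_infinite.1 h
  obtain ⟨n, -, m, -, hlt, e⟩ := hi.exists_lt_map_eq_of_mapsTo (f := fun n => σ (x n))
    (fun n hn => hn) hB
  exact alg0_of_eq hs hlt (σ.injective e)

theorem exists_unbdd {x : ℕ → K} (hi : Den x) (h0 : ¬ Alg0 x) :
    ∃ σ : K →+* ℂ, ¬ Bdd σ x := by
  by_contra hc
  have hc' : ∀ σ : K →+* ℂ, Bdd σ x := fun σ => by_contra fun h => hc ⟨σ, h⟩
  choose B hB using hc'
  obtain ⟨M, hM⟩ := (Set.finite_range B).bddAbove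
  obtain ⟨N, hN, hi⟩ := hi
  have N0 : (N : K) ≠ 0 := Nat.cast_ne_zero.2 hN.ne'
  refine h0 (alg0_of_finite (((Embeddings.finite_of_norm_le K ℂ (N * M)).image
    fun z => (N : K)⁻¹ * z).subset ?_))
  rintro _ ⟨n, rfl⟩
  refine ⟨N * x n, ⟨hi n, fun σ => ?_⟩, inv_mul_cancel_left₀ N0 _⟩
  rw [map_mul, map_natCast, norm_mul, Complex.norm_natCast]
  exact mul_le_mul_of_nonneg_left ((hB σ n).trans (hM ⟨σ, rfl⟩)) (Nat.cast_nonneg N)

theorem dsn5_root {ρ : ℝ} (h : 1 < ρ) {m : ℕ} (hm : m ≠ 0) : ∃ r : ℝ, 1 < r ∧ r ^ m = ρ :=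
  ⟨ρ ^ (m : ℝ)⁻¹, Real.one_lt_rpow h (inv_pos.2 (Nat.cast_pos.2 (Nat.pos_of_ne_zero hm))),
    Real.rpow_inv_natCast_pow (by linarith) hm⟩

theorem dsn5_low {g : ℂ[X]} (hm : g.Monic) (hd : 2 ≤ g.natDegree) :
    ∃ R : ℝ, 4 ≤ R ∧ ∀ z : ℂ, R ≤ ‖z‖ → ‖z‖ ^ g.natDegree ≤ 2 * ‖g.eval z‖ := by
  obtain ⟨e, he⟩ : ∃ e, g.natDegree = e + 1 := ⟨g.natDegree - 1, by omega⟩
  refine ⟨max 4 (2 * ∑ i ∈ Finset.range g.natDegree, ‖g.coeff i‖), le_max_left _ _, fun z hz => ?_⟩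
  have h1 : (1 : ℝ) ≤ ‖z‖ := by have := (le_max_left _ _).trans hz; linarith
  have h2 := (le_max_right _ _).trans hz
  have h3 : z ^ g.natDegree = g.eval z - ∑ i ∈ Finset.range g.natDegree, g.coeff i * z ^ i := by
    rw [eval_eq_sum_range, Finset.sum_range_succ, hm.coeff_natDegree]; ring
  have h4 : ‖∑ i ∈ Finset.range g.natDegree, g.coeff i * z ^ i‖ ≤
      (∑ i ∈ Finset.range g.natDegree, ‖g.coeff i‖) * ‖z‖ ^ e := by
    rw [Finset.sum_mul]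
    refine (norm_sum_le _ _).trans (Finset.sum_le_sum fun i hi => ?_)
    rw [norm_mul, norm_pow]
    have := Finset.mem_range.1 hi
    exact mul_le_mul_of_nonneg_left (pow_le_pow_right₀ h1 (by omega)) (norm_nonneg _)
  have h5 : ‖z‖ ^ g.natDegree ≤ ‖g.eval z‖ +
      (∑ i ∈ Finset.range g.natDegree, ‖g.coeff i‖) * ‖z‖ ^ e := by
    rw [← norm_pow, h3]
    exact (norm_sub_le _ _).trans (by linarith)
  have h6 : ‖z‖ ^ g.natDegree = ‖z‖ * ‖z‖ ^ e := by rw [he, pow_succ']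
  have h7 := mul_le_mul_of_nonneg_right h2 (pow_nonneg (norm_nonneg z) e)
  linarith

theorem escape {g : ℂ[X]} (hm : g.Monic) (hd : 2 ≤ g.natDegree) {z : ℕ → ℂ}
    (hs : ∀ n, z (n + 1) = g.eval (z n)) (hz : ¬ ∃ B : ℝ, ∀ n, ‖z n‖ ≤ B) :
    ∃ ρ : ℝ, 1 < ρ ∧ ∀ᶠ n in atTop, ρ ^ g.natDegree ^ n ≤ ‖z n‖ := by
  obtain ⟨R, hR, hl⟩ := dsn5_low hm hd
  obtain ⟨n0, h0⟩ : ∃ n0, R ≤ ‖z n0‖ := by
    by_contra hc
    exact hz ⟨R, fun n => (not_le.1 fun h => hc ⟨n, h⟩).le⟩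
  obtain ⟨w, hw⟩ : ∃ w : ℝ, ‖z n0‖ = 2 * w := ⟨‖z n0‖ / 2, by ring⟩
  have w1 : 1 < w := by linarith
  have key : ∀ t, 2 * w ^ g.natDegree ^ t ≤ ‖z (n0 + t)‖ := fun t => by
    induction t with
    | zero => simp [hw]
    | succ t ih =>
      have a : w ≤ w ^ g.natDegree ^ t := le_self_pow₀ w1.le (pow_ne_zero _ (by omega))
      have b := hl (z (n0 + t)) (by linarith)
      have c := pow_le_pow_left₀ (by positivity) ih g.natDegree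
      have d : (2 : ℝ) ^ 2 ≤ 2 ^ g.natDegree := pow_le_pow_right₀ (by norm_num) hd
      rw [mul_pow, ← pow_mul, ← pow_succ] at c
      have e : (0 : ℝ) ≤ w ^ g.natDegree ^ (t + 1) := by positivity
      have f := mul_le_mul_of_nonneg_right d e
      rw [← add_assoc, hs]
      linarith
  obtain ⟨r, r1, hr⟩ := dsn5_root w1 (m := g.natDegree ^ n0) (pow_ne_zero _ (by omega))
  refine ⟨r, r1, eventually_atTop.2 ⟨n0, fun n hn => ?_⟩⟩
  obtain ⟨t, rfl⟩ := Nat.exists_eq_add_of_le hn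
  rw [pow_add, pow_mul, hr]
  have := key t
  have e : (0 : ℝ) ≤ w ^ g.natDegree ^ t := by positivity
  linarith

theorem Orb.escape {L : Type*} [Field L] {f : L[X]} {x : ℕ → L} (h : Orb f x) (σ : L →+* ℂ)
    (hb : ¬ Bdd σ x) : ∃ ρ : ℝ, 1 < ρ ∧ ∀ᶠ n in atTop, ρ ^ f.natDegree ^ n ≤ ‖σ (x n)‖ := by
  have := DS.escape (g := f.map σ) (h.monic.map σ) (by rw [natDegree_map]; exact h.deg)
    (z := fun n => σ (x n)) (fun n => by rw [h.step, eval_map, eval₂_hom]) hb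
  rwa [natDegree_map] at this

theorem growth_low {f : K[X]} {x : ℕ → K} (h : Orb f x) (hi : Den x) (h0 : ¬ Alg0 x) :
    ∃ ρ : ℝ, 1 < ρ ∧ ∀ᶠ n in atTop, ρ ^ f.natDegree ^ n ≤ house (x n) := by
  obtain ⟨σ, hσ⟩ := exists_unbdd hi h0
  obtain ⟨ρ, h1, h2⟩ := h.escape σ hσ
  exact ⟨ρ, h1, h2.mono fun n hn => hn.trans (norm_embedding_le_house _ σ)⟩

theorem dsn5_top {d : ℕ} (hd : 2 ≤ d) : Tendsto (fun n : ℕ => d ^ n) atTop atTop :=
  tendsto_pow_atTop_atTop_of_one_lt (by omega)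

theorem tend_pp {lam : ℝ} (h0 : 0 ≤ lam) (h1 : lam < 1) {d : ℕ} (hd : 2 ≤ d) :
    Tendsto (fun n => lam ^ d ^ n) atTop (𝓝 0) :=
  (tendsto_pow_atTop_nhds_zero_of_lt_one h0 h1).comp (dsn5_top hd)

theorem tend_pp_top {ρ : ℝ} (h1 : 1 < ρ) {d : ℕ} (hd : 2 ≤ d) :
    Tendsto (fun n => ρ ^ d ^ n) atTop atTop :=
  (tendsto_pow_atTop_atTop_of_one_lt h1).comp (dsn5_top hd)

theorem tend_ppC {t : ℂ} (h1 : ‖t‖ < 1) {d : ℕ} (hd : 2 ≤ d) :
    Tendsto (fun n => t ^ d ^ n) atTop (𝓝 0) :=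
  (tendsto_pow_atTop_nhds_zero_of_norm_lt_one h1).comp (dsn5_top hd)

theorem ev_pp_le {e d : ℕ} (h : e < d) {Λ ρ : ℝ} (hΛ : 1 ≤ Λ) (hρ : 1 < ρ) :
    ∀ᶠ n in atTop, Λ ^ e ^ n ≤ ρ ^ d ^ n := by
  obtain ⟨k, hk⟩ := pow_unbounded_of_one_lt Λ hρ
  have d0 : (0 : ℝ) < d := Nat.cast_pos.2 (by omega)
  have t := (tendsto_pow_atTop_nhds_zero_of_lt_one (r := (e : ℝ) / d) (by positivity)
    ((div_lt_one d0).2 (Nat.cast_lt.2 h))).const_mul (k : ℝ)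
  rw [mul_zero] at t
  refine (t.eventually_lt_const one_pos).mono fun n hn => ?_
  rw [div_pow, ← mul_div_assoc, div_lt_one (by positivity)] at hn
  have q : k * e ^ n ≤ d ^ n := by exact_mod_cast hn.le
  calc Λ ^ e ^ n ≤ (ρ ^ k) ^ e ^ n := pow_le_pow_left₀ (by linarith) hk.le _
    _ ≤ _ := by rw [← pow_mul]; exact pow_le_pow_right₀ hρ.le q

theorem deg_le {d e k : ℕ} (he : 2 ≤ e) {ρ Λ C : ℝ} (hρ : 1 < ρ) (hΛ : 1 ≤ Λ)
    (h : ∀ᶠ n in atTop, ρ ^ d ^ n ≤ C * (Λ ^ e ^ n) ^ k) : d ≤ e := by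
  by_contra hc
  have hc := not_le.1 hc
  obtain ⟨r, r1, rfl⟩ := dsn5_root hρ two_ne_zero
  obtain ⟨n, h1, h2, h3⟩ := (h.and ((ev_pp_le hc (one_le_pow₀ hΛ (n := k)) r1).and
    ((tend_pp_top r1 (d := d) (by omega)).eventually_gt_atTop C))).exists
  rw [← pow_mul, mul_comm 2, pow_mul, ← pow_mul Λ, mul_comm _ k, pow_mul] at h1
  have p : (0 : ℝ) < (Λ ^ k) ^ e ^ n := by positivity
  have q : (0 : ℝ) < r ^ d ^ n := by positivity
  nlinarith [mul_lt_mul_of_pos_right h3 p, mul_le_mul_of_nonneg_left h2 q.le]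

theorem low_root {d k : ℕ} (hd : 2 ≤ d) {ρ C : ℝ} (hρ : 1 < ρ) {h : ℕ → ℝ}
    (H : ∀ᶠ n in atTop, ρ ^ d ^ n ≤ C * max 1 (h n) ^ k) :
    ∃ ρ' : ℝ, 1 < ρ' ∧ ∀ᶠ n in atTop, ρ' ^ d ^ n ≤ h n := by
  obtain ⟨r, r1, rfl⟩ := dsn5_root hρ (Nat.succ_ne_zero k)
  refine ⟨r, r1, (H.and ((tend_pp_top r1 hd).eventually_gt_atTop C)).mono fun n ⟨h1, h2⟩ => ?_⟩
  by_contra hc
  have u : 1 ≤ r ^ d ^ n := one_le_pow₀ r1.le
  have a : max 1 (h n) ≤ r ^ d ^ n := max_le u (not_le.1 hc).le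
  have p : 0 < max 1 (h n) := lt_of_lt_of_le one_pos (le_max_left _ _)
  have b := pow_le_pow_left₀ p.le a k
  rw [← pow_mul, mul_comm, pow_mul, pow_succ'] at h1
  have c := mul_lt_mul_of_pos_right h2 (pow_pos p k)
  have e := mul_le_mul_of_nonneg_left b (by linarith : (0 : ℝ) ≤ r ^ d ^ n)
  linarith

end Pool.Agent.P.MP_68214b_ag.DS
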