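import Pool.Agent.P.MP_68214b_ag.DSDef

open Polynomial Filter Asymptotics NumberField Topology

namespace Pool.Agent.P.MP_68214b_ag.DS

variable {𝓕 : Filter ℕ} {t a a' : ℕ → ℂ} {T : ℕ} {π π' : PowerSeries ℂ}

theorem dss1_pow (ht : ∀ᶠ n in 𝓕, ‖t n‖ ≤ 1) {k l : ℕ} (h : k ≤ l) :
    (fun n => t n ^ l) =O[𝓕] fun n => t n ^ k :=
  IsBigO.of_bound' (ht.mono fun n hn => by
    rw [norm_pow, norm_pow]; exact pow_le_pow_of_le_one (norm_nonneg _) hn h)

theorem dss1_bd (ht : ∀ᶠ n in 𝓕, ‖t n‖ ≤ 1) (q : ℂ[X]) :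
    (fun n => q.eval (t n)) =O[𝓕] fun _ => (1 : ℝ) := by
  simp only [eval_eq_sum_range]
  refine IsBigO.fun_sum fun i _ => IsBigO.const_mul_left ?_ _
  exact (dss1_pow ht i.zero_le).trans (by simpa using isBigO_const_one ℝ (1 : ℂ) 𝓕)

theorem dss1_key (ht : ∀ᶠ n in 𝓕, ‖t n‖ ≤ 1) {N : ℕ} {q : ℂ[X]} (h : ∀ k < N, q.coeff k = 0) :
    (fun n => q.eval (t n)) =O[𝓕] fun n => t n ^ N := by
  obtain ⟨r, rfl⟩ := X_pow_dvd_iff.2 h
  simpa using (isBigO_refl (fun n => t n ^ N) 𝓕).mul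
    ((dss1_bd ht r).trans (isBigO_const_one ℂ (1 : ℝ) 𝓕))

theorem As.mono {𝓖 : Filter ℕ} (h : As 𝓕 t T a π) (hG : 𝓖 ≤ 𝓕) : As 𝓖 t T a π := IsBigO.mono h hG

theorem As.congr (h : As 𝓕 t T a π) (e : ∀ᶠ n in 𝓕, a n = a' n) : As 𝓕 t T a' π :=
  IsBigO.congr' h (e.mono fun n hn => by simp only [hn]) .rfl

theorem As.of_le (ht : ∀ᶠ n in 𝓕, ‖t n‖ ≤ 1) (h : As 𝓕 t T a π) {T' : ℕ} (hT : T' ≤ T) :
    As 𝓕 t T' a π :=
  ((h.trans (dss1_pow ht hT)).add (dss1_key ht (q := PowerSeries.trunc T π - PowerSeries.trunc T' π)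
    fun k hk => by simp [PowerSeries.coeff_trunc, hk, hk.trans_le hT])).congr_left fun n => by simp

theorem As.of_trunc (h : As 𝓕 t T a π) (e : ∀ k < T, PowerSeries.coeff k π = PowerSeries.coeff k π') :
    As 𝓕 t T a π' := by
  have : PowerSeries.trunc T π' = PowerSeries.trunc T π := by
    ext k; simp only [PowerSeries.coeff_trunc]; split_ifs with hk
    exacts [(e k hk).symm, rfl]
  rwa [As, this]

theorem As.of_close (h : As 𝓕 t T a π) (e : (fun n => a' n - a n) =O[𝓕] fun n => t n ^ T) :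
    As 𝓕 t T a' π :=
  (e.add h).congr_left fun n => by ring

theorem As.bdd (ht : ∀ᶠ n in 𝓕, ‖t n‖ ≤ 1) (h : As 𝓕 t T a π) : a =O[𝓕] fun _ => (1 : ℝ) :=
  ((h.trans ((dss1_pow ht T.zero_le).trans (by simpa using isBigO_const_one ℝ (1 : ℂ) 𝓕))).add
    (dss1_bd ht _)).congr_left fun n => sub_add_cancel _ _

theorem as_poly (ht : ∀ᶠ n in 𝓕, ‖t n‖ ≤ 1) (q : ℂ[X]) :
    As 𝓕 t T (fun n => q.eval (t n)) (q : PowerSeries ℂ) :=
  (dss1_key ht (q := q - PowerSeries.trunc T (q : PowerSeries ℂ))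
    fun k hk => by simp [PowerSeries.coeff_trunc, hk]).congr_left fun n => by simp

theorem as_const (ht : ∀ᶠ n in 𝓕, ‖t n‖ ≤ 1) (c : ℂ) :
    As 𝓕 t T (fun _ => c) (PowerSeries.C c) := by
  simpa using as_poly (T := T) ht (C c)

theorem as_id (ht : ∀ᶠ n in 𝓕, ‖t n‖ ≤ 1) : As 𝓕 t T t PowerSeries.X := by
  simpa using as_poly (T := T) ht X

theorem As.add (h : As 𝓕 t T a π) (h' : As 𝓕 t T a' π') :
    As 𝓕 t T (fun n => a n + a' n) (π + π') :=
  (IsBigO.add h h').congr_left fun n => by simp only [map_add, eval_add]; ring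

theorem As.mul (ht : ∀ᶠ n in 𝓕, ‖t n‖ ≤ 1) (h : As 𝓕 t T a π) (h' : As 𝓕 t T a' π') :
    As 𝓕 t T (fun n => a n * a' n) (π * π') := by
  have h1 : (fun n => a n * (a' n - (PowerSeries.trunc T π').eval (t n))) =O[𝓕] fun n => t n ^ T := by
    simpa using ((h.bdd ht).trans (isBigO_const_one ℂ (1 : ℝ) 𝓕)).mul h'
  have h2 : (fun n => (a n - (PowerSeries.trunc T π).eval (t n)) *
      (PowerSeries.trunc T π').eval (t n)) =O[𝓕] fun n => t n ^ T := by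
    simpa using IsBigO.mul h ((dss1_bd ht _).trans (isBigO_const_one ℂ (1 : ℝ) 𝓕))
  have h3 := dss1_key ht (N := T) (q := PowerSeries.trunc T π * PowerSeries.trunc T π' -
      PowerSeries.trunc T (π * π')) fun k hk => by
    rw [coeff_sub, coeff_mul, PowerSeries.coeff_trunc, if_pos hk, PowerSeries.coeff_mul, sub_eq_zero]
    refine Finset.sum_congr rfl fun x hx => ?_
    have := Finset.HasAntidiagonal.mem_antidiagonal.1 hx
    rw [PowerSeries.coeff_trunc, PowerSeries.coeff_trunc, if_pos (by omega), if_pos (by omega)]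
  exact ((h1.add h2).add h3).congr_left fun n => by simp only [eval_sub, eval_mul]; ring

theorem As.pow (ht : ∀ᶠ n in 𝓕, ‖t n‖ ≤ 1) (h : As 𝓕 t T a π) (k : ℕ) :
    As 𝓕 t T (fun n => a n ^ k) (π ^ k) := by
  induction k with
  | zero => simpa using as_const (T := T) ht 1
  | succ k ih => simpa only [pow_succ] using ih.mul ht h

theorem as_sum {ι : Type*} (s : Finset ι) {g : ι → ℕ → ℂ} {P : ι → PowerSeries ℂ}
    (h : ∀ i ∈ s, As 𝓕 t T (g i) (P i)) :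
    As 𝓕 t T (fun n => ∑ i ∈ s, g i n) (∑ i ∈ s, P i) := by
  classical
  induction s using Finset.induction_on with
  | empty => simpa [As] using isBigO_zero _ _
  | insert i s hi ih =>
    simpa only [Finset.sum_insert hi] using (h i (Finset.mem_insert_self _ _)).add
      (ih fun j hj => h j (Finset.mem_insert_of_mem hj))

theorem As.hom2 (ht : ∀ᶠ n in 𝓕, ‖t n‖ ≤ 1) (h : As 𝓕 t T a π) (h' : As 𝓕 t T a' π')
    {R : Type*} [CommRing R] (φ : R →+* ℂ) (k l D : ℕ) (G : R[X][X]) :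
    As 𝓕 t T (fun n => hom2 φ k l D (a n) (a' n) (t n) G)
      (hom2 (PowerSeries.C.comp φ) k l D π π' PowerSeries.X G) :=
  as_sum _ fun _ _ => as_sum _ fun _ _ => ((as_const ht _).mul ht
    ((h.pow ht _).mul ht ((as_id ht).pow ht _))).mul ht ((h'.pow ht _).mul ht ((as_id ht).pow ht _))

theorem hom2_eq {R S : Type*} [CommRing R] [CommRing S] (φ : R →+* S) (k l : ℕ) {D : ℕ}
    (x y s : S) {G : R[X][X]} (hG : Bd G D D) :
    hom2 φ k l D (x * s ^ l) (y * s ^ k) s G = s ^ ((k + l) * D) * ev2 φ x y G := by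
  have h2 : ∀ j, (eval₂RingHom φ x) (G.coeff j) =
      ∑ i ∈ Finset.range (D + 1), φ ((G.coeff j).coeff i) * x ^ i := fun j =>
    eval₂_eq_sum_range' φ (Nat.lt_succ_of_le (hG.1 j)) x
  rw [DS.hom2, coe_eval₂RingHom, eval₂_eq_sum_range' _ (Nat.lt_succ_of_le hG.2), Finset.mul_sum]
  refine Finset.sum_congr rfl fun j hj => ?_
  rw [h2, Finset.sum_mul, Finset.mul_sum]
  refine Finset.sum_congr rfl fun i hi => ?_
  obtain ⟨u, hu⟩ := Nat.exists_eq_add_of_le (Nat.le_of_lt_succ (Finset.mem_range.1 hi))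
  obtain ⟨v, hv⟩ := Nat.exists_eq_add_of_le (Nat.le_of_lt_succ (Finset.mem_range.1 hj))
  rw [show D - i = u by omega, show D - j = v by omega, show (k + l) * D = l * i + l * u +
    (k * j + k * v) by rw [← mul_add, ← mul_add, ← hu, ← hv]; ring]
  ring

theorem hom2_map {R S S' : Type*} [CommRing R] [CommRing S] [CommRing S'] (φ : R →+* S)
    (ψ : S →+* S') (k l D : ℕ) (P1 P2 s : S) (G : R[X][X]) :
    ψ (hom2 φ k l D P1 P2 s G) = hom2 (ψ.comp φ) k l D (ψ P1) (ψ P2) (ψ s) G := by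
  simp [DS.hom2]

theorem As.small (ht : ∀ᶠ n in 𝓕, ‖t n‖ ≤ 1) (h : As 𝓕 t T a π) {N : ℕ} (hN : N ≤ T)
    (hπ : ∀ k < N, PowerSeries.coeff k π = 0) : a =O[𝓕] fun n => t n ^ N := by
  have : PowerSeries.trunc N π = 0 := by
    ext k; simp only [PowerSeries.coeff_trunc]; split_ifs with hk
    exacts [hπ k hk, rfl]
  simpa [As, this] using h.of_le ht hN

theorem As.lead {e : ℕ} (h : As 𝓕 t (e + 1) a π) (hπ : ∀ k < e, PowerSeries.coeff k π = 0) :
    (fun n => a n - PowerSeries.coeff e π * t n ^ e) =O[𝓕] fun n => t n ^ (e + 1) := by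
  have : PowerSeries.trunc e π = 0 := by
    ext k; simp only [PowerSeries.coeff_trunc]; split_ifs with hk
    exacts [hπ k hk, rfl]
  simpa [As, PowerSeries.trunc_succ, this] using h

theorem As.ne_zero {e : ℕ} (h : As 𝓕 t (e + 1) a π) (hπ : ∀ k < e, PowerSeries.coeff k π = 0)
    (he : PowerSeries.coeff e π ≠ 0) (h0 : ∀ n, t n ≠ 0) (ht : Tendsto t 𝓕 (𝓝 0)) :
    ∀ᶠ n in 𝓕, a n ≠ 0 := by
  obtain ⟨c, hc⟩ := (h.lead hπ).bound
  have h1 : Tendsto (fun n => c * ‖t n‖) 𝓕 (𝓝 (c * ‖(0 : ℂ)‖)) := ht.norm.const_mul c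
  rw [norm_zero, mul_zero] at h1
  filter_upwards [hc, h1.eventually_lt_const (norm_pos_iff.2 he)] with n h2 h3 h4
  rw [h4, zero_sub, norm_neg, norm_mul, pow_succ, norm_mul] at h2
  have := norm_pos_iff.2 (pow_ne_zero e (h0 n))
  nlinarith

theorem apx_of_as {z1 z2 : ℕ → ℂ} {k l : ℕ} (h : As 𝓕 t T (fun n => z1 n * t n ^ l) π)
    (h' : As 𝓕 t T (fun n => z2 n * t n ^ k) π') : ∃ C0 : ℝ, 1 ≤ C0 ∧ ∀ᶠ n in 𝓕,
      Apx k l T (PowerSeries.trunc T π) (PowerSeries.trunc T π') C0 (t n) (z1 n) (z2 n) := by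
  obtain ⟨c, hc⟩ := IsBigO.bound h
  obtain ⟨c', hc'⟩ := IsBigO.bound h'
  refine ⟨max 1 (max c c'), le_max_left _ _, ?_⟩
  filter_upwards [hc, hc'] with n h1 h2
  rw [norm_pow] at h1 h2
  exact ⟨h1.trans (by gcongr; simp), h2.trans (by gcongr; simp)⟩

end Pool.Agent.P.MP_68214b_ag.DS
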