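import Pool.Agent.P.MP_68214b_ag.DSB1
import Pool.Agent.P.MP_68214b_ag.DSB2
import Pool.Agent.P.MP_68214b_ag.DSN5
import Pool.Agent.P.MP_68214b_ag.DSS1

open Polynomial Filter Asymptotics NumberField Topology

namespace Pool.Agent.P.MP_68214b_ag.DS

theorem dsb3_iter {a b : ℕ → ℝ} {M : ℝ} {n0 : ℕ} (hM : ∀ n, n0 ≤ n → a n ≤ M)
    (hb0 : ∀ n, 0 ≤ b n) (hb : ∀ n, b (n + 1) ≤ b n)
    (h : ∀ n, n0 ≤ n → 3 / 2 * a n ≤ a (n + 1) + b n) {n : ℕ} (hn : n0 ≤ n) : a n ≤ 2 * b n := by
  have key : ∀ k : ℕ, ∀ n, n0 ≤ n → a n ≤ 2 * b n + (2 / 3) ^ k * M := by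
    intro k
    induction k with
    | zero => intro n hn; have := hM n hn; have := hb0 n; simp; linarith
    | succ k ih =>
      intro n hn
      have h1 := ih (n + 1) (by omega)
      have h2 := h n hn
      have h3 := hb n
      rw [pow_succ]
      linarith
  have hl : Tendsto (fun k : ℕ => 2 * b n + (2 / 3 : ℝ) ^ k * M) atTop (𝓝 (2 * b n + 0 * M)) :=
    ((tendsto_pow_atTop_nhds_zero_of_lt_one (by norm_num) (by norm_num)).mul_const M).const_add _
  have := ge_of_tendsto' hl fun k => key k n hn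
  linarith

theorem dsb3_step {g : ℂ[X]} (z t : ℂ) :
    g.eval z * t ^ g.natDegree =
      ∑ j ∈ Finset.range (g.natDegree + 1), g.coeff j * t ^ (g.natDegree - j) * (z * t) ^ j := by
  rw [eval_eq_sum_range, Finset.sum_mul]
  refine Finset.sum_congr rfl fun j hj => ?_
  have hj' : j ≤ g.natDegree := Nat.lt_succ_iff.1 (Finset.mem_range.1 hj)
  have : t ^ g.natDegree = t ^ (g.natDegree - j) * t ^ j := by
    rw [← pow_add, Nat.sub_add_cancel hj']
  rw [this, mul_pow]; ring

theorem dsb3_err {g : ℂ[X]} (hd : 2 ≤ g.natDegree) {p : PowerSeries ℂ} (hB : Bott g p)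
    {t : ℕ → ℂ} (ht : ∀ᶠ n in atTop, ‖t n‖ ≤ 1) (T : ℕ) :
    (fun n => ∑ j ∈ Finset.range (g.natDegree + 1),
        g.coeff j * t n ^ (g.natDegree - j) * (PowerSeries.trunc T p).eval (t n) ^ j -
      (PowerSeries.trunc T p).eval (t n ^ g.natDegree)) =O[atTop] fun n => t n ^ T := by
  have hd0 : g.natDegree ≠ 0 := by omega
  have h1 : As atTop t T (fun n => (PowerSeries.trunc T p).eval (t n)) p :=
    (as_poly ht (PowerSeries.trunc T p)).of_trunc fun k hk => by
      rw [Polynomial.coeff_coe, PowerSeries.coeff_trunc, if_pos hk]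
  have h2 : As atTop t T (fun n => ∑ j ∈ Finset.range (g.natDegree + 1),
      g.coeff j * t n ^ (g.natDegree - j) * (PowerSeries.trunc T p).eval (t n) ^ j)
      (ex g.natDegree p) := by
    rw [← show _ = ex g.natDegree p from hB]
    exact as_sum _ fun j _ =>
      ((as_const ht _).mul ht ((as_id ht).pow ht _)).mul ht (h1.pow ht j)
  have h3 : As atTop t T (fun n => (PowerSeries.trunc T p).eval (t n ^ g.natDegree))
      (ex g.natDegree p) := by
    have := (as_poly (T := T) ht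
      (Polynomial.expand ℂ g.natDegree (PowerSeries.trunc T p))).of_trunc
      (π' := ex g.natDegree p) fun k hk => by
        rw [Polynomial.coeff_coe, Polynomial.coeff_expand (Nat.pos_of_ne_zero hd0), ex_eq hd0,
          PowerSeries.coeff_expand]
        split_ifs with h
        · rw [PowerSeries.coeff_trunc, if_pos (lt_of_le_of_lt (Nat.div_le_self _ _) hk)]
        · rfl
    exact this.congr (Eventually.of_forall fun n => by rw [expand_eval])
  have := IsBigO.sub h2 h3
  refine this.congr_left fun n => ?_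
  ring

theorem dsb3_lim {g : ℂ[X]} (hm : g.Monic) {t w y : ℕ → ℂ} (ht : Tendsto t atTop (𝓝 0))
    (hw : Tendsto w atTop (𝓝 1)) (hy : Tendsto y atTop (𝓝 1)) :
    Tendsto (fun n => ∑ j ∈ Finset.range (g.natDegree + 1), g.coeff j * t n ^ (g.natDegree - j) *
      ∑ i ∈ Finset.range j, w n ^ i * y n ^ (j - 1 - i)) atTop (𝓝 (g.natDegree : ℂ)) := by
  have h : Tendsto (fun n => ∑ j ∈ Finset.range (g.natDegree + 1),
      g.coeff j * t n ^ (g.natDegree - j) * ∑ i ∈ Finset.range j, w n ^ i * y n ^ (j - 1 - i))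
      atTop (𝓝 (∑ j ∈ Finset.range (g.natDegree + 1), g.coeff j * (0 : ℂ) ^ (g.natDegree - j) *
        ∑ i ∈ Finset.range j, (1 : ℂ) ^ i * (1 : ℂ) ^ (j - 1 - i))) :=
    tendsto_finsetSum _ fun j _ => ((ht.pow _).const_mul _).mul
      (tendsto_finsetSum _ fun i _ => (hw.pow _).mul (hy.pow _))
  have e : ∑ j ∈ Finset.range (g.natDegree + 1), g.coeff j * (0 : ℂ) ^ (g.natDegree - j) *
      ∑ i ∈ Finset.range j, (1 : ℂ) ^ i * (1 : ℂ) ^ (j - 1 - i) = (g.natDegree : ℂ) := by
    rw [Finset.sum_range_succ, Finset.sum_eq_zero]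
    · simp [hm.coeff_natDegree]
    · intro j hj
      rw [zero_pow (by have := Finset.mem_range.1 hj; omega)]; simp
  rwa [e] at h

theorem boot {g : ℂ[X]} (hm : g.Monic) (hd : 2 ≤ g.natDegree) {p : PowerSeries ℂ}
    (h0 : PowerSeries.constantCoeff p = 1) (hB : Bott g p) {z : ℕ → ℂ}
    (hs : ∀ n, z (n + 1) = g.eval (z n)) {u : ℂ} (hu : 1 < ‖u‖)
    (hl : Tendsto (fun n => z n * (u ^ g.natDegree ^ n)⁻¹) atTop (𝓝 1)) (T : ℕ) :
    As atTop (fun n => (u ^ g.natDegree ^ n)⁻¹) T (fun n => z n * (u ^ g.natDegree ^ n)⁻¹) p := by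
  rcases Nat.eq_zero_or_pos T with rfl | hT
  · unfold As
    simpa using hl.isBigO_one ℂ
  set t : ℕ → ℂ := fun n => (u ^ g.natDegree ^ n)⁻¹ with ht_def
  have hu1 : ‖u⁻¹‖ < 1 := by rw [norm_inv]; exact inv_lt_one_of_one_lt₀ hu
  have ht0 : Tendsto t atTop (𝓝 0) :=
    (tend_ppC hu1 hd).congr fun n => by simp [ht_def]
  have ht1 : ∀ n, ‖t n‖ ≤ 1 := fun n => by
    simp only [ht_def, norm_inv, norm_pow]
    exact inv_le_one_of_one_le₀ (one_le_pow₀ hu.le)
  have hts : ∀ n, t (n + 1) = t n ^ g.natDegree := fun n => by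
    simp only [ht_def, pow_succ, pow_mul, inv_pow]
  set w : ℕ → ℂ := fun n => z n * t n with hw_def
  set y : ℕ → ℂ := fun n => (PowerSeries.trunc T p).eval (t n) with hy_def
  have hw : Tendsto w atTop (𝓝 1) := hl
  have hy : Tendsto y atTop (𝓝 1) := by
    have h1 := ((PowerSeries.trunc T p).continuous.tendsto 0).comp ht0
    have h2 : (PowerSeries.trunc T p).eval 0 = 1 := by
      rw [← coeff_zero_eq_eval_zero, PowerSeries.coeff_trunc, if_pos hT,
        PowerSeries.coeff_zero_eq_constantCoeff_apply, h0]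
    rw [h2] at h1
    exact h1
  obtain ⟨C, hC0, hC⟩ := (dsb3_err hd hB (Eventually.of_forall ht1) T).exists_nonneg
  have hC' := hC.bound
  have hH := (dsb3_lim hm ht0 hw hy).norm
  have hH' := hH.eventually (lt_mem_nhds (show (3 / 2 : ℝ) < ‖(g.natDegree : ℂ)‖ by
    rw [Complex.norm_natCast]
    have : (2 : ℝ) ≤ g.natDegree := by exact_mod_cast hd
    linarith))
  have hD : Tendsto (fun n => ‖w n - y n‖) atTop (𝓝 0) := by
    simpa using (hw.sub hy).norm
  have hD' := hD.eventually (gt_mem_nhds (show (0 : ℝ) < 1 by norm_num))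
  obtain ⟨n0, hn0⟩ := eventually_atTop.1 (hC'.and (hH'.and hD'))
  refine IsBigO.of_bound (2 * C) (eventually_atTop.2 ⟨n0, fun n hn => ?_⟩)
  have key := dsb3_iter (a := fun n => ‖w n - y n‖) (b := fun n => C * ‖t n ^ T‖) (M := 1)
    (n0 := n0) (fun n hn => (hn0 n hn).2.2.le) (fun n => by positivity) (fun n => ?_)
    (fun n hn => ?_) hn
  · rw [mul_assoc]; exact key
  · refine mul_le_mul_of_nonneg_left ?_ hC0
    rw [norm_pow, norm_pow, hts, norm_pow]
    exact pow_le_pow_left₀ (by positivity)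
      (pow_le_of_le_one (norm_nonneg _) (ht1 n) (by omega)) T
  · obtain ⟨h1, h2, -⟩ := hn0 n hn
    have e1 : w (n + 1) = ∑ j ∈ Finset.range (g.natDegree + 1),
        g.coeff j * t n ^ (g.natDegree - j) * w n ^ j := by
      simp only [hw_def]
      rw [hs, hts, dsb3_step]
    have e2 : (∑ j ∈ Finset.range (g.natDegree + 1), g.coeff j * t n ^ (g.natDegree - j) *
        ∑ i ∈ Finset.range j, w n ^ i * y n ^ (j - 1 - i)) * (w n - y n) =
        (w (n + 1) - y (n + 1)) - (∑ j ∈ Finset.range (g.natDegree + 1),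
          g.coeff j * t n ^ (g.natDegree - j) * y n ^ j - y (n + 1)) := by
      rw [e1, sub_sub_sub_cancel_right, ← Finset.sum_sub_distrib, Finset.sum_mul]
      refine Finset.sum_congr rfl fun j _ => ?_
      rw [mul_assoc, (Commute.all (w n) (y n)).geom_sum₂_mul, mul_sub]
    have e3 : y (n + 1) = (PowerSeries.trunc T p).eval (t n ^ g.natDegree) := by
      simp only [hy_def]; rw [hts]
    have h3 := norm_sub_le (w (n + 1) - y (n + 1)) (∑ j ∈ Finset.range (g.natDegree + 1),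
      g.coeff j * t n ^ (g.natDegree - j) * y n ^ j - y (n + 1))
    rw [← e2, norm_mul] at h3
    have h4 : ‖∑ j ∈ Finset.range (g.natDegree + 1),
        g.coeff j * t n ^ (g.natDegree - j) * y n ^ j - y (n + 1)‖ ≤ C * ‖t n ^ T‖ := by
      rw [e3]; exact h1
    have h5 := mul_le_mul_of_nonneg_right h2.le (norm_nonneg (w n - y n))
    show 3 / 2 * ‖w n - y n‖ ≤ ‖w (n + 1) - y (n + 1)‖ + C * ‖t n ^ T‖
    linarith

theorem bl {K : Type*} [Field K] [CharZero K] {f : K[X]} {x : ℕ → K} (h : Orb f x) (σ : K →+* ℂ)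
    (hb : ¬ Bdd σ x) : ∃ p u, Bott f p ∧ Esc σ f.natDegree x p u := by
  obtain ⟨ρ, hρ, hev⟩ := h.escape σ hb
  have hz : Tendsto (fun n => ‖σ (x n)‖) atTop atTop :=
    tendsto_atTop_mono' _ hev (tend_pp_top hρ h.deg)
  have hdeg : (f.map σ).natDegree = f.natDegree := natDegree_map σ
  have hm : (f.map σ).Monic := h.monic.map σ
  have hd : 2 ≤ (f.map σ).natDegree := hdeg ▸ h.deg
  have hs : ∀ n, σ (x (n + 1)) = (f.map σ).eval (σ (x n)) := fun n => by
    rw [h.step, eval_map, eval₂_at_apply]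
  obtain ⟨u, hu, hl⟩ := exists_u hm hd hs hz
  obtain ⟨p, hp0, hp⟩ := exists_bott h.monic h.deg
  refine ⟨p, u, hp, hu, hp0, fun T => ?_⟩
  have h0 : PowerSeries.constantCoeff (PowerSeries.map σ p) = 1 := by
    rw [← PowerSeries.coeff_zero_eq_constantCoeff_apply, PowerSeries.coeff_map,
      PowerSeries.coeff_zero_eq_constantCoeff_apply, hp0, map_one]
  have := boot hm hd h0 (hp.map σ (by have := h.deg; omega)) hs hu hl T
  rwa [hdeg] at this

end Pool.Agent.P.MP_68214b_ag.DS
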