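import Pool.Agent.P.MP_68214b_ag.DSN5
import Pool.Agent.P.MP_68214b_ag.DSS1

open Polynomial Filter Asymptotics NumberField Topology

namespace Pool.Agent.P.MP_68214b_ag.DS

variable {K : Type*} [Field K] {σ : K →+* ℂ} {d : ℕ} {x : ℕ → K} {p : PowerSeries K} {u : ℂ}

theorem Esc.prog (h : Esc σ d x p u) (hd : 0 < d) (c : ℕ) {l : ℕ} (hl : 0 < l) :
    Esc σ (d ^ l) (fun t => x (c + l * t)) p (u ^ d ^ c) := by
  have e : ∀ t, (u ^ d ^ c) ^ (d ^ l) ^ t = u ^ d ^ (c + l * t) := fun t => by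
    rw [← pow_mul, ← pow_mul, ← pow_add]
  have ht : Tendsto (fun t => c + l * t) atTop atTop :=
    tendsto_atTop_mono (fun t => le_trans (Nat.le_mul_of_pos_left t hl) (Nat.le_add_left _ _))
      tendsto_id
  refine ⟨?_, h.c0, fun T => ?_⟩
  · rw [norm_pow]
    exact one_lt_pow₀ h.one_lt (pow_pos hd c).ne'
  · simp only [e]
    exact IsBigO.comp_tendsto (h.app T) ht

theorem dsb4_trunc {R S : Type*} [CommRing R] [CommRing S] (φ : R →+* S) (T : ℕ)
    (q : PowerSeries R) :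
    PowerSeries.trunc T (PowerSeries.map φ q) = (PowerSeries.trunc T q).map φ := by
  ext k
  simp only [PowerSeries.coeff_trunc, coeff_map, PowerSeries.coeff_map]
  split_ifs <;> simp

theorem Esc.conj (h : Esc σ d x p u) {c : K →+* K} (hc : ∀ y, σ (c y) = (starRingEnd ℂ) (σ y)) :
    Esc σ d (fun n => c (x n)) (PowerSeries.map c p) ((starRingEnd ℂ) u) := by
  refine ⟨by rw [Complex.norm_conj]; exact h.one_lt, ?_, fun T => ?_⟩
  · rw [← PowerSeries.coeff_zero_eq_constantCoeff_apply, PowerSeries.coeff_map,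
      PowerSeries.coeff_zero_eq_constantCoeff_apply, h.c0, map_one]
  · have e : PowerSeries.map σ (PowerSeries.map c p) =
        PowerSeries.map (starRingEnd ℂ) (PowerSeries.map σ p) := by
      ext k
      simp only [PowerSeries.coeff_map, hc]
    have h1 := h.app T
    unfold As at h1 ⊢
    rw [← isBigO_norm_norm] at h1 ⊢
    refine h1.congr (fun n => ?_) (fun n => ?_)
    · have e2 : ((starRingEnd ℂ) u ^ d ^ n)⁻¹ = (starRingEnd ℂ) (u ^ d ^ n)⁻¹ := by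
        rw [map_inv₀, map_pow]
      beta_reduce
      rw [e, dsb4_trunc (starRingEnd ℂ), e2, hc, eval_map, eval₂_at_apply, ← map_mul, ← map_sub,
        Complex.norm_conj]
    · simp only [norm_pow, norm_inv, Complex.norm_conj]

theorem Esc.lim' (h : Esc σ d x p u) (hd : 2 ≤ d) :
    (fun n => σ (x n) * (u ^ d ^ n)⁻¹ - 1) =O[atTop] fun n => (u ^ d ^ n)⁻¹ := by
  have _ := hd
  have h1 := h.app 1
  unfold As at h1
  refine h1.congr (fun n => ?_) (fun n => pow_one _)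
  rw [PowerSeries.trunc_one_left, eval_C, PowerSeries.coeff_map,
    PowerSeries.coeff_zero_eq_constantCoeff_apply, h.c0, map_one]

theorem dsb4_inv (h : 1 < ‖u‖) (hd : 2 ≤ d) :
    Tendsto (fun n => (u ^ d ^ n)⁻¹) atTop (𝓝 0) := by
  simp only [← inv_pow]
  exact tend_ppC (by rw [norm_inv]; exact inv_lt_one_of_one_lt₀ h) hd

theorem Esc.lim (h : Esc σ d x p u) (hd : 2 ≤ d) :
    Tendsto (fun n => σ (x n) * (u ^ d ^ n)⁻¹) atTop (𝓝 1) :=
  tendsto_sub_nhds_zero_iff.1 ((h.lim' hd).trans_tendsto (dsb4_inv h.one_lt hd))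

theorem dsb4_eq (h : 1 < ‖u‖) (n : ℕ) (z : ℂ) : ‖u‖ ^ d ^ n * ‖z * (u ^ d ^ n)⁻¹‖ = ‖z‖ := by
  have : 0 < ‖u‖ ^ d ^ n := pow_pos (lt_trans one_pos h) _
  rw [norm_mul, norm_inv, norm_pow]
  field_simp

theorem Esc.tendsto (h : Esc σ d x p u) (hd : 2 ≤ d) :
    Tendsto (fun n => ‖σ (x n)‖) atTop atTop := by
  have h1 := (tend_pp_top h.one_lt hd).atTop_mul_pos (by norm_num) (h.lim hd).norm
  exact h1.congr fun n => dsb4_eq h.one_lt n _

theorem Esc.up (h : Esc σ d x p u) (hd : 2 ≤ d) :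
    (fun n => σ (x n)) =O[atTop] fun n => ‖u‖ ^ d ^ n := by
  have h1 := (isBigO_refl (fun n => ‖u‖ ^ d ^ n) atTop).mul
    ((h.lim hd).norm.isBigO_one ℝ)
  rw [← isBigO_norm_left]
  exact h1.congr (fun n => dsb4_eq h.one_lt n _) fun n => mul_one _

theorem Esc.not_alg0 (h : Esc σ d x p u) (hd : 2 ≤ d) : ¬ Alg0 x := by
  classical
  rintro ⟨g, hg, he⟩
  obtain ⟨B, hB⟩ := (g.roots.toFinset.finite_toSet.image fun y => ‖σ y‖).bddAbove
  obtain ⟨n, h1, h2⟩ := (he.and ((h.tendsto hd).eventually_gt_atTop B)).exists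
  exact absurd (hB ⟨x n, by simpa [hg] using h1, rfl⟩) (not_le.2 h2)

theorem Rel.refl (u : ℂ) : Rel u u := ⟨1, 1, one_pos, one_pos, rfl⟩

theorem Rel.symm {u v : ℂ} (h : Rel u v) : Rel v u := by
  obtain ⟨a, b, ha, hb, e⟩ := h
  exact ⟨b, a, hb, ha, e.symm⟩

theorem Rel.trans {u v w : ℂ} (h : Rel u v) (h' : Rel v w) : Rel u w := by
  obtain ⟨a, b, ha, hb, e⟩ := h
  obtain ⟨a', b', ha', hb', e'⟩ := h'
  refine ⟨a * a', b' * b, mul_pos ha ha', mul_pos hb' hb, ?_⟩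
  rw [pow_mul, e, pow_mul w, ← e', ← pow_mul, ← pow_mul, mul_comm]

theorem Rel.conj {u v : ℂ} (h : Rel u v) : Rel ((starRingEnd ℂ) u) ((starRingEnd ℂ) v) := by
  obtain ⟨a, b, ha, hb, e⟩ := h
  exact ⟨a, b, ha, hb, by rw [← map_pow, e, map_pow]⟩

theorem rel_of_pow {u v : ℂ} {k l : ℕ} (hk : 0 < k) (hl : 0 < l) (h : Rel (u ^ k) (v ^ l)) :
    Rel u v := by
  obtain ⟨a, b, ha, hb, e⟩ := h
  exact ⟨k * a, l * b, mul_pos hk ha, mul_pos hl hb, by rw [pow_mul, pow_mul, e]⟩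

end Pool.Agent.P.MP_68214b_ag.DS
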