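import Pool.Agent.P.MP_68214b_ag.DSDef

open Polynomial Filter Asymptotics NumberField Topology

namespace Pool.Agent.P.MP_68214b_ag.DS

variable {K : Type*} [Field K]

theorem dso2_aeval {J : Type*} (x : J → ℕ → K) (P : MvPolynomial J K) (n : ℕ) :
    MvPolynomial.aeval x P n = MvPolynomial.eval (fun i => x i n) P := by
  induction P using MvPolynomial.induction_on with
  | C a => simp
  | add p q hp hq => simp only [map_add, Pi.add_apply, hp, hq]
  | mul_X p i hp => simp only [map_mul, Pi.mul_apply, hp, MvPolynomial.aeval_X, MvPolynomial.eval_X]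

theorem Dom.domA {J : Type*} {x : J → ℕ → K} (h : Dom x) :
    DomA (Algebra.adjoin K (Set.range x)) := by
  intro a ha b hb hab
  rw [Algebra.adjoin_range_eq_range_aeval] at ha hb
  obtain ⟨P, rfl⟩ := ha
  obtain ⟨Q, rfl⟩ := hb
  have h1 : Van x (P * Q) := hab.mono fun n hn => by
    rw [map_mul, ← dso2_aeval, ← dso2_aeval]; exact hn
  rcases h P Q h1 with h2 | h2
  · exact Or.inl (h2.mono fun n hn => (dso2_aeval x P n).trans hn)
  · exact Or.inr (h2.mono fun n hn => (dso2_aeval x Q n).trans hn)

theorem van_rename {I J : Type*} (x : J → ℕ → K) (e : I → J) (P : MvPolynomial I K) :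
    Van x (MvPolynomial.rename e P) ↔ Van (fun i => x (e i)) P := by
  unfold Van
  simp only [MvPolynomial.eval_rename]
  rfl

theorem Dom.comp {I J : Type*} {x : J → ℕ → K} (h : Dom x) (e : I → J) :
    Dom fun i => x (e i) := by
  intro P Q hPQ
  rw [← van_rename, map_mul] at hPQ
  exact (h _ _ hPQ).imp (van_rename x e P).1 (van_rename x e Q).1

theorem dso2_swap (G : K[X][X]) (x y : K) : (Bivariate.swap G).evalEval y x = G.evalEval x y := by
  induction G using Polynomial.induction_on' with
  | add p q hp hq => simp only [map_add, evalEval_add, hp, hq]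
  | monomial k c =>
    induction c using Polynomial.induction_on' with
    | add p q hp hq => simp only [map_add, evalEval_add, hp, hq]
    | monomial l c =>
      rw [Bivariate.swap_monomial_monomial]
      simp only [← C_mul_X_pow_eq_monomial, evalEval_mul, evalEval_pow, evalEval_C, evalEval_X,
        eval_mul, eval_C, eval_pow, eval_X]
      ring

theorem Dep.symm {a b : ℕ → K} (h : Dep a b) : Dep b a := by
  obtain ⟨G, hG, h⟩ := h
  refine ⟨Bivariate.swap G, fun h0 => hG ((map_eq_zero_iff _ Bivariate.swap.injective).1 h0),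
    h.mono fun n hn => ?_⟩
  rw [dso2_swap]
  exact hn

theorem dep_refl (a : ℕ → K) : Dep a a := by
  refine ⟨X - C X, X_sub_C_ne_zero _, Eventually.of_forall fun n => ?_⟩
  rw [evalEval_sub, evalEval_X, evalEval_C, eval_X, sub_self]

theorem Dep.of_prog {a b : ℕ → K} (h : Dep a b) (c : ℕ) {l : ℕ} (hl : 0 < l) :
    Dep (fun t => a (c + l * t)) fun t => b (c + l * t) := by
  obtain ⟨G, hG, h⟩ := h
  have ht : Tendsto (fun t => c + l * t) atTop atTop :=
    tendsto_atTop_mono (fun t => (Nat.le_mul_of_pos_left t hl).trans (Nat.le_add_left _ _))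
      tendsto_id
  exact ⟨G, hG, ht.eventually h⟩

theorem poly_mem {A : Subalgebra K (ℕ → K)} {a : ℕ → K} (ha : a ∈ A) (q : K[X]) :
    (fun n => q.eval (a n)) ∈ A := by
  induction q using Polynomial.induction_on' with
  | add p q hp hq =>
    simp only [eval_add]
    exact A.add_mem hp hq
  | monomial k c =>
    simp only [eval_monomial]
    exact A.mul_mem (A.algebraMap_mem c) (A.pow_mem ha k)

theorem dso2_mem {A : Subalgebra K (ℕ → K)} {a b : ℕ → K} (ha : a ∈ A) (hb : b ∈ A)
    (H : K[X][X]) : (fun n => H.evalEval (a n) (b n)) ∈ A := by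
  induction H using Polynomial.induction_on' with
  | add p q hp hq =>
    simp only [evalEval_add]
    exact A.add_mem hp hq
  | monomial k c =>
    simp only [← C_mul_X_pow_eq_monomial, evalEval_mul, evalEval_pow, evalEval_C, evalEval_X]
    exact A.mul_mem (poly_mem ha c) (A.pow_mem hb k)

theorem DomA.const {A : Subalgebra K (ℕ → K)} (hA : DomA A) {a : ℕ → K} (ha : a ∈ A)
    (h : Alg0 a) : ∃ c, ∀ᶠ n in atTop, a n = c := by
  classical
  have key : ∀ s : Finset K, (∀ᶠ n in atTop, (∏ c ∈ s, (X - C c)).eval (a n) = 0) →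
      ∃ c, ∀ᶠ n in atTop, a n = c := by
    intro s
    induction s using Finset.induction_on with
    | empty =>
      intro h0
      obtain ⟨n, hn⟩ := h0.exists
      simp at hn
    | insert c s hc ih =>
      intro h0
      have h1 := hA _ (poly_mem ha (X - C c)) _ (poly_mem ha (∏ c ∈ s, (X - C c)))
        (h0.mono fun n hn => by rw [Finset.prod_insert hc, eval_mul] at hn; exact hn)
      rcases h1 with h1 | h1
      · exact ⟨c, h1.mono fun n hn => by simpa [sub_eq_zero] using hn⟩
      · exact ih h1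
  obtain ⟨g, hg, h⟩ := h
  refine key g.roots.toFinset (h.mono fun n hn => ?_)
  rw [eval_prod]
  refine Finset.prod_eq_zero (i := a n) ?_ (by simp)
  exact Multiset.mem_toFinset.2 ((mem_roots hg).2 hn)

theorem DomA.prim {A : Subalgebra K (ℕ → K)} (hA : DomA A) {a b : ℕ → K} (ha : a ∈ A) (hb : b ∈ A)
    (h0 : ¬ Alg0 a) (h : Dep a b) : ∃ G : K[X][X], (∀ c : K, G.map (evalRingHom c) ≠ 0) ∧
      ∀ᶠ n in atTop, G.evalEval (a n) (b n) = 0 := by
  classical
  obtain ⟨G, hG, h⟩ := h
  have h1 := hA _ (poly_mem ha G.content) _ (dso2_mem ha hb G.primPart) (h.mono fun n hn => by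
    rw [G.eq_C_content_mul_primPart, evalEval_mul, evalEval_C] at hn
    exact hn)
  rcases h1 with h1 | h1
  · exact absurd ⟨G.content, fun hc => hG (content_eq_zero_iff.1 hc), h1⟩ h0
  · refine ⟨G.primPart, fun c hc => ?_, h1⟩
    refine not_isUnit_X_sub_C c (G.isPrimitive_primPart _ ((C_dvd_iff_dvd_coeff _ _).2 fun k => ?_))
    have := congrArg (fun p => p.coeff k) hc
    simp only [coeff_map, coeff_zero, coe_evalRingHom] at this
    exact dvd_iff_isRoot.2 this

theorem dep_of_mv {J : Type*} {x : J → ℕ → K} {i j : J} (hij : i ≠ j) (hJ : ∀ k, k = i ∨ k = j)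
    {P : MvPolynomial J K} (hP : P ≠ 0) (h : Van x P) : Dep (x i) (x j) := by
  classical
  let Φ : MvPolynomial J K →+* K[X][X] :=
    MvPolynomial.eval₂Hom (C.comp C) fun k => if k = i then C X else X
  let Ψ : K[X][X] →+* MvPolynomial J K :=
    eval₂RingHom (eval₂RingHom MvPolynomial.C (MvPolynomial.X i)) (MvPolynomial.X j)
  have h1 : Ψ.comp Φ = RingHom.id _ := by
    refine MvPolynomial.ringHom_ext (fun r => by simp [Φ, Ψ]) fun k => ?_
    rcases hJ k with rfl | rfl
    · simp [Φ, Ψ]
    · simp [Φ, Ψ, hij.symm]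
  have h2 : ∀ n, (evalEvalRingHom (x i n) (x j n)).comp Φ = MvPolynomial.eval fun k => x k n := by
    intro n
    refine MvPolynomial.ringHom_ext (fun r => by simp [Φ]) fun k => ?_
    rcases hJ k with rfl | rfl
    · simp [Φ]
    · simp [Φ, hij.symm]
  refine ⟨Φ P, fun h0 => hP ?_, h.mono fun n hn => ?_⟩
  · have := DFunLike.congr_fun h1 P
    rw [RingHom.comp_apply, h0, map_zero] at this
    exact this.symm
  · rw [← h2 n] at hn
    simpa using hn

theorem alg0_of_mv {J : Type*} {x : J → ℕ → K} {i : J} (hJ : ∀ k, k = i)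
    {P : MvPolynomial J K} (hP : P ≠ 0) (h : Van x P) : Alg0 (x i) := by
  let Φ : MvPolynomial J K →+* K[X] := MvPolynomial.eval₂Hom C fun _ => X
  let Ψ : K[X] →+* MvPolynomial J K := eval₂RingHom MvPolynomial.C (MvPolynomial.X i)
  have h1 : Ψ.comp Φ = RingHom.id _ := by
    refine MvPolynomial.ringHom_ext (fun r => by simp [Φ, Ψ]) fun k => ?_
    rw [hJ k]
    simp [Φ, Ψ]
  have h2 : ∀ n, (evalRingHom (x i n)).comp Φ = MvPolynomial.eval fun k => x k n := by
    intro n
    refine MvPolynomial.ringHom_ext (fun r => by simp [Φ]) fun k => ?_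
    rw [hJ k]
    simp [Φ]
  refine ⟨Φ P, fun h0 => hP ?_, h.mono fun n hn => ?_⟩
  · have := DFunLike.congr_fun h1 P
    rw [RingHom.comp_apply, h0, map_zero] at this
    exact this.symm
  · rw [← h2 n] at hn
    exact hn

theorem not_van_empty {J : Type*} [IsEmpty J] {x : J → ℕ → K} {P : MvPolynomial J K} (hP : P ≠ 0) :
    ¬ Van x P := by
  intro h
  obtain ⟨n, hn⟩ := h.exists
  rw [MvPolynomial.eq_C_of_isEmpty P] at hn hP
  rw [MvPolynomial.eval_C] at hn
  exact hP (by rw [hn, map_zero])

end Pool.Agent.P.MP_68214b_ag.DS
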