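import Pool.Agent.P.MP_68214b_ag.DSN5

open Polynomial Filter Asymptotics NumberField Topology

namespace Pool.Agent.P.MP_68214b_ag.DS

theorem dss7_mono {𝓕 : Filter ℕ} {d : ℕ} {a b : ℝ} (h0 : 0 ≤ a) (h : a ≤ b) :
    (fun n => a ^ d ^ n) =O[𝓕] fun n => b ^ d ^ n := by
  refine isBigO_of_le _ fun n => ?_
  rw [Real.norm_of_nonneg (pow_nonneg h0 _), Real.norm_of_nonneg (pow_nonneg (h0.trans h) _)]
  exact pow_le_pow_left₀ h0 h _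

theorem dss7_main {𝓕 : Filter ℕ} {d : ℕ} (α v : ℂ) {b : ℝ} (h : ‖v‖ ≤ b) :
    (fun n => α * v ^ d ^ n) =O[𝓕] fun n => b ^ d ^ n := by
  refine IsBigO.const_mul_left (isBigO_of_le _ fun n => ?_) α
  rw [norm_pow, Real.norm_of_nonneg (pow_nonneg ((norm_nonneg v).trans h) _)]
  exact pow_le_pow_left₀ (norm_nonneg v) h _

theorem dss7_no {𝓕 : Filter ℕ} [𝓕.NeBot] (hF : 𝓕 ≤ atTop) {d : ℕ} (hd : 2 ≤ d) {a t ρ : ℝ}
    (ha : 0 < a) (h0 : 0 < t) (ht : t < ρ) {r : ℕ → ℂ} (hr : ∀ᶠ n in 𝓕, a * ρ ^ d ^ n ≤ ‖r n‖)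
    (hO : r =O[𝓕] fun n => t ^ d ^ n) : False := by
  obtain ⟨C, hC⟩ := hO.bound
  have hρ : 0 < ρ := h0.trans ht
  have h1 := ((tend_pp (div_pos h0 hρ).le ((div_lt_one hρ).2 ht) hd).mono_left hF).const_mul C
  rw [mul_zero] at h1
  refine absurd (ge_of_tendsto h1 ?_) (not_le.2 ha)
  filter_upwards [hr, hC] with n h2 h3
  rw [Real.norm_of_nonneg (pow_pos h0 _).le] at h3
  rw [div_pow, ← mul_div_assoc, le_div_iff₀ (pow_pos hρ _)]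
  exact h2.trans h3

theorem dss7_pow (c : ℂ) (k : ℕ) :
    ∃ M : ℝ, 0 ≤ M ∧ ∀ q : ℂ, ‖q‖ = 1 → ‖q ^ k - c ^ k‖ ≤ M * ‖q - c‖ := by
  induction k with
  | zero => exact ⟨0, le_rfl, fun q _ => by simp⟩
  | succ k ih =>
    obtain ⟨M, h0, hM⟩ := ih
    refine ⟨M + ‖c‖ ^ k, by positivity, fun q hq => ?_⟩
    have e : q ^ (k + 1) - c ^ (k + 1) = q * (q ^ k - c ^ k) + c ^ k * (q - c) := by ring
    rw [e]
    refine (norm_add_le _ _).trans ?_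
    rw [norm_mul, norm_mul, hq, norm_pow, one_mul, add_mul]
    linarith [hM q hq]

theorem sml_of_bdd {𝓕 : Filter ℕ} {d : ℕ} {r : ℕ → ℂ} (h : r =O[𝓕] fun _ => (1 : ℝ)) :
    Sml 𝓕 d r := by
  intro ρ hρ
  refine h.trans (isBigO_of_le _ fun n => ?_)
  rw [norm_one, Real.norm_of_nonneg (pow_nonneg (by linarith) _)]
  exact one_le_pow₀ hρ.le

theorem fin_top {ι : Type*} [DecidableEq ι] (s : Finset ι) {𝓕 : Filter ℕ} [𝓕.NeBot] (hF : 𝓕 ≤ atTop)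
    {d : ℕ} (hd : 2 ≤ d) (r : ι → ℕ → ℂ) (hs : (fun n => ∑ b ∈ s, r b n) =O[𝓕] fun _ => (1 : ℝ))
    (B : Finset ι) (hB : B ⊆ s) (hne : B.Nonempty) (α z : ι → ℂ) (E : ι → ℕ)
    (hbig : ∀ b ∈ B, Big 𝓕 d (r b) (α b) (z b) (E b)) (hsm : ∀ b ∈ s, b ∉ B → Sml 𝓕 d (r b)) :
    ∃ (T : Finset ι) (ρ lam : ℝ), T ⊆ B ∧ 2 ≤ T.card ∧ 1 < ρ ∧ 0 ≤ lam ∧ lam < 1 ∧
      (∀ b ∈ T, ‖z b‖ ^ E b = ρ) ∧
      (fun n => ∑ b ∈ T, α b * (z b ^ E b) ^ d ^ n) =O[𝓕] fun n => (lam * ρ) ^ d ^ n := by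
  classical
  obtain ⟨b0, hb0, hmax⟩ := Finset.exists_max_image B (fun b => ‖z b‖ ^ E b) hne
  set ρ := ‖z b0‖ ^ E b0 with hρ
  have h1 : 1 < ρ := one_lt_pow₀ (hbig b0 hb0).s1 (hbig b0 hb0).e1.ne'
  have hev : ∀ c < ρ, ∀ᶠ t in 𝓝[<] ρ, c < t := fun c hc =>
    mem_of_superset (Ioo_mem_nhdsLT hc) fun _ h => h.1
  have hA : ∀ᶠ t in 𝓝[<] ρ, ∀ b ∈ B, ‖z b‖ ^ (E b - 1) < t :=
    (Finset.eventually_all B).2 fun b hb => hev _ (lt_of_lt_of_le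
      (pow_lt_pow_right₀ (hbig b hb).s1 (Nat.sub_one_lt (hbig b hb).e1.ne')) (hmax b hb))
  have hC : ∀ᶠ t in 𝓝[<] ρ, ∀ b ∈ B, ‖z b‖ ^ E b ≠ ρ → ‖z b‖ ^ E b < t :=
    (Finset.eventually_all B).2 fun b hb => by
      by_cases he : ‖z b‖ ^ E b = ρ
      · exact Eventually.of_forall fun t h => absurd he h
      · exact (hev _ (lt_of_le_of_ne (hmax b hb) he)).mono fun t h _ => h
  obtain ⟨t, ⟨⟨ht1, htA⟩, htC⟩, htρ⟩ :=
    ((((hev 1 h1).and hA).and hC).and self_mem_nhdsWithin).exists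
  have htρ' : t < ρ := htρ
  set T := B.filter fun b => ‖z b‖ ^ E b = ρ with hT
  have hTB : T ⊆ B := Finset.filter_subset _ _
  have happ : ∀ b ∈ B, (fun n => r b n - α b * (z b ^ E b) ^ d ^ n) =O[𝓕] fun n => t ^ d ^ n :=
    fun b hb => (hbig b hb).app.trans (dss7_mono (by positivity) (htA b hb).le)
  have hrest : ∀ b ∈ s \ T, r b =O[𝓕] fun n => t ^ d ^ n := by
    intro b hb
    obtain ⟨hbs, hbT⟩ := Finset.mem_sdiff.1 hb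
    by_cases hbB : b ∈ B
    · have hne' : ‖z b‖ ^ E b ≠ ρ := fun h => hbT (Finset.mem_filter.2 ⟨hbB, h⟩)
      have := (happ b hbB).add (dss7_main (α b) (z b ^ E b)
        (by rw [norm_pow]; exact (htC b hbB hne').le))
      simpa using this
    · exact hsm b hbs hbB t ht1
  have hmain : (fun n => ∑ b ∈ T, α b * (z b ^ E b) ^ d ^ n) =O[𝓕] fun n => t ^ d ^ n := by
    have := ((sml_of_bdd hs t ht1).sub (IsBigO.sum hrest)).sub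
      (IsBigO.sum fun b hb => happ b (hTB hb))
    refine this.congr_left fun n => ?_
    rw [← Finset.sum_sdiff (hTB.trans hB), Finset.sum_apply, Finset.sum_apply,
      Finset.sum_sub_distrib]
    ring
  have hρ0 : 0 < ρ := by linarith
  refine ⟨T, ρ, t / ρ, hTB, ?_, h1, by positivity, (div_lt_one hρ0).2 htρ',
    fun b hb => (Finset.mem_filter.1 hb).2, by rwa [div_mul_cancel₀ _ hρ0.ne']⟩
  by_contra hc
  have hb0T : b0 ∈ T := Finset.mem_filter.2 ⟨hb0, rfl⟩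
  have hT1 : T = {b0} := Finset.eq_singleton_iff_unique_mem.2
    ⟨hb0T, fun b hb => Finset.card_le_one.1 (by omega) b hb b0 hb0T⟩
  rw [hT1] at hmain
  refine dss7_no hF hd (norm_pos_iff.2 (hbig b0 hb0).a0) (by linarith) htρ'
    (Eventually.of_forall fun n => ?_) hmain
  rw [Finset.sum_singleton, norm_mul, norm_pow, norm_pow]

theorem pair_near {𝓕 : Filter ℕ} {d : ℕ} {v w α α' : ℂ} {ρ lam : ℝ} (hρ : 1 < ρ) (h0 : 0 ≤ lam)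
    (h1 : lam < 1) (hv : ‖v‖ = ρ) (hw : ‖w‖ = ρ) (hα : α ≠ 0)
    (h : (fun n => α * v ^ d ^ n + α' * w ^ d ^ n) =O[𝓕] fun n => (lam * ρ) ^ d ^ n) (k : ℕ) :
    ∃ C : ℝ, ∀ᶠ n in 𝓕, ‖(v ^ k) ^ d ^ n / (w ^ k) ^ d ^ n - (-α' / α) ^ k‖ ≤ C * lam ^ d ^ n := by
  obtain ⟨C, hC⟩ := h.bound
  obtain ⟨M, hM0, hM⟩ := dss7_pow (-α' / α) k
  have hρ0 : 0 < ρ := by linarith
  have hw0 : w ≠ 0 := norm_pos_iff.1 (hw ▸ hρ0)
  have hα0 : 0 < ‖α‖ := norm_pos_iff.2 hα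
  refine ⟨M * (C / ‖α‖), hC.mono fun n hn => ?_⟩
  have hp : 0 < ρ ^ d ^ n := pow_pos hρ0 _
  have hq : ‖v ^ d ^ n / w ^ d ^ n‖ = 1 := by
    rw [norm_div, norm_pow, norm_pow, hv, hw, div_self hp.ne']
  rw [pow_right_comm v, pow_right_comm w, ← div_pow, mul_assoc]
  refine (hM _ hq).trans (mul_le_mul_of_nonneg_left ?_ hM0)
  have hwn : w ^ d ^ n ≠ 0 := pow_ne_zero _ hw0
  have e : v ^ d ^ n / w ^ d ^ n - -α' / α =
      (α * v ^ d ^ n + α' * w ^ d ^ n) / (α * w ^ d ^ n) := by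
    field_simp
    ring
  rw [Real.norm_of_nonneg (by positivity), mul_pow] at hn
  rw [e, norm_div, norm_mul, norm_pow, hw, div_le_iff₀ (by positivity)]
  refine hn.trans (le_of_eq ?_)
  field_simp

theorem sml_of_lt {𝓕 : Filter ℕ} (hF : 𝓕 ≤ atTop) {e d : ℕ} (h : e < d) {Λ : ℝ} (hΛ : 1 ≤ Λ)
    {r : ℕ → ℂ} (hr : r =O[𝓕] fun n => Λ ^ e ^ n) : Sml 𝓕 d r := by
  intro ρ hρ
  refine hr.trans (IsBigO.of_bound' (((ev_pp_le h hΛ hρ).filter_mono hF).mono fun n hn => ?_))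
  rwa [Real.norm_of_nonneg (pow_nonneg (by linarith) _),
    Real.norm_of_nonneg (pow_nonneg (by linarith) _)]

theorem not_sml {𝓕 : Filter ℕ} [𝓕.NeBot] (hF : 𝓕 ≤ atTop) {d : ℕ} (hd : 2 ≤ d) {ρ : ℝ} (hρ : 1 < ρ)
    {r : ℕ → ℂ} (hr : ∀ᶠ n in 𝓕, ρ ^ d ^ n ≤ ‖r n‖) : ¬ Sml 𝓕 d r := by
  intro hs
  exact dss7_no hF hd one_pos (t := (1 + ρ) / 2) (ρ := ρ) (by linarith) (by linarith)
    (hr.mono fun n hn => by rwa [one_mul]) (hs _ (by linarith))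

end Pool.Agent.P.MP_68214b_ag.DS
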