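import Pool.Agent.P.MP_68214b_ag.DSN2

open Polynomial Filter Asymptotics NumberField Topology

namespace Pool.Agent.P.MP_68214b_ag.DS

variable {R S : Type*} [CommRing R] [CommRing S]

theorem Bd.mono {W : R[X][X]} {a b a' b' : ℕ} (h : Bd W a b) (h1 : a ≤ a') (h2 : b ≤ b') :
    Bd W a' b' := ⟨fun j => (h.1 j).trans h1, h.2.trans h2⟩

theorem exists_bd (W : R[X][X]) : ∃ D, Bd W D D := by
  refine ⟨W.natDegree + W.support.sup fun j => (W.coeff j).natDegree, fun j => ?_,
    Nat.le_add_right _ _⟩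
  by_cases hj : j ∈ W.support
  · exact (Finset.le_sup (f := fun j => (W.coeff j).natDegree) hj).trans (Nat.le_add_left _ _)
  · rw [notMem_support_iff.1 hj]; simp

theorem bd_CC (c : R) : Bd (C (C c) : R[X][X]) 0 0 := by
  refine ⟨fun j => ?_, by simp⟩
  rw [coeff_C]
  split_ifs <;> simp

theorem dsn3_zero (a b : ℕ) : Bd (0 : R[X][X]) a b := ⟨fun j => by simp, by simp⟩

theorem Bd.add {W V : R[X][X]} {a b : ℕ} (h : Bd W a b) (h' : Bd V a b) : Bd (W + V) a b :=
  ⟨fun j => by rw [coeff_add]; exact natDegree_add_le_of_degree_le (h.1 j) (h'.1 j),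
    natDegree_add_le_of_degree_le h.2 h'.2⟩

theorem Bd.neg {W : R[X][X]} {a b : ℕ} (h : Bd W a b) : Bd (-W) a b :=
  ⟨fun j => by rw [coeff_neg, natDegree_neg]; exact h.1 j, by rw [natDegree_neg]; exact h.2⟩

theorem Bd.mul {W V : R[X][X]} {a b a' b' : ℕ} (h : Bd W a b) (h' : Bd V a' b') :
    Bd (W * V) (a + a') (b + b') := by
  refine ⟨fun j => ?_, natDegree_mul_le.trans (add_le_add h.2 h'.2)⟩
  rw [coeff_mul]
  exact natDegree_sum_le_of_forall_le _ _ fun x _ =>
    natDegree_mul_le.trans (add_le_add (h.1 _) (h'.1 _))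

theorem bd_sum {ι : Type*} (s : Finset ι) {g : ι → R[X][X]} {a b : ℕ} (h : ∀ i ∈ s, Bd (g i) a b) :
    Bd (∑ i ∈ s, g i) a b :=
  Finset.sum_induction g (fun W => Bd W a b) (fun _ _ => Bd.add) (dsn3_zero a b) h

theorem Bd.map2 (φ : R →+* S) {W : R[X][X]} {a b : ℕ} (h : Bd W a b) : Bd (map2 φ W) a b := by
  refine ⟨fun j => ?_, natDegree_map_le.trans h.2⟩
  rw [coe_mapRingHom, coeff_map]
  exact natDegree_map_le.trans (h.1 j)

theorem bd_cmb {ι : Type*} [Fintype ι] (φ : R →+* S) {P : ι → R[X][X]} (c : ι → S) {a b : ℕ}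
    (h : ∀ k, Bd (P k) a b) : Bd (cmb φ P c) a b :=
  bd_sum _ fun k _ => ((bd_CC (c k)).mul ((h k).map2 φ)).mono (by omega) (by omega)

theorem Bd.dX {W : R[X][X]} {a b : ℕ} (h : Bd W a b) : Bd (dX W) a b := by
  refine ⟨fun j => ?_, ?_⟩
  · rw [coeff_dX]
    exact (natDegree_derivative_le _).trans ((Nat.sub_le _ _).trans (h.1 j))
  · rw [natDegree_le_iff_coeff_eq_zero]
    intro N hN
    rw [coeff_dX, coeff_eq_zero_of_natDegree_lt (h.2.trans_lt hN), derivative_zero]

theorem Bd.derivative {W : R[X][X]} {a b : ℕ} (h : Bd W a b) : Bd (derivative W) a b := by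
  refine ⟨fun j => ?_, (natDegree_derivative_le _).trans ((Nat.sub_le _ _).trans h.2)⟩
  rw [coeff_derivative]
  refine natDegree_mul_le.trans ?_
  have : ((j : R[X]) + 1).natDegree = 0 := by
    rw [← Nat.cast_succ]; exact natDegree_natCast _
  rw [this]
  exact h.1 _

theorem Bd.hasse {W : R[X][X]} {a b : ℕ} (h : Bd W a b) (j : ℕ) : Bd (hasseDeriv j W) a b := by
  refine ⟨fun k => ?_, (natDegree_hasseDeriv_le _ _).trans ((Nat.sub_le _ _).trans h.2)⟩
  rw [hasseDeriv_coeff]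
  refine natDegree_mul_le.trans ?_
  rw [natDegree_natCast, zero_add]
  exact h.1 _

theorem Bd.der {g h W : R[X][X]} {e1 e2 a b : ℕ} (hg : Bd g e1 e2) (hh : Bd h e1 e2)
    (hW : Bd W a b) : Bd (der g h W) (a + e1) (b + e2) :=
  ((hg.mul hW.dX).add (hh.mul hW.derivative)).mono (by omega) (by omega)

theorem dsn3_prod {ι : Type*} (s : Finset ι) {g : ι → R[X][X]} {a b : ℕ}
    (h : ∀ i ∈ s, Bd (g i) a b) : Bd (∏ i ∈ s, g i) (s.card * a) (s.card * b) := by
  classical
  induction s using Finset.induction_on with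
  | empty => simpa using bd_CC (1 : R)
  | insert x s hx ih =>
    rw [Finset.prod_insert hx, Finset.card_insert_of_notMem hx]
    exact ((h x (Finset.mem_insert_self _ _)).mul
      (ih fun i hi => h i (Finset.mem_insert_of_mem hi))).mono (by ring_nf; rfl) (by ring_nf; rfl)

theorem bd_det {n : ℕ} (M : Matrix (Fin n) (Fin n) R[X][X]) {a b : ℕ} (h : ∀ i j, Bd (M i j) a b) :
    Bd M.det (n * a) (n * b) := by
  rw [Matrix.det_apply]
  refine bd_sum _ fun σ _ => ?_
  have := dsn3_prod Finset.univ (g := fun i => M (σ i) i) fun i _ => h _ _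
  rw [Finset.card_univ, Fintype.card_fin] at this
  rcases Int.units_eq_one_or (Equiv.Perm.sign σ) with e | e <;> rw [e]
  · rwa [one_smul]
  · rw [Units.neg_smul, one_smul]
    exact this.neg

theorem dsn3_swap (W : R[X][X]) (i j : ℕ) :
    ((Bivariate.swap W).coeff i).coeff j = (W.coeff j).coeff i := by
  induction W using Polynomial.induction_on' with
  | add p q hp hq => simp only [map_add, coeff_add, hp, hq]
  | monomial n a =>
    induction a using Polynomial.induction_on' with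
    | add p q hp hq => simp only [map_add, coeff_add, hp, hq]
    | monomial m c =>
      rw [Bivariate.swap_monomial_monomial]
      simp only [coeff_monomial]
      split_ifs <;> simp [coeff_monomial, *]

theorem dsn3_swap_le {W : R[X][X]} {a : ℕ} :
    (Bivariate.swap W).natDegree ≤ a ↔ ∀ j, (W.coeff j).natDegree ≤ a := by
  simp only [natDegree_le_iff_coeff_eq_zero]
  constructor
  · intro h j N hN
    rw [← dsn3_swap, h N hN, coeff_zero]
  · intro h N hN
    ext j
    rw [dsn3_swap, h j N hN, coeff_zero]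

theorem bd_of_pow_mul [IsDomain R] {W A V : R[X][X]} {n a b : ℕ} (h : W = A ^ n * V) (hW : W ≠ 0)
    (hB : Bd W a b) :
    (∀ i j, n * (A.coeff i).natDegree + (V.coeff j).natDegree ≤ a) ∧
      n * A.natDegree + V.natDegree ≤ b := by
  have key : ∀ {W A V : R[X][X]}, W = A ^ n * V → W ≠ 0 →
      n * A.natDegree + V.natDegree = W.natDegree := fun {W A V} h hW => by
    subst h
    rw [natDegree_mul (left_ne_zero_of_mul hW) (right_ne_zero_of_mul hW), natDegree_pow]
  refine ⟨fun i j => ?_, (key h hW).trans_le hB.2⟩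
  have h1 := key (W := Bivariate.swap W) (A := Bivariate.swap A) (V := Bivariate.swap V)
    (by rw [h, map_mul, map_pow]) ((map_ne_zero_iff _ Bivariate.swap.injective).2 hW)
  have h2 := dsn3_swap_le.2 hB.1
  have h3 := dsn3_swap_le.1 (le_refl (Bivariate.swap A).natDegree) i
  have h4 := dsn3_swap_le.1 (le_refl (Bivariate.swap V).natDegree) j
  exact (add_le_add (Nat.mul_le_mul_left n h3) h4).trans (h1.trans_le h2)

theorem wr_bound (ν : Sn R) {g h : R[X][X]} {e1 e2 : ℕ} (hg : Bd g e1 e2) (hh : Bd h e1 e2) {γ : ℝ}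
    (hγ : 1 ≤ γ) (hgγ : ν.l2.f g ≤ γ) (hhγ : ν.l2.f h ≤ γ) {n : ℕ} (A : Fin n → R[X][X]) {a b : ℕ}
    {H : ℝ} (hH : 1 ≤ H) (hA : ∀ i, Bd (A i) a b ∧ ν.l2.f (A i) ≤ H) :
    Bd (wr (der g h) A) (n * (a + n * e1)) (n * (b + n * e2)) ∧
      ν.l2.f (wr (der g h) A) ≤ (n * (γ * ((a + b + n * (e1 + e2) + 1 : ℕ) : ℝ)) ^ n * H) ^ n := by
  set M : ℝ := ((a + b + n * (e1 + e2) + 1 : ℕ) : ℝ) with hM
  have hM1 : 1 ≤ M := by rw [hM]; exact_mod_cast Nat.le_add_left _ _
  have hγM : 1 ≤ γ * M := one_le_mul_of_one_le_of_one_le hγ hM1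
  have key : ∀ i j, j ≤ n → Bd ((der g h)^[j] (A i)) (a + j * e1) (b + j * e2) ∧
      ν.l2.f ((der g h)^[j] (A i)) ≤ (γ * M) ^ j * H := by
    intro i j
    induction j with
    | zero => intro _; simpa using hA i
    | succ j ih =>
      intro hj
      obtain ⟨h1, h2⟩ := ih (by omega)
      rw [Function.iterate_succ_apply']
      refine ⟨(hg.der hh h1).mono (by ring_nf; rfl) (by ring_nf; rfl), ?_⟩
      set W := (der g h)^[j] (A i)
      have a1 := ν.l2_dX h1
      have a2 := ν.l1.l1_derivative h1.2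
      have n0 := ν.l2.nonneg W
      have b1 : ν.l2.f (g * dX W) ≤ γ * (((a + j * e1 : ℕ) : ℝ) * ν.l2.f W) :=
        (ν.l2.mul _ _).trans (mul_le_mul hgγ a1 (ν.l2.nonneg _) (by linarith))
      have b2 : ν.l2.f (h * derivative W) ≤ γ * (((b + j * e2 : ℕ) : ℝ) * ν.l2.f W) :=
        (ν.l2.mul _ _).trans (mul_le_mul hhγ a2 (ν.l2.nonneg _) (by linarith))
      have c1 : ((a + j * e1 : ℕ) : ℝ) + ((b + j * e2 : ℕ) : ℝ) ≤ M := by
        rw [hM]
        have : j * (e1 + e2) ≤ n * (e1 + e2) := Nat.mul_le_mul_right _ (by omega)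
        exact_mod_cast (by nlinarith : a + j * e1 + (b + j * e2) ≤ a + b + n * (e1 + e2) + 1)
      calc ν.l2.f (der g h W) ≤ _ := ν.l2.add _ _
        _ ≤ γ * ((((a + j * e1 : ℕ) : ℝ) + ((b + j * e2 : ℕ) : ℝ)) * ν.l2.f W) := by linarith
        _ ≤ γ * (M * ((γ * M) ^ j * H)) :=
          mul_le_mul_of_nonneg_left (mul_le_mul c1 h2 n0 (by linarith)) (by linarith)
        _ = (γ * M) ^ (j + 1) * H := by ring
  refine ⟨bd_det _ fun j i => ((key i j j.2.le).1).mono
    (Nat.add_le_add_left (Nat.mul_le_mul_right _ j.2.le) _)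
    (Nat.add_le_add_left (Nat.mul_le_mul_right _ j.2.le) _), (ν.l2.det_le _).trans ?_⟩
  calc _ ≤ ∏ _j : Fin n, (n * (γ * M) ^ n * H) := by
        refine Finset.prod_le_prod (fun _ _ => Finset.sum_nonneg fun _ _ => ν.l2.nonneg _)
          fun i _ => ?_
        calc _ ≤ ∑ _j : Fin n, (γ * M) ^ n * H := Finset.sum_le_sum fun j _ =>
              (key i j j.2.le).2.trans (mul_le_mul_of_nonneg_right
                (pow_le_pow_right₀ hγM j.2.le) (by linarith))
          _ = _ := by simp [mul_assoc]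
    _ = _ := by simp

end Pool.Agent.P.MP_68214b_ag.DS
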