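import Pool.Agent.P.MP_68214b_ag.DSB4
import Pool.Agent.P.MP_68214b_ag.DSB1

open Polynomial Filter Asymptotics NumberField Topology

namespace Pool.Agent.P.MP_68214b_ag.DS

theorem coeff_ser {F : Type*} [Field F] (p : PowerSeries F) {a : ℕ} (ha : 0 < a) (β : F) (k : ℕ) :
    PowerSeries.coeff k (ser p a β) =
      if a ∣ k then β * (β⁻¹ ^ (k / a) * PowerSeries.coeff (k / a) p) else 0 := by
  rw [ser, ex_eq ha.ne', PowerSeries.coeff_C_mul, PowerSeries.coeff_expand]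
  split_ifs
  · rw [PowerSeries.coeff_rescale]
  · rw [mul_zero]

theorem ser_map {F L : Type*} [Field F] [Field L] (φ : F →+* L) (p : PowerSeries F) {a : ℕ}
    (ha : 0 < a) (β : F) :
    PowerSeries.map φ (ser p a β) = ser (PowerSeries.map φ p) a (φ β) := by
  ext k
  rw [PowerSeries.coeff_map, coeff_ser _ ha, coeff_ser _ ha]
  split_ifs <;> simp

theorem tau_lt' {u τ γ : ℂ} (hu : 1 < ‖u‖) {a : ℕ} (ha : 0 < a) (h : u * τ ^ a = γ) (hγ : ‖γ‖ = 1) :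
    τ ≠ 0 ∧ ‖τ‖ < 1 := by
  have h1 : ‖u‖ * ‖τ‖ ^ a = 1 := by rw [← norm_pow, ← norm_mul, h, hγ]
  refine ⟨fun e => ?_, lt_of_not_ge fun e => ?_⟩
  · rw [e, norm_zero, zero_pow ha.ne', mul_zero] at h1
    exact zero_ne_one h1
  · have h2 : 1 ≤ ‖τ‖ ^ a := one_le_pow₀ e
    nlinarith

theorem dss2_coeff (p : PowerSeries ℂ) {a : ℕ} (ha : 0 < a) (β : ℂ) {T k : ℕ} (hk : k < T) :
    PowerSeries.coeff k (∑ j ∈ Finset.range T, PowerSeries.C β * (PowerSeries.C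
      (PowerSeries.coeff j p) * (PowerSeries.X ^ a * PowerSeries.C β⁻¹) ^ j)) =
      PowerSeries.coeff k (ser p a β) := by
  have h1 : ∀ j, PowerSeries.coeff k (PowerSeries.C β * (PowerSeries.C
      (PowerSeries.coeff j p) * (PowerSeries.X ^ a * PowerSeries.C β⁻¹) ^ j)) =
      if k = a * j then β * (β⁻¹ ^ j * PowerSeries.coeff j p) else 0 := by
    intro j
    rw [mul_pow, ← pow_mul, ← map_pow, PowerSeries.coeff_C_mul, PowerSeries.coeff_C_mul,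
      PowerSeries.coeff_mul_C, PowerSeries.coeff_X_pow]
    split_ifs <;> ring
  rw [map_sum, Finset.sum_congr rfl fun j _ => h1 j, coeff_ser _ ha]
  split_ifs with hd
  · obtain ⟨j, rfl⟩ := hd
    rw [Nat.mul_div_cancel_left j ha, Finset.sum_eq_single j (fun i _ hi => if_neg fun e =>
      hi (Nat.eq_of_mul_eq_mul_left ha e).symm) fun hj => absurd (Finset.mem_range.2
        (lt_of_le_of_lt (Nat.le_mul_of_pos_left j ha) hk)) hj, if_pos rfl]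
  · exact Finset.sum_eq_zero fun j _ => if_neg fun e => hd ⟨j, e⟩

theorem ap {K : Type*} [Field K] {σ : K →+* ℂ} {d : ℕ} {x : ℕ → K} {p : PowerSeries K} {u : ℂ}
    (h : Esc σ d x p u) {a : ℕ} (ha : 0 < a) {τ γ β : ℂ} (hτ : u * τ ^ a = γ)
    (hγ : ‖γ‖ = 1) (hβ : ‖β‖ = 1) {𝓕 : Filter ℕ} (hF : 𝓕 ≤ atTop) {T : ℕ}
    (hn : (fun n => γ ^ d ^ n - β) =O[𝓕] fun n => (τ ^ d ^ n) ^ T) :
    As 𝓕 (fun n => τ ^ d ^ n) T (fun n => σ (x n) * (τ ^ d ^ n) ^ a)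
      (ser (PowerSeries.map σ p) a β) := by
  obtain ⟨-, h1⟩ := tau_lt' h.one_lt ha hτ hγ
  have ht1 : ∀ n, ‖τ ^ d ^ n‖ ≤ 1 := fun n => by
    rw [norm_pow]
    exact pow_le_one₀ (norm_nonneg _) h1.le
  have ht : ∀ᶠ n in 𝓕, ‖τ ^ d ^ n‖ ≤ 1 := Eventually.of_forall ht1
  have hg : ∀ n, ‖γ ^ d ^ n‖ = 1 := fun n => by rw [norm_pow, hγ, one_pow]
  have hg0 : ∀ n, γ ^ d ^ n ≠ 0 := fun n => norm_ne_zero_iff.1 (by rw [hg]; exact one_ne_zero)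
  have hβ0 : β ≠ 0 := norm_ne_zero_iff.1 (by rw [hβ]; exact one_ne_zero)
  have hu0 : u ≠ 0 := norm_ne_zero_iff.1 (zero_lt_one.trans h.one_lt).ne'
  have hU : ∀ n, (u ^ d ^ n)⁻¹ = (τ ^ d ^ n) ^ a * (γ ^ d ^ n)⁻¹ := fun n => by
    have e : γ ^ d ^ n = u ^ d ^ n * (τ ^ d ^ n) ^ a := by
      rw [← hτ, mul_pow, ← pow_mul, ← pow_mul, mul_comm a]
    have := hg0 n
    have := pow_ne_zero (d ^ n) hu0
    field_simp
    exact e
  have a1 : As 𝓕 (fun n => τ ^ d ^ n) T (fun n => γ ^ d ^ n) (PowerSeries.C β) :=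
    (as_const ht β).of_close hn
  have a2 : As 𝓕 (fun n => τ ^ d ^ n) T (fun n => (γ ^ d ^ n)⁻¹) (PowerSeries.C β⁻¹) := by
    refine (as_const ht β⁻¹).of_close (IsBigO.trans (isBigO_of_le _ fun n => le_of_eq ?_) hn)
    rw [inv_sub_inv (hg0 n) hβ0, norm_div, norm_mul, hg, hβ, mul_one, div_one, norm_sub_rev]
  have a3 := as_sum (Finset.range T) fun j _ => a1.mul ht
    ((as_const ht (PowerSeries.coeff j (PowerSeries.map σ p))).mul ht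
      ((((as_id ht).pow ht a).mul ht a2).pow ht j))
  refine (a3.of_trunc fun k hk => dss2_coeff _ ha β hk).of_close ?_
  have a4 : (fun n => (u ^ d ^ n)⁻¹ ^ T) =O[𝓕] fun n => (τ ^ d ^ n) ^ T := by
    refine isBigO_of_le _ fun n => ?_
    rw [norm_pow, norm_pow, hU, norm_mul, norm_inv, hg, inv_one, mul_one, norm_pow]
    exact pow_le_pow_left₀ (by positivity)
      (pow_le_of_le_one (norm_nonneg _) (ht1 n) ha.ne') T
  refine IsBigO.trans (isBigO_of_le _ fun n => le_of_eq ?_) (((h.app T).mono hF).trans a4)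
  have e := PowerSeries.eval₂_trunc_eq_sum_range ((u ^ d ^ n)⁻¹) (RingHom.id ℂ) T
    (PowerSeries.map σ p)
  rw [eval₂_id] at e
  rw [e, ← Finset.mul_sum, ← one_mul ‖σ (x n) * (u ^ d ^ n)⁻¹ - _‖, ← hg n, ← norm_mul, hU]
  congr 1
  have := hg0 n
  simp only [RingHom.id_apply]
  field_simp

theorem Near.filter {d : ℕ} {τ γ β : ℂ} {T : ℕ} (h : Near d τ γ β T) :
    ∃ 𝓕 : Filter ℕ, 𝓕.NeBot ∧ 𝓕 ≤ atTop ∧
      (fun n => γ ^ d ^ n - β) =O[𝓕] fun n => (τ ^ d ^ n) ^ T := by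
  obtain ⟨c, hc⟩ := h
  refine ⟨atTop ⊓ 𝓟 {m | ‖γ ^ d ^ m - β‖ ≤ c * ‖τ ^ d ^ m‖ ^ T}, frequently_iff_neBot.1 hc,
    inf_le_left, IsBigO.of_bound c (eventually_inf_principal.2 (Eventually.of_forall fun m hm => ?_))⟩
  rw [norm_pow]
  exact hm

theorem Pr.tau {K : Type*} [Field K] {σ : K →+* ℂ} {d a b : ℕ} {f1 f2 : K[X]} {y1 y2 : ℕ → K}
    {p1 p2 : PowerSeries K} {τ γ : ℂ} (h : Pr σ d a b f1 f2 y1 y2 p1 p2 τ γ) :
    2 ≤ d ∧ τ ≠ 0 ∧ ‖τ‖ < 1 := by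
  obtain ⟨u, hu, e⟩ := h.e1
  exact ⟨h.d1 ▸ h.o1.deg, tau_lt' hu.one_lt h.hb e norm_one⟩

theorem Pr.as {K : Type*} [Field K] {σ : K →+* ℂ} {d a b : ℕ} {f1 f2 : K[X]} {y1 y2 : ℕ → K}
    {p1 p2 : PowerSeries K} {τ γ : ℂ} (h : Pr σ d a b f1 f2 y1 y2 p1 p2 τ γ) {β : ℂ} (hβ : ‖β‖ = 1)
    {T : ℕ} (hN : Near d τ γ β T) : ∃ 𝓕 : Filter ℕ, 𝓕.NeBot ∧ 𝓕 ≤ atTop ∧
      As 𝓕 (fun n => τ ^ d ^ n) T (fun n => σ (y1 n) * (τ ^ d ^ n) ^ b)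
        (ser (PowerSeries.map σ p1) b 1) ∧
      As 𝓕 (fun n => τ ^ d ^ n) T (fun n => σ (y2 n) * (τ ^ d ^ n) ^ a)
        (ser (PowerSeries.map σ p2) a β) := by
  obtain ⟨𝓕, h0, h1, h2⟩ := hN.filter
  obtain ⟨u, hu, e⟩ := h.e1
  obtain ⟨v, hv, e'⟩ := h.e2
  refine ⟨𝓕, h0, h1, ap hu h.hb e norm_one norm_one h1 ?_, ap hv h.ha e' h.γ1 hβ h1 h2⟩
  simp only [one_pow, sub_self]
  exact isBigO_zero _ _

end Pool.Agent.P.MP_68214b_ag.DS
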