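import Pool.Agent.P.MP_68214b_ag.DSN5

open Polynomial Filter Asymptotics NumberField Topology

namespace Pool.Agent.P.MP_68214b_ag.DS

theorem dsx5_pow {u v : ℂ} (hu : ‖u‖ = 1) (hv : ‖v‖ = 1) (n : ℕ) :
    ‖u ^ n - v ^ n‖ ≤ n * ‖u - v‖ := by
  induction n with
  | zero => simp
  | succ n ih =>
    have e : u ^ (n + 1) - v ^ (n + 1) = u * (u ^ n - v ^ n) + (u - v) * v ^ n := by ring
    rw [e]
    refine (norm_add_le _ _).trans ?_
    rw [norm_mul, norm_mul, norm_pow, hu, hv, one_pow]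
    push_cast
    linarith

theorem dsx5_exp {r : ℂ} (hr : ‖r‖ = 1) {d : ℕ} (hd : 2 ≤ d) (h : (d : ℝ) ^ 2 * ‖r - 1‖ ≤ 1 / 2) :
    3 / 2 * ‖r - 1‖ ≤ ‖r ^ d - 1‖ := by
  have h1 : ‖∑ i ∈ Finset.range d, (r ^ i - 1)‖ ≤ 1 / 2 := by
    refine (norm_sum_le _ _).trans ((Finset.sum_le_card_nsmul _ _ (d * ‖r - 1‖) ?_).trans ?_)
    · intro i hi
      have h2 := dsx5_pow hr norm_one i
      rw [one_pow] at h2
      have h3 : (i : ℝ) ≤ d := by exact_mod_cast (Finset.mem_range.1 hi).le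
      exact h2.trans (mul_le_mul_of_nonneg_right h3 (norm_nonneg _))
    · rw [Finset.card_range, nsmul_eq_mul]
      nlinarith
  have h2 : (d : ℂ) = ∑ i ∈ Finset.range d, r ^ i - ∑ i ∈ Finset.range d, (r ^ i - 1) := by
    rw [← Finset.sum_sub_distrib]
    simp
  have h3 : (d : ℝ) ≤ ‖∑ i ∈ Finset.range d, r ^ i‖ + 1 / 2 := by
    have h4 := norm_sub_le (∑ i ∈ Finset.range d, r ^ i) (∑ i ∈ Finset.range d, (r ^ i - 1))
    rw [← h2, Complex.norm_natCast] at h4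
    linarith
  have h5 : (2 : ℝ) ≤ d := by exact_mod_cast hd
  rw [← geom_sum_mul, norm_mul]
  exact mul_le_mul_of_nonneg_right (by linarith) (norm_nonneg _)

theorem dsx5_one {r : ℂ} (hr : ‖r‖ = 1) {d : ℕ} (hd : 2 ≤ d)
    (h : ∀ k, (d : ℝ) ^ 2 * ‖r ^ d ^ k - 1‖ ≤ 1 / 2) : r = 1 := by
  have h1 : ∀ k, (3 / 2 : ℝ) ^ k * ‖r - 1‖ ≤ ‖r ^ d ^ k - 1‖ := by
    intro k
    induction k with
    | zero => simp
    | succ k ih =>
      have h2 := dsx5_exp (r := r ^ d ^ k) (by rw [norm_pow, hr, one_pow]) hd (h k)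
      rw [← pow_mul, ← pow_succ] at h2
      rw [pow_succ]
      linarith
  by_contra hne
  have h2 : 0 < ‖r - 1‖ := norm_pos_iff.2 (sub_ne_zero.2 hne)
  obtain ⟨k, hk⟩ := pow_unbounded_of_one_lt (2 / ‖r - 1‖) (by norm_num : (1 : ℝ) < 3 / 2)
  rw [div_lt_iff₀ h2] at hk
  have h3 := norm_sub_le (r ^ d ^ k) 1
  rw [norm_pow, hr, one_pow, norm_one] at h3
  linarith [h1 k]

theorem dsx5_near {z : ℕ → ℂ} (hz : ∀ n, ‖z n‖ = 1) {g : ℂ[X]} (hg : g ≠ 0)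
    (h : Tendsto (fun n => g.eval (z n)) atTop (𝓝 0)) {η : ℝ} (hη : 0 < η) :
    ∀ᶠ n in atTop, ∃ b ∈ g.roots.toFinset, ‖z n - b‖ < η := by
  have hK : IsCompact (Metric.sphere (0 : ℂ) 1 ∩ ⋂ b ∈ g.roots.toFinset, {w | η ≤ ‖w - b‖}) :=
    (isCompact_sphere _ _).inter_right (isClosed_biInter fun b _ =>
      isClosed_le continuous_const (by fun_prop))
  have hm : ∀ n, (¬ ∃ b ∈ g.roots.toFinset, ‖z n - b‖ < η) →
      z n ∈ Metric.sphere (0 : ℂ) 1 ∩ ⋂ b ∈ g.roots.toFinset, {w | η ≤ ‖w - b‖} := by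
    intro n hn
    refine ⟨by simpa using hz n, Set.mem_iInter₂.2 fun b hb => ?_⟩
    exact not_lt.1 fun hlt => hn ⟨b, hb, hlt⟩
  rcases (Metric.sphere (0 : ℂ) 1 ∩
    ⋂ b ∈ g.roots.toFinset, {w | η ≤ ‖w - b‖}).eq_empty_or_nonempty with he | hne
  · exact Eventually.of_forall fun n => by
      by_contra hn
      have := hm n hn
      rw [he] at this
      exact this
  · obtain ⟨w, hw, hmin⟩ := hK.exists_isMinOn hne (f := fun w => ‖g.eval w‖)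
      (g.continuous.norm.continuousOn)
    have hw0 : 0 < ‖g.eval w‖ := by
      refine norm_pos_iff.2 fun h0 => ?_
      have h1 : w ∈ g.roots.toFinset := Multiset.mem_toFinset.2 ((mem_roots hg).2 h0)
      have h2 : η ≤ ‖w - w‖ := Set.mem_iInter₂.1 hw.2 w h1
      rw [sub_self, norm_zero] at h2
      linarith
    have h3 := h.norm
    rw [norm_zero] at h3
    filter_upwards [h3.eventually (gt_mem_nhds hw0)] with n hn
    by_contra hc
    exact absurd (hmin (hm n hc)) (not_le.2 hn)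

theorem lemX {γ : ℂ} (hγ : ‖γ‖ = 1) {d : ℕ} (hd : 2 ≤ d) {g : ℂ[X]} (hg : g ≠ 0)
    (h : Tendsto (fun n => g.eval (γ ^ d ^ n)) atTop (𝓝 0)) : ∃ N, 0 < N ∧ γ ^ N = 1 := by
  have hz : ∀ n, ‖γ ^ d ^ n‖ = 1 := fun n => by rw [norm_pow, hγ, one_pow]
  have ht : ∀ c e : ℝ, 0 < e → ∀ᶠ η in 𝓝[>] (0 : ℝ), c * η < e := by
    intro c e he
    have h1 : Tendsto (fun η : ℝ => c * η) (𝓝 0) (𝓝 (c * 0)) :=
      (continuous_const.mul continuous_id).tendsto 0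
    rw [mul_zero] at h1
    exact (h1.mono_left nhdsWithin_le_nhds).eventually (gt_mem_nhds he)
  have h1 : ∀ᶠ η in 𝓝[>] (0 : ℝ), ∀ b ∈ g.roots.toFinset, ∀ b' ∈ g.roots.toFinset,
      ‖b - b'‖ < (2 * d + 2) * η → b = b' := by
    refine (eventually_all_finset _).2 fun b _ => (eventually_all_finset _).2 fun b' _ => ?_
    by_cases hb : b = b'
    · exact Eventually.of_forall fun _ _ => hb
    · filter_upwards [ht (2 * d + 2) _ (norm_pos_iff.2 (sub_ne_zero.2 hb))] with η h2 h3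
      exact absurd h3 (not_lt.2 h2.le)
  obtain ⟨η, ⟨hs, hη1⟩, hη⟩ := ((h1.and (ht ((d : ℝ) ^ 2 * 2) (1 / 2) (by norm_num))).and
    self_mem_nhdsWithin).exists
  obtain ⟨n0, hn0⟩ := eventually_atTop.1 (dsx5_near hz hg h (η := η) hη)
  choose! b hb1 hb2 using hn0
  obtain ⟨n, m, hnm, e⟩ := Set.Finite.exists_lt_map_eq_of_forall_mem
    (f := fun k => b (n0 + k)) (t := (g.roots.toFinset : Set ℂ))
    (fun k => hb1 _ (Nat.le_add_right _ _)) (Finset.finite_toSet _)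
  have tri : ∀ p q, n0 ≤ p → n0 ≤ q → b p = b q → ‖γ ^ d ^ p - γ ^ d ^ q‖ < 2 * η := by
    intro p q hp hq hb
    have h2 := norm_sub_le (γ ^ d ^ p - b p) (γ ^ d ^ q - b q)
    have h3 := hb2 p hp
    have h4 := hb2 q hq
    rw [hb, sub_sub_sub_cancel_right] at h2
    rw [hb] at h3
    linarith
  have h2 : ∀ k, b (n0 + m + k) = b (n0 + n + k) := by
    intro k
    induction k with
    | zero => exact e.symm
    | succ k ih =>
      have h3 := tri _ _ (by omega) (by omega) ih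
      have h4 := dsx5_pow (hz (n0 + m + k)) (hz (n0 + n + k)) d
      rw [← pow_mul, ← pow_mul, ← pow_succ, ← pow_succ] at h4
      have h5 := hb2 (n0 + m + k + 1) (by omega)
      have h6 := hb2 (n0 + n + k + 1) (by omega)
      refine hs _ (hb1 _ (by omega)) _ (hb1 _ (by omega)) ?_
      have h7 : b (n0 + m + (k + 1)) - b (n0 + n + (k + 1)) =
          (γ ^ d ^ (n0 + m + k + 1) - γ ^ d ^ (n0 + n + k + 1)) -
            (γ ^ d ^ (n0 + m + k + 1) - b (n0 + m + k + 1)) +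
            (γ ^ d ^ (n0 + n + k + 1) - b (n0 + n + k + 1)) := by
        rw [← add_assoc, ← add_assoc]
        ring
      rw [h7]
      have h8 := mul_le_mul_of_nonneg_left h3.le (Nat.cast_nonneg d : (0 : ℝ) ≤ d)
      refine (norm_add_le _ _).trans_lt ?_
      have h9 := norm_sub_le (γ ^ d ^ (n0 + m + k + 1) - γ ^ d ^ (n0 + n + k + 1))
        (γ ^ d ^ (n0 + m + k + 1) - b (n0 + m + k + 1))
      linarith
  have hlt : d ^ (n0 + n) < d ^ (n0 + m) := Nat.pow_lt_pow_right (by omega) (by omega)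
  refine ⟨d ^ (n0 + m) - d ^ (n0 + n), by omega, dsx5_one (by rw [norm_pow, hγ, one_pow]) hd ?_⟩
  intro k
  have h3 := tri _ _ (by omega) (by omega) (h2 k)
  have h4 : γ ^ d ^ (n0 + m + k) - γ ^ d ^ (n0 + n + k) =
      ((γ ^ (d ^ (n0 + m) - d ^ (n0 + n))) ^ d ^ k - 1) * γ ^ d ^ (n0 + n + k) := by
    rw [sub_mul, one_mul, ← pow_mul, ← pow_add, pow_add d (n0 + n) k, ← add_mul,
      Nat.sub_add_cancel hlt.le, pow_add d (n0 + m) k]
  rw [h4, norm_mul, hz, mul_one] at h3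
  have h5 := mul_le_mul_of_nonneg_left h3.le (sq_nonneg (d : ℝ))
  linarith

theorem dsx5_rel {p q : ℝ} (hp : 1 < p) (hq : 1 < q) {i j k l : ℕ} (h : p ^ i * q ^ j = p ^ k * q ^ l)
    (hik : k < i) : ∃ a b : ℕ, 0 < a ∧ 0 < b ∧ p ^ a = q ^ b := by
  obtain ⟨a, rfl⟩ := Nat.exists_eq_add_of_lt hik
  have hp0 : 0 < p := by linarith
  have hq0 : 0 < q := by linarith
  rw [add_assoc, pow_add, mul_assoc, mul_right_inj' (pow_pos hp0 k).ne'] at h
  have h1 : 1 < p ^ (a + 1) := one_lt_pow₀ hp (Nat.succ_ne_zero a)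
  have h2 : j < l := by
    refine (pow_lt_pow_iff_right₀ hq).1 ?_
    rw [← h]
    exact lt_mul_of_one_lt_left (pow_pos hq0 j) h1
  obtain ⟨b, rfl⟩ := Nat.exists_eq_add_of_lt h2
  rw [add_assoc, pow_add q j, mul_comm, mul_right_inj' (pow_pos hq0 j).ne'] at h
  exact ⟨a + 1, b + 1, Nat.succ_pos _, Nat.succ_pos _, h⟩

theorem abs_rel {u v : ℂ} (hu : 1 < ‖u‖) (hv : 1 < ‖v‖) {d : ℕ} (hd : 2 ≤ d) {x y : ℕ → ℂ}
    (hx : Tendsto (fun n => x n * (u ^ d ^ n)⁻¹) atTop (𝓝 1))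
    (hy : Tendsto (fun n => y n * (v ^ d ^ n)⁻¹) atTop (𝓝 1)) {G : ℂ[X][X]} (hG : G ≠ 0)
    (h : ∀ᶠ n in atTop, G.evalEval (x n) (y n) = 0) :
    ∃ a b : ℕ, 0 < a ∧ 0 < b ∧ ‖u‖ ^ a = ‖v‖ ^ b := by
  classical
  by_contra hn
  have hu0 : u ≠ 0 := norm_pos_iff.1 (by linarith)
  have hv0 : v ≠ 0 := norm_pos_iff.1 (by linarith)
  set S : Finset (Σ _ : ℕ, ℕ) := G.support.sigma fun j => (G.coeff j).support with hS
  have hsum : ∀ s t : ℂ, G.evalEval s t =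
      ∑ p ∈ S, (G.coeff p.1).coeff p.2 * s ^ p.2 * t ^ p.1 := by
    intro s t
    rw [hS, Finset.sum_sigma, evalEval, eval_eq_sum (p := G), sum_def, eval_finsetSum]
    refine Finset.sum_congr rfl fun j _ => ?_
    rw [eval_mul, eval_pow, eval_C, eval_eq_sum, sum_def, Finset.sum_mul]
  have hne : S.Nonempty := by
    obtain ⟨j, hj⟩ := support_nonempty.2 hG
    obtain ⟨i, hi⟩ := support_nonempty.2 (mem_support_iff.1 hj)
    exact ⟨⟨j, i⟩, Finset.mem_sigma.2 ⟨hj, hi⟩⟩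
  obtain ⟨p0, hp0, hmax⟩ := S.exists_max_image (fun p => ‖u‖ ^ p.2 * ‖v‖ ^ p.1) hne
  have hW : u ^ p0.2 * v ^ p0.1 ≠ 0 := mul_ne_zero (pow_ne_zero _ hu0) (pow_ne_zero _ hv0)
  have hlt : ∀ p ∈ S, p ≠ p0 → ‖u ^ p.2 * v ^ p.1 / (u ^ p0.2 * v ^ p0.1)‖ < 1 := by
    intro p hp hpp
    rw [norm_div, div_lt_one (norm_pos_iff.2 hW), norm_mul, norm_mul, norm_pow, norm_pow,
      norm_pow, norm_pow]
    refine lt_of_le_of_ne (hmax p hp) fun he => ?_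
    rcases lt_trichotomy p.2 p0.2 with h1 | h1 | h1
    · exact hn (dsx5_rel hu hv he.symm h1)
    · rw [h1, mul_right_inj' (pow_pos (by linarith) _).ne'] at he
      exact hpp (Sigma.ext (pow_right_injective₀ (by linarith) hv.ne' he) (heq_of_eq h1))
    · exact hn (dsx5_rel hu hv he h1)
  have hT : Tendsto (fun n => ∑ p ∈ S, (G.coeff p.1).coeff p.2 * (x n * (u ^ d ^ n)⁻¹) ^ p.2 *
      (y n * (v ^ d ^ n)⁻¹) ^ p.1 * (u ^ p.2 * v ^ p.1 / (u ^ p0.2 * v ^ p0.1)) ^ d ^ n) atTop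
      (𝓝 (∑ p ∈ S, if p = p0 then (G.coeff p.1).coeff p.2 else 0)) := by
    refine tendsto_finsetSum _ fun p hp => ?_
    have h1 := ((hx.pow p.2).const_mul ((G.coeff p.1).coeff p.2)).mul (hy.pow p.1)
    by_cases hpp : p = p0
    · subst hpp
      simpa [div_self hW] using h1
    · have h2 := h1.mul (tend_ppC (hlt p hp hpp) hd)
      rw [mul_zero] at h2
      rwa [if_neg hpp]
  rw [Finset.sum_ite_eq' S p0, if_pos hp0] at hT
  have h0 : Tendsto (fun _ : ℕ => (0 : ℂ)) atTop (𝓝 ((G.coeff p0.1).coeff p0.2)) := by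
    refine hT.congr' ?_
    filter_upwards [h] with n hn
    rw [hsum] at hn
    rw [← zero_div ((u ^ p0.2 * v ^ p0.1) ^ d ^ n), ← hn, Finset.sum_div]
    refine Finset.sum_congr rfl fun p _ => ?_
    have hU : u ^ d ^ n ≠ 0 := pow_ne_zero _ hu0
    have hV : v ^ d ^ n ≠ 0 := pow_ne_zero _ hv0
    rw [div_pow, mul_pow (u ^ p.2), ← pow_mul u p.2, ← pow_mul v p.1, mul_comm p.2, mul_comm p.1,
      pow_mul u, pow_mul v, mul_pow (x n), mul_pow (y n), inv_pow, inv_pow]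
    field_simp
  exact mem_support_iff.1 (Finset.mem_sigma.1 hp0).2 (tendsto_nhds_unique h0 tendsto_const_nhds)

theorem param {u v : ℂ} (hu : 1 < ‖u‖) {a b : ℕ} (hb : 0 < b) (h : ‖u‖ ^ a = ‖v‖ ^ b) :
    ∃ τ γ : ℂ, u * τ ^ b = 1 ∧ v * τ ^ a = γ ∧ ‖γ‖ = 1 := by
  have hu0 : u ≠ 0 := norm_pos_iff.1 (by linarith)
  obtain ⟨τ, hτ⟩ := IsAlgClosed.exists_pow_nat_eq u⁻¹ hb
  have h1 : u * τ ^ b = 1 := by rw [hτ, mul_inv_cancel₀ hu0]
  refine ⟨τ, _, h1, rfl, (pow_eq_one_iff_of_nonneg (norm_nonneg _) hb.ne').1 ?_⟩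
  rw [norm_mul, mul_pow, ← h, norm_pow, ← pow_mul, mul_comm a b, pow_mul, ← mul_pow, ← norm_pow,
    ← norm_mul, h1, norm_one, one_pow]

end Pool.Agent.P.MP_68214b_ag.DS
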