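import Pool.Agent.P.MP_68214b_ag.DSX4
import Pool.Agent.P.MP_68214b_ag.DSX5
import Pool.Agent.P.MP_68214b_ag.DSS2
import Pool.Agent.P.MP_68214b_ag.DSN3

open Polynomial Filter Asymptotics NumberField Topology

namespace Pool.Agent.P.MP_68214b_ag.DS

theorem dsx6_bd (G : ℂ[X][X]) : ∃ D1 D2, Bd G D1 D2 := by
  refine ⟨G.support.sup fun j => (G.coeff j).natDegree, G.natDegree, fun j => ?_, le_rfl⟩
  by_cases hj : j ∈ G.support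
  · exact Finset.le_sup (f := fun j => (G.coeff j).natDegree) hj
  · rw [notMem_support_iff.1 hj]; simp

theorem dsx6_app {K : Type*} [Field K] {σ : K →+* ℂ} {d : ℕ} (hd : 2 ≤ d) {x : ℕ → K}
    {p : PowerSeries K} {u : ℂ} (hx : Esc σ d x p u) {a : ℕ} (ha : 0 < a) {τ γ : ℂ}
    (h : u * τ ^ a = γ) (hγ : ‖γ‖ = 1) : ∃ C0 : ℝ, ∀ᶠ n in atTop,
      ‖σ (x n) * (τ ^ d ^ n) ^ a - γ ^ d ^ n‖ ≤ |C0| * ‖τ ^ d ^ n‖ := by
  obtain ⟨C0, hC⟩ := (hx.lim' hd).bound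
  obtain ⟨-, hτ⟩ := tau_lt' hx.one_lt ha h hγ
  have hu : u ≠ 0 := by
    intro h0
    have := hx.one_lt
    rw [h0, norm_zero] at this
    linarith
  refine ⟨C0, hC.mono fun n hn => ?_⟩
  have hU : u ^ d ^ n ≠ 0 := pow_ne_zero _ hu
  have e1 : (τ ^ d ^ n) ^ a = γ ^ d ^ n * (u ^ d ^ n)⁻¹ := by
    rw [← h, mul_pow, ← pow_mul, ← pow_mul, mul_comm (d ^ n) a]
    field_simp
  have g1 : ‖γ ^ d ^ n‖ = 1 := by rw [norm_pow, hγ, one_pow]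
  have t1 : ‖τ ^ d ^ n‖ ≤ 1 := by
    rw [norm_pow]; exact pow_le_one₀ (norm_nonneg _) hτ.le
  have e2 : ‖(u ^ d ^ n)⁻¹‖ ≤ ‖τ ^ d ^ n‖ := by
    have : ‖(u ^ d ^ n)⁻¹‖ = ‖τ ^ d ^ n‖ ^ a := by
      rw [← norm_pow _ a, e1, norm_mul, g1, one_mul]
    rw [this]
    exact pow_le_of_le_one (norm_nonneg _) t1 ha.ne'
  have e3 : σ (x n) * (τ ^ d ^ n) ^ a - γ ^ d ^ n =
      γ ^ d ^ n * (σ (x n) * (u ^ d ^ n)⁻¹ - 1) := by rw [e1]; ring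
  rw [e3, norm_mul, g1, one_mul]
  exact hn.trans (mul_le_mul (le_abs_self _) e2 (norm_nonneg _) (abs_nonneg _))

theorem be {K : Type*} [Field K] {σ : K →+* ℂ} {d : ℕ} (hd : 2 ≤ d) {x y : ℕ → K}
    {p q : PowerSeries K} {u v : ℂ} (hx : Esc σ d x p u) (hy : Esc σ d y q v) (h : Dep x y) :
    Rel u v := by
  obtain ⟨G0, hG0, hv⟩ := h
  have hG : map2 σ G0 ≠ 0 := fun h0 => hG0 (map2_inj σ.injective (h0.trans (map_zero _).symm))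
  have hv' : ∀ᶠ n in atTop, (map2 σ G0).evalEval (σ (x n)) (σ (y n)) = 0 :=
    hv.mono fun n hn => by rw [← ev2_eq, ← map_evalEval, hn, map_zero]
  obtain ⟨a, b, ha, hb, hab⟩ := abs_rel hx.one_lt hy.one_lt hd (hx.lim hd) (hy.lim hd) hG hv'
  obtain ⟨τ, γ, h1, h2, hγ⟩ := param hx.one_lt hb hab
  obtain ⟨hτ0, hτ⟩ := tau_lt' hx.one_lt hb h1 norm_one
  obtain ⟨C1, c1⟩ := dsx6_app hd hx hb h1 norm_one
  obtain ⟨C2, c2⟩ := dsx6_app hd hy ha h2 hγ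
  obtain ⟨D1, D2, hB⟩ := dsx6_bd (map2 σ G0)
  obtain ⟨C3, -, hT⟩ := top nC (RingHom.id ℂ) (fun _ => le_rfl) ha hb (|C1| + |C2|) D1 D2
  obtain ⟨g, hg, -, -, hE⟩ := hT _ hG hB
  have hl : Tendsto (fun n => g.eval (γ ^ d ^ n)) atTop (𝓝 0) := by
    have t0 : Tendsto (fun n => C3 * nC.l2.f (map2 σ G0) * ‖τ ^ d ^ n‖) atTop
        (𝓝 (C3 * nC.l2.f (map2 σ G0) * ‖(0 : ℂ)‖)) := (tend_ppC hτ hd).norm.const_mul _
    rw [norm_zero, mul_zero] at t0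
    refine squeeze_zero_norm' ?_ t0
    filter_upwards [c1, c2, hv] with n a1 a2 a3
    have b0 := norm_nonneg (τ ^ d ^ n)
    have b1 := mul_nonneg (abs_nonneg C1) b0
    have b2 := mul_nonneg (abs_nonneg C2) b0
    rw [one_pow] at a1
    have := hE (τ ^ d ^ n) (σ (x n)) (σ (y n)) (γ ^ d ^ n)
      (by rw [norm_pow]; exact pow_le_one₀ (norm_nonneg _) hτ.le)
      (by rw [norm_pow, hγ, one_pow]) (by rw [add_mul]; linarith) (by rw [add_mul]; linarith)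
      (by rw [ev2_map2, RingHom.id_comp, ← map_evalEval, a3, map_zero])
    rwa [eval₂_id] at this
  obtain ⟨N, hN, hγN⟩ := lemX hγ hd hg hl
  refine ⟨N * a, N * b, Nat.mul_pos hN ha, Nat.mul_pos hN hb, ?_⟩
  have hτ' : τ ^ (a * b * N) ≠ 0 := pow_ne_zero _ hτ0
  apply mul_right_cancel₀ hτ'
  have e1 : u ^ (N * a) * τ ^ (a * b * N) = (u * τ ^ b) ^ (N * a) := by ring
  have e2 : v ^ (N * b) * τ ^ (a * b * N) = ((v * τ ^ a) ^ N) ^ b := by ring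
  rw [e1, e2, h1, h2, hγN, one_pow, one_pow]

end Pool.Agent.P.MP_68214b_ag.DS
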