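import Pool.Agent.P.MP_68214b_ag.DSS3
import Pool.Agent.P.MP_68214b_ag.DSS7
import Pool.Agent.P.MP_68214b_ag.DSB3
import Pool.Agent.P.MP_68214b_ag.DSX6
import Pool.Agent.P.MP_68214b_ag.DSO2

open Polynomial Filter Asymptotics NumberField Topology

namespace Pool.Agent.P.MP_68214b_ag.DS

variable {K : Type} [Field K] [NumberField K]

theorem poly_bigO {𝓕 : Filter ℕ} (q : ℂ[X]) {z : ℕ → ℂ} {B : ℕ → ℝ} (hB : ∀ n, 1 ≤ B n)
    (hz : z =O[𝓕] B) : (fun n => q.eval (z n)) =O[𝓕] fun n => B n ^ q.natDegree := by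
  simp only [eval_eq_sum_range]
  refine IsBigO.fun_sum fun j hj => ((hz.pow j).trans ?_).const_mul_left _
  refine IsBigO.of_bound' (Eventually.of_forall fun n => ?_)
  have := hB n
  rw [Real.norm_of_nonneg (by positivity), Real.norm_of_nonneg (by positivity)]
  exact pow_le_pow_right₀ this (Nat.lt_succ_iff.1 (Finset.mem_range.1 hj))

theorem Bdd.poly {L : Type*} [Field L] {σ : L →+* ℂ} {x : ℕ → L} (h : Bdd σ x) (q : L[X])
    (𝓕 : Filter ℕ) : (fun n => σ (q.eval (x n))) =O[𝓕] fun _ => (1 : ℝ) := by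
  obtain ⟨B, hB⟩ := h
  have := poly_bigO (𝓕 := 𝓕) (q.map σ) (z := fun n => σ (x n)) (B := fun _ => 1) (fun _ => le_rfl)
    (IsBigO.of_bound B (Eventually.of_forall fun n => by simpa using hB n))
  simpa only [eval_map, eval₂_at_apply, one_pow] using this

theorem Sml.sum {𝓕 : Filter ℕ} {d : ℕ} {ι : Type*} (s : Finset ι) {r : ι → ℕ → ℂ}
    (h : ∀ i ∈ s, Sml 𝓕 d (r i)) : Sml 𝓕 d fun n => ∑ i ∈ s, r i n :=
  fun ρ hρ => IsBigO.fun_sum fun i hi => h i hi ρ hρ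

theorem sml_low (σ : K →+* ℂ) {f : K[X]} {x : ℕ → K} (hO : Orb f x) {d : ℕ}
    (hd : f.natDegree < d) (q : K[X]) {𝓕 : Filter ℕ} (hF : 𝓕 ≤ atTop) :
    Sml 𝓕 d fun n => σ (q.eval (x n)) := by
  obtain ⟨Λ, hΛ, h⟩ := growth_up hO.deg hO.step
  refine sml_of_lt hF hd (one_le_pow₀ hΛ (n := (q.map σ).natDegree)) ?_
  have := poly_bigO (𝓕 := 𝓕) (q.map σ) (z := fun n => σ (x n))
    (B := fun n => Λ ^ f.natDegree ^ n) (fun _ => one_le_pow₀ hΛ)
    (IsBigO.of_bound' (Eventually.of_forall fun n => by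
      rw [Real.norm_of_nonneg (by positivity)]
      exact (norm_embedding_le_house _ σ).trans (h n)))
  simpa only [eval_map, eval₂_at_apply, ← pow_mul, mul_comm] using this

theorem Big.add {𝓕 : Filter ℕ} {d : ℕ} {r r' : ℕ → ℂ} {α s : ℂ} {E : ℕ} (h : Big 𝓕 d r α s E)
    (h' : r' =O[𝓕] fun _ => (1 : ℝ)) : Big 𝓕 d (fun n => r' n + r n) α s E := by
  refine ⟨h.s1, h.a0, h.e1, ?_⟩
  simp only [add_sub_assoc]
  refine IsBigO.add (h'.trans (IsBigO.of_bound' (Eventually.of_forall fun n => ?_))) h.app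
  rw [norm_one, Real.norm_of_nonneg (by positivity)]
  exact one_le_pow₀ (one_le_pow₀ h.s1.le)

theorem cls (σ : K →+* ℂ) {I : Type*} [Fintype I] {f : I → K[X]} {x : I → ℕ → K}
    (hO : ∀ i, Orb (f i) (x i)) {e d : ℕ} (he : ∀ i, (f i).natDegree = e) (hd : e ≤ d)
    (hD : ∀ i j, Dep (x i) (x j)) (q : I → K[X])
    (𝒰 : Ultrafilter ℕ) (hU : (𝒰 : Filter ℕ) ≤ atTop) :
    Sml 𝒰 d (fun n => σ (∑ i, (q i).eval (x i n))) ∨
      ∃ i, BigC σ 𝒰 d (f i) (x i) fun n => σ (∑ i, (q i).eval (x i n)) := by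
  classical
  rcases hd.lt_or_eq with hd | rfl
  · left
    simp only [map_sum]
    exact Sml.sum _ fun i _ => sml_low σ (hO i) (by rw [he]; exact hd) _ hU
  have hb : (fun n => σ (∑ i : {i // Bdd σ (x i)}, (q i).eval (x i n))) =O[𝒰] fun _ => (1 : ℝ) := by
    simp only [map_sum]
    exact IsBigO.fun_sum fun i _ => i.2.poly _ _
  have hs : ∀ n, σ (∑ i, (q i).eval (x i n)) = σ (∑ i : {i // Bdd σ (x i)}, (q i).eval (x i n)) +
      σ (∑ i : {i // ¬ Bdd σ (x i)}, (q i).eval (x i n)) := fun n => by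
    rw [← map_add, Fintype.sum_subtype_add_sum_subtype (fun i => Bdd σ (x i))
      fun i => (q i).eval (x i n)]
  simp only [hs]
  rcases isEmpty_or_nonempty {i // ¬ Bdd σ (x i)} with h0 | ⟨⟨i0⟩⟩
  · left
    simpa using sml_of_bdd hb
  choose p u hB hE using fun i : {i // ¬ Bdd σ (x i)} => bl (hO i) σ i.2
  simp only [he] at hE
  have d2 : 2 ≤ e := he i0 ▸ (hO i0).deg
  rcases ca d2 hE i0 (fun i => be d2 (hE i) (hE i0) (hD _ _)) (fun i => q i) 𝒰 hU with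
    h | ⟨s, α, A, E, hA, hs, hα, h⟩
  · exact Or.inl (sml_of_bdd (hb.add h))
  · exact Or.inr ⟨i0, he _, p i0, u i0, s, α, A, E, hB i0, hE i0, hA, hs, hα, h.add hb⟩

end Pool.Agent.P.MP_68214b_ag.DS
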