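import Pool.Agent.P.MP_68214b_ag.DST18
import Pool.Agent.P.MP_68214b_ag.DSS2

open Polynomial Filter Asymptotics NumberField Topology

namespace Pool.Agent.P.MP_68214b_ag.DS

variable {K : Type} [Field K] [NumberField K] {d a b : ℕ} {f1 f2 : K[X]} {y1 y2 : ℕ → K}
  {p1 p2 : PowerSeries K} {τ γ : ℂ}

theorem dsp3_trunc {F L : Type*} [Field F] [Field L] (φ : F →+* L) (T : ℕ) (p : PowerSeries F) :
    (PowerSeries.trunc T p).map φ = PowerSeries.trunc T (PowerSeries.map φ p) := by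
  ext k
  simp only [coeff_map, PowerSeries.coeff_trunc, PowerSeries.coeff_map]
  split_ifs <;> simp

theorem ts1 [Algebra K ℂ] (h : Pr (algebraMap K ℂ) d a b f1 f2 y1 y2 p1 p2 τ γ) (L : ℕ) :
    ∃ D0 T0 : ℕ, ∀ T ≥ T0, ∀ β : ℂ, IsIntegral K β → ‖β‖ = 1 → (minpoly K β).natDegree ≤ L * T →
      Near d τ γ β T → (minpoly K β).natDegree ≤ D0 := by
  obtain ⟨hd, τ0, τ1⟩ := h.tau
  obtain ⟨N, Λ, hN, hΛ, l0, g1, g2⟩ := exists_gr2 h.o1 h.o2 h.d1 h.d2
  set r := Module.finrank ℚ K with hr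
  obtain ⟨k, hk⟩ := exists_pow_lt_of_lt_one (x := 1 / 2 / Λ ^ (4 * (3 * r))) (by positivity) τ1
  have hTh : Λ ^ (4 * (3 * r)) * ‖τ‖ ^ (k + 1 - 1) ≤ 1 / 2 := by
    rw [Nat.add_sub_cancel, mul_comm]
    exact (le_div_iff₀ (by positivity)).1 hk.le
  refine ⟨16 * r * (L + 1) * (k + 1 + 2 * (a + b)) ^ 3,
    (k + 1 + 2 * (a + b)) * (16 * r * (L + 1) * (k + 1 + 2 * (a + b)) ^ 3) + 2,
    fun T hT β hβ β1 hL hE => ?_⟩
  obtain ⟨𝓕, ne, le, a1, a2⟩ := h.as β1 hE
  obtain ⟨C0, c1, hA⟩ := apx_of_as a1 a2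
  set F := IntermediateField.adjoin K {β} with hF
  have : FiniteDimensional K F := IntermediateField.adjoin.finiteDimensional hβ
  have : NumberField F := NumberField.of_module_finite K F
  have ec : (F.val : F →+* ℂ).comp (algebraMap K F) = algebraMap K ℂ := by ext x; rfl
  have em : ∀ p : PowerSeries K, PowerSeries.map (F.val : F →+* ℂ)
      (PowerSeries.map (algebraMap K F) p) = PowerSeries.map (algebraMap K ℂ) p := fun p => by
    ext n; rfl
  obtain ⟨u, eu, -⟩ := h.e1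
  obtain ⟨v, ev, -⟩ := h.e2
  have T1 : 1 ≤ T := by omega
  have c0 : ∀ {p : PowerSeries K}, PowerSeries.constantCoeff p = 1 → ∀ {e : ℕ}, 0 < e → ∀ z : F,
      (PowerSeries.trunc T (ser (PowerSeries.map (algebraMap K F) p) e z)).coeff 0 = z :=
    fun {p} hp {e} he z => by
      rw [PowerSeries.coeff_trunc, if_pos (by omega), coeff_ser _ he, if_pos (dvd_zero _)]
      simp [hp]
  let S : TS K F :=
    { φ := F.val, β := IntermediateField.AdjoinSimple.gen K β, a := a, b := b, d := d, T := T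
      τ := τ, Λ := Λ, C0 := C0, M := ⟨N, hN⟩
      y1 := fun m => ⟨_, g1.mem hN m⟩, y2 := fun m => ⟨_, g2.mem hN m⟩
      π1 := PowerSeries.trunc T (ser (PowerSeries.map (algebraMap K F) p1) b 1)
      π2 := PowerSeries.trunc T (ser (PowerSeries.map (algebraMap K F) p2) a
        (IntermediateField.AdjoinSimple.gen K β))
      𝓕 := 𝓕, N := 1, hN := one_pos, hb := h.hb, hd := hd, T1 := T1, τ0 := τ0, τ1 := τ1, Λ1 := l0
      C1 := c1, hy1 := g1.nR hN hΛ, hy2 := g2.nR hN hΛ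
      p1 := by rw [c0 eu.c0 h.hb, Nat.cast_one, one_pow]
      p2 := by rw [c0 ev.c0 h.ha, Nat.cast_one, one_pow, one_mul]
      ne := ne, le := le
      apx := by
        rw [dsp3_trunc, dsp3_trunc, ser_map _ _ h.hb, ser_map _ _ h.ha, em, em, map_one]
        exact hA }
  have e : S.deg = (minpoly K β).natDegree :=
    congrArg natDegree (IntermediateField.minpoly_gen K β)
  rw [← e]
  refine S.tsc (L := L) (Th := k + 1) ⟨by omega, hTh, le_rfl, hT, ?_, e ▸ hL⟩
  rw [e, ← IntermediateField.adjoin.finrank hβ, Module.finrank_mul_finrank]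

end Pool.Agent.P.MP_68214b_ag.DS
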