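import Pool.Agent.P.MP_68214b_ag.DSP6
import Pool.Agent.P.MP_68214b_ag.DSP3
import Pool.Agent.P.MP_68214b_ag.DSP2

open Polynomial Filter Asymptotics NumberField Topology

namespace Pool.Agent.P.MP_68214b_ag.DS

variable {K : Type} [Field K] [NumberField K]

theorem pt {σ : K →+* ℂ} {d a b : ℕ} {f1 f2 : K[X]} {y1 y2 : ℕ → K} {p1 p2 : PowerSeries K}
    {u v β0 : ℂ} (o1 : Orb f1 y1) (o2 : Orb f2 y2) (d1 : f1.natDegree = d) (d2 : f2.natDegree = d)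
    (b1 : Bott f1 p1) (b2 : Bott f2 p2) (e1 : Esc σ d y1 p1 u) (e2 : Esc σ d y2 p2 v) (ha : 0 < a)
    (hb : 0 < b) (hβ : β0 ≠ 0) (hal : IsAlgebraic ℚ β0) {C lam : ℝ} (h0 : 0 ≤ lam) (h1 : lam < 1)
    (h : ∃ᶠ n in atTop, ‖(u ^ a) ^ d ^ n / (v ^ b) ^ d ^ n - β0‖ ≤ C * lam ^ d ^ n) :
    Dep y1 y2 := by
  let := σ.toAlgebra
  have hd : 2 ≤ d := d1 ▸ o1.deg
  obtain ⟨τ, γ, t1, t2, g1, n0, h2⟩ := pt0 e1.one_lt e2.one_lt hb hd hβ h0 h1 h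
  have hP : Pr (algebraMap K ℂ) d a b f1 f2 y1 y2 p1 p2 τ γ :=
    ⟨o1, o2, d1, d2, b1, b2, ha, hb, ⟨u, e1, t1⟩, ⟨v, e2, t2⟩, g1⟩
  obtain ⟨-, τ0, τ1⟩ := hP.tau
  obtain ⟨e, he, h3⟩ := pt1 τ0 g1 hb hd h0 h1 h2
  have ha1 : IsAlgebraic ℚ β0⁻¹ := hal.inv
  obtain ⟨D0, T0, h4⟩ := ts1 hP (2 * e * b * (minpoly ℚ β0⁻¹).natDegree)
  have h5 : ∀ᶠ k in atTop, max 1 T0 * e ≤ d ^ k :=
    (tendsto_pow_atTop_atTop_of_one_lt (by omega : 1 < d)).eventually_ge_atTop _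
  obtain ⟨β, ⟨N, hN, hβN⟩, h6⟩ := pick τ1.le (inv_ne_zero hβ) hb hd he
    (north ha1 (Module.finrank ℚ K * D0)) (h5.mono fun k hk => by
      obtain ⟨β, c1, c2⟩ := h3 k
      have hp : 0 < b * d ^ k := by positivity
      obtain ⟨r1, r2, r3⟩ := deg_root (K := K) ha1 hp c1
      have hq : max 1 T0 ≤ d ^ k / e := (Nat.le_div_iff_mul_le he).2 hk
      have hn : ‖β‖ = 1 := by
        have := congrArg norm c1
        rw [norm_pow, norm_inv, n0, inv_one] at this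
        exact (pow_eq_one_iff_of_nonneg (norm_nonneg _) hp.ne').1 this
      have hk2 : d ^ k ≤ 2 * e * (d ^ k / e) := by
        have q1 := Nat.div_add_mod (d ^ k) e
        have q2 := Nat.mod_lt (d ^ k) he
        have q3 : e * 1 ≤ e * (d ^ k / e) := Nat.mul_le_mul_left e ((le_max_left _ _).trans hq)
        rw [mul_assoc, two_mul]
        omega
      refine ⟨β, ⟨⟨_, hp, c1⟩, r3.trans (Nat.mul_le_mul_left _ ?_)⟩, c1, c2⟩
      refine h4 _ ((le_max_right _ _).trans hq) β r1 hn (r2.trans ?_) c2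
      calc b * d ^ k * (minpoly ℚ β0⁻¹).natDegree
          ≤ b * (2 * e * (d ^ k / e)) * (minpoly ℚ β0⁻¹).natDegree := by gcongr
        _ = _ := by ring)
  exact stage2 hP hN hβN h6

end Pool.Agent.P.MP_68214b_ag.DS
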