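import Pool.Agent.P.MP_68214b_ag.DSX7

open Polynomial Filter Asymptotics NumberField Topology

namespace Pool.Agent.P.MP_68214b_ag.DS

variable {K : Type} [Field K] [NumberField K]

theorem self_pow {u : ℂ} (hu : 1 < ‖u‖) (h : Rel u ((starRingEnd ℂ) u)) :
    ∃ e : ℕ, 0 < e ∧ u ^ (2 * e) = (u * (starRingEnd ℂ) u) ^ e := by
  obtain ⟨a, b, ha, -, h⟩ := h
  have := congrArg norm h
  rw [norm_pow, norm_pow, RCLike.norm_conj] at this
  obtain rfl : a = b := pow_right_injective₀ (by linarith) hu.ne' this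
  exact ⟨a, ha, by rw [mul_pow, ← h, two_mul, pow_add]⟩

theorem mul_conj_pow {u v : ℂ} {a b : ℕ} (h : ‖u‖ ^ a = ‖v‖ ^ b) :
    (u * (starRingEnd ℂ) u) ^ a = (v * (starRingEnd ℂ) v) ^ b := by
  rw [Complex.mul_conj', Complex.mul_conj', ← pow_mul, ← pow_mul, mul_comm 2, mul_comm 2, pow_mul,
    pow_mul]
  exact_mod_cast congrArg (· ^ (2 : ℕ)) h

theorem rel_conj_swap {u v : ℂ} (h : Rel ((starRingEnd ℂ) u) v) : Rel u ((starRingEnd ℂ) v) := by
  simpa using h.conj

theorem dsx8_half (hK : Cj K) {σ : K →+* ℂ} {d : ℕ} {f g : K[X]} {x y : ℕ → K}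
    {p q : PowerSeries K} {u v : ℂ} (hx : Orb f x) (hy : Orb g y) (hN : NSa f ∨ NSa g)
    (df : f.natDegree = d) (dg : g.natDegree = d) (ex : Esc σ d x p u) (ey : Esc σ d y q v)
    {a b : ℕ} (ha : 0 < a) (h : ‖u‖ ^ a = ‖v‖ ^ b) (su : Rel u ((starRingEnd ℂ) u))
    (sv : ¬ Rel v ((starRingEnd ℂ) v)) : Rel u v ∨ Rel u ((starRingEnd ℂ) v) := by
  obtain ⟨c, hc⟩ := hK σ
  obtain ⟨e, he, h1⟩ := self_pow ex.one_lt su
  have v0 : v ≠ 0 := norm_pos_iff.1 (by linarith [ey.one_lt])
  have v1 : (starRingEnd ℂ) v ≠ 0 := by simpa using v0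
  obtain ⟨i, j, hij, hr⟩ := st (J := Fin 3) (f := ![f, g, g.map c])
    (x := ![x, y, fun n => c (y n)]) (p := ![p, q, PowerSeries.map c q])
    (u := ![u, v, (starRingEnd ℂ) v]) (σ := σ) (d := d)
    (fun i => by fin_cases i; exacts [hx, hy, hy.conj c])
    (fun i j k a b e => by
      rcases hN with hN | hN
      · fin_cases i <;> fin_cases j <;> fin_cases k <;> simp_all
      · have := hN.map c
        fin_cases i <;> fin_cases j <;> fin_cases k <;> simp_all)
    (fun i => by fin_cases i; exacts [df, dg, (natDegree_map c).trans dg])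
    (fun i => by fin_cases i; exacts [ex, ey, ey.conj hc])
    ![(2 * e * a : ℕ), -(e * b : ℕ), -(e * b : ℕ)]
    (fun h0 => by
      have : ((2 * e * a : ℕ) : ℤ) = 0 := congrFun h0 0
      have h2 : 0 < 2 * e * a := by positivity
      omega)
    (by
      simp only [Fin.prod_univ_three, Matrix.cons_val_zero, Matrix.cons_val_one, Matrix.cons_val,
        zpow_neg, zpow_natCast]
      rw [pow_mul, h1, ← pow_mul, mul_comm e a, pow_mul, mul_conj_pow h, ← pow_mul, mul_comm b e,
        mul_pow]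
      field_simp)
  fin_cases i <;> fin_cases j
  all_goals first
    | exact absurd rfl hij
    | exact Or.inl hr
    | exact Or.inr hr
    | exact Or.inl hr.symm
    | exact Or.inr hr.symm
    | exact absurd hr sv
    | exact absurd hr.symm sv

theorem conj_rel (hK : Cj K) {σ : K →+* ℂ} {d : ℕ} {f g : K[X]} {x y : ℕ → K}
    {p q : PowerSeries K} {u v : ℂ} (hx : Orb f x) (hy : Orb g y) (hN : NSa f ∨ NSa g)
    (df : f.natDegree = d) (dg : g.natDegree = d) (ex : Esc σ d x p u) (ey : Esc σ d y q v)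
    {a b : ℕ} (ha : 0 < a) (hb : 0 < b) (h : ‖u‖ ^ a = ‖v‖ ^ b) :
    Rel u v ∨ Rel u ((starRingEnd ℂ) v) := by
  by_cases su : Rel u ((starRingEnd ℂ) u) <;> by_cases sv : Rel v ((starRingEnd ℂ) v)
  · obtain ⟨e, he, h1⟩ := self_pow ex.one_lt su
    obtain ⟨e', he', h2⟩ := self_pow ey.one_lt sv
    refine Or.inl ⟨2 * e * (a * e'), 2 * e' * (b * e), by positivity, by positivity, ?_⟩
    rw [pow_mul u, h1, pow_mul v, h2, ← pow_mul, ← pow_mul, show e * (a * e') = a * (e * e') by ring,
      show e' * (b * e) = b * (e * e') by ring, pow_mul, mul_conj_pow h, ← pow_mul]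
  · exact dsx8_half hK hx hy hN df dg ex ey ha h su sv
  · rcases dsx8_half hK hy hx hN.symm dg df ey ex hb h.symm sv su with h1 | h1
    · exact Or.inl h1.symm
    · exact Or.inr (rel_conj_swap h1.symm)
  obtain ⟨c, hc⟩ := hK σ
  have v0 : v ≠ 0 := norm_pos_iff.1 (by linarith [ey.one_lt])
  have v1 : (starRingEnd ℂ) v ≠ 0 := by simpa using v0
  obtain ⟨i, j, hij, hr⟩ := st (J := Fin 4) (f := ![f, f.map c, g, g.map c])
    (x := ![x, fun n => c (x n), y, fun n => c (y n)])
    (p := ![p, PowerSeries.map c p, q, PowerSeries.map c q])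
    (u := ![u, (starRingEnd ℂ) u, v, (starRingEnd ℂ) v]) (σ := σ) (d := d)
    (fun i => by fin_cases i; exacts [hx, hx.conj c, hy, hy.conj c])
    (fun i j k a b e => by
      rcases hN with hN | hN
      · have := hN.map c
        fin_cases i <;> fin_cases j <;> fin_cases k <;> simp_all
      · have := hN.map c
        fin_cases i <;> fin_cases j <;> fin_cases k <;> simp_all)
    (fun i => by
      fin_cases i; exacts [df, (natDegree_map c).trans df, dg, (natDegree_map c).trans dg])
    (fun i => by fin_cases i; exacts [ex, ex.conj hc, ey, ey.conj hc])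
    ![a, a, -b, -b]
    (fun h0 => by
      have : (a : ℤ) = 0 := congrFun h0 0
      omega)
    (by
      simp only [Fin.prod_univ_four, Matrix.cons_val_zero, Matrix.cons_val_one, Matrix.cons_val,
        zpow_neg, zpow_natCast]
      rw [← mul_pow, mul_conj_pow h, mul_pow]
      field_simp)
  fin_cases i <;> fin_cases j
  all_goals first
    | exact absurd rfl hij
    | exact Or.inl hr
    | exact Or.inr hr
    | exact Or.inl hr.symm
    | exact Or.inr hr.symm
    | exact absurd hr sv
    | exact absurd hr.symm sv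
    | exact absurd hr su
    | exact absurd hr.symm su
    | exact Or.inr (rel_conj_swap hr)
    | exact Or.inr (rel_conj_swap hr.symm)
    | exact Or.inl (by simpa using hr.conj)
    | exact Or.inl (by simpa using hr.symm.conj)

end Pool.Agent.P.MP_68214b_ag.DS
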