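import Pool.Agent.P.MP_68214b_ag.DSC2x
import Pool.Agent.P.MP_68214b_ag.DSX8
import Pool.Agent.P.MP_68214b_ag.DSP7

open Polynomial Filter Asymptotics NumberField Topology

namespace Pool.Agent.P.MP_68214b_ag.DS

variable {K : Type} [Field K] [NumberField K]

theorem dsc2_opt (hK : Cj K) (σ : K →+* ℂ) {ι : Type*} (s : Finset ι) {f : ι → K[X]}
    {x : ι → ℕ → K} {𝓕 : Filter ℕ} [𝓕.NeBot] (hF : 𝓕 ≤ atTop) {d : ℕ} (hd : 2 ≤ d) (r : ι → ℕ → ℂ)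
    (hs : (fun n => ∑ b ∈ s, r b n) =O[𝓕] fun _ => (1 : ℝ))
    (hc : ∀ b ∈ s, ¬ Sml 𝓕 d (r b) → Orb (f b) (x b) ∧ BigC σ 𝓕 d (f b) (x b) (r b))
    (hn : ∀ b ∈ s, ∀ b' ∈ s, ¬ Sml 𝓕 d (r b) → ¬ Sml 𝓕 d (r b') → b ≠ b' → ¬ Dep (x b) (x b'))
    (h4 : ∀ t ⊆ s, (∀ b ∈ t, ¬ Sml 𝓕 d (r b)) → 4 ≤ t.card → ∃ b ∈ t, NSa (f b)) :
    ∀ b ∈ s, Sml 𝓕 d (r b) := by
  classical
  by_contra! hcon
  set B := s.filter fun b => ¬ Sml 𝓕 d (r b) with hB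
  have hBm : ∀ b ∈ B, b ∈ s ∧ ¬ Sml 𝓕 d (r b) := fun b hb => Finset.mem_filter.1 hb
  have hex : ∀ b, ∃ (p : PowerSeries K) (u z α : ℂ) (A E : ℕ), b ∈ B → Bott (f b) p ∧
      Esc σ d (x b) p u ∧ 0 < A ∧ z ^ A = u ∧ IsAlgebraic ℚ α ∧ Big 𝓕 d (r b) α z E := fun b => by
    by_cases hb : b ∈ B
    · obtain ⟨-, -, p, u, z, α, A, E, h⟩ := hc b (hBm b hb).1 (hBm b hb).2
      exact ⟨p, u, z, α, A, E, fun _ => h⟩
    · exact ⟨0, 0, 0, 0, 0, 0, fun h => absurd h hb⟩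
  choose p u z α A E hd' using hex
  obtain ⟨T, ρ, lam, hT, h2, hρ, l0, l1, hz, hO⟩ := fin_top s hF hd r hs B (Finset.filter_subset _ _)
    (by obtain ⟨b, hb, h⟩ := hcon; exact ⟨b, Finset.mem_filter.2 ⟨hb, h⟩⟩) α z E
    (fun b hb => (hd' b hb).2.2.2.2.2)
    fun b hb hb' => by_contra fun h => hb' (Finset.mem_filter.2 ⟨hb, h⟩)
  have orb : ∀ b ∈ T, Orb (f b) (x b) := fun b hb => (hc b (hBm b (hT hb)).1 (hBm b (hT hb)).2).1
  have dg : ∀ b ∈ T, (f b).natDegree = d := fun b hb =>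
    (hc b (hBm b (hT hb)).1 (hBm b (hT hb)).2).2.1
  have esc : ∀ b ∈ T, Esc σ d (x b) (p b) (u b) := fun b hb => (hd' b (hT hb)).2.1
  have big : ∀ b ∈ T, Big 𝓕 d (r b) (α b) (z b) (E b) := fun b hb => (hd' b (hT hb)).2.2.2.2.2
  have alg : ∀ b ∈ T, IsAlgebraic ℚ (α b) := fun b hb => (hd' b (hT hb)).2.2.2.2.1
  have A0 : ∀ b ∈ T, 0 < A b := fun b hb => (hd' b (hT hb)).2.2.1
  have zA : ∀ b ∈ T, z b ^ A b = u b := fun b hb => (hd' b (hT hb)).2.2.2.1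
  have nd : ∀ b ∈ T, ∀ b' ∈ T, b ≠ b' → ¬ Dep (x b) (x b') := fun b hb b' hb' =>
    hn b (hBm b (hT hb)).1 b' (hBm b' (hT hb')).1 (hBm b (hT hb)).2 (hBm b' (hT hb')).2
  have nr : ∀ b ∈ T, ∀ b' ∈ T, b ≠ b' → ¬ Rel (u b) (u b') := fun b hb b' hb' h hr =>
    nd b hb b' hb' h (dep_of_rel (orb b hb) (orb b' hb') (dg b hb) (dg b' hb') (esc b hb)
      (esc b' hb') hr)
  have pw : ∀ b ∈ T, ∀ k, (z b ^ E b) ^ (A b * k) = u b ^ (E b * k) := fun b hb k => by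
    rw [← zA b hb, ← pow_mul, ← pow_mul]; congr 1; ring
  have nz : ∀ b ∈ T, ‖z b ^ E b‖ = ρ := fun b hb => by rw [norm_pow, hz b hb]
  have fin : ∀ b ∈ T, ∀ b' ∈ T, b ≠ b' → ∀ (β : ℂ) (C l : ℝ), β ≠ 0 → IsAlgebraic ℚ β → 0 ≤ l →
      l < 1 → ¬ ∃ᶠ n in 𝓕, ‖((z b ^ E b) ^ (A b * A b')) ^ d ^ n /
        ((z b' ^ E b') ^ (A b * A b')) ^ d ^ n - β‖ ≤ C * l ^ d ^ n := by
    intro b hb b' hb' hne β C l β0 hβ l0 l1 hf
    rw [pw b hb, mul_comm (A b), pw b' hb'] at hf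
    exact nd b hb b' hb' hne (pt (orb b hb) (orb b' hb') (dg b hb) (dg b' hb') (hd' b (hT hb)).1
      (hd' b' (hT hb')).1 (esc b hb) (esc b' hb') (mul_pos (big b hb).e1 (A0 b' hb'))
      (mul_pos (big b' hb').e1 (A0 b hb)) β0 hβ l0 l1 (hf.filter_mono hF))
  rcases h2.eq_or_lt with h2 | h3
  · obtain ⟨b, b', hne, rfl⟩ := Finset.card_eq_two.1 h2.symm
    have hb : b ∈ ({b, b'} : Finset ι) := by simp
    have hb' : b' ∈ ({b, b'} : Finset ι) := by simp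
    simp only [Finset.sum_pair hne] at hO
    obtain ⟨C, hC⟩ := pair_near hρ l0 l1 (nz b hb) (nz b' hb') (big b hb).a0 hO (A b * A b')
    exact fin b hb b' hb' hne _ C lam
      (pow_ne_zero _ (div_ne_zero (neg_ne_zero.2 (big b' hb').a0) (big b hb).a0))
      (((alg b' hb').neg.mul (alg b hb).inv).pow _) l0 l1 hC.frequently
  rcases (Nat.succ_le_of_lt h3).eq_or_lt with h3 | h5
  · obtain ⟨b, b', b'', n1, n2, n3, rfl⟩ := Finset.card_eq_three.1 h3.symm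
    have hb : b ∈ ({b, b', b''} : Finset ι) := by simp
    have hb' : b' ∈ ({b, b', b''} : Finset ι) := by simp
    have hb'' : b'' ∈ ({b, b', b''} : Finset ι) := by simp
    simp only [Finset.sum_insert (show b ∉ ({b', b''} : Finset ι) by simp [n1, n2]),
      Finset.sum_pair n3] at hO
    obtain ⟨β, C, l, β0, hβ, k0, k1, hf⟩ := triple_near hF hd hρ l0 l1 (nz b hb) (nz b' hb')
      (nz b'' hb'') (big b hb).a0 (big b' hb').a0 (alg b hb) (alg b' hb') (alg b'' hb'') hO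
      (A b * A b')
    exact fin b hb b' hb' n1 β C l β0 hβ k0 k1 hf
  obtain ⟨b, hb, hN⟩ := h4 T (hT.trans (Finset.filter_subset _ _)) (fun b hb => (hBm b (hT hb)).2) h5
  have cj : ∀ b' ∈ T, b' ≠ b → Rel (u b) ((starRingEnd ℂ) (u b')) := fun b' hb' hne => by
    refine (conj_rel hK (orb b hb) (orb b' hb') (Or.inl hN) (dg b hb) (dg b' hb') (esc b hb)
      (esc b' hb') (mul_pos (big b hb).e1 (A0 b' hb')) (mul_pos (big b' hb').e1 (A0 b hb))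
      ?_).resolve_left (nr b hb b' hb' hne.symm)
    rw [← norm_pow, ← norm_pow, ← pw b hb, ← pw b' hb', norm_pow, norm_pow _ (A b' * A b), nz b hb,
      nz b' hb', mul_comm]
  obtain ⟨b1, h1, b2, h2', hne⟩ := Finset.one_lt_card.1
    (show 1 < (T.erase b).card by rw [Finset.card_erase_of_mem hb]; omega)
  rw [Finset.mem_erase] at h1 h2'
  refine nr b1 h1.2 b2 h2'.2 hne ?_
  simpa using ((cj b1 h1.2 h1.1).symm.trans (cj b2 h2'.2 h2'.1)).conj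

theorem all_sml (hK : Cj K) (σ : K →+* ℂ) {ι : Type*} (s : Finset ι) {f : ι → K[X]} {x : ι → ℕ → K}
    (hO : ∀ b ∈ s, Orb (f b) (x b)) (hn : ∀ b ∈ s, ∀ b' ∈ s, b ≠ b' → ¬ Dep (x b) (x b'))
    {𝓕 : Filter ℕ} [𝓕.NeBot] (hF : 𝓕 ≤ atTop) {d : ℕ} (hd : 2 ≤ d)
    (h4 : ∀ t ⊆ s, (∀ b ∈ t, (f b).natDegree = d) → 4 ≤ t.card → ∃ b ∈ t, NSa (f b))
    (r : ι → ℕ → ℂ) {r0 : ℕ → ℂ} (h0 : Sml 𝓕 d r0)
    (hs : (fun n => r0 n + ∑ b ∈ s, r b n) =O[𝓕] fun _ => (1 : ℝ))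
    (hc : ∀ b ∈ s, Sml 𝓕 d (r b) ∨ BigC σ 𝓕 d (f b) (x b) (r b)) : ∀ b ∈ s, Sml 𝓕 d (r b) := by
  classical
  intro b hb
  refine dsc2_opt hK σ (Finset.insertNone s) (f := fun o => o.elim 0 f) (x := fun o => o.elim 0 x)
    hF hd (fun o => o.elim r0 r) (by simpa [Finset.sum_insertNone] using hs) ?_ ?_ ?_ (some b)
    (by simpa using hb)
  · rintro (_ | c) hc' hS
    · exact absurd h0 hS
    · have := Finset.some_mem_insertNone.1 hc'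
      exact ⟨hO c this, (hc c this).resolve_left hS⟩
  · rintro (_ | c) hc1 (_ | c') hc2 s1 s2 hne
    · exact absurd h0 s1
    · exact absurd h0 s1
    · exact absurd h0 s2
    · exact hn c (Finset.some_mem_insertNone.1 hc1) c' (Finset.some_mem_insertNone.1 hc2)
        fun e => hne (congrArg some e)
  · intro t ht hS h
    have hn0 : none ∉ t := fun e => hS none e h0
    have hm : ∀ c ∈ t.eraseNone, c ∈ s := fun c hc' =>
      Finset.some_mem_insertNone.1 (ht (Finset.mem_eraseNone.1 hc'))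
    obtain ⟨c, hc', hN⟩ := h4 t.eraseNone hm
      (fun c hc' => ((hc c (hm c hc')).resolve_left (hS _ (Finset.mem_eraseNone.1 hc'))).1)
      (by rwa [Finset.card_eraseNone_of_not_mem hn0])
    exact ⟨some c, Finset.mem_eraseNone.1 hc', hN⟩

end Pool.Agent.P.MP_68214b_ag.DS
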