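import Pool.Agent.P.MP_68214b_ag.DSS7

open Polynomial Filter Asymptotics NumberField Topology

namespace Pool.Agent.P.MP_68214b_ag.DS

theorem dsc2x_prod (s : Multiset ℂ) (z : ℂ) {m : ℝ} (hm : 0 ≤ m) (h : ∀ r ∈ s, m ≤ ‖z - r‖) :
    m ^ s.card ≤ ‖(s.map (z - ·)).prod‖ := by
  induction s using Multiset.induction_on with
  | empty => simp
  | cons a s ih =>
    rw [Multiset.map_cons, Multiset.prod_cons, Multiset.card_cons, norm_mul, pow_succ']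
    exact mul_le_mul (h a (Multiset.mem_cons_self _ _))
      (ih fun r hr => h r (Multiset.mem_cons_of_mem hr)) (by positivity) (norm_nonneg _)

theorem root_prod {g : ℂ[X]} (hg : 0 < g.natDegree) (z : ℂ) :
    ∃ β ∈ g.roots.toFinset, ‖g.leadingCoeff‖ * ‖z - β‖ ^ g.natDegree ≤ ‖g.eval z‖ := by
  classical
  have hs := IsAlgClosed.splits g
  have hc := hs.natDegree_eq_card_roots
  have hne : g.roots.toFinset.Nonempty := by
    rw [Multiset.toFinset_nonempty, ← Multiset.card_pos, ← hc]; exact hg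
  obtain ⟨β, hβ, hmin⟩ := g.roots.toFinset.exists_min_image (fun r => ‖z - r‖) hne
  refine ⟨β, hβ, ?_⟩
  rw [hs.eval_eq_prod_roots, norm_mul, hc]
  gcongr
  exact dsc2x_prod _ _ (norm_nonneg _) fun r hr => hmin r (Multiset.mem_toFinset.2 hr)

theorem root_exp {lam : ℝ} (h0 : 0 ≤ lam) (h1 : lam < 1) {e : ℕ} (he : 0 < e) :
    ∃ l : ℝ, 0 ≤ l ∧ l < 1 ∧ ∀ C : ℝ, ∃ C' : ℝ, ∀ (t : ℝ) (N : ℕ), 0 ≤ t → t ^ e ≤ C * lam ^ N →
      t ≤ C' * l ^ N := by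
  have h := Real.rpow_inv_natCast_pow h0 he.ne'
  have l0 : 0 ≤ lam ^ ((e : ℝ)⁻¹) := Real.rpow_nonneg h0 _
  refine ⟨_, l0, (pow_lt_one_iff_of_nonneg l0 he.ne').1 (by rwa [h]), fun C =>
    ⟨max 1 C, fun t N ht hN => ?_⟩⟩
  refine le_of_pow_le_pow_left₀ he.ne' (by positivity) (hN.trans ?_)
  rw [mul_pow, ← pow_mul, mul_comm N, pow_mul, h]
  gcongr
  exact (le_max_right 1 C).trans (le_self_pow₀ (le_max_left _ _) he.ne')

theorem root_near {g : ℂ[X]} (hg : g ≠ 0) {𝓕 : Filter ℕ} [𝓕.NeBot] (hF : 𝓕 ≤ atTop) {d : ℕ}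
    (hd : 2 ≤ d) {W : ℕ → ℂ} {lam : ℝ} (h0 : 0 ≤ lam) (h1 : lam < 1)
    (h : (fun n => g.eval (W n)) =O[𝓕] fun n => lam ^ d ^ n) :
    ∃ (β : ℂ) (C l : ℝ), g.IsRoot β ∧ 0 ≤ l ∧ l < 1 ∧ ∃ᶠ n in 𝓕, ‖W n - β‖ ≤ C * l ^ d ^ n := by
  classical
  have lc : 0 < ‖g.leadingCoeff‖ := norm_pos_iff.2 (leadingCoeff_ne_zero.2 hg)
  rcases Nat.eq_zero_or_pos g.natDegree with h2 | h2
  · exfalso
    have := h.trans_tendsto ((tend_pp h0 h1 hd).mono_left hF)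
    rw [eq_C_of_natDegree_eq_zero h2] at this hg
    simp only [eval_C, tendsto_const_nhds_iff] at this
    exact hg (by rw [this, map_zero])
  obtain ⟨l, l0, l1, hl⟩ := root_exp h0 h1 h2
  obtain ⟨C, hC⟩ := h.bound
  obtain ⟨C', hC'⟩ := hl (C / ‖g.leadingCoeff‖)
  have : ∃ᶠ n in 𝓕, ∃ β ∈ g.roots.toFinset, ‖W n - β‖ ≤ C' * l ^ d ^ n := by
    refine (hC.mono fun n hn => ?_).frequently
    obtain ⟨β, hβ, hb⟩ := root_prod h2 (W n)
    refine ⟨β, hβ, hC' _ _ (norm_nonneg _) ?_⟩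
    rw [Real.norm_of_nonneg (by positivity)] at hn
    rw [div_mul_eq_mul_div, le_div_iff₀' lc]
    exact hb.trans hn
  obtain ⟨β, hβ, hf⟩ := (frequently_exists_finset _).1 this
  exact ⟨β, C', l, (mem_roots hg).1 (Multiset.mem_toFinset.1 hβ), l0, l1, hf⟩

theorem alg_root {g : ℂ[X]} (hg : g ≠ 0) (hc : ∀ k, IsAlgebraic ℚ (g.coeff k)) {β : ℂ}
    (hβ : g.IsRoot β) : IsAlgebraic ℚ β := by
  obtain ⟨g0, rfl⟩ := (mem_lifts (f := algebraMap (algebraicClosure ℚ ℂ) ℂ) g).1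
    ((lifts_iff_coeff_lifts g).2 fun k => ⟨⟨_, mem_algebraicClosure_iff.2 (hc k)⟩, rfl⟩)
  have : IsAlgebraic (algebraicClosure ℚ ℂ) β :=
    ⟨g0, fun h => hg (by rw [h, Polynomial.map_zero]), by rwa [aeval_def, ← eval_map]⟩
  have h1 : Algebra.IsIntegral ℚ (algebraicClosure ℚ ℂ) :=
    (algebraicClosure.isAlgebraic ℚ ℂ).isIntegral
  exact (isIntegral_trans (R := ℚ) _ this.isIntegral).isAlgebraic

theorem alg_conj {z : ℂ} (h : IsAlgebraic ℚ z) : IsAlgebraic ℚ ((starRingEnd ℂ) z) :=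
  h.algHom (starRingEnd ℂ).toRatAlgHom

theorem pow_near {W β : ℂ} (hW : ‖W‖ = 1) (k : ℕ) :
    ‖W ^ k - β ^ k‖ ≤ k * max 1 ‖β‖ ^ k * ‖W - β‖ := by
  rw [← Commute.geom_sum₂_mul (Commute.all W β) k, norm_mul]
  gcongr
  refine (norm_sum_le _ _).trans ((Finset.sum_le_card_nsmul _ _ (max 1 ‖β‖ ^ k) fun i hi => ?_).trans
    (by simp))
  rw [norm_mul, norm_pow, hW, one_pow, one_mul, norm_pow]
  exact (pow_le_pow_left₀ (norm_nonneg _) (le_max_right 1 _) _).trans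
    (pow_le_pow_right₀ (le_max_left _ _) (by omega))

theorem triple_near {𝓕 : Filter ℕ} [𝓕.NeBot] (hF : 𝓕 ≤ atTop) {d : ℕ} (hd : 2 ≤ d)
    {v w z α α' α'' : ℂ} {ρ lam : ℝ} (hρ : 1 < ρ) (h0 : 0 ≤ lam) (h1 : lam < 1) (hv : ‖v‖ = ρ)
    (hw : ‖w‖ = ρ) (hz : ‖z‖ = ρ) (a0 : α ≠ 0) (a1 : α' ≠ 0) (b0 : IsAlgebraic ℚ α)
    (b1 : IsAlgebraic ℚ α') (b2 : IsAlgebraic ℚ α'')
    (h : (fun n => α * v ^ d ^ n + (α' * w ^ d ^ n + α'' * z ^ d ^ n)) =O[𝓕]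
      fun n => (lam * ρ) ^ d ^ n) (k : ℕ) :
    ∃ (β : ℂ) (C l : ℝ), β ≠ 0 ∧ IsAlgebraic ℚ β ∧ 0 ≤ l ∧ l < 1 ∧
      ∃ᶠ n in 𝓕, ‖(v ^ k) ^ d ^ n / (w ^ k) ^ d ^ n - β‖ ≤ C * l ^ d ^ n := by
  have ρ0 : 0 < ρ := by linarith
  have w0 : w ≠ 0 := norm_pos_iff.1 (hw ▸ ρ0)
  set c := starRingEnd ℂ with hc
  set W : ℕ → ℂ := fun n => (v / w) ^ d ^ n with hW
  set Z : ℕ → ℂ := fun n => (z / w) ^ d ^ n with hZ
  have W1 : ∀ n, ‖W n‖ = 1 := fun n => by simp [hW, hv, hw, ρ0.ne']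
  have Z1 : ∀ n, ‖Z n‖ = 1 := fun n => by simp [hZ, hz, hw, ρ0.ne']
  have cW : ∀ n, W n * c (W n) = 1 := fun n => by rw [hc, Complex.mul_conj', W1]; simp
  have cZ : ∀ n, Z n * c (Z n) = 1 := fun n => by rw [hc, Complex.mul_conj', Z1]; simp
  set ε : ℕ → ℂ := fun n => α * W n + α' + α'' * Z n with hε
  have hε1 : ε =O[𝓕] fun n => lam ^ d ^ n := by
    have h2 : (fun n => (w ^ d ^ n)⁻¹) =O[𝓕] fun n => (ρ ^ d ^ n)⁻¹ :=
      IsBigO.of_bound' (Eventually.of_forall fun n => by simp [hw, abs_of_pos ρ0])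
    refine (h.mul h2).congr (fun n => ?_) fun n => ?_
    · simp only [hε, hW, hZ, div_pow]
      have := pow_ne_zero (d ^ n) w0
      field_simp
      ring
    · rw [mul_pow, mul_inv_cancel_right₀ (pow_pos ρ0 _).ne']
  have hε2 : (fun n => c (ε n)) =O[𝓕] fun n => lam ^ d ^ n :=
    IsBigO.of_norm_left (by simpa [hc] using hε1.norm_left)
  have hε3 : ε =O[𝓕] fun _ => (1 : ℝ) := hε1.trans
    (((tend_pp h0 h1 hd).mono_left hF).isBigO_one ℝ)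
  have bW : W =O[𝓕] fun _ => (1 : ℝ) := IsBigO.of_bound' (Eventually.of_forall fun n => by simp [W1])
  have bZ : Z =O[𝓕] fun _ => (1 : ℝ) := IsBigO.of_bound' (Eventually.of_forall fun n => by simp [Z1])
  have bZ' : (fun n => c (Z n)) =O[𝓕] fun _ => (1 : ℝ) :=
    IsBigO.of_bound' (Eventually.of_forall fun n => by simp [hc, Z1])
  set g : ℂ[X] := C (α * c α') * X ^ 2 + C (α * c α + α' * c α' - α'' * c α'') * X + C (α' * c α)
    with hg
  have ca : c α ≠ 0 := by simpa [hc] using a0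
  have g0 : g.coeff 0 = α' * c α := by simp [hg]
  have gne : g ≠ 0 := fun e => mul_ne_zero a1 ca (by rw [← g0, e, coeff_zero])
  have hgO : (fun n => g.eval (W n)) =O[𝓕] fun n => lam ^ d ^ n := by
    have t1 := (bW.mul hε3).mul hε2
    have t2 := ((bW.mul bZ).mul hε2).const_mul_left α''
    have t3 := ((bW.mul bZ').mul hε1).const_mul_left (c α'')
    simp only [one_mul] at t1 t2 t3
    refine ((t1.sub t2).sub t3).congr_left fun n => ?_
    simp only [hg, hε, eval_add, eval_mul, eval_C, eval_pow, eval_X, map_add, map_mul]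
    linear_combination (α * c α * W n + α' * c α) * cW n - α'' * c α'' * W n * cZ n
  obtain ⟨β, C, l, hβ, l0, l1, hf⟩ := root_near gne hF hd h0 h1 hgO
  have β0 : β ≠ 0 := fun e => mul_ne_zero a1 ca (by
    rw [← g0, coeff_zero_eq_eval_zero]; exact (e ▸ hβ : g.IsRoot 0))
  have hal : IsAlgebraic ℚ β := by
    refine alg_root gne (fun j => ?_) hβ
    have c0 := alg_conj b0
    have c1 := alg_conj b1
    have c2 := alg_conj b2
    simp only [hg, coeff_add, coeff_C_mul, coeff_X_pow, coeff_X, coeff_C]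
    refine IsAlgebraic.add (IsAlgebraic.add ?_ ?_) ?_ <;> split_ifs
    · simpa using b0.mul c1
    · simpa using isAlgebraic_zero
    · simpa using ((b0.mul c0).add (b1.mul c1)).sub (b2.mul c2)
    · simpa using isAlgebraic_zero
    · exact b1.mul c0
    · exact isAlgebraic_zero
  refine ⟨β ^ k, k * max 1 ‖β‖ ^ k * C, l, pow_ne_zero _ β0, hal.pow k, l0, l1, hf.mono fun n hn => ?_⟩
  have e : (v ^ k) ^ d ^ n / (w ^ k) ^ d ^ n = W n ^ k := by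
    simp only [hW]; rw [← div_pow, ← div_pow, ← pow_mul, ← pow_mul, mul_comm]
  rw [e, mul_assoc]
  exact (pow_near (W1 n) k).trans (by gcongr)

end Pool.Agent.P.MP_68214b_ag.DS
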