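import Pool.Agent.P.MP_68214b_ag.DSO3

open Polynomial Filter Asymptotics NumberField Topology

namespace Pool.Agent.P.MP_68214b_ag.DS

theorem alg0_of_const {K : Type*} [Field K] {a : ℕ → K} {c : K} (h : ∀ᶠ n in atTop, a n = c) :
    Alg0 a := ⟨X - C c, X_sub_C_ne_zero c, h.mono fun n hn => by simp [hn]⟩

theorem sum_mem_adj {K : Type*} [Field K] {J : Type*} (x : J → ℕ → K) (q : J → K[X])
    (t : Finset J) : (fun n => ∑ i ∈ t, (q i).eval (x i n)) ∈ Algebra.adjoin K (Set.range x) := by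
  have := (Algebra.adjoin K (Set.range x)).sum_mem (t := t) (f := fun i n => (q i).eval (x i n))
    fun i _ => poly_mem (Algebra.subset_adjoin (Set.mem_range_self i)) (q i)
  rwa [show (∑ i ∈ t, fun n => (q i).eval (x i n)) =
    fun n => ∑ i ∈ t, (q i).eval (x i n) from funext fun n => Finset.sum_apply _ _ _] at this

theorem classes {K : Type*} [Field K] {J : Type*} [Fintype J] [DecidableEq J] {x : J → ℕ → K}
    (hD : Dom x) (q : J → K[X]) : ∃ (s : Finset J) (cl : J → Finset J) (c : K),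
      (∀ b ∈ s, b ∈ cl b ∧ (∀ i ∈ cl b, ¬ Alg0 (x i) ∧ Dep (x b) (x i)) ∧
        ¬ Alg0 fun n => ∑ i ∈ cl b, (q i).eval (x i n)) ∧
      (∀ b ∈ s, ∀ b' ∈ s, b ≠ b' → ¬ Dep (x b) (x b')) ∧
      ∀ᶠ n in atTop, ∑ i, (q i).eval (x i n) = c + ∑ b ∈ s, ∑ i ∈ cl b, (q i).eval (x i n) := by
  classical
  have dA := hD.domA
  have mA : ∀ i, x i ∈ Algebra.adjoin K (Set.range x) := fun i => Algebra.subset_adjoin ⟨i, rfl⟩
  let S : Setoid J := ⟨fun i j => i = j ∨ (¬ Alg0 (x i) ∧ ¬ Alg0 (x j) ∧ Dep (x i) (x j)),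
    fun _ => Or.inl rfl, fun h => h.imp Eq.symm fun h => ⟨h.2.1, h.1, h.2.2.symm⟩, by
      rintro i j k (rfl | h) h'
      · exact h'
      rcases h' with rfl | h'
      · exact Or.inr h
      · exact Or.inr ⟨h.1, h'.2.1, dA.trans (mA i) (mA j) (mA k) h'.1 h.2.2.symm h'.2.2⟩⟩
  let rep : J → J := fun i => (Quotient.mk S i).out
  have r1 : ∀ i, S (rep i) i := fun i => Quotient.mk_out (s := S) i
  have r2 : ∀ i j, S i j → rep i = rep j := fun i j h => congrArg Quotient.out (Quotient.sound h)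
  let cl : J → Finset J := fun b => Finset.univ.filter fun i => rep i = b
  let R : J → ℕ → K := fun b n => ∑ i ∈ cl b, (q i).eval (x i n)
  have hc : ∀ b, ∃ c, Alg0 (R b) → ∀ᶠ n in atTop, R b n = c := fun b => by
    by_cases h : Alg0 (R b)
    · obtain ⟨c, hc⟩ := dA.const (sum_mem_adj x q (cl b)) h
      exact ⟨c, fun _ => hc⟩
    · exact ⟨0, fun h' => absurd h' h⟩
  choose c hc using hc
  have key : ∀ b, ¬ Alg0 (R b) → rep b = b ∧ ¬ Alg0 (x b) := fun b hb => by
    rcases (cl b).eq_empty_or_nonempty with h | ⟨i, hi⟩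
    · exact absurd (alg0_of_const (c := 0) (Eventually.of_forall fun n => by simp [R, h])) hb
    have hi' : rep i = b := (Finset.mem_filter.1 hi).2
    have hb' : rep b = b := by rw [← hi']; exact r2 _ _ (r1 i)
    refine ⟨hb', fun h0 => hb ?_⟩
    have : cl b = {b} := by
      refine Finset.eq_singleton_iff_unique_mem.2 ⟨Finset.mem_filter.2 ⟨Finset.mem_univ _, hb'⟩,
        fun j hj => ?_⟩
      have h1 := r1 j
      rw [(Finset.mem_filter.1 hj).2] at h1
      exact (h1.resolve_right fun h => h.1 h0).symm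
    obtain ⟨e, he⟩ := dA.const (mA b) h0
    exact alg0_of_const (c := (q b).eval e) (he.mono fun n hn => by simp [R, this, hn])
  refine ⟨Finset.univ.filter fun b => ¬ Alg0 (R b), cl,
    ∑ b ∈ Finset.univ.filter fun b => Alg0 (R b), c b, fun b hb => ?_, fun b hb b' hb' hne hd => ?_,
    ?_⟩
  · have h := (Finset.mem_filter.1 hb).2
    refine ⟨Finset.mem_filter.2 ⟨Finset.mem_univ _, (key b h).1⟩, fun i hi => ?_, h⟩
    have h1 := r1 i
    rw [(Finset.mem_filter.1 hi).2] at h1
    rcases h1 with rfl | h1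
    · exact ⟨(key b h).2, dep_refl _⟩
    · exact h1.2
  · have h := key b (Finset.mem_filter.1 hb).2
    have h' := key b' (Finset.mem_filter.1 hb').2
    exact hne (by rw [← h.1, ← h'.1]; exact r2 _ _ (Or.inr ⟨h.2, h'.2, hd⟩))
  · filter_upwards [(eventually_all_finset (Finset.univ.filter fun b => Alg0 (R b))).2
      fun b hb => hc b (Finset.mem_filter.1 hb).2] with n hn
    rw [← Finset.sum_congr rfl hn, Finset.sum_filter_add_sum_filter_not]
    exact (Finset.sum_fiberwise _ rep _).symm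

end Pool.Agent.P.MP_68214b_ag.DS
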