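import Pool.Agent.P.MP_68214b_ag.DSN5
import Pool.Agent.P.MP_68214b_ag.DSO2

open Polynomial Filter Asymptotics NumberField Topology

namespace Pool.Agent.P.MP_68214b_ag.DS

variable {K : Type} [Field K] [NumberField K]

theorem dss6_root {p : K[X]} (hp : p ≠ 0) (hi : ∀ j, IsIntegral ℤ (p.coeff j)) {B : ℝ}
    (hB : ∀ j, house (p.coeff j) ≤ B) {b : K} (hb : p.eval b = 0) :
    house b ≤ B ^ (Module.finrank ℚ K + 1) + 1 := by
  obtain ⟨σ, hσ⟩ := exists_house b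
  have B0 : 0 ≤ B := (house_nonneg _).trans (hB 0)
  have hq : p.map σ ≠ 0 := (Polynomial.map_ne_zero_iff σ.injective).2 hp
  have hr : (p.map σ).IsRoot (σ b) := by
    rw [IsRoot.def, eval_map, eval₂_at_apply, hb, map_zero]
  have h1 : ‖σ b‖ < cauchyBound (p.map σ) := hr.norm_lt_cauchyBound hq
  have h2 : ((Finset.range (p.map σ).natDegree).sup (‖(p.map σ).coeff ·‖₊)) ≤ ⟨B, B0⟩ :=
    Finset.sup_le fun j _ => by
      rw [coeff_map]; exact (norm_embedding_le_house _ σ).trans (hB j)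
  have h2' : (((Finset.range (p.map σ).natDegree).sup (‖(p.map σ).coeff ·‖₊) : NNReal) : ℝ) ≤ B := h2
  have h3 := liou (hi p.natDegree) (leadingCoeff_ne_zero.2 hp) σ
  have h4 : 0 < ‖σ p.leadingCoeff‖ :=
    norm_pos_iff.2 ((map_ne_zero σ).2 (leadingCoeff_ne_zero.2 hp))
  have h5 : 1 ≤ ‖σ p.leadingCoeff‖ * B ^ Module.finrank ℚ K :=
    h3.trans (mul_le_mul_of_nonneg_left (pow_le_pow_left₀ (house_nonneg _) (hB _) _) h4.le)
  rw [cauchyBound, leadingCoeff_map, NNReal.coe_add, NNReal.coe_div, coe_nnnorm,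
    NNReal.coe_one] at h1
  rw [hσ]
  refine h1.le.trans (add_le_add_left ((div_le_iff₀ h4).2 (h2'.trans ?_)) 1)
  rw [pow_succ]
  nlinarith

theorem lemH {a b : ℕ → K} (ha : Den a)
    {G : K[X][X]} (hG : ∀ c : K, G.map (evalRingHom c) ≠ 0)
    (h : ∀ᶠ n in atTop, G.evalEval (a n) (b n) = 0) :
    ∃ (C : ℝ) (e : ℕ), ∀ᶠ n in atTop, house (b n) ≤ C * max 1 (house (a n)) ^ e := by
  obtain ⟨N, hN, hH⟩ := Den.fin G.support fun j _ => ha.poly (G.coeff j)
  set H := (N : K[X][X]) * G with hHd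
  set D := H.support.sup fun j => (H.coeff j).natDegree
  have hD : ∀ j, (H.coeff j).natDegree ≤ D := fun j => by
    by_cases hj : j ∈ H.support
    · exact Finset.le_sup (f := fun j => (H.coeff j).natDegree) hj
    · rw [notMem_support_iff.1 hj]; simp
  set L := (nH K).l2.f H
  have L0 : 0 ≤ L := (nH K).l2.nonneg H
  refine ⟨L ^ (Module.finrank ℚ K + 1) + 1, D * (Module.finrank ℚ K + 1),
    h.mono fun n hn => ?_⟩
  set t := max 1 (house (a n))
  have t1 : 1 ≤ t := le_max_left _ _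
  have hN0 : (N : K[X]) ≠ 0 := Nat.cast_ne_zero.2 hN.ne'
  have e : H.map (evalRingHom (a n)) = (N : K[X]) * G.map (evalRingHom (a n)) := by
    rw [hHd, Polynomial.map_mul, Polynomial.map_natCast]
  have key := dss6_root (p := H.map (evalRingHom (a n))) (B := L * t ^ D) (b := b n)
    (by rw [e]; exact mul_ne_zero hN0 (hG _)) (fun j => by
      rw [e, ← C_eq_natCast, coeff_C_mul, coeff_map, coe_evalRingHom]
      by_cases hj : j ∈ G.support
      · exact hH j hj n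
      · rw [notMem_support_iff.1 hj, eval_zero, mul_zero]
        exact isIntegral_zero)
    (fun j => by
      rw [coeff_map, coe_evalRingHom]
      exact ((nH K).eval₂_le (nH K) (RingHom.id K) (fun _ => le_rfl) t1 (le_max_right _ _)
        (hD j)).trans (mul_le_mul_of_nonneg_right ((nH K).l1.coeff_le H j) (by positivity)))
    (by rw [e, eval_mul, map_evalRingHom_eval, hn, mul_zero])
  refine key.trans ?_
  rw [mul_pow, ← pow_mul, add_mul, one_mul]
  exact add_le_add_right (one_le_pow₀ t1) _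

theorem low_cls {A : Subalgebra K (ℕ → K)} (hA : DomA A) {f : K[X]} {x r : ℕ → K} (hx : Orb f x)
    (ix : Den x) (mx : x ∈ A) (mr : r ∈ A) (h0 : ¬ Alg0 x) (r0 : ¬ Alg0 r) (ri : Den r)
    (hD : Dep x r) : ∃ ρ : ℝ, 1 < ρ ∧ ∀ᶠ n in atTop, ρ ^ f.natDegree ^ n ≤ house (r n) := by
  obtain ⟨G, hG, hz⟩ := hA.prim mr mx r0 hD.symm
  obtain ⟨C, e, hC⟩ := lemH ri hG hz
  obtain ⟨ρ, hρ, hl⟩ := growth_low hx ix h0
  exact low_root hx.deg hρ ((hl.and hC).mono fun n hn => hn.1.trans hn.2)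

theorem dss6_le {A : Subalgebra K (ℕ → K)} (hA : DomA A) {f g : K[X]} {x y : ℕ → K} (hx : Orb f x)
    (hy : Orb g y) (ix : Den x) (iy : Den y) (mx : x ∈ A) (my : y ∈ A) (x0 : ¬ Alg0 x)
    (y0 : ¬ Alg0 y) (hD : Dep y x) :
    f.natDegree ≤ g.natDegree := by
  obtain ⟨G, hG, hz⟩ := hA.prim my mx y0 hD
  obtain ⟨C, e, hC⟩ := lemH iy hG hz
  obtain ⟨ρ, hρ, hl⟩ := growth_low hx ix x0
  obtain ⟨Λ, hΛ, hu⟩ := growth_up hy.deg hy.step
  refine deg_le (C := |C|) (k := e) hy.deg hρ hΛ ((hl.and hC).mono fun n hn => ?_)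
  exact hn.1.trans (hn.2.trans (mul_le_mul (le_abs_self C) (pow_le_pow_left₀ (by positivity)
    (max_le (one_le_pow₀ hΛ) (hu n)) e) (by positivity) (abs_nonneg C)))

theorem deg_eq {A : Subalgebra K (ℕ → K)} (hA : DomA A) {f g : K[X]} {x y : ℕ → K} (hx : Orb f x)
    (hy : Orb g y) (ix : Den x) (iy : Den y) (mx : x ∈ A) (my : y ∈ A) (x0 : ¬ Alg0 x)
    (y0 : ¬ Alg0 y) (hD : Dep x y) :
    f.natDegree = g.natDegree :=
  le_antisymm (dss6_le hA hx hy ix iy mx my x0 y0 hD.symm) (dss6_le hA hy hx iy ix my mx y0 x0 hD)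

end Pool.Agent.P.MP_68214b_ag.DS
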