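import Pool.Agent.P.MP_68214b_ag.DSC1
import Pool.Agent.P.MP_68214b_ag.DSC2
import Pool.Agent.P.MP_68214b_ag.DSC3
import Pool.Agent.P.MP_68214b_ag.DSS6

open Polynomial Filter Asymptotics NumberField Topology

namespace Pool.Agent.P.MP_68214b_ag.DS

variable {K : Type} [Field K] [NumberField K]

theorem sml_of_exp {𝓕 : Filter ℕ} (hF : 𝓕 ≤ atTop) {d : ℕ} (hd : 2 ≤ d) {c : ℝ} (hc : 1 ≤ c)
    {r : ℕ → ℂ} (h : ∀ n, ‖r n‖ ≤ c ^ (n + 1)) : Sml 𝓕 d r := by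
  intro ρ hρ
  obtain ⟨k, hk⟩ := pow_unbounded_of_one_lt c hρ
  have h1 : ∀ᶠ n : ℕ in atTop, k * (n + 1) ≤ d ^ n := by
    have := (tendsto_pow_const_div_const_pow_of_one_lt 1 (r := 2) one_lt_two).eventually
      (gt_mem_nhds (show (0 : ℝ) < 1 / (2 * k + 1) by positivity))
    filter_upwards [this, eventually_ge_atTop 1] with n hn h1
    rw [pow_one, div_lt_div_iff₀ (by positivity) (by positivity), one_mul] at hn
    have h2 : n * (2 * k + 1) < 2 ^ n := by exact_mod_cast hn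
    have h3 := Nat.pow_le_pow_left hd n
    nlinarith
  refine IsBigO.of_bound' ((h1.filter_mono hF).mono fun n hn => (h n).trans ?_)
  rw [Real.norm_of_nonneg (by positivity)]
  refine (pow_le_pow_left₀ (by linarith) hk.le _).trans ?_
  rw [← pow_mul]
  exact pow_le_pow_right₀ hρ.le hn

theorem core (hK : Cj K) {J : Type} [Fintype J] {f : J → K[X]} {x : J → ℕ → K}
    (hO : ∀ i, Orb (f i) (x i)) (hI : ∀ i, Den (x i)) (h4 : ∀ t : Finset J, 4 ≤ t.card →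
      (∀ i ∈ t, ∀ j ∈ t, (f i).natDegree = (f j).natDegree) → ∃ i ∈ t, NSa (f i))
    (hD : Dom x) (q : J → K[X]) {L : ℕ → K}
    (L1 : ∀ σ : K →+* ℂ, ∃ c : ℝ, 1 ≤ c ∧ ∀ n, ‖σ (L n)‖ ≤ c ^ (n + 1))
    (L2 : ∀ c, (∃ᶠ n in atTop, L n = c) → ∀ᶠ n in atTop, L n = c)
    (h : ∃ᶠ n in atTop, L n + ∑ i, (q i).eval (x i n) = 0) :
    ∀ᶠ n in atTop, L n + ∑ i, (q i).eval (x i n) = 0 := by
  classical
  obtain ⟨s, cl, c, h1, h2, h3⟩ := classes hD q
  rcases s.eq_empty_or_nonempty with rfl | hne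
  · simp only [Finset.sum_empty, add_zero] at h3
    filter_upwards [h3, L2 (-c) ((h.and_eventually h3).mono fun n hn => by
      linear_combination hn.1 - hn.2)] with n a b
    rw [a, b, neg_add_cancel]
  exfalso
  obtain ⟨b1, hb1, hmax⟩ := s.exists_max_image (fun b => (f b).natDegree) hne
  set A := Algebra.adjoin K (Set.range x) with hA
  have dA : DomA A := hD.domA
  have mA : ∀ i, x i ∈ A := fun i => Algebra.subset_adjoin ⟨i, rfl⟩
  have n0 : ∀ b ∈ s, ¬ Alg0 (x b) := fun b hb => ((h1 b hb).2.1 b (h1 b hb).1).1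
  obtain ⟨ρ, hρ, hl⟩ := low_cls dA (hO b1) (hI b1) (mA b1) (sum_mem_adj x q (cl b1)) (n0 b1 hb1)
    (h1 b1 hb1).2.2 (Den.sum _ fun i _ => (hI i).poly (q i))
    (dA.dep_sum (mA b1) (n0 b1 hb1) (cl b1) (fun i hi => ⟨mA i, ((h1 b1 hb1).2.1 i hi).2⟩) q)
  have nb := frequently_iff_neBot.1 h
  set 𝒰 := Ultrafilter.of (atTop ⊓ 𝓟 {n : ℕ | L n + ∑ i, (q i).eval (x i n) = 0}) with h𝒰
  have hU : (𝒰 : Filter ℕ) ≤ atTop := (Ultrafilter.of_le _).trans inf_le_left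
  have hz : ∀ᶠ n in (𝒰 : Filter ℕ), L n + ∑ i, (q i).eval (x i n) = 0 :=
    le_principal_iff.1 ((Ultrafilter.of_le _).trans inf_le_right)
  obtain ⟨σ, hσ⟩ : ∃ σ : K →+* ℂ, ∀ᶠ n in (𝒰 : Filter ℕ),
      ρ ^ (f b1).natDegree ^ n ≤ ‖σ (∑ i ∈ cl b1, (q i).eval (x i n))‖ := by
    rw [← Ultrafilter.eventually_exists_iff]
    filter_upwards [hU hl] with n hn
    obtain ⟨σ, e⟩ := exists_house (∑ i ∈ cl b1, (q i).eval (x i n))
    exact ⟨σ, e ▸ hn⟩
  have hg : ∀ b, ∃ i, b ∈ s → i ∈ cl b ∧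
      (Sml 𝒰 (f b1).natDegree (fun n => σ (∑ i ∈ cl b, (q i).eval (x i n))) ∨
        BigC σ 𝒰 (f b1).natDegree (f i) (x i) fun n => σ (∑ i ∈ cl b, (q i).eval (x i n))) := by
    intro b
    by_cases hb : b ∈ s
    swap
    · exact ⟨b, fun h => absurd h hb⟩
    have := cls σ (I := cl b) (f := fun i => f i) (x := fun i => x i) (fun i => hO i)
      (e := (f b).natDegree) (d := (f b1).natDegree)
      (fun i => (deg_eq dA (hO b) (hO i) (hI b) (hI i) (mA b) (mA i) (n0 b hb) ((h1 b hb).2.1 i i.2).1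
        ((h1 b hb).2.1 i i.2).2).symm) (hmax b hb)
      (fun i j => dA.trans (mA i) (mA b) (mA j) (n0 b hb) ((h1 b hb).2.1 i i.2).2
        ((h1 b hb).2.1 j j.2).2) (fun i => q i) 𝒰 hU
    have e : ∀ n, ∑ i : cl b, (q i).eval (x i n) = ∑ i ∈ cl b, (q i).eval (x i n) := fun n =>
      Finset.sum_coe_sort (cl b) fun i => (q i).eval (x i n)
    simp only [e] at this
    rcases this with h | ⟨i, h⟩
    · exact ⟨b, fun _ => ⟨(h1 b hb).1, Or.inl h⟩⟩
    · exact ⟨i, fun _ => ⟨i.2, Or.inr h⟩⟩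
  choose g hg using hg
  have nd : ∀ b ∈ s, ∀ b' ∈ s, b ≠ b' → ¬ Dep (x (g b)) (x (g b')) := fun b hb b' hb' hne hd => by
    have e1 := (h1 b hb).2.1 _ (hg b hb).1
    have e2 := (h1 b' hb').2.1 _ (hg b' hb').1
    exact h2 b hb b' hb' hne (dA.trans (mA _) (mA _) (mA _) e2.1
      (dA.trans (mA _) (mA _) (mA _) e1.1 hd e1.2.symm) e2.2.symm)
  obtain ⟨c0, hc0, hL⟩ := L1 σ
  refine not_sml hU (hO b1).deg hρ hσ (all_sml hK σ s (f := fun b => f (g b))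
    (x := fun b => x (g b)) (fun b _ => hO _) nd hU (hO b1).deg (fun t ht hd hc => ?_)
    (fun b n => σ (∑ i ∈ cl b, (q i).eval (x i n))) (sml_of_exp hU (hO b1).deg hc0 hL) ?_
    (fun b hb => (hg b hb).2) b1 hb1)
  · obtain ⟨i, hi, hN⟩ := h4 (t.image g) (by
      rwa [Finset.card_image_of_injOn (f := g) fun b hb b' hb' e => by_contra fun hne =>
        nd b (ht hb) b' (ht hb') hne (by rw [e]; exact dep_refl _)]) (by
      simp only [Finset.forall_mem_image]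
      intro b hb b' hb'
      rw [hd b hb, hd b' hb'])
    obtain ⟨b, hb, rfl⟩ := Finset.mem_image.1 hi
    exact ⟨b, hb, hN⟩
  · refine IsBigO.congr' (isBigO_const_const (-σ c) one_ne_zero _) ?_ EventuallyEq.rfl
    filter_upwards [hU h3, hz] with n a b
    rw [← map_sum, ← map_neg, ← map_add]
    congr 1
    linear_combination a - b

end Pool.Agent.P.MP_68214b_ag.DS
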