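import Pool.Agent.P.MP_68214b_ag.DSN1

open Polynomial Filter Asymptotics NumberField Topology

namespace Pool.Agent.P.MP_68214b_ag.DS

theorem not_dvd_derivative {R : Type*} [CommRing R] [IsDomain R] [CharZero R] {G : R[X]}
    (hd : 0 < G.natDegree) : ¬ G ∣ derivative G := by
  intro h
  have h1 : derivative G ≠ 0 := fun k => hd.ne' (derivative_eq_zero.1 k)
  have h2 := natDegree_le_of_dvd h h1
  have h3 := natDegree_derivative_lt hd.ne'
  omega

theorem dst11_iter {R : Type*} [CommRing R] (G : R[X]) (t : ℕ) : ∀ V : R[X], ∃ U,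
    derivative^[t] (G ^ t * V) = (t.factorial : R[X]) * derivative G ^ t * V + G * U := by
  induction t with
  | zero => exact fun V => ⟨0, by simp⟩
  | succ t ih =>
    intro V
    obtain ⟨U, hU⟩ := ih (((t : R[X]) + 1) * derivative G * V + G * derivative V)
    refine ⟨U + (t.factorial : R[X]) * derivative G ^ t * derivative V, ?_⟩
    have h1 : derivative (G ^ (t + 1) * V) =
        G ^ t * (((t : R[X]) + 1) * derivative G * V + G * derivative V) := by
      rw [derivative_mul, derivative_pow_succ, map_add, map_natCast, map_one]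
      ring
    rw [Function.iterate_succ_apply, h1, hU, Nat.factorial_succ]
    push_cast
    ring

theorem has {R : Type*} [CommRing R] [IsDomain R] [CharZero R] {G V : R[X]} (hG : Prime G)
    (hd : 0 < G.natDegree) (hV : ¬ G ∣ V) (j : ℕ) : ¬ G ∣ hasseDeriv j (G ^ j * V) := by
  intro h
  obtain ⟨U, hU⟩ := dst11_iter G j V
  have h1 : G ∣ derivative^[j] (G ^ j * V) := by
    rw [← factorial_smul_hasseDeriv, LinearMap.smul_apply, nsmul_eq_mul]
    exact h.mul_left _
  rw [hU] at h1
  rcases hG.dvd_or_dvd ((dvd_add_left (dvd_mul_right G U)).1 h1) with h2 | h2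
  · rcases hG.dvd_or_dvd h2 with h3 | h3
    · have h4 := natDegree_le_of_dvd h3 (Nat.cast_ne_zero.2 j.factorial_ne_zero)
      rw [natDegree_natCast] at h4
      omega
    · exact not_dvd_derivative hd (hG.dvd_of_dvd_pow h3)
  · exact hV h2

theorem has' {R : Type*} [CommRing R] [IsDomain R] [CharZero R] {G W : R[X]} (hG : Prime G)
    (hd : 0 < G.natDegree) {m : ℕ} (h : ¬ G ^ (m + 1) ∣ W) :
    ∃ j ≤ m, G ^ j ∣ W ∧ ¬ G ∣ hasseDeriv j W := by
  induction m with
  | zero =>
    refine ⟨0, le_rfl, by simp, ?_⟩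
    simpa using h
  | succ m ih =>
    by_cases h1 : G ^ (m + 1) ∣ W
    · refine ⟨m + 1, le_rfl, h1, ?_⟩
      obtain ⟨V, rfl⟩ := h1
      refine has hG hd (fun k => h ?_) _
      rw [pow_succ G (m + 1)]
      exact mul_dvd_mul_left _ k
    · obtain ⟨j, h2, h3⟩ := ih h1
      exact ⟨j, by omega, h3⟩

theorem has_fam {R κ : Type*} [CommRing R] [IsDomain R] [CharZero R] {G : R[X]} (hG : Prime G)
    (hd : 0 < G.natDegree) (P : κ → R[X]) (hP : P ≠ 0) {D : ℕ} (hD : ∀ k, (P k).natDegree ≤ D) :
    ∃ j, j * G.natDegree ≤ D ∧ ∃ k, ¬ G ∣ hasseDeriv j (P k) := by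
  obtain ⟨k, hk⟩ := Function.ne_iff.1 hP
  have key : ∀ j, G ^ j ∣ P k → j * G.natDegree ≤ D := fun j h => by
    have h1 := natDegree_le_of_dvd h hk
    rw [natDegree_pow] at h1
    exact h1.trans (hD k)
  obtain ⟨j, -, h1, h2⟩ := has' hG hd (W := P k) (m := D) fun h => by
    have := key _ h
    nlinarith
  exact ⟨j, key j h1, k, h2⟩

theorem dst11_nsmul {A : Type*} [CommRing A] (ν : Sn A) (b : A) (c : ℕ) :
    ν.f (c • b) ≤ c * ν.f b := by
  induction c with
  | zero => simp [ν.zero]
  | succ c ih =>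
    rw [succ_nsmul]
    refine (ν.add _ _).trans ?_
    push_cast
    linarith

theorem greedy {A : Type*} [CommRing A] (ν : Sn A) (M : AddSubgroup A) (L : List A)
    (hp : ∀ G ∈ L, Prime G) (hc : ∀ G ∈ L, ∀ c : ℕ, 0 < c → ¬ G ∣ (c : A)) {H : ℝ} (hH : 0 ≤ H)
    (h : ∀ G ∈ L, ∃ b ∈ M, ν.f b ≤ H ∧ ¬ G ∣ b) :
    ∃ B ∈ M, ν.f B ≤ (L.length : ℝ) ^ 2 * H ∧ ∀ G ∈ L, ¬ G ∣ B := by
  classical
  induction L with
  | nil => exact ⟨0, M.zero_mem, by simp [ν.zero], by simp⟩
  | cons G0 L ih =>
    obtain ⟨B, hB, h1, h2⟩ := ih (fun G hG => hp G (List.mem_cons_of_mem _ hG))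
      (fun G hG => hc G (List.mem_cons_of_mem _ hG)) fun G hG => h G (List.mem_cons_of_mem _ hG)
    have ht : (0 : ℝ) ≤ L.length := Nat.cast_nonneg _
    by_cases h0 : G0 ∣ B
    · obtain ⟨b, hb, h3, h4⟩ := h G0 List.mem_cons_self
      have key : ∃ c ∈ Finset.Icc 1 (L.length + 1), ∀ G ∈ L, ¬ G ∣ B + c • b := by
        by_contra hn
        push Not at hn
        choose! g hg1 hg2 using hn
        have two : ∀ c ∈ Finset.Icc 1 (L.length + 1), ∀ c' ∈ Finset.Icc 1 (L.length + 1),
            c < c' → g c ≠ g c' := by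
          intro c k1 c' k2 k3 k4
          have hm := List.mem_cons_of_mem G0 (hg1 c k1)
          have k5 : g c ∣ ((c' - c : ℕ) : A) * b := by
            have := dvd_sub (k4 ▸ hg2 c' k2 : g c ∣ B + c' • b) (hg2 c k1)
            rw [Nat.cast_sub k3.le]
            simp only [nsmul_eq_mul] at this
            rwa [show B + c' * b - (B + c * b) = ((c' : A) - c) * b by ring] at this
          rcases (hp _ hm).dvd_or_dvd k5 with k6 | k6
          · exact hc _ hm _ (by omega) k6
          · refine h2 _ (hg1 c k1) ((dvd_add_left ?_).1 (hg2 c k1))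
            rw [nsmul_eq_mul]
            exact k6.mul_left _
        obtain ⟨c, k1, c', k2, k3, k4⟩ := Finset.exists_ne_map_eq_of_card_lt_of_maps_to
          (s := Finset.Icc 1 (L.length + 1)) (t := L.toFinset) (f := g)
          (by
            have := List.toFinset_card_le L
            rw [Nat.card_Icc]
            omega)
          fun c k => by simpa using hg1 c (by simpa using k)
        rcases lt_or_gt_of_ne k3 with k5 | k5
        · exact two c k1 c' k2 k5 k4
        · exact two c' k2 c k1 k5 k4.symm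
      obtain ⟨c, k1, k2⟩ := key
      rw [Finset.mem_Icc] at k1
      refine ⟨B + c • b, M.add_mem hB (M.nsmul_mem hb c), ?_, fun G hG => ?_⟩
      · have k3 := dst11_nsmul ν b c
        have k4 : (c : ℝ) ≤ L.length + 1 := by exact_mod_cast k1.2
        have k5 := ν.add B (c • b)
        have k6 : (c : ℝ) * ν.f b ≤ (L.length + 1) * H :=
          mul_le_mul k4 h3 (ν.nonneg b) (by linarith)
        rw [List.length_cons]
        push_cast
        nlinarith [mul_nonneg ht hH]
      · rcases List.mem_cons.1 hG with rfl | hG'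
        · intro k3
          have k4 := (dvd_add_right h0).1 k3
          rw [nsmul_eq_mul] at k4
          exact ((hp G hG).dvd_or_dvd k4).elim (hc G hG c (by omega)) h4
        · exact k2 G hG'
    · refine ⟨B, hB, h1.trans ?_, fun G hG => ?_⟩
      · rw [List.length_cons]
        push_cast
        nlinarith [mul_nonneg ht hH]
      · rcases List.mem_cons.1 hG with rfl | hG'
        · exact h0
        · exact h2 G hG'

end Pool.Agent.P.MP_68214b_ag.DS
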