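import Pool.Agent.P.MP_68214b_ag.DST14

open Polynomial Filter Asymptotics NumberField Topology

namespace Pool.Agent.P.MP_68214b_ag.DS

theorem dst14h_step (g : (PowerSeries ℂ)[X]) (n : ℕ) (p : PowerSeries ℂ)
    (h1 : PowerSeries.constantCoeff ((derivative g).eval p) ≠ 0)
    (h0 : PowerSeries.X ^ (n + 1) ∣ g.eval p) :
    ∃ q, PowerSeries.X ^ (n + 2) ∣ g.eval q ∧ PowerSeries.X ^ (n + 1) ∣ q - p := by
  obtain ⟨a, ha⟩ := h0
  set b := (derivative g).eval p with hb
  set c : PowerSeries ℂ :=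
    PowerSeries.C (-(PowerSeries.constantCoeff a) / PowerSeries.constantCoeff b) with hc
  refine ⟨p + c * PowerSeries.X ^ (n + 1), ?_, ⟨c, by ring⟩⟩
  obtain ⟨k, hk⟩ := g.binomExpansion p (c * PowerSeries.X ^ (n + 1))
  have h2 : PowerSeries.X ∣ a + b * c := by
    rw [PowerSeries.X_dvd_iff, map_add, map_mul, hc, PowerSeries.constantCoeff_C]
    field_simp
    ring
  obtain ⟨e, he⟩ := h2
  refine ⟨e + k * c ^ 2 * PowerSeries.X ^ n, ?_⟩
  rw [hk, ha, ← hb]
  linear_combination PowerSeries.X ^ (n + 1) * he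

theorem dst14h_root (g : (PowerSeries ℂ)[X]) (y : ℂ)
    (h1 : ∀ p, PowerSeries.constantCoeff p = y →
      PowerSeries.constantCoeff ((derivative g).eval p) ≠ 0)
    (h0 : PowerSeries.constantCoeff (g.eval (PowerSeries.C y)) = 0) :
    ∃ η : PowerSeries ℂ, PowerSeries.constantCoeff η = y ∧ g.eval η = 0 := by
  have step : ∀ (n : ℕ) (p : PowerSeries ℂ), PowerSeries.constantCoeff p = y ∧
      PowerSeries.X ^ (n + 1) ∣ g.eval p → ∃ q, (PowerSeries.constantCoeff q = y ∧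
      PowerSeries.X ^ (n + 1 + 1) ∣ g.eval q) ∧ PowerSeries.X ^ (n + 1) ∣ q - p := by
    intro n p hp
    obtain ⟨q, hq1, hq2⟩ := dst14h_step g n p (h1 p hp.1) hp.2
    refine ⟨q, ⟨?_, hq1⟩, hq2⟩
    have h3 : PowerSeries.X ∣ q - p := (dvd_pow_self _ (Nat.succ_ne_zero n)).trans hq2
    rw [PowerSeries.X_dvd_iff, map_sub, hp.1, sub_eq_zero] at h3
    exact h3
  choose! s hs using step
  let t : ℕ → PowerSeries ℂ := fun n => Nat.rec (PowerSeries.C y) s n
  have ht : ∀ n, PowerSeries.constantCoeff (t n) = y ∧ PowerSeries.X ^ (n + 1) ∣ g.eval (t n) := by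
    intro n
    induction n with
    | zero =>
      refine ⟨PowerSeries.constantCoeff_C y, ?_⟩
      rw [zero_add, pow_one, PowerSeries.X_dvd_iff]
      exact h0
    | succ n ih => exact (hs n (t n) ih).1
  have hd : ∀ k m, PowerSeries.X ^ (k + 1) ∣ t (k + m) - t k := by
    intro k m
    induction m with
    | zero => simp
    | succ m ih =>
      have h2 : PowerSeries.X ^ (k + m + 1) ∣ t (k + m + 1) - t (k + m) :=
        (hs (k + m) (t (k + m)) (ht _)).2
      have h3 := dvd_add ((pow_dvd_pow _ (by omega : k + 1 ≤ k + m + 1)).trans h2) ih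
      rwa [sub_add_sub_cancel] at h3
  let η : PowerSeries ℂ := PowerSeries.mk fun k => PowerSeries.coeff k (t k)
  have hη : ∀ n, PowerSeries.X ^ (n + 1) ∣ η - t n := by
    intro n
    rw [PowerSeries.X_pow_dvd_iff]
    intro k hk
    obtain ⟨m, rfl⟩ := Nat.exists_eq_add_of_le (Nat.lt_succ_iff.1 hk)
    have h2 := PowerSeries.X_pow_dvd_iff.1 (hd k m) k (Nat.lt_succ_self k)
    rw [map_sub, sub_eq_zero] at h2
    rw [map_sub, PowerSeries.coeff_mk, h2, sub_self]
  refine ⟨η, ?_, ?_⟩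
  · have h2 := hη 0
    rw [zero_add, pow_one, PowerSeries.X_dvd_iff, map_sub, (ht 0).1, sub_eq_zero] at h2
    exact h2
  · ext n
    have h2 := dvd_add ((hη n).trans (sub_dvd_eval_sub η (t n) g)) (ht n).2
    rw [sub_add_cancel] at h2
    rw [PowerSeries.X_pow_dvd_iff.1 h2 n (Nat.lt_succ_self n), map_zero]

theorem hensel {G : ℂ[X][X]} {y1 y2 : ℂ} (h0 : G.evalEval y1 y2 = 0)
    (h1 : (derivative G).evalEval y1 y2 ≠ 0) :
    ∃ η : PowerSeries ℂ, PowerSeries.constantCoeff η = y2 ∧ hat y1 η G = 0 := by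
  have e : ∀ (η : PowerSeries ℂ) (W : ℂ[X][X]), (W.map
      (Polynomial.coeToPowerSeries.ringHom.comp (taylorAlgHom y1 : ℂ[X] →+* ℂ[X]))).eval η =
      hat y1 η W := fun η W => eval_map _ _
  obtain ⟨η, h2, h3⟩ := dst14h_root (G.map
      (Polynomial.coeToPowerSeries.ringHom.comp (taylorAlgHom y1 : ℂ[X] →+* ℂ[X]))) y2
    (fun p hp => by rw [derivative_map, e, hat_c0, hp]; exact h1)
    (by rw [e, hat_c0, PowerSeries.constantCoeff_C]; exact h0)
  exact ⟨η, h2, e η G ▸ h3⟩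

end Pool.Agent.P.MP_68214b_ag.DS
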