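import Pool.Agent.P.MP_68214b_ag.DSN3

open Polynomial Filter Asymptotics NumberField Topology

namespace Pool.Agent.P.MP_68214b_ag.DS

theorem prem {R : Type*} [CommRing R] (ν : Sn R) (G : R[X]) (hd : 0 < G.natDegree) {γ : ℝ}
    (hγ : 1 ≤ γ) (hG : ν.l1.f G ≤ γ) (n : ℕ) : ∃ (ρ : R[X] →ₗ[R] R[X]) (N : ℕ), ∀ W : R[X],
      W.natDegree ≤ n → (ρ W).natDegree < G.natDegree ∧ G ∣ C G.leadingCoeff ^ N * W - ρ W ∧
        ν.l1.f (ρ W) ≤ (2 * γ) ^ n * ν.l1.f W := by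
  induction n with
  | zero => exact ⟨LinearMap.id, 0, fun W hW => ⟨hW.trans_lt hd, by simp, by simp⟩⟩
  | succ n ih =>
    by_cases h : n + 1 < G.natDegree
    · exact ⟨LinearMap.id, 0, fun W hW => ⟨hW.trans_lt h, by simp,
        le_mul_of_one_le_left (ν.l1.nonneg W) (one_le_pow₀ (by linarith))⟩⟩
    obtain ⟨k, hk⟩ := Nat.exists_eq_add_of_le (not_lt.1 h)
    obtain ⟨ρ, N, H⟩ := ih
    let T : R[X] →ₗ[R] R[X] := G.leadingCoeff • LinearMap.id - (lcoeff R (n + 1)).smulRight (X ^ k * G)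
    have hT : ∀ W, T W = C G.leadingCoeff * W - C (W.coeff (n + 1)) * (X ^ k * G) := fun W => by
      simp [T, smul_eq_C_mul]
    refine ⟨ρ ∘ₗ T, N + 1, fun W hW => ?_⟩
    have h1 : (T W).natDegree ≤ n := natDegree_le_iff_coeff_eq_zero.2 fun m hm => by
      obtain ⟨j, rfl⟩ : ∃ j, m = G.natDegree + j + k := ⟨m - (n + 1), by omega⟩
      rw [hT, coeff_sub, coeff_C_mul, coeff_C_mul, coeff_X_pow_mul]
      rcases Nat.eq_zero_or_pos j with rfl | hj
      · rw [add_zero, ← hk, coeff_natDegree, mul_comm, sub_self]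
      · rw [coeff_eq_zero_of_natDegree_lt (by omega : W.natDegree < _),
          coeff_eq_zero_of_natDegree_lt (by omega : G.natDegree < _)]
        simp
    obtain ⟨h2, h3, h4⟩ := H _ h1
    refine ⟨h2, ?_, h4.trans ?_⟩
    · have : C G.leadingCoeff ^ (N + 1) * W - (ρ ∘ₗ T) W = (C G.leadingCoeff ^ N * T W - ρ (T W)) +
          G * (C G.leadingCoeff ^ N * C (W.coeff (n + 1)) * X ^ k) := by
        rw [LinearMap.comp_apply]
        generalize ρ (T W) = y
        rw [hT]; ring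
      rw [this]
      exact dvd_add h3 (dvd_mul_right _ _)
    · rw [pow_succ, mul_assoc]
      refine mul_le_mul_of_nonneg_left ?_ (by positivity)
      have a0 := ν.l1.nonneg W
      have a1 : ν.l1.f (C G.leadingCoeff * W) ≤ γ * ν.l1.f W := (ν.l1.mul _ _).trans
        (mul_le_mul_of_nonneg_right (by rw [ν.l1_C]; exact (ν.coeff_le G _).trans hG) a0)
      have a2 : ν.l1.f (X ^ k * G) ≤ γ := (ν.l1.mul _ _).trans
        ((mul_le_of_le_one_left (ν.l1.nonneg G) ((ν.l1.pow_le _ _).trans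
          (pow_le_one₀ (ν.l1.nonneg _) ν.l1_X))).trans hG)
      have a3 : ν.l1.f (C (W.coeff (n + 1)) * (X ^ k * G)) ≤ ν.l1.f W * γ := (ν.l1.mul _ _).trans
        (mul_le_mul (by rw [ν.l1_C]; exact ν.coeff_le W _) a2 (ν.l1.nonneg _) a0)
      rw [hT]
      exact (ν.l1.sub_le _ _).trans (by linarith)

theorem small_v {R K κ : Type*} [CommRing R] [Field K] [Fintype κ] (ν : Sn R) {ι : R →+* K}
    (hι : Function.Injective ι) {G : R[X][X]} (hG : Prime (map2 ι G)) (hd : 0 < G.natDegree) {γ : ℝ}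
    (hγ : 1 ≤ γ) (hGγ : ν.l2.f G ≤ γ) (P : κ → R[X][X]) (c : κ → R) {D : ℕ}
    (hP : ∀ k, (P k).natDegree ≤ D) {H : ℝ} (hH : ∀ k, ν.l2.f (P k) ≤ H) {k0 : κ}
    (h0 : ¬ map2 ι G ∣ map2 ι (P k0)) (h : map2 ι G ∣ map2 ι (cmb (RingHom.id R) P c)) :
    ∃ v : κ → R, v ≠ 0 ∧ (∀ k, ν.f (v k) ≤ (2 * γ) ^ D * H) ∧ ∑ k, v k * c k = 0 := by
  obtain ⟨ρ, N, hρ⟩ := prem ν.l1 G hd hγ hGγ D
  have hi : Function.Injective (mapRingHom ι) := map_injective ι hι
  have hdeg : (map2 ι G).natDegree = G.natDegree := natDegree_map_eq_of_injective hi G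
  have hz : ∀ V : R[X][X], V.natDegree < G.natDegree → map2 ι G ∣ map2 ι V → V = 0 :=
    fun V a b => map2_inj hι ((eq_zero_of_dvd_of_natDegree_lt b
      ((natDegree_map_le (f := mapRingHom ι) (p := V)).trans_lt (hdeg ▸ a))).trans (map_zero _).symm)
  have hQ : cmb (RingHom.id R) P c = ∑ k, (C (c k) : R[X]) • P k :=
    Finset.sum_congr rfl fun k _ => by simp [smul_eq_C_mul]
  rw [hQ] at h
  obtain ⟨h1, h2, -⟩ := hρ (∑ k, (C (c k) : R[X]) • P k) (natDegree_sum_le_of_forall_le _ _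
    fun k _ => (natDegree_smul_le _ _).trans (hP k))
  have h3 := hz _ h1 (by
    have := map_dvd (map2 ι) h2
    rw [map_sub, map_mul] at this
    exact (dvd_sub_right (h.mul_left _)).1 this)
  have h4 : ρ (P k0) ≠ 0 := fun e => by
    have := map_dvd (map2 ι) (hρ _ (hP k0)).2.1
    rw [e, sub_zero, map_mul, map_pow] at this
    refine (hG.dvd_or_dvd this).elim (fun a => ?_) h0
    have b := hz _ (by rwa [natDegree_C]) (hG.dvd_of_dvd_pow a)
    rw [C_eq_zero, leadingCoeff_eq_zero] at b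
    simp [b] at hd
  obtain ⟨j, hj⟩ := Function.ne_iff.1 fun e : (ρ (P k0)).coeff = 0 => h4 (ext fun j => congrFun e j)
  obtain ⟨i, hi⟩ := Function.ne_iff.1 fun e : ((ρ (P k0)).coeff j).coeff = 0 =>
    hj (ext fun i => congrFun e i)
  refine ⟨fun k => ((ρ (P k)).coeff j).coeff i, fun e => hi (congrFun e k0), fun k =>
    (ν.coeff2_le _ i j).trans ((hρ _ (hP k)).2.2.trans
      (mul_le_mul_of_nonneg_left (hH k) (by positivity))), ?_⟩
  have := congrArg (fun W : R[X][X] => (W.coeff j).coeff i) h3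
  simpa [map_sum, finsetSum_coeff, mul_comm] using this

theorem small_v0 {R κ : Type*} [CommRing R] [Fintype κ] (ν : Sn R) (σ : R →+* ℂ)
    (hσ : Function.Injective σ) (P : κ → ℤ[X][X]) (hP : P ≠ 0) (c : κ → R) {H : ℝ}
    (hH : ∀ k, nZ.l2.f (P k) ≤ H) (h : cmb zc P (fun k => σ (c k)) = 0) :
    ∃ v : κ → R, v ≠ 0 ∧ (∀ k, ν.f (v k) ≤ H) ∧ ∑ k, v k * c k = 0 := by
  obtain ⟨k0, h4⟩ := Function.ne_iff.1 hP
  obtain ⟨j, hj⟩ := Function.ne_iff.1 fun e : (P k0).coeff = 0 => h4 (ext fun j => congrFun e j)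
  obtain ⟨i, hi⟩ := Function.ne_iff.1 fun e : ((P k0).coeff j).coeff = 0 =>
    hj (ext fun i => congrFun e i)
  refine ⟨fun k => (((P k).coeff j).coeff i : ℤ), fun e => hi ?_, fun k => (ν.intCast_le _).trans
    ((nZ.coeff2_le _ i j).trans (hH k)), hσ ?_⟩
  · have := congrArg σ (congrFun e k0)
    simpa using this
  · have := congrArg (fun W : ℂ[X][X] => (W.coeff j).coeff i) h
    simpa [cmb, finsetSum_coeff, mul_comm] using this

end Pool.Agent.P.MP_68214b_ag.DS
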