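import Pool.Agent.P.MP_68214b_ag.DSN2

open Polynomial Filter Asymptotics NumberField Topology

namespace Pool.Agent.P.MP_68214b_ag.DS

theorem mem_mI {y1 y2 : ℂ} {W : ℂ[X][X]} : W ∈ mI y1 y2 ↔ W.evalEval y1 y2 = 0 :=
  mem_span_C_X_sub_C_X_sub_C_iff_eval_eval_eq_zero

theorem van_dvd {y1 y2 : ℂ} {W : ℂ[X][X]} {μ : ℕ} (h : W ∈ mI y1 y2 ^ μ) (j : ℕ) :
    (X - C y1) ^ (μ - j) ∣ (taylor (C y2) W).coeff j := by
  induction μ generalizing W j with
  | zero => simp
  | succ μ ih =>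
    replace h : W ∈ mI y1 y2 ^ μ * mI y1 y2 := (pow_succ (mI y1 y2) μ).le h
    refine Submodule.mul_induction_on
      (C := fun W => (X - C y1) ^ (μ + 1 - j) ∣ (taylor (C y2) W).coeff j) h ?_ ?_
    · intro a ha b hb
      obtain ⟨u, v, rfl⟩ := Ideal.mem_span_pair.1 hb
      have e : a * (u * C (X - C y1) + v * (X - C (C y2))) =
          (a * u) * C (X - C y1) + (a * v) * (X - C (C y2)) := by ring
      have t : taylor (C y2) (X - C (C y2) : ℂ[X][X]) = X := by
        rw [map_sub, taylor_X, taylor_C, add_sub_cancel_right]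
      rw [e, map_add, taylor_mul _ (a * u), taylor_mul _ (a * v), taylor_C, t, coeff_add,
        coeff_mul_C]
      refine dvd_add ?_ ?_
      · refine (pow_dvd_pow _ (by omega : μ + 1 - j ≤ μ - j + 1)).trans ?_
        rw [pow_succ]
        exact mul_dvd_mul_right (ih (Ideal.mul_mem_right u _ ha) j) _
      · cases j with
        | zero => simp
        | succ j =>
          rw [coeff_mul_X, Nat.add_sub_add_right]
          exact ih (Ideal.mul_mem_right v _ ha) j
    · intro a b ha hb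
      rw [map_add, coeff_add]
      exact dvd_add ha hb

theorem van_of_tc {y1 y2 : ℂ} {W : ℂ[X][X]} {μ : ℕ}
    (h : ∀ i j, i + j < μ → tc y1 y2 W i j = 0) : W ∈ mI y1 y2 ^ μ := by
  have g1 : (C (X - C y1) : ℂ[X][X]) ∈ mI y1 y2 := Ideal.subset_span (by simp)
  have g2 : (X - C (C y2) : ℂ[X][X]) ∈ mI y1 y2 := Ideal.subset_span (by simp)
  rw [← sum_taylor_eq W (C y2), Polynomial.sum]
  refine Ideal.sum_mem _ fun j _ => ?_
  rw [← sum_taylor_eq ((taylor (C y2) W).coeff j) y1, Polynomial.sum, map_sum, Finset.sum_mul]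
  refine Ideal.sum_mem _ fun i _ => ?_
  by_cases hij : i + j < μ
  · have := h i j hij
    unfold tc at this
    rw [this]
    simp
  · rw [map_mul, map_pow, mul_assoc]
    refine Ideal.mul_mem_left _ _ (Ideal.pow_le_pow_right (by omega : μ ≤ i + j) ?_)
    exact (pow_add (mI y1 y2) i j).ge
      (Ideal.mul_mem_mul (Ideal.pow_mem_pow g1 i) (Ideal.pow_mem_pow g2 j))

theorem dst6_max (y1 y2 : ℂ) : (mI y1 y2).IsMaximal := by
  have e : mI y1 y2 = RingHom.ker (evalEvalRingHom y1 y2) := by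
    ext W
    rw [mem_mI, RingHom.mem_ker, coe_evalEvalRingHom]
  rw [e]
  refine RingHom.ker_isMaximal_of_surjective _ fun c => ⟨C (C c), ?_⟩
  rw [coe_evalEvalRingHom, evalEval_CC]

theorem van_cancel {y1 y2 : ℂ} {A V : ℂ[X][X]} {μ : ℕ} (h : A * V ∈ mI y1 y2 ^ μ)
    (hV : V.evalEval y1 y2 ≠ 0) : A ∈ mI y1 y2 ^ μ := by
  have := dst6_max y1 y2
  rw [mul_comm] at h
  exact (Ideal.IsMaximal.mul_mem_pow _ h).resolve_left fun h' => hV (mem_mI.1 h')

theorem IsDer.pow_mem {A : Type*} [CommRing A] {δ : A → A} (hδ : IsDer δ) (I : Ideal A) {μ : ℕ}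
    {a : A} (h : a ∈ I ^ μ) : δ a ∈ I ^ (μ - 1) := by
  induction μ generalizing a with
  | zero => simp
  | succ μ ih =>
    rw [pow_succ] at h
    rw [Nat.add_sub_cancel]
    refine Submodule.mul_induction_on (C := fun a => δ a ∈ I ^ μ) h ?_ ?_
    · intro a ha b hb
      rw [hδ.mul]
      refine Ideal.add_mem _ (Ideal.mul_mem_right _ _ ha) ?_
      refine Ideal.pow_le_pow_right (by omega : μ ≤ μ - 1 + 1) ?_
      rw [pow_succ]
      exact Ideal.mul_mem_mul (ih ha) hb
    · intro a b ha hb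
      rw [hδ.add]
      exact Ideal.add_mem _ ha hb

theorem IsDer.iter_mem {A : Type*} [CommRing A] {δ : A → A} (hδ : IsDer δ) (I : Ideal A) {μ : ℕ}
    {a : A} (h : a ∈ I ^ μ) (j : ℕ) : δ^[j] a ∈ I ^ (μ - j) := by
  induction j with
  | zero => simpa using h
  | succ j ih =>
    rw [Function.iterate_succ_apply', ← Nat.sub_sub]
    exact hδ.pow_mem I ih

theorem van_hasse {I : Ideal ℂ[X][X]} {W : ℂ[X][X]} {μ : ℕ} (h : W ∈ I ^ μ) (j : ℕ) :
    hasseDeriv j W ∈ I ^ (μ - j) := by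
  have hd : IsDer (derivative : ℂ[X][X] → ℂ[X][X]) :=
    ⟨fun a b => derivative_add, fun a b => by rw [derivative_mul]; ring⟩
  have h1 := hd.iter_mem I h j
  rw [← factorial_smul_hasseDeriv, LinearMap.smul_apply, nsmul_eq_mul] at h1
  have h0 : ((j.factorial : ℕ) : ℂ) ≠ 0 := by exact_mod_cast j.factorial_ne_zero
  have e : (C (C ((j.factorial : ℕ) : ℂ)⁻¹) : ℂ[X][X]) * (j.factorial : ℕ) = 1 := by
    rw [← map_natCast (C : ℂ[X] →+* ℂ[X][X]), ← map_natCast (C : ℂ →+* ℂ[X]), ← map_mul,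
      ← map_mul, inv_mul_cancel₀ h0, map_one, map_one]
  have h2 := Ideal.mul_mem_left _ (C (C ((j.factorial : ℕ) : ℂ)⁻¹) : ℂ[X][X]) h1
  rwa [← mul_assoc, e, one_mul] at h2

theorem dst6_sum (μ : ℕ) : μ * μ ≤ 2 * ∑ i ∈ Finset.range μ, (μ - i) := by
  induction μ with
  | zero => simp
  | succ μ ih =>
    rw [Finset.sum_range_succ']
    simp only [Nat.add_sub_add_right, Nat.sub_zero]
    nlinarith

theorem dst6_det {R : Type*} [CommRing R] {N : ℕ} (M : Matrix (Fin N) (Fin N) R) (c : Fin N → R)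
    (h : ∀ i j, c i ∣ M i j) : ∏ i, c i ∣ M.det := by
  rw [← Matrix.det_transpose, Matrix.det_apply']
  refine Finset.dvd_sum fun σ _ => Dvd.dvd.mul_left ?_ _
  exact Finset.prod_dvd_prod_of_dvd _ _ fun i _ => h i (σ i)

theorem resv {y1 y2 : ℂ} {A B : ℂ[X][X]} {μ n : ℕ} (hA : A ∈ mI y1 y2 ^ μ) (hB : B ∈ mI y1 y2 ^ μ)
    (hn : B.natDegree ≤ n) (hμ : μ ≤ A.natDegree + n) :
    ∃ E, μ * μ ≤ 2 * E ∧ (X - C y1) ^ E ∣ resultant A B A.natDegree n := by
  have e : resultant A B A.natDegree n =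
      resultant (taylor (C y2) A) (taylor (C y2) B) A.natDegree n := by
    obtain ⟨k, rfl⟩ := Nat.exists_eq_add_of_le hn
    have h1 := resultant_taylor A B (C y2)
    rw [natDegree_taylor, natDegree_taylor] at h1
    rw [resultant_add_right_deg _ _ _ _ k le_rfl,
      resultant_add_right_deg _ _ _ _ k (natDegree_taylor B (C y2)).le, h1,
      coeff_taylor_natDegree, leadingCoeff]
  refine ⟨∑ i : Fin (A.natDegree + n), (μ - i), ?_, ?_⟩
  · refine (dst6_sum μ).trans (Nat.mul_le_mul_left 2 ?_)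
    rw [Fin.sum_univ_eq_sum_range (fun i => μ - i)]
    exact Finset.sum_le_sum_of_subset (Finset.range_subset_range.2 hμ)
  · rw [e, ← Finset.prod_pow_eq_pow_sum]
    refine dst6_det _ _ fun i j => ?_
    unfold sylvester
    rw [Matrix.of_apply]
    refine Fin.addCases (fun j => ?_) (fun j => ?_) j
    · rw [Fin.addCases_left]
      split_ifs
      · exact (pow_dvd_pow _ (by omega)).trans (van_dvd hB _)
      · exact dvd_zero _
    · rw [Fin.addCases_right]
      split_ifs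
      · exact (pow_dvd_pow _ (by omega)).trans (van_dvd hA _)
      · exact dvd_zero _

end Pool.Agent.P.MP_68214b_ag.DS
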