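import Pool.Agent.P.MP_68214b_ag.DST16b
import Pool.Agent.P.MP_68214b_ag.DST14h
import Pool.Agent.P.MP_68214b_ag.DST15
import Pool.Agent.P.MP_68214b_ag.DST11
import Pool.Agent.P.MP_68214b_ag.DST6

open Polynomial Filter Asymptotics NumberField Topology

namespace Pool.Agent.P.MP_68214b_ag.DS

theorem dst16_cnt {T D j s : ℕ} (hT : 0 < T) (hj : 2 * T * j ≤ D) (hs : 4 * T * s + 1 ≤ D) :
    D ≤ 4 * T * (D / T + 1 - j - s) := by
  have h1 : D < T * (D / T + 1) := Nat.lt_mul_div_succ D hT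
  have h2 : j + s ≤ D / T + 1 := by
    by_contra hlt
    have h3 : T * (D / T + 1) ≤ T * (j + s) := Nat.mul_le_mul_left _ (by omega)
    have h4 : T * (j + s) = T * j + T * s := by ring
    have h5 : 2 * T * j = 2 * (T * j) := by ring
    have h6 : 4 * T * s = 4 * (T * s) := by ring
    omega
  obtain ⟨m, hm⟩ := Nat.exists_eq_add_of_le h2
  have h3 : D / T + 1 - j - s = m := by omega
  rw [h3]
  rw [hm] at h1
  have h4 : T * (j + s + m) = T * j + T * s + T * m := by ring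
  have h5 : 2 * T * j = 2 * (T * j) := by ring
  have h6 : 4 * T * s = 4 * (T * s) := by ring
  have h7 : 4 * T * m = 4 * (T * m) := by ring
  omega

theorem dst16_ev {R S : Type*} [CommRing R] [CommRing S] (φ : R →+* S) (x y : R) (W : R[X][X]) :
    (map2 φ W).evalEval (φ x) (φ y) = φ (W.evalEval x y) := by
  rw [map_evalEval, ev2_eq]

theorem dst16_hasse {R S : Type*} [CommRing R] [CommRing S] (φ : R →+* S) (j : ℕ) (W : R[X][X]) :
    map2 φ (hasseDeriv j W) = hasseDeriv j (map2 φ W) :=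
  map_hasse (mapRingHom φ) j W

theorem nvc {R K : Type*} [CommRing R] [Field K] [CharZero K] {ν : Sn R} {ι : R →+* K}
    {σ : K →+* ℂ} {r : ℕ} (hL : LV ν (σ.comp ι) r) {G : R[X][X]} (hG : Prime (map2 ι G))
    (hd : 0 < G.natDegree) (κ : Type*) [Fintype κ] (c : ℝ) (hc : 1 ≤ c) {T : ℕ} (hT : 0 < T) :
    ∃ (c2 c3 : ℝ) (D1 : ℕ), 1 ≤ c2 ∧ ∀ D ≥ D1, ∀ (D2 : ℕ) (P : κ → R[X][X]) (v : κ → R) (y1 y2 : R),
      D2 ≤ D → 2 * T * D2 ≤ G.natDegree * D → P ≠ 0 →
      (∀ k, Bd (P k) D D2 ∧ ν.l2.f (P k) ≤ c ^ D) → G.evalEval y1 y2 = 0 → c3 < ‖σ (ι y1)‖ →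
      (∃ w : κ → R, w ≠ 0 ∧ (∀ k, ν.f (w k) ≤ c2 ^ D) ∧ ∑ k, w k * v k = 0) ∨
        cmb (σ.comp ι) P (fun k => σ (ι (v k))) ∉ mI (σ (ι y1)) (σ (ι y2)) ^ (D / T + 1) := by
  have hι : Function.Injective ι := by
    have h := hL.inj
    intro a b hab
    exact h (by simp [hab])
  have hdeg : (map2 ι G).natDegree = G.natDegree :=
    natDegree_map_eq_of_injective (f := mapRingHom ι) (map_injective ι hι) G
  have hd' : 0 < (map2 ι G).natDegree := hdeg ▸ hd
  obtain ⟨c0, hc0⟩ := smooth_far σ hG hd'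
  have h2c : (1 : ℝ) ≤ 2 * c := by linarith
  obtain ⟨c4, hc4, hwr⟩ := nvc_wr hL hG hd κ (2 * c) h2c
  have hγ : (1 : ℝ) ≤ max 1 (ν.l2.f G) := le_max_left _ _
  refine ⟨2 * max 1 (ν.l2.f G) * (2 * c), max c0 (c4 ^ (4 * T)), 4 * T * Fintype.card κ + 1,
    by nlinarith, ?_⟩
  intro D hD D2 P v y1 y2 hD2 hTD hP hB hy hc3
  rw [or_iff_not_imp_right, not_not]
  intro hQ
  have hP' : (fun k => map2 ι (P k)) ≠ 0 := by
    intro h
    apply hP
    funext k
    exact map2_inj hι (by rw [congrFun h k]; simp)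
  obtain ⟨j, hj, k0, hk0⟩ := has_fam hG hd' (fun k => map2 ι (P k)) hP' (D := D2)
    fun k => ((hB k).1.map2 ι).2
  have hj2 : 2 * T * j ≤ D := by
    rw [hdeg] at hj
    have h1 : G.natDegree * (2 * T * j) ≤ G.natDegree * D :=
      calc G.natDegree * (2 * T * j) = 2 * T * (j * G.natDegree) := by ring
        _ ≤ 2 * T * D2 := Nat.mul_le_mul_left _ hj
        _ ≤ _ := hTD
    exact Nat.le_of_mul_le_mul_left h1 hd
  have hB2 : ∀ k, Bd (hasseDeriv j (P k)) D D ∧ ν.l2.f (hasseDeriv j (P k)) ≤ (2 * c) ^ D := by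
    intro k
    refine ⟨((hB k).1.mono le_rfl hD2).hasse j, ?_⟩
    have h1 := ν.l1.l1_hasse ((hB k).1.2.trans hD2) j
    rw [mul_pow]
    exact h1.trans (mul_le_mul_of_nonneg_left (hB k).2 (by positivity))
  have hK0 : (map2 ι G).evalEval (ι y1) (ι y2) = 0 := by rw [dst16_ev, hy, map_zero]
  have hK1 := hc0 (ι y1) (ι y2) hK0 ((le_max_left _ _).trans_lt hc3)
  have hC0 : (map2 (σ.comp ι) G).evalEval (σ (ι y1)) (σ (ι y2)) = 0 := by
    rw [← map2_map2, dst16_ev, hK0, map_zero]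
  have hC1 : (derivative (map2 (σ.comp ι) G)).evalEval (σ (ι y1)) (σ (ι y2)) ≠ 0 := by
    rw [← map2_map2, ← map2_derivative, dst16_ev]
    exact (map_ne_zero σ).2 hK1
  obtain ⟨η, hη, hη0⟩ := hensel hC0 hC1
  have hη1 : hat (σ (ι y1)) η (derivative (map2 (σ.comp ι) G)) ≠ 0 := by
    intro h
    apply hC1
    rw [← hη, ← hat_c0, h, map_zero]
  have hQ2 := van_hasse hQ j
  rw [hasse_cmb] at hQ2
  have hQ3 := hat_mI hη hQ2
  by_cases h0 : hat (σ (ι y1)) η
      (cmb (σ.comp ι) (fun k => hasseDeriv j (P k)) fun k => σ (ι (v k))) = 0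
  · have h1 : map2 σ (map2 ι (cmb (RingHom.id R) (fun k => hasseDeriv j (P k)) v)) =
        cmb (σ.comp ι) (fun k => hasseDeriv j (P k)) fun k => σ (ι (v k)) := by
      rw [map2_map2, map2_cmb, RingHom.comp_id]
      rfl
    have h2 := dvd_of_hat0 σ hG hd' (y := σ (ι y1)) (η := η) (by rw [map2_map2]; exact hη0)
      (h1 ▸ h0)
    obtain ⟨w, hw0, hw1, hw2⟩ := small_v ν hι hG hd hγ (le_max_right _ _)
      (fun k => hasseDeriv j (P k)) v (D := D) (fun k => (hB2 k).1.2) (fun k => (hB2 k).2)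
      (k0 := k0) (by rw [dst16_hasse]; exact hk0) h2
    exact ⟨w, hw0, fun k => by rw [mul_pow]; exact hw1 k, hw2⟩
  · exfalso
    have h1 := hwr D (by omega) (fun k => hasseDeriv j (P k)) (fun k => σ (ι (v k))) _ η _ hB2 hη0
      hη1 h0 hQ3
    have h2 := dst16_cnt hT hj2 hD
    have h3 : D / T + 1 - j - Fintype.card κ ≠ 0 := by
      intro h
      rw [h] at h2
      omega
    have h4 : (c4 ^ (4 * T)) ^ (D / T + 1 - j - Fintype.card κ) <
        ‖σ (ι y1)‖ ^ (D / T + 1 - j - Fintype.card κ) :=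
      pow_lt_pow_left₀ ((le_max_right _ _).trans_lt hc3) (by positivity) h3
    rw [← pow_mul] at h4
    exact absurd ((pow_le_pow_right₀ hc4 h2).trans_lt (h4.trans_le h1)) (lt_irrefl _)

end Pool.Agent.P.MP_68214b_ag.DS
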