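import Pool.Agent.P.MP_68214b_ag.DST18b
import Pool.Agent.P.MP_68214b_ag.DST16

open Polynomial Filter Asymptotics NumberField Topology

namespace Pool.Agent.P.MP_68214b_ag.DS

variable {K F : Type} [Field K] [NumberField K] [Field F] [NumberField F] [Algebra K F]

theorem TS.curve (S : TS K F) {L Th D0 : ℕ} (hp : S.Par L Th D0) {G : (RN K S.M)[X][X]}
    (hG : Prime (map2 ((RN K S.M).subtype) G))
    (h : ∀ᶠ m in S.𝓕, G.evalEval (S.y1 m) (S.y2 m) = 0) : S.deg ≤ D0 := by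
  by_contra! hdeg
  have := S.ne
  have G0 : G ≠ 0 := fun e => hG.ne_zero (by rw [e, map_zero])
  have dG := S.deg_curve G0 h
  have hd : 0 < G.natDegree := S.deg_pos.trans_le dG
  have T2 : 2 ≤ S.T := le_trans (Nat.le_add_left _ _) hp.hT
  obtain ⟨c, hc, hk⟩ := S.key hp
  obtain ⟨c2, c3, D1, h2, hn⟩ := nvc (ι := (RN K S.M).subtype) (σ := S.σ) S.lv hG hd
    (Fin (D0 + 1) × Fin (D0 + 1)) c hc (T := S.T) (by omega)
  obtain ⟨m, a1, a2, a3, a4⟩ := (hk.and (h.and ((S.big.eventually_gt_atTop c3).and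
    ((S.endB hp.D0_pos hdeg h2).filter_mono S.le)))).exists
  obtain ⟨m', b1, b2, -, b3⟩ := (a1.and (a4.and
    (S.ev_D hp.D0_pos (max D1 S.T) m))).exists
  obtain ⟨D, hD⟩ : ∃ D, D = D0 * S.d ^ (m' - m) := ⟨_, rfl⟩
  rw [← hD] at b2 b3
  have th : 0 < Th + 2 * (S.a + S.b) := by have := hp.Th1; omega
  have c0 : Cnt (Module.finrank ℚ F) (Th + 2 * (S.a + S.b)) S.T D0 D
      (min D (G.natDegree * D / (2 * S.T))) := by
    rcases min_choice D (G.natDegree * D / (2 * S.T)) with e | e <;> rw [e]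
    · refine cnt1 (hp.hF.trans (Nat.mul_le_mul_left _ hp.hL)) T2 (le_of_max_le_right b3) th
        (le_trans ?_ hp.hD0)
      exact Nat.mul_le_mul_right _ (Nat.mul_le_mul (Nat.mul_le_mul_right _ (by norm_num))
        (Nat.le_succ _))
    · refine cnt2 (hp.hF.trans (Nat.mul_le_mul_left _ dG)) T2 (le_of_max_le_right b3) th
        (le_trans ?_ hp.hD0)
      exact Nat.mul_le_mul_right _ (Nat.le_mul_of_pos_right _ (Nat.succ_pos _))
  obtain ⟨P, P0, hP, hQ⟩ := b1 D _ hD (min_le_left _ _) c0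
  have inj : Function.Injective (Int.castRingHom (RN K S.M)) := Int.cast_injective
  have e : cmb (S.σ.comp ((RN K S.M).subtype)) (fun k => map2 (Int.castRingHom (RN K S.M)) (P k))
      (fun k => S.σ ((RN K S.M).subtype (mon D0 (S.y1 m') (S.y2 m') k))) = S.Q P m' := by
    unfold TS.Q cmb
    refine Finset.sum_congr rfl fun k _ => ?_
    rw [map2_map2, RingHom.ext_int ((S.σ.comp ((RN K S.M).subtype)).comp _) zc]
    simp only [mon, map_mul, map_pow, TS.σO, RingHom.comp_apply]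
  have q1 : 2 * S.T * min D (G.natDegree * D / (2 * S.T)) ≤ G.natDegree * D :=
    (Nat.mul_le_mul_left _ (min_le_right _ _)).trans (Nat.mul_div_le _ _)
  have q2 : (fun k => map2 (Int.castRingHom (RN K S.M)) (P k)) ≠ 0 := fun e =>
    P0 (funext fun k => map2_inj inj ((congrFun e k).trans (map_zero _).symm))
  have q0 : ∀ n : ℤ, (nR K S.M).f (Int.castRingHom (RN K S.M) n) ≤ nZ.f n := fun n => by
    rw [eq_intCast]; exact (nR K S.M).intCast_le n
  have q3 : ∀ k, Bd (map2 (Int.castRingHom (RN K S.M)) (P k)) D (min D (G.natDegree * D / (2 * S.T))) ∧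
      (nR K S.M).l2.f (map2 (Int.castRingHom (RN K S.M)) (P k)) ≤ c ^ D := fun k =>
    ⟨(hP k).1.map2 _, (nZ.l2_map (nR K S.M) _ q0 _).trans (hP k).2⟩
  have q4 := hn D (le_of_max_le_left b3) _ _ (mon D0 (S.y1 m') (S.y2 m')) (S.y1 m) (S.y2 m)
    (min_le_left _ _) q1 q2 q3 a2 a3
  rw [e] at q4
  rcases q4 with ⟨w, w0, w1, w2⟩ | q4
  · exact b2 w w0 w1 w2
  · exact q4 hQ

end Pool.Agent.P.MP_68214b_ag.DS
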