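import Pool.Agent.P.MP_68214b_ag.DST18c
import Pool.Agent.P.MP_68214b_ag.DST18d

open Polynomial Filter Asymptotics NumberField Topology

namespace Pool.Agent.P.MP_68214b_ag.DS

variable {K F : Type} [Field K] [NumberField K] [Field F] [NumberField F] [Algebra K F]

theorem prime_freq {M : ℕ+} {𝓕 : Filter ℕ} (y1 y2 : ℕ → RN K M) {G : K[X][X]} (hG : G ≠ 0)
    (h : ∃ᶠ m in 𝓕, G.evalEval (y1 m : K) (y2 m : K) = 0) : ∃ G' : (RN K M)[X][X],
      Prime (map2 ((RN K M).subtype) G') ∧ ∃ᶠ m in 𝓕, G'.evalEval (y1 m) (y2 m) = 0 := by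
  induction G using UniqueFactorizationMonoid.induction_on_prime with
  | h₁ => exact absurd rfl hG
  | h₂ G hu =>
    obtain ⟨m, hm⟩ := h.exists
    exact absurd hm (hu.map (evalEvalRingHom (y1 m : K) (y2 m : K))).ne_zero
  | h₃ a p ha hp ih =>
    simp only [evalEval_mul, mul_eq_zero, frequently_or_distrib] at h
    refine h.elim (fun h => ?_) (ih ha)
    obtain ⟨N, G', hN, e⟩ := exists_den3 (M := M) p
    have hu : IsUnit (N : K[X][X]) := by
      have := (Nat.cast_ne_zero.2 hN.ne' : (N : K) ≠ 0).isUnit.map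
        ((C : K[X] →+* K[X][X]).comp (C : K →+* K[X]))
      rwa [map_natCast] at this
    refine ⟨G', e ▸ (associated_unit_mul_right p _ hu).prime hp, h.mono fun m hm => ?_⟩
    refine (RN K M).subtype_injective ?_
    rw [map_evalEval, ev2_eq, e, evalEval_mul, map_zero]
    exact mul_eq_zero_of_right _ hm

theorem TS.tsc (S : TS K F) {L Th D0 : ℕ} (hp : S.Par L Th D0) : S.deg ≤ D0 := by
  by_cases h : ∀ G : ℤ[X][X], G ≠ 0 →
    ∀ᶠ m in S.𝓕, ev2 zc (S.σO (S.y1 m)) (S.σO (S.y2 m)) G ≠ 0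
  · exact S.dense hp h
  obtain ⟨G, h1⟩ := not_forall.1 h
  obtain ⟨h0, h2⟩ := Classical.not_imp.1 h1
  obtain ⟨G', hG, h3⟩ := prime_freq (𝓕 := S.𝓕) S.y1 S.y2 (G := map2 (Int.castRingHom K) G)
    ((map_ne_zero_iff _ (map2_inj Int.cast_injective)).2 h0)
    ((not_eventually.1 h2).mono fun m hm => S.σ.injective (by
      rw [map_evalEval, ev2_map2, map_zero, Subsingleton.elim (S.σ.comp _) zc]
      exact not_not.1 hm))
  exact TS.curve { S with
      𝓕 := S.𝓕 ⊓ 𝓟 {m | G'.evalEval (S.y1 m) (S.y2 m) = 0}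
      ne := frequently_iff_neBot.1 h3
      le := inf_le_left.trans S.le
      apx := S.apx.filter_mono inf_le_left }
    ⟨hp.Th1, hp.hTh, hp.hD0, hp.hT, hp.hF, hp.hL⟩ hG
    (mem_inf_of_right (mem_principal_self _))

end Pool.Agent.P.MP_68214b_ag.DS
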