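import Pool.Agent.P.MP_68214b_ag.DSD1
import Pool.Agent.P.MP_68214b_ag.DST18
import Pool.Agent.P.MP_68214b_ag.DSC1

open Polynomial Filter Asymptotics NumberField Topology

namespace Pool.Agent.P.MP_68214b_ag.DS

variable {K : Type} [Field K] [NumberField K]

theorem ts2 [Algebra K ℂ] {f : K[X]} {y : ℕ → K} (h : Orb f y) (L : ℕ) :
    ∃ D0 T0 : ℕ, ∀ T ≥ T0, ∀ w : ℂ, IsIntegral K w → (minpoly K w).natDegree ≤ L * T →
      (∃ C : ℝ, ∃ᶠ m in atTop, ‖algebraMap K ℂ (y m) - w‖ ≤ C * ((1 / 2) ^ f.natDegree ^ m) ^ T) →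
      (minpoly K w).natDegree ≤ D0 := by
  have d2 := h.deg
  set d := f.natDegree with hd
  have o2 : Orb (X ^ d : K[X]) fun n => 2 ^ d ^ n := ⟨monic_X_pow d, by rwa [natDegree_X_pow],
    fun n => by rw [eval_pow, eval_X, ← pow_mul, pow_succ]⟩
  obtain ⟨N, Λ, N0, hΛ, l0, g1, g2⟩ := exists_gr2 o2 h (natDegree_X_pow d) rfl
  set r := Module.finrank ℚ K with hr
  have nτ : ‖(1 / 2 : ℂ)‖ = 1 / 2 := by simp
  have τ1 : ‖(1 / 2 : ℂ)‖ < 1 := by rw [nτ]; norm_num
  obtain ⟨k, hk⟩ := exists_pow_lt_of_lt_one (x := 1 / 2 / Λ ^ (4 * (3 * r))) (by positivity) τ1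
  have hTh : Λ ^ (4 * (3 * r)) * ‖(1 / 2 : ℂ)‖ ^ (k + 1 - 1) ≤ 1 / 2 := by
    rw [Nat.add_sub_cancel, mul_comm]
    exact (le_div_iff₀ (by positivity)).1 hk.le
  refine ⟨16 * r * (L + 1) * (k + 1 + 2 * (0 + 1)) ^ 3,
    (k + 1 + 2 * (0 + 1)) * (16 * r * (L + 1) * (k + 1 + 2 * (0 + 1)) ^ 3) + 2,
    fun T hT β hβ hL ⟨C, hN⟩ => ?_⟩
  set F := IntermediateField.adjoin K {β} with hF
  have : FiniteDimensional K F := IntermediateField.adjoin.finiteDimensional hβ
  have : NumberField F := NumberField.of_module_finite K F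
  have T1 : 1 ≤ T := by omega
  let S : TS K F :=
    { φ := F.val, β := IntermediateField.AdjoinSimple.gen K β, a := 0, b := 1, d := d
      T := T, τ := 1 / 2, Λ := Λ, C0 := max 1 C, N := 1, hN := one_pos, M := ⟨N, N0⟩
      y1 := fun m => ⟨_, g1.mem N0 m⟩, y2 := fun m => ⟨_, g2.mem N0 m⟩
      π1 := 1, π2 := Polynomial.C (IntermediateField.AdjoinSimple.gen K β)
      𝓕 := atTop ⊓ 𝓟 {m | ‖algebraMap K ℂ (y m) - β‖ ≤ C * ((1 / 2) ^ d ^ m) ^ T}
      hb := one_pos, hd := h.deg, T1 := T1, τ0 := by norm_num, τ1 := τ1, Λ1 := l0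
      C1 := le_max_left _ _, hy1 := g1.nR N0 hΛ, hy2 := g2.nR N0 hΛ
      p1 := by simp, p2 := by simp, ne := frequently_iff_neBot.1 hN, le := inf_le_left
      apx := by
        filter_upwards [mem_inf_of_right (mem_principal_self _)] with m hm
        refine ⟨?_, ?_⟩
        · rw [map_pow, map_pow, map_ofNat, map_ofNat, pow_one, ← mul_pow, Polynomial.map_one,
            eval_one]
          norm_num
        · rw [pow_zero, mul_one, map_C, eval_C, norm_pow, nτ]
          change ‖algebraMap K ℂ (y m) - β‖ ≤ _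
          exact le_trans hm (by gcongr; exact le_max_right _ _) }
  have e : S.deg = (minpoly K β).natDegree :=
    congrArg natDegree (IntermediateField.minpoly_gen K β)
  rw [← e]
  refine S.tsc (L := L) (Th := k + 1) ⟨by omega, hTh, le_rfl, hT, ?_, e ▸ hL⟩
  rw [e, ← IntermediateField.adjoin.finrank hβ, Module.finrank_mul_finrank]

theorem dsd2_fin [Algebra K ℂ] {f : K[X]} {y : ℕ → K} (h : Orb f y) {w : ℂ} (hw : IsIntegral K w)
    (hN : ∀ T, ∃ C : ℝ, ∃ᶠ m in atTop,
      ‖algebraMap K ℂ (y m) - w‖ ≤ C * ((1 / 2) ^ f.natDegree ^ m) ^ T) : Alg0 y := by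
  obtain ⟨N, Λ, N0, hΛ, l1, g, -⟩ := exists_gr2 h h rfl rfl
  set μ := minpoly K w with hμ
  set P : MvPolynomial Unit K := aeval (MvPolynomial.X ()) μ with hP
  have ev : ∀ z : K, MvPolynomial.eval (fun _ => z) P = μ.eval z := fun z => by
    rw [hP, ← MvPolynomial.coe_aeval_eq_eval, RingHom.coe_coe, ← aeval_algHom_apply,
      MvPolynomial.aeval_X, coe_aeval_eq_eval]
  obtain ⟨T, hT⟩ := exists_pow_lt_of_lt_one
    (x := ((Λ ^ P.totalDegree) ^ (3 * Module.finrank ℚ K))⁻¹)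
    (by positivity) (show (1 / 2 : ℝ) < 1 by norm_num)
  obtain ⟨C, hC⟩ := hN T
  obtain ⟨q, hq⟩ := (dvd_iff_isRoot (p := μ.map (algebraMap K ℂ)) (a := w)).2
    (by rw [IsRoot, eval_map_algebraMap, minpoly.aeval])
  have nb := frequently_iff_neBot.1 hC
  set 𝓕 := atTop ⊓ 𝓟 {m | ‖algebraMap K ℂ (y m) - w‖ ≤ C * ((1 / 2) ^ f.natDegree ^ m) ^ T}
  have h1 : (fun m => algebraMap K ℂ (y m) - w) =O[𝓕] fun m => ((1 / 2 : ℝ) ^ T) ^ f.natDegree ^ m :=
    IsBigO.of_bound C (by
      filter_upwards [mem_inf_of_right (mem_principal_self _)] with m hm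
      rwa [Real.norm_of_nonneg (by positivity), ← pow_mul, mul_comm T, pow_mul])
  have h2 : (fun m => algebraMap K ℂ (y m)) =O[𝓕] fun _ => (1 : ℝ) :=
    ((h1.trans (IsBigO.of_bound' (.of_forall fun m => by
      rw [Real.norm_of_nonneg (by positivity), norm_one]
      exact pow_le_one₀ (by positivity) (pow_le_one₀ (by norm_num) (by norm_num))))).add
      (isBigO_const_const w one_ne_zero _)).congr_left fun m => sub_add_cancel _ _
  have h3 := h1.mul (poly_bigO q (fun _ => le_rfl) h2)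
  simp only [one_pow, mul_one] at h3
  have := lsMv (algebraMap K ℂ) (𝓕 := 𝓕) inf_le_left h.deg (x := fun _ => y) N0 hΛ (fun _ => g)
    (lam := (1 / 2) ^ T) (by positivity) P le_rfl
    ((mul_lt_mul_of_pos_right hT (by positivity)).trans_eq (inv_mul_cancel₀ (by positivity)))
    (h3.congr_left fun m => by
      rw [ev, ← eval₂_at_apply, ← eval_map, hq, eval_mul, eval_sub, eval_X, eval_C])
  simp only [ev] at this
  refine alg0_of_freq h.step (algebraMap K ℂ) (finite_setOfPred_isRoot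
    (Polynomial.map_ne_zero (minpoly.ne_zero hw) : μ.map (algebraMap K ℂ) ≠ 0))
    ((this.frequently.filter_mono inf_le_left).mono fun m hm => ?_)
  change eval _ _ = 0
  rw [eval_map, eval₂_at_apply, hm, map_zero]

theorem dsd2_top {D c : ℕ} (hD : 2 ≤ D) (hc : 0 < c) (T : ℕ) :
    ∀ᶠ j in atTop, c * (D - 1) ^ j * T ≤ D ^ j := by
  have d0 : (0 : ℝ) < D := by positivity
  have t := (tendsto_pow_atTop_nhds_zero_of_lt_one (r := ((D - 1 : ℕ) : ℝ) / D) (by positivity)
    ((div_lt_one d0).2 (by exact_mod_cast (by omega)))).eventually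
    (gt_mem_nhds (show (0 : ℝ) < 1 / (c * T + 1) by positivity))
  filter_upwards [t] with j hj
  rw [div_pow, div_lt_div_iff₀ (by positivity) (by positivity), one_mul] at hj
  have : (D - 1) ^ j * (c * T + 1) < D ^ j := by exact_mod_cast hj
  nlinarith [Nat.zero_le ((D - 1) ^ j)]

/-- an orbit does not come too close to a fixed algebraic number -/
theorem sl (σ : K →+* ℂ) {f : K[X]} {y : ℕ → K} (h : Orb f y) (hN : NoTot (f.map σ)) {M : K[X]}
    (hM : M ≠ 0) {C lam : ℝ} (l0 : 0 ≤ lam) (l1 : lam < 1)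
    (hf : ∃ᶠ n in atTop, ‖σ (M.eval (y n))‖ ≤ C * lam ^ f.natDegree ^ n) : Alg0 y := by
  let := σ.toAlgebra
  have d2 := h.deg
  set d := f.natDegree with hd
  set g := f.map σ with hg
  have gd : g.natDegree = d := natDegree_map _
  obtain ⟨l, l2, l3, l4⟩ : ∃ l : ℝ, 0 < l ∧ l < 1 ∧ lam ≤ l :=
    ⟨max lam (1 / 2), lt_max_of_lt_right (by norm_num), max_lt l1 (by norm_num), le_max_left _ _⟩
  obtain ⟨s, hs⟩ := exists_pow_lt_of_lt_one (show (0 : ℝ) < 1 / 2 by norm_num) l3
  have s0 : 0 < s := Nat.pos_of_ne_zero (by rintro rfl; norm_num at hs)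
  have m0 : M.map σ ≠ 0 := Polynomial.map_ne_zero hM
  have hk : ∀ k, ∃ w : ℂ, aeval w (M.comp (iter f k)) = 0 ∧ IsIntegral K w ∧ ∃ e, 0 < e ∧
      e ≤ em (iter g k) w * M.natDegree ∧ (minpoly K w).natDegree * e ≤ M.natDegree * d ^ k ∧
      ∀ T, e * s * T ≤ d ^ k → ∃ C : ℝ, ∃ᶠ m in atTop,
        ‖algebraMap K ℂ (y m) - w‖ ≤ C * ((1 / 2) ^ d ^ m) ^ T := fun k => by
    have p0 : 0 < (iter g k).natDegree := by rw [iter_natDegree, gd]; positivity
    have H0 : M.comp (iter f k) ≠ 0 := fun e => by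
      rcases comp_eq_zero_iff.1 e with e | e
      · exact hM e
      · have := congrArg natDegree e.2
        rw [iter_natDegree, natDegree_C] at this
        exact (pow_pos (by omega) _).ne' this
    have He : (M.comp (iter f k)).map σ = (M.map σ).comp (iter g k) := by rw [map_comp, iter_map]
    have H1 : (M.comp (iter f k)).map σ ≠ 0 := Polynomial.map_ne_zero H0
    have hf' : ∃ᶠ m in atTop, ‖σ (M.eval (y (m + k)))‖ ≤ C * lam ^ d ^ (m + k) := by
      rw [← Filter.map_add_atTop_eq_nat k, frequently_map] at hf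
      exact hf
    have nb := frequently_iff_neBot.1 hf'
    obtain ⟨w, C1, hw, hn⟩ := root_near_mult H1 (𝓕 := atTop ⊓ 𝓟 {m | ‖σ (M.eval (y (m + k)))‖ ≤
      C * lam ^ d ^ (m + k)}) inf_le_left d2 (W := fun m => σ (y m)) (lam := l ^ d ^ k)
      (by positivity) (pow_lt_one₀ l2.le l3 (by positivity)) (IsBigO.of_bound |C| (by
        filter_upwards [mem_inf_of_right (mem_principal_self _)] with m hm
        rw [eval_map, eval₂_at_apply, eval_comp, ← step_iter h.step,
          Real.norm_of_nonneg (by positivity), ← pow_mul, ← pow_add, add_comm k]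
        exact le_trans hm (by gcongr; exact le_abs_self _)))
    have ha : aeval w (M.comp (iter f k)) = 0 := by rw [aeval_def, ← eval_map]; exact hw
    have hi : IsIntegral K w := IsAlgebraic.isIntegral ⟨_, H0, ha⟩
    refine ⟨w, ha, hi, _, (rootMultiplicity_pos H1).2 hw, ?_, ?_, fun T hT => ⟨max 1 C1, ?_⟩⟩
    · rw [He, rm_comp p0 m0]
      refine Nat.mul_le_mul_left _ ?_
      have := natDegree_le_of_dvd (pow_rootMultiplicity_dvd (M.map σ) ((iter g k).eval w)) m0
      rwa [natDegree_pow, natDegree_X_sub_C, mul_one, natDegree_map] at this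
    · have := deg_mult H0 hi
      rwa [natDegree_comp, iter_natDegree] at this
    · refine (hn.filter_mono inf_le_left).mono fun m hm => ?_
      have e0 := (rootMultiplicity_pos H1).2 hw
      set e := rootMultiplicity w ((M.comp (iter f k)).map σ)
      refine le_of_pow_le_pow_left₀ e0.ne' (by positivity) (hm.trans ?_)
      rw [mul_pow, ← pow_mul (1 / 2 : ℝ), ← pow_mul (1 / 2 : ℝ), mul_assoc, mul_comm (d ^ m),
        pow_mul (1 / 2 : ℝ)]
      refine mul_le_mul ((le_max_right 1 C1).trans (le_self_pow₀ (le_max_left _ _) e0.ne'))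
        (pow_le_pow_left₀ (by positivity) ?_ _) (by positivity) (by positivity)
      refine (pow_le_pow_of_le_one l2.le l3.le hT).trans ?_
      rw [show e * s * T = s * (T * e) by ring, pow_mul]
      exact pow_le_pow_left₀ (by positivity) hs.le _
  choose w w1 w2 e e0 e1 e2 e3 using hk
  have M0 : 0 < M.natDegree := by
    have := e0 0; have := e1 0
    exact Nat.pos_of_ne_zero fun h0 => by rw [h0] at this; omega
  have big : ∀ T, ∀ᶠ j in atTop, e (2 * j) * s * T ≤ d ^ (2 * j) := fun T => by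
    filter_upwards [dsd2_top (D := d ^ 2) (by nlinarith) (mul_pos M0 s0) T] with j hj
    have := (e1 (2 * j)).trans (Nat.mul_le_mul_right _ (em_even (gd ▸ d2) hN j _))
    rw [gd] at this
    rw [pow_mul]
    refine le_trans ?_ hj
    calc _ ≤ (d ^ 2 - 1) ^ j * M.natDegree * s * T := by gcongr
      _ = _ := by ring
  obtain ⟨D0, T0, ts⟩ := ts2 h (2 * M.natDegree * s)
  have fin := north2 h.monic h.deg hM D0
  have : ∃ᶠ j in atTop, ∃ v ∈ {w : ℂ | (∃ k, aeval w (M.comp (iter f k)) = 0) ∧ IsIntegral K w ∧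
      (minpoly K w).natDegree ≤ D0}, w (2 * j) = v := by
    refine ((big (T0 + 1)).mono fun j hj => ⟨_, ⟨⟨_, w1 _⟩, w2 _, ?_⟩, rfl⟩).frequently
    have es : 0 < e (2 * j) * s := mul_pos (e0 _) s0
    have hT : T0 + 1 ≤ d ^ (2 * j) / (e (2 * j) * s) :=
      (Nat.le_div_iff_mul_le es).2 (by rwa [mul_comm])
    refine ts (d ^ (2 * j) / (e (2 * j) * s)) (by omega) _ (w2 _) ?_ (e3 _ _ (Nat.mul_div_le _ _))
    have h1 := Nat.lt_mul_div_succ (d ^ (2 * j)) es
    set t := d ^ (2 * j) / (e (2 * j) * s)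
    refine Nat.le_of_mul_le_mul_right ((e2 _).trans ?_) (e0 (2 * j))
    calc _ ≤ M.natDegree * (e (2 * j) * s * (2 * t)) :=
          Nat.mul_le_mul_left _ (h1.le.trans (Nat.mul_le_mul_left _ (by omega)))
      _ = _ := by ring
  obtain ⟨v, hv, hfr⟩ := (frequently_exists_finite fin).1 this
  refine dsd2_fin h hv.2.1 fun T => ?_
  obtain ⟨j, rfl, hj⟩ := (hfr.and_eventually (big T)).exists
  exact e3 _ T hj

end Pool.Agent.P.MP_68214b_ag.DS
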