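import Pool.Agent.P.MP_68214b_ag.DSD7

open Polynomial Filter Asymptotics NumberField Topology

namespace Pool.Agent.P.MP_68214b_ag.DS

theorem exists_log {I : Type*} [Fintype I] (u : I → ℂ) (hu : ∀ i, u i ≠ 0) :
    ∃ (ω ζ : I → ℂ) (t : ℕ), 0 < t ∧ (∀ i, u i = ζ i * Complex.exp (ω i) ∧ ζ i ^ t = 1) ∧
      ∀ w ∈ Submodule.span ℚ (Set.range ω), ∀ n : ℤ, w.im = n * Real.pi → w.im = 0 := by
  obtain ⟨l0, hl0⟩ := Module.Projective.exists_dual_eq_one ℚ Real.two_pi_pos.ne'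
  set lam : ℂ →ₗ[ℚ] ℚ := l0.comp (Complex.imLm.restrictScalars ℚ) with hlam
  have hl : lam (2 * Real.pi * Complex.I) = 1 := by simpa [hlam] using hl0
  refine ⟨fun i => (u i).log - lam (u i).log • (2 * Real.pi * Complex.I),
    fun i => Complex.exp (lam (u i).log • (2 * Real.pi * Complex.I)), ∏ i, (lam (u i).log).den,
    Finset.prod_pos fun i _ => Rat.den_pos _, fun i => ⟨?_, ?_⟩, fun w hw n h => ?_⟩
  · rw [← Complex.exp_add, add_sub_cancel, Complex.exp_log (hu i)]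
  · obtain ⟨k, hk⟩ := Finset.dvd_prod_of_mem (fun i => (lam (u i).log).den) (Finset.mem_univ i)
    rw [hk, pow_mul, ← Complex.exp_nat_mul, Rat.smul_def, ← mul_assoc,
      show (((lam (u i).log).den : ℂ) * (lam (u i).log : ℚ)) = ((lam (u i).log).num : ℂ) by
        exact_mod_cast Rat.den_mul_eq_num _, Complex.exp_int_mul_two_pi_mul_I, one_pow]
  · have h0 : lam w = 0 := by
      refine (Submodule.span_le (p := LinearMap.ker lam)).2 ?_ hw
      rintro _ ⟨i, rfl⟩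
      simp only [SetLike.mem_coe, LinearMap.mem_ker, map_sub, map_smul, hl, smul_eq_mul, mul_one,
        sub_self]
    have h1 : w.im = ((n : ℚ) / 2) • (2 * Real.pi) := by rw [h, Rat.smul_def]; push_cast; ring
    have h2 : lam w = n / 2 := by
      change l0 w.im = _
      rw [h1, map_smul, hl0, smul_eq_mul, mul_one]
    rw [h1, ← h2, h0, zero_smul]

theorem log_inj {Γ : Submodule ℚ ℂ} (hi : ∀ w ∈ Γ, ∀ n : ℤ, w.im = n * Real.pi → w.im = 0) :
    ∀ w ∈ Γ, Complex.exp w = 1 → w = 0 := fun w hw h => by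
  obtain ⟨n, hn⟩ := Complex.exp_eq_one_iff.1 h
  exact Complex.ext (by simp [hn]) (hi w hw (2 * n) (by simp [hn]; ring))

theorem log_pow {u ω ζ : ℂ} {t : ℕ} (h : u = ζ * Complex.exp ω ∧ ζ ^ t = 1) (k : ℕ) :
    u ^ (k * t) = Complex.exp (t * (k * ω)) := by
  rw [h.1, mul_pow, mul_comm k, pow_mul ζ, h.2, one_pow, one_mul, ← Complex.exp_nat_mul,
    Nat.cast_mul, mul_assoc]

theorem log_real {Γ : Submodule ℚ ℂ} (hi : ∀ w ∈ Γ, ∀ n : ℤ, w.im = n * Real.pi → w.im = 0)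
    {u ω ζ : ℂ} {t : ℕ} (ht : 0 < t) (h : u = ζ * Complex.exp ω ∧ ζ ^ t = 1) (hω : ω ∈ Γ) {e : ℕ}
    (he : 0 < e) (hu : u ^ e = (starRingEnd ℂ) u ^ e) : ω.im = 0 := by
  have h1 : Complex.exp (t * (e * ω)) = (starRingEnd ℂ) (Complex.exp (t * (e * ω))) := by
    rw [← log_pow h, map_pow, pow_mul, pow_mul, hu]
  rw [← Complex.exp_conj, Complex.exp_eq_exp_iff_exists_int] at h1
  obtain ⟨n, hn⟩ := h1
  have h2 := congrArg Complex.im hn
  have h3 := hi (((t * e : ℕ) : ℚ) • ω) (Γ.smul_mem _ hω) n (by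
    simp [Rat.smul_def] at h2 ⊢; linarith)
  simpa [Rat.smul_def, ht.ne', he.ne'] using h3

theorem rel_conj_pow {u : ℂ} (hu : 1 < ‖u‖) (h : Rel u ((starRingEnd ℂ) u)) :
    ∃ e : ℕ, 0 < e ∧ u ^ e = (starRingEnd ℂ) u ^ e := by
  obtain ⟨a, b, ha, -, h⟩ := h
  have := congrArg norm h
  rw [norm_pow, norm_pow, RCLike.norm_conj] at this
  obtain rfl : a = b := pow_right_injective₀ (by linarith) hu.ne' this
  exact ⟨a, ha, h⟩

theorem tie1 {I : Type*} {ω : I → ℂ} (δ : ℂ) (hδ : δ.re = 0)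
    (h : ∀ i, ∃ q : ℚ, (ω i).im = q * δ.im) :
    ∀ w ∈ Submodule.span ℚ (Set.range ω), w.re = 0 → ∃ q : ℚ, w = q • δ := fun w hw h0 => by
  obtain ⟨q, hq⟩ : ∃ q : ℚ, w.im = q * δ.im := by
    clear h0
    induction hw using Submodule.span_induction with
    | mem w hw => obtain ⟨i, rfl⟩ := hw; exact h i
    | zero => exact ⟨0, by simp⟩
    | add v w _ _ a b =>
      obtain ⟨q, hq⟩ := a
      obtain ⟨r, hr⟩ := b
      exact ⟨q + r, by simp [hq, hr, add_mul]⟩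
    | smul q w _ a =>
      obtain ⟨r, hr⟩ := a
      exact ⟨q * r, by simp [Rat.smul_def, hr, mul_assoc]⟩
  exact ⟨q, Complex.ext (by simp [Rat.smul_def, h0, hδ]) (by simp [Rat.smul_def, hq])⟩

/-- logarithms of algebraic numbers -/
noncomputable def algLog : Submodule ℚ ℂ where
  carrier := {w | IsAlgebraic ℚ (Complex.exp w)}
  add_mem' := fun {a b} ha hb => by rw [Set.mem_ofPred, Complex.exp_add]; exact ha.mul hb
  zero_mem' := by simpa using isAlgebraic_one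
  smul_mem' := fun q w hw => IsAlgebraic.of_pow q.den_pos (by
    rw [← Complex.exp_nat_mul, Rat.smul_def, ← mul_assoc,
      show ((q.den : ℂ) * q) = q.num by exact_mod_cast Rat.den_mul_eq_num _, Complex.exp_int_mul]
    obtain ⟨k, e | e⟩ := q.num.eq_nat_or_neg <;> rw [e]
    · simpa using IsAlgebraic.pow hw k
    · simpa using (IsAlgebraic.pow hw k).inv)

theorem mem_algLog {w : ℂ} : w ∈ algLog ↔ IsAlgebraic ℚ (Complex.exp w) := Iff.rfl

theorem re_algLog {w : ℂ} (h : w ∈ algLog) : (w.re : ℂ) ∈ algLog := by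
  have h2 : (starRingEnd ℂ) w ∈ algLog := by
    rw [mem_algLog, Complex.exp_conj]
    exact (mem_algLog.1 h).algHom (starRingEnd ℂ).toRatAlgHom
  have := algLog.smul_mem (1 / 2 : ℚ) (add_mem h h2)
  rwa [Complex.add_conj, Rat.smul_def, show (((1 / 2 : ℚ) : ℂ) * (2 * w.re : ℝ)) = w.re by
    push_cast; ring] at this

variable {K : Type} [Field K] [NumberField K]

theorem dsd3_gen (hK : Cj K) {I : Type} [Fintype I] [Nonempty I] {σ : K →+* ℂ} {d : ℕ}
    {f : I → K[X]} {x : I → ℕ → K} {p : I → PowerSeries K} {u : I → ℂ} (hO : ∀ i, Orb (f i) (x i))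
    (hN : ∀ i, NSa (f i)) (hd : ∀ i, (f i).natDegree = d)
    (hE : ∀ i, Esc σ d (x i) (p i) (u i)) (hR : ∀ i j, Rel (u i) (u j) → i = j) (m : I → ℤ)
    (hm : ∀ i, m i ≠ 0) (h : IsAlgebraic ℚ ((∏ i, ‖u i‖ ^ m i : ℝ) : ℂ)) : ∃ i j, i ≠ j ∧
      Rel (u i) ((starRingEnd ℂ) (u j)) ∧ ¬ Rel (u j) ((starRingEnd ℂ) (u j)) := by
  classical
  obtain ⟨c, hc⟩ := hK σ
  set S : I → Prop := fun i => Rel (u i) ((starRingEnd ℂ) (u i)) with hS
  have he : ∀ i, ∃ e : ℕ, 0 < e ∧ (S i → u i ^ (2 * e) = (u i * (starRingEnd ℂ) (u i)) ^ e) :=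
    fun i => by
      by_cases h : S i
      · obtain ⟨e, a, b⟩ := self_pow (hE i).one_lt h
        exact ⟨e, a, fun _ => b⟩
      · exact ⟨1, one_pos, fun h' => absurd h' h⟩
  choose e e0 e1 using he
  have E0 : 0 < ∏ i, e i := Finset.prod_pos fun i _ => e0 i
  have E1 : ∀ i, S i → u i ^ (2 * ∏ i, e i) = (u i * (starRingEnd ℂ) (u i)) ^ ∏ i, e i :=
    fun i h => by
      obtain ⟨k, hk⟩ := Finset.dvd_prod_of_mem e (Finset.mem_univ i)
      rw [hk, ← mul_assoc, pow_mul, e1 i h, pow_mul]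
  generalize ∏ i, e i = E at E0 E1
  obtain ⟨a, a', hne, hr⟩ := stA (J := I ⊕ {i // ¬ S i}) (σ := σ) (d := d)
    (f := Sum.elim f fun i => (f i).map c) (x := Sum.elim x fun i n => c (x i n))
    (p := Sum.elim p fun i => PowerSeries.map c (p i))
    (u := Sum.elim u fun i => (starRingEnd ℂ) (u i))
    (by rintro (i | i); exacts [hO i, (hO i).conj c])
    (by rintro (i | i); exacts [hN i, (hN i).map c])
    (by rintro (i | i); exacts [hd i, (natDegree_map c).trans (hd i)])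
    (by rintro (i | i); exacts [hE i, (hE i).conj hc])
    (Sum.elim (fun i => if S i then (2 * E : ℕ) * m i else E * m i) fun i => E * m i)
    (fun h0 => by
      have := congrFun h0 (Sum.inl (Classical.arbitrary I))
      simp only [Sum.elim_inl, Pi.zero_apply] at this
      split_ifs at this <;> simp [hm, E0.ne'] at this)
    (by
      rw [Fintype.prod_sum_type]
      simp only [Sum.elim_inl, Sum.elim_inr]
      rw [← Finset.prod_subtype (Finset.univ.filter fun i => ¬ S i) (by simp)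
        fun i => (starRingEnd ℂ) (u i) ^ ((E : ℤ) * m i), Finset.prod_filter,
        ← Finset.prod_mul_distrib]
      have h1 := h.pow (2 * E)
      rw [Complex.ofReal_prod, ← Finset.prod_pow] at h1
      refine (congrArg (IsAlgebraic ℚ) (Finset.prod_congr rfl fun i _ => ?_)).mpr h1
      have h2 : (((‖u i‖ ^ m i : ℝ) : ℂ)) ^ (2 * E) =
          ((u i * (starRingEnd ℂ) (u i)) ^ E) ^ m i := by
        rw [Complex.mul_conj', ← pow_mul, Complex.ofReal_zpow, ← zpow_natCast, ← zpow_natCast,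
          ← zpow_mul, ← zpow_mul, mul_comm]
      rw [h2]
      by_cases hs : S i
      · rw [if_pos hs, if_neg (not_not.2 hs), mul_one, zpow_mul, zpow_natCast, E1 i hs]
      · rw [if_neg hs, if_pos hs, ← mul_zpow, zpow_mul, zpow_natCast])
  rcases a with i | i <;> rcases a' with j | j
  · exact absurd (congrArg Sum.inl (hR i j hr)) hne
  · exact ⟨i, j, fun e => j.2 (by subst e; exact hr), hr, j.2⟩
  · exact ⟨j, i, fun e => i.2 (by subst e; exact hr.symm), hr.symm, i.2⟩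
  · exact absurd (congrArg Sum.inr (Subtype.ext (hR i j (by simpa using hr.conj)))) hne

theorem gen0 (hK : Cj K) {I : Type} [Fintype I] {σ : K →+* ℂ} {d : ℕ}
    {f : I → K[X]} {x : I → ℕ → K} {p : I → PowerSeries K} {u : I → ℂ} (hO : ∀ i, Orb (f i) (x i))
    (hN : ∀ i, NSa (f i)) (hd : ∀ i, (f i).natDegree = d)
    (hE : ∀ i, Esc σ d (x i) (p i) (u i)) (m : I → ℚ)
    (hR : ∀ i j, m i ≠ 0 → m j ≠ 0 → Rel (u i) (u j) → i = j) (hm : m ≠ 0)
    (h : ((∑ i, (m i : ℝ) * Real.log ‖u i‖ : ℝ) : ℂ) ∈ algLog) : ∃ i j, i ≠ j ∧ m i ≠ 0 ∧ m j ≠ 0 ∧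
      Rel (u i) ((starRingEnd ℂ) (u j)) ∧ ¬ Rel (u i) ((starRingEnd ℂ) (u i)) ∧
      ¬ Rel (u j) ((starRingEnd ℂ) (u j)) := by
  classical
  obtain ⟨i0, h0⟩ := Function.ne_iff.1 hm
  have : Nonempty {i // m i ≠ 0} := ⟨⟨i0, h0⟩⟩
  obtain ⟨N, hN'⟩ := IsLocalization.exist_integer_multiples_of_finite (nonZeroDivisors ℤ) m
  choose k hk using hN'
  have N0 : (N : ℤ) ≠ 0 := nonZeroDivisors.coe_ne_zero N
  have hk' : ∀ i, (k i : ℚ) = (N : ℤ) * m i := fun i => by simpa using hk i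
  have u0 : ∀ i, 0 < ‖u i‖ := fun i => one_pos.trans (hE i).one_lt
  obtain ⟨i, j, hij, h1, h2⟩ := dsd3_gen hK (I := {i // m i ≠ 0}) (f := fun i => f i)
    (x := fun i => x i) (p := fun i => p i) (u := fun i => u i) (fun i => hO i)
    (fun i => hN i) (fun i => hd i) (fun i => hE i)
    (fun i j h => Subtype.ext (hR i j i.2 j.2 h)) (fun i => k i)
    (fun i e => mul_ne_zero (Int.cast_ne_zero.2 N0) i.2 (by rw [← hk', e, Int.cast_zero])) (by
      rw [← Finset.prod_subtype (Finset.univ.filter fun i => m i ≠ 0) (by simp)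
        fun i => ‖u i‖ ^ k i, Finset.prod_filter_of_ne (p := fun i => m i ≠ 0) fun i _ hi e => hi (by
          have := hk' i
          rw [e, mul_zero, Int.cast_eq_zero] at this
          rw [this, zpow_zero])]
      have h2 := mem_algLog.1 (algLog.smul_mem ((N : ℤ) : ℚ) h)
      rw [← Real.exp_log (Finset.prod_pos fun i _ => zpow_pos (u0 i) _), Complex.ofReal_exp,
        Real.log_prod fun i _ => (zpow_pos (u0 i) _).ne']
      rw [Rat.smul_def, ← Complex.ofReal_ratCast, ← Complex.ofReal_mul, Finset.mul_sum] at h2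
      refine (congrArg (fun r : ℝ => IsAlgebraic ℚ (Complex.exp r))
        (Finset.sum_congr rfl fun i _ => ?_)).mp h2
      rw [Real.log_zpow, ← mul_assoc]
      congr 1
      exact_mod_cast (hk' i).symm)
  refine ⟨i, j, Subtype.coe_ne_coe.2 hij, i.2, j.2, h1, fun h3 => hij (Subtype.ext
    (hR i j i.2 j.2 ?_)), h2⟩
  simpa using (h3.symm.trans h1).conj

theorem log_rel {I : Type*} {u ω ζ : I → ℂ} {t : ℕ} (ht : 0 < t)
    (hω : ∀ i, u i = ζ i * Complex.exp (ω i) ∧ ζ i ^ t = 1)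
    (hi : ∀ w ∈ Submodule.span ℚ (Set.range ω), Complex.exp w = 1 → w = 0) {i j : I}
    (h : Rel (u i) (u j)) : ∃ q : ℚ, ω i = q • ω j := by
  obtain ⟨a, b, ha, -, h⟩ := h
  have e : ∀ i k, (u i ^ k) ^ t = Complex.exp (((k * t : ℕ) : ℚ) • ω i) := fun i k => by
    rw [← pow_mul, (hω i).1, mul_pow, mul_comm k, pow_mul (ζ i), (hω i).2, one_pow, one_mul,
      ← Complex.exp_nat_mul, Rat.smul_def, Rat.cast_natCast]
  have := hi (((a * t : ℕ) : ℚ) • ω i - ((b * t : ℕ) : ℚ) • ω j)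
    (sub_mem (Submodule.smul_mem _ _ (Submodule.subset_span ⟨i, rfl⟩))
      (Submodule.smul_mem _ _ (Submodule.subset_span ⟨j, rfl⟩)))
    (by rw [Complex.exp_sub, ← e, ← e, h, e, div_self (Complex.exp_ne_zero _)])
  have h0 : ((a * t : ℕ) : ℚ) ≠ 0 := Nat.cast_ne_zero.2 (mul_pos ha ht).ne'
  refine ⟨((a * t : ℕ) : ℚ)⁻¹ * (b * t : ℕ), ?_⟩
  rw [mul_smul, ← sub_eq_zero.1 this, inv_smul_smul₀ h0]

theorem log_re {u ω ζ : ℂ} {t : ℕ} (ht : 0 < t) (h : u = ζ * Complex.exp ω ∧ ζ ^ t = 1) :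
    ω.re = Real.log ‖u‖ := by
  rw [h.1, norm_mul, Complex.norm_eq_one_of_pow_eq_one h.2 ht.ne', one_mul, Complex.norm_exp,
    Real.log_exp]

theorem tie (hK : Cj K) {I : Type} [Fintype I] {σ : K →+* ℂ} {d : ℕ}
    {f : I → K[X]} {x : I → ℕ → K} {p : I → PowerSeries K} {u : I → ℂ} (hO : ∀ i, Orb (f i) (x i))
    (hN : ∀ i, NSa (f i)) (hd : ∀ i, (f i).natDegree = d)
    (hE : ∀ i, Esc σ d (x i) (p i) (u i)) {ω ζ : I → ℂ} {t : ℕ} (ht : 0 < t)
    (hω : ∀ i, u i = ζ i * Complex.exp (ω i) ∧ ζ i ^ t = 1)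
    (hi : ∀ w ∈ Submodule.span ℚ (Set.range ω), Complex.exp w = 1 → w = 0) (Bad : Finset I)
    (hB : Bad.card ≤ 3) (hg : ∀ i j, Rel (u i) ((starRingEnd ℂ) (u j)) →
      ¬ Rel (u i) ((starRingEnd ℂ) (u i)) → j ∈ Bad) :
    (∀ w ∈ Submodule.span ℚ (Set.range ω), (w.re : ℂ) ∈ algLog → w = 0) ∨ (2 ≤ Bad.card ∧
      ∃ (i j : I) (a b : ℕ), 0 < a ∧ 0 < b ∧ ¬ Rel (u i) (u j) ∧ (a * ω i - b * ω j).re = 0 ∧
        ∀ w ∈ Submodule.span ℚ (Set.range ω), (w.re : ℂ) ∈ algLog →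
          ∃ q : ℚ, w = q • (a * ω i - b * ω j)) := by
  classical
  let S : Setoid I := ⟨fun i j => Rel (u i) (u j), fun _ => Rel.refl _, Rel.symm, Rel.trans⟩
  let rep : I → I := fun i => (Quotient.mk S i).out
  have r1 : ∀ i, Rel (u (rep i)) (u i) := fun i => Quotient.mk_out (s := S) i
  have r2 : ∀ i j, Rel (u i) (u j) → rep i = rep j := fun i j h =>
    congrArg Quotient.out (Quotient.sound (s := S) h)
  have r3 : ∀ i j, rep i = i → rep j = j → Rel (u i) (u j) → i = j := fun i j a b h => by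
    rw [← a, ← b]; exact r2 i j h
  have form : ∀ w ∈ Submodule.span ℚ (Set.range ω), ∃ m : I → ℚ,
      (∀ i, m i ≠ 0 → rep i = i) ∧ w = ∑ i, m i • ω i := fun w hw => by
    induction hw using Submodule.span_induction with
    | mem w hw =>
      obtain ⟨i, rfl⟩ := hw
      obtain ⟨q, hq⟩ := log_rel ht hω hi (r1 i).symm
      refine ⟨Pi.single (rep i) q, fun j hj => ?_, by simp [Pi.single_apply, hq.symm]⟩
      obtain rfl : j = rep i := by_contra fun h => hj (Pi.single_eq_of_ne h _)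
      exact r2 _ _ (r1 i)
    | zero => exact ⟨0, by simp, by simp⟩
    | add v w _ _ a b =>
      obtain ⟨m, h1, rfl⟩ := a
      obtain ⟨m', h2, rfl⟩ := b
      refine ⟨m + m', fun i h => by_contra fun hn => h ?_, by
        simp [add_smul, Finset.sum_add_distrib]⟩
      rw [Pi.add_apply, not_not.1 (mt (h1 i) hn), not_not.1 (mt (h2 i) hn), add_zero]
    | smul q w _ a =>
      obtain ⟨m, h1, rfl⟩ := a
      exact ⟨q • m, fun i h => h1 i (right_ne_zero_of_mul h), by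
        simp [Finset.smul_sum, mul_smul]⟩
  have gen : ∀ m : I → ℚ, (∀ i, m i ≠ 0 → rep i = i) → m ≠ 0 →
      ((∑ i, m i • ω i).re : ℂ) ∈ algLog →
      ∃ i j, i ≠ j ∧ m i ≠ 0 ∧ m j ≠ 0 ∧ Rel (u i) ((starRingEnd ℂ) (u j)) ∧ i ∈ Bad ∧ j ∈ Bad :=
    fun m h1 h2 h3 => by
      obtain ⟨i, j, a, b, c, e, k, l⟩ := gen0 hK hO hN hd hE m
        (fun i j a b => r3 i j (h1 i a) (h1 j b)) h2 (by
          rw [Complex.re_sum] at h3
          refine (congrArg (fun r : ℝ => (r : ℂ) ∈ algLog) (Finset.sum_congr rfl fun i _ => ?_)).mp h3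
          rw [← log_re ht (hω i), Rat.smul_def, ← Complex.ofReal_ratCast, Complex.re_ofReal_mul])
      exact ⟨i, j, a, b, c, e, hg j i (by simpa using e.conj.symm) l, hg i j e k⟩
  by_cases hp : ∃ i j, i ≠ j ∧ rep i = i ∧ rep j = j ∧ Rel (u i) ((starRingEnd ℂ) (u j)) ∧
      i ∈ Bad ∧ j ∈ Bad
  swap
  · refine Or.inl fun w hw h0 => ?_
    obtain ⟨m, h1, rfl⟩ := form w hw
    by_cases hm : m = 0
    · simp [hm]
    obtain ⟨i, j, a, b, c, e⟩ := gen m h1 hm h0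
    exact absurd ⟨i, j, a, h1 i b, h1 j c, e⟩ hp
  obtain ⟨i, j, ij, ri, rj, hr, bi, bj⟩ := hp
  obtain ⟨a, b, ha, hb, hab⟩ := id hr
  have re0 : (a * ω i - b * ω j).re = 0 := by
    have := congrArg (fun z => Real.log ‖z‖) hab
    simp only [norm_pow, RCLike.norm_conj, Real.log_pow] at this
    simp [log_re ht (hω i), log_re ht (hω j), this]
  refine Or.inr ⟨Finset.one_lt_card.2 ⟨i, bi, j, bj, ij⟩, i, j, a, b, ha, hb,
    fun h => ij (r3 i j ri rj h), re0, fun w hw h0 => ?_⟩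
  obtain ⟨m, h1, rfl⟩ := form w hw
  have b0 : (b : ℚ) ≠ 0 := Nat.cast_ne_zero.2 hb.ne'
  set m' : I → ℚ := m + (m j / b) • (Pi.single i (a : ℚ) - Pi.single j (b : ℚ)) with hm'
  have e1 : ∑ k, m' k • ω k = ∑ k, m k • ω k + (m j / b) • (a * ω i - b * ω j) := by
    simp [hm', add_smul, Finset.sum_add_distrib, mul_smul, ← Finset.smul_sum, sub_smul,
      Pi.single_apply, Nat.cast_smul_eq_nsmul]
  have e2 : m' j = 0 := by simp [hm', ij.symm, b0]
  have e3 : ∀ k, m' k ≠ 0 → rep k = k := fun k hk => by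
    by_cases ki : k = i
    · rwa [ki]
    by_cases kj : k = j
    · rwa [kj]
    exact h1 k (by simpa [hm', ki, kj] using hk)
  by_cases hm : m' = 0
  · refine ⟨-(m j / b), ?_⟩
    rw [neg_smul, eq_neg_iff_add_eq_zero, ← e1, hm]
    simp
  exfalso
  obtain ⟨k, l, kl, k0, l0, hkl, bk, bl⟩ := gen m' e3 hm (by
    rwa [e1, Complex.add_re, Rat.smul_def (m j / b), ← Complex.ofReal_ratCast, Complex.re_ofReal_mul,
      re0, mul_zero, add_zero])
  have kj : k ≠ j := fun e => k0 (e ▸ e2)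
  have lj : l ≠ j := fun e => l0 (e ▸ e2)
  by_cases ki : k = i
  · have h5 : Rel (u i) ((starRingEnd ℂ) (u l)) := ki ▸ hkl
    exact lj (r3 l j (e3 l l0) rj (by simpa using (h5.symm.trans hr).conj))
  by_cases li : l = i
  · exact kj (r3 k j (e3 k k0) rj ((li ▸ hkl).trans (by simpa using hr.conj)))
  have : ({k, l, i, j} : Finset I).card ≤ 3 := (Finset.card_le_card (by
    simp [Finset.insert_subset_iff, bk, bl, bi, bj])).trans hB
  rw [Finset.card_insert_of_notMem (by simp [kl, ki, kj]),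
    Finset.card_insert_of_notMem (by simp [li, lj]), Finset.card_pair ij] at this
  omega

end Pool.Agent.P.MP_68214b_ag.DS
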