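import Pool.Agent.P.MP_68214b_ag.DSX3

open Polynomial Filter Asymptotics NumberField Topology

namespace Pool.Agent.P.MP_68214b_ag.DS

/-- evaluation of a formal exponential sum -/
noncomputable def evn {A : Type*} [CommRing A] (Γ : Submodule ℚ ℂ) (e : A →+* ℂ) (k : ℕ) :
    AddMonoidAlgebra A Γ →+* ℂ :=
  AddMonoidAlgebra.liftNCRingHom e
    { toFun := fun w => Complex.exp ((Multiplicative.toAdd w : Γ) * k)
      map_one' := by simp
      map_mul' := fun a b => by simp [add_mul, Complex.exp_add] } fun _ _ => Commute.all _ _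

theorem evn_single {A : Type*} [CommRing A] {Γ : Submodule ℚ ℂ} (e : A →+* ℂ) (k : ℕ) (w : Γ)
    (a : A) : evn Γ e k (AddMonoidAlgebra.single w a) = e a * Complex.exp (w * k) :=
  AddMonoidAlgebra.liftNCRingHom_single _ _ _ _ _

theorem evn_eq {A : Type*} [CommRing A] {Γ : Submodule ℚ ℂ} (e : A →+* ℂ) (k : ℕ)
    (G : AddMonoidAlgebra A Γ) :
    evn Γ e k G = ∑ w ∈ G.coeff.support, e (G.coeff w) * Complex.exp (w * k) := by
  conv_lhs => rw [← AddMonoidAlgebra.sum_coeff_single G, Finsupp.sum, map_sum]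
  simp only [evn_single]

theorem exp_bigO {𝓕 : Filter ℕ} {a : ℕ → ℂ} (ha : a =O[𝓕] fun _ => (1 : ℝ)) {w : ℂ} {ρ : ℝ}
    (h : Real.exp w.re ≤ ρ) (k : ℕ → ℕ) :
    (fun n => a n * Complex.exp (w * k n)) =O[𝓕] fun n => ρ ^ k n := by
  have ρ0 := (Real.exp_pos _).le.trans h
  have : (fun n => Complex.exp (w * k n)) =O[𝓕] fun n => ρ ^ k n :=
    IsBigO.of_bound' (.of_forall fun n => by
      rw [mul_comm, Complex.exp_nat_mul, norm_pow, Complex.norm_exp,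
        Real.norm_of_nonneg (by positivity)]
      exact pow_le_pow_left₀ (Real.exp_pos _).le h _)
  simpa using ha.mul this

theorem pp_mono {𝓕 : Filter ℕ} {a b : ℝ} (h0 : 0 ≤ a) (h : a ≤ b) (k : ℕ → ℕ) :
    (fun n => a ^ k n) =O[𝓕] fun n => b ^ k n :=
  IsBigO.of_bound' (.of_forall fun n => by
    rw [Real.norm_of_nonneg (by positivity), Real.norm_of_nonneg (pow_nonneg (h0.trans h) _)]
    exact pow_le_pow_left₀ h0 h _)

theorem expand_top {A : Type*} [CommRing A] {Γ : Submodule ℚ ℂ} (G : AddMonoidAlgebra A Γ)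
    {𝓕 : Filter ℕ} {e : ℕ → A →+* ℂ} (he : ∀ a, (fun n => e n a) =O[𝓕] fun _ => (1 : ℝ))
    (k : ℕ → ℕ) {lam : ℝ} (hl : 0 < lam) :
    ((fun n => evn Γ (e n) (k n) G) =O[𝓕] fun n => lam ^ k n) ∨
      ∃ (T : Finset Γ) (w0 : Γ) (θ : ℝ), w0 ∈ T ∧ 0 ≤ θ ∧ θ < 1 ∧
        (∀ w ∈ T, G.coeff w ≠ 0 ∧ ((w : ℂ) - w0).re = 0) ∧
        ∀ 𝓖 ≤ 𝓕, ((fun n => evn Γ (e n) (k n) G) =O[𝓖] fun n => lam ^ k n) →
          (fun n => ∑ w ∈ T, e n (G.coeff w) * Complex.exp ((w - w0) * k n)) =O[𝓖]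
            fun n => θ ^ k n := by
  classical
  by_cases h : ∀ w ∈ G.coeff.support, Real.exp (w : ℂ).re ≤ lam
  · left
    simp only [evn_eq]
    exact IsBigO.fun_sum fun w hw => exp_bigO (he _) (h w hw) k
  right
  push Not at h
  obtain ⟨w1, h1, h2⟩ := h
  obtain ⟨w0, m0, hm⟩ := G.coeff.support.exists_max_image (fun w => (w : ℂ).re) ⟨w1, h1⟩
  set ρ := Real.exp (w0 : ℂ).re with hρ
  have ρl : lam < ρ := h2.trans_le (Real.exp_le_exp.2 (hm w1 h1))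
  have ρ0 : 0 < ρ := hl.trans ρl
  obtain ⟨r, r0, r1, r2⟩ : ∃ r, lam ≤ r ∧ r < ρ ∧ ∀ w ∈ G.coeff.support.filter
      fun w : Γ => ¬ (w : ℂ).re = (w0 : ℂ).re, Real.exp (w : ℂ).re ≤ r := by
    rcases (G.coeff.support.filter fun w : Γ => ¬ (w : ℂ).re = (w0 : ℂ).re).eq_empty_or_nonempty
      with h0 | h0
    · exact ⟨lam, le_rfl, ρl, by simp [h0]⟩
    obtain ⟨v, hv, hm'⟩ := Finset.exists_max_image _ (fun w : Γ => (w : ℂ).re) h0
    rw [Finset.mem_filter] at hv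
    exact ⟨max lam (Real.exp (v : ℂ).re), le_max_left _ _, max_lt ρl (Real.exp_lt_exp.2
      ((hm v hv.1).lt_of_ne hv.2)), fun w hw => le_max_of_le_right (Real.exp_le_exp.2 (hm' w hw))⟩
  refine ⟨G.coeff.support.filter fun w : Γ => (w : ℂ).re = (w0 : ℂ).re, w0, r / ρ,
    Finset.mem_filter.2 ⟨m0, rfl⟩, div_nonneg (hl.le.trans r0) ρ0.le, (div_lt_one ρ0).2 r1,
    fun w hw => ?_, fun 𝓖 hG h3 => ?_⟩
  · rw [Finset.mem_filter, Finsupp.mem_support_iff] at hw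
    exact ⟨hw.1, by rw [Complex.sub_re, hw.2, sub_self]⟩
  have h4 := (h3.trans (pp_mono hl.le r0 k)).sub (IsBigO.fun_sum fun w hw =>
    (exp_bigO (he (G.coeff w)) (r2 w hw) k).mono hG)
  have h5 := exp_bigO (𝓕 := 𝓖) (a := fun _ => 1) (isBigO_const_const _ one_ne_zero _)
    (w := -(w0 : ℂ)) (ρ := ρ⁻¹) (by rw [Complex.neg_re, Real.exp_neg]) k
  refine (h4.mul h5).congr (fun n => ?_) fun n => by rw [← mul_pow, div_eq_mul_inv]
  rw [evn_eq, ← Finset.sum_filter_add_sum_filter_not _ fun w : Γ => (w : ℂ).re = (w0 : ℂ).re,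
    add_sub_cancel_right, Finset.sum_mul]
  refine Finset.sum_congr rfl fun w _ => ?_
  rw [one_mul, mul_assoc, ← Complex.exp_add]
  congr 2
  ring

variable {K : Type} [Field K] [NumberField K]

theorem coreA {J : Type} [Fintype J] (σ : K →+* ℂ) {d : ℕ} (hd2 : 2 ≤ d) {f : J → K[X]}
    {x : J → ℕ → K} (hO : ∀ i, Orb (f i) (x i)) (hd : ∀ i, (f i).natDegree = d) {A : Type*}
    [CommRing A] (κ : K →+* A) {e : ℕ → A →+* ℂ} (hκ : ∀ n c, e n (κ c) = σ c) {𝓕 : Filter ℕ}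
    (hF : 𝓕 ≤ atTop) (he : ∀ a, (fun n => e n a) =O[𝓕] fun _ => (1 : ℝ)) {Γ : Submodule ℚ ℂ}
    (hξ : ∀ i, ∀ θ : ℝ, 0 < θ → ∃ ξ : AddMonoidAlgebra A Γ,
      (fun n => σ (x i n) - evn Γ (e n) (d ^ n) ξ) =O[𝓕] fun n => θ ^ d ^ n)
    (P : MvPolynomial J K) : (∀ᶠ n in 𝓕, MvPolynomial.eval (fun i => x i n) P = 0) ∨
      ∃ (T : Finset Γ) (w0 : Γ) (θ : ℝ) (G : Γ → A), w0 ∈ T ∧ 0 ≤ θ ∧ θ < 1 ∧
        (∀ w ∈ T, G w ≠ 0 ∧ ((w : ℂ) - w0).re = 0) ∧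
        ∀ 𝓖 ≤ 𝓕, (∀ᶠ n in 𝓖, MvPolynomial.eval (fun i => x i n) P = 0) →
          (fun n => ∑ w ∈ T, e n (G w) * Complex.exp ((w - w0) * (d ^ n : ℕ))) =O[𝓖]
            fun n => θ ^ d ^ n := by
  obtain ⟨N, Λ, N0, hΛ, Λ1, hg⟩ := exists_gr hO hd
  have l3 : ∀ i n, house (x i n) ≤ Λ ^ d ^ n := fun i n => (hg i n).2
  set S := P.totalDegree
  set r := 3 * Module.finrank ℚ K
  set lam := (2 * (Λ ^ S) ^ r)⁻¹ with hlam
  have l0 : 0 < lam := by positivity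
  have l4 : lam * (Λ ^ S) ^ r < 1 := by
    rw [hlam, mul_inv, inv_mul_cancel_right₀ (by positivity)]; norm_num
  have l5 : lam / Λ ^ S ≤ Λ := by
    have a : 1 ≤ Λ ^ S := one_le_pow₀ Λ1
    have b : 1 ≤ (Λ ^ S) ^ r := one_le_pow₀ a
    exact ((div_le_one (by positivity)).2 (by nlinarith)).trans Λ1
  choose ξ hξ using fun i => hξ i (lam / Λ ^ S) (by positivity)
  have ha : ∀ i, (fun n => σ (x i n)) =O[𝓕] fun n => Λ ^ d ^ n := fun i =>
    IsBigO.of_bound' (.of_forall fun n => by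
      rw [Real.norm_of_nonneg (by positivity)]
      exact (norm_embedding_le_house _ σ).trans (l3 i n))
  set G := MvPolynomial.eval₂ (AddMonoidAlgebra.singleZeroRingHom.comp κ) ξ P with hG
  have h1 : (fun n => σ (MvPolynomial.eval (fun i => x i n) P) - evn Γ (e n) (d ^ n) G) =O[𝓕]
      fun n => lam ^ d ^ n := by
    refine (mv_diff σ P le_rfl (fun n => one_le_pow₀ Λ1) ha (fun i => ((ha i).sub ((hξ i).trans
      (pp_mono (by positivity) l5 _))).congr_left fun n => sub_sub_cancel _ _) hξ).congr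
      (fun n => ?_) fun n => ?_
    · rw [hG, MvPolynomial.eval₂_comp_left, MvPolynomial.eval, MvPolynomial.coe_eval₂Hom,
        MvPolynomial.eval₂_comp_left]
      congr 2
      ext c
      simp [evn_single, hκ]
    · rw [← pow_mul, mul_comm (d ^ n), pow_mul, ← mul_pow, mul_div_cancel₀ _ (by positivity)]
  rcases expand_top G he (fun n => d ^ n) l0 with h | ⟨T, w0, θ, t0, θ0, θ1, hT, h⟩
  · exact Or.inl (lsMv σ hF hd2 N0 hΛ hg l0.le P le_rfl l4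
      ((h1.add h).congr_left fun n => sub_add_cancel _ _))
  · refine Or.inr ⟨T, w0, θ, G.coeff, t0, θ0, θ1, hT, fun 𝓖 hG' hz => h 𝓖 hG' ?_⟩
    refine (h1.mono hG').neg_left.congr' (hz.mono fun n hn => ?_) EventuallyEq.rfl
    simp [hn]

theorem xi_const {A : Type*} [CommRing A] {Γ : Submodule ℚ ℂ} {e : ℕ → A →+* ℂ} {𝓕 : Filter ℕ}
    {y : ℕ → ℂ} {a : A} (h : ∀ᶠ n in 𝓕, y n = e n a) (k : ℕ → ℕ) (g : ℕ → ℝ) :
    ∃ ξ : AddMonoidAlgebra A Γ, (fun n => y n - evn Γ (e n) (k n) ξ) =O[𝓕] g :=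
  ⟨AddMonoidAlgebra.single 0 a, (isBigO_zero g 𝓕).congr' (h.mono fun n hn => by
    simp [evn_single, hn]) EventuallyEq.rfl⟩

omit [NumberField K] in
theorem xi_esc {A : Type*} [CommRing A] {Γ : Submodule ℚ ℂ} {e : ℕ → A →+* ℂ} {𝓕 : Filter ℕ}
    (hF : 𝓕 ≤ atTop) {σ : K →+* ℂ} (κ : K →+* A) (hκ : ∀ n c, e n (κ c) = σ c) {d : ℕ} {x : ℕ → K}
    {p : PowerSeries K} {u ζ : ℂ} (hE : Esc σ d x p u) (ω : Γ) (hω : u = ζ * Complex.exp ω)
    {a a' : A} (ha : ∀ᶠ n in 𝓕, ζ ^ d ^ n = e n a ∧ (ζ ^ d ^ n)⁻¹ = e n a') {θ : ℝ} (hθ : 0 < θ) :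
    ∃ ξ : AddMonoidAlgebra A Γ,
      (fun n => σ (x n) - evn Γ (e n) (d ^ n) ξ) =O[𝓕] fun n => θ ^ d ^ n := by
  have u1 := hE.one_lt
  have u0 : u ≠ 0 := norm_pos_iff.1 (one_pos.trans u1)
  obtain ⟨T, hT⟩ := exists_pow_lt_of_lt_one (show 0 < θ / ‖u‖ by positivity)
    (inv_lt_one_of_one_lt₀ u1)
  refine ⟨∑ j ∈ Finset.range T, AddMonoidAlgebra.single ω a *
    AddMonoidAlgebra.single (-ω) a' ^ j * AddMonoidAlgebra.single 0 (κ (PowerSeries.coeff j p)), ?_⟩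
  refine ((((isBigO_refl (fun n => u ^ d ^ n) _).mul (hE.app T)).mono hF).congr'
    (ha.mono fun n hn => ?_) EventuallyEq.rfl).trans (IsBigO.of_bound' (.of_forall fun n => ?_))
  · have h1 := pow_ne_zero (d ^ n) u0
    have h2 : e n a * Complex.exp (ω * (d ^ n : ℕ)) = u ^ d ^ n := by
      rw [← hn.1, hω, mul_pow, ← Complex.exp_nat_mul, mul_comm (ω : ℂ)]
    have h3 : e n a' * Complex.exp ((-ω : Γ) * (d ^ n : ℕ)) = (u ^ d ^ n)⁻¹ := by
      rw [← hn.2, hω, mul_pow, ← Complex.exp_nat_mul, mul_inv, ← Complex.exp_neg]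
      congr 2
      simp [mul_comm]
    simp only [map_sum, map_mul, map_pow, evn_single, h2, h3, hκ]
    rw [← Polynomial.eval₂_id, PowerSeries.eval₂_trunc_eq_sum_range, mul_sub, Finset.mul_sum,
      mul_comm (σ _), mul_inv_cancel_left₀ h1]
    congr 1
    refine Finset.sum_congr rfl fun j _ => ?_
    simp [mul_assoc, mul_comm]
  · rw [Real.norm_of_nonneg (show 0 ≤ θ ^ d ^ n by positivity), norm_mul, norm_pow,
      norm_pow, norm_inv, norm_pow, ← inv_pow, ← pow_mul, mul_comm (d ^ n), pow_mul, ← mul_pow]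
    refine pow_le_pow_left₀ (by positivity) ?_ _
    rw [mul_comm]
    exact ((lt_div_iff₀ (by positivity)).1 hT).le

end Pool.Agent.P.MP_68214b_ag.DS
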