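import Pool.Agent.P.MP_68214b_ag.DSD2
import Pool.Agent.P.MP_68214b_ag.DSD3
import Pool.Agent.P.MP_68214b_ag.DSD4
import Pool.Agent.P.MP_68214b_ag.DSC5

open Polynomial Filter Asymptotics NumberField Topology

namespace Pool.Agent.P.MP_68214b_ag.DS

theorem tie_near {Γ : Submodule ℚ ℂ} (T : Finset Γ) {w0 : Γ} (h0 : w0 ∈ T) {G : Γ → ℂ}
    (hG : G w0 ≠ 0) (alg : ∀ w, IsAlgebraic ℚ (G w)) {δ : ℂ} (hδ : δ.re = 0)
    (hq : ∀ w ∈ T, ∃ q : ℚ, (w : ℂ) - w0 = q • δ) {𝓖 : Filter ℕ} [𝓖.NeBot] (hF : 𝓖 ≤ atTop) {d : ℕ}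
    (hd : 2 ≤ d) {θ : ℝ} (θ0 : 0 ≤ θ) (θ1 : θ < 1)
    (h : (fun n => ∑ w ∈ T, G w * Complex.exp ((w - w0) * (d ^ n : ℕ))) =O[𝓖] fun n => θ ^ d ^ n)
    (t : ℕ) : ∃ (β : ℂ) (C l : ℝ), β ≠ 0 ∧ IsAlgebraic ℚ β ∧ 0 ≤ l ∧ l < 1 ∧
      ∃ᶠ n in 𝓖, ‖Complex.exp (t * δ) ^ d ^ n - β‖ ≤ C * l ^ d ^ n := by
  classical
  choose! q hq using hq
  set N := ∏ w ∈ T, (q w).den with hN
  have N0 : 0 < N := Finset.prod_pos fun w _ => Rat.den_pos _
  have Nc : (N : ℂ) ≠ 0 := Nat.cast_ne_zero.2 N0.ne'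
  have hk : ∀ w ∈ T, ∃ k : ℤ, (k : ℚ) = N * q w := fun w hw => by
    obtain ⟨a, ha⟩ := Finset.dvd_prod_of_mem (fun w => (q w).den) hw
    exact ⟨a * (q w).num, by rw [hN, ha]; push_cast; rw [← Rat.den_mul_eq_num]; ring⟩
  choose! k hk using hk
  set M := ∑ w ∈ T, (k w).natAbs with hM
  have kM : ∀ w ∈ T, ((k w + M).toNat : ℤ) = k w + M := fun w hw => by
    have : (k w).natAbs ≤ M := Finset.single_le_sum (f := fun w => (k w).natAbs)
      (fun _ _ => Nat.zero_le _) hw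
    omega
  have e0 : ∀ w ∈ T, (w : ℂ) - w0 = k w * (δ / N) := fun w hw => by
    rw [hq w hw, Rat.smul_def, show (k w : ℂ) = N * (q w : ℂ) by exact_mod_cast hk w hw]
    field_simp
  set W : ℕ → ℂ := fun n => Complex.exp (δ / N * (d ^ n : ℕ)) with hW
  have W1 : ∀ n, ‖W n‖ = 1 := fun n => by
    simp only [hW]
    rw [mul_comm, Complex.exp_nat_mul, norm_pow, Complex.norm_exp, Complex.div_natCast_re, hδ]
    simp
  set g : ℂ[X] := ∑ w ∈ T, monomial (k w + M).toNat (G w) with hg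
  have g0 : g ≠ 0 := fun e => hG (by
    have := congrArg (coeff · (k w0 + M).toNat) e
    simp only [hg, finsetSum_coeff, coeff_monomial, coeff_zero] at this
    rwa [Finset.sum_eq_single w0 (fun w hw hne => if_neg fun e => hne ?_)
      (fun h => absurd h0 h), if_pos rfl] at this
    have h1 := kM w hw
    have h2 := kM w0 h0
    have h3 := e0 w hw
    rw [show k w = k w0 by omega, ← e0 w0 h0, sub_self, sub_eq_zero] at h3
    exact Subtype.ext h3)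
  have gO : (fun n => g.eval (W n)) =O[𝓖] fun n => θ ^ d ^ n := by
    have b : (fun n => W n ^ M) =O[𝓖] fun _ => (1 : ℝ) :=
      IsBigO.of_bound' (.of_forall fun n => by simp [W1])
    refine (b.mul h).congr (fun n => ?_) fun n => one_mul _
    rw [hg, eval_finsetSum, Finset.mul_sum]
    refine Finset.sum_congr rfl fun w hw => ?_
    have w0' : W n ≠ 0 := Complex.exp_ne_zero _
    rw [eval_monomial, ← zpow_natCast (W n) (k w + M).toNat, kM w hw, zpow_add₀ w0', zpow_natCast,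
      e0 w hw, mul_assoc (k w : ℂ), Complex.exp_int_mul]
    ring
  obtain ⟨β, C, l, hβ, l0, l1, hf⟩ := root_near g0 hF hd θ0 θ1 gO
  refine ⟨β ^ (N * t), (N * t : ℕ) * max 1 ‖β‖ ^ (N * t) * C, l, pow_ne_zero _ ?_,
    (alg_root g0 (fun j => ?_) hβ).pow _, l0, l1, hf.mono fun n hn => ?_⟩
  · rintro rfl
    obtain ⟨n, a, b⟩ := (hf.and_eventually ((((tend_pp l0 l1 hd).mono_left hF).const_mul
      C).eventually (gt_mem_nhds (show C * 0 < 1 by simp)))).exists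
    rw [sub_zero, W1] at a
    linarith
  · rw [hg, finsetSum_coeff, ← mem_algebraicClosure_iff]
    refine sum_mem fun w _ => ?_
    rw [coeff_monomial]
    split_ifs
    exacts [mem_algebraicClosure_iff.2 (alg w), zero_mem _]
  · have : Complex.exp (t * δ) ^ d ^ n = W n ^ (N * t) := by
      simp only [hW]
      rw [← Complex.exp_nat_mul, ← Complex.exp_nat_mul]
      congr 1
      push_cast
      field_simp
    rw [this, mul_assoc]
    exact (pow_near (W1 n) _).trans (by gcongr)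

variable {K : Type} [Field K] [NumberField K]

theorem dsd5_main (σ : K →+* ℂ) {J : Type} [Fintype J] {d : ℕ} (hd2 : 2 ≤ d) {f : J → K[X]}
    {x : J → ℕ → K} (hO : ∀ i, Orb (f i) (x i)) (hd : ∀ i, (f i).natDegree = d) (hD : Dom x)
    {ζ : J → ℂ} {t : ℕ} (ht : 0 < t) (hζ : ∀ i, ζ i ^ t = 1) {A : Type}
    [CommRing A] (κ : algebraicClosure ℚ ℂ →+* A) {e : ℕ → A →+* ℂ} (hκ : ∀ n c, e n (κ c) = c)
    (he : ∀ a, (fun n => e n a) =O[atTop] fun _ => (1 : ℝ)) {Γ : Submodule ℚ ℂ}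
    (hx : ∀ i, Alg0 (x i) ∨ (∃ a, ∀ n, σ (x i n) = e n a) ∨
      ∃ ω : Γ, (∃ p, Esc σ d (x i) p (ζ i * Complex.exp ω)) ∨ ∃ a b : algebraicClosure ℚ ℂ,
        ∀ n, σ (x i n) = b + a * (ζ i * Complex.exp ω) ^ d ^ n)
    {P : MvPolynomial J K} (hP : ∃ᶠ n in atTop, MvPolynomial.eval (fun i => x i n) P = 0) :
    Van x P ∨ ∃ 𝓖 : Filter ℕ, 𝓖.NeBot ∧ 𝓖 ≤ atTop ∧
      ∃ (T : Finset Γ) (w0 : Γ) (θ : ℝ) (G : Γ → A), w0 ∈ T ∧ 0 ≤ θ ∧ θ < 1 ∧
        (∀ w ∈ T, G w ≠ 0 ∧ ((w : ℂ) - w0).re = 0) ∧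
        (fun n => ∑ w ∈ T, e n (G w) * Complex.exp ((w - w0) * (d ^ n : ℕ))) =O[𝓖]
          fun n => θ ^ d ^ n := by
  classical
  have nb := frequently_iff_neBot.1 hP
  set 𝒰 := Ultrafilter.of (atTop ⊓ 𝓟 {n : ℕ | MvPolynomial.eval (fun i => x i n) P = 0})
  have hU : (𝒰 : Filter ℕ) ≤ atTop := (Ultrafilter.of_le _).trans inf_le_left
  have hz : ∀ᶠ n in (𝒰 : Filter ℕ), MvPolynomial.eval (fun i => x i n) P = 0 :=
    le_principal_iff.1 ((Ultrafilter.of_le _).trans inf_le_right)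
  have hz' : ∀ j, ∃ z, z ^ t = 1 ∧ ∀ᶠ n in (𝒰 : Filter ℕ), ζ j ^ d ^ n = z := fun j => by
    obtain ⟨z, h1, h2⟩ := (Ultrafilter.eventually_exists_mem_iff (f := 𝒰)
      (P := fun z n => ζ j ^ d ^ n = z) (nthRootsFinset t (1 : ℂ)).finite_toSet).1
      (.of_forall fun n => ⟨_, (mem_nthRootsFinset ht 1).2
        (by rw [← pow_mul, mul_comm, pow_mul, hζ, one_pow]), rfl⟩)
    exact ⟨z, (mem_nthRootsFinset ht 1).1 h1, h2⟩
  choose z z1 z2 using hz'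
  have z3 : ∀ᶠ n in (𝒰 : Filter ℕ), ∀ j, ζ j ^ d ^ n = z j := eventually_all.2 z2
  have za : ∀ j, z j ∈ algebraicClosure ℚ ℂ := fun j => mem_algebraicClosure_iff.2
    (IsAlgebraic.of_pow ht (by rw [z1]; exact isAlgebraic_one))
  set 𝓕 := atTop ⊓ 𝓟 {n : ℕ | ∀ j, ζ j ^ d ^ n = z j} with h𝓕
  set σ' : K →+* algebraicClosure ℚ ℂ := σ.codRestrict _ fun y =>
    mem_algebraicClosure_iff.2 (alg_emb σ y) with hσ'
  have hκ' : ∀ n c, e n ((κ.comp σ') c) = σ c := fun n c => hκ n _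
  have hξ : ∀ i, ∀ θ : ℝ, 0 < θ → ∃ ξ : AddMonoidAlgebra A Γ,
      (fun n => σ (x i n) - evn Γ (e n) (d ^ n) ξ) =O[𝓕] fun n => θ ^ d ^ n := fun i θ hθ => by
    rcases hx i with h | ⟨a, h⟩ | ⟨ω, ⟨p, h1⟩ | ⟨a, b, h⟩⟩
    · obtain ⟨c, hc⟩ := hD.domA.const (Algebra.subset_adjoin (Set.mem_range_self i)) h
      exact xi_const (a := κ.comp σ' c) ((hc.filter_mono inf_le_left).mono fun n hn => by
        rw [hn, hκ']) _ _
    · exact xi_const (.of_forall h) _ _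
    · refine xi_esc inf_le_left _ hκ' h1 ω rfl (a := κ ⟨z i, za i⟩) (a' := κ ⟨z i, za i⟩⁻¹) ?_ hθ
      filter_upwards [mem_inf_of_right (mem_principal_self _)] with n hn
      rw [hκ, hκ, hn i]
      exact ⟨rfl, rfl⟩
    · refine ⟨AddMonoidAlgebra.single 0 (κ b) + AddMonoidAlgebra.single ω (κ (a * ⟨z i, za i⟩)),
        (isBigO_zero _ 𝓕).congr' ?_ EventuallyEq.rfl⟩
      filter_upwards [mem_inf_of_right (mem_principal_self _)] with n hn
      rw [map_add, evn_single, evn_single, hκ, hκ, h, mul_pow, hn i, ← Complex.exp_nat_mul]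
      simp [mul_comm, mul_assoc, mul_left_comm]
  rcases coreA σ hd2 hO hd (κ.comp σ') hκ' (𝓕 := 𝓕) inf_le_left
    (fun a => (he a).mono inf_le_left) hξ P with
    h | ⟨T, w0, θ, G, a1, a2, a3, a4, a5⟩
  · left
    obtain ⟨n0, h0, n1, h1, hlt⟩ :=
      (Nat.frequently_atTop_iff_infinite.1 (z3.frequently.filter_mono hU)).nontrivial.exists_lt
    obtain ⟨l, rfl⟩ := Nat.exists_eq_add_of_lt hlt
    refine van_of_prog (fun i => (hO i).step) hD (c := n0) l.succ_pos (Tendsto.eventually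
      (show Tendsto (fun s => n0 + l.succ * s) atTop 𝓕 from tendsto_inf.2
        ⟨tend_prog n0 l.succ_pos, tendsto_principal.2 (.of_forall fun s j => ?_)⟩) h)
    induction s with
    | zero => exact h0 j
    | succ s ih =>
      rw [show n0 + l.succ * (s + 1) = n0 + l + 1 + l.succ * s by simp only [Nat.succ_eq_add_one]; ring,
        pow_add, pow_mul, h1 j, ← h0 j, ← pow_mul, ← pow_add, ih, h0 j]
  · exact Or.inr ⟨𝒰, inferInstance, hU, T, w0, θ, G, a1, a2, a3, a4,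
      a5 𝒰 (le_inf hU (le_principal_iff.2 z3)) hz⟩

theorem sl' (σ : K →+* ℂ) {f : K[X]} {y : ℕ → K} (h : Orb f y) (hN : NoTot (f.map σ)) {g : ℂ[X]}
    (hg : g ≠ 0) (alg : ∀ k, IsAlgebraic ℚ (g.coeff k)) {𝓖 : Filter ℕ} [𝓖.NeBot] (hF : 𝓖 ≤ atTop)
    {θ : ℝ} (θ0 : 0 ≤ θ) (θ1 : θ < 1) (hb : Bdd σ y)
    (hO : (fun n => g.eval (σ (y n))) =O[𝓖] fun n => θ ^ f.natDegree ^ n) : Alg0 y := by
  let := σ.toAlgebra
  have : IsScalarTower ℚ K ℂ := IsScalarTower.rat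
  obtain ⟨β, C, l, hβ, l0, l1, hf⟩ := root_near hg hF h.deg θ0 θ1 hO
  have hi : IsIntegral K β := (alg_root hg alg hβ).isIntegral.tower_top
  obtain ⟨q, hq⟩ := (dvd_iff_isRoot (p := (minpoly K β).map σ) (a := β)).2
    (by rw [IsRoot, eval_map]; exact minpoly.aeval K β)
  obtain ⟨B, hB⟩ := hb
  obtain ⟨C', hC'⟩ := (poly_bigO (𝓕 := atTop) q (z := fun n => σ (y n)) (B := fun _ => 1)
    (fun _ => le_rfl) (IsBigO.of_bound B (.of_forall fun n => by simpa using hB n))).bound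
  refine sl σ h hN (minpoly.ne_zero hi) (C := C * C') l0 l1
    (((hf.filter_mono hF).and_eventually hC').mono fun n hn => ?_)
  rw [← eval₂_at_apply, ← eval_map, hq, eval_mul, eval_sub, eval_X, eval_C, norm_mul, mul_right_comm]
  exact mul_le_mul hn.1 (by simpa using hn.2) (norm_nonneg _) ((norm_nonneg _).trans hn.1)

theorem coreB (σ : K →+* ℂ) {J : Type} [Fintype J] {d : ℕ} (hd2 : 2 ≤ d) {f : J → K[X]}
    {x : J → ℕ → K} (hO : ∀ i, Orb (f i) (x i)) (hd : ∀ i, (f i).natDegree = d) (hD : Dom x)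
    {ζ : J → ℂ} {t : ℕ} (ht : 0 < t) (hζ : ∀ i, ζ i ^ t = 1) {Γ : Submodule ℚ ℂ} (B0 : J → Prop)
    (hB : ∀ i, B0 i → Bdd σ (x i) ∧ NoTot ((f i).map σ) ∧ ¬ Alg0 (x i))
    (h1 : ∀ i j, B0 i → B0 j → i = j) (hx : ∀ i, Alg0 (x i) ∨ B0 i ∨
      ∃ ω : Γ, (∃ p, Esc σ d (x i) p (ζ i * Complex.exp ω)) ∨ ∃ a b : algebraicClosure ℚ ℂ,
        ∀ n, σ (x i n) = b + a * (ζ i * Complex.exp ω) ^ d ^ n)
    (ti : (∀ w ∈ Γ, w.re = 0 → w = 0) ∨ ((∀ i, ¬ B0 i) ∧ ∃ δ : ℂ, δ.re = 0 ∧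
      (∀ w ∈ Γ, w.re = 0 → ∃ q : ℚ, w = q • δ) ∧ ∀ (β : ℂ) (C l : ℝ), β ≠ 0 → IsAlgebraic ℚ β →
        0 ≤ l → l < 1 → ¬ ∃ᶠ n in atTop, ‖Complex.exp (t * δ) ^ d ^ n - β‖ ≤ C * l ^ d ^ n))
    {P : MvPolynomial J K} (hP : ∃ᶠ n in atTop, MvPolynomial.eval (fun i => x i n) P = 0) :
    Van x P := by
  have one : (∀ w ∈ Γ, w.re = 0 → w = 0) → ∀ {T : Finset Γ} {w0 : Γ}, w0 ∈ T →
      (∀ w ∈ T, ((w : ℂ) - w0).re = 0) → T = {w0} := fun h0 T w0 a b =>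
    Finset.eq_singleton_iff_unique_mem.2 ⟨a, fun w hw =>
      Subtype.ext (sub_eq_zero.1 (h0 _ (sub_mem w.2 w0.2) (b w hw)))⟩
  by_cases h0 : ∃ i, B0 i
  · obtain ⟨i0, h0⟩ := h0
    obtain ⟨b0, n0, a0⟩ := hB i0 h0
    rcases dsd5_main σ hd2 hO hd hD ht hζ (A := (algebraicClosure ℚ ℂ)[X]) C
      (e := fun n => eval₂RingHom (algebraMap _ ℂ) (σ (x i0 n))) (fun n c => eval₂_C _ _)
      (fun a => by
        obtain ⟨B, hB⟩ := b0
        simpa only [coe_eval₂RingHom, eval_map, one_pow] using poly_bigO (𝓕 := atTop)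
          (a.map (algebraMap _ ℂ)) (z := fun n => σ (x i0 n)) (B := fun _ => 1) (fun _ => le_rfl)
          (IsBigO.of_bound B (.of_forall fun n => by simpa using hB n)))
      (Γ := Γ) (fun i => (hx i).imp_right (Or.imp_left fun b =>
        ⟨X, fun n => by rw [h1 i i0 b h0]; exact (eval₂_X _ _).symm⟩)) hP with
      hv | ⟨𝓖, nb, hF, T, w0, θ, G, a1, a2, a3, a4, a5⟩
    · exact hv
    rw [one (ti.resolve_right fun e => e.1 i0 h0) a1 fun w hw => (a4 w hw).2] at a5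
    refine absurd (sl' σ (hO i0) n0 (g := (G w0).map (algebraMap _ ℂ))
      (Polynomial.map_ne_zero (a4 w0 a1).1) (fun k => ?_) hF a2 a3 b0 ?_) a0
    · rw [coeff_map]
      exact mem_algebraicClosure_iff.1 ((G w0).coeff k).2
    · simpa [eval_map, hd] using a5
  rcases dsd5_main σ hd2 hO hd hD ht hζ (RingHom.id _)
    (e := fun _ => algebraMap _ ℂ) (fun n c => rfl) (fun a => isBigO_const_const _ one_ne_zero _)
    (Γ := Γ) (fun i => (hx i).imp_right (Or.imp_left fun b => absurd ⟨i, b⟩ h0)) hP with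
    hv | ⟨𝓖, nb, hF, T, w0, θ, G, a1, a2, a3, a4, a5⟩
  · exact hv
  exfalso
  have G0 : algebraMap _ ℂ (G w0) ≠ 0 := (_root_.map_ne_zero _).2 (a4 w0 a1).1
  rcases ti with ti | ⟨-, δ, re0, ti, nr⟩
  · rw [one ti a1 fun w hw => (a4 w hw).2] at a5
    have := a5.trans_tendsto ((tend_pp a2 a3 hd2).mono_left hF)
    simp only [Finset.sum_singleton, sub_self, zero_mul, Complex.exp_zero, mul_one,
      tendsto_const_nhds_iff] at this
    exact G0 this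
  obtain ⟨β, C, l, β0, hβ, l0, l1, hf⟩ := tie_near T a1 G0
    (fun w => mem_algebraicClosure_iff.1 (G w).2) re0
    (fun w hw => ti _ (sub_mem w.2 w0.2) (a4 w hw).2) hF hd2 a2 a3 a5 t
  exact nr β C l β0 hβ l0 l1 (hf.filter_mono hF)

omit [NumberField K] in
theorem Dep.map {a b : ℕ → K} (h : Dep a b) (γ : K →+* K) :
    Dep (fun n => γ (a n)) fun n => γ (b n) := by
  obtain ⟨G, hG, h⟩ := h
  exact ⟨map2 γ G, fun e => hG (map2_inj γ.injective (e.trans (map_zero _).symm)),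
    h.mono fun n hn => (map_mapRingHom_evalEval γ G _ _).trans (by rw [hn, map_zero])⟩

omit [NumberField K] in
theorem dep_lin {a b : ℕ → K} {ρ : K} (h : ∀ n, b n = ρ * a n) : Dep a b :=
  ⟨X - C (C ρ * X), X_sub_C_ne_zero _, .of_forall fun n => by
    rw [evalEval_sub, evalEval_X, evalEval_C, eval_mul, eval_C, eval_X, h, sub_self]⟩

theorem alg0_map {a : ℕ → K} (γ : K →+* K) (h : Alg0 fun n => γ (a n)) : Alg0 a := by
  obtain ⟨g, hg, h⟩ := h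
  obtain ⟨g, rfl⟩ := map_surjective γ (Algebra.IsAlgebraic.algHom_bijective γ.toRatAlgHom).2 g
  exact ⟨g, fun e => hg (by rw [e, Polynomial.map_zero]), h.mono fun n hn => by
    rwa [eval_map, eval₂_at_apply, map_eq_zero] at hn⟩

theorem esc_of_dep {σ : K →+* ℂ} {d : ℕ} {g : K[X]} {a b : ℕ → K} {p : PowerSeries K} {u : ℂ}
    (ea : Esc σ d a p u) (ob : Orb g b) (dg : g.natDegree = d) (hN : NSa g) (h0 : ¬ Alg0 b)
    (h : Dep a b) : ∃ q v, Esc σ d b q v ∧ Rel u v := by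
  obtain ⟨q, v, -, e⟩ := bl ob σ fun e => h0 (unb_of_dep σ ob (hN σ).tot (dg ▸ ea) h.symm e)
  rw [dg] at e
  exact ⟨q, v, e, be (dg ▸ ob.deg) ea e h⟩

/-- conjugation lies in every monoid generated by the two stabilisers -/
def SepG (c : K →+* K) (x y : ℕ → K) : Prop :=
  ∀ S : Submonoid (K →+* K), (∀ γ : K →+* K, (∃ ρ, ∀ n, γ (y n) = ρ * y n) → γ ∈ S) →
    (∀ γ : K →+* K, (∃ ρ, ∀ n, γ (x n) = ρ * x n) → c * γ * c ∈ S) → c ∈ S

theorem sep {σ : K →+* ℂ} {c : K →+* K} (hc : ∀ y, σ (c y) = (starRingEnd ℂ) (σ y)) {d : ℕ}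
    {f g : K[X]} {x y : ℕ → K} {p q : PowerSeries K} {u v : ℂ} (hx : Orb f x) (hy : Orb g y)
    (df : f.natDegree = d) (dg : g.natDegree = d) (ex : Esc σ d x p u) (ey : Esc σ d y q v)
    (nf : NSa f) (ng : NSa g) (hS : SepG c x y) (h : Rel u ((starRingEnd ℂ) v)) :
    Rel v ((starRingEnd ℂ) v) := by
  have d2 : 2 ≤ d := df ▸ hx.deg
  have tr : ∀ {f0 f1 f2 : K[X]} {a b e : ℕ → K} {p u}, Orb f0 a → f0.natDegree = d →
      Esc σ d a p u → Orb f1 b → f1.natDegree = d → NSa f1 → ¬ Alg0 b → Orb f2 e →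
      f2.natDegree = d → NSa f2 → ¬ Alg0 e → Dep a b → Dep b e → Dep a e := by
    intro f0 f1 f2 a b e p u o0 d0 e0 o1 d1 n1 a1 o2 d2 n2 a2 h1 h2
    obtain ⟨_, _, e1, r1⟩ := esc_of_dep e0 o1 d1 n1 a1 h1
    obtain ⟨_, _, e2, r2⟩ := esc_of_dep e1 o2 d2 n2 a2 h2
    exact dep_of_rel o0 o2 d0 d2 e0 e2 (r1.trans r2)
  have dm : ∀ γ : K →+* K, (g.map γ).natDegree = d := fun γ => (natDegree_map γ).trans dg
  have am : ∀ γ : K →+* K, ¬ Alg0 fun n => γ (y n) := fun γ e => ey.not_alg0 d2 (alg0_map γ e)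
  have dp := dep_of_rel hx (hy.conj c) df (dm c) ex (ey.conj hc) h
  refine be d2 ey (ey.conj hc) (hS
    { carrier := {γ | Dep y fun n => γ (y n)}
      one_mem' := dep_refl y
      mul_mem' := fun {γ γ'} a b => tr hy dg ey (hy.conj γ) (dm γ) (ng.map γ) (am γ)
        (hy.conj (γ * γ')) (dm _) (ng.map _) (am _) a (Dep.map b γ) }
    (fun γ ⟨ρ, e⟩ => dep_lin e) fun γ ⟨ρ, e⟩ => ?_)
  have h1 := tr hx df ex (hx.conj γ) ((natDegree_map γ).trans df) (nf.map γ)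
    (fun e => ex.not_alg0 d2 (alg0_map γ e)) (hy.conj (γ * c)) (dm _) (ng.map _) (am _)
    (dep_lin e) (dp.map γ)
  have h2 := (tr (hy.conj c) (dm c) (ey.conj hc) hx df nf (ex.not_alg0 d2) (hy.conj (γ * c)) (dm _)
    (ng.map _) (am _) dp.symm h1).map c
  have cc : ∀ z, c (c z) = z := fun z => σ.injective (by rw [hc, hc, Complex.conj_conj])
  simp only [cc] at h2
  exact h2

end Pool.Agent.P.MP_68214b_ag.DS
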