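import Pool.Agent.P.MP_68214b_ag.DSD1
import Pool.Agent.P.MP_68214b_ag.DSX8
import Pool.Agent.P.MP_68214b_ag.DSC6

open Polynomial Filter Asymptotics NumberField Topology

namespace Pool.Agent.P.MP_68214b_ag.DS

theorem root_of_tend {r c : ℂ} {d : ℕ} (hd : 2 ≤ d) (hc : c ≠ 0)
    (h : Tendsto (fun n => r ^ d ^ n) atTop (𝓝 c)) : ∃ k, 0 < k ∧ r ^ k = 1 := by
  obtain ⟨e, rfl⟩ : ∃ e, d = e + 1 := ⟨d - 1, by omega⟩
  have h1 : c ^ e = 1 := by
    have a := (h.pow (e + 1)).congr fun n => by rw [← pow_mul, ← pow_succ]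
    have b := tendsto_nhds_unique a (h.comp (tendsto_add_atTop_nat 1))
    exact mul_right_cancel₀ hc (by rw [← pow_succ, b, one_mul])
  have h2 : Tendsto (fun n => (r ^ e) ^ (e + 1) ^ n) atTop (𝓝 1) :=
    h1 ▸ (h.pow e).congr fun n => by rw [← pow_mul, mul_comm, pow_mul]
  have h3 : ‖r ^ e‖ = 1 := by
    rcases lt_trichotomy ‖r ^ e‖ 1 with a | a | a
    · exact absurd (tendsto_nhds_unique h2 (tend_ppC a hd)) one_ne_zero
    · exact a
    · exact absurd (tend_pp_top a hd) (not_tendsto_atTop_of_tendsto_nhds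
        (h2.norm.congr fun n => norm_pow _ _))
  have h4 := ((tendsto_iff_norm_sub_tendsto_zero.1 h2).const_mul (((e + 1 : ℕ) : ℝ) ^ 2)).eventually
    (ge_mem_nhds (show _ < 1 / 2 by simp))
  obtain ⟨n, hn⟩ := eventually_atTop.1 h4
  refine ⟨e * (e + 1) ^ n, mul_pos (by omega) (by positivity), ?_⟩
  rw [pow_mul]
  refine dsx5_one (by rw [norm_pow, h3, one_pow]) hd fun k => ?_
  rw [← pow_mul, ← pow_add]
  exact hn _ (Nat.le_add_right _ _)

theorem rel_of_tend {u v c : ℂ} {d : ℕ} (hd : 2 ≤ d) (hc : c ≠ 0) (hv : v ≠ 0)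
    (h : Tendsto (fun n => u ^ d ^ n * (v ^ d ^ n)⁻¹) atTop (𝓝 c)) :
    ∃ k, 0 < k ∧ u ^ k = v ^ k := by
  obtain ⟨k, hk, e⟩ := root_of_tend (r := u / v) hd hc (h.congr fun n => by
    rw [div_pow, div_eq_mul_inv])
  exact ⟨k, hk, by rwa [div_pow, div_eq_one_iff_eq (pow_ne_zero _ hv)] at e⟩

/-- closed form of the orbit of a special map -/
def SpF (d : ℕ) (z : ℕ → ℂ) : Prop :=
  ∃ a b v η : ℂ, IsAlgebraic ℚ v ∧ v ≠ 0 ∧
    ∀ n, (z n - b) ^ 2 = a * (v ^ d ^ n + η * v⁻¹ ^ d ^ n) ^ 2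

/-- closed form of the orbit of a power map -/
def Pw (d : ℕ) (z : ℕ → ℂ) : Prop :=
  ∃ a b v : ℂ, IsAlgebraic ℚ a ∧ IsAlgebraic ℚ b ∧ IsAlgebraic ℚ v ∧ ∀ n, z n = b + a * v ^ d ^ n

theorem SpF.prog {d : ℕ} {z : ℕ → ℂ} (h : SpF d z) (c l : ℕ) :
    SpF (d ^ l) fun t => z (c + l * t) := by
  obtain ⟨a, b, v, η, h1, h2, h⟩ := h
  refine ⟨a, b, v ^ d ^ c, η, h1.pow _, pow_ne_zero _ h2, fun t => ?_⟩
  rw [h, ← inv_pow, ← pow_mul, ← pow_mul, ← pow_mul, ← pow_add]

theorem Pw.prog {d : ℕ} {z : ℕ → ℂ} (h : Pw d z) (c l : ℕ) :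
    Pw (d ^ l) fun t => z (c + l * t) := by
  obtain ⟨a, b, v, h1, h2, h3, h⟩ := h
  refine ⟨a, b, v ^ d ^ c, h1, h2, h3.pow _, fun t => ?_⟩
  beta_reduce
  rw [h, ← pow_mul, ← pow_mul, ← pow_add]

theorem SpF.map {d : ℕ} {z : ℕ → ℂ} (h : SpF d z) (s : ℂ →+* ℂ) (κ : ℂ) :
    SpF d fun n => s (κ * z n) := by
  obtain ⟨a, b, v, η, h1, h2, h⟩ := h
  refine ⟨s (κ ^ 2 * a), s (κ * b), s v, s η, h1.algHom s.toRatAlgHom, (_root_.map_ne_zero s).2 h2,
    fun n => ?_⟩
  simp only [← map_inv₀, ← map_pow, ← map_mul, ← map_add, ← map_sub]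
  rw [← mul_sub, mul_pow, h, mul_assoc]

theorem Pw.map {d : ℕ} {z : ℕ → ℂ} (h : Pw d z) (s : ℂ →+* ℂ) {κ : ℂ} (hκ : IsAlgebraic ℚ κ) :
    Pw d fun n => s (κ * z n) := by
  obtain ⟨a, b, v, h1, h2, h3, h⟩ := h
  refine ⟨s (κ * a), s (κ * b), s v, (hκ.mul h1).algHom s.toRatAlgHom,
    (hκ.mul h2).algHom s.toRatAlgHom, h3.algHom s.toRatAlgHom, fun n => ?_⟩
  simp only [← map_pow, ← map_mul, ← map_add]
  rw [h, mul_add, mul_assoc]

theorem SpF.alg {d : ℕ} (hd : 2 ≤ d) {z : ℕ → ℂ} (h : SpF d z) {u : ℂ} (hu : 1 < ‖u‖)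
    (hz : Tendsto (fun n => z n * (u ^ d ^ n)⁻¹) atTop (𝓝 1)) : IsAlgebraic ℚ u := by
  obtain ⟨a, b, v, η, h1, h2, h⟩ := h
  have u0 : u ≠ 0 := norm_pos_iff.1 (one_pos.trans hu)
  have t0 := dsb4_inv hu hd
  have key : ∀ w c : ℂ, IsAlgebraic ℚ w →
      Tendsto (fun n => c * (w / u) ^ d ^ n * (w / u) ^ d ^ n) atTop (𝓝 1) → IsAlgebraic ℚ u := by
    intro w c hw ht
    have c0 : c ≠ 0 := by rintro rfl; simp at ht
    obtain ⟨k, hk, e⟩ := root_of_tend (r := (w / u) ^ 2) hd (inv_ne_zero c0)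
      ((by simpa using ht.const_mul c⁻¹ : Tendsto _ atTop (𝓝 c⁻¹)).congr fun n => by
        rw [← pow_mul, mul_comm 2, pow_mul]; field_simp)
    rw [← pow_mul, div_pow, div_eq_one_iff_eq (pow_ne_zero _ u0)] at e
    exact IsAlgebraic.of_pow (n := 2 * k) (by omega) (e ▸ hw.pow _)
  have t1 : Tendsto (fun n => a * (v / u) ^ d ^ n * (v / u) ^ d ^ n +
      a * η ^ 2 * (v⁻¹ / u) ^ d ^ n * (v⁻¹ / u) ^ d ^ n) atTop (𝓝 1) := by
    have := ((hz.sub (t0.const_mul b)).pow 2).sub ((t0.pow 2).const_mul (2 * a * η))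
    rw [show ((1 : ℂ) - b * 0) ^ 2 - 2 * a * η * 0 ^ 2 = 1 by simp] at this
    refine this.congr fun n => ?_
    have e := h n
    have v0 := pow_ne_zero (d ^ n) h2
    have w0 := pow_ne_zero (d ^ n) u0
    simp only [div_pow, inv_pow] at e ⊢
    generalize v ^ d ^ n = V at *
    generalize u ^ d ^ n = U at *
    field_simp at e ⊢
    linear_combination e
  by_cases c : ‖v⁻¹ / u‖ < 1
  · have t2 := tend_ppC c hd
    have := t1.sub ((t2.const_mul (a * η ^ 2)).mul t2)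
    rw [mul_zero, sub_zero] at this
    exact key v a h1 (this.congr fun n => by ring)
  · have v0 : 0 < ‖v‖ := norm_pos_iff.2 h2
    have t2 := tend_ppC (show ‖v / u‖ < 1 by
      rw [norm_div, norm_inv, not_lt, le_div_iff₀ (by linarith), one_mul, le_inv_comm₀
        (by linarith) v0] at c
      rw [norm_div, div_lt_one (by linarith)]
      exact c.trans_lt ((inv_lt_one_of_one_lt₀ hu).trans hu)) hd
    exact key v⁻¹ (a * η ^ 2) h1.inv (by
      simpa only [add_sub_cancel_left, mul_zero, sub_zero] using t1.sub ((t2.const_mul a).mul t2))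

theorem fix_alg {f : ℂ[X]} (hd : 2 ≤ f.natDegree) (hf : ∀ k, IsAlgebraic ℚ (f.coeff k)) {b c : ℂ}
    (hc : IsAlgebraic ℚ c) (h : f.eval b = c + b) : IsAlgebraic ℚ b := by
  refine alg_root (g := f - (X + C c)) (fun e => ?_) (fun k => ?_) (by simp [h, add_comm])
  · rw [sub_eq_zero.1 e, natDegree_X_add_C] at hd
    omega
  · rw [coeff_sub, coeff_add, coeff_X, coeff_C]
    refine (hf k).sub (IsAlgebraic.add ?_ ?_) <;> split_ifs
    exacts [isAlgebraic_one, isAlgebraic_zero, hc, isAlgebraic_zero]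

theorem pw_of {f : ℂ[X]} (hd : 2 ≤ f.natDegree) (hf : ∀ k, IsAlgebraic ℚ (f.coeff k)) {a b : ℂ}
    (h : f = C a * (X - C b) ^ f.natDegree + C b) {z : ℕ → ℂ} (h0 : IsAlgebraic ℚ (z 0))
    (hz : ∀ n, z (n + 1) = f.eval (z n)) : Pw f.natDegree z := by
  have hb : IsAlgebraic ℚ b := fix_alg hd hf isAlgebraic_zero (by
    rw [h]; simp [show f.natDegree ≠ 0 by omega])
  have ha : f.coeff f.natDegree = a := by
    conv_lhs => enter [1]; rw [h]
    rw [coeff_add, coeff_C_mul, coeff_C_of_ne_zero (by omega), add_zero]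
    have := ((monic_X_sub_C b).pow f.natDegree).coeff_natDegree
    rw [natDegree_pow, natDegree_X_sub_C, mul_one] at this
    rw [this, mul_one]
  have a0 : a ≠ 0 := ha ▸ leadingCoeff_ne_zero.2 (ne_zero_of_natDegree_gt hd)
  obtain ⟨e, he⟩ : ∃ e, f.natDegree = e + 1 := ⟨_, (Nat.sub_add_cancel (by omega)).symm⟩
  obtain ⟨l, hl⟩ := IsAlgClosed.exists_pow_nat_eq a (show 0 < e by omega)
  have l0 : l ≠ 0 := by rintro rfl; exact a0 (by rw [← hl, zero_pow (by omega)])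
  have la : IsAlgebraic ℚ l := IsAlgebraic.of_pow (show 0 < e by omega) (hl ▸ ha ▸ hf _)
  refine ⟨l⁻¹, b, l * (z 0 - b), la.inv, hb, la.mul (h0.sub hb), fun n => ?_⟩
  induction n with
  | zero => simp [l0]
  | succ n ih =>
    have := congrArg (eval (z n)) h
    simp only [eval_add, eval_mul, eval_C, eval_pow, eval_sub, eval_X] at this
    rw [hz, this, pow_succ, pow_mul, ih, add_sub_cancel_left, ← hl]
    generalize (l * (z 0 - b)) ^ f.natDegree ^ n = W
    rw [he, mul_pow, pow_succ l⁻¹, inv_pow]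
    field_simp
    ring

theorem spf_of {f : ℂ[X]} (hd : 2 ≤ f.natDegree) (hf : ∀ k, IsAlgebraic ℚ (f.coeff k))
    (h : Special f) {z : ℕ → ℂ} (h0 : IsAlgebraic ℚ (z 0)) (hz : ∀ n, z (n + 1) = f.eval (z n))
    (hb : ∃ n, z n ≠ z 0) : SpF f.natDegree z := by
  obtain ⟨a, b, a0, T, hT, h⟩ := h
  have tc : ∀ k, IsAlgebraic ℚ ((Chebyshev.T ℂ f.natDegree).coeff k) := fun k => by
    rw [← Chebyshev.map_T (Int.castRingHom ℂ), coeff_map]
    exact isAlgebraic_intCast _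
  have Ta : ∀ k, IsAlgebraic ℚ (T.coeff k) := fun k => by
    rcases hT with rfl | rfl | rfl
    · rw [coeff_X_pow]; split_ifs; exacts [isAlgebraic_one, isAlgebraic_zero]
    · exact tc k
    · rw [coeff_neg]; exact (tc k).neg
  have l0 : f.leadingCoeff ≠ 0 := leadingCoeff_ne_zero.2 (ne_zero_of_natDegree_gt hd)
  have aa : IsAlgebraic ℚ a := by
    have d1 : (C a * X + C b).natDegree = 1 := natDegree_linear a0
    have e := leadingCoeff_comp (p := f) (q := C a * X + C b) (by omega)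
    rw [leadingCoeff, natDegree_comp, d1, mul_one, h, leadingCoeff_linear a0, coeff_add,
      coeff_C_mul, coeff_C_of_ne_zero (by omega), add_zero] at e
    obtain ⟨k, hk⟩ : ∃ k, f.natDegree = k + 1 := ⟨_, (Nat.sub_add_cancel (by omega)).symm⟩
    refine IsAlgebraic.of_pow (show 0 < k by omega) (?_ : IsAlgebraic ℚ (a ^ k))
    rw [show a ^ k = T.coeff f.natDegree * f.leadingCoeff⁻¹ by
      rw [hk, pow_succ] at e; rw [hk]; field_simp at e ⊢; linear_combination -e]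
    exact (Ta _).mul (hf _).inv
  have ev : ∀ w, f.eval (a * w + b) = a * T.eval w + b := fun w => by
    simpa [eval_comp] using congrArg (eval w) h
  have ba : IsAlgebraic ℚ b := fix_alg hd hf (aa.mul (Ta 0)) (by
    simpa [coeff_zero_eq_eval_zero] using ev 0)
  set w : ℕ → ℂ := fun n => (z n - b) * a⁻¹ with hw
  have e1 : ∀ n, z n = a * w n + b := fun n => by simp only [hw]; field_simp; ring
  have e2 : ∀ n, w (n + 1) = T.eval (w n) := fun n => by
    have := ev (w n)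
    rw [← e1, ← hz, e1] at this
    exact mul_left_cancel₀ a0 (add_right_cancel this)
  have wa : IsAlgebraic ℚ (w 0) := (h0.sub ba).mul aa.inv
  rcases hT with hT | hT
  · have e3 : ∀ n, w n = w 0 ^ f.natDegree ^ n := fun n => by
      induction n with
      | zero => simp
      | succ n ih => rw [e2, hT, eval_pow, eval_X, ih, ← pow_mul, ← pow_succ]
    refine ⟨a ^ 2, b, w 0, 0, wa, fun e => ?_, fun n => by rw [e1, e3 n]; ring⟩
    obtain ⟨n, hn⟩ := hb
    exact hn (by rw [e1, e1 0, e3 n, e, zero_pow (by positivity)])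
  obtain ⟨θ, hθ⟩ := Complex.cos_surjective (w 0)
  have e3 : ∀ n, w n ^ 2 = Complex.cos ((f.natDegree ^ n : ℕ) * θ) ^ 2 := fun n => by
    induction n with
    | zero => simp [hθ]
    | succ n ih =>
      have e4 : w (n + 1) ^ 2 = (Chebyshev.T ℂ f.natDegree).eval (w n) ^ 2 := by
        rcases hT with hT | hT <;> simp [e2, hT]
      have e5 := Chebyshev.T_complex_cos ((f.natDegree ^ n : ℕ) * θ) f.natDegree
      rw [Int.cast_natCast] at e5
      rw [e4, pow_succ f.natDegree, Nat.cast_mul, mul_comm _ (f.natDegree : ℂ), mul_assoc, ← e5]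
      rcases sq_eq_sq_iff_eq_or_eq_neg.1 ih with e | e
      · rw [e]
      · rw [e, Chebyshev.T_eval_neg, mul_pow]
        rcases Int.units_eq_one_or (f.natDegree : ℤ).negOnePow with e | e <;> simp [e]
  refine ⟨a ^ 2 / 4, b, Complex.exp (θ * Complex.I), 1, ?_, Complex.exp_ne_zero _, fun n => ?_⟩
  · have : (Complex.exp (θ * Complex.I) - w 0) ^ 2 = w 0 ^ 2 - 1 := by
      rw [Complex.exp_mul_I, ← hθ]
      linear_combination -Complex.sin_sq_add_cos_sq θ + Complex.sin θ ^ 2 * Complex.I_sq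
    have := (IsAlgebraic.of_pow two_pos (this ▸ (wa.pow 2).sub isAlgebraic_one)).add wa
    rwa [sub_add_cancel] at this
  · rw [e1, add_sub_cancel_right, mul_pow, e3, ← Complex.exp_neg, ← Complex.exp_nat_mul,
      ← Complex.exp_nat_mul, Complex.cos]
    ring_nf

theorem noTot_of' {g : ℂ[X]} (hd : 2 ≤ g.natDegree)
    (h : ¬ ∃ a b, g = C a * (X - C b) ^ g.natDegree + C b) : NoTot g := by
  intro E hE hne
  by_contra hc
  have hsub : {c | g.eval c ∈ E} ⊆ E := fun c h1 => by_contra fun h2 => hc ⟨c, h1, h2⟩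
  have hg : 0 < g.natDegree := by omega
  have hP := hE.subset hsub
  have him : (fun c => g.eval c) '' {c | g.eval c ∈ E} = E := by
    refine Set.Subset.antisymm ?_ fun v hv => ?_
    · rintro _ ⟨c, h1, rfl⟩
      exact h1
    · obtain ⟨c, rfl⟩ := eval_surj hg v
      exact ⟨c, hv, rfl⟩
  have h1 : E.ncard ≤ {c | g.eval c ∈ E}.ncard := by
    conv_lhs => rw [← him]
    exact Set.ncard_image_le hP
  have heq : {c | g.eval c ∈ E} = E := Set.eq_of_subset_of_ncard_le hsub h1 hE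
  have hinj : Set.InjOn (fun c => g.eval c) {c | g.eval c ∈ E} :=
    Set.injOn_of_ncard_image_eq (by rw [him, heq]) hP
  have hem : ∀ c, g.eval c ∈ E → g = C g.leadingCoeff * (X - C c) ^ g.natDegree + C (g.eval c) := by
    intro c h2
    refine em_top hg ?_
    rw [em, ← count_roots, ← natDegree_sub_C (a := g.eval c), ← IsAlgClosed.card_roots_eq_natDegree]
    refine Multiset.count_eq_card.2 fun r hr => ?_
    have h3 : g.eval r = g.eval c := by
      have := isRoot_of_mem_roots hr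
      rwa [IsRoot, eval_sub, eval_C, sub_eq_zero] at this
    exact hinj h2 (show g.eval r ∈ E from h3 ▸ h2) h3.symm
  obtain ⟨c, h2⟩ := hne
  have h3 : g.eval c ∈ E := (Set.ext_iff.1 heq c).2 h2
  have h4 : g.eval (g.eval c) ∈ E := (Set.ext_iff.1 heq _).2 h3
  have h5 := hem c h3
  have h6 := hem _ h4
  have h7 : g.eval c = c := by
    obtain ⟨e, he⟩ : ∃ e, g.natDegree = e + 1 + 1 := ⟨g.natDegree - 2, by omega⟩
    have hl : g.leadingCoeff ≠ 0 := leadingCoeff_ne_zero.2 (ne_zero_of_natDegree_gt hg)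
    have h8 := congrArg (fun q => (derivative q).eval (g.eval c)) (h5.symm.trans h6)
    simp only [he, dsa2_der, eval_mul, eval_C, eval_pow, eval_sub, eval_X, sub_self,
      zero_pow (Nat.succ_ne_zero e), mul_zero] at h8
    have h9 : ((e + 1 : ℕ) : ℂ) + 1 ≠ 0 := Nat.cast_add_one_ne_zero _
    exact sub_eq_zero.1 (pow_eq_zero_iff (Nat.succ_ne_zero e) |>.1
      ((mul_eq_zero.1 ((mul_eq_zero.1 h8).resolve_left hl)).resolve_left h9))
  rw [h7] at h5
  exact h ⟨_, _, h5⟩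

theorem real_pow {d : ℕ} (hd : 2 ≤ d) {z : ℕ → ℂ} {u ρ : ℂ} (hρ : ρ ≠ 0) (hu : u ≠ 0)
    (hz : Tendsto (fun n => z n * (u ^ d ^ n)⁻¹) atTop (𝓝 1)) (h : ∀ n, (ρ * z n).im = 0) :
    ∃ e, 0 < e ∧ u ^ e = (starRingEnd ℂ) u ^ e := by
  have c := (Complex.continuous_conj.tendsto _).comp (hz.const_mul ρ)
  have c0 : (starRingEnd ℂ) (ρ * 1) ≠ 0 := by simpa using hρ
  refine rel_of_tend hd (div_ne_zero c0 (by simpa using hρ : ρ * 1 ≠ 0)) (by simpa using hu)
    ((c.div (hz.const_mul ρ) (by simpa using hρ)).congr' ?_)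
  filter_upwards [hz.eventually_ne one_ne_zero] with n hn
  have e := Complex.conj_eq_iff_im.2 (h n)
  have z0 := left_ne_zero_of_mul hn
  have w0 := pow_ne_zero (d ^ n) hu
  simp only [Function.comp, Pi.div_apply, ← mul_assoc, map_mul _ (ρ * z n), e, map_inv₀, map_pow]
  field_simp

theorem real_pw {d : ℕ} (hd : 2 ≤ d) {a b u ρ : ℂ} (hρ : ρ ≠ 0) (ha : a ≠ 0) (hu : u ≠ 0)
    (h : ∀ n, (ρ * (b + a * u ^ d ^ n)).im = 0) : ∃ e, 0 < e ∧ u ^ e = (starRingEnd ℂ) u ^ e := by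
  have e1 : ∀ n, (ρ * a * u ^ d ^ n).im = -(ρ * b).im := fun n => by
    have := h n
    rw [mul_add, Complex.add_im, ← mul_assoc] at this
    linarith
  rcases lt_trichotomy ‖u‖ 1 with c | c | c
  · have t := (Complex.continuous_im.tendsto _).comp ((tend_ppC c hd).const_mul (ρ * a))
    have e2 : -(ρ * b).im = 0 := by
      simpa using tendsto_nhds_unique (tendsto_const_nhds.congr fun n => (e1 n).symm) t
    exact real_pow hd (z := fun n => u ^ d ^ n) (mul_ne_zero hρ ha) hu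
      (tendsto_const_nhds.congr fun n => (mul_inv_cancel₀ (pow_ne_zero _ hu)).symm)
      fun n => (e1 n).trans e2
  · have fin : (Set.range fun n => (ρ * a * u ^ d ^ n).re).Finite := by
      refine (Set.toFinite {(ρ * a * u).re, -(ρ * a * u).re}).subset ?_
      rintro _ ⟨n, rfl⟩
      have e2 : ‖ρ * a * u ^ d ^ n‖ ^ 2 = ‖ρ * a * u‖ ^ 2 := by simp [c]
      have e3 := e1 0
      rw [pow_zero, pow_one] at e3
      rw [Complex.sq_norm, Complex.sq_norm, Complex.normSq_apply, Complex.normSq_apply, e1, e3,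
        add_left_inj] at e2
      exact mul_self_eq_mul_self_iff.1 e2
    obtain ⟨m, n, hmn, e⟩ : ∃ m n, m < n ∧ (ρ * a * u ^ d ^ m).re = (ρ * a * u ^ d ^ n).re := by
      by_contra! hn
      exact Set.infinite_range_of_injective (Function.Injective.of_lt_imp_ne hn) fin
    have e2 := mul_left_cancel₀ (mul_ne_zero hρ ha) (Complex.ext e ((e1 m).trans (e1 n).symm))
    obtain ⟨k, hk⟩ := Nat.exists_eq_add_of_lt (Nat.pow_lt_pow_right (show 1 < d by omega) hmn)
    rw [hk, add_assoc, pow_add, left_eq_mul₀ (pow_ne_zero _ hu)] at e2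
    exact ⟨k + 1, k.succ_pos, by rw [← map_pow, e2, map_one]⟩
  · refine real_pow hd (z := fun n => a⁻¹ * (b + a * u ^ d ^ n)) (mul_ne_zero hρ ha) hu ?_
      fun n => by rw [mul_assoc, mul_inv_cancel_left₀ ha, h]
    have := ((dsb4_inv c hd).const_mul (a⁻¹ * b)).add_const 1
    rw [mul_zero, zero_add] at this
    exact this.congr fun n => by field_simp

end Pool.Agent.P.MP_68214b_ag.DS
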