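import Pool.Agent.P.MP_68214b_ag.DSD2
import Pool.Agent.P.MP_68214b_ag.DSD6
import Pool.Agent.P.MP_68214b_ag.DSP7

open Polynomial Filter Asymptotics NumberField Topology

namespace Pool.Agent.P.MP_68214b_ag.DS

theorem Orb.map {K L : Type*} [Field K] [Field L] {f : K[X]} {x : ℕ → K} (h : Orb f x)
    (c : K →+* L) : Orb (f.map c) fun n => c (x n) := by
  refine ⟨h.monic.map c, by rw [natDegree_map]; exact h.deg, fun n => ?_⟩
  rw [h.step, eval_map, eval₂_at_apply]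

theorem Esc.map {K L : Type*} [Field K] [Field L] {σ : K →+* ℂ} {d : ℕ} {x : ℕ → K}
    {p : PowerSeries K} {u : ℂ} (h : Esc σ d x p u) {c : K →+* L} {σ' : L →+* ℂ}
    (hc : ∀ y, σ' (c y) = σ y) : Esc σ' d (fun n => c (x n)) (PowerSeries.map c p) u := by
  refine ⟨h.one_lt, ?_, fun T => ?_⟩
  · rw [← PowerSeries.coeff_zero_eq_constantCoeff_apply, PowerSeries.coeff_map,
      PowerSeries.coeff_zero_eq_constantCoeff_apply, h.c0, map_one]
  · have e : PowerSeries.map σ' (PowerSeries.map c p) = PowerSeries.map σ p := by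
      ext k
      simp only [PowerSeries.coeff_map, hc]
    simpa only [e, hc] using h.app T

theorem pw_orb {K : Type*} [Field K] {A : K} (hA : IsIntegral ℤ A) {d : ℕ} (hd : 2 ≤ d) :
    Orb (X ^ d) fun n => A ^ d ^ n :=
  ⟨monic_X_pow d, by rwa [natDegree_X_pow], fun n => by rw [eval_pow, eval_X, ← pow_mul, pow_succ]⟩

theorem pw_esc {K : Type*} [Field K] (σ : K →+* ℂ) {A : K} (hA : 1 < ‖σ A‖) (d : ℕ) :
    Esc σ d (fun n => A ^ d ^ n) 1 (σ A) := by
  have A0 : σ A ≠ 0 := norm_pos_iff.1 (one_pos.trans hA)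
  refine ⟨hA, map_one _, fun T => ?_⟩
  unfold As
  simp only [map_pow, map_one, mul_inv_cancel₀ (pow_ne_zero _ A0)]
  cases T with
  | zero => simpa using isBigO_refl (fun _ => (1 : ℂ)) _
  | succ T => simpa using isBigO_zero _ _

theorem pw_bott {K : Type*} [Field K] {d : ℕ} (hd : 2 ≤ d) : Bott (X ^ d : K[X]) 1 := by
  unfold Bott
  rw [natDegree_X_pow, ex_eq (by omega), map_one, Finset.sum_eq_single d (fun j _ h => by
    simp [coeff_X_pow, h]) (by simp)]
  simp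

theorem dsd7_den {α : ℂ} (h : IsAlgebraic ℚ α) (h0 : α ≠ 0) :
    ∃ N : ℕ, 2 ≤ N ∧ IsIntegral ℤ (N * α) ∧ 1 < ‖N * α‖ := by
  obtain ⟨N, N0, hN⟩ := ((IsFractionRing.isAlgebraic_iff ℤ ℚ ℂ).2 h).exists_integral_multiple
  obtain ⟨k, hk⟩ := exists_nat_gt (max 2 ‖α‖⁻¹)
  have a0 := norm_pos_iff.2 h0
  have n1 : 1 ≤ N.natAbs := Int.natAbs_pos.2 N0
  have k2 : 2 < k := by exact_mod_cast (le_max_left _ _).trans_lt hk
  refine ⟨k * N.natAbs, by nlinarith, ?_, ?_⟩
  · rw [Nat.cast_mul, mul_assoc]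
    refine (isIntegral_natCast k).mul ?_
    rw [zsmul_eq_mul] at hN
    rcases Int.natAbs_eq N with e | e
    · rwa [← Int.cast_natCast, ← e]
    · rw [← Int.cast_natCast, show (N.natAbs : ℤ) = -N by omega, Int.cast_neg, neg_mul]
      exact hN.neg
  · have := (inv_lt_iff_one_lt_mul₀ a0).1 ((le_max_right _ _).trans_lt hk)
    rw [norm_mul, Complex.norm_natCast, Nat.cast_mul]
    have : (1 : ℝ) ≤ N.natAbs := by exact_mod_cast n1
    nlinarith [mul_le_mul_of_nonneg_left this (mul_pos (Nat.cast_pos.2 (by omega : 0 < k)) a0).le]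

theorem rel_nat {N : ℕ} (hN : 2 ≤ N) : ¬ Rel (N : ℂ) ((N * (N + 1) : ℕ) : ℂ) := by
  rintro ⟨a, b, -, hb, h⟩
  have e : N ^ a = (N * (N + 1)) ^ b := by exact_mod_cast h
  have := (Nat.Coprime.pow_right a (show (N + 1).Coprime N by simp)).eq_one_of_dvd
    (e ▸ (dvd_mul_left _ N).trans (dvd_pow_self _ hb.ne'))
  omega

theorem rel_mul {u v : ℂ} (hu : 1 < ‖u‖) (hv : 1 < ‖v‖) (h : Rel u (v * u)) : Rel u v := by
  obtain ⟨a, b, ha, hb, h⟩ := h
  have u0 : u ≠ 0 := norm_pos_iff.1 (one_pos.trans hu)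
  have lt : b < a := by
    by_contra! hn
    have h1 := congrArg norm h
    rw [mul_pow, norm_mul, norm_pow, norm_pow, norm_pow] at h1
    nlinarith [pow_le_pow_right₀ hu.le hn, one_lt_pow₀ hv hb.ne', pow_pos (one_pos.trans hu) b]
  obtain ⟨k, rfl⟩ := Nat.exists_eq_add_of_lt lt
  refine ⟨k + 1, b, k.succ_pos, hb, mul_right_cancel₀ (pow_ne_zero b u0) ?_⟩
  rw [← mul_pow, ← h]
  ring

variable {K : Type} [Field K] [NumberField K]

theorem ext_K (σ : K →+* ℂ) {α : ℂ} (h : IsAlgebraic ℚ α) :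
    ∃ (L : IntermediateField ℚ ℂ) (ι : K →+* L), FiniteDimensional ℚ L ∧ α ∈ L ∧
      ∀ y, algebraMap L ℂ (ι y) = σ y := by
  classical
  let b := Module.finBasis ℚ K
  obtain ⟨L, h1, -, h2⟩ := exists_K (insert α (Finset.univ.image fun i => σ (b i))) (by
    simp only [Finset.mem_insert, Finset.mem_image]
    rintro z (rfl | ⟨i, -, rfl⟩)
    exacts [h.isIntegral, (alg_emb σ _).isIntegral])
  refine ⟨L, σ.codRestrict L fun y => ?_, h1, h2 _ (by simp), fun y => rfl⟩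
  rw [← b.sum_repr y, map_sum]
  refine sum_mem fun i _ => ?_
  rw [Rat.smul_def, map_mul, map_ratCast]
  exact mul_mem (SubfieldClass.ratCast_mem L _) (h2 _ (by simp))

theorem st_aux {J : Type} [Fintype J] {σ : K →+* ℂ} {d : ℕ} {f : J → K[X]} {x : J → ℕ → K}
    {p : J → PowerSeries K} {u : J → ℂ} (hO : ∀ i, Orb (f i) (x i)) (hN : ∀ i, NSa (f i))
    (hd2 : 2 ≤ d) (hd : ∀ i, (f i).natDegree = d) (hE : ∀ i, Esc σ d (x i) (p i) (u i)) {α : ℂ}
    (hα : IsAlgebraic ℚ α) {N : ℕ} (h2 : 2 ≤ N) (hi : IsIntegral ℤ (N * α)) (h1 : 1 < ‖N * α‖)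
    (μ : J ⊕ Bool → ℤ) (hμ : μ ≠ 0)
    (h : ∏ i, Sum.elim u (fun b => cond b (N * α) N) i ^ μ i = 1) : ∃ i j, i ≠ j ∧ μ i ≠ 0 ∧
      μ j ≠ 0 ∧ Rel (Sum.elim u (fun b => cond b (N * α) N) i)
        (Sum.elim u (fun b => cond b (N * α) N) j) := by
  classical
  obtain ⟨L, ι, hL, hm, hι⟩ := ext_K σ hα
  have : NumberField L := ⟨⟩
  set A : Bool → L := fun b => cond b (N * ⟨α, hm⟩) N with hA
  have eA : ∀ b, algebraMap L ℂ (A b) = cond b (N * α) N := by rintro (_ | _) <;> simp [hA]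
  have iA : ∀ b, IsIntegral ℤ (A b) := fun b =>
    (isIntegral_algHom_iff (algebraMap L ℂ).toIntAlgHom (algebraMap L ℂ).injective).1 (by
      change IsIntegral ℤ (algebraMap L ℂ (A b))
      rw [eA]
      cases b
      exacts [isIntegral_natCast N, hi])
  have nA : ∀ b, 1 < ‖algebraMap L ℂ (A b)‖ := fun b => by
    rw [eA]
    cases b
    exacts [by simpa using show 1 < N from h2, h1]
  obtain ⟨i0, h0⟩ := Function.ne_iff.1 hμ
  obtain ⟨i, j, hij, hr⟩ := st (J := {i // μ i ≠ 0}) (σ := algebraMap L ℂ) (d := d)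
    (f := fun i => Sum.elim (fun i => (f i).map ι) (fun _ => X ^ d) i.1)
    (x := fun i => Sum.elim (fun i n => ι (x i n)) (fun b n => A b ^ d ^ n) i.1)
    (p := fun i => Sum.elim (fun i => PowerSeries.map ι (p i)) (fun _ => 1) i.1)
    (u := fun i => Sum.elim u (fun b => cond b (N * α) N) i.1)
    (by rintro ⟨i | i, -⟩; exacts [(hO i).map ι, pw_orb (iA i) hd2])
    (by
      have n : ∀ i, NSa ((f i).map ι) := fun i s => by rw [Polynomial.map_map]; exact hN i _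
      rintro ⟨i | i, hi⟩ ⟨j | j, hj⟩ ⟨k | k, hk⟩ a b c
      all_goals first
        | exact Or.inl (n _) | exact Or.inr (Or.inl (n _)) | exact Or.inr (Or.inr (n _))
        | cases i <;> cases j <;> cases k <;>
            first | exact absurd rfl a | exact absurd rfl b | exact absurd rfl c)
    (by rintro ⟨i | i, -⟩; exacts [(natDegree_map ι).trans (hd i), natDegree_X_pow d])
    (by rintro ⟨i | i, -⟩; exacts [(hE i).map hι, by simpa only [eA, Sum.elim_inr] using pw_esc _ (nA i) d])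
    (fun i => μ i) (fun e => h0 (congrFun e ⟨i0, h0⟩)) (by
      rw [← Finset.prod_subtype (Finset.univ.filter fun i => μ i ≠ 0) (by simp)
        fun i => Sum.elim u (fun b => cond b (N * α) N) i ^ μ i,
        Finset.prod_filter_of_ne (p := fun i => μ i ≠ 0) fun i _ hi e => hi (by rw [e, zpow_zero]), h])
  exact ⟨i, j, Subtype.coe_ne_coe.2 hij, i.2, j.2, hr⟩

theorem NSa.trans {σ : K →+* ℂ} {f : K[X]} {x : ℕ → K} {p : PowerSeries K} {u : ℂ} (hN : NSa f)
    (hO : Orb f x) (hE : Esc σ f.natDegree x p u) : ¬ IsAlgebraic ℚ u := fun h => by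
  have u0 : u ≠ 0 := norm_pos_iff.1 (one_pos.trans hE.one_lt)
  have key : ∀ N : ℕ, 2 ≤ N → IsIntegral ℤ (N * u) → Rel u N := fun N h2 hi => by
    have n1 : 1 < ‖(N : ℂ)‖ := by simpa using show 1 < N from h2
    obtain ⟨i, j, a, -, -, b⟩ := st_aux (J := Unit) (fun _ => hO) (fun _ => hN) hO.deg
      (fun _ => rfl) (fun _ => hE) h h2 hi (by rw [norm_mul]; nlinarith [hE.one_lt])
      (Sum.elim 1 fun b => cond b (-1) 1) (fun e => by simpa using congrFun e (.inl ())) (by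
        have : (N : ℂ) ≠ 0 := norm_pos_iff.1 (one_pos.trans n1)
        simp [Fintype.prod_sum_type]
        field_simp)
    have r1 := rel_mul hE.one_lt n1
    have r2 : Rel N (N * u) → Rel u N := fun e => (rel_mul n1 hE.one_lt (mul_comm u N ▸ e)).symm
    rcases i with i | _ | _ <;> rcases j with j | _ | _
    all_goals first
      | exact absurd rfl a | exact b | exact b.symm | exact r1 b | exact r1 b.symm | exact r2 b
      | exact r2 b.symm
  obtain ⟨N, h2, hi, -⟩ := dsd7_den h u0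
  refine rel_nat h2 ((key N h2 hi).symm.trans (key _ (by nlinarith) ?_))
  rw [Nat.cast_mul, mul_right_comm]
  exact hi.mul (isIntegral_natCast _)

theorem stA {J : Type} [Fintype J] {σ : K →+* ℂ} {d : ℕ} {f : J → K[X]} {x : J → ℕ → K}
    {p : J → PowerSeries K} {u : J → ℂ} (hO : ∀ i, Orb (f i) (x i)) (hN : ∀ i, NSa (f i))
    (hd : ∀ i, (f i).natDegree = d) (hE : ∀ i, Esc σ d (x i) (p i) (u i)) (μ : J → ℤ) (hμ : μ ≠ 0)
    (h : IsAlgebraic ℚ (∏ i, u i ^ μ i)) : ∃ i j, i ≠ j ∧ Rel (u i) (u j) := by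
  obtain ⟨i0, h0⟩ := Function.ne_iff.1 hμ
  have α0 : ∏ i, u i ^ μ i ≠ 0 := Finset.prod_ne_zero_iff.2 fun i _ =>
    zpow_ne_zero _ (norm_pos_iff.1 (one_pos.trans (hE i).one_lt))
  obtain ⟨N, h2, hi, h1⟩ := dsd7_den h α0
  have N0 : (N : ℂ) ≠ 0 := Nat.cast_ne_zero.2 (by omega)
  set α := ∏ i, u i ^ μ i with hα
  obtain ⟨k, e, k0, e1, e2⟩ : ∃ (k : ℕ) (e : Bool → ℤ), 0 < k ∧
      α ^ k * ((N * α) ^ e true * N ^ e false) = 1 ∧ (e true ≠ 0 → ¬ Rel (N * α) N) := by
    by_cases c : Rel (N * α) N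
    · obtain ⟨a, b, ha, -, c⟩ := c
      refine ⟨a, fun t => cond t 0 (a - b), ha, ?_, by simp⟩
      simp only [cond_true, cond_false, zpow_zero, one_mul, zpow_sub₀ N0, zpow_natCast, ← c, mul_pow]
      field_simp
    · exact ⟨1, fun t => cond t (-1) 1, one_pos, by simp; field_simp, fun _ => c⟩
  have al : ∀ b : Bool, IsAlgebraic ℚ (cond b (N * α) N : ℂ) := by
    rintro (_ | _)
    exacts [isAlgebraic_natCast N, (isAlgebraic_natCast N).mul h]
  have tr : ∀ i v, IsAlgebraic ℚ v → ¬ Rel (u i) v := fun i v hv ⟨a, b, ha, _, e⟩ =>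
    (hN i).trans (hO i) (hd i ▸ hE i) (IsAlgebraic.of_pow ha (e ▸ hv.pow b))
  obtain ⟨i, j, a, b, c, r⟩ := st_aux hO hN (hd i0 ▸ (hO i0).deg) hd hE h h2 hi h1
    (Sum.elim (fun i => μ i * k) e)
    (fun e => mul_ne_zero h0 (Int.natCast_ne_zero.2 k0.ne') (congrFun e (.inl i0))) (by
      simp only [Fintype.prod_sum_type, Sum.elim_inl, Sum.elim_inr, zpow_mul, zpow_natCast,
        Finset.prod_pow, Fintype.prod_bool, cond_true, cond_false]
      exact e1)
  rcases i with i | i <;> rcases j with j | j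
  · exact ⟨i, j, fun e => a (congrArg _ e), r⟩
  · exact absurd r (tr i _ (al j))
  · exact absurd r.symm (tr j _ (al i))
  · cases i <;> cases j
    exacts [absurd rfl a, absurd r.symm (e2 c), absurd r (e2 b), absurd rfl a]

theorem near_alg {γ β : ℂ} (hγ : IsAlgebraic ℚ γ) (h1 : ‖γ‖ = 1) (β0 : β ≠ 0)
    (hβ : IsAlgebraic ℚ β) {d : ℕ} (hd : 2 ≤ d) {C l : ℝ} (l0 : 0 ≤ l) (l1 : l < 1)
    (h : ∃ᶠ n in atTop, ‖γ ^ d ^ n - β‖ ≤ C * l ^ d ^ n) : ∃ k, 0 < k ∧ γ ^ k = 1 := by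
  obtain ⟨N, h2, hi, n1⟩ := dsd7_den hγ (by rintro rfl; simp at h1)
  obtain ⟨L, -, hL, hm, -⟩ := ext_K (algebraMap ℚ ℂ) hγ
  have : NumberField L := ⟨⟩
  have N0 : (N : ℂ) ≠ 0 := Nat.cast_ne_zero.2 (by omega)
  have eA : algebraMap L ℂ (N * ⟨γ, hm⟩) = N * γ := by simp
  have eB : algebraMap L ℂ N = N := map_natCast _ _
  have e1 := pw_esc (algebraMap L ℂ) (eA ▸ n1) d
  have e2 := pw_esc (algebraMap L ℂ) (A := N) (by simpa using show 1 < N from h2) d
  obtain ⟨a, b, ha, -, e⟩ := be hd e1 e2 (pt (pw_orb ((isIntegral_algHom_iff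
    (algebraMap L ℂ).toIntAlgHom (algebraMap L ℂ).injective).1 (by
      change IsIntegral ℤ (algebraMap L ℂ _)
      rwa [eA])) hd) (pw_orb (isIntegral_natCast N) hd) (natDegree_X_pow d) (natDegree_X_pow d)
    (pw_bott hd) (pw_bott hd) e1 e2 one_pos one_pos β0 hβ (C := C) l0 l1 (h.mono fun n hn => by
      rwa [eA, eB, pow_one, pow_one, ← div_pow, mul_div_cancel_left₀ _ N0]))
  rw [eA, eB] at e
  have := congrArg norm e
  rw [norm_pow, norm_pow, norm_mul, h1, mul_one, Complex.norm_natCast] at this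
  obtain rfl : a = b := pow_right_injective₀ (by positivity) (by norm_cast; omega) this
  exact ⟨a, ha, mul_left_cancel₀ (pow_ne_zero a N0) (by rw [← mul_pow, e, mul_one])⟩

theorem unb_of_dep (σ : K →+* ℂ) {g : K[X]} {x y : ℕ → K} {p : PowerSeries K} {u : ℂ}
    (hO : Orb g y) (hN : NoTot (g.map σ)) (hE : Esc σ g.natDegree x p u) (h : Dep y x)
    (hb : Bdd σ y) : Alg0 y := by
  obtain ⟨G, G0, hG⟩ := h
  obtain ⟨B, hB⟩ := hb
  have u0 : u ≠ 0 := norm_pos_iff.1 (one_pos.trans hE.one_lt)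
  have e1 := (hE.tendsto hO.deg).eventually_ge_atTop 1
  have t1 : (fun n => (σ (x n))⁻¹) =O[atTop] fun n => ‖u‖⁻¹ ^ g.natDegree ^ n := by
    have := (((hE.lim hO.deg).inv₀ one_ne_zero).isBigO_one ℝ).mul
      (isBigO_refl (fun n => (u ^ g.natDegree ^ n)⁻¹) atTop).norm_right
    refine this.congr (fun n => by field_simp) fun n => by simp
  have t2 : (fun n => -∑ j ∈ Finset.range G.natDegree, ((G.coeff j).map σ).eval (σ (y n)) *
      (σ (x n))⁻¹ ^ (G.natDegree - j)) =O[atTop] fun n => (σ (x n))⁻¹ := by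
    refine (IsBigO.fun_sum fun j hj => ?_).neg_left
    have a := poly_bigO (𝓕 := atTop) ((G.coeff j).map σ) (z := fun n => σ (y n)) (B := fun _ => 1)
      (fun _ => le_rfl) (IsBigO.of_bound B (.of_forall fun n => by simpa using hB n))
    have b : (fun n => (σ (x n))⁻¹ ^ (G.natDegree - j)) =O[atTop] fun n => ‖(σ (x n))⁻¹‖ :=
      IsBigO.of_bound' (e1.mono fun n hn => by
        rw [norm_pow, norm_norm]
        exact pow_le_of_le_one (norm_nonneg _) (by rw [norm_inv]; exact inv_le_one_of_one_le₀ hn)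
          (by have := Finset.mem_range.1 hj; omega))
    simpa only [one_pow, one_mul, isBigO_norm_right] using a.mul b
  obtain ⟨C, hC⟩ := (t2.trans t1).bound
  refine sl σ hO hN (leadingCoeff_ne_zero.2 G0) (C := C) (by positivity)
    (inv_lt_one_of_one_lt₀ hE.one_lt) ((hC.and (hG.and e1)).mono fun n ⟨a, b, c⟩ => ?_).frequently
  have x0 : σ (x n) ≠ 0 := norm_pos_iff.1 (one_pos.trans_le c)
  refine le_trans (le_of_eq (congrArg norm ?_)) (a.trans (by rw [Real.norm_of_nonneg (by positivity)]))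
  have b' := congrArg σ b
  rw [evalEval, eval_eq_sum_range (p := G), eval_finsetSum, Finset.sum_range_succ, map_add, map_sum, map_zero,
    add_comm, ← eq_neg_iff_add_eq_zero] at b'
  simp only [eval_mul, eval_pow, eval_C, map_mul, map_pow] at b'
  rw [leadingCoeff, ← mul_left_inj' (pow_ne_zero G.natDegree x0), b', neg_mul, Finset.sum_mul]
  refine congrArg _ (Finset.sum_congr rfl fun j hj => ?_)
  obtain ⟨k, hk⟩ := Nat.exists_eq_add_of_le (Finset.mem_range.1 hj).le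
  rw [eval_map, eval₂_at_apply, hk, Nat.add_sub_cancel_left, inv_pow]
  field_simp
  ring

end Pool.Agent.P.MP_68214b_ag.DS
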