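import Pool.Agent.P.MP_68214b_ag.DSD5

open Polynomial Filter Asymptotics NumberField Topology

namespace Pool.Agent.P.MP_68214b_ag.DS

/-- real up to a constant factor -/
def RlS (z : ℕ → ℂ) : Prop := ∃ ρ : ℂ, ρ ≠ 0 ∧ ∀ n, (ρ * z n).im = 0

variable {K : Type} [Field K] [NumberField K]

theorem dsd8_data (σ : K →+* ℂ) {f : K[X]} {x : ℕ → K} (hO : Orb f x) :
    ∃ (U : ℂ) (p : PowerSeries K), U ≠ 0 ∧ (¬ Bdd σ x → Bott f p ∧ Esc σ f.natDegree x p U) ∧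
      (Bdd σ x → IsAlgebraic ℚ U) ∧
      (Bdd σ x → ¬ Alg0 x → Pw f.natDegree (fun n => σ (x n)) → ∃ a b : algebraicClosure ℚ ℂ,
        (a : ℂ) ≠ 0 ∧ ∀ n, σ (x n) = b + a * U ^ f.natDegree ^ n) ∧
      (Bdd σ x → (Alg0 x ∨ ¬ Pw f.natDegree fun n => σ (x n)) → U = 1) := by
  by_cases b : Bdd σ x
  swap
  · obtain ⟨p, u, h1, h2⟩ := bl hO σ b
    exact ⟨u, p, norm_pos_iff.1 (one_pos.trans h2.one_lt), fun _ => ⟨h1, h2⟩, fun e => absurd e b,
      fun e => absurd e b, fun e => absurd e b⟩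
  by_cases c : Alg0 x ∨ ¬ Pw f.natDegree fun n => σ (x n)
  · exact ⟨1, 1, one_ne_zero, fun e => absurd b e, fun _ => isAlgebraic_one,
      fun _ e1 e2 => absurd e2 (c.resolve_left e1), fun _ _ => rfl⟩
  obtain ⟨c1, a, b', v, h1, h2, h3, h⟩ := by simpa only [not_or, not_not] using c
  have key : a * v ≠ 0 := fun e => c1 ⟨X - C (x 0), X_sub_C_ne_zero _, .of_forall fun n => by
    have d2 := hO.deg
    have e1 : ∀ n, σ (x n) = b' := fun n => by
      obtain ⟨k, hk⟩ := Nat.exists_eq_succ_of_ne_zero (show f.natDegree ^ n ≠ 0 by positivity)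
      refine (h n).trans ?_
      rw [hk, pow_succ', ← mul_assoc, e, zero_mul, add_zero]
    rw [eval_sub, eval_X, eval_C, σ.injective ((e1 n).trans (e1 0).symm), sub_self]⟩
  exact ⟨v, 1, right_ne_zero_of_mul key, fun e => absurd b e, fun _ => h3, fun _ _ _ =>
    ⟨⟨a, mem_algebraicClosure_iff.2 h1⟩, ⟨b', mem_algebraicClosure_iff.2 h2⟩,
      left_ne_zero_of_mul key, h⟩, fun _ e => absurd e c⟩

theorem coreG (hK : Cj K) (σ : K →+* ℂ) {c : K →+* K}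
    (hc : ∀ y, σ (c y) = (starRingEnd ℂ) (σ y)) {J : Type} [Fintype J] {d : ℕ} (hd2 : 2 ≤ d)
    {f : J → K[X]} {x : J → ℕ → K} (hO : ∀ i, Orb (f i) (x i)) (hd : ∀ i, (f i).natDegree = d)
    (hD : Dom x) (E B : Finset J) (hw : E.card + 2 * B.card ≤ 3) (F : J → Prop)
    (h : ∀ i, Alg0 (x i) ∨ i ∈ B ∨ F i ∨ (NSa (f i) ∧ ¬ Bdd σ (x i)))
    (h2 : ∀ i j, i ≠ j → (Bdd σ (x i) ∨ SpF d fun n => σ (x i n)) ∨
      (Bdd σ (x j) ∨ SpF d fun n => σ (x j n)) ∨ (j ∈ E ∨ j ∈ B) ∨ SepG c (x i) (x j))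
    (hF : (∀ i, F i → RlS (fun n => σ (x i n)) ∧ (¬ Bdd σ (x i) ∨ Pw d fun n => σ (x i n))) ∨
      ((∀ i j, F i → F j → i = j) ∧ ∀ i, F i → ¬ Bdd σ (x i) ∧ SpF d fun n => σ (x i n)))
    {P : MvPolynomial J K} (hP : ∃ᶠ n in atTop, MvPolynomial.eval (fun i => x i n) P = 0) :
    Van x P := by
  classical
  choose U p U0 hE hA hP1 hP2 using fun i => dsd8_data σ (hO i)
  simp only [hd] at hE hP1 hP2
  obtain ⟨ω, ζ, t, ht, hω, hi⟩ := exists_log U U0
  set Γ := Submodule.span ℚ (Set.range ω) with hΓ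
  have mΓ : ∀ i, ω i ∈ Γ := fun i => Submodule.subset_span ⟨_, rfl⟩
  have st : ∀ i n, σ (x i (n + 1)) = ((f i).map σ).eval (σ (x i n)) := fun i n => by
    rw [(hO i).step, eval_map, eval₂_at_apply]
  have ca : ∀ i k, IsAlgebraic ℚ (((f i).map σ).coeff k) := fun i k => by
    rw [coeff_map]; exact alg_emb σ _
  have dσ : ∀ i, ((f i).map σ).natDegree = d := fun i => (natDegree_map σ).trans (hd i)
  have B1 : ∀ i ∈ B, ∀ j ∈ B, i = j := Finset.card_le_one.1 (by omega)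
  set B0 : J → Prop := fun i => Bdd σ (x i) ∧ ¬ Alg0 (x i) ∧ ¬ Pw d fun n => σ (x i n) with hB0
  have mB : ∀ i, B0 i → i ∈ B := fun i ⟨a, b, e⟩ => by
    rcases h i with h | h | h | h
    exacts [absurd h b, h, hF.elim (fun g => (g i h).2.elim (absurd a) (absurd · e))
      fun g => absurd a (g.2 i h).1, absurd a h.2]
  have w0 : ∀ i, U i = 1 → ω i = 0 := fun i e => by
    have := log_inj hi ((t : ℚ) • ω i) (Γ.smul_mem _ (mΓ i)) (by
      simpa [e, Rat.smul_def] using (log_pow (hω i) 1).symm)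
    simpa [ht.ne'] using this
  have rl : ∀ i, ¬ Bdd σ (x i) → RlS (fun n => σ (x i n)) →
      ∃ e, 0 < e ∧ U i ^ e = (starRingEnd ℂ) (U i) ^ e := fun i b ⟨ρ, ρ0, r⟩ =>
    real_pow hd2 ρ0 (U0 i) ((hE i b).2.lim hd2) r
  have sa : ∀ i, ¬ Bdd σ (x i) → SpF d (fun n => σ (x i n)) → IsAlgebraic ℚ (U i) := fun i b s =>
    s.alg hd2 (hE i b).2.one_lt ((hE i b).2.lim hd2)
  have ub : ∀ i : {i // ¬ IsAlgebraic ℚ (U i)}, ¬ Bdd σ (x i) := fun i b => i.2 (hA i b)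
  have ns : ∀ i : {i // ¬ IsAlgebraic ℚ (U i)}, NSa (f i) := fun i =>
    ns_all σ (hO i).deg fun s => i.2 (sa i (ub i) (dσ i ▸ spf_of (dσ i ▸ hd2) (ca i) s
      (alg_emb σ _) (st i) (by_contra fun e => ub i ⟨‖σ (x i 0)‖, fun n =>
        (congrArg norm (not_not.1 (not_exists.1 e n))).le⟩)))
  set ΓT := Submodule.span ℚ (Set.range fun i : {i // ¬ IsAlgebraic ℚ (U i)} => ω i) with hT
  set ΓS := Submodule.span ℚ (Set.range fun i : {i // IsAlgebraic ℚ (U i)} => ω i) with hS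
  have leT : ΓT ≤ Γ := Submodule.span_mono (by rintro _ ⟨i, rfl⟩; exact ⟨i, rfl⟩)
  have leS : ΓS ≤ Γ := Submodule.span_mono (by rintro _ ⟨i, rfl⟩; exact ⟨i, rfl⟩)
  have alS : ΓS ≤ algLog := Submodule.span_le.2 (by
    rintro _ ⟨i, rfl⟩
    refine IsAlgebraic.of_pow ht ?_
    have := i.2.pow (1 * t)
    rwa [log_pow (hω i), Nat.cast_one, one_mul, Complex.exp_nat_mul] at this)
  have dec : ∀ w ∈ Γ, w.re = 0 → ∃ a ∈ ΓS, ∃ b ∈ ΓT, a + b = w ∧ (b.re : ℂ) ∈ algLog :=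
    fun w hw h0 => by
      obtain ⟨a, ha, b, hb, rfl⟩ := Submodule.mem_sup.1 ((Submodule.span_le (p := ΓS ⊔ ΓT)).2 (by
        rintro _ ⟨i, rfl⟩
        by_cases e : IsAlgebraic ℚ (U i)
        · exact Submodule.mem_sup_left (Submodule.subset_span ⟨⟨i, e⟩, rfl⟩)
        · exact Submodule.mem_sup_right (Submodule.subset_span ⟨⟨i, e⟩, rfl⟩)) hw)
      refine ⟨a, ha, b, hb, rfl, ?_⟩
      rw [Complex.add_re, add_eq_zero_iff_neg_eq] at h0
      rw [← h0, Complex.ofReal_neg]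
      exact neg_mem (re_algLog (alS ha))
  set Bad : Finset {i // ¬ IsAlgebraic ℚ (U i)} := (E ∪ B).subtype _ with hBad
  have c1 : Bad.card ≤ ((E ∪ B).filter fun i => ¬ IsAlgebraic ℚ (U i)).card :=
    (Finset.card_subtype _ _).le
  have c2 := (Finset.card_filter_le (E ∪ B) fun i => ¬ IsAlgebraic ℚ (U i)).trans
    (Finset.card_union_le _ _)
  have c3 : ∀ b ∈ B, IsAlgebraic ℚ (U b) → Bad.card ≤ 1 := fun b hb al => by
    have := Finset.card_pos.2 ⟨b, hb⟩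
    have : ((E ∪ B).filter fun i => ¬ IsAlgebraic ℚ (U i)).card ≤ E.card :=
      Finset.card_le_card fun i hi => by
        rw [Finset.mem_filter, Finset.mem_union] at hi
        exact hi.1.resolve_right fun e => hi.2 (B1 i e b hb ▸ al)
    omega
  have ti := tie hK (fun i : {i // ¬ IsAlgebraic ℚ (U i)} => hO i) ns (fun i => hd i)
    (fun i => (hE i (ub i)).2) ht (fun i => hω i) (fun w hw => log_inj hi w (leT hw)) Bad (by omega)
    fun i j r nr => by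
      rw [hBad, Finset.mem_subtype, Finset.mem_union]
      rcases h2 i j (fun e => nr (e ▸ r)) with (a | a) | (a | a) | a | a
      exacts [absurd a (ub i), absurd (sa i (ub i) a) i.2, absurd a (ub j),
        absurd (sa j (ub j) a) j.2, a, absurd (r.trans ((sep hc (hO i) (hO j) (hd i) (hd j)
          (hE i (ub i)).2 (hE j (ub j)).2 (ns i) (ns j) a r).symm.trans
            (by simpa using r.conj.symm))) nr]
  set η := ∑ b ∈ B.filter fun b => IsAlgebraic ℚ (U b), ω b with hη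
  have tri : ∀ i, IsAlgebraic ℚ (U i) → ω i = 0 ∨ ω i = η ∨ (F i ∧ ¬ Alg0 (x i)) := fun i al => by
    by_cases a0 : Alg0 (x i)
    · exact Or.inl (w0 i (hP2 i (by_contra fun b => (hE i b).2.not_alg0 hd2 a0) (Or.inl a0)))
    rcases (h i).resolve_left a0 with a | a | a
    · refine Or.inr (Or.inl (Finset.sum_eq_single_of_mem i (Finset.mem_filter.2 ⟨a, al⟩)
        fun j hj e => absurd (B1 j (Finset.mem_filter.1 hj).1 i a) e).symm)
    · exact Or.inr (Or.inr ⟨a, a0⟩)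
    · exact absurd al (a.1.trans (hO i) (hd i ▸ (hE i a.2).2))
  obtain ⟨δ0, z0, hδ⟩ : ∃ δ0 : ℂ, (η = 0 → δ0 = 0) ∧
      ∀ w ∈ ΓS, w.re = 0 → ∃ q : ℚ, w = q • δ0 := by
    by_cases g : ∀ i, F i → RlS (fun n => σ (x i n)) ∧ (¬ Bdd σ (x i) ∨ Pw d fun n => σ (x i n))
    · refine ⟨η.im * Complex.I, fun e => by simp [e], tie1 _ (by simp) fun i => ?_⟩
      rcases tri i i.2 with e | e | ⟨e, a0⟩
      · exact ⟨0, by simp [e]⟩
      · exact ⟨1, by simp [e]⟩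
      obtain ⟨k, k0, k1⟩ : ∃ e, 0 < e ∧ U i ^ e = (starRingEnd ℂ) (U i) ^ e := by
        by_cases b : Bdd σ (x i)
        · obtain ⟨a, b', a1, a2⟩ := hP1 i b a0 ((g i e).2.resolve_left (not_not.2 b))
          obtain ⟨ρ, ρ0, r⟩ := (g i e).1
          exact real_pw hd2 ρ0 a1 (U0 i) fun n => by rw [← a2]; exact r n
        · exact rl i b (g i e).1
      exact ⟨0, by simpa using log_real hi ht (hω i) (mΓ i) k0 k1⟩
    obtain ⟨g1, g2⟩ := hF.resolve_left g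
    obtain ⟨k, hk⟩ : ∃ k, F k := by_contra fun e => g fun i a => absurd ⟨i, a⟩ e
    have k0 : (ω k).re ≠ 0 := by
      rw [log_re ht (hω k)]
      exact (Real.log_pos (hE k (g2 k hk).1).2.one_lt).ne'
    refine ⟨η - (η.re / (ω k).re : ℝ) * ω k, fun e => by simp [e], fun w hw h0 => ?_⟩
    obtain ⟨a, b, rfl⟩ := Submodule.mem_span_pair.1 ((Submodule.span_le
      (p := Submodule.span ℚ {ω k, η})).2 (by
        rintro _ ⟨i, rfl⟩
        rcases tri i i.2 with e | e | ⟨e, -⟩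
        · simp [e]
        · exact Submodule.subset_span (Or.inr e)
        · exact Submodule.subset_span (Or.inl (congrArg ω (g1 _ _ e hk)))) hw)
    refine ⟨b, ?_⟩
    simp only [Rat.smul_def, ← Complex.ofReal_ratCast, Complex.add_re, Complex.re_ofReal_mul] at h0 ⊢
    rw [show (a : ℝ) = -(b * (η.re / (ω k).re)) by field_simp; linarith]
    push_cast
    ring
  refine coreB σ hd2 hO hd hD ht (fun i => (hω i).2) (Γ := Γ) B0 (fun i e => ⟨e.1,
    noTot_of' (dσ i ▸ hd2) fun ⟨a, b, g⟩ => e.2.2 (dσ i ▸ pw_of (dσ i ▸ hd2) (ca i) g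
      (alg_emb σ _) (st i)), e.2.1⟩) (fun i j a b => B1 i (mB i a) j (mB j b)) (fun i => ?_) ?_ hP
  · by_cases a0 : Alg0 (x i)
    · exact Or.inl a0
    by_cases b0 : B0 i
    · exact Or.inr (Or.inl b0)
    refine Or.inr (Or.inr ⟨⟨ω i, mΓ i⟩, ?_⟩)
    rw [← (hω i).1]
    by_cases b : Bdd σ (x i)
    · obtain ⟨a, b', -, e⟩ := hP1 i b a0 (by_contra fun e => b0 ⟨b, a0, e⟩)
      exact Or.inr ⟨a, b', e⟩
    · exact Or.inl ⟨_, (hE i b).2⟩
  by_cases cs : ∀ a ∈ ΓS, a.re = 0 → a = 0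
  · rcases ti with ti | ⟨c4, i, j, a, b, ha, hb, nr, re0, ti⟩
    · refine Or.inl fun w hw h0 => ?_
      obtain ⟨a, ha, b, hb, rfl, e⟩ := dec w hw h0
      rw [ti b hb e, add_zero] at h0 ⊢
      exact cs a ha h0
    refine Or.inr ⟨fun k e => ?_, _, re0, fun w hw h0 => ?_, fun β C l β0 hβ l0 l1 hf => ?_⟩
    · have := c3 k (mB k e) (hA k e.1)
      omega
    · obtain ⟨a', ha', b', hb', rfl, e⟩ := dec w hw h0
      obtain ⟨q, rfl⟩ := ti b' hb' e
      rw [Complex.add_re, Rat.smul_def, ← Complex.ofReal_ratCast, Complex.re_ofReal_mul, re0,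
        mul_zero, add_zero] at h0
      exact ⟨q, by rw [cs a' ha' h0, zero_add]⟩
    obtain ⟨b1, e1⟩ := hE i (ub i)
    obtain ⟨b2, e2⟩ := hE j (ub j)
    refine nr (be hd2 e1 e2 (pt (hO i) (hO j) (hd i) (hd j) b1 b2 e1 e2 (mul_pos ha ht)
      (mul_pos hb ht) β0 hβ (C := C) l0 l1 (hf.mono fun n hn => ?_)))
    rwa [← div_pow, log_pow (hω i), log_pow (hω j), ← Complex.exp_sub, ← mul_sub]
  obtain ⟨δ, hδS, re0, δ1⟩ : ∃ δ ∈ ΓS, δ.re = 0 ∧ δ ≠ 0 := by simpa only [not_forall, exists_prop]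
    using cs
  obtain ⟨q', hq'⟩ := hδ δ hδS re0
  obtain ⟨b, hb, b0⟩ := Finset.exists_ne_zero_of_sum_ne_zero
    (show η ≠ 0 from fun e => δ1 (by rw [hq', z0 e, smul_zero]))
  rw [Finset.mem_filter] at hb
  have c4 := c3 b hb.1 hb.2
  replace ti := ti.resolve_right fun e => by omega
  have q0 : q' ≠ 0 := fun e => δ1 (by rw [hq', e, zero_smul])
  refine Or.inr ⟨fun k e => b0 (B1 k (mB k e) b hb.1 ▸ w0 k (hP2 k e.1 (Or.inr e.2.2))), δ, re0,
    fun w hw h0 => ?_, fun β C l β0 hβ l0 l1 hf => ?_⟩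
  · obtain ⟨a, ha, b, hb, rfl, e⟩ := dec w hw h0
    rw [ti b hb e, add_zero] at h0 ⊢
    obtain ⟨q, rfl⟩ := hδ a ha h0
    exact ⟨q / q', by rw [hq', smul_smul, div_mul_cancel₀ _ q0]⟩
  obtain ⟨k, k0, e⟩ := near_alg (by
    simpa [mem_algLog, Rat.smul_def] using algLog.smul_mem (t : ℚ) (alS hδS))
    (by simp [Complex.norm_exp, re0]) β0 hβ hd2 l0 l1 hf
  have := log_inj hi (((k * t : ℕ) : ℚ) • δ) (Γ.smul_mem _ (leS hδS)) (by
    rw [← e, ← Complex.exp_nat_mul, Rat.smul_def, Rat.cast_natCast, Nat.cast_mul, mul_assoc])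
  simp [k0.ne', ht.ne', δ1] at this

end Pool.Agent.P.MP_68214b_ag.DS
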