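import Pool.Agent.P.MP_68214b_ag.DSD8
import Pool.Agent.P.MP_68214b_ag.DSC7

open Polynomial Filter Asymptotics NumberField Topology

namespace Pool.Agent.P.MP_68214b_ag.DS

theorem descendMv {L J : Type*} [Field L] (ι : L →+* ℂ) (I : Set (MvPolynomial J ℂ)) :
    ∃ 𝓡 : Set (MvPolynomial J L), ∀ x : J → L,
      (∀ P ∈ I, MvPolynomial.eval (fun i => ι (x i)) P = 0) ↔
        ∀ Q ∈ 𝓡, MvPolynomial.eval x Q = 0 := by
  let := ι.toAlgebra
  have key : ∀ (lam : ℂ →ₗ[L] L) (P : MvPolynomial J ℂ) (x : J → L), MvPolynomial.eval x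
      (∑ m ∈ P.support, MvPolynomial.monomial m (lam (P.coeff m))) =
        lam (MvPolynomial.eval (fun i => ι (x i)) P) := fun lam P x => by
    rw [MvPolynomial.eval_eq (f := P), map_sum, map_sum]
    refine Finset.sum_congr rfl fun m _ => ?_
    simp only [← map_pow, ← map_prod]
    rw [MvPolynomial.eval_monomial, mul_comm, mul_comm (MvPolynomial.coeff _ _), ← smul_eq_mul,
      ← map_smul]
    rfl
  refine ⟨{r | ∃ P ∈ I, ∃ lam : ℂ →ₗ[L] L,
    r = ∑ m ∈ P.support, MvPolynomial.monomial m (lam (P.coeff m))}, fun x => ⟨?_, fun h P hP => ?_⟩⟩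
  · rintro h _ ⟨P, hP, lam, rfl⟩
    rw [key, h P hP, map_zero]
  · refine (Module.forall_dual_apply_eq_zero_iff L _).1 fun lam => ?_
    rw [← key]
    exact h _ ⟨P, hP, lam, rfl⟩

theorem alg0_fin {L : Type*} [Field L] {x : ℕ → L} (h : (Set.range x).Finite) : Alg0 x :=
  ⟨∏ r ∈ h.toFinset, (X - C r), Finset.prod_ne_zero_iff.2 fun r _ => X_sub_C_ne_zero r,
    .of_forall fun n => by
      rw [eval_prod]
      exact Finset.prod_eq_zero (i := x n) (by simp) (by simp)⟩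

theorem sepG_of (L : IntermediateField ℚ ℂ) [FiniteDimensional ℚ L] [IsGalois ℚ L] {c : L →+* L}
    (hc : ∀ y, (c y : ℂ) = (starRingEnd ℂ) y) {x y : ℕ → L} {a b : L} (ha : a ≠ 0) (hb : b ≠ 0)
    (k k' : Subfield ℂ) (hx : ∀ n, ((a * x n : L) : ℂ) ∈ k) (hy : ∀ n, ((b * y n : L) : ℂ) ∈ k')
    (h : ∀ z ∈ k', (starRingEnd ℂ) z ∈ k → z.im = 0) : SepG c x y := fun S h1 h2 => by
  have cc : ∀ z, c (c z) = z := fun z => Subtype.ext (by rw [hc, hc, Complex.conj_conj])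
  let c' : L ≃ₐ[ℚ] L :=
    AlgEquiv.ofBijective c.toRatAlgHom (Algebra.IsAlgebraic.algHom_bijective _)
  let φ : (L ≃ₐ[ℚ] L) →* (L →+* L) := ⟨⟨fun g => g, rfl⟩, fun _ _ => rfl⟩
  let S' : Subgroup (L ≃ₐ[ℚ] L) :=
    { S.comap φ with
      inv_mem' := fun {g} hg => by
        have e : g⁻¹ = g ^ (orderOf g - 1) := by
          rw [inv_eq_iff_mul_eq_one, ← pow_succ', Nat.sub_add_cancel (orderOf_pos g),
            pow_orderOf_eq_one]
        exact e ▸ (S.comap φ).pow_mem hg _ }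
  let F : Subfield ℂ → IntermediateField ℚ L := fun k =>
    (k.comap (algebraMap L ℂ)).toIntermediateField fun q => by simp
  have fx : ∀ (k : Subfield ℂ) {x : ℕ → L} {a : L}, a ≠ 0 → (∀ n, ((a * x n : L) : ℂ) ∈ k) →
      ∀ g ∈ (F k).fixingSubgroup, ∃ ρ, ∀ n, φ g (x n) = ρ * x n := fun k x a ha hx g hg =>
    ⟨(g a)⁻¹ * a, fun n => by
      have := (IntermediateField.mem_fixingSubgroup_iff _ _).1 hg (a * x n) (hx n)
      rw [mul_assoc, ← this, map_mul, inv_mul_cancel_left₀ ((_root_.map_ne_zero g).2 ha)]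
      rfl⟩
  have fm : ∀ (k : Subfield ℂ) (z : L), (∀ g ∈ (F k).fixingSubgroup, g z = z) → (z : ℂ) ∈ k :=
    fun k z e => by
      have := (IntermediateField.mem_fixedField_iff _ _).2 e
      rwa [IsGalois.fixedField_fixingSubgroup] at this
  have : c' ∈ S' := by
    rw [← IntermediateField.fixingSubgroup_fixedField S', IntermediateField.mem_fixingSubgroup_iff]
    intro z hz
    rw [IntermediateField.mem_fixedField_iff] at hz
    refine Subtype.ext ((hc z).trans (Complex.conj_eq_iff_im.2 (h z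
      (fm k' z fun g hg => hz g (h1 _ (fx k' hb hy g hg))) (hc z ▸ fm k (c z) fun g hg => ?_))))
    have := congrArg c (hz (c' * g * c') (h2 _ (fx k ha hx g hg)))
    exact (cc _).symm.trans this
  exact this

theorem ext_G {K : Type} [Field K] [NumberField K] (σ : K →+* ℂ) :
    ∃ (L : IntermediateField ℚ ℂ) (ι : K →+* L), FiniteDimensional ℚ L ∧ IsGalois ℚ L ∧ Cj L ∧
      ∀ y, (ι y : ℂ) = σ y := by
  classical
  let b := Module.finBasis ℚ K
  obtain ⟨L, h1, hg, h2⟩ := dsc6_K (k := ℚ) (Finset.univ.image fun i => σ (b i)) (by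
    simp only [Finset.mem_image]
    rintro z ⟨i, -, rfl⟩
    exact (alg_emb σ _).isIntegral)
  refine ⟨L, σ.codRestrict L fun y => ?_, h1, hg, fun s => ?_, fun y => rfl⟩
  · rw [← b.sum_repr y, map_sum]
    refine sum_mem fun i _ => ?_
    rw [Rat.smul_def, map_mul, map_ratCast]
    exact mul_mem (SubfieldClass.ratCast_mem L _) (h2 _ (by simp))
  · obtain ⟨c, hc⟩ := @ComplexEmbedding.exists_comp_symm_eq_of_comp_eq L _ ℚ _ _ hg s
      ((starRingEnd ℂ).comp s) (Subsingleton.elim _ _)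
    exact ⟨_, fun x => RingHom.congr_fun hc x⟩

theorem topG {K : Type} [Field K] [NumberField K] (hK : Cj K) (σ : K →+* ℂ) {c : K →+* K}
    (hc : ∀ y, σ (c y) = (starRingEnd ℂ) (σ y)) {J : Type} [Fintype J] {d : ℕ} (hd2 : 2 ≤ d)
    {f : J → K[X]} {x : J → ℕ → K} (hO : ∀ i, Orb (f i) (x i)) (hd : ∀ i, (f i).natDegree = d)
    (E B : Finset J) (hw : E.card + 2 * B.card ≤ 3) (F : J → Prop)
    (h : ∀ i, Alg0 (x i) ∨ i ∈ B ∨ F i ∨ (NSa (f i) ∧ ¬ Bdd σ (x i)))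
    (h2 : ∀ i j, i ≠ j → (Bdd σ (x i) ∨ SpF d fun n => σ (x i n)) ∨
      (Bdd σ (x j) ∨ SpF d fun n => σ (x j n)) ∨ (j ∈ E ∨ j ∈ B) ∨ SepG c (x i) (x j))
    (hF : (∀ i, F i → RlS (fun n => σ (x i n)) ∧ (¬ Bdd σ (x i) ∨ Pw d fun n => σ (x i n))) ∨
      ((∀ i j, F i → F j → i = j) ∧ ∀ i, F i → ¬ Bdd σ (x i) ∧ SpF d fun n => σ (x i n)))
    (S : Set (MvPolynomial J K)) : ∃ l, 0 < l ∧ ∃ n0, ∀ n ≥ n0,
      ((∀ P ∈ S, MvPolynomial.eval (fun i => x i n) P = 0) ↔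
        ∀ P ∈ S, MvPolynomial.eval (fun i => x i (n + l)) P = 0) := by
  obtain ⟨l, hl, hD⟩ := oc f x fun i => (hO i).step
  refine ⟨l, hl, per_of_core x S hl fun a P _ => ?_⟩
  have ht := tend_prog a hl
  have ub : ∀ i, ¬ Bdd σ (x i) → ¬ Bdd σ fun t => x i (a + l * t) := fun i b ⟨M, hM⟩ => by
    obtain ⟨p, u, -, e⟩ := bl (hO i) σ b
    obtain ⟨n, hn⟩ := (ht.eventually ((e.tendsto (hO i).deg).eventually_gt_atTop M)).exists
    exact hn.not_ge (hM n)
  have bs : ∀ i, (Bdd σ (x i) ∨ SpF d fun n => σ (x i n)) → (Bdd σ fun t => x i (a + l * t)) ∨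
      SpF (d ^ l) fun t => σ (x i (a + l * t)) := fun i =>
    Or.imp (fun ⟨M, hM⟩ => ⟨M, fun _ => hM _⟩) fun e => e.prog a l
  exact coreG hK σ hc (hd2.trans (Nat.le_self_pow hl.ne' d)) (fun i => (hO i).prog a hl)
    (fun i => by rw [iter_natDegree, hd]) (hD a) E B hw F
    (fun i => (h i).imp (fun ⟨g, g0, e⟩ => ⟨g, g0, ht.eventually e⟩) (Or.imp_right (Or.imp_right
      fun e => ⟨e.1.iter (hO i).deg hl, ub i e.2⟩)))
    (fun i j e => (h2 i j e).imp (bs i) (Or.imp (bs j) (Or.imp_right fun g S a1 a2 =>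
      g S (fun γ ⟨ρ, e⟩ => a1 γ ⟨ρ, fun _ => e _⟩) fun γ ⟨ρ, e⟩ => a2 γ ⟨ρ, fun _ => e _⟩)))
    (hF.imp (fun g i e => ⟨(g i e).1.imp fun ρ e => ⟨e.1, fun _ => e.2 _⟩,
      (g i e).2.imp (ub i) fun e => e.prog a l⟩)
      fun g => ⟨g.1, fun i e => ⟨ub i (g.2 i e).1, (g.2 i e).2.prog a l⟩⟩)

theorem mainG {J : Type} [Fintype J] (f : J → ℂ[X]) (z : J → ℕ → ℂ)
    (hz : ∀ i n, z i (n + 1) = (f i).eval (z i n)) {d : ℕ} (hd2 : 2 ≤ d)
    (hd : ∀ i, (f i).natDegree = d) (hf : ∀ i k, IsAlgebraic ℚ ((f i).coeff k))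
    (z0 : ∀ i, IsAlgebraic ℚ (z i 0)) (s : ℂ →+* ℂ)
    (E B : Finset J) (hw : E.card + 2 * B.card ≤ 3)
    (h : ∀ i ∉ B, (Set.range (z i)).Infinite → ¬ Special (f i) → ¬ Bdd s (z i))
    (k : J → Subfield ℂ) (hk : ∀ i n, s (z i n) ∈ k i)
    (h2 : ∀ i j, i ≠ j → ¬ Special (f i) → ¬ Special (f j) → ¬ Bdd s (z i) → ¬ Bdd s (z j) →
      (j ∈ E ∨ j ∈ B) ∨ ∀ w ∈ k j, (starRingEnd ℂ) w ∈ k i → w.im = 0) (F : J → Prop)
    (eF : ∀ i, F i ↔ i ∉ B ∧ (Set.range (z i)).Infinite ∧ Special (f i))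
    (hF : (∀ i, F i → (∀ n, (s (z i n)).im = 0) ∧
        (¬ Bdd s (z i) ∨ ∃ a b, f i = C a * (X - C b) ^ d + C b)) ∨
      ((∀ i j, F i → F j → i = j) ∧ ∀ i, F i → ¬ Bdd s (z i)))
    (I : Set (MvPolynomial J ℂ)) : ∃ l, 0 < l ∧ ∃ n0, ∀ n ≥ n0,
      ((∀ P ∈ I, MvPolynomial.eval (fun i => z i n) P = 0) ↔
        ∀ P ∈ I, MvPolynomial.eval (fun i => z i (n + l)) P = 0) := by
  have ez : ∀ i n, (fun w => (f i).eval w)^[n] (z i 0) = z i n := fun i n => by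
    induction n with
    | zero => rfl
    | succ n ih => rw [Function.iterate_succ_apply', ih, hz]
  obtain ⟨K, κ, g, x, hK, -, -, hκ, hO, -, hx⟩ := exists_orb f (fun i => z i 0) hf z0
    ∅ (by simp)
  simp only [ez] at hx
  have : NumberField K := ⟨⟩
  obtain ⟨L, ι, hL, hG, hC, hι⟩ := ext_G (s.comp (algebraMap K ℂ))
  have : NumberField L := ⟨⟩
  set σ := algebraMap L ℂ with hσ
  obtain ⟨c, hc⟩ := hC σ
  have e1 : ∀ i n, σ (ι (x i n)) = s (κ i * z i n) := fun i n => (hι _).trans (congrArg s (hx i n))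
  have κ0 : ∀ i, (κ i : ℂ) ≠ 0 := fun i => by simpa using hκ i
  have s0 : ∀ i, s (κ i) ≠ 0 := fun i => (_root_.map_ne_zero s).2 (κ0 i)
  have ub : ∀ i, ¬ Bdd s (z i) → ¬ Bdd σ fun n => ι (x i n) := fun i b ⟨M, hM⟩ =>
    b ⟨‖s (κ i)‖⁻¹ * M, fun n => by
      have := hM n
      rw [e1, map_mul, norm_mul] at this
      rwa [le_inv_mul_iff₀ (norm_pos_iff.2 (s0 i))]⟩
  have d2 : ∀ i, 2 ≤ (f i).natDegree := fun i => hd i ▸ hd2
  have sp : ∀ i, Special (f i) → (∃ n, z i n ≠ z i 0) → SpF d fun n => σ (ι (x i n)) :=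
    fun i a b => by simpa only [e1, hd] using (spf_of (d2 i) (hf i) a (z0 i) (hz i) b).map s (κ i)
  have bs : ∀ i, (Special (f i) ∨ Bdd s (z i)) →
      (Bdd σ fun n => ι (x i n)) ∨ SpF d fun n => σ (ι (x i n)) := fun i e => by
    by_cases b : Bdd s (z i)
    · obtain ⟨M, hM⟩ := b
      exact Or.inl ⟨‖s (κ i)‖ * M, fun n => by
        beta_reduce
        rw [e1, map_mul, norm_mul]
        exact mul_le_mul_of_nonneg_left (hM n) (norm_nonneg _)⟩
    · exact Or.inr (sp i (e.resolve_right b) (by_contra fun a => b ⟨‖s (z i 0)‖, fun n => by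
        rw [not_not.1 (not_exists.1 a n)]⟩))
  have mk : ∀ i n, (((ι (κ i))⁻¹ * ι (x i n) : L) : ℂ) ∈ k i := fun i n => by
    change σ ((ι (κ i))⁻¹ * ι (x i n)) ∈ k i
    rw [map_mul, map_inv₀, e1, map_mul, show σ (ι (κ i)) = s (κ i) from hι _,
      inv_mul_cancel_left₀ (s0 i)]
    exact hk i n
  have ι0 : ∀ i, (ι (κ i))⁻¹ ≠ 0 := fun i => by simpa using hκ i
  obtain ⟨𝓡, h𝓡⟩ := descendMv (algebraMap K ℂ) (phi (fun i => C (κ i : ℂ)⁻¹ * X) '' I)
  obtain ⟨l, hl, n0, H⟩ := topG hC σ hc hd2 (fun i => (hO i (d2 i)).1.map ι)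
    (fun i => (natDegree_map ι).trans ((hO i (d2 i)).2.1.trans (hd i))) E B hw F (fun i => by
      by_cases b : i ∈ B
      · exact Or.inr (Or.inl b)
      by_cases a : (Set.range (z i)).Infinite
      swap
      · refine Or.inl (alg0_fin (Set.Finite.of_finite_image (f := σ)
          (((not_not.1 a).image fun w => s (κ i * w)).subset ?_) σ.injective.injOn))
        rintro _ ⟨_, ⟨n, rfl⟩, rfl⟩
        exact ⟨_, ⟨n, rfl⟩, (e1 i n).symm⟩
      by_cases e : Special (f i)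
      · exact Or.inr (Or.inr (Or.inl ((eF i).2 ⟨b, a, e⟩)))
      exact Or.inr (Or.inr (Or.inr ⟨fun t => by
        rw [Polynomial.map_map]; exact (hO i (d2 i)).2.2 e _, ub i (h i b a e)⟩)))
    (fun i j e => by
      by_cases a : Special (f i) ∨ Bdd s (z i)
      · exact Or.inl (bs i a)
      by_cases b : Special (f j) ∨ Bdd s (z j)
      · exact Or.inr (Or.inl (bs j b))
      rw [not_or] at a b
      exact Or.inr (Or.inr ((h2 i j e a.1 b.1 a.2 b.2).imp_right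
        (sepG_of L hc (ι0 i) (ι0 j) _ _ (mk i) (mk j)))))
    (hF.imp (fun g i e => ⟨⟨_, inv_ne_zero (s0 i), fun n => by
        beta_reduce
        rw [e1, map_mul, inv_mul_cancel_left₀ (s0 i), (g i e).1]⟩,
        (g i e).2.imp (ub i) fun ⟨a, b, p⟩ => by
          simpa only [e1, hd] using (pw_of (d2 i) (hf i) (by rwa [hd]) (z0 i) (hz i)).map s
            (κ := κ i) (alg_emb (algebraMap K ℂ) (κ i))⟩)
      fun g => ⟨g.1, fun i e => ⟨ub i (g.2 i e), sp i ((eF i).1 e).2.2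
        (by_contra fun a => ((eF i).1 e).2.1 ((Set.finite_singleton (z i 0)).subset (by
          rintro _ ⟨n, rfl⟩
          exact not_not.1 (not_exists.1 a n))))⟩⟩) (MvPolynomial.map ι '' 𝓡)
  have key (n : ℕ) : (∀ P ∈ I, MvPolynomial.eval (fun i => z i n) P = 0) ↔
      ∀ Q ∈ MvPolynomial.map ι '' 𝓡, MvPolynomial.eval (fun i => ι (x i n)) Q = 0 := by
    have e0 : ∀ Q, MvPolynomial.eval (fun i => ι (x i n)) (MvPolynomial.map ι Q) =
        ι (MvPolynomial.eval (fun i => x i n) Q) := fun Q => by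
      rw [MvPolynomial.eval_map, MvPolynomial.eval, MvPolynomial.coe_eval₂Hom,
        MvPolynomial.eval₂_comp_left]
      rfl
    simp only [Set.forall_mem_image, e0, map_eq_zero]
    rw [← h𝓡 fun i => x i n, Set.forall_mem_image]
    refine forall₂_congr fun P _ => ?_
    have e (i : J) : (C (κ i : ℂ)⁻¹ * X).eval (algebraMap K ℂ (x i n)) = z i n := by
      rw [eval_mul, eval_C, eval_X, show algebraMap K ℂ (x i n) = x i n from rfl, hx,
        inv_mul_cancel_left₀ (κ0 i)]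
    simp only [eval_phi, e]
  exact ⟨l, hl, n0, fun n hn => by rw [key, key]; exact H n hn⟩

end Pool.Agent.P.MP_68214b_ag.DS
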