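import Mathlib

open Polynomial Filter Asymptotics NumberField

namespace Pool.Agent.P.MP_68214b_ag.DS

noncomputable section

/-- affinely conjugate to a power map or to plus or minus a Chebyshev polynomial -/
def Special (f : ℂ[X]) : Prop :=
  ∃ a b : ℂ, a ≠ 0 ∧ ∃ T : ℂ[X],
    (T = X ^ f.natDegree ∨ T = Chebyshev.T ℂ f.natDegree ∨ T = -Chebyshev.T ℂ f.natDegree) ∧
    f.comp (C a * X + C b) = C a * T + C b

/-- the differential identity of the special polynomials -/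
def Exc {K : Type*} [Field K] (f : K[X]) : Prop :=
  ∃ s p : K, C ((f.natDegree : K) ^ 2) * (f ^ 2 - C s * f + C p) =
    (X ^ 2 - C s * X + C p) * derivative f ^ 2

/-- local degree -/
def em (g : ℂ[X]) (c : ℂ) : ℕ := rootMultiplicity c (g - C (g.eval c))

/-- orbifold function -/
def Orbi (g : ℂ[X]) : Prop :=
  ∃ (e : ℤ) (ν : ℂ → ℤ), 0 < e ∧ {c | ν c ≠ e}.Finite ∧ ∀ c, ν c = em g c * ν (g.eval c)

/-- no finite backward invariant set -/
def NoTot (g : ℂ[X]) : Prop :=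
  ∀ E : Set ℂ, E.Finite → E.Nonempty → ∃ c, g.eval c ∈ E ∧ c ∉ E

structure NS (g : ℂ[X]) : Prop where
  tot : NoTot g
  orb : ¬ Orbi g

/-- iterate -/
def iter {R : Type*} [CommRing R] (f : R[X]) (l : ℕ) : R[X] := f.comp^[l] X

/-- non special at every place -/
def NSa {K : Type*} [Field K] (f : K[X]) : Prop := ∀ σ : K →+* ℂ, NS (f.map σ)

/-- bounded denominators -/
def Den {K : Type*} [Field K] (x : ℕ → K) : Prop :=
  ∃ N : ℕ, 0 < N ∧ ∀ n, IsIntegral ℤ ((N : K) * x n)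

/-- an orbit of a monic polynomial -/
structure Orb {K : Type*} [Field K] (f : K[X]) (x : ℕ → K) : Prop where
  monic : f.Monic
  deg : 2 ≤ f.natDegree
  step : ∀ n, x (n + 1) = f.eval (x n)

/-- substitution of t ^ d -/
def ex {R : Type*} [CommRing R] (d : ℕ) (p : PowerSeries R) : PowerSeries R :=
  PowerSeries.subst (PowerSeries.X ^ d : PowerSeries R) p

theorem ex_eq {R : Type*} [CommRing R] {d : ℕ} (hd : d ≠ 0) (p : PowerSeries R) :
    ex d p = PowerSeries.expand d hd p := (PowerSeries.expand_apply d hd p).symm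

/-- formal Boettcher equation -/
def Bott {K : Type*} [CommRing K] (f : K[X]) (p : PowerSeries K) : Prop :=
  ∑ j ∈ Finset.range (f.natDegree + 1),
    PowerSeries.C (f.coeff j) * PowerSeries.X ^ (f.natDegree - j) * p ^ j = ex f.natDegree p

/-- the series β p(t ^ a / β) -/
def ser {F : Type*} [Field F] (p : PowerSeries F) (a : ℕ) (β : F) : PowerSeries F :=
  PowerSeries.C β * ex a (PowerSeries.rescale β⁻¹ p)

/-- asymptotic expansion to order T -/
def As (𝓕 : Filter ℕ) (t : ℕ → ℂ) (T : ℕ) (a : ℕ → ℂ) (π : PowerSeries ℂ) : Prop :=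
  (fun n => a n - (PowerSeries.trunc T π).eval (t n)) =O[𝓕] fun n => t n ^ T

/-- escape with Boettcher coordinate u -/
structure Esc {K : Type*} [Field K] (σ : K →+* ℂ) (d : ℕ) (x : ℕ → K) (p : PowerSeries K)
    (u : ℂ) : Prop where
  one_lt : 1 < ‖u‖
  c0 : PowerSeries.constantCoeff p = 1
  app : ∀ T, As atTop (fun n => (u ^ d ^ n)⁻¹) T (fun n => σ (x n) * (u ^ d ^ n)⁻¹)
    (PowerSeries.map σ p)

def Rel (u v : ℂ) : Prop := ∃ a b : ℕ, 0 < a ∧ 0 < b ∧ u ^ a = v ^ b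

def Alg0 {K : Type*} [Field K] (a : ℕ → K) : Prop :=
  ∃ g : K[X], g ≠ 0 ∧ ∀ᶠ n in atTop, g.eval (a n) = 0

def Dep {K : Type*} [Field K] (a b : ℕ → K) : Prop :=
  ∃ G : K[X][X], G ≠ 0 ∧ ∀ᶠ n in atTop, G.evalEval (a n) (b n) = 0

/-- P vanishes on the tail -/
def Van {K J : Type*} [Field K] (x : J → ℕ → K) (P : MvPolynomial J K) : Prop :=
  ∀ᶠ n in atTop, MvPolynomial.eval (fun i => x i n) P = 0

def Dom {K J : Type*} [Field K] (x : J → ℕ → K) : Prop :=
  ∀ P Q : MvPolynomial J K, Van x (P * Q) → Van x P ∨ Van x Q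

def DomA {K : Type*} [Field K] (A : Subalgebra K (ℕ → K)) : Prop :=
  ∀ a ∈ A, ∀ b ∈ A, (∀ᶠ n in atTop, a n * b n = 0) →
    (∀ᶠ n in atTop, a n = 0) ∨ ∀ᶠ n in atTop, b n = 0

/-- bounded at the place σ -/
def Bdd {K : Type*} [Field K] (σ : K →+* ℂ) (x : ℕ → K) : Prop := ∃ B : ℝ, ∀ n, ‖σ (x n)‖ ≤ B

/-- conjugation of every place comes from K -/
def Cj (K : Type*) [Field K] : Prop :=
  ∀ σ : K →+* ℂ, ∃ c : K →+* K, ∀ x, σ (c x) = (starRingEnd ℂ) (σ x)

/-- the split map on polynomials -/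
def phi {K J : Type*} [CommRing K] (g : J → K[X]) : MvPolynomial J K →ₐ[K] MvPolynomial J K :=
  MvPolynomial.aeval fun i => Polynomial.aeval (MvPolynomial.X i : MvPolynomial J K) (g i)

/-- ring seminorm -/
structure Sn (R : Type*) [CommRing R] where
  f : R → ℝ
  zero : f 0 = 0
  one : f 1 ≤ 1
  neg : ∀ a, f (-a) = f a
  add : ∀ a b, f (a + b) ≤ f a + f b
  mul : ∀ a b, f (a * b) ≤ f a * f b

namespace Sn
variable {R : Type*} [CommRing R] (ν : Sn R)

theorem nonneg (a : R) : 0 ≤ ν.f a := by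
  have := ν.add a (-a)
  rw [add_neg_cancel, ν.zero, ν.neg] at this
  linarith

theorem sum_le {ι : Type*} (s : Finset ι) (g : ι → R) :
    ν.f (∑ i ∈ s, g i) ≤ ∑ i ∈ s, ν.f (g i) :=
  Finset.le_sum_of_subadditive ν.f ν.zero.le ν.add s g

theorem l1_aux (p : R[X]) {s : Finset ℕ} (hs : p.support ⊆ s) :
    ∑ i ∈ p.support, ν.f (p.coeff i) = ∑ i ∈ s, ν.f (p.coeff i) :=
  Finset.sum_subset hs fun i _ hi => by rw [notMem_support_iff.1 hi, ν.zero]

theorem l1_add (p q : R[X]) : ∑ i ∈ (p + q).support, ν.f ((p + q).coeff i) ≤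
    ∑ i ∈ p.support, ν.f (p.coeff i) + ∑ i ∈ q.support, ν.f (q.coeff i) := by
  rw [ν.l1_aux (p + q) support_add, ν.l1_aux p Finset.subset_union_left,
    ν.l1_aux q Finset.subset_union_right, ← Finset.sum_add_distrib]
  exact Finset.sum_le_sum fun i _ => by rw [coeff_add]; exact ν.add _ _

theorem l1_mon (k : ℕ) (a : R) :
    ∑ i ∈ (monomial k a).support, ν.f ((monomial k a).coeff i) = ν.f a := by
  rw [ν.l1_aux _ (support_monomial_subset k a)]; simp

/-- the l1 seminorm on polynomials -/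
def l1 : Sn R[X] where
  f p := ∑ i ∈ p.support, ν.f (p.coeff i)
  zero := by simp
  one := by rw [← monomial_zero_one, ν.l1_mon]; exact ν.one
  neg p := by simp [ν.neg]
  add := ν.l1_add
  mul p q := by
    have S : ∀ (s : Finset ℕ) (g : ℕ → R[X]),
        ∑ i ∈ (∑ k ∈ s, g k).support, ν.f ((∑ k ∈ s, g k).coeff i) ≤
          ∑ k ∈ s, ∑ i ∈ (g k).support, ν.f ((g k).coeff i) := fun s g =>
      Finset.le_sum_of_subadditive (fun p : R[X] => ∑ i ∈ p.support, ν.f (p.coeff i))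
        (by simp) ν.l1_add s g
    rw [mul_eq_sum_sum, Finset.sum_mul_sum]
    refine (S _ _).trans (Finset.sum_le_sum fun i _ => ?_)
    refine (S _ _).trans (Finset.sum_le_sum fun j _ => ?_)
    rw [ν.l1_mon]; exact ν.mul _ _

/-- the l1 seminorm in two variables -/
abbrev l2 : Sn R[X][X] := ν.l1.l1

end Sn

def nC : Sn ℂ := ⟨fun a => ‖a‖, norm_zero, norm_one.le, norm_neg, norm_add_le, norm_mul_le⟩

def nZ : Sn ℤ := ⟨fun a => |(a : ℝ)|, by simp, by simp, by simp,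
  fun a b => by push_cast; exact abs_add_le _ _, fun a b => by push_cast; exact (abs_mul _ _).le⟩

def nH (K : Type*) [Field K] [NumberField K] : Sn K :=
  ⟨house, by simp [house], by simp [house], fun a => by simp [house], house_add_le, house_mul_le⟩

def nO (K : Type*) [Field K] [NumberField K] : Sn (𝓞 K) :=
  ⟨fun a => house (a : K), by simp [house], by simp [house], fun a => by simp [house],
    fun a b => by push_cast; exact house_add_le _ _, fun a b => by push_cast; exact house_mul_le _ _⟩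

/-- Liouville data -/
structure LV {R : Type*} [CommRing R] (ν : Sn R) (σ : R →+* ℂ) (r : ℕ) : Prop where
  le : ∀ a, ‖σ a‖ ≤ ν.f a
  liou : ∀ a, a ≠ 0 → 1 ≤ ‖σ a‖ * ν.f a ^ r

/-- coefficientwise map in two variables -/
abbrev map2 {R S : Type*} [CommRing R] [CommRing S] (φ : R →+* S) : R[X][X] →+* S[X][X] :=
  mapRingHom (mapRingHom φ)

/-- evaluation in two variables, x inner and y outer -/
abbrev ev2 {R S : Type*} [CommRing R] [CommRing S] (φ : R →+* S) (x y : S) : R[X][X] →+* S :=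
  eval₂RingHom (eval₂RingHom φ x) y

/-- derivative in the inner variable -/
def dX {R : Type*} [CommRing R] (W : R[X][X]) : R[X][X] :=
  W.sum fun j a => monomial j (derivative a)

/-- the derivation g dX + h dY -/
def der {R : Type*} [CommRing R] (g h : R[X][X]) (W : R[X][X]) : R[X][X] :=
  g * dX W + h * derivative W

/-- bidegree bound, inner and outer -/
def Bd {R : Type*} [CommRing R] (W : R[X][X]) (D1 D2 : ℕ) : Prop :=
  (∀ j, (W.coeff j).natDegree ≤ D1) ∧ W.natDegree ≤ D2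

/-- maximal ideal of a point -/
def mI (y1 y2 : ℂ) : Ideal ℂ[X][X] := Ideal.span {C (X - C y1), X - C (C y2)}

/-- Taylor coefficient -/
def tc {R : Type*} [CommRing R] (y1 y2 : R) (W : R[X][X]) (i j : ℕ) : R :=
  (taylor y1 ((taylor (C y2) W).coeff j)).coeff i

structure IsDer {A : Type*} [CommRing A] (δ : A → A) : Prop where
  add : ∀ a b, δ (a + b) = δ a + δ b
  mul : ∀ a b, δ (a * b) = a * δ b + δ a * b

/-- Wronskian -/
def wr {A : Type*} [CommRing A] (δ : A → A) {n : ℕ} (a : Fin n → A) : A :=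
  (Matrix.of fun j i : Fin n => δ^[j] (a i)).det

/-- homogenised substitution -/
def hom2 {R S : Type*} [CommRing R] [CommRing S] (φ : R →+* S) (a b D : ℕ) (P1 P2 t : S)
    (G : R[X][X]) : S :=
  ∑ j ∈ Finset.range (D + 1), ∑ i ∈ Finset.range (D + 1),
    φ ((G.coeff j).coeff i) * (P1 ^ i * t ^ (b * (D - i))) * (P2 ^ j * t ^ (a * (D - j)))

/-- the combination of the family P with coefficients c -/
def cmb {R S ι : Type*} [CommRing R] [CommRing S] [Fintype ι] (φ : R →+* S) (P : ι → R[X][X])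
    (c : ι → S) : S[X][X] := ∑ k, C (C (c k)) * map2 φ (P k)

/-- monomials of the second point -/
def mon {S : Type*} [CommRing S] (D0 : ℕ) (y1 y2 : S) (k : Fin (D0 + 1) × Fin (D0 + 1)) : S :=
  y1 ^ (k.1 : ℕ) * y2 ^ (k.2 : ℕ)

/-- approximation of a point by the curve with parameter τ -/
def Apx (a b T : ℕ) (π1 π2 : ℂ[X]) (C0 : ℝ) (τ z1 z2 : ℂ) : Prop :=
  ‖z1 * τ ^ b - π1.eval τ‖ ≤ C0 * ‖τ‖ ^ T ∧ ‖z2 * τ ^ a - π2.eval τ‖ ≤ C0 * ‖τ‖ ^ T

/-- γ ^ d ^ m is close to β for infinitely many m -/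
def Near (d : ℕ) (τ γ β : ℂ) (T : ℕ) : Prop :=
  ∃ C : ℝ, ∃ᶠ m in atTop, ‖γ ^ d ^ m - β‖ ≤ C * ‖τ ^ d ^ m‖ ^ T

/-- small growth -/
def Sml (𝓕 : Filter ℕ) (d : ℕ) (r : ℕ → ℂ) : Prop :=
  ∀ ρ : ℝ, 1 < ρ → r =O[𝓕] fun n => ρ ^ d ^ n

/-- exact leading term -/
structure Big (𝓕 : Filter ℕ) (d : ℕ) (r : ℕ → ℂ) (α s : ℂ) (E : ℕ) : Prop where
  s1 : 1 < ‖s‖
  a0 : α ≠ 0
  e1 : 0 < E
  app : (fun n => r n - α * (s ^ E) ^ d ^ n) =O[𝓕] fun n => (‖s‖ ^ (E - 1)) ^ d ^ n

/-- substitution X ↦ y + s, Y ↦ η -/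
def hat (y : ℂ) (η : PowerSeries ℂ) : ℂ[X][X] →+* PowerSeries ℂ :=
  eval₂RingHom (Polynomial.coeToPowerSeries.ringHom.comp (taylorAlgHom y : ℂ[X] →+* ℂ[X])) η

/-- the ideal generated by the variable -/
def sI : Ideal (PowerSeries ℂ) := Ideal.span {PowerSeries.X}

/-- integers into the complex numbers -/
abbrev zc : ℤ →+* ℂ := Int.castRingHom ℂ

/-- the counting condition for the auxiliary polynomial -/
def Cnt (ϱ Th T D0 D D2 : ℕ) : Prop :=
  2 * ϱ * (Th * D0) * (Th * D) * (Th * D / (T - 1) + 1) ≤ (D + 1) * (D2 + 1) * (D0 + 1) ^ 2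

/-- evaluation on the formal curve -/
def evb {K F : Type*} [Field K] [Field F] (ι : K →+* F) (a b : ℕ) (P1 P2 : PowerSeries F) :
    K[X][X] →+* FractionRing (PowerSeries F) :=
  ev2 ((algebraMap (PowerSeries F) (FractionRing (PowerSeries F))).comp (PowerSeries.C.comp ι))
    (algebraMap (PowerSeries F) _ P1 / algebraMap (PowerSeries F) _ PowerSeries.X ^ b)
    (algebraMap (PowerSeries F) _ P2 / algebraMap (PowerSeries F) _ PowerSeries.X ^ a)

/-- evaluation on the curve attached to β -/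
def evc {K F : Type*} [Field K] [Field F] (ι : K →+* F) (a b : ℕ) (p1 p2 : PowerSeries K) (β : F) :
    K[X][X] →+* FractionRing (PowerSeries F) :=
  evb ι a b (ser (PowerSeries.map ι p1) b 1) (ser (PowerSeries.map ι p2) a β)

/-- the split map in two variables -/
def phi2 {K : Type*} [CommRing K] (f1 f2 : K[X]) : K[X][X] →+* K[X][X] :=
  ev2 (C.comp C) (C f1) (f2.map C)

/-- a pair of escaping orbits with the parameters τ and γ -/
structure Pr {K : Type*} [Field K] (σ : K →+* ℂ) (d a b : ℕ) (f1 f2 : K[X]) (y1 y2 : ℕ → K)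
    (p1 p2 : PowerSeries K) (τ γ : ℂ) : Prop where
  o1 : Orb f1 y1
  o2 : Orb f2 y2
  d1 : f1.natDegree = d
  d2 : f2.natDegree = d
  b1 : Bott f1 p1
  b2 : Bott f2 p2
  ha : 0 < a
  hb : 0 < b
  e1 : ∃ u, Esc σ d y1 p1 u ∧ u * τ ^ b = 1
  e2 : ∃ u, Esc σ d y2 p2 u ∧ u * τ ^ a = γ
  γ1 : ‖γ‖ = 1

/-- a class with exact leading term -/
def BigC {K : Type*} [Field K] (σ : K →+* ℂ) (𝓕 : Filter ℕ) (d : ℕ) (f : K[X]) (x : ℕ → K)
    (r : ℕ → ℂ) : Prop :=
  f.natDegree = d ∧ ∃ (p : PowerSeries K) (u s α : ℂ) (A E : ℕ), Bott f p ∧ Esc σ d x p u ∧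
    0 < A ∧ s ^ A = u ∧ IsAlgebraic ℚ α ∧ Big 𝓕 d r α s E

end

end Pool.Agent.P.MP_68214b_ag.DS
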