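import Pool.Agent.P.MP_68214b_ag.DSDef

open Polynomial Filter Asymptotics NumberField Topology

namespace Pool.Agent.P.MP_68214b_ag.DS

attribute [local instance] Polynomial.algebra in
theorem dst9_cop {B : Type*} [CommRing B] [IsDomain B] {G H : B[X]} (hG : Prime G)
    (h : 0 < G.natDegree → ¬ G ∣ H) :
    IsCoprime (G.map (algebraMap B (FractionRing B))) (H.map (algebraMap B (FractionRing B))) := by
  have hi := IsFractionRing.injective B (FractionRing B)
  have h0 : G.map (algebraMap B (FractionRing B)) ≠ 0 :=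
    (Polynomial.map_ne_zero_iff hi).2 hG.ne_zero
  rcases Nat.eq_zero_or_pos G.natDegree with hd | hd
  · have hu : IsUnit (G.map (algebraMap B (FractionRing B))) := by
      rw [Polynomial.isUnit_iff_degree_eq_zero, Polynomial.degree_eq_natDegree h0,
        natDegree_map_eq_of_injective hi, hd]
      rfl
    obtain ⟨u, hu⟩ := hu.exists_left_inv
    exact ⟨u, 0, by rw [hu, zero_mul, add_zero]⟩
  · have hl := Polynomial.isLocalization (nonZeroDivisors B) (FractionRing B)
    have hp : (Ideal.span {G}).IsPrime := (Ideal.span_singleton_prime hG.ne_zero).2 hG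
    have hdis : Disjoint (((nonZeroDivisors B).map (C : B →+* B[X]) : Submonoid B[X]) : Set B[X])
        (Ideal.span {G} : Ideal B[X]) := by
      rw [Set.disjoint_left]
      rintro _ ⟨b, hb, rfl⟩ hm
      have h1 : G ∣ C b := Ideal.mem_span_singleton.1 hm
      have h2 := natDegree_le_of_dvd h1 (C_ne_zero.2 (nonZeroDivisors.ne_zero hb))
      rw [natDegree_C] at h2
      omega
    have h1 := IsLocalization.isPrime_of_isPrime_disjoint _ (FractionRing B)[X] _ hp hdis
    have h2 := IsLocalization.under_map_of_isPrime_disjoint _ (FractionRing B)[X] hp hdis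
    rw [Ideal.map_span, Set.image_singleton] at h1 h2
    have h3 : Prime (G.map (algebraMap B (FractionRing B))) := (Ideal.span_singleton_prime h0).1 h1
    refine (h3.irreducible.coprime_iff_not_dvd).2 fun hk => h hd ?_
    rw [← Ideal.mem_span_singleton, ← h2]
    exact Ideal.mem_comap.2 (Ideal.mem_span_singleton.2 hk)

theorem res1 {B : Type*} [CommRing B] [IsDomain B] (s : Multiset B[X]) (hs : ∀ G ∈ s, Prime G)
    {H : B[X]} (h : ∀ G ∈ s, 0 < G.natDegree → ¬ G ∣ H) {n : ℕ} (hn : H.natDegree ≤ n) :
    resultant s.prod H s.prod.natDegree n ≠ 0 := by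
  have hi := IsFractionRing.injective B (FractionRing B)
  have hc : IsCoprime (s.prod.map (algebraMap B (FractionRing B)))
      (H.map (algebraMap B (FractionRing B))) := by
    rw [Polynomial.map_multiset_prod]
    refine Multiset.prod_induction (fun p => IsCoprime p _) _ (fun a b => IsCoprime.mul_left)
      isCoprime_one_left fun p hp => ?_
    obtain ⟨G, hG, rfl⟩ := Multiset.mem_map.1 hp
    exact dst9_cop (hs G hG) (h G hG)
  have h0 : s.prod ≠ 0 := Multiset.prod_ne_zero fun h0 => (hs 0 h0).ne_zero rfl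
  have h1 := resultant_ne_zero _ _ hc
  rw [natDegree_map_eq_of_injective hi, natDegree_map_eq_of_injective hi, resultant_map_map] at h1
  obtain ⟨k, rfl⟩ := Nat.exists_eq_add_of_le hn
  rw [resultant_add_right_deg _ _ _ _ _ le_rfl]
  refine mul_ne_zero (pow_ne_zero _ (leadingCoeff_ne_zero.2 h0)) fun e => h1 ?_
  rw [e, map_zero]

theorem res1' {B : Type*} [CommRing B] [IsDomain B] {G H : B[X]} (hG : Prime G) (h : ¬ G ∣ H)
    {n : ℕ} (hn : H.natDegree ≤ n) : resultant G H G.natDegree n ≠ 0 := by
  have := res1 {G} (fun K hK => Multiset.mem_singleton.1 hK ▸ hG)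
    (fun K hK _ => Multiset.mem_singleton.1 hK ▸ h) hn
  rwa [Multiset.prod_singleton] at this

theorem exists_comb {B : Type*} [CommRing B] [IsDomain B] {G H : B[X]} (hG : Prime G)
    (hd : 0 < G.natDegree) (h : ¬ G ∣ H) : ∃ (u v : B[X]) (r : B), r ≠ 0 ∧ G * u + H * v = C r := by
  obtain ⟨u, v, -, -, e⟩ := exists_mul_add_mul_eq_C_resultant G H le_rfl le_rfl (Or.inl hd.ne')
  exact ⟨u, v, _, res1' hG h le_rfl, e⟩

end Pool.Agent.P.MP_68214b_ag.DS
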