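import Pool.Agent.P.MP_68214b_ag.DSM1
import Pool.Agent.P.MP_68214b_ag.DSM2
import Pool.Agent.P.MP_68214b_ag.DST9

open Polynomial Filter Asymptotics NumberField Topology

namespace Pool.Agent.P.MP_68214b_ag.DS

theorem ms2 {J K : Type*} [Fintype J] [DecidableEq J] [Field K] [CharZero K] (g : J → K[X])
    (hg : ∀ i, 0 < (g i).natDegree) (𝔭 : Ideal (MvPolynomial J K)) [𝔭.IsPrime] (h0 : 𝔭 ≠ ⊥)
    (hφ : ∀ P, phi g P ∈ 𝔭 ↔ P ∈ 𝔭)
    (hm : ∀ (k : J) (b : MvPolynomial {m // m ≠ k} K), MvPolynomial.rename Subtype.val b ∈ 𝔭 → b = 0)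
    {k : J} (i j : {m // m ≠ k}) :
    ∃ (e : ℕ) (a b : MvPolynomial {m // m ≠ k} K), 0 < e ∧ a ≠ 0 ∧ b ≠ 0 ∧
      phi (fun m : {m // m ≠ k} => g m) a * b * aeval (MvPolynomial.X i) (derivative (g i)) ^ e =
        a * phi (fun m : {m // m ≠ k} => g m) b *
          aeval (MvPolynomial.X j) (derivative (g j)) ^ e := by
  obtain ⟨G, hG, hGp⟩ := Ideal.IsPrime.exists_mem_prime_of_ne_bot ‹𝔭.IsPrime› h0
  have hdeg : ∀ (l : J) (e : MvPolynomial J K ≃ₐ[K] (MvPolynomial {m // m ≠ l} K)[X]),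
      (∀ b, e (MvPolynomial.rename Subtype.val b) = C b) → 0 < (e G).natDegree := by
    intro l e he
    refine Nat.pos_of_ne_zero fun h => hGp.ne_zero ?_
    have h1 : G = MvPolynomial.rename Subtype.val ((e G).coeff 0) :=
      e.injective (by rw [he]; exact eq_C_of_natDegree_eq_zero h)
    have h2 : (e G).coeff 0 = 0 := hm l _ (by rw [← h1]; exact hG)
    rw [h1, h2, map_zero]
  obtain ⟨e, he1, he2, -⟩ := bridge (K := K) k
  have hdvd : ∀ H ∈ 𝔭, G ∣ H := by
    intro H hH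
    by_contra hn
    obtain ⟨u, v, r, hr, h1⟩ := exists_comb ((MulEquiv.prime_iff e.toMulEquiv).2 hGp)
      (hdeg k e he1) (H := e H) fun h => hn ((map_dvd_iff e).1 h)
    refine hr (hm k r ?_)
    have h2 : MvPolynomial.rename Subtype.val r = G * e.symm u + H * e.symm v :=
      e.injective (by rw [he1, ← h1]; simp)
    rw [h2]
    exact 𝔭.add_mem (𝔭.mul_mem_right _ hG) (𝔭.mul_mem_right _ hH)
  have hder : ∀ l, MvPolynomial.pderiv l G ∉ 𝔭 := by
    intro l hl
    obtain ⟨e', h1, -, h2⟩ := bridge (K := K) l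
    have h3 := hdeg l e' h1
    have h4 : e' G ∣ derivative (e' G) := h2 G ▸ (map_dvd_iff e').2 (hdvd _ hl)
    have h5 : derivative (e' G) ≠ 0 := fun h => h3.ne' (derivative_eq_zero.1 h)
    exact (natDegree_le_of_dvd h4 h5).not_gt (natDegree_derivative_lt h3.ne')
  obtain ⟨H, hH⟩ := hdvd _ ((hφ G).2 hG)
  let _ : Algebra (MvPolynomial {m // m ≠ k} K) (MvPolynomial J K ⧸ 𝔭) :=
    ((Ideal.Quotient.mk 𝔭).comp (MvPolynomial.rename Subtype.val).toRingHom).toAlgebra
  have hmap : ∀ b : MvPolynomial {m // m ≠ k} K, algebraMap _ (MvPolynomial J K ⧸ 𝔭) b =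
      Ideal.Quotient.mk 𝔭 (MvPolynomial.rename Subtype.val b) := fun _ => rfl
  have : FaithfulSMul (MvPolynomial {m // m ≠ k} K) (MvPolynomial J K ⧸ 𝔭) :=
    (faithfulSMul_iff_algebraMap_injective _ _).2 ((injective_iff_map_eq_zero _).2 fun b hb =>
      hm k b (Ideal.Quotient.eq_zero_iff_mem.1 hb))
  have hev : ∀ p : (MvPolynomial {m // m ≠ k} K)[X],
      aeval (Ideal.Quotient.mk 𝔭 (MvPolynomial.X k)) p = Ideal.Quotient.mk 𝔭 (e.symm p) := by
    intro p
    induction p using Polynomial.induction_on with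
    | C b => rw [aeval_C, hmap, ← he1, e.symm_apply_apply]
    | add p q hp hq => rw [map_add, hp, hq, map_add, map_add]
    | monomial n b h =>
      have h2 : e.symm X = MvPolynomial.X k := by rw [← he2, e.symm_apply_apply]
      rw [pow_succ, ← mul_assoc, map_mul, h, aeval_X, map_mul e.symm _ X, h2,
        map_mul (Ideal.Quotient.mk 𝔭)]
  have hx : IsAlgebraic (MvPolynomial {m // m ≠ k} K) (Ideal.Quotient.mk 𝔭 (MvPolynomial.X k)) :=
    ⟨e G, (map_ne_zero_iff e e.injective).2 hGp.ne_zero, by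
      rw [hev, e.symm_apply_apply, Ideal.Quotient.eq_zero_iff_mem.2 hG]⟩
  have : Algebra.IsAlgebraic (MvPolynomial {m // m ≠ k} K) (MvPolynomial J K ⧸ 𝔭) := by
    refine ⟨fun z => ?_⟩
    obtain ⟨P, rfl⟩ := Ideal.Quotient.mk_surjective z
    rw [← e.symm_apply_apply P, ← hev]
    generalize e P = p
    induction p using Polynomial.induction_on with
    | C b => rw [aeval_C]; exact isAlgebraic_algebraMap b
    | add p q hp hq => rw [map_add]; exact hp.add hq
    | monomial n b h => rw [pow_succ, ← mul_assoc, map_mul, aeval_X]; exact h.mul hx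
  let φA : (MvPolynomial J K ⧸ 𝔭) →+* MvPolynomial J K ⧸ 𝔭 :=
    Ideal.quotientMap 𝔭 (phi g).toRingHom fun P hP => (hφ P).2 hP
  have hφA : ∀ P, φA (Ideal.Quotient.mk 𝔭 P) = Ideal.Quotient.mk 𝔭 (phi g P) := fun _ => rfl
  have hE : ∀ l : {m // m ≠ k}, φA (Ideal.Quotient.mk 𝔭 (MvPolynomial.pderiv l.1 G)) *
      algebraMap (MvPolynomial {m // m ≠ k} K) _ (aeval (MvPolynomial.X l) (derivative (g l))) =
      Ideal.Quotient.mk 𝔭 (MvPolynomial.pderiv l.1 G) * Ideal.Quotient.mk 𝔭 H := by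
    intro l
    rw [hφA, hmap, rename_aeval_X, ← map_mul, ← pderiv_phi, hH, Derivation.leibniz, map_add,
      smul_eq_mul, smul_eq_mul, map_mul, map_mul, Ideal.Quotient.eq_zero_iff_mem.2 hG, zero_mul,
      zero_add, mul_comm]
  have hγ : ∀ l : {m // m ≠ k}, (aeval (MvPolynomial.X l) (derivative (g l)) :
      MvPolynomial {m // m ≠ k} K) ≠ 0 := fun l =>
    aeval_X_ne l fun h => (hg l).ne' (derivative_eq_zero.1 h)
  exact ms1 φA (phi fun m : {m // m ≠ k} => g m).toRingHom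
    (fun b => by rw [hmap, hφA, phi_rename, hmap]; rfl)
    ((injective_iff_map_eq_zero _).2 fun z hz => by
      obtain ⟨P, rfl⟩ := Ideal.Quotient.mk_surjective z
      rw [hφA, Ideal.Quotient.eq_zero_iff_mem, hφ] at hz
      exact Ideal.Quotient.eq_zero_iff_mem.2 hz)
    (fun h => hder i (Ideal.Quotient.eq_zero_iff_mem.1 h))
    (fun h => hder j (Ideal.Quotient.eq_zero_iff_mem.1 h)) (hγ i) (hγ j) (hE i) (hE j)

end Pool.Agent.P.MP_68214b_ag.DS
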