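import Pool.Agent.P.MP_68214b_ag.DSM3
import Pool.Agent.P.MP_68214b_ag.DSM4
import Pool.Agent.P.MP_68214b_ag.DSO2

open Polynomial Filter Asymptotics NumberField Topology

namespace Pool.Agent.P.MP_68214b_ag.DS

theorem orbi_of_id {I : Type*} [DecidableEq I] (g : I → ℂ[X]) (hg : ∀ i, 0 < (g i).natDegree)
    {i j : I} (hij : i ≠ j) {a b : MvPolynomial I ℂ} (ha : a ≠ 0) (hb : b ≠ 0) {e : ℕ} (he : 0 < e)
    (h : phi g a * b * aeval (MvPolynomial.X i) (derivative (g i)) ^ e =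
      a * phi g b * aeval (MvPolynomial.X j) (derivative (g j)) ^ e) : Orbi (g i) := by
  obtain ⟨E, hE1, hE2, -⟩ := bridge (K := ℂ) i
  set B := MvPolynomial {m // m ≠ i} ℂ
  set ψ : B →ₐ[ℂ] B := phi fun m : {m // m ≠ i} => g m with hψ
  set Φ : B[X] →+* B[X] := ((E : MvPolynomial I ℂ →ₐ[ℂ] B[X]).comp
    ((phi g).comp (E.symm : B[X] →ₐ[ℂ] MvPolynomial I ℂ))).toRingHom with hΦ
  have Φa : ∀ P, Φ (E P) = E (phi g P) := fun P => by simp [hΦ]
  have EX : ∀ q : ℂ[X], E (aeval (MvPolynomial.X i) q) = q.map (algebraMap ℂ B) := fun q => by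
    rw [← aeval_algHom_apply, hE2, aeval_def, eval₂_eq_eval_map]
    rw [show algebraMap ℂ B[X] = C.comp (algebraMap ℂ B) from rfl, ← Polynomial.map_map,
      eval_map, eval₂_C_X]
  have hder : derivative (g j) ≠ 0 := fun h0 => by
    have := derivative_eq_zero.1 h0
    have := hg j
    omega
  refine ms3 ψ (phi_inj _ fun m => hg m) (hg i) Φ (fun c => ?_) ?_ (a := E a) (b := E b)
    (by simpa using ha) (by simpa using hb)
    (γ := aeval (MvPolynomial.X (⟨j, hij.symm⟩ : {m // m ≠ i}) : B) (derivative (g j)))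
    (aeval_X_ne _ hder) he ?_
  · rw [← hE1, Φa, phi_rename, hE1]
  · rw [← hE2, Φa, phi_X, EX]
  · rw [Φa, Φa, ← EX, ← hE1, rename_aeval_X]
    simpa only [map_mul, map_pow] using congrArg E h

theorem dsm5_three {J : Type} {q : J → Prop}
    (h3 : ∀ i j k, i ≠ j → i ≠ k → j ≠ k → q i ∨ q j ∨ q k) {a b c : J} (ab : a ≠ b) (ac : a ≠ c)
    (bc : b ≠ c) : ∃ i j k, i ≠ j ∧ i ≠ k ∧ j ≠ k ∧ q i := by
  rcases h3 a b c ab ac bc with h | h | h
  · exact ⟨a, b, c, ab, ac, bc, h⟩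
  · exact ⟨b, a, c, ab.symm, bc, ac, h⟩
  · exact ⟨c, a, b, ac.symm, bc.symm, ab, h⟩

theorem dsm5_aux {K : Type*} [Field K] [CharZero K] (σ : K →+* ℂ) (n : ℕ) :
    ∀ {J : Type} [Fintype J] {g : J → K[X]} {x : J → ℕ → K}, Fintype.card J = n →
      (∀ i, Orb (g i) (x i)) →
      (∀ i j k, i ≠ j → i ≠ k → j ≠ k → NSa (g i) ∨ NSa (g j) ∨ NSa (g k)) → Dom x →
      ∀ {P : MvPolynomial J K}, P ≠ 0 → Van x P →
        (∃ i, Alg0 (x i)) ∨ ∃ i j, i ≠ j ∧ Dep (x i) (x j) := by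
  classical
  induction n using Nat.strong_induction_on with
  | _ n ih =>
  intro J _ g x hn h h3 hD P hP hV
  by_cases hm : ∃ (k : J) (b : MvPolynomial {m // m ≠ k} K),
      b ≠ 0 ∧ Van x (MvPolynomial.rename Subtype.val b)
  · obtain ⟨k, b, hb, hv⟩ := hm
    have hlt : Fintype.card {m // m ≠ k} < n := by
      rw [← hn]; exact Fintype.card_subtype_lt (x := k) (by simp)
    rcases ih _ hlt (g := fun m : {m // m ≠ k} => g m) (x := fun m : {m // m ≠ k} => x m) rfl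
      (fun m => h m) (fun i j l a b c => h3 i j l (Subtype.coe_ne_coe.2 a) (Subtype.coe_ne_coe.2 b)
        (Subtype.coe_ne_coe.2 c)) (hD.comp Subtype.val) hb ((van_rename _ _ _).1 hv) with
      ⟨i, hi⟩ | ⟨i, j, hij, hd⟩
    · exact Or.inl ⟨i, hi⟩
    · exact Or.inr ⟨i, j, Subtype.coe_ne_coe.2 hij, hd⟩
  rcases isEmpty_or_nonempty J with hJ | ⟨⟨a⟩⟩
  · exact absurd hV (not_van_empty hP)
  by_cases h1 : ∀ k, k = a
  · exact Or.inl ⟨a, alg0_of_mv h1 hP hV⟩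
  obtain ⟨b, hb⟩ := not_forall.1 h1
  by_cases h2 : ∀ k, k = a ∨ k = b
  · exact Or.inr ⟨a, b, Ne.symm hb, dep_of_mv (Ne.symm hb) h2 hP hV⟩
  obtain ⟨c, hc⟩ := not_forall.1 h2
  rw [not_or] at hc
  obtain ⟨i, j, k, ij, ik, jk, hi⟩ := dsm5_three h3 (Ne.symm hb) (Ne.symm hc.1) (Ne.symm hc.2)
  exfalso
  let 𝔭 : Ideal (MvPolynomial J K) :=
    { carrier := {Q | Van x Q}
      add_mem' := fun {p q} hp hq => (hp.and hq).mono fun n hn => by
        rw [map_add, hn.1, hn.2, add_zero]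
      zero_mem' := Eventually.of_forall fun n => map_zero _
      smul_mem' := fun p q hq => hq.mono fun n hn => by
        rw [smul_eq_mul, map_mul, hn, mul_zero] }
  have hpr : 𝔭.IsPrime := ⟨fun ht => by
      have : Van x 1 := show (1 : MvPolynomial J K) ∈ 𝔭 from ht ▸ Submodule.mem_top
      obtain ⟨n, hn⟩ := this.exists
      simp at hn, fun {p q} hpq => hD p q hpq⟩
  have hg : ∀ m, 0 < (g m).natDegree := fun m => by have := (h m).deg; omega
  obtain ⟨e, u, v, he, hu, hv, hid⟩ := ms2 g hg 𝔭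
    (fun h0 => hP (by have : P ∈ 𝔭 := hV; rwa [h0, Ideal.mem_bot] at this))
    (fun Q => van_phi (fun m => (h m).step) Q)
    (fun k b hb => by_contra fun h0 => hm ⟨k, b, h0, hb⟩) (k := k) ⟨i, ik⟩ ⟨j, jk⟩
  have inj := MvPolynomial.map_injective (σ := {m // m ≠ k}) σ σ.injective
  refine (hi σ).orb (orbi_of_id (fun m : {m // m ≠ k} => (g m).map σ)
    (fun m => by rw [natDegree_map]; exact hg m) (i := ⟨i, ik⟩) (j := ⟨j, jk⟩)
    (fun e => ij (congrArg Subtype.val e)) (a := MvPolynomial.map σ u) (b := MvPolynomial.map σ v)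
    ((map_ne_zero_iff _ inj).2 hu) ((map_ne_zero_iff _ inj).2 hv) he ?_)
  have := congrArg (MvPolynomial.map σ) hid
  simpa only [map_mul, map_pow, phi_map, map_aeval_X, ← derivative_map] using this

theorem msl {K : Type*} [Field K] [CharZero K] (σ : K →+* ℂ) {J : Type} [Fintype J] {g : J → K[X]}
    {x : J → ℕ → K} (h : ∀ i, Orb (g i) (x i))
    (h3 : ∀ i j k, i ≠ j → i ≠ k → j ≠ k → NSa (g i) ∨ NSa (g j) ∨ NSa (g k)) (hD : Dom x)
    {P : MvPolynomial J K} (hP : P ≠ 0) (hV : Van x P) :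
    (∃ i, Alg0 (x i)) ∨ ∃ i j, i ≠ j ∧ Dep (x i) (x j) := dsm5_aux σ _ rfl h h3 hD hP hV

end Pool.Agent.P.MP_68214b_ag.DS
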