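import Pool.Agent.P.MP_68214b_ag.DSDef

open Polynomial Filter Asymptotics NumberField Topology

namespace Pool.Agent.P.MP_68214b_ag.DS

namespace Sn
variable {R S : Type*} [CommRing R] [CommRing S] (ν : Sn R)

theorem pow_le (a : R) (k : ℕ) : ν.f (a ^ k) ≤ ν.f a ^ k := by
  induction k with
  | zero => simpa using ν.one
  | succ k ih =>
    rw [pow_succ, pow_succ]
    exact (ν.mul _ _).trans (mul_le_mul_of_nonneg_right ih (ν.nonneg _))

theorem prod_le {ι : Type*} (s : Finset ι) (g : ι → R) :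
    ν.f (∏ i ∈ s, g i) ≤ ∏ i ∈ s, ν.f (g i) := by
  classical
  induction s using Finset.induction_on with
  | empty => simpa using ν.one
  | insert a s ha ih =>
    rw [Finset.prod_insert ha, Finset.prod_insert ha]
    exact (ν.mul _ _).trans (mul_le_mul_of_nonneg_left ih (ν.nonneg _))

theorem sub_le (a b : R) : ν.f (a - b) ≤ ν.f a + ν.f b := by
  rw [sub_eq_add_neg, ← ν.neg b]
  exact ν.add _ _

theorem natCast_le (n : ℕ) : ν.f (n : R) ≤ n := by
  induction n with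
  | zero => simp [ν.zero]
  | succ n ih =>
    push_cast
    exact (ν.add _ _).trans (add_le_add ih ν.one)

theorem intCast_le (n : ℤ) : ν.f (n : R) ≤ |(n : ℝ)| := by
  obtain ⟨m, rfl | rfl⟩ := n.eq_nat_or_neg
  · simpa using ν.natCast_le m
  · simpa [ν.neg] using ν.natCast_le m

theorem l1_eq (p : R[X]) {s : Finset ℕ} (hs : p.support ⊆ s) :
    ν.l1.f p = ∑ i ∈ s, ν.f (p.coeff i) := ν.l1_aux p hs

theorem l1_monomial (k : ℕ) (a : R) : ν.l1.f (monomial k a) = ν.f a := ν.l1_mon k a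

theorem l1_C (a : R) : ν.l1.f (C a) = ν.f a := ν.l1_mon 0 a

theorem l1_X : ν.l1.f X ≤ 1 := (ν.l1_mon 1 1).le.trans ν.one

theorem coeff_le (p : R[X]) (k : ℕ) : ν.f (p.coeff k) ≤ ν.l1.f p := by
  by_cases h : k ∈ p.support
  · exact Finset.single_le_sum (f := fun i => ν.f (p.coeff i)) (fun i _ => ν.nonneg _) h
  · rw [notMem_support_iff.1 h, ν.zero]
    exact ν.l1.nonneg _

theorem coeff2_le (W : R[X][X]) (i j : ℕ) : ν.f ((W.coeff j).coeff i) ≤ ν.l2.f W :=
  (ν.coeff_le _ i).trans (ν.l1.coeff_le W j)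

theorem l1_le (p : R[X]) {D : ℕ} (hD : p.natDegree ≤ D) {B : ℝ} (hB : ∀ i, ν.f (p.coeff i) ≤ B) :
    ν.l1.f p ≤ (D + 1) * B := by
  rw [ν.l1_eq p (s := Finset.range (D + 1))
    (supp_subset_range (Nat.lt_succ_of_le hD))]
  simpa using Finset.sum_le_card_nsmul (Finset.range (D + 1)) _ B fun i _ => hB i

theorem l1_map (ν' : Sn S) (φ : R →+* S) (h : ∀ a, ν'.f (φ a) ≤ ν.f a) (p : R[X]) :
    ν'.l1.f (p.map φ) ≤ ν.l1.f p := by
  rw [ν'.l1_eq _ (support_map_subset φ p)]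
  exact Finset.sum_le_sum fun i _ => by rw [coeff_map]; exact h _

theorem l2_map (ν' : Sn S) (φ : R →+* S) (h : ∀ a, ν'.f (φ a) ≤ ν.f a) (W : R[X][X]) :
    ν'.l2.f (map2 φ W) ≤ ν.l2.f W :=
  ν.l1.l1_map ν'.l1 (mapRingHom φ) (ν.l1_map ν' φ h) W

theorem eval₂_le_sum (ν' : Sn S) (φ : R →+* S) (x : S) (p : R[X]) :
    ν'.f (p.eval₂ φ x) ≤ ∑ i ∈ p.support, ν'.f (φ (p.coeff i)) * ν'.f x ^ i := by
  rw [eval₂_eq_sum, Polynomial.sum_def]
  exact (ν'.sum_le _ _).trans (Finset.sum_le_sum fun i _ =>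
    (ν'.mul _ _).trans (mul_le_mul_of_nonneg_left (ν'.pow_le x i) (ν'.nonneg _)))

theorem eval₂_le (ν' : Sn S) (φ : R →+* S) (h : ∀ a, ν'.f (φ a) ≤ ν.f a) {x : S} {t : ℝ}
    (ht : 1 ≤ t) (hx : ν'.f x ≤ t) {p : R[X]} {D : ℕ} (hD : p.natDegree ≤ D) :
    ν'.f (p.eval₂ φ x) ≤ ν.l1.f p * t ^ D := by
  refine (eval₂_le_sum ν' φ x p).trans ?_
  rw [ν.l1_eq p subset_rfl, Finset.sum_mul]
  refine Finset.sum_le_sum fun i hi => mul_le_mul (h _) ?_ (pow_nonneg (ν'.nonneg _) _) (ν.nonneg _)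
  exact (pow_le_pow_left₀ (ν'.nonneg _) hx i).trans
    (pow_le_pow_right₀ ht ((le_natDegree_of_mem_supp i hi).trans hD))

theorem ev2_le (ν' : Sn S) (φ : R →+* S) (h : ∀ a, ν'.f (φ a) ≤ ν.f a) {x y : S} {t : ℝ}
    (ht : 1 ≤ t) (hx : ν'.f x ≤ t) (hy : ν'.f y ≤ t) {W : R[X][X]} {D1 D2 : ℕ} (hW : Bd W D1 D2) :
    ν'.f (ev2 φ x y W) ≤ ν.l2.f W * t ^ (D1 + D2) := by
  refine (eval₂_le_sum ν' (eval₂RingHom φ x) y W).trans ?_
  rw [ν.l1.l1_eq W subset_rfl, Finset.sum_mul]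
  refine Finset.sum_le_sum fun i hi => ?_
  rw [pow_add, ← mul_assoc]
  refine mul_le_mul (ν.eval₂_le ν' φ h ht hx (hW.1 i)) ?_ (pow_nonneg (ν'.nonneg _) _)
    (mul_nonneg (ν.l1.nonneg _) (pow_nonneg (zero_le_one.trans ht) _))
  exact (pow_le_pow_left₀ (ν'.nonneg _) hy i).trans
    (pow_le_pow_right₀ ht ((le_natDegree_of_mem_supp i hi).trans hW.2))

theorem det_le {n : Type*} [Fintype n] [DecidableEq n] (M : Matrix n n R) :
    ν.f M.det ≤ ∏ j, ∑ i, ν.f (M i j) := by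
  rw [Matrix.det_apply, Finset.prod_univ_sum]
  refine (ν.sum_le _ _).trans ?_
  have h1 (σ : Equiv.Perm n) :
      ν.f (Equiv.Perm.sign σ • ∏ i, M (σ i) i) ≤ ∏ i, ν.f (M (σ i) i) := by
    rcases Int.units_eq_one_or (Equiv.Perm.sign σ) with e | e
    · rw [e, one_smul]
      exact ν.prod_le _ _
    · rw [e, Units.neg_smul, one_smul, ν.neg]
      exact ν.prod_le _ _
  refine (Finset.sum_le_sum fun σ _ => h1 σ).trans ?_
  rw [← Finset.sum_image (s := Finset.univ) (g := fun σ : Equiv.Perm n => (σ : n → n))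
    (f := fun p : n → n => ∏ i, ν.f (M (p i) i)) fun a _ b _ e => DFunLike.coe_injective e]
  exact Finset.sum_le_sum_of_subset_of_nonneg (fun p _ => by simp)
    fun p _ _ => Finset.prod_nonneg fun i _ => ν.nonneg _

theorem dsn1_col {N : ℕ} (p : R[X]) (j k : ℕ) :
    ∑ i : Fin N, ν.f (if (i : ℕ) ∈ Set.Icc j (j + k) then p.coeff (i - j) else 0) ≤ ν.l1.f p := by
  classical
  have e : ∑ i : Fin N, ν.f (if (i : ℕ) ∈ Set.Icc j (j + k) then p.coeff (i - j) else 0) =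
      ∑ i ∈ Finset.univ.filter fun i : Fin N => i.val ∈ Set.Icc j (j + k),
        ν.f (p.coeff (i.val - j)) := by
    rw [Finset.sum_filter]
    refine Finset.sum_congr rfl fun i _ => ?_
    split_ifs
    · rfl
    · exact ν.zero
  rw [e, ← Finset.sum_image (g := fun i : Fin N => (i : ℕ) - j) (f := fun l => ν.f (p.coeff l))
    fun a ha b hb h => Fin.ext (by
      have h1 := (Finset.mem_filter.1 ha).2.1
      have h2 := (Finset.mem_filter.1 hb).2.1
      dsimp only at h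
      omega)]
  rw [ν.l1_eq p Finset.subset_union_left]
  exact Finset.sum_le_sum_of_subset_of_nonneg Finset.subset_union_right fun i _ _ => ν.nonneg _

theorem res_le (f g : R[X]) (m n : ℕ) :
    ν.f (resultant f g m n) ≤ ν.l1.f f ^ n * ν.l1.f g ^ m := by
  refine (ν.det_le _).trans ?_
  rw [Fin.prod_univ_add, mul_comm]
  refine mul_le_mul ?_ ?_ (Finset.prod_nonneg fun j _ => Finset.sum_nonneg fun i _ => ν.nonneg _)
    (pow_nonneg (ν.l1.nonneg _) _)
  · refine (Finset.prod_le_prod (g := fun _ => ν.l1.f f)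
      (fun j _ => Finset.sum_nonneg fun i _ => ν.nonneg _) fun j _ => ?_).trans (by simp)
    simpa only [sylvester, Matrix.of_apply, Fin.addCases_right] using ν.dsn1_col f j m
  · refine (Finset.prod_le_prod (g := fun _ => ν.l1.f g)
      (fun j _ => Finset.sum_nonneg fun i _ => ν.nonneg _) fun j _ => ?_).trans (by simp)
    simpa only [sylvester, Matrix.of_apply, Fin.addCases_left] using ν.dsn1_col g j n

end Sn

theorem dsn1_ev2 {R S : Type*} [CommRing R] [CommRing S] (φ : R →+* S) (x y : S) (W : R[X][X]) :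
    ev2 φ x y W = (map2 φ W).evalEval x y := eval₂_eval₂RingHom_apply φ x y W

theorem dsn1_map2 {R S T : Type*} [CommRing R] [CommRing S] [CommRing T] (φ : R →+* S)
    (ψ : S →+* T) (W : R[X][X]) : map2 ψ (map2 φ W) = map2 (ψ.comp φ) W := by
  simp only [coe_mapRingHom, Polynomial.map_map, mapRingHom_comp]

theorem ev2_map2 {R S T : Type*} [CommRing R] [CommRing S] [CommRing T] (φ : R →+* S)
    (ψ : S →+* T) (x y : T) (W : R[X][X]) : ev2 ψ x y (map2 φ W) = ev2 (ψ.comp φ) x y W := by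
  rw [dsn1_ev2, dsn1_ev2, dsn1_map2]

theorem ev2_eq {R S : Type*} [CommRing R] [CommRing S] (φ : R →+* S) (x y : S) (W : R[X][X]) :
    ev2 φ x y W = (map2 φ W).evalEval x y :=
  dsn1_ev2 φ x y W

theorem map_evalEval {R S : Type*} [CommRing R] [CommRing S] (φ : R →+* S) (x y : R)
    (W : R[X][X]) : φ (W.evalEval x y) = ev2 φ (φ x) (φ y) W := by
  rw [dsn1_ev2]
  exact (map_mapRingHom_evalEval φ W x y).symm

theorem map2_inj {R S : Type*} [CommRing R] [CommRing S] {φ : R →+* S}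
    (h : Function.Injective φ) : Function.Injective (map2 φ) :=
  map_injective _ (map_injective φ h)

theorem map2_map2 {R S T : Type*} [CommRing R] [CommRing S] [CommRing T] (φ : R →+* S)
    (ψ : S →+* T) (W : R[X][X]) : map2 ψ (map2 φ W) = map2 (ψ.comp φ) W :=
  dsn1_map2 φ ψ W

theorem map2_cmb {R S T ι : Type*} [CommRing R] [CommRing S] [CommRing T] [Fintype ι] (φ : R →+* S)
    (ψ : S →+* T) (P : ι → R[X][X]) (c : ι → S) :
    map2 ψ (cmb φ P c) = cmb (ψ.comp φ) P fun k => ψ (c k) := by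
  simp only [cmb, map_sum, map_mul, map2_map2]
  refine Finset.sum_congr rfl fun k _ => ?_
  simp

end Pool.Agent.P.MP_68214b_ag.DS
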