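import Pool.Agent.P.MP_68214b_ag.DSN1

open Polynomial Filter Asymptotics NumberField Topology

namespace Pool.Agent.P.MP_68214b_ag.DS

variable {R S : Type*} [CommRing R] [CommRing S]

theorem coeff_dX (W : R[X][X]) (j : ℕ) : (dX W).coeff j = derivative (W.coeff j) := by
  unfold dX
  rw [sum_def, finsetSum_coeff, Finset.sum_eq_single j]
  · simp
  · intro i _ hi
    rw [coeff_monomial, if_neg hi]
  · intro hj
    rw [notMem_support_iff.1 hj]
    simp

theorem isDer_dX : IsDer (dX : R[X][X] → R[X][X]) := by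
  refine ⟨fun a b => ?_, fun a b => ?_⟩
  · ext1 j
    rw [coeff_add, coeff_dX, coeff_dX, coeff_dX, coeff_add, derivative_add]
  · ext1 j
    rw [coeff_add, coeff_dX, coeff_mul, coeff_mul, coeff_mul, derivative_sum,
      ← Finset.sum_add_distrib]
    refine Finset.sum_congr rfl fun x _ => ?_
    rw [coeff_dX, coeff_dX, derivative_mul, add_comm]

theorem isDer_der (g h : R[X][X]) : IsDer (der g h) := by
  refine ⟨fun a b => ?_, fun a b => ?_⟩
  · unfold der
    rw [isDer_dX.add, derivative_add]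
    ring
  · unfold der
    rw [isDer_dX.mul, derivative_mul]
    ring

theorem der_CC (g h : R[X][X]) (c : R) : der g h (C (C c)) = 0 := by
  have : dX (C (C c) : R[X][X]) = 0 := by
    ext1 j
    rw [coeff_dX, coeff_C]
    split_ifs <;> simp
  unfold der
  rw [this, derivative_C]
  ring

theorem map2_dX (φ : R →+* S) (W : R[X][X]) : map2 φ (dX W) = dX (map2 φ W) := by
  ext1 j
  simp only [coe_mapRingHom, coeff_map, coeff_dX, derivative_map]

theorem map2_derivative (φ : R →+* S) (W : R[X][X]) :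
    map2 φ (derivative W) = derivative (map2 φ W) := by
  simp only [coe_mapRingHom, derivative_map]

theorem map2_der (φ : R →+* S) (g h W : R[X][X]) :
    map2 φ (der g h W) = der (map2 φ g) (map2 φ h) (map2 φ W) := by
  unfold der
  rw [map_add, map_mul, map_mul, map2_dX, map2_derivative]

theorem map_hasse (φ : R →+* S) (j : ℕ) (p : R[X]) :
    (hasseDeriv j p).map φ = hasseDeriv j (p.map φ) := by
  ext k
  simp only [coeff_map, hasseDeriv_coeff, map_mul, map_natCast]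

theorem hasse_cmb {ι : Type*} [Fintype ι] (φ : R →+* S) (P : ι → R[X][X]) (c : ι → S) (j : ℕ) :
    hasseDeriv j (cmb φ P c) = cmb φ (fun k => hasseDeriv j (P k)) c := by
  unfold cmb
  rw [map_sum]
  refine Finset.sum_congr rfl fun k _ => ?_
  rw [C_mul', C_mul', map_smul, coe_mapRingHom, map_hasse]

theorem tc_map (φ : R →+* S) (y1 y2 : R) (W : R[X][X]) (i j : ℕ) :
    φ (tc y1 y2 W i j) = tc (φ y1) (φ y2) (map2 φ W) i j := by
  unfold tc
  rw [← coeff_map, map_taylor, ← coe_mapRingHom φ, ← coeff_map, map_taylor]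
  simp

theorem wr_map (φ : R →+* S) {δ : R → R} {δ' : S → S} (h : ∀ a, φ (δ a) = δ' (φ a)) {n : ℕ}
    (a : Fin n → R) : φ (wr δ a) = wr δ' fun i => φ (a i) := by
  have hk : ∀ (k : ℕ) (x : R), φ (δ^[k] x) = δ'^[k] (φ x) := fun k => by
    induction k with
    | zero => intro x; rfl
    | succ k ih => intro x; rw [Function.iterate_succ_apply, Function.iterate_succ_apply, ih, h]
  unfold wr
  rw [RingHom.map_det]
  congr 1
  ext j i
  simp [hk]

namespace Sn
variable (ν : Sn R)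

theorem l1_derivative {p : R[X]} {D : ℕ} (hD : p.natDegree ≤ D) :
    ν.l1.f (derivative p) ≤ D * ν.l1.f p := by
  have e : derivative p = ∑ i ∈ p.support, monomial (i - 1) (p.coeff i * i) := by
    rw [derivative_apply, sum_def]
    exact Finset.sum_congr rfl fun i _ => C_mul_X_pow_eq_monomial
  rw [e, ν.l1_eq p subset_rfl, Finset.mul_sum]
  refine (ν.l1.sum_le _ _).trans (Finset.sum_le_sum fun i hi => ?_)
  rw [ν.l1_monomial, mul_comm (D : ℝ)]
  refine (ν.mul _ _).trans (mul_le_mul_of_nonneg_left ((ν.natCast_le i).trans ?_) (ν.nonneg _))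
  exact_mod_cast (le_natDegree_of_mem_supp i hi).trans hD

theorem l1_hasse {p : R[X]} {D : ℕ} (hD : p.natDegree ≤ D) (j : ℕ) :
    ν.l1.f (hasseDeriv j p) ≤ 2 ^ D * ν.l1.f p := by
  rw [hasseDeriv_apply, sum_def, ν.l1_eq p subset_rfl, Finset.mul_sum]
  refine (ν.l1.sum_le _ _).trans (Finset.sum_le_sum fun i hi => ?_)
  rw [ν.l1_monomial]
  refine (ν.mul _ _).trans (mul_le_mul_of_nonneg_right ((ν.natCast_le _).trans ?_) (ν.nonneg _))
  have h1 : i.choose j ≤ 2 ^ D := (Nat.choose_le_two_pow i j).trans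
    (Nat.pow_le_pow_right (by norm_num) ((le_natDegree_of_mem_supp i hi).trans hD))
  exact_mod_cast h1

theorem l1_taylor {p : R[X]} {D : ℕ} (hD : p.natDegree ≤ D) (y : R) :
    ν.l1.f (taylor y p) ≤ ν.l1.f p * (1 + ν.f y) ^ D := by
  have h0 := ν.nonneg y
  rw [taylor_apply, comp]
  refine ν.eval₂_le ν.l1 C (fun a => (ν.l1_C a).le) (by linarith) ?_ hD
  refine (ν.l1.add _ _).trans ?_
  rw [ν.l1_C]
  have := ν.l1_X
  linarith

theorem l2_dX {W : R[X][X]} {D1 D2 : ℕ} (hW : Bd W D1 D2) : ν.l2.f (dX W) ≤ D1 * ν.l2.f W := by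
  have hs : (dX W).support ⊆ W.support := fun j hj => by
    rw [mem_support_iff] at hj ⊢
    intro h0
    rw [coeff_dX, h0, derivative_zero] at hj
    exact hj rfl
  rw [ν.l1.l1_eq _ hs, ν.l1.l1_eq W subset_rfl, Finset.mul_sum]
  refine Finset.sum_le_sum fun j _ => ?_
  rw [coeff_dX]
  exact ν.l1_derivative (hW.1 j)

theorem tc_le {W : R[X][X]} {D1 D2 : ℕ} (hW : Bd W D1 D2) {y1 y2 : R} {t : ℝ} (ht : 1 ≤ t)
    (h1 : ν.f y1 ≤ t) (h2 : ν.f y2 ≤ t) (i j : ℕ) :
    ν.f (tc y1 y2 W i j) ≤ ν.l2.f W * (2 * t) ^ (D1 + D2) := by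
  have hd : ((taylor (C y2) W).coeff j).natDegree ≤ D1 := by
    rw [taylor_coeff, eval_eq_sum, sum_def]
    refine natDegree_sum_le_of_forall_le _ _ fun k _ => ?_
    rw [hasseDeriv_coeff, ← C_pow, ← C_eq_natCast]
    exact (natDegree_mul_C_le _ _).trans ((natDegree_C_mul_le _ _).trans (hW.1 _))
  have g1 := ν.nonneg y1
  have g2 := ν.nonneg y2
  have b1 : ν.l1.f ((taylor (C y2) W).coeff j) ≤ ν.l2.f W * (2 * t) ^ D2 := by
    refine (ν.l1.coeff_le _ _).trans ((ν.l1.l1_taylor hW.2 (C y2)).trans ?_)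
    rw [ν.l1_C]
    exact mul_le_mul_of_nonneg_left (pow_le_pow_left₀ (by linarith) (by linarith) _)
      (ν.l2.nonneg _)
  refine (ν.coeff_le _ _).trans ((ν.l1_taylor hd y1).trans ?_)
  rw [add_comm D1, pow_add, ← mul_assoc]
  exact mul_le_mul b1 (pow_le_pow_left₀ (by linarith) (by linarith) _) (by positivity)
    ((ν.l1.nonneg _).trans b1)

theorem l2_cmb (ν' : Sn S) {ι : Type*} [Fintype ι] (φ : R →+* S) (h : ∀ a, ν'.f (φ a) ≤ ν.f a)
    (P : ι → R[X][X]) (c : ι → S) {H B : ℝ} (hP : ∀ k, ν.l2.f (P k) ≤ H) (hc : ∀ k, ν'.f (c k) ≤ B) :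
    ν'.l2.f (cmb φ P c) ≤ Fintype.card ι * (B * H) := by
  unfold cmb
  refine (ν'.l2.sum_le _ _).trans ((Finset.sum_le_card_nsmul _ _ (B * H) fun k _ => ?_).trans
    (le_of_eq (by rw [nsmul_eq_mul, Finset.card_univ])))
  refine (ν'.l2.mul _ _).trans (mul_le_mul ?_ ((ν.l2_map ν' φ h _).trans (hP k)) (ν'.l2.nonneg _)
    ((ν'.nonneg _).trans (hc k)))
  rw [ν'.l1.l1_C, ν'.l1_C]
  exact hc k

end Sn

end Pool.Agent.P.MP_68214b_ag.DS
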