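import Pool.Agent.P.MP_68214b_ag.DSN4

open Polynomial Filter Asymptotics NumberField Topology

namespace Pool.Agent.P.MP_68214b_ag.DS

variable {K : Type} [Field K] [NumberField K]

theorem rn_mono {L : Type*} [Field L] {t a : L} (ht : IsIntegral ℤ t) {k l : ℕ}
    (h : IsIntegral ℤ (t ^ k * a)) (hl : k ≤ l) : IsIntegral ℤ (t ^ l * a) := by
  obtain ⟨j, rfl⟩ := Nat.exists_eq_add_of_le' hl
  rw [pow_add, mul_assoc]
  exact (ht.pow j).mul h

theorem poly_den (p : K[X]) {D : ℕ} (hD : p.natDegree ≤ D) : ∃ M : ℕ, 0 < M ∧ ∀ t x : K,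
    IsIntegral ℤ t → IsIntegral ℤ (t * x) → IsIntegral ℤ ((M : K) * (t ^ D * p.eval x)) := by
  classical
  obtain ⟨M, hM, h⟩ := exists_den ((Finset.range (D + 1)).image p.coeff)
  refine ⟨M, hM, fun t x ht hx => ?_⟩
  rw [eval_eq_sum_range' (Nat.lt_succ_of_le hD), Finset.mul_sum, Finset.mul_sum]
  refine IsIntegral.sum _ fun i hi => ?_
  obtain ⟨j, rfl⟩ := Nat.exists_eq_add_of_le (Nat.lt_succ_iff.1 (Finset.mem_range.1 hi))
  rw [show (M : K) * (t ^ (i + j) * (p.coeff i * x ^ i)) = M * p.coeff i * (t * x) ^ i * t ^ j by ring]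
  exact ((h _ (Finset.mem_image_of_mem _ hi)).mul (hx.pow i)).mul (ht.pow j)

theorem ev2_den {G : K[X][X]} {D : ℕ} (hG : Bd G D D) : ∃ M : ℕ, 0 < M ∧ ∀ t x y : K,
    IsIntegral ℤ t → IsIntegral ℤ (t * x) → IsIntegral ℤ (t * y) →
      IsIntegral ℤ ((M : K) * (t ^ (2 * D) * G.evalEval x y)) := by
  choose M hM h using fun j => poly_den (G.coeff j) (hG.1 j)
  refine ⟨∏ j ∈ Finset.range (D + 1), M j, Finset.prod_pos fun j _ => hM j,
    fun t x y ht hx hy => ?_⟩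
  rw [evalEval, eval_eq_sum_range' (Nat.lt_succ_of_le hG.2), eval_finsetSum, Finset.mul_sum,
    Finset.mul_sum]
  refine IsIntegral.sum _ fun i hi => ?_
  have h1 := Den.mono (h i t x ht hx) (Finset.dvd_prod_of_mem M hi)
  generalize ((∏ j ∈ Finset.range (D + 1), M j : ℕ) : K) = m at h1 ⊢
  obtain ⟨j, rfl⟩ := Nat.exists_eq_add_of_le (Nat.lt_succ_iff.1 (Finset.mem_range.1 hi))
  rw [eval_mul, eval_pow, eval_C, show m * (t ^ (2 * (i + j)) * ((G.coeff i).eval x * y ^ i)) =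
    m * (t ^ (i + j) * (G.coeff i).eval x) * (t * y) ^ i * t ^ j by ring]
  exact (h1.mul (hy.pow i)).mul (ht.pow j)

theorem mv_den {J : Type*} (P : MvPolynomial J K) {S : ℕ} (hS : P.totalDegree ≤ S) :
    ∃ M : ℕ, 0 < M ∧ ∀ (t : K) (x : J → K), IsIntegral ℤ t → (∀ i, IsIntegral ℤ (t * x i)) →
      IsIntegral ℤ ((M : K) * (t ^ S * MvPolynomial.eval x P)) := by
  classical
  obtain ⟨M, hM, h⟩ := exists_den (P.support.image fun m => P.coeff m)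
  refine ⟨M, hM, fun t x ht hx => ?_⟩
  rw [MvPolynomial.eval_eq, Finset.mul_sum, Finset.mul_sum]
  refine IsIntegral.sum _ fun m hm => ?_
  obtain ⟨j, rfl⟩ := Nat.exists_eq_add_of_le ((MvPolynomial.le_totalDegree hm).trans hS)
  have e : ∏ i ∈ m.support, (t * x i) ^ m i =
      t ^ (m.sum fun _ e => e) * ∏ i ∈ m.support, x i ^ m i := by
    simp only [mul_pow, Finset.prod_mul_distrib, Finset.prod_pow_eq_pow_sum, Finsupp.sum]
  rw [show (M : K) * (t ^ ((m.sum fun _ e => e) + j) * (P.coeff m * ∏ i ∈ m.support, x i ^ m i)) =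
    M * P.coeff m * (∏ i ∈ m.support, (t * x i) ^ m i) * t ^ j by rw [e]; ring]
  exact ((h _ (Finset.mem_image_of_mem _ hm)).mul
    (IsIntegral.prod _ fun i _ => (hx i).pow _)).mul (ht.pow j)

/-- the denominators of an orbit -/
theorem Orb.den {f : K[X]} {x : ℕ → K} (h : Orb f x) :
    ∃ N : ℕ, 0 < N ∧ ∀ n, IsIntegral ℤ ((N : K) ^ f.natDegree ^ n * x n) := by
  obtain ⟨M, hM, h1⟩ := poly_den f le_rfl
  obtain ⟨M0, hM0, h0⟩ := exists_den ({x 0} : Finset K)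
  have i0 : IsIntegral ℤ ((M * M0 : ℕ) : K) := isIntegral_natCast _
  have key : ∀ n, ∃ e, e + 1 ≤ 2 * f.natDegree ^ n ∧ IsIntegral ℤ (((M * M0 : ℕ) : K) ^ e * x n) :=
    fun n => by
    induction n with
    | zero =>
      refine ⟨1, by simp, ?_⟩
      rw [pow_one]
      exact Den.mono (h0 _ (Finset.mem_singleton_self _)) (dvd_mul_left _ _)
    | succ n ih =>
      obtain ⟨e, he, ih⟩ := ih
      refine ⟨e * f.natDegree + 1, ?_, ?_⟩
      · have := Nat.mul_le_mul_right f.natDegree he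
        have := h.deg
        rw [pow_succ]
        nlinarith
      · rw [h.step, pow_succ', pow_mul, mul_assoc]
        exact Den.mono (h1 _ _ (i0.pow e) ih) (dvd_mul_right _ _)
  refine ⟨(M * M0) ^ 2, by positivity, fun n => ?_⟩
  obtain ⟨e, he, h2⟩ := key n
  rw [Nat.cast_pow, ← pow_mul]
  exact rn_mono i0 h2 (by omega)

/-- denominators and houses grow at most like Λ ^ d ^ n -/
def Gr (d N : ℕ) (Λ : ℝ) (x : ℕ → K) : Prop :=
  ∀ n, IsIntegral ℤ ((N : K) ^ d ^ n * x n) ∧ house (x n) ≤ Λ ^ d ^ n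

theorem exists_gr {J : Type*} [Finite J] {f : J → K[X]} {x : J → ℕ → K} {d : ℕ}
    (hO : ∀ i, Orb (f i) (x i)) (hd : ∀ i, (f i).natDegree = d) :
    ∃ (N : ℕ) (Λ : ℝ), 0 < N ∧ (N : ℝ) ≤ Λ ∧ 1 ≤ Λ ∧ ∀ i, Gr d N Λ (x i) := by
  have := Fintype.ofFinite J
  choose Λ l1 l2 using fun i => growth_up (hO i).deg (hO i).step
  choose N n1 n2 using fun i => (hO i).den
  obtain ⟨B, hB⟩ := (Set.finite_range Λ).bddAbove
  have p : 0 < ∏ i, N i := Finset.prod_pos fun i _ => n1 i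
  refine ⟨∏ i, N i, max ((∏ i, N i : ℕ) : ℝ) B, p, le_max_left _ _,
    le_max_of_le_left (Nat.one_le_cast.2 p), fun i n => ⟨?_, ?_⟩⟩
  · have := n2 i n
    rw [hd, ← Nat.cast_pow] at this
    rw [← Nat.cast_pow]
    exact Den.mono this (pow_dvd_pow_of_dvd (Finset.dvd_prod_of_mem N (Finset.mem_univ i)) _)
  · exact (l2 i n).trans (hd i ▸ pow_le_pow_left₀ (zero_le_one.trans (l1 i))
      (le_max_of_le_right (hB ⟨i, rfl⟩)) _)

theorem exists_gr2 {f g : K[X]} {x y : ℕ → K} {d : ℕ} (hx : Orb f x) (hy : Orb g y)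
    (df : f.natDegree = d) (dg : g.natDegree = d) :
    ∃ (N : ℕ) (Λ : ℝ), 0 < N ∧ (N : ℝ) ≤ Λ ∧ 1 ≤ Λ ∧ Gr d N Λ x ∧ Gr d N Λ y := by
  obtain ⟨N, Λ, a, b, c, h⟩ := exists_gr (J := Fin 2) (f := ![f, g]) (x := ![x, y])
    (Fin.forall_fin_two.2 ⟨hx, hy⟩) (Fin.forall_fin_two.2 ⟨df, dg⟩)
  exact ⟨N, Λ, a, b, c, h 0, h 1⟩

/-- Liouville with a denominator -/
theorem liouD {x : K} {t : ℕ} (ht : 0 < t) (hx : IsIntegral ℤ ((t : K) * x)) (h0 : x ≠ 0)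
    (σ : K →+* ℂ) {B : ℝ} (h1 : (t : ℝ) ≤ B) (h2 : house x ≤ B) :
    1 ≤ ‖σ x‖ * B ^ (3 * Module.finrank ℚ K) := by
  have h3 := liou hx (mul_ne_zero (Nat.cast_ne_zero.2 ht.ne') h0) σ
  have b1 : 1 ≤ B := (Nat.one_le_cast.2 ht).trans h1
  have r0 : 0 < Module.finrank ℚ K := Module.finrank_pos
  have := house_nonneg x
  rw [map_mul, norm_mul, map_natCast, Complex.norm_natCast, house_nat_mul] at h3
  calc (1 : ℝ) ≤ _ := h3
    _ ≤ B * ‖σ x‖ * (B * B) ^ Module.finrank ℚ K := by gcongr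
    _ = ‖σ x‖ * B ^ (2 * Module.finrank ℚ K + 1) := by ring
    _ ≤ _ := mul_le_mul_of_nonneg_left (pow_le_pow_right₀ b1 (by omega)) (norm_nonneg _)

theorem ls (σ : K →+* ℂ) {𝓕 : Filter ℕ} (hF : 𝓕 ≤ atTop) {d : ℕ} (hd : 2 ≤ d) {a : ℕ → K}
    {M N : ℕ} (hM : 0 < M) (hN : 0 < N) (hi : ∀ n, IsIntegral ℤ ((M : K) * ((N : K) ^ d ^ n * a n)))
    {Λ lam : ℝ} (hΛ : (N : ℝ) ≤ Λ) (hl : 0 ≤ lam) (h : lam * Λ ^ (3 * Module.finrank ℚ K) < 1)
    (h1 : (fun n => house (a n)) =O[𝓕] fun n => Λ ^ d ^ n)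
    (h2 : (fun n => σ (a n)) =O[𝓕] fun n => lam ^ d ^ n) : ∀ᶠ n in 𝓕, a n = 0 := by
  have l0 : 0 ≤ Λ := (Nat.cast_nonneg N).trans hΛ
  have h3 : Tendsto (fun n => (lam * Λ ^ (3 * Module.finrank ℚ K)) ^ d ^ n) 𝓕 (𝓝 0) :=
    ((tendsto_pow_atTop_nhds_zero_of_lt_one (by positivity) h).comp
      (tendsto_pow_atTop_atTop_of_one_lt (by omega : 1 < d))).mono_left hF
  have h5 : (fun n => ((M * N ^ d ^ n : ℕ) : ℝ)) =O[𝓕] fun n => Λ ^ d ^ n :=
    IsBigO.of_bound M (.of_forall fun n => by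
      rw [Real.norm_of_nonneg (by positivity), Real.norm_of_nonneg (by positivity)]
      push_cast
      gcongr)
  have h4 := (h2.norm_left.mul ((h5.add h1).pow (3 * Module.finrank ℚ K))).trans_tendsto
      (h3.congr fun n => by rw [mul_pow, ← pow_mul, mul_comm (3 * Module.finrank ℚ K), pow_mul])
  filter_upwards [h4.eventually (gt_mem_nhds one_pos)] with n hn
  by_contra e
  refine (liouD (t := M * N ^ d ^ n) (by positivity) ?_ e σ
    (le_add_of_nonneg_right (house_nonneg _)) (le_add_of_nonneg_left (by positivity))).not_gt hn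
  rw [Nat.cast_mul, Nat.cast_pow, mul_assoc]
  exact hi n

theorem ls2 (σ : K →+* ℂ) {𝓕 : Filter ℕ} (hF : 𝓕 ≤ atTop) {d : ℕ} (hd : 2 ≤ d) {y1 y2 : ℕ → K}
    {N : ℕ} {Λ lam : ℝ} (hN : 0 < N) (hΛ : (N : ℝ) ≤ Λ) (h1 : Gr d N Λ y1) (h2 : Gr d N Λ y2)
    (hl : 0 ≤ lam) {G : K[X][X]} {D : ℕ} (hG : Bd G D D)
    (h : lam * (Λ ^ (2 * D)) ^ (3 * Module.finrank ℚ K) < 1)
    (hs : (fun n => σ (G.evalEval (y1 n) (y2 n))) =O[𝓕] fun n => lam ^ d ^ n) :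
    ∀ᶠ n in 𝓕, G.evalEval (y1 n) (y2 n) = 0 := by
  obtain ⟨M, hM, e⟩ := ev2_den hG
  have l1 : 1 ≤ Λ := (Nat.one_le_cast.2 hN).trans hΛ
  refine ls σ hF hd hM (N := N ^ (2 * D)) (by positivity) (fun n => ?_)
    (by push_cast; gcongr) hl h
    (IsBigO.of_bound ((nH K).l2.f G) (Eventually.of_forall fun n => ?_)) hs
  · rw [Nat.cast_pow, ← pow_mul, mul_comm (2 * D), pow_mul]
    exact e _ _ _ ((isIntegral_natCast N).pow _) (h1 n).1 (h2 n).1
  · have := (nH K).ev2_le (nH K) (RingHom.id K) (fun _ => le_rfl) (one_le_pow₀ l1) (h1 n).2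
      (h2 n).2 hG
    rw [← show _ = ev2 (RingHom.id K) (y1 n) (y2 n) G from map_evalEval (RingHom.id K) _ _ G] at this
    rw [Real.norm_of_nonneg (house_nonneg _), Real.norm_of_nonneg (by positivity), ← pow_mul,
      mul_comm (2 * D), pow_mul, two_mul]
    exact this

theorem lsMv (σ : K →+* ℂ) {𝓕 : Filter ℕ} (hF : 𝓕 ≤ atTop) {d : ℕ} (hd : 2 ≤ d) {J : Type*}
    {x : J → ℕ → K} {N : ℕ} {Λ lam : ℝ} (hN : 0 < N) (hΛ : (N : ℝ) ≤ Λ) (hx : ∀ i, Gr d N Λ (x i))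
    (hl : 0 ≤ lam) (P : MvPolynomial J K) {S : ℕ} (hS : P.totalDegree ≤ S)
    (h : lam * (Λ ^ S) ^ (3 * Module.finrank ℚ K) < 1)
    (hs : (fun n => σ (MvPolynomial.eval (fun i => x i n) P)) =O[𝓕] fun n => lam ^ d ^ n) :
    ∀ᶠ n in 𝓕, MvPolynomial.eval (fun i => x i n) P = 0 := by
  obtain ⟨M, hM, e⟩ := mv_den P hS
  obtain ⟨C, hC⟩ := mv_house P hS
  have l1 : 1 ≤ Λ := (Nat.one_le_cast.2 hN).trans hΛ
  refine ls σ hF hd hM (N := N ^ S) (by positivity) (fun n => ?_) (by push_cast; gcongr) hl h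
    (IsBigO.of_bound C (Eventually.of_forall fun n => ?_)) hs
  · rw [Nat.cast_pow, ← pow_mul, mul_comm S, pow_mul]
    exact e _ _ ((isIntegral_natCast N).pow _) fun i => (hx i n).1
  · rw [Real.norm_of_nonneg (house_nonneg _), Real.norm_of_nonneg (by positivity), ← pow_mul,
      mul_comm S, pow_mul]
    exact hC _ _ (one_le_pow₀ l1) fun i => (hx i n).2

end Pool.Agent.P.MP_68214b_ag.DS
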