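import Pool.Agent.P.MP_68214b_ag.DSO2

open Polynomial Filter Asymptotics NumberField Topology

namespace Pool.Agent.P.MP_68214b_ag.DS

variable {K : Type*} [Field K]

section alg

variable {D : Type*} [CommRing D] [Algebra K D]

theorem dso3_ev (x y : D) (G : K[X][X]) :
    aeval y (G.map (aeval (⟨x, Algebra.self_mem_adjoin_singleton K x⟩ :
      Algebra.adjoin K {x}) : K[X] →ₐ[K] _).toRingHom) = aevalAeval x y G := by
  induction G using Polynomial.induction_on with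
  | C p =>
    rw [map_C, aeval_C, aevalAeval_C]
    exact (aeval_algHom_apply (Algebra.adjoin K {x}).val _ p).symm
  | add p q hp hq => rw [Polynomial.map_add, map_add, map_add, hp, hq]
  | monomial n p h =>
    rw [pow_succ, ← mul_assoc, Polynomial.map_mul, map_mul, map_mul (aevalAeval x y), h, map_X,
      aeval_X, aevalAeval_Y]

theorem dso3_alg {x y : D} (hx : Transcendental K x) {G : K[X][X]} (hG : G ≠ 0)
    (h : aevalAeval x y G = 0) : IsAlgebraic (Algebra.adjoin K {x}) y := by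
  refine ⟨_, (Polynomial.map_ne_zero_iff fun p q e => ?_).2 hG, (dso3_ev x y G).trans h⟩
  refine transcendental_iff_injective.1 hx ?_
  exact ((aeval_algHom_apply (Algebra.adjoin K {x}).val _ p).trans
    (congrArg Subtype.val e)).trans (aeval_algHom_apply (Algebra.adjoin K {x}).val _ q).symm

theorem dso3_dep {x y : D} (h : IsAlgebraic (Algebra.adjoin K {x}) y) :
    ∃ G : K[X][X], G ≠ 0 ∧ aevalAeval x y G = 0 := by
  obtain ⟨P, hP, h0⟩ := h
  obtain ⟨G, rfl⟩ := Polynomial.map_surjective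
    (aeval (⟨x, Algebra.self_mem_adjoin_singleton K x⟩ :
      Algebra.adjoin K {x}) : K[X] →ₐ[K] _).toRingHom (fun z => by
    obtain ⟨z, hz⟩ := z
    rw [Algebra.adjoin_singleton_eq_range_aeval] at hz
    obtain ⟨p, rfl⟩ := hz
    exact ⟨p, Subtype.ext (aeval_algHom_apply (Algebra.adjoin K {x}).val _ p).symm⟩) P
  exact ⟨G, fun e => hP (by rw [e, Polynomial.map_zero]), (dso3_ev x y G).symm.trans h0⟩

theorem dso3_trans [IsDomain D] {x y z : D} (h1 : IsAlgebraic (Algebra.adjoin K {x}) y)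
    (h2 : IsAlgebraic (Algebra.adjoin K {y}) z) : IsAlgebraic (Algebra.adjoin K {x}) z := by
  have e : ∀ u v : D, IsAlgebraic (Algebra.adjoin K {u}) v ↔
      v ∈ (AlgebraicIndependent.matroid K D).closure {u} := fun u v => by
    rw [AlgebraicIndependent.matroid_closure_eq]
    rfl
  rw [e] at h1 h2 ⊢
  exact Matroid.closure_subset_closure_of_subset_closure (Set.singleton_subset_iff.2 h1) h2

theorem dso3_asum [IsDomain D] {x : D} {ι : Type*} (s : Finset ι) (y : ι → D)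
    (h : ∀ i, IsAlgebraic (Algebra.adjoin K {x}) (y i)) (q : ι → K[X]) :
    IsAlgebraic (Algebra.adjoin K {x}) (∑ i ∈ s, aeval (y i) (q i)) := by
  refine (Subalgebra.algebraicClosure (Algebra.adjoin K {x}) D).sum_mem fun i _ => ?_
  refine dso3_trans (h i) ?_
  exact isAlgebraic_algebraMap (R := Algebra.adjoin K {y i})
    ⟨_, aeval_mem_adjoin_singleton K _⟩

theorem dso3_quot.{u} {B : Type u} [CommRing B] [Algebra K B] {N : Ideal B} (h : N.IsPrime) :
    ∃ (E : Type u) (_ : CommRing E) (_ : IsDomain E) (_ : Algebra K E) (π : B →ₐ[K] E),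
      ∀ a, π a = 0 ↔ a ∈ N :=
  ⟨B ⧸ N, inferInstance, inferInstance, inferInstance, Ideal.Quotient.mkₐ K N,
    fun _ => Ideal.Quotient.eq_zero_iff_mem⟩

end alg

/-- The elements that are eventually zero. -/
def dso3N (A : Subalgebra K (ℕ → K)) : Ideal A where
  carrier := {a | ∀ᶠ n in atTop, a.1 n = 0}
  add_mem' := fun h h' => (h.and h').mono fun n hn => by
    rw [Subalgebra.coe_add, Pi.add_apply, hn.1, hn.2, add_zero]
  zero_mem' := Eventually.of_forall fun _ => rfl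
  smul_mem' := fun c a h => Eventually.mono h fun n hn => by
    rw [smul_eq_mul, Subalgebra.coe_mul, Pi.mul_apply, hn, mul_zero]

theorem dso3_prime {A : Subalgebra K (ℕ → K)} (hA : DomA A) : (dso3N A).IsPrime := by
  refine ⟨fun e => ?_, fun {a b} h => hA a a.2 b b.2 h⟩
  have : (1 : A) ∈ dso3N A := e ▸ Submodule.mem_top
  obtain ⟨n, hn⟩ := Eventually.exists this
  exact one_ne_zero hn

theorem dso3_val {A : Subalgebra K (ℕ → K)} (a : A) (p : K[X]) (n : ℕ) :
    (aeval a p).1 n = p.eval (a.1 n) := by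
  rw [← coe_aeval_eq_eval]
  exact (aeval_algHom_apply ((Pi.evalAlgHom K (fun _ => K) n).comp A.val) a p).symm

theorem dso3_map {B D : Type*} [CommRing B] [Algebra K B] [CommRing D] [Algebra K D]
    (f : B →ₐ[K] D) (a b : B) (G : K[X][X]) :
    aevalAeval (f a) (f b) G = f (aevalAeval a b G) := by
  induction G using Polynomial.induction_on with
  | C p => rw [aevalAeval_C, aevalAeval_C, aeval_algHom_apply]
  | add p q hp hq => rw [map_add, map_add, map_add, hp, hq]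
  | monomial n p h =>
    rw [pow_succ, ← mul_assoc, map_mul, map_mul (aevalAeval a b), map_mul f, h, aevalAeval_Y,
      aevalAeval_Y]

section quot

variable {A : Subalgebra K (ℕ → K)} {D : Type*} [CommRing D] [Algebra K D] {π : A →ₐ[K] D}
  (hπ : ∀ a, π a = 0 ↔ ∀ᶠ n in atTop, a.1 n = 0)
include hπ

theorem dso3_iff (a b : A) (G : K[X][X]) :
    (∀ᶠ n in atTop, G.evalEval (a.1 n) (b.1 n) = 0) ↔ aevalAeval (π a) (π b) G = 0 := by
  rw [dso3_map, hπ]
  refine eventually_congr (Eventually.of_forall fun n => ?_)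
  rw [← coe_aevalAeval_eq_evalEval]
  exact Eq.congr_left (dso3_map ((Pi.evalAlgHom K (fun _ => K) n).comp A.val) a b G)

theorem dso3_to (a b : A) (h0 : ¬ Alg0 a.1) (h : Dep a.1 b.1) :
    IsAlgebraic (Algebra.adjoin K {π a}) (π b) := by
  obtain ⟨G, hG, h1⟩ := h
  refine dso3_alg ?_ hG ((dso3_iff hπ a b G).1 h1)
  rintro ⟨g, hg, h2⟩
  rw [aeval_algHom_apply, hπ] at h2
  exact h0 ⟨g, hg, h2.mono fun n hn => (dso3_val a g n).symm.trans hn⟩

theorem dso3_of (a b : A) (h : IsAlgebraic (Algebra.adjoin K {π a}) (π b)) : Dep a.1 b.1 := by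
  obtain ⟨G, hG, h1⟩ := dso3_dep h
  exact ⟨G, hG, (dso3_iff hπ a b G).2 h1⟩

theorem dso3_tr [IsDomain D] (a b c : A) (h : ¬ Alg0 a.1) (h0 : ¬ Alg0 b.1) (h1 : Dep a.1 b.1)
    (h2 : Dep b.1 c.1) : Dep a.1 c.1 :=
  dso3_of hπ a c (dso3_trans (dso3_to hπ a b h h1) (dso3_to hπ b c h0 h2))

theorem dso3_sum [IsDomain D] (a c : A) (h0 : ¬ Alg0 a.1) {ι : Type*} (s : Finset ι) (b : ι → A)
    (hb : ∀ i, Dep a.1 (b i).1) (q : ι → K[X])
    (hc : ∀ n, c.1 n = ∑ i ∈ s, (q i).eval ((b i).1 n)) : Dep a.1 c.1 := by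
  have e : c = ∑ i ∈ s, aeval (b i) (q i) := Subtype.ext (funext fun n => by
    rw [hc]
    exact ((map_sum ((Pi.evalAlgHom K (fun _ => K) n).comp A.val) _ _).trans
      (Finset.sum_congr rfl fun i _ => dso3_val _ _ _)).symm)
  have e' : π c = ∑ i ∈ s, aeval (π (b i)) (q i) := by
    rw [e, map_sum]
    exact Finset.sum_congr rfl fun i _ => (aeval_algHom_apply π _ _).symm
  refine dso3_of hπ a c ?_
  rw [e']
  exact dso3_asum s _ (fun i => dso3_to hπ a _ h0 (hb i)) q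

end quot

theorem DomA.trans {A : Subalgebra K (ℕ → K)} (hA : DomA A) {a b c : ℕ → K} (ha : a ∈ A)
    (hb : b ∈ A) (hc : c ∈ A) (h0 : ¬ Alg0 b) (h1 : Dep b a) (h2 : Dep b c) : Dep a c := by
  by_cases h : Alg0 a
  · obtain ⟨g, hg, h3⟩ := h
    exact ⟨C g, C_ne_zero.2 hg, h3.mono fun n hn => by rw [evalEval_C, hn]⟩
  obtain ⟨E, _, _, _, π, hπ⟩ := dso3_quot (K := K) (dso3_prime hA)
  exact dso3_tr hπ ⟨a, ha⟩ ⟨b, hb⟩ ⟨c, hc⟩ h h0 h1.symm h2

theorem DomA.dep_sum {A : Subalgebra K (ℕ → K)} (hA : DomA A) {a : ℕ → K} (ha : a ∈ A)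
    (h0 : ¬ Alg0 a) {ι : Type*} (s : Finset ι) {b : ι → ℕ → K}
    (hb : ∀ i ∈ s, b i ∈ A ∧ Dep a (b i)) (q : ι → K[X]) :
    Dep a fun n => ∑ i ∈ s, (q i).eval (b i n) := by
  obtain ⟨E, _, _, _, π, hπ⟩ := dso3_quot (K := K) (dso3_prime hA)
  have hm : (fun n => ∑ i ∈ s, (q i).eval (b i n)) ∈ A := by
    rw [← Finset.sum_fn]
    exact A.sum_mem fun i hi => poly_mem (hb i hi).1 _
  exact dso3_sum hπ ⟨a, ha⟩ ⟨_, hm⟩ h0 s.attach
    (fun i => ⟨b i, (hb i i.2).1⟩) (fun i => (hb i i.2).2) (fun i => q i)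
    fun n => (Finset.sum_attach s fun i => (q i).eval (b i n)).symm

end Pool.Agent.P.MP_68214b_ag.DS
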