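import Pool.Agent.P.MP_68214b_ag.DST1
import Pool.Agent.P.MP_68214b_ag.DSN5
import Pool.Agent.P.MP_68214b_ag.DSX5

open Polynomial Filter Asymptotics NumberField Topology

namespace Pool.Agent.P.MP_68214b_ag.DS

theorem pt0 {u v β0 : ℂ} (hu : 1 < ‖u‖) (hv : 1 < ‖v‖) {a b d : ℕ} (hb : 0 < b) (hd : 2 ≤ d)
    (hβ : β0 ≠ 0) {C lam : ℝ} (h0 : 0 ≤ lam) (h1 : lam < 1)
    (h : ∃ᶠ n in atTop, ‖(u ^ a) ^ d ^ n / (v ^ b) ^ d ^ n - β0‖ ≤ C * lam ^ d ^ n) :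
    ∃ τ γ : ℂ, u * τ ^ b = 1 ∧ v * τ ^ a = γ ∧ ‖γ‖ = 1 ∧ ‖β0‖ = 1 ∧
      ∃ᶠ n in atTop, ‖(γ ^ d ^ n) ^ b - β0⁻¹‖ ≤ C * lam ^ d ^ n := by
  have hv0 : v ^ b ≠ 0 := pow_ne_zero _ (norm_pos_iff.1 (one_pos.trans hv))
  have hu0 : u ^ a ≠ 0 := pow_ne_zero _ (norm_pos_iff.1 (one_pos.trans hu))
  simp only [← div_pow] at h
  set w := u ^ a / v ^ b with hw
  have := frequently_iff_neBot.1 h
  set F := atTop ⊓ 𝓟 {n : ℕ | ‖w ^ d ^ n - β0‖ ≤ C * lam ^ d ^ n}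
  have t1 : Tendsto (fun n => ‖w‖ ^ d ^ n) F (𝓝 ‖β0‖) := by
    simp only [← norm_pow]
    refine (tendsto_iff_norm_sub_tendsto_zero.2 (squeeze_zero' (Eventually.of_forall fun _ =>
      norm_nonneg _) (mem_inf_of_right (mem_principal_self _)) ?_)).norm
    simpa using (((tend_pp h0 h1 hd).mono_left inf_le_left).const_mul C)
  have hw1 : ‖w‖ = 1 := by
    rcases lt_trichotomy ‖w‖ 1 with h2 | h2 | h2
    · exact absurd (tendsto_nhds_unique t1 ((tend_pp (norm_nonneg _) h2 hd).mono_left inf_le_left))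
        (norm_ne_zero_iff.2 hβ)
    · exact h2
    · exact absurd t1 (not_tendsto_nhds_of_tendsto_atTop
        ((tend_pp_top h2 hd).mono_left inf_le_left) _)
  have hβ1 : ‖β0‖ = 1 := tendsto_nhds_unique t1 (by simp [hw1])
  obtain ⟨τ, γ, e1, e2, e3⟩ := param (v := v) (a := a) hu hb (by
    rwa [hw, norm_div, div_eq_one_iff_eq (norm_ne_zero_iff.2 hv0), norm_pow, norm_pow] at hw1)
  have e4 : γ ^ b = w⁻¹ := by
    rw [hw, inv_div, eq_div_iff hu0, ← e2, mul_pow, mul_assoc, ← pow_mul, mul_comm a, pow_mul,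
      ← mul_pow, mul_comm _ u, e1, one_pow, mul_one]
  refine ⟨τ, γ, e1, e2, e3, hβ1, h.mono fun n hn => ?_⟩
  have e5 : ‖w ^ d ^ n‖ = 1 := by rw [norm_pow, hw1, one_pow]
  rwa [pow_right_comm, e4, inv_pow, inv_sub_inv (norm_ne_zero_iff.1 (e5 ▸ one_ne_zero)) hβ,
    norm_div, norm_mul, e5, hβ1, one_mul, div_one, norm_sub_rev]

theorem pt1 {τ γ β1 : ℂ} (hτ : τ ≠ 0) (hγ : ‖γ‖ = 1) {b d : ℕ} (hb : 0 < b) (hd : 2 ≤ d)
    {C lam : ℝ} (h0 : 0 ≤ lam) (h1 : lam < 1)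
    (h : ∃ᶠ n in atTop, ‖(γ ^ d ^ n) ^ b - β1‖ ≤ C * lam ^ d ^ n) :
    ∃ e : ℕ, 0 < e ∧ ∀ k, ∃ β : ℂ, β ^ (b * d ^ k) = β1 ∧ Near d τ γ β (d ^ k / e) := by
  obtain ⟨e, he⟩ := exists_pow_lt_of_lt_one (norm_pos_iff.2 hτ) h1
  refine ⟨e + 1, e.succ_pos, fun k => ?_⟩
  have hN : 0 < b * d ^ k := by positivity
  rw [← map_add_atTop_eq_nat k, frequently_map] at h
  by_contra hc
  push Not at hc
  refine h (((eventually_all_finset (nthRoots (b * d ^ k) β1).toFinset).2 fun β hβ =>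
    not_frequently.1 fun h2 => hc β ((mem_nthRoots hN).1 (Multiset.mem_toFinset.1 hβ))
      ⟨|C|, h2⟩).mono fun m hm h3 => ?_)
  have e1 : ‖γ ^ d ^ m‖ = 1 := by rw [norm_pow, hγ, one_pow]
  have e2 : ‖(derivative (X ^ (b * d ^ k) - Polynomial.C β1)).eval (γ ^ d ^ m)‖ = (b * d ^ k : ℕ) := by
    rw [derivative_sub, derivative_C, sub_zero, derivative_X_pow, eval_mul, eval_C, eval_pow,
      eval_X, norm_mul, norm_pow, e1, one_pow, mul_one, Complex.norm_natCast]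
  have e3 : (0 : ℝ) < (b * d ^ k : ℕ) := Nat.cast_pos.2 hN
  obtain ⟨w, hw, h4⟩ := rn _ (γ ^ d ^ m) (norm_pos_iff.1 (e2 ▸ e3))
  rw [eval_sub, eval_pow, eval_X, eval_C, sub_eq_zero] at hw
  rw [e2, natDegree_X_pow_sub_C, mul_comm, mul_le_mul_iff_right₀ e3, eval_sub, eval_pow, eval_X,
    eval_C, norm_sub_rev, mul_comm b, pow_mul, ← pow_mul γ, ← pow_add] at h4
  refine hm w (Multiset.mem_toFinset.2 ((mem_nthRoots hN).2 hw)) ((h4.trans h3).trans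
    ((mul_le_mul_of_nonneg_right (le_abs_self C) (by positivity)).trans
      (mul_le_mul_of_nonneg_left ?_ (abs_nonneg C))))
  rw [norm_pow, pow_right_comm, pow_add, mul_comm, pow_mul]
  refine pow_le_pow_left₀ (by positivity) ?_ _
  refine (pow_le_pow_of_le_one h0 h1.le (Nat.mul_div_le (d ^ k) (e + 1))).trans ?_
  rw [pow_mul]
  exact pow_le_pow_left₀ (by positivity)
    ((pow_le_pow_of_le_one h0 h1.le e.le_succ).trans he.le) _

theorem Near.mono {d : ℕ} {τ γ β : ℂ} (hτ : ‖τ‖ ≤ 1) {T T' : ℕ} (h : Near d τ γ β T)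
    (hT : T' ≤ T) : Near d τ γ β T' := by
  obtain ⟨C, h⟩ := h
  refine ⟨|C|, h.mono fun m hm => hm.trans
    ((mul_le_mul_of_nonneg_right (le_abs_self C) (by positivity)).trans
      (mul_le_mul_of_nonneg_left (pow_le_pow_of_le_one (norm_nonneg _) ?_ hT) (abs_nonneg C)))⟩
  rw [norm_pow]
  exact pow_le_one₀ (norm_nonneg _) hτ

theorem dsp1_pow {z w : ℂ} (hz : ‖z‖ = 1) (hw : ‖w‖ = 1) (n : ℕ) :
    ‖z ^ n - w ^ n‖ ≤ n * ‖z - w‖ := by
  induction n with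
  | zero => simp
  | succ n ih =>
    rw [show z ^ (n + 1) - w ^ (n + 1) = z * (z ^ n - w ^ n) + (z - w) * w ^ n by ring]
    refine (norm_add_le _ _).trans ?_
    rw [norm_mul, norm_mul, norm_pow, hz, hw, one_pow, Nat.cast_succ]
    linarith

theorem near_pow {d : ℕ} {τ γ β : ℂ} (hγ : ‖γ‖ = 1) (hβ : ‖β‖ = 1) (h : ∀ T, Near d τ γ β T)
    (j T : ℕ) : Near d τ γ (β ^ d ^ j) T := by
  induction j generalizing T with
  | zero => simpa using h T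
  | succ j ih =>
    obtain ⟨C, hC⟩ := ih (d * T)
    refine ⟨d * C, (tendsto_add_atTop_nat 1).frequently (hC.mono fun m hm => ?_)⟩
    rw [pow_succ d j, pow_succ d m, pow_mul γ, pow_mul β, pow_mul τ, norm_pow (τ ^ _) d, ← pow_mul ‖_‖,
      mul_assoc]
    exact (dsp1_pow (by simp [hγ]) (by simp [hβ]) d).trans
      (mul_le_mul_of_nonneg_left hm (Nat.cast_nonneg d))

end Pool.Agent.P.MP_68214b_ag.DS
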