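import Pool.Agent.P.MP_68214b_ag.DSS2
import Pool.Agent.P.MP_68214b_ag.DSN1

open Polynomial Filter Asymptotics NumberField Topology

namespace Pool.Agent.P.MP_68214b_ag.DS

theorem dsp4_X {F : Type*} [Field F] :
    algebraMap (PowerSeries F) (FractionRing (PowerSeries F)) PowerSeries.X ≠ 0 := by
  rw [Ne, IsFractionRing.to_map_eq_zero_iff]
  exact PowerSeries.X_ne_zero

theorem evb_hom {K F : Type*} [Field K] [Field F] (ι : K →+* F) (a b : ℕ) (P1 P2 : PowerSeries F)
    {G : K[X][X]} {D : ℕ} (hG : Bd G D D) :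
    hom2 (PowerSeries.C.comp ι) a b D P1 P2 PowerSeries.X G = 0 ↔ evb ι a b P1 P2 G = 0 := by
  have hX := dsp4_X (F := F)
  have h := hom2_eq ((algebraMap (PowerSeries F) (FractionRing (PowerSeries F))).comp
    (PowerSeries.C.comp ι)) a b
    (algebraMap (PowerSeries F) _ P1 / algebraMap (PowerSeries F) _ PowerSeries.X ^ b)
    (algebraMap (PowerSeries F) _ P2 / algebraMap (PowerSeries F) _ PowerSeries.X ^ a)
    (algebraMap (PowerSeries F) _ PowerSeries.X) hG
  rw [div_mul_cancel₀ _ (pow_ne_zero _ hX), div_mul_cancel₀ _ (pow_ne_zero _ hX), ← hom2_map] at h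
  rw [← IsFractionRing.to_map_eq_zero_iff (K := FractionRing (PowerSeries F)), h, mul_eq_zero,
    or_iff_right (pow_ne_zero _ hX)]
  rfl

theorem dsp4_ext {K S : Type*} [CommRing K] [CommRing S] {φ ψ : K[X][X] →+* S}
    (h0 : ∀ c, φ (C (C c)) = ψ (C (C c))) (h1 : φ (C X) = ψ (C X)) (h2 : φ X = ψ X) : φ = ψ := by
  refine Polynomial.ringHom_ext' ?_ h2
  exact Polynomial.ringHom_ext (fun c => h0 c) h1

theorem phi2_eval {K : Type*} [CommRing K] (f1 f2 : K[X]) (A : K[X][X]) (x y : K) :
    (phi2 f1 f2 A).evalEval x y = A.evalEval (f1.eval x) (f2.eval y) := by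
  have h : (evalEvalRingHom x y).comp (phi2 f1 f2) = evalEvalRingHom (f1.eval x) (f2.eval y) := by
    refine dsp4_ext (fun c => ?_) ?_ ?_
    · simp [phi2]
    · simp [phi2]
    · simp [phi2]
  exact RingHom.congr_fun h A

theorem dsp4_resc {F : Type*} [CommRing F] (c : F) {d : ℕ} (hd : d ≠ 0) (p : PowerSeries F) :
    PowerSeries.rescale c (PowerSeries.expand d hd p) =
      PowerSeries.expand d hd (PowerSeries.rescale (c ^ d) p) := by
  ext n
  rw [PowerSeries.coeff_rescale, PowerSeries.coeff_expand, PowerSeries.coeff_expand]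
  split_ifs with h
  · obtain ⟨q, rfl⟩ := h
    rw [Nat.mul_div_cancel_left _ (Nat.pos_of_ne_zero hd), PowerSeries.coeff_rescale, pow_mul]
  · rw [mul_zero]

theorem dsp4_rescC {F : Type*} [CommRing F] (c r : F) :
    PowerSeries.rescale c (PowerSeries.C r) = PowerSeries.C r := by
  ext n
  rw [PowerSeries.coeff_rescale, PowerSeries.coeff_C]
  split_ifs with h
  · rw [h, pow_zero, one_mul]
  · rw [mul_zero]

theorem dsp4_comm {F : Type*} [CommRing F] {a d : ℕ} (ha : a ≠ 0) (hd : d ≠ 0) (p : PowerSeries F) :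
    PowerSeries.expand a ha (PowerSeries.expand d hd p) =
      PowerSeries.expand d hd (PowerSeries.expand a ha p) := by
  rw [← PowerSeries.expand_mul, ← PowerSeries.expand_mul]
  congr 2
  exact mul_comm a d

theorem bott_ser {F : Type*} [Field F] {f : F[X]} {p : PowerSeries F} (hd : 0 < f.natDegree)
    (h : Bott f p) {a : ℕ} (ha : 0 < a) {β : F} (hβ : β ≠ 0) :
    ∑ j ∈ Finset.range (f.natDegree + 1), PowerSeries.C (f.coeff j) *
      (PowerSeries.X ^ a) ^ (f.natDegree - j) * ser p a β ^ j =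
      ex f.natDegree (ser p a (β ^ f.natDegree)) := by
  have h' := congrArg (fun q => PowerSeries.C (β ^ f.natDegree) *
    PowerSeries.expand a ha.ne' (PowerSeries.rescale β⁻¹ q)) h
  simp only [map_sum, map_mul, map_pow, Finset.mul_sum] at h'
  rw [ex_eq hd.ne', dsp4_resc, dsp4_comm] at h'
  unfold ser
  rw [ex_eq hd.ne', ex_eq ha.ne', ex_eq ha.ne', map_mul, PowerSeries.expand_C, ← inv_pow,
    map_pow PowerSeries.C, ← h']
  refine Finset.sum_congr rfl fun j hj => ?_
  have hj' : j ≤ f.natDegree := Nat.lt_succ_iff.1 (Finset.mem_range.1 hj)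
  obtain ⟨k, hk⟩ := Nat.exists_eq_add_of_le hj'
  have e : (PowerSeries.C β : PowerSeries F) * PowerSeries.C β⁻¹ = 1 := by
    rw [← map_mul, mul_inv_cancel₀ hβ, map_one]
  rw [dsp4_rescC, PowerSeries.expand_C, PowerSeries.rescale_X, map_mul, PowerSeries.expand_C,
    PowerSeries.expand_X, hk, Nat.add_sub_cancel_left]
  have e2 : ((PowerSeries.C β : PowerSeries F) * PowerSeries.C β⁻¹) ^ k = 1 := by rw [e, one_pow]
  linear_combination (-(PowerSeries.C (f.coeff j) * (PowerSeries.X ^ a) ^ k * PowerSeries.C β ^ j *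
    PowerSeries.expand a ha.ne' (PowerSeries.rescale β⁻¹ p) ^ j)) * e2

theorem dsp4_inj {F : Type*} [Field F] {d : ℕ} (hd : d ≠ 0) :
    Function.Injective ((algebraMap (PowerSeries F) (FractionRing (PowerSeries F))).comp
      (PowerSeries.expand d hd : PowerSeries F →ₐ[F] PowerSeries F).toRingHom) := by
  refine (IsFractionRing.injective (PowerSeries F) (FractionRing (PowerSeries F))).comp
    fun p q hpq => ?_
  ext n
  have := congrArg (PowerSeries.coeff (d * n)) hpq
  simpa using this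

theorem dsp4_ev {K F : Type*} [Field K] [Field F] (ι : K →+* F) {a d : ℕ} (ha : 0 < a)
    (hd : 0 < d) {f : K[X]} (d1 : f.natDegree = d) {p : PowerSeries K} (b1 : Bott f p) {β : F}
    (hβ : β ≠ 0) :
    f.eval₂ ((algebraMap (PowerSeries F) (FractionRing (PowerSeries F))).comp
      (PowerSeries.C.comp ι)) (algebraMap (PowerSeries F) _ (ser (PowerSeries.map ι p) a β) /
        algebraMap (PowerSeries F) _ PowerSeries.X ^ a) =
      algebraMap (PowerSeries F) _
        (PowerSeries.expand d hd.ne' (ser (PowerSeries.map ι p) a (β ^ d))) /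
        (algebraMap (PowerSeries F) _ PowerSeries.X ^ d) ^ a := by
  have hX := dsp4_X (F := F)
  have dm : (f.map ι).natDegree = d := by rw [natDegree_map, d1]
  have h := bott_ser (f := f.map ι) (dm ▸ hd) (Bott.map ι (d1 ▸ hd) b1) ha hβ
  rw [dm, ex_eq hd.ne'] at h
  rw [← h, eval₂_eq_sum_range, d1, map_sum, Finset.sum_div]
  refine Finset.sum_congr rfl fun j hj => ?_
  have hj' : j ≤ d := Nat.lt_succ_iff.1 (Finset.mem_range.1 hj)
  obtain ⟨k, rfl⟩ := Nat.exists_eq_add_of_le hj'
  simp only [map_mul, map_pow, coeff_map, RingHom.comp_apply, Nat.add_sub_cancel_left, div_pow]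
  field_simp
  ring

theorem evc_phi {K F : Type*} [Field K] [Field F] (ι : K →+* F) {a b d : ℕ} (ha : 0 < a)
    (hb : 0 < b) (hd : 0 < d) {f1 f2 : K[X]} (d1 : f1.natDegree = d) (d2 : f2.natDegree = d)
    {p1 p2 : PowerSeries K} (b1 : Bott f1 p1) (b2 : Bott f2 p2) {β : F} (hβ : β ≠ 0) {A : K[X][X]}
    (h : evc ι a b p1 p2 (β ^ d) A = 0) : evc ι a b p1 p2 β (phi2 f1 f2 A) = 0 := by
  have key : (evc ι a b p1 p2 β).comp (phi2 f1 f2) =
      (IsFractionRing.lift (dsp4_inj (F := F) hd.ne')).comp (evc ι a b p1 p2 (β ^ d)) := by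
    refine dsp4_ext (fun c => ?_) ?_ ?_
    · simp [phi2, evc, evb, PowerSeries.expand_C]
    · have := dsp4_ev ι hb hd d1 b1 (one_ne_zero : (1 : F) ≠ 0)
      rw [one_pow] at this
      simp [phi2, evc, evb]
      simpa using this
    · have := dsp4_ev ι ha hd d2 b2 hβ
      simp [phi2, evc, evb, eval₂_map]
      rw [← this]
  have := RingHom.congr_fun key A
  rw [RingHom.comp_apply, RingHom.comp_apply, h, map_zero] at this
  exact this

end Pool.Agent.P.MP_68214b_ag.DS
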