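import Pool.Agent.P.MP_68214b_ag.DSP4
import Pool.Agent.P.MP_68214b_ag.DSP1
import Pool.Agent.P.MP_68214b_ag.DSN3
import Pool.Agent.P.MP_68214b_ag.DSN6

open Polynomial Filter Asymptotics NumberField Topology

namespace Pool.Agent.P.MP_68214b_ag.DS

variable {K : Type} [Field K] [NumberField K] {d a b : ℕ} {f1 f2 : K[X]} {y1 y2 : ℕ → K}
  {p1 p2 : PowerSeries K} {τ γ : ℂ}

theorem low_order {L F : Type*} [Field L] [Field F] [Algebra L F] [FiniteDimensional L F] (a b : ℕ)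
    (P1 P2 : PowerSeries F) {D N : ℕ} (h : Module.finrank L F * N < (D + 1) * (D + 1)) :
    ∃ G : L[X][X], G ≠ 0 ∧ Bd G D D ∧ ∀ k < N, PowerSeries.coeff k
      (hom2 (PowerSeries.C.comp (algebraMap L F)) a b D P1 P2 PowerSeries.X G) = 0 := by
  let w : Fin (D + 1) × Fin (D + 1) → Fin N → F := fun x k => PowerSeries.coeff k
    ((P1 ^ (x.1 : ℕ) * PowerSeries.X ^ (b * (D - x.1))) *
      (P2 ^ (x.2 : ℕ) * PowerSeries.X ^ (a * (D - x.2))))
  have h1 : LinearMap.ker (Fintype.linearCombination L w) ≠ ⊥ :=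
    LinearMap.ker_ne_bot_of_finrank_lt (by
      rw [Module.finrank_pi_fintype, Module.finrank_fintype_fun_eq_card]
      simpa [mul_comm] using h)
  obtain ⟨c, hc, c0⟩ := Submodule.exists_mem_ne_zero_of_ne_bot h1
  obtain ⟨G, hG⟩ : ∃ G : L[X][X], G = ∑ j : Fin (D + 1), monomial (j : ℕ)
    (∑ i : Fin (D + 1), monomial (i : ℕ) (c (i, j))) := ⟨_, rfl⟩
  have e1 : ∀ {R : Type _} [CommRing R] (g : Fin (D + 1) → R) (j : Fin (D + 1)),
      (∑ i : Fin (D + 1), monomial (i : ℕ) (g i)).coeff j = g j := fun g j => by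
    simp [coeff_monomial, Fin.val_inj]
  have e2 : ∀ {R : Type _} [CommRing R] (g : Fin (D + 1) → R),
      (∑ i : Fin (D + 1), monomial (i : ℕ) (g i)).natDegree ≤ D := fun g =>
    natDegree_sum_le_of_forall_le _ _ fun i _ =>
      (natDegree_monomial_le _).trans (Nat.lt_succ_iff.1 i.2)
  have e3 : ∀ i j : Fin (D + 1), (G.coeff j).coeff i = c (i, j) := fun i j => by
    have e4 : G.coeff j = ∑ i : Fin (D + 1), monomial (i : ℕ) (c (i, j)) := by
      simp [hG, coeff_monomial, Fin.val_inj]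
    rw [e4, e1]
  have e5 : G.natDegree ≤ D := hG ▸ natDegree_sum_le_of_forall_le _ _ fun i _ =>
    (natDegree_monomial_le _).trans (Nat.lt_succ_iff.1 i.2)
  refine ⟨G, fun e => c0 (funext fun x => ?_), ⟨fun j => ?_, e5⟩, fun k hk => ?_⟩
  · rw [← e3 x.1 x.2, e]; simp
  · by_cases hj : j < D + 1
    · have e4 : G.coeff j = ∑ i : Fin (D + 1), monomial (i : ℕ) (c (i, ⟨j, hj⟩)) := by
        rw [hG, finsetSum_coeff, Finset.sum_eq_single ⟨j, hj⟩]
        · rw [coeff_monomial, if_pos rfl]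
        · intro i _ hi
          rw [coeff_monomial, if_neg fun e => hi (Fin.ext e)]
        · simp
      rw [e4]; exact e2 _
    · rw [coeff_eq_zero_of_natDegree_lt (by omega)]; simp
  · have := congrFun (LinearMap.mem_ker.1 hc) ⟨k, hk⟩
    rw [Fintype.linearCombination_apply, Finset.sum_apply, Fintype.sum_prod_type_right] at this
    rw [hom2, Finset.sum_range, map_sum]
    refine Eq.trans (Finset.sum_congr rfl fun j _ => ?_) this
    rw [Finset.sum_range, map_sum]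
    refine Finset.sum_congr rfl fun i _ => ?_
    rw [e3, mul_assoc, RingHom.comp_apply, PowerSeries.coeff_C_mul, Pi.smul_apply, Algebra.smul_def]

theorem dsp5_as {F : Type} [Field F] [Algebra K F] (φ : F →+* ℂ)
    (h : Pr (φ.comp (algebraMap K F)) d a b f1 f2 y1 y2 p1 p2 τ γ) {β : F} (hβ : ‖φ β‖ = 1)
    {T : ℕ} (hN : Near d τ γ (φ β) T) : ∃ 𝓕 : Filter ℕ, 𝓕.NeBot ∧ 𝓕 ≤ atTop ∧
      ∀ D (G : K[X][X]), Bd G D D → As 𝓕 (fun n => τ ^ d ^ n) T
        (fun n => (τ ^ d ^ n) ^ ((a + b) * D) *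
          φ.comp (algebraMap K F) (G.evalEval (y1 n) (y2 n)))
        (PowerSeries.map φ (hom2 (PowerSeries.C.comp (algebraMap K F)) a b D
          (ser (PowerSeries.map (algebraMap K F) p1) b 1)
          (ser (PowerSeries.map (algebraMap K F) p2) a β) PowerSeries.X G)) := by
  obtain ⟨𝓕, h1, h2, h3, h4⟩ := h.as hβ hN
  refine ⟨𝓕, h1, h2, fun D G hG => ?_⟩
  have ht : ∀ᶠ n in 𝓕, ‖τ ^ d ^ n‖ ≤ 1 := Eventually.of_forall fun n => by
    rw [norm_pow]; exact pow_le_one₀ (norm_nonneg _) h.tau.2.2.le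
  have h5 := As.hom2 ht h3 h4 (φ.comp (algebraMap K F)) a b D G
  have e : (PowerSeries.map φ).comp (PowerSeries.C.comp (algebraMap K F)) =
      PowerSeries.C.comp (φ.comp (algebraMap K F)) := RingHom.ext fun x => by simp
  have e' : ∀ p : PowerSeries K, PowerSeries.map φ (PowerSeries.map (algebraMap K F) p) =
      PowerSeries.map (φ.comp (algebraMap K F)) p := fun p => by
    rw [PowerSeries.map_comp]; rfl
  rw [hom2_map, e, ser_map _ _ h.hb, ser_map _ _ h.ha, e', e', map_one, PowerSeries.map_X]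
  exact h5.congr (Eventually.of_forall fun n => by rw [hom2_eq _ _ _ _ _ _ hG, map_evalEval])

theorem dsp5_ls {σ : K →+* ℂ} (h : Pr σ d a b f1 f2 y1 y2 p1 p2 τ γ) : ∃ Th : ℕ,
    ∀ 𝓕 ≤ atTop, ∀ D, 0 < D → ∀ G : K[X][X], Bd G D D → ∀ T π, (Th + (a + b)) * D ≤ T →
      As 𝓕 (fun n => τ ^ d ^ n) T
        (fun n => (τ ^ d ^ n) ^ ((a + b) * D) * σ (G.evalEval (y1 n) (y2 n))) π →
      (∀ k < (Th + (a + b)) * D, PowerSeries.coeff k π = 0) →
      ∀ᶠ n in 𝓕, G.evalEval (y1 n) (y2 n) = 0 := by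
  obtain ⟨hd, t0, t1⟩ := h.tau
  obtain ⟨N, Λ, hN, hΛ, l0, g1, g2⟩ := exists_gr2 h.o1 h.o2 h.d1 h.d2
  have p0 : 0 < (Λ ^ 2) ^ (3 * Module.finrank ℚ K) := by positivity
  obtain ⟨Th, hTh⟩ := exists_pow_lt_of_lt_one (inv_pos.2 p0) t1
  refine ⟨Th, fun 𝓕 hF D hD G hG T π hT hA hπ => ?_⟩
  have ht : ∀ᶠ n in 𝓕, ‖τ ^ d ^ n‖ ≤ 1 := Eventually.of_forall fun n => by
    rw [norm_pow]; exact pow_le_one₀ (norm_nonneg _) t1.le
  have h5 := hA.small ht hT hπ
  refine ls2 σ hF hd hN hΛ g1 g2 (lam := ‖τ‖ ^ (Th * D)) (by positivity) hG ?_ ?_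
  · have e : ‖τ‖ ^ (Th * D) * (Λ ^ (2 * D)) ^ (3 * Module.finrank ℚ K) =
        (‖τ‖ ^ Th * (Λ ^ 2) ^ (3 * Module.finrank ℚ K)) ^ D := by ring
    rw [e]
    exact pow_lt_one₀ (by positivity) ((lt_div_iff₀ p0).1 (by rwa [one_div])) hD.ne'
  · obtain ⟨C, hC⟩ := h5.bound
    refine IsBigO.of_bound C (hC.mono fun n hn => ?_)
    have q0 : 0 < ‖(τ ^ d ^ n) ^ ((a + b) * D)‖ := norm_pos_iff.2 (pow_ne_zero _ (pow_ne_zero _ t0))
    have e : ‖(τ ^ d ^ n) ^ ((Th + (a + b)) * D)‖ =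
        ‖(τ ^ d ^ n) ^ ((a + b) * D)‖ * ‖(‖τ‖ ^ (Th * D)) ^ d ^ n‖ := by
      simp only [norm_pow, norm_norm]; ring
    rw [e, norm_mul, mul_left_comm] at hn
    exact le_of_mul_le_mul_left hn q0

theorem s2a {F : Type} [Field F] [Algebra K F] [FiniteDimensional K F] (φ : F →+* ℂ)
    (h : Pr (φ.comp (algebraMap K F)) d a b f1 f2 y1 y2 p1 p2 τ γ) {β : F} (hβ : ‖φ β‖ = 1)
    (hN : ∀ T, Near d τ γ (φ β) T) : ∃ A, A ≠ 0 ∧ evc (algebraMap K F) a b p1 p2 β A = 0 := by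
  classical
  obtain ⟨Th, hTh⟩ := dsp5_ls h
  obtain ⟨D, hD⟩ : ∃ D, D = Module.finrank K F * (Th + (a + b)) + 1 := ⟨_, rfl⟩
  obtain ⟨G, g0, g1, g2⟩ := low_order (L := K) a b (ser (PowerSeries.map (algebraMap K F) p1) b 1)
    (ser (PowerSeries.map (algebraMap K F) p2) a β) (D := D) (N := (Th + (a + b)) * D) (by
      rw [← mul_assoc]
      generalize Module.finrank K F * (Th + (a + b)) = x at hD
      subst hD
      nlinarith)
  refine ⟨G, g0, (evb_hom _ _ _ _ _ g1).1 ?_⟩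
  by_contra hne
  obtain ⟨π, hπ⟩ : ∃ π, π = hom2 (PowerSeries.C.comp (algebraMap K F)) a b D
    (ser (PowerSeries.map (algebraMap K F) p1) b 1)
    (ser (PowerSeries.map (algebraMap K F) p2) a β) PowerSeries.X G := ⟨_, rfl⟩
  rw [← hπ] at hne g2
  have hex : ∃ e, PowerSeries.coeff e π ≠ 0 := by
    by_contra hc
    exact hne (PowerSeries.ext fun e => by simpa using not_exists.1 hc e)
  have e1 := Nat.find_spec hex
  have e2 : ∀ k < Nat.find hex, PowerSeries.coeff k π = 0 := fun k hk =>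
    not_not.1 (Nat.find_min hex hk)
  generalize Nat.find hex = e at e1 e2
  have e3 : (Th + (a + b)) * D ≤ e := not_lt.1 fun hk => e1 (g2 e hk)
  obtain ⟨𝓕, h1, h2, h3⟩ := dsp5_as φ h hβ (hN (e + 1))
  have h4 := h3 D G g1
  rw [← hπ] at h4
  have h5 := hTh 𝓕 h2 D (by omega) G g1 _ _ (e3.trans (Nat.le_succ e)) h4 fun k hk => by
    rw [PowerSeries.coeff_map, g2 k hk, map_zero]
  have h6 := h4.ne_zero (fun k hk => by rw [PowerSeries.coeff_map, e2 k hk, map_zero])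
    (by rw [PowerSeries.coeff_map]; exact (map_ne_zero φ).2 e1)
    (fun n => pow_ne_zero _ h.tau.2.1) ((tend_ppC h.tau.2.2 h.tau.1).mono_left h2)
  obtain ⟨n, n1, n2⟩ := (h5.and h6).exists
  exact n2 (by rw [n1, map_zero, mul_zero])

theorem s2b {F : Type} [Field F] [Algebra K F] (φ : F →+* ℂ)
    (h : Pr (φ.comp (algebraMap K F)) d a b f1 f2 y1 y2 p1 p2 τ γ) {β : F} (hβ : ‖φ β‖ = 1)
    (hN : ∀ T, Near d τ γ (φ β) T) :
    ∃ m, ∀ A, evc (algebraMap K F) a b p1 p2 β A = 0 → A.evalEval (y1 m) (y2 m) = 0 := by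
  obtain ⟨Th, hTh⟩ := dsp5_ls h
  obtain ⟨s, hs⟩ := IsNoetherian.noetherian (RingHom.ker (evc (algebraMap K F) a b p1 p2 β))
  choose D0 hD0 using fun G : K[X][X] => exists_bd G
  obtain ⟨D, hD⟩ : ∃ D, D = s.sup D0 + 1 := ⟨_, rfl⟩
  have g1 : ∀ G ∈ s, Bd G D D := fun G hG => by
    have : D0 G ≤ D := hD ▸ (Finset.le_sup hG).trans (Nat.le_succ _)
    exact (hD0 G).mono this this
  obtain ⟨𝓕, h1, h2, h3⟩ := dsp5_as φ h hβ (hN ((Th + (a + b)) * D))
  have h4 : ∀ᶠ n in 𝓕, ∀ G ∈ s, G.evalEval (y1 n) (y2 n) = 0 :=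
    (eventually_all_finset s).2 fun G hG =>
      hTh 𝓕 h2 D (by omega) G (g1 G hG) _ _ le_rfl (h3 D G (g1 G hG)) fun k _ => by
        have : G ∈ RingHom.ker (evc (algebraMap K F) a b p1 p2 β) :=
          hs ▸ Submodule.subset_span hG
        rw [(evb_hom _ _ _ _ _ (g1 G hG)).2 this, map_zero, map_zero]
  obtain ⟨m, hm⟩ := h4.exists
  refine ⟨m, fun A hA => ?_⟩
  have h5 : RingHom.ker (evc (algebraMap K F) a b p1 p2 β) ≤
      RingHom.ker (evalEvalRingHom (y1 m) (y2 m)) := hs ▸ Submodule.span_le.2 fun G hG => hm G hG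
  exact h5 hA

end Pool.Agent.P.MP_68214b_ag.DS
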