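import Pool.Agent.P.MP_68214b_ag.DSP5

open Polynomial Filter Asymptotics NumberField Topology

namespace Pool.Agent.P.MP_68214b_ag.DS

variable {K : Type} [Field K] [NumberField K] {d a b : ℕ} {f1 f2 : K[X]} {y1 y2 : ℕ → K}
  {p1 p2 : PowerSeries K} {τ γ : ℂ}

theorem dsp6_gen {F : Type} [Field F] [Algebra K F] [FiniteDimensional K F] (φ : F →+* ℂ)
    (h : Pr (φ.comp (algebraMap K F)) d a b f1 f2 y1 y2 p1 p2 τ γ) {g : F} {N : ℕ}
    (hN : 0 < N) (hg : g ^ N = 1) (hn : ∀ T, Near d τ γ (φ g) T) : Dep y1 y2 := by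
  classical
  have h1 : ‖φ g‖ = 1 := by
    have e : ‖φ g‖ ^ N = 1 := by rw [← norm_pow, ← map_pow, hg, map_one, norm_one]
    exact (pow_eq_one_iff_of_nonneg (norm_nonneg _) hN.ne').1 e
  have g0 : g ≠ 0 := fun e => by simp [e] at h1
  have hd : 0 < d := lt_of_lt_of_le two_pos h.tau.1
  obtain ⟨m, hm⟩ := s2b φ h h1 hn
  have h2 : ∀ j A, evc (algebraMap K F) a b p1 p2 (g ^ d ^ j) A = 0 →
      A.evalEval (y1 (m + j)) (y2 (m + j)) = 0 := by
    intro j
    induction j with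
    | zero => simpa using hm
    | succ j ih =>
      intro A hA
      rw [pow_succ, pow_mul] at hA
      have h3 := ih _ (evc_phi _ h.ha h.hb hd h.d1 h.d2 h.b1 h.b2 (pow_ne_zero _ g0) hA)
      rwa [phi2_eval, ← h.o1.step, ← h.o2.step] at h3
  have h3 : ∀ c : F, ∃ A : K[X][X], A ≠ 0 ∧
      ∀ j, c = g ^ d ^ j → evc (algebraMap K F) a b p1 p2 c A = 0 := by
    intro c
    by_cases hc : ∃ j, c = g ^ d ^ j
    · obtain ⟨j, rfl⟩ := hc
      obtain ⟨A, a0, hA⟩ := s2a φ h (β := g ^ d ^ j) (by rw [map_pow, norm_pow, h1, one_pow])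
        fun T => by rw [map_pow]; exact near_pow h.γ1 h1 hn j T
      exact ⟨A, a0, fun _ _ => hA⟩
    · exact ⟨1, one_ne_zero, fun j e => (hc ⟨j, e⟩).elim⟩
  choose A a0 hA using h3
  refine ⟨∏ c ∈ (nthRoots N (1 : F)).toFinset, A c, Finset.prod_ne_zero_iff.2 fun c _ => a0 c,
    eventually_atTop.2 ⟨m, fun n hn => ?_⟩⟩
  obtain ⟨j, rfl⟩ := Nat.exists_eq_add_of_le hn
  rw [← coe_evalEvalRingHom, map_prod]
  refine Finset.prod_eq_zero (i := g ^ d ^ j) ?_ (h2 j _ (hA _ j rfl))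
  rw [Multiset.mem_toFinset, mem_nthRoots hN, ← pow_mul, mul_comm, pow_mul, hg, one_pow]

theorem stage2 [Algebra K ℂ] (h : Pr (algebraMap K ℂ) d a b f1 f2 y1 y2 p1 p2 τ γ) {β : ℂ} {N : ℕ}
    (hN : 0 < N) (hβ : β ^ N = 1) (hn : ∀ T, Near d τ γ β T) : Dep y1 y2 := by
  have hi : IsIntegral K β := IsIntegral.of_pow hN (hβ ▸ isIntegral_one)
  have := IntermediateField.adjoin.finiteDimensional hi
  exact dsp6_gen (F := IntermediateField.adjoin K {β})
    (IntermediateField.adjoin K {β}).val.toRingHom h (g := IntermediateField.AdjoinSimple.gen K β)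
    hN (Subtype.ext hβ) hn

end Pool.Agent.P.MP_68214b_ag.DS
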