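import Pool.Agent.P.MP_68214b_ag.DSS2

open Polynomial Filter Asymptotics NumberField Topology

namespace Pool.Agent.P.MP_68214b_ag.DS

variable {K : Type} [Field K] [NumberField K]

theorem ca_par {I : Type*} [Fintype I] (u : I → ℂ) (hu : ∀ i, 1 < ‖u i‖) (i0 : I)
    (hR : ∀ i, Rel (u i) (u i0)) : ∃ (A : ℕ) (s : ℂ) (c : I → ℕ) (ζ : I → ℂ), 0 < A ∧ s ^ A = u i0 ∧
      1 < ‖s‖ ∧ ∀ i, 0 < c i ∧ u i * s⁻¹ ^ c i = ζ i ∧ ζ i ^ A = 1 := by
  classical
  choose a b ha hb hab using hR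
  have hA : 0 < ∏ i, a i := Finset.prod_pos fun i _ => ha i
  obtain ⟨s, hs⟩ := IsAlgClosed.exists_pow_nat_eq (u i0) hA
  have h0 : u i0 ≠ 0 := by
    intro h
    have := hu i0
    rw [h, norm_zero] at this
    linarith
  have hs1 : 1 < ‖s‖ := by
    by_contra hc
    have h1 : ‖s‖ ^ (∏ i, a i) ≤ 1 := pow_le_one₀ (norm_nonneg _) (not_lt.1 hc)
    rw [← norm_pow, hs] at h1
    exact absurd (hu i0) (not_lt.2 h1)
  refine ⟨∏ i, a i, s, fun i => b i * ∏ j ∈ Finset.univ.erase i, a j,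
    fun i => u i * s⁻¹ ^ (b i * ∏ j ∈ Finset.univ.erase i, a j), hA, hs, hs1, fun i => ⟨?_, rfl, ?_⟩⟩
  · exact Nat.mul_pos (hb i) (Finset.prod_pos fun j _ => ha j)
  · have e1 : u i ^ (∏ j, a j) = u i0 ^ (b i * ∏ j ∈ Finset.univ.erase i, a j) := by
      rw [← Finset.mul_prod_erase Finset.univ a (Finset.mem_univ i), pow_mul, hab, ← pow_mul]
    rw [mul_pow, e1, ← pow_mul, mul_comm (b i * _) (∏ j, a j), pow_mul s⁻¹, inv_pow, hs, ← mul_pow,
      mul_inv_cancel₀ h0, one_pow]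

/-- series with algebraic coefficients -/
def dss3_S : Subring (PowerSeries ℂ) where
  carrier := {π | ∀ k, PowerSeries.coeff k π ∈ algebraicClosure ℚ ℂ}
  mul_mem' := fun {a b} ha hb k => by
    rw [PowerSeries.coeff_mul]
    exact sum_mem fun x _ => mul_mem (ha _) (hb _)
  one_mem' := fun k => by
    rw [PowerSeries.coeff_one]
    split_ifs
    · exact one_mem _
    · exact zero_mem _
  add_mem' := fun {a b} ha hb k => by
    rw [map_add]
    exact add_mem (ha _) (hb _)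
  zero_mem' := fun k => by
    rw [map_zero]
    exact zero_mem _
  neg_mem' := fun {a} ha k => by
    rw [map_neg]
    exact neg_mem (ha _)

theorem dss3_alg (σ : K →+* ℂ) (y : K) : σ y ∈ algebraicClosure ℚ ℂ := by
  rw [mem_algebraicClosure_iff]
  exact (Algebra.IsAlgebraic.isAlgebraic (R := ℚ) y).algHom σ.toRatAlgHom

theorem dss3_C {z : ℂ} (hz : z ∈ algebraicClosure ℚ ℂ) : PowerSeries.C z ∈ dss3_S := fun k => by
  rw [PowerSeries.coeff_C]
  split_ifs
  · exact hz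
  · exact zero_mem _

theorem dss3_X : (PowerSeries.X : PowerSeries ℂ) ∈ dss3_S := fun k => by
  rw [PowerSeries.coeff_X]
  split_ifs
  · exact one_mem _
  · exact zero_mem _

theorem dss3_ser (σ : K →+* ℂ) (p : PowerSeries K) {a : ℕ} (ha : 0 < a) {z : ℂ}
    (hz : z ∈ algebraicClosure ℚ ℂ) : ser (PowerSeries.map σ p) a z ∈ dss3_S := fun k => by
  rw [coeff_ser _ ha]
  split_ifs
  · rw [PowerSeries.coeff_map]
    exact mul_mem hz (mul_mem (pow_mem (inv_mem hz) _) (dss3_alg σ _))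
  · exact zero_mem _

theorem dss3_root {z : ℂ} {A : ℕ} (hA : 0 < A) (hz : z ^ A = 1) : z ∈ algebraicClosure ℚ ℂ := by
  rw [mem_algebraicClosure_iff]
  exact IsAlgebraic.of_pow hA (by rw [hz]; exact isAlgebraic_one)

theorem dss3_norm {z : ℂ} {A : ℕ} (hA : 0 < A) (hz : z ^ A = 1) : ‖z‖ = 1 := by
  have h : ‖z‖ ^ A = 1 := by rw [← norm_pow, hz, norm_one]
  exact (pow_eq_one_iff_of_nonneg (norm_nonneg _) hA.ne').1 h

theorem dss3_ult {ζ : ℂ} {A : ℕ} (hA : 0 < A) (hz : ζ ^ A = 1) (d : ℕ) (𝒰 : Ultrafilter ℕ) :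
    ∃ z : ℂ, z ^ A = 1 ∧ ∀ᶠ n in (𝒰 : Filter ℕ), ζ ^ d ^ n = z := by
  have hfin : {z : ℂ | z ^ A = 1}.Finite := by
    refine (nthRootsFinset A (1 : ℂ)).finite_toSet.subset fun z hz => ?_
    exact Finset.mem_coe.2 ((mem_nthRootsFinset hA 1).2 hz)
  have h1 : ∀ᶠ n in (𝒰 : Filter ℕ), ∃ z ∈ {z : ℂ | z ^ A = 1}, ζ ^ d ^ n = z := by
    refine Eventually.of_forall fun n => ⟨_, ?_, rfl⟩
    show (ζ ^ d ^ n) ^ A = 1
    rw [← pow_mul, mul_comm, pow_mul, hz, one_pow]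
  obtain ⟨z, hz1, hz2⟩ := (Ultrafilter.eventually_exists_mem_iff hfin).1 h1
  exact ⟨z, hz1, hz2⟩

theorem ca {I : Type*} [Fintype I] {σ : K →+* ℂ} {d : ℕ} (hd : 2 ≤ d) {x : I → ℕ → K}
    {p : I → PowerSeries K} {u : I → ℂ} (hE : ∀ i, Esc σ d (x i) (p i) (u i)) (i0 : I)
    (hR : ∀ i, Rel (u i) (u i0)) (q : I → K[X]) (𝒰 : Ultrafilter ℕ) (hU : (𝒰 : Filter ℕ) ≤ atTop) :
    ((fun n => σ (∑ i, (q i).eval (x i n))) =O[𝒰] fun _ => (1 : ℝ)) ∨
      ∃ (s α : ℂ) (A E : ℕ), 0 < A ∧ s ^ A = u i0 ∧ IsAlgebraic ℚ α ∧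
        Big 𝒰 d (fun n => σ (∑ i, (q i).eval (x i n))) α s E := by
  classical
  obtain ⟨A, s, c, ζ, hA, hs, hs1, hc⟩ := ca_par u (fun i => (hE i).one_lt) i0 hR
  choose z hz1 hz2 using fun i => dss3_ult hA (hc i).2.2 d 𝒰
  have s0 : s ≠ 0 := by
    intro h
    rw [h, norm_zero] at hs1
    linarith
  set t : ℕ → ℂ := fun n => s⁻¹ ^ d ^ n with htdef
  have t0 : ∀ n, t n ≠ 0 := fun n => pow_ne_zero _ (inv_ne_zero s0)
  have ht : ∀ᶠ n in (𝒰 : Filter ℕ), ‖t n‖ ≤ 1 := Eventually.of_forall fun n => by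
    show ‖s⁻¹ ^ d ^ n‖ ≤ 1
    rw [norm_pow, norm_inv]
    exact pow_le_one₀ (inv_nonneg.2 (norm_nonneg _)) (inv_le_one_of_one_le₀ hs1.le)
  have hap : ∀ i T, As 𝒰 t T (fun n => σ (x i n) * t n ^ c i)
      (ser (PowerSeries.map σ (p i)) (c i) (z i)) := fun i T => by
    refine ap (hE i) (hc i).1 (hc i).2.1 (dss3_norm hA (hc i).2.2) (dss3_norm hA (hz1 i)) hU ?_
    refine (isBigO_zero _ _).congr' ?_ EventuallyEq.rfl
    filter_upwards [hz2 i] with n hn
    rw [hn, sub_self]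
  set E0 : ℕ := ∑ i, c i * (q i).natDegree with hE0
  have hle : ∀ i, ∀ j ∈ Finset.range ((q i).natDegree + 1), c i * j ≤ E0 := fun i j hj => by
    have h1 : c i * j ≤ c i * (q i).natDegree :=
      Nat.mul_le_mul_left _ (Nat.lt_succ_iff.1 (Finset.mem_range.1 hj))
    exact h1.trans (Finset.single_le_sum (f := fun i => c i * (q i).natDegree)
      (fun _ _ => Nat.zero_le _) (Finset.mem_univ i))
  set π : PowerSeries ℂ := ∑ i, ∑ j ∈ Finset.range ((q i).natDegree + 1),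
    PowerSeries.C (σ ((q i).coeff j)) * ser (PowerSeries.map σ (p i)) (c i) (z i) ^ j *
      PowerSeries.X ^ (E0 - c i * j) with hπ
  set R : ℕ → ℂ := fun n => σ (∑ i, (q i).eval (x i n)) with hRdef
  have hπS : π ∈ dss3_S := sum_mem fun i _ => sum_mem fun j _ =>
    mul_mem (mul_mem (dss3_C (dss3_alg σ _))
      (pow_mem (dss3_ser σ _ (hc i).1 (dss3_root hA (hz1 i))) _)) (pow_mem dss3_X _)
  have hAs : ∀ T, As 𝒰 t T (fun n => R n * t n ^ E0) π := fun T => by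
    have h1 : As 𝒰 t T (fun n => ∑ i, ∑ j ∈ Finset.range ((q i).natDegree + 1),
        σ ((q i).coeff j) * (σ (x i n) * t n ^ c i) ^ j * t n ^ (E0 - c i * j)) π :=
      as_sum _ fun i _ => as_sum _ fun j _ =>
        As.mul ht (As.mul ht (as_const ht _) ((hap i T).pow ht j)) ((as_id ht).pow ht _)
    refine h1.congr (Eventually.of_forall fun n => ?_)
    show _ = σ (∑ i, (q i).eval (x i n)) * t n ^ E0
    rw [map_sum, Finset.sum_mul]
    refine Finset.sum_congr rfl fun i _ => ?_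
    rw [eval_eq_sum_range, map_sum, Finset.sum_mul]
    refine Finset.sum_congr rfl fun j hj => ?_
    have e : t n ^ E0 = t n ^ (c i * j) * t n ^ (E0 - c i * j) := by
      rw [← pow_add, Nat.add_sub_cancel' (hle i j hj)]
    rw [e, map_mul, map_pow, mul_pow, ← pow_mul]
    ring
  by_cases hz : ∀ k < E0, PowerSeries.coeff k π = 0
  · left
    have h1 := ((hAs E0).small ht le_rfl hz).mul (isBigO_refl (fun n => (t n ^ E0)⁻¹) _)
    have h2 : R =O[𝒰] fun _ => (1 : ℂ) := by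
      refine h1.congr (fun n => ?_) (fun n => ?_)
      · exact mul_inv_cancel_right₀ (pow_ne_zero _ (t0 n)) _
      · exact mul_inv_cancel₀ (pow_ne_zero _ (t0 n))
    exact h2.trans (isBigO_const_const _ one_ne_zero _)
  · right
    have hex : ∃ k, k < E0 ∧ PowerSeries.coeff k π ≠ 0 := by
      by_contra hcon
      exact hz fun k hk => by
        by_contra h
        exact hcon ⟨k, hk, h⟩
    obtain ⟨he1, he2⟩ := Nat.find_spec hex
    set e := Nat.find hex with he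
    have hmin : ∀ k < e, PowerSeries.coeff k π = 0 := fun k hk => by
      by_contra h
      exact Nat.find_min hex hk ⟨hk.trans he1, h⟩
    obtain ⟨E, hE'⟩ : ∃ E, E0 = e + 1 + E := ⟨E0 - (e + 1), by omega⟩
    refine ⟨s, PowerSeries.coeff e π, A, E + 1, hA, hs, mem_algebraicClosure_iff.1 (hπS e),
      hs1, he2, Nat.succ_pos _, ?_⟩
    have h1 := ((hAs (e + 1)).lead hmin).mul (isBigO_refl (fun n => (t n ^ E0)⁻¹) _)
    have ti : ∀ n k, (t n ^ k)⁻¹ = (s ^ k) ^ d ^ n := fun n k => by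
      show ((s⁻¹ ^ d ^ n) ^ k)⁻¹ = _
      rw [← pow_mul, inv_pow, inv_inv, ← pow_mul, mul_comm]
    have h2 : (fun n => R n - PowerSeries.coeff e π * (s ^ (E + 1)) ^ d ^ n) =O[𝒰]
        fun n => (s ^ E) ^ d ^ n := by
      refine h1.congr (fun n => ?_) (fun n => ?_)
      · rw [← ti, sub_mul, mul_inv_cancel_right₀ (pow_ne_zero _ (t0 n)), hE']
        have := t0 n
        field_simp
        ring
      · rw [← ti, hE']
        have := t0 n
        field_simp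
        ring
    refine h2.trans (IsBigO.of_norm_le fun n => ?_)
    rw [norm_pow, norm_pow, Nat.add_sub_cancel]

end Pool.Agent.P.MP_68214b_ag.DS
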