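import Pool.Agent.P.MP_68214b_ag.DSN1

open Polynomial Filter Asymptotics NumberField Topology

namespace Pool.Agent.P.MP_68214b_ag.DS

theorem rn (h : ℂ[X]) (z : ℂ) (hz : (derivative h).eval z ≠ 0) :
    ∃ w, h.eval w = 0 ∧ ‖w - z‖ * ‖(derivative h).eval z‖ ≤ h.natDegree * ‖h.eval z‖ := by
  by_cases h0 : h.eval z = 0
  · exact ⟨z, h0, by simp [h0]⟩
  have hs := IsAlgClosed.splits h
  have e := hs.eval_derivative_eq_eval_mul_sum h0
  have hne : h.roots.toFinset.Nonempty := by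
    rw [Multiset.toFinset_nonempty]
    intro c
    rw [c] at e
    exact hz (by simpa using e)
  obtain ⟨w, hw, hm⟩ := Finset.exists_min_image _ (fun w => ‖w - z‖) hne
  refine ⟨w, isRoot_of_mem_roots (Multiset.mem_toFinset.1 hw), ?_⟩
  have h1 : ‖(w - z) * (h.roots.map fun x => 1 / (z - x)).sum‖ ≤ h.natDegree := by
    rw [← Multiset.sum_map_mul_left]
    refine (norm_multiset_sum_le _).trans ((Multiset.sum_le_card_nsmul _ 1 fun x hx => ?_).trans ?_)
    · simp only [Multiset.map_map, Multiset.mem_map, Function.comp] at hx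
      obtain ⟨a, ha, rfl⟩ := hx
      rw [mul_one_div, norm_div, norm_sub_rev z a]
      exact div_le_one_of_le₀ (hm a (Multiset.mem_toFinset.2 ha)) (norm_nonneg _)
    · simpa using card_roots' h
  rw [e, norm_mul, mul_left_comm, ← norm_mul, mul_comm]
  exact mul_le_mul_of_nonneg_right h1 (norm_nonneg _)

theorem dst1_iter (p : ℂ[X]) (i : ℕ) :
    iteratedDeriv i (fun z => p.eval z) = fun z => (derivative^[i] p).eval z := by
  induction i with
  | zero => simp
  | succ i ih =>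
    rw [iteratedDeriv_succ, ih, Function.iterate_succ_apply']
    exact funext fun z => Polynomial.deriv _

theorem cauchy1 (p : ℂ[X]) {r E : ℝ} (hr : 0 < r) (h : ∀ z : ℂ, ‖z‖ = r → ‖p.eval z‖ ≤ E) (i : ℕ) :
    ‖p.coeff i‖ * r ^ i ≤ E := by
  have h1 := Complex.norm_iteratedDeriv_le_of_forall_mem_sphere_norm_le (c := 0)
    (f := fun z => p.eval z) i hr p.differentiable.diffContOnCl fun z hz => h z (by simpa using hz)
  rw [dst1_iter] at h1
  simp only [← coeff_zero_eq_eval_zero, coeff_iterate_derivative, zero_add,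
    Nat.descFactorial_self, nsmul_eq_mul, norm_mul, Complex.norm_natCast] at h1
  rw [le_div_iff₀ (pow_pos hr i), mul_assoc] at h1
  exact le_of_mul_le_mul_left h1 (by exact_mod_cast i.factorial_pos)

theorem cauchy2 (W : ℂ[X][X]) (y1 y2 : ℂ) {r E : ℝ} (hr : 0 < r)
    (h : ∀ s t : ℂ, ‖s‖ = r → ‖t‖ = r → ‖W.evalEval (y1 + s) (y2 + t)‖ ≤ E) (i j : ℕ) :
    ‖tc y1 y2 W i j‖ * r ^ (i + j) ≤ E := by
  rw [pow_add, ← mul_assoc, ← le_div_iff₀ (pow_pos hr j)]
  refine cauchy1 _ hr (fun s hs => ?_) i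
  rw [le_div_iff₀ (pow_pos hr j), taylor_eval, add_comm]
  have := cauchy1 ((taylor (C y2) W).map (evalRingHom (y1 + s))) hr (fun t ht => by
    rw [map_evalRingHom_eval, evalEval, taylor_eval, ← C_add, add_comm t]
    exact h s t hs ht) j
  rwa [coeff_map] at this

theorem lemU {p : ℂ[X]} {y : ℂ} {k : ℕ} (h : (X - C y) ^ k ∣ p) :
    ‖y‖ ^ k * ‖p.leadingCoeff‖ ≤ nC.l1.f p := by
  obtain ⟨q, rfl⟩ := h
  have h1 : ∀ k : ℕ, ‖y‖ ^ k ≤ ((X - C y) ^ k).mahlerMeasure := fun k => by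
    induction k with
    | zero => simp
    | succ k ih =>
      rw [pow_succ, pow_succ, mahlerMeasure_mul, mahlerMeasure_X_sub_C]
      exact mul_le_mul ih (le_max_right _ _) (norm_nonneg _) (mahlerMeasure_nonneg _)
  refine le_trans ?_ (mahlerMeasure_le_sum_norm_coeff _)
  rw [mahlerMeasure_mul, leadingCoeff_monic_mul ((monic_X_sub_C y).pow k)]
  exact mul_le_mul (h1 k) (leadingCoeff_le_mahlerMeasure q) (norm_nonneg _) (mahlerMeasure_nonneg _)

end Pool.Agent.P.MP_68214b_ag.DS
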