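import Pool.Agent.P.MP_68214b_ag.DST1
import Pool.Agent.P.MP_68214b_ag.DSN3

open Polynomial Filter Asymptotics NumberField Topology

namespace Pool.Agent.P.MP_68214b_ag.DS

theorem dst10_pow (p : ℂ[X]) (n : ℕ) : (p ^ n).mahlerMeasure = p.mahlerMeasure ^ n := by
  induction n with
  | zero => rw [pow_zero, pow_zero, mahlerMeasure_one]
  | succ n ih => rw [pow_succ, pow_succ, mahlerMeasure_mul, ih]

theorem dst10_coeff (p : ℂ[X]) {D : ℕ} (hD : p.natDegree ≤ D) (k : ℕ) :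
    ‖p.coeff k‖ ≤ 2 ^ D * p.mahlerMeasure := by
  refine (norm_coeff_le_choose_mul_mahlerMeasure k p).trans ?_
  refine mul_le_mul_of_nonneg_right ?_ p.mahlerMeasure_nonneg
  have h1 : p.natDegree.choose k ≤ 2 ^ D :=
    (Nat.choose_le_two_pow _ _).trans (Nat.pow_le_pow_right (by norm_num) hD)
  exact_mod_cast h1

theorem dst10_l1 (p : ℂ[X]) : p.mahlerMeasure ≤ nC.l1.f p := mahlerMeasure_le_sum_norm_coeff p

theorem dst10_ev (ξ : ℂ) (hξ : ‖ξ‖ = 1) (a : ℤ[X]) :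
    nC.f (eval₂RingHom zc ξ a) ≤ nZ.l1.f a := by
  have h := nZ.eval₂_le nC zc (fun b => by
    show ‖((b : ℤ) : ℂ)‖ ≤ |(b : ℝ)|
    rw [Complex.norm_intCast]) (x := ξ) (t := 1) le_rfl hξ.le (p := a) le_rfl
  rw [one_pow, mul_one] at h
  exact h

theorem gel {W A V : ℤ[X][X]} {n E : ℕ} (h : W = A ^ n * V) (hW : W ≠ 0) (hB : Bd W E E) (i j : ℕ) :
    |(((A.coeff j).coeff i : ℤ) : ℝ)| ^ n ≤ 4 ^ E * (E + 1) * nZ.l2.f W := by
  obtain ⟨hb1, hb2⟩ := bd_of_pow_mul h hW hB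
  have hV : V ≠ 0 := by
    rintro rfl
    exact hW (by rw [h, mul_zero])
  have hlc : V.coeff V.natDegree ≠ 0 := leadingCoeff_ne_zero.2 hV
  set a : ℂ[X] := (A.coeff j).map zc with ha
  set v : ℂ[X] := (V.coeff V.natDegree).map zc with hv
  have hcirc : ∀ ξ : ℂ, ‖ξ‖ = 1 → ‖(a ^ n * v).eval ξ‖ ≤ 2 ^ E * nZ.l2.f W := fun ξ hξ => by
    set φ : ℤ[X] →+* ℂ := eval₂RingHom zc ξ with hφ
    have e1 : a.eval ξ = (A.map φ).coeff j := by
      rw [coeff_map, ha, eval_map]; rfl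
    have e2 : v.eval ξ = (V.map φ).coeff V.natDegree := by
      rw [coeff_map, hv, eval_map]; rfl
    have h1 := dst10_coeff (A.map φ) (natDegree_map_le (f := φ) (p := A)) j
    have h2 := dst10_coeff (V.map φ) (natDegree_map_le (f := φ) (p := V)) V.natDegree
    have h3 : (W.map φ).mahlerMeasure =
        (A.map φ).mahlerMeasure ^ n * (V.map φ).mahlerMeasure := by
      rw [h, Polynomial.map_mul, Polynomial.map_pow, mahlerMeasure_mul, dst10_pow]
    have h4 : (W.map φ).mahlerMeasure ≤ nZ.l2.f W :=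
      (dst10_l1 _).trans (nZ.l1.l1_map nC φ (dst10_ev ξ hξ) W)
    have h5 : (2 : ℝ) ^ (n * A.natDegree + V.natDegree) ≤ 2 ^ E :=
      pow_le_pow_right₀ (by norm_num) hb2
    have mA := (A.map φ).mahlerMeasure_nonneg
    have mW := (W.map φ).mahlerMeasure_nonneg
    rw [eval_mul, eval_pow, norm_mul, norm_pow, e1, e2]
    calc ‖(A.map φ).coeff j‖ ^ n * ‖(V.map φ).coeff V.natDegree‖
        ≤ (2 ^ A.natDegree * (A.map φ).mahlerMeasure) ^ n *
          (2 ^ V.natDegree * (V.map φ).mahlerMeasure) := by gcongr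
      _ = 2 ^ (n * A.natDegree + V.natDegree) * (W.map φ).mahlerMeasure := by
          rw [h3, mul_pow, ← pow_mul, pow_add, mul_comm A.natDegree n]; ring
      _ ≤ 2 ^ E * nZ.l2.f W := by gcongr
  have hco : ∀ k, nC.f ((a ^ n * v).coeff k) ≤ 2 ^ E * nZ.l2.f W := fun k => by
    have := cauchy1 (a ^ n * v) one_pos hcirc k
    rw [one_pow, mul_one] at this
    exact this
  have hda : a.natDegree ≤ (A.coeff j).natDegree := natDegree_map_le
  have hdv : v.natDegree ≤ (V.coeff V.natDegree).natDegree := natDegree_map_le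
  have hb := hb1 j V.natDegree
  have hdeg : (a ^ n * v).natDegree ≤ E := by
    refine natDegree_mul_le.trans ?_
    have h1 : (a ^ n).natDegree ≤ n * (A.coeff j).natDegree :=
      natDegree_pow_le.trans (Nat.mul_le_mul_left _ hda)
    omega
  have hM : a.mahlerMeasure ^ n * v.mahlerMeasure ≤ (E + 1) * (2 ^ E * nZ.l2.f W) := by
    rw [← dst10_pow, ← mahlerMeasure_mul]
    exact (dst10_l1 _).trans (nC.l1_le _ hdeg hco)
  have hv1 : 1 ≤ v.mahlerMeasure := one_le_mahlerMeasure_of_ne_zero hlc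
  have ma := a.mahlerMeasure_nonneg
  have hM' : a.mahlerMeasure ^ n ≤ (E + 1) * (2 ^ E * nZ.l2.f W) :=
    (le_mul_of_one_le_right (pow_nonneg ma n) hv1).trans hM
  have h1 : |(((A.coeff j).coeff i : ℤ) : ℝ)| ≤ 2 ^ (A.coeff j).natDegree * a.mahlerMeasure := by
    have := dst10_coeff a hda i
    rw [ha, coeff_map, eq_intCast, Complex.norm_intCast] at this
    exact this
  have h5 : (2 : ℝ) ^ (n * (A.coeff j).natDegree) ≤ 2 ^ E :=
    pow_le_pow_right₀ (by norm_num) (by omega)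
  calc |(((A.coeff j).coeff i : ℤ) : ℝ)| ^ n
      ≤ (2 ^ (A.coeff j).natDegree * a.mahlerMeasure) ^ n := by gcongr
    _ = 2 ^ (n * (A.coeff j).natDegree) * a.mahlerMeasure ^ n := by
        rw [mul_pow, ← pow_mul, mul_comm (A.coeff j).natDegree n]
    _ ≤ 2 ^ E * ((E + 1) * (2 ^ E * nZ.l2.f W)) := by gcongr
    _ = 4 ^ E * (E + 1) * nZ.l2.f W := by
        rw [show (4 : ℝ) = 2 * 2 by norm_num, mul_pow]; ring

end Pool.Agent.P.MP_68214b_ag.DS
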