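import Pool.Agent.P.MP_68214b_ag.DST12a
import Pool.Agent.P.MP_68214b_ag.DST6
import Pool.Agent.P.MP_68214b_ag.DST9
import Pool.Agent.P.MP_68214b_ag.DST11

open Polynomial Filter Asymptotics NumberField Topology

namespace Pool.Agent.P.MP_68214b_ag.DS

/-- polynomials of bounded outer degree vanishing to order k -/
def dst12_M (y1 y2 : ℂ) (k n : ℕ) : AddSubgroup ℤ[X][X] where
  carrier := {B | map2 zc B ∈ mI y1 y2 ^ k ∧ B.natDegree ≤ n}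
  zero_mem' := ⟨by rw [map_zero]; exact Ideal.zero_mem _, by simp⟩
  add_mem' := fun {a b} ha hb => ⟨by rw [map_add]; exact Ideal.add_mem _ ha.1 hb.1,
    (natDegree_add_le a b).trans (max_le ha.2 hb.2)⟩
  neg_mem' := fun {a} ha => ⟨by rw [map_neg]; exact neg_mem ha.1, by rw [natDegree_neg]; exact ha.2⟩

theorem dst12_nc {G : ℤ[X][X]} (hd : 0 < G.natDegree) (c : ℕ) (hc : 0 < c) :
    ¬ G ∣ (c : ℤ[X][X]) := fun h => by
  have h0 : (c : ℤ[X][X]) ≠ 0 := Nat.cast_ne_zero.2 hc.ne'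
  have := natDegree_le_of_dvd h h0
  rw [natDegree_natCast] at this
  omega

theorem dst12_root {R : ℤ[X]} (hR : R ≠ 0) {y : ℂ} {E : ℕ} (h : (X - C y) ^ E ∣ R.map zc) :
    ‖y‖ ^ E ≤ nZ.l1.f R := by
  have h1 := lemU h
  have h2 : nC.l1.f (R.map zc) ≤ nZ.l1.f R :=
    nZ.l1_map nC zc (fun a => by simp [nC, nZ]) R
  have h3 : (1 : ℝ) ≤ ‖(R.map zc).leadingCoeff‖ := by
    rw [leadingCoeff_map_of_injective (RingHom.injective_int zc)]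
    have : R.leadingCoeff ≠ 0 := leadingCoeff_ne_zero.2 hR
    simp only [eq_intCast, Complex.norm_intCast]
    exact_mod_cast Int.one_le_abs this
  have h4 : 0 ≤ ‖y‖ ^ E := by positivity
  nlinarith

theorem dst12_res {y1 y2 : ℂ} (s : Multiset ℤ[X][X]) (hs : ∀ G ∈ s, Prime G) {B : ℤ[X][X]}
    (h : ∀ G ∈ s, 0 < G.natDegree → ¬ G ∣ B) {k n : ℕ} (hA : map2 zc s.prod ∈ mI y1 y2 ^ k)
    (hB : B ∈ dst12_M y1 y2 k n) (hk : k ≤ n) (hn : s.prod.natDegree ≤ n) {a b : ℝ} (hb : 1 ≤ b)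
    (ha : nZ.l2.f s.prod ≤ a) (hbB : nZ.l2.f B ≤ b) :
    ∃ E, k * k ≤ 2 * E ∧ ‖y1‖ ^ E ≤ (a * b) ^ n := by
  have hR := res1 s hs h hB.2
  have hinj : Function.Injective (mapRingHom zc) := map_injective zc (RingHom.injective_int zc)
  have hd : (map2 zc s.prod).natDegree = s.prod.natDegree :=
    natDegree_map_eq_of_injective hinj _
  have hdB : (map2 zc B).natDegree ≤ n := natDegree_map_le.trans hB.2
  obtain ⟨E, hE, hdv⟩ := resv hA hB.1 hdB (hk.trans (Nat.le_add_left _ _))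
  refine ⟨E, hE, ?_⟩
  rw [hd] at hdv
  have e : resultant (map2 zc s.prod) (map2 zc B) s.prod.natDegree n =
      (resultant s.prod B s.prod.natDegree n).map zc :=
    resultant_map_map s.prod B s.prod.natDegree n (mapRingHom zc)
  rw [e] at hdv
  refine (dst12_root hR hdv).trans ((nZ.l1.res_le _ _ _ _).trans ?_)
  rw [mul_pow]
  have h1 : 0 ≤ nZ.l2.f s.prod := Sn.nonneg _ _
  have h2 : 0 ≤ nZ.l2.f B := Sn.nonneg _ _
  refine mul_le_mul (pow_le_pow_left₀ h1 ha _) ?_ (pow_nonneg h2 _) (pow_nonneg (h1.trans ha) _)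
  exact (pow_le_pow_left₀ h2 hbB _).trans (pow_le_pow_right₀ hb hn)

theorem mult (c : ℝ) (hc : 1 ≤ c) {c' T : ℕ} (hc' : 0 < c') (hT : 0 < T) :
    ∃ (𝓔 : Set ℤ[X][X]) (c3 : ℝ), 𝓔.Finite ∧ (∀ G ∈ 𝓔, G ≠ 0) ∧
      ∀ (D μ : ℕ) (W : ℤ[X][X]) (y1 y2 : ℂ), 0 < D → W ≠ 0 → Bd W (c' * D) (c' * D) →
        nZ.l2.f W ≤ c ^ D → D ≤ T * μ → μ ≤ D → map2 zc W ∈ mI y1 y2 ^ μ →
        (∃ G ∈ 𝓔, ev2 zc y1 y2 G = 0) ∨ ‖y1‖ ≤ c3 := by
  obtain ⟨a, ha⟩ : ∃ a : ℝ, a = 32 ^ c' * c := ⟨_, rfl⟩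
  have ha1 : 1 ≤ a := ha ▸ one_le_mul_of_one_le_of_one_le (one_le_pow₀ (by norm_num)) hc
  obtain ⟨b, hb⟩ : ∃ b : ℝ, b = 8 ^ c' * a := ⟨_, rfl⟩
  have hb1 : 1 ≤ b := hb ▸ one_le_mul_of_one_le_of_one_le (one_le_pow₀ (by norm_num)) ha1
  have hab : 1 ≤ (a * b) ^ c' := one_le_pow₀ (one_le_mul_of_one_le_of_one_le ha1 hb1)
  refine ⟨{G | G ∈ {G : ℤ[X][X] | Bd G (c' * (2 * T)) (c' * (2 * T)) ∧
      ∀ i j, |(((G.coeff j).coeff i : ℤ) : ℝ)| ≤ (8 ^ c' * c) ^ (2 * T)} ∧ G ≠ 0},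
    ((a * b) ^ c') ^ (8 * T ^ 2), (box_fin _ _).sep _, fun G hG => hG.2, ?_⟩
  intro D μ W y1 y2 hD hW hB hν hDT hμ hv
  obtain ⟨s, V, hsV, hs, hV⟩ := split_primes hW y1 y2
  have hA0 : s.prod ≠ 0 := fun h => hW (by rw [hsV, h, zero_mul])
  have hAW : s.prod ∣ W := ⟨V, hsV⟩
  have hAv : map2 zc s.prod ∈ mI y1 y2 ^ μ := by
    rw [hsV, map_mul] at hv
    exact van_cancel hv (by rwa [← ev2_eq])
  obtain ⟨hAB, hAν⟩ := fac_bound hc hW hB hν hAW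
  rw [← ha] at hAν
  obtain ⟨L, hL, hLs⟩ := card_pos_deg s hA0
  by_cases hex : ∃ G ∈ L, G ^ (μ / 2 + 1) ∣ s.prod
  · obtain ⟨G, hG, hdv⟩ := hex
    have hGs := hs G ((hLs G).1 hG).1
    have hD2 : D ≤ 2 * T * (μ / 2 + 1) := by
      have : μ ≤ 2 * (μ / 2 + 1) := by omega
      calc D ≤ T * μ := hDT
        _ ≤ T * (2 * (μ / 2 + 1)) := Nat.mul_le_mul_left _ this
        _ = _ := by ring
    exact Or.inl ⟨G, ⟨exc_box hc hW hB hν hD2 (hdv.trans hAW), hGs.1.ne_zero⟩, hGs.2⟩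
  right
  have hH : (0 : ℝ) ≤ 2 ^ (c' * D) * a ^ D := by positivity
  obtain ⟨B, hBM, hBν, hBL⟩ := greedy nZ.l2 (dst12_M y1 y2 (μ - μ / 2) (c' * D)) L
    (fun G hG => (hs G ((hLs G).1 hG).1).1) (fun G hG => dst12_nc ((hLs G).1 hG).2) hH
    (fun G hG => by
      obtain ⟨j, hj, -, hnd⟩ := has' (hs G ((hLs G).1 hG).1).1 ((hLs G).1 hG).2
        (fun h => hex ⟨G, hG, h⟩)
      refine ⟨hasseDeriv j s.prod, ⟨?_, (hAB.hasse j).2⟩, ?_, hnd⟩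
      · have e : map2 zc (hasseDeriv j s.prod) = hasseDeriv j (map2 zc s.prod) :=
          map_hasse (mapRingHom zc) j s.prod
        rw [e]
        exact Ideal.pow_le_pow_right (by omega) (van_hasse hAv j)
      · exact (nZ.l1.l1_hasse hAB.2 j).trans (mul_le_mul_of_nonneg_left hAν (by positivity)))
  have hBb : nZ.l2.f B ≤ b ^ D := by
    refine hBν.trans ?_
    have h1 : (L.length : ℝ) ≤ 2 ^ (c' * D) := by
      have : L.length ≤ 2 ^ (c' * D) := (hL.trans hAB.2).trans Nat.lt_two_pow_self.le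
      exact_mod_cast this
    have h2 : (L.length : ℝ) ^ 2 ≤ (2 ^ (c' * D)) ^ 2 := pow_le_pow_left₀ (by positivity) h1 2
    calc (L.length : ℝ) ^ 2 * (2 ^ (c' * D) * a ^ D)
        ≤ (2 ^ (c' * D)) ^ 2 * (2 ^ (c' * D) * a ^ D) := mul_le_mul_of_nonneg_right h2 hH
      _ = b ^ D := by
        rw [hb, mul_pow, ← pow_mul (8 : ℝ), show (8 : ℝ) = 2 * 2 * 2 by norm_num, mul_pow, mul_pow]
        ring
  have hk : μ - μ / 2 ≤ c' * D := by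
    have : D ≤ c' * D := Nat.le_mul_of_pos_left _ hc'
    omega
  obtain ⟨E, hE, hy⟩ := dst12_res s (fun G hG => (hs G hG).1)
    (fun G hG hd => hBL G ((hLs G).2 ⟨hG, hd⟩))
    (Ideal.pow_le_pow_right (Nat.sub_le _ _) hAv) hBM hk hAB.2 (one_le_pow₀ hb1) hAν hBb
  have hDE : D * D ≤ 8 * T ^ 2 * E := by
    have h1 : D ≤ T * (2 * (μ - μ / 2)) := hDT.trans (Nat.mul_le_mul_left _ (by omega))
    calc D * D ≤ (T * (2 * (μ - μ / 2))) * (T * (2 * (μ - μ / 2))) := Nat.mul_le_mul h1 h1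
      _ = 4 * T ^ 2 * ((μ - μ / 2) * (μ - μ / 2)) := by ring
      _ ≤ 4 * T ^ 2 * (2 * E) := Nat.mul_le_mul_left _ hE
      _ = _ := by ring
  have hE0 : E ≠ 0 := by
    rintro rfl
    have : 0 < D * D := Nat.mul_pos hD hD
    omega
  refine le_of_pow_le_pow_left₀ hE0 (by positivity) (hy.trans ?_)
  calc (a ^ D * b ^ D) ^ (c' * D) = ((a * b) ^ c') ^ (D * D) := by
        rw [← mul_pow, ← pow_mul, ← pow_mul]; congr 1; ring
    _ ≤ ((a * b) ^ c') ^ (8 * T ^ 2 * E) := pow_le_pow_right₀ hab hDE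
    _ = _ := by rw [pow_mul]

end Pool.Agent.P.MP_68214b_ag.DS
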