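import Pool.Agent.P.MP_68214b_ag.DST10

open Polynomial Filter Asymptotics NumberField Topology

namespace Pool.Agent.P.MP_68214b_ag.DS

theorem box_fin (e : ℕ) (B : ℝ) :
    {G : ℤ[X][X] | Bd G e e ∧ ∀ i j, |(((G.coeff j).coeff i : ℤ) : ℝ)| ≤ B}.Finite := by
  refine Set.Finite.of_injOn (f := fun G (p : Fin (e + 1) × Fin (e + 1)) => (G.coeff p.1).coeff p.2)
    (t := {f | ∀ p, f p ∈ Set.Icc (-⌈B⌉) ⌈B⌉}) (fun G hG p => ?_) (fun G hG H hH h => ?_)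
    (Set.Finite.pi' fun _ => Set.finite_Icc (-⌈B⌉) ⌈B⌉)
  · have := (hG.2 p.2 p.1).trans (Int.le_ceil B)
    exact abs_le.1 (by exact_mod_cast this)
  · ext j i
    by_cases hj : j < e + 1
    · by_cases hi : i < e + 1
      · exact congrFun h (⟨j, hj⟩, ⟨i, hi⟩)
      · rw [coeff_eq_zero_of_natDegree_lt (by have := hG.1.1 j; omega),
          coeff_eq_zero_of_natDegree_lt (by have := hH.1.1 j; omega)]
    · rw [coeff_eq_zero_of_natDegree_lt (p := G) (by have := hG.1.2; omega),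
        coeff_eq_zero_of_natDegree_lt (p := H) (by have := hH.1.2; omega)]

theorem dst12a_two (E : ℕ) : (E : ℝ) + 1 ≤ 2 ^ E := by
  exact_mod_cast Nat.lt_two_pow_self

theorem dst12a_gel {c : ℝ} {c' D n : ℕ} {W A V : ℤ[X][X]} (h : W = A ^ n * V) (hW : W ≠ 0)
    (hB : Bd W (c' * D) (c' * D)) (hν : nZ.l2.f W ≤ c ^ D) (i j : ℕ) :
    |(((A.coeff j).coeff i : ℤ) : ℝ)| ^ n ≤ (8 ^ c' * c) ^ D := by
  refine (gel h hW hB i j).trans ((mul_le_mul (mul_le_mul_of_nonneg_left (dst12a_two _)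
    (by positivity)) hν (nZ.l2.nonneg W) (by positivity)).trans (le_of_eq ?_))
  rw [← mul_pow, mul_pow _ c, ← pow_mul]
  norm_num

theorem exc_box {c : ℝ} (hc : 1 ≤ c) {c' T D m : ℕ} {W G : ℤ[X][X]} (hW : W ≠ 0)
    (hB : Bd W (c' * D) (c' * D)) (hν : nZ.l2.f W ≤ c ^ D) (hD : D ≤ T * (m + 1))
    (h : G ^ (m + 1) ∣ W) : Bd G (c' * T) (c' * T) ∧
      ∀ i j, |(((G.coeff j).coeff i : ℤ) : ℝ)| ≤ (8 ^ c' * c) ^ T := by
  obtain ⟨V, hV⟩ := h
  obtain ⟨h1, h2⟩ := bd_of_pow_mul hV hW hB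
  have key : ∀ a b : ℕ, (m + 1) * a + b ≤ c' * D → a ≤ c' * T := fun a b hab =>
    Nat.le_of_mul_le_mul_left ((le_of_add_le_left hab).trans
      ((Nat.mul_le_mul_left c' hD).trans (le_of_eq (by ring)))) m.succ_pos
  have h8 : (1 : ℝ) ≤ 8 ^ c' * c := one_le_mul_of_one_le_of_one_le (one_le_pow₀ (by norm_num)) hc
  refine ⟨⟨fun j => key _ _ (h1 j 0), key _ _ h2⟩, fun i j => ?_⟩
  refine le_of_pow_le_pow_left₀ m.succ_ne_zero (by positivity) ?_
  rw [← pow_mul]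
  exact (dst12a_gel hV hW hB hν i j).trans (pow_le_pow_right₀ h8 hD)

theorem fac_bound {c : ℝ} (hc : 1 ≤ c) {c' D : ℕ} {W A : ℤ[X][X]} (hW : W ≠ 0)
    (hB : Bd W (c' * D) (c' * D)) (hν : nZ.l2.f W ≤ c ^ D) (h : A ∣ W) :
    Bd A (c' * D) (c' * D) ∧ nZ.l2.f A ≤ (32 ^ c' * c) ^ D := by
  obtain ⟨V, hV⟩ := h
  rw [← pow_one A] at hV
  obtain ⟨h1, h2⟩ := bd_of_pow_mul hV hW hB
  have hA : Bd A (c' * D) (c' * D) :=
    ⟨fun j => by have := h1 j 0; omega, by omega⟩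
  refine ⟨hA, (nZ.l1.l1_le A hA.2 fun j => nZ.l1_le _ (hA.1 j) fun i =>
    (pow_one _).symm.le.trans (dst12a_gel hV hW hB hν i j)).trans ?_⟩
  have h0 : 0 ≤ c := by linarith
  refine (mul_le_mul (dst12a_two _) (mul_le_mul_of_nonneg_right (dst12a_two _) (by positivity))
    (by positivity) (by positivity)).trans (le_of_eq ?_)
  rw [mul_pow, mul_pow, ← pow_mul, ← pow_mul, ← mul_assoc, ← mul_assoc, ← mul_pow, ← mul_pow]
  norm_num

theorem split_primes {W : ℤ[X][X]} (hW : W ≠ 0) (y1 y2 : ℂ) :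
    ∃ (s : Multiset ℤ[X][X]) (V : ℤ[X][X]), W = s.prod * V ∧
      (∀ G ∈ s, Prime G ∧ ev2 zc y1 y2 G = 0) ∧ ev2 zc y1 y2 V ≠ 0 := by
  induction W using UniqueFactorizationMonoid.induction_on_prime with
  | h₁ => exact absurd rfl hW
  | h₂ u hu => exact ⟨0, u, by simp, by simp, (hu.map _).ne_zero⟩
  | h₃ a p ha hp ih =>
    obtain ⟨s, V, e, h1, h2⟩ := ih ha
    by_cases h : ev2 zc y1 y2 p = 0
    · refine ⟨p ::ₘ s, V, by rw [e, Multiset.prod_cons, mul_assoc], fun G hG => ?_, h2⟩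
      rcases Multiset.mem_cons.1 hG with rfl | hG
      exacts [⟨hp, h⟩, h1 G hG]
    · exact ⟨s, p * V, by rw [e]; ring, h1, by rw [map_mul]; exact mul_ne_zero h h2⟩

theorem card_pos_deg {R : Type*} [CommRing R] [IsDomain R] (s : Multiset R[X]) (hs : s.prod ≠ 0) :
    ∃ L : List R[X], L.length ≤ s.prod.natDegree ∧ ∀ G, G ∈ L ↔ G ∈ s ∧ 0 < G.natDegree := by
  induction s using Multiset.induction_on with
  | empty => exact ⟨[], by simp, by simp⟩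
  | cons a s ih =>
    rw [Multiset.prod_cons] at hs ⊢
    obtain ⟨L, h1, h2⟩ := ih (right_ne_zero_of_mul hs)
    rw [natDegree_mul (left_ne_zero_of_mul hs) (right_ne_zero_of_mul hs)]
    by_cases h : 0 < a.natDegree
    · refine ⟨a :: L, by rw [List.length_cons]; omega, fun G => ?_⟩
      rw [List.mem_cons, Multiset.mem_cons, h2, or_and_right]
      exact or_congr_left ⟨fun e => ⟨e, e ▸ h⟩, fun e => e.1⟩
    · refine ⟨L, by omega, fun G => ?_⟩
      rw [Multiset.mem_cons, h2, or_and_right]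
      exact ⟨Or.inr, fun e => e.resolve_left fun e => h (e.1 ▸ e.2)⟩

end Pool.Agent.P.MP_68214b_ag.DS
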