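import Pool.Agent.P.MP_68214b_ag.DSN2

open Polynomial Filter Asymptotics NumberField Topology

namespace Pool.Agent.P.MP_68214b_ag.DS

theorem hat_C (y : ℂ) (η : PowerSeries ℂ) (p : ℂ[X]) :
    hat y η (C p) = (taylor y p : PowerSeries ℂ) := by
  simp [hat]

theorem hat_X (y : ℂ) (η : PowerSeries ℂ) : hat y η X = η := by
  simp [hat]

theorem hat_smul (y : ℂ) (η : PowerSeries ℂ) (c : ℂ) (W : ℂ[X][X]) :
    hat y η (c • W) = c • hat y η W := by
  rw [Algebra.smul_def, map_mul, PowerSeries.smul_eq_C_mul,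
    show algebraMap ℂ ℂ[X][X] c = C (C c) from rfl, hat_C, taylor_C, Polynomial.coe_C]

theorem hat_c0 (y : ℂ) (η : PowerSeries ℂ) (W : ℂ[X][X]) :
    PowerSeries.constantCoeff (hat y η W) = W.evalEval y (PowerSeries.constantCoeff η) := by
  induction W using Polynomial.induction_on with
  | C p => rw [hat_C, evalEval_C, Polynomial.constantCoeff_coe, taylor_coeff_zero]
  | add p q hp hq => rw [map_add, map_add, hp, hq, evalEval_add]
  | monomial n p h =>
    rw [pow_succ, ← mul_assoc, map_mul, map_mul, h, hat_X, evalEval_mul _ _ _ X, evalEval_X]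

theorem hat_chain (y : ℂ) (η : PowerSeries ℂ) (W : ℂ[X][X]) :
    PowerSeries.derivative ℂ (hat y η W) =
      hat y η (dX W) + hat y η (derivative W) * PowerSeries.derivative ℂ η := by
  have hX : dX (X : ℂ[X][X]) = 0 := by
    ext1 j
    rw [coeff_dX, coeff_X]
    split_ifs <;> simp
  induction W using Polynomial.induction_on with
  | C p =>
    have : dX (C p) = C (derivative p) := by
      ext1 j
      rw [coeff_dX, coeff_C, coeff_C]
      split_ifs <;> simp
    rw [this, hat_C, hat_C, derivative_C, map_zero, zero_mul, add_zero, PowerSeries.derivative_coe,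
      taylor_apply, taylor_apply, derivative_comp]
    simp
  | add p q hp hq =>
    rw [map_add, map_add, hp, hq, isDer_dX.add, map_add, derivative_add, map_add]; ring
  | monomial n p h =>
    rw [pow_succ, ← mul_assoc]
    generalize C p * X ^ n = V at h ⊢
    rw [map_mul, Derivation.leibniz, h, isDer_dX.mul, hX, derivative_mul, derivative_X]
    simp only [map_add, map_mul, map_zero, map_one, hat_X, smul_eq_mul]
    ring

theorem hat_der_kron (B : ℕ) (W : ℂ[X][X]) :
    hat 0 (PowerSeries.X ^ (B + 1)) (der 1 (C (((B + 1 : ℕ) : ℂ[X]) * X ^ B)) W) =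
      1 * PowerSeries.derivative ℂ (hat 0 (PowerSeries.X ^ (B + 1)) W) := by
  rw [hat_chain, der, map_add, map_mul, map_mul, map_one, hat_C, taylor_zero,
    PowerSeries.derivative_pow]
  simp only [Polynomial.coe_mul, Polynomial.coe_pow, Polynomial.coe_X, PowerSeries.derivative_X,
    Nat.add_sub_cancel]
  rw [show (((B + 1 : ℕ) : ℂ[X]) : PowerSeries ℂ) = ((B + 1 : ℕ) : PowerSeries ℂ) from
    map_natCast Polynomial.coeToPowerSeries.ringHom _]
  ring

theorem hat_kron {W : ℂ[X][X]} {D : ℕ} (hW : ∀ j, (W.coeff j).natDegree ≤ D)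
    (h : hat 0 (PowerSeries.X ^ (D + 1)) W = 0) : W = 0 := by
  have h1 : ∀ V : ℂ[X][X], hat 0 (PowerSeries.X ^ (D + 1)) V =
      ((V.eval (X ^ (D + 1)) : ℂ[X]) : PowerSeries ℂ) := by
    intro V
    induction V using Polynomial.induction_on with
    | C p => rw [hat_C, taylor_zero, eval_C]
    | add p q hp hq => rw [map_add, hp, hq, eval_add, Polynomial.coe_add]
    | monomial n p h =>
      rw [pow_succ X n, ← mul_assoc, map_mul, h, hat_X, eval_mul (q := X), eval_X, Polynomial.coe_mul,
        Polynomial.coe_pow, Polynomial.coe_X]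
  rw [h1, Polynomial.coe_eq_zero_iff, eval_eq_sum, Polynomial.sum] at h
  ext j i
  rw [coeff_zero, coeff_zero]
  rcases lt_or_ge D i with hi | hi
  · exact coeff_eq_zero_of_natDegree_lt ((hW j).trans_lt hi)
  have h2 := congrArg (coeff · (i + (D + 1) * j)) h
  simp only [finsetSum_coeff, coeff_zero, ← pow_mul] at h2
  rw [Finset.sum_eq_single j, coeff_mul_X_pow] at h2
  · exact h2
  · intro l _ hl
    rw [coeff_mul_X_pow']
    split_ifs with h3
    · refine coeff_eq_zero_of_natDegree_lt ((hW l).trans_lt ?_)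
      rcases lt_or_gt_of_ne hl with h4 | h4
      · have := Nat.mul_le_mul_left (D + 1) (Nat.succ_le_of_lt h4)
        rw [Nat.mul_succ] at this
        omega
      · have := Nat.mul_le_mul_left (D + 1) (Nat.succ_le_of_lt h4)
        rw [Nat.mul_succ] at this
        omega
    · rfl
  · intro hj
    rw [notMem_support_iff.1 hj, zero_mul, coeff_zero]

theorem hat_der_curve {y : ℂ} {η : PowerSeries ℂ} {G : ℂ[X][X]} (h : hat y η G = 0) (W : ℂ[X][X]) :
    hat y η (der (derivative G) (-dX G) W) =
      hat y η (derivative G) * PowerSeries.derivative ℂ (hat y η W) := by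
  have h1 := hat_chain y η G
  rw [h, map_zero] at h1
  rw [hat_chain, der, map_add, map_mul, map_mul, map_neg]
  linear_combination hat y η (derivative W) * h1

theorem hat_mI {y1 y2 : ℂ} {η : PowerSeries ℂ} (hη : PowerSeries.constantCoeff η = y2) {μ : ℕ}
    {W : ℂ[X][X]} (h : W ∈ mI y1 y2 ^ μ) : hat y1 η W ∈ sI ^ μ := by
  have h1 : (mI y1 y2).map (hat y1 η) ≤ sI := by
    rw [mI, Ideal.map_span, Ideal.span_le]
    rintro _ ⟨_, rfl | rfl, rfl⟩
    · rw [hat_C]
      exact Ideal.subset_span (by simp)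
    · rw [map_sub, hat_X, hat_C, taylor_C, Polynomial.coe_C]
      exact Ideal.mem_span_singleton.2 (PowerSeries.X_dvd_iff.2 (by simp [hη]))
  exact Ideal.pow_right_mono h1 μ (Ideal.map_pow (hat y1 η) _ μ ▸ Ideal.mem_map_of_mem _ h)

theorem dvd_of_hat {y : ℂ} {p : ℂ[X]} {μ : ℕ} (h : (taylor y p : PowerSeries ℂ) ∈ sI ^ μ) :
    (X - C y) ^ μ ∣ p := by
  rw [sI, Ideal.span_singleton_pow, Ideal.mem_span_singleton, PowerSeries.X_pow_dvd_iff] at h
  have h1 : X ^ μ ∣ taylor y p := X_pow_dvd_iff.2 fun d hd => by simpa using h d hd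
  have h2 := map_dvd (taylorAlgHom (-y)) h1
  simpa [taylor_taylor, sub_eq_add_neg] using h2

theorem isDer_ps (g : PowerSeries ℂ) : IsDer fun f => g * PowerSeries.derivative ℂ f :=
  ⟨fun a b => by rw [map_add, mul_add], fun a b => by
    rw [Derivation.leibniz, smul_eq_mul, smul_eq_mul]; ring⟩

end Pool.Agent.P.MP_68214b_ag.DS
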