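import Pool.Agent.P.MP_68214b_ag.DSDef

open Polynomial Filter Asymptotics NumberField Topology

namespace Pool.Agent.P.MP_68214b_ag.DS

theorem dst7_split {u : PowerSeries ℂ} (hu : u ≠ 0) : ∃ (k : ℕ) (u0 : PowerSeries ℂ),
    u = PowerSeries.X ^ k * u0 ∧ PowerSeries.constantCoeff u0 ≠ 0 :=
  ⟨u.order.toNat, u.divXPowOrder, PowerSeries.X_pow_order_mul_divXPowOrder.symm, by
    rwa [Ne, PowerSeries.constantCoeff_divXPowOrder_eq_zero_iff]⟩

theorem dst7_der (k : ℕ) (u0 : PowerSeries ℂ) :
    PowerSeries.X * PowerSeries.derivative ℂ (PowerSeries.X ^ k * u0) =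
      PowerSeries.X ^ k * ((k : PowerSeries ℂ) * u0 +
        PowerSeries.X * PowerSeries.derivative ℂ u0) := by
  induction k with
  | zero => simp
  | succ k ih =>
    rw [pow_succ', mul_assoc, Derivation.leibniz, PowerSeries.derivative_X, smul_eq_mul,
      smul_eq_mul, ih]
    push_cast
    ring

theorem const_of_wr {u v : PowerSeries ℂ} (hu : u ≠ 0)
    (h : u * PowerSeries.derivative ℂ v = PowerSeries.derivative ℂ u * v) :
    ∃ c : ℂ, v = c • u := by
  obtain ⟨k, u0, hk, h0⟩ := dst7_split hu
  have ck : PowerSeries.coeff k u = PowerSeries.constantCoeff u0 := by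
    have := PowerSeries.coeff_X_pow_mul u0 k 0
    rwa [zero_add, ← hk, PowerSeries.coeff_zero_eq_constantCoeff_apply] at this
  refine ⟨PowerSeries.coeff k v / PowerSeries.coeff k u, sub_eq_zero.1 ?_⟩
  generalize hc : PowerSeries.coeff k v / PowerSeries.coeff k u = c
  have hw : u * PowerSeries.derivative ℂ (v - c • u) = PowerSeries.derivative ℂ u * (v - c • u) := by
    rw [map_sub, Derivation.map_smul, mul_sub, mul_sub, h, mul_smul_comm, mul_smul_comm,
      mul_comm u]
  have hz : PowerSeries.coeff k (v - c • u) = 0 := by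
    rw [map_sub, map_smul, smul_eq_mul, ← hc, div_mul_cancel₀ _ (ck ▸ h0), sub_self]
  generalize v - c • u = w at hw hz
  by_contra hne
  obtain ⟨l, w0, rfl, h1⟩ := dst7_split hne
  have e : PowerSeries.X ^ (k + l) * (u0 * ((l : PowerSeries ℂ) * w0 +
      PowerSeries.X * PowerSeries.derivative ℂ w0)) = PowerSeries.X ^ (k + l) *
      (((k : PowerSeries ℂ) * u0 + PowerSeries.X * PowerSeries.derivative ℂ u0) * w0) := by
    have a := dst7_der k u0
    have b := dst7_der l w0
    rw [← hk] at a
    have : PowerSeries.X ^ k * u0 = u := hk.symm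
    linear_combination (exp := 1) PowerSeries.X * hw + PowerSeries.X ^ l * w0 * a - u * b +
      PowerSeries.X ^ l * ((l : PowerSeries ℂ) * w0 +
        PowerSeries.X * PowerSeries.derivative ℂ w0) * this
  have e2 := congrArg PowerSeries.constantCoeff
    (mul_left_cancel₀ (pow_ne_zero _ PowerSeries.X_ne_zero) e)
  simp only [map_mul, map_add, map_natCast, PowerSeries.constantCoeff_X, zero_mul, add_zero] at e2
  have e3 : (l : ℂ) = k := mul_right_cancel₀ (mul_ne_zero h0 h1) (by linear_combination e2)
  obtain rfl : l = k := by exact_mod_cast e3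
  have := PowerSeries.coeff_X_pow_mul w0 l 0
  rw [zero_add, hz, PowerSeries.coeff_zero_eq_constantCoeff_apply] at this
  exact h1 this.symm

theorem dst7_ker {g : PowerSeries ℂ} (hg : g ≠ 0) {n : ℕ} (a : Fin n → PowerSeries ℂ)
    (h : LinearIndependent ℂ a) (c : Fin n → PowerSeries ℂ)
    (hc : ∀ j < n, ∑ i, (fun f => g * PowerSeries.derivative ℂ f)^[j] (a i) * c i = 0) :
    c = 0 := by
  induction n with
  | zero => exact Subsingleton.elim _ _
  | succ n ih =>
    have ih' : ∀ e : Fin (n + 1) → PowerSeries ℂ, e (Fin.last n) = 0 →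
        (∀ j < n, ∑ i, (fun f => g * PowerSeries.derivative ℂ f)^[j] (a i) * e i = 0) →
        e = 0 := fun e h0 he => by
      have := ih (fun i => a i.castSucc) (h.comp _ (Fin.castSucc_injective n))
        (fun i => e i.castSucc) fun j hj => by
          have := he j hj
          rwa [Fin.sum_univ_castSucc, h0, mul_zero, add_zero] at this
      funext i
      exact Fin.lastCases h0 (fun i => congrFun this i) i
    refine ih' c ?_ fun j hj => hc j (by omega)
    by_contra hl
    have h1 : ∀ j < n, ∑ i, (fun f => g * PowerSeries.derivative ℂ f)^[j] (a i) *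
        (g * PowerSeries.derivative ℂ (c i)) = 0 := fun j hj => by
      have e1 := congrArg (fun f => g * PowerSeries.derivative ℂ f) (hc j (by omega))
      have e2 := hc (j + 1) (by omega)
      simp only [map_sum, Derivation.leibniz, smul_eq_mul, Finset.mul_sum, map_zero,
        mul_zero] at e1
      simp only [Function.iterate_succ_apply'] at e2
      rw [← sub_zero (0 : PowerSeries ℂ)]
      nth_rewrite 1 [← e1]
      rw [← e2, ← Finset.sum_sub_distrib]
      exact Finset.sum_congr rfl fun i _ => by ring
    have h2 := ih' (fun i => c (Fin.last n) * (g * PowerSeries.derivative ℂ (c i)) -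
        g * PowerSeries.derivative ℂ (c (Fin.last n)) * c i) (by ring) fun j hj => by
      have e1 := congrArg (c (Fin.last n) * ·) (h1 j hj)
      have e2 := congrArg (g * PowerSeries.derivative ℂ (c (Fin.last n)) * ·) (hc j (by omega))
      simp only [Finset.mul_sum, mul_zero] at e1 e2
      rw [← sub_zero (0 : PowerSeries ℂ)]
      nth_rewrite 1 [← e1]
      rw [← e2, ← Finset.sum_sub_distrib]
      exact Finset.sum_congr rfl fun i _ => by ring
    choose lam hlam using fun i => const_of_wr (v := c i) hl (mul_left_cancel₀ hg (by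
      have := congrFun h2 i
      simp only [Pi.zero_apply] at this
      linear_combination this))
    have h3 : (∑ i, lam i • a i) * c (Fin.last n) = 0 := by
      rw [← hc 0 (by omega), Finset.sum_mul]
      refine Finset.sum_congr rfl fun i _ => ?_
      rw [hlam i, Function.iterate_zero_apply, smul_mul_assoc, mul_smul_comm]
    have h4 := Fintype.linearIndependent_iff.1 h lam ((mul_eq_zero.1 h3).resolve_right hl)
    exact hl (by rw [hlam (Fin.last n), h4, zero_smul])

theorem wr_ne {g : PowerSeries ℂ} (hg : g ≠ 0) {n : ℕ} (a : Fin n → PowerSeries ℂ)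
    (h : LinearIndependent ℂ a) : wr (fun f => g * PowerSeries.derivative ℂ f) a ≠ 0 := by
  intro h0
  obtain ⟨c, hc, e⟩ := Matrix.exists_mulVec_eq_zero_iff.2 h0
  exact hc (dst7_ker hg a h c fun j hj => congrFun e ⟨j, hj⟩)

end Pool.Agent.P.MP_68214b_ag.DS
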