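import Pool.Agent.P.MP_68214b_ag.DST6

open Polynomial Filter Asymptotics NumberField Topology

namespace Pool.Agent.P.MP_68214b_ag.DS

theorem dst8_lin {A : Type*} [CommRing A] [Algebra ℂ A] {δ : A → A} (hδ : IsDer δ)
    (hc : ∀ c : ℂ, δ (algebraMap ℂ A c) = 0) {n : ℕ} (a : Fin n → A) (l : Fin n → ℂ) (j : ℕ) :
    δ^[j] (∑ i, l i • a i) = ∑ i, l i • δ^[j] (a i) := by
  let L : A →ₗ[ℂ] A :=
    { toFun := δ
      map_add' := hδ.add
      map_smul' := fun c x => by
        simp only [RingHom.id_apply, Algebra.smul_def]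
        rw [hδ.mul, hc, zero_mul, add_zero] }
  have e : ∀ x, δ^[j] x = (L ^ j) x := fun x => by rw [Module.End.pow_apply]; rfl
  simp only [e, map_sum, map_smul]

theorem wrm {A : Type*} [CommRing A] [Algebra ℂ A] {δ : A → A} (hδ : IsDer δ)
    (hc : ∀ c : ℂ, δ (algebraMap ℂ A c) = 0) (I : Ideal A) {n : ℕ} (a : Fin n → A) (l : Fin n → ℂ)
    (hl : l ≠ 0) {μ : ℕ} (h : ∑ i, l i • a i ∈ I ^ μ) : wr δ a ∈ I ^ (μ - n) := by
  obtain ⟨i0, hi0⟩ := Function.ne_iff.1 hl
  set M : Matrix (Fin n) (Fin n) A := Matrix.of fun j i : Fin n => δ^[j] (a i) with hM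
  let v : Fin n → A := fun i => algebraMap ℂ A (l i)
  have h1 : ∀ j, M.mulVec v j ∈ I ^ (μ - n) := fun j => by
    have e : M.mulVec v j = δ^[j] (∑ i, l i • a i) := by
      rw [dst8_lin hδ hc]
      simp only [Matrix.mulVec, dotProduct, hM, Matrix.of_apply, v, Algebra.smul_def, mul_comm]
    rw [e]
    exact Ideal.pow_le_pow_right (by have := j.2; omega) (hδ.iter_mem I h j)
  have h2 : M.det * v i0 ∈ I ^ (μ - n) := by
    have e : M.det * v i0 = M.adjugate.mulVec (M.mulVec v) i0 := by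
      rw [Matrix.mulVec_mulVec, Matrix.adjugate_mul, Matrix.smul_mulVec, Matrix.one_mulVec]
      rfl
    rw [e]
    show ∑ j, M.adjugate i0 j * M.mulVec v j ∈ _
    exact Ideal.sum_mem _ fun j _ => Ideal.mul_mem_left _ _ (h1 j)
  have h3 := Ideal.mul_mem_right (algebraMap ℂ A (l i0)⁻¹) _ h2
  rw [mul_assoc, ← map_mul, mul_inv_cancel₀ hi0, map_one, mul_one] at h3
  exact h3

theorem basis_pick {V ι : Type*} [AddCommGroup V] [Module ℂ V] [Fintype ι] (v : ι → V) (c : ι → ℂ)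
    (h : ∑ k, c k • v k ≠ 0) : ∃ (n : ℕ) (e : Fin n → ι) (l : Fin n → ℂ), n ≤ Fintype.card ι ∧
      l ≠ 0 ∧ LinearIndependent ℂ (fun i => v (e i)) ∧ ∑ i, l i • v (e i) = ∑ k, c k • v k := by
  obtain ⟨κ, a, ha, hs, hl⟩ := exists_linearIndependent' ℂ v
  have : Finite κ := Finite.of_injective a ha
  have : Fintype κ := Fintype.ofFinite κ
  let E := (Fintype.equivFin κ).symm
  have hm : ∑ k, c k • v k ∈ Submodule.span ℂ (Set.range fun i => v (a (E i))) := by
    have e : (Set.range fun i => v (a (E i))) = Set.range (v ∘ a) :=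
      E.surjective.range_comp (v ∘ a)
    rw [e, hs]
    exact Submodule.sum_mem _ fun k _ => Submodule.smul_mem _ _ (Submodule.subset_span ⟨k, rfl⟩)
  obtain ⟨l, hl'⟩ := (Submodule.mem_span_range_iff_exists_fun ℂ).1 hm
  refine ⟨_, fun i => a (E i), l, Fintype.card_le_of_injective a ha, ?_,
    hl.comp E E.injective, hl'⟩
  rintro rfl
  exact h (by simpa using hl'.symm)

theorem cmb_eq {R ι : Type*} [CommRing R] [Fintype ι] (φ : R →+* ℂ) (P : ι → R[X][X]) (c : ι → ℂ) :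
    cmb φ P c = ∑ k, c k • map2 φ (P k) := by
  refine Finset.sum_congr rfl fun k _ => ?_
  rw [Algebra.smul_def]
  rfl

end Pool.Agent.P.MP_68214b_ag.DS
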