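import Pool.Agent.P.MP_68214b_ag.DST12
import Pool.Agent.P.MP_68214b_ag.DST7
import Pool.Agent.P.MP_68214b_ag.DST8
import Pool.Agent.P.MP_68214b_ag.DST14

open Polynomial Filter Asymptotics NumberField Topology

namespace Pool.Agent.P.MP_68214b_ag.DS

theorem dst13_num {n s D : ℕ} {c : ℝ} (hc : 1 ≤ c) (hn : n ≤ s) (hD : 0 < D) :
    ((n : ℝ) * (((D : ℝ) + 1) * ((D + D + n * (D + 0) + 1 : ℕ) : ℝ)) ^ n * c ^ D) ^ n ≤
      ((2 ^ (s + (s + 3) * s) * c) ^ s) ^ D := by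
  have h1 : n ≤ 2 ^ (s * D) :=
    (hn.trans (Nat.le_mul_of_pos_right s hD)).trans Nat.lt_two_pow_self.le
  have h2 : D + 1 ≤ 2 ^ D := Nat.lt_two_pow_self
  have h3 : D + D + n * (D + 0) + 1 ≤ 2 ^ ((s + 2) * D) := by
    have a : (s + 2) * D + 1 ≤ 2 ^ ((s + 2) * D) := Nat.lt_two_pow_self
    have b : n * D ≤ s * D := Nat.mul_le_mul_right D hn
    have e : (s + 2) * D = s * D + D + D := by ring
    simp only [add_zero]
    omega
  have h4 : (D + 1) * (D + D + n * (D + 0) + 1) ≤ 2 ^ ((s + 3) * D) := by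
    refine (Nat.mul_le_mul h2 h3).trans (le_of_eq ?_)
    rw [← pow_add]; congr 1; ring
  have h5 : ((D + 1) * (D + D + n * (D + 0) + 1)) ^ n ≤ 2 ^ ((s + 3) * s * D) := by
    refine (Nat.pow_le_pow_left h4 n).trans ?_
    rw [← pow_mul]
    refine Nat.pow_le_pow_right (by norm_num) ?_
    calc (s + 3) * D * n ≤ (s + 3) * D * s := Nat.mul_le_mul_left _ hn
      _ = _ := by ring
  have h6 : n * ((D + 1) * (D + D + n * (D + 0) + 1)) ^ n ≤ (2 ^ (s + (s + 3) * s)) ^ D := by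
    refine (Nat.mul_le_mul h1 h5).trans (le_of_eq ?_)
    rw [← pow_add, ← pow_mul]; congr 1; ring
  have h7 : (n : ℝ) * (((D : ℝ) + 1) * ((D + D + n * (D + 0) + 1 : ℕ) : ℝ)) ^ n ≤
      (2 ^ (s + (s + 3) * s)) ^ D := by exact_mod_cast h6
  have h8 : (1 : ℝ) ≤ 2 ^ (s + (s + 3) * s) * c :=
    one_le_mul_of_one_le_of_one_le (one_le_pow₀ (by norm_num)) hc
  have h0 : (0 : ℝ) ≤ c ^ D := by positivity
  calc _ ≤ ((2 ^ (s + (s + 3) * s) * c) ^ D) ^ n := by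
        refine pow_le_pow_left₀ (by positivity) ?_ n
        rw [mul_pow (2 ^ (s + (s + 3) * s) : ℝ)]
        exact mul_le_mul_of_nonneg_right h7 h0
    _ ≤ ((2 ^ (s + (s + 3) * s) * c) ^ D) ^ s := pow_le_pow_right₀ (one_le_pow₀ h8) hn
    _ = _ := by rw [← pow_mul, ← pow_mul, mul_comm D s]

theorem dst13_bd {R : Type*} [CommRing R] {p : R[X]} {D : ℕ} (h : p.natDegree ≤ D) :
    Bd (C p : R[X][X]) D 0 := by
  refine ⟨fun j => ?_, by simp⟩
  rw [coeff_C]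
  split_ifs
  · exact h
  · simp

theorem dst13_ne {n D : ℕ} (A : Fin n → ℂ[X][X]) (hA : ∀ i, Bd (A i) D D)
    (h : LinearIndependent ℂ A) :
    wr (der 1 (C (((D + 1 : ℕ) : ℂ[X]) * X ^ D))) A ≠ 0 := by
  intro h0
  have h1 := wr_map (hat 0 (PowerSeries.X ^ (D + 1)))
    (δ' := fun f => 1 * PowerSeries.derivative ℂ f) (hat_der_kron D) A
  rw [h0, map_zero] at h1
  refine wr_ne one_ne_zero _ ?_ h1.symm
  rw [Fintype.linearIndependent_iff] at h ⊢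
  intro g hg
  refine h g (hat_kron (D := D) (fun j => ?_) ?_)
  · rw [finsetSum_coeff]
    refine natDegree_sum_le_of_forall_le _ _ fun i _ => ?_
    rw [coeff_smul]
    exact (natDegree_smul_le _ _).trans ((hA i).1 j)
  · rw [map_sum, ← hg]
    exact Finset.sum_congr rfl fun i _ => hat_smul _ _ _ _

theorem nvd (κ : Type*) [Fintype κ] (c : ℝ) (hc : 1 ≤ c) {T : ℕ} (hT : 0 < T) :
    ∃ (𝓔 : Set ℤ[X][X]) (c3 : ℝ) (D1 : ℕ), 𝓔.Finite ∧ (∀ G ∈ 𝓔, G ≠ 0) ∧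
      ∀ D ≥ D1, ∀ (P : κ → ℤ[X][X]) (v : κ → ℂ) (y1 y2 : ℂ),
        (∀ k, Bd (P k) D D ∧ nZ.l2.f (P k) ≤ c ^ D) → cmb zc P v ≠ 0 →
        (∀ G ∈ 𝓔, ev2 zc y1 y2 G ≠ 0) → c3 < ‖y1‖ → cmb zc P v ∉ mI y1 y2 ^ (D / T + 1) := by
  obtain ⟨s, hs⟩ : ∃ s, Fintype.card κ = s := ⟨_, rfl⟩
  have h8 : (1 : ℝ) ≤ (2 ^ (s + (s + 3) * s) * c) ^ s :=
    one_le_pow₀ (one_le_mul_of_one_le_of_one_le (one_le_pow₀ (by norm_num)) hc)
  obtain ⟨𝓔, c3, hf, hz, hm⟩ := mult _ h8 (c' := s * (s + 1) + 1) (T := 2 * T) (by omega) (by omega)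
  refine ⟨𝓔, c3, 2 * T * s + 1, hf, hz, fun D hD P v y1 y2 hP hv hG hy hI => ?_⟩
  have hD0 : 0 < D := by omega
  rw [cmb_eq] at hv hI
  obtain ⟨n, e, l, hn, hl, hli, hsum⟩ := basis_pick (fun k => map2 zc (P k)) v hv
  rw [hs] at hn
  have hn0 : 0 < n := by
    rcases Nat.eq_zero_or_pos n with rfl | h
    · exact absurd (Subsingleton.elim _ _) hl
    · exact h
  have hdeg : (((D + 1 : ℕ) : ℤ[X]) * X ^ D).natDegree ≤ D :=
    natDegree_mul_le.trans (by rw [natDegree_natCast, zero_add]; exact natDegree_X_pow_le D)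
  have hb1 : Bd (1 : ℤ[X][X]) D 0 := by
    rw [← C_1]; exact dst13_bd (by simp)
  have hγ : (1 : ℝ) ≤ (D : ℝ) + 1 := by have := Nat.cast_nonneg (α := ℝ) D; linarith
  have hh : nZ.l2.f (C (((D + 1 : ℕ) : ℤ[X]) * X ^ D)) ≤ (D : ℝ) + 1 := by
    rw [Sn.l1_C]
    refine (nZ.l1.mul _ _).trans ?_
    have a := nZ.l1.natCast_le (D + 1)
    have b : nZ.l1.f (X ^ D) ≤ 1 :=
      (nZ.l1.pow_le _ _).trans (pow_le_one₀ (nZ.l1.nonneg _) nZ.l1_X)
    calc _ ≤ ((D + 1 : ℕ) : ℝ) * 1 := mul_le_mul a b (nZ.l1.nonneg _) (Nat.cast_nonneg _)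
      _ = _ := by push_cast; ring
  obtain ⟨w1, w2⟩ := wr_bound nZ hb1 (dst13_bd hdeg) hγ (nZ.l2.one.trans hγ) hh
    (fun i => P (e i)) (one_le_pow₀ hc) (fun i => hP (e i))
  have hmap : map2 zc (wr (der 1 (C (((D + 1 : ℕ) : ℤ[X]) * X ^ D))) fun i => P (e i)) =
      wr (der 1 (C (((D + 1 : ℕ) : ℂ[X]) * X ^ D))) fun i => map2 zc (P (e i)) := by
    refine wr_map _ (fun a => ?_) _
    rw [map2_der]
    simp
  have hne := dst13_ne (fun i => map2 zc (P (e i))) (fun i => (hP (e i)).1.map2 zc) hli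
  have hw := wrm (isDer_der 1 (C (((D + 1 : ℕ) : ℂ[X]) * X ^ D))) (fun c => der_CC _ _ c)
    (mI y1 y2) (fun i => map2 zc (P (e i))) l hl (μ := D / T + 1) (by rw [hsum]; exact hI)
  rw [← hmap] at hne hw
  have q1 : D < T * (D / T + 1) := Nat.lt_mul_div_succ D hT
  have q2 : D / T ≤ D := Nat.div_le_self D T
  have q3 : s ≤ D / T + 1 := by
    by_contra hlt
    have : T * (D / T + 1) ≤ T * s := Nat.mul_le_mul_left T (by omega)
    have e2 : 2 * T * s = 2 * (T * s) := by ring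
    omega
  have q4 : D ≤ 2 * T * (D / T + 1 - s) := by
    rw [Nat.mul_sub]
    have e1 : 2 * T * (D / T + 1) = 2 * (T * (D / T + 1)) := by ring
    omega
  have q5 : n * (D + n * D) ≤ (s * (s + 1) + 1) * D := by
    calc n * (D + n * D) = n * (n + 1) * D := by ring
      _ ≤ _ := Nat.mul_le_mul_right D
        ((Nat.mul_le_mul hn (Nat.succ_le_succ hn)).trans (Nat.le_succ _))
  have q6 : n * (D + n * 0) ≤ (s * (s + 1) + 1) * D :=
    (Nat.mul_le_mul_left n (by simp)).trans q5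
  rcases hm D (D / T + 1 - s) _ y1 y2 hD0 (fun h => hne (by rw [h, map_zero])) (w1.mono q5 q6)
    (w2.trans (dst13_num hc hn hD0)) q4 (by omega)
    (Ideal.pow_le_pow_right (by omega) hw) with ⟨G, h1, h2⟩ | h
  · exact hG G h1 h2
  · exact absurd hy (not_lt.2 h)

end Pool.Agent.P.MP_68214b_ag.DS
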