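import Pool.Agent.P.MP_68214b_ag.DST14
import Pool.Agent.P.MP_68214b_ag.DST9
import Pool.Agent.P.MP_68214b_ag.DST1
import Pool.Agent.P.MP_68214b_ag.DST11

open Polynomial Filter Asymptotics NumberField Topology

namespace Pool.Agent.P.MP_68214b_ag.DS

theorem LV.inj {R : Type*} [CommRing R] {ν : Sn R} {σ : R →+* ℂ} {r : ℕ} (h : LV ν σ r) :
    Function.Injective σ := by
  refine (injective_iff_map_eq_zero σ).2 fun a ha => by_contra fun c => ?_
  have := h.liou a c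
  rw [ha, norm_zero, zero_mul] at this
  exact absurd this (by norm_num)

theorem dst16a_hat {R : Type*} [CommRing R] (φ : R →+* ℂ) {G W u v : R[X][X]} {p : R[X]}
    (e : G * u + W * v = C p) {y : ℂ} {η : PowerSeries ℂ} (h0 : hat y η (map2 φ G) = 0) :
    hat y η (map2 φ W) * hat y η (map2 φ v) = (taylor y (p.map φ) : ℂ[X]) := by
  have h1 := congrArg (fun Z => hat y η (map2 φ Z)) e
  simp only [map_add, map_mul, h0, zero_mul, zero_add] at h1
  rw [h1, ← hat_C y η]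
  congr 1
  simp

theorem dvd_of_hat0 {K : Type*} [Field K] (σ : K →+* ℂ) {G W : K[X][X]} (hG : Prime G)
    (hd : 0 < G.natDegree) {y : ℂ} {η : PowerSeries ℂ} (h0 : hat y η (map2 σ G) = 0)
    (h : hat y η (map2 σ W) = 0) : G ∣ W := by
  by_contra c
  obtain ⟨u, v, p, hp, e⟩ := exists_comb hG hd c
  have h1 := dst16a_hat σ e h0
  rw [h, zero_mul, eq_comm, Polynomial.coe_eq_zero_iff, taylor_eq_zero,
    Polynomial.map_eq_zero_iff σ.injective] at h1
  exact hp h1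

theorem res_bound {R K : Type*} [CommRing R] [Field K] {ν : Sn R} {ι : R →+* K} {σ : K →+* ℂ}
    {r : ℕ} (hL : LV ν (σ.comp ι) r) {G W : R[X][X]} (hG : Prime (map2 ι G)) (hd : 0 < G.natDegree)
    {y : ℂ} {η : PowerSeries ℂ} (h0 : hat y η (map2 (σ.comp ι) G) = 0)
    (hW : hat y η (map2 (σ.comp ι) W) ≠ 0) {μ n : ℕ} (hμ : hat y η (map2 (σ.comp ι) W) ∈ sI ^ μ)
    (hn : W.natDegree ≤ n) : ‖y‖ ^ μ ≤ (ν.l2.f G ^ n * ν.l2.f W ^ G.natDegree) ^ (r + 1) := by
  have hφ := hL.inj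
  have hι : Function.Injective ι := Function.Injective.of_comp (f := σ) hφ
  have hd' : (map2 ι G).natDegree = G.natDegree :=
    natDegree_map_eq_of_injective (map_injective ι hι) _
  have hnd : ¬ map2 ι G ∣ map2 ι W := by
    rintro ⟨V, hV⟩
    refine hW ?_
    rw [← map2_map2, hV, map_mul, map2_map2, map_mul, h0, zero_mul]
  have hR := res1' hG hnd (n := n) (natDegree_map_le.trans hn)
  rw [hd'] at hR
  have hR0 : resultant G W G.natDegree n ≠ 0 := fun c => hR <|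
    (resultant_map_map G W G.natDegree n (mapRingHom ι)).trans (by rw [c, map_zero])
  obtain ⟨u, v, -, -, e⟩ := exists_mul_add_mul_eq_C_resultant G W le_rfl hn (Or.inl hd.ne')
  have hB := ν.l1.res_le G W G.natDegree n
  generalize resultant G W G.natDegree n = p at hR0 e hB
  have h1 := lemU (dvd_of_hat (dst16a_hat (σ.comp ι) e h0 ▸ Ideal.mul_mem_right _ _ hμ))
  rw [leadingCoeff_map_of_injective hφ] at h1
  have h2 := (h1.trans (ν.l1_map nC (σ.comp ι) hL.le p)).trans hB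
  have h3 := hL.liou _ (leadingCoeff_ne_zero.2 hR0)
  have h4 : ν.f p.leadingCoeff ^ r ≤ (ν.l2.f G ^ n * ν.l2.f W ^ G.natDegree) ^ r :=
    pow_le_pow_left₀ (ν.nonneg _) ((ν.coeff_le p _).trans hB) r
  have h5 : 0 ≤ ‖y‖ ^ μ := by positivity
  calc ‖y‖ ^ μ ≤ ‖y‖ ^ μ * (‖(σ.comp ι) p.leadingCoeff‖ * ν.f p.leadingCoeff ^ r) :=
        le_mul_of_one_le_right h5 h3
    _ = ν.f p.leadingCoeff ^ r * (‖y‖ ^ μ * ‖(σ.comp ι) p.leadingCoeff‖) := by ring
    _ ≤ _ := by
      rw [pow_succ]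
      exact mul_le_mul h4 h2 (by positivity) ((pow_nonneg (ν.nonneg _) r).trans h4)

theorem smooth_far {K : Type*} [Field K] [CharZero K] (σ : K →+* ℂ) {G : K[X][X]} (hG : Prime G)
    (hd : 0 < G.natDegree) : ∃ c : ℝ, ∀ y1 y2 : K, G.evalEval y1 y2 = 0 → c < ‖σ y1‖ →
      (derivative G).evalEval y1 y2 ≠ 0 := by
  classical
  obtain ⟨u, v, p, hp, e⟩ := exists_comb hG hd (not_dvd_derivative hd)
  obtain ⟨c, hc⟩ := ((p.roots.toFinset.finite_toSet).image fun z => ‖σ z‖).bddAbove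
  refine ⟨c, fun y1 y2 h0 hy h1 => hy.not_ge (hc ⟨y1, ?_, rfl⟩)⟩
  have h2 := congrArg (evalEval y1 y2) e
  rw [evalEval_add, evalEval_mul, evalEval_mul, h0, h1, evalEval_C, zero_mul, zero_mul,
    add_zero] at h2
  simpa [hp] using h2.symm

end Pool.Agent.P.MP_68214b_ag.DS
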