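import Pool.Agent.P.MP_68214b_ag.DST16a
import Pool.Agent.P.MP_68214b_ag.DST7
import Pool.Agent.P.MP_68214b_ag.DST8
import Pool.Agent.P.MP_68214b_ag.DSN3

open Polynomial Filter Asymptotics NumberField Topology

namespace Pool.Agent.P.MP_68214b_ag.DS

theorem dst16b_num {γ c : ℝ} (hγ : 1 ≤ γ) (hc : 1 ≤ c) {n s E D : ℕ} (hn : n ≤ s) (hD : 1 ≤ D) :
    (n * (γ * ((D + D + n * (E + E) + 1 : ℕ) : ℝ)) ^ n * c ^ D) ^ n ≤
      (((s + 1) * (γ * (2 * (2 * s * E + 3))) ^ s * c) ^ s) ^ D := by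
  have hD0 : D ≠ 0 := by omega
  have hs : (0 : ℝ) ≤ s := Nat.cast_nonneg s
  have hE : (0 : ℝ) ≤ E := Nat.cast_nonneg E
  have hsE : (0 : ℝ) ≤ s * E := mul_nonneg hs hE
  have hb : (1 : ℝ) ≤ 2 * s * E + 3 := by nlinarith
  have h1 : ((D + D + n * (E + E) + 1 : ℕ) : ℝ) ≤ (2 * (2 * s * E + 3)) ^ D := by
    have h2 : D + D + n * (E + E) + 1 ≤ 2 ^ D * (2 * s * E + 3) := by
      have h3 : D ≤ 2 ^ D := Nat.lt_two_pow_self.le
      have h4 : n * (E + E) ≤ 2 * s * E := by nlinarith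
      have h5 : 2 * s * E ≤ 2 ^ D * (2 * s * E) := Nat.le_mul_of_pos_left _ (by positivity)
      have h6 : 2 ^ D * (2 * s * E + 3) = 2 ^ D * (2 * s * E) + 3 * 2 ^ D := by ring
      omega
    rw [mul_pow]
    calc ((D + D + n * (E + E) + 1 : ℕ) : ℝ) ≤ ((2 ^ D * (2 * s * E + 3) : ℕ) : ℝ) := by
          exact_mod_cast h2
      _ = 2 ^ D * (2 * s * E + 3) := by push_cast; ring
      _ ≤ _ := mul_le_mul_of_nonneg_left (le_self_pow₀ hb hD0) (by positivity)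
  have hw : (1 : ℝ) ≤ γ * (2 * (2 * s * E + 3)) := by nlinarith
  have h2 : γ * ((D + D + n * (E + E) + 1 : ℕ) : ℝ) ≤ (γ * (2 * (2 * s * E + 3))) ^ D := by
    rw [mul_pow]
    exact mul_le_mul (le_self_pow₀ hγ hD0) h1 (by positivity) (by positivity)
  have h3 : (γ * ((D + D + n * (E + E) + 1 : ℕ) : ℝ)) ^ n ≤
      ((γ * (2 * (2 * s * E + 3))) ^ s) ^ D := by
    rw [← pow_mul, mul_comm s D, pow_mul]
    exact (pow_le_pow_left₀ (by positivity) h2 n).trans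
      (pow_le_pow_right₀ (one_le_pow₀ hw) hn)
  have h4 : (n : ℝ) ≤ (s + 1) ^ D := by
    have : (n : ℝ) ≤ s := by exact_mod_cast hn
    exact (by linarith : (n : ℝ) ≤ s + 1).trans (le_self_pow₀ (by linarith) hD0)
  have h5 : n * (γ * ((D + D + n * (E + E) + 1 : ℕ) : ℝ)) ^ n * c ^ D ≤
      ((s + 1) * (γ * (2 * (2 * s * E + 3))) ^ s * c) ^ D := by
    rw [mul_pow _ c, mul_pow ((s : ℝ) + 1)]
    exact mul_le_mul_of_nonneg_right (mul_le_mul h4 h3 (by positivity) (by positivity))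
      (by positivity)
  have hu : (1 : ℝ) ≤ (s + 1) * (γ * (2 * (2 * s * E + 3))) ^ s * c :=
    one_le_mul_of_one_le_of_one_le
      (one_le_mul_of_one_le_of_one_le (by linarith) (one_le_pow₀ hw)) hc
  rw [← pow_mul, mul_comm s D, pow_mul]
  exact (pow_le_pow_left₀ (by positivity) h5 n).trans (pow_le_pow_right₀ (one_le_pow₀ hu) hn)

theorem nvc_wr {R K : Type*} [CommRing R] [Field K] {ν : Sn R} {ι : R →+* K} {σ : K →+* ℂ} {r : ℕ}
    (hL : LV ν (σ.comp ι) r) {G : R[X][X]} (hG : Prime (map2 ι G)) (hd : 0 < G.natDegree)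
    (κ : Type*) [Fintype κ] (c : ℝ) (hc : 1 ≤ c) : ∃ c4 : ℝ, 1 ≤ c4 ∧ ∀ D ≥ 1,
      ∀ (P : κ → R[X][X]) (v : κ → ℂ) (y : ℂ) (η : PowerSeries ℂ) (μ : ℕ),
        (∀ k, Bd (P k) D D ∧ ν.l2.f (P k) ≤ c ^ D) → hat y η (map2 (σ.comp ι) G) = 0 →
        hat y η (derivative (map2 (σ.comp ι) G)) ≠ 0 → hat y η (cmb (σ.comp ι) P v) ≠ 0 →
        hat y η (cmb (σ.comp ι) P v) ∈ sI ^ μ → ‖y‖ ^ (μ - Fintype.card κ) ≤ c4 ^ D := by
  obtain ⟨E, hE⟩ := exists_bd G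
  obtain ⟨γ, hγ, hγ0, hγ1, hγ2⟩ : ∃ γ : ℝ, 1 ≤ γ ∧ ν.l2.f G ≤ γ ∧ ν.l2.f (derivative G) ≤ γ ∧
      ν.l2.f (-dX G) ≤ γ :=
    ⟨max (max 1 (ν.l2.f G)) (max (ν.l2.f (derivative G)) (ν.l2.f (-dX G))),
      (le_max_left _ _).trans (le_max_left _ _), (le_max_right _ _).trans (le_max_left _ _),
      (le_max_left _ _).trans (le_max_right _ _), (le_max_right _ _).trans (le_max_right _ _)⟩
  set s := Fintype.card κ with hs
  set u : ℝ := ((s + 1) * (γ * (2 * (2 * s * E + 3))) ^ s * c) ^ s with hu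
  have hu1 : 1 ≤ u := by
    have hsE : (0 : ℝ) ≤ s * E := by positivity
    have hs0 : (0 : ℝ) ≤ s := Nat.cast_nonneg s
    have hw : (1 : ℝ) ≤ γ * (2 * (2 * s * E + 3)) := by nlinarith
    exact one_le_pow₀ (one_le_mul_of_one_le_of_one_le
      (one_le_mul_of_one_le_of_one_le (by linarith) (one_le_pow₀ hw)) hc)
  refine ⟨(γ ^ (s * (1 + s * E)) * u ^ G.natDegree) ^ (r + 1),
    one_le_pow₀ (one_le_mul_of_one_le_of_one_le (one_le_pow₀ hγ) (one_le_pow₀ hu1)), ?_⟩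
  intro D hD P v y η μ hP h0 h1 h2 h3
  have hq : hat y η (cmb (σ.comp ι) P v) = ∑ k, v k • hat y η (map2 (σ.comp ι) (P k)) := by
    rw [cmb_eq, map_sum]
    exact Finset.sum_congr rfl fun k _ => hat_smul _ _ _ _
  rw [hq] at h2 h3
  obtain ⟨n, e, l, hn, hl, hli, hsum⟩ :=
    basis_pick (fun k => hat y η (map2 (σ.comp ι) (P k))) v h2
  have hW : hat y η (map2 (σ.comp ι) (wr (der (derivative G) (-dX G)) fun i => P (e i))) =
      wr (fun f => hat y η (derivative (map2 (σ.comp ι) G)) * PowerSeries.derivative ℂ f)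
        fun i => hat y η (map2 (σ.comp ι) (P (e i))) := by
    refine wr_map ((hat y η).comp (map2 (σ.comp ι))) (fun W => ?_) _
    rw [RingHom.comp_apply, RingHom.comp_apply, map2_der, map2_derivative, map_neg, map2_dX,
      hat_der_curve h0]
  have hW0 := wr_ne h1 _ hli
  have hW1 := wrm (isDer_ps (hat y η (derivative (map2 (σ.comp ι) G))))
    (fun c => by
      rw [Derivation.map_algebraMap, mul_zero]) sI
    (fun i => hat y η (map2 (σ.comp ι) (P (e i)))) l hl (μ := μ) (by rw [hsum]; exact h3)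
  rw [← hW] at hW0 hW1
  have hW2 := Ideal.pow_le_pow_right (I := sI) (Nat.sub_le_sub_left hn μ) hW1
  obtain ⟨hb1, hb2⟩ := wr_bound ν hE.derivative hE.dX.neg hγ hγ1 hγ2 (fun i => P (e i))
    (one_le_pow₀ hc) fun i => hP (e i)
  have hN : n * (D + n * E) ≤ s * (1 + s * E) * D := by
    have h4 : n * E ≤ s * E * D :=
      (Nat.mul_le_mul_right E hn).trans (Nat.le_mul_of_pos_right _ hD)
    calc n * (D + n * E) ≤ s * (D + s * E * D) := Nat.mul_le_mul hn (by omega)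
      _ = _ := by ring
  refine (res_bound hL hG hd h0 hW0 hW2 (hb1.2.trans hN)).trans ?_
  rw [← pow_mul _ (r + 1) D, mul_comm (r + 1) D, pow_mul _ D (r + 1)]
  refine pow_le_pow_left₀ (mul_nonneg (pow_nonneg (ν.l2.nonneg _) _)
    (pow_nonneg (ν.l2.nonneg _) _)) ?_ _
  rw [mul_pow, ← pow_mul γ, ← pow_mul u, mul_comm G.natDegree D, pow_mul u]
  exact mul_le_mul (pow_le_pow_left₀ (ν.l2.nonneg _) hγ0 _)
    (pow_le_pow_left₀ (ν.l2.nonneg _) (hb2.trans (dst16b_num hγ hc hn hD)) _)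
    (pow_nonneg (ν.l2.nonneg _) _) (by positivity)

end Pool.Agent.P.MP_68214b_ag.DS
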