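import Pool.Agent.P.MP_68214b_ag.DSTs

open Polynomial Filter Asymptotics NumberField Topology

namespace Pool.Agent.P.MP_68214b_ag.DS

variable {K F : Type} [Field K] [NumberField K] [Field F] [NumberField F] [Algebra K F]

theorem deg_of_root {M : ℕ+} (φ : F →+* ℂ) (β : F) {g : (RN K M)[X]} (hg : g ≠ 0)
    (h : g.eval₂ ((φ.comp (algebraMap K F)).comp (RN K M).subtype) (φ β) = 0) :
    (minpoly K β).natDegree ≤ g.natDegree := by
  rw [RingHom.comp_assoc, ← hom_eval₂, map_eq_zero] at h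
  have h0 : g.map (RN K M).subtype ≠ 0 :=
    (Polynomial.map_ne_zero_iff Subtype.val_injective).2 hg
  have h1 : aeval β (g.map (RN K M).subtype) = 0 := by
    rw [aeval_def, eval₂_map, h]
  exact (natDegree_le_natDegree (minpoly.degree_le_of_ne_zero K β h0 h1)).trans natDegree_map_le

theorem ltop (M : ℕ+) (φ : F →+* ℂ) (β : F) (e : ℕ) : ∃ C : ℝ, 1 ≤ C ∧ ∀ g : (RN K M)[X], g ≠ 0 →
    g.natDegree ≤ e → (minpoly K β).natDegree ≤ e ∨
      1 ≤ ‖g.eval₂ ((φ.comp (algebraMap K F)).comp (RN K M).subtype) (φ β)‖ *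
        (C * (nR K M).l1.f g) ^ (3 * Module.finrank ℚ F) * C := by
  obtain ⟨N, hN, hi⟩ := exists_den ({β} : Finset F)
  have hβ := hi β (Finset.mem_singleton_self β)
  have hN1 : (1 : ℝ) ≤ (N : ℝ) ^ e := one_le_pow₀ (by exact_mod_cast hN)
  have ht1 : (1 : ℝ) ≤ max 1 (house β) ^ e := one_le_pow₀ (le_max_left _ _)
  have c1 := one_le_mul_of_one_le_of_one_le hN1 ht1
  refine ⟨(N : ℝ) ^ e * max 1 (house β) ^ e, c1, fun g hg hd => ?_⟩
  by_cases hy : g.eval₂ ((algebraMap K F).comp (RN K M).subtype) β = 0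
  · refine Or.inl ((deg_of_root φ β hg ?_).trans hd)
    rw [RingHom.comp_assoc, ← hom_eval₂, hy, map_zero]
  right
  rw [RingHom.comp_assoc, ← hom_eval₂]
  have hh : house (g.eval₂ ((algebraMap K F).comp (RN K M).subtype) β) ≤
      (nR K M).l1.f g * max 1 (house β) ^ e :=
    (nR K M).eval₂_le (nH F) ((algebraMap K F).comp (RN K M).subtype)
      (fun a => (house_map (algebraMap K F) (a : K)).trans (house_le_fR a)) (x := β)
      (le_max_left _ _) (le_max_right 1 (house β)) hd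
  obtain ⟨k, k1, k2⟩ := poly_kd hg
  have hint : IsIntegral ℤ (((N ^ e * M ^ k : ℕ) : F) *
      g.eval₂ ((algebraMap K F).comp (RN K M).subtype) β) := by
    rw [eval₂_eq_sum_range' _ (Nat.lt_succ_of_le hd), Finset.mul_sum]
    refine IsIntegral.sum _ fun i hi' => ?_
    obtain ⟨j, rfl⟩ := Nat.exists_eq_add_of_le (Nat.lt_succ_iff.1 (Finset.mem_range.1 hi'))
    have e1 : ((N ^ (i + j) * M ^ k : ℕ) : F) *
        (((algebraMap K F).comp (RN K M).subtype) (g.coeff i) * β ^ i) =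
        algebraMap K F (((M : ℕ) : K) ^ k * (g.coeff i : K)) * ((N : F) * β) ^ i * (N : F) ^ j := by
      simp only [RingHom.comp_apply, Subring.subtype_apply, map_mul, map_pow, map_natCast]
      push_cast
      ring
    rw [e1]
    exact ((k2 i).algebraMap.mul (hβ.pow i)).mul ((isIntegral_natCast N).pow j)
  have l0 := (nR K M).l1.nonneg g
  refine (liouD (by positivity) hint hy φ (B := (N : ℝ) ^ e * max 1 (house β) ^ e * (nR K M).l1.f g)
    ?_ (hh.trans ?_)).trans (le_mul_of_one_le_right (by positivity) c1)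
  · push_cast
    exact mul_le_mul (le_mul_of_one_le_right (by positivity) ht1) k1 (by positivity) (by positivity)
  · rw [mul_comm, mul_assoc]
    exact le_mul_of_one_le_left (by positivity) hN1

theorem dst17_q {T Th D : ℕ} (hT : 2 ≤ T) (hD : T ≤ D) (hTh : 0 < Th) :
    (Th * D / (T - 1) + 1) * T ≤ 3 * (Th * D) := by
  have h1 := Nat.div_mul_le_self (Th * D) (T - 1)
  have h2 : D ≤ Th * D := Nat.le_mul_of_pos_left D hTh
  have h3 : Th * D / (T - 1) * T ≤ Th * D / (T - 1) * (2 * (T - 1)) :=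
    Nat.mul_le_mul_left _ (by omega)
  have h4 : Th * D / (T - 1) * (2 * (T - 1)) = 2 * (Th * D / (T - 1) * (T - 1)) := by ring
  rw [add_mul]
  omega

theorem cnt1 {ϱ r L T Th D0 D : ℕ} (hϱ : ϱ ≤ r * (L * T)) (hT : 2 ≤ T) (hD : T ≤ D) (hTh : 0 < Th)
    (hD0 : 8 * r * L * Th ^ 3 ≤ D0) : Cnt ϱ Th T D0 D D := by
  have h := dst17_q hT hD hTh
  unfold Cnt
  generalize Th * D / (T - 1) + 1 = q at h ⊢
  calc 2 * ϱ * (Th * D0) * (Th * D) * q ≤ 2 * (r * (L * T)) * (Th * D0) * (Th * D) * q := by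
        gcongr
    _ = 2 * r * L * (Th * D0) * (Th * D) * (q * T) := by ring
    _ ≤ 2 * r * L * (Th * D0) * (Th * D) * (4 * (Th * D)) := Nat.mul_le_mul_left _ (by omega)
    _ = D * D * (8 * r * L * Th ^ 3 * D0) := by ring
    _ ≤ D * D * (D0 * D0) := by gcongr
    _ ≤ (D + 1) * (D + 1) * ((D0 + 1) * (D0 + 1)) := by gcongr <;> omega
    _ = _ := by ring

theorem cnt2 {ϱ r e T Th D0 D : ℕ} (hϱ : ϱ ≤ r * e) (hT : 2 ≤ T) (hD : T ≤ D) (hTh : 0 < Th)
    (hD0 : 16 * r * Th ^ 3 ≤ D0) : Cnt ϱ Th T D0 D (e * D / (2 * T)) := by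
  have h := dst17_q hT hD hTh
  have h2 := (Nat.lt_mul_div_succ (e * D) (show 0 < 2 * T by omega)).le
  unfold Cnt
  generalize Th * D / (T - 1) + 1 = q at h ⊢
  generalize e * D / (2 * T) + 1 = p at h2 ⊢
  refine Nat.le_of_mul_le_mul_right ?_ (show 0 < T by omega)
  calc 2 * ϱ * (Th * D0) * (Th * D) * q * T ≤ 2 * (r * e) * (Th * D0) * (Th * D) * q * T := by
        gcongr
    _ = 2 * r * e * (Th * D0) * (Th * D) * (q * T) := by ring
    _ ≤ 2 * r * e * (Th * D0) * (Th * D) * (4 * (Th * D)) := Nat.mul_le_mul_left _ (by omega)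
    _ = 8 * r * Th ^ 3 * D0 * D * (e * D) := by ring
    _ ≤ 8 * r * Th ^ 3 * D0 * D * (2 * T * p) := Nat.mul_le_mul_left _ h2
    _ = D * p * (16 * r * Th ^ 3 * D0) * T := by ring
    _ ≤ D * p * (D0 * D0) * T := by gcongr
    _ ≤ (D + 1) * p * ((D0 + 1) * (D0 + 1)) * T := by gcongr <;> omega
    _ = _ := by ring

end Pool.Agent.P.MP_68214b_ag.DS
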