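import Pool.Agent.P.MP_68214b_ag.DSN1
import Pool.Agent.P.MP_68214b_ag.DSS1

open Polynomial Filter Asymptotics NumberField Topology

namespace Pool.Agent.P.MP_68214b_ag.DS

theorem dsx4_pow {M : ℝ} (hM : 1 ≤ M) {u v : ℂ} (hu : ‖u‖ ≤ M) (hv : ‖v‖ ≤ M) (n : ℕ) :
    ‖u ^ n - v ^ n‖ ≤ n * M ^ n * ‖u - v‖ := by
  have h0 : 0 ≤ M := by linarith
  induction n with
  | zero => simp
  | succ n ih =>
    have e : u ^ (n + 1) - v ^ (n + 1) = u * (u ^ n - v ^ n) + (u - v) * v ^ n := by ring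
    have h1 : ‖u * (u ^ n - v ^ n)‖ ≤ M * (n * M ^ n * ‖u - v‖) := by
      rw [norm_mul]; exact mul_le_mul hu ih (norm_nonneg _) h0
    have h2 : ‖(u - v) * v ^ n‖ ≤ ‖u - v‖ * M ^ (n + 1) := by
      rw [norm_mul, norm_pow]
      exact mul_le_mul_of_nonneg_left ((pow_le_pow_left₀ (norm_nonneg _) hv n).trans
        (pow_le_pow_right₀ hM n.le_succ)) (norm_nonneg _)
    rw [e]
    refine (norm_add_le _ _).trans ((add_le_add h1 h2).trans (le_of_eq ?_))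
    push_cast
    ring

theorem dsx4_term (C0 B : ℝ) (D1 D2 : ℕ) : ∃ C1 : ℝ, 1 ≤ C1 ∧ ∀ i ≤ D1, ∀ j ≤ D2, ∀ (k : ℕ)
    (τ x y γ : ℂ), ‖τ‖ ≤ 1 → ‖γ‖ ≤ B → ‖x - 1‖ ≤ C0 * ‖τ‖ → ‖y - γ‖ ≤ C0 * ‖τ‖ →
      ‖(if k = 0 then γ ^ j else 0) - x ^ i * y ^ j * τ ^ k‖ ≤ C1 * ‖τ‖ := by
  obtain ⟨M, hM, hC⟩ : ∃ M : ℝ, 1 ≤ M ∧ 1 + |C0| + |B| ≤ M :=
    ⟨_, by linarith [abs_nonneg C0, abs_nonneg B], le_rfl⟩
  have b0 := abs_nonneg B
  have b1 := le_abs_self B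
  have b2 := abs_nonneg C0
  have h0 : 0 ≤ M := by linarith
  have p1 : 1 ≤ M ^ D1 := one_le_pow₀ hM
  have p2 : 1 ≤ M ^ D2 := one_le_pow₀ hM
  have p3 : 1 ≤ M ^ D1 * M ^ D2 := one_le_mul_of_one_le_of_one_le p1 p2
  have p4 : (0 : ℝ) ≤ (D1 + D2) * M := by positivity
  refine ⟨M ^ D1 * M ^ D2 * (1 + (D1 + D2) * M), by nlinarith, ?_⟩
  intro i hi j hj k τ x y γ hτ hγ hx hy
  have ht := norm_nonneg τ
  have a1 : C0 * ‖τ‖ ≤ |C0| * ‖τ‖ := mul_le_mul_of_nonneg_right (le_abs_self _) ht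
  have a2 : |C0| * ‖τ‖ ≤ |C0| := mul_le_of_le_one_right (abs_nonneg _) hτ
  have a3 : |C0| * ‖τ‖ ≤ M * ‖τ‖ := mul_le_mul_of_nonneg_right (by linarith) ht
  have bx : ‖x‖ ≤ M := by
    have := norm_add_le (x - 1) 1
    rw [sub_add_cancel, norm_one] at this
    linarith
  have by' : ‖y‖ ≤ M := by
    have := norm_add_le (y - γ) γ
    rw [sub_add_cancel] at this
    linarith
  have qi : M ^ i ≤ M ^ D1 := pow_le_pow_right₀ hM hi
  have qj : M ^ j ≤ M ^ D2 := pow_le_pow_right₀ hM hj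
  have ri : ‖x ^ i‖ ≤ M ^ D1 := by
    rw [norm_pow]; exact (pow_le_pow_left₀ (norm_nonneg _) bx i).trans qi
  have rj : ‖y ^ j‖ ≤ M ^ D2 := by
    rw [norm_pow]; exact (pow_le_pow_left₀ (norm_nonneg _) by' j).trans qj
  split_ifs with hk
  · subst hk
    have e : γ ^ j - x ^ i * y ^ j * τ ^ 0 = -((y ^ j - γ ^ j) + (x ^ i - 1 ^ i) * y ^ j) := by
      ring
    have h1 : ‖y ^ j - γ ^ j‖ ≤ D2 * (M ^ D1 * M ^ D2) * (M * ‖τ‖) :=
      (dsx4_pow hM by' (by linarith) j).trans (mul_le_mul (mul_le_mul (Nat.cast_le.2 hj)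
        (qj.trans (le_mul_of_one_le_left (by positivity) p1)) (by positivity) (by positivity))
        (by linarith) (norm_nonneg _) (by positivity))
    have h2 : ‖x ^ i - 1 ^ i‖ ≤ D1 * M ^ D1 * (M * ‖τ‖) :=
      (dsx4_pow hM bx (norm_one.le.trans hM) i).trans (mul_le_mul (mul_le_mul (Nat.cast_le.2 hi)
        qi (by positivity) (by positivity)) (by linarith) (norm_nonneg _) (by positivity))
    have h3 : ‖(x ^ i - 1 ^ i) * y ^ j‖ ≤ D1 * M ^ D1 * (M * ‖τ‖) * M ^ D2 := by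
      rw [norm_mul]; exact mul_le_mul h2 rj (norm_nonneg _) (by positivity)
    rw [e, norm_neg]
    refine (norm_add_le _ _).trans ((add_le_add h1 h3).trans ?_)
    have : 0 ≤ M ^ D1 * M ^ D2 * ‖τ‖ := by positivity
    linarith
  · obtain ⟨k, rfl⟩ := Nat.exists_eq_succ_of_ne_zero hk
    have h1 : ‖τ ^ (k + 1)‖ ≤ ‖τ‖ := by
      rw [norm_pow, pow_succ]
      exact mul_le_of_le_one_left ht (pow_le_one₀ ht hτ)
    rw [zero_sub, norm_neg, norm_mul, norm_mul]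
    refine (mul_le_mul (mul_le_mul ri rj (norm_nonneg _) (by positivity)) h1 (norm_nonneg _)
      (by positivity)).trans ?_
    have : 0 ≤ M ^ D1 * M ^ D2 * ((D1 + D2) * M) * ‖τ‖ := by positivity
    linarith

theorem top' {R : Type*} [CommRing R] (ν : Sn R) (σ : R →+* ℂ) (hσ : ∀ z, ‖σ z‖ ≤ ν.f z) (a : ℕ)
    {b : ℕ} (hb : 0 < b) (C0 B : ℝ) (D1 D2 : ℕ) : ∃ C1 : ℝ, 1 ≤ C1 ∧ ∀ G : R[X][X], G ≠ 0 →
      Bd G D1 D2 → ∃ g : R[X], g ≠ 0 ∧ g.natDegree ≤ G.natDegree ∧ ν.l1.f g ≤ ν.l2.f G ∧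
        ∀ τ x y γ : ℂ, ‖τ‖ ≤ 1 → ‖γ‖ ≤ B → ‖x * τ ^ b - 1‖ ≤ C0 * ‖τ‖ → ‖y * τ ^ a - γ‖ ≤ C0 * ‖τ‖ →
          ev2 σ x y G = 0 → ‖g.eval₂ σ γ‖ ≤ C1 * ν.l2.f G * ‖τ‖ := by
  obtain ⟨C1, hC1, hT⟩ := dsx4_term C0 B D1 D2
  refine ⟨C1, hC1, fun G hG hB => ?_⟩
  obtain ⟨⟨j0, i0⟩, h0, hmax⟩ := (G.support.sigma fun j => (G.coeff j).support).exists_max_image
    (fun q => b * q.2 + a * q.1) (by
      obtain ⟨j, hj⟩ := support_nonempty.2 hG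
      obtain ⟨i, hi⟩ := support_nonempty.2 (mem_support_iff.1 hj)
      exact ⟨⟨j, i⟩, Finset.mem_sigma.2 ⟨hj, hi⟩⟩)
  obtain ⟨hj0, hi0⟩ := Finset.mem_sigma.1 h0
  set w := b * i0 + a * j0 with hw
  have hl : ν.l2.f G = ∑ j ∈ G.support, ∑ i ∈ (G.coeff j).support, ν.f ((G.coeff j).coeff i) := rfl
  refine ⟨∑ j ∈ G.support, monomial j (∑ i ∈ (G.coeff j).support,
    if b * i + a * j = w then (G.coeff j).coeff i else 0), fun h => ?_, ?_, ?_, ?_⟩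
  · have h1 := congrArg (coeff · j0) h
    simp only [finsetSum_coeff, coeff_monomial, Finset.sum_ite_eq', coeff_zero] at h1
    rw [if_pos hj0, Finset.sum_eq_single i0, if_pos rfl] at h1
    · exact mem_support_iff.1 hi0 h1
    · intro i _ hi
      exact if_neg fun e => hi (Nat.eq_of_mul_eq_mul_left hb (Nat.add_right_cancel e))
    · exact fun h => absurd hi0 h
  · exact natDegree_sum_le_of_forall_le _ _ fun j hj =>
      (natDegree_monomial_le _).trans (le_natDegree_of_mem_supp j hj)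
  · rw [hl]
    refine (ν.l1.sum_le _ _).trans (Finset.sum_le_sum fun j _ => ?_)
    rw [ν.l1_monomial]
    refine (ν.sum_le _ _).trans (Finset.sum_le_sum fun i _ => ?_)
    split_ifs
    · exact le_rfl
    · rw [ν.zero]; exact ν.nonneg _
  · intro τ x y γ hτ hγ hx hy hz
    have e1 : ev2 σ x y G = ∑ j ∈ G.support, ∑ i ∈ (G.coeff j).support,
        σ ((G.coeff j).coeff i) * x ^ i * y ^ j := by
      simp only [coe_eval₂RingHom, eval₂_eq_sum, sum_def, Finset.sum_mul]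
    have e2 : ∑ j ∈ G.support, ∑ i ∈ (G.coeff j).support, σ ((G.coeff j).coeff i) *
        ((x * τ ^ b) ^ i * (y * τ ^ a) ^ j * τ ^ (w - (b * i + a * j))) = 0 := by
      rw [← mul_zero (τ ^ w), ← hz, e1, Finset.mul_sum]
      refine Finset.sum_congr rfl fun j hj => ?_
      rw [Finset.mul_sum]
      refine Finset.sum_congr rfl fun i hi => ?_
      obtain ⟨k, hk⟩ := Nat.exists_eq_add_of_le (hmax ⟨j, i⟩ (Finset.mem_sigma.2 ⟨hj, hi⟩))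
      have hk' : w = b * i + a * j + k := hk
      rw [hk', Nat.add_sub_cancel_left]
      ring
    rw [← sub_zero (eval₂ _ _ _), ← e2, eval₂_finsetSum, ← Finset.sum_sub_distrib, hl,
      Finset.mul_sum, Finset.sum_mul]
    refine norm_sum_le_of_le _ fun j hj => ?_
    rw [eval₂_monomial, map_sum, Finset.sum_mul, ← Finset.sum_sub_distrib, Finset.mul_sum,
      Finset.sum_mul]
    refine norm_sum_le_of_le _ fun i hi => ?_
    have h1 := hT i ((le_natDegree_of_mem_supp i hi).trans (hB.1 j)) j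
      ((le_natDegree_of_mem_supp j hj).trans hB.2) (w - (b * i + a * j)) τ _ _ γ hτ hγ hx hy
    have h2 : b * i + a * j ≤ w := hmax ⟨j, i⟩ (Finset.mem_sigma.2 ⟨hj, hi⟩)
    have e3 : σ (if b * i + a * j = w then (G.coeff j).coeff i else 0) * γ ^ j =
        σ ((G.coeff j).coeff i) * if w - (b * i + a * j) = 0 then γ ^ j else 0 := by
      by_cases h : b * i + a * j = w
      · rw [if_pos h, if_pos (by omega)]
      · rw [if_neg h, if_neg (by omega), map_zero, zero_mul, mul_zero]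
    rw [e3, ← mul_sub, norm_mul]
    exact (mul_le_mul (hσ _) h1 (norm_nonneg _) (ν.nonneg _)).trans (le_of_eq (by ring))

theorem top {R : Type*} [CommRing R] (ν : Sn R) (σ : R →+* ℂ) (hσ : ∀ z, ‖σ z‖ ≤ ν.f z) {a b : ℕ}
    (_ha : 0 < a) (hb : 0 < b) (C0 : ℝ) (D1 D2 : ℕ) : ∃ C1 : ℝ, 1 ≤ C1 ∧ ∀ G : R[X][X], G ≠ 0 →
      Bd G D1 D2 → ∃ g : R[X], g ≠ 0 ∧ g.natDegree ≤ G.natDegree ∧ ν.l1.f g ≤ ν.l2.f G ∧
        ∀ τ x y γ : ℂ, ‖τ‖ ≤ 1 → ‖γ‖ = 1 → ‖x * τ ^ b - 1‖ ≤ C0 * ‖τ‖ → ‖y * τ ^ a - γ‖ ≤ C0 * ‖τ‖ →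
          ev2 σ x y G = 0 → ‖g.eval₂ σ γ‖ ≤ C1 * ν.l2.f G * ‖τ‖ := by
  obtain ⟨C1, h1, h⟩ := top' ν σ hσ a hb C0 1 D1 D2
  refine ⟨C1, h1, fun G hG hB => ?_⟩
  obtain ⟨g, g1, g2, g3, g4⟩ := h G hG hB
  exact ⟨g, g1, g2, g3, fun τ x y γ a1 a2 => g4 τ x y γ a1 a2.le⟩

end Pool.Agent.P.MP_68214b_ag.DS
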