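import Pool.Agent.P.MP_68214b_ag.DST17
import Pool.Agent.P.MP_68214b_ag.DSX4
import Pool.Agent.P.MP_68214b_ag.DSN5
import Pool.Agent.P.MP_68214b_ag.DSN3

open Polynomial Filter Asymptotics NumberField Topology

namespace Pool.Agent.P.MP_68214b_ag.DS

variable {K F : Type} [Field K] [NumberField K] [Field F] [NumberField F] [Algebra K F]

theorem dst18a_near (π : ℂ[X]) : ∃ C : ℝ, 0 ≤ C ∧ ∀ t : ℂ, ‖t‖ ≤ 1 →
    ‖π.eval t - π.coeff 0‖ ≤ C * ‖t‖ := by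
  obtain ⟨B, hB⟩ := (isCompact_closedBall (0 : ℂ) 1).exists_bound_of_continuousOn
    (divX π).continuous.continuousOn
  refine ⟨|B|, abs_nonneg _, fun t ht => ?_⟩
  have e : π.eval t - π.coeff 0 = (divX π).eval t * t := by
    conv_lhs => rw [← divX_mul_X_add π]
    simp
  rw [e, norm_mul]
  exact mul_le_mul_of_nonneg_right
    ((hB t (mem_closedBall_zero_iff.2 ht)).trans (le_abs_self _)) (norm_nonneg _)

theorem dst18a_coeff {R : Type*} [CommRing R] {D : ℕ} (w : Fin (D + 1) × Fin (D + 1) → R)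
    (k : Fin (D + 1) × Fin (D + 1)) :
    ((∑ k : Fin (D + 1) × Fin (D + 1), monomial (k.2 : ℕ) (monomial (k.1 : ℕ) (w k))).coeff
      k.2).coeff k.1 = w k := by
  rw [finset_sum_coeff, finset_sum_coeff, Finset.sum_eq_single k]
  · rw [coeff_monomial_same, coeff_monomial_same]
  · intro k' _ h
    rw [coeff_monomial]
    split_ifs with h2
    · rw [coeff_monomial, if_neg fun h1 => h (Prod.ext (Fin.ext h1) (Fin.ext h2))]
    · exact coeff_zero _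
  · exact fun h => (h (Finset.mem_univ _)).elim

theorem dst18a_bd {R : Type*} [CommRing R] {D i j : ℕ} (hi : i ≤ D) (hj : j ≤ D) (a : R) :
    Bd (monomial j (monomial i a) : R[X][X]) D D := by
  refine ⟨fun l => ?_, (natDegree_monomial_le _).trans hj⟩
  rw [coeff_monomial]
  split_ifs
  · exact (natDegree_monomial_le _).trans hi
  · rw [natDegree_zero]
    exact Nat.zero_le _

namespace TS
variable (S : TS K F)

theorem lv : LV (nR K S.M) S.σO (3 * Module.finrank ℚ K) := lv_nR S.σ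

theorem σO_apply (z : RN K S.M) : S.σO z = S.φ (algebraMap K F z) := rfl

theorem tau_lim : Tendsto (fun m => S.τ ^ S.d ^ m) S.𝓕 (𝓝 0) :=
  (tend_ppC S.τ1 S.hd).mono_left S.le

theorem near1 : ∃ C : ℝ, ∀ᶠ m in S.𝓕, ∃ s : ℂ, ‖s‖ ≤ ‖S.τ ^ S.d ^ m‖ ∧ ‖s‖ ≤ 1 ∧
    ‖S.σO (S.y1 m) * s ^ S.b - 1‖ ≤ C * ‖s‖ ∧ ‖S.σO (S.y2 m) * s ^ S.a - S.φ S.β‖ ≤ C * ‖s‖ := by
  obtain ⟨C1, h1, g1⟩ := dst18a_near (S.π1.map S.φ)
  obtain ⟨C2, h2, g2⟩ := dst18a_near (S.π2.map S.φ)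
  rw [coeff_map, S.p1, map_pow, map_natCast] at g1
  rw [coeff_map, S.p2, map_mul, map_pow, map_natCast] at g2
  have n1 : (1 : ℝ) ≤ S.N := Nat.one_le_cast.2 S.hN
  have n0 : (S.N : ℂ) ≠ 0 := Nat.cast_ne_zero.2 S.hN.ne'
  refine ⟨(S.C0 + C1 + C2) * S.N, S.apx.mono fun m hm => ⟨S.τ ^ S.d ^ m / S.N, ?_⟩⟩
  have ht : ‖S.τ ^ S.d ^ m‖ ≤ 1 := by
    rw [norm_pow]
    exact pow_le_one₀ (norm_nonneg _) S.τ1.le
  obtain ⟨a1, a2⟩ := hm
  have b1 := g1 _ ht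
  have b2 := g2 _ ht
  rw [σO_apply, σO_apply]
  generalize S.τ ^ S.d ^ m = t at *
  have h3 : S.C0 * ‖t‖ ^ S.T ≤ S.C0 * ‖t‖ := mul_le_mul_of_nonneg_left
    (pow_le_of_le_one (norm_nonneg _) ht (Nat.one_le_iff_ne_zero.1 S.T1))
    (zero_le_one.trans S.C1)
  have h4 := mul_nonneg h1 (norm_nonneg t)
  have h5 := mul_nonneg h2 (norm_nonneg t)
  have h6 : ‖t / S.N‖ ≤ ‖t‖ := by
    rw [norm_div, Complex.norm_natCast]
    exact div_le_self (norm_nonneg _) n1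
  have h7 : (S.C0 + C1 + C2) * S.N * ‖t / S.N‖ = (S.C0 + C1 + C2) * ‖t‖ := by
    rw [norm_div, Complex.norm_natCast]
    field_simp
  have h8 : ∀ (y g : ℂ) (k : ℕ), ‖y * (t / S.N) ^ k - g‖ ≤ ‖y * t ^ k - S.N ^ k * g‖ :=
    fun y g k => by
      have : y * (t / S.N) ^ k - g = (y * t ^ k - S.N ^ k * g) / S.N ^ k := by
        rw [div_pow]
        field_simp
      rw [this, norm_div, norm_pow, Complex.norm_natCast]
      exact div_le_self (norm_nonneg _) (one_le_pow₀ n1)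
  rw [h7]
  refine ⟨h6, h6.trans ht, (h8 _ _ _).trans ?_, (h8 _ _ _).trans ?_⟩
  · rw [mul_one]
    refine (norm_sub_le_norm_sub_add_norm_sub _ ((S.π1.map S.φ).eval t) _).trans ?_
    linarith
  · refine (norm_sub_le_norm_sub_add_norm_sub _ ((S.π2.map S.φ).eval t) _).trans ?_
    linarith

theorem big : Tendsto (fun m => ‖S.σO (S.y1 m)‖) S.𝓕 atTop := by
  obtain ⟨C, hC⟩ := S.near1
  refine tendsto_atTop.2 fun M => ?_
  have h1 : Tendsto (fun m => (|C| + |M|) * ‖S.τ ^ S.d ^ m‖) S.𝓕 (𝓝 0) := by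
    simpa only [norm_zero, mul_zero] using S.tau_lim.norm.const_mul (|C| + |M|)
  filter_upwards [hC, h1.eventually (gt_mem_nhds zero_lt_one)] with m ⟨t, h0, ht, h2, _⟩ h3
  replace h3 := (mul_le_mul_of_nonneg_left h0 (by positivity)).trans_lt h3
  generalize S.σO (S.y1 m) = y at *
  by_contra h4
  have h5 : ‖y * t ^ S.b‖ ≤ |M| * ‖t‖ := by
    rw [norm_mul, norm_pow]
    exact mul_le_mul ((not_le.1 h4).le.trans (le_abs_self _))
      (pow_le_of_le_one (norm_nonneg _) ht S.hb.ne') (by positivity) (abs_nonneg _)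
  have h6 := norm_sub_norm_le (1 : ℂ) (y * t ^ S.b)
  rw [norm_one, norm_sub_rev] at h6
  have h7 := mul_le_mul_of_nonneg_right (le_abs_self C) (norm_nonneg t)
  linarith

theorem tau_pow (D0 : ℕ) {m m' : ℕ} (h : m ≤ m') :
    ‖S.τ ^ S.d ^ m'‖ ^ D0 = ‖S.τ ^ S.d ^ m‖ ^ (D0 * S.d ^ (m' - m)) := by
  rw [norm_pow, norm_pow, ← pow_mul, ← pow_mul, mul_left_comm, ← pow_add, Nat.add_sub_cancel' h,
    mul_comm]

theorem ev_D {D0 : ℕ} (h : 0 < D0) (D1 m : ℕ) :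
    ∀ᶠ m' in S.𝓕, m ≤ m' ∧ D1 ≤ D0 * S.d ^ (m' - m) := by
  refine (eventually_ge_atTop (m + D1)).filter_mono S.le |>.mono fun m' hm => ⟨by omega, ?_⟩
  have h1 : m' - m < S.d ^ (m' - m) := Nat.lt_pow_self S.hd
  exact (show D1 ≤ S.d ^ (m' - m) by omega).trans (Nat.le_mul_of_pos_left _ h)

theorem deg_curve {G : (RN K S.M)[X][X]} (hG : G ≠ 0)
    (h : ∀ᶠ m in S.𝓕, G.evalEval (S.y1 m) (S.y2 m) = 0) : S.deg ≤ G.natDegree := by
  have := S.ne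
  obtain ⟨D, hD⟩ := exists_bd G
  obtain ⟨C, hC⟩ := S.near1
  obtain ⟨C1, c1, h1⟩ := top' (nR K S.M) S.σO S.lv.le S.a S.hb C ‖S.φ S.β‖ D D
  obtain ⟨g, g0, g1, -, g2⟩ := h1 G hG hD
  refine (deg_of_root S.φ S.β g0 (norm_le_zero_iff.1 ?_)).trans g1
  have h2 : Tendsto (fun m => C1 * (nR K S.M).l2.f G * ‖S.τ ^ S.d ^ m‖) S.𝓕 (𝓝 0) := by
    simpa only [norm_zero, mul_zero] using S.tau_lim.norm.const_mul (C1 * (nR K S.M).l2.f G)
  refine ge_of_tendsto h2 ?_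
  filter_upwards [hC, h] with m ⟨s, s1, s2, a1⟩ a2
  exact (g2 _ _ _ _ s2 le_rfl a1.1 a1.2 (by rw [← map_evalEval, a2, map_zero])).trans
    (mul_le_mul_of_nonneg_left s1 (mul_nonneg (zero_le_one.trans c1) (Sn.nonneg _ _)))

theorem deg_pos : 0 < S.deg :=
  minpoly.natDegree_pos (Algebra.IsIntegral.isIntegral (R := K) S.β)

theorem endB {D0 : ℕ} (h0 : 0 < D0) (hdeg : D0 < S.deg) {c : ℝ} (hc : 1 ≤ c) :
    ∀ᶠ m in atTop, ∀ᶠ m' in S.𝓕, ∀ w : Fin (D0 + 1) × Fin (D0 + 1) → RN K S.M, w ≠ 0 →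
      (∀ k, (nR K S.M).f (w k) ≤ c ^ (D0 * S.d ^ (m' - m))) →
      ∑ k, w k * mon D0 (S.y1 m') (S.y2 m') k ≠ 0 := by
  obtain ⟨C, hC⟩ := S.near1
  obtain ⟨C1, c1, h1⟩ := top' (nR K S.M) S.σO S.lv.le S.a S.hb C ‖S.φ S.β‖ D0 D0
  obtain ⟨C2, c2, h2⟩ := ltop (K := K) S.M S.φ S.β D0
  obtain ⟨r, hr⟩ : ∃ r, r = 3 * Module.finrank ℚ F := ⟨_, rfl⟩
  rw [← hr] at h2
  obtain ⟨N, hN⟩ : ∃ N : ℝ, N = (Fintype.card (Fin (D0 + 1) × Fin (D0 + 1)) : ℝ) := ⟨_, rfl⟩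
  have n1 : 1 ≤ N := by
    rw [hN]
    exact Nat.one_le_cast.2 Fintype.card_pos
  obtain ⟨A, hA⟩ : ∃ A : ℝ, A = C1 * (C2 * N) ^ (r + 1) := ⟨_, rfl⟩
  have a1 : 1 ≤ A := hA ▸ one_le_mul_of_one_le_of_one_le c1
    (one_le_pow₀ (one_le_mul_of_one_le_of_one_le c2 n1))
  have h3 : Tendsto (fun m => (A * c ^ (r + 1)) ^ D0 * ‖S.τ ^ S.d ^ m‖) atTop (𝓝 0) := by
    simpa only [norm_zero, mul_zero] using
      (tend_ppC S.τ1 S.hd).norm.const_mul ((A * c ^ (r + 1)) ^ D0)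
  filter_upwards [h3.eventually (gt_mem_nhds zero_lt_one)] with m hm
  filter_upwards [hC, S.ev_D h0 1 m] with m' ⟨s, s1, ht, a2⟩ a3 w hw hb hs
  have e := S.tau_pow D0 a3.1
  replace a3 := a3.2
  generalize D0 * S.d ^ (m' - m) = D at *
  obtain ⟨G, hG⟩ : ∃ G : (RN K S.M)[X][X], G = ∑ k : Fin (D0 + 1) × Fin (D0 + 1),
      monomial (k.2 : ℕ) (monomial (k.1 : ℕ) (w k)) := ⟨_, rfl⟩
  have b0 : G ≠ 0 := fun h => hw (funext fun k => by
    rw [← dst18a_coeff w k, ← hG, h, coeff_zero, coeff_zero]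
    rfl)
  have b1 : Bd G D0 D0 :=
    hG ▸ bd_sum _ fun k _ => dst18a_bd (Nat.lt_succ_iff.1 k.1.2) (Nat.lt_succ_iff.1 k.2.2) _
  have b2 : (nR K S.M).l2.f G ≤ N * c ^ D := by
    rw [hG, hN, ← nsmul_eq_mul, ← Finset.card_univ]
    refine (Sn.sum_le _ _ _).trans (Finset.sum_le_card_nsmul _ _ _ fun k _ => ?_)
    rw [Sn.l1_monomial, Sn.l1_monomial]
    exact hb k
  have b3 : G.evalEval (S.y1 m') (S.y2 m') = 0 := by
    rw [← hs, hG, evalEval_finsetSum]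
    refine Finset.sum_congr rfl fun k _ => ?_
    simp only [evalEval, eval_monomial, eval_mul, eval_pow, eval_C, mon, mul_assoc]
  obtain ⟨g, g0, g1, g2, g3⟩ := h1 G b0 b1
  have g4 := (g3 _ _ _ _ ht le_rfl a2.1 a2.2 (by rw [← map_evalEval, b3, map_zero])).trans
    (mul_le_mul_of_nonneg_left s1 (mul_nonneg (zero_le_one.trans c1) (Sn.nonneg _ _)))
  rcases h2 g g0 (g1.trans b1.2) with g5 | g5
  · exact absurd g5 (not_le.2 hdeg)
  have c0 : 0 ≤ c := zero_le_one.trans hc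
  have g6 : 1 ≤ (A * c ^ (r + 1)) ^ D * ‖S.τ ^ S.d ^ m'‖ := by
    have k1 : ‖g.eval₂ S.σO (S.φ S.β)‖ ≤ C1 * (N * c ^ D) * ‖S.τ ^ S.d ^ m'‖ :=
      g4.trans (mul_le_mul_of_nonneg_right
        (mul_le_mul_of_nonneg_left b2 (zero_le_one.trans c1)) (norm_nonneg _))
    have k2 : (C2 * (nR K S.M).l1.f g) ^ r ≤ (C2 * (N * c ^ D)) ^ r :=
      pow_le_pow_left₀ (mul_nonneg (zero_le_one.trans c2) (Sn.nonneg _ _))
        (mul_le_mul_of_nonneg_left (g2.trans b2) (zero_le_one.trans c2)) r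
    have k3 := g5.trans (mul_le_mul_of_nonneg_right (mul_le_mul k1 k2
      (pow_nonneg (mul_nonneg (zero_le_one.trans c2) (Sn.nonneg _ _)) r) (by positivity))
      (zero_le_one.trans c2))
    have k4 : C1 * (N * c ^ D) * ‖S.τ ^ S.d ^ m'‖ * (C2 * (N * c ^ D)) ^ r * C2 =
        A * (c ^ (r + 1)) ^ D * ‖S.τ ^ S.d ^ m'‖ := by
      rw [hA]
      ring
    rw [k4] at k3
    refine k3.trans (mul_le_mul_of_nonneg_right ?_ (norm_nonneg _))
    rw [mul_pow]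
    exact mul_le_mul_of_nonneg_right (le_self_pow₀ a1 (by omega)) (by positivity)
  have g7 := one_le_pow₀ g6 (n := D0)
  rw [mul_pow, e, ← pow_mul, mul_comm D, pow_mul, ← mul_pow] at g7
  exact absurd g7 (not_le.2 (pow_lt_one₀ (by positivity) hm (by omega)))

end TS

end Pool.Agent.P.MP_68214b_ag.DS
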