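import Pool.Agent.P.MP_68214b_ag.DST1

open Polynomial Filter Asymptotics NumberField Topology

namespace Pool.Agent.P.MP_68214b_ag.DS

theorem dst4_bd (p : ℂ[X]) : ∃ B : ℝ, 0 ≤ B ∧ ∀ x : ℂ, ‖x‖ ≤ 2 → ‖p.eval x‖ ≤ B := by
  obtain ⟨B, hB⟩ := (isCompact_closedBall (0 : ℂ) 2).exists_bound_of_continuousOn
    (f := fun x => p.eval x) p.continuous.continuousOn
  exact ⟨B, (norm_nonneg _).trans (hB 0 (by simp)), fun x hx => hB x (by simpa using hx)⟩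

theorem dst4_lip (p : ℂ[X]) : ∃ L : ℝ, 0 ≤ L ∧ ∀ x y : ℂ, ‖x‖ ≤ 2 → ‖y‖ ≤ 2 →
    ‖p.eval y - p.eval x‖ ≤ L * ‖y - x‖ := by
  obtain ⟨B, hB0, hB⟩ := dst4_bd (derivative p)
  refine ⟨B, hB0, fun x y hx hy => ?_⟩
  exact (convex_closedBall (0 : ℂ) 2).norm_image_sub_le_of_norm_hasDerivWithin_le
    (f := fun x => p.eval x) (f' := fun x => (derivative p).eval x)
    (fun z _ => (p.hasDerivAt z).hasDerivWithinAt) (fun z hz => hB z (by simpa using hz))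
    (by simpa using hx) (by simpa using hy)

theorem reparam (π1 π2 : ℂ[X]) (h1 : 1 ≤ ‖π1.coeff 0‖) (a : ℕ) {b T : ℕ} (hb : 0 < b) (hT : 1 ≤ T)
    (C0 : ℝ) : ∃ τ0 : ℝ, 0 < τ0 ∧ τ0 ≤ 1 / 2 ∧ ∀ τ z1 z2 : ℂ, τ ≠ 0 → ‖τ‖ ≤ τ0 →
      Apx a b T π1 π2 C0 τ z1 z2 → ∃ s : ℂ, z1 * s ^ b = π1.eval s ∧
        ‖z2 * s ^ a - π2.eval s‖ ≤ ‖τ‖ ^ (T - 1) ∧ ‖τ‖ ≤ 2 * ‖s‖ ∧ ‖s‖ ≤ 2 * ‖τ‖ := by
  obtain ⟨L1, hL1, lip1⟩ := dst4_lip π1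
  obtain ⟨B1, hB1, bd1⟩ := dst4_bd (derivative π1)
  obtain ⟨La, hLa, lipa⟩ := dst4_lip (X ^ a)
  obtain ⟨B2, hB2, bd2⟩ := dst4_bd π2
  obtain ⟨L2, hL2, lip2⟩ := dst4_lip π2
  obtain ⟨c, hc, hc0⟩ : ∃ c : ℝ, 0 ≤ c ∧ C0 ≤ c := ⟨|C0|, abs_nonneg _, le_abs_self _⟩
  obtain ⟨N, hN, hN0⟩ : ∃ N : ℝ, N = 2 * ((b + π1.natDegree : ℕ) : ℝ) * c ∧ 0 ≤ N :=
    ⟨_, rfl, by positivity⟩
  obtain ⟨k, hk, hk0⟩ : ∃ k : ℝ, k = (B2 + c) * (La * N) + c + L2 * N ∧ 0 ≤ k :=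
    ⟨_, rfl, by positivity⟩
  obtain ⟨M, hM, hM1⟩ : ∃ M : ℝ, M = (L1 + c + B1) + N + k + 1 ∧ 1 ≤ M :=
    ⟨_, rfl, by linarith⟩
  refine ⟨1 / (2 * M), by positivity, ?_, fun τ z1 z2 hτ hle hA => ?_⟩
  · exact one_div_le_one_div_of_le (by norm_num) (by linarith)
  obtain ⟨A1, A2⟩ := hA
  have r0 : 0 < ‖τ‖ := norm_pos_iff.2 hτ
  have hMr : M * ‖τ‖ ≤ 1 / 2 := by
    rw [le_div_iff₀ (by positivity)] at hle
    linarith
  have r1 : ‖τ‖ ≤ 1 / 2 := (le_mul_of_one_le_left r0.le hM1).trans hMr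
  have p0 : 0 < ‖τ‖ ^ T := pow_pos r0 T
  have pT : ‖τ‖ ^ T = ‖τ‖ ^ (T - 1) * ‖τ‖ := by rw [← pow_succ, Nat.sub_add_cancel hT]
  have q0 : 0 < ‖τ‖ ^ (T - 1) := pow_pos r0 _
  have q1 : ‖τ‖ ^ (T - 1) ≤ 1 := pow_le_one₀ r0.le (by linarith)
  have pr : ‖τ‖ ^ T ≤ ‖τ‖ := by rw [pT]; exact mul_le_of_le_one_left r0.le q1
  have A1' : ‖z1 * τ ^ b - π1.eval τ‖ ≤ c * ‖τ‖ ^ T :=
    A1.trans (mul_le_mul_of_nonneg_right hc0 p0.le)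
  have A2' : ‖z2 * τ ^ a - π2.eval τ‖ ≤ c * ‖τ‖ ^ T :=
    A2.trans (mul_le_mul_of_nonneg_right hc0 p0.le)
  have cr : c * ‖τ‖ ^ T ≤ c * ‖τ‖ := mul_le_mul_of_nonneg_left pr hc
  set h : ℂ[X] := C z1 * X ^ b - π1 with hh
  have hev : ∀ x, h.eval x = z1 * x ^ b - π1.eval x := fun x => by simp [hh]
  have hder : τ * (derivative h).eval τ = b * (z1 * τ ^ b) - τ * (derivative π1).eval τ := by
    obtain ⟨b', rfl⟩ : ∃ b', b = b' + 1 := ⟨b - 1, by omega⟩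
    simp only [hh, derivative_sub, derivative_C_mul, derivative_X_pow, eval_sub, eval_mul, eval_C,
      eval_pow, eval_X, Nat.add_sub_cancel]
    ring
  have e1 : ‖π1.eval τ - π1.coeff 0‖ ≤ L1 * ‖τ‖ := by
    have := lip1 0 τ (by simp) (by linarith)
    rwa [← coeff_zero_eq_eval_zero, sub_zero] at this
  have e2 : 1 - L1 * ‖τ‖ - c * ‖τ‖ ≤ ‖z1 * τ ^ b‖ := by
    have h3 : π1.coeff 0 =
        z1 * τ ^ b - (z1 * τ ^ b - π1.eval τ) - (π1.eval τ - π1.coeff 0) := by ring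
    have h4 := norm_sub_le (z1 * τ ^ b - (z1 * τ ^ b - π1.eval τ)) (π1.eval τ - π1.coeff 0)
    have h5 := norm_sub_le (z1 * τ ^ b) (z1 * τ ^ b - π1.eval τ)
    rw [← h3] at h4
    linarith
  have e3 : 1 / 2 ≤ ‖τ‖ * ‖(derivative h).eval τ‖ := by
    rw [← norm_mul, hder]
    have h3 := norm_sub_norm_le ((b : ℂ) * (z1 * τ ^ b)) (τ * (derivative π1).eval τ)
    rw [norm_mul (b : ℂ), norm_mul τ, Complex.norm_natCast] at h3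
    have h4 : (1 : ℝ) ≤ b := by exact_mod_cast hb
    have h5 : ‖τ‖ * ‖(derivative π1).eval τ‖ ≤ ‖τ‖ * B1 :=
      mul_le_mul_of_nonneg_left (bd1 τ (by linarith)) r0.le
    have h6 : ‖z1 * τ ^ b‖ ≤ b * ‖z1 * τ ^ b‖ := le_mul_of_one_le_left (norm_nonneg _) h4
    have h7 : (L1 + c + B1) * ‖τ‖ ≤ M * ‖τ‖ := mul_le_mul_of_nonneg_right (by linarith) r0.le
    linarith
  have hne : (derivative h).eval τ ≠ 0 := by
    intro h0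
    rw [h0, norm_zero, mul_zero] at e3
    linarith
  obtain ⟨s, hs0, hs⟩ := rn h τ hne
  have hdeg : h.natDegree ≤ b + π1.natDegree := by
    refine (natDegree_sub_le _ _).trans (max_le ?_ (Nat.le_add_left _ _))
    exact (natDegree_C_mul_X_pow_le _ _).trans (Nat.le_add_right _ _)
  have hdeg' : (h.natDegree : ℝ) ≤ ((b + π1.natDegree : ℕ) : ℝ) := by exact_mod_cast hdeg
  have e4 : ‖s - τ‖ ≤ N * ‖τ‖ ^ T * ‖τ‖ := by
    have h3 : (h.natDegree : ℝ) * ‖h.eval τ‖ ≤ ((b + π1.natDegree : ℕ) : ℝ) * (c * ‖τ‖ ^ T) := by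
      rw [hev]; gcongr
    have h4 : ‖s - τ‖ * (1 / 2) ≤ ‖s - τ‖ * (‖τ‖ * ‖(derivative h).eval τ‖) :=
      mul_le_mul_of_nonneg_left e3 (norm_nonneg _)
    have h5 := mul_le_mul_of_nonneg_right (hs.trans h3) r0.le
    rw [hN]
    linarith
  have e5 : N * ‖τ‖ ^ T ≤ 1 / 2 := by
    have h3 : N * ‖τ‖ ^ T ≤ N * ‖τ‖ := mul_le_mul_of_nonneg_left pr hN0
    have h7 : N * ‖τ‖ ≤ M * ‖τ‖ := mul_le_mul_of_nonneg_right (by linarith) r0.le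
    linarith
  have e6 : ‖s - τ‖ ≤ ‖τ‖ / 2 := by
    have := mul_le_mul_of_nonneg_right e5 r0.le
    linarith only [this, e4]
  have e7 : ‖s‖ ≤ 2 * ‖τ‖ := by
    have := norm_sub_norm_le s τ
    linarith
  have e8 : ‖τ‖ ≤ 2 * ‖s‖ := by
    have := norm_sub_norm_le τ s
    rw [norm_sub_rev] at this
    linarith
  refine ⟨s, sub_eq_zero.1 (by rw [← hev, hs0]), ?_, e8, e7⟩
  have f1 : ‖s / τ - 1‖ ≤ N * ‖τ‖ ^ T := by
    rw [div_sub_one hτ, norm_div, div_le_iff₀ r0]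
    exact e4
  have f2 : ‖(s / τ) ^ a - 1‖ ≤ La * (N * ‖τ‖ ^ T) := by
    have h3 := lipa 1 (s / τ) (by simp) (by rw [norm_div, div_le_iff₀ r0]; exact e7)
    simp only [eval_pow, eval_X, one_pow] at h3
    exact h3.trans (mul_le_mul_of_nonneg_left f1 hLa)
  have f3 : ‖z2 * τ ^ a‖ ≤ B2 + c := by
    have h3 := norm_sub_norm_le (z2 * τ ^ a) (π2.eval τ)
    have h4 := bd2 τ (by linarith only [r1])
    have h5 : c * ‖τ‖ ≤ c := mul_le_of_le_one_right hc (by linarith only [r1])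
    linarith only [h3, h4, h5, cr, A2']
  have f4 : ‖π2.eval s - π2.eval τ‖ ≤ L2 * (N * ‖τ‖ ^ T) := by
    refine (lip2 τ s (by linarith only [r1]) (by linarith only [r1, e7])).trans
      (mul_le_mul_of_nonneg_left ?_ hL2)
    exact e4.trans (mul_le_of_le_one_right (by positivity) (by linarith only [r1]))
  have f5 : z2 * s ^ a - π2.eval s = z2 * τ ^ a * ((s / τ) ^ a - 1) + (z2 * τ ^ a - π2.eval τ) -
      (π2.eval s - π2.eval τ) := by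
    rw [div_pow]
    field_simp
    ring
  have f6 : ‖z2 * τ ^ a * ((s / τ) ^ a - 1)‖ ≤ (B2 + c) * (La * (N * ‖τ‖ ^ T)) := by
    rw [norm_mul]; gcongr
  have f7 := norm_sub_le (z2 * τ ^ a * ((s / τ) ^ a - 1) + (z2 * τ ^ a - π2.eval τ))
    (π2.eval s - π2.eval τ)
  have f8 := norm_add_le (z2 * τ ^ a * ((s / τ) ^ a - 1)) (z2 * τ ^ a - π2.eval τ)
  have f9 : k * ‖τ‖ ^ T ≤ ‖τ‖ ^ (T - 1) := by
    have h7 : k * ‖τ‖ ≤ M * ‖τ‖ := mul_le_mul_of_nonneg_right (by linarith) r0.le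
    have h8 : k * ‖τ‖ ≤ 1 := by linarith only [h7, hMr]
    rw [pT, mul_left_comm]
    exact mul_le_of_le_one_right q0.le h8
  rw [f5]
  rw [hk] at f9
  linarith only [f4, f6, f7, f8, f9, A2']

end Pool.Agent.P.MP_68214b_ag.DS
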