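import Pool.Agent.P.MP_68214b_ag.DST3b
import Pool.Agent.P.MP_68214b_ag.DST4

open Polynomial Filter Asymptotics NumberField Topology

namespace Pool.Agent.P.MP_68214b_ag.DS

theorem dst5_apx {a b T : ℕ} {π1 π2 : ℂ[X]} {C0 : ℝ} {τ y1 y2 s t : ℂ} (hτ : ‖τ‖ ≤ 1)
    (h : Apx a b T π1 π2 C0 τ y1 y2) (hs : ‖s‖ = ‖τ‖ ^ T) (ht : ‖t‖ = ‖τ‖ ^ T) :
    Apx a b T π1 π2 (C0 + 1) τ (y1 + s) (y2 + t) := by
  have K : ∀ (y s v : ℂ) (k : ℕ), ‖y * τ ^ k - v‖ ≤ C0 * ‖τ‖ ^ T → ‖s‖ = ‖τ‖ ^ T →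
      ‖(y + s) * τ ^ k - v‖ ≤ (C0 + 1) * ‖τ‖ ^ T := by
    intro y s v k h1 h2
    have e : (y + s) * τ ^ k - v = (y * τ ^ k - v) + s * τ ^ k := by ring
    have h3 : ‖s * τ ^ k‖ ≤ ‖τ‖ ^ T := by
      rw [norm_mul, norm_pow, h2]
      exact mul_le_of_le_one_right (by positivity) (pow_le_one₀ (norm_nonneg _) hτ)
    rw [e]
    refine (norm_add_le _ _).trans ?_
    linarith
  exact ⟨K _ _ _ _ h.1 hs, K _ _ _ _ h.2 ht⟩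

theorem dst5_num {x σ θ w q c : ℝ} {M Th D D0 T : ℕ} (hx : 0 < x) (hx1 : x ≤ 1) (hD : 1 ≤ D)
    (hT : 2 ≤ T) (hσ0 : 0 ≤ σ) (hw0 : 0 ≤ w) (hq : 0 ≤ q) (hc : 0 ≤ c)
    (hθ : θ ^ D0 = x ^ D) (hw : w ≤ x ^ (T - 1)) (h1 : x ≤ 2 * σ) (h2 : σ ≤ 2 * x)
    (h : σ ^ (M * D) * θ ^ (M * D0) * q ≤ c ^ D * (θ ^ ((Th + 2 * M) * D0) +
      σ ^ ((Th + 2 * M) * D) + w ^ ((Th + 2 * M) * D / (T - 1) + 1))) :
    q ≤ (c * (2 ^ M * 2 ^ (Th + 2 * M) * 3)) ^ D * x ^ (Th * D) := by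
  set N := (Th + 2 * M) * D with hN
  have e1 : θ ^ (M * D0) = x ^ (M * D) := by
    rw [mul_comm M D0, pow_mul, hθ, ← pow_mul, mul_comm]
  have e2 : θ ^ ((Th + 2 * M) * D0) = x ^ N := by
    rw [mul_comm _ D0, pow_mul, hθ, ← pow_mul, mul_comm]
  have e3 : σ ^ N ≤ 2 ^ N * x ^ N := by
    rw [← mul_pow]; exact pow_le_pow_left₀ hσ0 h2 _
  have e4 : w ^ (N / (T - 1) + 1) ≤ x ^ N := by
    refine (pow_le_pow_left₀ hw0 hw _).trans ?_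
    rw [← pow_mul]
    exact pow_le_pow_of_le_one hx.le hx1 (Nat.lt_mul_div_succ N (by omega)).le
  have e5 : x ^ (M * D) ≤ 2 ^ (M * D) * σ ^ (M * D) := by
    rw [← mul_pow]; exact pow_le_pow_left₀ hx.le h1 _
  have e6 : (1 : ℝ) ≤ 2 ^ N := one_le_pow₀ (by norm_num)
  have e7 : (3 : ℝ) ≤ 3 ^ D := le_self_pow₀ (by norm_num) (by omega)
  have hxN : 0 < x ^ N := pow_pos hx _
  have e8 : x ^ N + σ ^ N + w ^ (N / (T - 1) + 1) ≤ 3 ^ D * 2 ^ N * x ^ N := by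
    have : x ^ N ≤ 2 ^ N * x ^ N := le_mul_of_one_le_left hxN.le e6
    have h3 : 3 * (2 ^ N * x ^ N) ≤ 3 ^ D * (2 ^ N * x ^ N) :=
      mul_le_mul_of_nonneg_right e7 (by positivity)
    rw [mul_assoc]
    linarith
  rw [e1, e2] at h
  have e9 : x ^ N = x ^ (M * D) * x ^ (M * D) * x ^ (Th * D) := by
    rw [← pow_add, ← pow_add, hN]; congr 1; ring
  have hp : 0 < x ^ (M * D) * x ^ (M * D) := by positivity
  refine le_of_mul_le_mul_left ?_ hp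
  have e10 : (c * (2 ^ M * 2 ^ (Th + 2 * M) * 3)) ^ D =
      2 ^ (M * D) * (c ^ D * (3 ^ D * 2 ^ N)) := by
    rw [mul_pow, mul_pow, mul_pow, ← pow_mul, ← pow_mul, hN]; ring
  calc x ^ (M * D) * x ^ (M * D) * q
      ≤ 2 ^ (M * D) * σ ^ (M * D) * x ^ (M * D) * q := by gcongr
    _ = 2 ^ (M * D) * (σ ^ (M * D) * x ^ (M * D) * q) := by ring
    _ ≤ 2 ^ (M * D) * (c ^ D * (3 ^ D * 2 ^ N * x ^ N)) := by
        refine mul_le_mul_of_nonneg_left (h.trans ?_) (by positivity)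
        exact mul_le_mul_of_nonneg_left e8 (by positivity)
    _ = x ^ (M * D) * x ^ (M * D) *
          ((c * (2 ^ M * 2 ^ (Th + 2 * M) * 3)) ^ D * x ^ (Th * D)) := by
        rw [e10, e9]; ring

theorem ta {F : Type} [Field F] [NumberField F] (φ : F →+* ℂ) (π1 π2 : F[X])
    (h1 : 1 ≤ ‖φ (π1.coeff 0)‖)
    (a : ℕ) {b T Th D0 : ℕ} (hb : 0 < b) (hD0 : 0 < D0) (hT : (Th + 2 * (a + b)) * D0 + 2 ≤ T)
    (C0 : ℝ) : ∃ c τ0 : ℝ, 1 ≤ c ∧ 0 < τ0 ∧ ∀ D D2 : ℕ, D0 ≤ D → D2 ≤ D →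
      Cnt (Module.finrank ℚ F) (Th + 2 * (a + b)) T D0 D D2 →
      ∃ P : Fin (D0 + 1) × Fin (D0 + 1) → ℤ[X][X], P ≠ 0 ∧
        (∀ k, Bd (P k) D D2 ∧ nZ.l2.f (P k) ≤ c ^ D) ∧
        ∀ τ y1 y2 t w1 w2 : ℂ, τ ≠ 0 → ‖τ‖ ≤ τ0 → ‖t‖ ^ D0 = ‖τ‖ ^ D →
          Apx a b T (π1.map φ) (π2.map φ) C0 τ y1 y2 → Apx a b T (π1.map φ) (π2.map φ) C0 t w1 w2 →
          ∀ i j, i + j ≤ D / T →
            ‖tc y1 y2 (cmb zc P (mon D0 w1 w2)) i j‖ * ‖τ‖ ^ D ≤ c ^ D * ‖τ‖ ^ (Th * D) := by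
  obtain ⟨c, hc, H⟩ := ta2 φ π1 π2 a b T D0 ((Th + 2 * (a + b)) * D0) hD0 (by omega) C0
  obtain ⟨τ0, hτ0, hτ1, R⟩ := reparam (π1.map φ) (π2.map φ) (by rwa [coeff_map]) a hb
    (T := T) (by omega) (C0 + 1)
  have hk : (1 : ℝ) ≤ 2 ^ (a + b) * 2 ^ (Th + 2 * (a + b)) * 3 :=
    one_le_mul_of_one_le_of_one_le
      (one_le_mul_of_one_le_of_one_le (one_le_pow₀ (by norm_num)) (one_le_pow₀ (by norm_num)))
      (by norm_num)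
  refine ⟨c * (2 ^ (a + b) * 2 ^ (Th + 2 * (a + b)) * 3), τ0,
    one_le_mul_of_one_le_of_one_le hc hk, hτ0, fun D D2 hD hD2 hC => ?_⟩
  obtain ⟨P, hP, hB, hQ⟩ := H D D2 _ _ hD hD2 hC
  refine ⟨P, hP, fun k => ⟨(hB k).1, (hB k).2.trans ?_⟩, ?_⟩
  · exact pow_le_pow_left₀ (by linarith) (le_mul_of_one_le_right (by linarith) hk) _
  intro τ y1 y2 t w1 w2 hτ hττ ht A1 A2 i j hij
  have hx : 0 < ‖τ‖ := norm_pos_iff.2 hτ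
  have hx1 : ‖τ‖ ≤ 1 := by linarith
  have ht1 : ‖t‖ ≤ 1 := by
    rw [← pow_le_one_iff_of_nonneg (norm_nonneg t) hD0.ne', ht]
    exact pow_le_one₀ hx.le hx1
  have hE := cauchy2 (cmb zc P (mon D0 w1 w2)) y1 y2 (r := ‖τ‖ ^ T)
    (E := (c * (2 ^ (a + b) * 2 ^ (Th + 2 * (a + b)) * 3)) ^ D * ‖τ‖ ^ (Th * D)) (pow_pos hx T)
    (fun s s' hs hs' => by
      obtain ⟨u, u1, u2, u3, u4⟩ := R τ _ _ hτ hττ (dst5_apx hx1 A1 hs hs')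
      refine dst5_num hx hx1 (by omega) (by omega) (norm_nonneg u) (norm_nonneg _) (norm_nonneg _)
        (by linarith) ht u2 u3 u4 ?_
      exact hQ u _ _ t w1 w2 (by linarith) ht1 u1 (u2.trans (pow_le_one₀ hx.le hx1)) A2) i j
  refine le_trans (mul_le_mul_of_nonneg_left ?_ (norm_nonneg _)) hE
  rw [← pow_mul]
  exact pow_le_pow_of_le_one hx.le hx1
    ((Nat.mul_le_mul_left T hij).trans (Nat.mul_div_le D T))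

end Pool.Agent.P.MP_68214b_ag.DS
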