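import Pool.Agent.P.MP_68214b_ag.DST18a
import Pool.Agent.P.MP_68214b_ag.DST5
import Pool.Agent.P.MP_68214b_ag.DST6

open Polynomial Filter Asymptotics NumberField Topology

namespace Pool.Agent.P.MP_68214b_ag.DS

variable {K F : Type} [Field K] [NumberField K] [Field F] [NumberField F] [Algebra K F]

namespace TS
variable (S : TS K F)

theorem dst18b_pos {S : TS K F} {L Th D0 : ℕ} (hp : S.Par L Th D0) : 0 < D0 := by
  have h1 : 0 < Module.finrank ℚ K := Module.finrank_pos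
  have h2 := hp.Th1
  exact lt_of_lt_of_le (by positivity) hp.hD0

theorem endA {L Th D0 : ℕ} (hp : S.Par L Th D0) {c : ℝ} (hc : 1 ≤ c) :
    ∀ᶠ m in atTop, ∀ m' ≥ m, ∀ D, D = D0 * S.d ^ (m' - m) →
      ∀ P : Fin (D0 + 1) × Fin (D0 + 1) → ℤ[X][X], (∀ k, Bd (P k) D D ∧ nZ.l2.f (P k) ≤ c ^ D) →
      ∀ i j, ‖tc (S.σO (S.y1 m)) (S.σO (S.y2 m)) (S.Q P m') i j‖ * ‖S.τ ^ S.d ^ m‖ ^ D ≤
          c ^ D * ‖S.τ ^ S.d ^ m‖ ^ (Th * D) →
        tc (S.σO (S.y1 m)) (S.σO (S.y2 m)) (S.Q P m') i j = 0 := by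
  have hτ : 0 < ‖S.τ‖ := norm_pos_iff.2 S.τ0
  have hΛ := S.Λ1
  have h0 := dst18b_pos hp
  have hev := (tend_pp (lam := 1 / 2) (by norm_num) (by norm_num) S.hd).const_mul
    (c * (16 * c) ^ (3 * Module.finrank ℚ K))
  rw [mul_zero] at hev
  filter_upwards [hev.eventually (gt_mem_nhds zero_lt_one)] with m hm m' hm' D hD P hP i j h
  have e : tc (S.σO (S.y1 m)) (S.σO (S.y2 m)) (S.Q P m') i j = S.σO (tc (S.y1 m) (S.y2 m)
      (cmb (Int.castRingHom (RN K S.M)) P (mon D0 (S.y1 m') (S.y2 m'))) i j) := by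
    rw [tc_map, map2_cmb, RingHom.ext_int (S.σO.comp _) zc]
    simp only [Q, mon, map_mul, map_pow]
    rfl
  rw [e] at h ⊢
  have hDD : D0 ≤ D := hD ▸ Nat.le_mul_of_pos_right _ (pow_pos (by linarith [S.hd]) _)
  have hu : 1 ≤ S.Λ ^ S.d ^ m := one_le_pow₀ hΛ
  have hu' : 1 ≤ S.Λ ^ S.d ^ m' := one_le_pow₀ hΛ
  have e1 : (S.Λ ^ S.d ^ m') ^ D0 = (S.Λ ^ S.d ^ m) ^ D := by
    rw [← pow_mul, ← pow_mul, hD, mul_left_comm, ← pow_add, Nat.add_sub_cancel' hm', mul_comm]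
  have b1 : ∀ k, (nR K S.M).f (mon D0 (S.y1 m') (S.y2 m') k) ≤ ((S.Λ ^ S.d ^ m) ^ D) ^ 2 := by
    intro k
    have key : ∀ (y : RN K S.M) (l : Fin (D0 + 1)), (nR K S.M).f y ≤ S.Λ ^ S.d ^ m' →
        (nR K S.M).f (y ^ (l : ℕ)) ≤ (S.Λ ^ S.d ^ m) ^ D := fun y l hy =>
      ((nR K S.M).pow_le _ _).trans ((pow_le_pow_left₀ ((nR K S.M).nonneg _) hy _).trans
        (e1 ▸ pow_le_pow_right₀ hu' (Nat.le_of_lt_succ l.2)))
    rw [sq]
    exact ((nR K S.M).mul _ _).trans (mul_le_mul (key _ _ (S.hy1 m')) (key _ _ (S.hy2 m'))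
      ((nR K S.M).nonneg _) (by positivity))
  have b2 := nZ.l2_cmb (nR K S.M) (Int.castRingHom (RN K S.M)) (fun a => (nR K S.M).intCast_le a) P _
    (fun k => (hP k).2) b1
  have b3 := (nR K S.M).tc_le (bd_cmb (Int.castRingHom (RN K S.M)) (mon D0 (S.y1 m') (S.y2 m'))
    fun k => (hP k).1) hu (S.hy1 m) (S.hy2 m) i j
  generalize tc (S.y1 m) (S.y2 m)
    (cmb (Int.castRingHom (RN K S.M)) P (mon D0 (S.y1 m') (S.y2 m'))) i j = η at h b3 ⊢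
  have b4 : (Fintype.card (Fin (D0 + 1) × Fin (D0 + 1)) : ℝ) ≤ 2 ^ D * 2 ^ D := by
    have a1 : D0 + 1 ≤ 2 ^ D := Nat.lt_two_pow_self.trans_le (Nat.pow_le_pow_right two_pos hDD)
    rw [Fintype.card_prod, Fintype.card_fin]
    exact_mod_cast Nat.mul_le_mul a1 a1
  have b5 : (nR K S.M).f η ≤ (16 * c * (S.Λ ^ S.d ^ m) ^ 4) ^ D := by
    refine b3.trans ((mul_le_mul_of_nonneg_right (b2.trans (mul_le_mul_of_nonneg_right b4
      (by positivity))) (by positivity)).trans (le_of_eq ?_))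
    rw [show (16 : ℝ) = 2 * 2 * 2 * 2 by norm_num]
    generalize S.Λ ^ S.d ^ m = u
    simp only [mul_pow, pow_add]
    ring
  by_contra hη
  have b6 := S.lv.liou η fun h1 => hη (by rw [h1, map_zero])
  obtain ⟨T', rfl⟩ := Nat.exists_eq_add_of_le' hp.Th1
  have b7 := hp.hTh
  rw [Nat.add_sub_cancel] at b7
  rw [norm_pow, add_mul, one_mul, pow_add, ← mul_assoc] at h
  have b8 := le_of_mul_le_mul_right h (by positivity)
  have b9 : (S.Λ ^ (4 * (3 * Module.finrank ℚ K)) * ‖S.τ‖ ^ T') ^ S.d ^ m ≤ (1 / 2) ^ S.d ^ m :=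
    pow_le_pow_left₀ (by positivity) b7 _
  have b10 := b6.trans (mul_le_mul b8 (pow_le_pow_left₀ ((nR K S.M).nonneg _) b5 _)
    (pow_nonneg ((nR K S.M).nonneg _) _) (by positivity))
  have e2 : c ^ D * (‖S.τ‖ ^ S.d ^ m) ^ (T' * D) *
      ((16 * c * (S.Λ ^ S.d ^ m) ^ 4) ^ D) ^ (3 * Module.finrank ℚ K) =
      (c * (16 * c) ^ (3 * Module.finrank ℚ K) *
        (S.Λ ^ (4 * (3 * Module.finrank ℚ K)) * ‖S.τ‖ ^ T') ^ S.d ^ m) ^ D := by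
    generalize S.d ^ m = q
    generalize 16 * c = c'
    simp only [mul_pow, ← pow_mul]
    ring
  rw [e2] at b10
  exact absurd b10 (not_le.2 (pow_lt_one₀ (by positivity)
    ((mul_le_mul_of_nonneg_left b9 (by positivity)).trans_lt hm) (by omega)))

theorem Par.D0_pos {S : TS K F} {L Th D0 : ℕ} (hp : S.Par L Th D0) : 0 < D0 := dst18b_pos hp

theorem key {L Th D0 : ℕ} (hp : S.Par L Th D0) : ∃ c : ℝ, 1 ≤ c ∧ ∀ᶠ m in S.𝓕, ∀ᶠ m' in S.𝓕,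
    ∀ D D2, D = D0 * S.d ^ (m' - m) → D2 ≤ D →
      Cnt (Module.finrank ℚ F) (Th + 2 * (S.a + S.b)) S.T D0 D D2 →
      ∃ P : Fin (D0 + 1) × Fin (D0 + 1) → ℤ[X][X], P ≠ 0 ∧
        (∀ k, Bd (P k) D D2 ∧ nZ.l2.f (P k) ≤ c ^ D) ∧
        S.Q P m' ∈ mI (S.σO (S.y1 m)) (S.σO (S.y2 m)) ^ (D / S.T + 1) := by
  obtain ⟨c, τ0, hc, h0, H⟩ := ta S.φ S.π1 S.π2 (by
    rw [S.p1, map_pow, map_natCast, norm_pow, Complex.norm_natCast]
    exact one_le_pow₀ (Nat.one_le_cast.2 S.hN)) S.a S.hb hp.D0_pos hp.hT S.C0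
  refine ⟨c, hc, ?_⟩
  have hτ := S.tau_lim.norm
  rw [norm_zero] at hτ
  filter_upwards [(S.endA hp hc).filter_mono S.le, hτ.eventually (ge_mem_nhds h0), S.apx]
    with m h1 h2 h3
  filter_upwards [(eventually_ge_atTop m).filter_mono S.le, S.apx] with m' h4 h5 D D2 hD h6 h7
  have hDD : D0 ≤ D := hD ▸ Nat.le_mul_of_pos_right _ (pow_pos (by linarith [S.hd]) _)
  obtain ⟨P, hP, hb, hs⟩ := H D D2 hDD h6 h7
  exact ⟨P, hP, hb, van_of_tc fun i j hij => h1 m' h4 D hD P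
    (fun k => ⟨(hb k).1.mono le_rfl h6, (hb k).2⟩) i j
    (hs _ _ _ _ _ _ (pow_ne_zero _ S.τ0) h2 (hD ▸ S.tau_pow D0 h4) h3 h5 i j
      (Nat.le_of_lt_succ hij))⟩

end TS

end Pool.Agent.P.MP_68214b_ag.DS
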