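import Pool.Agent.P.MP_68214b_ag.DST18b
import Pool.Agent.P.MP_68214b_ag.DST13
import Pool.Agent.P.MP_68214b_ag.DST15
import Pool.Agent.P.MP_68214b_ag.DST16a

open Polynomial Filter Asymptotics NumberField Topology

namespace Pool.Agent.P.MP_68214b_ag.DS

variable {K F : Type} [Field K] [NumberField K] [Field F] [NumberField F] [Algebra K F]

theorem TS.dense (S : TS K F) {L Th D0 : ℕ} (hp : S.Par L Th D0)
    (h : ∀ G : ℤ[X][X], G ≠ 0 → ∀ᶠ m in S.𝓕, ev2 zc (S.σO (S.y1 m)) (S.σO (S.y2 m)) G ≠ 0) :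
    S.deg ≤ D0 := by
  by_contra hlt
  have := S.ne
  have h0 := hp.D0_pos
  have hT := hp.hT
  have hTh := hp.Th1
  obtain ⟨c, hc, hk⟩ := S.key hp
  obtain ⟨𝓔, c3, D1, hf, hz, hn⟩ := nvd (Fin (D0 + 1) × Fin (D0 + 1)) c hc (T := S.T) (by omega)
  have h1 : ∀ᶠ m in S.𝓕, ∀ G ∈ 𝓔, ev2 zc (S.σO (S.y1 m)) (S.σO (S.y2 m)) G ≠ 0 :=
    (eventually_all_finite hf).2 fun G hG => h G (hz G hG)
  obtain ⟨m, a1, a2, a3, a4⟩ := (hk.and (h1.and ((S.big.eventually (eventually_gt_atTop c3)).and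
    ((S.endB h0 (not_le.1 hlt) hc).filter_mono S.le)))).exists
  obtain ⟨m', b1, b2, -, b3⟩ := (a1.and (a4.and (S.ev_D h0 (D1 + S.T) m))).exists
  have hcnt : Cnt (Module.finrank ℚ F) (Th + 2 * (S.a + S.b)) S.T D0 (D0 * S.d ^ (m' - m))
      (D0 * S.d ^ (m' - m)) := by
    refine cnt1 (r := Module.finrank ℚ K) (L := L) (hp.hF.trans (Nat.mul_le_mul_left _ hp.hL))
      (by omega) (by omega) (by omega) (le_trans ?_ hp.hD0)
    exact Nat.mul_le_mul_right _ (Nat.mul_le_mul (Nat.mul_le_mul_right _ (by norm_num))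
      (Nat.le_succ L))
  obtain ⟨P, hP, hB, hI⟩ := b1 _ _ rfl le_rfl hcnt
  refine hn _ (by omega) P _ _ _ hB (fun hQ => ?_) a2 a3 hI
  have e : mon D0 (S.σO (S.y1 m')) (S.σO (S.y2 m')) =
      fun k => S.σO (mon D0 (S.y1 m') (S.y2 m') k) := funext fun k => by simp [mon]
  rw [e] at hQ
  obtain ⟨v, v0, v1, v2⟩ := small_v0 (nR K S.M) S.σO S.lv.inj P hP _ (fun k => (hB k).2) hQ
  exact b2 v v0 v1 v2

end Pool.Agent.P.MP_68214b_ag.DS
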