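import Pool.Agent.P.MP_68214b_ag.DSN4

open Polynomial Filter Asymptotics NumberField Topology

namespace Pool.Agent.P.MP_68214b_ag.DS

theorem dst2_repr (F : Type) [Field F] [NumberField F] : ∃ c : ℝ, 1 ≤ c ∧
    ∀ (α : 𝓞 F) (r : Module.Free.ChooseBasisIndex ℤ (𝓞 F)),
      |(((RingOfIntegers.basis F).repr α r : ℤ) : ℝ)| ≤ c * house (α : F) := by
  classical
  obtain ⟨c, hc⟩ : ∃ c : ℝ, ∀ (α : 𝓞 F) (i : F →+* ℂ),
      ‖(((integralBasis F).reindex (equivReindex F).symm).repr α i : ℂ)‖ ≤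
        c * house (algebraMap (𝓞 F) F α) :=
    ⟨_, NumberField.house.basis_repr_norm_le_const_mul_house F⟩
  refine ⟨max 1 c, le_max_left _ _, fun α r => ?_⟩
  have h := hc α ((equivReindex F).symm r)
  rw [Module.Basis.repr_reindex_apply, Equiv.symm_symm, Equiv.apply_symm_apply] at h
  have e : (integralBasis F).repr (α : F) r =
      algebraMap ℤ ℚ ((RingOfIntegers.basis F).repr α r) := integralBasis_repr_apply F α r
  rw [e, eq_intCast, Rat.cast_intCast, Complex.norm_intCast] at h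
  exact h.trans (mul_le_mul_of_nonneg_right (le_max_right _ _) (house_nonneg _))

attribute [local instance] Matrix.seminormedAddCommGroup in
theorem dst2_int {ι κ : Type} [Fintype ι] [Fintype κ] (A : Matrix ι κ ℤ) {B : ℝ} (hB : 1 ≤ B)
    (hA : ∀ i k, |(A i k : ℝ)| ≤ B) (h0 : 0 < Fintype.card κ)
    (h : 2 * Fintype.card ι ≤ Fintype.card κ) :
    ∃ ξ : κ → ℤ, ξ ≠ 0 ∧ A.mulVec ξ = 0 ∧ ∀ k, |(ξ k : ℝ)| ≤ Fintype.card κ * B := by
  have hk : (1 : ℝ) ≤ Fintype.card κ := by exact_mod_cast h0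
  have h1 : (1 : ℝ) ≤ Fintype.card κ * B := one_le_mul_of_one_le_of_one_le hk hB
  rcases Nat.eq_zero_or_pos (Fintype.card ι) with hi | hi
  · have : IsEmpty ι := Fintype.card_eq_zero_iff.1 hi
    obtain ⟨k0⟩ : Nonempty κ := Fintype.card_pos_iff.1 h0
    refine ⟨fun _ => 1, fun h2 => one_ne_zero (congrFun h2 k0), Subsingleton.elim _ _, fun k => ?_⟩
    simpa using h1
  obtain ⟨t, ht0, ht1, ht2⟩ := Int.Matrix.exists_ne_zero_int_vec_norm_le A (by omega) hi
  refine ⟨t, ht0, ht1, fun k => ?_⟩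
  have hn : ‖A‖ ≤ B := (Matrix.norm_le_iff (by linarith)).2 fun i k => by
    rw [Int.norm_eq_abs]; exact hA i k
  have h2 : (Fintype.card κ : ℝ) * max 1 ‖A‖ ≤ Fintype.card κ * B :=
    mul_le_mul_of_nonneg_left (max_le hB hn) (by linarith)
  have h3 : (1 : ℝ) ≤ Fintype.card κ * max 1 ‖A‖ :=
    one_le_mul_of_one_le_of_one_le hk (le_max_left _ _)
  have h4 : (2 : ℝ) * Fintype.card ι ≤ Fintype.card κ := by exact_mod_cast h
  have h5 : (0 : ℝ) < Fintype.card ι := by exact_mod_cast hi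
  have h6 : (Fintype.card ι : ℝ) / (Fintype.card κ - Fintype.card ι) ≤ 1 :=
    (div_le_one (by linarith)).2 (by linarith)
  have h7 := Real.rpow_le_rpow_of_exponent_le h3 h6
  rw [Real.rpow_one] at h7
  rw [← Int.norm_eq_abs]
  exact (norm_le_pi_norm t k).trans (ht2.trans (h7.trans h2))

theorem siegel (F : Type) [Field F] [NumberField F] : ∃ c : ℝ, 1 ≤ c ∧
    ∀ {ι κ : Type} [Fintype ι] [Fintype κ] (a : ι → κ → 𝓞 F) (H : ℝ), 1 ≤ H →
      (∀ i k, (nO F).f (a i k) ≤ H) → 0 < Fintype.card κ →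
      2 * Module.finrank ℚ F * Fintype.card ι ≤ Fintype.card κ →
      ∃ ξ : κ → ℤ, ξ ≠ 0 ∧ (∀ i, ∑ k, a i k * (ξ k : 𝓞 F) = 0) ∧
        ∀ k, |(ξ k : ℝ)| ≤ c * Fintype.card κ * H := by
  obtain ⟨c, hc1, hc⟩ := dst2_repr F
  refine ⟨c, hc1, fun {ι κ} _ _ a H hH ha h0 hcard => ?_⟩
  have hb : Fintype.card (Module.Free.ChooseBasisIndex ℤ (𝓞 F)) = Module.finrank ℚ F := by
    rw [← Module.finrank_eq_card_chooseBasisIndex, RingOfIntegers.rank]
  obtain ⟨ξ, h1, h2, h3⟩ := dst2_int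
    (Matrix.of fun (i : ι × Module.Free.ChooseBasisIndex ℤ (𝓞 F)) (k : κ) =>
      (RingOfIntegers.basis F).repr (a i.1 k) i.2) (B := c * H)
    (one_le_mul_of_one_le_of_one_le hc1 hH)
    (fun i k => (hc _ _).trans (mul_le_mul_of_nonneg_left (ha i.1 k) (by linarith))) h0
    (by rw [Fintype.card_prod, hb, mul_comm (Fintype.card ι), ← mul_assoc]; exact hcard)
  refine ⟨ξ, h1, fun i => ?_, fun k => (h3 k).trans_eq (by ring)⟩
  refine (RingOfIntegers.basis F).ext_elem fun r => ?_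
  have h4 := congrFun h2 (i, r)
  simp only [Matrix.mulVec, dotProduct, Matrix.of_apply, Pi.zero_apply] at h4
  rw [map_zero, Finsupp.zero_apply, map_sum, Finsupp.finsetSum_apply, ← h4]
  refine Finset.sum_congr rfl fun k _ => ?_
  rw [mul_comm (a i k), ← zsmul_eq_mul, map_zsmul, Finsupp.smul_apply, smul_eq_mul, mul_comm]

end Pool.Agent.P.MP_68214b_ag.DS
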