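import Pool.Agent.P.MP_68214b_ag.DST2

open Polynomial Filter Asymptotics NumberField Topology

namespace Pool.Agent.P.MP_68214b_ag.DS

theorem dst3a_ev {R : Type*} [CommRing R] (ν : Sn R) (ψ : R →+* ℂ) (h : ∀ a, ‖ψ a‖ ≤ ν.f a)
    {x : ℂ} (hx : ‖x‖ ≤ 1) (N : ℕ) {ε : ℝ} (hε : 0 ≤ ε) (p : R[X])
    (hp : ∀ i < N, ‖ψ (p.coeff i)‖ ≤ ν.f (p.coeff i) * ε) :
    ‖eval₂RingHom ψ x p‖ ≤ ν.l1.f p * (ε + ‖x‖ ^ N) := by
  refine (nC.eval₂_le_sum ψ x p).trans ?_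
  rw [ν.l1_eq p subset_rfl, Finset.sum_mul]
  refine Finset.sum_le_sum fun i _ => ?_
  show ‖ψ (p.coeff i)‖ * ‖x‖ ^ i ≤ _
  have h0 := ν.nonneg (p.coeff i)
  have h1 : 0 ≤ ‖x‖ ^ N := by positivity
  rcases lt_or_ge i N with hi | hi
  · refine (mul_le_of_le_one_right (norm_nonneg _) (pow_le_one₀ (norm_nonneg _) hx)).trans
      ((hp i hi).trans ?_)
    exact mul_le_mul_of_nonneg_left (by linarith) h0
  · exact mul_le_mul (h _) ((pow_le_pow_of_le_one (norm_nonneg _) hx hi).trans (by linarith))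
      (by positivity) h0

theorem dst3a_ev0 {R : Type*} [CommRing R] (ν : Sn R) (ψ : R →+* ℂ) (h : ∀ a, ‖ψ a‖ ≤ ν.f a)
    {x : ℂ} (hx : ‖x‖ ≤ 1) (p : R[X]) : ‖eval₂RingHom ψ x p‖ ≤ ν.l1.f p := by
  simpa using dst3a_ev ν ψ h hx 0 le_rfl p fun i hi => absurd hi (Nat.not_lt_zero i)

theorem ta1 (F : Type) [Field F] [NumberField F] (φ : F →+* ℂ) : ∃ c : ℝ, 1 ≤ c ∧
    ∀ {κ : Type} [Fintype κ] (Ξ : κ → (𝓞 F)[X][X]) (m : κ → (𝓞 F)[X]) (H1 H2 : ℝ) (N0 N N1 : ℕ),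
      1 ≤ H1 → 1 ≤ H2 → (∀ k, (nO F).l2.f (Ξ k) ≤ H1) → (∀ k, (nO F).l1.f (m k) ≤ H2) →
      0 < Fintype.card κ → 2 * Module.finrank ℚ F * N0 * N * N1 ≤ Fintype.card κ →
      ∃ ξ : κ → ℤ, ξ ≠ 0 ∧ (∀ k, |(ξ k : ℝ)| ≤ c * Fintype.card κ * (H1 * H2)) ∧
        ∀ s w t : ℂ, ‖s‖ ≤ 1 → ‖w‖ ≤ 1 → ‖t‖ ≤ 1 →
          ‖∑ k, (ξ k : ℂ) * ev2 (φ.comp (algebraMap (𝓞 F) F)) s w (Ξ k) *
              (m k).eval₂ (φ.comp (algebraMap (𝓞 F) F)) t‖ ≤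
            c * (Fintype.card κ : ℝ) ^ 2 * (H1 * H2) ^ 2 * (‖t‖ ^ N0 + ‖s‖ ^ N + ‖w‖ ^ N1) := by
  obtain ⟨c, hc, hS⟩ := siegel F
  refine ⟨c, hc, fun {κ} _ Ξ m H1 H2 N0 N N1 h1 h2 hΞ hm hκ hN => ?_⟩
  obtain ⟨ξ, hξ, hz, hb⟩ := hS (ι := Fin N0 × Fin N × Fin N1)
    (fun x k => ((Ξ k).coeff x.2.2).coeff x.2.1 * (m k).coeff x.1) (H1 * H2)
    (one_le_mul_of_one_le_of_one_le h1 h2) (fun x k => ((nO F).mul _ _).trans
      (mul_le_mul (((nO F).coeff2_le _ _ _).trans (hΞ k)) (((nO F).coeff_le _ _).trans (hm k))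
        ((nO F).nonneg _) (by linarith))) hκ (by simpa [mul_assoc] using hN)
  refine ⟨ξ, hξ, hb, fun s w t hs hw ht => ?_⟩
  set ψ := φ.comp (algebraMap (𝓞 F) F)
  have hψ : ∀ a, ‖ψ a‖ ≤ (nO F).f a := (lv_nO φ).le
  have hψ1 := dst3a_ev0 _ ψ hψ hs
  have hψ2 : ∀ W, ‖ev2 ψ s w W‖ ≤ (nO F).l2.f W := dst3a_ev0 _ _ hψ1 hw
  let Z : (𝓞 F)[X][X][X] := ∑ k, C ((ξ k : (𝓞 F)[X][X]) * Ξ k) * (m k).map (C.comp C)
  have hZ : eval₂RingHom (ev2 ψ s w) t Z =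
      ∑ k, (ξ k : ℂ) * ev2 ψ s w (Ξ k) * (m k).eval₂ ψ t := by
    have : (ev2 ψ s w).comp (C.comp C) = ψ := by ext a; simp
    simp only [Z, map_sum, map_mul, coe_eval₂RingHom, eval₂_C, eval₂_map, this, map_intCast]
  have hco : ∀ a < N0, ∀ i < N1, ∀ e < N, ((Z.coeff a).coeff i).coeff e = 0 := by
    intro a ha i hi e he
    rw [← hz (⟨a, ha⟩, ⟨e, he⟩, ⟨i, hi⟩)]
    simp only [Z, finsetSum_coeff, coeff_C_mul, coeff_map, RingHom.comp_apply, coeff_mul_C,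
      coeff_intCast_mul]
    exact Finset.sum_congr rfl fun k _ => by ring
  have hZ2 : (nO F).l2.l1.f Z ≤ c * (Fintype.card κ : ℝ) ^ 2 * (H1 * H2) ^ 2 := by
    refine (Sn.sum_le _ _ _).trans ((Finset.sum_le_card_nsmul _ _
      (c * Fintype.card κ * (H1 * H2) * H1 * H2) fun k _ => ?_).trans (le_of_eq ?_))
    · refine (Sn.mul _ _ _).trans (mul_le_mul ?_ (((nO F).l1_map _ _ (fun a => ?_) _).trans (hm k))
        (Sn.nonneg _ _) (by positivity))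
      · rw [Sn.l1_C]
        exact (Sn.mul _ _ _).trans (mul_le_mul ((Sn.intCast_le _ _).trans (hb k)) (hΞ k)
          (Sn.nonneg _ _) (by positivity))
      · exact ((Sn.l1_C _ _).trans (Sn.l1_C _ _)).le
    · rw [nsmul_eq_mul, Finset.card_univ]; ring
  rw [← hZ]
  refine (dst3a_ev (nO F).l2 (ev2 ψ s w) hψ2 ht N0 (ε := 0 + ‖s‖ ^ N + ‖w‖ ^ N1) (by positivity) Z
    fun a ha => dst3a_ev (nO F).l1 _ hψ1 hw N1 (by positivity) _ fun i hi =>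
      dst3a_ev (nO F) ψ hψ hs N le_rfl _ fun e he => by simp [hco a ha i hi e he]).trans ?_
  exact mul_le_mul hZ2 (le_of_eq (by ring)) (by positivity) (by positivity)

end Pool.Agent.P.MP_68214b_ag.DS
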