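import Pool.Agent.P.MP_68214b_ag.DST3a
import Pool.Agent.P.MP_68214b_ag.DSN3

open Polynomial Filter Asymptotics NumberField Topology

namespace Pool.Agent.P.MP_68214b_ag.DS

theorem dst3b_pow {A B : ℂ} {M : ℝ} (hM : 1 ≤ M) (hA : ‖A‖ ≤ M) (hB : ‖B‖ ≤ M) (i : ℕ) :
    ‖A ^ i - B ^ i‖ ≤ i * M ^ i * ‖A - B‖ := by
  induction i with
  | zero => simp
  | succ i ih =>
    have e : A ^ (i + 1) - B ^ (i + 1) = A * (A ^ i - B ^ i) + B ^ i * (A - B) := by ring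
    have h1 : ‖A * (A ^ i - B ^ i)‖ ≤ M * (i * M ^ i * ‖A - B‖) := by
      rw [norm_mul]; exact mul_le_mul hA ih (norm_nonneg _) (by linarith)
    have h2 : ‖B ^ i * (A - B)‖ ≤ M ^ (i + 1) * ‖A - B‖ := by
      rw [norm_mul, norm_pow]
      refine mul_le_mul_of_nonneg_right ?_ (norm_nonneg _)
      exact (pow_le_pow_left₀ (norm_nonneg _) hB i).trans (pow_le_pow_right₀ hM (Nat.le_succ i))
    rw [e]
    refine (norm_add_le _ _).trans ((add_le_add h1 h2).trans (le_of_eq ?_))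
    push_cast; ring

theorem dst3b_eval (p : ℂ[X]) {τ : ℂ} (h : ‖τ‖ ≤ 1) : ‖p.eval τ‖ ≤ nC.l1.f p := by
  have := nC.eval₂_le nC (RingHom.id ℂ) (fun _ => le_rfl) (x := τ) le_rfl h (p := p) le_rfl
  rw [eval₂_id, one_pow, mul_one] at this
  exact this

theorem dst3b_pp {R : Type*} [CommRing R] (ν : Sn R) {x y : R} {h : ℝ} (hx : ν.f x ≤ h)
    (hy : ν.f y ≤ h) {i D : ℕ} (hi : i ≤ D) : ν.f (x ^ i * y ^ (D - i)) ≤ h ^ D := by
  have h0 : 0 ≤ h := (ν.nonneg x).trans hx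
  refine (ν.mul _ _).trans ?_
  have e : h ^ D = h ^ i * h ^ (D - i) := by rw [← pow_add, Nat.add_sub_cancel' hi]
  rw [e]
  exact mul_le_mul ((ν.pow_le _ _).trans (pow_le_pow_left₀ (ν.nonneg _) hx _))
    ((ν.pow_le _ _).trans (pow_le_pow_left₀ (ν.nonneg _) hy _)) (ν.nonneg _) (by positivity)

theorem dst3b_nx {R : Type*} [CommRing R] (ν : Sn R) (n k : ℕ) :
    ν.l1.f ((n : R[X]) * X ^ k) ≤ n := by
  refine (ν.l1.mul _ _).trans ?_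
  have h1 := ν.l1.natCast_le n
  have h2 : ν.l1.f (X ^ k) ≤ 1 :=
    (ν.l1.pow_le _ _).trans (pow_le_one₀ (ν.l1.nonneg _) ν.l1_X)
  exact (mul_le_of_le_one_right (ν.l1.nonneg _) h2).trans h1

theorem dst3b_den {F : Type} [Field F] [NumberField F] (φ : F →+* ℂ) (π1 π2 : F[X]) :
    ∃ (n : ℕ) (q1 q2 : (𝓞 F)[X]), 0 < n ∧
      (∀ s, q1.eval₂ (φ.comp (algebraMap (𝓞 F) F)) s = n * (π1.map φ).eval s) ∧
      ∀ s, q2.eval₂ (φ.comp (algebraMap (𝓞 F) F)) s = n * (π2.map φ).eval s := by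
  obtain ⟨n1, q1, h1, e1⟩ := exists_den1 π1
  obtain ⟨n2, q2, h2, e2⟩ := exists_den1 π2
  refine ⟨n1 * n2, (n2 : (𝓞 F)[X]) * q1, (n1 : (𝓞 F)[X]) * q2, Nat.mul_pos h1 h2, ?_, ?_⟩
  · intro s
    rw [eval₂_mul, eval₂_natCast, ← eval₂_map, e1, eval₂_mul, eval₂_natCast, eval_map]
    push_cast; ring
  · intro s
    rw [eval₂_mul, eval₂_natCast, ← eval₂_map, e2, eval₂_mul, eval₂_natCast, eval_map]
    push_cast; ring

/-- the polynomial with a given box of coefficients -/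
noncomputable def dst3b_P {D D2 : ℕ} (ξ : Fin (D + 1) × Fin (D2 + 1) → ℤ) : ℤ[X][X] :=
  ∑ l : Fin (D + 1) × Fin (D2 + 1), monomial (l.2 : ℕ) (monomial (l.1 : ℕ) (ξ l))

theorem dst3b_coeff {D D2 : ℕ} (ξ : Fin (D + 1) × Fin (D2 + 1) → ℤ)
    (l : Fin (D + 1) × Fin (D2 + 1)) : ((dst3b_P ξ).coeff l.2).coeff l.1 = ξ l := by
  unfold dst3b_P
  rw [finsetSum_coeff, finsetSum_coeff, Finset.sum_eq_single l]
  · simp
  · intro l' _ hl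
    rw [coeff_monomial]
    split_ifs with h
    · rw [coeff_monomial, if_neg]
      intro h'
      exact hl (Prod.ext (Fin.ext h') (Fin.ext h))
    · simp
  · simp

theorem dst3b_bd {D D2 : ℕ} (ξ : Fin (D + 1) × Fin (D2 + 1) → ℤ) : Bd (dst3b_P ξ) D D2 := by
  refine bd_sum _ fun l _ => ⟨fun j => ?_, ?_⟩
  · rw [coeff_monomial]
    split_ifs
    · exact (natDegree_monomial_le _).trans (Nat.lt_succ_iff.1 l.1.2)
    · simp
  · exact (natDegree_monomial_le _).trans (Nat.lt_succ_iff.1 l.2.2)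

theorem dst3b_l2 {D D2 : ℕ} (ξ : Fin (D + 1) × Fin (D2 + 1) → ℤ) {B : ℝ}
    (h : ∀ l, |(ξ l : ℝ)| ≤ B) : nZ.l2.f (dst3b_P ξ) ≤ ((D + 1) * (D2 + 1) : ℕ) * B := by
  refine (nZ.l2.sum_le _ _).trans ?_
  have : ∀ l ∈ (Finset.univ : Finset (Fin (D + 1) × Fin (D2 + 1))),
      nZ.l2.f (monomial (l.2 : ℕ) (monomial (l.1 : ℕ) (ξ l))) ≤ B := fun l _ => by
    rw [nZ.l1.l1_monomial, nZ.l1_monomial]
    exact h l
  refine (Finset.sum_le_card_nsmul _ _ _ this).trans (le_of_eq ?_)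
  simp

theorem dst3b_ev {D D2 : ℕ} (ξ : Fin (D + 1) × Fin (D2 + 1) → ℤ) (z1 z2 : ℂ) :
    (map2 zc (dst3b_P ξ)).evalEval z1 z2 =
      ∑ l : Fin (D + 1) × Fin (D2 + 1), (ξ l : ℂ) * (z1 ^ (l.1 : ℕ) * z2 ^ (l.2 : ℕ)) := by
  rw [← ev2_eq]
  unfold dst3b_P
  rw [map_sum]
  refine Finset.sum_congr rfl fun l _ => ?_
  simp [mul_assoc]

theorem dst3b_card {D D2 D0 : ℕ} (h0 : D0 ≤ D) (h2 : D2 ≤ D) :
    (((D + 1) * (D2 + 1) * (D0 + 1) ^ 2 : ℕ) : ℝ) ≤ 16 ^ D := by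
  have h : D + 1 ≤ 2 ^ D := Nat.lt_two_pow_self
  have : (D + 1) * (D2 + 1) * (D0 + 1) ^ 2 ≤ 2 ^ D * 2 ^ D * (2 ^ D) ^ 2 :=
    Nat.mul_le_mul (Nat.mul_le_mul h (by omega)) (Nat.pow_le_pow_left (by omega) 2)
  have e : 2 ^ D * 2 ^ D * (2 ^ D) ^ 2 = 16 ^ D := by
    rw [show (16 : ℕ) = 2 * 2 * (2 * 2) by norm_num, mul_pow, mul_pow, sq]
  rw [e] at this
  exact_mod_cast this

end Pool.Agent.P.MP_68214b_ag.DS
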