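import Pool.Agent.P.MP_68214b_ag.DST3a
import Pool.Agent.P.MP_68214b_ag.DSN3
import Pool.Agent.P.MP_68214b_ag.DST3bx

open Polynomial Filter Asymptotics NumberField Topology

namespace Pool.Agent.P.MP_68214b_ag.DS

theorem mon_close (π1 π2 : ℂ[X]) (a b T D0 : ℕ) (C0 : ℝ) : ∃ C : ℝ, 0 ≤ C ∧
    ∀ τ z1 z2 : ℂ, ‖τ‖ ≤ 1 → Apx a b T π1 π2 C0 τ z1 z2 → ∀ i ≤ D0, ∀ j ≤ D0,
      ‖τ ^ ((a + b) * D0) * (z1 ^ i * z2 ^ j) -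
        π1.eval τ ^ i * (τ ^ b) ^ (D0 - i) * (π2.eval τ ^ j * (τ ^ a) ^ (D0 - j))‖ ≤
        C * ‖τ‖ ^ T := by
  obtain ⟨M, hM⟩ : ∃ M, M = nC.l1.f π1 + nC.l1.f π2 + |C0| + 1 := ⟨_, rfl⟩
  have n1 := nC.l1.nonneg π1
  have n2 := nC.l1.nonneg π2
  have n3 := abs_nonneg C0
  have hM1 : 1 ≤ M := by linarith
  have hM0 : 0 ≤ M := by linarith
  refine ⟨2 * (D0 * M ^ D0 * M ^ D0 * |C0|), by positivity, ?_⟩
  intro τ z1 z2 hτ hA i hi j hj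
  obtain ⟨h1, h2⟩ := hA
  have hT : ‖τ‖ ^ T ≤ 1 := pow_le_one₀ (norm_nonneg _) hτ
  have hT0 : 0 ≤ ‖τ‖ ^ T := by positivity
  have hc : C0 * ‖τ‖ ^ T ≤ |C0| * ‖τ‖ ^ T := mul_le_mul_of_nonneg_right (le_abs_self _) hT0
  have hc' : |C0| * ‖τ‖ ^ T ≤ |C0| := mul_le_of_le_one_right n3 hT
  have b1 := dst3b_eval π1 hτ
  have b2 := dst3b_eval π2 hτ
  generalize π1.eval τ = B1 at h1 b1 ⊢
  generalize π2.eval τ = B2 at h2 b2 ⊢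
  have a1 : ‖z1 * τ ^ b‖ ≤ M := by
    have := norm_le_norm_sub_add (z1 * τ ^ b) B1
    linarith
  have a2 : ‖z2 * τ ^ a‖ ≤ M := by
    have := norm_le_norm_sub_add (z2 * τ ^ a) B2
    linarith
  have b1' : ‖B1‖ ≤ M := by linarith
  have b2' : ‖B2‖ ≤ M := by linarith
  have e : τ ^ ((a + b) * D0) * (z1 ^ i * z2 ^ j) -
      B1 ^ i * (τ ^ b) ^ (D0 - i) * (B2 ^ j * (τ ^ a) ^ (D0 - j)) =
      ((τ ^ b) ^ (D0 - i) * (τ ^ a) ^ (D0 - j)) *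
        (((z1 * τ ^ b) ^ i - B1 ^ i) * (z2 * τ ^ a) ^ j + B1 ^ i * ((z2 * τ ^ a) ^ j - B2 ^ j)) := by
    have e1 : (τ ^ b) ^ D0 = (τ ^ b) ^ (D0 - i) * (τ ^ b) ^ i := by
      rw [← pow_add, Nat.sub_add_cancel hi]
    have e2 : (τ ^ a) ^ D0 = (τ ^ a) ^ (D0 - j) * (τ ^ a) ^ j := by
      rw [← pow_add, Nat.sub_add_cancel hj]
    rw [pow_mul, pow_add, mul_pow, e1, e2, mul_pow, mul_pow]
    ring
  have u : ‖(τ ^ b) ^ (D0 - i) * (τ ^ a) ^ (D0 - j)‖ ≤ 1 := by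
    rw [norm_mul, norm_pow, norm_pow, norm_pow, norm_pow]
    exact mul_le_one₀ (pow_le_one₀ (by positivity) (pow_le_one₀ (norm_nonneg _) hτ)) (by positivity)
      (pow_le_one₀ (by positivity) (pow_le_one₀ (norm_nonneg _) hτ))
  have pw : ∀ (z : ℂ) (k : ℕ), ‖z‖ ≤ M → k ≤ D0 → ‖z ^ k‖ ≤ M ^ D0 := fun z k hz hk => by
    rw [norm_pow]
    exact (pow_le_pow_left₀ (norm_nonneg _) hz k).trans (pow_le_pow_right₀ hM1 hk)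
  have df : ∀ (A B : ℂ) (k : ℕ), ‖A‖ ≤ M → ‖B‖ ≤ M → k ≤ D0 → ‖A - B‖ ≤ C0 * ‖τ‖ ^ T →
      ‖A ^ k - B ^ k‖ ≤ D0 * M ^ D0 * (|C0| * ‖τ‖ ^ T) := fun A B k hA hB hk h => by
    refine (dst3b_pow hM1 hA hB k).trans ?_
    refine mul_le_mul ?_ (h.trans hc) (norm_nonneg _) (by positivity)
    exact mul_le_mul (by exact_mod_cast hk) (pow_le_pow_right₀ hM1 hk) (by positivity)
      (by positivity)
  have t1 : ‖((z1 * τ ^ b) ^ i - B1 ^ i) * (z2 * τ ^ a) ^ j‖ ≤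
      D0 * M ^ D0 * (|C0| * ‖τ‖ ^ T) * M ^ D0 := by
    rw [norm_mul]
    exact mul_le_mul (df _ _ i a1 b1' hi h1) (pw _ j a2 hj) (norm_nonneg _) (by positivity)
  have t2 : ‖B1 ^ i * ((z2 * τ ^ a) ^ j - B2 ^ j)‖ ≤
      M ^ D0 * (D0 * M ^ D0 * (|C0| * ‖τ‖ ^ T)) := by
    rw [norm_mul]
    exact mul_le_mul (pw _ i b1' hi) (df _ _ j a2 b2' hj h2) (norm_nonneg _) (by positivity)
  rw [e, norm_mul]
  refine (mul_le_of_le_one_left (norm_nonneg _) u).trans ?_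
  refine (norm_add_le _ _).trans ((add_le_add t1 t2).trans (le_of_eq ?_))
  ring

theorem ta2 {F : Type} [Field F] [NumberField F] (φ : F →+* ℂ) (π1 π2 : F[X]) (a b T D0 N0 : ℕ)
    (hD0 : 0 < D0) (hN0 : N0 ≤ T) (C0 : ℝ) : ∃ c : ℝ, 1 ≤ c ∧ ∀ D D2 N N1 : ℕ, D0 ≤ D → D2 ≤ D →
      2 * Module.finrank ℚ F * N0 * N * N1 ≤ (D + 1) * (D2 + 1) * (D0 + 1) ^ 2 →
      ∃ P : Fin (D0 + 1) × Fin (D0 + 1) → ℤ[X][X], P ≠ 0 ∧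
        (∀ k, Bd (P k) D D2 ∧ nZ.l2.f (P k) ≤ c ^ D) ∧
        ∀ s z1 z2 t w1 w2 : ℂ, ‖s‖ ≤ 1 → ‖t‖ ≤ 1 → z1 * s ^ b = (π1.map φ).eval s →
          ‖z2 * s ^ a - (π2.map φ).eval s‖ ≤ 1 → Apx a b T (π1.map φ) (π2.map φ) C0 t w1 w2 →
          ‖s‖ ^ ((a + b) * D) * ‖t‖ ^ ((a + b) * D0) *
              ‖(cmb zc P (mon D0 w1 w2)).evalEval z1 z2‖ ≤
            c ^ D * (‖t‖ ^ N0 + ‖s‖ ^ N + ‖z2 * s ^ a - (π2.map φ).eval s‖ ^ N1) := by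
  obtain ⟨c1, hc1, H⟩ := ta1 F φ
  obtain ⟨C1, hC1, hmc⟩ := mon_close (π1.map φ) (π2.map φ) a b T D0 C0
  obtain ⟨n, q1, q2, hn, e1, e2⟩ := dst3b_den φ π1 π2
  obtain ⟨ψ, hψ⟩ : ∃ ψ, ψ = φ.comp (algebraMap (𝓞 F) F) := ⟨_, rfl⟩
  have hψl : ∀ x, nC.f (ψ x) ≤ (nO F).f x := fun x => by rw [hψ]; exact (lv_nO φ).le x
  rw [← hψ] at H e1 e2
  obtain ⟨h, hh⟩ : ∃ h, h = (nO F).l1.f q1 + (nO F).l1.f q2 + n := ⟨_, rfl⟩
  have n1 := (nO F).l1.nonneg q1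
  have n2 := (nO F).l1.nonneg q2
  have n3 : (1 : ℝ) ≤ n := by exact_mod_cast hn
  have h1 : 1 ≤ h := by linarith
  have hq1 : (nO F).l1.f q1 ≤ h := by linarith
  have hq2 : (nO F).l1.f q2 ≤ h := by linarith
  have hnx : ∀ k, (nO F).l1.f ((n : (𝓞 F)[X]) * X ^ k) ≤ h := fun k => by
    have := dst3b_nx (nO F) n k
    linarith
  obtain ⟨E, hE⟩ : ∃ E : ℝ, E = n ^ D0 * n ^ D0 * C1 + 1 := ⟨_, rfl⟩
  have hE0 : (0 : ℝ) ≤ n ^ D0 * n ^ D0 * C1 := by positivity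
  have hE1 : 1 ≤ E := by linarith
  have hc : 1 ≤ 2 * c1 * 16 ^ 2 * h ^ 8 * E := by
    refine one_le_mul_of_one_le_of_one_le (one_le_mul_of_one_le_of_one_le
      (one_le_mul_of_one_le_of_one_le (by linarith) (by norm_num)) (one_le_pow₀ h1)) hE1
  refine ⟨_, hc, ?_⟩
  intro D D2 N N1 hD hD2 hcnt
  have hD1 : D ≠ 0 := by omega
  have hcard : Fintype.card ((Fin (D0 + 1) × Fin (D0 + 1)) × (Fin (D + 1) × Fin (D2 + 1))) =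
      (D + 1) * (D2 + 1) * (D0 + 1) ^ 2 := by
    simp only [Fintype.card_prod, Fintype.card_fin]; ring
  obtain ⟨Ξ, hΞ⟩ : ∃ Ξ : (Fin (D0 + 1) × Fin (D0 + 1)) × (Fin (D + 1) × Fin (D2 + 1)) →
      (𝓞 F)[X][X], ∀ k, Ξ k = C (q1 ^ (k.2.1 : ℕ) * ((n : (𝓞 F)[X]) * X ^ b) ^ (D - k.2.1)) *
        ((C q2 + (n : (𝓞 F)[X][X]) * X ^ 1) ^ (k.2.2 : ℕ) *
          C ((n : (𝓞 F)[X]) * X ^ a) ^ (D - k.2.2)) := ⟨_, fun _ => rfl⟩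
  obtain ⟨m, hm⟩ : ∃ m : (Fin (D0 + 1) × Fin (D0 + 1)) × (Fin (D + 1) × Fin (D2 + 1)) →
      (𝓞 F)[X], ∀ k, m k = q1 ^ (k.1.1 : ℕ) * ((n : (𝓞 F)[X]) * X ^ b) ^ (D0 - k.1.1) *
        (q2 ^ (k.1.2 : ℕ) * ((n : (𝓞 F)[X]) * X ^ a) ^ (D0 - k.1.2)) := ⟨_, fun _ => rfl⟩
  have hD' : 1 ≤ h ^ D := one_le_pow₀ h1
  have hD0' : 1 ≤ h ^ D0 := one_le_pow₀ h1
  have bΞ : ∀ k, (nO F).l2.f (Ξ k) ≤ h ^ D * h ^ D := fun k => by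
    rw [hΞ]
    refine ((nO F).l2.mul _ _).trans (mul_le_mul ?_ ?_ ((nO F).l2.nonneg _) (by positivity))
    · rw [(nO F).l1.l1_C]
      exact dst3b_pp _ hq1 (hnx b) (Nat.lt_succ_iff.1 k.2.1.2)
    · refine dst3b_pp _ ?_ ?_ ((Nat.lt_succ_iff.1 k.2.2.2).trans hD2)
      · refine ((nO F).l2.add _ _).trans ?_
        rw [(nO F).l1.l1_C]
        have := dst3b_nx (nO F).l1 n 1
        linarith
      · rw [(nO F).l1.l1_C]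
        exact hnx a
  have bm : ∀ k, (nO F).l1.f (m k) ≤ h ^ D0 * h ^ D0 := fun k => by
    rw [hm]
    exact ((nO F).l1.mul _ _).trans (mul_le_mul
      (dst3b_pp _ hq1 (hnx b) (Nat.lt_succ_iff.1 k.1.1.2))
      (dst3b_pp _ hq2 (hnx a) (Nat.lt_succ_iff.1 k.1.2.2)) ((nO F).l1.nonneg _) (by positivity))
  have hH1 : 1 ≤ h ^ D * h ^ D := one_le_mul_of_one_le_of_one_le hD' hD'
  have hH2 : 1 ≤ h ^ D0 * h ^ D0 := one_le_mul_of_one_le_of_one_le hD0' hD0'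
  obtain ⟨ξ, hξ0, hξ, hmain⟩ := H Ξ m _ _ N0 N N1 hH1 hH2 bΞ bm (by rw [hcard]; positivity)
    (by rw [hcard]; exact hcnt)
  have hK := dst3b_card hD hD2
  have hK1 : (((D + 1) * (D2 + 1) : ℕ) : ℝ) ≤ ((D + 1) * (D2 + 1) * (D0 + 1) ^ 2 : ℕ) := by
    exact_mod_cast Nat.le_mul_of_pos_right _ (by positivity)
  rw [← hcard] at hK hK1
  obtain ⟨K, hKe⟩ : ∃ K : ℝ, K = Fintype.card
    ((Fin (D0 + 1) × Fin (D0 + 1)) × (Fin (D + 1) × Fin (D2 + 1))) := ⟨_, rfl⟩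
  have hK0 : 0 ≤ K := by rw [hKe]; positivity
  rw [← hKe] at hK hK1 hξ hmain
  obtain ⟨G, hG⟩ : ∃ G, G = h ^ D * h ^ D * (h ^ D0 * h ^ D0) := ⟨_, rfl⟩
  rw [← hG] at hξ hmain
  have hG1 : 1 ≤ G := hG ▸ one_le_mul_of_one_le_of_one_le hH1 hH2
  have hG2 : h ^ D * h ^ D ≤ G := hG ▸ le_mul_of_one_le_right (by positivity) hH2
  have hG3 : G ≤ (h ^ D) ^ 4 := by
    have := pow_le_pow_right₀ h1 hD
    rw [hG, show (h ^ D) ^ 4 = h ^ D * h ^ D * (h ^ D * h ^ D) by ring]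
    gcongr
  have hX : 2 * (c1 * K ^ 2 * G ^ 2 * E) ≤ (2 * c1 * 16 ^ 2 * h ^ 8 * E) ^ D := by
    have e : (2 * c1 * 16 ^ 2 * h ^ 8 * E) ^ D =
        2 ^ D * (c1 ^ D * (16 ^ D) ^ 2 * ((h ^ D) ^ 4) ^ 2 * E ^ D) := by
      simp only [mul_pow, ← pow_mul]
      ring
    rw [e]
    have i1 : (2 : ℝ) ≤ 2 ^ D := le_self_pow₀ (by norm_num) hD1
    have i2 : c1 ≤ c1 ^ D := le_self_pow₀ hc1 hD1
    have i3 : E ≤ E ^ D := le_self_pow₀ hE1 hD1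
    gcongr
  generalize (2 * c1 * 16 ^ 2 * h ^ 8 * E) ^ D = cD at hX ⊢
  have hY0 : 0 ≤ c1 * K ^ 2 * G ^ 2 := by positivity
  have hY1 : c1 * K ^ 2 * G ^ 2 ≤ c1 * K ^ 2 * G ^ 2 * E := le_mul_of_one_le_right hY0 hE1
  refine ⟨fun k => dst3b_P fun l => ξ (k, l), ?_, fun k => ⟨dst3b_bd _, ?_⟩, ?_⟩
  · intro h0
    refine hξ0 (funext fun k => ?_)
    have := dst3b_coeff (fun l => ξ (k.1, l)) k.2
    rw [show dst3b_P (fun l => ξ (k.1, l)) = 0 from congrFun h0 k.1] at this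
    simpa using this.symm
  · refine (dst3b_l2 _ fun l => hξ (k, l)).trans ?_
    have i1 : (((D + 1) * (D2 + 1) : ℕ) : ℝ) * (c1 * K * G) ≤ K * (c1 * K * (G * G)) := by
      have : G ≤ G * G := le_mul_of_one_le_right (by linarith) hG1
      gcongr
    have e : K * (c1 * K * (G * G)) = c1 * K ^ 2 * G ^ 2 := by ring
    linarith
  intro s z1 z2 t w1 w2 hs ht hz1 hw hA
  obtain ⟨w, hwe⟩ : ∃ w, w = z2 * s ^ a - (π2.map φ).eval s := ⟨_, rfl⟩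
  rw [← hwe] at hw ⊢
  have hm1 := hmain s w t hs hw ht
  have vΞ : ∀ k, ev2 ψ s w (Ξ k) =
      (n : ℂ) ^ D * n ^ D * s ^ ((a + b) * D) * (z1 ^ (k.2.1 : ℕ) * z2 ^ (k.2.2 : ℕ)) := fun k => by
    have f1 : (n : ℂ) * (π2.map φ).eval s + n * w = n * s ^ a * z2 := by rw [hwe]; ring
    have f2 : (n : ℂ) * (π1.map φ).eval s = n * s ^ b * z1 := by rw [← hz1]; ring
    have g1 : ((n : ℂ) * s ^ b) ^ D = (n * s ^ b) ^ (k.2.1 : ℕ) * (n * s ^ b) ^ (D - k.2.1) := by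
      rw [← pow_add, Nat.add_sub_cancel' (Nat.lt_succ_iff.1 k.2.1.2)]
    have g2 : ((n : ℂ) * s ^ a) ^ D = (n * s ^ a) ^ (k.2.2 : ℕ) * (n * s ^ a) ^ (D - k.2.2) := by
      rw [← pow_add, Nat.add_sub_cancel' ((Nat.lt_succ_iff.1 k.2.2.2).trans hD2)]
    have g3 : (n : ℂ) ^ D * n ^ D * s ^ ((a + b) * D) = (n * s ^ b) ^ D * (n * s ^ a) ^ D := by
      rw [pow_mul, pow_add, mul_pow, mul_pow, mul_pow]; ring
    rw [hΞ, g3, g1, g2]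
    simp only [map_mul, map_pow, map_add, map_natCast, coe_eval₂RingHom, eval₂_C, eval₂_X,
      e1, e2, pow_one]
    rw [f1, f2, mul_pow _ z1, mul_pow _ z2]
    ring
  have bv : ∀ k, ‖ev2 ψ s w (Ξ k)‖ ≤ G := fun k => by
    obtain ⟨D', hb⟩ := exists_bd (Ξ k)
    have := (nO F).ev2_le nC ψ hψl (x := s) (y := w) le_rfl hs hw hb
    rw [one_pow, mul_one] at this
    exact this.trans ((bΞ k).trans hG2)
  have vm : ∀ k, ‖(n : ℂ) ^ D0 * n ^ D0 * t ^ ((a + b) * D0) * mon D0 w1 w2 k.1 - (m k).eval₂ ψ t‖ ≤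
      E * ‖t‖ ^ N0 := fun k => by
    have := hmc t w1 w2 ht hA _ (Nat.lt_succ_iff.1 k.1.1.2) _ (Nat.lt_succ_iff.1 k.1.2.2)
    have g1 : (n : ℂ) ^ D0 = n ^ (k.1.1 : ℕ) * n ^ (D0 - k.1.1) := by
      rw [← pow_add, Nat.add_sub_cancel' (Nat.lt_succ_iff.1 k.1.1.2)]
    have g2 : (n : ℂ) ^ D0 = n ^ (k.1.2 : ℕ) * n ^ (D0 - k.1.2) := by
      rw [← pow_add, Nat.add_sub_cancel' (Nat.lt_succ_iff.1 k.1.2.2)]
    have e : (m k).eval₂ ψ t = (n : ℂ) ^ D0 * n ^ D0 *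
        ((π1.map φ).eval t ^ (k.1.1 : ℕ) * (t ^ b) ^ (D0 - k.1.1) *
          ((π2.map φ).eval t ^ (k.1.2 : ℕ) * (t ^ a) ^ (D0 - k.1.2))) := by
      rw [hm]
      simp only [eval₂_mul, eval₂_pow, eval₂_natCast, eval₂_X, e1, e2]
      nth_rewrite 2 [g2]
      nth_rewrite 1 [g1]
      simp only [mul_pow]
      ring
    rw [e, mon, mul_assoc, ← mul_sub, norm_mul, norm_mul, norm_pow, Complex.norm_natCast]
    have i1 : ‖t‖ ^ T ≤ ‖t‖ ^ N0 := pow_le_pow_of_le_one (norm_nonneg _) ht hN0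
    calc _ ≤ (n : ℝ) ^ D0 * n ^ D0 * (C1 * ‖t‖ ^ T) := by gcongr
      _ = n ^ D0 * n ^ D0 * C1 * ‖t‖ ^ T := by ring
      _ ≤ E * ‖t‖ ^ N0 := by gcongr; linarith
  have key : ((n : ℂ) ^ D * n ^ D * s ^ ((a + b) * D)) * ((n : ℂ) ^ D0 * n ^ D0 * t ^ ((a + b) * D0)) *
      (cmb zc (fun k => dst3b_P fun l => ξ (k, l)) (mon D0 w1 w2)).evalEval z1 z2 =
      ∑ k, (ξ k : ℂ) * ev2 ψ s w (Ξ k) * (m k).eval₂ ψ t +
      ∑ k, (ξ k : ℂ) * ev2 ψ s w (Ξ k) *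
        ((n : ℂ) ^ D0 * n ^ D0 * t ^ ((a + b) * D0) * mon D0 w1 w2 k.1 - (m k).eval₂ ψ t) := by
    rw [← Finset.sum_add_distrib, Fintype.sum_prod_type, cmb, evalEval_finsetSum, Finset.mul_sum]
    refine Finset.sum_congr rfl fun k _ => ?_
    rw [evalEval_mul, evalEval_CC, dst3b_ev, Finset.mul_sum, Finset.mul_sum]
    refine Finset.sum_congr rfl fun l _ => ?_
    rw [vΞ]
    ring
  have hm2 : ‖∑ k, (ξ k : ℂ) * ev2 ψ s w (Ξ k) *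
        ((n : ℂ) ^ D0 * n ^ D0 * t ^ ((a + b) * D0) * mon D0 w1 w2 k.1 - (m k).eval₂ ψ t)‖ ≤
      K * (c1 * K * G * G * (E * ‖t‖ ^ N0)) := by
    refine (norm_sum_le _ _).trans ((Finset.sum_le_card_nsmul _ _ _ fun k _ => ?_).trans
      (le_of_eq (by rw [nsmul_eq_mul, Finset.card_univ, ← hKe])))
    rw [norm_mul, norm_mul, Complex.norm_intCast]
    exact mul_le_mul (mul_le_mul (hξ k) (bv k) (norm_nonneg _) (by positivity)) (vm k)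
      (norm_nonneg _) (by positivity)
  have hk := congrArg norm key
  simp only [norm_mul, norm_pow, Complex.norm_natCast] at hk
  have hS := (norm_add_le _ _).trans (add_le_add hm1 hm2)
  rw [← hk] at hS
  have hV := norm_nonneg ((cmb zc (fun k => dst3b_P fun l => ξ (k, l)) (mon D0 w1 w2)).evalEval z1 z2)
  generalize ‖(cmb zc (fun k => dst3b_P fun l => ξ (k, l)) (mon D0 w1 w2)).evalEval z1 z2‖ = V
    at hS hV ⊢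
  have p1 : 0 ≤ ‖t‖ ^ N0 := by positivity
  have p2 : 0 ≤ ‖s‖ ^ N := by positivity
  have p3 : 0 ≤ ‖w‖ ^ N1 := by positivity
  have u1 : (1 : ℝ) ≤ n ^ D * n ^ D :=
    one_le_mul_of_one_le_of_one_le (one_le_pow₀ n3) (one_le_pow₀ n3)
  have u2 : (1 : ℝ) ≤ n ^ D0 * n ^ D0 :=
    one_le_mul_of_one_le_of_one_le (one_le_pow₀ n3) (one_le_pow₀ n3)
  have j1 : ‖s‖ ^ ((a + b) * D) * ‖t‖ ^ ((a + b) * D0) * V ≤
      (n : ℝ) ^ D * n ^ D * ‖s‖ ^ ((a + b) * D) * (n ^ D0 * n ^ D0 * ‖t‖ ^ ((a + b) * D0)) * V :=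
    mul_le_mul_of_nonneg_right (mul_le_mul (le_mul_of_one_le_left (by positivity) u1)
      (le_mul_of_one_le_left (by positivity) u2) (by positivity) (by positivity)) hV
  have j2 : K * (c1 * K * G * G * (E * ‖t‖ ^ N0)) ≤
      c1 * K ^ 2 * G ^ 2 * E * (‖t‖ ^ N0 + ‖s‖ ^ N + ‖w‖ ^ N1) := by
    rw [show K * (c1 * K * G * G * (E * ‖t‖ ^ N0)) = c1 * K ^ 2 * G ^ 2 * E * ‖t‖ ^ N0 by ring]
    exact mul_le_mul_of_nonneg_left (by linarith) (by linarith)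
  have j3 := mul_le_mul_of_nonneg_right hY1 (add_nonneg (add_nonneg p1 p2) p3)
  have j4 := mul_le_mul_of_nonneg_right hX (add_nonneg (add_nonneg p1 p2) p3)
  linarith

end Pool.Agent.P.MP_68214b_ag.DS
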