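import Pool.Agent.P.MP_68214b_ag.DSN6

open Polynomial Filter Asymptotics NumberField Topology

namespace Pool.Agent.P.MP_68214b_ag.DS

noncomputable section

/-- numbers whose denominator divides a power of M -/
def RN (K : Type*) [Field K] (M : ℕ+) : Subring K where
  carrier := {a | ∃ k : ℕ, IsIntegral ℤ (((M : ℕ) : K) ^ k * a)}
  zero_mem' := ⟨0, by rw [mul_zero]; exact isIntegral_zero⟩
  one_mem' := ⟨0, by rw [pow_zero, mul_one]; exact isIntegral_one⟩
  neg_mem' := fun ⟨k, h⟩ => ⟨k, by rw [mul_neg]; exact h.neg⟩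
  add_mem' := fun ⟨k, h⟩ ⟨l, g⟩ => ⟨max k l, by
    rw [mul_add]
    exact (rn_mono (isIntegral_natCast _) h (le_max_left _ _)).add
      (rn_mono (isIntegral_natCast _) g (le_max_right _ _))⟩
  mul_mem' := fun ⟨k, h⟩ ⟨l, g⟩ => ⟨k + l, by rw [pow_add, mul_mul_mul_comm]; exact h.mul g⟩

section
variable {K : Type*} [Field K] {M : ℕ+}

/-- the exponent of the denominator -/
def kd (a : RN K M) : ℕ := sInf {k | IsIntegral ℤ (((M : ℕ) : K) ^ k * (a : K))}

theorem kd_int (a : RN K M) : IsIntegral ℤ (((M : ℕ) : K) ^ kd a * (a : K)) := Nat.sInf_mem a.2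

theorem kd_le {a : RN K M} {k : ℕ} (h : IsIntegral ℤ (((M : ℕ) : K) ^ k * (a : K))) : kd a ≤ k :=
  Nat.sInf_le h

variable [NumberField K]

open Classical in
/-- size of a number with its denominator -/
def fR (a : RN K M) : ℝ := if a = 0 then 0 else max (house (a : K)) (((M : ℕ) : ℝ) ^ kd a)

theorem fR_zero : fR (0 : RN K M) = 0 := if_pos rfl

theorem house_le_fR (a : RN K M) : house (a : K) ≤ fR a := by
  unfold fR
  split_ifs with h
  · simp [h, house]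
  · exact le_max_left _ _

theorem fR_nonneg (a : RN K M) : 0 ≤ fR a := (house_nonneg _).trans (house_le_fR a)

theorem pow_le_fR {a : RN K M} (h : a ≠ 0) : ((M : ℕ) : ℝ) ^ kd a ≤ fR a := by
  unfold fR
  rw [if_neg h]
  exact le_max_right _ _

theorem fR_le {a : RN K M} {k : ℕ} {B : ℝ} (h : IsIntegral ℤ (((M : ℕ) : K) ^ k * (a : K)))
    (h1 : house (a : K) ≤ B) (h2 : ((M : ℕ) : ℝ) ^ k ≤ B) : fR a ≤ B := by
  unfold fR
  split_ifs
  · exact (house_nonneg _).trans h1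
  · exact max_le h1 ((pow_le_pow_right₀ (Nat.one_le_cast.2 M.pos) (kd_le h)).trans h2)

theorem fR_neg (a : RN K M) : fR (-a) ≤ fR a := by
  by_cases h : a = 0
  · rw [h, neg_zero]
  · refine fR_le (k := kd a) ?_ ?_ (pow_le_fR h)
    · rw [Subring.coe_neg, mul_neg]
      exact (kd_int a).neg
    · simpa [house] using house_le_fR a

end

/-- the seminorm house or denominator -/
def nR (K : Type*) [Field K] [NumberField K] (M : ℕ+) : Sn (RN K M) where
  f := fR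
  zero := fR_zero
  one := fR_le (k := 0) (by simpa using isIntegral_one) (by simp [house]) (by simp)
  neg a := le_antisymm (fR_neg a) (by simpa using fR_neg (-a))
  add a b := by
    by_cases ha : a = 0
    · rw [ha, zero_add, fR_zero, zero_add]
    by_cases hb : b = 0
    · rw [hb, add_zero, fR_zero, add_zero]
    refine fR_le (k := max (kd a) (kd b)) ?_
      ((house_add_le _ _).trans (add_le_add (house_le_fR a) (house_le_fR b))) ?_
    · rw [Subring.coe_add, mul_add]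
      exact (rn_mono (isIntegral_natCast _) (kd_int a) (le_max_left _ _)).add
        (rn_mono (isIntegral_natCast _) (kd_int b) (le_max_right _ _))
    · rcases max_choice (kd a) (kd b) with e | e <;> rw [e]
      · exact (pow_le_fR ha).trans (le_add_of_nonneg_right (fR_nonneg _))
      · exact (pow_le_fR hb).trans (le_add_of_nonneg_left (fR_nonneg _))
  mul a b := by
    by_cases ha : a = 0
    · rw [ha, zero_mul, fR_zero, zero_mul]
    by_cases hb : b = 0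
    · rw [hb, mul_zero, fR_zero, mul_zero]
    refine fR_le (k := kd a + kd b) ?_ ((house_mul_le _ _).trans
      (mul_le_mul (house_le_fR a) (house_le_fR b) (house_nonneg _) (fR_nonneg _))) ?_
    · rw [Subring.coe_mul, pow_add, mul_mul_mul_comm]
      exact (kd_int a).mul (kd_int b)
    · rw [pow_add]
      exact mul_le_mul (pow_le_fR ha) (pow_le_fR hb) (by positivity) (fR_nonneg _)

section
variable {K : Type} [Field K] [NumberField K] {M : ℕ+}

theorem lv_nR (σ : K →+* ℂ) :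
    LV (nR K M) (σ.comp (RN K M).subtype) (3 * Module.finrank ℚ K) :=
  ⟨fun a => (norm_embedding_le_house (a : K) σ).trans (house_le_fR a), fun a h =>
    liouD (t := (M : ℕ) ^ kd a) (pow_pos M.pos _) (by rw [Nat.cast_pow]; exact kd_int a)
      (fun e => h (Subtype.ext e)) σ (by rw [Nat.cast_pow]; exact pow_le_fR h) (house_le_fR a)⟩

theorem exists_den3 (G : K[X][X]) : ∃ (N : ℕ) (G' : (RN K M)[X][X]), 0 < N ∧
    map2 (RN K M).subtype G' = (N : K[X][X]) * G := by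
  obtain ⟨N, G', hN, e⟩ := exists_den2 G
  refine ⟨N, map2 ((algebraMap (𝓞 K) K).codRestrict (RN K M) fun a =>
    ⟨0, by rw [pow_zero, one_mul]; exact a.isIntegral_coe⟩) G', hN, ?_⟩
  rw [map2_map2, ← e]
  rfl

theorem poly_kd {g : (RN K M)[X]} (hg : g ≠ 0) : ∃ k : ℕ, ((M : ℕ) : ℝ) ^ k ≤ (nR K M).l1.f g ∧
    ∀ i, IsIntegral ℤ (((M : ℕ) : K) ^ k * (g.coeff i : K)) := by
  obtain ⟨j, hj, h⟩ := g.support.exists_max_image (fun i => kd (g.coeff i)) (support_nonempty.2 hg)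
  refine ⟨kd (g.coeff j), (pow_le_fR (mem_support_iff.1 hj)).trans ((nR K M).coeff_le g j),
    fun i => ?_⟩
  by_cases hi : i ∈ g.support
  · exact rn_mono (isIntegral_natCast _) (kd_int _) (h i hi)
  · rw [notMem_support_iff.1 hi, Subring.coe_zero, mul_zero]
    exact isIntegral_zero

theorem Gr.mem {d N : ℕ} {Λ : ℝ} {x : ℕ → K} (h : Gr d N Λ x) (hN : 0 < N) (m : ℕ) :
    x m ∈ RN K ⟨N, hN⟩ := ⟨_, (h m).1⟩

theorem Gr.nR {d N : ℕ} {Λ : ℝ} {x : ℕ → K} (h : Gr d N Λ x) (hN : 0 < N) (hΛ : (N : ℝ) ≤ Λ)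
    (m : ℕ) : (nR K ⟨N, hN⟩).f ⟨x m, h.mem hN m⟩ ≤ Λ ^ d ^ m :=
  fR_le (k := d ^ m) (h m).1 (h m).2 (pow_le_pow_left₀ (Nat.cast_nonneg N) hΛ _)

end

/-- data of the Thue-Siegel argument -/
structure TS (K F : Type) [Field K] [NumberField K] [Field F] [NumberField F] [Algebra K F] where
  φ : F →+* ℂ
  β : F
  a : ℕ
  b : ℕ
  d : ℕ
  T : ℕ
  τ : ℂ
  Λ : ℝ
  C0 : ℝ
  M : ℕ+
  y1 : ℕ → RN K M
  y2 : ℕ → RN K M
  π1 : F[X]
  π2 : F[X]
  𝓕 : Filter ℕ
  N : ℕ
  hN : 0 < N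
  hb : 0 < b
  hd : 2 ≤ d
  T1 : 1 ≤ T
  τ0 : τ ≠ 0
  τ1 : ‖τ‖ < 1
  Λ1 : 1 ≤ Λ
  C1 : 1 ≤ C0
  hy1 : ∀ m, (nR K M).f (y1 m) ≤ Λ ^ d ^ m
  hy2 : ∀ m, (nR K M).f (y2 m) ≤ Λ ^ d ^ m
  p1 : π1.coeff 0 = (N : F) ^ b
  p2 : π2.coeff 0 = (N : F) ^ a * β
  ne : 𝓕.NeBot
  le : 𝓕 ≤ atTop
  apx : ∀ᶠ m in 𝓕, Apx a b T (π1.map φ) (π2.map φ) C0 (τ ^ d ^ m)
    (φ (algebraMap K F (y1 m))) (φ (algebraMap K F (y2 m)))

namespace TS
variable {K F : Type} [Field K] [NumberField K] [Field F] [NumberField F] [Algebra K F]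
  (S : TS K F)

/-- the place of K -/
def σ : K →+* ℂ := S.φ.comp (algebraMap K F)

/-- the place on the ring of the points -/
def σO : RN K S.M →+* ℂ := S.σ.comp (RN K S.M).subtype

/-- degree of β over K -/
def deg : ℕ := (minpoly K S.β).natDegree

/-- the combination at the second point -/
def Q {D0 : ℕ} (P : Fin (D0 + 1) × Fin (D0 + 1) → ℤ[X][X]) (m : ℕ) : ℂ[X][X] :=
  cmb zc P (mon D0 (S.σO (S.y1 m)) (S.σO (S.y2 m)))

/-- choice of the parameters -/
structure Par (L Th D0 : ℕ) : Prop where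
  Th1 : 1 ≤ Th
  hTh : S.Λ ^ (4 * (3 * Module.finrank ℚ K)) * ‖S.τ‖ ^ (Th - 1) ≤ 1 / 2
  hD0 : 16 * Module.finrank ℚ K * (L + 1) * (Th + 2 * (S.a + S.b)) ^ 3 ≤ D0
  hT : (Th + 2 * (S.a + S.b)) * D0 + 2 ≤ S.T
  hF : Module.finrank ℚ F ≤ Module.finrank ℚ K * S.deg
  hL : S.deg ≤ L * S.T

end TS

end

end Pool.Agent.P.MP_68214b_ag.DS
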