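import Pool.Agent.P.MP_68214b_ag.DSDef

open Polynomial Filter Asymptotics NumberField Topology

namespace Pool.Agent.P.MP_68214b_ag.DS

theorem dsx1_low {J : Type*} [Fintype J] (u : J → ℂ) (hu : ∀ i, 1 < ‖u i‖) {lam : ℝ}
    (hl : 0 < lam) : ∃ M : ℕ, ∀ (D : ℕ) (m : J → ℤ), (∀ i, m i ≤ D) →
      lam ^ D ≤ ‖∏ i, u i ^ m i‖ → ∀ i, -((M : ℤ) * D) ≤ m i := by
  classical
  set P : ℝ := ∏ j, ‖u j‖ with hP
  have hP0 : 0 < P := Finset.prod_pos fun j _ => lt_trans one_pos (hu j)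
  have h1 : ∀ i, ∃ M : ℕ, P / lam ≤ ‖u i‖ ^ M := fun i => by
    obtain ⟨n, hn⟩ := pow_unbounded_of_one_lt (P / lam) (hu i)
    exact ⟨n, hn.le⟩
  choose M hM using h1
  refine ⟨∑ i, M i, fun D m hm hle i => ?_⟩
  have hMi : M i ≤ ∑ i, M i := Finset.single_le_sum (f := M) (fun _ _ => Nat.zero_le _)
    (Finset.mem_univ i)
  have hui : 0 < ‖u i‖ := lt_trans one_pos (hu i)
  have h2 : ‖∏ j, u j ^ m j‖ ≤ ‖u i‖ ^ m i * P ^ D := by
    rw [norm_prod, ← Finset.mul_prod_erase _ _ (Finset.mem_univ i), norm_zpow]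
    refine mul_le_mul_of_nonneg_left ?_ (zpow_nonneg hui.le _)
    calc ∏ j ∈ Finset.univ.erase i, ‖u j ^ m j‖ ≤ ∏ j ∈ Finset.univ.erase i, ‖u j‖ ^ D := by
          refine Finset.prod_le_prod (fun j _ => norm_nonneg _) fun j _ => ?_
          rw [norm_zpow, ← zpow_natCast]
          exact zpow_le_zpow_right₀ (hu j).le (hm j)
      _ ≤ ∏ j, ‖u j‖ ^ D := by
          rw [← Finset.mul_prod_erase _ _ (Finset.mem_univ i)]
          refine le_mul_of_one_le_left (Finset.prod_nonneg fun j _ => by positivity) ?_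
          exact one_le_pow₀ (hu i).le
      _ = P ^ D := by rw [hP, Finset.prod_pow]
  have h3 : (P / lam) ^ D ≤ (‖u i‖ ^ (∑ i, M i)) ^ D :=
    pow_le_pow_left₀ (by positivity) ((hM i).trans (pow_le_pow_right₀ (hu i).le hMi)) D
  have h4 : 1 ≤ ‖u i‖ ^ m i * (P / lam) ^ D := by
    rw [div_pow, ← mul_div_assoc, le_div_iff₀ (by positivity), one_mul]
    exact hle.trans h2
  have h5 : 1 ≤ ‖u i‖ ^ (m i + ((∑ i, M i : ℕ) : ℤ) * D) := by
    rw [zpow_add₀ hui.ne', ← Nat.cast_mul, zpow_natCast, pow_mul]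
    exact h4.trans (mul_le_mul_of_nonneg_left h3 (zpow_nonneg hui.le _))
  have h6 : 0 ≤ m i + ((∑ i, M i : ℕ) : ℤ) * D := (one_le_zpow_iff_right₀ (hu i)).1 h5
  linarith

theorem dsx1_pos {J : Type*} [Fintype J] (u : J → ℂ) (hu : ∀ i, 1 < ‖u i‖) (μ : J → ℤ) (i0 : J)
    (hμ : 0 < μ i0) (h : ∏ i, u i ^ μ i = 1) {lam : ℝ} (hl : 0 < lam) :
    ∃ (D : ℕ) (V : Finset ℂ), 0 < D ∧ V.card < (D + 1) ^ Fintype.card J ∧
      ∀ m : J → ℤ, (∀ i, m i ≤ D) → lam ^ D ≤ ‖∏ i, u i ^ m i‖ → ∏ i, u i ^ m i ∈ V := by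
  classical
  obtain ⟨M, hM⟩ := dsx1_low u hu hl
  obtain ⟨a, ha⟩ := Int.eq_ofNat_of_zero_le hμ.le
  have ha0 : 0 < a := by rw [ha] at hμ; exact_mod_cast hμ
  set B : ℕ := ∑ j, (μ j).natAbs with hB
  set M' : ℕ := (M + 1) * (1 + B) with hM'
  obtain ⟨k, hk⟩ : ∃ k, Fintype.card J = k + 1 :=
    ⟨Fintype.card J - 1, by have : 0 < Fintype.card J := Fintype.card_pos_iff.2 ⟨i0⟩; omega⟩
  set D : ℕ := a * (2 * M' + 1) ^ k with hD
  have hD0 : 0 < D := by positivity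
  let S : J → Finset ℤ := fun i =>
    if i = i0 then Finset.Ico 0 (a : ℤ) else Finset.Icc (-((M' * D : ℕ) : ℤ)) (M' * D : ℕ)
  refine ⟨D, (Fintype.piFinset S).image fun m => ∏ i, u i ^ m i, hD0, ?_, fun m hm hle => ?_⟩
  · refine lt_of_le_of_lt Finset.card_image_le ?_
    rw [Fintype.card_piFinset, ← Finset.mul_prod_erase _ _ (Finset.mem_univ i0)]
    have e1 : (S i0).card = a := by simp [S]
    have e2 : ∏ j ∈ Finset.univ.erase i0, (S j).card = (2 * (M' * D) + 1) ^ k := by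
      rw [Finset.prod_congr rfl (g := fun _ => 2 * (M' * D) + 1), Finset.prod_const,
        Finset.card_erase_of_mem (Finset.mem_univ _), Finset.card_univ, hk, Nat.add_sub_cancel]
      intro j hj
      simp only [S, if_neg (Finset.ne_of_mem_erase hj), Int.card_Icc]
      omega
    rw [e1, e2, hk, pow_succ']
    calc a * (2 * (M' * D) + 1) ^ k ≤ a * ((2 * M' + 1) * (D + 1)) ^ k := by
          gcongr; nlinarith
      _ = D * (D + 1) ^ k := by rw [mul_pow, ← mul_assoc]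
      _ < (D + 1) * (D + 1) ^ k := by gcongr; omega
  · have hlow := hM D m hm hle
    have habs : ∀ i, |m i| ≤ ((M : ℤ) + 1) * D := fun i => by
      have h1 := hlow i
      have h2 := hm i
      have h3 : (0 : ℤ) ≤ (M : ℤ) * D := by positivity
      have h4 : (0 : ℤ) ≤ D := by positivity
      rw [abs_le]; constructor <;> nlinarith
    set t : ℤ := m i0 / a with ht
    have ht1 : |t| ≤ ((M : ℤ) + 1) * D := (Int.abs_ediv_le_abs _ _).trans (habs i0)
    rw [Finset.mem_image]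
    refine ⟨fun i => m i - t * μ i, ?_, ?_⟩
    · rw [Fintype.mem_piFinset]
      intro i
      by_cases hi : i = i0
      · subst hi
        simp only [S, if_true, Finset.mem_Ico]
        have e : m i - t * μ i = m i % a := by rw [ha, ht, Int.emod_def]; ring
        rw [e]
        exact ⟨Int.emod_nonneg _ (by omega), Int.emod_lt_of_pos _ (by omega)⟩
      · simp only [S, if_neg hi, Finset.mem_Icc]
        rw [← abs_le]
        have h1 : |μ i| ≤ (B : ℤ) := by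
          rw [← Int.natCast_natAbs]
          exact_mod_cast Finset.single_le_sum (f := fun j => (μ j).natAbs)
            (fun _ _ => Nat.zero_le _) (Finset.mem_univ i)
        calc |m i - t * μ i| ≤ |m i| + |t| * |μ i| := by
              rw [← abs_mul]; exact abs_sub _ _
          _ ≤ ((M : ℤ) + 1) * D + ((M : ℤ) + 1) * D * B := by
              gcongr; exact habs i
          _ = ((M' * D : ℕ) : ℤ) := by rw [hM']; push_cast; ring
    · have hne : ∀ i, u i ≠ 0 := fun i => norm_pos_iff.1 (lt_trans one_pos (hu i))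
      have e : ∀ i, u i ^ m i = u i ^ (m i - t * μ i) * (u i ^ μ i) ^ t := fun i => by
        rw [← zpow_mul, ← zpow_add₀ (hne i)]; congr 1; ring
      rw [Finset.prod_congr rfl fun i _ => e i, Finset.prod_mul_distrib, Finset.prod_zpow, h,
        one_zpow, mul_one]

theorem cnt_val {J : Type*} [Fintype J] (u : J → ℂ) (hu : ∀ i, 1 < ‖u i‖) (μ : J → ℤ) (hμ : μ ≠ 0)
    (h : ∏ i, u i ^ μ i = 1) {lam : ℝ} (hl : 0 < lam) :
    ∃ (D : ℕ) (V : Finset ℂ), 0 < D ∧ V.card < (D + 1) ^ Fintype.card J ∧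
      ∀ m : J → ℤ, (∀ i, m i ≤ D) → lam ^ D ≤ ‖∏ i, u i ^ m i‖ → ∏ i, u i ^ m i ∈ V := by
  obtain ⟨i0, hi0⟩ := Function.ne_iff.1 hμ
  rcases lt_or_gt_of_ne hi0 with h0 | h0
  · refine dsx1_pos u hu (-μ) i0 (by simpa using h0) ?_ hl
    simp only [Pi.neg_apply, zpow_neg, Finset.prod_inv_distrib, h, inv_one]
  · exact dsx1_pos u hu μ i0 h0 h hl

end Pool.Agent.P.MP_68214b_ag.DS
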