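import Pool.Agent.P.MP_68214b_ag.DSDef

open Polynomial Filter Asymptotics NumberField Topology

namespace Pool.Agent.P.MP_68214b_ag.DS

def dsx2_S {K J : Type*} [Field K] [Fintype J] (u : J → ℂ) (n : J → ℕ) (a : MonoidAlgebra K ℂ) :
    Prop :=
  ∀ v, a.coeff v ≠ 0 → ∃ m : J → ℤ, (∀ i, m i ≤ n i) ∧ v = ∏ i, u i ^ m i

section
variable {K J : Type*} [Field K] [Fintype J] {u : J → ℂ}

theorem dsx2_one : dsx2_S u 0 (1 : MonoidAlgebra K ℂ) := by
  intro v hv
  refine ⟨0, fun i => le_rfl, ?_⟩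
  rw [MonoidAlgebra.one_def, MonoidAlgebra.coeff_single] at hv
  simpa using (Finsupp.single_apply_ne_zero.1 hv).1

theorem dsx2_mul (hu : ∀ i, u i ≠ 0) {n n' : J → ℕ} {a b : MonoidAlgebra K ℂ} (ha : dsx2_S u n a)
    (hb : dsx2_S u n' b) : dsx2_S u (n + n') (a * b) := by
  classical
  intro v hv
  obtain ⟨x, hx, y, hy, rfl⟩ := Finset.mem_mul.1
    (MonoidAlgebra.support_coeff_mul_subset a b (Finsupp.mem_support_iff.2 hv))
  obtain ⟨m, h1, rfl⟩ := ha x (Finsupp.mem_support_iff.1 hx)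
  obtain ⟨m', h2, rfl⟩ := hb y (Finsupp.mem_support_iff.1 hy)
  refine ⟨m + m', fun i => ?_, ?_⟩
  · have := h1 i
    have := h2 i
    simp only [Pi.add_apply, Nat.cast_add]
    omega
  · rw [← Finset.prod_mul_distrib]
    exact Finset.prod_congr rfl fun i _ => (zpow_add₀ (hu i) _ _).symm

theorem dsx2_pow (hu : ∀ i, u i ≠ 0) {n : J → ℕ} {a : MonoidAlgebra K ℂ} (ha : dsx2_S u n a)
    (k : ℕ) : dsx2_S u (k • n) (a ^ k) := by
  induction k with
  | zero => simpa using dsx2_one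
  | succ k ih => rw [pow_succ, succ_nsmul]; exact dsx2_mul hu ih ha

theorem dsx2_prod (hu : ∀ i, u i ≠ 0) {ι : Type*} (s : Finset ι) {n : ι → J → ℕ}
    {a : ι → MonoidAlgebra K ℂ} (ha : ∀ i, dsx2_S u (n i) (a i)) :
    dsx2_S u (∑ i ∈ s, n i) (∏ i ∈ s, a i) := by
  classical
  induction s using Finset.induction_on with
  | empty => simpa using dsx2_one
  | insert i s hi ih => rw [Finset.sum_insert hi, Finset.prod_insert hi]; exact dsx2_mul hu (ha i) ih

end

theorem aux_formal {K J : Type*} [Field K] [Fintype J] (σ : K →+* ℂ) (u : J → ℂ) (hu : ∀ i, u i ≠ 0)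
    (p : J → PowerSeries K) (D T : ℕ) (V : Finset ℂ) {lam : ℝ} (hl : 0 ≤ lam)
    (hc : V.card < (D + 1) ^ Fintype.card J)
    (hV : ∀ m : J → ℤ, (∀ i, m i ≤ D) → lam ≤ ‖∏ i, u i ^ m i‖ → ∏ i, u i ^ m i ∈ V) :
    ∃ (P : MvPolynomial J K) (C : ℝ), P ≠ 0 ∧ P.totalDegree ≤ Fintype.card J * D ∧ ∀ k : ℕ,
      ‖MvPolynomial.eval₂ σ (fun i => u i ^ k *
        (PowerSeries.trunc T (PowerSeries.map σ (p i))).eval (u i ^ k)⁻¹) P‖ ≤ C * lam ^ k := by
  classical
  let ξ : J → MonoidAlgebra K ℂ := fun i =>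
    ∑ j ∈ Finset.range T, MonoidAlgebra.single (u i * (u i)⁻¹ ^ j) (PowerSeries.coeff j (p i))
  have hξ : ∀ i, dsx2_S u (Pi.single i 1) (ξ i) := by
    intro i v hv
    simp only [ξ, MonoidAlgebra.coeff_sum, MonoidAlgebra.coeff_single, Finsupp.finsetSum_apply] at hv
    obtain ⟨j, _, hj⟩ := Finset.exists_ne_zero_of_sum_ne_zero hv
    refine ⟨Pi.single i (1 - j), fun l => ?_, ?_⟩
    · by_cases c : l = i
      · subst c; simp
      · simp [c]
    · rw [(Finsupp.single_apply_ne_zero.1 hj).1, Finset.prod_eq_single i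
        (fun l _ c => by simp [c]) (by simp), Pi.single_eq_same, zpow_sub₀ (hu i), zpow_one,
        zpow_natCast, inv_pow, div_eq_mul_inv]
  let η : (J → Fin (D + 1)) → MonoidAlgebra K ℂ := fun e => ∏ i, ξ i ^ (e i : ℕ)
  have hη : ∀ e v, (η e).coeff v ≠ 0 → ∃ m : J → ℤ, (∀ i, m i ≤ D) ∧ v = ∏ i, u i ^ m i := by
    intro e v hv
    obtain ⟨m, h1, h2⟩ := dsx2_prod hu Finset.univ (fun i => dsx2_pow hu (hξ i) (e i)) v hv
    refine ⟨m, fun i => (h1 i).trans ?_, h2⟩
    have := (e i).2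
    simp [Finset.sum_apply, Pi.single_apply]
    omega
  let L : ((J → Fin (D + 1)) → K) →ₗ[K] (V → K) :=
    { toFun := fun c v => ∑ e, c e * (η e).coeff v
      map_add' := fun a b => by funext v; simp [add_mul, Finset.sum_add_distrib]
      map_smul' := fun a b => by funext v; simp [Finset.mul_sum, mul_assoc] }
  obtain ⟨c, hc1, hc0⟩ := Submodule.exists_mem_ne_zero_of_ne_bot
    (L.ker_ne_bot_of_finrank_lt (by simpa using hc))
  let a : MonoidAlgebra K ℂ := ∑ e, c e • η e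
  have ha : ∀ v, a.coeff v = ∑ e, c e * (η e).coeff v := fun v => by
    simp [a, Finsupp.finsetSum_apply]
  let μ : (J → Fin (D + 1)) → J →₀ ℕ := fun e => Finsupp.equivFunOnFinite.symm fun i => (e i : ℕ)
  have hμ : Function.Injective μ := fun e e' h =>
    funext fun i => Fin.ext (congrFun (Finsupp.equivFunOnFinite.symm.injective h) i)
  refine ⟨∑ e, MvPolynomial.monomial (μ e) (c e), ∑ v ∈ a.coeff.support, ‖σ (a.coeff v)‖,
    fun h => hc0 (funext fun e => ?_), ?_, fun k => ?_⟩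
  · have := congrArg (MvPolynomial.coeff (μ e)) h
    simpa [MvPolynomial.coeff_sum, MvPolynomial.coeff_monomial, hμ.eq_iff] using this
  · refine MvPolynomial.totalDegree_finsetSum_le fun e _ =>
      (MvPolynomial.totalDegree_monomial_le _ _).trans ?_
    rw [Finsupp.sum_fintype _ _ (fun _ => rfl)]
    simpa [μ] using Finset.sum_le_card_nsmul Finset.univ (fun i => (e i : ℕ)) D
      fun i _ => Nat.lt_succ_iff.1 (e i).2
  · let E : MonoidAlgebra K ℂ →+* ℂ :=
      MonoidAlgebra.liftNCRingHom σ (powMonoidHom k) fun _ _ => Commute.all _ _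
    have hE : ∀ v b, E (MonoidAlgebra.single v b) = σ b * v ^ k := fun v b =>
      MonoidAlgebra.liftNCRingHom_single _ _ _ _ _
    have h1 : ∀ i, E (ξ i) = u i ^ k *
        (PowerSeries.trunc T (PowerSeries.map σ (p i))).eval (u i ^ k)⁻¹ := fun i => by
      rw [← Polynomial.eval₂_id, PowerSeries.eval₂_trunc_eq_sum_range, Finset.mul_sum]
      simp only [ξ, map_sum, hE]
      refine Finset.sum_congr rfl fun j _ => ?_
      simp only [PowerSeries.coeff_map, RingHom.id_apply, mul_pow, ← inv_pow, ← pow_mul, mul_comm j k]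
      ring
    have h2 : MvPolynomial.eval₂ σ (fun i => u i ^ k *
        (PowerSeries.trunc T (PowerSeries.map σ (p i))).eval (u i ^ k)⁻¹)
        (∑ e, MvPolynomial.monomial (μ e) (c e)) = E a := by
      rw [MvPolynomial.eval₂_sum]
      simp only [a, map_sum]
      refine Finset.sum_congr rfl fun e _ => ?_
      have e1 : c e • η e = MonoidAlgebra.single 1 (c e) * η e := by
        rw [Algebra.smul_def]; rfl
      rw [MvPolynomial.eval₂_monomial, Finsupp.prod_fintype _ _ (fun _ => pow_zero _), e1, map_mul,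
        hE, one_pow, mul_one]
      simp only [η, map_prod, map_pow, h1]
      rfl
    rw [h2, Finset.sum_mul]
    conv_lhs => rw [← MonoidAlgebra.sum_coeff_single a, Finsupp.sum, map_sum]
    refine (norm_sum_le _ _).trans (Finset.sum_le_sum fun v hv => ?_)
    rw [hE, norm_mul, norm_pow]
    have hv := Finsupp.mem_support_iff.1 hv
    have h3 : v ∉ V := fun h => hv ((ha v).trans (congrFun hc1 ⟨v, h⟩))
    rw [ha] at hv
    obtain ⟨e, _, he⟩ := Finset.exists_ne_zero_of_sum_ne_zero hv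
    obtain ⟨m, h4, rfl⟩ := hη e v (right_ne_zero_of_mul he)
    have h5 := (not_le.1 fun h => h3 (hV m h4 h)).le
    gcongr

end Pool.Agent.P.MP_68214b_ag.DS
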