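import Pool.Agent.P.MP_68214b_ag.DSX1
import Pool.Agent.P.MP_68214b_ag.DSX2
import Pool.Agent.P.MP_68214b_ag.DSB4
import Pool.Agent.P.MP_68214b_ag.DSO2
import Pool.Agent.P.MP_68214b_ag.DSN6

open Polynomial Filter Asymptotics NumberField Topology

namespace Pool.Agent.P.MP_68214b_ag.DS

variable {K : Type} [Field K] [NumberField K]

def dsx3P (𝓕 : Filter ℕ) (B ε : ℕ → ℝ) (k : ℕ) (f g : ℕ → ℂ) : Prop :=
  (f =O[𝓕] fun n => B n ^ k) ∧ (g =O[𝓕] fun n => B n ^ k) ∧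
    (fun n => f n - g n) =O[𝓕] fun n => B n ^ k * ε n

theorem dsx3_mul {𝓕 : Filter ℕ} {B ε : ℕ → ℝ} {k l : ℕ} {f g f' g' : ℕ → ℂ}
    (h : dsx3P 𝓕 B ε k f g) (h' : dsx3P 𝓕 B ε l f' g') :
    dsx3P 𝓕 B ε (k + l) (fun n => f n * f' n) fun n => g n * g' n := by
  refine ⟨by simpa only [pow_add] using h.1.mul h'.1,
    by simpa only [pow_add] using h.2.1.mul h'.2.1, ?_⟩
  refine (((h.1.mul h'.2.2).congr_right fun n => ?_).add
    ((h.2.2.mul h'.2.1).congr_right fun n => ?_)).congr_left fun n => ?_ <;> ring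

theorem dsx3_one (𝓕 : Filter ℕ) (B ε : ℕ → ℝ) : dsx3P 𝓕 B ε 0 (fun _ => 1) fun _ => 1 :=
  ⟨by simpa using isBigO_const_const (1 : ℂ) (one_ne_zero (α := ℝ)) 𝓕,
    by simpa using isBigO_const_const (1 : ℂ) (one_ne_zero (α := ℝ)) 𝓕,
    by simpa using isBigO_zero _ _⟩

theorem dsx3_pow {𝓕 : Filter ℕ} {B ε : ℕ → ℝ} {f g : ℕ → ℂ} (h : dsx3P 𝓕 B ε 1 f g) (k : ℕ) :
    dsx3P 𝓕 B ε k (fun n => f n ^ k) fun n => g n ^ k := by
  induction k with
  | zero => simpa using dsx3_one 𝓕 B ε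
  | succ k ih => simpa only [pow_succ] using dsx3_mul ih h

theorem dsx3_prod {J : Type*} {𝓕 : Filter ℕ} {B ε : ℕ → ℝ} {a b : J → ℕ → ℂ}
    (h : ∀ i, dsx3P 𝓕 B ε 1 (a i) (b i)) (s : Finset J) (e : J → ℕ) :
    dsx3P 𝓕 B ε (∑ i ∈ s, e i) (fun n => ∏ i ∈ s, a i n ^ e i) fun n => ∏ i ∈ s, b i n ^ e i := by
  classical
  induction s using Finset.induction_on with
  | empty => simpa using dsx3_one 𝓕 B ε
  | insert i s hi ih =>
    simpa only [Finset.sum_insert hi, Finset.prod_insert hi] using dsx3_mul (dsx3_pow (h i) _) ih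

theorem mv_diff {L J : Type*} [CommRing L] (σ : L →+* ℂ) (P : MvPolynomial J L) {S : ℕ}
    (hS : P.totalDegree ≤ S) {𝓕 : Filter ℕ} {a b : J → ℕ → ℂ} {B ε : ℕ → ℝ} (hB : ∀ n, 1 ≤ B n)
    (ha : ∀ i, a i =O[𝓕] B) (hb : ∀ i, b i =O[𝓕] B) (hab : ∀ i, (fun n => a i n - b i n) =O[𝓕] ε) :
    (fun n => MvPolynomial.eval₂ σ (fun i => a i n) P - MvPolynomial.eval₂ σ (fun i => b i n) P)
      =O[𝓕] fun n => B n ^ S * ε n := by
  have hm : ∀ k l, k ≤ l → (fun n => B n ^ k * ε n) =O[𝓕] fun n => B n ^ l * ε n := fun k l h =>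
    (IsBigO.of_bound' (.of_forall fun n => by
      rw [norm_pow, norm_pow]
      exact pow_le_pow_right₀ ((hB n).trans (le_abs_self _)) h)).mul (isBigO_refl _ _)
  have h1 : ∀ i, dsx3P 𝓕 B ε 1 (a i) (b i) := fun i =>
    ⟨by simpa using ha i, by simpa using hb i, (hab i).trans (by simpa using hm 0 1 zero_le_one)⟩
  simp only [MvPolynomial.eval₂_eq, ← Finset.sum_sub_distrib, ← mul_sub]
  refine IsBigO.fun_sum fun s hs => ?_
  exact ((dsx3_prod h1 s.support s).2.2.trans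
    (hm _ _ ((MvPolynomial.le_totalDegree hs).trans hS))).const_mul_left _

theorem aux {J : Type*} [Fintype J] {σ : K →+* ℂ} {d : ℕ} {f : J → K[X]} {x : J → ℕ → K}
    {p : J → PowerSeries K} {u : J → ℂ} (hO : ∀ i, Orb (f i) (x i)) (hd : ∀ i, (f i).natDegree = d)
    (hE : ∀ i, Esc σ d (x i) (p i) (u i)) (μ : J → ℤ) (hμ : μ ≠ 0) (h : ∏ i, u i ^ μ i = 1) :
    ∃ P : MvPolynomial J K, P ≠ 0 ∧ Van x P := by
  obtain ⟨i0, -⟩ := Function.ne_iff.1 hμ
  have hd2 : 2 ≤ d := hd i0 ▸ (hO i0).deg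
  obtain ⟨N, Λ, N0, hΛ, Λ1, hg⟩ := exists_gr hO hd
  obtain ⟨iB, hB⟩ := @Finite.exists_max J ℝ _ ⟨i0⟩ _ fun i => ‖u i‖
  obtain ⟨iθ, hθ⟩ := @Finite.exists_max J ℝ _ ⟨i0⟩ _ fun i => ‖u i‖⁻¹
  set B := ‖u iB‖
  set θ := ‖u iθ‖⁻¹
  set q := Fintype.card J
  set r := 3 * Module.finrank ℚ K with hr
  have B1 : 1 ≤ B := (hE iB).one_lt.le
  have θ0 : 0 ≤ θ := by positivity
  have θ1 : θ < 1 := inv_lt_one_of_one_lt₀ (hE iθ).one_lt
  have hu : ∀ i, u i ≠ 0 := fun i => norm_pos_iff.1 (one_pos.trans (hE i).one_lt)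
  have hl : 0 < (2 * Λ ^ (q * r))⁻¹ := by positivity
  obtain ⟨D, V, D0, v1, v2⟩ := cnt_val u (fun i => (hE i).one_lt) μ hμ h hl
  set lam := (2 * Λ ^ (q * r))⁻¹ ^ D with hlam
  have l0 : 0 < lam := by positivity
  obtain ⟨T, hT⟩ := exists_pow_lt_of_lt_one (show 0 < lam / B ^ (q * D + 1) by positivity) θ1
  obtain ⟨P, C, p1, p2, p3⟩ := aux_formal σ u hu p D T V l0.le v1 v2
  refine ⟨P, p1, lsMv σ le_rfl hd2 N0 hΛ hg l0.le P p2 ?_ ?_⟩
  · have : lam * (Λ ^ (q * D)) ^ r = (1 / 2) ^ D := by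
      rw [hlam, ← pow_mul, mul_right_comm, pow_mul Λ (q * r), ← mul_pow]
      congr 1; field_simp
    rw [this]; exact pow_lt_one₀ (by norm_num) (by norm_num) D0.ne'
  have hab : ∀ i, (fun n => σ (x i n) - u i ^ d ^ n * (PowerSeries.trunc T
      (PowerSeries.map σ (p i))).eval (u i ^ d ^ n)⁻¹) =O[atTop] fun n => (B * θ ^ T) ^ d ^ n := by
    intro i
    refine (((isBigO_refl (fun n => u i ^ d ^ n) _).mul ((hE i).app T)).congr_left
      fun n => ?_).trans (IsBigO.of_bound' (.of_forall fun n => ?_))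
    · have := pow_ne_zero (d ^ n) (hu i)
      field_simp
    · rw [Real.norm_of_nonneg (show 0 ≤ (B * θ ^ T) ^ d ^ n by positivity), norm_mul, norm_pow,
        norm_pow, norm_inv, norm_pow, ← inv_pow, ← pow_mul, mul_comm (d ^ n), pow_mul, ← mul_pow]
      gcongr
      exacts [hB i, hθ i]
  have ha : ∀ i, (fun n => σ (x i n)) =O[atTop] fun n => B ^ d ^ n := fun i =>
    ((hE i).up hd2).trans (IsBigO.of_bound' (.of_forall fun n => by
      rw [Real.norm_of_nonneg (by positivity), Real.norm_of_nonneg (by positivity)]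
      exact pow_le_pow_left₀ (norm_nonneg _) (hB i) _))
  have hε : (fun n => (B * θ ^ T) ^ d ^ n) =O[atTop] fun n => B ^ d ^ n :=
    IsBigO.of_bound' (.of_forall fun n => by
      rw [Real.norm_of_nonneg (by positivity), Real.norm_of_nonneg (by positivity)]
      exact pow_le_pow_left₀ (by positivity)
        (mul_le_of_le_one_right (by positivity) (pow_le_one₀ θ0 θ1.le)) _)
  have h1 := (mv_diff σ P p2 (fun n => one_le_pow₀ B1) ha (fun i =>
    ((ha i).sub ((hab i).trans hε)).congr_left fun n => sub_sub_cancel _ _) hab).trans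
    (k := fun n => lam ^ d ^ n) (IsBigO.of_bound' (.of_forall fun n => by
      rw [Real.norm_of_nonneg (by positivity), Real.norm_of_nonneg (by positivity), ← pow_mul,
        mul_comm (d ^ n), pow_mul, ← mul_pow]
      refine pow_le_pow_left₀ (by positivity) ?_ _
      rw [← mul_assoc, ← pow_succ, mul_comm]
      exact ((lt_div_iff₀ (by positivity)).1 hT).le))
  refine (h1.add (IsBigO.of_bound C (.of_forall fun n => (p3 (d ^ n)).trans_eq
    (by rw [Real.norm_of_nonneg (by positivity)])))).congr_left fun n => ?_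
  rw [sub_add_cancel, MvPolynomial.eval, MvPolynomial.coe_eval₂Hom, MvPolynomial.eval₂_comp_left]
  rfl

theorem dep_of_rel {σ : K →+* ℂ} {d : ℕ} {f g : K[X]} {x y : ℕ → K} {p q : PowerSeries K} {u v : ℂ}
    (hx : Orb f x) (hy : Orb g y) (df : f.natDegree = d) (dg : g.natDegree = d)
    (ex : Esc σ d x p u) (ey : Esc σ d y q v) (h : Rel u v) : Dep x y := by
  obtain ⟨a, b, ha, hb, he⟩ := h
  have hv : v ≠ 0 := norm_pos_iff.1 (one_pos.trans ey.one_lt)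
  obtain ⟨P, p1, p2⟩ := aux (J := Fin 2) (σ := σ) (d := d) (f := ![f, g]) (x := ![x, y])
    (p := ![p, q]) (u := ![u, v]) (Fin.forall_fin_two.2 ⟨hx, hy⟩) (Fin.forall_fin_two.2 ⟨df, dg⟩)
    (Fin.forall_fin_two.2 ⟨ex, ey⟩) ![a, -b]
    (fun e => by simpa [ha.ne'] using congrFun e 0) (by simp [he, hv])
  exact dep_of_mv (x := ![x, y]) (i := 0) (j := 1) (by simp) (Fin.forall_fin_two.2 ⟨.inl rfl, .inr rfl⟩)
    p1 p2

end Pool.Agent.P.MP_68214b_ag.DS
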