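import Pool.Agent.P.MP_68214b_ag.DSX3
import Pool.Agent.P.MP_68214b_ag.DSX6
import Pool.Agent.P.MP_68214b_ag.DSM5
import Pool.Agent.P.MP_68214b_ag.DSA5

open Polynomial Filter Asymptotics NumberField Topology

namespace Pool.Agent.P.MP_68214b_ag.DS

variable {K : Type} [Field K] [NumberField K]

theorem tend_prog (c : ℕ) {l : ℕ} (hl : 0 < l) : Tendsto (fun t => c + l * t) atTop atTop :=
  tendsto_atTop_mono (fun t => show t ≤ c + l * t by nlinarith) tendsto_id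

theorem st {J : Type} [Fintype J] {σ : K →+* ℂ} {d : ℕ} {f : J → K[X]} {x : J → ℕ → K}
    {p : J → PowerSeries K} {u : J → ℂ} (hO : ∀ i, Orb (f i) (x i))
    (h3 : ∀ i j k, i ≠ j → i ≠ k → j ≠ k → NSa (f i) ∨ NSa (f j) ∨ NSa (f k))
    (hd : ∀ i, (f i).natDegree = d)
    (hE : ∀ i, Esc σ d (x i) (p i) (u i)) (μ : J → ℤ) (hμ : μ ≠ 0) (h : ∏ i, u i ^ μ i = 1) :
    ∃ i j, i ≠ j ∧ Rel (u i) (u j) := by
  obtain ⟨P, hP, hV⟩ := aux hO hd hE μ hμ h
  obtain ⟨l, hl, hD⟩ := oc f x fun i => (hO i).step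
  obtain ⟨i0, -⟩ := Function.ne_iff.1 hμ
  have d2 : 2 ≤ d := hd i0 ▸ (hO i0).deg
  have dl : 2 ≤ d ^ l := d2.trans (Nat.le_self_pow hl.ne' _)
  have hE' := fun i => (hE i).prog (by omega) 0 hl
  have ht := tend_prog 0 hl
  rcases msl σ (fun i => (hO i).prog 0 hl) (fun i j k a b c => (h3 i j k a b c).imp
    (fun e => e.iter (hO i).deg hl) (Or.imp (fun e => e.iter (hO j).deg hl)
      fun e => e.iter (hO k).deg hl)) (hD 0) hP (ht.eventually hV) with ⟨i, hi⟩ | ⟨i, j, hij, hdep⟩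
  · exact absurd hi ((hE' i).not_alg0 dl)
  · exact ⟨i, j, hij, by simpa using be dl (hE' i) (hE' j) hdep⟩

end Pool.Agent.P.MP_68214b_ag.DS
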