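import Pool.Agent.P.MP_68214b_ag.DSC2x
import Pool.Agent.P.MP_68214b_ag.DSX3

open Polynomial Filter Asymptotics NumberField Topology

namespace Pool.Agent.P.MP_68214b_ag.DS

/-- a relation whose top form does not vanish at z -/
def Top {J : Type*} [Fintype J] (w : J → ℕ) (z : J → ℂ) (y : J → ℕ → ℂ) (good : ℕ → Prop) : Prop :=
  ∃ (M : Finset (J →₀ ℕ)) (c : (J →₀ ℕ) → ℂ) (D : ℕ), (∀ m, IsAlgebraic ℚ (c m)) ∧
    (∀ m ∈ M, ∑ i, w i * m i ≤ D) ∧
    ∑ m ∈ M with ∑ i, w i * m i = D, c m * ∏ i, z i ^ m i ≠ 0 ∧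
    ∀ n, good n → ∑ m ∈ M, c m * ∏ i, y i n ^ m i = 0

theorem du1_pow {𝓕 : Filter ℕ} {B ε : ℕ → ℝ} {f g : ℕ → ℂ} {w : ℕ} (h : dsx3P 𝓕 B ε w f g)
    (k : ℕ) : dsx3P 𝓕 B ε (w * k) (fun n => f n ^ k) fun n => g n ^ k := by
  induction k with
  | zero => simpa using dsx3_one 𝓕 B ε
  | succ k ih => simpa only [pow_succ, mul_add, mul_one] using dsx3_mul ih h

theorem du1_prod {J : Type*} {𝓕 : Filter ℕ} {B ε : ℕ → ℝ} {a b : J → ℕ → ℂ} {w : J → ℕ}
    (h : ∀ i, dsx3P 𝓕 B ε (w i) (a i) (b i)) (s : Finset J) (e : J → ℕ) :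
    dsx3P 𝓕 B ε (∑ i ∈ s, w i * e i) (fun n => ∏ i ∈ s, a i n ^ e i)
      fun n => ∏ i ∈ s, b i n ^ e i := by
  classical
  induction s using Finset.induction_on with
  | empty => simpa using dsx3_one 𝓕 B ε
  | insert i s hi ih =>
    simpa only [Finset.sum_insert hi, Finset.prod_insert hi] using dsx3_mul (du1_pow (h i) _) ih

theorem du1_max {J : Type*} [Fintype J] (θ : J → ℝ) (h : ∀ i, θ i < 1) {a : ℝ} (ha : a < 1) :
    ∃ t : ℝ, t < 1 ∧ a ≤ t ∧ ∀ i, θ i ≤ t := by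
  obtain ⟨i, -, hi⟩ := Finset.exists_max_image Finset.univ (fun i : Option J => i.elim a θ)
    Finset.univ_nonempty
  refine ⟨i.elim a θ, ?_, hi none (Finset.mem_univ _), fun j => hi (some j) (Finset.mem_univ _)⟩
  cases i
  exacts [ha, h _]

theorem lead {J : Type*} [Fintype J] {𝓕 : Filter ℕ} [𝓕.NeBot] (hF : 𝓕 ≤ atTop) {d : ℕ}
    (hd : 2 ≤ d) {w : J → ℕ} (hw : ∀ i, 0 < w i) {y : J → ℕ → ℂ} {z : J → ℂ} {s s' : ℂ}
    (q : J → Prop) [DecidablePred q] (hs : 1 < ‖s‖) (hs' : ‖s'‖ = ‖s‖)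
    (hz : ∀ i, IsAlgebraic ℚ (z i))
    (hy : ∀ i, ∃ θ : ℝ, 0 ≤ θ ∧ θ < 1 ∧
      (fun n => y i n - z i * ((if q i then s' else s) ^ d ^ n) ^ w i) =O[𝓕]
        fun n => (‖s‖ ^ d ^ n) ^ w i * θ ^ d ^ n)
    {good : ℕ → Prop} (hg : ∀ᶠ n in 𝓕, good n)
    (hT : Top w (fun i => if q i then 0 else z i) y good) :
    (∃ i, q i) ∧ ∃ (β : ℂ) (C l : ℝ), β ≠ 0 ∧ IsAlgebraic ℚ β ∧ 0 ≤ l ∧ l < 1 ∧
      ∃ᶠ n in 𝓕, ‖(s' / s) ^ d ^ n - β‖ ≤ C * l ^ d ^ n := by
  classical
  obtain ⟨M, c, D, ca, hM, h0, hv⟩ := hT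
  choose θ θ0 θ1 hθ using hy
  obtain ⟨t, t1, t2, t3⟩ := du1_max θ θ1 (inv_lt_one_of_one_lt₀ hs)
  have s0 : 0 < ‖s‖ := by linarith
  have t0 : 0 ≤ t := (inv_pos.2 s0).le.trans t2
  set B : ℕ → ℝ := fun n => ‖s‖ ^ d ^ n with hB
  set ε : ℕ → ℝ := fun n => t ^ d ^ n with hε
  set v : J → ℕ → ℂ := fun i n => z i * ((if q i then s' else s) ^ d ^ n) ^ w i with hv'
  have B1 : ∀ n, 1 ≤ B n := fun n => one_le_pow₀ hs.le
  have ε0 : ∀ n, 0 ≤ ε n := fun n => pow_nonneg t0 _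
  have ε1 : ∀ n, ε n ≤ 1 := fun n => pow_le_one₀ t0 t1.le
  have Bε : ∀ n, 1 ≤ B n * ε n := fun n => by
    rw [hB, hε, ← mul_pow]
    exact one_le_pow₀ ((inv_le_iff_one_le_mul₀' s0).1 t2)
  have hP : ∀ i, dsx3P 𝓕 B ε (w i) (y i) (v i) := fun i => by
    have h2 : v i =O[𝓕] fun n => B n ^ w i := IsBigO.of_bound ‖z i‖ (Eventually.of_forall fun n => by
      rw [hv', hB]
      by_cases h : q i <;> simp [h, hs'])
    have h3 : (fun n => y i n - v i n) =O[𝓕] fun n => B n ^ w i * ε n :=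
      (hθ i).trans (IsBigO.of_bound' (Eventually.of_forall fun n => by
        have := θ0 i
        rw [Real.norm_of_nonneg (by positivity), Real.norm_of_nonneg (by positivity)]
        exact mul_le_mul_of_nonneg_left (pow_le_pow_left₀ this (t3 i) _) (by positivity)))
    refine ⟨?_, h2, h3⟩
    refine ((h3.trans (IsBigO.of_bound' (Eventually.of_forall fun n => ?_))).add h2).congr_left
      fun n => by ring
    have := B1 n
    have := ε0 n
    rw [Real.norm_of_nonneg (by positivity), Real.norm_of_nonneg (by positivity)]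
    exact mul_le_of_le_one_right (by positivity) (ε1 n)
  set e : (J →₀ ℕ) → ℕ := fun m => ∑ i, (if q i then w i else 0) * m i with he
  set g : ℂ[X] := ∑ m ∈ M with ∑ i, w i * m i = D, monomial (e m) (c m * ∏ i, z i ^ m i) with hg'
  have ev : ∀ Y : ℂ, g.eval Y = ∑ m ∈ M with ∑ i, w i * m i = D,
      c m * ∏ i, (z i * Y ^ (if q i then w i else 0)) ^ m i := fun Y => by
    rw [hg', eval_finsetSum]
    refine Finset.sum_congr rfl fun m _ => ?_
    simp only [eval_monomial, he, mul_pow, Finset.prod_mul_distrib, ← pow_mul,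
      Finset.prod_pow_eq_pow_sum, mul_assoc]
  have g0 : g.eval 0 ≠ 0 := by
    rw [ev]
    convert h0 using 5 with m _ i _
    by_cases h : q i <;> simp [h, (hw i).ne']
  have gn : g ≠ 0 := fun h => g0 (by rw [h, eval_zero])
  have hO : (fun n => g.eval ((s' / s) ^ d ^ n)) =O[𝓕] ε := by
    have h1 : (fun n => ∑ m ∈ M, (c m * ∏ i, y i n ^ m i -
        if ∑ i, w i * m i = D then c m * ∏ i, v i n ^ m i else 0)) =O[𝓕]
          fun n => B n ^ D * ε n := IsBigO.fun_sum fun m hm => by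
      have hp := du1_prod hP Finset.univ m
      by_cases h : ∑ i, w i * m i = D
      · simp only [h, if_true, ← mul_sub] at hp ⊢
        exact hp.2.2.const_mul_left _
      · simp only [h, if_false, sub_zero]
        refine (hp.1.trans (IsBigO.of_bound' (Eventually.of_forall fun n => ?_))).const_mul_left _
        have := B1 n
        have := ε0 n
        obtain ⟨k, hk⟩ := Nat.exists_eq_add_of_lt ((hM m hm).lt_of_ne h)
        rw [Real.norm_of_nonneg (by positivity), Real.norm_of_nonneg (by positivity), hk, pow_succ,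
          mul_assoc]
        exact (pow_le_pow_right₀ (B1 n) (Nat.le_add_right _ _)).trans
          (le_mul_of_one_le_right (by positivity) (Bε n))
    have sn : s ≠ 0 := norm_pos_iff.1 s0
    have h2 : (fun n => (-((s ^ d ^ n) ^ D)⁻¹ : ℂ)) =O[𝓕] fun n => (B n ^ D)⁻¹ :=
      IsBigO.of_bound' (Eventually.of_forall fun n => by simp [hB])
    refine (h2.mul h1).congr' (hg.mono fun n hn => ?_) (Eventually.of_forall fun n => ?_)
    · simp only [Finset.sum_sub_distrib, hv n hn, zero_sub, ev, neg_mul_neg, ← Finset.sum_filter,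
        Finset.mul_sum]
      refine Finset.sum_congr rfl fun m hm => ?_
      rw [← (Finset.mem_filter.1 hm).2, ← Finset.prod_pow_eq_pow_sum, mul_left_comm,
        ← Finset.prod_inv_distrib, ← Finset.prod_mul_distrib]
      congr 1
      refine Finset.prod_congr rfl fun i _ => ?_
      rw [pow_mul, ← inv_pow, ← mul_pow, hv']
      congr 1
      by_cases h : q i
      · simp only [h, if_true, div_pow]
        field_simp
      · simp only [h, if_false, pow_zero]
        field_simp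
    · have := B1 n
      exact inv_mul_cancel_left₀ (by positivity) _
  obtain ⟨β, C, l, hβ, l0, l1, hf⟩ := root_near gn hF hd t0 t1 hO
  refine ⟨by_contra fun h => g0 ?_, β, C, l, fun h => g0 (by rw [h] at hβ; exact hβ), alg_root gn (fun k => ?_) hβ,
    l0, l1, hf⟩
  · rw [← hβ.eq_zero, ev, ev]
    simp only [not_exists.1 h, if_false, pow_zero]
  · rw [hg', finsetSum_coeff, ← mem_algebraicClosure_iff]
    refine sum_mem fun m _ => ?_
    rw [coeff_monomial]
    split_ifs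
    · exact mul_mem (mem_algebraicClosure_iff.2 (ca m))
        (prod_mem fun i _ => pow_mem (mem_algebraicClosure_iff.2 (hz i)) _)
    · exact zero_mem _

end Pool.Agent.P.MP_68214b_ag.DS
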