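import Pool.Agent.P.MP_68214b_ag.DU1
import Pool.Agent.P.MP_68214b_ag.DSX8
import Pool.Agent.P.MP_68214b_ag.DSP7
import Pool.Agent.P.MP_68214b_ag.DSS3
import Pool.Agent.P.MP_68214b_ag.DSB3

open Polynomial Filter Asymptotics NumberField Topology

namespace Pool.Agent.P.MP_68214b_ag.DS

variable {K : Type} [Field K] [NumberField K]

theorem du2_root {u s : ℂ} {w w0 : ℕ} (hs : 1 < ‖s‖) (hu : ‖u‖ = ‖s‖ ^ w) (h : Rel u (s ^ w0)) :
    ∃ k, 0 < k ∧ (u / s ^ w) ^ k = 1 := by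
  obtain ⟨a, b, ha, -, e⟩ := h
  have e1 : w * a = w0 * b := by
    have := congrArg norm e
    rw [norm_pow, norm_pow, norm_pow, hu, ← pow_mul, ← pow_mul] at this
    exact pow_right_injective₀ (by linarith) hs.ne' this
  refine ⟨a, ha, ?_⟩
  rw [div_pow, e, ← pow_mul, ← pow_mul, e1, div_self (pow_ne_zero _ (norm_pos_iff.1 (by linarith)))]

theorem du2_th {𝓕 : Filter ℕ} {d w : ℕ} {r : ℕ → ℂ} {ρ S : ℝ} (h0 : 0 ≤ ρ) (h1 : ρ < S ^ w)
    (h : r =O[𝓕] fun n => ρ ^ d ^ n) : ∃ θ : ℝ, 0 ≤ θ ∧ θ < 1 ∧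
      r =O[𝓕] fun n => (S ^ d ^ n) ^ w * θ ^ d ^ n := by
  have : 0 < S ^ w := h0.trans_lt h1
  refine ⟨ρ / S ^ w, by positivity, (div_lt_one this).2 h1, h.congr_right fun n => ?_⟩
  rw [← pow_mul, mul_comm (d ^ n), pow_mul, ← mul_pow, mul_div_cancel₀ _ this.ne']

theorem cls1 (hK : Cj K) (σ : K →+* ℂ) {J : Type} [Fintype J] {d : ℕ} (hd : 2 ≤ d) {f : J → K[X]}
    {x : J → ℕ → K} (E : J → Prop)
    (hE : ∀ i, E i → Orb (f i) (x i) ∧ (f i).natDegree = d ∧ ¬ Bdd σ (x i))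
    (hN : ∀ i, ¬ E i → Sml atTop d fun n => σ (x i n)) (h0 : ∃ i, E i)
    (h3 : ∀ i j k, E i → E j → E k → i ≠ j → i ≠ k → j ≠ k → NSa (f i) ∨ NSa (f j) ∨ NSa (f k))
    {w : J → ℕ} (hw : ∀ i, 0 < w i) {good : ℕ → Prop} (hg : ∃ᶠ n in atTop, good n) :
    ∃ (i0 : J) (z : J → ℂ), E i0 ∧ z i0 ≠ 0 ∧
      (∀ i, z i ≠ 0 → E i ∧ Dep (x i0) (x i) ∧ ∃ k, 0 < k ∧ z i ^ k = 1) ∧
      ¬ Top w z (fun i n => σ (x i n)) good := by
  classical
  have hb : ∀ i, ∃ (p : PowerSeries K) (r : ℂ), E i → Bott (f i) p ∧ Esc σ d (x i) p (r ^ w i) ∧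
      1 < ‖r‖ := fun i => by
    by_cases h : E i
    · obtain ⟨p, u, b, e⟩ := bl (hE i h).1 σ (hE i h).2.2
      obtain ⟨r, rfl⟩ := IsAlgClosed.exists_pow_nat_eq u (hw i)
      refine ⟨p, r, fun _ => ⟨b, (hE i h).2.1 ▸ e, ?_⟩⟩
      have := e.one_lt
      rw [norm_pow] at this
      exact (one_lt_pow_iff_of_nonneg (norm_nonneg _) (hw i).ne').1 this
    · exact ⟨0, 0, fun e => absurd e h⟩
  choose p r hr using hb
  obtain ⟨i0, hi0, hm⟩ := (Finset.univ.filter E).exists_max_image (fun i => ‖r i‖)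
    (h0.imp fun i hi => Finset.mem_filter.2 ⟨Finset.mem_univ _, hi⟩)
  simp only [Finset.mem_filter, Finset.mem_univ, true_and] at hi0 hm
  set s := r i0 with hs
  have s1 : 1 < ‖s‖ := (hr i0 hi0).2.2
  set T : J → Prop := fun i => E i ∧ ‖r i‖ = ‖s‖ with hT
  have three : ∀ a b c, T a → T b → T c → NSa (f a) → ¬ Rel (r a ^ w a) (r b ^ w b) →
      ¬ Rel (r a ^ w a) (r c ^ w c) → Rel (r b ^ w b) (r c ^ w c) := fun a b c ta tb tc n h1 h2 => by
    have cj : ∀ b, T b → ¬ Rel (r a ^ w a) (r b ^ w b) →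
        Rel (r a ^ w a) ((starRingEnd ℂ) (r b ^ w b)) := fun b tb h =>
      (conj_rel hK (hE a ta.1).1 (hE b tb.1).1 (Or.inl n) (hE a ta.1).2.1 (hE b tb.1).2.1
        (hr a ta.1).2.1 (hr b tb.1).2.1 (hw b) (hw a) (by
          rw [norm_pow, norm_pow, ta.2, tb.2, ← pow_mul, ← pow_mul, mul_comm])).resolve_left h
    simpa only [Complex.conj_conj] using ((cj b tb h1).symm.trans (cj c tc h2)).conj
  set q : J → Prop := fun i => T i ∧ ¬ Rel (r i ^ w i) (s ^ w i0) with hq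
  have t0 : T i0 := ⟨hi0, rfl⟩
  have q0 : ¬ q i0 := fun h => h.2 (Rel.refl _)
  obtain ⟨s', e', hs', hj⟩ : ∃ s' : ℂ, ‖s'‖ = ‖s‖ ∧
      (∀ i, q i → ∃ k, 0 < k ∧ (r i ^ w i / s' ^ w i) ^ k = 1) ∧
      ((∃ j, q j) → ∃ j, q j ∧ s' = r j) := by
    by_cases h : ∃ j, q j
    swap
    · exact ⟨s, rfl, fun i hi => absurd ⟨i, hi⟩ h, fun e => absurd e h⟩
    obtain ⟨j, hj⟩ := h
    refine ⟨r j, hj.1.2, fun i hi => du2_root (w0 := w j) (hj.1.2 ▸ s1)
      (by rw [norm_pow, hi.1.2, hj.1.2]) (by_contra fun h => ?_), fun _ => ⟨j, hj, rfl⟩⟩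
    rcases h3 i j i0 hi.1.1 hj.1.1 hi0 (fun e => h (by rw [e]; exact Rel.refl _))
      (fun e => q0 (e ▸ hi)) (fun e => q0 (e ▸ hj)) with n | n | n
    · exact hj.2 (three i j i0 hi.1 hj.1 t0 n h hi.2)
    · exact hi.2 (three j i i0 hj.1 hi.1 t0 n (fun e => h e.symm) hj.2)
    · exact h (three i0 i j t0 hi.1 hj.1 n (fun e => hi.2 e.symm) fun e => hj.2 e.symm)
  have nb := frequently_iff_neBot.1 hg
  set 𝒰 := Ultrafilter.of (atTop ⊓ 𝓟 {n : ℕ | good n}) with h𝒰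
  have hU : (𝒰 : Filter ℕ) ≤ atTop := (Ultrafilter.of_le _).trans inf_le_left
  have hz : ∀ᶠ n in (𝒰 : Filter ℕ), good n :=
    le_principal_iff.1 ((Ultrafilter.of_le _).trans inf_le_right)
  have sw : ∀ i, 1 < ‖s‖ ^ w i := fun i => one_lt_pow₀ s1 (hw i).ne'
  have hy : ∀ i, ∃ z : ℂ, (T i → ∃ k, 0 < k ∧ z ^ k = 1) ∧ (¬ T i → z = 0) ∧
      ∃ θ : ℝ, 0 ≤ θ ∧ θ < 1 ∧
      (fun n => σ (x i n) - z * ((if q i then s' else s) ^ d ^ n) ^ w i) =O[𝒰]
        fun n => (‖s‖ ^ d ^ n) ^ w i * θ ^ d ^ n := fun i => by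
    by_cases ti : T i
    · obtain ⟨k, k0, hk⟩ : ∃ k, 0 < k ∧ (r i ^ w i / (if q i then s' else s) ^ w i) ^ k = 1 := by
        by_cases h : q i
        · simpa only [h, if_true] using hs' i h
        · simp only [h, if_false]
          exact du2_root s1 (by rw [norm_pow, ti.2]) (by_contra fun e => h ⟨ti, e⟩)
      obtain ⟨z, z1, hz⟩ := dss3_ult k0 hk d 𝒰
      refine ⟨z, fun _ => ⟨k, k0, z1⟩, fun h => absurd ti h, du2_th zero_le_one (sw i) ?_⟩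
      have e := (hr i ti.1).2.1
      have u0 : r i ^ w i ≠ 0 := norm_pos_iff.1 (zero_lt_one.trans e.one_lt)
      have S0 : (if q i then s' else s) ≠ 0 := norm_pos_iff.1 (by
        split_ifs <;> linarith)
      refine ((isBigO_refl (fun n => (r i ^ w i) ^ d ^ n) _).mul
        ((e.lim' hd).mono hU)).congr' (hz.mono fun n hn => ?_) ?_ |>.trans
        (isBigO_const_const (1 : ℂ) (one_ne_zero (α := ℝ)) _) |>.congr_right fun n => by simp
      · beta_reduce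
        rw [← hn, div_pow, ← pow_mul (if q i then s' else s), ← pow_mul (if q i then s' else s),
          mul_comm (w i)]
        field_simp
      · exact Eventually.of_forall fun n => mul_inv_cancel₀ (pow_ne_zero _ u0)
    refine ⟨0, fun h => absurd h ti, fun _ => rfl, ?_⟩
    simp only [zero_mul, sub_zero]
    by_cases h : E i
    · refine du2_th (norm_nonneg _) ?_ (((hr i h).2.1.up hd).mono hU)
      rw [norm_pow]
      exact pow_lt_pow_left₀ ((hm i h).lt_of_ne fun e => ti ⟨h, e⟩) (norm_nonneg _) (hw i).ne'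
    · have := sw i
      exact du2_th (ρ := (1 + ‖s‖ ^ w i) / 2) (by positivity) (by linarith)
        ((hN i h _ (by linarith)).mono hU)
  choose z z1 z0 hy using hy
  refine ⟨i0, fun i => if q i then 0 else z i, hi0, ?_, fun i hi => ?_, fun hT => ?_⟩
  · obtain ⟨k, k0, hk⟩ := z1 i0 t0
    simp only [q0, if_false]
    rintro e
    simp [e, k0.ne'] at hk
  · have h : ¬ q i := fun h => hi (if_pos h)
    simp only [h, if_false] at hi ⊢
    have ti : T i := by_contra fun e => hi (z0 i e)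
    exact ⟨ti.1, dep_of_rel (hE i0 hi0).1 (hE i ti.1).1 (hE i0 hi0).2.1 (hE i ti.1).2.1
      (hr i0 hi0).2.1 (hr i ti.1).2.1 (Rel.symm (by_contra fun e => h ⟨ti, e⟩)), z1 i ti⟩
  obtain ⟨h1, β, C, l, β0, βa, l0, l1, hf⟩ := lead hU hd hw q s1 e' (fun i => by
    by_cases ti : T i
    · obtain ⟨k, k0, hk⟩ := z1 i ti
      exact mem_algebraicClosure_iff.1 (dss3_root k0 hk)
    · rw [z0 i ti]
      exact isAlgebraic_zero) hy hz hT
  obtain ⟨j, qj, rfl⟩ := hj h1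
  have ej := qj.1.1
  refine qj.2 (be hd (hr j ej).2.1 (hr i0 hi0).2.1 (pt (hE j ej).1 (hE i0 hi0).1 (hE j ej).2.1
    (hE i0 hi0).2.1 (hr j ej).1 (hr i0 hi0).1 (hr j ej).2.1 (hr i0 hi0).2.1 (hw i0) (hw j)
    (pow_ne_zero (w j * w i0) β0) (βa.pow _)
    (C := (w j * w i0 : ℕ) * max 1 ‖β‖ ^ (w j * w i0) * C) l0 l1
    ((hf.filter_mono hU).mono fun n hn => ?_)))
  have e : ((r j ^ w j) ^ w i0) ^ d ^ n / ((r i0 ^ w i0) ^ w j) ^ d ^ n =
      ((r j / s) ^ d ^ n) ^ (w j * w i0) := by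
    simp only [div_pow, ← pow_mul, hs]
    congr 2 <;> ring
  rw [e, mul_assoc]
  exact (pow_near (by rw [norm_pow, norm_div, e', div_self (by linarith), one_pow]) _).trans
    (mul_le_mul_of_nonneg_left hn (by positivity))

end Pool.Agent.P.MP_68214b_ag.DS
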