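import Pool.Agent.P.MP_68214b_ag.DU2
import Pool.Agent.P.MP_68214b_ag.DH2
import Pool.Agent.P.MP_68214b_ag.DSD8

open Polynomial Filter Asymptotics NumberField Topology

namespace Pool.Agent.P.MP_68214b_ag.DS

theorem mv_biv {K J : Type*} [Field K] {i j : J} (hij : i ≠ j) (hJ : ∀ k, k = i ∨ k = j)
    {P : MvPolynomial J K} (hP : P ≠ 0) :
    ∃ G : K[X][X], G ≠ 0 ∧ ∀ y : J → K, G.evalEval (y i) (y j) = MvPolynomial.eval y P := by
  classical
  let Φ : MvPolynomial J K →+* K[X][X] :=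
    MvPolynomial.eval₂Hom (C.comp C) fun k => if k = i then C X else X
  let Ψ : K[X][X] →+* MvPolynomial J K :=
    eval₂RingHom (eval₂RingHom MvPolynomial.C (MvPolynomial.X i)) (MvPolynomial.X j)
  have h1 : Ψ.comp Φ = RingHom.id _ := by
    refine MvPolynomial.ringHom_ext (fun r => by simp [Φ, Ψ]) fun k => ?_
    rcases hJ k with rfl | rfl
    · simp [Φ, Ψ]
    · simp [Φ, Ψ, hij.symm]
  have h2 : ∀ y : J → K, (evalEvalRingHom (y i) (y j)).comp Φ = MvPolynomial.eval y := by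
    intro y
    refine MvPolynomial.ringHom_ext (fun r => by simp [Φ]) fun k => ?_
    rcases hJ k with rfl | rfl
    · simp [Φ]
    · simp [Φ, hij.symm]
  refine ⟨Φ P, fun h0 => hP ?_, fun y => by rw [← h2 y]; simp⟩
  have := DFunLike.congr_fun h1 P
  rw [RingHom.comp_apply, h0, map_zero] at this
  exact this.symm

theorem dep_of_alg0 {K : Type*} [Field K] (a : ℕ → K) {b : ℕ → K} (h : Alg0 b) : Dep a b := by
  obtain ⟨g, hg, h⟩ := h
  exact Dep.symm ⟨C g, C_ne_zero.2 hg, h.mono fun n hn => by rw [evalEval_C, hn]⟩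

theorem red {K J I : Type*} [Field K] {x : J → ℕ → K} (hD : Dom x) (e : I → J) (k0 : I)
    (h0 : ¬ Alg0 (x (e k0))) (h : ∀ i, (∃ k, i = e k) ∨ Dep (x (e k0)) (x i))
    (hc : ∀ Q : MvPolynomial I K,
      (∃ᶠ n in atTop, MvPolynomial.eval (fun k => x (e k) n) Q = 0) → Van (fun k => x (e k)) Q)
    {P : MvPolynomial J K} (hP : ∃ᶠ n in atTop, MvPolynomial.eval (fun i => x i n) P = 0) :
    Van x P := by
  have pr : (dso1_id x).IsPrime := ⟨fun e => by
    have : Van x 1 := show 1 ∈ dso1_id x from e ▸ Submodule.mem_top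
    obtain ⟨n, hn⟩ := Eventually.exists this
    simp at hn, fun {a b} h => hD a b h⟩
  set π := Ideal.Quotient.mkₐ K (dso1_id x) with hπ'
  have hπ : ∀ a, π a = 0 ↔ Van x a := fun _ => Ideal.Quotient.eq_zero_iff_mem
  set S := Algebra.adjoin K (Set.range fun k => π (MvPolynomial.X (e k))) with hS
  have a1 : ∀ i, IsAlgebraic S (π (MvPolynomial.X i)) := fun i => by
    rcases h i with ⟨k, rfl⟩ | ⟨G, G0, hG⟩
    · exact isAlgebraic_algebraMap (⟨_, Algebra.subset_adjoin ⟨k, rfl⟩⟩ : S)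
    refine (dso3_alg (x := π (MvPolynomial.X (e k0))) ?_ G0 ?_).tower_top_of_subalgebra_le
      (Algebra.adjoin_mono (Set.singleton_subset_iff.2
        (Set.mem_range_self (f := fun k => π (MvPolynomial.X (e k))) k0)))
    · rintro ⟨g, g0, hg⟩
      rw [aeval_algHom_apply, hπ] at hg
      refine h0 ⟨g, g0, hg.mono fun n hn => ?_⟩
      rwa [← MvPolynomial.aeval_eq_eval, ← aeval_algHom_apply, MvPolynomial.aeval_X,
        coe_aeval_eq_eval] at hn
    · rw [dso3_map, hπ]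
      refine hG.mono fun n hn => ?_
      rwa [← MvPolynomial.aeval_eq_eval, ← dso3_map, MvPolynomial.aeval_X, MvPolynomial.aeval_X,
        coe_aevalAeval_eq_evalEval]
  have a2 : ∀ Q, IsAlgebraic S (π Q) := fun Q => by
    induction Q using MvPolynomial.induction_on with
    | C c => exact isAlgebraic_algebraMap (⟨_, S.algebraMap_mem c⟩ : S)
    | add p q hp hq => rw [map_add]; exact hp.add hq
    | mul_X p i hp => rw [map_mul]; exact hp.mul (a1 i)
  by_contra hv
  obtain ⟨⟨r, hr⟩, r0, R, hR⟩ := (a2 P).exists_nonzero_dvd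
    (mem_nonZeroDivisors_of_ne_zero fun e => hv ((hπ P).1 e))
  rw [hS, Algebra.adjoin_range_eq_range_aeval] at hr
  obtain ⟨Q, rfl⟩ := hr
  obtain ⟨R, rfl⟩ := Ideal.Quotient.mkₐ_surjective K (dso1_id x) R
  have e1 : MvPolynomial.aeval (fun k => π (MvPolynomial.X (e k))) Q =
      π (MvPolynomial.rename e Q) := by
    rw [MvPolynomial.rename_eq_aeval, ← AlgHom.comp_apply, MvPolynomial.comp_aeval]
    rfl
  have e2 : Van x (MvPolynomial.rename e Q - P * R) := (hπ _).1 (by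
    rw [map_sub, map_mul, ← e1]
    exact sub_eq_zero.2 hR)
  refine r0 (Subtype.ext (e1.trans ((hπ _).2 ((van_rename x e Q).2 (hc Q
    ((hP.and_eventually e2).mono fun n hn => ?_))))))
  have := hn.2
  rwa [map_sub, map_mul, hn.1, zero_mul, sub_zero, MvPolynomial.eval_rename] at this

variable {K : Type} [Field K] [NumberField K]

theorem pairLow (σ : K →+* ℂ) {f g : K[X]} {a b : ℕ → K} (hO : Orb f a) (a0 : ¬ Alg0 a)
    (hs : ∀ n, b (n + 1) = g.eval (b n)) (b0 : ¬ Alg0 b) (hb : SmH atTop f.natDegree b)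
    {G : K[X][X]} (hG : G ≠ 0) : ¬ ∃ᶠ n in atTop, G.evalEval (b n) (a n) = 0 := fun h => by
  classical
  have c0 : G.content ≠ 0 := fun hc => hG (content_eq_zero_iff.1 hc)
  have h1 : ∀ᶠ n in atTop, ¬ G.content.eval (b n) = 0 := not_frequently.1 fun e =>
    b0 (alg0_of_freq hs σ ((G.content.roots.toFinset.finite_toSet).image σ)
      (e.mono fun n hn => ⟨_, Multiset.mem_toFinset.2 ((mem_roots c0).2 hn), rfl⟩))
  obtain ⟨e, he⟩ := lemH' (G := G.primPart) fun c hc => by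
    refine not_isUnit_X_sub_C c (G.isPrimitive_primPart _ ((C_dvd_iff_dvd_coeff _ _).2 fun k => ?_))
    have := congrArg (fun p => p.coeff k) hc
    simp only [coeff_map, coeff_zero, coe_evalRingHom] at this
    exact dvd_iff_isRoot.2 this
  obtain ⟨ρ, hρ, hl⟩ := ht_low hO a0
  obtain ⟨r, r1, r2, r3⟩ := dh1_two le_rfl hO.deg hρ e
  obtain ⟨n, h0, h1, h2, h3, h4⟩ := (h.and_eventually ((hb r r1).and (r3.and (h1.and hl)))).exists
  rw [G.eq_C_content_mul_primPart, evalEval_mul, evalEval_C] at h0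
  have := h4 _ (he _ _ _ h2 h1 ((mul_eq_zero.1 h0).resolve_left h3))
  rw [← r2] at this
  exact this.not_gt (pow_lt_pow_right₀ (by linarith) e.lt_succ_self)

theorem coreU (hK : Cj K) (σ : K →+* ℂ) {J : Type} [Fintype J] {d : ℕ} (hd : 2 ≤ d) {f : J → K[X]}
    {x : J → ℕ → K} (hs : ∀ i n, x i (n + 1) = (f i).eval (x i n)) (hD : Dom x) (E : J → Prop)
    (hE : ∀ i, E i → Orb (f i) (x i) ∧ (f i).natDegree = d ∧ ¬ Bdd σ (x i) ∧
      (NSa (f i) ∨ SpF d fun n => σ (x i n)))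
    (hN : ∀ i, ¬ E i → Alg0 (x i) ∨ (Orb (f i) (x i) ∧ (f i).natDegree = d ∧ Bdd σ (x i)) ∨
      SmH atTop d (x i)) (h0 : ∃ i, E i)
    (h3 : ∀ i j k, E i → E j → E k → i ≠ j → i ≠ k → j ≠ k → NSa (f i) ∨ NSa (f j) ∨ NSa (f k))
    {w : J → ℕ} (hw : ∀ i, 0 < w i) {good : ℕ → Prop} (hg : ∃ᶠ n in atTop, good n)
    (hV : ∀ z : J → ℂ, z ≠ 0 → (∀ i, z i ≠ 0 → E i ∧ ∃ k, 0 < k ∧ z i ^ k = 1) →
      (∀ i j, z i ≠ 0 → z j ≠ 0 → Dep (x i) (x j)) → Top w z (fun i n => σ (x i n)) good ∨ (∃ b, ∀ i, z i = 0 → Alg0 (x i) ∨ i = b) ∨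
        ∃ b c, (E b ∧ NSa (f b)) ∧ (E c ∧ NSa (f c)) ∧
          ∀ i, z i = 0 → Alg0 (x i) ∨ i = b ∨ i = c)
    {P : MvPolynomial J K} (hP : ∃ᶠ n in atTop, MvPolynomial.eval (fun i => x i n) P = 0) :
    Van x P := by
  classical
  obtain ⟨c0, hc⟩ := hK σ
  obtain ⟨a, z, ea, z0, hz, hT⟩ := cls1 hK σ hd E
    (fun i h => ⟨(hE i h).1, (hE i h).2.1, (hE i h).2.2.1⟩) (fun i h => by
      rcases hN i h with e | ⟨-, -, M, e⟩ | e
      · obtain ⟨c, e⟩ := hD.domA.const (Algebra.subset_adjoin ⟨i, rfl⟩) e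
        exact sml_of_bdd ((isBigO_const_const (σ c) one_ne_zero _).congr'
          (e.mono fun n hn => by simp only [hn]) EventuallyEq.rfl)
      · exact sml_of_bdd (IsBigO.of_bound M (Eventually.of_forall fun n => by simpa using e n))
      · exact e.sml σ) h0 h3 hw hg
  obtain ⟨oa, da, ua, sa⟩ := hE a ea
  have a0 : ¬ Alg0 (x a) := by
    obtain ⟨p, u, -, e⟩ := bl oa σ ua
    exact e.not_alg0 oa.deg
  have dp : ∀ i, ¬ (z i = 0 ∧ ¬ Alg0 (x i)) → Dep (x a) (x i) := fun i h => by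
    by_cases e : z i = 0
    · exact dep_of_alg0 _ (by_contra fun e' => h ⟨e, e'⟩)
    · exact (hz i e).2.1
  have pair : ∀ b, Orb (f b) (x b) → (f b).natDegree = d → ∀ Q : MvPolynomial Bool K,
      (∃ᶠ n in atTop, MvPolynomial.eval (fun k => x (cond k b a) n) Q = 0) →
        Van (fun k => x (cond k b a)) Q := fun b ob db Q =>
    coreG hK σ hc hd (f := fun k => f (cond k b a)) (fun k => by cases k; exacts [oa, ob])
      (fun k => by cases k; exacts [da, db]) (hD.comp _) {false} {true} (by simp)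
      (fun k => k = false ∧ ¬ NSa (f a)) (fun k => by
        cases k
        · by_cases n : NSa (f a)
          exacts [Or.inr (Or.inr (Or.inr ⟨n, ua⟩)), Or.inr (Or.inr (Or.inl ⟨rfl, n⟩))]
        · simp) (fun i j _ => by cases j <;> simp)
      (Or.inr ⟨fun i j hi hj => hi.1.trans hj.1.symm, by
        rintro _ ⟨rfl, n⟩
        exact ⟨ua, sa.resolve_left n⟩⟩)
  rcases (hV z (fun e => z0 (by rw [e]; rfl)) (fun i h => ⟨(hz i h).1, (hz i h).2.2⟩)
    fun i j hi hj => hD.domA.trans (Algebra.subset_adjoin ⟨i, rfl⟩) (Algebra.subset_adjoin ⟨a, rfl⟩)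
      (Algebra.subset_adjoin ⟨j, rfl⟩) a0 (hz i hi).2.1 (hz j hj).2.1).resolve_left hT with ⟨b, hb⟩ | ⟨b, c, hb, hc', h⟩
  · by_cases b0 : Alg0 (x b)
    · exact red hD (cond · a a) false a0 (fun i => Or.inr (dp i fun e =>
        e.2 ((hb i e.1).elim id fun e' => e' ▸ b0))) (pair a oa da) hP
    refine red hD (cond · b a) false a0 (fun i => ?_) ?_ hP
    · by_cases e : z i = 0 ∧ ¬ Alg0 (x i)
      exacts [Or.inl ⟨true, (hb i e.1).resolve_left e.2⟩, Or.inr (dp i e)]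
    by_cases eb : E b
    · exact pair b (hE b eb).1 (hE b eb).2.1
    rcases hN b eb with e | e | e
    · exact absurd e b0
    · exact pair b e.1 e.2.1
    intro Q hQ
    by_cases Q0 : Q = 0
    · exact Eventually.of_forall fun n => by rw [Q0, map_zero]
    obtain ⟨G, G0, hG⟩ := mv_biv (i := true) (j := false) (by simp) (by simp) Q0
    exact absurd (hQ.mono fun n hn => (hG fun k => x (cond k b a) n).trans hn)
      (pairLow σ oa a0 (hs b) b0 (da ▸ e) G0)
  · refine red hD (fun k : Option Bool => k.elim a (cond · b c)) none a0 (fun i => ?_)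
      (fun Q => ?_) hP
    · by_cases e : z i = 0 ∧ ¬ Alg0 (x i)
      · rcases (h i e.1).resolve_left e.2 with e | e
        exacts [Or.inl ⟨some true, e⟩, Or.inl ⟨some false, e⟩]
      · exact Or.inr (dp i e)
    have ee : ∀ k : Option Bool, E (k.elim a (cond · b c)) := by
      rintro (_ | _ | _)
      exacts [ea, hc'.1, hb.1]
    exact coreG hK σ hc hd (f := fun k : Option Bool => f (k.elim a (cond · b c)))
      (fun k => (hE _ (ee k)).1) (fun k => (hE _ (ee k)).2.1) (hD.comp _) Finset.univ ∅ (by simp)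
      (fun k => k = none ∧ ¬ NSa (f a)) (fun k => Or.inr (Or.inr (by
        rcases k with _ | _ | _
        · by_cases n : NSa (f a)
          exacts [Or.inr ⟨n, ua⟩, Or.inl ⟨rfl, n⟩]
        exacts [Or.inr ⟨hc'.2, (hE c hc'.1).2.2.1⟩, Or.inr ⟨hb.2, (hE b hb.1).2.2.1⟩])))
      (fun i j _ => by simp)
      (Or.inr ⟨fun i j hi hj => hi.1.trans hj.1.symm, by
        rintro _ ⟨rfl, n⟩
        exact ⟨ua, sa.resolve_left n⟩⟩)

end Pool.Agent.P.MP_68214b_ag.DS
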