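import Pool.Agent.P.MP_68214b_ag.DU3
import Pool.Agent.P.MP_68214b_ag.DSD9

open Polynomial Filter Asymptotics NumberField Topology

namespace Pool.Agent.P.MP_68214b_ag.DS

theorem per_of_core' {K J : Type*} [Field K] [Finite J] (x : J → ℕ → K)
    (S : Set (MvPolynomial J K)) {l : ℕ} (hl : 0 < l) (h : ∀ c,
      (∃ᶠ t in atTop, ∀ P ∈ S, MvPolynomial.eval (fun i => x i (c + l * t)) P = 0) →
        ∀ P ∈ S, Van (fun i t => x i (c + l * t)) P) :
    ∃ n0, ∀ n ≥ n0, ((∀ P ∈ S, MvPolynomial.eval (fun i => x i n) P = 0) ↔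
      ∀ P ∈ S, MvPolynomial.eval (fun i => x i (n + l)) P = 0) := by
  set p : ℕ → Prop := fun n => ∀ P ∈ S, MvPolynomial.eval (fun i => x i n) P = 0 with hp
  have h1 : ∀ c, ∀ᶠ t in atTop, (p (c + l * t) ↔ p (c + l * (t + 1))) := fun c => by
    have : (∀ᶠ t in atTop, p (c + l * t)) ∨ ∀ᶠ t in atTop, ¬ p (c + l * t) := by
      by_cases hv : ∃ᶠ t in atTop, p (c + l * t)
      · exact Or.inl (unif_van _ S (h c hv))
      · exact Or.inr (not_frequently.1 hv)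
    rcases this with e | e <;>
      filter_upwards [e, (tendsto_add_atTop_nat 1).eventually e] with t a b
    · exact iff_of_true a b
    · exact iff_of_false a b
  obtain ⟨t0, h2⟩ := eventually_atTop.1
    ((eventually_all_finset (Finset.range l)).2 fun c _ => h1 c)
  refine ⟨l * t0, fun n hn => ?_⟩
  have := h2 (n / l) ((Nat.le_div_iff_mul_le hl).2 (by rwa [mul_comm])) (n % l)
    (Finset.mem_range.2 (Nat.mod_lt _ hl))
  rwa [mul_add, mul_one, ← add_assoc, Nat.mod_add_div] at this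

theorem topU {K : Type} [Field K] [NumberField K] (hK : Cj K) (σ : K →+* ℂ) {J : Type} [Fintype J]
    {d : ℕ} (hd : 2 ≤ d) {f : J → K[X]} {x : J → ℕ → K}
    (hs : ∀ i n, x i (n + 1) = (f i).eval (x i n)) (E : J → Prop)
    (hE : ∀ i, E i → Orb (f i) (x i) ∧ (f i).natDegree = d ∧ ¬ Bdd σ (x i) ∧
      (NSa (f i) ∨ SpF d fun n => σ (x i n)))
    (hN : ∀ i, ¬ E i → Alg0 (x i) ∨ (Orb (f i) (x i) ∧ (f i).natDegree = d ∧ Bdd σ (x i)) ∨
      (Orb (f i) (x i) ∧ (f i).natDegree < d) ∨ ∃ a b, ∀ n, x i (n + 1) = a * x i n + b)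
    (h0 : ∃ i, E i)
    (h3 : ∀ i j k, E i → E j → E k → i ≠ j → i ≠ k → j ≠ k → NSa (f i) ∨ NSa (f j) ∨ NSa (f k))
    {w : J → ℕ} (hw : ∀ i, 0 < w i) (S : Set (MvPolynomial J K))
    (hV : ∀ z : J → ℂ, z ≠ 0 → (∀ i, z i ≠ 0 → E i ∧ ∃ k, 0 < k ∧ z i ^ k = 1) →
      (∀ i j, z i ≠ 0 → z j ≠ 0 → Dep (x i) (x j)) → Top w z (fun i n => σ (x i n)) (fun n => ∀ P ∈ S, MvPolynomial.eval (fun i => x i n) P = 0) ∨
        (∃ b, ∀ i, z i = 0 → Alg0 (x i) ∨ i = b) ∨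
        ∃ b c, (E b ∧ NSa (f b)) ∧ (E c ∧ NSa (f c)) ∧
          ∀ i, z i = 0 → Alg0 (x i) ∨ i = b ∨ i = c) : ∃ l, 0 < l ∧ ∃ n0, ∀ n ≥ n0,
      ((∀ P ∈ S, MvPolynomial.eval (fun i => x i n) P = 0) ↔
        ∀ P ∈ S, MvPolynomial.eval (fun i => x i (n + l)) P = 0) := by
  obtain ⟨l, hl, hD⟩ := oc f x hs
  refine ⟨l, hl, per_of_core' x S hl fun c hg P hP => ?_⟩
  have ht := tend_prog c hl
  have d2 : 2 ≤ d ^ l := hd.trans (Nat.le_self_pow hl.ne' d)
  have al : ∀ i, Alg0 (x i) → Alg0 fun t => x i (c + l * t) := fun i ⟨g, g0, e⟩ =>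
    ⟨g, g0, ht.eventually e⟩
  have ns : ∀ i, E i → NSa (f i) → NSa (iter (f i) l) := fun i h n => n.iter (hE i h).1.deg hl
  have dp : ∀ i j, E i → E j → Dep (fun t => x i (c + l * t)) (fun t => x j (c + l * t)) →
      Dep (x i) (x j) := fun i j a b e => by
    obtain ⟨p, u, -, e1⟩ := bl (hE i a).1 σ (hE i a).2.2.1
    obtain ⟨q, v, -, e2⟩ := bl (hE j b).1 σ (hE j b).2.2.1
    rw [(hE i a).2.1] at e1
    rw [(hE j b).2.1] at e2
    exact dep_of_rel (hE i a).1 (hE j b).1 (hE i a).2.1 (hE j b).2.1 e1 e2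
      (rel_of_pow (by positivity) (by positivity)
        (be d2 (e1.prog (by omega) c hl) (e2.prog (by omega) c hl) e))
  refine coreU hK σ d2 (f := fun i => iter (f i) l)
    (fun i t => by rw [mul_add, mul_one, ← add_assoc, step_iter (hs i)]) (hD c) E
    (fun i h => ⟨(hE i h).1.prog c hl, by rw [iter_natDegree, (hE i h).2.1],
      unb_prog (hE i h).1 (hE i h).2.2.1 c hl, (hE i h).2.2.2.imp (ns i h) fun e => e.prog c l⟩)
    (fun i h => (hN i h).imp (al i) (Or.imp (fun ⟨a, b, M, e⟩ => ⟨a.prog c hl,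
      by rw [iter_natDegree, b], M, fun _ => e _⟩) ?_)) h0
    (fun i j k a b e a' b' e' => (h3 i j k a b e a' b' e').imp (ns i a) (Or.imp (ns j b) (ns k e)))
    hw hg (fun z a b e => (hV z a b fun i j hi hj =>
      dp i j (b i hi).1 (b j hj).1 (e i j hi hj)).imp (fun ⟨M, c, D, e1, e2, e3, e4⟩ =>
      ⟨M, c, D, e1, e2, e3, fun _ => e4 _⟩) (Or.imp
      (Exists.imp fun b e i hi => (e i hi).imp_left (al i))
      fun ⟨b, c, e1, e2, e⟩ => ⟨b, c, ⟨e1.1, ns b e1.1 e1.2⟩, ⟨e2.1, ns c e2.1 e2.2⟩,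
        fun i hi => (e i hi).imp_left (al i)⟩)) (hg.mono fun t e => e P hP)
  rintro (⟨a, b⟩ | ⟨a, b, e⟩)
  · exact smh_low le_rfl (a.prog c hl) (by
      rw [iter_natDegree]; exact Nat.pow_lt_pow_left b hl.ne')
  · exact smh_aff le_rfl d2 e c l

theorem top_of {J : Type*} [Fintype J] (w : J → ℕ) (s : ℂ →+* ℂ) {κ ζ : J → ℂ} {z : J → ℕ → ℂ}
    (κ0 : ∀ i, κ i ≠ 0) (aκ : ∀ i, IsAlgebraic ℚ (κ i)) (aζ : ∀ i, IsAlgebraic ℚ (ζ i))
    (az : ∀ i n, IsAlgebraic ℚ (z i n)) {F : MvPolynomial J ℂ} {good : ℕ → Prop}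
    (hF : ∀ n, good n → MvPolynomial.eval (fun i => z i n) F = 0)
    (h : MvPolynomial.eval ζ (MvPolynomial.weightedHomogeneousComponent w
      (MvPolynomial.weightedTotalDegree w F) F) ≠ 0) :
    Top w (fun i => s (κ i * ζ i)) (fun i n => s (κ i * z i n)) good := by
  classical
  set L := algebraicClosure ℚ ℂ with hL
  obtain ⟨lam, hl⟩ : ∃ lam : ℂ →ₗ[L] L, lam _ ≠ 0 :=
    not_forall.1 (mt (Module.forall_dual_apply_eq_zero_iff L _).1 h)
  have wt : ∀ m : J →₀ ℕ, Finsupp.weight w m = ∑ i, w i * m i := fun m => by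
    rw [Finsupp.weight_apply, Finsupp.sum_fintype _ _ (by simp)]
    simp only [smul_eq_mul, mul_comm]
  have key : ∀ (M : Finset (J →₀ ℕ)) (a : J → ℂ), (∀ i, IsAlgebraic ℚ (a i)) →
      ∑ m ∈ M, (s (lam (F.coeff m)) * ∏ i, (s (κ i))⁻¹ ^ m i) * ∏ i, s (κ i * a i) ^ m i =
        s (lam (∑ m ∈ M, F.coeff m * ∏ i, a i ^ m i)) := fun M a ha => by
    rw [map_sum, AddSubmonoidClass.coe_finsetSum, map_sum]
    refine Finset.sum_congr rfl fun m _ => ?_
    have e : F.coeff m * ∏ i, a i ^ m i =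
        (∏ i, (⟨a i, mem_algebraicClosure_iff.2 (ha i)⟩ : L) ^ m i) • F.coeff m := by
      rw [IntermediateField.smul_def, smul_eq_mul, mul_comm]
      simp
    rw [e, map_smul, smul_eq_mul, mul_assoc, ← Finset.prod_mul_distrib, mul_comm]
    simp only [IntermediateField.coe_mul, IntermediateField.coe_prod, IntermediateField.coe_pow,
      map_mul, map_prod, map_pow, ← mul_pow,
      inv_mul_cancel_left₀ ((_root_.map_ne_zero s).2 (κ0 _))]
  refine ⟨F.support, fun m => s (lam (F.coeff m)) * ∏ i, (s (κ i))⁻¹ ^ m i,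
    MvPolynomial.weightedTotalDegree w F, fun m => ?_,
    fun m hm => wt m ▸ MvPolynomial.le_weightedTotalDegree w hm, ?_, fun n hn => ?_⟩
  · rw [← mem_algebraicClosure_iff]
    exact mul_mem (mem_algebraicClosure_iff.2 ((mem_algebraicClosure_iff.1
      (lam (F.coeff m)).2).algHom s.toRatAlgHom)) (prod_mem fun i _ => pow_mem (inv_mem
        (mem_algebraicClosure_iff.2 ((aκ i).algHom s.toRatAlgHom))) _)
  · rw [key _ _ aζ, _root_.map_ne_zero, Ne, ZeroMemClass.coe_eq_zero]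
    convert hl using 3
    simp only [MvPolynomial.weightedHomogeneousComponent_apply, map_sum,
      MvPolynomial.eval_monomial, wt, Finsupp.prod_pow]
  · rw [key _ _ fun i => az i n, ← MvPolynomial.eval_eq', hF n hn]
    simp

theorem root_pull (s : ℂ →+* ℂ) {ζ : ℂ} {k : ℕ} (hk : 0 < k) (h : ζ ^ k = 1) :
    ∃ η, η ^ k = 1 ∧ s η = ζ := by
  have p := Complex.isPrimitiveRoot_exp k hk.ne'
  have : NeZero k := ⟨hk.ne'⟩
  obtain ⟨j, -, e⟩ := (p.map_of_injective s.injective).eq_pow_of_pow_eq_one h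
  exact ⟨_ ^ j, by rw [← pow_mul, mul_comm, pow_mul, p.pow_eq_one, one_pow], by rw [map_pow, e]⟩

theorem lc_of {f g : ℂ[X]} {κ : ℂ} (κ0 : κ ≠ 0) (hg : g.Monic) (hd : g.natDegree = f.natDegree)
    (h2 : 2 ≤ f.natDegree) {z : ℕ → ℂ} (hz : (Set.range z).Infinite)
    (h : ∀ n, g.eval (κ * z n) = κ * f.eval (z n)) : f.leadingCoeff = κ ^ (f.natDegree - 1) := by
  have e : g.comp (C κ * X) = C κ * f := eq_of_infinite_eval_eq _ _ (hz.mono (by
    rintro _ ⟨n, rfl⟩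
    simpa [eval_comp] using h n))
  have := congrArg leadingCoeff e
  rw [leadingCoeff_comp (by rw [natDegree_C_mul κ0, natDegree_X]; exact one_ne_zero), hg,
    leadingCoeff_mul, leadingCoeff_mul, leadingCoeff_C, leadingCoeff_X, one_mul, mul_one, hd,
    ← Nat.sub_add_cancel (show 1 ≤ f.natDegree by omega), pow_succ'] at this
  exact (mul_left_cancel₀ κ0 this).symm

theorem dep_scale {L : Type*} [Field L] {a b : ℕ → L} {κ : L} (κ0 : κ ≠ 0)
    (h : Dep a fun n => κ * b n) : Dep a b := by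
  obtain ⟨G, G0, h⟩ := h
  refine ⟨G.comp (C (C κ) * X), fun e => ?_, h.mono fun n hn => ?_⟩
  · rcases comp_eq_zero_iff.1 e with e | ⟨-, e⟩
    · exact G0 e
    · have := congrArg (coeff · 1) e
      simp [coeff_C, κ0] at this
  · rw [← hn, evalEval, evalEval, eval_comp]
    simp

theorem dep_C {K : Type*} [Field K] (ι : K →+* ℂ) {x y : ℕ → K} {a b : ℕ → ℂ} {κ κ' : ℂ}
    (κ0 : κ ≠ 0) (κ1 : κ' ≠ 0) (hx : ∀ n, ι (x n) = κ * a n) (hy : ∀ n, ι (y n) = κ' * b n)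
    (h : Dep x y) : Dep a b := by
  obtain ⟨G, G0, h⟩ := h
  refine (dep_scale κ0 (dep_scale κ1 (a := fun n => κ * a n) ⟨G.map (mapRingHom ι),
    (Polynomial.map_ne_zero_iff (map_injective ι ι.injective)).2 G0, h.mono fun n hn => ?_⟩).symm).symm
  beta_reduce
  rw [← hx, ← hy, map_mapRingHom_evalEval, hn, map_zero]

theorem mainU {J : Type} [Fintype J] (f : J → ℂ[X]) (z : J → ℕ → ℂ)
    (hz : ∀ i n, z i (n + 1) = (f i).eval (z i n)) {d : ℕ} (hd2 : 2 ≤ d)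
    (hf : ∀ i k, IsAlgebraic ℚ ((f i).coeff k)) (z0 : ∀ i, IsAlgebraic ℚ (z i 0))
    (hd : ∀ i, (Set.range (z i)).Infinite → (f i).natDegree ≤ d) (s : ℂ →+* ℂ) (E : J → Prop)
    (eE : ∀ i, E i ↔ (f i).natDegree = d ∧ ¬ Bdd s (z i)) (h0 : ∃ i, E i)
    (h3 : ∀ i j k, E i → E j → E k → i ≠ j → i ≠ k → j ≠ k →
      ¬ Special (f i) ∨ ¬ Special (f j) ∨ ¬ Special (f k))
    {w : J → ℕ} (hw : ∀ i, 0 < w i) (I : Set (MvPolynomial J ℂ))
    (hV : ∀ ζ : J → ℂ, ζ ≠ 0 →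
      (∀ i, ζ i ≠ 0 → E i ∧ ∃ k, 0 < k ∧ ((f i).leadingCoeff * ζ i ^ (d - 1)) ^ k = 1) →
      (∀ i j, ζ i ≠ 0 → ζ j ≠ 0 → Dep (z i) (z j)) →
      (∃ F : MvPolynomial J ℂ,
        (∀ p : J → ℂ, (∀ P ∈ I, MvPolynomial.eval p P = 0) → MvPolynomial.eval p F = 0) ∧
        MvPolynomial.eval ζ (MvPolynomial.weightedHomogeneousComponent w
          (MvPolynomial.weightedTotalDegree w F) F) ≠ 0) ∨
      (∃ b, ∀ i, ζ i = 0 → (Set.range (z i)).Finite ∨ i = b) ∨
        ∃ b c, (E b ∧ ¬ Special (f b)) ∧ (E c ∧ ¬ Special (f c)) ∧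
          ∀ i, ζ i = 0 → (Set.range (z i)).Finite ∨ i = b ∨ i = c) :
    ∃ l, 0 < l ∧ ∃ n0, ∀ n ≥ n0, ((∀ P ∈ I, MvPolynomial.eval (fun i => z i n) P = 0) ↔
        ∀ P ∈ I, MvPolynomial.eval (fun i => z i (n + l)) P = 0) := by
  have ez : ∀ i n, (fun w => (f i).eval w)^[n] (z i 0) = z i n := fun i n => by
    induction n with
    | zero => rfl
    | succ n ih => rw [Function.iterate_succ_apply', ih, hz]
  obtain ⟨K, κ, g0, x, hK, hC, -, hκ, hO, hA, hx⟩ := exists_orb f (fun i => z i 0) hf z0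
    ∅ (by simp)
  simp only [ez] at hx
  have : NumberField K := ⟨⟩
  have hg : ∀ i, ∃ g : K[X], (∀ n, x i (n + 1) = g.eval (x i n)) ∧
      (2 ≤ (f i).natDegree → g0 i = g) := fun i => by
    by_cases h : 2 ≤ (f i).natDegree
    · exact ⟨g0 i, (hO i h).1.step, fun _ => rfl⟩
    · obtain ⟨a, b, e⟩ := hA i h
      exact ⟨C a * X + C b, fun n => by simp [e], fun e => absurd e h⟩
  choose g hs hg using hg
  replace hO : ∀ i, 2 ≤ (f i).natDegree → Orb (g i) (x i) ∧ (g i).natDegree = (f i).natDegree ∧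
      (¬ Special (f i) → NSa (g i)) := fun i h => hg i h ▸ hO i h
  set σ := s.comp (algebraMap K ℂ) with hσ
  have e1 : ∀ i n, σ (x i n) = s (κ i * z i n) := fun i n => congrArg s (hx i n)
  have κ0 : ∀ i, (κ i : ℂ) ≠ 0 := fun i => by simpa using hκ i
  have s0 : ∀ i, 0 < ‖s (κ i)‖ := fun i => norm_pos_iff.2 ((_root_.map_ne_zero s).2 (κ0 i))
  have ub : ∀ i, Bdd σ (x i) ↔ Bdd s (z i) := fun i => ⟨fun ⟨M, hM⟩ =>
    ⟨‖s (κ i)‖⁻¹ * M, fun n => by
      have := hM n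
      rw [e1, map_mul, norm_mul] at this
      rwa [le_inv_mul_iff₀ (s0 i)]⟩, fun ⟨M, hM⟩ => ⟨‖s (κ i)‖ * M, fun n => by
      rw [e1, map_mul, norm_mul]
      exact mul_le_mul_of_nonneg_left (hM n) (norm_nonneg _)⟩⟩
  have al : ∀ i, (Set.range (z i)).Finite → Alg0 (x i) := fun i a => by
    refine alg0_of_finite (Set.Finite.of_finite_image (f := fun a : K => (a : ℂ))
      ((a.image fun z => (κ i : ℂ) * z).subset ?_) Subtype.val_injective.injOn)
    rintro _ ⟨_, ⟨n, rfl⟩, rfl⟩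
    exact ⟨_, ⟨n, rfl⟩, (hx i n).symm⟩
  have d2 : ∀ i, E i → 2 ≤ (f i).natDegree := fun i h => ((eE i).1 h).1 ▸ hd2
  have inf : ∀ i, E i → (Set.range (z i)).Infinite := fun i h a => by
    obtain ⟨M, hM⟩ := (a.image fun t => ‖s t‖).bddAbove
    exact ((eE i).1 h).2 ⟨M, fun n => hM ⟨_, ⟨n, rfl⟩, rfl⟩⟩
  have ns : ∀ i, E i → ¬ Special (f i) → NSa (g i) := fun i h => (hO i (d2 i h)).2.2
  obtain ⟨𝓡, h𝓡⟩ := descendMv (algebraMap K ℂ) (phi (fun i => C (κ i : ℂ)⁻¹ * X) '' I)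
  have key (n : ℕ) : (∀ P ∈ I, MvPolynomial.eval (fun i => z i n) P = 0) ↔
      ∀ Q ∈ 𝓡, MvPolynomial.eval (fun i => x i n) Q = 0 := by
    rw [← h𝓡 fun i => x i n, Set.forall_mem_image]
    refine forall₂_congr fun P _ => ?_
    have e (i : J) : (C (κ i : ℂ)⁻¹ * X).eval (algebraMap K ℂ (x i n)) = z i n := by
      rw [eval_mul, eval_C, eval_X, show algebraMap K ℂ (x i n) = x i n from rfl, hx,
        inv_mul_cancel_left₀ (κ0 i)]
    simp only [eval_phi, e]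
  have aκ : ∀ i, IsAlgebraic ℚ (κ i : ℂ) := fun i => alg_emb (algebraMap K ℂ) (κ i)
  obtain ⟨l, hl, n0, H⟩ := topU hC σ hd2 hs E (fun i h => ⟨(hO i (d2 i h)).1,
      (hO i (d2 i h)).2.1.trans ((eE i).1 h).1, mt (ub i).1 ((eE i).1 h).2, by
        by_cases a : Special (f i)
        · refine Or.inr ?_
          simpa only [e1, ((eE i).1 h).1] using (spf_of (d2 i h) (hf i) a (z0 i) (hz i)
            (by_contra fun a => inf i h ((Set.finite_singleton (z i 0)).subset (by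
              rintro _ ⟨n, rfl⟩
              exact not_not.1 (not_exists.1 a n))))).map s (κ i)
        · exact Or.inl (ns i h a)⟩) (fun i h => by
      by_cases a : (Set.range (z i)).Finite
      · exact Or.inl (al i a)
      by_cases b : 2 ≤ (f i).natDegree
      swap
      · exact Or.inr (Or.inr (Or.inr (hA i b)))
      rcases (hd i a).eq_or_lt with e | e
      · exact Or.inr (Or.inl ⟨(hO i b).1, (hO i b).2.1.trans e,
          (ub i).2 (by_contra fun t => h ((eE i).2 ⟨e, t⟩))⟩)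
      · exact Or.inr (Or.inr (Or.inl ⟨(hO i b).1, (hO i b).2.1 ▸ e⟩))) h0
    (fun i j k a b e a' b' e' => (h3 i j k a b e a' b' e').imp (ns i a) (Or.imp (ns j b) (ns k e)))
    hw 𝓡 fun y y0 hy hp => by
      have : ∀ i, ∃ η, s η = y i ∧ (y i ≠ 0 → ∃ k, 0 < k ∧ η ^ k = 1) := fun i => by
        by_cases h : y i = 0
        · exact ⟨0, by rw [h, map_zero], fun e => absurd h e⟩
        · obtain ⟨k, k0, hk⟩ := (hy i h).2
          obtain ⟨η, a, b⟩ := root_pull s k0 hk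
          exact ⟨η, b, fun _ => ⟨k, k0, a⟩⟩
      choose η hη hη' using this
      have zz : ∀ i, (κ i : ℂ)⁻¹ * η i = 0 ↔ y i = 0 := fun i => by
        rw [mul_eq_zero, inv_eq_zero, ← hη, _root_.map_eq_zero, or_iff_right (κ0 i)]
      refine (hV (fun i => (κ i : ℂ)⁻¹ * η i) (fun e => y0 (funext fun i => (zz i).1 (congrFun e i)))
        (fun i h => ?_) fun i j hi hj => dep_C (algebraMap K ℂ) (κ0 i) (κ0 j) (hx i) (hx j)
          (hp i j (mt (zz i).2 hi) (mt (zz j).2 hj))).imp (fun ⟨F, a, b⟩ => ?_) (Or.imp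
          (Exists.imp fun b e i hi => (e i ((zz i).2 hi)).imp_left (al i))
          fun ⟨b, c, e1, e2, e⟩ => ⟨b, c, ⟨e1.1, ns b e1.1 e1.2⟩, ⟨e2.1, ns c e2.1 e2.2⟩,
            fun i hi => (e i ((zz i).2 hi)).imp_left (al i)⟩)
      · have h' := mt (zz i).2 h
        have ei := (hy i h').1
        obtain ⟨k, k0, hk⟩ := hη' i h'
        refine ⟨ei, k, k0, ?_⟩
        rw [lc_of (κ0 i) ((hO i (d2 i ei)).1.monic.map (algebraMap K ℂ))
          ((natDegree_map _).trans (hO i (d2 i ei)).2.1) (d2 i ei) (inf i ei) fun n => by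
            rw [← hz, ← hx, ← hx, hs, eval_map]
            exact eval₂_at_apply (algebraMap K ℂ) _, ((eE i).1 ei).1, ← mul_pow,
          mul_inv_cancel_left₀ (κ0 i), ← pow_mul, mul_comm, pow_mul, hk, one_pow]
      · have := top_of w s κ0 aκ (fun i => (aκ i).inv.mul (by
          by_cases h : y i = 0
          · rw [← hη, _root_.map_eq_zero] at h
            exact h ▸ isAlgebraic_zero
          · obtain ⟨k, k0, hk⟩ := hη' i h
            exact mem_algebraicClosure_iff.1 (dss3_root k0 hk))) (z := z) (fun i n => by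
          rw [← inv_mul_cancel_left₀ (κ0 i) (z i n), ← hx]
          exact (aκ i).inv.mul (alg_emb (algebraMap K ℂ) _))
          (fun n hn => a _ ((key n).2 hn)) b
        simpa only [e1, mul_inv_cancel_left₀ (κ0 _), hη] using this
  exact ⟨l, hl, n0, fun n hn => by rw [key, key]; exact H n hn⟩

end Pool.Agent.P.MP_68214b_ag.DS
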