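import Pool.Agent.P.MP_68214b_ag.Basic

open Polynomial Finset

namespace Pool.Agent.P.MP_68214b_ag

/-- nodes 0..n, each with multiplicity m+1 -/
noncomputable def Om (R : Type*) [CommRing R] (n m : ℕ) : R[X] :=
  ∏ j ∈ range (n + 1), (X - C (j : R)) ^ (m + 1)

/-- divided difference of f on the nodes of Om -/
noncomputable def Dd {R : Type*} [CommRing R] (n m : ℕ) (f : R[X]) : R :=
  (f %ₘ Om R n m).coeff ((n + 1) * (m + 1) - 1)

/-- the common denominator -/
def Zd (n m : ℕ) : ℕ := n.factorial ^ (m + 1) * (Nat.lcmUpto n) ^ m * m.factorial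

theorem HLCore_monic (R : Type*) [CommRing R] (n m : ℕ) : (Om R n m).Monic :=
  monic_prod_of_monic _ _ fun _ _ => (monic_X_sub_C _).pow _

theorem HLCore_Om_map {R S : Type*} [CommRing R] [CommRing S] (φ : R →+* S) (n m : ℕ) :
    (Om R n m).map φ = Om S n m := by
  simp [Om, Polynomial.map_prod]

theorem Dd_map {R S : Type*} [CommRing R] [CommRing S] (φ : R →+* S) (n m : ℕ) (f : R[X]) :
    φ (Dd n m f) = Dd n m (f.map φ) := by
  unfold Dd
  rw [← coeff_map, map_modByMonic φ (HLCore_monic R n m), HLCore_Om_map]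

theorem Dd_add {R : Type*} [CommRing R] (n m : ℕ) (f g : R[X]) :
    Dd n m (f + g) = Dd n m f + Dd n m g := by
  unfold Dd
  rw [add_modByMonic, coeff_add]

theorem Dd_smul {R : Type*} [CommRing R] (n m : ℕ) (c : R) (f : R[X]) :
    Dd n m (C c * f) = c * Dd n m f := by
  unfold Dd
  rw [← smul_eq_C_mul, smul_modByMonic, coeff_smul, smul_eq_mul]

/-- node polynomial of a multiset -/
noncomputable def HLCoreW (s : Multiset ℤ) : ℤ[X] := (s.map fun a => X - C a).prod

/-- divided difference on a multiset of nodes -/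
noncomputable def HLCoreDD (s : Multiset ℤ) (f : ℤ[X]) : ℤ :=
  (f %ₘ HLCoreW s).coeff (Multiset.card s - 1)

theorem HLCoreW_monic (s : Multiset ℤ) : (HLCoreW s).Monic :=
  monic_multiset_prod_of_monic _ _ fun _ _ => monic_X_sub_C _

theorem HLCoreW_degree (s : Multiset ℤ) : (HLCoreW s).degree = Multiset.card s := by
  rw [degree_eq_natDegree (HLCoreW_monic s).ne_zero, HLCoreW, natDegree_multiset_prod_X_sub_C_eq_card]

theorem HLCoreW_cons (a : ℤ) (s : Multiset ℤ) : HLCoreW (a ::ₘ s) = (X - C a) * HLCoreW s := by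
  simp [HLCoreW]

theorem HLCoreDD_cons (a : ℤ) (s : Multiset ℤ) (g : ℤ[X]) :
    HLCoreDD (a ::ₘ s) ((X - C a) * g) = HLCoreDD s g := by
  have hr : (g %ₘ HLCoreW s).degree < Multiset.card s := by
    rw [← HLCoreW_degree]; exact degree_modByMonic_lt g (HLCoreW_monic s)
  have h1 : ((X - C a) * g) %ₘ HLCoreW (a ::ₘ s) = (X - C a) * (g %ₘ HLCoreW s) := by
    refine (div_modByMonic_unique (g /ₘ HLCoreW s) _ (HLCoreW_monic _) ⟨?_, ?_⟩).2
    · rw [HLCoreW_cons]
      have := modByMonic_add_div g (HLCoreW s)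
      linear_combination (X - C a) * this
    · rw [HLCoreW_cons, degree_mul, degree_mul, degree_X_sub_C, HLCoreW_degree]
      exact WithBot.add_lt_add_left (by simp) hr
  unfold HLCoreDD
  rw [h1, Multiset.card_cons, Nat.add_sub_cancel]
  have h0 : (g %ₘ HLCoreW s).coeff (Multiset.card s) = 0 := coeff_eq_zero_of_degree_lt hr
  rcases hc : Multiset.card s with _ | e
  · rw [hc] at h0
    simp [sub_mul, h0]
  · rw [hc] at h0
    rw [sub_mul, coeff_sub, coeff_X_mul, coeff_C_mul, h0]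
    simp

theorem HLCoreDD_bound (n : ℕ) (M : ℕ) : ∀ s : Multiset ℤ, s ≠ 0 → (∀ a ∈ s, |a| ≤ n) →
    |HLCoreDD s (X ^ M)| ≤ (M.choose (Multiset.card s - 1) * n ^ (M - (Multiset.card s - 1)) : ℕ) := by
  induction M with
  | zero =>
    intro s hs _
    have hc : 0 < Multiset.card s := Multiset.card_pos.2 hs
    unfold HLCoreDD
    rw [pow_zero, (modByMonic_eq_self_iff (HLCoreW_monic s)).2
      (by rw [HLCoreW_degree, degree_one]; exact_mod_cast hc), coeff_one]
    rcases h : Multiset.card s - 1 with _ | e <;> simp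
  | succ M ih =>
    intro s hs hb
    obtain ⟨a, ha⟩ := Multiset.exists_mem_of_ne_zero hs
    obtain ⟨s', rfl⟩ := Multiset.exists_cons_of_mem ha
    have h1 : HLCoreDD (a ::ₘ s') (X ^ (M + 1)) =
        HLCoreDD s' (X ^ M) + a * HLCoreDD (a ::ₘ s') (X ^ M) := by
      rw [← HLCoreDD_cons a s' (X ^ M)]
      have : (X : ℤ[X]) ^ (M + 1) = (X - C a) * X ^ M + a • X ^ M := by
        rw [smul_eq_C_mul]; ring
      unfold HLCoreDD
      rw [this, add_modByMonic, smul_modByMonic, coeff_add, coeff_smul, smul_eq_mul]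
    have h2 := ih (a ::ₘ s') hs hb
    have h3 : |a * HLCoreDD (a ::ₘ s') (X ^ M)| ≤ n * |HLCoreDD (a ::ₘ s') (X ^ M)| := by
      rw [abs_mul]; gcongr; exact hb a ha
    rw [Multiset.card_cons, Nat.add_sub_cancel] at h2 ⊢
    rw [h1]
    refine (abs_add_le _ _).trans ?_
    by_cases h0 : s' = 0
    · subst h0
      have : HLCoreDD 0 (X ^ M) = 0 := by simp [HLCoreDD, HLCoreW]
      rw [this]
      simp only [Multiset.card_zero, Nat.choose_zero_right, one_mul, Nat.sub_zero, abs_zero,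
        zero_add, Nat.cast_pow] at h2 ⊢
      refine h3.trans ?_
      rw [pow_succ']
      gcongr
    · have h4 := ih s' h0 fun b hb' => hb b (Multiset.mem_cons_of_mem hb')
      obtain ⟨e, he⟩ : ∃ e, Multiset.card s' = e + 1 :=
        Nat.exists_eq_succ_of_ne_zero (Multiset.card_pos.2 h0).ne'
      rw [he] at h2 h4 ⊢
      rw [Nat.add_sub_cancel] at h4
      have h5 : n * (M.choose (e + 1) * n ^ (M - (e + 1))) ≤ M.choose (e + 1) * n ^ (M - e) := by
        rcases Nat.lt_or_ge M (e + 1) with h | h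
        · simp [Nat.choose_eq_zero_of_lt h]
        · have : M - e = M - (e + 1) + 1 := by omega
          rw [this, pow_succ]
          exact le_of_eq (by ring)
      have h6 : (n : ℤ) * |HLCoreDD (a ::ₘ s') (X ^ M)| ≤
          ((M.choose (e + 1) * n ^ (M - e) : ℕ) : ℤ) := by
        refine le_trans ?_ (Int.ofNat_le.2 h5)
        rw [Nat.cast_mul n]
        gcongr
      rw [Nat.choose_succ_succ', Nat.add_sub_add_right, add_mul, Nat.cast_add]
      exact add_le_add h4 (h3.trans h6)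

/-- divided differences of monomials: zero in low degree, complete homogeneous bound above -/
theorem Dd_X_pow (n m M : ℕ) :
    |Dd n m ((X : ℤ[X]) ^ M)| ≤
      (M.choose ((n + 1) * (m + 1) - 1) * n ^ (M - ((n + 1) * (m + 1) - 1)) : ℕ) := by
  set s : Multiset ℤ := (m + 1) • ((range (n + 1)).val.map fun j : ℕ => (j : ℤ)) with hs
  have hc : Multiset.card s = (n + 1) * (m + 1) := by simp [hs, mul_comm]
  have hW : HLCoreW s = Om ℤ n m := by
    rw [HLCoreW, hs, Multiset.map_nsmul, Multiset.prod_nsmul, Multiset.map_map, Om, prod_pow]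
    rfl
  have := HLCoreDD_bound n M s (by rw [← Multiset.card_pos, hc]; positivity) (by
    intro a ha
    obtain ⟨j, hj, rfl⟩ := Multiset.mem_map.1 (Multiset.mem_of_mem_nsmul ha)
    have : j < n + 1 := mem_range.1 hj
    rw [Nat.abs_cast]
    exact_mod_cast Nat.lt_succ_iff.1 this)
  rwa [HLCoreDD, hW, hc] at this

section Interp
variable {F : Type*} [Field F] [CharZero F]

/-- node polynomial without the node j -/
noncomputable def HLCoreOj (F : Type*) [Field F] (n m j : ℕ) : F[X] :=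
  ∏ l ∈ (range (n + 1)).erase j, (X - C (l : F)) ^ (m + 1)

omit [CharZero F] in
theorem HLCore_dvd_iff (r : F) (k : ℕ) (p : F[X]) :
    (X - C r) ^ k ∣ p ↔ X ^ k ∣ taylor r p := by
  constructor
  · rintro ⟨q, rfl⟩
    exact ⟨taylor r q, by simp [taylor_mul, taylor_pow]⟩
  · rintro ⟨q, hq⟩
    refine ⟨taylor (-r) q, ?_⟩
    have := congrArg (taylor (-r)) hq
    rw [taylor_taylor, neg_add_cancel, taylor_zero, taylor_mul, taylor_X_pow] at this
    rw [this, C_neg, sub_eq_add_neg]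

theorem HLCore_prod_dvd (s : Finset ℕ) (k : ℕ) (p : F[X])
    (h : ∀ j ∈ s, X ^ k ∣ taylor (j : F) p) : ∏ j ∈ s, (X - C (j : F)) ^ k ∣ p :=
  Finset.prod_dvd_of_coprime
    (fun _ _ _ _ hab => (pairwise_coprime_X_sub_C (K := F) (s := fun j : ℕ => (j : F))
      Nat.cast_injective hab).pow)
    fun j hj => (HLCore_dvd_iff _ _ _).2 (h j hj)

omit [CharZero F] in
theorem HLCore_natDegree (s : Finset ℕ) (k : ℕ) :
    (∏ j ∈ s, (X - C (j : F)) ^ k).natDegree = s.card * k := by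
  rw [natDegree_prod_of_monic _ _ fun _ _ => (monic_X_sub_C _).pow _]
  simp only [natDegree_pow, natDegree_X_sub_C, mul_one, sum_const, smul_eq_mul]

omit [CharZero F] in
theorem HLCore_interp (n m : ℕ) (c R : ℕ → F[X])
    (hc : ∀ j ≤ n, X ^ (m + 1) ∣ c j * taylor (j : F) (HLCoreOj F n m j) - 1) :
    ∃ S : F[X], S.natDegree ≤ (n + 1) * (m + 1) - 1 ∧
      (∀ j ≤ n, X ^ (m + 1) ∣ R j - taylor (j : F) S) ∧
      S.coeff ((n + 1) * (m + 1) - 1) = ∑ j ∈ range (n + 1), (c j * R j).coeff m := by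
  set T : ℕ → F[X] := fun j => (c j * R j) %ₘ X ^ (m + 1) with hT
  have hTd : ∀ j, (T j).natDegree ≤ m := fun j => by
    have := degree_modByMonic_lt (c j * R j) (monic_X_pow (R := F) (m + 1))
    rw [degree_X_pow] at this
    refine natDegree_le_iff_degree_le.2 ?_
    rcases eq_or_ne (T j) 0 with h | h
    · simp [h]
    · rw [degree_eq_natDegree h] at this ⊢
      exact_mod_cast Nat.lt_succ_iff.1 (by exact_mod_cast this)
  have hTv : ∀ j, X ^ (m + 1) ∣ c j * R j - T j := fun j =>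
    ⟨(c j * R j) /ₘ X ^ (m + 1), by
      have := modByMonic_add_div (c j * R j) (X ^ (m + 1))
      linear_combination -this⟩
  have hO : ∀ j ∈ range (n + 1), (HLCoreOj F n m j).natDegree = n * (m + 1) := fun j hj => by
    rw [HLCoreOj, HLCore_natDegree, card_erase_of_mem hj, card_range, Nat.add_sub_cancel]
  have hOm : ∀ j, (HLCoreOj F n m j).Monic := fun j =>
    monic_prod_of_monic _ _ fun _ _ => (monic_X_sub_C _).pow _
  have hD : (n + 1) * (m + 1) - 1 = m + n * (m + 1) := by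
    rw [add_mul, one_mul]; omega
  refine ⟨∑ j ∈ range (n + 1), taylor (-(j : F)) (T j) * HLCoreOj F n m j, ?_, ?_, ?_⟩
  · refine natDegree_sum_le_of_forall_le _ _ fun j hj => natDegree_mul_le.trans ?_
    rw [hD, natDegree_taylor, hO j hj]
    exact Nat.add_le_add_right (hTd j) _
  · intro j hj
    have hj' : j ∈ range (n + 1) := mem_range.2 (Nat.lt_succ_of_le hj)
    rw [map_sum, ← add_sum_erase _ _ hj', taylor_mul, taylor_taylor, add_neg_cancel, taylor_zero,
      ← sub_sub]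
    refine dvd_sub ?_ (dvd_sum fun l hl => ?_)
    · have : R j - T j * taylor (j : F) (HLCoreOj F n m j) =
          (c j * R j - T j) * taylor (j : F) (HLCoreOj F n m j) -
            R j * (c j * taylor (j : F) (HLCoreOj F n m j) - 1) := by ring
      rw [this]
      exact dvd_sub ((hTv j).mul_right _) ((hc j hj).mul_left _)
    · rw [← HLCore_dvd_iff]
      exact (dvd_prod_of_mem (fun l : ℕ => (X - C (l : F)) ^ (m + 1))
        (mem_erase.2 ⟨(ne_of_mem_erase hl).symm, hj'⟩)).mul_left _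
  · rw [finsetSum_coeff]
    refine sum_congr rfl fun j hj => ?_
    rw [hD, coeff_mul_add_eq_of_natDegree_le (by rw [natDegree_taylor]; exact hTd j) (hO j hj).le,
      ← hO j hj, coeff_natDegree, (hOm j).leadingCoeff, mul_one]
    have h1 := X_pow_dvd_iff.1 (hTv j) m (Nat.lt_succ_self m)
    rw [coeff_sub, sub_eq_zero] at h1
    rw [h1]
    rcases (hTd j).eq_or_lt with h | h
    · conv_lhs => rw [← h]
      rw [coeff_taylor_natDegree, ← coeff_natDegree, h]
    · rw [coeff_eq_zero_of_natDegree_lt h,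
        coeff_eq_zero_of_natDegree_lt (by rwa [natDegree_taylor])]

end Interp

/-- truncated geometric series -/
noncomputable def HLCoreE (n m : ℕ) (a : ℤ) : ℤ[X] :=
  ∑ s ∈ range (m + 1), (C (-((Nat.lcmUpto n : ℤ) / a)) * X) ^ s

/-- scaled local factor -/
noncomputable def HLCoreP (n m i j : ℕ) : ℤ[X] :=
  (C (Nat.lcmUpto n : ℤ) * X + C (j : ℤ)) ^ i *
    ∏ l ∈ (range (n + 1)).erase j, HLCoreE n m ((j : ℤ) - l) ^ (m + 1)

/-- product of the node differences -/
def HLCorePi (n j : ℕ) : ℤ := ∏ l ∈ (range (n + 1)).erase j, ((j : ℤ) - l)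

/-- the integer coefficients -/
noncomputable def HLCoreB (n m i j k : ℕ) : ℤ :=
  (m.factorial / k.factorial : ℕ) * ((HLCorePi n j).sign * n.choose j) ^ (m + 1) *
    (Nat.lcmUpto n : ℤ) ^ k * (HLCoreP n m i j).coeff (m - k)

theorem HLCorePi_abs (j n : ℕ) (h : j ≤ n) :
    |HLCorePi n j| = j.factorial * (n - j).factorial := by
  induction n, h using Nat.le_induction with
  | base =>
    rw [HLCorePi, range_add_one, erase_insert notMem_range_self, Nat.sub_self, Nat.factorial_zero,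
      Nat.cast_one, mul_one, ← Nat.descFactorial_self, Nat.descFactorial_eq_prod_range, abs_prod,
      Nat.cast_prod]
    refine prod_congr rfl fun l hl => ?_
    have := mem_range.1 hl
    rw [Nat.cast_sub this.le, abs_of_nonneg (by omega)]
  | succ n hn ih =>
    rw [HLCorePi, range_add_one, erase_insert_of_ne (by omega),
      prod_insert (fun h => notMem_range_self (mem_of_mem_erase h)), abs_mul, ← HLCorePi, ih,
      Nat.succ_sub hn, Nat.factorial_succ, abs_of_nonpos (by push_cast; omega)]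
    push_cast [Nat.cast_sub hn]
    ring

theorem HLCorePi_mul (j n : ℕ) (h : j ≤ n) :
    HLCorePi n j * ((HLCorePi n j).sign * n.choose j) = n.factorial := by
  rw [← mul_assoc, Int.mul_sign_self, Int.natCast_natAbs, HLCorePi_abs j n h,
    ← Nat.choose_mul_factorial_mul_factorial h]
  push_cast
  ring

theorem HLCore_mul_bound (L κ c : ℤ) (hL : 0 ≤ L) (hκ : 0 ≤ κ) (hc : 0 ≤ c) (p e : ℤ[X])
    (hp : ∀ r, |p.coeff r| ≤ c * (2 * L) ^ r) (he : ∀ s, |e.coeff s| ≤ κ * L ^ s) (r : ℕ) :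
    |(p * e).coeff r| ≤ c * (2 * κ) * (2 * L) ^ r := by
  rw [coeff_mul, Nat.sum_antidiagonal_eq_sum_range_succ_mk]
  refine (abs_sum_le_sum_abs _ _).trans ?_
  have h1 : ∀ a ∈ range (r + 1), |p.coeff a * e.coeff (r - a)| ≤ c * κ * L ^ r * 2 ^ a := by
    intro a ha
    have ha' : a ≤ r := Nat.lt_succ_iff.1 (mem_range.1 ha)
    rw [abs_mul]
    refine (mul_le_mul (hp a) (he _) (abs_nonneg _) (by positivity)).trans (le_of_eq ?_)
    have : L ^ r = L ^ a * L ^ (r - a) := by rw [← pow_add, Nat.add_sub_cancel' ha']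
    rw [this]
    ring
  refine (sum_le_sum h1).trans ?_
  have h2 : ∑ a ∈ range (r + 1), (2 : ℤ) ^ a ≤ 2 ^ (r + 1) := by
    have := geom_sum_mul (2 : ℤ) (r + 1)
    linarith
  rw [← mul_sum]
  refine (mul_le_mul_of_nonneg_left h2 (by positivity)).trans (le_of_eq ?_)
  ring

theorem HLCore_pow_bound (L κ c : ℤ) (hL : 0 ≤ L) (hκ : 0 ≤ κ) (hc : 0 ≤ c) (p e : ℤ[X])
    (hp : ∀ r, |p.coeff r| ≤ c * (2 * L) ^ r) (he : ∀ s, |e.coeff s| ≤ κ * L ^ s) (k : ℕ) :
    ∀ r, |(p * e ^ k).coeff r| ≤ c * (2 * κ) ^ k * (2 * L) ^ r := by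
  induction k with
  | zero => simpa using hp
  | succ k ih =>
    intro r
    have := HLCore_mul_bound L κ _ hL hκ (by positivity) _ e ih he r
    rw [pow_succ, pow_succ, ← mul_assoc, ← mul_assoc c]
    exact this

theorem HLCore_prod_bound (L c : ℤ) (hL : 0 ≤ L) (hc : 0 ≤ c) (p : ℤ[X]) (e : ℕ → ℤ[X])
    (hp : ∀ r, |p.coeff r| ≤ c * (2 * L) ^ r) (he : ∀ l s, |(e l).coeff s| ≤ 1 * L ^ s) (k : ℕ)
    (t : Finset ℕ) :
    ∀ r, |(p * ∏ l ∈ t, e l ^ k).coeff r| ≤ c * (2 ^ k) ^ t.card * (2 * L) ^ r := by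
  induction t using Finset.induction_on with
  | empty => simpa using hp
  | insert a t ha ih =>
    intro r
    have := HLCore_pow_bound L 1 _ hL zero_le_one (by positivity) _ (e a) ih (he a) k r
    rw [prod_insert ha, card_insert_of_notMem ha, pow_succ, mul_comm (e a ^ k), ← mul_assoc,
      ← mul_assoc c]
    rwa [mul_one] at this

theorem HLCoreP_bound (n m i j : ℕ) (hj : j ≤ n) (r : ℕ) :
    |(HLCoreP n m i j).coeff r| ≤
      (2 * (n + 1)) ^ i * (2 ^ (m + 1)) ^ n * (2 * (Nat.lcmUpto n : ℤ)) ^ r := by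
  set L : ℤ := (Nat.lcmUpto n : ℤ) with hL
  have hL0 : 0 ≤ L := by positivity
  have h1 := HLCore_pow_bound L (n + 1) 1 hL0 (by positivity) zero_le_one 1 (C L * X + C (j : ℤ))
    (fun r => by
      rw [coeff_one]
      split_ifs with h
      · simp [h]
      · simp only [abs_zero]; positivity)
    (fun s => by
      rcases s with _ | _ | s
      · simp only [coeff_add, mul_coeff_zero, coeff_X_zero, mul_zero, coeff_C_zero, zero_add,
          Nat.abs_cast, pow_zero, mul_one]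
        exact_mod_cast Nat.le_succ_of_le hj
      · simp only [coeff_add, coeff_C_mul, zero_add, coeff_X_one, mul_one, coeff_C_succ, add_zero,
          pow_one, abs_of_nonneg hL0]
        nlinarith [mul_nonneg hL0 (Nat.cast_nonneg (α := ℤ) n)]
      · simp only [coeff_add, coeff_C_mul, coeff_C_succ, coeff_X_of_ne_one (show s + 1 + 1 ≠ 1 by omega),
          mul_zero, add_zero, abs_zero]
        positivity) i
  have h2 := HLCore_prod_bound L _ hL0 (by positivity) _ (fun l => HLCoreE n m ((j : ℤ) - l)) h1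
    (fun l s => by
      simp only [HLCoreE, finsetSum_coeff, mul_pow, ← C_pow, coeff_C_mul, coeff_X_pow, mul_ite,
        mul_one, mul_zero, sum_ite_eq, one_mul]
      split_ifs
      · rw [abs_pow, abs_neg]
        gcongr
        exact (Int.abs_ediv_le_abs _ _).trans (abs_of_nonneg hL0).le
      · simp only [abs_zero]; positivity) (m + 1) ((range (n + 1)).erase j) r
  rw [card_erase_of_mem (mem_range.2 (Nat.lt_succ_of_le hj)), card_range, Nat.succ_sub_one,
    one_mul, one_mul] at h2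
  exact h2

theorem HLCore_lcm : ∃ Λ : ℕ, 1 ≤ Λ ∧ ∀ n, Nat.lcmUpto n ≤ Λ ^ n := by
  refine ⟨⌈Real.exp (Real.log 4 + 4)⌉₊, Nat.ceil_pos.2 (Real.exp_pos _), fun n => ?_⟩
  have h1 := Chebyshev.psi_le_const_mul_self (Nat.cast_nonneg (α := ℝ) n)
  rw [Chebyshev.psi_eq_log_lcmUpto,
    Real.log_le_iff_le_exp (by exact_mod_cast Nat.lcmUpto_pos n), mul_comm, Real.exp_nat_mul] at h1
  have h2 : Real.exp (Real.log 4 + 4) ^ n ≤ (⌈Real.exp (Real.log 4 + 4)⌉₊ : ℝ) ^ n := by
    gcongr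
    exact Nat.le_ceil _
  exact_mod_cast h1.trans h2

theorem HLCoreB_bound (Λ : ℕ) (h1 : 1 ≤ Λ) (hΛ : ∀ n, Nat.lcmUpto n ≤ Λ ^ n) (n m i j k : ℕ)
    (hi : i ≤ m) (hj : j ≤ n) (hk : k ≤ m) :
    |HLCoreB n m i j k| ≤ (m.factorial * (16 * Λ) ^ ((n + 1) * (m + 1)) : ℕ) := by
  set D := (n + 1) * (m + 1) with hD
  have hP := HLCoreP_bound n m i j hj (m - k)
  set L : ℤ := (Nat.lcmUpto n : ℤ) with hL
  have hL0 : 0 ≤ L := by positivity
  have a1 : ((m.factorial / k.factorial : ℕ) : ℤ) ≤ m.factorial := by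
    exact_mod_cast Nat.div_le_self _ _
  have a2 : |((HLCorePi n j).sign * n.choose j : ℤ) ^ (m + 1)| ≤ 2 ^ D := by
    have b1 : |((HLCorePi n j).sign * n.choose j : ℤ)| ≤ 2 ^ (n + 1) := by
      rw [abs_mul, Nat.abs_cast]
      have c1 : |(HLCorePi n j).sign| ≤ 1 := by
        rcases HLCorePi n j with (_ | _) | _ <;> simp [Int.sign]
      have c2 : (n.choose j : ℤ) ≤ 2 ^ (n + 1) := by
        exact_mod_cast (Nat.choose_le_two_pow n j).trans
          (Nat.pow_le_pow_right two_pos (Nat.le_succ n))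
      exact (mul_le_mul c1 c2 (by positivity) zero_le_one).trans (one_mul _).le
    rw [abs_pow, hD, pow_mul]
    gcongr
  have a3 : (2 * ((n : ℤ) + 1)) ^ i ≤ 2 ^ D := by
    have b1 : 2 * ((n : ℤ) + 1) ≤ 2 ^ (n + 1) := by
      have : n + 1 ≤ 2 ^ n := Nat.lt_two_pow_self
      rw [pow_succ']
      gcongr
      exact_mod_cast this
    rw [hD, pow_mul]
    exact (pow_le_pow_left₀ (by positivity) b1 i).trans
      (pow_le_pow_right₀ (one_le_pow₀ one_le_two) (by omega))
  have a4 : ((2 : ℤ) ^ (m + 1)) ^ n ≤ 2 ^ D := by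
    rw [← pow_mul]
    exact pow_le_pow_right₀ one_le_two (by rw [hD]; nlinarith)
  have a5 : (2 : ℤ) ^ (m - k) ≤ 2 ^ D :=
    pow_le_pow_right₀ one_le_two ((Nat.sub_le m k).trans (by rw [hD]; nlinarith))
  have a6 : L ^ k * L ^ (m - k) ≤ (Λ : ℤ) ^ D := by
    rw [← pow_add, Nat.add_sub_cancel' hk]
    have b1 : L ≤ (Λ : ℤ) ^ n := by rw [hL]; exact_mod_cast hΛ n
    refine (pow_le_pow_left₀ hL0 b1 m).trans ?_
    rw [← pow_mul]
    exact pow_le_pow_right₀ (by exact_mod_cast h1) (by rw [hD]; nlinarith)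
  rw [HLCoreB, abs_mul, abs_mul, abs_mul, Nat.abs_cast, ← hL, abs_pow L, abs_of_nonneg hL0]
  calc _ ≤ (m.factorial : ℤ) * 2 ^ D * L ^ k * (2 ^ D * 2 ^ D * (2 ^ D * L ^ (m - k))) := by
        gcongr
        refine hP.trans ?_
        rw [mul_pow 2 L]
        gcongr
    _ = m.factorial * (2 ^ D) ^ 4 * (L ^ k * L ^ (m - k)) := by ring
    _ ≤ m.factorial * (2 ^ D) ^ 4 * (Λ : ℤ) ^ D := by gcongr
    _ = _ := by
        push_cast
        rw [mul_pow, ← pow_mul, mul_comm D 4, pow_mul]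
        norm_num [mul_assoc]

section Formula
variable (F : Type*) [Field F] [CharZero F]

/-- unscaling map -/
noncomputable def HLCoreU (n : ℕ) : ℤ[X] →+* F[X] :=
  (compRingHom (C ((Nat.lcmUpto n : F))⁻¹ * X)).comp (mapRingHom (Int.castRingHom F))

omit [CharZero F] in
theorem HLCoreU_coeff (n : ℕ) (p : ℤ[X]) (r : ℕ) :
    (HLCoreU F n p).coeff r = (p.coeff r : F) * ((Nat.lcmUpto n : F))⁻¹ ^ r := by
  simp [HLCoreU, comp_C_mul_X_coeff]

theorem HLCoreU_lin (n : ℕ) (a b : ℤ) :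
    HLCoreU F n (C (a * Nat.lcmUpto n) * X + C b) = C (a : F) * X + C (b : F) := by
  have hL : (Nat.lcmUpto n : F) ≠ 0 := by exact_mod_cast Nat.lcmUpto_ne_zero n
  ext r
  rw [HLCoreU_coeff]
  rcases r with _ | _ | r
  · simp
  · simp [coeff_C_succ, hL, -map_intCast, -eq_intCast, -map_mul]
  · simp [coeff_C_succ, -map_intCast, -eq_intCast, -map_mul]

theorem HLCoreU_E (n m : ℕ) (a : ℤ) (h0 : a ≠ 0) (hn : |a| ≤ n) :
    X ^ (m + 1) ∣ HLCoreU F n (HLCoreE n m a) * (X + C (a : F)) - C (a : F) := by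
  have hL : (Nat.lcmUpto n : F) ≠ 0 := by exact_mod_cast Nat.lcmUpto_ne_zero n
  have ha : (a : F) ≠ 0 := by exact_mod_cast h0
  have hd : a ∣ (Nat.lcmUpto n : ℤ) := by
    rw [← Int.natAbs_dvd, Int.natCast_dvd_natCast]
    refine Finset.dvd_lcm (f := id) (mem_Icc.2 ⟨Int.natAbs_pos.2 h0, ?_⟩)
    rw [← Int.natCast_natAbs] at hn
    exact_mod_cast hn
  have h1 : HLCoreU F n (C (-((Nat.lcmUpto n : ℤ) / a)) * X) = C (-(a : F)⁻¹) * X := by
    ext r
    rw [HLCoreU_coeff, coeff_C_mul, coeff_C_mul, coeff_X, coeff_X]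
    split_ifs with h
    · subst h
      rw [mul_one, Int.cast_neg, Int.cast_div hd ha]
      push_cast
      field_simp
    · simp
  have h2 : (X + C (a : F)) = C (a : F) * (1 - C (-(a : F)⁻¹) * X) := by
    rw [mul_sub, ← mul_assoc, ← C_mul, mul_neg, mul_inv_cancel₀ ha]
    simp [add_comm]
  simp only [HLCoreE, map_sum, map_pow, h1]
  refine ⟨-(C (a : F) * C (-(a : F)⁻¹) ^ (m + 1)), ?_⟩
  have h3 := geom_sum_mul_neg (C (-(a : F)⁻¹) * X) (m + 1)
  rw [h2, mul_left_comm, h3]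
  ring

/-- truncated inverse of the shifted HLCoreOj -/
noncomputable def HLCoreC (n m j : ℕ) : F[X] :=
  C (((HLCorePi n j : F))⁻¹ ^ (m + 1)) *
    HLCoreU F n (∏ l ∈ (range (n + 1)).erase j, HLCoreE n m ((j : ℤ) - l) ^ (m + 1))

theorem HLCorePi_ne (n j : ℕ) : (HLCorePi n j : F) ≠ 0 := by
  rw [Int.cast_ne_zero, HLCorePi]
  refine prod_ne_zero_iff.2 fun l hl => ?_
  have := ne_of_mem_erase hl
  omega

theorem HLCoreC_inv (n m j : ℕ) (hj : j ≤ n) :
    X ^ (m + 1) ∣ HLCoreC F n m j * taylor (j : F) (HLCoreOj F n m j) - 1 := by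
  rw [← Ideal.mem_span_singleton, ← Ideal.Quotient.eq]
  set π := Ideal.Quotient.mk (Ideal.span {(X : F[X]) ^ (m + 1)})
  have h1 : ∀ l ∈ (range (n + 1)).erase j,
      π (HLCoreU F n (HLCoreE n m ((j : ℤ) - l) ^ (m + 1)) *
        taylor (j : F) ((X - C (l : F)) ^ (m + 1))) = π (C ((((j : ℤ) - l : ℤ) : F) ^ (m + 1))) := by
    intro l hl
    have h2 := ne_of_mem_erase hl
    have h3 := mem_range.1 (mem_of_mem_erase hl)
    have h4 := HLCoreU_E F n m ((j : ℤ) - l) (by omega) (by rw [abs_le]; omega)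
    rw [← Ideal.mem_span_singleton, ← Ideal.Quotient.eq] at h4
    have h5 : taylor (j : F) (X - C (l : F)) = X + C (((j : ℤ) - l : ℤ) : F) := by
      rw [map_sub, taylor_X, taylor_C]
      push_cast
      rw [C_sub]
      ring
    rw [taylor_pow, h5, map_pow (HLCoreU F n), ← mul_pow, C_pow, map_pow π, map_pow π]
    exact congrArg (· ^ (m + 1)) h4
  have h6 : taylor (j : F) (HLCoreOj F n m j) =
      ∏ l ∈ (range (n + 1)).erase j, taylor (j : F) ((X - C (l : F)) ^ (m + 1)) :=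
    map_prod (taylorAlgHom (j : F)) _ _
  rw [HLCoreC, h6, map_prod (HLCoreU F n), mul_assoc, ← prod_mul_distrib, map_mul π, map_prod π,
    prod_congr rfl h1, ← map_prod π, ← map_mul π, ← map_prod C, ← C_mul, prod_pow, ← mul_pow,
    ← Int.cast_prod, ← HLCorePi, inv_mul_cancel₀ (HLCorePi_ne F n j), one_pow, C_1]

omit [CharZero F] in
theorem HLCore_deriv (f : F[X]) (r : F) (k : ℕ) :
    (derivative^[k] f).eval r = k.factorial * (taylor r f).coeff k := by
  rw [← factorial_smul_hasseDeriv, taylor_coeff]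
  simp

omit [CharZero F] in
theorem HLCore_mod (n m : ℕ) (S : F[X]) (hS : S.natDegree ≤ (n + 1) * (m + 1) - 1) :
    S %ₘ Om F n m = S := by
  refine (modByMonic_eq_self_iff (HLCore_monic F n m)).2 (degree_lt_degree ?_)
  rw [Om, HLCore_natDegree, card_range]
  have : 0 < (n + 1) * (m + 1) := by positivity
  omega

theorem HLCore_formula (n m i : ℕ) (f : F[X]) : (Zd n m : F) * Dd n m (X ^ i * f) =
    ∑ j ∈ range (n + 1), ∑ k ∈ range (m + 1),
      HLCoreB n m i j k * (derivative^[k] f).eval (j : F) := by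
  obtain ⟨S, h1, h2, h3⟩ := HLCore_interp n m (HLCoreC F n m)
    (fun j => taylor (j : F) (X ^ i * f)) (HLCoreC_inv F n m)
  have h4 : Om F n m ∣ X ^ i * f - S := HLCore_prod_dvd _ _ _ fun j hj => by
    rw [map_sub]; exact h2 j (Nat.lt_succ_iff.1 (mem_range.1 hj))
  rw [Dd, modByMonic_eq_of_dvd_sub (HLCore_monic F n m) h4, HLCore_mod F n m S h1, h3, mul_sum]
  refine sum_congr rfl fun j hj => ?_
  have hj' : j ≤ n := Nat.lt_succ_iff.1 (mem_range.1 hj)
  have h5 : HLCoreC F n m j * taylor (j : F) (X ^ i * f) = C (((HLCorePi n j : F))⁻¹ ^ (m + 1)) *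
      (taylor (j : F) f * HLCoreU F n (HLCoreP n m i j)) := by
    have := HLCoreU_lin F n 1 j
    rw [one_mul, Int.cast_one, C_1, one_mul, Int.cast_natCast] at this
    rw [HLCoreC, HLCoreP, map_mul (HLCoreU F n), map_pow (HLCoreU F n), this, taylor_mul,
      taylor_X_pow]
    ring
  rw [h5, coeff_C_mul, coeff_mul, Nat.sum_antidiagonal_eq_sum_range_succ_mk, mul_sum, mul_sum]
  refine sum_congr rfl fun k hk => ?_
  have hk' : k ≤ m := Nat.lt_succ_iff.1 (mem_range.1 hk)
  have hL : (Nat.lcmUpto n : F) ≠ 0 := by exact_mod_cast Nat.lcmUpto_ne_zero n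
  have hP := HLCorePi_ne F n j
  have hf : (k.factorial : F) ≠ 0 := by exact_mod_cast k.factorial_ne_zero
  have h6 : (n.factorial : F) = HLCorePi n j * ((HLCorePi n j).sign * n.choose j : ℤ) := by
    exact_mod_cast congrArg (Int.cast (R := F)) (HLCorePi_mul j n hj').symm
  have h7 : (Nat.lcmUpto n : F) ^ m = (Nat.lcmUpto n : F) ^ k * (Nat.lcmUpto n : F) ^ (m - k) := by
    rw [← pow_add, Nat.add_sub_cancel' hk']
  rw [HLCore_deriv, HLCoreU_coeff, HLCoreB, Zd, Int.cast_mul, Int.cast_mul, Int.cast_mul,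
    Int.cast_natCast, Nat.cast_div (Nat.factorial_dvd_factorial hk') hf, Int.cast_pow, Int.cast_pow,
    Int.cast_natCast, Nat.cast_mul, Nat.cast_mul, Nat.cast_pow, Nat.cast_pow, h6, h7]
  generalize (((HLCorePi n j).sign * n.choose j : ℤ) : F) = σ
  simp only [mul_pow, inv_pow]
  field_simp

theorem HLCore_zero (t g : F) (ht : t ≠ 1) (n m : ℕ) : ∃ i ≤ m,
    ∑ j ∈ range (n + 1), ∑ k ∈ range (m + 1), HLCoreB n m i j k * t ^ j * g ^ k ≠ 0 := by
  obtain ⟨H, h1, h2, -⟩ := HLCore_interp n m (HLCoreC F n m)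
    (fun j => ∑ k ∈ range (m + 1), monomial k (t ^ j * g ^ k / k.factorial)) (HLCoreC_inv F n m)
  have h3 : ∀ j ≤ n, ∀ k ≤ m, (taylor (j : F) H).coeff k = t ^ j * g ^ k / k.factorial := by
    intro j hj k hk
    have := X_pow_dvd_iff.1 (h2 j hj) k (Nat.lt_succ_of_le hk)
    rw [coeff_sub, sub_eq_zero] at this
    rw [← this]
    simp [coeff_monomial, Nat.lt_succ_of_le hk]
  have hH : H ≠ 0 := by
    rintro rfl
    simpa using h3 0 (Nat.zero_le _) 0 (Nat.zero_le _)
  have hG : ∏ j ∈ range n, (X - C (j : F)) ^ (m + 1) ∣ taylor 1 H - C t * H := by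
    refine HLCore_prod_dvd _ _ _ fun j hj => X_pow_dvd_iff.2 fun k hk => ?_
    have hj' := mem_range.1 hj
    have hk' := Nat.lt_succ_iff.1 hk
    rw [map_sub, taylor_taylor, taylor_mul, taylor_C, coeff_sub, coeff_C_mul, ← Nat.cast_succ,
      h3 _ hj' k hk', h3 j hj'.le k hk', pow_succ]
    ring
  have hG0 : taylor 1 H - C t * H ≠ 0 := by
    intro h
    have := congrArg (coeff · H.natDegree) h
    simp only [coeff_sub, coeff_taylor_natDegree, coeff_C_mul, coeff_natDegree, coeff_zero] at this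
    have h4 : (1 - t) * H.leadingCoeff = 0 := by linear_combination this
    exact mul_ne_zero (sub_ne_zero.2 ht.symm) (leadingCoeff_ne_zero.2 hH) h4
  have h5 := natDegree_le_of_dvd hG hG0
  rw [HLCore_natDegree, card_range] at h5
  have h6 : (taylor 1 H - C t * H).natDegree ≤ H.natDegree :=
    (natDegree_sub_le _ _).trans (max_le (natDegree_taylor _ _).le (natDegree_C_mul_le _ _))
  have hD : (n + 1) * (m + 1) - 1 = m + n * (m + 1) := by
    rw [add_mul, one_mul]; omega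
  obtain ⟨i, hi⟩ : ∃ i, (n + 1) * (m + 1) - 1 = H.natDegree + i := Nat.exists_eq_add_of_le h1
  refine ⟨i, by omega, ?_⟩
  have h7 := HLCore_formula F n m i H
  rw [Dd, HLCore_mod F n m _ (natDegree_mul_le.trans (by rw [natDegree_X_pow]; omega)), hi,
    coeff_X_pow_mul, coeff_natDegree] at h7
  have h8 : (Zd n m : F) ≠ 0 := by
    have := Nat.lcmUpto_pos n
    rw [Nat.cast_ne_zero, Zd]
    positivity
  refine fun h => mul_ne_zero h8 (leadingCoeff_ne_zero.2 hH) (h7.trans (Eq.trans ?_ h))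
  refine sum_congr rfl fun j hj => sum_congr rfl fun k hk => ?_
  have hf : (k.factorial : F) ≠ 0 := by exact_mod_cast k.factorial_ne_zero
  rw [HLCore_deriv, h3 j (Nat.lt_succ_iff.1 (mem_range.1 hj)) k
    (Nat.lt_succ_iff.1 (mem_range.1 hk))]
  field_simp

end Formula

/-- Hermite formula with integer coefficients, and the zero estimate -/
theorem hl_core : ∃ (Q : ℕ) (b : ℕ → ℕ → ℕ → ℕ → ℕ → ℤ), 1 ≤ Q ∧
    (∀ n m i j k, i ≤ m → j ≤ n → k ≤ m →
      |b n m i j k| ≤ (m.factorial * Q ^ ((n + 1) * (m + 1)) : ℕ)) ∧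
    (∀ n m i, i ≤ m → ∀ f : ℚ[X], (Zd n m : ℚ) * Dd n m (X ^ i * f) =
      ∑ j ∈ range (n + 1), ∑ k ∈ range (m + 1), b n m i j k * (derivative^[k] f).eval (j : ℚ)) ∧
    ∀ (F : Type) [Field F] [CharZero F] (t g : F), t ≠ 1 → ∀ n m, ∃ i ≤ m,
      ∑ j ∈ range (n + 1), ∑ k ∈ range (m + 1), b n m i j k * t ^ j * g ^ k ≠ 0 := by
  obtain ⟨Λ, h1, hΛ⟩ := HLCore_lcm
  exact ⟨16 * Λ, HLCoreB, by omega, HLCoreB_bound Λ h1 hΛ,
    fun n m i _ f => HLCore_formula ℚ n m i f, fun F _ _ t g ht n m => HLCore_zero F t g ht n m⟩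

end Pool.Agent.P.MP_68214b_ag
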