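import Pool.Agent.P.MP_68214b_ag.Ht
import Pool.Agent.P.MP_68214b_ag.HLCore

open Polynomial NumberField Height Filter Topology Finset

namespace Pool.Agent.P.MP_68214b_ag

theorem hlArch_step (n k : ℕ) : ∀ i ≤ k,
    (n * k).factorial * ((n + 1) ^ i * i.factorial) ≤ (n * k + i).factorial := by
  intro i
  induction i with
  | zero => simp
  | succ i ih =>
    intro hi
    have h1 := ih (by omega)
    have h2 : (n + 1) * (i + 1) ≤ n * k + i + 1 := by nlinarith [Nat.mul_le_mul_left n hi]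
    calc (n * k).factorial * ((n + 1) ^ (i + 1) * (i + 1).factorial)
        = (n + 1) * (i + 1) * ((n * k).factorial * ((n + 1) ^ i * i.factorial)) := by
          rw [Nat.factorial_succ]; ring
      _ ≤ (n * k + i + 1) * (n * k + i).factorial := Nat.mul_le_mul h2 h1
      _ = _ := (Nat.factorial_succ _).symm

theorem hlArch_fact (n k : ℕ) : n.factorial ^ k * k.factorial ^ n ≤ (n * k).factorial := by
  induction n with
  | zero => simp
  | succ n ih =>
    calc (n + 1).factorial ^ k * k.factorial ^ (n + 1)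
        = n.factorial ^ k * k.factorial ^ n * ((n + 1) ^ k * k.factorial) := by
          rw [Nat.factorial_succ, mul_pow]; ring
      _ ≤ (n * k).factorial * ((n + 1) ^ k * k.factorial) := Nat.mul_le_mul_right _ ih
      _ ≤ (n * k + k).factorial := hlArch_step n k k le_rfl
      _ = _ := by rw [Nat.succ_mul]

theorem hlArch_lcm (n : ℕ) : (Nat.lcmUpto n : ℝ) ≤ Real.exp 7 ^ n := by
  have h0 : (0 : ℝ) < Nat.lcmUpto n := by exact_mod_cast Nat.lcmUpto_pos n
  have h1 := Chebyshev.psi_le_const_mul_self (x := n) (Nat.cast_nonneg n)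
  have h2 : Real.log 4 ≤ 4 - 1 := Real.log_le_sub_one_of_pos (by norm_num)
  rw [Chebyshev.psi_eq_log_lcmUpto] at h1
  rw [← Real.exp_nat_mul, ← Real.log_le_iff_le_exp h0]
  nlinarith [Nat.cast_nonneg (α := ℝ) n]

theorem hlArch_exp (c : ℂ) (j k : ℕ) :
    HasSum (fun N : ℕ => c ^ N / N.factorial * (N.descFactorial k * (j : ℂ) ^ (N - k)))
      (Complex.exp c ^ j * c ^ k) := by
  rw [← hasSum_nat_add_iff' k, Finset.sum_eq_zero, sub_zero]
  · have h := (NormedSpace.expSeries_div_hasSum_exp ((j : ℂ) * c)).mul_right (c ^ k)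
    rw [← Complex.exp_eq_exp_ℂ, Complex.exp_nat_mul] at h
    refine (congrArg (HasSum · _) (funext fun r => ?_)).mp h
    have h1 := Nat.factorial_mul_descFactorial (Nat.le_add_left k r)
    rw [Nat.add_sub_cancel] at h1 ⊢
    have h2 : ((r + k).factorial : ℂ) = r.factorial * (r + k).descFactorial k := by
      exact_mod_cast h1.symm
    have h3 : ((r + k).descFactorial k : ℂ) ≠ 0 := by
      exact_mod_cast (Nat.descFactorial_pos.2 (Nat.le_add_left k r)).ne'
    have h4 : (r.factorial : ℂ) ≠ 0 := by exact_mod_cast r.factorial_ne_zero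
    rw [h2]
    field_simp
    ring
  · intro N hN
    rw [Nat.descFactorial_eq_zero_iff_lt.2 (Finset.mem_range.1 hN)]
    simp

theorem hlArch_int {n m i : ℕ} {b : ℕ → ℕ → ℤ}
    (h : ∀ f : ℚ[X], (Zd n m : ℚ) * Dd n m (X ^ i * f) =
      ∑ j ∈ range (n + 1), ∑ k ∈ range (m + 1), b j k * (derivative^[k] f).eval (j : ℚ)) (N : ℕ) :
    (Zd n m : ℂ) * (Dd n m ((X : ℤ[X]) ^ (N + i)) : ℤ) = ∑ j ∈ range (n + 1),
      ∑ k ∈ range (m + 1), (b j k : ℂ) * (N.descFactorial k * (j : ℂ) ^ (N - k)) := by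
  have h1 := h (X ^ N)
  have h2 := Dd_map (Int.castRingHom ℚ) n m ((X : ℤ[X]) ^ (N + i))
  rw [Polynomial.map_pow, map_X, eq_intCast] at h2
  simp only [iterate_derivative_X_pow_eq_C_mul, eval_mul, eval_C, eval_pow, eval_X] at h1
  rw [← pow_add, add_comm i N, ← h2] at h1
  exact_mod_cast congrArg (Rat.cast : ℚ → ℂ) h1

theorem hlArch_term {γ x Z : ℝ} (hγ : 1 ≤ γ) (hx0 : 0 ≤ x) (hx : x ≤ γ) (hZ : 0 ≤ Z)
    {n m i s r : ℕ} (hi : i ≤ m) :
    x ^ (r + s) / (r + s).factorial * (Z * ((r + s + i).choose (s + i) * n ^ r : ℕ)) ≤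
      Z * m.factorial * (Real.exp 1 * γ) ^ (s + i + 1) / (s + i).factorial *
        ((Real.exp 1 * γ * n) ^ r / r.factorial) := by
  have h1 : ((r + s + i).choose (s + i) : ℝ) * r.factorial * (s + i).factorial =
      (r + s).factorial * (r + s + i).descFactorial i := by
    have a1 := Nat.add_choose_mul_factorial_mul_factorial r (s + i)
    have a2 := Nat.factorial_mul_descFactorial (Nat.le_add_left i (r + s))
    rw [Nat.add_sub_cancel] at a2
    rw [← add_assoc, ← a2] at a1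
    exact_mod_cast a1
  have h2 : ((r + s + i).descFactorial i : ℝ) ≤ m.factorial * Real.exp 1 ^ (s + i + 1 + r) := by
    have a1 : (r + s + i).descFactorial i ≤ (s + i + 1 + r) ^ m :=
      (Nat.descFactorial_le_pow _ _).trans ((Nat.pow_le_pow_left (by omega) i).trans
        (Nat.pow_le_pow_right (by omega) hi))
    have a2 := Real.pow_div_factorial_le_exp ((s + i + 1 + r : ℕ) : ℝ) (Nat.cast_nonneg _) m
    rw [div_le_iff₀' (by exact_mod_cast m.factorial_pos)] at a2
    rw [← Real.exp_nat_mul, mul_one]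
    exact le_trans (by exact_mod_cast a1) a2
  have h3 : x ^ (r + s) ≤ γ ^ (s + i + 1 + r) :=
    (pow_le_pow_left₀ hx0 hx _).trans (pow_le_pow_right₀ hγ (by omega))
  have p1 : (0 : ℝ) < r.factorial := by exact_mod_cast r.factorial_pos
  have p2 : (0 : ℝ) < (s + i).factorial := by exact_mod_cast (s + i).factorial_pos
  have p3 : (0 : ℝ) < (r + s).factorial := by exact_mod_cast (r + s).factorial_pos
  have h4 : ((r + s + i).choose (s + i) : ℝ) = (r + s).factorial * (r + s + i).descFactorial i /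
      (r.factorial * (s + i).factorial) := by
    rw [← h1]
    field_simp
  calc _ = Z * n ^ r / (r.factorial * (s + i).factorial) *
        (x ^ (r + s) * (r + s + i).descFactorial i) := by
        push_cast
        rw [h4]
        field_simp
    _ ≤ Z * n ^ r / (r.factorial * (s + i).factorial) *
        (γ ^ (s + i + 1 + r) * (m.factorial * Real.exp 1 ^ (s + i + 1 + r))) :=
        mul_le_mul_of_nonneg_left (mul_le_mul h3 h2 (Nat.cast_nonneg _) (by positivity))
          (by positivity)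
    _ = _ := by
        rw [mul_pow, mul_pow, mul_pow, pow_add γ _ r, pow_add (Real.exp 1) _ r]
        field_simp

theorem hlArch_upper (c : ℂ) {n m i : ℕ} (hi : i ≤ m) {b : ℕ → ℕ → ℤ}
    (h : ∀ f : ℚ[X], (Zd n m : ℚ) * Dd n m (X ^ i * f) =
      ∑ j ∈ range (n + 1), ∑ k ∈ range (m + 1), b j k * (derivative^[k] f).eval (j : ℚ)) :
    ‖∑ j ∈ range (n + 1), ∑ k ∈ range (m + 1), (b j k : ℂ) * Complex.exp c ^ j * c ^ k‖ ≤
      Zd n m * m.factorial * (Real.exp 1 * max 1 ‖c‖) ^ ((n + 1) * (m + 1)) /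
        ((n + 1) * (m + 1) - 1).factorial * Real.exp (Real.exp 1 * max 1 ‖c‖ * n) := by
  obtain ⟨s, hs⟩ : ∃ s, (n + 1) * (m + 1) = s + i + 1 :=
    ⟨n * (m + 1) + (m - i), by rw [Nat.succ_mul]; omega⟩
  have hD := Dd_X_pow n m
  rw [hs, Nat.add_sub_cancel] at hD ⊢
  have h1 : HasSum (fun N : ℕ => c ^ N / N.factorial *
      ((Zd n m : ℂ) * (Dd n m ((X : ℤ[X]) ^ (N + i)) : ℤ)))
      (∑ j ∈ range (n + 1), ∑ k ∈ range (m + 1), (b j k : ℂ) * Complex.exp c ^ j * c ^ k) := by
    simp only [hlArch_int h, Finset.mul_sum]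
    refine hasSum_sum fun j _ => hasSum_sum fun k _ => ?_
    rw [mul_assoc]
    simp only [mul_left_comm _ (b j k : ℂ)]
    exact (hlArch_exp c j k).mul_left _
  rw [← hasSum_nat_add_iff' s, Finset.sum_eq_zero (s := range s), sub_zero] at h1
  · have h2 := NormedSpace.expSeries_div_hasSum_exp (Real.exp 1 * max 1 ‖c‖ * n)
    rw [← Real.exp_eq_exp_ℝ] at h2
    refine h1.norm_le_of_bounded (h2.mul_left _) fun r => ?_
    refine le_trans ?_ (hlArch_term (le_max_left 1 ‖c‖) (norm_nonneg c) (le_max_right _ _)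
      (Nat.cast_nonneg (Zd n m)) hi)
    have h3 := hD (r + s + i)
    rw [show r + s + i - (s + i) = r by omega] at h3
    rw [norm_mul, norm_div, norm_pow, norm_mul, Complex.norm_natCast, Complex.norm_natCast,
      Complex.norm_intCast]
    refine mul_le_mul_of_nonneg_left (mul_le_mul_of_nonneg_left ?_ (Nat.cast_nonneg _))
      (by positivity)
    exact_mod_cast h3
  · intro N hN
    have h3 := hD (N + i)
    rw [Nat.choose_eq_zero_of_lt (by have := Finset.mem_range.1 hN; omega), zero_mul,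
      Nat.cast_zero, abs_nonpos_iff] at h3
    rw [h3]
    simp

theorem hlArch_upper' {η : ℝ} (hη : 0 ≤ η) (n m : ℕ) :
    Zd n m * m.factorial * η ^ ((n + 1) * (m + 1)) / ((n + 1) * (m + 1) - 1).factorial ≤
      m.factorial ^ 2 * η ^ ((n + 1) * (m + 1)) * (Real.exp 7 ^ m / (m + 1).factorial) ^ n := by
  have h1 : (n.factorial : ℝ) ^ (m + 1) * ((m + 1).factorial : ℝ) ^ n ≤
      ((n + 1) * (m + 1) - 1).factorial := by
    exact_mod_cast (hlArch_fact n (m + 1)).trans
      (Nat.factorial_le (by rw [Nat.succ_mul]; omega))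
  have h2 : (Nat.lcmUpto n : ℝ) ^ m ≤ (Real.exp 7 ^ m) ^ n := by
    rw [← pow_mul, mul_comm, pow_mul]
    exact pow_le_pow_left₀ (Nat.cast_nonneg _) (hlArch_lcm n) m
  have p1 : (0 : ℝ) < n.factorial := by exact_mod_cast n.factorial_pos
  have p2 : (0 : ℝ) < (m + 1).factorial := by exact_mod_cast (m + 1).factorial_pos
  calc _ ≤ Zd n m * m.factorial * η ^ ((n + 1) * (m + 1)) /
        ((n.factorial : ℝ) ^ (m + 1) * ((m + 1).factorial : ℝ) ^ n) :=
        div_le_div_of_nonneg_left (by positivity) (by positivity) h1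
    _ = m.factorial ^ 2 * η ^ ((n + 1) * (m + 1)) *
        ((Nat.lcmUpto n : ℝ) ^ m / ((m + 1).factorial : ℝ) ^ n) := by
        rw [Zd]
        push_cast
        field_simp
    _ ≤ _ := by
        rw [div_pow]
        exact mul_le_mul_of_nonneg_left (div_le_div_of_nonneg_right h2 (by positivity))
          (by positivity)

/-- Hermite-Lindemann -/
theorem hl_arch {K : Type} [Field K] [NumberField K] (φ : K →+* ℂ) {t g : K}
    (h : Complex.exp (φ g) = φ t) : t = 1 := by
  by_contra ht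
  obtain ⟨Q, b, hQ, hb, hH, hz⟩ := hl_core
  obtain ⟨d, hd⟩ : ∃ d, d = Module.finrank ℚ K := ⟨_, rfl⟩
  obtain ⟨η, hη⟩ : ∃ η, η = Real.exp 1 * max 1 ‖φ g‖ := ⟨_, rfl⟩
  have hη0 : 0 ≤ η := by rw [hη]; positivity
  have hQ1 : (1 : ℝ) ≤ Q := by exact_mod_cast hQ
  obtain ⟨A, hA⟩ : ∃ A, A = Real.exp η * 2 ^ d * mulHeight₁ t := ⟨_, rfl⟩
  have hA1 : 1 ≤ A := hA ▸ one_le_mul_of_one_le_of_one_le
    (one_le_mul_of_one_le_of_one_le (Real.one_le_exp hη0) (one_le_pow₀ one_le_two))
    (one_le_mulHeight₁ t)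
  have hg0 : 0 ≤ mulHeight₁ g := zero_le_one.trans (one_le_mulHeight₁ g)
  have ht0 : 0 ≤ mulHeight₁ t := zero_le_one.trans (one_le_mulHeight₁ t)
  obtain ⟨m, hm⟩ : ∃ m : ℕ, (η * Q ^ d * Real.exp 7 * A) ^ (m + 1) / (m + 1).factorial < 1 / 2 :=
    (((FloorSemiring.tendsto_pow_div_factorial_atTop (η * Q ^ d * Real.exp 7 * A)).comp
      (tendsto_add_atTop_nat 1)).eventually (gt_mem_nhds one_half_pos)).exists
  obtain ⟨Cm, hC⟩ : ∃ Cm : ℝ, Cm = m.factorial ^ 2 * (η * Q ^ d) ^ (m + 1) *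
    ((m + 1) * m.factorial) ^ d * mulHeight₁ g ^ m := ⟨_, rfl⟩
  have hC0 : 0 ≤ Cm := by rw [hC]; positivity
  have key : ∀ n : ℕ, 1 ≤ Cm * (1 / 2) ^ n := by
    intro n
    obtain ⟨i, hi, hne⟩ := hz K t g ht n m
    have hM : (1 : ℝ) ≤ m.factorial * Q ^ ((n + 1) * (m + 1)) :=
      one_le_mul_of_one_le_of_one_le (by exact_mod_cast m.factorial_pos) (one_le_pow₀ hQ1)
    have h1 := liouville_arch φ hne
    have h2 := ht_two t g n m (b n m i) hM fun j hj k hk => by exact_mod_cast hb n m i j k hi hj hk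
    have h3 := hlArch_upper (φ g) hi (hH n m i hi)
    rw [← hη, h] at h3
    have h4 := h3.trans (mul_le_mul_of_nonneg_right (hlArch_upper' hη0 n m) (Real.exp_pos _).le)
    simp only [map_sum, map_mul, map_intCast, map_pow] at h1
    rw [← hd] at h2
    have h5 : ((n : ℝ) + 1) ^ d ≤ (2 ^ d) ^ n := by
      rw [← pow_mul, mul_comm, pow_mul]
      refine pow_le_pow_left₀ (by positivity) ?_ d
      exact_mod_cast Nat.succ_le_of_lt n.lt_two_pow_self
    have h6 : (η * Q ^ d) ^ (m + 1) * Real.exp 7 ^ m * A / (m + 1).factorial ≤ 1 / 2 := by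
      refine le_trans (div_le_div_of_nonneg_right ?_ (Nat.cast_nonneg _)) hm.le
      rw [mul_pow _ A, mul_pow _ (Real.exp 7)]
      exact mul_le_mul (mul_le_mul_of_nonneg_left (pow_le_pow_right₀
        (Real.one_le_exp (by norm_num)) m.le_succ) (by positivity))
        (le_self_pow₀ hA1 m.succ_ne_zero) (by positivity) (by positivity)
    refine (h1.trans (mul_le_mul h4 h2 (zero_le_one.trans (one_le_mulHeight₁ _))
      (by positivity))).trans ?_
    calc _ = Cm * (((η * Q ^ d) ^ (m + 1) * Real.exp 7 ^ m * (Real.exp η * mulHeight₁ t) /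
          (m + 1).factorial) ^ n * ((n : ℝ) + 1) ^ d) := by
          rw [hC, mul_comm η (n : ℝ), Real.exp_nat_mul]
          simp only [mul_pow, div_pow, ← pow_mul]
          ring
      _ ≤ Cm * (((η * Q ^ d) ^ (m + 1) * Real.exp 7 ^ m * (Real.exp η * mulHeight₁ t) /
          (m + 1).factorial) ^ n * (2 ^ d) ^ n) :=
          mul_le_mul_of_nonneg_left (mul_le_mul_of_nonneg_left h5 (by positivity)) hC0
      _ = Cm * ((η * Q ^ d) ^ (m + 1) * Real.exp 7 ^ m * A / (m + 1).factorial) ^ n := by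
          rw [← mul_pow, hA]
          congr 2
          ring
      _ ≤ _ := mul_le_mul_of_nonneg_left (pow_le_pow_left₀ (by positivity) h6 n) hC0
  have lim : Tendsto (fun n : ℕ => Cm * (1 / 2 : ℝ) ^ n) atTop (𝓝 (Cm * 0)) :=
    (tendsto_pow_atTop_nhds_zero_of_lt_one (by norm_num) (by norm_num)).const_mul Cm
  have := ge_of_tendsto' lim key
  linarith

end Pool.Agent.P.MP_68214b_ag
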