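import Pool.Agent.P.MP_68214b_ag.Ht
import Pool.Agent.P.MP_68214b_ag.HLCore

open Polynomial NumberField Height Filter Topology Finset

namespace Pool.Agent.P.MP_68214b_ag

/-- the series of log (1 + z) -/
noncomputable def hlpL : PowerSeries ℚ := PowerSeries.mk fun i => (-1) ^ (i + 1) / (i : ℚ)

/-- falling factorial at q X -/
noncomputable def hlpG (q N : ℕ) : ℚ[X] :=
  ((descPochhammer ℤ N).comp (C (q : ℤ) * X)).map (Int.castRingHom ℚ)

/-- the series q ^ k (1 + z) ^ (q j) Y ^ k -/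
noncomputable def hlpR (q j k : ℕ) (Y : PowerSeries ℚ) : PowerSeries ℚ :=
  (q : PowerSeries ℚ) ^ k * (1 + PowerSeries.X) ^ (q * j) * Y ^ k

theorem hlpG_zero (q : ℕ) : hlpG q 0 = 1 := by simp [hlpG]

theorem hlpG_succ (q N : ℕ) : hlpG q (N + 1) = (C (q : ℚ) * X - C (N : ℚ)) * hlpG q N := by
  simp [hlpG, descPochhammer_succ_right, mul_comm]

theorem hlp_iter (a b : ℚ) (f : ℚ[X]) (k : ℕ) :
    derivative^[k + 1] ((C a * X - C b) * f) =
      (C a * X - C b) * derivative^[k + 1] f + C ((k + 1) * a) * derivative^[k] f := by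
  induction k with
  | zero => simp; ring
  | succ k ih =>
    rw [Function.iterate_succ_apply', ih, Function.iterate_succ_apply' derivative (k + 1),
      Function.iterate_succ_apply' derivative k]
    simp only [derivative_add, derivative_mul, derivative_sub, derivative_C, derivative_X, C_mul,
      C_add, C_1, Nat.cast_add, Nat.cast_one, derivative_one]
    ring

theorem hlpL_der : (1 + PowerSeries.X) * PowerSeries.derivative ℚ hlpL = 1 := by
  ext n
  rw [add_mul, one_mul, map_add]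
  rcases n with _ | n
  · simp [PowerSeries.coeff_derivative, hlpL]
  · rw [PowerSeries.coeff_succ_X_mul, PowerSeries.coeff_derivative, PowerSeries.coeff_derivative,
      PowerSeries.coeff_one]
    simp only [hlpL, PowerSeries.coeff_mk]
    rw [if_neg (Nat.succ_ne_zero n)]
    push_cast
    field_simp
    ring

theorem hlpR_der (q j k : ℕ) :
    (1 + PowerSeries.X) * PowerSeries.derivative ℚ (hlpR q j k hlpL) =
      ((q * j : ℕ) : PowerSeries ℚ) * hlpR q j k hlpL +
        ((k * q : ℕ) : PowerSeries ℚ) * hlpR q j (k - 1) hlpL := by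
  have h1 : ∀ a : ℕ, (1 + PowerSeries.X) * PowerSeries.derivative ℚ ((1 + PowerSeries.X) ^ a) =
      (a : PowerSeries ℚ) * (1 + PowerSeries.X) ^ a := by
    intro a
    rw [PowerSeries.derivative_pow]
    rcases a with _ | a
    · simp
    · simp; ring
  have h0 : PowerSeries.derivative ℚ ((q : PowerSeries ℚ) ^ k) = 0 := by
    rw [← Nat.cast_pow]; exact Derivation.map_natCast _ _
  unfold hlpR
  rw [Derivation.leibniz, Derivation.leibniz, h0, PowerSeries.derivative_pow hlpL]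
  simp only [smul_eq_mul]
  rcases k with _ | k
  · have := h1 (q * j)
    simp only [pow_zero, Nat.cast_zero, zero_mul, mul_zero, one_mul, mul_one, add_zero, zero_add]
    exact this
  · simp only [Nat.add_sub_cancel]
    push_cast
    have := h1 (q * j)
    push_cast at this
    linear_combination ((q : PowerSeries ℚ) ^ (k + 1) * hlpL ^ (k + 1)) * this +
      ((q : PowerSeries ℚ) ^ (k + 1) * (1 + PowerSeries.X) ^ (q * j) * (k + 1) * hlpL ^ k) *
        hlpL_der

theorem hlp_key (q j N : ℕ) : ∀ k, (N.factorial : ℚ) * PowerSeries.coeff N (hlpR q j k hlpL) =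
    (derivative^[k] (hlpG q N)).eval (j : ℚ) := by
  induction N with
  | zero =>
    intro k
    rcases k with _ | k
    · simp [hlpR, hlpG_zero]
    · have : PowerSeries.constantCoeff hlpL = 0 := by simp [hlpL]
      simp [hlpR, hlpG_zero, this]
  | succ N ih =>
    intro k
    have h := congrArg (PowerSeries.coeff N) (hlpR_der q j k)
    have hX : ∀ F : PowerSeries ℚ, PowerSeries.coeff N (PowerSeries.X * PowerSeries.derivative ℚ F) =
        N * PowerSeries.coeff N F := by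
      intro F
      rcases N with _ | N
      · simp
      · rw [PowerSeries.coeff_succ_X_mul, PowerSeries.coeff_derivative]; push_cast; ring
    have hC : ∀ (a : ℕ) (F : PowerSeries ℚ), PowerSeries.coeff N ((a : PowerSeries ℚ) * F) =
        a * PowerSeries.coeff N F := by
      intro a F
      rw [← map_natCast (PowerSeries.C (R := ℚ)), PowerSeries.coeff_C_mul]
    rw [add_mul, one_mul, map_add, map_add, hX, hC, hC, PowerSeries.coeff_derivative] at h
    rw [hlpG_succ, Nat.factorial_succ]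
    push_cast at h ⊢
    rcases k with _ | k
    · have := ih 0
      simp only [Function.iterate_zero, id_eq, eval_mul, eval_sub, eval_C, eval_X] at this ⊢
      rw [← this]
      simp only [Nat.cast_zero, zero_mul, add_zero] at h
      linear_combination (N.factorial : ℚ) * h
    · rw [hlp_iter]
      simp only [eval_add, eval_mul, eval_sub, eval_C, eval_X]
      rw [← ih (k + 1), ← ih k]
      simp only [Nat.add_sub_cancel] at h
      push_cast at h
      linear_combination (N.factorial : ℚ) * h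

theorem hlp_dvd (q n m i : ℕ) (hi : i ≤ m) (h : ℤ[X]) :
    (q : ℤ) ^ (n * (m + 1)) ∣ Dd n m (X ^ i * h.comp (C (q : ℤ) * X)) := by
  induction h using Polynomial.induction_on' with
  | add f g hf hg =>
    rw [add_comp, mul_add (X ^ i), Dd_add]
    exact dvd_add hf hg
  | monomial M a =>
    have e : X ^ i * (monomial M a).comp (C (q : ℤ) * X) = C (a * q ^ M) * X ^ (i + M) := by
      rw [monomial_comp, mul_pow, C_mul, C_pow]; ring
    rw [e, Dd_smul]
    by_cases hM : n * (m + 1) ≤ M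
    · exact ((pow_dvd_pow _ hM).mul_left a).mul_right _
    · have h1 := Dd_X_pow n m (i + M)
      rw [Nat.choose_eq_zero_of_lt (by rw [add_mul]; omega)] at h1
      have h2 : Dd n m ((X : ℤ[X]) ^ (i + M)) = 0 := by simpa using h1
      rw [h2, mul_zero]
      exact dvd_zero _

theorem hlp_dd (q n m i N : ℕ) (hi : i ≤ m) :
    ∃ z : ℤ, Dd n m (X ^ i * hlpG q N) = (q : ℚ) ^ (n * (m + 1)) * z := by
  obtain ⟨z, hz⟩ := hlp_dvd q n m i hi (descPochhammer ℤ N)
  refine ⟨z, ?_⟩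
  have := Dd_map (Int.castRingHom ℚ) n m (X ^ i * (descPochhammer ℤ N).comp (C (q : ℤ) * X))
  rw [hz, Polynomial.map_mul, Polynomial.map_pow, map_X] at this
  rw [hlpG, ← this]
  simp

section Val
variable {K : Type} [Field K] {v : AbsoluteValue K ℝ}

theorem hlp_sum_le (hv : IsNonarchimedean v) {ι : Type*} (s : Finset ι) (f : ι → K) {t c : ℝ}
    (ht : 0 ≤ t) (hc : 0 ≤ c) (h : ∀ i ∈ s, v (f i) * t ≤ c) : v (∑ i ∈ s, f i) * t ≤ c := by
  classical
  induction s using Finset.induction_on with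
  | empty => simpa using hc
  | insert a s ha ih =>
    rw [sum_insert ha]
    refine (mul_le_mul_of_nonneg_right (hv _ _) ht).trans ?_
    rw [max_mul_of_nonneg _ _ ht]
    exact max_le (h a (mem_insert_self a s)) (ih fun i hi => h i (mem_insert_of_mem hi))

/-- weighted bound for the coefficients -/
def hlpBd (v : AbsoluteValue K ℝ) (ρ c : ℝ) (F : PowerSeries ℚ) : Prop :=
  ∀ N, v ((PowerSeries.coeff N F : ℚ) : K) * ρ ^ N ≤ c

variable [CharZero K] {ρ : ℝ}

theorem hlpBd.mul (hv : IsNonarchimedean v) (hρ : 0 ≤ ρ) {a b : ℝ} {F G : PowerSeries ℚ}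
    (hF : hlpBd v ρ a F) (hG : hlpBd v ρ b G) : hlpBd v ρ (a * b) (F * G) := by
  have ha : 0 ≤ a := le_trans (by positivity) (hF 0)
  have hb : 0 ≤ b := le_trans (by positivity) (hG 0)
  intro N
  rw [PowerSeries.coeff_mul, Rat.cast_sum]
  refine hlp_sum_le hv _ _ (by positivity) (by positivity) fun p hp => ?_
  rw [← mem_antidiagonal.1 hp, Rat.cast_mul, map_mul, pow_add, mul_mul_mul_comm]
  exact mul_le_mul (hF _) (hG _) (by positivity) ha

omit [CharZero K] in
theorem hlpBd_int (hv : IsNonarchimedean v) (z : ℤ) : hlpBd v ρ 1 (z : PowerSeries ℚ) := by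
  intro N
  rw [← map_intCast (PowerSeries.C (R := ℚ)), PowerSeries.coeff_C]
  split_ifs with h
  · simpa [h] using v_int_le hv z
  · simp

theorem hlpBd.pow (hv : IsNonarchimedean v) (hρ : 0 ≤ ρ) {a : ℝ} {F : PowerSeries ℚ}
    (hF : hlpBd v ρ a F) (k : ℕ) : hlpBd v ρ (a ^ k) (F ^ k) := by
  induction k with
  | zero => simpa using hlpBd_int hv 1
  | succ k ih => rw [pow_succ, pow_succ]; exact ih.mul hv hρ hF

theorem hlpBd.sum (hv : IsNonarchimedean v) (hρ : 0 ≤ ρ) {a : ℝ} (ha : 0 ≤ a) {ι : Type*}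
    (s : Finset ι) {F : ι → PowerSeries ℚ} (hF : ∀ i ∈ s, hlpBd v ρ a (F i)) :
    hlpBd v ρ a (∑ i ∈ s, F i) := fun N => by
  rw [map_sum, Rat.cast_sum]
  exact hlp_sum_le hv _ _ (by positivity) ha fun i hi => hF i hi N

omit [CharZero K] in
theorem hlpBd_one_add (hρ1 : ρ ≤ 1) : hlpBd v ρ 1 (1 + PowerSeries.X) := by
  intro N
  rcases N with _ | _ | N <;> simp [PowerSeries.coeff_one, PowerSeries.coeff_X, hρ1]

/-- the auxiliary series -/
noncomputable def hlpF (q n m : ℕ) (b : ℕ → ℕ → ℤ) (Y : PowerSeries ℚ) : PowerSeries ℚ :=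
  ∑ j ∈ range (n + 1), ∑ k ∈ range (m + 1), (b j k : PowerSeries ℚ) * hlpR q j k Y

theorem hlpBd_F (hv : IsNonarchimedean v) (hρ : 0 ≤ ρ) (hρ1 : ρ ≤ 1) {c : ℝ} (hc : 1 ≤ c)
    {Y : PowerSeries ℚ} (hY : hlpBd v ρ c Y) (q n m : ℕ) (b : ℕ → ℕ → ℤ) :
    hlpBd v ρ (c ^ m) (hlpF q n m b Y) := by
  refine hlpBd.sum hv hρ (by positivity) _ fun j _ => hlpBd.sum hv hρ (by positivity) _
    fun k hk N => ?_
  have h1 : hlpBd v ρ 1 (q : PowerSeries ℚ) := by simpa using hlpBd_int hv q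
  have := (hlpBd_int hv (b j k)).mul hv hρ (((h1.pow hv hρ k).mul hv hρ
    ((hlpBd_one_add hρ1).pow hv hρ (q * j))).mul hv hρ (hY.pow hv hρ k)) N
  simp only [one_pow, one_mul] at this
  exact this.trans (pow_le_pow_right₀ hc (Nat.lt_succ_iff.1 (mem_range.1 hk)))

theorem hlpF_dvd (q n m : ℕ) (b : ℕ → ℕ → ℤ) (Y Y' : PowerSeries ℚ) :
    Y - Y' ∣ hlpF q n m b Y - hlpF q n m b Y' := by
  rw [hlpF, hlpF, ← sum_sub_distrib]
  refine dvd_sum fun j _ => ?_
  rw [← sum_sub_distrib]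
  refine dvd_sum fun k _ => ?_
  rw [hlpR, hlpR, ← mul_sub, ← mul_sub]
  exact ((sub_dvd_pow_sub_pow Y Y' k).mul_left _).mul_left _

theorem hlp_aeval_trunc (M : ℕ) (x : K) : aeval x (PowerSeries.trunc (M + 1) hlpL) = Lg M x := by
  rw [aeval_def, PowerSeries.eval₂_trunc_eq_sum_range, sum_range_succ', Lg]
  simp only [hlpL, PowerSeries.coeff_mk]
  simp only [Nat.cast_zero, div_zero, map_zero, zero_mul, add_zero]
  refine sum_congr rfl fun i _ => ?_
  simp only [eq_ratCast]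
  push_cast
  ring

theorem hlp_upper (hv : IsNonarchimedean v) (hρ : 0 ≤ ρ) (hρ1 : ρ ≤ 1) {x g : K} {c ε : ℝ}
    (hx : v x ≤ ρ ^ 2) (hc : 1 ≤ c) (hL : hlpBd v ρ c hlpL)
    (h : Tendsto (fun N => v (Lg N x - g)) atTop (𝓝 0)) (q n m : ℕ) (b : ℕ → ℕ → ℤ) (N0 : ℕ)
    (h1 : ∀ N ≤ N0, v ((PowerSeries.coeff N (hlpF q n m b hlpL) : ℚ) : K) ≤ ε)
    (h2 : c ^ m * ρ ^ N0 ≤ ε) :
    v (∑ j ∈ range (n + 1), ∑ k ∈ range (m + 1), b j k * ((1 + x) ^ q) ^ j * (q * g) ^ k) ≤ ε := by
  have hε : 0 ≤ ε := le_trans (by positivity) h2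
  have hx1 : v x ≤ 1 := hx.trans (pow_le_one₀ hρ hρ1)
  have key : ∀ M ≥ N0, v (∑ j ∈ range (n + 1), ∑ k ∈ range (m + 1),
      b j k * ((1 + x) ^ q) ^ j * (q * Lg M x) ^ k) ≤ ε := by
    intro M hM
    set T : ℚ[X] := PowerSeries.trunc (M + 1) hlpL with hT
    set P : ℚ[X] := ∑ j ∈ range (n + 1), ∑ k ∈ range (m + 1),
      (b j k : ℚ[X]) * ((q : ℚ[X]) ^ k * (1 + X) ^ (q * j) * T ^ k) with hP
    have e1 : (P : PowerSeries ℚ) = hlpF q n m b T := by
      rw [hP, hlpF, ← Polynomial.coeToPowerSeries.ringHom_apply]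
      simp only [map_sum, map_mul, map_pow, map_add, map_one, map_intCast, map_natCast, hlpR,
        Polynomial.coeToPowerSeries.ringHom_apply, Polynomial.coe_X]
    have e2 : aeval x P = ∑ j ∈ range (n + 1), ∑ k ∈ range (m + 1),
        b j k * ((1 + x) ^ q) ^ j * (q * Lg M x) ^ k := by
      rw [hP]
      simp only [map_sum, map_mul, map_pow, map_add, map_one, map_intCast, map_natCast, aeval_X,
        hT, hlp_aeval_trunc]
      refine sum_congr rfl fun j _ => sum_congr rfl fun k _ => ?_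
      rw [pow_mul, mul_pow]; ring
    have hTb : hlpBd v ρ c (T : PowerSeries ℚ) := fun N => by
      rw [Polynomial.coeff_coe, hT, PowerSeries.coeff_trunc]
      split_ifs
      · exact hL N
      · simpa using zero_le_one.trans hc
    have hd : PowerSeries.X ^ (M + 1) ∣ hlpF q n m b hlpL - hlpF q n m b T := by
      refine Dvd.dvd.trans ?_ (hlpF_dvd q n m b _ _)
      rw [PowerSeries.X_pow_dvd_iff]
      intro i hi
      rw [map_sub, hT, PowerSeries.coeff_coe_trunc_of_lt hi, sub_self]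
    rw [← e2, aeval_eq_sum_range, ← mul_one (v _)]
    refine hlp_sum_le hv _ _ zero_le_one hε fun N _ => ?_
    rw [mul_one, ← Polynomial.coeff_coe, e1, Rat.smul_def, map_mul, map_pow]
    rcases le_or_gt N N0 with hN | hN
    · have := PowerSeries.X_pow_dvd_iff.1 hd N (by omega)
      rw [map_sub, sub_eq_zero] at this
      rw [← this]
      exact (mul_le_of_le_one_right (v.nonneg _) (pow_le_one₀ (v.nonneg _) hx1)).trans (h1 N hN)
    · have h3 := hlpBd_F hv hρ hρ1 hc hTb q n m b N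
      have h4 : v x ^ N ≤ ρ ^ N * ρ ^ N0 := by
        refine (pow_le_pow_left₀ (v.nonneg _) hx N).trans ?_
        rw [← pow_mul, ← pow_add]
        exact pow_le_pow_of_le_one hρ hρ1 (by omega)
      refine (mul_le_mul_of_nonneg_left h4 (v.nonneg _)).trans ?_
      rw [← mul_assoc]
      exact (mul_le_mul_of_nonneg_right h3 (by positivity)).trans h2
  let e : K →+* WithAbs v := (WithAbs.equiv v).symm
  have hn : ∀ a, ‖e a‖ = v a := fun a => rfl
  have t1 : Tendsto (fun M => e (Lg M x)) atTop (𝓝 (e g)) := by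
    rw [tendsto_iff_norm_sub_tendsto_zero]
    simpa only [← map_sub, hn] using h
  have t2 : Tendsto (fun M => e (∑ j ∈ range (n + 1), ∑ k ∈ range (m + 1),
      b j k * ((1 + x) ^ q) ^ j * (q * Lg M x) ^ k)) atTop (𝓝 (e (∑ j ∈ range (n + 1),
      ∑ k ∈ range (m + 1), b j k * ((1 + x) ^ q) ^ j * (q * g) ^ k))) := by
    simp only [map_sum, map_mul, map_pow]
    exact tendsto_finsetSum _ fun j _ => tendsto_finsetSum _ fun k _ =>
      ((t1.const_mul _).pow k).const_mul _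
  exact le_of_tendsto t2.norm (eventually_atTop.2 ⟨N0, key⟩)

theorem hlp_fact (hv : IsNonarchimedean v) {a : ℕ} (ha : 0 < a) (h : v a < 1) :
    ∃ p : ℕ, 0 < p ∧ v p < 1 ∧ ∀ N : ℕ, v p ^ N ≤ v N.factorial := by
  have h1 : ∃ p : ℕ, p.Prime ∧ v p < 1 := by
    induction a using Nat.recOnMul with
    | zero => omega
    | one => simp at h
    | prime p hp => exact ⟨p, hp, h⟩
    | mul a b iha ihb =>
      rw [Nat.cast_mul, map_mul] at h
      by_cases h0 : v a < 1
      · exact iha (Nat.pos_of_mul_pos_right ha) h0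
      · rw [le_antisymm (v_nat_le hv a) (not_lt.1 h0), one_mul] at h
        exact ihb (Nat.pos_of_mul_pos_left ha) h
  obtain ⟨p, hp, hvp⟩ := h1
  refine ⟨p, hp.pos, hvp, fun N => ?_⟩
  have : Fact p.Prime := ⟨hp⟩
  obtain ⟨e, u, hu, he⟩ := Nat.exists_eq_pow_mul_and_not_dvd N.factorial_ne_zero p hp.ne_one
  have he1 : e ≤ N := by
    refine le_trans ?_ (padicValNat_factorial_le p N)
    exact (padicValNat_dvd_iff_le N.factorial_ne_zero).1 ⟨u, he⟩
  have hu1 : 1 ≤ v u := by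
    obtain ⟨r, s, hrs⟩ := Nat.isCoprime_iff_coprime.2 ((hp.coprime_iff_not_dvd).2 hu)
    have h2 : (r : K) * p + s * u = 1 := by exact_mod_cast congrArg (Int.cast : ℤ → K) hrs
    have h3 := hv ((r : K) * p) (s * u)
    rw [h2, map_one, map_mul, map_mul, le_max_iff] at h3
    rcases h3 with h3 | h3
    · exact absurd (h3.trans (mul_le_of_le_one_left (v.nonneg _) (v_int_le hv r))) (not_le.2 hvp)
    · exact h3.trans (mul_le_of_le_one_left (v.nonneg _) (v_int_le hv s))
  rw [he, Nat.cast_mul, Nat.cast_pow, map_mul, map_pow]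
  exact (pow_le_pow_of_le_one (v.nonneg _) hvp.le he1).trans
    (le_mul_of_one_le_right (by positivity) hu1)

end Val

theorem hlp_coef {q n m i : ℕ} (hi : i ≤ m) {b : ℕ → ℕ → ℤ}
    (hb : ∀ f : ℚ[X], (Zd n m : ℚ) * Dd n m (X ^ i * f) =
      ∑ j ∈ range (n + 1), ∑ k ∈ range (m + 1), b j k * (derivative^[k] f).eval (j : ℚ)) (N : ℕ) :
    ∃ z : ℤ, (N.factorial : ℚ) * PowerSeries.coeff N (hlpF q n m b hlpL) =
      (q : ℚ) ^ (n * (m + 1)) * z := by
  obtain ⟨z, hz⟩ := hlp_dd q n m i N hi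
  refine ⟨Zd n m * z, ?_⟩
  have := hb (hlpG q N)
  rw [hz] at this
  push_cast
  rw [mul_left_comm, this, hlpF, map_sum, mul_sum]
  refine sum_congr rfl fun j _ => ?_
  rw [map_sum, mul_sum]
  refine sum_congr rfl fun k _ => ?_
  rw [← map_intCast (PowerSeries.C (R := ℚ)), PowerSeries.coeff_C_mul, ← hlp_key, mul_left_comm]

/-- p-adic Hermite-Lindemann (Mahler) -/
theorem hl_padic {K : Type} [Field K] [NumberField K] (v : FinitePlace K) {x g : K}
    (hx : v x < 1) (h : Tendsto (fun N => v (Lg N x - g)) atTop (𝓝 0)) :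
    ∃ q : ℕ, 0 < q ∧ (1 + x) ^ q = 1 := by
  by_cases hx0 : x = 0
  · exact ⟨1, one_pos, by simp [hx0]⟩
  have hv := fin_na v
  set d := Module.finrank ℚ K
  set ρ := √(v x) with hρ
  have hρ0 : 0 < ρ := Real.sqrt_pos.2 (FinitePlace.pos_iff.2 hx0)
  have hρ1 : ρ < 1 := by rwa [hρ, Real.sqrt_lt' one_pos, one_pow]
  have hx2 : v.1 x ≤ ρ ^ 2 := (Real.sq_sqrt (apply_nonneg v x)).ge
  obtain ⟨c, hc1, hc⟩ : ∃ c : ℝ, 1 ≤ c ∧ ∀ N : ℕ, (N : ℝ) ^ d * ρ ^ N ≤ c := by
    obtain ⟨c, hc⟩ := (tendsto_pow_const_mul_const_pow_of_abs_lt_one d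
      (r := ρ) (by rwa [abs_of_pos hρ0])).bddAbove_range
    exact ⟨max 1 c, le_max_left _ _, fun N => (hc ⟨N, rfl⟩).trans (le_max_right _ _)⟩
  have hL : hlpBd v.1 ρ c hlpL := fun N => by
    rcases Nat.eq_zero_or_pos N with rfl | hN
    · simpa [hlpL] using zero_le_one.trans hc1
    refine le_trans (mul_le_mul_of_nonneg_right ?_ (by positivity)) (hc N)
    have h1 : 0 < v.1 N := v.1.pos (Nat.cast_ne_zero.2 hN.ne')
    simp only [hlpL, PowerSeries.coeff_mk]
    push_cast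
    rw [map_div₀, map_pow, AbsoluteValue.map_neg, map_one, one_pow, div_le_iff₀' h1]
    exact nat_bound v N hN
  obtain ⟨p, hp0, hp1, hp⟩ := hlp_fact hv
    (zero_lt_one.trans (HeightOneSpectrum.one_lt_absNorm v.maximalIdeal)) (by
      have := (FinitePlace.norm_lt_one_iff_mem K v.maximalIdeal _).2
        (Ideal.absNorm_mem v.maximalIdeal.asIdeal)
      rwa [FinitePlace.norm_embedding_eq, map_natCast] at this)
  have hk0 : 0 < v.1 p := v.1.pos (Nat.cast_ne_zero.2 hp0.ne')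
  obtain ⟨Q, b, hQ, hb1, hb2, hb3⟩ := hl_core
  have hQ1 : (1 : ℝ) ≤ Q := by exact_mod_cast hQ
  set W : ℝ := 2 * (2 * Q) ^ d with hW
  have hW0 : 0 < W := by positivity
  obtain ⟨C, hC⟩ := exists_pow_lt_of_lt_one (inv_pos.2 hW0) hρ1
  obtain ⟨e, he⟩ := exists_pow_lt_of_lt_one (show 0 < v.1 p ^ C * W⁻¹ by positivity) hp1
  refine ⟨p ^ e, pow_pos hp0 e, by_contra fun ht => ?_⟩
  set q := p ^ e with hq
  have hvq : v.1 q ≤ v.1 p ^ C * W⁻¹ := by rw [hq, Nat.cast_pow, map_pow]; exact he.le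
  obtain ⟨m, hm⟩ := pow_unbounded_of_one_lt (mulHeight₁ ((1 + x) ^ q)) (one_lt_two (α := ℝ))
  obtain ⟨n, hn⟩ := pow_unbounded_of_one_lt (c ^ m * ((m + 1) * m.factorial * Q ^ (m + 1)) ^ d *
    mulHeight₁ (q * g) ^ m) (one_lt_two (α := ℝ))
  obtain ⟨i, hi, hne⟩ := hb3 K ((1 + x) ^ q) (q * g) ht n m
  have hcm : 1 ≤ c ^ m := one_le_pow₀ hc1
  have up := hlp_upper hv hρ0.le hρ1.le hx2 hc1 hL h q n m (b n m i) (C * (n * (m + 1)))
    (ε := c ^ m * W⁻¹ ^ (n * (m + 1))) (fun N hN => by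
      obtain ⟨z, hz⟩ := hlp_coef (q := q) hi (hb2 n m i hi) N
      have h1 := congrArg (fun a : ℚ => v.1 (a : K)) hz
      simp only [Rat.cast_mul, Rat.cast_pow, Rat.cast_natCast, Rat.cast_intCast, map_mul,
        map_pow] at h1
      refine le_trans ?_ (le_mul_of_one_le_left (by positivity) hcm)
      refine le_of_mul_le_mul_left ?_ (pow_pos hk0 (C * (n * (m + 1))))
      refine (mul_le_mul_of_nonneg_right ((pow_le_pow_of_le_one hk0.le hp1.le hN).trans (hp N))
        (v.1.nonneg _)).trans ?_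
      rw [h1, pow_mul _ C, ← mul_pow]
      exact (mul_le_of_le_one_right (by positivity) (v_int_le hv z)).trans
        (pow_le_pow_left₀ (v.1.nonneg _) hvq _))
    (mul_le_mul_of_nonneg_left (by rw [pow_mul]; exact pow_le_pow_left₀ (by positivity) hC.le _)
      (by positivity))
  have hf1 : (1 : ℝ) ≤ m.factorial := by exact_mod_cast m.factorial_pos
  have ht2 := ht_two ((1 + x) ^ q) (q * g) n m (b n m i)
    (M := m.factorial * Q ^ ((n + 1) * (m + 1)))
    (one_le_mul_of_one_le_of_one_le hf1 (one_le_pow₀ hQ1)) fun j hj k hk => by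
      exact_mod_cast hb1 n m i j k hi hj hk
  have low := (liouville_fin v hne).trans (mul_le_mul up ht2 (mulHeight₁_nonneg _) (by positivity))
  have h1 : ((n : ℝ) + 1) ≤ 2 ^ (n * (m + 1)) := by
    have : n + 1 ≤ 2 ^ (n * (m + 1)) :=
      Nat.lt_two_pow_self.trans_le
        (Nat.pow_le_pow_right two_pos (Nat.le_mul_of_pos_right _ m.succ_pos))
    exact_mod_cast this
  have h2 : (((n : ℝ) + 1) * (m + 1) * (m.factorial * Q ^ ((n + 1) * (m + 1)))) ^ d ≤
      ((2 * Q) ^ d) ^ (n * (m + 1)) * ((m + 1) * m.factorial * Q ^ (m + 1)) ^ d := by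
    rw [← pow_mul, mul_comm d, pow_mul _ _ d, ← mul_pow]
    refine pow_le_pow_left₀ (by positivity) ?_ _
    rw [add_mul n, one_mul, pow_add, mul_pow]
    calc ((n : ℝ) + 1) * (m + 1) * (m.factorial * (Q ^ (n * (m + 1)) * Q ^ (m + 1)))
        = (n + 1) * (Q ^ (n * (m + 1)) * ((m + 1) * m.factorial * Q ^ (m + 1))) := by ring
      _ ≤ 2 ^ (n * (m + 1)) * (Q ^ (n * (m + 1)) * ((m + 1) * m.factorial * Q ^ (m + 1))) :=
        mul_le_mul_of_nonneg_right h1 (by positivity)
      _ = _ := by ring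
  have h3 : mulHeight₁ ((1 + x) ^ q) ^ n ≤ (2 ^ m) ^ n :=
    pow_le_pow_left₀ (mulHeight₁_nonneg _) hm.le n
  have h4 : W⁻¹ ^ (n * (m + 1)) * (((2 * Q) ^ d) ^ (n * (m + 1)) * (2 ^ m) ^ n) * 2 ^ n = 1 := by
    rw [mul_assoc, mul_assoc, ← mul_pow, ← pow_succ, ← pow_mul 2, mul_comm (m + 1), ← mul_pow,
      ← mul_pow, mul_comm _ (2 : ℝ), ← hW, inv_mul_cancel₀ hW0.ne', one_pow]
  have hg := mulHeight₁_nonneg (q * g : K)
  have h5 := low.trans (mul_le_mul_of_nonneg_left (mul_le_mul_of_nonneg_right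
    (mul_le_mul h2 h3 (pow_nonneg (mulHeight₁_nonneg _) _) (by positivity)) (by positivity))
    (by positivity))
  have h6 := mul_le_mul_of_nonneg_right h5 (show (0 : ℝ) ≤ 2 ^ n by positivity)
  refine absurd hn (not_lt.2 ?_)
  rw [one_mul] at h6
  refine h6.trans_eq ?_
  linear_combination (c ^ m * ((m + 1) * m.factorial * Q ^ (m + 1)) ^ d *
    mulHeight₁ (q * g : K) ^ m) * h4

end Pool.Agent.P.MP_68214b_ag
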