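import Pool.Agent.P.MP_68214b_ag.Basic

open Polynomial Filter Topology Finset

namespace Pool.Agent.P.MP_68214b_ag

variable {K : Type*} [Field K] [CharZero K] {v : AbsoluteValue K ℝ}

/-- coefficients of the remainder -/
noncomputable def padeTau (K : Type*) [Field K] (n j : ℕ) : K :=
  (-1) ^ j * ((n + j).factorial : K) ^ 2 / ((j.factorial : K) * ((2 * n + j + 1).factorial : K))

/-- the remainder series -/
noncomputable def padeT (K : Type*) [Field K] (n : ℕ) : PowerSeries K :=
  PowerSeries.mk (padeTau K n)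

/-- the second solution -/
noncomputable def padeW (K : Type*) [Field K] : ℕ → K[X]
  | 0 => 0
  | 1 => 1
  | n + 2 => C (1 / ((n : K) + 2)) *
      ((2 * (n : K[X]) + 3) * (2 + X) * padeW K (n + 1) - ((n : K[X]) + 1) * X ^ 2 * padeW K n)

/-- the first solution -/
noncomputable def padeS (K : Type*) [Field K] (n : ℕ) : K[X] := LP (1 + X) 1 n

/-- the truncated logarithm -/
noncomputable def padeL (K : Type*) [Field K] (N : ℕ) : K[X] :=
  ∑ i ∈ range N, monomial (i + 1) ((-1) ^ i / ((i : K) + 1))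

theorem pade_tau0 (n : ℕ) :
    (2 * n + 3 : K) * (2 * padeTau K (n + 1) 0) = (n + 1) * padeTau K n 0 := by
  have h1 : ((2 * n + 1).factorial : K) ≠ 0 := by exact_mod_cast Nat.factorial_ne_zero _
  have h2 : (2 * n + 1 + 1 : K) ≠ 0 := by exact_mod_cast (show 2 * n + 1 + 1 ≠ 0 by omega)
  have h3 : (2 * n + 1 + 1 + 1 : K) ≠ 0 := by exact_mod_cast (show 2 * n + 1 + 1 + 1 ≠ 0 by omega)
  simp only [padeTau, add_zero, show 2 * (n + 1) + 1 = 2 * n + 1 + 1 + 1 by ring]
  rw [Nat.factorial_succ (2 * n + 1 + 1), Nat.factorial_succ (2 * n + 1), Nat.factorial_succ n]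
  push_cast
  field_simp
  ring

theorem pade_tau1 (n : ℕ) :
    (2 * n + 3 : K) * (2 * padeTau K (n + 1) 1 + padeTau K (n + 1) 0) =
      (n + 1) * padeTau K n 1 := by
  have h1 : ((2 * n + 1 + 1).factorial : K) ≠ 0 := by exact_mod_cast Nat.factorial_ne_zero _
  have h2 : (2 * n + 1 + 1 + 1 : K) ≠ 0 := by exact_mod_cast (show 2 * n + 1 + 1 + 1 ≠ 0 by omega)
  have h3 : (2 * n + 1 + 1 + 1 + 1 : K) ≠ 0 := by
    exact_mod_cast (show 2 * n + 1 + 1 + 1 + 1 ≠ 0 by omega)
  simp only [padeTau, add_zero, show 2 * (n + 1) + 1 = 2 * n + 1 + 1 + 1 by ring]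
  rw [Nat.factorial_succ (2 * n + 1 + 1 + 1), Nat.factorial_succ (2 * n + 1 + 1),
    Nat.factorial_succ (n + 1)]
  push_cast
  field_simp
  ring

theorem pade_tau2 (n j : ℕ) : (n + 2 : K) * padeTau K (n + 2) j =
    (2 * n + 3) * (2 * padeTau K (n + 1) (j + 2) + padeTau K (n + 1) (j + 1)) -
      (n + 1) * padeTau K n (j + 2) := by
  have h1 : ((2 * n + j + 3).factorial : K) ≠ 0 := by exact_mod_cast Nat.factorial_ne_zero _
  have h0 : (j.factorial : K) ≠ 0 := by exact_mod_cast Nat.factorial_ne_zero _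
  have h2 : (2 * n + j + 3 + 1 : K) ≠ 0 := by
    exact_mod_cast (show 2 * n + j + 3 + 1 ≠ 0 by omega)
  have h3 : (2 * n + j + 3 + 1 + 1 : K) ≠ 0 := by
    exact_mod_cast (show 2 * n + j + 3 + 1 + 1 ≠ 0 by omega)
  have h4 : (j + 1 : K) ≠ 0 := by exact_mod_cast (show j + 1 ≠ 0 by omega)
  have h5 : (j + 1 + 1 : K) ≠ 0 := by exact_mod_cast (show j + 1 + 1 ≠ 0 by omega)
  simp only [padeTau, show 2 * (n + 2) + j + 1 = 2 * n + j + 3 + 1 + 1 by ring,
    show 2 * (n + 1) + (j + 2) + 1 = 2 * n + j + 3 + 1 + 1 by ring,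
    show 2 * (n + 1) + (j + 1) + 1 = 2 * n + j + 3 + 1 by ring,
    show 2 * n + (j + 2) + 1 = 2 * n + j + 3 by ring, show n + 2 + j = n + j + 2 by ring,
    show n + 1 + (j + 2) = n + j + 2 + 1 by ring, show n + 1 + (j + 1) = n + j + 2 by ring,
    show n + (j + 2) = n + j + 2 by ring]
  rw [Nat.factorial_succ (2 * n + j + 3 + 1), Nat.factorial_succ (2 * n + j + 3),
    Nat.factorial_succ (n + j + 2), Nat.factorial_succ (j + 1), Nat.factorial_succ j]
  push_cast
  generalize ha : (2 * n + j + 3 + 1 + 1 : K) = a at h3 ⊢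
  generalize hb : (2 * n + j + 3 + 1 : K) = b at h2 ⊢
  field_simp
  rw [← ha, ← hb]
  ring

theorem pade_tau_zero (j : ℕ) : padeTau K 0 j = (-1) ^ j / ((j : K) + 1) := by
  have h0 : (j.factorial : K) ≠ 0 := by exact_mod_cast Nat.factorial_ne_zero _
  have h4 : (j + 1 : K) ≠ 0 := by exact_mod_cast (show j + 1 ≠ 0 by omega)
  simp only [padeTau, mul_zero, zero_add, Nat.factorial_succ]
  push_cast
  field_simp

theorem pade_tau_one (j : ℕ) : padeTau K 1 j = 2 * padeTau K 0 (j + 2) + padeTau K 0 (j + 1) := by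
  have h0 : (j.factorial : K) ≠ 0 := by exact_mod_cast Nat.factorial_ne_zero _
  have h4 : (j + 1 : K) ≠ 0 := by exact_mod_cast (show j + 1 ≠ 0 by omega)
  have h5 : (j + 1 + 1 : K) ≠ 0 := by exact_mod_cast (show j + 1 + 1 ≠ 0 by omega)
  have h6 : (j + 1 + 1 + 1 : K) ≠ 0 := by exact_mod_cast (show j + 1 + 1 + 1 ≠ 0 by omega)
  have h7 : (j + 2 + 1 : K) ≠ 0 := by exact_mod_cast (show j + 2 + 1 ≠ 0 by omega)
  rw [pade_tau_zero, pade_tau_zero, padeTau, show 2 * 1 + j + 1 = j + 1 + 1 + 1 by ring,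
    add_comm 1 j]
  simp only [Nat.factorial_succ]
  push_cast
  field_simp
  ring

theorem pade_T_rec : Rec (2 + PowerSeries.X) (PowerSeries.X ^ 2)
    fun n => PowerSeries.X ^ (2 * n + 1) * padeT K n := by
  intro n
  have h : PowerSeries.C (n + 2 : K) * (PowerSeries.X * (PowerSeries.X * padeT K (n + 2))) =
      PowerSeries.C (2 * n + 3 : K) *
        (PowerSeries.C 2 * padeT K (n + 1) + PowerSeries.X * padeT K (n + 1)) -
      PowerSeries.C (n + 1 : K) * padeT K n := by
    ext j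
    simp only [map_sub, PowerSeries.coeff_C_mul, LinearMap.map_add]
    rcases j with _ | _ | j
    · simp only [PowerSeries.coeff_zero_X_mul, padeT, PowerSeries.coeff_mk]
      linear_combination -pade_tau0 (K := K) n
    · simp only [PowerSeries.coeff_succ_X_mul, PowerSeries.coeff_zero_X_mul, padeT,
        PowerSeries.coeff_mk]
      linear_combination -pade_tau1 (K := K) n
    · simp only [PowerSeries.coeff_succ_X_mul, padeT, PowerSeries.coeff_mk]
      exact pade_tau2 n j
  simp only [map_add, map_mul, map_natCast, map_ofNat, map_one] at h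
  linear_combination (PowerSeries.X : PowerSeries K) ^ (2 * n + 3) * h

theorem pade_W_rec : Rec (2 + X) (X ^ 2) (padeW K) := by
  intro n
  have h : (n + 2 : K) ≠ 0 := by exact_mod_cast (show n + 2 ≠ 0 by omega)
  have e : ((n : K[X]) + 2) * C (1 / ((n : K) + 2)) = 1 := by
    rw [show ((n : K[X]) + 2) = C ((n : K) + 2) by simp [map_ofNat], ← C_mul, mul_one_div_cancel h,
      C_1]
  rw [padeW, ← mul_assoc, e, one_mul]

theorem pade_S_rec : Rec (2 + X) (X ^ 2) (padeS K) := by
  have h := P_rec (1 + X : K[X]) 1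
  rwa [show (1 + X : K[X]) + 1 = 2 + X by ring, add_sub_cancel_left] at h

omit [CharZero K] in
theorem pade_W_deg (n : ℕ) : (X * padeW K n).natDegree ≤ n := by
  induction n using Nat.twoStepInduction with
  | zero => simp [padeW]
  | one => simp [padeW]
  | more n a b =>
    rw [padeW, show ∀ c a b p q : K[X], X * (c * (a * (2 + X) * p - b * X ^ 2 * q)) =
      c * (a * ((2 + X) * (X * p)) - b * (X ^ 2 * (X * q))) from fun c a b p q => by ring]
    generalize X * padeW K n = q at a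
    generalize X * padeW K (n + 1) = p at b
    compute_degree
    omega

omit [CharZero K] in
theorem pade_L_coeff (N j : ℕ) :
    (padeL K N).coeff (j + 1) = if j < N then (-1) ^ j / ((j : K) + 1) else 0 := by
  simp [padeL, coeff_monomial]

omit [CharZero K] in
theorem pade_L_zero (N : ℕ) : (padeL K N).coeff 0 = 0 := by
  simp [padeL, coeff_monomial]

omit [CharZero K] in
theorem pade_L_eval (N : ℕ) (x : K) : (padeL K N).eval x = Lg N x := by
  rw [padeL, Lg, eval_finsetSum]
  exact sum_congr rfl fun i _ => by rw [eval_monomial]; ring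

theorem pade_key {n N j : ℕ} (h1 : j ≤ 2 * n) (h2 : j ≤ N) :
    (padeS K n * padeL K N - 2 * (X * padeW K n)).coeff j = 0 := by
  have : CharZero (PowerSeries K) := algebraRat.charZero _
  have hS := (pade_S_rec (K := K)).map coeToPowerSeries.ringHom
  have hW := (pade_W_rec (K := K)).map coeToPowerSeries.ringHom
  simp only [map_add, map_pow, map_ofNat, coeToPowerSeries.ringHom_apply, coe_X] at hS hW
  have e := (pade_T_rec (K := K)).ext (hS.comb hW (PowerSeries.X * padeT K 0) (-2 * PowerSeries.X))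
    (by simp [padeS, padeW]) (by
      have h : PowerSeries.X * (PowerSeries.X * padeT K 1) = PowerSeries.C 2 * padeT K 0 +
          PowerSeries.X * padeT K 0 - PowerSeries.C 2 := by
        ext j
        simp only [map_sub, PowerSeries.coeff_C_mul, LinearMap.map_add]
        rcases j with _ | _ | j
        · simp [padeT, pade_tau_zero]
        · simp [padeT, pade_tau_zero, one_add_one_eq_two]
          norm_num
        · simp only [PowerSeries.coeff_succ_X_mul, padeT, PowerSeries.coeff_mk,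
            PowerSeries.coeff_succ_C, sub_zero]
          exact pade_tau_one j
      simp only [map_ofNat] at h
      simp only [padeS, padeW, P_one, Polynomial.coe_add, Polynomial.coe_one, coe_X]
      linear_combination PowerSeries.X * h) n
  obtain ⟨R, hR⟩ : PowerSeries.X ^ (N + 1) ∣
      PowerSeries.X * padeT K 0 - (padeL K N : PowerSeries K) := by
    refine PowerSeries.X_pow_dvd_iff.2 fun i hi => ?_
    rw [map_sub, coeff_coe]
    rcases i with _ | i
    · rw [PowerSeries.coeff_zero_X_mul, pade_L_zero, sub_zero]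
    · rw [PowerSeries.coeff_succ_X_mul, pade_L_coeff, if_pos (by omega), padeT,
        PowerSeries.coeff_mk, pade_tau_zero, sub_self]
  have e2 : ((padeS K n * padeL K N - 2 * (X * padeW K n) : K[X]) : PowerSeries K) =
      PowerSeries.X ^ (2 * n + 1) * padeT K n -
        PowerSeries.X ^ (N + 1) * (R * (padeS K n : PowerSeries K)) := by
    rw [← coeToPowerSeries.ringHom_apply]
    simp only [map_sub, map_mul, map_ofNat, coeToPowerSeries.ringHom_apply, coe_X]
    linear_combination -e - (padeS K n : PowerSeries K) * hR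
  rw [← coeff_coe, e2, map_sub, PowerSeries.coeff_X_pow_mul', PowerSeries.coeff_X_pow_mul',
    if_neg (by omega), if_neg (by omega), sub_zero]

omit [CharZero K] in
theorem pade_sum (hv : IsNonarchimedean v) {ι : Type*} {M : ℝ} (hM : 0 ≤ M) (s : Finset ι)
    (f : ι → K) (h : ∀ i ∈ s, v (f i) ≤ M) : v (∑ i ∈ s, f i) ≤ M :=
  Finset.sum_induction f (fun a => v a ≤ M) (fun a b ha hb => (hv a b).trans (max_le ha hb))
    (by simpa using hM) h

omit [CharZero K] in
theorem pade_eval (hv : IsNonarchimedean v) {M : ℝ} {p : K[X]} (hp : ∀ j, v (p.coeff j) ≤ M)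
    {δ : K} (hδ : v δ ≤ 1) : v (p.eval δ) ≤ M := by
  rw [eval_eq_sum_range]
  refine pade_sum hv ((v.nonneg _).trans (hp 0)) _ _ fun i _ => ?_
  rw [map_mul, map_pow]
  exact (mul_le_of_le_one_right (v.nonneg _) (pow_le_one₀ (v.nonneg _) hδ)).trans (hp i)

omit [CharZero K] in
theorem pade_SL (hv : IsNonarchimedean v) {M : ℝ} (hM : 0 ≤ M) {N : ℕ}
    (h : ∀ i < N, 1 ≤ v ((i : K) + 1) * M) (n j : ℕ) :
    v ((padeS K n * padeL K N).coeff j) ≤ M := by
  rw [coeff_mul]
  refine pade_sum hv hM _ _ fun p _ => ?_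
  have e : padeS K n = (LP (1 + X : ℤ[X]) 1 n).map (Int.castRingHom K) := by
    have := P_map (mapRingHom (Int.castRingHom K)) (1 + X : ℤ[X]) 1 n
    simpa [padeS] using this.symm
  rw [map_mul, e, coeff_map, eq_intCast]
  refine (mul_le_of_le_one_left (v.nonneg _) (v_int_le hv _)).trans ?_
  rcases p.2 with _ | i
  · rwa [pade_L_zero, map_zero]
  · rw [pade_L_coeff]
    split_ifs with hi
    · have h1 := h i hi
      have h2 : 0 < v ((i : K) + 1) := by
        refine (v.nonneg _).lt_of_ne fun h0 => ?_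
        rw [← h0, zero_mul] at h1
        exact absurd h1 (by norm_num)
      rw [map_div₀, map_pow, v.map_neg, map_one, one_pow, div_le_iff₀' h2]
      exact h1
    · rwa [map_zero]

theorem pade_W_le (hv : IsNonarchimedean v) {M : ℝ} (hM : 0 ≤ M) {n : ℕ}
    (h : ∀ i < n, 1 ≤ v ((i : K) + 1) * M) {δ : K} (hδ : v δ ≤ 1) :
    v (2 * (padeW K n).eval δ) ≤ M := by
  rw [show 2 * (padeW K n).eval δ = (2 * padeW K n).eval δ by simp]
  refine pade_eval hv (fun j => ?_) hδ
  rw [← coeff_X_mul, mul_left_comm]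
  by_cases hj : j + 1 ≤ n
  · have := pade_key (K := K) (n := n) (N := n) (j := j + 1) (by omega) hj
    rw [coeff_sub, sub_eq_zero] at this
    rw [← this]
    exact pade_SL hv hM h _ _
  · rwa [coeff_ofNat_mul, coeff_eq_zero_of_natDegree_lt ((pade_W_deg n).trans_lt (by omega)),
      mul_zero, map_zero]

theorem pade_U (hv : IsNonarchimedean v) {M : ℝ} (hM : 0 ≤ M) {n N : ℕ} (hN : 2 * n ≤ N)
    (h : ∀ i < N, 1 ≤ v ((i : K) + 1) * M) : ∃ U : K[X],
    padeS K n * padeL K N - 2 * (X * padeW K n) = X ^ (2 * n + 1) * U ∧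
      ∀ j, v (U.coeff j) ≤ M := by
  obtain ⟨U, hU⟩ := X_pow_dvd_iff.2 fun j (hj : j < 2 * n + 1) =>
    pade_key (K := K) (n := n) (N := N) (j := j) (by omega) (by omega)
  refine ⟨U, hU, fun j => ?_⟩
  rw [← coeff_X_pow_mul U (2 * n + 1), ← hU, coeff_sub, coeff_ofNat_mul,
    coeff_eq_zero_of_natDegree_lt ((pade_W_deg n).trans_lt (by omega)), mul_zero, sub_zero]
  exact pade_SL hv hM h _ _

omit [CharZero K] in
theorem pade_S_eval (n : ℕ) (δ : K) : (padeS K n).eval δ = LP (1 + δ) 1 n := by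
  have h := P_map (evalRingHom δ) (1 + X : K[X]) 1 n
  rwa [map_add, map_one, coe_evalRingHom, eval_X] at h

theorem pade_T_le (hv : IsNonarchimedean v) {M : ℝ} (hM : 0 ≤ M) {n N : ℕ} (hN : 2 * n ≤ N)
    (h : ∀ i < N, 1 ≤ v ((i : K) + 1) * M) {δ : K} (hδ : v δ ≤ 1) :
    v (LP (1 + δ) 1 n * Lg N δ - 2 * (δ * (padeW K n).eval δ)) ≤ v δ ^ (2 * n + 1) * M := by
  obtain ⟨U, h1, h2⟩ := pade_U hv hM hN h
  have e := congrArg (eval δ) h1
  simp only [eval_sub, eval_mul, eval_pow, eval_X, eval_ofNat, pade_S_eval, pade_L_eval] at e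
  rw [e, map_mul, map_pow]
  exact mul_le_mul_of_nonneg_left (pade_eval hv h2 hδ) (pow_nonneg (v.nonneg _) _)

theorem pade_bez (hv : IsNonarchimedean v) {M : ℝ} (hM : 0 ≤ M) {n : ℕ}
    (h : ∀ i < 2 * n + 2, 1 ≤ v ((i : K) + 1) * M) {δ : K} (hδ : v δ ≤ 1) :
    v 2 ≤ M * max (v (LP (1 + δ) 1 (n + 1))) (v (LP (1 + δ) 1 n)) := by
  obtain ⟨U, h1, h2⟩ := pade_U hv hM (n := n) (by omega) h
  obtain ⟨V, h3, h4⟩ := pade_U hv hM (n := n + 1) (by omega) h
  have h5 := (pade_S_rec (K := K)).cas pade_W_rec n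
  have h6 : ((n : K[X]) + 1) * (padeS K (n + 1) * U - padeS K n * (X ^ 2 * V)) = 2 := by
    refine mul_left_cancel₀ (pow_ne_zero (2 * n + 1) X_ne_zero) ?_
    simp only [padeW, padeS, P_zero] at h5
    simp only [padeS] at h1 h3 ⊢
    linear_combination -2 * X * h5 - ((n : K[X]) + 1) * LP (1 + X) 1 (n + 1) * h1 +
      ((n : K[X]) + 1) * LP (1 + X) 1 n * h3
  have e := congrArg (fun p => v (eval δ p)) h6
  simp only [eval_sub, eval_mul, eval_pow, eval_X, eval_ofNat, pade_S_eval, eval_add, eval_one,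
    eval_natCast, map_mul] at e
  rw [← e, mul_max_of_nonneg _ _ hM]
  refine (mul_le_of_le_one_left (v.nonneg _) (by exact_mod_cast v_nat_le hv (n + 1))).trans
    ((v_sub_le hv _ _).trans (max_le_max ?_ ?_))
  · rw [map_mul, mul_comm]
    exact mul_le_mul_of_nonneg_right (pade_eval hv h2 hδ) (v.nonneg _)
  · rw [map_mul, mul_comm, map_mul, map_pow]
    exact mul_le_mul_of_nonneg_right ((mul_le_of_le_one_left (v.nonneg _)
      (pow_le_one₀ (v.nonneg _) hδ)).trans (pade_eval hv h4 hδ)) (v.nonneg _)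

theorem pade_lcm (hv : IsNonarchimedean v) (N : ℕ) :
    0 < v (Nat.lcmUpto N) ∧ ∀ i < N, 1 ≤ v ((i : K) + 1) * (v (Nat.lcmUpto N))⁻¹ := by
  have h0 : 0 < v (Nat.lcmUpto N) := v.pos (by exact_mod_cast Nat.lcmUpto_ne_zero N)
  refine ⟨h0, fun i hi => ?_⟩
  obtain ⟨q, hq⟩ : i + 1 ∣ Nat.lcmUpto N :=
    Finset.dvd_lcm (f := id) (mem_Icc.2 ⟨by omega, by omega⟩)
  rw [← div_eq_mul_inv, one_le_div h0, hq, Nat.cast_mul, map_mul, Nat.cast_succ]
  exact mul_le_of_le_one_right (v.nonneg _) (v_nat_le hv q)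

theorem pade_LP {x y : K} (hy : y ≠ 0) (n : ℕ) :
    LP x y n = y ^ n * LP (1 + (x - y) / y) 1 n := by
  rw [← P_smul]
  congr 1
  · field_simp
    ring
  · rw [mul_one]

theorem pade_sol {x y : K} (hy : y ≠ 0) {s : ℕ → K} (hs : Rec (x + y) ((x - y) ^ 2) s) (n : ℕ) :
    s n = s 0 * LP x y n +
      (s 1 - (x + y) * s 0) / y * (y ^ n * (padeW K n).eval ((x - y) / y)) := by
  have hW := ((pade_W_rec (K := K)).map (evalRingHom ((x - y) / y))).scale y
  simp only [coe_evalRingHom, eval_add, eval_X, eval_pow, eval_ofNat] at hW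
  rw [show y * (2 + (x - y) / y) = x + y by field_simp; ring,
    show y ^ 2 * ((x - y) / y) ^ 2 = (x - y) ^ 2 by field_simp] at hW
  refine hs.ext ((P_rec x y).comb hW _ _) (by simp [padeW]) ?_ n
  simp only [padeW, P_one, eval_one]
  field_simp
  ring

omit [CharZero K] in
theorem pade_delta (hv : IsNonarchimedean v) {x y : K} (hy : y ≠ 0) (h : v x ≤ v y) :
    v ((x - y) / y) ≤ 1 := by
  rw [map_div₀, div_le_one (v.pos hy)]
  exact (v_sub_le hv x y).trans (max_le h le_rfl)

/-- denominators of a solution -/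
theorem sol_le (hv : IsNonarchimedean v) {x y : K} {s : ℕ → K}
    (hs : Rec (x + y) ((x - y) ^ 2) s) (n : ℕ) :
    v (2 * Nat.lcmUpto n * s n) ≤ max (v (s 0)) (v (s 1)) * max 1 (max (v x) (v y)) ^ n := by
  wlog h : v x ≤ v y generalizing x y
  · rw [max_comm (v x)]
    exact this (by rwa [add_comm, ← neg_sub, neg_sq]) (le_of_not_ge h)
  have h2 : v 2 ≤ 1 := by exact_mod_cast v_nat_le hv 2
  have hl : v (2 * Nat.lcmUpto n) ≤ 1 := by exact_mod_cast v_nat_le hv (2 * Nat.lcmUpto n)
  have hm : (1 : ℝ) ≤ max 1 (max (v x) (v y)) := le_max_left _ _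
  have hy' : v y ≤ max 1 (max (v x) (v y)) := le_max_of_le_right (le_max_right _ _)
  have h0 : 0 ≤ max (v (s 0)) (v (s 1)) := le_max_of_le_left (v.nonneg _)
  have small : v (s n) ≤ max (v (s 0)) (v (s 1)) → v (2 * Nat.lcmUpto n * s n) ≤
      max (v (s 0)) (v (s 1)) * max 1 (max (v x) (v y)) ^ n := fun hh => by
    rw [map_mul]
    exact ((mul_le_of_le_one_left (v.nonneg _) hl).trans hh).trans
      (le_mul_of_one_le_right h0 (one_le_pow₀ hm))
  rcases n with _ | n
  · exact small (le_max_left _ _)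
  by_cases hy : y = 0
  · subst hy
    have hx : x = 0 := by simpa using h
    subst hx
    rcases n with _ | n
    · exact small (le_max_right _ _)
    · have hn : (n + 2 : K) ≠ 0 := by exact_mod_cast (show n + 2 ≠ 0 by omega)
      have := hs n
      have e : s (n + 2) = 0 := mul_left_cancel₀ hn (by rw [this]; ring)
      exact small (by rwa [e, map_zero])
  obtain ⟨l1, l2⟩ := pade_lcm hv (n + 1)
  have hW := pade_W_le hv (inv_nonneg.2 l1.le) l2 (pade_delta hv hy h)
  rw [← mul_le_mul_iff_right₀ l1, mul_inv_cancel₀ l1.ne', ← map_mul] at hW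
  have e : 2 * Nat.lcmUpto (n + 1) * s (n + 1) =
      2 * Nat.lcmUpto (n + 1) * (s 0 * LP x y (n + 1)) + (s 1 - (x + y) * s 0) * y ^ n *
        (Nat.lcmUpto (n + 1) * (2 * (padeW K (n + 1)).eval ((x - y) / y))) := by
    rw [pade_sol hy hs (n + 1)]
    field_simp
    ring
  rw [e]
  refine (hv _ _).trans (max_le ?_ ?_)
  · rw [map_mul, map_mul v (s 0)]
    refine (mul_le_of_le_one_left (by positivity) hl).trans ?_
    exact mul_le_mul (le_max_left _ _) ((P_le hv x y _).trans
      (pow_le_pow_left₀ (by positivity) (le_max_right _ _) _)) (v.nonneg _) h0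
  · rw [map_mul, map_mul, map_pow, pow_succ', ← mul_assoc (max _ _)]
    refine (mul_le_of_le_one_right (mul_nonneg (v.nonneg _) (pow_nonneg (v.nonneg _) _)) hW).trans
      (mul_le_mul ?_ (pow_le_pow_left₀ (v.nonneg _) hy' _) (pow_nonneg (v.nonneg _) _)
        (mul_nonneg h0 (zero_le_one.trans hm)))
    refine (v_sub_le hv _ _).trans (max_le
      ((le_max_right _ _).trans (le_mul_of_one_le_right h0 hm)) ?_)
    rw [map_mul, mul_comm]
    exact mul_le_mul (le_max_left _ _) ((hv x y).trans (le_max_right _ _)) (v.nonneg _) h0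

/-- two consecutive Legendre values are not both small -/
theorem bezout (hv : IsNonarchimedean v) {x y : K} (hxy : x ≠ y) (n : ℕ) :
    v (2 * Nat.lcmUpto (2 * n + 2)) * max (v x) (v y) ^ (n + 1) ≤
      max (v (LP x y (n + 1))) (max (v x) (v y) * v (LP x y n)) := by
  wlog h : v x ≤ v y generalizing x y
  · rw [max_comm (v x), P_comm x, P_comm x]
    exact this hxy.symm (le_of_not_ge h)
  have hy : y ≠ 0 := by
    rintro rfl
    exact hxy (by simpa using h)
  obtain ⟨l1, l2⟩ := pade_lcm hv (2 * n + 2)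
  have hB := pade_bez hv (inv_nonneg.2 l1.le) l2 (pade_delta hv hy h)
  rw [← div_eq_inv_mul, le_div_iff₀ l1] at hB
  rw [max_eq_right h, pade_LP hy, pade_LP hy n, map_mul, map_mul, map_mul, map_pow, map_pow,
    ← mul_assoc, ← pow_succ', ← mul_max_of_nonneg _ _ (pow_nonneg (v.nonneg y) _), mul_comm]
  exact mul_le_mul_of_nonneg_left hB (pow_nonneg (v.nonneg y) _)

theorem pade_dich {e u : ℕ → ℝ} (he : ∀ n, 0 ≤ e n) (hu : Tendsto u atTop (𝓝 0))
    (h : ∀ n, e n ≤ max (e (n + 1)) (u n)) :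
    (∃ c : ℝ, 0 < c ∧ ∀ᶠ n in atTop, c ≤ e n) ∨ Tendsto e atTop (𝓝 0) := by
  refine or_iff_not_imp_left.2 fun hn => tendsto_order.2
    ⟨fun a ha => Eventually.of_forall fun n => ha.trans_le (he n), fun c hc => ?_⟩
  by_contra hf
  obtain ⟨N, hN⟩ := eventually_atTop.1 ((tendsto_order.1 hu).2 c hc)
  obtain ⟨n, hn1, hn2⟩ := (frequently_atTop.1 (not_eventually.1 hf)) N
  refine hn ⟨c, hc, eventually_atTop.2 ⟨n, fun k hk => ?_⟩⟩
  induction k, hk using Nat.le_induction with
  | base => exact not_lt.1 hn2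
  | succ k hk ih =>
    rcases le_max_iff.1 (ih.trans (h k)) with h1 | h1
    · exact h1
    · exact absurd (hN k (hn1.trans hk)) (not_lt.2 h1)

omit [CharZero K] in
theorem pade_dom (hv : IsNonarchimedean v) {a b : K} (h : v b < v a) : v a ≤ v (a - b) := by
  have := hv (a - b) b
  rw [sub_add_cancel] at this
  exact (le_max_iff.1 this).resolve_right (not_le.2 h)

theorem pade_odd {a : ℕ → K} {B : K} (h : Rec 0 B a) {i : ℕ} (h0 : a i = 0) (k : ℕ) :
    a (2 * k + i) = 0 := by
  induction k with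
  | zero => simpa using h0
  | succ k ih =>
    have hn : ((2 * k + i : ℕ) + 2 : K) ≠ 0 := by exact_mod_cast (show 2 * k + i + 2 ≠ 0 by omega)
    rw [show 2 * (k + 1) + i = 2 * k + i + 2 by ring]
    exact mul_left_cancel₀ hn (by rw [h, ih]; ring)

/-- at a hyperbolic place a solution is dominant unless a logarithm lies in the field -/
theorem fin_growth (hv : IsNonarchimedean v) {d : ℕ} (hd : ∀ i : ℕ, 0 < i → 1 ≤ v i * (i : ℝ) ^ d)
    {x y : K} (hxy : x ≠ y) (h : v (x - y) < v y) {s : ℕ → K}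
    (hs : Rec (x + y) ((x - y) ^ 2) s) (hm : s 1 - (x + y) * s 0 ≠ 0) :
    (∃ c : ℝ, 0 < c ∧ ∀ᶠ n : ℕ in atTop,
      c * v y ^ (n + 1) ≤ (n + 1 : ℝ) ^ d * max (v (s (n + 1))) (v y * v (s n))) ∨
    (Tendsto (fun N => v (Lg N ((x - y) / y) - -2 * (x - y) * s 0 / (s 1 - (x + y) * s 0)))
      atTop (𝓝 0) ∧ (x + y = 0 → s 0 = 0)) := by
  have hy0 : 0 < v y := (v.nonneg _).trans_lt h
  have hy : y ≠ 0 := v.pos_iff.1 hy0
  have hxy' : x - y ≠ 0 := sub_ne_zero.2 hxy
  have hsol := pade_sol hy hs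
  simp only [pade_LP hy (x := x)] at hsol
  have hxe : x - y = (x - y) / y * y := by field_simp
  have hxe' : x + y = (2 + (x - y) / y) * y := by field_simp; ring
  have hδ0 : (x - y) / y ≠ 0 := div_ne_zero hxy' hy
  have hδ1 : v ((x - y) / y) < 1 := by rwa [map_div₀, div_lt_one hy0]
  generalize (x - y) / y = δ at *
  generalize hγ : -2 * (x - y) * s 0 / (s 1 - (x + y) * s 0) = γ
  generalize s 1 - (x + y) * s 0 = μ at *
  have hr : 0 < v δ := v.pos hδ0
  have h2 : 0 < v 2 := v.pos two_ne_zero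
  have hM : ∀ N : ℕ, ∀ i < N, 1 ≤ v ((i : K) + 1) * (N : ℝ) ^ d := fun N i hi => by
    have := hd (i + 1) i.succ_pos
    rw [Nat.cast_succ] at this
    exact this.trans (mul_le_mul_of_nonneg_left (pow_le_pow_left₀ (by positivity)
      (by exact_mod_cast hi) _) (v.nonneg _))
  have hlim := fun k => tendsto_pow_const_mul_const_pow_of_abs_lt_one k
    (r := v δ) (by rwa [abs_of_pos hr])
  have hbez := fun n : ℕ => pade_bez hv (n := n) (by positivity) (hM (2 * n + 2)) hδ1.le
  have hT := fun (n N : ℕ) (hN : 2 * n ≤ N) => pade_T_le hv (by positivity) hN (hM N) hδ1.le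
  have hg : Tendsto (fun n : ℕ => v δ ^ (2 * n + 1) * ((2 * n + 2 : ℕ) : ℝ) ^ d *
      ((2 * n + 2 : ℕ) : ℝ) ^ d) atTop (𝓝 0) := by
    have h1 := ((hlim (d + d)).comp (tendsto_atTop_mono (f := id)
      (g := fun n : ℕ => 2 * n + 2) (fun n => by simp only [id]; omega) tendsto_id)).div_const (v δ)
    rw [zero_div] at h1
    refine h1.congr fun n => ?_
    simp only [Function.comp]
    field_simp
    ring
  rcases pade_dich (e := fun N => v (Lg N δ - γ)) (fun N => v.nonneg _)
    ((hlim d).comp (tendsto_add_atTop_nat 1)) (fun N => by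
      have e : Lg N δ - γ = Lg (N + 1) δ - γ - (-1) ^ N * δ ^ (N + 1) / (N + 1) := by
        rw [Lg, Lg, sum_range_succ]
        ring
      have hN : 0 < v ((N : K) + 1) := v.pos (by exact_mod_cast N.succ_ne_zero)
      rw [e]
      refine (v_sub_le hv _ _).trans (max_le_max le_rfl ?_)
      rw [map_div₀, map_mul, map_pow, map_pow, v.map_neg, map_one, one_pow, one_mul,
        div_le_iff₀ hN]
      simp only [Function.comp]
      rw [mul_comm, mul_comm, mul_right_comm, mul_comm _ (v _)]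
      exact le_mul_of_one_le_left (by positivity) (hM (N + 1) N N.lt_succ_self)) with
    ⟨c, hc, h1⟩ | h1
  · refine Or.inl ⟨v μ * c / (v δ * v y * 2 ^ d), by have := v.pos hm; positivity, ?_⟩
    have h3 := (tendsto_atTop_mono (f := id) (g := fun n : ℕ => 2 * n + 2)
      (fun n => by simp only [id]; omega) tendsto_id).eventually h1
    filter_upwards [h3, (tendsto_order.1 hg).2 _ (mul_pos hc h2)] with n h4 h5
    have hM0 : 0 < ((2 * n + 2 : ℕ) : ℝ) ^ d := by positivity
    have key : ∀ k, n ≤ k → k ≤ n + 1 → v 2 ≤ ((2 * n + 2 : ℕ) : ℝ) ^ d * v (LP (1 + δ) 1 k) →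
        v μ * c / (v δ * v y * 2 ^ d) * v y ^ k ≤ (n + 1 : ℝ) ^ d * v (s k) := by
      intro k k1 k2 k3
      have e : 2 * (δ * y * s k) = μ * y ^ k * (LP (1 + δ) 1 k * (Lg (2 * n + 2) δ - γ) -
          (LP (1 + δ) 1 k * Lg (2 * n + 2) δ - 2 * (δ * (padeW K k).eval δ))) := by
        rw [hsol k, ← hγ, hxe]
        field_simp
        ring
      have a1 : c * v 2 ≤ v (LP (1 + δ) 1 k * (Lg (2 * n + 2) δ - γ)) *
          ((2 * n + 2 : ℕ) : ℝ) ^ d := by
        rw [map_mul]
        calc c * v 2 ≤ v (Lg (2 * n + 2) δ - γ) * (((2 * n + 2 : ℕ) : ℝ) ^ d *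
              v (LP (1 + δ) 1 k)) := mul_le_mul h4 k3 h2.le (v.nonneg _)
          _ = _ := by ring
      have a2 := (hT k (2 * n + 2) (by omega)).trans (mul_le_mul_of_nonneg_right
        (pow_le_pow_of_le_one hr.le hδ1.le (show 2 * n + 1 ≤ 2 * k + 1 by omega)) hM0.le)
      have a3 := a1.trans (mul_le_mul_of_nonneg_right (pade_dom hv
        (a2.trans_lt (lt_of_mul_lt_mul_right (h5.trans_le a1) hM0.le))) hM0.le)
      have a4 := congrArg v e
      simp only [map_mul v 2, map_mul v (δ * y), map_mul v δ y, map_mul v (μ * y ^ k),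
        map_mul v μ, map_pow] at a4
      have a5 : ((2 * n + 2 : ℕ) : ℝ) ^ d = 2 ^ d * (n + 1 : ℝ) ^ d := by
        rw [← mul_pow]
        push_cast
        ring
      rw [div_mul_eq_mul_div, div_le_iff₀ (by positivity)]
      refine le_of_mul_le_mul_left ?_ h2
      calc v 2 * (v μ * c * v y ^ k) = v μ * v y ^ k * (c * v 2) := by ring
        _ ≤ _ := mul_le_mul_of_nonneg_left a3 (by positivity)
        _ = _ := by rw [← mul_assoc, ← a4, a5]; ring
    have hb := hbez n
    rw [mul_max_of_nonneg _ _ hM0.le] at hb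
    rw [mul_max_of_nonneg _ _ (by positivity)]
    rcases le_max_iff.1 hb with h6 | h6
    · exact le_max_of_le_left (key _ n.le_succ le_rfl h6)
    · refine le_max_of_le_right ?_
      calc _ = v y * (v μ * c / (v δ * v y * 2 ^ d) * v y ^ n) := by ring
        _ ≤ v y * ((n + 1 : ℝ) ^ d * v (s n)) :=
          mul_le_mul_of_nonneg_left (key _ le_rfl n.le_succ h6) hy0.le
        _ = _ := by ring
  · refine Or.inr ⟨h1, fun h0 => ?_⟩
    have hδ : 2 + δ = 0 := (mul_eq_zero.1 (hxe' ▸ h0)).resolve_right hy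
    have rW := (pade_W_rec (K := K)).map (evalRingHom δ)
    have rS := P_rec (1 + δ) 1
    simp only [coe_evalRingHom, eval_add, eval_X, eval_ofNat, hδ] at rW
    rw [show 1 + δ + 1 = 0 by linear_combination hδ] at rS
    have hk : ∀ k : ℕ, v 2 * v γ ≤ max (v 2 * v (Lg (2 * (2 * k) + 2) δ - γ))
        (v δ ^ (2 * (2 * k) + 1) * ((2 * (2 * k) + 2 : ℕ) : ℝ) ^ d *
          ((2 * (2 * k) + 2 : ℕ) : ℝ) ^ d) := by
      intro k
      have b1 := hbez (2 * k)
      have b2 := hT (2 * k) (2 * (2 * k) + 2) (by omega)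
      have b3 := pade_odd rW (i := 0) (by simp [padeW]) k
      rw [add_zero] at b3
      rw [pade_odd rS (i := 1) (by rw [P_one]; linear_combination hδ) k, map_zero,
        max_eq_right (v.nonneg _)] at b1
      rw [b3, mul_zero, mul_zero, sub_zero, map_mul] at b2
      have b4 := v_sub_le hv (Lg (2 * (2 * k) + 2) δ) (Lg (2 * (2 * k) + 2) δ - γ)
      rw [sub_sub_cancel, max_comm] at b4
      refine (mul_le_mul_of_nonneg_left b4 h2.le).trans ?_
      rw [mul_max_of_nonneg _ _ h2.le]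
      refine max_le_max le_rfl ((mul_le_mul_of_nonneg_right b1 (v.nonneg _)).trans ?_)
      rw [mul_assoc, mul_comm]
      exact mul_le_mul_of_nonneg_right b2 (by positivity)
    have t1 := (h1.comp (tendsto_atTop_mono (f := id) (g := fun k : ℕ => 2 * (2 * k) + 2)
      (fun n => by simp only [id]; omega) tendsto_id)).const_mul (v 2)
    have t2 := hg.comp (tendsto_atTop_mono (f := id) (g := fun k : ℕ => 2 * k)
      (fun n => by simp only [id]; omega) tendsto_id)
    have t3 := ge_of_tendsto' (t1.max t2) hk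
    rw [mul_zero, max_self] at t3
    have t4 : γ = 0 := v.eq_zero.1 (le_antisymm (nonpos_of_mul_nonpos_right t3 h2) (v.nonneg _))
    rw [t4, div_eq_zero_iff, or_iff_left hm] at hγ
    exact (mul_eq_zero.1 hγ).resolve_left (mul_ne_zero (by norm_num) hxy')

end Pool.Agent.P.MP_68214b_ag
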