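import Pool.Agent.P.MP_68214b_ag.Primes
import Pool.Agent.P.MP_68214b_ag.HLArch
import Pool.Agent.P.MP_68214b_ag.HLPadic
import Pool.Agent.P.MP_68214b_ag.Arch
import Pool.Agent.P.MP_68214b_ag.Pade

open NumberField Height Filter Topology Finset

namespace Pool.Agent.P.MP_68214b_ag

theorem ev_poly (C : ℝ) (e : ℕ) {b : ℝ} (hb : 1 < b) :
    ∀ᶠ n : ℕ in atTop, C * (n + 1 : ℝ) ^ e ≤ b ^ n := by
  have h := ((tendsto_pow_const_div_const_pow_of_one_lt e hb).comp
    (tendsto_add_atTop_nat 1)).const_mul (C * b)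
  rw [mul_zero] at h
  filter_upwards [h.eventually_le_const one_pos] with n hn
  have b0 : 0 < b := by linarith
  simp only [Function.comp, Nat.cast_add, Nat.cast_one, pow_succ b] at hn
  rw [← div_le_one (by positivity)]
  exact le_of_eq_of_le (by field_simp) hn

variable {K : Type} [Field K] [NumberField K]

/-- exponential growth of the height of the ratio of consecutive terms -/
def Grows (s : ℕ → K) : Prop :=
  ∃ κ : ℝ, 1 < κ ∧ ∀ᶠ n : ℕ in atTop, κ ^ n ≤ mulHeight ![s (n + 1), s n]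

/-- local size of two consecutive terms -/
noncomputable def Mx (v : FinitePlace K) (x y : K) (s : ℕ → K) (n : ℕ) : ℝ :=
  max (v (s (n + 1))) (max (v x) (v y) * v (s n))

theorem Mx_nonneg (v : FinitePlace K) (x y : K) (s : ℕ → K) (n : ℕ) : 0 ≤ Mx v x y s n :=
  (apply_nonneg v _).trans (le_max_left _ _)

theorem grows_of {x y : K} {s : ℕ → K} (a : ℕ → K) (S : Finset (FinitePlace K)) {κ : ℝ} (e : ℕ)
    (hκ : 1 < κ) (h0 : ∀ n, a n ≠ 0)
    (h1 : ∀ᶠ n in atTop, ∀ v ∉ S, v (a n) ≤ Mx v x y s n ^ 2)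
    (h2 : ∀ v ∈ S, ∃ c : ℝ, 0 < c ∧ ∀ᶠ n : ℕ in atTop,
      c * v (a n) ≤ (n + 1 : ℝ) ^ e * Mx v x y s n ^ 2)
    (h3 : ∀ φ : K →+* ℂ, ∃ c : ℝ, 0 < c ∧ ∀ᶠ n : ℕ in atTop,
      c * κ ^ n * ‖φ (a n)‖ ≤ (n + 1 : ℝ) ^ e * (max ‖φ (s (n + 1))‖ ‖φ (s n)‖) ^ 2) :
    Grows s := by
  classical
  have ev : ∀ c : ℝ, 0 < c → ∀ᶠ n : ℕ in atTop, ∀ A B : ℝ, 0 ≤ A → 0 ≤ B →
      c * A ≤ (n + 1 : ℝ) ^ e * B → ((n + 1 : ℝ) ^ (e + 1))⁻¹ * A ≤ B := fun c hc => by
    filter_upwards [tendsto_natCast_atTop_atTop.eventually_ge_atTop c⁻¹] with n hn A B hA hB h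
    rw [inv_mul_le_iff₀ (by positivity), pow_succ', mul_assoc]
    have : 1 ≤ (n + 1 : ℝ) * c := by
      rw [inv_le_iff_one_le_mul₀ hc] at hn; nlinarith
    calc A ≤ (n + 1) * c * A := le_mul_of_one_le_left hA this
      _ ≤ _ := by rw [mul_assoc]; gcongr
  have h2' : ∀ᶠ n : ℕ in atTop, ∀ v ∈ S, ((n + 1 : ℝ) ^ (e + 1))⁻¹ * v (a n) ≤ Mx v x y s n ^ 2 :=
    (eventually_all_finset S).2 fun v hv => by
      obtain ⟨c, hc, h⟩ := h2 v hv
      filter_upwards [h, ev c hc] with n hn hn' using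
        hn' _ _ (apply_nonneg v _) (by positivity) hn
  have k0 : 0 < κ := by linarith
  have h3' : ∀ᶠ n : ℕ in atTop, ∀ φ : K →+* ℂ, ((n + 1 : ℝ) ^ (e + 1))⁻¹ * (κ ^ n * ‖φ (a n)‖) ≤
      (max ‖φ (s (n + 1))‖ ‖φ (s n)‖) ^ 2 :=
    eventually_all.2 fun φ => by
      obtain ⟨c, hc, h⟩ := h3 φ
      filter_upwards [h, ev c hc] with n hn hn' using
        hn' _ _ (by positivity) (by positivity) (by rwa [← mul_assoc])
  set q := √(√κ) with hq
  have q1 : 1 < q := by rw [hq, Real.lt_sqrt zero_le_one, Real.lt_sqrt (by norm_num)]; simpa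
  have q4 : (q ^ 2) ^ 2 = κ := by rw [hq, Real.sq_sqrt (Real.sqrt_nonneg _), Real.sq_sqrt k0.le]
  set H0 := mulHeight ![1, x, y]
  refine ⟨q, q1, ?_⟩
  filter_upwards [h1, h2', h3', ev_poly 1 (e + 1) hκ,
    ev_poly (H0 ^ 2) ((e + 1) * (S.card + 1)) (one_lt_pow₀ q1 two_ne_zero)] with n g1 g2 g3 g4 g5
  set u := (n + 1 : ℝ) ^ (e + 1) with hu
  have u0 : 0 < u := by positivity
  have p0 : ![s (n + 1), s n] ≠ 0 := fun h => by
    obtain ⟨φ⟩ : Nonempty (K →+* ℂ) := inferInstance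
    have := g3 φ
    have a0 : 0 < ‖φ (a n)‖ := by simpa using h0 n
    rw [show s (n + 1) = 0 from congrFun h 0, show s n = 0 from congrFun h 1] at this
    simp only [map_zero, norm_zero, max_self] at this
    rw [zero_pow two_ne_zero] at this
    exact absurd this (not_le.2 (by positivity))
  set T : Fin 3 × Fin 2 → K := fun i => ![1, x, y] i.1 * ![s (n + 1), s n] i.2 with hT
  have T0 : T ^ 2 ≠ 0 := by
    obtain ⟨j, hj⟩ := Function.ne_iff.1 p0
    exact Function.ne_iff.2 ⟨(0, j), by simpa [hT] using hj⟩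
  have eT : mulHeight (T ^ 2) = (H0 * mulHeight ![s (n + 1), s n]) ^ 2 := by
    rw [mulHeight_pow, hT, mulHeight_fun_mul_eq (by simp) p0]
  have hM : ∀ v : FinitePlace K, ∃ j, Mx v x y s n ^ 2 ≤ v ((T ^ 2) j) := fun v => by
    simp only [Pi.pow_apply, map_pow]
    rcases max_choice (v (s (n + 1))) (max (v x) (v y) * v (s n)) with h | h
    · exact ⟨(0, 0), by simp [Mx, h, hT]⟩
    rcases max_choice (v x) (v y) with h' | h'
    · exact ⟨(1, 1), by rw [Mx, h, h']; simp [hT]⟩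
    · exact ⟨(2, 1), by rw [Mx, h, h']; simp [hT]⟩
  have := ht_cmp (x := ![a n]) (by simpa using h0 n) T0 S (fun v => if v ∈ S then u⁻¹ else 1)
    (fun v => by split_ifs <;> positivity) (fun v hv => if_neg hv) (r := u⁻¹ * κ ^ n)
    (by positivity) (fun v i => by
      obtain ⟨j, hj⟩ := hM v
      refine ⟨j, le_trans ?_ hj⟩
      split_ifs with h
      · simpa using g2 v h
      · simpa using g1 v h) fun φ i => by
      have := g3 φ
      rcases max_choice ‖φ (s (n + 1))‖ ‖φ (s n)‖ with h | h <;> rw [h] at this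
      · exact ⟨(0, 0), by simpa [hT, mul_assoc] using this⟩
      · exact ⟨(0, 1), by simpa [hT, mul_assoc] using this⟩
  rw [mulHeight_eq_one_of_subsingleton, mul_one, eT, prod_ite_mem, inter_self, prod_const] at this
  have r1 : 1 ≤ u⁻¹ * κ ^ n := by rw [le_inv_mul_iff₀ u0]; simpa using g4
  have r2 := (mul_le_mul_of_nonneg_right (le_self_pow₀ r1 Module.finrank_pos.ne')
    (by positivity)).trans this
  rw [pow_mul, ← hu] at g5
  rw [mul_right_comm, ← pow_succ', inv_pow, inv_mul_le_iff₀ (by positivity), mul_pow, ← mul_assoc,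
    ← q4, pow_right_comm, sq ((q ^ 2) ^ n), mul_comm (u ^ _)] at r2
  have r3 := le_of_mul_le_mul_left (r2.trans (mul_le_mul_of_nonneg_right g5 (by positivity)))
    (by positivity)
  rw [pow_right_comm] at r3
  exact (pow_le_pow_iff_left₀ (by positivity) (mulHeight_pos _).le two_ne_zero).1 r3

theorem exists_S (Z : Finset K) :
    ∃ S : Finset (FinitePlace K), ∀ v ∉ S, ∀ z ∈ Z, v z ≤ 1 ∧ (z ≠ 0 → v z = 1) := by
  classical
  have : (⋃ z ∈ Z.erase 0, Function.mulSupport fun v : FinitePlace K => v z).Finite :=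
    Set.Finite.biUnion (Z.erase 0).finite_toSet fun z hz =>
      FinitePlace.hasFiniteMulSupport (mem_erase.1 hz).1
  refine ⟨this.toFinset, fun v hv z hz => ?_⟩
  have h : z ≠ 0 → v z = 1 := fun h0 => by_contra fun h => hv (by
    simp only [Set.Finite.mem_toFinset, Set.mem_iUnion]
    exact ⟨z, mem_erase.2 ⟨h0, hz⟩, h⟩)
  by_cases h0 : z = 0
  · simp [h0]
  · exact ⟨(h h0).le, h⟩

theorem mono_step (v : FinitePlace K) {A B : K} {s : ℕ → K} (hs : Rec A B s) (hA : v A ≤ 1)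
    (hB : v B = 1) {n : ℕ} (hn : v (n + 1 : ℕ) = 1) :
    max (v (s (n + 1))) (v (s n)) ≤ max (v (s (n + 2))) (v (s (n + 1))) := by
  refine max_le (le_max_right _ _) ?_
  have e : ((n + 1 : ℕ) : K) * B * s n =
      (2 * n + 3 : ℕ) * A * s (n + 1) - (n + 2 : ℕ) * s (n + 2) := by
    push_cast; linear_combination hs n
  have := v_sub_le (fin_na v) ((2 * n + 3 : ℕ) * A * s (n + 1)) ((n + 2 : ℕ) * s (n + 2))
  rw [← e] at this
  simp only [← FinitePlace.coe_apply, map_mul, hn, hB, one_mul] at this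
  rw [max_comm]
  exact this.trans (max_le_max
    (mul_le_of_le_one_left (apply_nonneg v _) (mul_le_one₀ (fin_nat_le v _) (apply_nonneg v _) hA))
    (mul_le_of_le_one_left (apply_nonneg v _) (fin_nat_le v _)))

theorem max_eq_one (v : FinitePlace K) {x y : K} (hx : v x ≤ 1) (hy : v y ≤ 1)
    (h : v (x - y) = 1) : max (v x) (v y) = 1 :=
  le_antisymm (max_le hx hy) (h.ge.trans (v_sub_le (fin_na v) x y))

theorem special_good (v : FinitePlace K) {x y : K} (hx : v x ≤ 1) (hy : v y ≤ 1)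
    (h : v (x - y) = 1) {r n : ℕ} (hr : 0 < r) (hP : ∀ j, 0 < j → j < r → v (LP x y j) = 1)
    (hp : ∀ p : ℕ, p.Prime → p ≤ (n + 1) / r → v p = 1) (k : ℕ) (hk : k ≤ n) :
    1 ≤ max (v (LP x y (k + 1))) (v (LP x y k)) := by
  induction k with
  | zero => simp
  | succ k ih =>
    by_cases h1 : v (k + 1 : ℕ) = 1
    · exact (ih (by omega)).trans (mono_step v (P_rec x y)
        ((v.add_le x y).trans (max_le hx hy)) (by rw [map_pow, h, one_pow]) h1)
    obtain ⟨p, pp, ⟨j, hj⟩, hv⟩ := exists_prime_of_lt (v := v.1) k.succ_ne_zero h1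
    have h2 : n + 1 < p * r := (Nat.div_lt_iff_lt_mul hr).1 (not_le.1 fun h => hv (hp p pp h))
    have h3 : j < r := lt_of_mul_lt_mul_left (a := p) (by omega) (Nat.zero_le _)
    have h4 : 0 < j := Nat.pos_of_ne_zero fun h => by simp [h] at hj
    have := P_lucas (fin_na v) hx hy pp (lt_of_le_of_ne (fin_nat_le v p) hv) (hP j h4 h3)
    rw [mul_comm, ← hj] at this
    exact this.ge.trans (le_max_right _ _)

theorem grows_special' {x y : K} (hx : x ≠ 0) (hy : y ≠ 0) (hxy : x ≠ y) {r : ℕ} (hr : 0 < r)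
    {b γ : ℝ} (b0 : 0 < b) (hb : 4 < b ^ r) (hγ : 1.1 * b ^ 2 ≤ 0.9 ^ 2 * γ)
    (hP : ∀ j, 0 < j → j < r → LP x y j ≠ 0)
    (hg : ∀ (φ : K →+* ℂ) (g : ℝ), ‖φ x‖ + ‖φ y‖ ≤ g → ‖(φ x - φ y) ^ 2‖ ≤ g ^ 2 →
      γ * (‖φ x‖ * ‖φ y‖) ≤ g ^ 2) : Grows (LP x y) := by
  classical
  obtain ⟨S, hS⟩ := exists_S (insert x (insert y (insert (x - y) ((range r).image (LP x y)))))
  have N0 : ∀ k, 0 < Nn r k := fun k =>
    prod_pos fun p hp => pow_pos (Nat.prime_of_mem_primesLE hp).pos _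
  have va : ∀ (v : FinitePlace K) (n : ℕ), v ((x * y) ^ (n + 1) * (2 * Nn r (n + 1)) ^ 2) ≤
      (v (2 * Nn r (n + 1)) * max (v x) (v y) ^ (n + 1)) ^ 2 := fun v n => by
    rw [map_mul, map_pow, map_pow, map_mul, mul_pow (v (2 * _)), mul_comm, pow_right_comm, sq (max _ _)]
    gcongr
    exacts [le_max_left _ _, le_max_right _ _]
  refine grows_of (x := x) (y := y) (fun n => (x * y) ^ (n + 1) * (2 * Nn r (n + 1)) ^ 2) S
    (κ := 1.1) (2 * Module.finrank ℚ K) (by norm_num) (fun n => by have := (N0 (n + 1)).ne'; simp [*])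
    (Eventually.of_forall fun n v hv => (va v n).trans
      (pow_le_pow_left₀ (by positivity) ?_ _)) (fun v _ => ?_) fun φ => ?_
  · by_cases h : ∃ p ∈ Nat.primesLE ((n + 1) / r), v p < 1
    · obtain ⟨p, hp, h⟩ := h
      refine le_of_eq_of_le ?_ (bezout (fin_na v) hxy n)
      have hp' : p ∈ Nat.primesLE (2 * n + 2) := Nat.mem_primesLE.2
        ⟨(Nat.le_of_mem_primesLE hp).trans ((Nat.div_le_self _ _).trans (by omega)),
          Nat.prime_of_mem_primesLE hp⟩
      simp only [FinitePlace.coe_apply, map_mul]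
      rw [Nn, Nat.lcmUpto_eq_prod_pow_log,
        v_prod_eq (fin_na v) (fun q => Nat.prime_of_mem_primesLE) _ hp h,
        v_prod_eq (fin_na v) (fun q => Nat.prime_of_mem_primesLE) _ hp' h, mul_add 2 n 1]
    · push Not at h
      have h1 := (hS v hv x (by simp)).1
      have h2 := (hS v hv y (by simp)).1
      have h3 := (hS v hv (x - y) (by simp)).2 (sub_ne_zero.2 hxy)
      rw [Mx, max_eq_one v h1 h2 h3, one_pow, mul_one, one_mul]
      refine le_trans (by exact_mod_cast fin_nat_le v (2 * Nn r (n + 1)))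
        (special_good v h1 h2 h3 hr (fun j j0 jr => (hS v hv _ ?_).2 (hP j j0 jr))
          (fun p pp hp => le_antisymm (fin_nat_le v p) (h p (Nat.mem_primesLE.2 ⟨hp, pp⟩))) n le_rfl)
      simp only [mem_insert, mem_image, mem_range]
      exact Or.inr (Or.inr (Or.inr ⟨j, jr, rfl⟩))
  · have v2 : 0 < v 2 := FinitePlace.pos_iff.2 two_ne_zero
    refine ⟨(v 2 / 2 ^ Module.finrank ℚ K) ^ 2, by positivity, Eventually.of_forall fun n => ?_⟩
    refine (mul_le_mul_of_nonneg_left (va v n) (by positivity)).trans ?_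
    rw [pow_mul', ← mul_pow, ← mul_pow]
    refine pow_le_pow_left₀ (by positivity) ?_ _
    obtain ⟨i, i0, hi, e⟩ := v_lcm (fin_na v) (N := 2 * n + 2) (by omega)
    have h1 := bezout (fin_na v) hxy n
    rw [map_mul, e] at h1
    have h2 := nat_bound v i i0
    have h3 : (i : ℝ) ^ Module.finrank ℚ K ≤
        2 ^ Module.finrank ℚ K * (n + 1 : ℝ) ^ Module.finrank ℚ K := by
      rw [← mul_pow]; gcongr; exact_mod_cast (by omega : i ≤ 2 * (n + 1))
    have h4 : v (2 * Nn r (n + 1)) ≤ 1 := by exact_mod_cast fin_nat_le v (2 * Nn r (n + 1))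
    rw [div_mul_eq_mul_div, div_le_iff₀ (by positivity)]
    change v 2 * v i * max (v x) (v y) ^ (n + 1) ≤ Mx v x y (LP x y) n at h1
    calc _ ≤ v 2 * (1 * max (v x) (v y) ^ (n + 1)) := by gcongr
      _ ≤ v 2 * ((v i * (2 ^ Module.finrank ℚ K * (n + 1 : ℝ) ^ Module.finrank ℚ K)) *
          max (v x) (v y) ^ (n + 1)) := by
        gcongr; exact h2.trans (mul_le_mul_of_nonneg_left h3 (apply_nonneg v _))
      _ = (n + 1 : ℝ) ^ Module.finrank ℚ K * (v 2 * v i * max (v x) (v y) ^ (n + 1)) *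
          2 ^ Module.finrank ℚ K := by ring
      _ ≤ _ := by gcongr
  · obtain ⟨g, g1, g2, -, g3⟩ := arch_growth ((map_ne_zero φ).2 hx) ((map_ne_zero φ).2 hy)
      (φ.injective.ne hxy)
    obtain ⟨c, c0, hc⟩ := ((g3 _ (P_rec _ _) (by simp)).resolve_right (by simp)) 0.9 (by norm_num)
      (by norm_num)
    have x0 : 0 < ‖φ x‖ := by simpa using hx
    have y0 : 0 < ‖φ y‖ := by simpa using hy
    refine ⟨c ^ 2 / (4 * b ^ 2 * (‖φ x‖ * ‖φ y‖)), by positivity, ?_⟩
    filter_upwards [(tendsto_add_atTop_nat 1).eventually (Nn_le r hr b0 hb)] with n hn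
    refine le_trans ?_ (le_mul_of_one_le_left (by positivity) (one_le_pow₀ (by simp)))
    rw [P_map, P_map]
    have g0 : 0 ≤ g := le_trans (by positivity) g1
    refine le_trans ?_ (pow_le_pow_left₀ (by positivity) (hc n) 2)
    have h1 : 1.1 * b ^ 2 * (‖φ x‖ * ‖φ y‖) ≤ (0.9 * g) ^ 2 := by
      have := hg φ g g1 g2
      have := mul_le_mul_of_nonneg_right hγ (mul_pos x0 y0).le
      nlinarith
    simp only [map_mul, map_pow, norm_mul, norm_pow, map_natCast, map_ofNat, Complex.norm_ofNat,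
      Complex.norm_natCast]
    calc _ ≤ c ^ 2 / (4 * b ^ 2 * (‖φ x‖ * ‖φ y‖)) * 1.1 ^ n *
          ((‖φ x‖ * ‖φ y‖) ^ (n + 1) * (2 * b ^ (n + 1)) ^ 2) := by gcongr
      _ = c ^ 2 * (1.1 * b ^ 2 * (‖φ x‖ * ‖φ y‖)) ^ n := by
        rw [mul_pow (1.1 * _), mul_pow 1.1]; field_simp; ring
      _ ≤ _ := by rw [mul_pow c, pow_right_comm]; gcongr

theorem grows_special {x y : K} (hx : x ≠ 0) (hy : y ≠ 0) (hxy : x ≠ y) (hA : x + y ≠ 0) :
    Grows (LP x y) := by
  by_cases h2 : LP x y 2 = 0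
  · refine grows_special' hx hy hxy two_pos (b := 2.1) (γ := 6) (by norm_num) (by norm_num)
      (by norm_num) (fun j j0 j2 => by rwa [show j = 1 by omega, P_one]) fun φ g _ g2 => ?_
    have := congrArg φ (P_two x y)
    simp only [h2, map_mul, map_zero, map_sub, map_pow, map_add, map_ofNat] at this
    rw [show (φ x - φ y) ^ 2 = -6 * (φ x * φ y) by linear_combination (-1 / 2 : ℂ) * this] at g2
    simpa using g2
  · refine grows_special' hx hy hxy three_pos (b := 1.6) (γ := 4) (by norm_num) (by norm_num)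
      (by norm_num) (fun j j0 j2 => ?_) fun φ g g1 _ => ?_
    · obtain rfl | rfl : j = 1 ∨ j = 2 := by omega
      · rwa [P_one]
      · exact h2
    · nlinarith [sq_nonneg (‖φ x‖ - ‖φ y‖), norm_nonneg (φ x), norm_nonneg (φ y)]

theorem cas_le (v : FinitePlace K) {x y : K} {s : ℕ → K} (hs : Rec (x + y) ((x - y) ^ 2) s)
    (n : ℕ) : v (s 1 - (x + y) * s 0) * (v (x - y) ^ 2) ^ n ≤
      v (n + 1 : ℕ) * (max (v x) (v y) ^ n * Mx v x y s n) := by
  have := congrArg v (hs.casP n)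
  rw [map_mul, map_mul, map_pow, map_pow] at this
  rw [← this, Nat.cast_succ]
  refine mul_le_mul_of_nonneg_left ((v_sub_le (fin_na v) _ _).trans ?_) (apply_nonneg v _)
  rw [Mx, mul_max_of_nonneg _ _ (by positivity), map_mul, map_mul, ← mul_assoc, ← pow_succ,
    mul_comm (_ ^ n), mul_comm (_ ^ (n + 1))]
  exact max_le_max (mul_le_mul_of_nonneg_left (P_le (fin_na v) x y _) (apply_nonneg v _))
    (mul_le_mul_of_nonneg_left (P_le (fin_na v) x y _) (apply_nonneg v _))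

theorem v_not_dvd (v : FinitePlace K) {p k : ℕ} (pp : p.Prime) (h : v p < 1) (hk : ¬p ∣ k) :
    v k = 1 := by
  by_contra h1
  obtain ⟨q, qq, hq, hv⟩ := exists_prime_of_lt (v := v.1) (fun h => hk (by simp [h])) h1
  exact hk (v_prime_unique (fin_na v) qq pp (lt_of_le_of_ne (fin_nat_le v q) hv) h ▸ hq)

theorem generic_good (v : FinitePlace K) {x y : K} {s : ℕ → K} (hs : Rec (x + y) ((x - y) ^ 2) s)
    (hx : v x ≤ 1) (hy : v y ≤ 1) (h : v (x - y) = 1) (h0 : v (s 0) ≤ 1) (h1 : v (s 1) ≤ 1)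
    (hm : v (s 1 - (x + y) * s 0) = 1) {p : ℕ} (pp : p.Prime) (hp : v p < 1) (k : ℕ)
    (k1 : p ≤ k + 1) (k2 : k + 1 < 2 * p) : (v p)⁻¹ ≤ max (v (s (k + 1))) (v (s k)) := by
  have hA : v (x + y) ≤ 1 := (v.add_le x y).trans (max_le hx hy)
  have hB : v ((x - y) ^ 2) = 1 := by rw [map_pow, h, one_pow]
  have a1 : ∀ k, k < p → v (s k) ≤ 1 := fun k => by
    induction k using Nat.twoStepInduction with
    | zero => exact fun _ => h0
    | one => exact fun _ => h1
    | more k a b =>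
      intro hk
      have e : ((k + 2 : ℕ) : K) * s (k + 2) =
          (2 * k + 3 : ℕ) * (x + y) * s (k + 1) - (k + 1 : ℕ) * (x - y) ^ 2 * s k := by
        push_cast; exact hs k
      have := v_sub_le (fin_na v) ((2 * k + 3 : ℕ) * (x + y) * s (k + 1))
        ((k + 1 : ℕ) * (x - y) ^ 2 * s k)
      rw [← e] at this
      simp only [← FinitePlace.coe_apply, map_mul, hB, mul_one,
        v_not_dvd v pp hp (Nat.not_dvd_of_pos_of_lt (by omega) hk), one_mul] at this
      exact this.trans (max_le (mul_le_one₀ (mul_le_one₀ (fin_nat_le v _) (apply_nonneg v _) hA)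
        (apply_nonneg v _) (b (by omega)))
        (mul_le_one₀ (fin_nat_le v _) (apply_nonneg v _) (a (by omega))))
  have a2 : (v p)⁻¹ ≤ v (s p) := by
    obtain ⟨j, rfl⟩ := Nat.exists_eq_succ_of_ne_zero pp.ne_zero
    have p0 : 0 < v (j + 1 : ℕ) := FinitePlace.pos_iff.2 (Nat.cast_ne_zero.2 pp.ne_zero)
    have := cas_le v hs j
    rw [Mx, max_eq_one v hx hy h, hm, h, one_pow, one_pow, one_mul, one_mul, one_mul,
      ← inv_le_iff_one_le_mul₀' p0, le_max_iff] at this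
    exact this.resolve_right (not_le.2 ((a1 j j.lt_succ_self).trans_lt ((one_lt_inv₀ p0).2 hp)))
  induction k with
  | zero => rw [show p = 0 + 1 by have := pp.pos; omega] at a2 ⊢; exact a2.trans (le_max_left _ _)
  | succ k ih =>
    rcases eq_or_lt_of_le k1 with rfl | k3
    · exact a2.trans (le_max_left _ _)
    rcases eq_or_lt_of_le (Nat.lt_succ_iff.1 k3) with rfl | k4
    · exact a2.trans (le_max_right _ _)
    refine (ih (by omega) (by omega)).trans (mono_step v hs hA hB (v_not_dvd v pp hp ?_))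
    rintro ⟨j, hj⟩
    have : 1 < j := lt_of_mul_lt_mul_left (a := p) (by omega) (Nat.zero_le _)
    have : j < 2 := lt_of_mul_lt_mul_left (a := p) (by omega) (Nat.zero_le _)
    omega

theorem grows_gen' {x y z : K} (hxy : x ≠ y) (hz : z ≠ 0) {s : ℕ → K}
    (hs : Rec (x + y) ((x - y) ^ 2) s) (hm : s 1 - (x + y) * s 0 ≠ 0) (e : ℕ)
    (hf : ∀ v : FinitePlace K, ∃ c : ℝ, 0 < c ∧ ∀ᶠ n : ℕ in atTop,
      c * v z ^ n ≤ (n + 1 : ℝ) ^ e * Mx v x y s n)
    (ha : ∀ (φ : K →+* ℂ) (θ : ℝ), 0 < θ → θ < 1 → ∃ c : ℝ, 0 < c ∧ ∀ n : ℕ,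
      c * (θ * ‖φ z‖) ^ n ≤ (n + 1 : ℝ) ^ e * max ‖φ (s (n + 1))‖ ‖φ (s n)‖) : Grows s := by
  classical
  obtain ⟨S, hS⟩ := exists_S {x, y, x - y, s 0, s 1, s 1 - (x + y) * s 0, z}
  obtain ⟨b, b1, hb⟩ := Qn_ge
  have eQ : ∀ k, Qn k = ∏ p ∈ (Nat.primesLE k).filter (fun p => k < 2 * p), p ^ 1 := by simp [Qn]
  have pr : ∀ k, ∀ p ∈ (Nat.primesLE k).filter (fun p => k < 2 * p), p.Prime := fun k p hp =>
    Nat.prime_of_mem_primesLE (mem_filter.1 hp).1
  refine grows_of (x := x) (y := y) (fun n => (z ^ n / Qn (n + 1)) ^ 2) S (2 * e) b1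
    (fun n => pow_ne_zero _ (div_ne_zero (pow_ne_zero _ hz) (Nat.cast_ne_zero.2 (Qn_pos _).ne')))
    (Eventually.of_forall fun n v hv => ?_) (fun v _ => ?_) fun φ => ?_
  · have h1 := (hS v hv x (by simp)).1
    have h2 := (hS v hv y (by simp)).1
    have h3 := (hS v hv (x - y) (by simp)).2 (sub_ne_zero.2 hxy)
    have h4 := (hS v hv _ (by simp)).2 hm
    rw [map_pow, map_div₀, map_pow, (hS v hv z (by simp)).2 hz, one_pow, one_div]
    refine pow_le_pow_left₀ (by positivity) ?_ _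
    by_cases h : ∃ p ∈ (Nat.primesLE (n + 1)).filter (fun p => n + 1 < 2 * p), v p < 1
    · obtain ⟨p, hp, h⟩ := h
      rw [Mx, max_eq_one v h1 h2 h3, one_mul, eQ, FinitePlace.coe_apply,
        v_prod_eq (fin_na v) (pr _) _ hp h, pow_one]
      exact generic_good v hs h1 h2 h3 (hS v hv _ (by simp)).1 (hS v hv _ (by simp)).1 h4
        (pr _ p hp) h n (Nat.le_of_mem_primesLE (mem_filter.1 hp).1) (mem_filter.1 hp).2
    · push Not at h
      rw [eQ, FinitePlace.coe_apply, v_prod_one _ fun p hp => le_antisymm (fin_nat_le v p) (h p hp),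
        inv_one]
      have := cas_le v hs n
      rw [max_eq_one v h1 h2 h3, h3, h4, one_pow, one_pow, one_mul, one_mul] at this
      exact this.trans (mul_le_of_le_one_left (Mx_nonneg _ _ _ _ _) (fin_nat_le v _))
  · obtain ⟨c, c0, hc⟩ := hf v
    have : ∀ᶠ n : ℕ in atTop, v (Qn (n + 1)) = 1 := by
      by_cases h : ∃ p : ℕ, p.Prime ∧ v p < 1
      · obtain ⟨p, pp, h⟩ := h
        filter_upwards [eventually_ge_atTop (2 * p)] with n hn
        rw [eQ]
        refine v_prod_one (v := v.1) _ fun q hq => le_antisymm (fin_nat_le v q) (not_lt.1 fun h' => ?_)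
        have := v_prime_unique (fin_na v) (pr _ q hq) pp h' h
        have := (mem_filter.1 hq).2
        omega
      · push Not at h
        exact Eventually.of_forall fun n => eQ _ ▸ v_prod_one (v := v.1) _ fun q hq =>
          le_antisymm (fin_nat_le v q) (h q (pr _ q hq))
    refine ⟨c ^ 2, by positivity, ?_⟩
    filter_upwards [hc, this] with n h1 h2
    rw [map_pow, map_div₀, map_pow, h2, div_one, pow_mul', ← mul_pow, ← mul_pow]
    exact pow_le_pow_left₀ (by positivity) h1 _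
  · have b0 : 0 < b := by linarith
    have s1 : 1 < √b := by rw [Real.lt_sqrt zero_le_one]; simpa
    obtain ⟨c, c0, hc⟩ := ha φ (√b)⁻¹ (by positivity) (inv_lt_one_of_one_lt₀ s1)
    refine ⟨c ^ 2, by positivity, ?_⟩
    filter_upwards [(tendsto_add_atTop_nat 1).eventually hb] with n hn
    rw [pow_mul', ← mul_pow]
    refine le_trans ?_ (pow_le_pow_left₀ (by positivity) (hc n) _)
    have h1 : b ^ n ≤ Qn (n + 1) := (pow_le_pow_right₀ b1.le n.le_succ).trans hn
    simp only [map_pow, map_div₀, norm_pow, norm_div, map_natCast, Complex.norm_natCast]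
    calc _ ≤ c ^ 2 * b ^ n * (‖φ z‖ ^ n / b ^ n) ^ 2 := by gcongr
      _ = _ := by
        rw [mul_pow c, mul_pow, mul_pow, pow_right_comm (√b)⁻¹, inv_pow, Real.sq_sqrt b0.le, inv_pow]
        field_simp

theorem P_zero_right {R : Type*} [CommRing R] [IsDomain R] [CharZero R] (x : R) (n : ℕ) :
    LP x 0 n = x ^ n :=
  (P_rec x 0).ext (fun n => by ring) (by simp) (by simp) n

theorem grows_generic' {x y : K} (hxy : x ≠ y) (hx : x ≠ 0) {s : ℕ → K}
    (hs : Rec (x + y) ((x - y) ^ 2) s) (hm : s 1 - (x + y) * s 0 ≠ 0)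
    (hA : x + y ≠ 0 ∨ s 0 ≠ 0) : Grows s := by
  have m0 : ∀ v : FinitePlace K, 0 < max (v x) (v y) := fun v =>
    (FinitePlace.pos_iff.2 hx).trans_le (le_max_left _ _)
  have cas : ∀ (v : FinitePlace K) (z : K) (e : ℕ), v z * max (v x) (v y) ≤ v (x - y) ^ 2 →
      ∃ c : ℝ, 0 < c ∧ ∀ᶠ n : ℕ in atTop, c * v z ^ n ≤ (n + 1 : ℝ) ^ e * Mx v x y s n :=
    fun v z e h => ⟨_, FinitePlace.pos_iff.2 hm, Eventually.of_forall fun n => by
      have h1 := (cas_le v hs n).trans (mul_le_of_le_one_left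
        (mul_nonneg (by positivity) (Mx_nonneg _ _ _ _ _)) (fin_nat_le v _))
      refine le_trans ?_ (le_mul_of_one_le_left (Mx_nonneg _ _ _ _ _) (one_le_pow₀ (by simp)))
      refine le_of_mul_le_mul_left (le_trans ?_ h1) (pow_pos (m0 v) n)
      rw [mul_left_comm, ← mul_pow, mul_comm (max _ _)]
      gcongr⟩
  have arch : y ≠ 0 → ∀ φ : K →+* ℂ, ∃ g : ℝ, ‖φ x‖ + ‖φ y‖ ≤ g ∧
      (‖φ x‖ = ‖φ y‖ → ‖φ x + φ y‖ * ‖(φ x - φ y) ^ 2‖ ≤ g * ‖φ y‖ ^ 2) ∧
      ∀ θ : ℝ, 0 < θ → θ < 1 → ∃ c : ℝ, 0 < c ∧ ∀ n,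
        c * (θ * g) ^ n ≤ max ‖φ (s (n + 1))‖ ‖φ (s n)‖ := fun hy φ => by
    obtain ⟨g, g1, -, g2, g3⟩ := arch_growth ((map_ne_zero φ).2 hx) ((map_ne_zero φ).2 hy)
      (φ.injective.ne hxy)
    refine ⟨g, g1, g2, (g3 _ (by simpa using hs.map φ) ?_).resolve_right fun h => hxy ?_⟩
    · by_contra! h
      exact hm (by simp [(map_eq_zero φ).1 h.1, (map_eq_zero φ).1 h.2])
    · have := hl_arch φ (t := x / y) (g := -2 * (x - y) * s 0 / (s 1 - (x + y) * s 0))
        (by simpa [map_ofNat] using h.2.2)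
      exact (div_eq_one_iff_eq hy).1 this
  have fin : ∀ {φ : K →+* ℂ} {g : ℝ} {z : K} (e : ℕ), ‖φ z‖ ≤ g →
      (∀ θ : ℝ, 0 < θ → θ < 1 → ∃ c : ℝ, 0 < c ∧ ∀ n,
        c * (θ * g) ^ n ≤ max ‖φ (s (n + 1))‖ ‖φ (s n)‖) →
      ∀ θ : ℝ, 0 < θ → θ < 1 → ∃ c : ℝ, 0 < c ∧ ∀ n : ℕ,
        c * (θ * ‖φ z‖) ^ n ≤ (n + 1 : ℝ) ^ e * max ‖φ (s (n + 1))‖ ‖φ (s n)‖ :=
    fun {φ g z} e h H θ t0 t1 => by
      obtain ⟨c, c0, hc⟩ := H θ t0 t1
      refine ⟨c, c0, fun n => le_trans ?_ ((hc n).trans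
        (le_mul_of_one_le_left (by positivity) (one_le_pow₀ (by simp))))⟩
      gcongr
  by_cases hy : y = 0
  · subst hy
    refine grows_gen' hxy hx hs hm 1 (fun v => cas v x 1 (by simp [sq])) fun φ θ t0 t1 => ?_
    have x0 : 0 < ‖φ x‖ := by simpa using hx
    refine ⟨‖φ (s 1 - (x + 0) * s 0)‖ / (1 + ‖φ x‖), by
      have : 0 < ‖φ (s 1 - (x + 0) * s 0)‖ := norm_pos_iff.2 ((map_ne_zero φ).2 hm)
      positivity, fun n => ?_⟩
    have e : ((n : K) + 1) * (s (n + 1) - x * s n) = (s 1 - (x + 0) * s 0) * x ^ n := by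
      have := hs.casP n
      simp only [P_zero_right, sub_zero] at this
      exact mul_right_cancel₀ (pow_ne_zero n hx) (by linear_combination this)
    have e2 := congrArg (fun a => ‖φ a‖) e
    simp only [map_mul, norm_mul, map_pow, norm_pow] at e2
    rw [show φ ((n : K) + 1) = (n + 1 : ℕ) by simp, Complex.norm_natCast, map_sub, map_mul] at e2
    have e3 : ‖φ (s (n + 1)) - φ x * φ (s n)‖ ≤ (1 + ‖φ x‖) * max ‖φ (s (n + 1))‖ ‖φ (s n)‖ := by
      rw [add_mul, one_mul]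
      refine (norm_sub_le _ _).trans (add_le_add (le_max_left _ _) ?_)
      rw [norm_mul]; gcongr; exact le_max_right _ _
    rw [div_mul_eq_mul_div, div_le_iff₀ (by positivity), pow_one, mul_assoc, mul_comm (max _ _)]
    push_cast at e2
    calc _ ≤ ‖φ (s 1 - (x + 0) * s 0)‖ * ‖φ x‖ ^ n := by
          gcongr; exact mul_le_of_le_one_left x0.le t1.le
      _ ≤ _ := by rw [← e2]; gcongr
  by_cases hr : x + y ≠ 0 ∧ ∃ q : ℕ, 0 < q ∧ (x / y) ^ q = 1
  · obtain ⟨hA, q, q0, hq⟩ := hr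
    refine grows_gen' (z := (x + y) * (x - y) ^ 2 / y ^ 2) hxy
      (by have := sub_ne_zero.2 hxy; simp [*]) hs hm 0 (fun v => cas v _ 0 ?_) fun φ => ?_
    · have y0 : 0 < v y := FinitePlace.pos_iff.2 hy
      have : v x = v y := by
        have := congrArg v hq
        rw [map_pow, map_one, pow_eq_one_iff_of_nonneg (apply_nonneg v _) q0.ne', map_div₀] at this
        exact (div_eq_one_iff_eq y0.ne').1 this
      have h1 := v.add_le x y
      rw [this, max_self] at h1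
      rw [this, max_self, map_div₀, map_mul, map_pow, map_pow, div_mul_eq_mul_div,
        div_le_iff₀ (by positivity)]
      calc _ ≤ v y * v (x - y) ^ 2 * v y := by gcongr
        _ = _ := by ring
    · obtain ⟨g, -, g2, g3⟩ := arch hy φ
      have y0 : 0 < ‖φ y‖ := by simpa using hy
      refine fin 0 ?_ g3
      have := congrArg (fun a => ‖φ a‖) hq
      simp only [map_pow, norm_pow, map_one, norm_one, map_div₀, norm_div,
        pow_eq_one_iff_of_nonneg (div_nonneg (norm_nonneg _) y0.le) q0.ne'] at this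
      rw [map_div₀, norm_div, map_pow, norm_pow, div_le_iff₀ (by positivity)]
      simpa using g2 ((div_eq_one_iff_eq y0.ne').1 this)
  refine grows_gen' hxy hx hs hm (Module.finrank ℚ K) (fun v => ?_) fun φ => ?_
  · rcases lt_or_ge (v (x - y)) (max (v x) (v y)) with h | h
    · have e : v x = v y := by
        by_contra h1
        have := (fin_na v).add_eq_max_of_ne (x := x) (y := -y) (by rwa [AbsoluteValue.map_neg])
        simp only [← sub_eq_add_neg, map_neg_eq_map] at this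
        exact h.ne this
      rw [e, max_self] at h
      rcases fin_growth (fin_na v) (nat_bound v) hxy h hs hm with ⟨c, c0, hc⟩ | ⟨h1, h2⟩
      · refine ⟨c * v y, mul_pos c0 (FinitePlace.pos_iff.2 hy), hc.mono fun n hn => ?_⟩
        rwa [Mx, e, max_self, mul_assoc, ← pow_succ']
      · obtain ⟨q, q0, hq⟩ := hl_padic v (x := (x - y) / y)
          (by rwa [map_div₀, div_lt_one (FinitePlace.pos_iff.2 hy)]) h1
        exact absurd ⟨fun h => hA.elim (· h) (· (h2 h)), q, q0, by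
          rw [← hq]; congr 1; field_simp; ring⟩ hr
    · exact cas v x _ (by rw [sq]; exact mul_le_mul ((le_max_left _ _).trans h) h (m0 v).le (apply_nonneg v _))
  · obtain ⟨g, g1, -, g3⟩ := arch hy φ
    exact fin _ (le_trans (le_add_of_nonneg_right (norm_nonneg _)) g1) g3

theorem grows_generic {x y : K} (hxy : x ≠ y) {s : ℕ → K}
    (hs : Rec (x + y) ((x - y) ^ 2) s) (hm : s 1 - (x + y) * s 0 ≠ 0)
    (hA : x + y ≠ 0 ∨ s 0 ≠ 0) : Grows s := by
  by_cases hx : x = 0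
  · exact grows_generic' hxy.symm (fun h => hxy (hx.trans h.symm))
      (by rwa [add_comm, ← neg_sub, neg_sq]) (by rwa [add_comm]) (by rwa [add_comm])
  · exact grows_generic' hxy hx hs hm hA

end Pool.Agent.P.MP_68214b_ag
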