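import Pool.Agent.P.MP_68214b_ag.HsDef

open Polynomial Finset Matrix NumberField

namespace Pool.Agent.P.MP_68214b_ag

lemma val_prod_HsA1 {p : ℕ} (hp : p.Prime) (s : Finset ℕ) (f : ℕ → ℕ) (hf : ∀ i ∈ s, f i ≠ 0) :
    padicValNat p (∏ i ∈ s, f i) = ∑ i ∈ s, padicValNat p (f i) := by
  have := Fact.mk hp
  induction s using Finset.induction_on with
  | empty => simp
  | insert i s hi ih =>
    rw [Finset.prod_insert hi, Finset.sum_insert hi,
      padicValNat.mul (hf i (Finset.mem_insert_self _ _))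
        (Finset.prod_ne_zero_iff.2 fun x hx => hf x (Finset.mem_insert_of_mem hx)),
      ih fun x hx => hf x (Finset.mem_insert_of_mem hx)]

lemma dist_prod_HsA1 (l0 k : ℕ) :
    ∏ l ∈ (range (l0 + 1 + k)).erase l0, Nat.dist l l0 = l0.factorial * k.factorial := by
  induction k with
  | zero =>
    have h : (range (l0 + 1 + 0)).erase l0 = range l0 := by
      ext x
      simp only [Finset.mem_erase, Finset.mem_range]
      omega
    rw [h, Nat.factorial_zero, mul_one, ← Nat.descFactorial_self, Nat.descFactorial_eq_prod_range]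
    refine Finset.prod_congr rfl fun x hx => ?_
    have := Finset.mem_range.1 hx
    unfold Nat.dist
    omega
  | succ k ih =>
    have h : (range (l0 + 1 + (k + 1))).erase l0 =
        insert (l0 + 1 + k) ((range (l0 + 1 + k)).erase l0) := by
      ext x
      simp only [Finset.mem_erase, Finset.mem_range, Finset.mem_insert]
      omega
    have h2 : Nat.dist (l0 + 1 + k) l0 = k + 1 := by
      unfold Nat.dist
      omega
    rw [h, Finset.prod_insert (by simp), ih, h2, Nat.factorial_succ]
    ring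

theorem win_lower {p a b : ℕ} (hp : p.Prime) (ha : ¬p ∣ a) (hb : 0 < b) (j m : ℕ) :
    padicValNat p m.factorial ≤ padicValNat p (∏ l ∈ range m, (a * (j + l) + b)) := by
  have := Fact.mk hp
  set t := padicValNat p m.factorial with ht
  have hne : (∏ l ∈ range m, (a * (j + l) + b)) ≠ 0 :=
    Finset.prod_ne_zero_iff.2 fun x _ => by omega
  rw [← padicValNat_dvd_iff_le hne]
  have hco : Nat.Coprime a (p ^ t) :=
    Nat.Coprime.pow_right t ((Nat.Prime.coprime_iff_not_dvd hp).2 ha).symm
  have hpos : 0 < p ^ t := pow_pos hp.pos t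
  have : NeZero (p ^ t) := ⟨hpos.ne'⟩
  let u := ZMod.unitOfCoprime a hco
  let x : ℕ := ((↑u⁻¹ : ZMod (p ^ t)) * (b : ZMod (p ^ t))).val
  have hx : (a : ZMod (p ^ t)) * (x : ZMod (p ^ t)) = b := by
    have h1 : (x : ZMod (p ^ t)) = (↑u⁻¹ : ZMod (p ^ t)) * (b : ZMod (p ^ t)) := by
      simp only [x, ZMod.natCast_val, ZMod.cast_id', id_eq]
    have h2 : (a : ZMod (p ^ t)) = (u : ZMod (p ^ t)) := (ZMod.coe_unitOfCoprime a hco).symm
    rw [h1, h2, ← mul_assoc, Units.mul_inv, one_mul]
  have hd : p ^ t ∣ (j + x).ascFactorial m :=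
    (pow_padicValNat_dvd (p := p) (n := m.factorial)).trans (Nat.factorial_dvd_ascFactorial _ _)
  rw [← ZMod.natCast_eq_zero_iff] at hd ⊢
  rw [Nat.ascFactorial_eq_prod_range] at hd
  have h3 : ((∏ l ∈ range m, (a * (j + l) + b) : ℕ) : ZMod (p ^ t)) =
      (∏ _l ∈ range m, (a : ZMod (p ^ t))) * ((∏ i ∈ range m, (j + x + i) : ℕ) : ZMod (p ^ t)) := by
    push_cast
    rw [← Finset.prod_mul_distrib]
    refine Finset.prod_congr rfl fun l _ => ?_
    rw [← hx]
    ring
  rw [h3, hd, mul_zero]

theorem win_upper {p a b X : ℕ} (hp : p.Prime) (ha : 0 < a) (hb : 0 < b) (j m : ℕ)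
    (hX : a * (j + m) + b ≤ X) :
    padicValNat p (∏ l ∈ range m, (a * (j + l) + b)) ≤
      padicValNat p m.factorial + m * padicValNat p a + Nat.log p X := by
  have := Fact.mk hp
  rcases Nat.eq_zero_or_pos m with rfl | hm
  · simp
  obtain ⟨l0, hl0, hmax⟩ := Finset.exists_max_image (range m)
    (fun l => padicValNat p (a * (j + l) + b)) ⟨0, Finset.mem_range.2 hm⟩
  have hl0' := Finset.mem_range.1 hl0
  obtain ⟨k, rfl⟩ : ∃ k, m = l0 + 1 + k := ⟨m - (l0 + 1), by omega⟩
  rw [val_prod_HsA1 hp _ _ fun x _ => by omega, ← Finset.add_sum_erase _ _ hl0]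
  have h1 : padicValNat p (a * (j + l0) + b) ≤ Nat.log p X := by
    refine (padicValNat_le_nat_log _).trans (Nat.log_mono_right ?_)
    have : a * (j + l0) ≤ a * (j + (l0 + 1 + k)) := Nat.mul_le_mul_left _ (by omega)
    omega
  have hdne : ∀ l ∈ (range (l0 + 1 + k)).erase l0, Nat.dist l l0 ≠ 0 := by
    intro l hl
    have := (Finset.mem_erase.1 hl).1
    unfold Nat.dist
    omega
  have h2 : ∀ l ∈ (range (l0 + 1 + k)).erase l0, padicValNat p (a * (j + l) + b) ≤
      padicValNat p a + padicValNat p (Nat.dist l l0) := by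
    intro l hl
    have hl2 := (Finset.mem_erase.1 hl).2
    rw [← padicValNat.mul ha.ne' (hdne l hl),
      ← padicValNat_dvd_iff_le (mul_ne_zero ha.ne' (hdne l hl))]
    have d1 : p ^ padicValNat p (a * (j + l) + b) ∣ a * (j + l) + b := pow_padicValNat_dvd
    have d2 : p ^ padicValNat p (a * (j + l) + b) ∣ a * (j + l0) + b :=
      (pow_dvd_pow p (hmax l hl2)).trans pow_padicValNat_dvd
    rcases le_total l l0 with h | h
    · obtain ⟨c, rfl⟩ := Nat.exists_eq_add_of_le h
      have e1 : Nat.dist l (l + c) = c := by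
        unfold Nat.dist
        omega
      have e2 : a * (j + (l + c)) + b = (a * (j + l) + b) + a * c := by ring
      rw [e1]
      rw [e2] at d2
      exact (Nat.dvd_add_right d1).1 d2
    · obtain ⟨c, rfl⟩ := Nat.exists_eq_add_of_le h
      have e1 : Nat.dist (l0 + c) l0 = c := by
        unfold Nat.dist
        omega
      have e2 : a * (j + (l0 + c)) + b = (a * (j + l0) + b) + a * c := by ring
      rw [e1]
      have d3 := d1
      conv at d3 => rhs; rw [e2]
      exact (Nat.dvd_add_right d2).1 d3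
  have h3 := Finset.sum_le_sum h2
  rw [Finset.sum_add_distrib, ← val_prod_HsA1 hp _ _ hdne, dist_prod_HsA1, Finset.sum_const,
    smul_eq_mul] at h3
  have h4 : ((range (l0 + 1 + k)).erase l0).card * padicValNat p a ≤
      (l0 + 1 + k) * padicValNat p a :=
    Nat.mul_le_mul_right _ (Finset.card_erase_le.trans (Finset.card_range _).le)
  have h5 : padicValNat p (l0.factorial * k.factorial) ≤
      padicValNat p (l0 + 1 + k).factorial := by
    rw [← padicValNat_dvd_iff_le (Nat.factorial_ne_zero _)]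
    refine pow_padicValNat_dvd.trans ?_
    exact (Nat.factorial_mul_factorial_dvd_factorial_add l0 k).trans
      (Nat.factorial_dvd_factorial (by omega))
  omega

theorem leg_nat {p : ℕ} (hp : p.Prime) (m : ℕ) : padicValNat p m.factorial ≤ m / (p - 1) := by
  have := Fact.mk hp
  have h := sub_one_mul_padicValNat_factorial (p := p) m
  have h2 := hp.two_le
  rw [Nat.le_div_iff_mul_le (by omega), mul_comm, h]
  omega

theorem leg_upper {p : ℕ} (hp : p.Prime) (m : ℕ) :
    (padicValNat p m.factorial : ℝ) ≤ m / ((p : ℝ) - 1) := by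
  have h2 := hp.two_le
  have h1 : ((padicValNat p m.factorial : ℕ) : ℝ) ≤ ((m / (p - 1) : ℕ) : ℝ) := by
    exact_mod_cast leg_nat hp m
  have h3 : ((p - 1 : ℕ) : ℝ) = (p : ℝ) - 1 := by
    rw [Nat.cast_sub (by omega), Nat.cast_one]
  exact h1.trans (by rw [← h3]; exact Nat.cast_div_le)

theorem leg_lower {p m X : ℕ} (hp : p.Prime) (hm : m ≤ X) (hX : p ≤ X) :
    (m : ℝ) / ((p : ℝ) - 1) - 2 * Nat.log p X ≤ padicValNat p m.factorial := by
  have := Fact.mk hp
  have h := sub_one_mul_padicValNat_factorial (p := p) m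
  have h2 := hp.two_le
  have hlog : 1 ≤ Nat.log p X := Nat.log_pos hp.one_lt hX
  have hs : (Nat.digits p m).sum ≤ (Nat.digits p m).length * (p - 1) := by
    have := List.sum_le_card_nsmul (Nat.digits p m) (p - 1) fun x hx => by
      have := Nat.digits_lt_base hp.one_lt hx
      omega
    simpa using this
  have hl : (Nat.digits p m).length ≤ 2 * Nat.log p X := by
    rcases Nat.eq_zero_or_pos m with rfl | hm0
    · simp
    · rw [Nat.length_digits p m hp.one_lt hm0.ne']
      have := Nat.log_mono_right (b := p) hm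
      omega
  have hs2 : (Nat.digits p m).sum ≤ 2 * Nat.log p X * (p - 1) :=
    hs.trans (Nat.mul_le_mul_right _ hl)
  have h4 : m ≤ (p - 1) * padicValNat p m.factorial + 2 * Nat.log p X * (p - 1) := by omega
  have h3 : ((p - 1 : ℕ) : ℝ) = (p : ℝ) - 1 := by
    rw [Nat.cast_sub (by omega), Nat.cast_one]
  have h5 : (m : ℝ) ≤ ((p : ℝ) - 1) * padicValNat p m.factorial +
      2 * Nat.log p X * ((p : ℝ) - 1) := by
    rw [← h3]
    exact_mod_cast h4
  have h6 : (0 : ℝ) < (p : ℝ) - 1 := by
    have : (2 : ℝ) ≤ p := by exact_mod_cast h2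
    linarith
  rw [sub_le_iff_le_add, div_le_iff₀ h6]
  linarith

end Pool.Agent.P.MP_68214b_ag
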