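import Pool.Agent.P.MP_68214b_ag.HsA1

open Polynomial Finset Matrix NumberField

namespace Pool.Agent.P.MP_68214b_ag

theorem first_HsA2 (X : ℕ) :
    ∑ p ∈ Nat.primesLE X, Real.log p * (Nat.log p X : ℝ) ≤ (Real.log 4 + 4) * X := by
  refine le_trans (le_of_eq ?_) (Chebyshev.psi_le_const_mul_self (Nat.cast_nonneg X))
  rw [Chebyshev.psi_eq_sum_mul_log_prime]
  exact sum_congr rfl fun p _ => mul_comm _ _

theorem fac_HsA2 (X : ℕ) :
    ∑ p ∈ Nat.primesLE X, Real.log p * (padicValNat p X.factorial : ℝ) ≤ X * Real.log X := by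
  have hd : ∏ p ∈ Nat.primesLE X, p ^ padicValNat p X.factorial ∣ X.factorial := by
    refine Finset.prod_dvd_of_isRelPrime ?_ fun p _ => pow_padicValNat_dvd
    intro p hp q hq hpq
    exact Nat.coprime_iff_isRelPrime.1 (Nat.Coprime.pow _ _ ((Nat.coprime_primes
      (Nat.prime_of_mem_primesLE hp) (Nat.prime_of_mem_primesLE hq)).2 hpq))
  have h1 : ∏ p ∈ Nat.primesLE X, p ^ padicValNat p X.factorial ≤ X ^ X :=
    (Nat.le_of_dvd X.factorial_pos hd).trans (Nat.factorial_le_pow X)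
  have h0 : ∀ p ∈ Nat.primesLE X, ((p : ℝ) ^ padicValNat p X.factorial) ≠ 0 := fun p hp =>
    pow_ne_zero _ (Nat.cast_ne_zero.2 (Nat.prime_of_mem_primesLE hp).ne_zero)
  have h2 : ∏ p ∈ Nat.primesLE X, (p : ℝ) ^ padicValNat p X.factorial ≤ (X : ℝ) ^ X := by
    exact_mod_cast h1
  have h3 : 0 < ∏ p ∈ Nat.primesLE X, (p : ℝ) ^ padicValNat p X.factorial :=
    prod_pos fun p hp => pow_pos (Nat.cast_pos.2 (Nat.prime_of_mem_primesLE hp).pos) _
  have h4 := Real.log_le_log h3 h2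
  rw [Real.log_prod h0, Real.log_pow] at h4
  refine le_trans (le_of_eq (sum_congr rfl fun p _ => ?_)) h4
  rw [Real.log_pow, mul_comm]

theorem cheb_mert : ∃ c : ℝ, 0 ≤ c ∧ ∀ X : ℕ, 1 ≤ X →
    ∑ p ∈ Nat.primesLE X, Real.log p * (Nat.log p X : ℝ) ≤ c * X ∧
    ∑ p ∈ Nat.primesLE X, Real.log p * (1 / ((p : ℝ) - 1)) ≤ Real.log X + c := by
  have h4 : 0 ≤ Real.log 4 + 4 := by positivity
  refine ⟨2 * (Real.log 4 + 4), by positivity, fun X hX => ⟨?_, ?_⟩⟩
  · have := first_HsA2 X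
    have h0 : 0 ≤ (Real.log 4 + 4) * X := by positivity
    linarith
  · have hX' : (0 : ℝ) < X := by exact_mod_cast hX
    have h1 : (X : ℝ) * ∑ p ∈ Nat.primesLE X, Real.log p * (1 / ((p : ℝ) - 1)) ≤
        ∑ p ∈ Nat.primesLE X, Real.log p * (padicValNat p X.factorial : ℝ) +
          2 * ∑ p ∈ Nat.primesLE X, Real.log p * (Nat.log p X : ℝ) := by
      rw [mul_sum, mul_sum, ← sum_add_distrib]
      refine sum_le_sum fun p hp => ?_
      have a1 := leg_lower (Nat.prime_of_mem_primesLE hp) (le_refl X) (Nat.le_of_mem_primesLE hp)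
      have a2 := mul_le_mul_of_nonneg_left a1 (Real.log_natCast_nonneg p)
      have a3 : (X : ℝ) * (Real.log p * (1 / ((p : ℝ) - 1))) =
          Real.log p * ((X : ℝ) / ((p : ℝ) - 1)) := by ring
      rw [a3]
      linarith
    have h2 := first_HsA2 X
    have h3 := fac_HsA2 X
    refine le_of_mul_le_mul_left ?_ hX'
    linarith

end Pool.Agent.P.MP_68214b_ag
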