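import Pool.Agent.P.MP_68214b_ag.HsDef

open Polynomial Finset Matrix NumberField

namespace Pool.Agent.P.MP_68214b_ag

variable {K : Type} [Field K] [NumberField K]

theorem fin_quot_HsB1 (v : FinitePlace K) : Finite (𝓞 K ⧸ v.maximalIdeal.asIdeal) :=
  Ideal.finiteQuotientOfFreeOfNeBot _ v.maximalIdeal.ne_bot

theorem lt_iff_HsB1 (v : FinitePlace K) (x : 𝓞 K) :
    v (algebraMap (𝓞 K) K x) < 1 ↔ x ∈ v.maximalIdeal.asIdeal := by
  rw [← FinitePlace.norm_embedding_eq]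
  exact FinitePlace.norm_lt_one_iff_mem K v.maximalIdeal x

theorem charP_HsB1 (v : FinitePlace K) : CharP (𝓞 K ⧸ v.maximalIdeal.asIdeal) (pv v) :=
  ringChar.charP _

theorem nat_lt_iff_HsB1 (v : FinitePlace K) (n : ℕ) : v n < 1 ↔ pv v ∣ n := by
  have := charP_HsB1 v
  rw [← CharP.cast_eq_zero_iff (𝓞 K ⧸ v.maximalIdeal.asIdeal) (pv v) n,
    ← map_natCast (Ideal.Quotient.mk v.maximalIdeal.asIdeal), Ideal.Quotient.eq_zero_iff_mem,
    ← lt_iff_HsB1, map_natCast (algebraMap (𝓞 K) K)]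

theorem pv_prime (v : FinitePlace K) : (pv v).Prime := by
  have := charP_HsB1 v
  have := fin_quot_HsB1 v
  have := v.maximalIdeal.isPrime
  exact CharP.char_is_prime (𝓞 K ⧸ v.maximalIdeal.asIdeal) (pv v)

theorem v_pv_pos (v : FinitePlace K) : 0 < v (pv v) :=
  FinitePlace.pos_iff.2 (Nat.cast_ne_zero.2 (pv_prime v).ne_zero)

theorem v_pv_le (v : FinitePlace K) : v (pv v) ≤ 1 / (pv v : ℝ) := by
  have hc := charP_HsB1 v
  have hf := fin_quot_HsB1 v
  have hp := pv_prime v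
  have hx : ((pv v : ℕ) : 𝓞 K) ≠ 0 := Nat.cast_ne_zero.2 hp.ne_zero
  have h := FinitePlace.apply_mul_absNorm_pow_eq_one v hx
  have hmem : ((pv v : ℕ) : 𝓞 K) ∈ v.maximalIdeal.asIdeal := by
    rw [← lt_iff_HsB1, map_natCast, nat_lt_iff_HsB1]
  have hm : multiplicity v.maximalIdeal.asIdeal (Ideal.span {((pv v : ℕ) : 𝓞 K)}) ≠ 0 := by
    rw [multiplicity_ne_zero]
    exact Ideal.dvd_span_singleton.2 hmem
  have hN : pv v ≤ Ideal.absNorm v.maximalIdeal.asIdeal := by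
    have := Fintype.ofFinite (𝓞 K ⧸ v.maximalIdeal.asIdeal)
    rw [Ideal.absNorm_apply, Submodule.cardQuot_apply, Nat.card_eq_fintype_card]
    refine Nat.le_of_dvd Fintype.card_pos ?_
    exact (CharP.cast_eq_zero_iff (𝓞 K ⧸ v.maximalIdeal.asIdeal) (pv v) _).1
      (Nat.cast_card_eq_zero _)
  have hN' : (pv v : ℝ) ≤ (Ideal.absNorm v.maximalIdeal.asIdeal : ℝ) ^
      multiplicity v.maximalIdeal.asIdeal (Ideal.span {((pv v : ℕ) : 𝓞 K)}) := by
    have h1 : pv v ≤ Ideal.absNorm v.maximalIdeal.asIdeal ^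
        multiplicity v.maximalIdeal.asIdeal (Ideal.span {((pv v : ℕ) : 𝓞 K)}) :=
      hN.trans (Nat.le_self_pow hm _)
    exact_mod_cast h1
  have hpp : (0 : ℝ) < pv v := Nat.cast_pos.2 hp.pos
  have e : v (((pv v : ℕ) : 𝓞 K) : K) = v (pv v) := by simp
  rw [e] at h
  rw [le_div_iff₀ hpp, ← h]
  exact mul_le_mul_of_nonneg_left hN' (v_pv_pos v).le

theorem v_pv_lt (v : FinitePlace K) : v (pv v) < 1 := (nat_lt_iff_HsB1 v _).2 dvd_rfl

theorem el_ge (v : FinitePlace K) : Real.log (pv v) ≤ el v := by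
  have h := Real.log_le_log (v_pv_pos v) (v_pv_le v)
  rw [one_div, Real.log_inv] at h
  unfold el
  linarith

theorem el_pos (v : FinitePlace K) : 0 < el v := by
  have h := Real.log_neg (v_pv_pos v) (v_pv_lt v)
  unfold el
  linarith

theorem v_nat (v : FinitePlace K) {n : ℕ} (hn : n ≠ 0) :
    v n = v (pv v) ^ padicValNat (pv v) n := by
  have hp := pv_prime v
  have : Fact (pv v).Prime := ⟨hp⟩
  obtain ⟨m, hm⟩ : pv v ^ padicValNat (pv v) n ∣ n := pow_padicValNat_dvd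
  have hnd : ¬pv v ∣ m := by
    rintro ⟨k, rfl⟩
    refine pow_succ_padicValNat_not_dvd (p := pv v) hn ⟨k, ?_⟩
    rw [pow_succ, mul_assoc]
    exact hm
  have h1 : v m = 1 :=
    le_antisymm (fin_nat_le v m) (not_lt.1 fun h => hnd ((nat_lt_iff_HsB1 v m).1 h))
  conv_lhs => rw [hm]
  rw [Nat.cast_mul, Nat.cast_pow, map_mul, map_pow, h1, mul_one]

theorem finite_pv (X : ℕ) : {v : FinitePlace K | pv v ≤ X}.Finite := by
  have h : ((X.factorial : ℕ) : K) ≠ 0 := Nat.cast_ne_zero.2 X.factorial_ne_zero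
  refine Set.Finite.subset (FinitePlace.hasFiniteMulSupport h) fun v hv => ?_
  exact ((nat_lt_iff_HsB1 v _).2 (Nat.dvd_factorial (pv_prime v).pos hv)).ne

theorem v_ring_le (v : FinitePlace K) (x : 𝓞 K) : v (algebraMap (𝓞 K) K x) ≤ 1 := by
  rw [← FinitePlace.norm_embedding_eq]
  exact FinitePlace.norm_le_one K v.maximalIdeal x

theorem v_integral_le (v : FinitePlace K) {x : K} (hx : IsIntegral ℤ x) : v x ≤ 1 :=
  v_ring_le v ⟨x, hx⟩

theorem exists_res (v : FinitePlace K) : ∃ (F : Type) (_ : Field F) (_ : CharP F (pv v))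
    (φ : 𝓞 K →+* F), ∀ x, φ x = 0 ↔ v (algebraMap (𝓞 K) K x) < 1 := by
  have := v.maximalIdeal.isMaximal
  refine ⟨𝓞 K ⧸ v.maximalIdeal.asIdeal, Ideal.Quotient.field _, charP_HsB1 v,
    Ideal.Quotient.mk _, fun x => ?_⟩
  rw [lt_iff_HsB1]
  exact Ideal.Quotient.eq_zero_iff_mem

theorem of_hom_HsB1 {F : Type} [Field F] {p : ℕ} (hp : p.Prime) [CharP F p] (φ : 𝓞 K →+* F) :
    ∃ v : FinitePlace K, pv v = p ∧ ∀ x, φ x = 0 ↔ v (algebraMap (𝓞 K) K x) < 1 := by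
  have hmem : ((p : ℕ) : 𝓞 K) ∈ RingHom.ker φ := by
    rw [RingHom.mem_ker, map_natCast]
    exact CharP.cast_eq_zero F p
  have hne : RingHom.ker φ ≠ ⊥ := fun h => by
    rw [h, Ideal.mem_bot] at hmem
    exact Nat.cast_ne_zero.2 hp.ne_zero hmem
  let w : IsDedekindDomain.HeightOneSpectrum (𝓞 K) := ⟨RingHom.ker φ, RingHom.ker_isPrime φ, hne⟩
  have key : ∀ x, φ x = 0 ↔ FinitePlace.mk w (algebraMap (𝓞 K) K x) < 1 := fun x => by
    rw [lt_iff_HsB1, FinitePlace.maximalIdeal_mk]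
    exact Iff.rfl
  refine ⟨FinitePlace.mk w, ?_, key⟩
  have h := (key _).1 hmem
  rw [map_natCast, nat_lt_iff_HsB1] at h
  exact (Nat.prime_dvd_prime_iff_eq (pv_prime _) hp).1 h

theorem exists_pv {p : ℕ} (hp : p.Prime) : ∃ v : FinitePlace K, pv v = p := by
  have hprime : (Ideal.span {(p : ℤ)}).IsPrime :=
    (Ideal.span_singleton_prime (by exact_mod_cast hp.ne_zero)).2 (Nat.prime_iff_prime_int.1 hp)
  have hmax : (Ideal.span {(p : ℤ)}).IsMaximal :=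
    hprime.isMaximal (by simpa using hp.ne_zero)
  obtain ⟨Q, hQ, hc⟩ := Ideal.exists_ideal_over_maximal_of_isIntegral (S := 𝓞 K)
    (Ideal.span {(p : ℤ)}) (by
      rw [(RingHom.injective_iff_ker_eq_bot _).1 (algebraMap ℤ (𝓞 K)).injective_int]
      exact bot_le)
  have hmem : ((p : ℕ) : 𝓞 K) ∈ Q := by
    have : (p : ℤ) ∈ Q.comap (algebraMap ℤ (𝓞 K)) := hc ▸ Ideal.mem_span_singleton_self _
    simpa using this
  have hne : Q ≠ ⊥ := fun h => by
    rw [h, Ideal.mem_bot] at hmem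
    exact Nat.cast_ne_zero.2 hp.ne_zero hmem
  let w : IsDedekindDomain.HeightOneSpectrum (𝓞 K) := ⟨Q, hQ.isPrime, hne⟩
  refine ⟨FinitePlace.mk w, ?_⟩
  have h : FinitePlace.mk w (algebraMap (𝓞 K) K ((p : ℕ) : 𝓞 K)) < 1 := by
    rw [lt_iff_HsB1, FinitePlace.maximalIdeal_mk]
    exact hmem
  rw [map_natCast, nat_lt_iff_HsB1] at h
  exact (Nat.prime_dvd_prime_iff_eq (pv_prime _) hp).1 h

theorem exists_of_hom {F : Type} [Field F] {p : ℕ} (hp : p.Prime) [CharP F p] (φ : 𝓞 K →+* F) :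
    ∃ v : FinitePlace K, pv v = p ∧ ∀ x, φ x = 0 ↔ v (algebraMap (𝓞 K) K x) < 1 :=
  of_hom_HsB1 hp φ

theorem big_unit {x : K} (hx : x ≠ 0) : ∃ B : ℕ, ∀ v : FinitePlace K, B < pv v → v x = 1 := by
  have h : (Function.mulSupport fun w : FinitePlace K => w x).Finite :=
    FinitePlace.hasFiniteMulSupport hx
  refine ⟨h.toFinset.sup pv, fun v hv => ?_⟩
  by_contra hne
  exact absurd (Finset.le_sup (f := pv) (h.mem_toFinset.2 hne)) (not_le.2 hv)

end Pool.Agent.P.MP_68214b_ag
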