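import Pool.Agent.P.MP_68214b_ag.HsB1

open Polynomial Finset Matrix NumberField

namespace Pool.Agent.P.MP_68214b_ag

variable {K : Type} [Field K] [NumberField K]

theorem sum_mult_HsB2 (L : ℝ) :
    ∑ w : InfinitePlace K, (w.mult : ℝ) * L = Module.finrank ℚ K * L := by
  rw [← sum_mul, ← Nat.cast_sum, InfinitePlace.sum_mult_eq]

theorem prod_le {x : K} (h0 : x ≠ 0) (hx : ∀ v : FinitePlace K, v x ≤ 1)
    (S : Finset (FinitePlace K)) {L : ℝ} (hL : ∀ φ : K →+* ℂ, Real.log ‖φ x‖ ≤ L) :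
    ∑ v ∈ S, -Real.log (v x) ≤ Module.finrank ℚ K * L := by
  classical
  have hfin := FinitePlace.hasFiniteMulSupport h0
  obtain ⟨T, hST, hT⟩ : ∃ T : Finset (FinitePlace K), S ⊆ T ∧
      Function.mulSupport (fun v : FinitePlace K => v x) ⊆ T :=
    ⟨S ∪ hfin.toFinset, subset_union_left, fun v hv =>
      mem_coe.2 (mem_union_right _ (hfin.mem_toFinset.2 hv))⟩
  have hp := prod_abs_eq_one h0
  rw [finprod_eq_prod_of_mulSupport_subset _ hT] at hp
  have hw : ∀ w : InfinitePlace K, w x ≠ 0 := fun w => (InfinitePlace.pos_iff.2 h0).ne'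
  have hv : ∀ v : FinitePlace K, 0 < v x := fun v => FinitePlace.pos_iff.2 h0
  have hl := congrArg Real.log hp
  rw [Real.log_mul (prod_ne_zero_iff.2 fun w _ => pow_ne_zero _ (hw w))
    (prod_ne_zero_iff.2 fun v _ => (hv v).ne'), Real.log_one,
    Real.log_prod fun w _ => pow_ne_zero _ (hw w), Real.log_prod fun v _ => (hv v).ne'] at hl
  have h1 : ∑ v ∈ S, -Real.log (v x) ≤ ∑ v ∈ T, -Real.log (v x) :=
    sum_le_sum_of_subset_of_nonneg hST fun v _ _ =>
      neg_nonneg.2 (Real.log_nonpos (hv v).le (hx v))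
  have h2 : ∑ w : InfinitePlace K, Real.log (w x ^ w.mult) ≤
      ∑ w : InfinitePlace K, (w.mult : ℝ) * L := by
    refine sum_le_sum fun w _ => ?_
    rw [Real.log_pow, ← InfinitePlace.norm_embedding_eq]
    exact mul_le_mul_of_nonneg_left (hL _) (Nat.cast_nonneg _)
  rw [sum_mult_HsB2] at h2
  rw [sum_neg_distrib (s := T)] at h1
  linarith

theorem iSup_two_HsB2 (f : Fin 2 → ℝ) : ⨆ i, f i = max (f 0) (f 1) := by
  refine le_antisymm (ciSup_le fun i => ?_) (max_le ?_ ?_)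
  · fin_cases i
    · exact le_max_left _ _
    · exact le_max_right _ _
  · exact le_ciSup (Finite.bddAbove_range f) 0
  · exact le_ciSup (Finite.bddAbove_range f) 1

omit [NumberField K] in
theorem max_pos_HsB2 {U : Fin 2 → K} (h0 : U ≠ 0) (v : AbsoluteValue K ℝ) :
    0 < max (v (U 0)) (v (U 1)) := by
  by_contra h
  have h1 := max_le_iff.1 (not_lt.1 h)
  refine h0 (funext fun i => ?_)
  fin_cases i
  · exact v.eq_zero.1 (le_antisymm h1.1 (v.nonneg _))
  · exact v.eq_zero.1 (le_antisymm h1.2 (v.nonneg _))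

theorem height_ge {U : Fin 2 → K} (h0 : U ≠ 0) (S : Finset (FinitePlace K))
    (hS : ∀ v : FinitePlace K, v ∉ S → nv v U = 1) {L : ℝ}
    (hL : ∀ φ : K →+* ℂ, L ≤ Real.log (max ‖φ (U 0)‖ ‖φ (U 1)‖)) :
    Module.finrank ℚ K * L - Real.log (Height.mulHeight U) ≤ ∑ v ∈ S, cv v U := by
  have hH := NumberField.mulHeight_eq h0
  simp only [iSup_two_HsB2] at hH
  have hT : Function.mulSupport (fun v : FinitePlace K => max (v (U 0)) (v (U 1))) ⊆ S := by
    intro v hv
    by_contra hn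
    exact hv (hS v hn)
  rw [finprod_eq_prod_of_mulSupport_subset _ hT] at hH
  have hw : ∀ w : InfinitePlace K, max (w (U 0)) (w (U 1)) ≠ 0 :=
    fun w => (max_pos_HsB2 h0 w.1).ne'
  have hv : ∀ v : FinitePlace K, max (v (U 0)) (v (U 1)) ≠ 0 :=
    fun v => (max_pos_HsB2 h0 v.1).ne'
  rw [hH, Real.log_mul (prod_ne_zero_iff.2 fun w _ => pow_ne_zero _ (hw w))
    (prod_ne_zero_iff.2 fun v _ => hv v),
    Real.log_prod fun w _ => pow_ne_zero _ (hw w), Real.log_prod fun v _ => hv v]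
  have h2 : ∑ w : InfinitePlace K, (w.mult : ℝ) * L ≤
      ∑ w : InfinitePlace K, Real.log (max (w (U 0)) (w (U 1)) ^ w.mult) := by
    refine sum_le_sum fun w _ => ?_
    rw [Real.log_pow, ← InfinitePlace.norm_embedding_eq w (U 0),
      ← InfinitePlace.norm_embedding_eq w (U 1)]
    exact mul_le_mul_of_nonneg_left (hL _) (Nat.cast_nonneg _)
  rw [sum_mult_HsB2] at h2
  have h3 : ∑ v ∈ S, cv v U = -∑ v ∈ S, Real.log (max (v (U 0)) (v (U 1))) := by
    rw [← sum_neg_distrib]; rfl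
  linarith

theorem fibre_HsB2 (S : Finset (FinitePlace K)) {p : ℕ} (hp : p.Prime) (hS : ∀ v ∈ S, pv v = p) :
    ∑ v ∈ S, el v ≤ Module.finrank ℚ K * Real.log p := by
  have h := prod_le (x := (p : K)) (Nat.cast_ne_zero.2 hp.ne_zero)
    (fun v => v_nat_le (fin_na v) p) S (L := Real.log p)
    (fun φ => by rw [map_natCast, Complex.norm_natCast])
  refine le_trans (le_of_eq (sum_congr rfl fun v hv => ?_)) h
  rw [el, hS v hv]

theorem sum_el (S : Finset (FinitePlace K)) {X : ℕ} (hS : ∀ v ∈ S, pv v ≤ X) (g : ℕ → ℝ)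
    (hg : ∀ p, p.Prime → 0 ≤ g p) :
    ∑ v ∈ S, el v * g (pv v) ≤
      Module.finrank ℚ K * ∑ p ∈ Nat.primesLE X, Real.log p * g p := by
  classical
  rw [← sum_fiberwise_of_maps_to (t := Nat.primesLE X) (g := pv)
    (fun v hv => Nat.mem_primesLE.2 ⟨hS v hv, pv_prime v⟩), mul_sum]
  refine sum_le_sum fun p hp => ?_
  have hp' := Nat.prime_of_mem_primesLE hp
  have h1 := fibre_HsB2 (S.filter (fun v => pv v = p)) hp' fun v hv => (mem_filter.1 hv).2
  calc ∑ v ∈ S.filter (fun v => pv v = p), el v * g (pv v)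
      = (∑ v ∈ S.filter (fun v => pv v = p), el v) * g p := by
        rw [sum_mul]; exact sum_congr rfl fun v hv => by rw [(mem_filter.1 hv).2]
    _ ≤ (Module.finrank ℚ K * Real.log p) * g p := mul_le_mul_of_nonneg_right h1 (hg p hp')
    _ = _ := by ring

theorem sum_el_ge (S : Finset (FinitePlace K)) (T : Finset ℕ) (hT : ∀ p ∈ T, ∃ v ∈ S, pv v = p)
    (g : ℕ → ℝ) (hg : ∀ p, p.Prime → 0 ≤ g p) :
    ∑ p ∈ T, Real.log p * g p ≤ ∑ v ∈ S, el v * g (pv v) := by
  classical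
  have hn : ∀ v : FinitePlace K, 0 ≤ el v * g (pv v) :=
    fun v => mul_nonneg (el_pos v).le (hg _ (pv_prime v))
  calc ∑ p ∈ T, Real.log p * g p
      ≤ ∑ p ∈ T, ∑ v ∈ (S.filter (fun v => pv v ∈ T)).filter (fun v => pv v = p),
          el v * g (pv v) := by
        refine sum_le_sum fun p hp => ?_
        obtain ⟨v, hv, rfl⟩ := hT p hp
        refine le_trans (mul_le_mul_of_nonneg_right (el_ge v) (hg _ (pv_prime v))) ?_
        exact single_le_sum (f := fun v => el v * g (pv v)) (fun u _ => hn u)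
          (mem_filter.2 ⟨mem_filter.2 ⟨hv, hp⟩, rfl⟩)
    _ = ∑ v ∈ S.filter (fun v => pv v ∈ T), el v * g (pv v) :=
        sum_fiberwise_of_maps_to (fun v hv => (mem_filter.1 hv).2) _
    _ ≤ _ := sum_le_sum_of_subset_of_nonneg (filter_subset _ _) fun v _ _ => hn v

end Pool.Agent.P.MP_68214b_ag
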