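import Pool.Agent.P.MP_68214b_ag.HsDef

open Polynomial Finset Matrix NumberField

namespace Pool.Agent.P.MP_68214b_ag

variable {κ : ℕ}

theorem orb_bd_HsC1 (D : Par ℂ κ) {V : ℕ → Fin 2 → ℂ} (orb : D.Orb V) {r M : ℝ} (hr : 1 ≤ r)
    (n : ℕ) (hp : ∀ l : ℕ, l < n → ‖D.p l‖ ≤ r) (hq : ∀ l : ℕ, l < n → ‖D.q l‖ ≤ r ^ 2)
    (hM : ∀ i, ‖V 0 i‖ ≤ M) (j : ℕ) (hj : j ≤ n) :
    ‖V j 0‖ ≤ (2 * r) ^ (j + 1) * M ∧ ‖V j 1‖ ≤ (2 * r) ^ j * M := by
  have hM0 : 0 ≤ M := (norm_nonneg _).trans (hM 0)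
  induction j with
  | zero =>
    refine ⟨?_, by simpa using hM 1⟩
    have := hM 0
    simp only [zero_add, pow_one]
    nlinarith
  | succ j ih =>
    obtain ⟨h0, h1⟩ := ih (by omega)
    have e0 : V (j + 1) 0 = D.p j * V j 0 + D.q j * V j 1 := by
      rw [orb j]; simp [Par.T, mulVec, dotProduct, Fin.sum_univ_two]
    have e1 : V (j + 1) 1 = V j 0 := by
      rw [orb j]; simp [Par.T, mulVec, dotProduct, Fin.sum_univ_two]
    refine ⟨?_, by rw [e1]; exact h0⟩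
    have hA : 0 ≤ (2 * r) ^ j * M := by positivity
    have a1 : ‖D.p j * V j 0‖ ≤ r * ((2 * r) ^ (j + 1) * M) := by
      rw [norm_mul]
      exact mul_le_mul (hp j (by omega)) h0 (norm_nonneg _) (by linarith)
    have a2 : ‖D.q j * V j 1‖ ≤ r ^ 2 * ((2 * r) ^ j * M) := by
      rw [norm_mul]
      exact mul_le_mul (hq j (by omega)) h1 (norm_nonneg _) (by positivity)
    have a3 : 0 ≤ r ^ 2 * ((2 * r) ^ j * M) := by positivity
    calc ‖V (j + 1) 0‖ ≤ ‖D.p j * V j 0‖ + ‖D.q j * V j 1‖ := by rw [e0]; exact norm_add_le _ _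
      _ ≤ r * ((2 * r) ^ (j + 1) * M) + r ^ 2 * ((2 * r) ^ j * M) := add_le_add a1 a2
      _ = 3 * (r ^ 2 * ((2 * r) ^ j * M)) := by ring
      _ ≤ 4 * (r ^ 2 * ((2 * r) ^ j * M)) := by linarith
      _ = (2 * r) ^ (j + 1 + 1) * M := by ring

theorem coef_bd_HsC1 (D : Par ℂ κ) (ok : D.Ok) : ∃ e : ℝ, 0 ≤ e ∧ ∀ n : ℕ, 1 ≤ n → ∀ l : ℕ, l < n →
    ‖D.p l‖ ≤ Real.exp (e + κ / 2 * Real.log n) ∧
      ‖D.q l‖ ≤ Real.exp (e + κ / 2 * Real.log n) ^ 2 := by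
  set G : ℝ := ‖D.ga‖ * ∏ i, ((D.a : ℝ) + D.b i) with hG
  have hG0 : 0 ≤ G := by positivity
  refine ⟨‖D.al‖ + ‖D.be‖ + G, by positivity, fun n hn l hl => ?_⟩
  set e : ℝ := ‖D.al‖ + ‖D.be‖ + G with he
  have hn1 : (1 : ℝ) ≤ n := by exact_mod_cast hn
  have hl1 : (l : ℝ) ≤ n := by exact_mod_cast hl.le
  have hL : 0 ≤ Real.log n := Real.log_nonneg hn1
  have he0 : 0 ≤ e := by positivity
  have hee : e ≤ Real.exp e := by linarith [Real.add_one_le_exp e]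
  have he1 : 1 ≤ Real.exp e := Real.one_le_exp he0
  have hal := norm_nonneg D.al
  have hbe := norm_nonneg D.be
  constructor
  · rw [Real.exp_add]
    rcases ok with ⟨_, h⟩ | h
    · have h1 : 1 ≤ Real.exp (κ / 2 * Real.log n) := Real.one_le_exp (by positivity)
      have : ‖D.p l‖ = ‖D.be‖ := by simp [Par.p, h]
      rw [this]
      nlinarith
    · have h1 : Real.exp (κ / 2 * Real.log n) = n := by
        rw [h]; simp [Real.exp_log (by linarith : (0 : ℝ) < n)]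
      rw [h1]
      have : ‖D.p l‖ ≤ ‖D.al‖ * l + ‖D.be‖ := by
        refine (norm_add_le _ _).trans ?_
        rw [norm_mul, Complex.norm_natCast]
      have h2 : ‖D.al‖ * l ≤ ‖D.al‖ * n := mul_le_mul_of_nonneg_left hl1 hal
      have h3 : ‖D.be‖ ≤ ‖D.be‖ * n := by nlinarith
      have h4 : (‖D.al‖ + ‖D.be‖) * n ≤ Real.exp e * n :=
        mul_le_mul_of_nonneg_right (by linarith) (by linarith)
      nlinarith
  · have h1 : Real.exp (e + κ / 2 * Real.log n) ^ 2 = Real.exp e ^ 2 * (n : ℝ) ^ κ := by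
      rw [Real.exp_add, mul_pow, ← Real.exp_nat_mul (κ / 2 * Real.log n) 2]
      have : ((2 : ℕ) : ℝ) * (κ / 2 * Real.log n) = κ * Real.log n := by push_cast; ring
      rw [this, Real.exp_nat_mul, Real.exp_log (by linarith)]
    rw [h1]
    have h2 : ‖D.q l‖ ≤ G * (n : ℝ) ^ κ := by
      rw [Par.q, norm_mul, norm_prod, hG, mul_assoc]
      refine mul_le_mul_of_nonneg_left ?_ (norm_nonneg _)
      have : (n : ℝ) ^ κ = ∏ _i : Fin κ, (n : ℝ) := by simp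
      rw [this, ← prod_mul_distrib]
      refine prod_le_prod (fun i _ => norm_nonneg _) fun i _ => ?_
      refine (norm_add_le _ _).trans ?_
      rw [norm_mul, Complex.norm_natCast, Complex.norm_natCast, Complex.norm_natCast]
      have ha : (0 : ℝ) ≤ D.a := Nat.cast_nonneg _
      have hb : (0 : ℝ) ≤ D.b i := Nat.cast_nonneg _
      nlinarith
    refine h2.trans (mul_le_mul_of_nonneg_right ?_ (by positivity))
    nlinarith

theorem det_bd_HsC1 (D : Par ℂ κ) (pos : D.Pos) (n : ℕ) :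
    ‖D.ga‖ ^ n * (n.factorial : ℝ) ^ κ ≤ ‖(D.W 0 n).det‖ := by
  rw [Par.W_det, norm_prod]
  induction n with
  | zero => simp
  | succ n ih =>
    rw [prod_range_succ]
    have h : ‖D.ga‖ * ((n : ℝ) + 1) ^ κ ≤ ‖-D.q (0 + n)‖ := by
      rw [norm_neg, zero_add, Par.q, norm_mul, norm_prod]
      refine mul_le_mul_of_nonneg_left ?_ (norm_nonneg _)
      have : ((n : ℝ) + 1) ^ κ = ∏ _i : Fin κ, ((n : ℝ) + 1) := by simp
      rw [this]
      refine prod_le_prod (fun i _ => by positivity) fun i _ => ?_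
      have e : (D.a : ℂ) * n + D.b i = ((D.a * n + D.b i : ℕ) : ℂ) := by push_cast; ring
      rw [e, Complex.norm_natCast]
      have h1 := pos.1
      have h2 := pos.2 i
      have : n + 1 ≤ D.a * n + D.b i := by nlinarith
      exact_mod_cast this
    calc ‖D.ga‖ ^ (n + 1) * ((n + 1).factorial : ℝ) ^ κ
        = ‖D.ga‖ ^ n * (n.factorial : ℝ) ^ κ * (‖D.ga‖ * ((n : ℝ) + 1) ^ κ) := by
          rw [Nat.factorial_succ]; push_cast; rw [mul_pow]; ring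
      _ ≤ _ := mul_le_mul ih h (by positivity) (prod_nonneg fun _ _ => norm_nonneg _)

theorem logfac_HsC1 (n : ℕ) (hn : 1 ≤ n) :
    (n : ℝ) * Real.log n - n ≤ Real.log (n.factorial : ℝ) := by
  have hn0 : (0 : ℝ) < n := by exact_mod_cast hn
  have hf : (0 : ℝ) < n.factorial := by exact_mod_cast n.factorial_pos
  have h := Real.pow_div_factorial_le_exp (n : ℝ) hn0.le n
  have h2 := Real.log_le_log (by positivity) h
  rw [Real.log_div (by positivity) hf.ne', Real.log_pow, Real.log_exp] at h2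
  linarith

theorem pow_bd_HsC1 (x : ℝ) (j : ℕ) : (2 * Real.exp x) ^ j ≤ Real.exp (j * (1 + x)) := by
  rw [Real.exp_nat_mul, Real.exp_add]
  refine pow_le_pow_left₀ (by positivity) ?_ j
  have := Real.add_one_le_exp 1
  exact mul_le_mul_of_nonneg_right (by linarith) (Real.exp_pos _).le

theorem orb_exp_HsC1 (D : Par ℂ κ) (ok : D.Ok) : ∃ e : ℝ, 0 ≤ e ∧ ∀ {V : ℕ → Fin 2 → ℂ},
    D.Orb V → ∀ m : ℝ, 0 ≤ m → (∀ i, ‖V 0 i‖ ≤ Real.exp m) → ∀ n : ℕ, 1 ≤ n → ∀ j ≤ n, ∀ i,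
      ‖V j i‖ ≤ Real.exp (κ / 2 * j * Real.log n + (e + m) * n) := by
  obtain ⟨e, he, h⟩ := coef_bd_HsC1 D ok
  refine ⟨2 * e + 3, by positivity, fun {V} orb m hm hM n hn j hj i => ?_⟩
  have hn1 : (1 : ℝ) ≤ n := by exact_mod_cast hn
  have hj1 : (j : ℝ) ≤ n := by exact_mod_cast hj
  have hj0 : (0 : ℝ) ≤ j := Nat.cast_nonneg _
  have hL : 0 ≤ Real.log n := Real.log_nonneg hn1
  have hL2 : Real.log n ≤ n := by linarith [Real.log_le_sub_one_of_pos (by linarith : (0 : ℝ) < n)]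
  have hκ : (κ : ℝ) ≤ 2 := by exact_mod_cast ok.le.2
  have hκ0 : (0 : ℝ) ≤ κ := Nat.cast_nonneg _
  have hx : 0 ≤ e + κ / 2 * Real.log n := by positivity
  have hr : 1 ≤ Real.exp (e + κ / 2 * Real.log n) := Real.one_le_exp hx
  obtain ⟨h0, h1⟩ := orb_bd_HsC1 D orb hr n (fun l hl => (h n hn l hl).1)
    (fun l hl => (h n hn l hl).2) hM j hj
  have hi : ‖V j i‖ ≤ (2 * Real.exp (e + κ / 2 * Real.log n)) ^ (j + 1) * Real.exp m := by
    fin_cases i
    · exact h0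
    · refine h1.trans (mul_le_mul_of_nonneg_right ?_ (Real.exp_pos _).le)
      exact pow_le_pow_right₀ (by linarith) (by omega)
  refine hi.trans ((mul_le_mul_of_nonneg_right (pow_bd_HsC1 _ _) (Real.exp_pos _).le).trans ?_)
  rw [← Real.exp_add]
  refine Real.exp_le_exp.2 ?_
  push_cast
  have b1 : κ / 2 * Real.log n ≤ n := by nlinarith
  have b2 : m ≤ m * n := by nlinarith
  have b3 : ((j : ℝ) + 1) * (1 + e) ≤ 2 * n * (1 + e) :=
    mul_le_mul_of_nonneg_right (by linarith) (by linarith)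
  nlinarith

theorem arch_bd (D : Par ℂ κ) (ok : D.Ok) (pos : D.Pos) (hga : D.ga ≠ 0) {U : ℕ → Fin 2 → ℂ}
    (orb : D.Orb U) (h0 : U 0 ≠ 0) : ∃ C : ℝ, 0 ≤ C ∧ ∀ n : ℕ, 1 ≤ n →
      (∀ j ≤ n, ∀ i, ‖U j i‖ ≤ Real.exp (κ / 2 * j * Real.log n + C * n)) ∧
      κ / 2 * n * Real.log n - C * n ≤ Real.log (max ‖U n 0‖ ‖U n 1‖) := by
  obtain ⟨e, he, h⟩ := orb_exp_HsC1 D ok
  obtain ⟨w, hw, hd⟩ : ∃ w : Fin 2 → ℂ, (∀ i, ‖w i‖ ≤ Real.exp 0) ∧ wed (U 0) w ≠ 0 := by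
    by_cases h1 : U 0 0 = 0
    · refine ⟨![1, 0], fun i => by fin_cases i <;> simp, ?_⟩
      have : U 0 1 ≠ 0 := fun h2 => h0 (by ext i; fin_cases i <;> simp [h1, h2])
      simpa [wed] using this
    · exact ⟨![0, 1], fun i => by fin_cases i <;> simp, by simpa [wed] using h1⟩
  have orbV : D.Orb fun j => D.W 0 j *ᵥ w := fun j => by
    simp only [Par.W_succ, zero_add, mulVec_mulVec]
  set m : ℝ := ‖U 0 0‖ + ‖U 0 1‖ with hm
  have hm0 : 0 ≤ m := by positivity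
  have hU0 : ∀ i, ‖U 0 i‖ ≤ Real.exp m := fun i => by
    have := Real.add_one_le_exp m
    have a0 := norm_nonneg (U 0 0)
    have a1 := norm_nonneg (U 0 1)
    fin_cases i
    · change ‖U 0 0‖ ≤ _; linarith
    · change ‖U 0 1‖ ≤ _; linarith
  set c : ℝ := |Real.log ‖D.ga‖| + |Real.log ‖wed (U 0) w‖| + 3 with hc
  have hc0 : 0 ≤ c := by positivity
  refine ⟨e + m + c, by positivity, fun n hn => ⟨fun j hj i => ?_, ?_⟩⟩
  · refine (h orb m hm0 hU0 n hn j hj i).trans (Real.exp_le_exp.2 ?_)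
    have : (0 : ℝ) ≤ c * n := by positivity
    linarith
  · have hn1 : (1 : ℝ) ≤ n := by exact_mod_cast hn
    have hκ : (κ : ℝ) ≤ 2 := by exact_mod_cast ok.le.2
    have hκ0 : (0 : ℝ) ≤ κ := Nat.cast_nonneg _
    have hV := h orbV 0 le_rfl (by simpa using hw) n hn n le_rfl
    set X : ℝ := κ / 2 * n * Real.log n + (e + 0) * n with hX
    set N : ℝ := max ‖U n 0‖ ‖U n 1‖ with hN
    have hUn : U n = D.W 0 n *ᵥ U 0 := by simpa using orb.eq 0 n
    have hw1 : wed (U n) (D.W 0 n *ᵥ w) = (D.W 0 n).det * wed (U 0) w := by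
      rw [hUn, wed_mulVec]
    have hN0 : 0 ≤ N := le_max_of_le_left (norm_nonneg _)
    have hw2 : ‖wed (U n) (D.W 0 n *ᵥ w)‖ ≤ 2 * Real.exp X * N := by
      rw [wed]
      refine (norm_sub_le _ _).trans ?_
      rw [norm_mul, norm_mul]
      have a0 : ‖U n 0‖ * ‖(D.W 0 n *ᵥ w) 1‖ ≤ N * Real.exp X :=
        mul_le_mul (le_max_left _ _) (hV 1) (norm_nonneg _) hN0
      have a1 : ‖U n 1‖ * ‖(D.W 0 n *ᵥ w) 0‖ ≤ N * Real.exp X :=
        mul_le_mul (le_max_right _ _) (hV 0) (norm_nonneg _) hN0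
      linarith
    have hg : 0 < ‖D.ga‖ := norm_pos_iff.2 hga
    have hδ : 0 < ‖wed (U 0) w‖ := norm_pos_iff.2 hd
    have hf : (0 : ℝ) < n.factorial := by exact_mod_cast n.factorial_pos
    have key : ‖D.ga‖ ^ n * (n.factorial : ℝ) ^ κ * ‖wed (U 0) w‖ ≤ 2 * Real.exp X * N := by
      refine le_trans ?_ hw2
      rw [hw1, norm_mul]
      exact mul_le_mul_of_nonneg_right (det_bd_HsC1 D pos n) hδ.le
    have hpos : 0 < ‖D.ga‖ ^ n * (n.factorial : ℝ) ^ κ * ‖wed (U 0) w‖ := by positivity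
    have hNpos : 0 < N := by
      rcases hN0.eq_or_lt with h1 | h1
      · rw [← h1, mul_zero] at key; linarith
      · exact h1
    have hl := Real.log_le_log hpos key
    rw [Real.log_mul (by positivity) hδ.ne', Real.log_mul (by positivity) (by positivity),
      Real.log_pow, Real.log_pow, Real.log_mul (by positivity) hNpos.ne',
      Real.log_mul (by norm_num) (Real.exp_pos _).ne', Real.log_exp] at hl
    have l2 : Real.log 2 ≤ 1 := by
      linarith [Real.log_le_sub_one_of_pos (by norm_num : (0 : ℝ) < 2)]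
    have lf := logfac_HsC1 n hn
    have b1 : (κ : ℝ) * (n * Real.log n - n) ≤ κ * Real.log (n.factorial : ℝ) :=
      mul_le_mul_of_nonneg_left lf hκ0
    have b2 : -(|Real.log ‖D.ga‖| * n) ≤ n * Real.log ‖D.ga‖ := by
      have := neg_abs_le (Real.log ‖D.ga‖)
      nlinarith
    have b3 : -(|Real.log ‖wed (U 0) w‖| * n) ≤ Real.log ‖wed (U 0) w‖ := by
      have := neg_abs_le (Real.log ‖wed (U 0) w‖)
      have := abs_nonneg (Real.log ‖wed (U 0) w‖)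
      nlinarith
    have b4 : (κ : ℝ) * n ≤ 2 * n := by nlinarith
    have b5 : 0 ≤ m * n := by positivity
    rw [hc]
    rw [hX] at hl
    nlinarith

theorem Ctx.arch {K : Type} [Field K] [NumberField K] (c : Ctx K κ) :
    ∃ C : ℝ, 0 ≤ C ∧ ∀ n : ℕ, 1 ≤ n → ∀ φ : K →+* ℂ,
      (∀ j ≤ n, ∀ i, ‖φ (c.U j i)‖ ≤ Real.exp (κ / 2 * j * Real.log n + C * n)) ∧
      κ / 2 * n * Real.log n - C * n ≤ Real.log (max ‖φ (c.U n 0)‖ ‖φ (c.U n 1)‖) := by
  have H : ∀ φ : K →+* ℂ, ∃ C : ℝ, 0 ≤ C ∧ ∀ n : ℕ, 1 ≤ n →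
      (∀ j ≤ n, ∀ i, ‖φ (c.U j i)‖ ≤ Real.exp (κ / 2 * j * Real.log n + C * n)) ∧
      κ / 2 * n * Real.log n - C * n ≤ Real.log (max ‖φ (c.U n 0)‖ ‖φ (c.U n 1)‖) := fun φ => by
    refine arch_bd (c.D.toK.map φ) ((c.ok.map _).map φ) c.pos ?_ (c.orb.map φ) ?_
    · have : c.D.toK.ga ≠ 0 := fun h => c.ga (by simpa [Par.toK] using h)
      simpa using this
    · intro h
      refine c.ne ?_
      ext i
      simpa using congrFun h i
  choose C hC0 hC using H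
  refine ⟨∑ φ, C φ, sum_nonneg fun φ _ => hC0 φ, fun n hn φ => ?_⟩
  have hle : C φ * n ≤ (∑ φ, C φ) * n :=
    mul_le_mul_of_nonneg_right (single_le_sum (fun φ _ => hC0 φ) (mem_univ φ)) (Nat.cast_nonneg _)
  obtain ⟨h1, h2⟩ := hC φ n hn
  exact ⟨fun j hj i => (h1 j hj i).trans (Real.exp_le_exp.2 (by linarith)), by linarith⟩

end Pool.Agent.P.MP_68214b_ag
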