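import Pool.Agent.P.MP_68214b_ag.HsDef

open Polynomial Finset Matrix NumberField

namespace Pool.Agent.P.MP_68214b_ag

variable {K : Type} [Field K] {v : AbsoluteValue K ℝ}

theorem le_nv_HsD1 (U : Fin 2 → K) (i : Fin 2) : v (U i) ≤ nv v U := by
  fin_cases i
  · exact le_max_left _ _
  · exact le_max_right _ _

theorem nv_le_HsD1 {U : Fin 2 → K} {c : ℝ} (h : ∀ i, v (U i) ≤ c) : nv v U ≤ c :=
  max_le (h 0) (h 1)

theorem nv_nonneg_HsD1 (U : Fin 2 → K) : 0 ≤ nv v U :=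
  (v.nonneg _).trans (le_nv_HsD1 U 0)

theorem add_le_HsD1 (hv : IsNonarchimedean v) {a b : K} {N c : ℝ} (hN : 0 ≤ N)
    (ha : v a * N ≤ c) (hb : v b * N ≤ c) : v (a + b) * N ≤ c := by
  refine (mul_le_mul_of_nonneg_right (hv a b) hN).trans ?_
  rw [max_mul_of_nonneg _ _ hN]
  exact max_le ha hb

theorem sum_le_HsD1 (hv : IsNonarchimedean v) {s : Finset ℕ} {f : ℕ → K} {N c : ℝ} (hN : 0 ≤ N)
    (hc : 0 ≤ c) (h : ∀ i ∈ s, v (f i) * N ≤ c) : v (∑ i ∈ s, f i) * N ≤ c := by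
  induction s using Finset.induction_on with
  | empty => simpa using hc
  | insert a s ha ih =>
    rw [sum_insert ha]
    exact add_le_HsD1 hv hN (h a (mem_insert_self _ _))
      (ih fun i hi => h i (mem_insert_of_mem hi))

theorem mul_le_HsD1 {a b : K} {x y : ℝ} (ha : v a ≤ x) (hb : v b ≤ y) : v (a * b) ≤ x * y := by
  rw [map_mul]
  exact mul_le_mul ha hb (v.nonneg _) ((v.nonneg _).trans ha)

theorem nv_pos {U : Fin 2 → K} (h : U ≠ 0) : 0 < nv v U := by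
  obtain ⟨i, hi⟩ := Function.ne_iff.1 h
  exact (v.pos hi).trans_le (le_nv_HsD1 U i)

theorem loc_up (hv : IsNonarchimedean v) {M : Matrix (Fin 2) (Fin 2) K} {β : ℝ}
    (hM : ∀ r s, v (M r s) ≤ β) (U : Fin 2 → K) : nv v (M *ᵥ U) ≤ β * nv v U := by
  refine nv_le_HsD1 fun i => ?_
  have e : (M *ᵥ U) i = M i 0 * U 0 + M i 1 * U 1 := by
    simp [mulVec, dotProduct, Fin.sum_univ_two]
  rw [e]
  exact (hv _ _).trans (max_le (mul_le_HsD1 (hM _ _) (le_nv_HsD1 U _))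
    (mul_le_HsD1 (hM _ _) (le_nv_HsD1 U _)))

theorem loc_det (hv : IsNonarchimedean v) {M : Matrix (Fin 2) (Fin 2) K} {β : ℝ}
    (hM : ∀ r s, v (M r s) ≤ β) (U : Fin 2 → K) : v M.det * nv v U ≤ β * nv v (M *ᵥ U) := by
  have e0 : M.det * U 0 = M 1 1 * (M *ᵥ U) 0 - M 0 1 * (M *ᵥ U) 1 := by
    simp [mulVec, dotProduct, Fin.sum_univ_two, det_fin_two]; ring
  have e1 : M.det * U 1 = M 0 0 * (M *ᵥ U) 1 - M 1 0 * (M *ᵥ U) 0 := by
    simp [mulVec, dotProduct, Fin.sum_univ_two, det_fin_two]; ring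
  rw [nv, mul_max_of_nonneg _ _ (v.nonneg _), ← map_mul, ← map_mul, e0, e1]
  exact max_le
    ((v_sub_le hv _ _).trans (max_le (mul_le_HsD1 (hM _ _) (le_nv_HsD1 _ _))
      (mul_le_HsD1 (hM _ _) (le_nv_HsD1 _ _))))
    ((v_sub_le hv _ _).trans (max_le (mul_le_HsD1 (hM _ _) (le_nv_HsD1 _ _))
      (mul_le_HsD1 (hM _ _) (le_nv_HsD1 _ _))))

theorem loc_back (hv : IsNonarchimedean v) {M M' : Matrix (Fin 2) (Fin 2) K}
    (hM : ∀ r s, v (M r s) ≤ 1) (hM' : ∀ r s, v (M' r s) ≤ 1) (h : ∃ r s, v ((M' * M) r s) = 1)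
    (U : Fin 2 → K) : nv v (M *ᵥ U) ≤ max (nv v ((M' * M) *ᵥ U)) (v M.det * nv v U) := by
  obtain ⟨r, s, h⟩ := h
  refine nv_le_HsD1 fun i => ?_
  have key : ∃ (e : K) (j t : Fin 2), v e = 1 ∧ (M' * M) r s * (M *ᵥ U) i =
      M i s * ((M' * M) *ᵥ U) r + e * M' r j * (M.det * U t) := by
    fin_cases i <;> fin_cases s
    · refine ⟨-1, 1, 1, by simp, ?_⟩
      simp [mulVec, dotProduct, Fin.sum_univ_two, det_fin_two, mul_apply]; ring
    · refine ⟨1, 1, 0, by simp, ?_⟩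
      simp [mulVec, dotProduct, Fin.sum_univ_two, det_fin_two, mul_apply]; ring
    · refine ⟨1, 0, 1, by simp, ?_⟩
      simp [mulVec, dotProduct, Fin.sum_univ_two, det_fin_two, mul_apply]; ring
    · refine ⟨-1, 0, 0, by simp, ?_⟩
      simp [mulVec, dotProduct, Fin.sum_univ_two, det_fin_two, mul_apply]; ring
  obtain ⟨e, j, t, he, key⟩ := key
  have h1 : v ((M *ᵥ U) i) = v ((M' * M) r s * (M *ᵥ U) i) := by rw [map_mul, h, one_mul]
  rw [h1, key]
  refine (hv _ _).trans (max_le_max ?_ ?_)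
  · simpa using mul_le_HsD1 (hM i s) (le_nv_HsD1 ((M' * M) *ᵥ U) r)
  · have := mul_le_HsD1 (mul_le_HsD1 he.le (hM' r j))
      (mul_le_HsD1 (le_refl (v M.det)) (le_nv_HsD1 U t))
    simpa only [one_mul] using this

theorem pow_le_HsD1 {a : K} {x : ℝ} (ha : v a ≤ x) (i : ℕ) : v (a ^ i) ≤ x ^ i := by
  rw [map_pow]
  exact pow_le_pow_left₀ (v.nonneg _) ha i

theorem loc_form (hv : IsNonarchimedean v) (k : ℕ) {c : ℕ → K} (hc : ∀ i, v (c i) ≤ 1)
    (U : Fin 2 → K) : v (hev k c U) ≤ nv v U ^ k := by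
  have := sum_le_HsD1 hv (s := range (k + 1)) (f := fun i => c i * U 0 ^ i * U 1 ^ (k - i))
    (N := 1) (c := nv v U ^ k) zero_le_one (pow_nonneg (nv_nonneg_HsD1 U) k) fun i hi => by
      have := mul_le_HsD1 (mul_le_HsD1 (hc i) (pow_le_HsD1 (le_nv_HsD1 U 0) i))
        (pow_le_HsD1 (le_nv_HsD1 U 1) (k - i))
      rwa [one_mul, ← pow_add, Nat.add_sub_cancel' (Nat.lt_succ_iff.1 (mem_range.1 hi)),
        ← mul_one (v _)] at this
  rwa [mul_one] at this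

theorem cl_mul_HsD1 (hv : IsNonarchimedean v) {x y x' y' : K} {N η A B : ℝ} (hN : 0 ≤ N)
    (hx : v x ≤ A) (hy' : v y' ≤ B) (h : v (x - y) * N ≤ η * A) (h' : v (x' - y') * N ≤ η * B) :
    v (x * x' - y * y') * N ≤ η * (A * B) := by
  have e : x * x' - y * y' = x * (x' - y') + (x - y) * y' := by ring
  rw [e]
  refine add_le_HsD1 hv hN ?_ ?_
  · rw [map_mul, mul_assoc]
    calc v x * (v (x' - y') * N) ≤ A * (η * B) :=
          mul_le_mul hx h' (mul_nonneg (v.nonneg _) hN) ((v.nonneg _).trans hx)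
      _ = η * (A * B) := by ring
  · rw [map_mul, mul_right_comm]
    calc v (x - y) * N * v y' ≤ η * A * B :=
          mul_le_mul h hy' (v.nonneg _) ((mul_nonneg (v.nonneg _) hN).trans h)
      _ = η * (A * B) := by ring

theorem cl_pow_HsD1 (hv : IsNonarchimedean v) {x y : K} {N η : ℝ} (hN : 0 ≤ N) (hη : 0 ≤ η)
    (hx : v x ≤ N) (hy : v y ≤ N) (h : v (x - y) ≤ η) (i : ℕ) :
    v (x ^ i - y ^ i) * N ≤ η * N ^ i := by
  induction i with
  | zero => simpa using hη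
  | succ i ih =>
    rw [pow_succ, pow_succ, pow_succ]
    exact cl_mul_HsD1 hv hN (pow_le_HsD1 hx i) hy ih (mul_le_mul_of_nonneg_right h hN)

theorem cl_hev_HsD1 (hv : IsNonarchimedean v) (k : ℕ) {c : ℕ → K} (hc : ∀ i, v (c i) ≤ 1)
    {X Y : Fin 2 → K} {N η : ℝ} (hN : 0 ≤ N) (hη : 0 ≤ η) (hX : ∀ i, v (X i) ≤ N)
    (hY : ∀ i, v (Y i) ≤ N) (h : ∀ i, v (X i - Y i) ≤ η) :
    v (hev k c X - hev k c Y) * N ≤ η * N ^ k := by
  rw [hev, hev, ← sum_sub_distrib]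
  refine sum_le_HsD1 hv hN (by positivity) fun i hi => ?_
  have h1 := cl_mul_HsD1 hv hN (pow_le_HsD1 (hX 0) i) (pow_le_HsD1 (hY 1) (k - i))
    (cl_pow_HsD1 hv hN hη (hX 0) (hY 0) (h 0) i)
    (cl_pow_HsD1 hv hN hη (hX 1) (hY 1) (h 1) (k - i))
  rw [← pow_add, Nat.add_sub_cancel' (Nat.lt_succ_iff.1 (mem_range.1 hi))] at h1
  rw [mul_assoc (c i), mul_assoc (c i), ← mul_sub, map_mul, mul_assoc]
  exact (mul_le_of_le_one_left (mul_nonneg (v.nonneg _) hN) (hc i)).trans h1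

theorem loc_fwd (hv : IsNonarchimedean v) (k : ℕ) {c : ℕ → K} (hc : ∀ i, v (c i) ≤ 1)
    {M : Matrix (Fin 2) (Fin 2) K} (hM : ∀ r s, v (M r s) ≤ 1) (h : ∃ r s, v (M r s) = 1)
    (hp : ∀ r, v (hev k c (perp M r)) ≤ v M.det) (U : Fin 2 → K) :
    v (hev k c U) * nv v U ≤ nv v U ^ k * nv v (M *ᵥ U) := by
  obtain ⟨r, s, h⟩ := h
  have hN := nv_nonneg_HsD1 (v := v) U
  have hη := nv_nonneg_HsD1 (v := v) (M *ᵥ U)
  have hr := le_nv_HsD1 (v := v) (M *ᵥ U) r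
  have key : ∃ t : K, v t ≤ nv v U ∧
      ∀ i, v ((M r s • U) i - (t • perp M r) i) ≤ nv v (M *ᵥ U) := by
    fin_cases s
    · refine ⟨U 1, le_nv_HsD1 U 1, fun i => ?_⟩
      fin_cases i
      · refine le_of_eq_of_le (congrArg v ?_) hr
        simp [mulVec, dotProduct, Fin.sum_univ_two, perp]; ring
      · refine le_of_eq_of_le ?_ hη
        simp [perp, mul_comm]
    · refine ⟨-U 0, by simpa using le_nv_HsD1 U 0, fun i => ?_⟩
      fin_cases i
      · refine le_of_eq_of_le ?_ hη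
        simp [perp, mul_comm]
      · refine le_of_eq_of_le (congrArg v ?_) hr
        simp [mulVec, dotProduct, Fin.sum_univ_two, perp]; ring
  obtain ⟨t, ht, key⟩ := key
  have hperp : ∀ i, v (perp M r i) ≤ 1 := fun i => by
    fin_cases i
    · simpa [perp] using hM r 1
    · simpa [perp] using hM r 0
  have h1 := cl_hev_HsD1 hv k hc hN hη
    (fun i => by simpa only [one_mul, Pi.smul_apply, smul_eq_mul] using mul_le_HsD1 h.le (le_nv_HsD1 U i))
    (fun i => by simpa only [mul_one, Pi.smul_apply, smul_eq_mul] using mul_le_HsD1 ht (hperp i)) key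
  have h2 : v (hev k c (t • perp M r)) * nv v U ≤ nv v (M *ᵥ U) * nv v U ^ k := by
    rw [hev_smul]
    have h3 := loc_det hv hM U
    calc v (t ^ k * hev k c (perp M r)) * nv v U ≤ nv v U ^ k * v M.det * nv v U :=
          mul_le_mul_of_nonneg_right (mul_le_HsD1 (pow_le_HsD1 ht k) (hp r)) hN
      _ = nv v U ^ k * (v M.det * nv v U) := mul_assoc _ _ _
      _ ≤ nv v U ^ k * (1 * nv v (M *ᵥ U)) := mul_le_mul_of_nonneg_left h3 (pow_nonneg hN k)
      _ = nv v (M *ᵥ U) * nv v U ^ k := by ring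
  have h4 := add_le_HsD1 hv hN h1 h2
  rw [sub_add_cancel, hev_smul, map_mul, map_pow, h, one_pow, one_mul] at h4
  rwa [mul_comm (nv v U ^ k)]

end Pool.Agent.P.MP_68214b_ag
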