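import Pool.Agent.P.MP_68214b_ag.Ht

open Polynomial Finset Matrix NumberField

namespace Pool.Agent.P.MP_68214b_ag

/-- parameters of the recurrence u (x+2) = (al x + be) u (x+1) + ga * prod (a x + b i) * u x -/
structure Par (A : Type) (κ : ℕ) where
  al : A
  be : A
  ga : A
  a : ℕ
  b : Fin κ → ℕ

section Ring
variable {A B : Type} [CommRing A] [CommRing B] {κ : ℕ}

def Par.map (D : Par A κ) (f : A →+* B) : Par B κ := ⟨f D.al, f D.be, f D.ga, D.a, D.b⟩

def Par.p (D : Par A κ) (x : A) : A := D.al * x + D.be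

def Par.q (D : Par A κ) (x : A) : A := D.ga * ∏ i, ((D.a : A) * x + (D.b i : A))

/-- one step -/
def Par.T (D : Par A κ) (x : A) : Matrix (Fin 2) (Fin 2) A := !![D.p x, D.q x; 1, 0]

/-- the window product T (x+m-1) ... T x -/
def Par.W (D : Par A κ) (x : A) : ℕ → Matrix (Fin 2) (Fin 2) A
  | 0 => 1
  | m + 1 => D.T (x + m) * D.W x m

/-- the two shapes -/
def Par.Ok (D : Par A κ) : Prop := κ = 1 ∧ D.al = 0 ∨ κ = 2

def Par.Pos (D : Par A κ) : Prop := 0 < D.a ∧ ∀ i, 0 < D.b i

/-- the window product with the variable as a starting point -/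
noncomputable def Par.WX (D : Par A κ) (m : ℕ) : Matrix (Fin 2) (Fin 2) A[X] := (D.map C).W X m

/-- an orbit -/
def Par.Orb (D : Par A κ) (U : ℕ → Fin 2 → A) : Prop := ∀ j : ℕ, U (j + 1) = D.T j *ᵥ U j

/-- value of the binary form of degree k with coefficients c -/
def hev (k : ℕ) (c : ℕ → A) (v : Fin 2 → A) : A :=
  ∑ i ∈ range (k + 1), c i * v 0 ^ i * v 1 ^ (k - i)

/-- the vector orthogonal to row r -/
def perp (M : Matrix (Fin 2) (Fin 2) A) (r : Fin 2) : Fin 2 → A := ![-M r 1, M r 0]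

/-- the determinant of two vectors -/
def wed (v w : Fin 2 → A) : A := v 0 * w 1 - v 1 * w 0

@[simp] theorem Par.map_al (D : Par A κ) (f : A →+* B) : (D.map f).al = f D.al := rfl
@[simp] theorem Par.map_be (D : Par A κ) (f : A →+* B) : (D.map f).be = f D.be := rfl
@[simp] theorem Par.map_ga (D : Par A κ) (f : A →+* B) : (D.map f).ga = f D.ga := rfl
@[simp] theorem Par.map_a (D : Par A κ) (f : A →+* B) : (D.map f).a = D.a := rfl
@[simp] theorem Par.map_b (D : Par A κ) (f : A →+* B) : (D.map f).b = D.b := rfl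

theorem Par.map_map {E : Type} [CommRing E] (D : Par A κ) (f : A →+* B) (g : B →+* E) :
    (D.map f).map g = D.map (g.comp f) := rfl

theorem Par.Ok.map {D : Par A κ} (h : D.Ok) (f : A →+* B) : (D.map f).Ok :=
  h.imp (fun h => ⟨h.1, by simp [h.2]⟩) id

theorem Par.Pos.map {D : Par A κ} (h : D.Pos) (f : A →+* B) : (D.map f).Pos := h

theorem Par.Ok.le {D : Par A κ} (h : D.Ok) : 1 ≤ κ ∧ κ ≤ 2 := by
  rcases h with h | h <;> omega

theorem Par.p_map (D : Par A κ) (f : A →+* B) (x : A) : f (D.p x) = (D.map f).p (f x) := by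
  simp [Par.p]

theorem Par.q_map (D : Par A κ) (f : A →+* B) (x : A) : f (D.q x) = (D.map f).q (f x) := by
  simp [Par.q]

theorem Par.T_map (D : Par A κ) (f : A →+* B) (x : A) : (D.T x).map f = (D.map f).T (f x) := by
  ext i j; fin_cases i <;> fin_cases j <;> simp [Par.T, Par.p_map, Par.q_map]

@[simp] theorem Par.W_zero (D : Par A κ) (x : A) : D.W x 0 = 1 := rfl

theorem Par.W_succ (D : Par A κ) (x : A) (m : ℕ) : D.W x (m + 1) = D.T (x + m) * D.W x m := rfl

theorem Par.W_map (D : Par A κ) (f : A →+* B) (x : A) (m : ℕ) :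
    (D.W x m).map f = (D.map f).W (f x) m := by
  induction m with
  | zero => simp
  | succ m ih => rw [Par.W_succ, Par.W_succ, Matrix.map_mul, ih, Par.T_map]; simp

theorem Par.W_map_apply (D : Par A κ) (f : A →+* B) (x : A) (m : ℕ) (r s : Fin 2) :
    f (D.W x m r s) = (D.map f).W (f x) m r s := by
  rw [← Par.W_map]; rfl

theorem Par.W_add (D : Par A κ) (x : A) (m l : ℕ) :
    D.W x (m + l) = D.W (x + m) l * D.W x m := by
  induction l with
  | zero => simp
  | succ l ih =>
    rw [← add_assoc, Par.W_succ, Par.W_succ, ih, Matrix.mul_assoc]; congr 2; push_cast; ring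

theorem Par.T_det (D : Par A κ) (x : A) : (D.T x).det = -D.q x := by simp [Par.T]

theorem Par.W_det (D : Par A κ) (x : A) (m : ℕ) :
    (D.W x m).det = ∏ l ∈ range m, -D.q (x + l) := by
  induction m with
  | zero => simp
  | succ m ih => rw [Par.W_succ, det_mul, ih, Par.T_det, prod_range_succ, mul_comm]

theorem Par.WX_eval (D : Par A κ) (x : A) (m : ℕ) :
    (D.WX m).map (evalRingHom x) = D.W x m := by
  rw [Par.WX, Par.W_map, Par.map_map]
  congr 1
  · cases D; simp [Par.map]
  · simp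

theorem Par.Orb.eq {D : Par A κ} {U : ℕ → Fin 2 → A} (h : D.Orb U) (j m : ℕ) :
    U (j + m) = D.W j m *ᵥ U j := by
  induction m with
  | zero => simp
  | succ m ih => rw [← add_assoc, h, ih, Par.W_succ, mulVec_mulVec]; push_cast; rfl

theorem Par.Orb.map {D : Par A κ} {U : ℕ → Fin 2 → A} (h : D.Orb U) (f : A →+* B) :
    (D.map f).Orb fun j i => f (U j i) := fun j => by
  ext i
  change f (U (j + 1) i) = _
  rw [h j, RingHom.map_mulVec, Par.T_map]
  simp [Function.comp_def]

theorem hev_map (f : A →+* B) (k : ℕ) (c : ℕ → A) (v : Fin 2 → A) :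
    f (hev k c v) = hev k (fun i => f (c i)) fun i => f (v i) := by
  simp [hev]

theorem hev_smul (k : ℕ) (c : ℕ → A) (t : A) (v : Fin 2 → A) :
    hev k c (t • v) = t ^ k * hev k c v := by
  rw [hev, hev, mul_sum]
  refine sum_congr rfl fun i hi => ?_
  have : t ^ k = t ^ i * t ^ (k - i) := by
    rw [← pow_add]; congr 1; have := mem_range.1 hi; omega
  simp only [Pi.smul_apply, smul_eq_mul, mul_pow, this]; ring

theorem wed_mulVec (M : Matrix (Fin 2) (Fin 2) A) (v w : Fin 2 → A) :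
    wed (M *ᵥ v) (M *ᵥ w) = M.det * wed v w := by
  simp [wed, det_fin_two, mulVec, dotProduct, Fin.sum_univ_two]; ring

end Ring

/-- sup norm of a vector for an absolute value -/
noncomputable def nv {K : Type} (v : K → ℝ) (U : Fin 2 → K) : ℝ := max (v (U 0)) (v (U 1))

section NF
variable {K : Type} [Field K] [NumberField K] {κ : ℕ}

/-- the rational prime below a finite place -/
noncomputable def pv (v : FinitePlace K) : ℕ := ringChar (𝓞 K ⧸ v.maximalIdeal.asIdeal)

/-- the additive valuation of the prime below -/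
noncomputable def el (v : FinitePlace K) : ℝ := -Real.log (v (pv v))

/-- the additive valuation of a vector -/
noncomputable def cv (v : FinitePlace K) (U : Fin 2 → K) : ℝ := -Real.log (nv v U)

/-- the parameters seen in the field -/
noncomputable def Par.toK (D : Par (𝓞 K) κ) : Par K κ := D.map (algebraMap (𝓞 K) K)

/-- ordinary place -/
def Par.Ord (D : Par (𝓞 K) κ) (v : FinitePlace K) : Prop := v (D.toK.W 0 (pv v)).trace = 1

/-- neutral place -/
def Par.Neu (D : Par (𝓞 K) κ) (v : FinitePlace K) : Prop :=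
  ∀ j X : ℕ, (∀ i, D.a * j + D.b i ≤ X) → ∀ r s,
    v (D.toK.W 0 j r s) ^ 2 * v (pv v) ^ (4 * Nat.log (pv v) X) ≤ v (j.factorial) ^ κ

/-- the reciprocals of the primes with a place in a given set diverge -/
def Div (O : FinitePlace K → Prop) : Prop :=
  ∀ (B : ℕ) (M : ℝ), ∃ T : Finset ℕ, (∀ p ∈ T, B < p ∧ ∃ v, pv v = p ∧ O v) ∧
    M ≤ ∑ p ∈ T, (1 : ℝ) / p

/-- the data of the main estimate -/
structure Ctx (K : Type) [Field K] [NumberField K] (κ : ℕ) where
  D : Par (𝓞 K) κ
  U : ℕ → Fin 2 → K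
  B : ℕ
  ok : D.Ok
  pos : D.Pos
  ga : D.ga ≠ 0
  orb : D.toK.Orb U
  int : ∀ i, IsIntegral ℤ (U 0 i)
  ne : U 0 ≠ 0
  two : 2 ≤ B
  good : ∀ v : FinitePlace K, B < pv v →
    v D.toK.ga = 1 ∧ ¬pv v ∣ D.a ∧ nv v (U 0) = 1 ∧ (D.Ord v ∨ D.Neu v)
  div : Div D.Ord

end NF

end Pool.Agent.P.MP_68214b_ag
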