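import Pool.Agent.P.MP_68214b_ag.HsDef

open Polynomial Finset Matrix NumberField

namespace Pool.Agent.P.MP_68214b_ag

variable {κ p : ℕ}

section Ring
variable {A : Type} [CommRing A]

theorem W_period [CharP A p] (D : Par A κ) (x : A) (l : ℕ) : D.W x (p * l) = D.W x p ^ l := by
  induction l with
  | zero => simp
  | succ l ih =>
    have h0 : x + ((p * l : ℕ) : A) = x := by
      rw [Nat.cast_mul, CharP.cast_eq_zero A p, zero_mul, add_zero]
    rw [Nat.mul_succ, Par.W_add, ih, h0, pow_succ']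

theorem trace_shift [CharP A p] (D : Par A κ) (x : A) :
    (D.W (x + 1) p).trace = (D.W x p).trace := by
  rcases p with _ | n
  · simp
  · have h0 : ((n + 1 : ℕ) : A) = 0 := CharP.cast_eq_zero A (n + 1)
    have h1 : x + 1 + (n : A) = x := by
      have : x + 1 + (n : A) = x + ((n + 1 : ℕ) : A) := by push_cast; ring
      rw [this, h0, add_zero]
    have h2 : D.W x (n + 1) = D.W (x + 1) n * D.T x := by
      rw [add_comm n 1, Par.W_add, Par.W_succ]
      simp
    rw [h2, Par.W_succ, h1, trace_mul_comm]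

theorem trace_nat [CharP A p] (D : Par A κ) (j : ℕ) : (D.W j p).trace = (D.W 0 p).trace := by
  induction j with
  | zero => simp
  | succ j ih => rw [Nat.cast_succ, trace_shift, ih]

theorem W_seq_HsE1 (D : Par A κ) (x : A) (s : Fin 2) : ∃ u : ℕ → A,
    (∀ n : ℕ, u (n + 2) = D.p (x + n) * u (n + 1) + D.q (x + n) * u n) ∧
    ∀ m, D.W x m 0 s = u (m + 1) ∧ D.W x m 1 s = u m := by
  have h1 : ∀ m, D.W x (m + 1) 1 s = D.W x m 0 s := fun m => by
    rw [Par.W_succ]
    simp [Par.T, Matrix.mul_apply, Fin.sum_univ_two]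
  have h0 : ∀ m : ℕ, D.W x (m + 1) 0 s
      = D.p (x + m) * D.W x m 0 s + D.q (x + m) * D.W x m 1 s := fun m => by
    rw [Par.W_succ]
    simp [Par.T, Matrix.mul_apply, Fin.sum_univ_two]
  refine ⟨fun m => D.W x m 1 s, fun n => ?_, fun m => ⟨(h1 m).symm, rfl⟩⟩
  show D.W x (n + 1 + 1) 1 s = D.p (x + n) * D.W x (n + 1) 1 s + D.q (x + n) * D.W x n 1 s
  rw [h1 (n + 1), h0, h1]

theorem trace_eq_w (D : Par A κ) {x : A} (hx : D.q x = 0) {w : ℕ → A} (h0 : w 0 = 1)
    (h1 : w 1 = D.p x)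
    (hw : ∀ k : ℕ, w (k + 2) = D.p (x + k + 1) * w (k + 1) + D.q (x + k + 1) * w k)
    {m : ℕ} (hm : 0 < m) : (D.W x m).trace = w m := by
  obtain ⟨u, hu, hu'⟩ := W_seq_HsE1 D x 0
  obtain ⟨t, ht, ht'⟩ := W_seq_HsE1 D x 1
  have u1 : u 1 = 1 := by have := (hu' 0).1; simpa using this.symm
  have t1 : t 1 = 0 := by have := (ht' 0).1; simpa using this.symm
  have huw : ∀ k, u (k + 1) = w k ∧ u (k + 2) = w (k + 1) := by
    intro k
    induction k with
    | zero =>
      refine ⟨by simpa [h0] using u1, ?_⟩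
      have := hu 0
      simp only [Nat.cast_zero, add_zero, zero_add, hx, zero_mul, u1, mul_one] at this
      simpa [h1] using this
    | succ k ih =>
      refine ⟨ih.2, ?_⟩
      have := hu (k + 1)
      rw [this, ih.1, ih.2, hw k]
      push_cast
      rw [add_assoc x]
  have ht0 : ∀ k, t (k + 1) = 0 ∧ t (k + 2) = 0 := by
    intro k
    induction k with
    | zero =>
      refine ⟨t1, ?_⟩
      have := ht 0
      simpa [hx, t1] using this
    | succ k ih =>
      refine ⟨ih.2, ?_⟩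
      have := ht (k + 1)
      rw [this, ih.1, ih.2]
      simp
  obtain ⟨k, rfl⟩ : ∃ k, m = k + 1 := ⟨m - 1, by omega⟩
  rw [trace_fin_two, (hu' _).1, (ht' _).2, (ht0 k).1, (huw k).2, add_zero]

theorem W_seq (D : Par A κ) (x : A) (s : Fin 2) : ∃ u : ℕ → A,
    (∀ n : ℕ, u (n + 2) = D.p (x + n) * u (n + 1) + D.q (x + n) * u n) ∧
    ∀ m, D.W x m 0 s = u (m + 1) ∧ D.W x m 1 s = u m := by
  exact W_seq_HsE1 D x s

end Ring

variable {F : Type} [Field F]

theorem W_ne_zero [CharP F p] (hp : p.Prime) (D : Par F κ) (h : (D.W 0 p).trace ≠ 0) (j m : ℕ) :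
    D.W j m ≠ 0 := by
  intro h0
  have hle : m ≤ p * m := Nat.le_mul_of_pos_left m hp.pos
  have h1 : D.W (j : F) p ^ m = 0 := by
    rw [← W_period, ← Nat.add_sub_cancel' hle, Par.W_add, h0, Matrix.mul_zero]
  have h2 : IsNilpotent (D.W (j : F) p).trace :=
    Matrix.isNilpotent_trace_of_isNilpotent ⟨m, h1⟩
  rw [trace_nat] at h2
  exact h h2.eq_zero

theorem exists_root [CharP F p] (hp : p.Prime) {a : ℕ} (ha : (a : F) ≠ 0) (z : ℤ) :
    ∃ j : ℕ, j < p ∧ (a : F) * j + z = 0 := by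
  have : Fact p.Prime := ⟨hp⟩
  have ha' : (a : ZMod p) ≠ 0 := by
    intro h
    apply ha
    have := congrArg (ZMod.castHom (dvd_refl p) F) h
    simpa using this
  refine ⟨(-(z : ZMod p) / a).val, ZMod.val_lt _, ?_⟩
  have h1 : (a : ZMod p) * (((-(z : ZMod p) / a).val : ℕ) : ZMod p) + z = 0 := by
    rw [ZMod.natCast_zmod_val]
    field_simp
    ring
  have := congrArg (ZMod.castHom (dvd_refl p) F) h1
  rw [map_add, map_mul, map_natCast, map_natCast, map_intCast, map_zero] at this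
  exact this

/-- Hermite type polynomials -/
noncomputable def HH_HsE1 (de : F) : ℕ → F[X]
  | 0 => 1
  | 1 => X
  | k + 2 => X * HH_HsE1 de (k + 1) + C (de * ((k : F) + 1)) * HH_HsE1 de k

theorem HH_succ_HsE1 (de : F) (k : ℕ) : HH_HsE1 de (k + 2)
    = X * HH_HsE1 de (k + 1) + C (de * ((k : F) + 1)) * HH_HsE1 de k := rfl

theorem HH_der_HsE1 (de : F) (k : ℕ) :
    derivative (HH_HsE1 de (k + 1)) = C ((k : F) + 1) * HH_HsE1 de k ∧
    derivative (HH_HsE1 de (k + 2)) = C ((k : F) + 2) * HH_HsE1 de (k + 1) := by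
  induction k with
  | zero =>
    refine ⟨by simp [HH_HsE1], ?_⟩
    rw [HH_succ_HsE1]
    simp only [HH_HsE1, derivative_add, derivative_mul, derivative_X, derivative_C,
      derivative_one, Nat.cast_zero, zero_add, map_ofNat]
    ring
  | succ k ih =>
    refine ⟨by rw [ih.2]; congr 2; push_cast; ring, ?_⟩
    rw [HH_succ_HsE1 de (k + 1), derivative_add, derivative_mul, derivative_mul, ih.1, ih.2,
      derivative_X, derivative_C, HH_succ_HsE1 de k]
    simp only [Nat.cast_add, Nat.cast_one, map_add, map_mul, map_one, map_ofNat]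
    ring

theorem HH_coeff_HsE1 (de : F) (k : ℕ) :
    (∀ i, k ≤ i → (HH_HsE1 de k).coeff i = (X ^ k : F[X]).coeff i) ∧
    (∀ i, k + 1 ≤ i → (HH_HsE1 de (k + 1)).coeff i = (X ^ (k + 1) : F[X]).coeff i) := by
  induction k with
  | zero => exact ⟨fun i _ => by simp [HH_HsE1], fun i _ => by simp [HH_HsE1]⟩
  | succ k ih =>
    refine ⟨ih.2, fun i hi => ?_⟩
    obtain ⟨i, rfl⟩ : ∃ j, i = j + 1 := ⟨i - 1, by omega⟩
    rw [HH_succ_HsE1, coeff_add, coeff_X_mul, coeff_C_mul, ih.1 _ (by omega),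
      ih.2 _ (by omega), coeff_X_pow, coeff_X_pow, coeff_X_pow, if_neg (by omega : ¬i + 1 = k)]
    simp

theorem HH_odd_HsE1 (de : F) (k : ℕ) : (HH_HsE1 de (2 * k + 1)).coeff 0 = 0 := by
  induction k with
  | zero => simp [HH_HsE1]
  | succ k ih =>
    have : 2 * (k + 1) + 1 = (2 * k + 1) + 2 := by ring
    rw [this, HH_succ_HsE1, coeff_add, coeff_C_mul, ih]
    simp

theorem HH_p_HsE1 [CharP F p] (hp : p.Prime) (h2 : p ≠ 2) (de : F) : HH_HsE1 de p = X ^ p := by
  obtain ⟨k, hk⟩ := hp.odd_of_ne_two h2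
  ext i
  by_cases hi : p ≤ i
  · exact (HH_coeff_HsE1 de p).1 i hi
  · rw [coeff_X_pow, if_neg (by omega)]
    rcases i with _ | i
    · rw [hk]; exact HH_odd_HsE1 de k
    · have hd : derivative (HH_HsE1 de p) = 0 := by
        have h0 : (((2 * k : ℕ) : F) + 1) = 0 := by
          have := CharP.cast_eq_zero F p
          rw [hk] at this
          exact_mod_cast this
        have := (HH_der_HsE1 de (2 * k)).1
        rw [h0, ← hk] at this
        simpa using this
      have h3 := coeff_derivative (HH_HsE1 de p) i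
      rw [hd, coeff_zero] at h3
      have h4 : ((i : F) + 1) ≠ 0 := by
        have : ((i + 1 : ℕ) : F) ≠ 0 := by
          rw [Ne, CharP.cast_eq_zero_iff F p]
          exact Nat.not_dvd_of_pos_of_lt (by omega) (by omega)
        exact_mod_cast this
      exact (mul_eq_zero.1 h3.symm).resolve_right h4

theorem trace_H [CharP F p] (hp : p.Prime) (h2 : p ≠ 2) (D : Par F 1) (hal : D.al = 0)
    (ha : (D.a : F) ≠ 0) : (D.W 0 p).trace = D.be ^ p := by
  obtain ⟨j, -, hj⟩ := exists_root hp ha (D.b 0 : ℤ)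
  rw [Int.cast_natCast] at hj
  have hq : ∀ y : F, D.q ((j : F) + y) = D.ga * D.a * y := fun y => by
    simp only [Par.q, Fin.prod_univ_one]
    linear_combination D.ga * hj
  have hpp : ∀ y : F, D.p y = D.be := fun y => by simp [Par.p, hal]
  rw [← trace_nat D j]
  have key := trace_eq_w D (x := (j : F)) (by simpa using hq 0)
    (w := fun k => (HH_HsE1 (D.ga * D.a) k).eval D.be) (by simp [HH_HsE1])
    (by simp [HH_HsE1, hpp])
    (fun k => by
      rw [hpp, add_assoc, hq]
      simp only [HH_succ_HsE1, eval_add, eval_mul, eval_X, eval_C]) hp.pos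
  rw [key]
  simp only [HH_p_HsE1 hp h2, eval_pow, eval_X]

end Pool.Agent.P.MP_68214b_ag
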