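import Pool.Agent.P.MP_68214b_ag.HsE1

open Polynomial Finset Matrix NumberField

namespace Pool.Agent.P.MP_68214b_ag

variable {p : ℕ} {F : Type} [Field F]

/-- contiguous family of solutions of the three term recurrence -/
def V_HsE2 (t1 t2 th s : F) : ℕ → ℕ → F
  | 0, _ => 1
  | k + 1, i => (th + i * (t1 - t2)) * V_HsE2 t1 t2 th s k (i + 1) +
      t2 * (k + s + i + 1) * V_HsE2 t1 t2 th s k i

theorem V_zero_HsE2 (t1 t2 th s : F) (i : ℕ) : V_HsE2 t1 t2 th s 0 i = 1 := rfl

theorem V_succ_HsE2 (t1 t2 th s : F) (k i : ℕ) : V_HsE2 t1 t2 th s (k + 1) i =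
    (th + i * (t1 - t2)) * V_HsE2 t1 t2 th s k (i + 1) +
      t2 * (k + s + i + 1) * V_HsE2 t1 t2 th s k i := rfl

theorem V_cont_HsE2 (t1 t2 th s : F) (k : ℕ) : ∀ i : ℕ,
    V_HsE2 t1 t2 th s (k + 1) (i + 1) - t1 * (k + 1) * V_HsE2 t1 t2 th s k (i + 1) =
      V_HsE2 t1 t2 th s (k + 1) i := by
  induction k with
  | zero =>
    intro i
    simp only [V_succ_HsE2, V_zero_HsE2]
    push_cast
    ring
  | succ k ih =>
    intro i
    have a1 := V_succ_HsE2 t1 t2 th s (k + 1) (i + 1)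
    have a2 := V_succ_HsE2 t1 t2 th s (k + 1) i
    have a3 := V_succ_HsE2 t1 t2 th s k (i + 1)
    have b1 := ih (i + 1)
    have b2 := ih i
    push_cast at a1 a2 a3 b1 b2 ⊢
    linear_combination a1 - a2 + (th + (i + 1) * (t1 - t2)) * b1 +
      t2 * (k + 1 + s + i + 1) * b2 - t1 * (k + 1) * a3

theorem V_closed_HsE2 (t1 t2 th s : F) (k : ℕ) : ∀ i : ℕ,
    V_HsE2 t1 t2 th s k i = ∑ l ∈ range (k + 1), (k.choose l : F) *
      ((∏ e ∈ range l, (th + ((i : F) + e) * (t1 - t2))) *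
        ∏ e ∈ range (k - l), t2 * (s + i + 1 + l + e)) := by
  induction k with
  | zero => intro i; simp [V_zero_HsE2]
  | succ k ih =>
    intro i
    rw [V_succ_HsE2, ih, ih, Finset.sum_choose_succ_mul
      (fun l m => (∏ e ∈ range l, (th + ((i : F) + e) * (t1 - t2))) *
        ∏ e ∈ range m, t2 * (s + i + 1 + l + e)) k, add_comm, mul_sum, mul_sum]
    congr 1
    · refine sum_congr rfl fun l hl => ?_
      have hl' : l ≤ k := Nat.lt_succ_iff.1 (mem_range.1 hl)
      rw [Nat.succ_sub hl', prod_range_succ, Nat.cast_sub hl']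
      ring
    · refine sum_congr rfl fun l _ => ?_
      rw [prod_range_succ']
      have e1 : ∏ e ∈ range l, (th + (((i + 1 : ℕ) : F) + e) * (t1 - t2)) =
          ∏ e ∈ range l, (th + ((i : F) + ((e + 1 : ℕ) : F)) * (t1 - t2)) :=
        prod_congr rfl fun e _ => by push_cast; ring
      have e2 : ∏ e ∈ range (k - l), t2 * (s + ((i + 1 : ℕ) : F) + 1 + l + e) =
          ∏ e ∈ range (k - l), t2 * (s + i + 1 + ((l + 1 : ℕ) : F) + e) :=
        prod_congr rfl fun e _ => by push_cast; ring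
      rw [e1, e2]
      push_cast
      ring

theorem trace_M [CharP F p] (hp : p.Prime) (D : Par F 2) {t1 t2 th : F} (h1 : D.al = t1 + t2)
    (h2 : D.ga * (D.a : F) ^ 2 = -(t1 * t2)) (ha : (D.a : F) ≠ 0)
    (hth : D.a * th = D.a * D.be - D.al * D.b 0 - ((D.b 1 : F) - D.b 0 + D.a) * t2) :
    (D.W 0 p).trace = ∏ l ∈ range p, (th + l * (t1 - t2)) := by
  obtain ⟨j, -, hj⟩ := exists_root (F := F) hp ha (D.b 0)
  obtain ⟨j', hj'p, hj'⟩ := exists_root (F := F) hp ha ((D.b 1 : ℤ) - D.b 0 + D.a)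
  push_cast at hj hj'
  obtain ⟨s, hs⟩ : ∃ s : F, D.a * s = (D.b 1 : F) - D.b 0 :=
    ⟨((D.b 1 : F) - D.b 0) / D.a, by field_simp⟩
  have hth' : th = D.al * j + D.be - (s + 1) * t2 := by
    refine mul_left_cancel₀ ha ?_
    linear_combination hth - D.al * hj + t2 * hs
  have hq : ∀ y : F, D.q (j + y) = -(t1 * t2) * y * (y + s) := fun y => by
    rw [Par.q, Fin.prod_univ_two, ← h2]
    have e0 : (D.a : F) * (j + y) + D.b 0 = D.a * y := by linear_combination hj
    have e1 : (D.a : F) * (j + y) + D.b 1 = D.a * (y + s) := by linear_combination hj - hs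
    rw [e0, e1]
    ring
  have hsj : s + 1 + j' = 0 := by
    refine mul_left_cancel₀ ha ?_
    linear_combination hj' + hs
  rw [← trace_nat D j, trace_eq_w D (x := j) (w := fun k => V_HsE2 t1 t2 th s k 0)
    (by simpa using hq 0) rfl ?_ ?_ hp.pos]
  · rw [V_closed_HsE2, sum_range_succ, sum_eq_zero, zero_add]
    · simp
    · intro l hl
      rcases Nat.eq_zero_or_pos l with rfl | hl0
      · rw [prod_eq_zero (mem_range.2 (by simpa using hj'p) : j' ∈ range (p - 0))]
        · simp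
        · push_cast
          linear_combination t2 * hsj
      · rw [(CharP.cast_eq_zero_iff F p _).2 (hp.dvd_choose_self hl0.ne' (mem_range.1 hl)),
          zero_mul]
  · simp only [V_succ_HsE2, V_zero_HsE2, Par.p]
    push_cast
    linear_combination hth'
  · intro k
    have a1 := V_succ_HsE2 t1 t2 th s (k + 1) 0
    have a2 := V_succ_HsE2 t1 t2 th s k 0
    have b := V_cont_HsE2 t1 t2 th s k 0
    have hq' := hq (k + 1)
    rw [← add_assoc] at hq'
    rw [hq', Par.p, h1]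
    rw [h1] at hth'
    push_cast at a1 a2 b ⊢
    linear_combination a1 + th * b - t1 * (k + 1) * a2 + V_HsE2 t1 t2 th s (k + 1) 0 * hth'

end Pool.Agent.P.MP_68214b_ag
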