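import Pool.Agent.P.MP_68214b_ag.HsB1

open Polynomial Finset Matrix NumberField

namespace Pool.Agent.P.MP_68214b_ag

/-- a limit of integers -/
def Apx {K : Type} [Field K] (v : AbsoluteValue K ℝ) (A : K) : Prop :=
  ∀ ε : ℝ, 0 < ε → ∃ z : ℤ, v (A - z) < ε

section
variable {K : Type} [Field K] {v : AbsoluteValue K ℝ}

theorem Apx.int (z : ℤ) : Apx v (z : K) := fun ε hε => ⟨z, by simpa using hε⟩

theorem Apx.sub (hv : IsNonarchimedean v) {A B : K} (hA : Apx v A) (hB : Apx v B) :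
    Apx v (A - B) := by
  intro ε hε
  obtain ⟨y, hy⟩ := hA ε hε
  obtain ⟨z, hz⟩ := hB ε hε
  refine ⟨y - z, ?_⟩
  rw [show A - B - ((y - z : ℤ) : K) = (A - y) - (B - z) by push_cast; ring]
  exact (v_sub_le hv _ _).trans_lt (max_lt hy hz)

theorem Apx.le_one (hv : IsNonarchimedean v) {A : K} (hA : Apx v A) : v A ≤ 1 := by
  obtain ⟨z, hz⟩ := hA 1 one_pos
  rw [show A = (A - z) + z by ring]
  exact (hv _ _).trans (max_le hz.le (v_int_le hv z))

theorem coe_eval_HsF1 (hv : IsNonarchimedean v) (f : ℤ[X]) (x : intR hv) :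
    ((eval x (f.map (algebraMap ℤ (intR hv))) : intR hv) : K) = aeval (x : K) f := by
  rw [eval_map_algebraMap]
  exact (aeval_algHom_apply (intR hv).subtype.toIntAlgHom x f).symm

/-- Taylor expansion with an integral remainder -/
theorem taylor_HsF1 (hv : IsNonarchimedean v) (f : ℤ[X]) {a b : K} (ha : v a ≤ 1) (hb : v b ≤ 1) :
    ∃ k : K, v k ≤ 1 ∧
      aeval a f = aeval b f + aeval b (derivative f) * (a - b) + k * (a - b) ^ 2 := by
  obtain ⟨k, hk⟩ := binomExpansion (f.map (algebraMap ℤ (intR hv))) (⟨b, hb⟩ : intR hv)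
    (⟨a, ha⟩ - ⟨b, hb⟩)
  rw [add_sub_cancel, derivative_map] at hk
  have h := congrArg (fun x : intR hv => (x : K)) hk
  simp only [Subring.coe_add, Subring.coe_mul, Subring.coe_pow, AddSubgroupClass.coe_sub,
    coe_eval_HsF1] at h
  exact ⟨k, k.2, h⟩

theorem lip_HsF1 (hv : IsNonarchimedean v) (f : ℤ[X]) {a b : K} (ha : v a ≤ 1) (hb : v b ≤ 1) :
    v (aeval a f - aeval b f) ≤ v (a - b) := by
  obtain ⟨k, hk⟩ := sub_dvd_eval_sub (⟨a, ha⟩ : intR hv) ⟨b, hb⟩ (f.map (algebraMap ℤ (intR hv)))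
  have h := congrArg (fun x : intR hv => (x : K)) hk
  simp only [Subring.coe_mul, AddSubgroupClass.coe_sub, coe_eval_HsF1] at h
  rw [h, map_mul]
  exact mul_le_of_le_one_right (v.nonneg _) k.2

theorem v_mul_le_HsF1 (hv : IsNonarchimedean v) (a : K) (z : ℤ) : v (z * a) ≤ v a := by
  rw [map_mul]
  exact mul_le_of_le_one_left (v.nonneg _) (v_int_le hv z)

theorem Apx.poch [CharZero K] (hv : IsNonarchimedean v) {A : K} (hA : Apx v A) (i : ℕ) :
    v (∏ l ∈ range i, (A + l)) ≤ v (i.factorial) := by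
  have h0 : (0 : ℤ) < i.factorial := by exact_mod_cast i.factorial_pos
  obtain ⟨z, hz⟩ := hA (v i.factorial) (v.pos (by exact_mod_cast i.factorial_ne_zero))
  obtain ⟨n, hn⟩ := Int.eq_ofNat_of_zero_le (Int.emod_nonneg z h0.ne')
  have e1 : A - n = (A - z) + ((z / i.factorial : ℤ) : K) * i.factorial := by
    have h1 := congrArg (Int.cast : ℤ → K) (Int.emod_add_mul_ediv z i.factorial)
    rw [hn] at h1
    push_cast at h1
    rw [← h1]
    ring
  have h2 : v (A - n) ≤ v i.factorial := by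
    rw [e1]
    exact (hv _ _).trans (max_le hz.le (v_mul_le_HsF1 hv _ _))
  have e2 : ∀ x : K, aeval x (∏ l ∈ range i, (X + C (l : ℤ)) : ℤ[X]) = ∏ l ∈ range i, (x + l) := by
    intro x
    simp [map_prod]
  have h3 := lip_HsF1 hv (∏ l ∈ range i, (X + C (l : ℤ))) (hA.le_one hv) (v_nat_le hv n)
  rw [e2, e2] at h3
  have h4 : v (∏ l ∈ range i, ((n : K) + l)) ≤ v i.factorial := by
    obtain ⟨c, hc⟩ := Nat.factorial_dvd_ascFactorial n i
    rw [Nat.ascFactorial_eq_prod_range] at hc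
    have h5 := congrArg (Nat.cast : ℕ → K) hc
    push_cast at h5
    rw [h5, map_mul]
    exact mul_le_of_le_one_right (v.nonneg _) (v_nat_le hv c)
  rw [← sub_add_cancel (∏ l ∈ range i, (A + l)) (∏ l ∈ range i, ((n : K) + l))]
  exact (hv _ _).trans (max_le (h3.trans h2) h4)

theorem bez_HsF1 {p : ℕ} (hp : p.Prime) {d : ℤ} (hd : ¬(p : ℤ) ∣ d) :
    ∃ u w : ℤ, (u : K) * p + w * d = 1 := by
  obtain ⟨u, w, h⟩ := (Nat.prime_iff_prime_int.1 hp).coprime_iff_not_dvd.2 hd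
  exact ⟨u, w, by exact_mod_cast congrArg (Int.cast : ℤ → K) h⟩

theorem step_HsF1 (hv : IsNonarchimedean v) {p : ℕ} (hp : p.Prime) (hvp : v p < 1) (f : ℤ[X])
    {A : K} (h0 : aeval A f = 0) (hA : v A ≤ 1) (h1 : v (aeval A (derivative f)) = 1)
    {z : ℤ} (hz : v (A - z) < 1) :
    ∃ y : ℤ, v (A - y) ≤ max (v p) (v (A - z)) * v (A - z) := by
  have ev : ∀ g : ℤ[X], aeval (z : K) g = ((eval z g : ℤ) : K) := fun g => by
    have := aeval_algebraMap_apply_eq_algebraMap_eval (A := K) z g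
    simpa using this
  have hd : ¬(p : ℤ) ∣ eval z (derivative f) := by
    rintro ⟨c, hc⟩
    have h2 := (lip_HsF1 hv (derivative f) hA (v_int_le hv z)).trans_lt hz
    have h3 : v (aeval (z : K) (derivative f)) < 1 := by
      rw [ev, hc, Int.cast_mul, mul_comm, Int.cast_natCast]
      exact (v_mul_le_HsF1 hv _ _).trans_lt hvp
    have h4 := hv (aeval A (derivative f) - aeval (z : K) (derivative f))
      (aeval (z : K) (derivative f))
    rw [sub_add_cancel, h1] at h4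
    exact absurd (max_lt h2 h3) (not_lt.2 h4)
  obtain ⟨u, w, huw⟩ := bez_HsF1 (K := K) hp hd
  obtain ⟨k, hk, ht⟩ := taylor_HsF1 hv f hA (v_int_le hv z)
  rw [h0, ev, ev] at ht
  refine ⟨z - w * eval z f, ?_⟩
  have e : A - ((z - w * eval z f : ℤ) : K) = (u * p - w * (k * (A - z))) * (A - z) := by
    push_cast
    linear_combination (-(w : K)) * ht - (A - z) * huw
  rw [e, map_mul]
  refine mul_le_mul_of_nonneg_right ((v_sub_le hv _ _).trans
    (max_le_max (v_mul_le_HsF1 hv _ _) ((v_mul_le_HsF1 hv _ _).trans ?_))) (v.nonneg _)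
  rw [map_mul]
  exact mul_le_of_le_one_left (v.nonneg _) hk

theorem apx_hensel (hv : IsNonarchimedean v) {p : ℕ} (hp : p.Prime) (hvp : v p < 1) (f : ℤ[X])
    {A : K} (h0 : aeval A f = 0) (hA : v A ≤ 1) (h1 : v (aeval A (derivative f)) = 1)
    (hz : ∃ z : ℤ, v (A - z) < 1) : Apx v A := by
  obtain ⟨z, hz⟩ := hz
  obtain ⟨c, hc⟩ : ∃ c, c = max (v p) (v (A - z)) := ⟨_, rfl⟩
  have c1 : c < 1 := hc ▸ max_lt hvp hz
  have c2 : v p ≤ c := hc ▸ le_max_left _ _
  have c0 : 0 ≤ c := (v.nonneg _).trans c2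
  have key : ∀ n : ℕ, ∃ y : ℤ, v (A - y) ≤ c ^ (n + 1) := by
    intro n
    induction n with
    | zero => exact ⟨z, by rw [zero_add, pow_one, hc]; exact le_max_right _ _⟩
    | succ n ih =>
      obtain ⟨y, hy⟩ := ih
      have h2 : v (A - y) ≤ c := hy.trans (pow_le_of_le_one c0 c1.le (Nat.succ_ne_zero n))
      obtain ⟨y', hy'⟩ := step_HsF1 hv hp hvp f h0 hA h1 (h2.trans_lt c1)
      refine ⟨y', hy'.trans ?_⟩
      rw [pow_succ' c (n + 1)]
      exact mul_le_mul (max_le c2 h2) hy (v.nonneg _) c0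
  intro ε hε
  obtain ⟨n, hn⟩ := exists_pow_lt_of_lt_one hε c1
  obtain ⟨y, hy⟩ := key n
  exact ⟨y, (hy.trans (pow_le_pow_of_le_one c0 c1.le (Nat.le_succ n))).trans_lt hn⟩

theorem apx_rat (hv : IsNonarchimedean v) {p : ℕ} (hp : p.Prime) (hvp : v p < 1) {a : ℕ}
    (ha : ¬p ∣ a) (z : ℤ) : Apx v ((z : K) / a) := by
  obtain ⟨u, w, huw⟩ := bez_HsF1 (K := K) hp (d := a) (by exact_mod_cast ha)
  rw [Int.cast_natCast] at huw
  have h1 : v (a : K) = 1 := by
    refine le_antisymm (v_nat_le hv a) (not_lt.1 fun h => ?_)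
    have h2 := hv ((u : K) * p) (w * a)
    rw [huw, map_one] at h2
    exact absurd (max_lt ((v_mul_le_HsF1 hv _ _).trans_lt hvp)
      ((v_mul_le_HsF1 hv _ _).trans_lt h)) (not_lt.2 h2)
  have h0 : (a : K) ≠ 0 := fun h => by simp [h] at h1
  refine apx_hensel hv hp hvp (C (a : ℤ) * X - C z) ?_ ?_ ?_ ⟨w * z, ?_⟩
  · rw [map_sub, map_mul, aeval_C, aeval_C, aeval_X, eq_intCast, eq_intCast, Int.cast_natCast,
      mul_div_cancel₀ _ h0, sub_self]
  · rw [map_div₀, h1, div_one]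
    exact v_int_le hv z
  · simpa using h1
  · have e : (z : K) / a - ((w * z : ℤ) : K) = ((z * u : ℤ) : K) * p / a := by
      push_cast
      field_simp
      linear_combination (-(z : K)) * huw
    rw [e, map_div₀, h1, div_one]
    exact (v_mul_le_HsF1 hv _ _).trans_lt hvp

end

theorem apx_place {K : Type} [Field K] [NumberField K] (A : K) :
    ∃ B : ℕ, ∀ v : FinitePlace K, B < pv v →
      v A ≤ 1 ∧ ((∃ z : ℤ, v (A - z) < 1) → Apx v.1 A) := by
  obtain ⟨b, hb, hf⟩ := IsLocalization.integerNormalization_spec (nonZeroDivisors ℤ) (minpoly ℚ A)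
  generalize IsLocalization.integerNormalization (nonZeroDivisors ℤ) (minpoly ℚ A) = f at hf
  have hb0 : (b : K) ≠ 0 := by exact_mod_cast nonZeroDivisors.ne_zero hb
  have h0 : aeval A f = 0 := by
    rw [← aeval_map_algebraMap ℚ, hf, zsmul_eq_mul, map_mul, minpoly.aeval, mul_zero]
  have h1 : aeval A (derivative f) ≠ 0 := by
    rw [← aeval_map_algebraMap ℚ, ← derivative_map, hf, map_zsmul, zsmul_eq_mul, map_mul,
      map_intCast]
    exact mul_ne_zero hb0
      ((Algebra.IsSeparable.isSeparable ℚ A).aeval_derivative_ne_zero (minpoly.aeval ℚ A))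
  obtain ⟨B1, hB1⟩ := big_unit h1
  obtain ⟨B2, hB2⟩ : ∃ B : ℕ, ∀ v : FinitePlace K, B < pv v → v A ≤ 1 := by
    rcases eq_or_ne A 0 with rfl | hA
    · exact ⟨0, fun v _ => by simp⟩
    · obtain ⟨B, hB⟩ := big_unit hA
      exact ⟨B, fun v h => (hB v h).le⟩
  refine ⟨max B1 B2, fun v h => ?_⟩
  have h2 := hB2 v ((le_max_right _ _).trans_lt h)
  exact ⟨h2, fun hz => apx_hensel (fin_na v) (pv_prime v) (v_pv_lt v) f h0 h2
    (hB1 v ((le_max_left _ _).trans_lt h)) hz⟩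

end Pool.Agent.P.MP_68214b_ag
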