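import Pool.Agent.P.MP_68214b_ag.HsF1
import Pool.Agent.P.MP_68214b_ag.HsA1
import Pool.Agent.P.MP_68214b_ag.HsE1

open Polynomial Finset Matrix NumberField

namespace Pool.Agent.P.MP_68214b_ag

variable {K : Type} [Field K] [CharZero K] {v : AbsoluteValue K ℝ}

/-- series with integral coefficients -/
def IntS_HsF2 (v : AbsoluteValue K ℝ) (f : PowerSeries K) : Prop :=
  ∀ n, v (PowerSeries.coeff n f) ≤ 1

omit [CharZero K] in
theorem intS_mul_HsF2 (hv : IsNonarchimedean v) {f g : PowerSeries K} (hf : IntS_HsF2 v f)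
    (hg : IntS_HsF2 v g) : IntS_HsF2 v (f * g) := fun n => by
  rw [PowerSeries.coeff_mul]
  exact sum_mem (S := intR hv) fun x _ => mul_mem (hf x.1) (hg x.2)

omit [CharZero K] in
theorem intS_lin_HsF2 {a b : K} (ha : v a ≤ 1) (hb : v b ≤ 1) :
    IntS_HsF2 v (PowerSeries.C a + PowerSeries.X * PowerSeries.C b) := fun n => by
  rcases n with _ | _ | n
  · simpa using ha
  · simpa [PowerSeries.coeff_succ_X_mul, PowerSeries.coeff_C] using hb
  · simp [PowerSeries.coeff_X]

omit [CharZero K] in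
theorem intS_cancel_HsF2 (hv : IsNonarchimedean v) {f g : PowerSeries K} (hf : IntS_HsF2 v f)
    (h1 : PowerSeries.coeff 0 f = 1) (hfg : IntS_HsF2 v (f * g)) : IntS_HsF2 v g := fun n => by
  induction n using Nat.strong_induction_on with
  | _ n ih =>
    have h := hfg n
    rcases n with _ | n
    · simpa [PowerSeries.coeff_mul, h1] using h
    · rw [PowerSeries.coeff_mul, Finset.Nat.antidiagonal_succ, sum_cons, sum_map, h1, one_mul] at h
      have h2 : ∑ x ∈ antidiagonal n, PowerSeries.coeff (x.1 + 1) f * PowerSeries.coeff x.2 g ∈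
          intR hv :=
        sum_mem fun x hx => mul_mem (hf _) (ih _ (by have := mem_antidiagonal.1 hx; omega))
      have h3 := sub_mem (show _ ∈ intR hv from h) h2
      exact (by simpa using h3 : PowerSeries.coeff (n + 1) g ∈ intR hv)

omit [CharZero K] in
theorem coeff_Xd_HsF2 (f : PowerSeries K) (n : ℕ) :
    PowerSeries.coeff n (PowerSeries.X * PowerSeries.derivative K f) =
      n * PowerSeries.coeff n f := by
  rcases n with _ | n
  · simp
  · rw [PowerSeries.coeff_succ_X_mul, PowerSeries.coeff_derivative]; push_cast; ring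

/-- the binomial series -/
noncomputable def ys_HsF2 (A t : K) : PowerSeries K :=
  PowerSeries.mk fun i => (∏ l ∈ range i, (A + l)) * t ^ i / i.factorial

theorem ys_ode_HsF2 (A t : K) : PowerSeries.derivative K (ys_HsF2 A t) =
    PowerSeries.C t * (PowerSeries.X * PowerSeries.derivative K (ys_HsF2 A t)) +
      PowerSeries.C (A * t) * ys_HsF2 A t := by
  ext n
  rw [map_add, PowerSeries.coeff_C_mul, PowerSeries.coeff_C_mul, coeff_Xd_HsF2,
    PowerSeries.coeff_derivative]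
  simp only [ys_HsF2, PowerSeries.coeff_mk, prod_range_succ, Nat.factorial_succ]
  have h1 : (n.factorial : K) ≠ 0 := by exact_mod_cast n.factorial_ne_zero
  have h2 : ((n : K) + 1) ≠ 0 := by exact_mod_cast n.succ_ne_zero
  push_cast
  field_simp
  ring

theorem ys_int_HsF2 (hv : IsNonarchimedean v) {A t : K} (hA : Apx v A) (ht : v t ≤ 1) :
    IntS_HsF2 v (ys_HsF2 A t) := fun n => by
  have h1 : (n.factorial : K) ≠ 0 := by exact_mod_cast n.factorial_ne_zero
  have h2 : 0 < v (n.factorial : K) := v.pos h1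
  simp only [ys_HsF2, PowerSeries.coeff_mk, map_div₀, map_mul, map_pow]
  rw [div_le_one h2]
  exact (mul_le_of_le_one_right (v.nonneg _) (pow_le_one₀ (v.nonneg _) ht)).trans (hA.poch hv n)

theorem core_HsF2 (hv : IsNonarchimedean v) {t1 t2 A A2 xi c0 c1 : K} (ht1 : v t1 ≤ 1)
    (ht2 : v t2 ≤ 1) (hA : Apx v A) (hA2 : Apx v A2) (hc0 : v c0 ≤ 1) (hc1 : v c1 ≤ 1)
    {β : ℕ → K} (h0 : xi * β 0 = c0)
    (h1 : (1 + xi) * β 1 = ((t1 + t2) * xi + (A * t1 + A2 * t2)) * β 0 + c1)
    (h2 : ∀ i : ℕ, (i + 2 + xi) * β (i + 2) =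
      ((t1 + t2) * (i + 1 + xi) + (A * t1 + A2 * t2)) * β (i + 1) -
        t1 * t2 * (i + xi + (A + A2)) * β i)
    {i : ℕ} {M : ℝ} (hM : 0 ≤ M) (hj : ∀ j : ℕ, j ≤ i → M ≤ v (j + xi)) : v (β i) * M ≤ 1 := by
  set B : PowerSeries K := PowerSeries.mk β with hB
  have hth : ∀ (f : PowerSeries K) (n : ℕ), PowerSeries.coeff n
      (PowerSeries.X * PowerSeries.derivative K f + PowerSeries.C xi * f) =
        (n + xi) * PowerSeries.coeff n f := fun f n => by
    rw [map_add, coeff_Xd_HsF2, PowerSeries.coeff_C_mul]; ring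
  set TB := PowerSeries.X * PowerSeries.derivative K B + PowerSeries.C xi * B with hTB
  have hode : TB = PowerSeries.C c0 + PowerSeries.X * PowerSeries.C c1 +
      PowerSeries.X * (PowerSeries.C (t1 + t2) * TB + PowerSeries.C (A * t1 + A2 * t2) * B) -
      PowerSeries.X * (PowerSeries.X * (PowerSeries.C (t1 * t2) * TB +
        PowerSeries.C (t1 * t2 * (A + A2)) * B)) := by
    have hc : ∀ n : ℕ, PowerSeries.coeff n TB = (n + xi) * β n := fun n => by
      rw [hTB, hth, hB, PowerSeries.coeff_mk]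
    have hb : ∀ n : ℕ, PowerSeries.coeff n B = β n := fun n => by rw [hB, PowerSeries.coeff_mk]
    clear_value TB B
    ext n
    rcases n with _ | _ | n
    · rw [hc]; simp [h0]
    · simp only [map_sub, map_add (PowerSeries.coeff _), PowerSeries.coeff_succ_X_mul,
        PowerSeries.coeff_C_mul, hc, hb, PowerSeries.coeff_zero_X_mul, PowerSeries.coeff_C]
      simp only [Nat.cast_zero, Nat.cast_add, Nat.cast_one, if_true, add_eq_zero, one_ne_zero,
        and_false, if_false]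
      linear_combination h1
    · simp only [map_sub, map_add (PowerSeries.coeff _), PowerSeries.coeff_succ_X_mul,
        PowerSeries.coeff_C_mul, hc, hb, PowerSeries.coeff_C]
      simp only [Nat.cast_add, Nat.cast_one, add_eq_zero, one_ne_zero, and_false, if_false]
      linear_combination h2 n
  set y1 := ys_HsF2 A t1
  set y2 := ys_HsF2 A2 t2
  have o1 : PowerSeries.derivative K y1 = _ := ys_ode_HsF2 A t1
  have o2 : PowerSeries.derivative K y2 = _ := ys_ode_HsF2 A2 t2
  have c1' : PowerSeries.coeff 0 y1 = 1 := by simp [y1, ys_HsF2]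
  have c2' : PowerSeries.coeff 0 y2 = 1 := by simp [y2, ys_HsF2]
  have cy : PowerSeries.constantCoeff (y1 * y2) ≠ 0 := by
    rw [map_mul, ← PowerSeries.coeff_zero_eq_constantCoeff_apply,
      ← PowerSeries.coeff_zero_eq_constantCoeff_apply, c1', c2']
    simp
  obtain ⟨Z, hZ⟩ : ∃ Z, B = y1 * y2 * Z :=
    ⟨(y1 * y2)⁻¹ * B, by rw [← mul_assoc, PowerSeries.mul_inv_cancel _ cy, one_mul]⟩
  set TZ := PowerSeries.X * PowerSeries.derivative K Z + PowerSeries.C xi * Z with hTZ
  have hy : IntS_HsF2 v (y1 * y2) :=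
    intS_mul_HsF2 hv (ys_int_HsF2 hv hA ht1) (ys_int_HsF2 hv hA2 ht2)
  have key : (PowerSeries.C 1 + PowerSeries.X * PowerSeries.C (-t1)) *
      (PowerSeries.C 1 + PowerSeries.X * PowerSeries.C (-t2)) * (y1 * y2) * TZ =
        PowerSeries.C c0 + PowerSeries.X * PowerSeries.C c1 := by
    have hd : PowerSeries.derivative K B = y1 * y2 * PowerSeries.derivative K Z +
        Z * (y1 * PowerSeries.derivative K y2 + y2 * PowerSeries.derivative K y1) := by
      rw [hZ]; simp only [Derivation.leibniz, smul_eq_mul]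
    rw [hTB, hd, hZ] at hode
    simp only [map_mul, map_add, map_neg, map_one] at hode o1 o2 ⊢
    rw [hTZ]
    linear_combination hode -
      PowerSeries.X * Z * y2 * (1 - PowerSeries.X * PowerSeries.C t2) * o1 -
      PowerSeries.X * Z * y1 * (1 - PowerSeries.X * PowerSeries.C t1) * o2
  have hP : IntS_HsF2 v ((PowerSeries.C 1 + PowerSeries.X * PowerSeries.C (-t1)) *
      (PowerSeries.C 1 + PowerSeries.X * PowerSeries.C (-t2)) * (y1 * y2)) :=
    intS_mul_HsF2 hv (intS_mul_HsF2 hv (intS_lin_HsF2 (by simp) (by simpa using ht1))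
      (intS_lin_HsF2 (by simp) (by simpa using ht2))) hy
  have hN : IntS_HsF2 v TZ := intS_cancel_HsF2 hv hP (by
    rw [PowerSeries.coeff_zero_eq_constantCoeff_apply] at c1' c2' ⊢
    simp [c1', c2']) (key ▸ intS_lin_HsF2 hc0 hc1)
  have hZb : ∀ j, j ≤ i → v (PowerSeries.coeff j Z) * M ≤ 1 := fun j hji => by
    have := hN j
    rw [hTZ, hth, map_mul, mul_comm] at this
    exact (mul_le_mul_of_nonneg_left (hj j hji) (v.nonneg _)).trans this
  have hβ : β i = ∑ x ∈ antidiagonal i,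
      PowerSeries.coeff x.1 (y1 * y2) * PowerSeries.coeff x.2 Z := by
    rw [← PowerSeries.coeff_mul, ← hZ, hB, PowerSeries.coeff_mk]
  obtain ⟨x, hx, hle⟩ := hv.finset_image_add (by simp) v.nonneg (fun x : ℕ × ℕ =>
    PowerSeries.coeff x.1 (y1 * y2) * PowerSeries.coeff x.2 Z) (antidiagonal i)
  have hx' := mem_antidiagonal.1 (hx ⟨(0, i), by simp⟩)
  rw [hβ]
  refine (mul_le_mul_of_nonneg_right hle hM).trans ?_
  rw [map_mul, mul_assoc]
  exact mul_le_one₀ (hy _) (mul_nonneg (v.nonneg _) hM) (hZb _ (by omega))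

theorem neu_seq (hv : IsNonarchimedean v) {p : ℕ} (hp : p.Prime)
    (hvn : ∀ n : ℕ, n ≠ 0 → v n = v p ^ padicValNat p n) (hvp : v p < 1) (D : Par K 2)
    (pos : D.Pos) (ha : ¬p ∣ D.a) {t1 t2 A : K} (h1 : D.al = t1 + t2)
    (h2 : D.ga * (D.a : K) ^ 2 = -(t1 * t2)) (ht1 : v t1 ≤ 1) (ht2 : v t2 ≤ 1)
    (hth : D.a * (A * (t1 - t2)) = D.a * D.be - D.al * D.b 0 - ((D.b 1 : K) - D.b 0 + D.a) * t2)
    (hA : Apx v A) {u : ℕ → K} (hu : ∀ n : ℕ, u (n + 2) = D.p n * u (n + 1) + D.q n * u n)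
    (u0 : v (u 0) ≤ 1) (u1 : v (u 1) ≤ 1) {i X : ℕ} (hX : D.a * i + D.b 0 ≤ X) :
    v (u (i + 1)) * v p ^ Nat.log p X ≤ v (i.factorial) := by
  have ha0 : (D.a : K) ≠ 0 := by exact_mod_cast pos.1.ne'
  have hva : v (D.a : K) = 1 := by
    rw [hvn _ pos.1.ne', padicValNat.eq_zero_of_not_dvd ha, pow_zero]
  obtain ⟨xi, hxi⟩ : ∃ xi : K, (D.b 0 : K) = D.a * xi := ⟨D.b 0 / D.a, by field_simp⟩
  obtain ⟨et, het⟩ : ∃ et : K, (D.b 1 : K) = D.a * et := ⟨D.b 1 / D.a, by field_simp⟩
  have vxi : v xi ≤ 1 := by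
    have := v_nat_le hv (D.b 0); rwa [hxi, map_mul, hva, one_mul] at this
  have vet : v et ≤ 1 := by
    have := v_nat_le hv (D.b 1); rwa [het, map_mul, hva, one_mul] at this
  have hA2 : Apx v (et - xi + 1 - A) := by
    have h := (apx_rat (v := v) hv hp hvp ha ((D.b 1 : ℤ) - D.b 0 + D.a)).sub hv hA
    have e : (((D.b 1 : ℤ) - D.b 0 + D.a : ℤ) : K) / D.a = et - xi + 1 := by
      push_cast; rw [hxi, het]; field_simp
    rwa [e] at h
  have hbe : D.be = (t1 + t2) * xi + (A * t1 + (et - xi + 1 - A) * t2) := by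
    rw [hxi, het, h1] at hth
    apply mul_left_cancel₀ ha0
    linear_combination -hth
  have hpp : ∀ x : K, D.p x = (t1 + t2) * (x + xi) + (A * t1 + (et - xi + 1 - A) * t2) :=
    fun x => by rw [Par.p, h1, hbe]; ring
  have hqq : ∀ x : K, D.q x = -(t1 * t2) * (x + xi) * (x + et) := fun x => by
    rw [Par.q, Fin.prod_univ_two, hxi, het, ← h2]; ring
  have hnat : ∀ j : ℕ, (j : K) + xi = ((D.a * j + D.b 0 : ℕ) : K) / D.a := fun j => by
    push_cast; rw [hxi]; field_simp
  have hb0 := pos.2 0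
  have hne : ∀ j : ℕ, (j : K) + xi ≠ 0 := fun j => by
    rw [hnat]; exact div_ne_zero (by exact_mod_cast (by omega : D.a * j + D.b 0 ≠ 0)) ha0
  have hvj : ∀ j : ℕ, v ((j : K) + xi) = v ((D.a * j + D.b 0 : ℕ) : K) := fun j => by
    rw [hnat, map_div₀, hva, div_one]
  set π : ℕ → K := fun i => ∏ l ∈ range i, (((1 + l : ℕ) : K) + xi) with hπ
  have hπs : ∀ i, π (i + 1) = π i * (i + 1 + xi) := fun i => by
    simp only [hπ, prod_range_succ]; push_cast; ring
  have hπ0 : ∀ i, π i ≠ 0 := fun i => prod_ne_zero_iff.2 fun l _ => hne _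
  have hne1 : ∀ j : ℕ, (j : K) + 1 + xi ≠ 0 := fun j => by simpa using hne (j + 1)
  have vp0 : 0 ≤ v (p : K) := v.nonneg _
  have core := core_HsF2 (β := fun i => u (i + 1) / π i) (xi := xi) (c0 := xi * u 1)
    (c1 := -(t1 * t2) * xi * et * u 0) hv ht1 ht2 hA hA2
    (by rw [map_mul]; exact mul_le_one₀ vxi (v.nonneg _) u1)
    (mul_mem (S := Subring K) (s := intR hv)
      (mul_mem (mul_mem (neg_mem (mul_mem ht1 ht2)) vxi) vet) u0)
    (by simp [hπ])
    (by
      have e := hu 0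
      have e1 := hπs 0
      have e0 : π 0 = 1 := by simp [hπ]
      have n1 := hne1 0
      simp only [Nat.cast_zero, zero_add, hpp, hqq] at e e1 n1 ⊢
      rw [e1, e0, one_mul, div_one, mul_div_cancel₀ _ n1, e])
    (fun i => by
      have e := hu (i + 1)
      have n0 := hπ0 i
      have n1 := hne1 i
      have n2 : (i : K) + 2 + xi ≠ 0 := by
        have := hne1 (i + 1); push_cast at this; rwa [add_assoc (i : K), one_add_one_eq_two] at this
      have e2 : π (i + 2) = π i * (i + 1 + xi) * (i + 2 + xi) := by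
        rw [hπs, hπs]; push_cast; ring
      rw [hpp, hqq] at e
      rw [e2, hπs, e]
      push_cast
      field_simp
      ring)
    (i := i) (M := v p ^ Nat.log p X) (pow_nonneg vp0 _) (fun j hj => by
      rw [hvj, hvn (D.a * j + D.b 0) (by omega)]
      refine pow_le_pow_of_le_one vp0 hvp.le ((padicValNat_le_nat_log _).trans ?_)
      exact Nat.log_mono_right ((Nat.add_le_add_right (Nat.mul_le_mul_left _ hj) _).trans hX))
  have hvπ : v (π i) ≤ v (i.factorial) := by
    have e : v (π i) = v ((∏ l ∈ range i, (D.a * (1 + l) + D.b 0) : ℕ) : K) := by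
      rw [Nat.cast_prod, map_prod, map_prod]
      exact prod_congr rfl fun l _ => hvj _
    rw [e, hvn _ (prod_ne_zero_iff.2 fun l _ => by omega), hvn _ i.factorial_ne_zero]
    exact pow_le_pow_of_le_one vp0 hvp.le (win_lower hp ha hb0 1 i)
  have e : v (u (i + 1)) = v (π i) * v (u (i + 1) / π i) := by
    rw [← map_mul, mul_div_cancel₀ _ (hπ0 i)]
  rw [e, mul_assoc]
  exact (mul_le_of_le_one_right (v.nonneg _) core).trans hvπ

theorem neu_W (hv : IsNonarchimedean v) {p : ℕ} (hp : p.Prime)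
    (hvn : ∀ n : ℕ, n ≠ 0 → v n = v p ^ padicValNat p n) (hvp : v p < 1) (D : Par K 2)
    (pos : D.Pos) (ha : ¬p ∣ D.a) {t1 t2 A : K} (h1 : D.al = t1 + t2)
    (h2 : D.ga * (D.a : K) ^ 2 = -(t1 * t2)) (ht1 : v t1 ≤ 1) (ht2 : v t2 ≤ 1)
    (hth : D.a * (A * (t1 - t2)) = D.a * D.be - D.al * D.b 0 - ((D.b 1 : K) - D.b 0 + D.a) * t2)
    (hA : Apx v A) {j X : ℕ} (hX : D.a * j + D.b 0 ≤ X) (r s : Fin 2) :
    v (D.W 0 j r s) * v p ^ (2 * Nat.log p X) ≤ v (j.factorial) := by
  obtain ⟨u, hu, hW⟩ := W_seq D 0 s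
  simp only [zero_add] at hu
  have vp0 : 0 ≤ v (p : K) := v.nonneg _
  have hone : ∀ r : Fin 2, v (D.W 0 0 r s) ≤ 1 := fun r => by
    rw [Par.W_zero, Matrix.one_apply]; split_ifs <;> simp
  have u0 : v (u 0) ≤ 1 := (hW 0).2 ▸ hone 1
  have u1 : v (u 1) ≤ 1 := (hW 0).1 ▸ hone 0
  have hL : v (p : K) ^ Nat.log p X ≤ 1 := pow_le_one₀ vp0 hvp.le
  have hL0 : 0 ≤ v (p : K) ^ Nat.log p X := pow_nonneg vp0 _
  rw [two_mul, pow_add, ← mul_assoc]
  have hr : r = 0 ∨ r = 1 := by omega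
  rcases hr with rfl | rfl
  · rw [(hW j).1]
    exact (mul_le_of_le_one_right (mul_nonneg (v.nonneg _) hL0) hL).trans
      (neu_seq hv hp hvn hvp D pos ha h1 h2 ht1 ht2 hth hA hu u0 u1 hX)
  · rw [(hW j).2]
    rcases j with _ | j
    · simp only [Nat.factorial_zero, Nat.cast_one, map_one]
      exact mul_le_one₀ (mul_le_one₀ u0 hL0 hL) hL0 hL
    · have hX' : D.a * j + D.b 0 ≤ X :=
        (Nat.add_le_add_right (Nat.mul_le_mul_left _ j.le_succ) _).trans hX
      have h := neu_seq hv hp hvn hvp D pos ha h1 h2 ht1 ht2 hth hA hu u0 u1 hX'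
      have hj : v (p : K) ^ Nat.log p X ≤ v ((j + 1 : ℕ) : K) := by
        rw [hvn _ j.succ_ne_zero]
        refine pow_le_pow_of_le_one vp0 hvp.le ((padicValNat_le_nat_log _).trans ?_)
        refine Nat.log_mono_right (le_trans ?_ hX)
        exact (Nat.le_mul_of_pos_left _ pos.1).trans (Nat.le_add_right _ _)
      rw [Nat.factorial_succ, Nat.cast_mul, map_mul, mul_comm (v ((j + 1 : ℕ) : K))]
      exact mul_le_mul h hj hL0 (v.nonneg _)

end Pool.Agent.P.MP_68214b_ag
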