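import Pool.Agent.P.MP_68214b_ag.HsB1
import Pool.Agent.P.MP_68214b_ag.HsG0

open Polynomial Finset Matrix NumberField

namespace Pool.Agent.P.MP_68214b_ag

/-- a root of the minimal polynomial in another domain comes from a prime ideal -/
theorem prime_of_root_HsG1 {K : Type} [Field K] [NumberField K] (a : 𝓞 K) {F : Type} [Field F]
    {r : F} (hr : aeval r (minpoly ℤ a) = 0) :
    ∃ Q : Ideal (𝓞 K), Q.IsPrime ∧ ∀ g : ℤ[X], aeval a g ∈ Q ↔ aeval r g = 0 := by
  have hint : IsIntegral ℤ a := Algebra.IsIntegral.isIntegral a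
  let : Algebra ℤ[X] (𝓞 K) := (aeval a : ℤ[X] →ₐ[ℤ] 𝓞 K).toRingHom.toAlgebra
  have : IsScalarTower ℤ ℤ[X] (𝓞 K) :=
    IsScalarTower.of_algebraMap_eq' (Subsingleton.elim _ _)
  have : Algebra.IsIntegral ℤ[X] (𝓞 K) :=
    ⟨fun x => (Algebra.IsIntegral.isIntegral (R := ℤ) x).tower_top⟩
  have : (RingHom.ker (aeval r : ℤ[X] →ₐ[ℤ] F).toRingHom).IsPrime := RingHom.ker_isPrime _
  obtain ⟨Q, -, hQ, hQ'⟩ := Ideal.exists_ideal_over_prime_of_isIntegral
    (RingHom.ker (aeval r : ℤ[X] →ₐ[ℤ] F).toRingHom) (⊥ : Ideal (𝓞 K)) (by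
      intro g hg
      have hg' : aeval a g = 0 := hg
      obtain ⟨h, rfl⟩ := minpoly.isIntegrallyClosed_dvd hint hg'
      change aeval r (minpoly ℤ a * h) = 0
      rw [map_mul, hr, zero_mul])
  refine ⟨Q, hQ, fun g => ?_⟩
  have : g ∈ Q.comap (algebraMap ℤ[X] (𝓞 K)) ↔
      g ∈ RingHom.ker (aeval r : ℤ[X] →ₐ[ℤ] F).toRingHom := by rw [hQ']
  exact this

/-- a polynomial of degree at least two with simple roots has two roots -/
theorem two_roots_HsG1 {F : Type} [Field F] [IsAlgClosed F] {f : F[X]} (h2 : 2 ≤ f.natDegree)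
    (hs : ∀ r, f.eval r = 0 → f.derivative.eval r ≠ 0) :
    ∃ r s, r ≠ s ∧ f.eval r = 0 ∧ f.eval s = 0 := by
  have h0 : f.degree ≠ 0 := fun h => by
    have := natDegree_eq_zero_iff_degree_le_zero.2 h.le
    omega
  obtain ⟨r, hr⟩ := IsAlgClosed.exists_root f h0
  obtain ⟨h, hh⟩ := dvd_iff_isRoot.2 hr
  have hf0 : f ≠ 0 := by rintro rfl; simp at h2
  have hh0 : h ≠ 0 := by rintro rfl; exact hf0 (by simpa using hh)
  have hd : f.natDegree = 1 + h.natDegree := by
    rw [hh, natDegree_mul (X_sub_C_ne_zero r) hh0, natDegree_X_sub_C]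
  have h1 : h.degree ≠ 0 := fun h' => by
    have := natDegree_eq_zero_iff_degree_le_zero.2 h'.le
    omega
  obtain ⟨s, hs'⟩ := IsAlgClosed.exists_root h h1
  have hs0 : h.eval s = 0 := hs'
  refine ⟨r, s, fun e => hs r hr ?_, hr, by rw [hh, eval_mul, hs0, mul_zero]⟩
  subst e
  rw [hh, derivative_mul]
  simp [hs0]

theorem closure_poly_HsG1 {K : Type} [Field K] {x y : K} (hy : y ∈ Subring.closure {x}) :
    ∃ g : ℤ[X], aeval x g = y := by
  induction hy using Subring.closure_induction with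
  | mem y hy => exact ⟨X, by rw [aeval_X]; exact hy.symm⟩
  | zero => exact ⟨0, map_zero _⟩
  | one => exact ⟨1, map_one _⟩
  | add x y _ _ hx hy =>
    obtain ⟨g, rfl⟩ := hx
    obtain ⟨h, rfl⟩ := hy
    exact ⟨g + h, map_add _ _ _⟩
  | neg x _ hx =>
    obtain ⟨g, rfl⟩ := hx
    exact ⟨-g, map_neg _ _⟩
  | mul x y _ _ hx hy =>
    obtain ⟨g, rfl⟩ := hx
    obtain ⟨h, rfl⟩ := hy
    exact ⟨g * h, map_mul _ _ _⟩

theorem aeval_coe_HsG1 {K : Type} [Field K] (a : 𝓞 K) (g : ℤ[X]) :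
    algebraMap (𝓞 K) K (aeval a g) = aeval (algebraMap (𝓞 K) K a) g :=
  (aeval_algHom_apply (algebraMap (𝓞 K) K).toIntAlgHom a g).symm

/-- the ideal of the subfield below a prime at which the generator is an integer -/
theorem norm_below_HsG1 {K : Type} [Field K] [NumberField K] (a : 𝓞 K) {D p : ℕ} [Fact p.Prime]
    (hpD : ¬p ∣ D)
    (hD : ∀ x : 𝓞 (IntermediateField.adjoin ℚ {algebraMap (𝓞 K) K a}),
      (D : K) * ((x : IntermediateField.adjoin ℚ {algebraMap (𝓞 K) K a}) : K) ∈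
        Subring.closure {algebraMap (𝓞 K) K a})
    {F : Type} [Field F] [CharP F p] (φ : 𝓞 K →+* F) {z : ℤ} (hz : φ a = z) :
    Ideal.absNorm (RingHom.ker (φ.comp
      (algebraMap (𝓞 (IntermediateField.adjoin ℚ {algebraMap (𝓞 K) K a})) (𝓞 K)))) = p := by
  rw [Ideal.absNorm_apply, Submodule.cardQuot_apply]
  refine Ch.upChebA_card _ fun x => ?_
  obtain ⟨g, hg⟩ := closure_poly_HsG1 (hD x)
  have h1 : aeval a g = (D : 𝓞 K) * algebraMap _ (𝓞 K) x := by
    apply RingOfIntegers.coe_injective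
    rw [aeval_coe_HsG1, hg, map_mul, map_natCast]
    rfl
  have h2 : φ (aeval a g) = ((g.eval z : ℤ) : F) := by
    have h3 := aeval_algHom_apply φ.toIntAlgHom a g
    have h4 := aeval_algHom_apply (Int.castRingHom F).toIntAlgHom z g
    simp only [RingHom.toIntAlgHom_coe, eq_intCast, coe_aeval_eq_eval] at h3 h4
    rw [← h3, hz, h4]
  have hD0 : (D : F) ≠ 0 := fun h => hpD ((CharP.cast_eq_zero_iff F p D).1 h)
  rw [h1, map_mul, map_natCast] at h2
  refine (Subfield.mem_bot_iff_pow_eq_self F p).1 ?_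
  have h5 : φ (algebraMap _ (𝓞 K) x) = ((g.eval z : ℤ) : F) / D := by
    rw [← h2, mul_div_cancel_left₀ _ hD0]
  change φ (algebraMap _ (𝓞 K) x) ∈ _
  rw [h5]
  exact div_mem (intCast_mem _ _) (natCast_mem _ _)

theorem two_le_nI {K : Type} [Field K] [NumberField K] {A : K} (hA : ∀ q : ℚ, A ≠ q) :
    ∃ (E : Type) (_ : Field E) (_ : NumberField E) (B : ℕ), ∀ p : ℕ, p.Prime → B < p →
      (∀ v : FinitePlace K, pv v = p → ∃ z : ℤ, v (A - z) < 1) → 2 ≤ Ch.nI E p := by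
  have hal : IsAlgebraic ℤ A :=
    (IsFractionRing.isAlgebraic_iff ℤ ℚ K).2 (Algebra.IsAlgebraic.isAlgebraic A)
  obtain ⟨c, hc0, hc⟩ := hal.exists_integral_multiple
  let a : 𝓞 K := ⟨c • A, hc⟩
  have ha : algebraMap (𝓞 K) K a = c * A := zsmul_eq_mul A c
  have hint : IsIntegral ℤ a := Algebra.IsIntegral.isIntegral a
  have hcK : (c : K) ≠ 0 := Int.cast_ne_zero.2 hc0
  have h2 : 2 ≤ (minpoly ℤ a).natDegree := by
    rw [minpoly.two_le_natDegree_iff hint]
    rintro ⟨n, hn⟩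
    apply hA ((n : ℚ) / c)
    have := congrArg (algebraMap (𝓞 K) K) hn
    rw [ha, eq_intCast, map_intCast] at this
    push_cast
    rw [this, mul_div_cancel_left₀ _ hcK]
  have hder : aeval a (derivative (minpoly ℤ a)) ≠ 0 := by
    intro h
    have h0 : derivative (minpoly ℤ a) ≠ 0 := fun h' => by
      have := derivative_eq_zero.1 h'
      omega
    have h1 := natDegree_le_of_dvd (minpoly.isIntegrallyClosed_dvd hint h) h0
    have h3 := natDegree_derivative_lt (p := minpoly ℤ a) (by omega)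
    omega
  obtain ⟨B, hB⟩ := big_unit (x := algebraMap (𝓞 K) K (aeval a (derivative (minpoly ℤ a))))
    (fun h => hder (RingOfIntegers.coe_injective (h.trans (map_zero _).symm)))
  obtain ⟨D, hD0, hD⟩ := Ch.upChebB_index ({algebraMap (𝓞 K) K a} : Set K)
  refine ⟨IntermediateField.adjoin ℚ {algebraMap (𝓞 K) K a}, inferInstance, inferInstance,
    max B D, fun p hp hBp hv => ?_⟩
  have : Fact p.Prime := ⟨hp⟩
  have hpD : ¬p ∣ D := fun h => by
    have := Nat.le_of_dvd (Nat.pos_of_ne_zero hD0) h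
    omega
  let aE : 𝓞 (IntermediateField.adjoin ℚ {algebraMap (𝓞 K) K a}) :=
    ⟨⟨algebraMap (𝓞 K) K a, IntermediateField.mem_adjoin_simple_self ℚ _⟩,
      (isIntegral_algHom_iff
        (algebraMap (IntermediateField.adjoin ℚ {algebraMap (𝓞 K) K a}) K).toIntAlgHom
        Subtype.val_injective).1 hc⟩
  have haE : algebraMap _ (𝓞 K) aE = a := RingOfIntegers.coe_injective rfl
  have key : ∀ r : AlgebraicClosure (ZMod p), aeval r (minpoly ℤ a) = 0 →
      aeval r (derivative (minpoly ℤ a)) ≠ 0 ∧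
      ∃ (I : Ideal (𝓞 (IntermediateField.adjoin ℚ {algebraMap (𝓞 K) K a}))) (z : ℤ),
        Ideal.absNorm I = p ∧ aE - z ∈ I ∧ ∀ w : ℤ, aE - w ∈ I → r = w := by
    intro r hr
    obtain ⟨Q, hQ, hQr⟩ := prime_of_root_HsG1 a hr
    have hpQ : (p : 𝓞 K) ∈ Q := by
      have := (hQr (p : ℤ[X])).2 (by rw [map_natCast]; exact CharP.cast_eq_zero _ p)
      rwa [map_natCast] at this
    have hQ0 : Q ≠ ⊥ := by
      rintro rfl
      exact hp.ne_zero (Nat.cast_eq_zero.1 (Ideal.mem_bot.1 hpQ))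
    have : Q.IsMaximal := hQ.isMaximal hQ0
    let : Field (𝓞 K ⧸ Q) := Ideal.Quotient.field Q
    have : CharP (𝓞 K ⧸ Q) p := by
      rw [CharP.charP_iff_prime_eq_zero hp, ← map_natCast (Ideal.Quotient.mk Q)]
      exact Ideal.Quotient.eq_zero_iff_mem.2 hpQ
    obtain ⟨v, hvp, hvQ⟩ := exists_of_hom hp (Ideal.Quotient.mk Q)
    refine ⟨fun h => ?_, ?_⟩
    · have h1 := (hvQ _).1 (Ideal.Quotient.eq_zero_iff_mem.2 ((hQr _).2 h))
      rw [hB v (by omega)] at h1
      exact lt_irrefl _ h1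
    obtain ⟨z, hz⟩ := hv v hvp
    have h1 : Ideal.Quotient.mk Q (a - (c * z : ℤ)) = 0 := by
      rw [hvQ]
      have e : algebraMap (𝓞 K) K (a - (c * z : ℤ)) = algebraMap (𝓞 K) K c * (A - z) := by
        rw [map_sub, ha, map_intCast, map_intCast]; push_cast; ring
      rw [e, map_mul]
      exact mul_lt_one_of_nonneg_of_lt_one_right (v_ring_le v _) (apply_nonneg _ _) hz
    have h3 : Ideal.Quotient.mk Q a = ((c * z : ℤ) : 𝓞 K ⧸ Q) := by
      rwa [map_sub, map_intCast, sub_eq_zero] at h1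
    refine ⟨_, c * z, norm_below_HsG1 a hpD hD (Ideal.Quotient.mk Q) h3, ?_, fun w hw => ?_⟩
    · rw [RingHom.mem_ker, RingHom.comp_apply, map_sub, haE, map_intCast]
      exact h1
    · rw [RingHom.mem_ker, RingHom.comp_apply, map_sub, haE, map_intCast,
        Ideal.Quotient.eq_zero_iff_mem] at hw
      have := (hQr (X - (w : ℤ[X]))).1 (by rwa [map_sub, aeval_X, map_intCast])
      rwa [map_sub, aeval_X, map_intCast, sub_eq_zero] at this
  obtain ⟨r, s, hrs, hr, hs⟩ := two_roots_HsG1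
    (f := (minpoly ℤ a).map (algebraMap ℤ (AlgebraicClosure (ZMod p))))
    (by rwa [(minpoly.monic hint).natDegree_map]) (fun r hr => by
      rw [derivative_map, eval_map_algebraMap]
      rw [eval_map_algebraMap] at hr
      exact (key r hr).1)
  rw [eval_map_algebraMap] at hr hs
  obtain ⟨I, z, hI, hz, hIr⟩ := (key r hr).2
  obtain ⟨J, w, hJ, -, hJs⟩ := (key s hs).2
  have hfin := (Ideal.finite_setOfPred_absNorm_eq
    (S := 𝓞 (IntermediateField.adjoin ℚ {algebraMap (𝓞 K) K a})) p).to_subtype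
  refine (@Finite.one_lt_card_iff_nontrivial _ hfin).2 ⟨⟨I, hI⟩, ⟨J, hJ⟩, fun h => hrs ?_⟩
  have e : I = J := congrArg Subtype.val h
  rw [hIr z hz, hJs z (e ▸ hz)]

end Pool.Agent.P.MP_68214b_ag
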