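import Pool.Agent.P.MP_68214b_ag.HsG1

open Polynomial Finset Matrix NumberField

namespace Pool.Agent.P.MP_68214b_ag

variable {K : Type} [Field K] [NumberField K]

theorem Div.mono {O O' : FinitePlace K → Prop} (h : Div O) (B : ℕ)
    (hB : ∀ v, B < pv v → O v → O' v) : Div O' := by
  intro B' M
  obtain ⟨T, hT, hM⟩ := h (max B B') M
  refine ⟨T, fun p hp => ?_, hM⟩
  obtain ⟨h1, v, hv, hO⟩ := hT p hp
  refine ⟨lt_of_le_of_lt (le_max_right _ _) h1, v, hv, hB v ?_ hO⟩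
  rw [hv]
  exact lt_of_le_of_lt (le_max_left _ _) h1

theorem rpow_le_HsG2 {r : ℕ} (hr : r.Prime) (j : ℕ) :
    (r : ℝ) ^ (-(1 + (2 : ℝ)⁻¹ ^ j)) ≤ 1 / r := by
  have r1 : (1 : ℝ) ≤ r := by exact_mod_cast hr.one_le
  have hx : 0 < (2 : ℝ)⁻¹ ^ j := by positivity
  have h : (r : ℝ) ^ (-(1 + (2 : ℝ)⁻¹ ^ j)) ≤ (r : ℝ) ^ (-1 : ℝ) :=
    Real.rpow_le_rpow_of_exponent_le r1 (by linarith)
  rw [Real.rpow_neg_one] at h
  rwa [one_div]

theorem lower_HsG2 (B : ℕ) : ∃ C : ℝ, ∀ j : ℕ, ∃ R : Finset ℕ, (∀ r ∈ R, r.Prime ∧ B < r) ∧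
    (j : ℝ) / 2 - C ≤ ∑ r ∈ R, (r : ℝ) ^ (-(1 + (2 : ℝ)⁻¹ ^ j)) := by
  obtain ⟨C, hC⟩ := Ch.prime_sum_lower (N := 1) (c := 1) isUnit_one B
  refine ⟨C, fun j => ?_⟩
  obtain ⟨R, hR, hS⟩ := hC j
  refine ⟨R, fun r hr => ⟨(hR r hr).1, (hR r hr).2.1⟩, ?_⟩
  simpa using hS

theorem div_all : Div fun _ : FinitePlace K => True := by
  intro B M
  obtain ⟨C, hC⟩ := lower_HsG2 B
  obtain ⟨j, hj⟩ := exists_nat_ge (2 * (M + C))
  obtain ⟨R, hR, hS⟩ := hC j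
  refine ⟨R, fun p hp => ⟨(hR p hp).2, ?_⟩, ?_⟩
  · obtain ⟨v, hv⟩ := exists_pv (K := K) (hR p hp).1
    exact ⟨v, hv, trivial⟩
  · have h1 : ∑ r ∈ R, (r : ℝ) ^ (-(1 + (2 : ℝ)⁻¹ ^ j)) ≤ ∑ p ∈ R, (1 : ℝ) / p :=
      Finset.sum_le_sum fun r hr => rpow_le_HsG2 (hR r hr).1 j
    linarith

theorem div_irr {A : K} (hA : ∀ q : ℚ, A ≠ q) :
    Div fun v : FinitePlace K => ∀ z : ℤ, 1 ≤ v (A - z) := by
  classical
  obtain ⟨E, iF, iN, B0, hE⟩ := two_le_nI hA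
  intro B M
  by_contra hn
  push Not at hn
  obtain ⟨C, hC⟩ := lower_HsG2 (max B B0)
  obtain ⟨C', hC'⟩ := Ch.prod_upper E
  have hZ : Summable fun n : ℕ => 1 / (n : ℝ) ^ 2 := Real.summable_one_div_nat_pow.2 (by norm_num)
  set Z : ℝ := ∑' n : ℕ, 1 / (n : ℝ) ^ 2 with hZd
  have key : ∀ᶠ j : ℕ in Filter.atTop,
      (Real.exp 1 / 2) ^ j ≤ C' * Real.exp (2 * (C + M) + 4 * Z) := by
    filter_upwards [hC'] with j hj
    obtain ⟨R, hR, hS⟩ := hC j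
    set G : ℕ → Prop := fun p => ∃ v : FinitePlace K, pv v = p ∧ ∀ z : ℤ, 1 ≤ v (A - z) with hG
    have hT := hn (R.filter G) fun p hp => by
      obtain ⟨h1, h2⟩ := Finset.mem_filter.1 hp
      exact ⟨lt_of_le_of_lt (le_max_left _ _) (hR p h1).2, h2⟩
    set R' : Finset ℕ := R.filter fun p => ¬ G p with hR'
    have hR1 : ∀ r ∈ R', r.Prime := fun r hr => (hR r (Finset.mem_filter.1 hr).1).1
    have hR2 : ∀ r ∈ R', 2 ≤ Ch.nI E r := by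
      intro r hr
      obtain ⟨h1, h2⟩ := Finset.mem_filter.1 hr
      refine hE r (hR r h1).1 (lt_of_le_of_lt (le_max_right _ _) (hR r h1).2) fun v hv => ?_
      by_contra h3
      push Not at h3
      exact h2 ⟨v, hv, h3⟩
    have h1 := hj R' hR1
    have hsplit := Finset.sum_filter_add_sum_filter_not R G
      (fun r : ℕ => (r : ℝ) ^ (-(1 + (2 : ℝ)⁻¹ ^ j)))
    have hT2 : ∑ r ∈ R.filter G, (r : ℝ) ^ (-(1 + (2 : ℝ)⁻¹ ^ j)) ≤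
        ∑ p ∈ R.filter G, (1 : ℝ) / p :=
      Finset.sum_le_sum fun r hr => rpow_le_HsG2 (hR r (Finset.mem_filter.1 hr).1).1 j
    have hlow : (j : ℝ) / 2 - C - M ≤ ∑ r ∈ R', (r : ℝ) ^ (-(1 + (2 : ℝ)⁻¹ ^ j)) := by
      rw [hR']
      linarith
    have hrp := fun r (hr : r ∈ R') => rpow_le_HsG2 (hR1 r hr) j
    set x : ℝ := 1 + (2 : ℝ)⁻¹ ^ j with hx
    have h2 : Real.exp (∑ r ∈ R', (2 * (r : ℝ) ^ (-x) - 4 * (1 / (r : ℝ) ^ 2))) ≤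
        ∏ r ∈ R', (1 + (Ch.nI E r : ℝ) * (r : ℝ) ^ (-x)) := by
      rw [Real.exp_sum]
      apply Finset.prod_le_prod (fun r _ => (Real.exp_pos _).le)
      intro r hr
      have t0 : 0 ≤ (r : ℝ) ^ (-x) := by positivity
      have t1 : (r : ℝ) ^ (-x) ≤ 1 / r := hrp r hr
      have t2 : ((r : ℝ) ^ (-x)) ^ 2 ≤ 1 / (r : ℝ) ^ 2 := by
        rw [← _root_.one_div_pow]; exact pow_le_pow_left₀ t0 t1 2
      have t3 : (2 : ℝ) ≤ Ch.nI E r := by exact_mod_cast hR2 r hr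
      calc _ ≤ Real.exp (2 * (r : ℝ) ^ (-x) - (2 * (r : ℝ) ^ (-x)) ^ 2) := by
            apply Real.exp_le_exp.2
            rw [mul_pow]
            nlinarith
        _ ≤ 1 + 2 * (r : ℝ) ^ (-x) := Ch.UpChebD_exp (by positivity)
        _ ≤ _ := by nlinarith [mul_le_mul_of_nonneg_right t3 t0]
    have h3 : ∑ r ∈ R', 1 / (r : ℝ) ^ 2 ≤ Z := hZ.sum_le_tsum _ fun n _ => by positivity
    have h4 : (j : ℝ) - (2 * (C + M) + 4 * Z) ≤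
        ∑ r ∈ R', (2 * (r : ℝ) ^ (-x) - 4 * (1 / (r : ℝ) ^ 2)) := by
      rw [Finset.sum_sub_distrib, ← Finset.mul_sum, ← Finset.mul_sum]
      linarith
    have h5 := (Real.exp_le_exp.2 h4).trans (h2.trans h1)
    rw [Real.exp_sub, div_le_iff₀ (Real.exp_pos _), ← Real.exp_one_pow] at h5
    rw [div_pow, div_le_iff₀ (by positivity)]
    linarith
  have h6 : 1 < Real.exp 1 / 2 := by
    rw [one_lt_div (by norm_num)]
    linarith [Real.exp_one_gt_d9]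
  obtain ⟨j, h7, h8⟩ := (key.and ((tendsto_pow_atTop_atTop_of_one_lt h6).eventually_gt_atTop
    (C' * Real.exp (2 * (C + M) + 4 * Z)))).exists
  linarith

end Pool.Agent.P.MP_68214b_ag
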