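import Pool.Agent.P.MP_68214b_ag.HsZ1

open Polynomial Finset Matrix NumberField

namespace Pool.Agent.P.MP_68214b_ag

theorem newton_dvd {R : Type} [CommRing R] [IsAddTorsionFree R] {f : ℕ → R} {G : R[X]} {t s : ℕ}
    (ht : t ≠ 0) (hG : G.natDegree < s) (hf : ∀ j : ℕ, (t : R) * f j = G.eval (j : R)) {N : R}
    (h : ∀ j < s, N ∣ f j) (j : ℕ) : N ∣ f j := by
  have key : ∀ y : ℕ, ∑ e ∈ range (s + 1), ((-1 : ℤ) ^ (s - e) * s.choose e) • f (y + e) = 0 := by
    intro y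
    have h0 := congrFun (Polynomial.fwdDiff_iter_eq_zero_of_degree_lt hG) (y : R)
    rw [fwdDiff_iter_eq_sum_shift] at h0
    have h1 : t • ∑ e ∈ range (s + 1), ((-1 : ℤ) ^ (s - e) * s.choose e) • f (y + e) = 0 := by
      rw [smul_sum]
      refine Eq.trans (sum_congr rfl fun e _ => ?_) h0
      rw [smul_comm, nsmul_eq_mul, hf]
      simp
    exact (nsmul_eq_zero_iff_right ht).1 h1
  induction j using Nat.strong_induction_on with
  | _ j ih =>
    by_cases hj : j < s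
    · exact h j hj
    · obtain ⟨y, rfl⟩ : ∃ y, j = y + s := ⟨j - s, by omega⟩
      have h2 := key y
      rw [sum_range_succ] at h2
      simp only [Nat.sub_self, pow_zero, Nat.choose_self, Nat.cast_one, mul_one, one_smul] at h2
      rw [eq_neg_of_add_eq_zero_right h2]
      refine (dvd_neg).2 (dvd_sum fun e he => ?_)
      rw [zsmul_eq_mul]
      exact Dvd.dvd.mul_left (ih _ (by have := mem_range.1 he; omega)) _

/-- the values of the integer valued polynomial with Newton coordinates z -/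
def nL_HsH1 (s : ℕ) (z : ℕ → ℤ) (j : ℕ) : ℤ := ∑ e ∈ range s, z e * j.choose e

/-- its multiple with integer coefficients -/
noncomputable def nC_HsH1 (s : ℕ) (z : ℕ → ℤ) : ℤ[X] :=
  ∑ e ∈ range s, C (z e * ((s.factorial / e.factorial : ℕ) : ℤ)) * descPochhammer ℤ e

theorem nC_deg_HsH1 (s : ℕ) (z : ℕ → ℤ) : (nC_HsH1 s z).natDegree ≤ s - 1 := by
  refine natDegree_sum_le_of_forall_le _ _ fun e he => ?_
  refine (natDegree_C_mul_le _ _).trans ?_
  rw [descPochhammer_natDegree]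
  have := mem_range.1 he
  omega

theorem nC_eval_HsH1 (s : ℕ) (z : ℕ → ℤ) (j : ℕ) :
    (nC_HsH1 s z).eval (j : ℤ) = s.factorial * nL_HsH1 s z j := by
  rw [nC_HsH1, nL_HsH1, eval_finsetSum, mul_sum]
  refine sum_congr rfl fun e he => ?_
  obtain ⟨q, hq⟩ : e.factorial ∣ s.factorial := Nat.factorial_dvd_factorial (mem_range.1 he).le
  rw [eval_mul, eval_C, descPochhammer_eval_eq_descFactorial,
    Nat.descFactorial_eq_factorial_mul_choose, hq, Nat.mul_div_cancel_left _ e.factorial_pos]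
  push_cast
  ring

theorem nL_abs_HsH1 (s : ℕ) {z : ℕ → ℤ} {H : ℕ} (hz : ∀ e, |z e| ≤ H) (j : ℕ) :
    |nL_HsH1 s z j| ≤ H * 2 ^ j := by
  have h1 : ∑ e ∈ range s, j.choose e ≤ 2 ^ j := by
    rw [← Nat.sum_range_choose]
    refine sum_le_sum_of_ne_zero fun e _ he => mem_range.2 ?_
    by_contra hc
    exact he (Nat.choose_eq_zero_of_lt (by omega))
  have h2 : ∑ e ∈ range s, (j.choose e : ℤ) ≤ 2 ^ j := by exact_mod_cast h1
  calc |nL_HsH1 s z j| ≤ ∑ e ∈ range s, |z e * j.choose e| := abs_sum_le_sum_abs _ _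
    _ ≤ ∑ e ∈ range s, (H : ℤ) * j.choose e := by
        refine sum_le_sum fun e _ => ?_
        rw [abs_mul, Nat.abs_cast]
        exact mul_le_mul_of_nonneg_right (hz e) (by positivity)
    _ ≤ H * 2 ^ j := by
        rw [← mul_sum]
        exact mul_le_mul_of_nonneg_left h2 (by positivity)

theorem nC_ne_HsH1 {s : ℕ} {z : ℕ → ℤ} (hz : ∃ e, e < s ∧ z e ≠ 0) : nC_HsH1 s z ≠ 0 := by
  classical
  intro h0
  have h1 := nC_eval_HsH1 s z (Nat.find hz)
  have h2 : nL_HsH1 s z (Nat.find hz) = z (Nat.find hz) := by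
    rw [nL_HsH1, sum_eq_single (Nat.find hz)]
    · simp
    · intro e he hne
      rcases lt_or_gt_of_ne hne with hl | hl
      · have := Nat.find_min hz hl
        have h3 : z e = 0 := by
          by_contra h4
          exact this ⟨mem_range.1 he, h4⟩
        rw [h3, zero_mul]
      · rw [Nat.choose_eq_zero_of_lt hl]; simp
    · intro h3
      exact absurd (mem_range.2 (Nat.find_spec hz).1) h3
  rw [h0, h2, eval_zero] at h1
  exact mul_ne_zero (by exact_mod_cast s.factorial_ne_zero) (Nat.find_spec hz).2 h1.symm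

theorem nL_sub_HsH1 (s : ℕ) (z z' : ℕ → ℤ) (j : ℕ) :
    nL_HsH1 s (fun e => z e - z' e) j = nL_HsH1 s z j - nL_HsH1 s z' j := by
  simp only [nL_HsH1, sub_mul, sum_sub_distrib]

theorem hev_sub_HsH1 {R : Type} [CommRing R] (k : ℕ) (c c' : ℕ → R) (v : Fin 2 → R) :
    hev k (fun i => c i - c' i) v = hev k c v - hev k c' v := by
  simp only [hev, sub_mul, sum_sub_distrib]

theorem hev_mul_HsH1 {R : Type} [CommRing R] (k : ℕ) (t : R) (c : ℕ → R) (v : Fin 2 → R) :
    hev k (fun i => t * c i) v = t * hev k c v := by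
  simp only [hev, mul_sum, mul_assoc]

/-- extension by zero -/
def ext_HsH1 {a s H : ℕ} (x : Fin a × Fin s → Fin H) (i e : ℕ) : ℤ :=
  if h : i < a ∧ e < s then ((x (⟨i, h.1⟩, ⟨e, h.2⟩) : ℕ) : ℤ) else 0

theorem ext_bd_HsH1 {a s H : ℕ} (x : Fin a × Fin s → Fin (H + 1)) (i e : ℕ) :
    0 ≤ ext_HsH1 x i e ∧ ext_HsH1 x i e ≤ H := by
  unfold ext_HsH1
  split_ifs with h
  · have := (x (⟨i, h.1⟩, ⟨e, h.2⟩)).2
    omega
  · omega

theorem pigeon_HsH1 {R : Type} [CommRing R] [Module.Free ℤ R] [Module.Finite ℤ R]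
    {α β : Type} [Fintype α] [Fintype β] {N : ℕ} (hN : 0 < N) (F : α → β → R)
    (h : N ^ (Fintype.card β * Module.finrank ℤ R) < Fintype.card α) :
    ∃ x y, x ≠ y ∧ ∀ b, (N : R) ∣ F x b - F y b := by
  classical
  have : NeZero N := ⟨hN.ne'⟩
  let B := Module.finBasis ℤ R
  obtain ⟨x, y, hxy, he⟩ := Fintype.exists_ne_map_eq_of_card_lt
    (fun (x : α) (p : β × Fin (Module.finrank ℤ R)) => ((B.repr (F x p.1) p.2 : ℤ) : ZMod N))
    (by simpa using h)
  refine ⟨x, y, hxy, fun b => ?_⟩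
  rw [← B.sum_repr (F x b - F y b)]
  refine dvd_sum fun e _ => ?_
  have h1 := congrFun he (b, e)
  obtain ⟨q, hq⟩ := (ZMod.intCast_eq_intCast_iff_dvd_sub _ _ _).1 h1.symm
  have h2 : B.repr (F x b - F y b) e = N * q := by
    rw [map_sub, Finsupp.sub_apply]; exact hq
  rw [h2, zsmul_eq_mul]
  push_cast
  exact Dvd.dvd.mul_right (dvd_mul_right _ _) _

theorem siegel {R : Type} [CommRing R] [IsDomain R] [CharZero R] [Module.Free ℤ R]
    [Module.Finite ℤ R] {κ : ℕ} (D : Par R κ) (hκ : κ ≤ 2) {k m N H : ℕ} (hk : 0 < k)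
    (hm : 0 < m) (hN : 0 < N) (hH : N ^ (4 * Module.finrank ℤ R) < (H + 1) ^ (k + 1)) :
    ∃ (c : ℕ → ℤ[X]) (L : ℕ → ℕ → ℤ), (∃ i ≤ k, c i ≠ 0) ∧ (∀ i, (c i).natDegree ≤ 2 * k * m) ∧
      (∀ i (j : ℕ), (c i).eval (j : ℤ) = (2 * k * m).factorial * L i j) ∧
      (∀ i j, |L i j| ≤ H * 2 ^ j) ∧
      ∀ (j : ℕ) r, (N : R) ∣ hev k (fun i => (L i j : R)) (perp (D.W j m) r) := by
  have hs : 0 < 2 * k * m := by positivity
  generalize hS : 2 * k * m = s at hs ⊢
  obtain ⟨x, y, hxy, hd⟩ := pigeon_HsH1 (α := Fin (k + 1) × Fin s → Fin (H + 1))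
    (β := Fin 2 × Fin (2 * s)) hN
    (fun x b => hev k (fun i => (nL_HsH1 s (ext_HsH1 x i) b.2 : R)) (perp (D.W (b.2 : ℕ) m) b.1))
    (by
      have h1 := Nat.pow_lt_pow_left hH hs.ne'
      rw [← pow_mul, ← pow_mul] at h1
      simp only [Fintype.card_prod, Fintype.card_fin, Fintype.card_fun]
      refine lt_of_eq_of_lt ?_ h1
      congr 1
      ring)
  have hdeg : ∀ i, (nC_HsH1 s fun e => ext_HsH1 x i e - ext_HsH1 y i e).natDegree ≤ s - 1 :=
    fun i => nC_deg_HsH1 _ _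
  refine ⟨fun i => nC_HsH1 s fun e => ext_HsH1 x i e - ext_HsH1 y i e,
    fun i => nL_HsH1 s fun e => ext_HsH1 x i e - ext_HsH1 y i e, ?_,
    fun i => (hdeg i).trans (Nat.sub_le _ _), fun i j => nC_eval_HsH1 _ _ _,
    fun i j => nL_abs_HsH1 _ (fun e => ?_) j, fun j r => ?_⟩
  · obtain ⟨⟨i, e⟩, hp⟩ := Function.ne_iff.1 hxy
    refine ⟨i, Nat.lt_succ_iff.1 i.2, nC_ne_HsH1 ⟨e, e.2, fun h0 => hp ?_⟩⟩
    simp only [ext_HsH1, i.2, e.2, and_self, dif_pos, Fin.eta] at h0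
    exact Fin.ext (by omega)
  · have h1 := ext_bd_HsH1 x i e
    have h2 := ext_bd_HsH1 y i e
    rw [abs_le]
    omega
  · refine newton_dvd (s := 2 * s) (t := s.factorial)
      (f := fun j : ℕ => hev k
        (fun i => ((nL_HsH1 s (fun e => ext_HsH1 x i e - ext_HsH1 y i e) j : ℤ) : R))
        (perp (D.W j m) r))
      (G := hev k (fun i => (nC_HsH1 s fun e => ext_HsH1 x i e - ext_HsH1 y i e).map
        (Int.castRingHom R)) (perp (D.WX m) r)) s.factorial_ne_zero ?_ (fun j => ?_)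
      (fun j hj => ?_) j
    · refine lt_of_le_of_lt (natDegree_hev (s := s - 1) (t := 2 * m) k
        (fun i => natDegree_map_le.trans (hdeg i)) fun r' => ?_) ?_
      · fin_cases r'
        · simpa [perp] using D.WX_deg hκ m r 1
        · simpa [perp] using D.WX_deg hκ m r 0
      · have : k * (2 * m) = s := by rw [← hS]; ring
        omega
    · rw [← hev_mul_HsH1, ← coe_evalRingHom, hev_map]
      congr 1
      · funext i
        rw [coe_evalRingHom, eval_natCast_map, nC_eval_HsH1]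
        simp
      · funext r'
        rw [← D.WX_eval]
        fin_cases r' <;> simp [perp]
    · have h1 := hd (r, ⟨j, hj⟩)
      rw [← hev_sub_HsH1] at h1
      simpa only [nL_sub_HsH1, Int.cast_sub] using h1

end Pool.Agent.P.MP_68214b_ag
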