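import Pool.Agent.P.MP_68214b_ag.HsB2
import Pool.Agent.P.MP_68214b_ag.HsA2
import Pool.Agent.P.MP_68214b_ag.HsD1
import Pool.Agent.P.MP_68214b_ag.HsE1

open Polynomial Finset Matrix NumberField

namespace Pool.Agent.P.MP_68214b_ag

variable {K : Type} [Field K] [NumberField K] {κ : ℕ}

noncomputable def mu (v : FinitePlace K) : ℝ := el v * (1 / ((pv v : ℝ) - 1))

noncomputable def ep (X : ℕ) (v : FinitePlace K) : ℝ := el v * (Nat.log (pv v) X : ℝ)

/-- places above primes up to X -/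
noncomputable def SX (K : Type) [Field K] [NumberField K] (X : ℕ) : Finset (FinitePlace K) :=
  (finite_pv X).toFinset

open Classical in
/-- good ordinary places -/
noncomputable def Ctx.SO (c : Ctx K κ) (X : ℕ) : Finset (FinitePlace K) :=
  (SX K X).filter fun v => c.B < pv v ∧ c.D.Ord v

open Classical in
/-- good neutral places -/
noncomputable def Ctx.SN (c : Ctx K κ) (X : ℕ) : Finset (FinitePlace K) :=
  (SX K X).filter fun v => c.B < pv v ∧ ¬c.D.Ord v

/-- additive valuation of the determinant of a window -/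
noncomputable def Ctx.de (c : Ctx K κ) (v : FinitePlace K) (j m : ℕ) : ℝ :=
  -Real.log (v (c.D.toK.W j m).det)

/-- the modulus of the auxiliary construction -/
noncomputable def Ctx.N0 (c : Ctx K κ) (X m : ℕ) : ℕ :=
  ∏ p ∈ (c.SO X).image pv, p ^ (κ * (m / (p - 1) + Nat.log p X))

/-- X bounds all linear factors up to n -/
def Ctx.Bd (c : Ctx K κ) (n X : ℕ) : Prop := n ≤ X ∧ c.B ≤ X ∧ ∀ i, c.D.a * n + c.D.b i ≤ X

theorem mem_SX {X : ℕ} {v : FinitePlace K} : v ∈ SX K X ↔ pv v ≤ X := by simp [SX]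

theorem Ctx.mem_SO {c : Ctx K κ} {X : ℕ} {v : FinitePlace K} :
    v ∈ c.SO X ↔ pv v ≤ X ∧ c.B < pv v ∧ c.D.Ord v := by simp [Ctx.SO, mem_SX]

theorem Ctx.mem_SN {c : Ctx K κ} {X : ℕ} {v : FinitePlace K} :
    v ∈ c.SN X ↔ pv v ≤ X ∧ c.B < pv v ∧ ¬c.D.Ord v := by simp [Ctx.SN, mem_SX]

theorem mu_pos (v : FinitePlace K) : 0 < mu v := by
  have h : (2 : ℝ) ≤ pv v := by exact_mod_cast (pv_prime v).two_le
  exact mul_pos (el_pos v) (one_div_pos.2 (by linarith))

theorem ep_nonneg (X : ℕ) (v : FinitePlace K) : 0 ≤ ep X v :=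
  mul_nonneg (el_pos v).le (Nat.cast_nonneg _)

theorem Ctx.disj (c : Ctx K κ) (X : ℕ) : Disjoint (c.SO X) (c.SN X) :=
  disjoint_left.2 fun _ h h' => (Ctx.mem_SN.1 h').2.2 (Ctx.mem_SO.1 h).2.2

end Pool.Agent.P.MP_68214b_ag
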