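import Pool.Agent.P.MP_68214b_ag.HsM0

open Polynomial Finset Matrix NumberField

namespace Pool.Agent.P.MP_68214b_ag

variable {K : Type} [Field K] [NumberField K] {κ : ℕ}

theorem fac_pos_HsM1 (c : Ctx K κ) (j m : ℕ) (i : Fin κ) :
    ∏ l ∈ range m, (c.D.a * (j + l) + c.D.b i) ≠ 0 :=
  prod_ne_zero_iff.2 fun l _ => by have := c.pos.2 i; omega

theorem ga_ne_HsM1 (c : Ctx K κ) : c.D.toK.ga ≠ 0 := by
  have := c.ga
  simpa [Par.toK] using this

theorem det_eq_HsM1 (c : Ctx K κ) (j m : ℕ) : (c.D.toK.W j m).det = (-c.D.toK.ga) ^ m *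
    ∏ i, ((∏ l ∈ range m, (c.D.a * (j + l) + c.D.b i) : ℕ) : K) := by
  rw [Par.W_det]
  have : ∀ l ∈ range m, -c.D.toK.q ((j : K) + l) =
      (-c.D.toK.ga) * ∏ i, ((c.D.a * (j + l) + c.D.b i : ℕ) : K) := fun l _ => by
    simp only [Par.q, Par.toK, Par.map_a, Par.map_b]
    push_cast
    ring
  rw [prod_congr rfl this, prod_mul_distrib, prod_const, card_range, prod_comm]
  simp only [Nat.cast_prod]

theorem v_det_HsM1 (c : Ctx K κ) (v : FinitePlace K) (j m : ℕ) :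
    v (c.D.toK.W j m).det = v c.D.toK.ga ^ m * v (pv v) ^
      ∑ i, padicValNat (pv v) (∏ l ∈ range m, (c.D.a * (j + l) + c.D.b i)) := by
  rw [det_eq_HsM1, map_mul, map_pow, map_prod, ← prod_pow_eq_pow_sum]
  congr 1
  · congr 1
    exact v.1.map_neg _
  · exact prod_congr rfl fun i _ => v_nat v (fac_pos_HsM1 c j m i)

theorem val_up_HsM1 (c : Ctx K κ) {v : FinitePlace K} {n X j m : ℕ} (hX : c.Bd n X)
    (h1 : c.B < pv v) (hj : j + m ≤ n) (i : Fin κ) :
    padicValNat (pv v) (∏ l ∈ range m, (c.D.a * (j + l) + c.D.b i)) ≤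
      padicValNat (pv v) m.factorial + Nat.log (pv v) X := by
  have h := win_upper (pv_prime v) c.pos.1 (c.pos.2 i) j m (X := X)
    (le_trans (Nat.add_le_add_right (Nat.mul_le_mul_left _ hj) _) (hX.2.2 i))
  rwa [padicValNat.eq_zero_of_not_dvd (c.good v h1).2.1, mul_zero, add_zero] at h

theorem Ctx.W_le (c : Ctx K κ) (v : FinitePlace K) (j m : ℕ) (r s : Fin 2) :
    v (c.D.toK.W j m r s) ≤ 1 := by
  have h := Par.W_map_apply c.D (algebraMap (𝓞 K) K) (j : 𝓞 K) m r s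
  rw [map_natCast] at h
  rw [Par.toK, ← h]
  exact v_ring_le v _

theorem Ctx.det_ne (c : Ctx K κ) (j m : ℕ) : (c.D.toK.W j m).det ≠ 0 := by
  rw [det_eq_HsM1]
  exact mul_ne_zero (pow_ne_zero _ (neg_ne_zero.2 (ga_ne_HsM1 c)))
    (prod_ne_zero_iff.2 fun i _ => Nat.cast_ne_zero.2 (fac_pos_HsM1 c j m i))

theorem Ctx.U_ne (c : Ctx K κ) (j : ℕ) : c.U j ≠ 0 := by
  intro h
  have e := c.orb.eq 0 j
  rw [zero_add, h] at e
  exact c.ne (Matrix.eq_zero_of_mulVec_eq_zero (c.det_ne 0 j) e.symm)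

theorem Ctx.U_le (c : Ctx K κ) (v : FinitePlace K) (j : ℕ) (i : Fin 2) : v (c.U j i) ≤ 1 := by
  have e := c.orb.eq 0 j
  rw [zero_add] at e
  have h := loc_up (fin_na v) (β := 1) (c.W_le v 0 j) (c.U 0)
  rw [← e, one_mul] at h
  have h0 : nv v.1 (c.U 0) ≤ 1 := max_le (v_integral_le v (c.int 0)) (v_integral_le v (c.int 1))
  have h2 : v (c.U j i) ≤ nv v.1 (c.U j) := by
    fin_cases i
    · exact le_max_left _ _
    · exact le_max_right _ _
  exact h2.trans (h.trans h0)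

theorem Ctx.cv_nonneg (c : Ctx K κ) (v : FinitePlace K) (j : ℕ) : 0 ≤ cv v (c.U j) := by
  have h : nv v (c.U j) ≤ 1 := max_le (c.U_le v j 0) (c.U_le v j 1)
  have h0 : 0 ≤ nv v (c.U j) := le_max_of_le_left (apply_nonneg v _)
  exact neg_nonneg.2 (Real.log_nonpos h0 h)

theorem Ctx.unit_entry (c : Ctx K κ) {v : FinitePlace K} (h : c.D.Ord v) (j m : ℕ) :
    ∃ r s, v (c.D.toK.W j m r s) = 1 := by
  obtain ⟨F, _, _, φ, hφ⟩ := exists_res v
  have key : ∀ (j m : ℕ) r s, algebraMap (𝓞 K) K (c.D.W j m r s) = c.D.toK.W j m r s :=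
    fun j m r s => by
      have h := Par.W_map_apply c.D (algebraMap (𝓞 K) K) (j : 𝓞 K) m r s
      rwa [map_natCast] at h
  have key2 : ∀ (j m : ℕ) r s, φ (c.D.W j m r s) = (c.D.map φ).W j m r s :=
    fun j m r s => by
      have h := Par.W_map_apply c.D φ (j : 𝓞 K) m r s
      rwa [map_natCast] at h
  have ht : ((c.D.map φ).W 0 (pv v)).trace ≠ 0 := by
    have a1 := key2 0 (pv v) 0 0
    have a2 := key2 0 (pv v) 1 1
    have b1 := key 0 (pv v) 0 0
    have b2 := key 0 (pv v) 1 1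
    rw [Nat.cast_zero, Nat.cast_zero] at a1 a2 b1 b2
    rw [trace_fin_two, ← a1, ← a2, ← map_add]
    intro h0
    have h3 := (hφ _).1 h0
    rw [map_add, b1, b2, ← trace_fin_two] at h3
    exact h3.ne h
  have hW := W_ne_zero (pv_prime v) (c.D.map φ) ht j m
  by_contra hc
  refine hW (Matrix.ext fun r s => ?_)
  rw [← key2, Matrix.zero_apply, hφ, key]
  exact lt_of_le_of_ne (c.W_le v j m r s) fun e => hc ⟨r, s, e⟩

theorem Ctx.de_eq (c : Ctx K κ) (v : FinitePlace K) (j m : ℕ) :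
    c.de v j m = m * -Real.log (v c.D.toK.ga) + el v *
      ∑ i, (padicValNat (pv v) (∏ l ∈ range m, (c.D.a * (j + l) + c.D.b i)) : ℝ) := by
  have h1 : 0 < v c.D.toK.ga := FinitePlace.pos_iff.2 (ga_ne_HsM1 c)
  have h2 := v_pv_pos v
  rw [Ctx.de, v_det_HsM1, Real.log_mul (pow_pos h1 _).ne' (pow_pos h2 _).ne', Real.log_pow,
    Real.log_pow, el]
  push_cast
  ring

theorem Ctx.de_lower (c : Ctx K κ) {v : FinitePlace K} {n X j m : ℕ} (hX : c.Bd n X)
    (h1 : c.B < pv v) (h2 : pv v ≤ X) (hj : j + m ≤ n) :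
    κ * (m * mu v - 2 * ep X v) ≤ c.de v j m := by
  have g := c.good v h1
  rw [c.de_eq, g.1, Real.log_one, neg_zero, mul_zero, zero_add]
  have hm : m ≤ X := by have := hX.1; omega
  have h3 : ∀ i ∈ (univ : Finset (Fin κ)), (m : ℝ) / ((pv v : ℝ) - 1) - 2 * Nat.log (pv v) X ≤
      (padicValNat (pv v) (∏ l ∈ range m, (c.D.a * (j + l) + c.D.b i)) : ℝ) := fun i _ =>
    (leg_lower (pv_prime v) hm h2).trans
      (Nat.cast_le.2 (win_lower (pv_prime v) g.2.1 (c.pos.2 i) j m))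
  have h4 := sum_le_sum h3
  rw [sum_const, card_univ, Fintype.card_fin, nsmul_eq_mul] at h4
  refine le_trans (le_of_eq ?_) (mul_le_mul_of_nonneg_left h4 (el_pos v).le)
  rw [mu, ep]
  ring

theorem Ctx.de_upper (c : Ctx K κ) {v : FinitePlace K} {n X j m : ℕ} (hX : c.Bd n X)
    (h1 : c.B < pv v) (hj : j + m ≤ n) : c.de v j m ≤ κ * (m * mu v + ep X v) := by
  have g := c.good v h1
  rw [c.de_eq, g.1, Real.log_one, neg_zero, mul_zero, zero_add]
  have h3 : ∀ i ∈ (univ : Finset (Fin κ)),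
      (padicValNat (pv v) (∏ l ∈ range m, (c.D.a * (j + l) + c.D.b i)) : ℝ) ≤
        (m : ℝ) / ((pv v : ℝ) - 1) + Nat.log (pv v) X := fun i _ => by
    have a : (padicValNat (pv v) (∏ l ∈ range m, (c.D.a * (j + l) + c.D.b i)) : ℝ) ≤
        padicValNat (pv v) m.factorial + Nat.log (pv v) X := by
      exact_mod_cast val_up_HsM1 c hX h1 hj i
    have b := leg_upper (pv_prime v) m
    linarith
  have h4 := sum_le_sum h3
  rw [sum_const, card_univ, Fintype.card_fin, nsmul_eq_mul] at h4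
  refine le_trans (mul_le_mul_of_nonneg_left h4 (el_pos v).le) (le_of_eq ?_)
  rw [mu, ep]
  ring

theorem Ctx.N0_le (c : Ctx K κ) {v : FinitePlace K} {n X j m : ℕ} (hX : c.Bd n X)
    (hv : v ∈ c.SO X) (hj : j + m ≤ n) : v (c.N0 X m : K) ≤ v (c.D.toK.W j m).det := by
  have h1 := (Ctx.mem_SO.1 hv).2.1
  have g := c.good v h1
  obtain ⟨t, ht⟩ : pv v ^ (κ * (m / (pv v - 1) + Nat.log (pv v) X)) ∣ c.N0 X m :=
    dvd_prod_of_mem (fun p => p ^ (κ * (m / (p - 1) + Nat.log p X))) (mem_image_of_mem pv hv)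
  rw [v_det_HsM1, g.1, one_pow, one_mul, ht, Nat.cast_mul, map_mul, Nat.cast_pow, map_pow]
  refine (mul_le_of_le_one_right (pow_nonneg (v_pv_pos v).le _) (fin_nat_le v t)).trans
    (pow_le_pow_of_le_one (v_pv_pos v).le (v_pv_lt v).le ?_)
  have h3 : ∀ i ∈ (univ : Finset (Fin κ)),
      padicValNat (pv v) (∏ l ∈ range m, (c.D.a * (j + l) + c.D.b i)) ≤
        m / (pv v - 1) + Nat.log (pv v) X := fun i _ =>
    (val_up_HsM1 c hX h1 hj i).trans (Nat.add_le_add_right (leg_nat (pv_prime v) m) _)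
  have h4 := sum_le_sum h3
  rwa [sum_const, card_univ, Fintype.card_fin, smul_eq_mul] at h4

theorem Ctx.N0_pos (c : Ctx K κ) (X m : ℕ) : 0 < c.N0 X m := by
  refine prod_pos fun p hp => pow_pos ?_ _
  obtain ⟨v, -, rfl⟩ := mem_image.1 hp
  exact (pv_prime v).pos

theorem Ctx.log_N0 (c : Ctx K κ) (X m : ℕ) :
    Real.log (c.N0 X m) ≤ κ * (m * ∑ v ∈ c.SO X, mu v + ∑ v ∈ c.SO X, ep X v) := by
  have hp : ∀ p ∈ (c.SO X).image pv, p.Prime := fun p hp => by
    obtain ⟨v, -, rfl⟩ := mem_image.1 hp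
    exact pv_prime v
  have h1 := sum_el_ge (c.SO X) ((c.SO X).image pv) (fun p hp => mem_image.1 hp)
    (fun p => κ * ((m : ℝ) * (1 / ((p : ℝ) - 1)) + Nat.log p X)) fun p hp => by
      have h : (2 : ℝ) ≤ p := by exact_mod_cast hp.two_le
      have h' : 0 < (p : ℝ) - 1 := by linarith
      positivity
  rw [Ctx.N0, Nat.cast_prod, Real.log_prod fun p h => by
    have := (hp p h).pos
    positivity]
  refine le_trans (sum_le_sum fun p h => ?_) (h1.trans (le_of_eq ?_))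
  · have h2 := (hp p h).two_le
    rw [Nat.cast_pow, Real.log_pow, mul_comm]
    refine mul_le_mul_of_nonneg_left ?_ (Real.log_natCast_nonneg p)
    have h3 : ((m / (p - 1) : ℕ) : ℝ) ≤ m / ((p - 1 : ℕ) : ℝ) := Nat.cast_div_le
    rw [Nat.cast_sub (by omega), Nat.cast_one] at h3
    rw [Nat.cast_mul, Nat.cast_add, mul_one_div]
    exact mul_le_mul_of_nonneg_left (add_le_add_left h3 _) (Nat.cast_nonneg κ)
  · rw [mul_sum, ← sum_add_distrib, mul_sum]
    refine sum_congr rfl fun v _ => ?_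
    rw [mu, ep]
    ring

end Pool.Agent.P.MP_68214b_ag
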