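import Pool.Agent.P.MP_68214b_ag.HsM1

open Polynomial Finset Matrix NumberField

namespace Pool.Agent.P.MP_68214b_ag

variable {K : Type} [Field K] [NumberField K] {κ : ℕ}

theorem nvp_HsM2 (c : Ctx K κ) (v : FinitePlace K) (j : ℕ) : 0 < nv v (c.U j) :=
  nv_pos (v := v.1) (c.U_ne j)

theorem detp_HsM2 (c : Ctx K κ) (v : FinitePlace K) (j m : ℕ) : 0 < v (c.D.toK.W j m).det :=
  v.1.pos (c.det_ne j m)

theorem orb_HsM2 (c : Ctx K κ) (n : ℕ) : c.U n = c.D.toK.W 0 n *ᵥ c.U 0 := by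
  have h := c.orb.eq 0 n
  rwa [zero_add, Nat.cast_zero] at h

theorem detp0_HsM2 (c : Ctx K κ) (v : FinitePlace K) (m : ℕ) : 0 < v (c.D.toK.W 0 m).det := by
  have h := detp_HsM2 c v 0 m
  rwa [Nat.cast_zero] at h

theorem de0_HsM2 (c : Ctx K κ) (v : FinitePlace K) (m : ℕ) :
    c.de v 0 m = -Real.log (v (c.D.toK.W 0 m).det) := by
  rw [Ctx.de, Nat.cast_zero]

theorem Wle0_HsM2 (c : Ctx K κ) (v : FinitePlace K) (m : ℕ) (r s : Fin 2) :
    v (c.D.toK.W 0 m r s) ≤ 1 := by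
  have h := c.W_le v 0 m r s
  rwa [Nat.cast_zero] at h

theorem det_HsM2 (c : Ctx K κ) (v : FinitePlace K) (n : ℕ) {β : ℝ} (hβ : 0 < β)
    (h : ∀ r s, v (c.D.toK.W 0 n r s) ≤ β) :
    cv v (c.U n) ≤ c.de v 0 n + cv v (c.U 0) + Real.log β := by
  have h1 : v (c.D.toK.W 0 n).det * nv v (c.U 0) ≤ β * nv v (c.D.toK.W 0 n *ᵥ c.U 0) :=
    loc_det (v := v.1) (fin_na v) h (c.U 0)
  rw [← orb_HsM2] at h1
  have h2 := Real.log_le_log (mul_pos (detp0_HsM2 c v n) (nvp_HsM2 c v 0)) h1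
  rw [Real.log_mul (detp0_HsM2 c v n).ne' (nvp_HsM2 c v 0).ne',
    Real.log_mul hβ.ne' (nvp_HsM2 c v n).ne'] at h2
  rw [de0_HsM2, cv, cv]
  linarith

theorem Ctx.cv_le (c : Ctx K κ) (v : FinitePlace K) (n : ℕ) :
    cv v (c.U n) ≤ c.de v 0 n + cv v (c.U 0) := by
  have h := det_HsM2 c v n one_pos (Wle0_HsM2 c v n)
  rwa [Real.log_one, add_zero] at h

theorem cv0_HsM2 (c : Ctx K κ) {v : FinitePlace K} (h : c.B < pv v) : cv v (c.U 0) = 0 := by
  rw [cv, (c.good v h).2.2.1, Real.log_one, neg_zero]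

theorem kap_HsM2 (c : Ctx K κ) : (0 : ℝ) ≤ κ ∧ (κ : ℝ) ≤ 2 :=
  ⟨Nat.cast_nonneg _, by exact_mod_cast c.ok.le.2⟩

theorem Ctx.ord_prop (c : Ctx K κ) {v : FinitePlace K} {n X j : ℕ} (hX : c.Bd n X)
    (hv : v ∈ c.SO X) (hn : 0 < n) (hj : j ≤ n) :
    (j : ℝ) / n * cv v (c.U n) - 6 * ep X v ≤ cv v (c.U j) := by
  obtain ⟨h2, h1, ho⟩ := Ctx.mem_SO.1 hv
  have hW : c.D.toK.W j (n - j) * c.D.toK.W 0 j = c.D.toK.W 0 n := by
    have := c.D.toK.W_add 0 j (n - j)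
    rw [zero_add, Nat.add_sub_cancel' hj] at this
    exact this.symm
  have hu : ∃ r s, v.1 ((c.D.toK.W j (n - j) * c.D.toK.W 0 j) r s) = 1 := by
    have := c.unit_entry ho 0 n
    rw [Nat.cast_zero] at this
    rw [hW]; exact this
  have hb : nv v (c.D.toK.W 0 j *ᵥ c.U 0) ≤
      max (nv v ((c.D.toK.W j (n - j) * c.D.toK.W 0 j) *ᵥ c.U 0))
        (v (c.D.toK.W 0 j).det * nv v (c.U 0)) :=
    loc_back (v := v.1) (fin_na v) (Wle0_HsM2 c v j) (c.W_le v j (n - j)) hu (c.U 0)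
  rw [hW, ← orb_HsM2, ← orb_HsM2, (c.good v h1).2.2.1, mul_one] at hb
  have he := ep_nonneg X v
  have hc := c.cv_nonneg v n
  have hnr : (0 : ℝ) < n := by exact_mod_cast hn
  have hq0 : (0 : ℝ) ≤ (j : ℝ) / n := by positivity
  have hq1 : (j : ℝ) / n ≤ 1 := (div_le_one hnr).2 (by exact_mod_cast hj)
  obtain ⟨k0, k2⟩ := kap_HsM2 c
  rcases le_max_iff.1 hb with hb | hb
  · have h3 := Real.log_le_log (nvp_HsM2 c v j) hb
    have h4 : cv v (c.U n) ≤ cv v (c.U j) := by rw [cv, cv]; linarith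
    nlinarith [mul_le_of_le_one_left hc hq1]
  · have h3 := Real.log_le_log (nvp_HsM2 c v j) hb
    have h4 : c.de v 0 j ≤ cv v (c.U j) := by rw [de0_HsM2, cv]; linarith
    have h5 := c.de_lower (j := 0) (m := j) hX h1 h2 (by omega)
    have h6 := c.de_upper (j := 0) (m := n) hX h1 (by omega)
    have h7 := c.cv_le v n
    rw [cv0_HsM2 c h1, add_zero] at h7
    have h8 : (j : ℝ) / n * cv v (c.U n) ≤ (j : ℝ) / n * (κ * (n * mu v + ep X v)) :=
      mul_le_mul_of_nonneg_left (h7.trans h6) hq0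
    have h9 : (j : ℝ) / n * (κ * (n * mu v + ep X v)) =
        κ * (j * mu v) + (j : ℝ) / n * (κ * ep X v) := by
      field_simp
    have h10 : (j : ℝ) / n * (κ * ep X v) ≤ κ * ep X v :=
      mul_le_of_le_one_left (mul_nonneg k0 he) hq1
    have h11 : κ * ep X v ≤ 2 * ep X v := mul_le_mul_of_nonneg_right k2 he
    nlinarith

theorem beta_HsM2 (c : Ctx K κ) {v : FinitePlace K} {n X j : ℕ} (hX : c.Bd n X)
    (hv : v ∈ c.SN X) (hj : j ≤ n) : ∃ β : ℝ, 0 < β ∧ (∀ r s, v (c.D.toK.W 0 j r s) ≤ β) ∧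
      Real.log β ≤ -(κ / 2 * j * mu v) + (κ + 2) * ep X v := by
  obtain ⟨h2, h1, ho⟩ := Ctx.mem_SN.1 hv
  have hN : c.D.Neu v := (c.good v h1).2.2.2.resolve_left ho
  obtain ⟨⟨r, s⟩, -, hm⟩ := exists_max_image (univ : Finset (Fin 2 × Fin 2))
    (fun x => v (c.D.toK.W 0 j x.1 x.2)) univ_nonempty
  have hle : ∀ r' s', v (c.D.toK.W 0 j r' s') ≤ v (c.D.toK.W 0 j r s) :=
    fun r' s' => hm (r', s') (mem_univ _)
  have hpos : 0 < v (c.D.toK.W 0 j r s) := by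
    have h3 : v (c.D.toK.W 0 j).det * nv v (c.U 0) ≤
        v (c.D.toK.W 0 j r s) * nv v (c.D.toK.W 0 j *ᵥ c.U 0) :=
      loc_det (v := v.1) (fin_na v) hle (c.U 0)
    rw [← orb_HsM2] at h3
    exact (mul_pos_iff_of_pos_right (nvp_HsM2 c v j)).1
      ((mul_pos (detp0_HsM2 c v j) (nvp_HsM2 c v 0)).trans_le h3)
  refine ⟨_, hpos, hle, ?_⟩
  have h3 := hN j X (fun i => le_trans (by
    have := Nat.mul_le_mul_left c.D.a hj
    omega) (hX.2.2 i)) r s
  have hp := v_pv_pos v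
  rw [v_nat v (Nat.factorial_ne_zero j)] at h3
  have h4 := Real.log_le_log (by positivity) h3
  rw [Real.log_mul (by positivity) (by positivity), Real.log_pow, Real.log_pow, Real.log_pow,
    Real.log_pow] at h4
  have h5 := leg_lower (pv_prime v) (hj.trans hX.1) h2
  have h6 : Real.log (v (pv v)) = -el v := by rw [el, neg_neg]
  rw [h6] at h4
  push_cast at h4
  have h7 := mul_le_mul_of_nonneg_left h5 (mul_nonneg (kap_HsM2 c).1 (el_pos v).le)
  have h8 : (κ : ℝ) * el v * ((j : ℝ) / ((pv v : ℝ) - 1) - 2 * Nat.log (pv v) X) =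
      κ * j * mu v - 2 * κ * ep X v := by
    rw [mu, ep]; ring
  rw [h8] at h7
  have h9 : ep X v = el v * (Nat.log (pv v) X : ℝ) := rfl
  nlinarith

theorem Ctx.neu_lower (c : Ctx K κ) {v : FinitePlace K} {n X j : ℕ} (hX : c.Bd n X)
    (hv : v ∈ c.SN X) (hj : j ≤ n) : κ / 2 * j * mu v - 4 * ep X v ≤ cv v (c.U j) := by
  obtain ⟨β, hβ, hle, hl⟩ := beta_HsM2 c hX hv hj
  have h1 := (Ctx.mem_SN.1 hv).2.1
  have h3 : nv v (c.D.toK.W 0 j *ᵥ c.U 0) ≤ β * nv v (c.U 0) :=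
    loc_up (v := v.1) (fin_na v) hle (c.U 0)
  rw [← orb_HsM2, (c.good v h1).2.2.1, mul_one] at h3
  have h4 := Real.log_le_log (nvp_HsM2 c v j) h3
  have h5 := mul_le_mul_of_nonneg_right (kap_HsM2 c).2 (ep_nonneg X v)
  rw [cv]
  nlinarith

theorem Ctx.neu_upper (c : Ctx K κ) {v : FinitePlace K} {n X : ℕ} (hX : c.Bd n X)
    (hv : v ∈ c.SN X) : cv v (c.U n) ≤ κ / 2 * n * mu v + 6 * ep X v := by
  obtain ⟨β, hβ, hle, hl⟩ := beta_HsM2 c hX hv le_rfl
  have h1 := (Ctx.mem_SN.1 hv).2.1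
  have h3 := det_HsM2 c v n hβ hle
  rw [cv0_HsM2 c h1] at h3
  have h4 := c.de_upper (j := 0) (m := n) hX h1 (by omega)
  have h5 := mul_le_mul_of_nonneg_right (kap_HsM2 c).2 (ep_nonneg X v)
  nlinarith

theorem Ctx.far (c : Ctx K κ) {v : FinitePlace K} {n X : ℕ} (hX : c.Bd n X) (hv : X < pv v) :
    nv v (c.U n) = 1 := by
  have h1 : c.B < pv v := hX.2.1.trans_lt hv
  have h2 : c.de v 0 n = 0 := by
    rw [c.de_eq, (c.good v h1).1, Real.log_one, neg_zero, mul_zero, zero_add]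
    refine mul_eq_zero_of_right _ (sum_eq_zero fun i _ => ?_)
    rw [Nat.cast_eq_zero]
    refine padicValNat.eq_zero_of_not_dvd fun h => ?_
    obtain ⟨l, hl, hd⟩ := (Prime.dvd_finsetProd_iff (pv_prime v).prime _).1 h
    have h3 := Nat.le_of_dvd (Nat.add_pos_right _ (c.pos.2 i)) hd
    have h4 := hX.2.2 i
    have h5 : c.D.a * (0 + l) ≤ c.D.a * n :=
      Nat.mul_le_mul_left _ (by have := mem_range.1 hl; omega)
    omega
  have h3 := c.cv_le v n
  rw [h2, cv0_HsM2 c h1, add_zero] at h3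
  have h4 : Real.log (nv v (c.U n)) = 0 := by
    have := le_antisymm h3 (c.cv_nonneg v n)
    rwa [cv, neg_eq_zero] at this
  exact Real.eq_one_of_pos_of_log_eq_zero (nvp_HsM2 c v n) h4

theorem Ctx.bad (c : Ctx K κ) : ∃ C : ℝ, 0 ≤ C ∧ ∀ n X : ℕ, 0 < n → c.Bd n X →
    ∑ v ∈ SX K c.B, cv v (c.U n) ≤ C * n + 2 * ∑ v ∈ SX K c.B, ep X v := by
  refine ⟨∑ v ∈ SX K c.B, (|Real.log (v c.D.toK.ga)| +
    2 * (el v * (1 + padicValNat (pv v) c.D.a)) + cv v (c.U 0)), sum_nonneg fun v _ => ?_,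
    fun n X hn hX => ?_⟩
  · have h1 := c.cv_nonneg v 0
    have h2 := el_pos v
    positivity
  · rw [sum_mul, mul_sum, ← sum_add_distrib]
    refine sum_le_sum fun v _ => ?_
    have h1 := c.cv_le v n
    rw [c.de_eq] at h1
    have hn1 : (1 : ℝ) ≤ n := by exact_mod_cast hn
    have h2 : ∀ i : Fin κ,
        (padicValNat (pv v) (∏ l ∈ range n, (c.D.a * (0 + l) + c.D.b i)) : ℝ) ≤
          n * (1 + padicValNat (pv v) c.D.a) + Nat.log (pv v) X := fun i => by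
      have h3 := win_upper (X := X) (pv_prime v) c.pos.1 (c.pos.2 i) 0 n
        (by rw [zero_add]; exact hX.2.2 i)
      have h4 := (leg_nat (pv_prime v) n).trans (Nat.div_le_self _ _)
      have h5 : padicValNat (pv v) (∏ l ∈ range n, (c.D.a * (0 + l) + c.D.b i)) ≤
          n * (1 + padicValNat (pv v) c.D.a) + Nat.log (pv v) X := by
        rw [mul_add, mul_one]; omega
      exact_mod_cast h5
    have h3 := sum_le_sum fun i (_ : i ∈ (univ : Finset (Fin κ))) => h2 i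
    rw [sum_const, card_univ, Fintype.card_fin, nsmul_eq_mul] at h3
    have h4 : (κ : ℝ) * (n * (1 + padicValNat (pv v) c.D.a) + Nat.log (pv v) X) ≤
        2 * (n * (1 + padicValNat (pv v) c.D.a) + Nat.log (pv v) X) :=
      mul_le_mul_of_nonneg_right (kap_HsM2 c).2 (by positivity)
    have h5 := mul_le_mul_of_nonneg_left (h3.trans h4) (el_pos v).le
    have h6 : n * -Real.log (v c.D.toK.ga) ≤ n * |Real.log (v c.D.toK.ga)| :=
      mul_le_mul_of_nonneg_left (neg_le_abs _) (by positivity)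
    have h7 := le_mul_of_one_le_right (c.cv_nonneg v 0) hn1
    rw [ep]
    nlinarith

end Pool.Agent.P.MP_68214b_ag
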