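import Pool.Agent.P.MP_68214b_ag.HsM2
import Pool.Agent.P.MP_68214b_ag.HsC1

open Polynomial Finset Matrix NumberField

namespace Pool.Agent.P.MP_68214b_ag

variable {K : Type} [Field K] [NumberField K] {κ : ℕ}

theorem fpos_HsM3 (v : FinitePlace K) {x : K} (hx : x ≠ 0) : 0 < v x := v.1.pos hx

theorem le_nv_HsM3 (v : FinitePlace K) (U : Fin 2 → K) (i : Fin 2) : v (U i) ≤ nv v U := by
  fin_cases i
  · exact le_max_left _ _
  · exact le_max_right _ _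

theorem nvpos_HsM3 (v : FinitePlace K) {U : Fin 2 → K} (h : U ≠ 0) : 0 < nv v U :=
  nv_pos (v := v.1) h

theorem sum_two_HsM3 (c : Ctx K κ) (X : ℕ) (f : FinitePlace K → ℝ) [DecidableEq (FinitePlace K)] :
    ∑ v ∈ c.SO X ∪ c.SN X, f v = ∑ v ∈ c.SO X, f v + ∑ v ∈ c.SN X, f v :=
  sum_union (c.disj X)

theorem Ctx.cont_le (c : Ctx K κ) (X j : ℕ) {L : ℝ}
    (hL : ∀ (φ : K →+* ℂ) i, ‖φ (c.U j i)‖ ≤ Real.exp L) :
    ∑ v ∈ c.SO X, cv v (c.U j) + ∑ v ∈ c.SN X, cv v (c.U j) ≤ Module.finrank ℚ K * L := by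
  classical
  obtain ⟨i, hi⟩ := Function.ne_iff.1 (c.U_ne j)
  have hi' : c.U j i ≠ 0 := hi
  rw [← sum_two_HsM3]
  refine le_trans (sum_le_sum fun v _ => ?_)
    (prod_le hi' (fun v => c.U_le v j i) (c.SO X ∪ c.SN X) fun φ => ?_)
  · exact neg_le_neg (Real.log_le_log (fpos_HsM3 v hi') (le_nv_HsM3 v _ i))
  · exact (Real.log_le_iff_le_exp (norm_pos_iff.2 ((map_ne_zero φ).2 hi'))).2 (hL φ i)

theorem Ctx.cont_ge (c : Ctx K κ) {n X : ℕ} (hX : c.Bd n X) {L : ℝ}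
    (hL : ∀ φ : K →+* ℂ, L ≤ Real.log (max ‖φ (c.U n 0)‖ ‖φ (c.U n 1)‖)) :
    Module.finrank ℚ K * L - Real.log (Height.mulHeight (c.U n)) ≤
      ∑ v ∈ c.SO X, cv v (c.U n) + ∑ v ∈ c.SN X, cv v (c.U n) +
        ∑ v ∈ SX K c.B, cv v (c.U n) := by
  classical
  have hd : Disjoint (c.SO X ∪ c.SN X) (SX K c.B) := by
    refine disjoint_left.2 fun v h h' => ?_
    have h1 := mem_SX.1 h'
    rcases mem_union.1 h with h | h
    · exact absurd (Ctx.mem_SO.1 h).2.1 (not_lt.2 h1)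
    · exact absurd (Ctx.mem_SN.1 h).2.1 (not_lt.2 h1)
  rw [← sum_two_HsM3, ← sum_union hd]
  refine height_ge (c.U_ne n) _ (fun v hv => c.far hX ?_) hL
  by_contra hle
  have hle' : pv v ≤ X := not_lt.1 hle
  apply hv
  by_cases hB : c.B < pv v
  · by_cases hO : c.D.Ord v
    · exact mem_union_left _ (mem_union_left _ (Ctx.mem_SO.2 ⟨hle', hB, hO⟩))
    · exact mem_union_left _ (mem_union_right _ (Ctx.mem_SN.2 ⟨hle', hB, hO⟩))
  · exact mem_union_right _ (mem_SX.2 (not_lt.1 hB))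

theorem norm_hev_HsM3 (k : ℕ) (a : ℕ → ℂ) (U : Fin 2 → ℂ) {h L : ℝ}
    (hh : ∀ i, ‖a i‖ ≤ Real.exp h) (hL : ∀ i, ‖U i‖ ≤ Real.exp L) :
    ‖hev k a U‖ ≤ Real.exp (k + h + k * L) := by
  have h1 : ∀ i ∈ range (k + 1), ‖a i * U 0 ^ i * U 1 ^ (k - i)‖ ≤
      Real.exp h * Real.exp (k * L) := by
    intro i hi
    have hik : i ≤ k := Nat.lt_succ_iff.1 (mem_range.1 hi)
    have e : Real.exp (k * L) = Real.exp L ^ i * Real.exp L ^ (k - i) := by
      rw [← pow_add, Nat.add_sub_cancel' hik, Real.exp_nat_mul]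
    rw [norm_mul, norm_mul, norm_pow, norm_pow, e, ← mul_assoc]
    have := hh i
    have := hL 0
    have := hL 1
    gcongr
  have h2 : ‖hev k a U‖ ≤ (k + 1 : ℝ) * (Real.exp h * Real.exp (k * L)) := by
    refine (norm_sum_le _ _).trans ((sum_le_card_nsmul _ _ _ h1).trans_eq ?_)
    rw [card_range, nsmul_eq_mul]; push_cast; ring
  refine h2.trans ?_
  rw [add_assoc, Real.exp_add, Real.exp_add]
  have := Real.add_one_le_exp (k : ℝ)
  gcongr

theorem perp_map_HsM3 (c : Ctx K κ) (j m : ℕ) (r : Fin 2) :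
    (fun i => algebraMap (𝓞 K) K (perp (c.D.W j m) r i)) = perp (c.D.toK.W j m) r := by
  have e : ∀ s, algebraMap (𝓞 K) K (c.D.W j m r s) = c.D.toK.W j m r s := fun s => by
    rw [Par.W_map_apply, map_natCast]; rfl
  funext i
  fin_cases i
  · change algebraMap (𝓞 K) K (-c.D.W j m r 1) = -c.D.toK.W j m r 1
    rw [map_neg, e]
  · exact e 0

theorem Ctx.aux_ineq (c : Ctx K κ) {n X j m k : ℕ} (hX : c.Bd n X) (hj : j + m ≤ n) (l : ℕ → ℤ)
    (hl : ∀ r, (c.N0 X m : 𝓞 K) ∣ hev k (fun i => (l i : 𝓞 K)) (perp (c.D.W j m) r))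
    (h0 : hev k (fun i => (l i : K)) (c.U j) ≠ 0) {h L : ℝ}
    (hh : ∀ i, |(l i : ℝ)| ≤ Real.exp h)
    (hL : ∀ (φ : K →+* ℂ) i, ‖φ (c.U j i)‖ ≤ Real.exp L) :
    ∑ v ∈ c.SO X, cv v (c.U (j + m)) - ∑ v ∈ c.SO X, cv v (c.U j) +
        k * (∑ v ∈ c.SO X, cv v (c.U j) + ∑ v ∈ c.SN X, cv v (c.U j)) ≤
      Module.finrank ℚ K * (k + h + k * L) := by
  classical
  set x := hev k (fun i => (l i : K)) (c.U j) with hx
  have hc : ∀ (v : FinitePlace K) i, v.1 ((l i : ℤ) : K) ≤ 1 := fun v i => fin_int_le v (l i)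
  have hform : ∀ v : FinitePlace K, v x ≤ nv v (c.U j) ^ k := fun v =>
    loc_form (fin_na v) k (hc v) (c.U j)
  have hnv : ∀ v : FinitePlace K, 0 < nv v (c.U j) := fun v => nvpos_HsM3 v (c.U_ne j)
  have hone : ∀ v : FinitePlace K, v x ≤ 1 := fun v =>
    (hform v).trans (pow_le_one₀ (hnv v).le (max_le (c.U_le v j 0) (c.U_le v j 1)))
  have harch : ∀ φ : K →+* ℂ, Real.log ‖φ x‖ ≤ k + h + k * L := fun φ => by
    refine (Real.log_le_iff_le_exp (norm_pos_iff.2 ((map_ne_zero φ).2 h0))).2 ?_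
    rw [hx, hev_map]
    refine norm_hev_HsM3 k _ _ (fun i => ?_) (hL φ)
    rw [map_intCast, Complex.norm_intCast]
    exact hh i
  have main := prod_le h0 hone (c.SO X ∪ c.SN X) harch
  rw [sum_two_HsM3] at main
  have hO : ∀ v ∈ c.SO X, cv v (c.U (j + m)) - cv v (c.U j) + k * cv v (c.U j) ≤
      -Real.log (v x) := by
    intro v hv
    have hp : ∀ r, v.1 (hev k (fun i => (l i : K)) (perp (c.D.toK.W j m) r)) ≤
        v.1 (c.D.toK.W j m).det := fun r => by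
      obtain ⟨y, hy⟩ := hl r
      have h1 := congrArg (algebraMap (𝓞 K) K) hy
      rw [hev_map, perp_map_HsM3, map_mul, map_natCast] at h1
      simp only [map_intCast] at h1
      rw [h1, map_mul]
      have h2 : v.1 (algebraMap (𝓞 K) K y) ≤ 1 := v_ring_le v y
      have h3 : v.1 (c.N0 X m : K) ≤ v.1 (c.D.toK.W j m).det := c.N0_le hX hv hj
      exact (mul_le_of_le_one_right (v.1.nonneg _) h2).trans h3
    have h4 : v x * nv v (c.U j) ≤ nv v (c.U j) ^ k * nv v (c.D.toK.W j m *ᵥ c.U j) :=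
      loc_fwd (fin_na v) k (hc v) (c.W_le v j m) (c.unit_entry (Ctx.mem_SO.1 hv).2.2 j m) hp (c.U j)
    rw [← c.orb.eq j m] at h4
    have h5 := Real.log_le_log (mul_pos (fpos_HsM3 v h0) (hnv v)) h4
    rw [Real.log_mul (fpos_HsM3 v h0).ne' (hnv v).ne',
      Real.log_mul (pow_pos (hnv v) k).ne' (nvpos_HsM3 v (c.U_ne (j + m))).ne', Real.log_pow] at h5
    simp only [cv]
    linarith
  have hN : ∀ v ∈ c.SN X, k * cv v (c.U j) ≤ -Real.log (v x) := by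
    intro v _
    have h5 := Real.log_le_log (fpos_HsM3 v h0) (hform v)
    rw [Real.log_pow] at h5
    simp only [cv]
    linarith
  have s1 := sum_le_sum hO
  have s2 := sum_le_sum hN
  rw [sum_add_distrib, sum_sub_distrib, ← mul_sum] at s1
  rw [← mul_sum] at s2
  rw [mul_add]
  linarith

theorem inv_nonneg_HsM3 (p : ℕ) (hp : p.Prime) : 0 ≤ 1 / ((p : ℝ) - 1) := by
  have h : (2 : ℝ) ≤ p := by exact_mod_cast hp.two_le
  exact (one_div_pos.2 (by linarith)).le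

theorem Ctx.sums (c : Ctx K κ) : ∃ C : ℝ, 0 ≤ C ∧ ∀ X : ℕ, 1 ≤ X →
    ∑ v ∈ c.SO X, ep X v ≤ C * X ∧ ∑ v ∈ c.SN X, ep X v ≤ C * X ∧
    (∀ Y ≤ X, ∑ v ∈ SX K Y, ep X v ≤ C * X) ∧
    ∑ v ∈ c.SO X, mu v + ∑ v ∈ c.SN X, mu v ≤ Module.finrank ℚ K * Real.log X + C := by
  classical
  obtain ⟨a, ha, h⟩ := cheb_mert
  have hd : (0 : ℝ) ≤ Module.finrank ℚ K := Nat.cast_nonneg _
  refine ⟨Module.finrank ℚ K * a, mul_nonneg hd ha, fun X hX => ?_⟩
  have key : ∀ S : Finset (FinitePlace K), (∀ v ∈ S, pv v ≤ X) →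
      ∑ v ∈ S, ep X v ≤ Module.finrank ℚ K * a * X := fun S hS => by
    refine (sum_el S hS (fun p => (Nat.log p X : ℝ)) fun p _ => Nat.cast_nonneg _).trans ?_
    rw [mul_assoc]
    exact mul_le_mul_of_nonneg_left (h X hX).1 hd
  refine ⟨key _ fun v hv => (Ctx.mem_SO.1 hv).1, key _ fun v hv => (Ctx.mem_SN.1 hv).1,
    fun Y hY => key _ fun v hv => (mem_SX.1 hv).trans hY, ?_⟩
  rw [← sum_two_HsM3, ← mul_add]
  refine (sum_el (c.SO X ∪ c.SN X) (X := X) (fun v hv => ?_) (fun p => 1 / ((p : ℝ) - 1))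
    inv_nonneg_HsM3).trans (mul_le_mul_of_nonneg_left (h X hX).2 hd)
  rcases mem_union.1 hv with hv | hv
  · exact (Ctx.mem_SO.1 hv).1
  · exact (Ctx.mem_SN.1 hv).1

theorem Ctx.mu_big (c : Ctx K κ) (M : ℝ) : ∃ X0 : ℕ, ∀ X ≥ X0, M ≤ ∑ v ∈ c.SO X, mu v := by
  obtain ⟨T, hT, hM⟩ := c.div c.B M
  refine ⟨T.sup id, fun X hX => hM.trans (le_trans (sum_le_sum fun p hp => ?_)
    (sum_el_ge (c.SO X) T (fun p hp => ?_) (fun p => 1 / ((p : ℝ) - 1)) inv_nonneg_HsM3))⟩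
  · have h3 : (3 : ℝ) ≤ p := by
      have h1 := (hT p hp).1
      have h2 := c.two
      exact_mod_cast (by omega : 3 ≤ p)
    have h4 : 1 ≤ Real.log p := by
      rw [Real.le_log_iff_exp_le (by linarith)]
      have := Real.exp_one_lt_d9
      linarith
    have h5 : (1 : ℝ) / p ≤ 1 / ((p : ℝ) - 1) :=
      one_div_le_one_div_of_le (by linarith) (by linarith)
    exact h5.trans (le_mul_of_one_le_left (one_div_pos.2 (by linarith)).le h4)
  · obtain ⟨hB, v, hv, hO⟩ := hT p hp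
    have h1 : p ≤ T.sup id := le_sup (f := id) hp
    exact ⟨v, Ctx.mem_SO.2 ⟨hv ▸ h1.trans hX, hv ▸ hB, hO⟩, hv⟩

theorem Ctx.hord (c : Ctx K κ) (N : ℕ) : ∃ p : ℕ, N < p ∧ p.Prime ∧
    ∃ (F : Type) (_ : Field F) (_ : CharP F p) (φ : 𝓞 K →+* F),
      φ c.D.ga ≠ 0 ∧ (c.D.a : F) ≠ 0 ∧ ((c.D.map φ).W 0 p).trace ≠ 0 := by
  obtain ⟨T, hT, hM⟩ := c.div (max N c.B) 1
  obtain ⟨p, hp⟩ : T.Nonempty := by
    refine nonempty_iff_ne_empty.2 fun h => ?_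
    rw [h, sum_empty] at hM
    exact absurd hM (by norm_num)
  obtain ⟨hB, v, rfl, hO⟩ := hT p hp
  obtain ⟨F, iF, iC, φ, hφ⟩ := exists_res v
  obtain ⟨g1, g2, -, -⟩ := c.good v ((le_max_right _ _).trans_lt hB)
  refine ⟨pv v, (le_max_left _ _).trans_lt hB, pv_prime v, F, iF, iC, φ, fun h => ?_,
    fun h => g2 ((CharP.cast_eq_zero_iff F (pv v) _).1 h), fun h => ?_⟩
  · exact absurd ((hφ _).1 h) (not_lt.2 g1.ge)
  · have e : ∀ {B : Type} [CommRing B] (f : 𝓞 K →+* B),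
        f (c.D.W 0 (pv v)).trace = ((c.D.map f).W 0 (pv v)).trace := fun f => by
      rw [trace_fin_two, trace_fin_two, map_add, Par.W_map_apply, Par.W_map_apply, map_zero]
    have h1 := (hφ _).1 ((e φ).trans h)
    rw [e] at h1
    exact absurd h1 (not_lt.2 (Eq.ge hO))

end Pool.Agent.P.MP_68214b_ag
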