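import Pool.Agent.P.MP_68214b_ag.HsZ0

open Polynomial Finset Matrix NumberField

namespace Pool.Agent.P.MP_68214b_ag

theorem coeff_swap_HsZ5 {R : Type} [CommRing R] (p : R[X][X]) (i j : ℕ) :
    ((Bivariate.swap p).coeff i).coeff j = (p.coeff j).coeff i := by
  induction p using Polynomial.induction_on' with
  | add p q hp hq => simp only [map_add, coeff_add, hp, hq]
  | monomial n f =>
    rw [Bivariate.swap_monomial, coeff_mul_C, coeff_map, coeff_C_mul, coeff_X_pow, coeff_monomial]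
    by_cases hn : n = j
    · subst hn; simp
    · simp [hn, Ne.symm hn]

theorem deg_dvd_HsZ5 {F : Type} [Field F] {m P : F[X][X]} (hP : P ≠ 0) (hd : m ∣ P) {s : ℕ}
    (hs : ∀ i, (P.coeff i).natDegree ≤ s) (i : ℕ) : (m.coeff i).natDegree ≤ s := by
  have h1 : (Bivariate.swap P).natDegree ≤ s := by
    rw [natDegree_le_iff_coeff_eq_zero]
    intro n hn
    ext j
    rw [coeff_swap_HsZ5, coeff_zero]
    exact coeff_eq_zero_of_natDegree_lt (lt_of_le_of_lt (hs j) hn)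
  have h2 : Bivariate.swap P ≠ 0 := by
    intro h
    exact hP ((map_eq_zero_iff _ (Bivariate.swap (R := F)).injective).1 h)
  have h3 : (Bivariate.swap m).natDegree ≤ s :=
    (natDegree_le_of_dvd (map_dvd (Bivariate.swap (R := F)) hd) h2).trans h1
  rw [natDegree_le_iff_coeff_eq_zero]
  intro n hn
  rw [← coeff_swap_HsZ5, coeff_eq_zero_of_natDegree_lt (lt_of_le_of_lt h3 hn), coeff_zero]

theorem irr_dvd_HsZ5 {F Ω : Type} [Field F] [Field Ω] (φ : F[X] →+* Ω)
    (hφ : Function.Injective φ) {m P : F[X][X]} (hm : Irreducible m) (hd : m.natDegree ≠ 0)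
    {r : Ω} (h1 : m.eval₂ φ r = 0) (h2 : P.eval₂ φ r = 0) : m ∣ P := by
  have hp : m.IsPrimitive := hm.isPrimitive hd
  have hi : Irreducible (m.map (algebraMap F[X] (FractionRing F[X]))) :=
    (hp.irreducible_iff_irreducible_map_fraction_map).1 hm
  refine hp.dvd_of_fraction_map_dvd_fraction_map (K := FractionRing F[X]) ?_
  let ψ : FractionRing F[X] →+* Ω := IsFractionRing.lift hφ
  have hψ : ψ.comp (algebraMap F[X] (FractionRing F[X])) = φ := by
    refine RingHom.ext fun x => ?_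
    exact IsFractionRing.lift_algebraMap hφ x
  have e1 : (m.map (algebraMap F[X] (FractionRing F[X]))).eval₂ ψ r = 0 := by
    rw [eval₂_map, hψ, h1]
  have e2 : (P.map (algebraMap F[X] (FractionRing F[X]))).eval₂ ψ r = 0 := by
    rw [eval₂_map, hψ, h2]
  by_contra hn
  obtain ⟨u, v, huv⟩ := (hi.coprime_iff_not_dvd).2 hn
  have := congrArg (eval₂ ψ r) huv
  rw [eval₂_add, eval₂_mul, eval₂_mul, e1, e2, eval₂_one] at this
  simp at this

theorem exists_irr_HsZ5 {F Ω : Type} [Field F] [Field Ω] (φ : F[X] →+* Ω) {r : Ω}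
    (q : F[X][X]) (hq : q ≠ 0) (h : q.eval₂ φ r = 0) :
    ∃ m, Irreducible m ∧ m ∣ q ∧ m.eval₂ φ r = 0 := by
  induction q using WfDvdMonoid.induction_on_irreducible with
  | zero => exact absurd rfl hq
  | unit u hu =>
    exfalso
    have := hu.map (eval₂RingHom φ r)
    rw [coe_eval₂RingHom, h] at this
    exact not_isUnit_zero this
  | mul a p ha hp ih =>
    rw [eval₂_mul] at h
    rcases mul_eq_zero.1 h with h | h
    · exact ⟨p, hp, dvd_mul_right _ _, h⟩
    · obtain ⟨m, hm, hd, he⟩ := ih ha h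
      exact ⟨m, hm, hd.mul_left _, he⟩

theorem quad_HsZ5 {F Ω : Type} [Field F] [Field Ω] (φ : F[X] →+* Ω)
    (hφ : Function.Injective φ) {a b c : F[X]} (ha : a ≠ 0) {P : F[X][X]} (hP : P ≠ 0) {s : ℕ}
    (hs : ∀ i, (P.coeff i).natDegree ≤ s) {r : Ω} (h1 : φ a * r ^ 2 + φ b * r + φ c = 0)
    (h2 : P.eval₂ φ r = 0) : ∃ g e : F[X], b ^ 2 - 4 * a * c = g ^ 2 * e ∧ e.natDegree ≤ 2 * s := by
  set q : F[X][X] := C a * X ^ 2 + C b * X + C c with hq
  have hqd : q.natDegree = 2 := natDegree_quadratic ha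
  have hq0 : q ≠ 0 := by
    intro h; rw [h] at hqd; simp at hqd
  have hqe : q.eval₂ φ r = 0 := by
    simp only [hq, eval₂_add, eval₂_mul, eval₂_C, eval₂_X, eval₂_X_pow]; exact h1
  have c0 : q.coeff 0 = c := by simp [hq]
  have c1 : q.coeff 1 = b := by simp [hq, coeff_C]
  have c2 : q.coeff 2 = a := by simp [hq]
  obtain ⟨m, hm, ⟨m', hmm⟩, he⟩ := exists_irr_HsZ5 φ q hq0 hqe
  have hm0 : m ≠ 0 := hm.ne_zero
  have hm'0 : m' ≠ 0 := by
    rintro rfl; exact hq0 (by rw [hmm, mul_zero])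
  have hd : m.natDegree ≠ 0 := by
    intro h
    rw [eq_C_of_natDegree_eq_zero h, eval₂_C] at he
    have : m.coeff 0 = 0 := hφ (by rw [he, map_zero])
    exact hm0 (by rw [eq_C_of_natDegree_eq_zero h, this, C_0])
  have hsum : m.natDegree + m'.natDegree = 2 := by
    rw [← natDegree_mul hm0 hm'0, ← hmm, hqd]
  have hdiv : m ∣ P := irr_dvd_HsZ5 φ hφ hm hd he h2
  have d0 : c = m.coeff 0 * m'.coeff 0 := by rw [← c0, hmm, mul_coeff_zero]
  have d1 : b = m.coeff 0 * m'.coeff 1 + m.coeff 1 * m'.coeff 0 := by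
    rw [← c1, hmm, coeff_mul]; simp [Finset.Nat.antidiagonal_succ]
  have d2 : a = m.coeff 0 * m'.coeff 2 + m.coeff 1 * m'.coeff 1 + m.coeff 2 * m'.coeff 0 := by
    rw [← c2, hmm, coeff_mul]; simp [Finset.Nat.antidiagonal_succ, add_assoc]
  rcases Nat.lt_or_ge m.natDegree 2 with h | h
  · have z1 : m.coeff 2 = 0 := coeff_eq_zero_of_natDegree_lt h
    have z2 : m'.coeff 2 = 0 := coeff_eq_zero_of_natDegree_lt (by omega)
    refine ⟨m.coeff 0 * m'.coeff 1 - m.coeff 1 * m'.coeff 0, 1, ?_, by simp⟩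
    rw [d0, d1, d2, z1, z2]; ring
  · have z1 : m'.coeff 1 = 0 := coeff_eq_zero_of_natDegree_lt (by omega)
    have z2 : m'.coeff 2 = 0 := coeff_eq_zero_of_natDegree_lt (by omega)
    refine ⟨m'.coeff 0, m.coeff 1 ^ 2 - 4 * m.coeff 2 * m.coeff 0, ?_, ?_⟩
    · rw [d0, d1, d2, z1, z2]; ring
    · have b0 := deg_dvd_HsZ5 hP hdiv hs 0
      have b1 := deg_dvd_HsZ5 hP hdiv hs 1
      have b2 := deg_dvd_HsZ5 hP hdiv hs 2
      refine (natDegree_sub_le _ _).trans (max_le ?_ ?_)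
      · exact natDegree_pow_le.trans (by omega)
      · refine natDegree_mul_le.trans ?_
        have : ((4 : F[X]) * m.coeff 2).natDegree ≤ s := by
          refine natDegree_mul_le.trans ?_
          have : (4 : F[X]).natDegree = 0 := natDegree_natCast 4
          omega
        omega

theorem hpol_coeff_HsZ5 {A : Type} [CommRing A] (k : ℕ) (c : ℕ → A) (i : ℕ) :
    (hpol k c).coeff i = if i ≤ k then c i else 0 := by
  simp only [hpol, finsetSum_coeff, coeff_monomial]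
  rw [Finset.sum_ite_eq']
  simp

theorem gauss_disc {F Ω : Type} [Field F] [Field Ω] (φ : F[X] →+* Ω) (hφ : Function.Injective φ)
    (N : Matrix (Fin 2) (Fin 2) F[X]) {k s : ℕ} {c : ℕ → F[X]} (hc : ∃ i ≤ k, c i ≠ 0)
    (hs : ∀ i, (c i).natDegree ≤ s) {w : Fin 2 → Ω} (hw : w ≠ 0)
    (h0 : hev k (fun i => φ (c i)) w = 0) (h : wed w (N.map φ *ᵥ w) = 0) :
    ∃ g e : F[X], N.trace ^ 2 - 4 * N.det = g ^ 2 * e ∧ e.natDegree ≤ 2 * s := by
  have hΔ : N.trace ^ 2 - 4 * N.det = (N 1 1 - N 0 0) ^ 2 - 4 * N 1 0 * (-N 0 1) := by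
    rw [trace_fin_two, det_fin_two]; ring
  have hE : φ (N 1 0) * w 0 ^ 2 + φ (N 1 1 - N 0 0) * w 0 * w 1 + φ (-N 0 1) * w 1 ^ 2 = 0 := by
    simp only [wed, mulVec, dotProduct, Fin.sum_univ_two, Matrix.map_apply] at h
    rw [map_sub, map_neg, ← h]; ring
  by_cases ha : N 1 0 = 0
  · exact ⟨N 1 1 - N 0 0, 1, by rw [hΔ, ha]; ring, by simp⟩
  have hw1 : w 1 ≠ 0 := by
    intro h1
    have hw0 : w 0 ≠ 0 := by
      intro h0'
      apply hw
      ext i
      fin_cases i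
      · exact h0'
      · exact h1
    rw [h1] at hE
    have : φ (N 1 0) * w 0 ^ 2 = 0 := by simpa using hE
    rcases mul_eq_zero.1 this with h2 | h2
    · exact ha (hφ (by rw [h2, map_zero]))
    · exact hw0 (pow_eq_zero_iff (two_ne_zero) |>.1 h2)
  rw [hΔ]
  refine quad_HsZ5 φ hφ ha (P := hpol k c) ?_ ?_ (r := w 0 / w 1) ?_ ?_
  · obtain ⟨i, hi, hci⟩ := hc
    intro hz
    have := hpol_coeff_HsZ5 k c i
    rw [hz, coeff_zero, if_pos hi] at this
    exact hci this.symm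
  · intro i
    rw [hpol_coeff_HsZ5]
    split_ifs
    · exact hs i
    · simp
  · have : φ (N 1 0) * (w 0 / w 1) ^ 2 + φ (N 1 1 - N 0 0) * (w 0 / w 1) + φ (-N 0 1) =
        (φ (N 1 0) * w 0 ^ 2 + φ (N 1 1 - N 0 0) * w 0 * w 1 + φ (-N 0 1) * w 1 ^ 2) / w 1 ^ 2 := by
      field_simp
    rw [this, hE, zero_div]
  · have h2 := hev_smul k (fun i => φ (c i)) (w 1)⁻¹ w
    rw [h0, mul_zero] at h2
    rw [← h2, hpol, hev, eval₂_finsetSum]
    refine sum_congr rfl fun i _ => ?_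
    rw [eval₂_monomial]
    simp only [Pi.smul_apply, smul_eq_mul, inv_mul_cancel₀ hw1, one_pow, mul_one]
    rw [div_eq_inv_mul]

end Pool.Agent.P.MP_68214b_ag
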