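import Pool.Agent.P.MP_68214b_ag.HsZ3

open Polynomial Finset Matrix NumberField

namespace Pool.Agent.P.MP_68214b_ag

variable {F : Type} [Field F] {κ : ℕ}

theorem exists_shift (F : Type) [Field F] : ∃ (Ω : Type) (_ : Field Ω) (_ : IsAlgClosed Ω)
    (φ : F[X] →+* Ω) (σ : Ω ≃+* Ω), Function.Injective φ ∧ ∀ f, σ (φ f) = φ (sh 1 f) := by
  let K0 := FractionRing F[X]
  let Ω := AlgebraicClosure K0
  let e : F[X] ≃+* F[X] := (algEquivAevalXAddC (1 : F)).toRingEquiv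
  let e1 : K0 ≃+* K0 := IsFractionRing.ringEquivOfRingEquiv e
  let e2 : Ω ≃+* Ω := IsAlgClosure.equivOfEquiv Ω Ω e1
  refine ⟨Ω, inferInstance, inferInstance, (algebraMap K0 Ω).comp (algebraMap F[X] K0), e2,
    (algebraMap K0 Ω).injective.comp (IsFractionRing.injective F[X] K0), fun f => ?_⟩
  have h1 : e f = sh 1 f := by
    simp [e, sh, algEquivAevalXAddC, comp_eq_aeval]
  simp only [RingHom.comp_apply]
  rw [IsAlgClosure.equivOfEquiv_algebraMap, IsFractionRing.ringEquivOfRingEquiv_algebraMap, h1]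

theorem pow_phi_HsZ6 {Ω : Type} [Field Ω] (φ : F[X] →+* Ω) (σ : Ω ≃+* Ω)
    (hσ : ∀ f, σ (φ f) = φ (sh 1 f)) (n : ℕ) (f : F[X]) :
    ((σ : Ω →+* Ω) ^ n) (φ f) = φ (sh n f) := by
  induction n with
  | zero => simp [sh_zero]
  | succ n ih =>
    rw [pow_succ', sh_succ, ← hσ, ← ih]; rfl

/-- one step of the twisted chain -/
noncomputable def step_HsZ6 {Ω : Type} [Field Ω] (σ : Ω ≃+* Ω) (T : Matrix (Fin 2) (Fin 2) Ω)
    (v : Fin 2 → Ω) : Fin 2 → Ω := fun r => σ.symm ((T *ᵥ v) r)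

theorem step_ne_HsZ6 {Ω : Type} [Field Ω] (σ : Ω ≃+* Ω) {T : Matrix (Fin 2) (Fin 2) Ω}
    (hT : T.det ≠ 0) {v : Fin 2 → Ω} (hv : v ≠ 0) : step_HsZ6 σ T v ≠ 0 := by
  intro h
  apply hv
  have h2 : T *ᵥ v = 0 := by
    ext r
    have := congrFun h r
    simpa [step_HsZ6] using this
  exact Matrix.eq_zero_of_mulVec_eq_zero hT h2

theorem step_wed_HsZ6 {Ω : Type} [Field Ω] (σ : Ω ≃+* Ω) (T : Matrix (Fin 2) (Fin 2) Ω)
    {v w : Fin 2 → Ω} (h : wed v w = 0) : wed (step_HsZ6 σ T v) (step_HsZ6 σ T w) = 0 := by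
  have h1 := wed_mulVec T v w
  rw [h, mul_zero] at h1
  have h2 : wed (step_HsZ6 σ T v) (step_HsZ6 σ T w) = σ.symm (wed (T *ᵥ v) (T *ᵥ w)) := by
    simp only [wed, step_HsZ6, map_sub, map_mul]
  rw [h2, h1, map_zero]

theorem chain_all {Ω : Type} [Field Ω] (φ : F[X] →+* Ω) (hφ : Function.Injective φ)
    (σ : Ω ≃+* Ω) (hσ : ∀ f, σ (φ f) = φ (sh 1 f)) (D : Par F κ) (hq : (D.map C).q X ≠ 0)
    {k : ℕ} {c : ℕ → F[X]} (hc : ∃ i ≤ k, c i ≠ 0) {w : Fin 2 → Ω} (hw : w ≠ 0)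
    (h : ∀ i ≤ k, hev k (fun j => φ (sh i (c j))) ((D.WX i).map φ *ᵥ w) = 0) (i : ℕ) :
    hev k (fun j => φ (sh i (c j))) ((D.WX i).map φ *ᵥ w) = 0 := by
  set T : Matrix (Fin 2) (Fin 2) Ω := ((D.map C).T X).map φ with hTdef
  have hT : T.det ≠ 0 := by
    have : T.det = φ ((D.map C).T X).det := (RingHom.map_det φ _).symm
    rw [this, Par.T_det, map_neg, neg_ne_zero]
    exact fun h0 => hq (hφ (by rw [h0, map_zero]))
  let u : ℕ → Fin 2 → Ω := fun n => (step_HsZ6 σ T)^[n] w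
  have hu : ∀ n, u (n + 1) = step_HsZ6 σ T (u n) := fun n => Function.iterate_succ_apply' _ _ _
  have hne : ∀ n, u n ≠ 0 := by
    intro n
    induction n with
    | zero => exact hw
    | succ n ih => rw [hu]; exact step_ne_HsZ6 σ hT ih
  have hW : ∀ n, (fun r => ((σ : Ω →+* Ω) ^ n) (u n r)) = (D.WX n).map φ *ᵥ w := by
    intro n
    induction n with
    | zero => ext r; simp [u, Par.WX]
    | succ n ih =>
      ext r
      have e1 : ((σ : Ω →+* Ω) ^ (n + 1)) (u (n + 1) r) = ((σ : Ω →+* Ω) ^ n) ((T *ᵥ u n) r) := by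
        rw [pow_succ, hu]
        change ((σ : Ω →+* Ω) ^ n) (σ (σ.symm _)) = _
        rw [RingEquiv.apply_symm_apply]
      have e2 : T.map ((σ : Ω →+* Ω) ^ n) = ((D.map C).T (X + (n : F[X]))).map φ := by
        have e3 := (D.map C).T_map (sh n) X
        rw [Par.map_C_sh, sh_X] at e3
        rw [← e3]
        ext a b
        simp only [hTdef, Matrix.map_apply]
        exact pow_phi_HsZ6 φ σ hσ n _
      rw [e1, RingHom.map_mulVec, e2]
      have e4 : (⇑((σ : Ω →+* Ω) ^ n) ∘ u n) = (D.WX n).map φ *ᵥ w := ih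
      rw [e4, mulVec_mulVec, ← Matrix.map_mul]
      rfl
  have hiff : ∀ n, hev k (fun j => φ (sh n (c j))) ((D.WX n).map φ *ᵥ w) =
      ((σ : Ω →+* Ω) ^ n) (hev k (fun j => φ (c j)) (u n)) := by
    intro n
    rw [hev_map, hW n]
    simp only [pow_phi_HsZ6 φ σ hσ]
  have hroot : ∀ n ≤ k, hev k (fun j => φ (c j)) (u n) = 0 := by
    intro n hn
    have := h n hn
    rw [hiff] at this
    exact ((σ : Ω →+* Ω) ^ n).injective (by rw [this, map_zero])
  have hc' : ∃ i ≤ k, φ (c i) ≠ 0 := by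
    obtain ⟨j, hj, hj0⟩ := hc
    exact ⟨j, hj, fun h0 => hj0 (hφ (by rw [h0, map_zero]))⟩
  obtain ⟨a, b, hab, hbk, hpar⟩ :=
    two_par (c := fun j => φ (c j)) hc' (w := u) fun n hn => ⟨hne n, hroot n hn⟩
  have hpar' : ∀ n, wed (u (a + n)) (u (b + n)) = 0 := by
    intro n
    induction n with
    | zero => exact hpar
    | succ n ih => rw [← add_assoc, ← add_assoc, hu, hu]; exact step_wed_HsZ6 σ T ih
  have hall : ∀ n, hev k (fun j => φ (c j)) (u n) = 0 := by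
    intro n
    induction n using Nat.strong_induction_on with
    | _ n ih =>
      by_cases hn : n ≤ k
      · exact hroot n hn
      · obtain ⟨m, rfl⟩ : ∃ m, n = b + m := ⟨n - b, by omega⟩
        obtain ⟨t, ht⟩ := par_smul (hne (a + m)) (hpar' m)
        rw [ht, hev_smul, ih (a + m) (by omega), mul_zero]
  rw [hiff, hall, map_zero]

end Pool.Agent.P.MP_68214b_ag
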