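import Pool.Agent.P.MP_68214b_ag.HsZ4
import Pool.Agent.P.MP_68214b_ag.HsZ5
import Pool.Agent.P.MP_68214b_ag.HsZ6

open Polynomial Finset Matrix NumberField

namespace Pool.Agent.P.MP_68214b_ag

theorem no_common {F Ω : Type} [Field F] [Field Ω] {p κ : ℕ} [CharP F p] (hp : p.Prime)
    (h2 : p ≠ 2) (φ : F[X] →+* Ω) (hφ : Function.Injective φ) (σ : Ω ≃+* Ω)
    (hσ : ∀ f, σ (φ f) = φ (sh 1 f)) (D : Par F κ) (ok : D.Ok) (hga : D.ga ≠ 0)
    (ha : (D.a : F) ≠ 0) (ht : (D.W 0 p).trace ≠ 0) {k s : ℕ} {c : ℕ → F[X]}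
    (hc : ∃ i ≤ k, c i ≠ 0) (hs : ∀ i, (c i).natDegree ≤ s) (hps : 2 * s < p)
    {w : Fin 2 → Ω} (hw : w ≠ 0)
    (h : ∀ i ≤ k, hev k (fun j => φ (sh i (c j))) ((D.WX i).map φ *ᵥ w) = 0) : False := by
  obtain ⟨s0, g, hg, hk, htr, hdet⟩ := shape hp h2 D ok hga ha
  have hXp : (X ^ p - X : F[X]) ≠ 0 := FiniteField.X_pow_card_sub_X_ne_zero F hp.one_lt
  have hd0 : (D.WX p).det ≠ 0 := by
    rw [hdet]
    exact neg_ne_zero.2 (mul_ne_zero (C_ne_zero.2 hg) (pow_ne_zero _ hXp))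
  have hq : (D.map C).q X ≠ 0 := by
    intro hq
    apply hd0
    rw [Par.WX, Par.W_det]
    refine prod_eq_zero (mem_range.2 hp.pos) ?_
    simp [hq]
  have hall := chain_all φ hφ σ hσ D hq hc hw h
  have hsh : ∀ (l : ℕ) (f : F[X]), sh (p * l) f = f := by
    intro l f
    have : ((p * l : ℕ) : F[X]) = 0 := by
      rw [Nat.cast_mul, CharP.cast_eq_zero F[X] p, zero_mul]
    simp only [sh, this, add_zero, coe_compRingHom_apply, comp_X]
  have hW : ∀ l : ℕ, D.WX (p * l) = D.WX p ^ l := fun l => W_period (D.map C) X l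
  have hroot : ∀ l : ℕ, hev k (fun j => φ (c j)) ((D.WX p ^ l).map φ *ᵥ w) = 0 := by
    intro l
    have := hall (p * l)
    simpa only [hsh, hW] using this
  have hdl : ∀ l : ℕ, ((D.WX p ^ l).map φ).det ≠ 0 := by
    intro l
    have e : ((D.WX p ^ l).map φ).det = φ ((D.WX p ^ l).det) := (RingHom.map_det φ _).symm
    rw [e, det_pow]
    exact (map_ne_zero_iff φ hφ).2 (pow_ne_zero _ hd0)
  have hne : ∀ l : ℕ, (D.WX p ^ l).map φ *ᵥ w ≠ 0 := fun l h0 =>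
    hw (Matrix.eq_zero_of_mulVec_eq_zero (hdl l) h0)
  have hc' : ∃ i ≤ k, (fun j => φ (c j)) i ≠ 0 := by
    obtain ⟨i, hi, hci⟩ := hc
    exact ⟨i, hi, (map_ne_zero_iff φ hφ).2 hci⟩
  obtain ⟨a, b, hab, -, hpar⟩ := two_par hc' (w := fun l => (D.WX p ^ l).map φ *ᵥ w)
    fun i _ => ⟨hne i, hroot i⟩
  obtain ⟨d, rfl⟩ := Nat.exists_eq_add_of_le hab.le
  have hd : 0 < d := by omega
  have hpar' : wed w ((D.WX p ^ d).map φ *ᵥ w) = 0 := by
    have e : (D.WX p ^ (a + d)).map φ *ᵥ w =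
        (D.WX p ^ a).map φ *ᵥ ((D.WX p ^ d).map φ *ᵥ w) := by
      rw [pow_add, Matrix.map_mul, mulVec_mulVec]
    simp only [e, wed_mulVec] at hpar
    exact (mul_eq_zero.1 hpar).resolve_left (hdl a)
  have hκ : κ ≠ 0 := by have := ok.le.1; omega
  have hev0 : evalRingHom (0 : F) (D.WX p).det = 0 := by
    rw [hdet]
    simp [hp.ne_zero, hκ]
  have hev1 : evalRingHom (0 : F) (D.WX p).trace ≠ 0 := by
    rw [htr]
    simpa [hp.ne_zero] using ht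
  have heig := eigen_of_pow φ hφ (D.WX p) (evalRingHom (0 : F)) hev0 hev1 hd hpar'
  have h0 : hev k (fun i => φ (c i)) w = 0 := by simpa using hroot 0
  obtain ⟨g', e, he, hdeg⟩ := gauss_disc φ hφ (D.WX p) hc hs hw h0 heig
  have hκ' : κ = 1 ∧ s0 = 0 ∨ κ = 2 := ok.imp (fun h1 => ⟨h1.1, hk h1.1⟩) id
  have H : (C s0 * (X ^ p - X) + C (D.W 0 p).trace) ^ 2 + 4 * (C g * (X ^ p - X) ^ κ) =
      g' ^ 2 * e := by
    rw [← he, htr, hdet]; ring
  have := disc_big hp h2 hg ht hκ' H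
  omega

end Pool.Agent.P.MP_68214b_ag
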