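import Pool.Agent.P.MP_68214b_ag.HsZ2
import Pool.Agent.P.MP_68214b_ag.HsZ7

open Polynomial Finset Matrix NumberField

namespace Pool.Agent.P.MP_68214b_ag

section Aux
variable {A B : Type} [CommRing A] [CommRing B] {κ : ℕ}

/-- the form number i pulled back along the window of length i -/
noncomputable def LL_HsZ8 (D : Par A κ) (k : ℕ) (c : ℕ → A[X]) (i : ℕ) : ℕ → A[X] :=
  hsub k (fun j => sh i (c j)) (D.WX i)

/-- the resultant of the first form and a combination of the pulled back forms -/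
noncomputable def RR_HsZ8 (D : Par A κ) (k : ℕ) (c : ℕ → A[X]) (τ : ℕ) : A[X] :=
  hres k (LL_HsZ8 D k c 0) fun j => ∑ i ∈ range (k + 1), (τ : A[X]) ^ i * LL_HsZ8 D k c i j

theorem hev_LL_HsZ8 (D : Par A κ) (k : ℕ) (c : ℕ → A[X]) (i : ℕ) (ψ : A[X] →+* B)
    (w : Fin 2 → B) : hev k (fun j => ψ (LL_HsZ8 D k c i j)) w =
      hev k (fun j => ψ (sh i (c j))) ((D.WX i).map ψ *ᵥ w) := by
  rw [← hev_hsub]
  congr 1
  funext j
  exact hsub_map ψ k _ _ j

theorem LL_map_HsZ8 (D : Par A κ) (φ : A →+* B) (k : ℕ) (c : ℕ → A[X]) (i j : ℕ) :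
    mapRingHom φ (LL_HsZ8 D k c i j) = LL_HsZ8 (D.map φ) k (fun j => (c j).map φ) i j := by
  unfold LL_HsZ8
  rw [hsub_map, Par.WX_map]
  simp only [coe_mapRingHom, map_sh]

theorem ring_RR_HsZ8 (D : Par A κ) (k : ℕ) (c : ℕ → A[X]) (τ : ℕ) (ψ : A[X] →+* B) :
    ψ (RR_HsZ8 D k c τ) = hres k (fun j => ψ (LL_HsZ8 D k c 0 j))
      fun j => ∑ i ∈ range (k + 1), (τ : B) ^ i * ψ (LL_HsZ8 D k c i j) := by
  unfold RR_HsZ8
  rw [hres_map]
  simp only [map_sum, map_mul, map_pow, map_natCast]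

theorem RR_map_HsZ8 (D : Par A κ) (φ : A →+* B) (k : ℕ) (c : ℕ → A[X]) (τ : ℕ) :
    (RR_HsZ8 D k c τ).map φ = RR_HsZ8 (D.map φ) k (fun j => (c j).map φ) τ := by
  have h := ring_RR_HsZ8 D k c τ (mapRingHom φ)
  simp only [LL_map_HsZ8] at h
  exact h

theorem LL_deg_HsZ8 (D : Par A κ) (hκ : κ ≤ 2) {k s : ℕ} {c : ℕ → A[X]}
    (hs : ∀ i, (c i).natDegree ≤ s) {i : ℕ} (hi : i ≤ k) (j : ℕ) :
    (LL_HsZ8 D k c i j).natDegree ≤ s + 2 * k * k := by
  refine (natDegree_hsub k (fun j => (natDegree_sh i _).trans (hs j)) (D.WX_deg hκ i) j).trans ?_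
  have := Nat.mul_le_mul_left k hi
  nlinarith

theorem RR_deg_HsZ8 (D : Par A κ) (hκ : κ ≤ 2) {k s : ℕ} {c : ℕ → A[X]}
    (hs : ∀ i, (c i).natDegree ≤ s) (τ : ℕ) :
    (RR_HsZ8 D k c τ).natDegree ≤ 2 * k * (s + 2 * k * k) := by
  refine natDegree_hres k (LL_deg_HsZ8 D hκ hs (Nat.zero_le k)) fun j => ?_
  refine natDegree_sum_le_of_forall_le _ _ fun i hi => ?_
  rw [← C_eq_natCast, ← C_pow]
  exact (natDegree_C_mul_le _ _).trans
    (LL_deg_HsZ8 D hκ hs (Nat.lt_succ_iff.1 (mem_range.1 hi)) j)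

theorem hev_comb_HsZ8 (k n : ℕ) (t : A) (L : ℕ → ℕ → A) (w : Fin 2 → A) :
    hev k (fun j => ∑ i ∈ range n, t ^ i * L i j) w = ∑ i ∈ range n, t ^ i * hev k (L i) w := by
  simp only [hev, sum_mul, mul_sum, mul_assoc]
  exact sum_comm

theorem LL_zero_HsZ8 (D : Par A κ) {k : ℕ} (c : ℕ → A[X]) {i : ℕ} (hi : i ≤ k) :
    LL_HsZ8 D k c 0 i = c i := by
  have h : D.WX 0 = 1 := rfl
  unfold LL_HsZ8 hsub
  rw [h, finsetSum_coeff, sum_eq_single i]
  · simp [sh_zero]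
  · intro j _ hj
    simp [coeff_X_pow, hj.symm]
  · intro hj
    exact absurd (mem_range.2 (Nat.lt_succ_of_le hi)) hj

end Aux

theorem RR_zero_HsZ8 {K : Type} [Field K] [CharZero K] {κ : ℕ} (D : Par K κ) (hκ : κ ≤ 2)
    {U : ℕ → Fin 2 → K} (orb : D.Orb U) (hU : ∀ j, U j ≠ 0) {k s : ℕ} (hk : 0 < k)
    {c : ℕ → K[X]} (hs : ∀ i, (c i).natDegree ≤ s)
    (h : ∀ j ≤ 2 * k * (s + 2 * k * k) + k, hev k (fun i => (c i).eval (j : K)) (U j) = 0)
    (τ : ℕ) : RR_HsZ8 D k c τ = 0 := by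
  classical
  refine eq_zero_of_natDegree_lt_card_of_eval_eq_zero' _
    ((range (2 * k * (s + 2 * k * k) + 1)).image (Nat.cast : ℕ → K)) (fun x hx => ?_) ?_
  · obtain ⟨j, hj, rfl⟩ := mem_image.1 hx
    have h1 : ∀ i ≤ k, hev k (fun l => evalRingHom (j : K) (LL_HsZ8 D k c i l)) (U j) = 0 := by
      intro i hi
      rw [hev_LL_HsZ8, Par.WX_eval, ← orb.eq]
      have h2 := h (j + i) (by have := mem_range.1 hj; omega)
      simpa only [coe_evalRingHom, eval_sh, Nat.cast_add] using h2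
    have h3 := ring_RR_HsZ8 D k c τ (evalRingHom (j : K))
    rw [coe_evalRingHom] at h3
    rw [h3]
    refine hres_eq_zero hk (hU j) (h1 0 (Nat.zero_le k)) ?_
    rw [hev_comb_HsZ8 k (k + 1) (τ : K) fun i l => eval (j : K) (LL_HsZ8 D k c i l)]
    refine sum_eq_zero fun i hi => ?_
    have h4 := h1 i (Nat.lt_succ_iff.1 (mem_range.1 hi))
    rw [coe_evalRingHom] at h4
    rw [h4, mul_zero]
  · rw [card_image_of_injective _ Nat.cast_injective, card_range]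
    exact Nat.lt_succ_of_le (RR_deg_HsZ8 D hκ hs τ)

theorem zero_lemma {R K : Type} [CommRing R] [Field K] [CharZero K] {κ : ℕ} (ι : R →+* K)
    (hι : Function.Injective ι) (D : Par R κ) (ok : D.Ok)
    (hord : ∀ N : ℕ, ∃ p : ℕ, N < p ∧ p.Prime ∧ ∃ (F : Type) (_ : Field F) (_ : CharP F p)
      (φ : R →+* F), φ D.ga ≠ 0 ∧ (D.a : F) ≠ 0 ∧ ((D.map φ).W 0 p).trace ≠ 0)
    {U : ℕ → Fin 2 → K} (orb : (D.map ι).Orb U) (hU : ∀ j, U j ≠ 0) {k s : ℕ} (hk : 0 < k)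
    {c : ℕ → ℤ[X]} (hc : ∃ i ≤ k, c i ≠ 0) (hs : ∀ i, (c i).natDegree ≤ s) :
    ∃ j ≤ 2 * k * (s + 2 * k * k) + k, hev k (fun i => (((c i).eval (j : ℤ) : ℤ) : K)) (U j) ≠ 0 := by
  classical
  by_contra hn
  have hm : ∀ {E : Type} [CommRing E] (f : R →+* E) (i : ℕ),
      ((c i).map (Int.castRingHom R)).map f = (c i).map (Int.castRingHom E) := fun f i => by
    rw [Polynomial.map_map]
    congr 1
    exact RingHom.ext_int _ _
  have h0 : ∀ τ : ℕ, RR_HsZ8 D k (fun i => (c i).map (Int.castRingHom R)) τ = 0 := fun τ => by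
    refine Polynomial.map_injective ι hι ?_
    rw [RR_map_HsZ8, Polynomial.map_zero]
    refine RR_zero_HsZ8 _ ok.le.2 orb hU hk
      (fun i => natDegree_map_le.trans (natDegree_map_le.trans (hs i))) (fun j hj => ?_) τ
    by_contra h1
    refine hn ⟨j, hj, fun h2 => h1 ?_⟩
    rw [← h2]
    congr 1
    funext i
    rw [hm, ← Int.cast_natCast, eval_intCast_map]
    rfl
  obtain ⟨i₀, hi₀, hc₀⟩ := hc
  obtain ⟨p, hN, hp, F, _, _, φ, hga, ha, ht⟩ :=
    hord (2 * s + k * k + 2 + (c i₀).leadingCoeff.natAbs)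
  obtain ⟨Ω, _, _, ψ, σ, hψ, hσ⟩ := exists_shift F
  have hchar : CharP Ω p := charP_of_injective_ringHom (f := ψ.comp C) (hψ.comp C_injective) p
  have hc₁ : (c i₀).map (Int.castRingHom F) ≠ 0 := fun h => by
    have h1 := congrArg (coeff · (c i₀).natDegree) h
    simp only [coeff_map, coeff_zero, eq_intCast, coeff_natDegree] at h1
    rw [CharP.intCast_eq_zero_iff F p, Int.natCast_dvd] at h1
    have h2 := Nat.le_of_dvd (Int.natAbs_pos.2 (leadingCoeff_ne_zero.2 hc₀)) h1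
    omega
  obtain ⟨w, hw, h⟩ := all_common (k := k)
    (L := fun i j => ψ (LL_HsZ8 (D.map φ) k (fun i => (c i).map (Int.castRingHom F)) i j))
    ⟨i₀, hi₀, by
      rw [LL_zero_HsZ8 _ _ hi₀]
      exact (map_ne_zero_iff ψ hψ).2 hc₁⟩
    ((range (k * k + 1)).image (Nat.cast : ℕ → Ω))
    (by
      rw [card_image_of_injOn, card_range]
      · exact Nat.lt_succ_self _
      · refine (CharP.natCast_injOn_Iio Ω p).mono fun x hx => ?_
        have h1 := mem_range.1 (mem_coe.1 hx)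
        exact Set.mem_Iio.2 (by omega))
    (fun t ht => by
      obtain ⟨τ, -, rfl⟩ := mem_image.1 ht
      refine common_of_hres hk ?_
      have h1 := RR_map_HsZ8 D φ k (fun i => (c i).map (Int.castRingHom R)) τ
      simp only [hm, h0, Polynomial.map_zero] at h1
      rw [← ring_RR_HsZ8, ← h1, map_zero])
  refine no_common hp (by omega) ψ hψ σ hσ (D.map φ) (ok.map φ) hga ha ht (k := k) (s := s)
    (c := fun i => (c i).map (Int.castRingHom F)) ⟨i₀, hi₀, hc₁⟩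
    (fun i => natDegree_map_le.trans (hs i)) (by omega) hw fun i hi => ?_
  rw [← hev_LL_HsZ8]
  exact h i hi

end Pool.Agent.P.MP_68214b_ag
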