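import Pool.Agent.P.MP_68214b_ag.HsM3
import Pool.Agent.P.MP_68214b_ag.HsH1
import Pool.Agent.P.MP_68214b_ag.HsZ8

open Polynomial Finset Matrix NumberField

namespace Pool.Agent.P.MP_68214b_ag

theorem real_end {κ d k n j m Y an aj am nj nn bn A N E h : ℝ} (hκ : 1 ≤ κ) (hκ2 : κ ≤ 2)
    (hk : 0 ≤ k) (hn : 0 < n) (hj : 0 ≤ j) (hm : 0 ≤ m) (hjm : j + m ≤ n) (hE : 0 ≤ E)
    (g1 : κ / 2 * n * (d * Y) - E ≤ an + nn + bn) (g2 : nn ≤ κ / 2 * n * N + E) (g3 : bn ≤ E)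
    (g4 : j / n * an - E ≤ aj) (g5 : (j + m) / n * an - E ≤ am) (g6 : κ / 2 * j * N - E ≤ nj)
    (g7 : aj + nj ≤ κ / 2 * j * (d * Y) + E)
    (g8 : am - aj + k * (aj + nj) ≤ h + k * (κ / 2 * j * (d * Y)) + (k + 1) * E)
    (g9 : m * (A + N) ≤ m * (d * Y) + E) (g10 : 4 * h ≤ κ * (m * A + E)) :
    m * A ≤ (24 * k + 40) * E := by
  have a1 : κ / 2 * n * (d * Y - N) - 3 * E ≤ an := by linarith
  have key : ∀ t : ℝ, 0 ≤ t → t ≤ n → κ / 2 * t * (d * Y - N) - 3 * E ≤ t / n * an := by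
    intro t t0 t1
    have h1 : 0 ≤ t / n := div_nonneg t0 hn.le
    have h2 : t / n ≤ 1 := (div_le_one hn).2 t1
    have h3 := mul_le_mul_of_nonneg_left a1 h1
    have h4 : t / n * (κ / 2 * n * (d * Y - N)) = κ / 2 * t * (d * Y - N) := by field_simp
    nlinarith
  have b1 := key j hj (by linarith)
  have b2 := key (j + m) (by linarith) hjm
  have c1 : κ / 2 * j * (d * Y) - 5 * E ≤ aj + nj := by linarith
  have c2 := mul_le_mul_of_nonneg_left c1 hk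
  have c3 : κ / 2 * m * (d * Y - N) - 6 * E ≤ am - aj := by linarith
  have c4 : κ / 2 * (m * A - E) ≤ κ / 2 * (m * (d * Y - N)) :=
    mul_le_mul_of_nonneg_left (by linarith) (by linarith)
  have c5 : κ * (m * A) ≤ (24 * k + 28) * E + 3 * κ * E := by nlinarith
  by_cases hA : m * A ≤ 0
  · exact hA.trans (by positivity)
  · nlinarith

end Pool.Agent.P.MP_68214b_ag
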