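import Pool.Agent.P.MP_68214b_ag.HsM4

open Polynomial Finset Matrix NumberField Filter

namespace Pool.Agent.P.MP_68214b_ag

variable {K : Type} [Field K] [NumberField K] {κ : ℕ}

theorem Ctx.aux (c : Ctx K κ) {k m N H : ℕ} (hk : 0 < k) (hm : 0 < m) (hN : 0 < N)
    (hH : N ^ (4 * Module.finrank ℚ K) < (H + 1) ^ (k + 1)) :
    ∃ j ≤ 2 * k * (2 * k * m + 2 * k * k) + k, ∃ l : ℕ → ℤ, (∀ i, |l i| ≤ H * 2 ^ j) ∧
      (∀ r, (N : 𝓞 K) ∣ hev k (fun i => (l i : 𝓞 K)) (perp (c.D.W j m) r)) ∧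
      hev k (fun i => (l i : K)) (c.U j) ≠ 0 := by
  obtain ⟨f, L, h1, h2, h3, h4, h5⟩ :=
    siegel c.D c.ok.le.2 hk hm hN (by rwa [RingOfIntegers.rank])
  obtain ⟨j, hj, h6⟩ := zero_lemma (algebraMap (𝓞 K) K) (RingOfIntegers.coe_injective) c.D c.ok
    c.hord c.orb c.U_ne hk h1 h2
  refine ⟨j, hj, fun i => L i j, fun i => h4 i j, h5 j, fun h => h6 ?_⟩
  simp only [h3, hev, Int.cast_mul, mul_assoc, ← mul_sum] at h ⊢
  rw [h, mul_zero]

theorem Ctx.growth (c : Ctx K κ) {C : ℝ} (hC : 1 ≤ C) :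
    ∀ᶠ n : ℕ in atTop, C ^ n < Height.mulHeight (c.U n) := by
  obtain ⟨Ca, Ca0, hCa⟩ := c.arch
  obtain ⟨Cb, Cb0, hCb⟩ := c.bad
  obtain ⟨Cs, Cs0, hCs⟩ := c.sums
  set d := Module.finrank ℚ K with hd
  have d0 : 0 < d := Module.finrank_pos
  have d2 : 0 < d ^ 2 := by positivity
  obtain ⟨k, hk⟩ : ∃ k, 16 * d ^ 2 = k + 1 := ⟨16 * d ^ 2 - 1, by omega⟩
  have k0 : 0 < k := by omega
  set c1 := c.D.a + ∑ i, c.D.b i + c.B + 1 with hc1
  set r := 4 * k * k + 2 with hr
  have r0 : 0 < r := by omega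
  have lC : 0 ≤ Real.log C := Real.log_nonneg hC
  set E0 : ℝ := d * (1 + Ca) + Real.log C + 6 * Cs * c1 + Cb + d * c1 + Cs with hE0
  obtain ⟨X0, hX0⟩ := c.mu_big ((24 * k + 40) * E0 * (2 * r) + 1)
  filter_upwards [eventually_ge_atTop X0, eventually_ge_atTop (r * (4 * k * k * k + k + 1))]
    with n n1 n2
  by_contra! hcon
  set m := n / r with hm
  have m1 : 4 * k * k * k + k + 1 ≤ m := (Nat.le_div_iff_mul_le r0).2 (by rwa [mul_comm])
  have m2 : r * m ≤ n := Nat.mul_div_le n r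
  have m3 : n < r * (m + 1) := Nat.lt_mul_div_succ n r0
  have n0 : 0 < n := lt_of_lt_of_le (by positivity) n2
  have c0 : 0 < c1 := by omega
  set X := c1 * n with hX
  have nX : n ≤ X := Nat.le_mul_of_pos_left n c0
  have bd : c.Bd n X := by
    refine ⟨nX, ?_, fun i => ?_⟩
    · calc c.B ≤ c1 := by omega
        _ ≤ X := Nat.le_mul_of_pos_right c1 n0
    · have h1 : c.D.b i ≤ ∑ i, c.D.b i := single_le_sum (fun _ _ => Nat.zero_le _) (mem_univ i)
      have h2 : c.D.b i ≤ (∑ i, c.D.b i) * n := h1.trans (Nat.le_mul_of_pos_right _ n0)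
      calc _ ≤ (c.D.a + ∑ i, c.D.b i) * n := by rw [add_mul]; omega
        _ ≤ X := Nat.mul_le_mul_right n (by omega)
  set N := c.N0 X m with hN
  have N0 : 0 < N := c.N0_pos X m
  set H := Nat.nthRoot (4 * d) N with hH
  have H1 : H ^ (4 * d) ≤ N := Nat.pow_nthRoot_le (Or.inl (by omega))
  have H2 : N < (H + 1) ^ (4 * d) := Nat.lt_pow_nthRoot_add_one (by omega) N
  have H0 : 0 < H := by
    by_contra h
    rw [show H = 0 by omega] at H2
    simp at H2; omega
  obtain ⟨j, hj, l, l1, l2, l3⟩ := c.aux k0 (by omega : 0 < m) N0 (H := H) (by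
    rw [← hk, show 16 * d ^ 2 = 4 * d * (4 * d) by ring, pow_mul (H + 1)]
    exact Nat.pow_lt_pow_left H2 (by omega))
  have jm : j + m ≤ n := by
    have : 2 * k * (2 * k * m + 2 * k * k) + 2 * m = r * m + 4 * k * k * k := by rw [hr]; ring
    omega
  obtain ⟨s1, s2, s3, s4⟩ := hCs X (by omega)
  have s5 := s3 c.B bd.2.1
  have n1' : (1 : ℝ) ≤ n := by exact_mod_cast n0
  have nR : (0 : ℝ) < n := by linarith
  have dR : (1 : ℝ) ≤ d := by exact_mod_cast d0
  have cR : (1 : ℝ) ≤ c1 := by exact_mod_cast c0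
  have XR : (X : ℝ) = c1 * n := by rw [hX]; push_cast; ring
  have jn : (j : ℝ) + m ≤ n := by exact_mod_cast jm
  have j0 : (0 : ℝ) ≤ j := Nat.cast_nonneg j
  have m0 : (0 : ℝ) ≤ m := Nat.cast_nonneg m
  have kR : (0 : ℝ) ≤ k := Nat.cast_nonneg k
  have p1 : 0 ≤ d * Ca * n := by positivity
  have p2 : 0 ≤ Real.log C * n := by positivity
  have p3 : 0 ≤ Cs * X := by positivity
  have p4 : 0 ≤ Cb * n := by positivity
  have p5 : (0 : ℝ) ≤ d * c1 * n := by positivity
  have p6 : 0 ≤ Cs * n := by positivity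
  have p7 : (0 : ℝ) ≤ d * n := by positivity
  have hE : E0 * n = d * n + d * Ca * n + Real.log C * n + 6 * (Cs * X) + Cb * n +
      d * c1 * n + Cs * n := by rw [hE0, XR]; ring
  have hlog : Real.log (Height.mulHeight (c.U n)) ≤ Real.log C * n := by
    rw [mul_comm, ← Real.log_pow]
    exact Real.log_le_log (Height.mulHeight_pos _) hcon
  have fin := real_end (κ := κ) (d := d) (k := k) (n := n) (j := j) (m := m) (Y := Real.log n)
    (an := ∑ v ∈ c.SO X, cv v (c.U n)) (aj := ∑ v ∈ c.SO X, cv v (c.U j))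
    (am := ∑ v ∈ c.SO X, cv v (c.U (j + m))) (nj := ∑ v ∈ c.SN X, cv v (c.U j))
    (nn := ∑ v ∈ c.SN X, cv v (c.U n)) (bn := ∑ v ∈ SX K c.B, cv v (c.U n))
    (A := ∑ v ∈ c.SO X, mu v) (N := ∑ v ∈ c.SN X, mu v) (E := E0 * n) (h := d * Real.log H)
    (by exact_mod_cast c.ok.le.1) (by exact_mod_cast c.ok.le.2) kR nR j0 m0 jn (by linarith)
    (by
      have := c.cont_ge bd fun φ => (hCa n n0 φ).2
      rw [← hd] at this; linarith)
    (by
      have := sum_le_sum fun v hv => c.neu_upper bd hv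
      rw [sum_add_distrib, ← mul_sum, ← mul_sum] at this; linarith)
    (by have := hCb n X n0 bd; linarith)
    (by
      have := sum_le_sum fun v hv => c.ord_prop bd hv n0 (by omega : j ≤ n)
      rw [sum_sub_distrib, ← mul_sum, ← mul_sum] at this; linarith)
    (by
      have := sum_le_sum fun v hv => c.ord_prop bd hv n0 jm
      rw [sum_sub_distrib, ← mul_sum, ← mul_sum] at this; push_cast at this; linarith)
    (by
      have := sum_le_sum fun v hv => c.neu_lower bd hv (by omega : j ≤ n)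
      rw [sum_sub_distrib, ← mul_sum, ← mul_sum] at this; linarith)
    (by
      have := c.cont_le X j fun φ => (hCa n n0 φ).1 j (by omega)
      rw [← hd] at this; linarith)
    (by
      have := c.aux_ineq bd jm l l2 l3 (h := Real.log H + j) (fun i => by
        rw [Real.exp_add, Real.exp_log (by exact_mod_cast H0), ← Int.cast_abs]
        refine (Int.cast_le.2 (l1 i)).trans ?_
        push_cast
        rw [← Real.exp_one_pow]
        gcongr
        linarith [Real.add_one_le_exp 1]) fun φ => (hCa n n0 φ).1 j (by omega)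
      rw [← hd] at this
      have q1 : (d : ℝ) * j ≤ d * n := by gcongr; linarith
      have q2 : (d : ℝ) ≤ d * n := le_mul_of_one_le_right (by linarith) n1'
      have q3 := mul_le_mul_of_nonneg_left (show (d : ℝ) + d * Ca * n ≤ E0 * n by linarith) kR
      linarith)
    (by
      have q1 : Real.log X ≤ Real.log n + c1 := by
        rw [XR, Real.log_mul (by linarith) nR.ne']
        linarith [Real.log_le_sub_one_of_pos (show (0 : ℝ) < c1 by linarith)]
      have q2 := mul_le_mul_of_nonneg_left q1 (show (0 : ℝ) ≤ d by linarith)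
      have q3 := mul_le_mul_of_nonneg_left (s4.trans (add_le_add_left q2 Cs)) m0
      have q4 : (m : ℝ) * (d * c1 + Cs) ≤ n * (d * c1 + Cs) := by gcongr; linarith
      linarith)
    (by
      have q1 := c.log_N0 X m
      have q2 : 4 * (d * Real.log H) ≤ Real.log N := by
        rw [← mul_assoc, show (4 * d : ℝ) = (4 * d : ℕ) by push_cast; ring, ← Real.log_pow]
        exact Real.log_le_log (by positivity) (by exact_mod_cast H1)
      refine q2.trans (q1.trans ?_)
      gcongr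
      linarith)
  have big := hX0 X (n1.trans nX)
  have E00 : 0 ≤ E0 := by positivity
  have q1 : (n : ℝ) ≤ 2 * r * m := by
    have : r * (m + 1) ≤ r * (2 * m) := Nat.mul_le_mul_left _ (by omega)
    have : r * (2 * m) = 2 * r * m := by ring
    exact_mod_cast (by omega : n ≤ 2 * r * m)
  have q2 : (0 : ℝ) < m := by exact_mod_cast (by omega : 0 < m)
  have q3 := mul_le_mul_of_nonneg_left big m0
  have q4 : (24 * k + 40) * (E0 * n) ≤ (24 * k + 40) * (E0 * (2 * r * m)) := by gcongr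
  linarith

end Pool.Agent.P.MP_68214b_ag
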