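import Pool.Agent.P.MP_68214b_ag.HsE2
import Pool.Agent.P.MP_68214b_ag.HsF2
import Pool.Agent.P.MP_68214b_ag.HsG2

open Polynomial Finset Matrix NumberField Filter

namespace Pool.Agent.P.MP_68214b_ag

variable {K : Type} [Field K] [NumberField K]

theorem trace_map_HsN1 {A B : Type} [CommRing A] [CommRing B] {κ : ℕ} (D : Par A κ)
    (f : A →+* B) (m : ℕ) : f (D.W 0 m).trace = ((D.map f).W 0 m).trace := by
  rw [trace_fin_two, trace_fin_two, map_add, Par.W_map_apply, Par.W_map_apply, map_zero]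

theorem ord_HsN1 {κ : ℕ} (D : Par (𝓞 K) κ) (v : FinitePlace K) {F : Type} [Field F]
    (φ : 𝓞 K →+* F) (hφ : ∀ x, φ x = 0 ↔ v (algebraMap (𝓞 K) K x) < 1)
    (h : ((D.map φ).W 0 (pv v)).trace ≠ 0) : D.Ord v := by
  rw [← trace_map_HsN1, Ne, hφ, not_lt] at h
  unfold Par.Ord Par.toK
  rw [← trace_map_HsN1]
  exact le_antisymm (v_ring_le v _) h

theorem cast_ne_HsN1 {F : Type} [Field F] {p a : ℕ} [CharP F p] (ha : 0 < a) (h : a < p) :
    (a : F) ≠ 0 := fun h0 =>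
  absurd (Nat.le_of_dvd ha ((CharP.cast_eq_zero_iff F p a).1 h0)) (not_le.2 h)

theorem fam_H (D : Par (𝓞 K) 1) (pos : D.Pos) (hal : D.al = 0) (hbe : D.be ≠ 0) :
    ∃ B : ℕ, ∀ v : FinitePlace K, B < pv v → D.Ord v := by
  have hbe' : algebraMap (𝓞 K) K D.be ≠ 0 :=
    fun h => hbe ((FaithfulSMul.algebraMap_injective (𝓞 K) K) (by rw [h, map_zero]))
  obtain ⟨B, hB⟩ := big_unit hbe'
  refine ⟨max B (max D.a 2), fun v hv => ?_⟩
  have h1 : B < pv v := lt_of_le_of_lt (le_max_left _ _) hv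
  have h2 : D.a < pv v := lt_of_le_of_lt ((le_max_left _ _).trans (le_max_right _ _)) hv
  have h3 : 2 < pv v := lt_of_le_of_lt ((le_max_right _ _).trans (le_max_right _ _)) hv
  obtain ⟨F, iF, iC, φ, hφ⟩ := exists_res v
  refine ord_HsN1 D v φ hφ ?_
  rw [trace_H (pv_prime v) h3.ne' (D.map φ) (by simp [hal]) (cast_ne_HsN1 pos.1 h2)]
  refine pow_ne_zero _ fun h => ?_
  rw [Par.map_be, hφ, hB v h1] at h
  exact lt_irrefl _ h

theorem ordM_HsN1 (D : Par (𝓞 K) 2) (pos : D.Pos) {t1 t2 th : 𝓞 K} (h1 : D.al = t1 + t2)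
    (h2 : D.ga * (D.a : 𝓞 K) ^ 2 = -(t1 * t2))
    (hth : D.a * th = D.a * D.be - D.al * D.b 0 - ((D.b 1 : 𝓞 K) - D.b 0 + D.a) * t2)
    (v : FinitePlace K) (hv : D.a < pv v)
    (h : ∀ l : ℕ, 1 ≤ v (algebraMap (𝓞 K) K (th + l * (t1 - t2)))) : D.Ord v := by
  obtain ⟨F, iF, iC, φ, hφ⟩ := exists_res v
  refine ord_HsN1 D v φ hφ ?_
  have e1 : (D.map φ).al = φ t1 + φ t2 := by rw [Par.map_al, h1, map_add]
  have e2 : (D.map φ).ga * ((D.map φ).a : F) ^ 2 = -(φ t1 * φ t2) := by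
    have := congrArg φ h2
    simpa using this
  have e3 : ((D.map φ).a : F) * φ th = (D.map φ).a * (D.map φ).be - (D.map φ).al * (D.map φ).b 0
      - (((D.map φ).b 1 : F) - (D.map φ).b 0 + (D.map φ).a) * φ t2 := by
    have := congrArg φ hth
    simpa using this
  rw [trace_M (pv_prime v) (D.map φ) e1 e2 (cast_ne_HsN1 pos.1 hv) e3]
  refine prod_ne_zero_iff.2 fun l _ h0 => ?_
  have h3 : φ (th + l * (t1 - t2)) = 0 := by simpa using h0
  exact absurd ((hφ _).1 h3) (not_lt.2 (h l))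

theorem fam_M (D : Par (𝓞 K) 2) (pos : D.Pos) {t1 t2 th : 𝓞 K} (h1 : D.al = t1 + t2)
    (h2 : D.ga * (D.a : 𝓞 K) ^ 2 = -(t1 * t2))
    (hth : D.a * th = D.a * D.be - D.al * D.b 0 - ((D.b 1 : 𝓞 K) - D.b 0 + D.a) * t2)
    (hirr : ∀ q : ℚ, algebraMap (𝓞 K) K th ≠ q * algebraMap (𝓞 K) K (t1 - t2)) :
    (∃ B : ℕ, ∀ v : FinitePlace K, B < pv v → D.Ord v ∨ D.Neu v) ∧ Div D.Ord := by
  by_cases hd : algebraMap (𝓞 K) K (t1 - t2) = 0
  · have hth0 : algebraMap (𝓞 K) K th ≠ 0 := by simpa using hirr 0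
    obtain ⟨B, hB⟩ := big_unit hth0
    have key : ∀ v : FinitePlace K, max B D.a < pv v → D.Ord v := fun v hv => by
      refine ordM_HsN1 D pos h1 h2 hth v (lt_of_le_of_lt (le_max_right _ _) hv) fun l => ?_
      rw [map_add, map_mul, hd, mul_zero, add_zero, hB v (lt_of_le_of_lt (le_max_left _ _) hv)]
    exact ⟨⟨_, fun v hv => Or.inl (key v hv)⟩, div_all.mono _ fun v hv _ => key v hv⟩
  · obtain ⟨A, hA⟩ : ∃ A : K, algebraMap (𝓞 K) K th = A * algebraMap (𝓞 K) K (t1 - t2) :=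
      ⟨_, (div_mul_cancel₀ _ hd).symm⟩
    have hAq : ∀ q : ℚ, A ≠ q := fun q h => hirr q (by rw [hA, h])
    obtain ⟨B1, hB1⟩ := big_unit hd
    obtain ⟨B2, hB2⟩ := apx_place A
    have key : ∀ v : FinitePlace K, max (max B1 B2) D.a < pv v → (∀ z : ℤ, 1 ≤ v (A - z)) →
        D.Ord v := fun v hv hz => by
      refine ordM_HsN1 D pos h1 h2 hth v (lt_of_le_of_lt (le_max_right _ _) hv) fun l => ?_
      have e : algebraMap (𝓞 K) K (th + l * (t1 - t2)) =
          (A - ((-(l : ℤ) : ℤ) : K)) * algebraMap (𝓞 K) K (t1 - t2) := by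
        rw [map_add, map_mul, hA, map_natCast]; push_cast; ring
      rw [e, map_mul, hB1 v (lt_of_le_of_lt ((le_max_left _ _).trans (le_max_left _ _)) hv),
        mul_one]
      exact hz _
    refine ⟨⟨max (max B1 B2) D.a, fun v hv => ?_⟩, (div_irr hAq).mono _ key⟩
    by_cases hz : ∀ z : ℤ, 1 ≤ v (A - z)
    · exact Or.inl (key v hv hz)
    · right
      push Not at hz
      have hap : Apx v.1 A :=
        (hB2 v (lt_of_le_of_lt ((le_max_right _ _).trans (le_max_left _ _)) hv)).2 hz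
      have hna : ¬pv v ∣ D.toK.a := fun h =>
        absurd (Nat.le_of_dvd pos.1 h) (not_le.2 (lt_of_le_of_lt (le_max_right _ _) hv))
      have e1 : D.toK.al = algebraMap (𝓞 K) K t1 + algebraMap (𝓞 K) K t2 := by
        rw [Par.toK, Par.map_al, h1, map_add]
      have e2 : D.toK.ga * (D.toK.a : K) ^ 2 =
          -(algebraMap (𝓞 K) K t1 * algebraMap (𝓞 K) K t2) := by
        have := congrArg (algebraMap (𝓞 K) K) h2
        rw [map_mul, map_pow, map_natCast, map_neg, map_mul] at this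
        exact this
      have e3 : (D.toK.a : K) * (A * (algebraMap (𝓞 K) K t1 - algebraMap (𝓞 K) K t2)) =
          D.toK.a * D.toK.be - D.toK.al * D.toK.b 0 -
            ((D.toK.b 1 : K) - D.toK.b 0 + D.toK.a) * algebraMap (𝓞 K) K t2 := by
        have := congrArg (algebraMap (𝓞 K) K) hth
        rw [map_mul, hA, map_sub, map_sub, map_sub, map_mul, map_mul, map_mul, map_add, map_sub,
          map_natCast, map_natCast, map_natCast] at this
        exact this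
      intro j X hX r s
      have h := neu_W (fin_na v) (pv_prime v) (fun n hn => v_nat v hn) (v_pv_lt v) D.toK pos hna
        e1 e2 (v_ring_le v t1) (v_ring_le v t2) e3 hap (hX 0) r s
      have h0 : 0 ≤ v.1 (D.toK.W 0 j r s) * v.1 (pv v) ^ (2 * Nat.log (pv v) X) :=
        mul_nonneg (v.1.nonneg _) (pow_nonneg (v.1.nonneg _) _)
      have h3 := pow_le_pow_left₀ h0 h 2
      rw [mul_pow, ← pow_mul, show 2 * Nat.log (pv v) X * 2 = 4 * Nat.log (pv v) X by ring] at h3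
      exact h3

end Pool.Agent.P.MP_68214b_ag
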