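import Pool.Agent.P.MP_68214b_ag.HsM5
import Pool.Agent.P.MP_68214b_ag.HsN1

open Polynomial Finset Matrix NumberField Filter

namespace Pool.Agent.P.MP_68214b_ag

variable {K : Type} [Field K] [NumberField K]

theorem growth_of {κ : ℕ} (D : Par (𝓞 K) κ) (ok : D.Ok) (pos : D.Pos) (hga : D.ga ≠ 0)
    {U : ℕ → Fin 2 → K} (orb : D.toK.Orb U) (int : ∀ i, IsIntegral ℤ (U 0 i)) (ne : U 0 ≠ 0)
    (h : ∃ B : ℕ, ∀ v : FinitePlace K, B < pv v → D.Ord v ∨ D.Neu v) (div : Div D.Ord)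
    {C : ℝ} (hC : 1 ≤ C) : ∀ᶠ n : ℕ in atTop, C ^ n < Height.mulHeight (U n) := by
  obtain ⟨B1, h1⟩ := h
  have hga' : D.toK.ga ≠ 0 := fun h0 =>
    hga (RingOfIntegers.coe_injective (h0.trans (map_zero _).symm))
  obtain ⟨B2, h2⟩ := big_unit hga'
  obtain ⟨i, hi⟩ : ∃ i, U 0 i ≠ 0 := Function.ne_iff.1 ne
  obtain ⟨B3, h3⟩ := big_unit hi
  refine Ctx.growth ⟨D, U, B1 + B2 + B3 + D.a + 2, ok, pos, hga, orb, int, ne, by omega,
    fun v hv => ⟨h2 v (by omega), fun hd => ?_, ?_, h1 v (by omega)⟩, div⟩ hC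
  · have := Nat.le_of_dvd pos.1 hd
    omega
  · have a0 := v_integral_le v (int 0)
    have a1 := v_integral_le v (int 1)
    have a2 := h3 v (by omega)
    refine le_antisymm (max_le a0 a1) ?_
    rw [← a2]
    fin_cases i
    · exact le_max_left _ _
    · exact le_max_right _ _

theorem mult_HsN2 (x y z : K) : ∃ c X Y Z : 𝓞 K, algebraMap (𝓞 K) K c ≠ 0 ∧
    algebraMap (𝓞 K) K X = algebraMap (𝓞 K) K c * x ∧
    algebraMap (𝓞 K) K Y = algebraMap (𝓞 K) K c * y ∧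
    algebraMap (𝓞 K) K Z = algebraMap (𝓞 K) K c * z := by
  classical
  obtain ⟨c, hc, H⟩ := exists_integral_multiples ℤ ℚ ({x, y, z} : Finset K)
  refine ⟨(c : 𝓞 K), ⟨c • x, H x (by simp)⟩, ⟨c • y, H y (by simp)⟩, ⟨c • z, H z (by simp)⟩,
    ?_, ?_, ?_, ?_⟩
  · rw [map_intCast]; exact_mod_cast hc
  all_goals
    rw [map_intCast, ← zsmul_eq_mul]
    rfl

theorem den_HsN2 {r s : ℚ} (hr : 0 < r) (hs : 0 < s) : ∃ a b0 b1 : ℕ, 0 < a ∧ 0 < b0 ∧ 0 < b1 ∧
    (b0 : K) = (r : K) * a ∧ (b1 : K) = (s : K) * a := by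
  have key : ∀ {t : ℚ}, 0 < t → ∃ b : ℕ, 0 < b ∧ (b : ℚ) = t * t.den := by
    intro t ht
    have h1 : 0 < t.num := Rat.num_pos.2 ht
    refine ⟨t.num.toNat, by omega, ?_⟩
    rw [Rat.mul_den_eq_num]
    have : ((t.num.toNat : ℕ) : ℤ) = t.num := Int.toNat_of_nonneg h1.le
    exact_mod_cast this
  obtain ⟨b, hb, eb⟩ := key hr
  obtain ⟨b', hb', eb'⟩ := key hs
  have e1 : (b : K) = (r : K) * r.den := by exact_mod_cast congrArg (Rat.cast : ℚ → K) eb
  have e2 : (b' : K) = (s : K) * s.den := by exact_mod_cast congrArg (Rat.cast : ℚ → K) eb'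
  refine ⟨r.den * s.den, b * s.den, b' * r.den, Nat.mul_pos r.den_pos s.den_pos,
    Nat.mul_pos hb s.den_pos, Nat.mul_pos hb' r.den_pos, ?_, ?_⟩
  · push_cast; rw [e1]; ring
  · push_cast; rw [e2]; ring

theorem rescale_HsN2 {κ : ℕ} (D : Par (𝓞 K) κ) (ok : D.Ok) (pos : D.Pos) (hga : D.ga ≠ 0)
    (h : ∃ B : ℕ, ∀ v : FinitePlace K, B < pv v → D.Ord v ∨ D.Neu v) (div : Div D.Ord)
    {la : K} (hla : la ≠ 0) {u : ℕ → K}
    (hu : ∀ n : ℕ, la ^ 2 * u (n + 2) = D.toK.p n * (la * u (n + 1)) + D.toK.q n * u n)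
    (h0 : u 0 ≠ 0 ∨ u 1 ≠ 0) {C : ℝ} (hC : 1 ≤ C) :
    ∀ᶠ n : ℕ in atTop, C ^ n < Height.mulHeight ![u (n + 1), u n] := by
  obtain ⟨c, X, Y, -, hc, hX, hY, -⟩ := mult_HsN2 (la * u 1) (u 0) 0
  set e := algebraMap (𝓞 K) K c with he
  let U : ℕ → Fin 2 → K := fun n => (e * la ^ n) • (![la, 1] * ![u (n + 1), u n])
  have U0 : ∀ n, U n 0 = e * la ^ n * (la * u (n + 1)) := fun n => by simp [U]
  have U1 : ∀ n, U n 1 = e * la ^ n * u n := fun n => by simp [U]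
  have orb : D.toK.Orb U := by
    intro j
    ext i
    fin_cases i
    · have : (D.toK.T j *ᵥ U j) 0 = D.toK.p j * U j 0 + D.toK.q j * U j 1 := by
        simp [Par.T, mulVec, dotProduct, Fin.sum_univ_two]
      refine (U0 (j + 1)).trans (Eq.trans ?_ this.symm)
      rw [U0, U1]
      linear_combination e * la ^ j * hu j
    · have : (D.toK.T j *ᵥ U j) 1 = U j 0 := by
        simp [Par.T, mulVec, dotProduct, Fin.sum_univ_two]
      refine (U1 (j + 1)).trans (Eq.trans ?_ this.symm)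
      rw [U0]
      ring
  have int : ∀ i, IsIntegral ℤ (U 0 i) := by
    intro i
    fin_cases i
    · have : U 0 0 = algebraMap (𝓞 K) K X := by rw [U0, hX]; simp
      exact this ▸ RingOfIntegers.isIntegral_coe X
    · have : U 0 1 = algebraMap (𝓞 K) K Y := by rw [U1, hY]; simp
      exact this ▸ RingOfIntegers.isIntegral_coe Y
  have ne : U 0 ≠ 0 := by
    intro hz
    have a0 := U0 0
    have a1 := U1 0
    rw [hz] at a0 a1
    rcases h0 with h0 | h0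
    · exact mul_ne_zero (mul_ne_zero hc (pow_ne_zero _ hla)) h0 a1.symm
    · exact mul_ne_zero (mul_ne_zero hc (pow_ne_zero _ hla)) (mul_ne_zero hla h0) a0.symm
  set H := Height.mulHeight (![la, 1] : Fin 2 → K) with hH
  have H1 : 1 ≤ H := Height.one_le_mulHeight _
  filter_upwards [growth_of D ok pos hga orb int ne h div (one_le_mul_of_one_le_of_one_le hC H1),
    eventually_ge_atTop 1] with n hn n1
  have b1 : Height.mulHeight (U n) ≤ H * Height.mulHeight ![u (n + 1), u n] := by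
    simp only [U]
    rw [Height.mulHeight_smul_eq_mulHeight _ (mul_ne_zero hc (pow_ne_zero _ hla))]
    exact Height.mulHeight_mul_le _ _
  have b2 : H ≤ H ^ n := le_self_pow₀ H1 (by omega)
  have b3 : H * C ^ n ≤ (C * H) ^ n := by
    rw [mul_pow, mul_comm]
    exact mul_le_mul_of_nonneg_left b2 (by positivity)
  exact lt_of_mul_lt_mul_left (b3.trans_lt (hn.trans_le b1)) (by positivity)

theorem growth_H {β γ : K} (hβ : β ≠ 0) (hγ : γ ≠ 0) {r : ℚ} (hr : 0 < r) {u : ℕ → K}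
    (hu : ∀ n : ℕ, u (n + 2) = β * u (n + 1) + γ * (n + r) * u n) (h0 : u 0 ≠ 0 ∨ u 1 ≠ 0)
    {C : ℝ} (hC : 1 ≤ C) : ∀ᶠ n : ℕ in atTop, C ^ n < Height.mulHeight ![u (n + 1), u n] := by
  obtain ⟨c, X, Y, -, hc, hX, hY, -⟩ := mult_HsN2 β γ 0
  obtain ⟨a, b0, -, ha, hb, -, e0, -⟩ := den_HsN2 (K := K) hr hr
  have ha' : (a : K) ≠ 0 := by exact_mod_cast ha.ne'
  let D : Par (𝓞 K) 1 := ⟨0, a * X, c * a * Y, a, fun _ => b0⟩
  have pos : D.Pos := ⟨ha, fun _ => hb⟩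
  have hbe : D.be ≠ 0 := fun hz => by
    have : algebraMap (𝓞 K) K (a * X) = 0 := by rw [show (a : 𝓞 K) * X = 0 from hz, map_zero]
    rw [map_mul, map_natCast, hX] at this
    exact mul_ne_zero ha' (mul_ne_zero hc hβ) this
  have hga : D.ga ≠ 0 := fun hz => by
    have : algebraMap (𝓞 K) K (c * a * Y) = 0 := by
      rw [show c * (a : 𝓞 K) * Y = 0 from hz, map_zero]
    rw [map_mul, map_mul, map_natCast, hY] at this
    exact mul_ne_zero (mul_ne_zero hc ha') (mul_ne_zero hc hγ) this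
  obtain ⟨B, hB⟩ := fam_H D pos rfl hbe
  refine rescale_HsN2 D (Or.inl ⟨rfl, rfl⟩) pos hga ⟨B, fun v hv => Or.inl (hB v hv)⟩
    (div_all.mono B fun v hv _ => hB v hv) (mul_ne_zero hc ha') (fun n => ?_) h0 hC
  have ep : D.toK.p n = a * (algebraMap (𝓞 K) K c * β) := by
    simp only [Par.p, Par.toK, Par.map, D, map_zero, zero_mul, zero_add, map_mul, map_natCast, hX]
  have eq : D.toK.q n =
      algebraMap (𝓞 K) K c * a * (algebraMap (𝓞 K) K c * γ) * (a * n + r * a) := by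
    simp only [Par.q, Par.toK, Par.map, D, map_mul, map_natCast, hY, e0, Fin.prod_univ_one]
  rw [ep, eq, hu n]
  ring

theorem growth_M {t1 t2 β : K} (h1 : t1 ≠ 0) (h2 : t2 ≠ 0) {r s : ℚ} (hr : 0 < r) (hs : 0 < s)
    (hirr : ∀ q : ℚ, β - r * t1 - (s + 1) * t2 ≠ q * (t1 - t2)) {u : ℕ → K}
    (hu : ∀ n : ℕ,
      u (n + 2) = ((t1 + t2) * n + β) * u (n + 1) - t1 * t2 * (n + r) * (n + s) * u n)
    (h0 : u 0 ≠ 0 ∨ u 1 ≠ 0) {C : ℝ} (hC : 1 ≤ C) :
    ∀ᶠ n : ℕ in atTop, C ^ n < Height.mulHeight ![u (n + 1), u n] := by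
  obtain ⟨c, X, Y, Z, hc, hX, hY, hZ⟩ := mult_HsN2 t1 t2 β
  obtain ⟨a, b0, b1, ha, hb0, hb1, e0, e1⟩ := den_HsN2 (K := K) hr hs
  have ha' : (a : K) ≠ 0 := by exact_mod_cast ha.ne'
  let D : Par (𝓞 K) 2 := ⟨a * X + a * Y, a * Z, -(X * Y), a, ![b0, b1]⟩
  have pos : D.Pos := ⟨ha, fun i => by fin_cases i <;> simpa [D]⟩
  have hga : D.ga ≠ 0 := fun hz => by
    have : algebraMap (𝓞 K) K (-(X * Y)) = 0 := by rw [show -(X * Y) = 0 from hz, map_zero]
    rw [map_neg, map_mul, hX, hY, neg_eq_zero] at this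
    exact mul_ne_zero (mul_ne_zero hc h1) (mul_ne_zero hc h2) this
  obtain ⟨hB, hD⟩ := fam_M D pos (t1 := a * X) (t2 := a * Y)
    (th := a * Z - b0 * X - (b1 + a) * Y) rfl
    (by change -(X * Y) * (a : 𝓞 K) ^ 2 = _; ring)
    (by
      change (a : 𝓞 K) * _ = a * (a * Z) - (a * X + a * Y) * b0 - ((b1 : 𝓞 K) - b0 + a) * (a * Y)
      ring)
    (fun q hq => hirr q (by
      simp only [map_sub, map_mul, map_add, map_natCast, hX, hY, hZ, e0, e1] at hq
      refine mul_left_cancel₀ (mul_ne_zero hc ha') ?_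
      linear_combination hq))
  refine rescale_HsN2 D (Or.inr rfl) pos hga hB hD (mul_ne_zero hc ha') (fun n => ?_) h0 hC
  have ep : D.toK.p n = (a * (algebraMap (𝓞 K) K c * t1) + a * (algebraMap (𝓞 K) K c * t2)) * n +
      a * (algebraMap (𝓞 K) K c * β) := by
    simp only [Par.p, Par.toK, Par.map, D, map_add, map_mul, map_natCast, hX, hY, hZ]
  have eq : D.toK.q n = -(algebraMap (𝓞 K) K c * t1 * (algebraMap (𝓞 K) K c * t2)) *
      ((a * n + r * a) * (a * n + s * a)) := by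
    simp only [Par.q, Par.toK, Par.map, D, map_neg, map_mul, hX, hY, Fin.prod_univ_two,
      Matrix.cons_val_zero, Matrix.cons_val_one, e0, e1]
  rw [ep, eq, hu n]
  ring

end Pool.Agent.P.MP_68214b_ag
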