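import Pool.Agent.P.MP_68214b_ag.HsDef

open Polynomial Finset Matrix NumberField Filter

namespace Pool.Agent.P.MP_68214b_ag

section aux
open Height
variable {K : Type} [Field K] [NumberField K]

theorem ht_root_HsN3 (k : ℕ) (c : ℕ → K) (hc : ∃ j ≤ k, c j ≠ 0) {Y Z : K}
    (h : ∑ j ∈ range (k + 1), c j * Y ^ j * Z ^ (k - j) = 0) :
    mulHeight ![Y, Z] ≤
      (k + 1 : ℝ) ^ Module.finrank ℚ K * ∏ j ∈ range (k + 1), mulHeight₁ (c j) := by
  obtain ⟨j, hj, h0⟩ := hc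
  refine (ht_root (c := fun i : Fin (k + 1) => c i)
    (Function.ne_iff.2 ⟨⟨j, by omega⟩, h0⟩) (by rwa [sum_range] at h)).trans
    (mul_le_mul_of_nonneg_left ?_ (by positivity))
  rw [prod_range]
  simp only [mulHeight₁_eq_mulHeight]
  rw [← mulHeight_fun_prod_eq (ι := fun _ => Fin 2) fun i => pair_ne _]
  refine le_of_eq_of_le ?_ (mulHeight_comp_le (fun i l => if l = i then (0 : Fin 2) else 1) _)
  congr 1
  ext i
  rw [Function.comp_apply, prod_eq_single i (fun l _ hl => by simp [hl]) (by simp)]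
  simp

/-- at most exponential -/
def Ex_HsN3 (f : ℕ → ℝ) : Prop := ∃ C : ℝ, 1 ≤ C ∧ ∀ᶠ n : ℕ in atTop, f n ≤ C ^ n

theorem ex_const_HsN3 (c : ℝ) : Ex_HsN3 fun _ => c :=
  ⟨2, one_le_two, (tendsto_pow_atTop_atTop_of_one_lt one_lt_two).eventually_ge_atTop c⟩

theorem ex_mul_HsN3 {f g : ℕ → ℝ} (g0 : ∀ n, 0 ≤ g n) (hf : Ex_HsN3 f) (hg : Ex_HsN3 g) :
    Ex_HsN3 fun n => f n * g n := by
  obtain ⟨C, C1, hC⟩ := hf
  obtain ⟨D, D1, hD⟩ := hg
  refine ⟨C * D, one_le_mul_of_one_le_of_one_le C1 D1, ?_⟩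
  filter_upwards [hC, hD] with n h1 h2
  rw [mul_pow]
  exact mul_le_mul h1 h2 (g0 n) (by positivity)

theorem ex_le_HsN3 {f g : ℕ → ℝ} (h : ∀ n, f n ≤ g n) (hg : Ex_HsN3 g) : Ex_HsN3 f :=
  hg.imp fun _ hC => ⟨hC.1, hC.2.mono fun n hn => (h n).trans hn⟩

theorem ex_add_HsN3 {a b : ℕ → K} (ha : Ex_HsN3 fun n => mulHeight₁ (a n))
    (hb : Ex_HsN3 fun n => mulHeight₁ (b n)) : Ex_HsN3 fun n => mulHeight₁ (a n + b n) :=
  ex_le_HsN3 (fun _ => mulHeight₁_add_le _ _)
    (ex_mul_HsN3 (fun _ => mulHeight₁_nonneg _)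
      (ex_mul_HsN3 (fun _ => mulHeight₁_nonneg _) (ex_const_HsN3 _) ha) hb)

theorem ex_mul'_HsN3 {a b : ℕ → K} (ha : Ex_HsN3 fun n => mulHeight₁ (a n))
    (hb : Ex_HsN3 fun n => mulHeight₁ (b n)) : Ex_HsN3 fun n => mulHeight₁ (a n * b n) :=
  ex_le_HsN3 (fun _ => mulHeight₁_mul_le _ _) (ex_mul_HsN3 (fun _ => mulHeight₁_nonneg _) ha hb)

theorem ex_nat_HsN3 : Ex_HsN3 fun n : ℕ => mulHeight₁ (n : K) := by
  refine ⟨2 ^ Module.finrank ℚ K, one_le_pow₀ one_le_two, ?_⟩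
  filter_upwards [eventually_gt_atTop 0] with n hn
  refine (ht_nat hn).trans ?_
  rw [← pow_mul, mul_comm, pow_mul]
  exact pow_le_pow_left₀ (by positivity) (by exact_mod_cast n.lt_two_pow_self.le) _

theorem ex_eval_HsN3 (x : K) (p : K[X]) : Ex_HsN3 fun n : ℕ => mulHeight₁ (p.eval (x + n)) := by
  induction p using Polynomial.induction_on with
  | C a => simpa using ex_const_HsN3 (mulHeight₁ a)
  | add p q hp hq => simpa using ex_add_HsN3 hp hq
  | monomial e a h =>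
    have := ex_mul'_HsN3 h (ex_add_HsN3 (a := fun _ => x) (ex_const_HsN3 _) ex_nat_HsN3)
    simpa [pow_succ, mul_assoc] using this

theorem ex_prod_HsN3 (c : ℝ) (k : ℕ) (a : ℕ → ℕ → K)
    (h : ∀ j, Ex_HsN3 fun n => mulHeight₁ (a j n)) :
    Ex_HsN3 fun n => c * ∏ j ∈ range k, mulHeight₁ (a j n) := by
  induction k with
  | zero => simpa using ex_const_HsN3 c
  | succ k ih =>
    simp only [prod_range_succ, ← mul_assoc]
    exact ex_mul_HsN3 (fun _ => mulHeight₁_nonneg _) ih (h k)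

end aux

theorem cone_K {K : Type} [Field K] [NumberField K] (x : K) {U : ℕ → Fin 2 → K}
    (hG : ∀ C : ℝ, 1 ≤ C → ∀ᶠ n : ℕ in atTop, C ^ n < Height.mulHeight (U n)) {k : ℕ}
    {c : ℕ → K[X]} (hc : ∃ i ≤ k, c i ≠ 0) :
    ∀ᶠ n : ℕ in atTop, hev k (fun i => (c i).eval (x + n)) (U n) ≠ 0 := by
  obtain ⟨i, hi, q0⟩ := hc
  obtain ⟨C, C1, hC⟩ := ex_prod_HsN3 ((k + 1 : ℝ) ^ Module.finrank ℚ K) (k + 1)
    (fun j n => (c j).eval (x + n)) fun j => ex_eval_HsN3 x (c j)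
  have h3 : ∀ᶠ n : ℕ in atTop, (c i).eval (x + n) ≠ 0 := by
    rw [← Nat.cofinite_eq_atTop, eventually_cofinite]
    refine (((c i).rootSet_finite K).preimage (f := fun n : ℕ => x + (n : K))
      fun a _ b _ h => by simpa using h).subset fun n hn => ?_
    simpa [Polynomial.mem_rootSet, q0] using hn
  filter_upwards [hG C C1, hC, h3] with n g1 g2 g3 h
  have := ht_root_HsN3 k (fun j => (c j).eval (x + n)) ⟨i, hi, g3⟩ (Y := U n 0) (Z := U n 1) h
  rw [show ![U n 0, U n 1] = U n by ext l; fin_cases l <;> rfl] at this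
  exact absurd (this.trans g2) (not_le.2 g1)

theorem form_coeff {F : MvPolynomial (Fin 3) ℂ} {k : ℕ}
    (hF : F.IsWeightedHomogeneous ![0, 1, 1] k) (h0 : F ≠ 0) :
    ∃ c : ℕ → ℂ[X], (∃ i ≤ k, c i ≠ 0) ∧
      ∀ x y z, MvPolynomial.eval ![x, y, z] F = hev k (fun i => (c i).eval x) ![y, z] := by
  classical
  have hw : ∀ m ∈ F.support, m 1 + m 2 = k := fun m hm => by
    have := hF (MvPolynomial.mem_support_iff.1 hm)
    rw [Finsupp.weight_apply, Finsupp.sum_fintype _ _ (by simp), Fin.sum_univ_three] at this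
    simpa using this
  obtain ⟨m0, hm0⟩ := MvPolynomial.support_nonempty.2 h0
  refine ⟨fun i => ∑ m ∈ F.support, if m 1 = i then Polynomial.monomial (m 0) (F.coeff m) else 0,
    ⟨m0 1, by have := hw m0 hm0; omega, fun h => ?_⟩, fun x y z => ?_⟩
  · have := congrArg (fun p => Polynomial.coeff p (m0 0)) h
    simp only [Polynomial.finsetSum_coeff, Polynomial.coeff_zero] at this
    rw [sum_eq_single m0 (fun m hm1 hm => ?_) (fun h => absurd hm0 h)] at this
    · simp at this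
      exact MvPolynomial.mem_support_iff.1 hm0 this
    · split_ifs with h
      · refine Polynomial.coeff_monomial_of_ne _ fun h' => hm ?_
        ext i; fin_cases i
        · exact h'.symm
        · exact h
        · change m 2 = m0 2
          have := hw m hm1
          have := hw m0 hm0
          omega
      · simp
  · rw [MvPolynomial.eval_eq', hev]
    simp only [Polynomial.eval_finsetSum, sum_mul]
    rw [sum_comm]
    refine sum_congr rfl fun m hm => ?_
    have h1 := hw m hm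
    rw [sum_eq_single (m 1) (fun l _ hl => by simp [hl.symm]) fun h => absurd
      (mem_range.2 (by omega)) h]
    simp [Fin.prod_univ_three, show k - m 1 = m 2 by omega]
    ring

end Pool.Agent.P.MP_68214b_ag
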