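import Pool.Agent.P.MP_68214b_ag.HsDef

open Polynomial Finset Matrix NumberField Filter

namespace Pool.Agent.P.MP_68214b_ag

theorem nhds_generic_HsN4 {Y : Type} [TopologicalSpace Y] (ξ : Y)
    (hξ : ∀ U : Set Y, IsOpen U → U.Nonempty → ξ ∈ U) {s : Set Y}
    (hs : Topology.IsConstructible s) : s ∈ nhds ξ ∨ sᶜ ∈ nhds ξ := by
  induction hs using Topology.IsConstructible.empty_union_induction with
  | open_retrocompact U hU _ =>
    rcases U.eq_empty_or_nonempty with rfl | h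
    · right; simp
    · exact Or.inl (hU.mem_nhds (hξ U hU h))
  | union s _ t _ hs ht =>
    rcases hs with hs | hs
    · exact Or.inl (mem_of_superset hs Set.subset_union_left)
    rcases ht with ht | ht
    · exact Or.inl (mem_of_superset ht Set.subset_union_right)
    · right; rw [Set.compl_union]; exact inter_mem hs ht
  | compl s _ hs => rw [compl_compl]; exact hs.symm

theorem poly_trans_HsN4 {R : Type} [CommRing R] [IsDomain R] [Algebra ℚ R]
    [Algebra.FiniteType ℚ R] {a : R} (ha : Transcendental ℚ a) :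
    ∃ g : ℚ[X], (∀ q : ℚ, g.eval q ≠ 0) ∧ ¬IsUnit (aeval a g) := by
  let φ : ℚ[X] →+* R := (aeval a : ℚ[X] →ₐ[ℚ] R).toRingHom
  have hinj : Function.Injective φ := transcendental_iff_injective.1 ha
  have hft : φ.FiniteType := by
    refine RingHom.FiniteType.of_comp_finiteType (f := algebraMap ℚ ℚ[X]) ?_
    have : φ.comp (algebraMap ℚ ℚ[X]) = algebraMap ℚ R := Subsingleton.elim _ _
    rw [this]
    exact RingHom.finiteType_algebraMap.2 inferInstance
  have hfp : φ.FinitePresentation := RingHom.FinitePresentation.of_finiteType.1 hft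
  have hc := PrimeSpectrum.isConstructible_range_comap hfp
  let ξ : PrimeSpectrum ℚ[X] := ⟨⊥, Ideal.isPrime_bot⟩
  have hξ : ∀ U : Set (PrimeSpectrum ℚ[X]), IsOpen U → U.Nonempty → ξ ∈ U := by
    rintro U hU ⟨x, hx⟩
    exact ((PrimeSpectrum.le_iff_specializes ξ x).1 bot_le).mem_open hU hx
  have hmem : ξ ∈ Set.range (PrimeSpectrum.comap φ) := by
    refine ⟨⟨⊥, Ideal.isPrime_bot⟩, PrimeSpectrum.ext ?_⟩
    exact Ideal.comap_bot_of_injective φ hinj
  have hn : Set.range (PrimeSpectrum.comap φ) ∈ nhds ξ :=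
    (nhds_generic_HsN4 ξ hξ hc).resolve_right fun h => (mem_of_mem_nhds h) hmem
  obtain ⟨_, ⟨f, rfl⟩, hf, hsub⟩ := PrimeSpectrum.isTopologicalBasis_basic_opens.mem_nhds_iff.1 hn
  have hf0 : f ≠ 0 := by
    intro h
    exact (PrimeSpectrum.mem_basicOpen f ξ).1 hf (by simp [ξ, h])
  refine ⟨(X * f) ^ 2 + 1, fun q => ?_, fun hu => ?_⟩
  · rw [eval_add, eval_pow, eval_one]; positivity
  have hg : ¬IsUnit ((X * f) ^ 2 + 1 : ℚ[X]) := by
    intro h
    obtain ⟨c, -, hc⟩ := Polynomial.isUnit_iff.1 h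
    have h1 : c = 1 := by simpa using congrArg (eval 0) hc
    rw [h1, C_1, right_eq_add] at hc
    exact mul_ne_zero X_ne_zero hf0 (pow_eq_zero_iff two_ne_zero |>.1 hc)
  obtain ⟨n, hn, hle⟩ := Ideal.exists_le_maximal (Ideal.span {((X * f) ^ 2 + 1 : ℚ[X])})
    (by rwa [Ne, Ideal.span_singleton_eq_top])
  have hgn : (X * f) ^ 2 + 1 ∈ n := hle (Ideal.mem_span_singleton_self _)
  have hfn : f ∉ n := by
    intro h
    apply hn.ne_top
    rw [Ideal.eq_top_iff_one]
    have h2 : (X * f) ^ 2 ∈ n := Ideal.pow_mem_of_mem n (n.mul_mem_left X h) 2 two_pos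
    simpa using n.sub_mem hgn h2
  obtain ⟨p, hp⟩ := hsub (show (⟨n, hn.isPrime⟩ : PrimeSpectrum ℚ[X]) ∈ _ from
    (PrimeSpectrum.mem_basicOpen f _).2 hfn)
  have hp' : p.asIdeal.comap φ = n := congrArg PrimeSpectrum.asIdeal hp
  rw [← hp', Ideal.mem_comap] at hgn
  exact p.2.ne_top (Ideal.eq_top_of_isUnit_mem _ hgn hu)

theorem poly_HsN4 {R : Type} [CommRing R] [IsDomain R] [Algebra ℚ R]
    [Algebra.FiniteType ℚ R] {a : R} (ha : ∀ q : ℚ, a ≠ algebraMap ℚ R q) :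
    ∃ g : ℚ[X], (∀ q : ℚ, g.eval q ≠ 0) ∧ ¬IsUnit (aeval a g) := by
  by_cases h : IsAlgebraic ℚ a
  · have hi : IsIntegral ℚ a := h.isIntegral
    refine ⟨minpoly ℚ a, fun q hq => ?_, by rw [minpoly.aeval]; exact not_isUnit_zero⟩
    obtain ⟨c, hc⟩ := minpoly.mem_range_of_degree_eq_one ℚ a
      (degree_eq_one_of_irreducible_of_root (minpoly.irreducible hi) hq)
    exact ha c hc.symm
  · exact poly_trans_HsN4 h

theorem spec_irr (T : Finset ℂ) {A : ℂ} (hA : ∀ q : ℚ, A ≠ q) :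
    ∃ (R : Subalgebra ℚ ℂ) (K : Type) (_ : Field K) (_ : NumberField K) (ψ : R →+* K),
      (∀ x ∈ T, x ∈ R) ∧ (∀ x : R, x.1 ∈ T → x ≠ 0 → ψ x ≠ 0) ∧
      ∃ h : A ∈ R, ∀ q : ℚ, ψ ⟨A, h⟩ ≠ q := by
  classical
  let R := Algebra.adjoin ℚ ((insert A (T ∪ T.image (·⁻¹)) : Finset ℂ) : Set ℂ)
  have : Algebra.FiniteType ℚ R := (Subalgebra.fg_iff_finiteType _).1 (Subalgebra.fg_adjoin_finset _)
  have hAR : A ∈ R := Algebra.subset_adjoin (by simp)
  obtain ⟨g, hg, hu⟩ := poly_HsN4 (R := R) (a := ⟨A, hAR⟩) fun q hq =>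
    hA q (by simpa using congrArg Subtype.val hq)
  obtain ⟨m, hm, hle⟩ := Ideal.exists_le_maximal (Ideal.span {aeval (⟨A, hAR⟩ : R) g})
    (by rwa [Ne, Ideal.span_singleton_eq_top])
  have hgm : aeval (⟨A, hAR⟩ : R) g ∈ m := hle (Ideal.mem_span_singleton_self _)
  let _ : Field (R ⧸ m) := Ideal.Quotient.field m
  have hfin : Module.Finite ℚ (R ⧸ m) := finite_of_finite_type_of_isJacobsonRing ℚ (R ⧸ m)
  have : CharZero (R ⧸ m) := algebraRat.charZero _
  refine ⟨R, R ⧸ m, inferInstance, { to_finiteDimensional := ?_ }, Ideal.Quotient.mk m,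
    fun x hx => Algebra.subset_adjoin (by simp [hx]), fun x hx x0 => ?_, hAR, fun q hq => ?_⟩
  · have key : ∀ i j : Algebra ℚ (R ⧸ m), @Module.Finite ℚ (R ⧸ m) _ _ i.toModule →
        @Module.Finite ℚ (R ⧸ m) _ _ j.toModule := fun i j h => Subsingleton.elim i j ▸ h
    exact key (Ideal.Quotient.algebra ℚ) _ hfin
  · have h : x.1⁻¹ ∈ R := Algebra.subset_adjoin (by
      simp only [coe_insert, coe_union, coe_image, Set.mem_insert_iff, Set.mem_union,
        Set.mem_image, mem_coe]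
      exact Or.inr (Or.inr ⟨_, hx, rfl⟩))
    have : x * ⟨_, h⟩ = 1 := Subtype.ext (mul_inv_cancel₀ fun h => x0 (Subtype.ext h))
    exact left_ne_zero_of_mul_eq_one (by rw [← map_mul, this, map_one])
  · have h1 : Ideal.Quotient.mk m (aeval (⟨A, hAR⟩ : R) g) = 0 := Ideal.Quotient.eq_zero_iff_mem.2 hgm
    rw [aeval_def, hom_eval₂, hq] at h1
    have h2 : (Ideal.Quotient.mk m).comp (algebraMap ℚ R) = Rat.castHom (R ⧸ m) :=
      Subsingleton.elim _ _
    rw [h2] at h1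
    have h3 := eval₂_at_apply (p := g) (Rat.castHom (R ⧸ m)) q
    rw [Rat.coe_castHom] at h3
    rw [h3] at h1
    exact hg q (by exact_mod_cast h1)

end Pool.Agent.P.MP_68214b_ag
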