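import Pool.Agent.P.MP_68214b_ag.HsN2
import Pool.Agent.P.MP_68214b_ag.HsN3
import Pool.Agent.P.MP_68214b_ag.HsN4

open Polynomial Finset Matrix NumberField Filter

namespace Pool.Agent.P.MP_68214b_ag

theorem transfer_HsN5 {R : Subalgebra ℚ ℂ} {K : Type} [Field K] [NumberField K] (ψ : R →+* K)
    (u : ℕ → R) (x : R) {k : ℕ} {c : ℕ → ℂ[X]} (hc : ∃ i ≤ k, c i ≠ 0)
    (hR : ∀ i ≤ k, ∀ y ∈ (c i).coeffs, y ∈ R)
    (hψ : ∀ i ≤ k, ∀ y : R, y.1 ∈ (c i).coeffs → y ≠ 0 → ψ y ≠ 0)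
    (hG : ∀ C : ℝ, 1 ≤ C →
      ∀ᶠ n : ℕ in atTop, C ^ n < Height.mulHeight ![ψ (u (n + 1)), ψ (u n)]) :
    ∀ᶠ n : ℕ in atTop,
      hev k (fun i => (c i).eval ((x : ℂ) + n)) ![(u (n + 1) : ℂ), (u n : ℂ)] ≠ 0 := by
  classical
  have hl : ∀ i, ∃ d : R[X], i ≤ k → d.map (R.val : R →+* ℂ) = c i := fun i => by
    by_cases hi : i ≤ k
    · have : c i ∈ Polynomial.lifts (R.val : R →+* ℂ) := by
        rw [Polynomial.lifts_iff_coeff_lifts]
        intro n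
        by_cases h0 : (c i).coeff n = 0
        · exact ⟨0, by simp [h0]⟩
        · exact ⟨⟨_, hR i hi _ (Polynomial.coeff_mem_coeffs h0)⟩, rfl⟩
      obtain ⟨d, hd⟩ := (Polynomial.mem_lifts _).1 this
      exact ⟨d, fun _ => hd⟩
    · exact ⟨0, fun h => absurd h hi⟩
  choose d hd using hl
  have hc' : ∃ i ≤ k, (fun i => (d i).map ψ) i ≠ 0 := by
    obtain ⟨i, hi, h0⟩ := hc
    refine ⟨i, hi, fun h => ?_⟩
    have hl : (c i).coeff (c i).natDegree ≠ 0 := Polynomial.leadingCoeff_ne_zero.2 h0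
    have e : (((d i).coeff (c i).natDegree : R) : ℂ) = (c i).coeff (c i).natDegree := by
      have := congrArg (fun p => Polynomial.coeff p (c i).natDegree) (hd i hi)
      simpa using this
    refine hψ i hi ((d i).coeff (c i).natDegree) (e ▸ Polynomial.coeff_mem_coeffs hl)
      (fun h1 => hl (by rw [← e, h1]; rfl)) ?_
    have := congrArg (fun p => Polynomial.coeff p (c i).natDegree) h
    simpa using this
  filter_upwards [cone_K (ψ x) (U := fun n => ![ψ (u (n + 1)), ψ (u n)]) hG hc'] with n hn h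
  refine hn ?_
  have h1 : hev k (fun i => (d i).eval (x + n)) ![u (n + 1), u n] = 0 := by
    apply Subtype.ext
    have := hev_map (R.val : R →+* ℂ) k (fun i => (d i).eval (x + n)) ![u (n + 1), u n]
    refine Eq.trans this (Eq.trans ?_ h)
    unfold hev
    refine Finset.sum_congr rfl fun i hi => ?_
    have hi' : i ≤ k := Nat.lt_succ_iff.1 (Finset.mem_range.1 hi)
    have e : (R.val : R →+* ℂ) ((d i).eval (x + n)) = (c i).eval ((x : ℂ) + n) := by
      rw [← hd i hi', Polynomial.eval_map, ← Polynomial.eval₂_at_apply]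
      simp
    beta_reduce
    rw [e]
    simp
  have h2 := hev_map ψ k (fun i => (d i).eval (x + n)) ![u (n + 1), u n]
  rw [h1, map_zero] at h2
  refine Eq.trans ?_ h2.symm
  unfold hev
  refine Finset.sum_congr rfl fun i _ => ?_
  have e : ψ ((d i).eval (x + n)) = ((d i).map ψ).eval (ψ x + n) := by
    rw [Polynomial.eval_map, ← Polynomial.eval₂_at_apply]
    simp
  beta_reduce
  rw [e]
  simp

theorem rat_mem_HsN5 (R : Subalgebra ℚ ℂ) (q : ℚ) : (q : ℂ) ∈ R := by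
  simpa using R.algebraMap_mem q

theorem rat_map_HsN5 {R : Subalgebra ℚ ℂ} {K : Type} [Field K] [NumberField K] (ψ : R →+* K)
    (q : ℚ) : ψ ⟨(q : ℂ), rat_mem_HsN5 R q⟩ = q := by
  have e : (⟨(q : ℂ), rat_mem_HsN5 R q⟩ : R) = algebraMap ℚ R q := Subtype.ext (by simp)
  rw [e]
  exact eq_ratCast (ψ.comp (algebraMap ℚ R)) q

theorem I_irr_HsN5 (q : ℚ) : Complex.I ≠ q := fun h => by
  have := congrArg Complex.im h
  simp at this

theorem cone_H {β γ : ℂ} (hβ : β ≠ 0) (hγ : γ ≠ 0) {r : ℚ} (hr : 0 < r) {u : ℕ → ℂ}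
    (hu : ∀ n : ℕ, u (n + 2) = β * u (n + 1) + γ * (n + r) * u n) (h0 : u 0 ≠ 0 ∨ u 1 ≠ 0)
    (x : ℂ) {k : ℕ} {c : ℕ → ℂ[X]} (hc : ∃ i ≤ k, c i ≠ 0) :
    ∀ᶠ n : ℕ in atTop, hev k (fun i => (c i).eval (x + n)) ![u (n + 1), u n] ≠ 0 := by
  classical
  obtain ⟨R, K, _, _, ψ, hT, hψ, -⟩ :=
    spec_irr ({β, γ, x, u 0, u 1} ∪ (range (k + 1)).biUnion fun i => (c i).coeffs) I_irr_HsN5
  have bR := hT β (by simp)
  have gR := hT γ (by simp)
  have xR := hT x (by simp)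
  have uR : ∀ n, u n ∈ R := fun n => by
    induction n using Nat.twoStepInduction with
    | zero => exact hT _ (by simp)
    | one => exact hT _ (by simp)
    | more n a b =>
      rw [hu n]
      exact add_mem (mul_mem bR b)
        (mul_mem (mul_mem gR (add_mem (natCast_mem R n) (rat_mem_HsN5 R r))) a)
  let s : ℕ → R := fun n => ⟨_, uR n⟩
  have nz : ∀ z : R, z.1 ∈ ({β, γ, x, u 0, u 1} : Finset ℂ) → z.1 ≠ 0 → ψ z ≠ 0 :=
    fun z hz z0 => hψ z (mem_union_left _ hz) fun h => z0 (by simp [h])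
  have hs : ∀ n : ℕ, ψ (s (n + 2)) =
      ψ ⟨β, bR⟩ * ψ (s (n + 1)) + ψ ⟨γ, gR⟩ * (n + r) * ψ (s n) := fun n => by
    have e : s (n + 2) = ⟨β, bR⟩ * s (n + 1) +
        ⟨γ, gR⟩ * ((n : R) + ⟨(r : ℂ), rat_mem_HsN5 R r⟩) * s n :=
      Subtype.ext (by simpa [s] using hu n)
    rw [e]
    simp only [map_add, map_mul, map_natCast, rat_map_HsN5]
  have hco : ∀ i ≤ k, ∀ y ∈ (c i).coeffs,
      y ∈ ({β, γ, x, u 0, u 1} ∪ (range (k + 1)).biUnion fun i => (c i).coeffs : Finset ℂ) :=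
    fun i hi y hy => mem_union_right _ (mem_biUnion.2 ⟨i, mem_range.2 (by omega), hy⟩)
  exact transfer_HsN5 ψ s ⟨x, xR⟩ hc (fun i hi y hy => hT y (hco i hi y hy))
    (fun i hi y hy => hψ y (hco i hi _ hy))
    (fun C hC => growth_H (nz ⟨β, bR⟩ (by simp) hβ) (nz ⟨γ, gR⟩ (by simp) hγ) hr
      (u := fun n => ψ (s n)) hs
      (h0.imp (nz (s 0) (by simp [s])) (nz (s 1) (by simp [s]))) hC)

theorem cone_M {t1 t2 β : ℂ} (h1 : t1 ≠ 0) (h2 : t2 ≠ 0) {r s : ℚ} (hr : 0 < r) (hs : 0 < s)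
    (hirr : ∀ q : ℚ, β - r * t1 - (s + 1) * t2 ≠ q * (t1 - t2)) {u : ℕ → ℂ}
    (hu : ∀ n : ℕ,
      u (n + 2) = ((t1 + t2) * n + β) * u (n + 1) - t1 * t2 * (n + r) * (n + s) * u n)
    (h0 : u 0 ≠ 0 ∨ u 1 ≠ 0) (x : ℂ) {k : ℕ} {c : ℕ → ℂ[X]} (hc : ∃ i ≤ k, c i ≠ 0) :
    ∀ᶠ n : ℕ in atTop, hev k (fun i => (c i).eval (x + n)) ![u (n + 1), u n] ≠ 0 := by
  classical
  obtain ⟨A, hA, hA'⟩ : ∃ A : ℂ, (∀ q : ℚ, A ≠ q) ∧
      (t1 = t2 ∨ β - r * t1 - (s + 1) * t2 = A * (t1 - t2)) := by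
    by_cases h : t1 = t2
    · exact ⟨Complex.I, I_irr_HsN5, Or.inl h⟩
    · have hd : t1 - t2 ≠ 0 := sub_ne_zero.2 h
      refine ⟨(β - r * t1 - (s + 1) * t2) / (t1 - t2), fun q hq => hirr q ?_, Or.inr ?_⟩
      · rw [← hq, div_mul_cancel₀ _ hd]
      · rw [div_mul_cancel₀ _ hd]
  obtain ⟨R, K, _, _, ψ, hT, hψ, AR, hAψ⟩ :=
    spec_irr ({t1, t2, β, x, u 0, u 1, t1 - t2, β - r * t1 - (s + 1) * t2} ∪
      (range (k + 1)).biUnion fun i => (c i).coeffs) hA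
  have aR := hT t1 (by simp)
  have bR := hT t2 (by simp)
  have gR := hT β (by simp)
  have xR := hT x (by simp)
  have uR : ∀ n, u n ∈ R := fun n => by
    induction n using Nat.twoStepInduction with
    | zero => exact hT _ (by simp)
    | one => exact hT _ (by simp)
    | more n a b =>
      rw [hu n]
      exact sub_mem (mul_mem (add_mem (mul_mem (add_mem aR bR) (natCast_mem R n)) gR) b)
        (mul_mem (mul_mem (mul_mem (mul_mem aR bR)
          (add_mem (natCast_mem R n) (rat_mem_HsN5 R r)))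
          (add_mem (natCast_mem R n) (rat_mem_HsN5 R s))) a)
  let w : ℕ → R := fun n => ⟨_, uR n⟩
  let a : R := ⟨t1, aR⟩
  let b : R := ⟨t2, bR⟩
  let g : R := ⟨β, gR⟩
  let r' : R := ⟨(r : ℂ), rat_mem_HsN5 R r⟩
  let s' : R := ⟨(s : ℂ), rat_mem_HsN5 R s⟩
  have er : ψ r' = r := rat_map_HsN5 ψ r
  have es : ψ s' = s := rat_map_HsN5 ψ s
  have nz : ∀ z : R,
      z.1 ∈ ({t1, t2, β, x, u 0, u 1, t1 - t2, β - r * t1 - (s + 1) * t2} : Finset ℂ) →
      z.1 ≠ 0 → ψ z ≠ 0 :=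
    fun z hz z0 => hψ z (mem_union_left _ hz) fun h => z0 (by simp [h])
  have hw : ∀ n : ℕ, ψ (w (n + 2)) = ((ψ a + ψ b) * n + ψ g) * ψ (w (n + 1)) -
      ψ a * ψ b * (n + r) * (n + s) * ψ (w n) := fun n => by
    have e : w (n + 2) = ((a + b) * n + g) * w (n + 1) -
        a * b * ((n : R) + r') * ((n : R) + s') * w n :=
      Subtype.ext (by simpa [w, a, b, g, r', s'] using hu n)
    rw [e]
    simp only [map_add, map_sub, map_mul, map_natCast, er, es]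
  have eth : ψ (g - r' * a - (s' + 1) * b) = ψ g - r * ψ a - (s + 1) * ψ b := by
    simp only [map_add, map_sub, map_mul, map_one, er, es]
  have hth : ψ g - r * ψ a - (s + 1) * ψ b ≠ 0 := by
    rw [← eth]
    refine nz _ (by simp [a, b, g, r', s']) ?_
    have := hirr 0
    simpa [a, b, g, r', s'] using this
  have hirr' : ∀ q : ℚ, ψ g - r * ψ a - (s + 1) * ψ b ≠ q * (ψ a - ψ b) := fun q => by
    by_cases h : t1 = t2
    · have e : a = b := Subtype.ext h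
      rw [show ψ a - ψ b = 0 by rw [e, sub_self], mul_zero]
      exact hth
    · have hd : ψ a - ψ b ≠ 0 := by
        rw [← map_sub]
        exact nz _ (by simp [a, b]) (by simpa [a, b] using sub_ne_zero.2 h)
      have e : g - r' * a - (s' + 1) * b = ⟨A, AR⟩ * (a - b) :=
        Subtype.ext (by simpa [a, b, g, r', s'] using hA'.resolve_left h)
      rw [← eth, e, map_mul, map_sub]
      exact fun hq => hAψ q (mul_right_cancel₀ hd hq)
  have hco : ∀ i ≤ k, ∀ y ∈ (c i).coeffs,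
      y ∈ ({t1, t2, β, x, u 0, u 1, t1 - t2, β - r * t1 - (s + 1) * t2} ∪
        (range (k + 1)).biUnion fun i => (c i).coeffs : Finset ℂ) :=
    fun i hi y hy => mem_union_right _ (mem_biUnion.2 ⟨i, mem_range.2 (by omega), hy⟩)
  exact transfer_HsN5 ψ w ⟨x, xR⟩ hc (fun i hi y hy => hT y (hco i hi y hy))
    (fun i hi y hy => hψ y (hco i hi _ hy))
    (fun C hC => growth_M (nz a (by simp [a]) h1) (nz b (by simp [b]) h2) hr hs hirr'
      (u := fun n => ψ (w n)) hw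
      (h0.imp (nz (w 0) (by simp [w])) (nz (w 1) (by simp [w]))) hC)

end Pool.Agent.P.MP_68214b_ag
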