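import Pool.Agent.P.MP_68214b_ag.HsN5

open Polynomial Finset Matrix NumberField Filter

namespace Pool.Agent.P.MP_68214b_ag

/-- the families of Hermite type and of Laguerre or Meixner-Pollaczek type -/
def Fam0 (P Q : ℂ[X]) (x : ℂ) : Prop :=
  (∃ (β γ : ℂ) (r : ℚ), β ≠ 0 ∧ γ ≠ 0 ∧ P = C β ∧ Q = C γ * (X - C (x - r))) ∨
  ∃ (α β γ : ℂ) (r s : ℚ), γ ≠ 0 ∧ P = C α * X + C β ∧
    Q = C γ * (X - C (x - r)) * (X - C (x - s)) ∧
    ∀ q : ℚ, P.eval (x - (r + s + 1) / 2) ^ 2 ≠ q ^ 2 * (α ^ 2 + 4 * γ)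

theorem shift_HsN6 {p q : ℕ → ℂ} {u : ℕ → ℂ}
    (hu : ∀ n : ℕ, u (n + 2) = p n * u (n + 1) + q n * u n) (n0 : ℕ) {x : ℂ} {k : ℕ}
    {c : ℕ → ℂ[X]}
    (h : (u (n0 + 0) ≠ 0 ∨ u (n0 + 1) ≠ 0) → ∀ᶠ n : ℕ in atTop,
      hev k (fun i => (c i).eval (x + n0 + n)) ![u (n0 + (n + 1)), u (n0 + n)] ≠ 0) :
    (∀ᶠ n : ℕ in atTop, u n = 0) ∨
      ∀ᶠ n : ℕ in atTop, hev k (fun i => (c i).eval (x + n)) ![u (n + 1), u n] ≠ 0 := by
  by_cases h0 : u (n0 + 0) ≠ 0 ∨ u (n0 + 1) ≠ 0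
  · right
    obtain ⟨N, hN⟩ := eventually_atTop.1 (h h0)
    refine eventually_atTop.2 ⟨n0 + N, fun n hn => ?_⟩
    obtain ⟨m, rfl⟩ : ∃ m, n = n0 + m := ⟨n - n0, by omega⟩
    have h1 := hN m (by omega)
    have e1 : x + ((n0 + m : ℕ) : ℂ) = x + n0 + m := by push_cast; ring
    have e2 : n0 + m + 1 = n0 + (m + 1) := by omega
    rw [e1, e2]
    exact h1
  · left
    have h1 : u (n0 + 0) = 0 := by
      by_contra h'
      exact h0 (Or.inl h')
    have h2 : u (n0 + 1) = 0 := by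
      by_contra h'
      exact h0 (Or.inr h')
    have key : ∀ m : ℕ, u (n0 + m) = 0 ∧ u (n0 + m + 1) = 0 := by
      intro m
      induction m with
      | zero => exact ⟨h1, h2⟩
      | succ m ih =>
        refine ⟨ih.2, ?_⟩
        have := hu (n0 + m)
        rw [ih.1, ih.2] at this
        have e : n0 + (m + 1) + 1 = n0 + m + 2 := by omega
        rw [e, this]
        ring
    refine eventually_atTop.2 ⟨n0, fun n hn => ?_⟩
    obtain ⟨m, rfl⟩ : ∃ m, n = n0 + m := ⟨n - n0, by omega⟩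
    exact (key m).1

theorem cone_fam {P Q : ℂ[X]} {x : ℂ} (hF : Fam0 P Q x) {u : ℕ → ℂ}
    (hu : ∀ n : ℕ, u (n + 2) = P.eval (x + n) * u (n + 1) + Q.eval (x + n) * u n)
    {k : ℕ} {c : ℕ → ℂ[X]} (hc : ∃ i ≤ k, c i ≠ 0) :
    (∀ᶠ n : ℕ in atTop, u n = 0) ∨
      ∀ᶠ n : ℕ in atTop, hev k (fun i => (c i).eval (x + n)) ![u (n + 1), u n] ≠ 0 := by
  rcases hF with ⟨β, γ, r, hβ, hγ, rfl, rfl⟩ | ⟨α, β, γ, r, s, hγ, rfl, rfl, hq⟩
  · obtain ⟨n0, hn0⟩ := exists_nat_gt (-r)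
    refine shift_HsN6 hu n0 fun h0 => ?_
    refine cone_H hβ hγ (r := r + n0) (by linarith) (u := fun n => u (n0 + n)) (fun n => ?_) h0
      (x + n0) hc
    have h1 := hu (n0 + n)
    simp only [eval_C, eval_mul, eval_sub, eval_X] at h1
    have e : n0 + (n + 2) = n0 + n + 2 := by omega
    have e' : n0 + (n + 1) = n0 + n + 1 := by omega
    simp only [e, e']
    rw [h1]
    push_cast
    ring
  · obtain ⟨n0, hn0⟩ := exists_nat_gt (max (-r) (-s))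
    have hr0 : -r < n0 := lt_of_le_of_lt (le_max_left _ _) hn0
    have hs0 : -s < n0 := lt_of_le_of_lt (le_max_right _ _) hn0
    obtain ⟨d, hd⟩ := IsAlgClosed.exists_pow_nat_eq (α ^ 2 + 4 * γ) (n := 2) (by norm_num)
    have hprod : (α + d) / 2 * ((α - d) / 2) = -γ := by linear_combination (-1 / 4 : ℂ) * hd
    have ht1 : (α + d) / 2 ≠ 0 := by
      intro h
      rw [h, zero_mul] at hprod
      exact hγ (neg_eq_zero.1 hprod.symm)
    have ht2 : (α - d) / 2 ≠ 0 := by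
      intro h
      rw [h, mul_zero] at hprod
      exact hγ (neg_eq_zero.1 hprod.symm)
    refine shift_HsN6 hu n0 fun h0 => ?_
    refine cone_M ht1 ht2 (β := α * (x + n0) + β) (r := r + n0) (s := s + n0) (by linarith)
      (by linarith) (fun q hq' => ?_) (u := fun n => u (n0 + n)) (fun n => ?_) h0 (x + n0) hc
    · apply hq (q - (s + 1 - r) / 2)
      simp only [eval_add, eval_mul, eval_C, eval_X]
      have h3 : α * (x - (r + s + 1) / 2) + β = ((q : ℂ) - (s + 1 - r) / 2) * d := by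
        push_cast at hq'
        linear_combination hq'
      rw [h3, ← hd]
      push_cast
      ring
    · have h1 := hu (n0 + n)
      simp only [eval_C, eval_mul, eval_sub, eval_add, eval_X] at h1
      have e : n0 + (n + 2) = n0 + n + 2 := by omega
      have e' : n0 + (n + 1) = n0 + n + 1 := by omega
      simp only [e, e']
      rw [h1, hprod]
      push_cast
      ring

/-- eventually zero or eventually nonzero -/
def Dich (v : ℕ → ℂ) : Prop := (∀ᶠ n : ℕ in atTop, v n = 0) ∨ ∀ᶠ n : ℕ in atTop, v n ≠ 0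

theorem dich_HsN6 {P Q : ℂ[X]} (hF : Fam0 P Q 0) {v : ℕ → ℂ}
    (hv : ∀ n : ℕ, v (n + 2) = P.eval (0 + (n : ℂ)) * v (n + 1) + Q.eval (0 + (n : ℂ)) * v n) :
    Dich v := by
  have h := cone_fam hF hv (k := 1) (c := fun i => if i = 0 then 1 else 0) ⟨0, by norm_num, by simp⟩
  refine h.imp id fun h => h.mono fun n hn => ?_
  simpa [hev, sum_range_succ] using hn

theorem dich_H {b d e : ℚ} (hb : b ≠ 0) (hd : d ≠ 0) {v : ℕ → ℂ}
    (hv : ∀ n : ℕ, v (n + 2) = b * v (n + 1) + (d * n + e) * v n) : Dich v := by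
  have hd' : (d : ℂ) ≠ 0 := by exact_mod_cast hd
  have hb' : (b : ℂ) ≠ 0 := by exact_mod_cast hb
  refine dich_HsN6 (P := C (b : ℂ)) (Q := C (d : ℂ) * (X - C (0 - ((e / d : ℚ) : ℂ))))
    (Or.inl ⟨b, d, e / d, hb', hd', rfl, rfl⟩) fun n => ?_
  rw [hv n]
  simp only [eval_C, eval_mul, eval_sub, eval_X]
  push_cast
  field_simp
  ring

theorem dich_M {b1 b0 c1 c0 a1 a0 : ℚ} (hg : a1 * c1 ≠ 0) (hD : b1 ^ 2 + 4 * a1 * c1 ≤ 0)
    (hs : 2 * a1 * c1 * b0 ≠ b1 * (a0 * c1 + a1 * c0 + a1 * c1)) {v : ℕ → ℂ}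
    (hv : ∀ n : ℕ, v (n + 2) = (b1 * n + b0) * v (n + 1) + (c1 * n + c0) * (a1 * n + a0) * v n) :
    Dich v := by
  have ha : a1 ≠ 0 := left_ne_zero_of_mul hg
  have hc : c1 ≠ 0 := right_ne_zero_of_mul hg
  have ha' : (a1 : ℂ) ≠ 0 := by exact_mod_cast ha
  have hc' : (c1 : ℂ) ≠ 0 := by exact_mod_cast hc
  refine dich_HsN6 (P := C (b1 : ℂ) * X + C (b0 : ℂ))
    (Q := C ((a1 : ℂ) * c1) * (X - C (0 - ((c0 / c1 : ℚ) : ℂ))) * (X - C (0 - ((a0 / a1 : ℚ) : ℂ))))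
    (Or.inr ⟨b1, b0, a1 * c1, c0 / c1, a0 / a1, mul_ne_zero ha' hc', rfl, rfl, fun q hq => ?_⟩)
    fun n => ?_
  · simp only [eval_add, eval_mul, eval_C, eval_X] at hq
    have h1 : (b1 * (0 - (c0 / c1 + a0 / a1 + 1) / 2) + b0) ^ 2
        = q ^ 2 * (b1 ^ 2 + 4 * (a1 * c1)) := by exact_mod_cast hq
    have h2 : b1 * (0 - (c0 / c1 + a0 / a1 + 1) / 2) + b0 ≠ 0 := by
      intro h
      apply hs
      field_simp at h
      linear_combination h
    have h3 : 0 < (b1 * (0 - (c0 / c1 + a0 / a1 + 1) / 2) + b0) ^ 2 := by positivity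
    have h4 : q ^ 2 * (b1 ^ 2 + 4 * (a1 * c1)) ≤ 0 :=
      mul_nonpos_of_nonneg_of_nonpos (sq_nonneg q) (by linarith)
    linarith
  · rw [hv n]
    simp only [eval_C, eval_mul, eval_sub, eval_add, eval_X]
    push_cast
    field_simp
    ring

end Pool.Agent.P.MP_68214b_ag
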