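import Pool.Agent.P.MP_68214b_ag.HsDef

open Polynomial Finset Matrix NumberField Filter

namespace Pool.Agent.P.MP_68214b_ag

theorem no_more_zero {p q ρ : ℕ → ℝ} {N : ℕ} (hρ : ∀ n ≥ N, 0 < ρ n)
    (h1 : ∀ n ≥ N, ρ (n + 1) ≤ p n) (h2 : ∀ n ≥ N, ρ (n + 1) ≤ p n + q n / ρ n) {e : ℂ}
    (he : e = 1 ∨ e = -1) {v : ℕ → ℂ}
    (hv : ∀ n : ℕ, v (n + 2) = e * p n * v (n + 1) + q n * v n) :
    (∀ᶠ n : ℕ in atTop, v n = 0) ∨ ∀ᶠ n : ℕ in atTop, v n ≠ 0 := by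
  have hee : e * e = 1 := by rcases he with h | h <;> simp [h]
  have he0 : e ≠ 0 := left_ne_zero_of_mul_eq_one hee
  by_cases hz : ∃ m ≥ N, v m = 0
  swap
  · exact Or.inr (eventually_atTop.2 ⟨N, fun n hn h => hz ⟨n, hn, h⟩⟩)
  obtain ⟨m, hm, h0⟩ := hz
  by_cases h0' : v (m + 1) = 0
  · refine Or.inl (eventually_atTop.2 ⟨m, fun n hn => ?_⟩)
    have key : ∀ n ≥ m, v n = 0 ∧ v (n + 1) = 0 := by
      intro n hn
      induction n, hn using Nat.le_induction with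
      | base => exact ⟨h0, h0'⟩
      | succ n _ ih => exact ⟨ih.2, by rw [hv n, ih.1, ih.2]; simp⟩
    exact (key n hn).1
  · refine Or.inr (eventually_atTop.2 ⟨m + 1, fun n hn => ?_⟩)
    have key : ∀ n ≥ m, v (n + 1) ≠ 0 ∧
        ∃ x : ℝ, ρ (n + 1) ≤ x ∧ v (n + 2) = e * x * v (n + 1) := by
      intro n hn
      induction n, hn using Nat.le_induction with
      | base => exact ⟨h0', p m, h1 m hm, by rw [hv m, h0]; simp⟩
      | succ n hn ih =>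
        obtain ⟨hne, x, hx, hx'⟩ := ih
        have hn1 : n + 1 ≥ N := by omega
        have hr := hρ (n + 1) hn1
        have hx0 : 0 < x := hr.trans_le hx
        have hxc : (x : ℂ) ≠ 0 := by exact_mod_cast hx0.ne'
        refine ⟨by rw [hx']; exact mul_ne_zero (mul_ne_zero he0 hxc) hne,
          p (n + 1) + q (n + 1) / x, ?_, ?_⟩
        · rcases le_total 0 (q (n + 1)) with hq | hq
          · exact (h1 _ hn1).trans (le_add_of_nonneg_right (div_nonneg hq hx0.le))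
          · refine (h2 _ hn1).trans (add_le_add_right ?_ _)
            rw [div_le_div_iff₀ hr hx0]
            exact mul_le_mul_of_nonpos_left hx hq
        · rw [hv (n + 1), hx']
          push_cast
          field_simp
          linear_combination (-(q (n + 1) : ℂ)) * hee
    obtain ⟨n, rfl⟩ := Nat.exists_eq_add_of_le' (show 1 ≤ n by omega)
    exact (key n (by omega)).1

theorem sign_HsS1 (b : ℝ) : ∃ e : ℝ, ((e : ℂ) = 1 ∨ (e : ℂ) = -1) ∧ e * |b| = b ∧ e * e = 1 := by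
  rcases le_total 0 b with h | h
  · exact ⟨1, Or.inl (by simp), by simp [abs_of_nonneg h], by simp⟩
  · exact ⟨-1, Or.inr (by simp), by simp [abs_of_nonpos h], by simp⟩

theorem lin_HsS1 {a : ℝ} (ha : 0 < a) (K : ℝ) : ∃ N : ℕ, ∀ n ≥ N, 1 ≤ (n : ℝ) ∧ K ≤ a * n := by
  obtain ⟨N, hN⟩ := exists_nat_ge (max 1 (K / a))
  refine ⟨N, fun n hn => ?_⟩
  have h : (N : ℝ) ≤ n := by exact_mod_cast hn
  refine ⟨(le_max_left _ _).trans (hN.trans h), ?_⟩
  have h' := (le_max_right _ _).trans (hN.trans h)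
  rwa [div_le_iff₀ ha, mul_comm] at h'

theorem quad_HsS1 {a : ℝ} (ha : 0 < a) (b c : ℝ) :
    ∃ N : ℕ, ∀ n ≥ N, 0 ≤ a * (n : ℝ) ^ 2 + b * n + c := by
  obtain ⟨N, hN⟩ := lin_HsS1 ha (|b| + |c|)
  refine ⟨N, fun n hn => ?_⟩
  obtain ⟨h1, h2⟩ := hN n hn
  have hb := neg_abs_le b
  have hc := neg_abs_le c
  have hc' := abs_nonneg c
  nlinarith [mul_le_mul_of_nonneg_right h2 (by linarith : (0 : ℝ) ≤ n),
    mul_le_mul_of_nonneg_right hb (by linarith : (0 : ℝ) ≤ n), mul_le_mul_of_nonneg_left h1 hc']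

theorem dom_pos {b1 b0 g d e : ℝ} (hb : b1 ≠ 0) (hD : 0 < b1 ^ 2 + 4 * g) {v : ℕ → ℂ}
    (hv : ∀ n : ℕ, v (n + 2) = (b1 * n + b0) * v (n + 1) + (g * n ^ 2 + d * n + e) * v n) :
    (∀ᶠ n : ℕ in atTop, v n = 0) ∨ ∀ᶠ n : ℕ in atTop, v n ≠ 0 := by
  obtain ⟨σ, hσ, hσ1, hσ2⟩ := sign_HsS1 b1
  have hc : 0 < |b1| := abs_pos.2 hb
  have hc2 : |b1| ^ 2 = b1 ^ 2 := sq_abs b1
  obtain ⟨N1, hN1⟩ := lin_HsS1 (half_pos hc) (|b1| / 2 - σ * b0)
  obtain ⟨N2, hN2⟩ := quad_HsS1 (a := |b1| ^ 2 / 4 + g) (by rw [hc2]; linarith)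
    (d - (|b1| / 2 - σ * b0) * |b1| / 2) e
  refine no_more_zero (p := fun n => |b1| * n + σ * b0) (q := fun n => g * n ^ 2 + d * n + e)
    (ρ := fun n => |b1| * n / 2) (N := max N1 N2) (fun n hn => ?_) (fun n hn => ?_)
    (fun n hn => ?_) hσ fun n => ?_
  · have := (hN1 n (le_of_max_le_left hn)).1
    positivity
  · have := (hN1 n (le_of_max_le_left hn)).2
    push_cast
    linarith
  · have h1 := (hN1 n (le_of_max_le_left hn)).1
    have h2 := hN2 n (le_of_max_le_right hn)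
    rw [← sub_le_iff_le_add', le_div_iff₀ (by positivity)]
    push_cast
    nlinarith
  · have h : σ * (|b1| * n + σ * b0) = b1 * n + b0 := by
      linear_combination (n : ℝ) * hσ1 + b0 * hσ2
    rw [hv n, ← Complex.ofReal_mul, h]
    push_cast
    ring

theorem dom_const {b g d e : ℝ} (hb : b ≠ 0) (hg : 0 < g) {v : ℕ → ℂ}
    (hv : ∀ n : ℕ, v (n + 2) = b * v (n + 1) + (g * n ^ 2 + d * n + e) * v n) :
    (∀ᶠ n : ℕ in atTop, v n = 0) ∨ ∀ᶠ n : ℕ in atTop, v n ≠ 0 := by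
  obtain ⟨σ, hσ, hσ1, -⟩ := sign_HsS1 b
  have hc : 0 < |b| := abs_pos.2 hb
  obtain ⟨N, hN⟩ := quad_HsS1 hg d e
  refine no_more_zero (p := fun _ => |b|) (q := fun n => g * n ^ 2 + d * n + e)
    (ρ := fun _ => |b|) (N := N) (fun n _ => hc) (fun n _ => le_rfl)
    (fun n hn => le_add_of_nonneg_right (div_nonneg (hN n hn) hc.le)) hσ fun n => ?_
  rw [hv n, ← Complex.ofReal_mul, hσ1]
  push_cast
  ring

theorem dom_par {t r s : ℝ} (ht : t ≠ 0) {v : ℕ → ℂ}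
    (hv : ∀ n : ℕ, v (n + 2) = t * (2 * n + r + s + 1) * v (n + 1) -
      t ^ 2 * (n + r) * (n + s) * v n) :
    (∀ᶠ n : ℕ in atTop, v n = 0) ∨ ∀ᶠ n : ℕ in atTop, v n ≠ 0 := by
  obtain ⟨σ, hσ, hσ1, -⟩ := sign_HsS1 t
  have hc : 0 < |t| := abs_pos.2 ht
  have hc2 : |t| ^ 2 = t ^ 2 := sq_abs t
  obtain ⟨N, hN⟩ := lin_HsS1 one_pos (max (-r) (1 - s))
  have hr : ∀ n ≥ N, 0 ≤ (n : ℝ) + r := fun n hn => by
    have := (le_max_left _ _).trans (hN n hn).2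
    linarith
  have hs : ∀ n ≥ N, 0 < (n : ℝ) + s := fun n hn => by
    have := (le_max_right _ _).trans (hN n hn).2
    linarith
  refine no_more_zero (p := fun n => |t| * (2 * n + r + s + 1))
    (q := fun n => -(t ^ 2 * (n + r) * (n + s)))
    (ρ := fun n => |t| * (n + s)) (N := N) (fun n hn => mul_pos hc (hs n hn)) (fun n hn => ?_)
    (fun n hn => ?_) hσ fun n => ?_
  · have := mul_nonneg hc.le (hr n hn)
    push_cast
    linarith
  · rw [← sub_le_iff_le_add', le_div_iff₀ (mul_pos hc (hs n hn)), ← hc2]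
    push_cast
    exact le_of_eq (by ring)
  · have h : σ * (|t| * (2 * n + r + s + 1)) = t * (2 * n + r + s + 1) := by
      rw [← mul_assoc, hσ1]
    rw [hv n, ← Complex.ofReal_mul, h]
    push_cast
    ring

end Pool.Agent.P.MP_68214b_ag
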