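import Pool.Agent.P.MP_68214b_ag.HsN6
import Pool.Agent.P.MP_68214b_ag.HsS1

open Polynomial Finset Matrix NumberField Filter

namespace Pool.Agent.P.MP_68214b_ag

/-- eventually periodic -/
def EvPer (p : ℕ → Prop) : Prop := ∃ k ≥ 1, ∃ N, ∀ n ≥ N, (p n ↔ p (n + k))

theorem Dich.evPer {v : ℕ → ℂ} (h : Dich v) : EvPer fun n => v n = 0 := by
  rcases h with h | h
  · obtain ⟨N, hN⟩ := eventually_atTop.1 h
    refine ⟨1, le_rfl, N, fun n hn => ?_⟩
    simp [hN n hn, hN (n + 1) (by omega)]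
  · obtain ⟨N, hN⟩ := eventually_atTop.1 h
    refine ⟨1, le_rfl, N, fun n hn => ?_⟩
    simp [hN n hn, hN (n + 1) (by omega)]

theorem shift_mul_HsS2 {b e t : ℂ} {v : ℕ → ℂ}
    (hv : ∀ n : ℕ, v (n + 2) = b * v (n + 1) + e * v n) {m k : ℕ}
    (h0 : v (m + k) = t * v m) (h1 : v (m + 1 + k) = t * v (m + 1)) (i : ℕ) :
    v (m + i + k) = t * v (m + i) ∧ v (m + (i + 1) + k) = t * v (m + (i + 1)) := by
  induction i with
  | zero => exact ⟨by simpa using h0, by simpa using h1⟩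
  | succ i ih =>
    refine ⟨ih.2, ?_⟩
    have e1 : m + (i + 1 + 1) + k = m + i + k + 2 := by omega
    have e2 : m + (i + 1 + 1) = m + i + 2 := by omega
    have e3 : m + i + k + 1 = m + (i + 1) + k := by omega
    have e4 : m + i + 1 = m + (i + 1) := by omega
    rw [e1, e2, hv, hv, e3, e4, ih.1, ih.2]
    ring

theorem evPer_const {b e : ℂ} {v : ℕ → ℂ} (hv : ∀ n : ℕ, v (n + 2) = b * v (n + 1) + e * v n) :
    EvPer fun n => v n = 0 := by
  by_cases h : ∃ m k, 1 ≤ k ∧ v m = 0 ∧ v (m + k) = 0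
  · obtain ⟨m, k, hk, hm, hmk⟩ := h
    by_cases h1 : v (m + 1) = 0
    · have key := shift_mul_HsS2 (t := 0) (m := m) (k := 0) hv (by simpa using hm)
        (by simpa using h1)
      refine Dich.evPer (Or.inl (eventually_atTop.2 ⟨m, fun n hn => ?_⟩))
      obtain ⟨i, rfl⟩ := Nat.exists_eq_add_of_le hn
      simpa using (key i).1
    · have key := shift_mul_HsS2 (t := v (m + 1 + k) / v (m + 1)) (m := m) (k := k) hv
        (by rw [hm, hmk, mul_zero]) (by rw [div_mul_cancel₀ _ h1])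
      by_cases ht : v (m + 1 + k) / v (m + 1) = 0
      · refine Dich.evPer (Or.inl (eventually_atTop.2 ⟨m + k, fun n hn => ?_⟩))
        obtain ⟨i, rfl⟩ := Nat.exists_eq_add_of_le hn
        have e1 : m + k + i = m + i + k := by omega
        rw [e1, (key i).1, ht, zero_mul]
      · refine ⟨k, hk, m, fun n hn => ?_⟩
        obtain ⟨i, rfl⟩ := Nat.exists_eq_add_of_le hn
        show v (m + i) = 0 ↔ v (m + i + k) = 0
        rw [(key i).1, mul_eq_zero]
        exact ⟨Or.inr, fun h => h.resolve_left ht⟩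
  · refine Dich.evPer (Or.inr ?_)
    by_cases h2 : ∃ m, v m = 0
    · obtain ⟨m, hm⟩ := h2
      refine eventually_atTop.2 ⟨m + 1, fun n hn hz => h ⟨m, n - m, by omega, hm, ?_⟩⟩
      have e1 : m + (n - m) = n := by omega
      rw [e1, hz]
    · exact Eventually.of_forall fun n hz => h2 ⟨n, hz⟩

theorem lin_ev_HsS2 {x y : ℂ} (h : x ≠ 0 ∨ y ≠ 0) : ∃ N : ℕ, ∀ n ≥ N, x * (n : ℕ) + y ≠ 0 := by
  by_cases hx : x = 0
  · refine ⟨0, fun n _ => ?_⟩
    rw [hx, zero_mul, zero_add]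
    exact h.resolve_left (not_not.2 hx)
  · by_cases h2 : ∃ m : ℕ, x * m + y = 0
    · obtain ⟨m, hm⟩ := h2
      refine ⟨m + 1, fun n hn hz => ?_⟩
      have h3 : x * ((n : ℂ) - m) = 0 := by linear_combination hz - hm
      have h4 : (n : ℂ) = m := sub_eq_zero.1 ((mul_eq_zero.1 h3).resolve_left hx)
      have h5 : n = m := by exact_mod_cast h4
      omega
    · exact ⟨0, fun n _ hz => h2 ⟨n, hz⟩⟩

theorem evPer_two {c1 c0 a1 a0 : ℂ} {v : ℕ → ℂ}
    (hv : ∀ n : ℕ, v (n + 2) = (c1 * n + c0) * (a1 * n + a0) * v n) :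
    EvPer fun n => v n = 0 := by
  by_cases h : (c1 ≠ 0 ∨ c0 ≠ 0) ∧ (a1 ≠ 0 ∨ a0 ≠ 0)
  · obtain ⟨N, hN⟩ := lin_ev_HsS2 h.1
    obtain ⟨M, hM⟩ := lin_ev_HsS2 h.2
    refine ⟨2, by omega, N + M, fun n hn => ?_⟩
    show v n = 0 ↔ v (n + 2) = 0
    rw [hv, mul_eq_zero]
    exact ⟨Or.inr, fun h => h.resolve_left (mul_ne_zero (hN n (by omega)) (hM n (by omega)))⟩
  · refine Dich.evPer (Or.inl (eventually_atTop.2 ⟨2, fun n hn => ?_⟩))
    obtain ⟨i, rfl⟩ := Nat.exists_eq_add_of_le' hn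
    rw [hv]
    rcases not_and_or.1 h with h | h
    · push Not at h
      simp [h.1, h.2]
    · push Not at h
      simp [h.1, h.2]

theorem sml_prod {b1 b0 c1 c0 a1 a0 : ℚ}
    (hG : ¬(b1 ^ 2 + 4 * a1 * c1 < 0 ∧ b1 ≠ 0 ∧
      2 * a1 * c1 * b0 = b1 * (a0 * c1 + a1 * c0 + a1 * c1))) {v : ℕ → ℂ}
    (hv : ∀ n : ℕ, v (n + 2) = (b1 * n + b0) * v (n + 1) + (c1 * n + c0) * (a1 * n + a0) * v n) :
    EvPer fun n => v n = 0 := by
  by_cases hb1 : b1 = 0
  · by_cases hb0 : b0 = 0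
    · refine evPer_two (c1 := c1) (c0 := c0) (a1 := a1) (a0 := a0) fun n => ?_
      rw [hv, hb1, hb0]
      simp
    · rcases lt_trichotomy (a1 * c1) 0 with hg | hg | hg
      · refine Dich.evPer (dich_M hg.ne (by rw [hb1]; linarith) ?_ hv)
        rw [hb1, zero_mul, mul_assoc 2]
        exact mul_ne_zero (mul_ne_zero two_ne_zero hg.ne) hb0
      · have hg' : (a1 : ℂ) * c1 = 0 := by exact_mod_cast hg
        by_cases hd : c1 * a0 + a1 * c0 = 0
        · have hd' : (c1 : ℂ) * a0 + a1 * c0 = 0 := by exact_mod_cast hd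
          refine evPer_const (b := b0) (e := c0 * a0) fun n => ?_
          rw [hv, hb1]
          push_cast
          linear_combination (n : ℂ) ^ 2 * v n * hg' + (n : ℂ) * v n * hd'
        · refine Dich.evPer (dich_H (b := b0) (d := c1 * a0 + a1 * c0) (e := c0 * a0) hb0 hd
            fun n => ?_)
          rw [hv, hb1]
          push_cast
          linear_combination (n : ℂ) ^ 2 * v n * hg'
      · refine Dich.evPer (dom_const (b := (b0 : ℝ)) (g := ((a1 * c1 : ℚ) : ℝ))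
          (d := ((c1 * a0 + a1 * c0 : ℚ) : ℝ)) (e := ((c0 * a0 : ℚ) : ℝ))
          (by exact_mod_cast hb0) (by exact_mod_cast hg) fun n => ?_)
        rw [hv, hb1]
        push_cast
        ring
  · rcases lt_or_ge 0 (b1 ^ 2 + 4 * a1 * c1) with hD | hD
    · refine Dich.evPer (dom_pos (b1 := (b1 : ℝ)) (b0 := (b0 : ℝ)) (g := ((a1 * c1 : ℚ) : ℝ))
          (d := ((c1 * a0 + a1 * c0 : ℚ) : ℝ)) (e := ((c0 * a0 : ℚ) : ℝ))
          (by exact_mod_cast hb1) ?_ fun n => ?_)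
      · have : (0 : ℚ) < b1 ^ 2 + 4 * (a1 * c1) := by linarith
        exact_mod_cast this
      · rw [hv]
        push_cast
        ring
    · have hb2 : 0 < b1 ^ 2 := by positivity
      have hg : a1 * c1 ≠ 0 := by
        intro h
        have : 4 * a1 * c1 = 0 := by rw [mul_assoc, h, mul_zero]
        linarith
      by_cases hs : 2 * a1 * c1 * b0 = b1 * (a0 * c1 + a1 * c0 + a1 * c1)
      · have hD0 : b1 ^ 2 + 4 * a1 * c1 = 0 := by
          by_contra hne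
          exact hG ⟨lt_of_le_of_ne hD hne, hb1, hs⟩
        have ha1 : a1 ≠ 0 := left_ne_zero_of_mul hg
        have hc1 : c1 ≠ 0 := right_ne_zero_of_mul hg
        have e1 : b0 = b1 / 2 * (c0 / c1 + a0 / a1 + 1) := by
          field_simp
          linear_combination hs
        have e2 : ∀ n : ℚ, (c1 * n + c0) * (a1 * n + a0) =
            -((b1 / 2) ^ 2 * (n + c0 / c1) * (n + a0 / a1)) := by
          intro n
          have e3 : (b1 / 2) ^ 2 = -(a1 * c1) := by linear_combination (1 / 4) * hD0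
          rw [e3]
          field_simp
        refine Dich.evPer (dom_par (t := ((b1 / 2 : ℚ) : ℝ)) (r := ((c0 / c1 : ℚ) : ℝ))
          (s := ((a0 / a1 : ℚ) : ℝ)) ?_ fun n => ?_)
        · have : b1 / 2 ≠ 0 := div_ne_zero hb1 two_ne_zero
          exact_mod_cast this
        · have e1' : (b0 : ℂ) = ((b1 / 2 * (c0 / c1 + a0 / a1 + 1) : ℚ) : ℂ) := by rw [← e1]
          have e2' : (((c1 * n + c0) * (a1 * n + a0) : ℚ) : ℂ) =
              ((-((b1 / 2) ^ 2 * (n + c0 / c1) * (n + a0 / a1)) : ℚ) : ℂ) := by rw [← e2]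
          rw [hv]
          push_cast at e1' e2' ⊢
          rw [e2', e1']
          ring
      · exact Dich.evPer (dich_M hg hD hs hv)

theorem sml {a1 a0 b1 b0 c1 c0 : ℚ} (ha : a1 ≠ 0 ∨ a0 ≠ 0)
    (hG : ¬(b1 ^ 2 + 4 * a1 * c1 < 0 ∧ b1 ≠ 0 ∧ 2 * a1 * c1 * b0 = b1 * (a0 * c1 + a1 * c0)))
    {u : ℕ → ℂ}
    (hu : ∀ n : ℕ, (a1 * n + a0) * u (n + 2) = (b1 * n + b0) * u (n + 1) + (c1 * n + c0) * u n) :
    EvPer fun n => u n = 0 := by
  have ha' : (a1 : ℂ) ≠ 0 ∨ (a0 : ℂ) ≠ 0 := by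
    rcases ha with h | h
    · exact Or.inl (by exact_mod_cast h)
    · exact Or.inr (by exact_mod_cast h)
  obtain ⟨N, hN⟩ := lin_ev_HsS2 ha'
  have hP : ∀ n : ℕ, (∏ l ∈ range n, ((a1 : ℂ) * ((N + l : ℕ) : ℂ) + a0)) ≠ 0 := fun n =>
    prod_ne_zero_iff.2 fun l _ => hN (N + l) (by omega)
  have key : EvPer fun n =>
      u (N + 1 + n) * ∏ l ∈ range n, ((a1 : ℂ) * ((N + l : ℕ) : ℂ) + a0) = 0 := by
    refine sml_prod (b1 := b1) (b0 := b1 * (N + 1) + b0) (c1 := c1) (c0 := c1 * (N + 1) + c0)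
      (a1 := a1) (a0 := a1 * N + a0)
      (v := fun n => u (N + 1 + n) * ∏ l ∈ range n, ((a1 : ℂ) * ((N + l : ℕ) : ℂ) + a0))
      (fun h => hG ⟨h.1, h.2.1, by linear_combination h.2.2⟩) fun n => ?_
    have h := hu (N + 1 + n)
    have e1 : N + 1 + (n + 2) = N + 1 + n + 2 := by omega
    have e2 : N + 1 + (n + 1) = N + 1 + n + 1 := by omega
    simp only [prod_range_succ]
    rw [e1, e2]
    generalize (∏ l ∈ range n, ((a1 : ℂ) * ((N + l : ℕ) : ℂ) + a0)) = P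
    push_cast at h ⊢
    linear_combination P * ((a1 : ℂ) * (N + n) + a0) * h
  obtain ⟨k, hk, M, hM⟩ := key
  refine ⟨k, hk, N + 1 + M, fun n hn => ?_⟩
  obtain ⟨i, rfl⟩ := Nat.exists_eq_add_of_le (show N + 1 ≤ n by omega)
  have h := hM i (by omega)
  simp only [mul_eq_zero, hP, or_false] at h
  show u (N + 1 + i) = 0 ↔ u (N + 1 + i + k) = 0
  rw [add_assoc (N + 1) i k]
  exact h

end Pool.Agent.P.MP_68214b_ag
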