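import Pool.Agent.P.MP_68214b_ag.HsDef

open Polynomial Finset Matrix NumberField

namespace Pool.Agent.P.MP_68214b_ag

variable {A : Type} [CommRing A]

/-- the dehomogenised form -/
noncomputable def hpol (k : ℕ) (c : ℕ → A) : A[X] := ∑ i ∈ range (k + 1), monomial i (c i)

/-- coefficients of a form after a linear substitution -/
noncomputable def hsub (k : ℕ) (c : ℕ → A) (M : Matrix (Fin 2) (Fin 2) A) (i : ℕ) : A :=
  (∑ j ∈ range (k + 1), C (c j) * (C (M 0 0) * X + C (M 0 1)) ^ j *
    (C (M 1 0) * X + C (M 1 1)) ^ (k - j)).coeff i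

/-- resultant of two forms of degree k -/
noncomputable def hres (k : ℕ) (c c' : ℕ → A) : A := resultant (hpol k c) (hpol k c') k k

/-- shift of the variable -/
noncomputable def sh (l : ℕ) : A[X] →+* A[X] := compRingHom (X + (l : A[X]))

@[simp] theorem sh_X (l : ℕ) : sh l (X : A[X]) = X + (l : A[X]) := by simp [sh]

@[simp] theorem sh_C (l : ℕ) (a : A) : sh l (C a) = C a := by simp [sh]

theorem sh_zero (f : A[X]) : sh 0 f = f := by simp [sh]

theorem sh_succ (l : ℕ) (f : A[X]) : sh (l + 1) f = sh 1 (sh l f) := by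
  simp [sh, comp_assoc, add_assoc, add_comm (1 : A[X])]

theorem eval_sh (l : ℕ) (f : A[X]) (x : A) : (sh l f).eval x = f.eval (x + l) := by
  simp [sh, eval_comp]

theorem map_sh {B : Type} [CommRing B] (φ : A →+* B) (l : ℕ) (f : A[X]) :
    (sh l f).map φ = sh l (f.map φ) := by
  simp [sh, map_comp]

theorem natDegree_sh (l : ℕ) (f : A[X]) : (sh l f).natDegree ≤ f.natDegree := by
  refine natDegree_comp_le.trans ?_
  have : (X + (l : A[X])).natDegree ≤ 1 := by
    rw [← C_eq_natCast]; exact (natDegree_add_le _ _).trans (by simp [natDegree_X_le])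
  simpa using Nat.mul_le_mul_left f.natDegree this

theorem Par.WX_map {B : Type} [CommRing B] {κ : ℕ} (D : Par A κ) (φ : A →+* B) (m : ℕ) :
    (D.WX m).map (mapRingHom φ) = (D.map φ).WX m := by
  rw [Par.WX, Par.WX, Par.W_map, Par.map_map, Par.map_map]
  congr 1
  · cases D; simp [Par.map]
  · simp

theorem Par.map_C_sh {κ : ℕ} (D : Par A κ) (l : ℕ) : (D.map C).map (sh l) = D.map C := by
  cases D; simp [Par.map]

end Pool.Agent.P.MP_68214b_ag
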