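import Pool.Agent.P.MP_68214b_ag.HsZ0

open Polynomial Finset Matrix NumberField

namespace Pool.Agent.P.MP_68214b_ag

variable {A B : Type} [CommRing A] [CommRing B]

theorem hev_coeff_HsZ1 (k : ℕ) (f : A[X]) (v : Fin 2 → A) :
    hev k (fun i => f.coeff i) v = MvPolynomial.eval v (f.homogenize k) := by
  simp only [hev, homogenize, Finset.Nat.sum_antidiagonal_eq_sum_range_succ_mk,
    MvPolynomial.eval_sum]
  refine Finset.sum_congr rfl fun i _ => ?_
  rw [MvPolynomial.eval_monomial, Finsupp.prod_fintype _ _ (by simp), Fin.prod_univ_two]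
  simp [mul_assoc]

theorem lin_hom_HsZ1 (a b : A) :
    (MvPolynomial.C a * MvPolynomial.X 0 + MvPolynomial.C b * MvPolynomial.X 1 :
      MvPolynomial (Fin 2) A).IsHomogeneous 1 :=
  ((MvPolynomial.isHomogeneous_X A 0).C_mul a).add ((MvPolynomial.isHomogeneous_X A 1).C_mul b)

theorem hev_hsub (k : ℕ) (c : ℕ → A) (M : Matrix (Fin 2) (Fin 2) A) (v : Fin 2 → A) :
    hev k (hsub k c M) v = hev k c (M *ᵥ v) := by
  have h : (∑ j ∈ range (k + 1), C (c j) * (C (M 0 0) * X + C (M 0 1)) ^ j *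
      (C (M 1 0) * X + C (M 1 1)) ^ (k - j)).homogenize k =
      ∑ j ∈ range (k + 1), MvPolynomial.C (c j) *
        (MvPolynomial.C (M 0 0) * MvPolynomial.X 0 + MvPolynomial.C (M 0 1) * MvPolynomial.X 1) ^ j *
        (MvPolynomial.C (M 1 0) * MvPolynomial.X 0 +
          MvPolynomial.C (M 1 1) * MvPolynomial.X 1) ^ (k - j) := by
    apply homogenize_eq_of_isHomogeneous
    · refine MvPolynomial.IsHomogeneous.sum _ _ _ fun j hj => ?_
      have hj' : j ≤ k := Nat.lt_succ_iff.1 (mem_range.1 hj)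
      have h1 := (((lin_hom_HsZ1 (M 0 0) (M 0 1)).pow j).C_mul (c j)).mul
        ((lin_hom_HsZ1 (M 1 0) (M 1 1)).pow (k - j))
      have h2 : 1 * j + 1 * (k - j) = k := by omega
      rwa [h2] at h1
    · simp [map_sum]
  have h' := hev_coeff_HsZ1 k (∑ j ∈ range (k + 1), C (c j) * (C (M 0 0) * X + C (M 0 1)) ^ j *
      (C (M 1 0) * X + C (M 1 1)) ^ (k - j)) v
  rw [h] at h'
  refine Eq.trans h' ?_
  simp [hev, map_sum, mulVec, dotProduct, Fin.sum_univ_two]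

theorem hsub_map (f : A →+* B) (k : ℕ) (c : ℕ → A) (M : Matrix (Fin 2) (Fin 2) A) (i : ℕ) :
    f (hsub k c M i) = hsub k (fun j => f (c j)) (M.map f) i := by
  rw [hsub, hsub, ← coeff_map]
  congr 1
  simp [Polynomial.map_sum, Polynomial.map_mul, Polynomial.map_pow, Polynomial.map_add]

theorem cd_mul_HsZ1 {f g : A[X][X]} {s t : ℕ} (hf : ∀ i, (f.coeff i).natDegree ≤ s)
    (hg : ∀ i, (g.coeff i).natDegree ≤ t) (i : ℕ) : ((f * g).coeff i).natDegree ≤ s + t := by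
  rw [coeff_mul]
  exact natDegree_sum_le_of_forall_le _ _ fun x _ =>
    natDegree_mul_le.trans (add_le_add (hf _) (hg _))

theorem cd_C_HsZ1 {a : A[X]} {s : ℕ} (ha : a.natDegree ≤ s) (i : ℕ) :
    ((C a : A[X][X]).coeff i).natDegree ≤ s := by
  rw [coeff_C]; split_ifs
  · exact ha
  · simp

theorem cd_pow_HsZ1 {f : A[X][X]} {t : ℕ} (hf : ∀ i, (f.coeff i).natDegree ≤ t) (j : ℕ) :
    ∀ i, ((f ^ j).coeff i).natDegree ≤ j * t := by
  induction j with
  | zero => intro i; rw [pow_zero, ← C_1]; exact cd_C_HsZ1 (by simp) i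
  | succ j ih => intro i; rw [pow_succ, add_mul, one_mul]; exact cd_mul_HsZ1 ih hf i

theorem cd_lin_HsZ1 {a b : A[X]} {t : ℕ} (ha : a.natDegree ≤ t) (hb : b.natDegree ≤ t) (i : ℕ) :
    ((C a * X + C b : A[X][X]).coeff i).natDegree ≤ t := by
  rw [coeff_add]
  refine (natDegree_add_le _ _).trans (max_le ?_ (cd_C_HsZ1 hb i))
  rw [coeff_C_mul, coeff_X]; split_ifs
  · simpa using ha
  · simp

theorem natDegree_hsub (k : ℕ) {c : ℕ → A[X]} {M : Matrix (Fin 2) (Fin 2) A[X]} {s t : ℕ}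
    (hc : ∀ j, (c j).natDegree ≤ s) (hM : ∀ r r', (M r r').natDegree ≤ t) (i : ℕ) :
    (hsub k c M i).natDegree ≤ s + k * t := by
  rw [hsub, finsetSum_coeff]
  refine natDegree_sum_le_of_forall_le _ _ fun j hj => ?_
  have hj' : j ≤ k := Nat.lt_succ_iff.1 (mem_range.1 hj)
  have h := cd_mul_HsZ1 (cd_mul_HsZ1 (cd_C_HsZ1 (hc j))
    (cd_pow_HsZ1 (cd_lin_HsZ1 (hM 0 0) (hM 0 1)) j))
    (cd_pow_HsZ1 (cd_lin_HsZ1 (hM 1 0) (hM 1 1)) (k - j)) i
  refine h.trans (le_of_eq ?_)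
  rw [add_assoc, ← add_mul, Nat.add_sub_cancel' hj']

theorem natDegree_hev (k : ℕ) {c : ℕ → A[X]} {w : Fin 2 → A[X]} {s t : ℕ}
    (hc : ∀ j, (c j).natDegree ≤ s) (hw : ∀ r, (w r).natDegree ≤ t) :
    (hev k c w).natDegree ≤ s + k * t := by
  rw [hev]
  refine natDegree_sum_le_of_forall_le _ _ fun j hj => ?_
  have hj' : j ≤ k := Nat.lt_succ_iff.1 (mem_range.1 hj)
  have h0 : (w 0 ^ j).natDegree ≤ j * t :=
    natDegree_pow_le.trans (Nat.mul_le_mul_left _ (hw 0))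
  have h1 : (w 1 ^ (k - j)).natDegree ≤ (k - j) * t :=
    natDegree_pow_le.trans (Nat.mul_le_mul_left _ (hw 1))
  refine (natDegree_mul_le.trans (add_le_add
    (natDegree_mul_le.trans (add_le_add (hc j) h0)) h1)).trans (le_of_eq ?_)
  rw [add_assoc, ← add_mul, Nat.add_sub_cancel' hj']

theorem xn_deg_HsZ1 (n : ℕ) : (X + (n : A[X])).natDegree ≤ 1 := by
  rw [← C_eq_natCast]; exact (natDegree_add_le _ _).trans (by simp [natDegree_X_le])

theorem lin_deg_HsZ1 (a b : A) (n : ℕ) : (C a * (X + (n : A[X])) + C b).natDegree ≤ 1 :=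
  (natDegree_add_le _ _).trans
    (max_le ((natDegree_C_mul_le _ _).trans (xn_deg_HsZ1 n)) (by simp))

theorem p_deg_HsZ1 {κ : ℕ} (D : Par A κ) (n : ℕ) : ((D.map C).p (X + (n : A[X]))).natDegree ≤ 1 :=
  lin_deg_HsZ1 D.al D.be n

theorem q_deg_HsZ1 {κ : ℕ} (D : Par A κ) (n : ℕ) : ((D.map C).q (X + (n : A[X]))).natDegree ≤ κ := by
  rw [Par.q, Par.map_ga]
  refine (natDegree_C_mul_le _ _).trans ((natDegree_prod_le _ _).trans ?_)
  refine (sum_le_card_nsmul _ _ 1 fun i _ => ?_).trans (by simp)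
  have h := lin_deg_HsZ1 (D.a : A) (D.b i : A) n
  rwa [C_eq_natCast, C_eq_natCast] at h

theorem p_deg'_HsZ1 {κ : ℕ} (D : Par A κ) (ok : D.Ok) (n : ℕ) :
    2 * ((D.map C).p (X + (n : A[X]))).natDegree ≤ κ := by
  rcases ok with ⟨_, h⟩ | h
  · simp [Par.p, h]
  · have := p_deg_HsZ1 D n
    omega

theorem WX_succ_HsZ1 {κ : ℕ} (D : Par A κ) (m : ℕ) (s : Fin 2) :
    D.WX (m + 1) 0 s = (D.map C).p (X + (m : A[X])) * D.WX m 0 s +
      (D.map C).q (X + (m : A[X])) * D.WX m 1 s ∧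
    D.WX (m + 1) 1 s = D.WX m 0 s := by
  simp [Par.WX, Par.W_succ, Par.T, mul_apply, Fin.sum_univ_two]

theorem one_deg_HsZ1 (r s : Fin 2) :
    ((1 : Matrix (Fin 2) (Fin 2) A[X]) r s).natDegree = 0 := by
  rw [Matrix.one_apply]; split_ifs <;> simp

theorem Par.WX_deg {κ : ℕ} (D : Par A κ) (hκ : κ ≤ 2) (m : ℕ) (r s : Fin 2) :
    (D.WX m r s).natDegree ≤ 2 * m := by
  induction m generalizing r with
  | zero => exact (one_deg_HsZ1 r s).le
  | succ m ih =>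
    obtain ⟨h0, h1⟩ := WX_succ_HsZ1 D m s
    have a0 := ih 0
    have a1 := ih 1
    have hp := p_deg_HsZ1 D m
    have hq := q_deg_HsZ1 D m
    have b0 : (D.WX (m + 1) 0 s).natDegree ≤ 2 * (m + 1) := by
      rw [h0]
      refine (natDegree_add_le _ _).trans (max_le (natDegree_mul_le.trans ?_)
        (natDegree_mul_le.trans ?_)) <;> omega
    have b1 : (D.WX (m + 1) 1 s).natDegree ≤ 2 * (m + 1) := by rw [h1]; omega
    fin_cases r
    · exact b0
    · exact b1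

theorem two_add_HsZ1 {f g : A[X]} {n : ℕ} (hf : 2 * f.natDegree ≤ n) (hg : 2 * g.natDegree ≤ n) :
    2 * (f + g).natDegree ≤ n := by
  have := natDegree_add_le f g
  rcases le_max_iff.1 this with h | h <;> omega

theorem two_mul_HsZ1 {f g : A[X]} {n : ℕ} (h : 2 * f.natDegree + 2 * g.natDegree ≤ n) :
    2 * (f * g).natDegree ≤ n := by
  have := natDegree_mul_le (p := f) (q := g)
  omega

theorem inv_HsZ1 {κ : ℕ} (D : Par A κ) (ok : D.Ok) (m : ℕ) :
    2 * (D.WX m 0 0).natDegree ≤ κ * m ∧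
    (2 * (D.WX m 1 0).natDegree + κ ≤ κ * m ∨ D.WX m 1 0 = 0) ∧
    2 * (D.WX m 0 1).natDegree ≤ κ * m + κ ∧ 2 * (D.WX m 1 1).natDegree ≤ κ * m := by
  induction m with
  | zero => simp [Par.WX]
  | succ m ih =>
    obtain ⟨a, b, c, d⟩ := ih
    obtain ⟨h0, h1⟩ := WX_succ_HsZ1 D m 0
    obtain ⟨h2, h3⟩ := WX_succ_HsZ1 D m 1
    have hp := p_deg'_HsZ1 D ok m
    have hq := q_deg_HsZ1 D m
    rw [h0, h1, h2, h3, Nat.mul_succ]
    refine ⟨two_add_HsZ1 (two_mul_HsZ1 (by omega)) ?_, Or.inl (by omega),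
      two_add_HsZ1 (two_mul_HsZ1 (by omega)) (two_mul_HsZ1 (by omega)), c⟩
    rcases b with b | b
    · exact two_mul_HsZ1 (by omega)
    · simp [b]

theorem Par.trace_deg {κ : ℕ} (D : Par A κ) (ok : D.Ok) (m : ℕ) :
    2 * (D.WX m).trace.natDegree ≤ κ * m := by
  obtain ⟨a, -, -, d⟩ := inv_HsZ1 D ok m
  rw [trace_fin_two]
  exact two_add_HsZ1 a d

end Pool.Agent.P.MP_68214b_ag
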