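import Pool.Agent.P.MP_68214b_ag.HsZ0

open Polynomial Finset Matrix NumberField

namespace Pool.Agent.P.MP_68214b_ag

variable {A B : Type} [CommRing A] [CommRing B]

theorem coeff_hpol_HsZ2 (k : ℕ) (c : ℕ → A) (i : ℕ) :
    (hpol k c).coeff i = if i ≤ k then c i else 0 := by
  simp only [hpol, finsetSum_coeff, coeff_monomial, sum_ite_eq', mem_range, Nat.lt_succ_iff]

theorem deg_hpol_HsZ2 (k : ℕ) (c : ℕ → A) : (hpol k c).natDegree ≤ k :=
  natDegree_le_iff_coeff_eq_zero.2 fun i hi => by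
    rw [coeff_hpol_HsZ2, if_neg (by omega)]

theorem eval_hpol_HsZ2 (k : ℕ) (c : ℕ → A) (r : A) : (hpol k c).eval r = hev k c ![r, 1] := by
  simp [hpol, hev, eval_finsetSum]

theorem hev_inf_HsZ2 (k : ℕ) (c : ℕ → A) (x : A) : hev k c ![x, 0] = c k * x ^ k := by
  rw [hev, sum_range_succ, sum_eq_zero fun i hi => by
    have : k - i ≠ 0 := by have := mem_range.1 hi; omega
    simp [this]]
  simp

theorem map_hpol_HsZ2 (f : A →+* B) (k : ℕ) (c : ℕ → A) :
    (hpol k c).map f = hpol k fun j => f (c j) := by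
  simp [hpol, Polynomial.map_sum]

theorem root_HsZ2 {K : Type} [Field K] [IsAlgClosed K] {k : ℕ} {c c' : ℕ → K} (hc : c k ≠ 0)
    (h : hres k c c' = 0) : ∃ w : Fin 2 → K, w ≠ 0 ∧ hev k c w = 0 ∧ hev k c' w = 0 := by
  have h1 : (hpol k c).coeff k ≠ 0 := by rwa [coeff_hpol_HsZ2, if_pos le_rfl]
  have h2 : (hpol k c).natDegree = k := natDegree_eq_of_le_of_coeff_ne_zero (deg_hpol_HsZ2 k c) h1
  have h3 := resultant_eq_prod_eval (hpol k c) (hpol k c') k (deg_hpol_HsZ2 k c')
    (IsAlgClosed.splits _)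
  have h4 : (hpol k c).leadingCoeff ≠ 0 := by rwa [leadingCoeff, h2]
  rw [h2, ← hres, h] at h3
  have h5 := (mul_eq_zero.1 h3.symm).resolve_left (pow_ne_zero _ h4)
  obtain ⟨r, hr, e⟩ := Multiset.mem_map.1 (Multiset.prod_eq_zero_iff.1 h5)
  refine ⟨![r, 1], fun h0 => ?_, ?_, ?_⟩
  · simpa using congrFun h0 1
  · rw [← eval_hpol_HsZ2]
    exact (isRoot_of_mem_roots hr).eq_zero
  · rwa [← eval_hpol_HsZ2]

theorem hres_map (f : A →+* B) (k : ℕ) (c c' : ℕ → A) :
    f (hres k c c') = hres k (fun j => f (c j)) fun j => f (c' j) := by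
  rw [hres, hres, ← resultant_map_map, map_hpol_HsZ2, map_hpol_HsZ2]

theorem natDegree_hres (k : ℕ) {c c' : ℕ → A[X]} {s : ℕ} (hc : ∀ j, (c j).natDegree ≤ s)
    (hc' : ∀ j, (c' j).natDegree ≤ s) : (hres k c c').natDegree ≤ 2 * k * s := by
  have hS : ∀ i j, ((sylvester (hpol k c) (hpol k c') k k) i j).natDegree ≤ s := by
    intro i j
    induction j using Fin.addCases with
    | left j =>
      simp only [sylvester, Matrix.of_apply, Fin.addCases_left, coeff_hpol_HsZ2]
      split_ifs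
      exacts [hc' _, by simp, by simp]
    | right j =>
      simp only [sylvester, Matrix.of_apply, Fin.addCases_right, coeff_hpol_HsZ2]
      split_ifs
      exacts [hc _, by simp, by simp]
  rw [hres, resultant, Matrix.det_apply]
  refine natDegree_sum_le_of_forall_le _ _ fun σ _ => ?_
  refine (natDegree_smul_le _ _).trans ((natDegree_prod_le _ _).trans ?_)
  refine (sum_le_card_nsmul _ _ s fun i _ => hS _ _).trans_eq ?_
  simp [two_mul]

theorem hres_eq_zero {K : Type} [Field K] {k : ℕ} (hk : 0 < k) {c c' : ℕ → K} {w : Fin 2 → K}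
    (hw : w ≠ 0) (h : hev k c w = 0) (h' : hev k c' w = 0) : hres k c c' = 0 := by
  by_cases h1 : w 1 = 0
  · have h0 : w 0 ≠ 0 := fun h0 => hw (funext fun i => by fin_cases i <;> simp [h0, h1])
    have e : w = ![w 0, 0] := funext fun i => by fin_cases i <;> simp [h1]
    rw [e, hev_inf_HsZ2] at h h'
    have lt : ∀ {d : ℕ → K}, d k * w 0 ^ k = 0 → (hpol k d).natDegree < k := fun {d} hd => by
      refine (natDegree_le_iff_coeff_eq_zero.2 fun i hi => ?_ :
        (hpol k d).natDegree ≤ k - 1).trans_lt (by omega)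
      rw [coeff_hpol_HsZ2]
      split_ifs with hik
      · rw [show i = k by omega]
        exact (mul_eq_zero.1 hd).resolve_right (pow_ne_zero _ h0)
      · rfl
    exact resultant_eq_zero_of_lt_lt _ _ _ _ (lt h) (lt h')
  · have e : w = w 1 • ![w 0 / w 1, 1] := funext fun i => by
      fin_cases i
      · simp [mul_div_cancel₀ _ h1]
      · simp
    rw [e, hev_smul, ← eval_hpol_HsZ2] at h h'
    have a := (mul_eq_zero.1 h).resolve_left (pow_ne_zero _ h1)
    have a' := (mul_eq_zero.1 h').resolve_left (pow_ne_zero _ h1)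
    obtain ⟨p, q, -, -, hpq⟩ := exists_mul_add_mul_eq_C_resultant (hpol k c) (hpol k c')
      (deg_hpol_HsZ2 k c) (deg_hpol_HsZ2 k c') (Or.inl hk.ne')
    have := congrArg (eval (w 0 / w 1)) hpq
    rw [eval_add, eval_mul, eval_mul, a, a', zero_mul, zero_mul, add_zero, eval_C] at this
    exact this.symm

theorem common_of_hres {K : Type} [Field K] [IsAlgClosed K] {k : ℕ} (hk : 0 < k) {c c' : ℕ → K}
    (h : hres k c c' = 0) : ∃ w : Fin 2 → K, w ≠ 0 ∧ hev k c w = 0 ∧ hev k c' w = 0 := by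
  by_cases hc : c k = 0
  · by_cases hc' : c' k = 0
    · refine ⟨![1, 0], fun h0 => ?_, ?_, ?_⟩
      · simpa using congrFun h0 0
      · rw [hev_inf_HsZ2, hc, zero_mul]
      · rw [hev_inf_HsZ2, hc', zero_mul]
    · obtain ⟨w, h1, h2, h3⟩ := root_HsZ2 (c' := c) hc' (by
        rw [hres, resultant_comm, ← hres, h, mul_zero])
      exact ⟨w, h1, h3, h2⟩
  · exact root_HsZ2 hc h

end Pool.Agent.P.MP_68214b_ag
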