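import Pool.Agent.P.MP_68214b_ag.HsZ0

open Polynomial Finset Matrix NumberField

namespace Pool.Agent.P.MP_68214b_ag

variable {K : Type} [Field K]

theorem coeff_hpol_HsZ3 (k : ℕ) (c : ℕ → K) (i : ℕ) :
    (hpol k c).coeff i = if i ≤ k then c i else 0 := by
  classical
  rw [hpol, finsetSum_coeff]
  simp only [coeff_monomial]
  rw [Finset.sum_ite_eq' (range (k + 1)) i c]
  simp

theorem eval_hpol_HsZ3 (k : ℕ) (c : ℕ → K) (r : K) :
    (hpol k c).eval r = hev k c ![r, 1] := by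
  simp [hpol, hev, eval_finsetSum]

theorem hev_inf_HsZ3 (k : ℕ) (c : ℕ → K) : hev k c ![1, 0] = c k := by
  rw [hev, Finset.sum_range_succ, Finset.sum_eq_zero]
  · simp
  · intro i hi
    have : k - i ≠ 0 := by have := mem_range.1 hi; omega
    simp [this]

theorem root_lines {k : ℕ} {c : ℕ → K} (hc : ∃ i ≤ k, c i ≠ 0) :
    ∃ S : Finset (Fin 2 → K), S.card ≤ k ∧
      ∀ w, w ≠ 0 → hev k c w = 0 → ∃ s ∈ S, ∃ t : K, t ≠ 0 ∧ w = t • s := by
  classical
  obtain ⟨i0, hi0, hci⟩ := hc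
  have hP : hpol k c ≠ 0 := by
    intro h
    have := coeff_hpol_HsZ3 k c i0
    rw [h, if_pos hi0] at this
    exact hci (by simpa using this.symm)
  have hdeg : (hpol k c).natDegree ≤ k := by
    rw [natDegree_le_iff_coeff_eq_zero]
    intro N hN
    rw [coeff_hpol_HsZ3, if_neg (by omega)]
  have hcard : ((hpol k c).roots.toFinset.image fun r : K => (![r, 1] : Fin 2 → K)).card ≤
      (hpol k c).natDegree :=
    card_image_le.trans ((Multiset.toFinset_card_le _).trans (card_roots' _))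
  have hfin : ∀ w : Fin 2 → K, w 1 ≠ 0 → hev k c w = 0 →
      ∃ s ∈ (hpol k c).roots.toFinset.image fun r : K => (![r, 1] : Fin 2 → K),
        ∃ t : K, t ≠ 0 ∧ w = t • s := by
    intro w h1 hw
    have he : w = w 1 • (![w 0 / w 1, 1] : Fin 2 → K) := by
      ext i
      fin_cases i
      · simp [mul_div_cancel₀, h1]
      · simp
    refine ⟨![w 0 / w 1, 1], mem_image.2 ⟨w 0 / w 1, ?_, rfl⟩, w 1, h1, he⟩
    rw [Multiset.mem_toFinset, mem_roots hP, IsRoot.def, eval_hpol_HsZ3]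
    rw [he, hev_smul] at hw
    exact (mul_eq_zero.1 hw).resolve_left (pow_ne_zero _ h1)
  have hinf : ∀ w : Fin 2 → K, w ≠ 0 → w 1 = 0 →
      w 0 ≠ 0 ∧ w = w 0 • (![1, 0] : Fin 2 → K) := by
    intro w h0 h1
    constructor
    · intro h
      apply h0
      ext i
      fin_cases i
      · simpa using h
      · simpa using h1
    · ext i
      fin_cases i
      · simp
      · simpa using h1
  by_cases hk : c k = 0
  · have hlt : (hpol k c).natDegree < k := by
      refine lt_of_le_of_ne hdeg fun h => hP ?_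
      rw [← leadingCoeff_eq_zero, leadingCoeff, h, coeff_hpol_HsZ3, if_pos le_rfl, hk]
    refine ⟨insert ![1, 0] ((hpol k c).roots.toFinset.image fun r : K => (![r, 1] : Fin 2 → K)),
      (card_insert_le _ _).trans (by omega), fun w h0 hw => ?_⟩
    by_cases h1 : w 1 = 0
    · obtain ⟨ha, hb⟩ := hinf w h0 h1
      exact ⟨_, mem_insert_self _ _, w 0, ha, hb⟩
    · obtain ⟨s, hs, ht⟩ := hfin w h1 hw
      exact ⟨s, mem_insert_of_mem hs, ht⟩
  · refine ⟨_, hcard.trans hdeg, fun w h0 hw => ?_⟩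
    by_cases h1 : w 1 = 0
    · obtain ⟨ha, hb⟩ := hinf w h0 h1
      rw [hb, hev_smul, hev_inf_HsZ3] at hw
      exact absurd hw (mul_ne_zero (pow_ne_zero _ ha) hk)
    · exact hfin w h1 hw

theorem two_par {k : ℕ} {c : ℕ → K} (hc : ∃ i ≤ k, c i ≠ 0) {w : ℕ → Fin 2 → K}
    (hw : ∀ i ≤ k, w i ≠ 0 ∧ hev k c (w i) = 0) :
    ∃ a b, a < b ∧ b ≤ k ∧ wed (w a) (w b) = 0 := by
  classical
  obtain ⟨S, hS, hs⟩ := root_lines hc
  have h1 : ∀ i : ℕ, ∃ s : Fin 2 → K, i ≤ k → s ∈ S ∧ ∃ t : K, w i = t • s := by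
    intro i
    by_cases hi : i ≤ k
    · obtain ⟨s, hsS, t, -, ht⟩ := hs (w i) (hw i hi).1 (hw i hi).2
      exact ⟨s, fun _ => ⟨hsS, t, ht⟩⟩
    · exact ⟨0, fun h => absurd h hi⟩
  choose s hs' using h1
  have hlt : S.card < (range (k + 1)).card := by rw [card_range]; omega
  obtain ⟨a, ha, b, hb, hab, he⟩ := exists_ne_map_eq_of_card_lt_of_maps_to hlt (f := s)
    (fun i hi => (hs' i (by have := mem_range.1 (mem_coe.1 hi); omega)).1)
  have ha' : a ≤ k := by have := mem_range.1 ha; omega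
  have hb' : b ≤ k := by have := mem_range.1 hb; omega
  obtain ⟨ta, hta⟩ := (hs' a ha').2
  obtain ⟨tb, htb⟩ := (hs' b hb').2
  rcases lt_or_gt_of_ne hab with h | h
  · refine ⟨a, b, h, hb', ?_⟩
    rw [hta, htb, he]; simp only [wed, Pi.smul_apply, smul_eq_mul]; ring
  · refine ⟨b, a, h, ha', ?_⟩
    rw [hta, htb, he]; simp only [wed, Pi.smul_apply, smul_eq_mul]; ring

theorem par_smul {v w : Fin 2 → K} (hv : v ≠ 0) (h : wed v w = 0) : ∃ t : K, w = t • v := by
  rw [wed] at h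
  by_cases h0 : v 0 = 0
  · have h1 : v 1 ≠ 0 := by
      intro h1
      apply hv
      ext i
      fin_cases i
      · simpa using h0
      · simpa using h1
    refine ⟨w 1 / v 1, ?_⟩
    have hw : w 0 = 0 := by
      rw [h0, zero_mul, zero_sub, neg_eq_zero] at h
      exact (mul_eq_zero.1 h).resolve_left h1
    ext i
    fin_cases i
    · simp [h0, hw]
    · simp [h1]
  · refine ⟨w 0 / v 0, ?_⟩
    ext i
    fin_cases i
    · simp [h0]
    · simp only [Fin.mk_one, Pi.smul_apply, smul_eq_mul]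
      field_simp
      linear_combination h

theorem all_common {k : ℕ} {L : ℕ → ℕ → K} (hc : ∃ i ≤ k, L 0 i ≠ 0) (T : Finset K)
    (hT : k * k < T.card)
    (h : ∀ t ∈ T, ∃ w : Fin 2 → K, w ≠ 0 ∧ hev k (L 0) w = 0 ∧
      hev k (fun j => ∑ i ∈ range (k + 1), t ^ i * L i j) w = 0) :
    ∃ w : Fin 2 → K, w ≠ 0 ∧ ∀ i ≤ k, hev k (L i) w = 0 := by
  classical
  obtain ⟨S, hS, hs⟩ := root_lines hc
  have h1 : ∀ t : K, ∃ s : Fin 2 → K, t ∈ T → s ∈ S ∧ s ≠ 0 ∧
      hev k (fun j => ∑ i ∈ range (k + 1), t ^ i * L i j) s = 0 := by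
    intro t
    by_cases ht : t ∈ T
    · obtain ⟨w, hw0, hw1, hw2⟩ := h t ht
      obtain ⟨s, hsS, u, hu, hws⟩ := hs w hw0 hw1
      refine ⟨s, fun _ => ⟨hsS, ?_, ?_⟩⟩
      · rintro rfl
        exact hw0 (by simpa using hws)
      · rw [hws, hev_smul] at hw2
        exact (mul_eq_zero.1 hw2).resolve_left (pow_ne_zero _ hu)
    · exact ⟨0, fun h => absurd h ht⟩
  choose s hs' using h1
  have hlt : S.card * k < T.card := lt_of_le_of_lt (Nat.mul_le_mul_right k hS) hT
  obtain ⟨y, -, hy⟩ := exists_lt_card_fiber_of_mul_lt_card_of_maps_to (f := s)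
    (fun t ht => (hs' t ht).1) hlt
  obtain ⟨t0, ht0⟩ : (T.filter fun t => s t = y).Nonempty := card_pos.1 (by omega)
  have hy0 : y ≠ 0 := by
    obtain ⟨ha, hb⟩ := mem_filter.1 ht0
    rw [← hb]; exact (hs' t0 ha).2.1
  refine ⟨y, hy0, fun i hi => ?_⟩
  have hdeg : (hpol k fun i => hev k (L i) y).natDegree ≤ k := by
    rw [natDegree_le_iff_coeff_eq_zero]
    intro N hN
    rw [coeff_hpol_HsZ3, if_neg (by omega)]
  have hz : (hpol k fun i => hev k (L i) y) = 0 := by
    refine eq_zero_of_natDegree_lt_card_of_eval_eq_zero' _ (T.filter fun t => s t = y)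
      (fun t ht => ?_) (lt_of_le_of_lt hdeg hy)
    obtain ⟨ha, hb⟩ := mem_filter.1 ht
    have := (hs' t ha).2.2
    rw [hb] at this
    rw [← this]
    simp only [hpol, eval_finsetSum, eval_monomial, hev, sum_mul]
    rw [sum_comm]
    refine sum_congr rfl fun j _ => sum_congr rfl fun i _ => ?_
    ring
  have := coeff_hpol_HsZ3 k (fun i => hev k (L i) y) i
  rw [hz, if_pos hi] at this
  simpa using this.symm

end Pool.Agent.P.MP_68214b_ag
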