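import Pool.Agent.P.MP_68214b_ag.HsZ1
import Pool.Agent.P.MP_68214b_ag.HsE1

open Polynomial Finset Matrix NumberField

namespace Pool.Agent.P.MP_68214b_ag

variable {F : Type} [Field F] {p κ : ℕ}

theorem root_HsZ4 [CharP F p] {f : F[X]} (hd : f.degree < p) (h : ∀ j : ℕ, f.eval (j : F) = 0) :
    f = 0 := by
  refine eq_zero_of_degree_lt_of_eval_index_eq_zero (range p) (v := fun j : ℕ => (j : F))
    (fun a ha b hb e => CharP.natCast_injOn_Iio F p (mem_range.1 (mem_coe.1 ha))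
      (mem_range.1 (mem_coe.1 hb)) e) ?_ fun j _ => h j
  rwa [card_range]

theorem frob_HsZ4 [CharP F p] (hp : p.Prime) (j : ℕ) : (j : F) ^ p = j := by
  have := Fact.mk hp
  exact map_natCast (frobenius F p) j

theorem monic_HsZ4 (hp : p.Prime) : (X ^ p - X : F[X]).Monic :=
  monic_X_pow_sub (by rw [degree_X]; exact_mod_cast hp.one_lt)

theorem deg_HsZ4 (hp : p.Prime) : (X ^ p - X : F[X]).natDegree = p := by
  rw [natDegree_sub_eq_left_of_natDegree_lt, natDegree_X_pow]
  rw [natDegree_X, natDegree_X_pow]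
  exact hp.one_lt

theorem der_HsZ4 [CharP F p] : derivative (X ^ p - X : F[X]) = -1 := by
  rw [derivative_sub, derivative_X_pow, CharP.cast_eq_zero, C_0, zero_mul, derivative_X, zero_sub]

theorem prod_HsZ4 [CharP F p] (hp : p.Prime) {a : ℕ} (ha : (a : F) ≠ 0) (b : ℕ) :
    ∏ l ∈ range p, ((a : F[X]) * (X + (l : F[X])) + (b : F[X])) = C ((a : F) ^ p) * (X ^ p - X) := by
  have e1 : ∀ l : ℕ, (a : F[X]) * (X + (l : F[X])) + (b : F[X]) =
      C (a : F) * (X + C ((l : F) + b / a)) := fun l => by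
    have : (C (b : F) : F[X]) = C (a : F) * C ((b : F) / a) := by
      rw [← C_mul, mul_div_cancel₀ _ ha]
    rw [← C_eq_natCast, ← C_eq_natCast, ← C_eq_natCast, C_add, this]
    ring
  rw [prod_congr rfl fun l _ => e1 l, prod_mul_distrib, prod_const, card_range, ← C_pow]
  congr 1
  have m1 : (∏ l ∈ range p, (X + C ((l : F) + b / a))).Monic :=
    monic_prod_of_monic _ _ fun l _ => monic_X_add_C _
  have d1 : (∏ l ∈ range p, (X + C ((l : F) + b / a))).natDegree = p := by
    rw [natDegree_prod_of_monic _ _ fun l _ => monic_X_add_C _]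
    simp only [natDegree_X_add_C, sum_const, card_range, smul_eq_mul, mul_one]
  refine sub_eq_zero.1 (root_HsZ4 (p := p) ?_ fun j => ?_)
  · refine (degree_sub_lt_left ?_ m1.ne_zero (by rw [m1.leadingCoeff, (monic_HsZ4 hp).leadingCoeff])).trans_eq ?_
    · rw [degree_eq_natDegree m1.ne_zero, degree_eq_natDegree (monic_HsZ4 hp).ne_zero, d1,
        deg_HsZ4 hp]
    · rw [degree_eq_natDegree m1.ne_zero, d1]
  · obtain ⟨l, hl, h⟩ := exists_root (F := F) hp ha ((a * j + b : ℕ) : ℤ)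
    rw [eval_sub, eval_sub, eval_pow, eval_X, frob_HsZ4 hp, sub_self, sub_zero, eval_prod]
    refine prod_eq_zero (mem_range.2 hl) ?_
    rw [eval_add, eval_X, eval_C]
    push_cast at h
    field_simp
    linear_combination h

theorem shape [CharP F p] (hp : p.Prime) (h2 : p ≠ 2) (D : Par F κ) (ok : D.Ok) (hga : D.ga ≠ 0)
    (ha : (D.a : F) ≠ 0) : ∃ s g : F, g ≠ 0 ∧ (κ = 1 → s = 0) ∧
      (D.WX p).trace = C s * (X ^ p - X) + C (D.W 0 p).trace ∧
      (D.WX p).det = -(C g * (X ^ p - X) ^ κ) := by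
  have hd := D.trace_deg ok p
  have hκ := ok.le
  have h1 := hp.one_lt
  refine ⟨(D.WX p).trace.coeff p, D.ga ^ p * ((D.a : F) ^ p) ^ κ,
    mul_ne_zero (pow_ne_zero _ hga) (pow_ne_zero _ (pow_ne_zero _ ha)), fun e => ?_, ?_, ?_⟩
  · refine coeff_eq_zero_of_natDegree_lt ?_
    have e2 : κ * p = p := by rw [e, one_mul]
    omega
  · have hd' : (D.WX p).trace.natDegree ≤ p := by
      have := Nat.mul_le_mul_right p hκ.2
      omega
    refine sub_eq_zero.1 (root_HsZ4 (p := p) ?_ fun j => ?_)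
    · rw [degree_lt_iff_coeff_zero]
      intro n hn
      rw [coeff_sub, coeff_add, coeff_C_mul, coeff_sub, coeff_X_pow, coeff_X, coeff_C,
        if_neg (by omega : ¬ 1 = n), if_neg (by omega : ¬ n = 0)]
      rcases hn.eq_or_lt with e | e
      · rw [← e, if_pos rfl]
        ring
      · rw [if_neg (by omega : ¬ n = p), coeff_eq_zero_of_natDegree_lt (hd'.trans_lt e)]
        ring
    · have e1 : (D.WX p).trace.eval (j : F) = (D.W j p).trace := by
        rw [← D.WX_eval, trace_fin_two, trace_fin_two, eval_add]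
        rfl
      rw [eval_sub, eval_add, eval_mul, eval_sub, eval_pow, eval_X, frob_HsZ4 hp, sub_self, mul_zero,
        eval_C, e1, trace_nat, zero_add, sub_self]
  · rw [Par.WX, Par.W_det]
    simp only [Par.q, Par.map_ga, Par.map_a, Par.map_b]
    rw [prod_neg, card_range, (hp.odd_of_ne_two h2).neg_one_pow, prod_mul_distrib, prod_const,
      card_range, prod_comm, prod_congr rfl fun i _ => prod_HsZ4 hp ha (D.b i), prod_const, card_univ,
      Fintype.card_fin, mul_pow]
    simp only [C_mul, C_pow]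
    ring

theorem big_HsZ4 (hp : p.Prime) {W h e R : F[X]} {c u : F} (hW : W = X ^ p - X) (hu : u ≠ 0)
    (hh : h ∣ C u) (hR : R ≠ 0) (H : W * R + C c = h ^ 2 * e) : p ≤ e.natDegree := by
  subst hW
  have h0 : h.natDegree = 0 := natDegree_eq_zero_of_isUnit
    (isUnit_of_dvd_unit hh (isUnit_C.2 (IsUnit.mk0 u hu)))
  have h1 : (h ^ 2 * e).natDegree ≤ e.natDegree := by
    refine natDegree_mul_le.trans ?_
    rw [natDegree_pow, h0, mul_zero, zero_add]
  rw [← H, natDegree_add_C, natDegree_mul (monic_HsZ4 hp).ne_zero hR, deg_HsZ4 hp] at h1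
  omega

theorem disc_big [CharP F p] (hp : p.Prime) (h2 : p ≠ 2) {s g l : F} (hg : g ≠ 0) (hl : l ≠ 0)
    (hκ : κ = 1 ∧ s = 0 ∨ κ = 2) {h e : F[X]}
    (H : (C s * (X ^ p - X) + C l) ^ 2 + 4 * (C g * (X ^ p - X) ^ κ) = h ^ 2 * e) :
    p ≤ e.natDegree := by
  have t2 : (2 : F) ≠ 0 := fun e => h2 ((Nat.prime_dvd_prime_iff_eq hp Nat.prime_two).1
    ((CharP.cast_eq_zero_iff F p 2).1 (by exact_mod_cast e)))
  have t4 : (4 : F) ≠ 0 := by
    rw [show (4 : F) = 2 * 2 by norm_num]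
    exact mul_ne_zero t2 t2
  have c2 : (C (2 : F) : F[X]) = 2 := rfl
  have c4 : (C (4 : F) : F[X]) = 4 := rfl
  have d1 : h ∣ h ^ 2 * e := ⟨h * e, by ring⟩
  have d2 : h ∣ derivative (h ^ 2 * e) :=
    ⟨2 * derivative h * e + h * derivative e, by
      rw [sq, derivative_mul, derivative_mul]
      ring⟩
  have hW := der_HsZ4 (F := F) (p := p)
  obtain ⟨W, hW'⟩ : ∃ W : F[X], W = X ^ p - X := ⟨_, rfl⟩
  rw [← hW'] at H hW
  rcases hκ with ⟨rfl, rfl⟩ | rfl
  · have e1 : W * C (4 * g) + C (l ^ 2) = h ^ 2 * e := by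
      rw [← H, C_0, C_mul, C_pow, c4]
      ring
    rw [← e1, derivative_add, derivative_C, derivative_mul, derivative_C, hW, mul_zero, add_zero,
      add_zero, neg_one_mul, dvd_neg] at d2
    exact big_HsZ4 hp hW' (mul_ne_zero t4 hg) d2 (C_ne_zero.2 (mul_ne_zero t4 hg)) e1
  · have e1 : W * (C (s ^ 2 + 4 * g) * W + C (2 * s * l)) + C (l ^ 2) = h ^ 2 * e := by
      rw [← H]
      simp only [C_add, C_mul, C_pow, c2, c4]
      ring
    have e2 : derivative (h ^ 2 * e) = -(2 * C (s ^ 2 + 4 * g) * W + C (2 * s * l)) := by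
      rw [← e1]
      simp only [derivative_add, derivative_mul, derivative_C, hW]
      ring
    have d3 : h ∣ C (4 * 4 * g * l ^ 2) := by
      have := dvd_sub (d1.mul_left (4 * C (s ^ 2 + 4 * g))) (d2.mul_left (derivative (h ^ 2 * e)))
      rw [e2, ← e1] at this
      refine this.trans (dvd_of_eq ?_)
      simp only [C_add, C_mul, C_pow, c2, c4]
      ring
    refine big_HsZ4 hp hW' (mul_ne_zero (mul_ne_zero (mul_ne_zero t4 t4) hg) (pow_ne_zero 2 hl)) d3
      (fun e0 => ?_) e1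
    have e3 := congrArg derivative e0
    rw [derivative_add, derivative_C, derivative_mul, derivative_C, hW, zero_mul, zero_add, add_zero,
      derivative_zero, mul_neg_one, neg_eq_zero, C_eq_zero] at e3
    rw [e3, C_0, zero_mul, zero_add, C_eq_zero] at e0
    have e4 : s = 0 := ((mul_eq_zero.1 ((mul_eq_zero.1 e0).resolve_right hl)).resolve_left t2)
    rw [e4, zero_pow two_ne_zero, zero_add] at e3
    exact mul_ne_zero t4 hg e3

theorem pow_HsZ4 {A : Type} [CommRing A] (N : Matrix (Fin 2) (Fin 2) A) (ev : A →+* F)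
    (hd : ev N.det = 0) (i : ℕ) : ∃ a b : A, ev a = ev N.trace ^ i ∧ ev b = 0 ∧
      N ^ (i + 1) = a • N + b • (1 : Matrix (Fin 2) (Fin 2) A) := by
  induction i with
  | zero => exact ⟨1, 0, by simp, by simp, by simp⟩
  | succ i ih =>
    obtain ⟨a, b, h1, h2, h3⟩ := ih
    refine ⟨a * N.trace + b, -(a * N.det), ?_, ?_, ?_⟩
    · rw [map_add, map_mul, h1, h2, add_zero, pow_succ]
    · rw [map_neg, map_mul, hd, mul_zero, neg_zero]
    · rw [pow_succ, h3]
      ext r s
      fin_cases r <;> fin_cases s <;>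
        simp [Matrix.mul_apply, Fin.sum_univ_two, trace_fin_two, det_fin_two] <;> ring

theorem eigen_of_pow {A Ω : Type} [CommRing A] [Field Ω] (φ : A →+* Ω)
    (hφ : Function.Injective φ) (N : Matrix (Fin 2) (Fin 2) A) (ev : A →+* F)
    (hd : ev N.det = 0) (ht : ev N.trace ≠ 0) {i : ℕ} (hi : 0 < i) {w : Fin 2 → Ω}
    (h : wed w ((N ^ i).map φ *ᵥ w) = 0) : wed w (N.map φ *ᵥ w) = 0 := by
  obtain ⟨i, rfl⟩ : ∃ j, i = j + 1 := ⟨i - 1, by omega⟩
  obtain ⟨a, b, h1, -, h3⟩ := pow_HsZ4 N ev hd i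
  have ha : φ a ≠ 0 := fun e => by
    have : a = 0 := hφ (by rw [e, map_zero])
    rw [this, map_zero] at h1
    exact pow_ne_zero i ht h1.symm
  refine (mul_eq_zero.1 (?_ : φ a * _ = 0)).resolve_left ha
  rw [← h, h3]
  simp [wed, mulVec, dotProduct, Fin.sum_univ_two]
  ring

end Pool.Agent.P.MP_68214b_ag
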