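import Pool.Agent.P.MP_68214b_ag.Basic

open Polynomial NumberField Height Filter Topology

namespace Pool.Agent.P.MP_68214b_ag

variable {K : Type*} [Field K] [NumberField K]

theorem fin_na (v : FinitePlace K) : IsNonarchimedean v.1 := fun a b => v.add_le a b

theorem fin_supp {α : Type*} [Finite α] {z : α → K} (hz : z ≠ 0) :
    (fun v : FinitePlace K => ⨆ i, v (z i)).HasFiniteMulSupport := by
  obtain ⟨j0, hj0⟩ := Function.ne_iff.1 hz
  have : Nonempty α := ⟨j0⟩
  refine (Set.finite_iUnion fun i : {i // z i ≠ 0} =>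
    FinitePlace.hasFiniteMulSupport i.2).subset fun v hv => ?_
  by_contra h
  simp only [Set.mem_iUnion, Function.mem_mulSupport, not_exists, not_not] at h
  refine hv (le_antisymm (ciSup_le fun i => ?_) ?_)
  · by_cases hi : z i = 0
    · simp [hi]
    · exact (h ⟨i, hi⟩).le
  · exact (h ⟨j0, hj0⟩).ge.trans
      (le_ciSup (f := fun i => v (z i)) (Set.finite_range _).bddAbove j0)

theorem ht_cmp' {ι κ : Type*} [Finite ι] [Finite κ] {x : ι → K} {y : κ → K} (hx : x ≠ 0)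
    (hy : y ≠ 0) (S : Finset (FinitePlace K)) (ρ : FinitePlace K → ℝ) (hρ0 : ∀ v, 0 ≤ ρ v)
    (hρ : ∀ v ∉ S, ρ v = 1) (r : InfinitePlace K → ℝ) (hr : ∀ w, 0 ≤ r w)
    (hf : ∀ (v : FinitePlace K) i, ∃ j, ρ v * v (x i) ≤ v (y j))
    (ha : ∀ (w : InfinitePlace K) i, ∃ j, r w * w (x i) ≤ w (y j)) :
    (∏ w, r w ^ w.mult) * (∏ v ∈ S, ρ v) * mulHeight x ≤ mulHeight y := by
  obtain ⟨i0, hi0⟩ := Function.ne_iff.1 hx
  have : Nonempty ι := ⟨i0⟩
  have key : ∀ (c : ℝ) (f : ι → ℝ) (g : κ → ℝ), (∀ i, ∃ j, c * f i ≤ g j) →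
      c * ⨆ i, f i ≤ ⨆ j, g j := fun c f g h => by
    obtain ⟨i, hi⟩ := exists_eq_ciSup_of_finite (f := f)
    obtain ⟨j, hj⟩ := h i
    rw [← hi]
    exact hj.trans (le_ciSup (Set.finite_range g).bddAbove j)
  have nn : ∀ v : FinitePlace K, 0 ≤ ⨆ i, v (x i) := fun v =>
    Real.iSup_nonneg fun i => apply_nonneg v _
  have hS : Function.mulSupport ρ ⊆ S := fun v hv => by_contra fun h => hv (hρ v h)
  have fS : ρ.HasFiniteMulSupport := S.finite_toSet.subset hS
  rw [NumberField.mulHeight_eq hx, NumberField.mulHeight_eq hy,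
    ← finprod_eq_prod_of_mulSupport_subset _ hS, mul_mul_mul_comm, ← Finset.prod_mul_distrib,
    ← finprod_mul_distrib fS (fin_supp hx)]
  refine mul_le_mul (Finset.prod_le_prod (fun w _ => ?_) fun w _ => ?_)
    (finprod_le_finprod (fS.mul (fin_supp hx)) (fun v => mul_nonneg (hρ0 v) (nn v)) (fin_supp hy)
      fun v => key _ _ _ (hf v))
    (finprod_nonneg fun v => mul_nonneg (hρ0 v) (nn v))
    (Finset.prod_nonneg fun w _ => pow_nonneg (Real.iSup_nonneg fun i => apply_nonneg w _) _)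
  · exact mul_nonneg (pow_nonneg (hr w) _)
      (pow_nonneg (Real.iSup_nonneg fun i => apply_nonneg w _) _)
  · rw [← mul_pow]
    exact pow_le_pow_left₀ (mul_nonneg (hr w) (Real.iSup_nonneg fun i => apply_nonneg w _))
      (key _ _ _ (ha w)) _

theorem ht_cmp {ι κ : Type*} [Finite ι] [Finite κ] {x : ι → K} {y : κ → K} (hx : x ≠ 0)
    (hy : y ≠ 0) (S : Finset (FinitePlace K)) (ρ : FinitePlace K → ℝ) (hρ0 : ∀ v, 0 ≤ ρ v)
    (hρ : ∀ v ∉ S, ρ v = 1) {r : ℝ} (hr : 0 ≤ r)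
    (hf : ∀ (v : FinitePlace K) i, ∃ j, ρ v * v (x i) ≤ v (y j))
    (ha : ∀ (φ : K →+* ℂ) i, ∃ j, r * ‖φ (x i)‖ ≤ ‖φ (y j)‖) :
    r ^ Module.finrank ℚ K * (∏ v ∈ S, ρ v) * mulHeight x ≤ mulHeight y := by
  have := ht_cmp' hx hy S ρ hρ0 hρ (fun _ => r) (fun _ => hr) hf fun w i => by
    simpa only [InfinitePlace.norm_embedding_eq] using ha w.embedding i
  rwa [Finset.prod_pow_eq_pow_sum, InfinitePlace.sum_mult_eq] at this

theorem ht_le {ι κ : Type*} [Finite ι] [Finite κ] {x : ι → K} {y : κ → K} (hy : y ≠ 0) {r : ℝ}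
    (hr : 1 ≤ r) (hf : ∀ (v : FinitePlace K) i, ∃ j, v (x i) ≤ v (y j))
    (ha : ∀ (φ : K →+* ℂ) i, ∃ j, ‖φ (x i)‖ ≤ r * ‖φ (y j)‖) :
    mulHeight x ≤ r ^ Module.finrank ℚ K * mulHeight y := by
  have r0 : 0 < r := by linarith
  by_cases hx : x = 0
  · rw [hx, mulHeight_zero]
    exact one_le_mul_of_one_le_of_one_le (one_le_pow₀ hr) (one_le_mulHeight y)
  have := ht_cmp hx hy ∅ (fun _ => 1) (by simp) (by simp) (r := r⁻¹) (by positivity)
    (by simpa using hf) fun φ i => by simpa only [inv_mul_le_iff₀ r0] using ha φ i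
  rwa [Finset.prod_empty, mul_one, inv_pow, inv_mul_le_iff₀ (by positivity)] at this

theorem one_ne : (![1] : Fin 1 → K) ≠ 0 := by simp

theorem pair_ne (x : K) : (![x, 1] : Fin 2 → K) ≠ 0 := by simp

theorem fin_le_ht (v : FinitePlace K) (x : K) : v x ≤ mulHeight₁ x := by
  classical
  have := ht_cmp one_ne (pair_ne x) {v} (fun w => if w = v then v x else 1)
    (fun w => by split_ifs <;> simp) (fun w hw => if_neg (by simpa using hw)) zero_le_one
    (fun w i => by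
      by_cases h : w = v
      · exact ⟨0, by simp [h]⟩
      · exact ⟨1, by simp [h]⟩) fun φ i => ⟨1, by simp⟩
  simpa [mulHeight₁_eq_mulHeight] using this

theorem arch_le_ht (φ : K →+* ℂ) (x : K) : ‖φ x‖ ≤ mulHeight₁ x := by
  classical
  rcases le_or_gt ‖φ x‖ 1 with h1 | h1
  · exact h1.trans (one_le_mulHeight₁ x)
  have := ht_cmp' one_ne (pair_ne x) ∅ (fun _ => 1) (by simp) (by simp)
    (fun w => if w = InfinitePlace.mk φ then ‖φ x‖ else 1)
    (fun w => by split_ifs <;> simp) (fun w i => ⟨1, by simp⟩) fun w i => by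
      by_cases h : w = InfinitePlace.mk φ
      · exact ⟨0, by simp [h, InfinitePlace.apply]⟩
      · exact ⟨1, by simp [h]⟩
  rw [Finset.prod_eq_single (InfinitePlace.mk φ) (fun w _ hw => by simp [hw]) (by simp)] at this
  simp only [if_true, Finset.prod_empty, mul_one, mulHeight_eq_one_of_subsingleton] at this
  rw [mulHeight₁_eq_mulHeight]
  exact (le_self_pow₀ h1.le InfinitePlace.mult_ne_zero).trans this

theorem liouville_fin (v : FinitePlace K) {x : K} (hx : x ≠ 0) : 1 ≤ v x * mulHeight₁ x := by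
  have := fin_le_ht v x⁻¹
  rwa [mulHeight₁_inv, map_inv₀, inv_le_iff_one_le_mul₀' (FinitePlace.pos_iff.2 hx)] at this

theorem liouville_arch (φ : K →+* ℂ) {x : K} (hx : x ≠ 0) : 1 ≤ ‖φ x‖ * mulHeight₁ x := by
  have := arch_le_ht φ x⁻¹
  rwa [mulHeight₁_inv, map_inv₀, norm_inv, inv_le_iff_one_le_mul₀' (by simpa using hx)] at this

theorem fin_nat_le (v : FinitePlace K) (n : ℕ) : v n ≤ 1 := v_nat_le (fin_na v) n

theorem fin_int_le (v : FinitePlace K) (n : ℤ) : v n ≤ 1 := v_int_le (fin_na v) n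

theorem ht_nat {i : ℕ} (hi : 0 < i) : mulHeight₁ (i : K) ≤ (i : ℝ) ^ Module.finrank ℚ K := by
  have h1 : (1 : ℝ) ≤ i := by exact_mod_cast hi
  have := ht_le (x := ![(i : K), 1]) one_ne h1
    (fun v j => ⟨0, by fin_cases j <;> simp [fin_nat_le]⟩)
    fun φ j => ⟨0, by fin_cases j <;> simp [h1]⟩
  simpa [mulHeight₁_eq_mulHeight] using this

theorem nat_bound (v : FinitePlace K) (i : ℕ) (hi : 0 < i) :
    1 ≤ v i * (i : ℝ) ^ Module.finrank ℚ K :=
  (liouville_fin v (Nat.cast_ne_zero.2 hi.ne')).trans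
    (mul_le_mul_of_nonneg_left (ht_nat hi) (apply_nonneg v _))

theorem pow_mul_le {a b : ℝ} (ha : 0 ≤ a) (hb : 0 ≤ b) {j n k m : ℕ} (hj : j ≤ n) (hk : k ≤ m) :
    ∃ i : Fin 2 × Fin 2, a ^ j * b ^ k ≤ ![a ^ n, 1] i.1 * ![b ^ m, 1] i.2 := by
  have h : ∀ {a : ℝ} {j n : ℕ}, 0 ≤ a → j ≤ n → ∃ i : Fin 2, a ^ j ≤ ![a ^ n, 1] i :=
    fun {a j n} ha hj => (le_total a 1).elim (fun h => ⟨1, pow_le_one₀ ha h⟩)
      fun h => ⟨0, pow_le_pow_right₀ h hj⟩
  obtain ⟨i1, h1⟩ := h ha hj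
  obtain ⟨i2, h2⟩ := h hb hk
  exact ⟨(i1, i2), mul_le_mul h1 h2 (by positivity) ((pow_nonneg ha _).trans h1)⟩

/-- height of an integer polynomial expression in two numbers -/
theorem ht_two (t g : K) (n m : ℕ) (b : ℕ → ℕ → ℤ) {M : ℝ} (hM : 1 ≤ M)
    (hb : ∀ j ≤ n, ∀ k ≤ m, |(b j k : ℝ)| ≤ M) :
    mulHeight₁ (∑ j ∈ Finset.range (n + 1), ∑ k ∈ Finset.range (m + 1), b j k * t ^ j * g ^ k) ≤
      ((n + 1) * (m + 1) * M) ^ Module.finrank ℚ K * mulHeight₁ t ^ n * mulHeight₁ g ^ m := by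
  have r1 : (1 : ℝ) ≤ (n + 1) * (m + 1) * M :=
    one_le_mul_of_one_le_of_one_le (one_le_mul_of_one_le_of_one_le (by simp) (by simp)) hM
  set y : Fin 2 × Fin 2 → K := fun i => ![t ^ n, 1] i.1 * ![g ^ m, 1] i.2 with hy
  have e : mulHeight y = mulHeight₁ t ^ n * mulHeight₁ g ^ m := by
    rw [hy, mulHeight_fun_mul_eq (pair_ne _) (pair_ne _), ← mulHeight₁_eq_mulHeight,
      ← mulHeight₁_eq_mulHeight, mulHeight₁_pow, mulHeight₁_pow]
  have y0 : y ≠ 0 := Function.ne_iff.2 ⟨(1, 1), by simp [hy]⟩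
  have key : ∀ (f : K → ℝ), (∀ a b, f (a * b) = f a * f b) → f 1 = 1 → (∀ a, 0 ≤ f a) →
      ∃ i, f 1 ≤ f (y i) ∧ ∀ j ≤ n, ∀ k ≤ m, f (t ^ j * g ^ k) ≤ f (y i) := fun f hm h1 h0 => by
    have hp : ∀ a (k : ℕ), f (a ^ k) = f a ^ k := fun a k => by
      induction k with
      | zero => simpa using h1
      | succ k ih => rw [pow_succ, hm, ih, pow_succ]
    obtain ⟨i, -, hi⟩ := Finset.exists_max_image Finset.univ (fun i => f (y i)) ⟨(1, 1), by simp⟩
    have : ∀ j ≤ n, ∀ k ≤ m, f (t ^ j * g ^ k) ≤ f (y i) := fun j hj k hk => by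
      obtain ⟨l, hl⟩ := pow_mul_le (h0 t) (h0 g) hj hk
      refine le_trans ?_ (hi l (by simp))
      rw [hm, hp, hp, hy, hm]
      refine hl.trans_eq ?_
      obtain ⟨l1, l2⟩ := l
      fin_cases l1 <;> fin_cases l2 <;> simp [hp, h1]
    exact ⟨i, by simpa using this 0 (by simp) 0 (by simp), this⟩
  rw [mul_assoc, ← e, mulHeight₁_eq_mulHeight]
  refine ht_le y0 r1 (fun v i => ?_) fun φ i => ?_
  · obtain ⟨l, h1, hl⟩ := key v (map_mul v) (map_one v) (apply_nonneg v)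
    refine ⟨l, ?_⟩
    fin_cases i
    · simp only [Fin.zero_eta, Matrix.cons_val_zero]
      refine Finset.sum_induction _ (fun a => v a ≤ v (y l))
        (fun a b ha hb => (v.add_le a b).trans (max_le ha hb)) (by simp) fun j hj => ?_
      refine Finset.sum_induction _ (fun a => v a ≤ v (y l))
        (fun a b ha hb => (v.add_le a b).trans (max_le ha hb)) (by simp) fun k hk => ?_
      rw [mul_assoc, map_mul]
      exact (mul_le_of_le_one_left (apply_nonneg v _) (fin_int_le v _)).trans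
        (hl j (by simpa [Nat.lt_succ_iff] using hj) k (by simpa [Nat.lt_succ_iff] using hk))
    · exact h1
  · obtain ⟨l, h1, hl⟩ := key (fun a => ‖φ a‖) (by simp) (by simp) (by simp)
    refine ⟨l, ?_⟩
    fin_cases i
    · simp only [Fin.zero_eta, Matrix.cons_val_zero, map_sum]
      refine (norm_sum_le_of_le _ (n := fun _ => (m + 1) * (M * ‖φ (y l)‖)) fun j hj =>
        (norm_sum_le_of_le _ (n := fun _ => M * ‖φ (y l)‖) fun k hk => ?_).trans (by simp)).trans
        (by simp [mul_assoc])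
      have hj' : j ≤ n := by simpa [Nat.lt_succ_iff] using hj
      have hk' : k ≤ m := by simpa [Nat.lt_succ_iff] using hk
      rw [mul_assoc, map_mul, norm_mul, map_intCast, Complex.norm_intCast]
      exact mul_le_mul (hb j hj' k hk') (hl j hj' k hk') (norm_nonneg _) (by linarith)
    · exact h1.trans (le_mul_of_one_le_left (norm_nonneg _) r1)

/-- height of a root of a binary form -/
theorem ht_root {k : ℕ} {c : Fin (k + 1) → K} (hc : c ≠ 0) {Y Z : K}
    (h : ∑ j, c j * Y ^ (j : ℕ) * Z ^ (k - j) = 0) :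
    mulHeight ![Y, Z] ≤ (k + 1 : ℝ) ^ Module.finrank ℚ K * mulHeight c := by
  classical
  have r1 : (1 : ℝ) ≤ k + 1 := by simp
  by_cases hZ : Z = 0
  · subst hZ
    simpa using one_le_mul_of_one_le_of_one_le (one_le_pow₀ r1) (one_le_mulHeight c)
  set t := Y / Z with ht
  have h1 : ∑ j, c j * t ^ (j : ℕ) = 0 := by
    have : ∑ j, c j * t ^ (j : ℕ) = (∑ j, c j * Y ^ (j : ℕ) * Z ^ (k - j)) / Z ^ k := by
      rw [Finset.sum_div]
      refine Finset.sum_congr rfl fun j _ => ?_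
      rw [ht, pow_sub₀ _ hZ (Nat.lt_succ_iff.1 j.2), div_pow]
      field_simp
    rw [this, h, zero_div]
  obtain ⟨e, he, hmax⟩ := Finset.exists_max_image (Finset.univ.filter fun j => c j ≠ 0) id
    (by simpa [Finset.Nonempty] using Function.ne_iff.1 hc)
  have ce : c e ≠ 0 := by simpa using he
  have h2 : c e * t ^ (e : ℕ) = -∑ j ∈ Finset.univ.erase e, c j * t ^ (j : ℕ) := by
    rw [← Finset.add_sum_erase _ _ (Finset.mem_univ e)] at h1
    linear_combination h1
  have key : ∀ (f : K → ℝ) (r : ℝ), 1 ≤ r → (∀ a b, f (a * b) = f a * f b) →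
      (∀ a (i : ℕ), f (a ^ i) = f a ^ i) → (∀ a, 0 ≤ f a) → f 0 = 0 →
      (∀ M, 0 ≤ M → (∀ j ∈ Finset.univ.erase e, f (c j * t ^ (j : ℕ)) ≤ M) →
        f (c e * t ^ (e : ℕ)) ≤ r * M) →
      ∀ i : Fin 2, ∃ j, f (![c e * t, c e] i) ≤ r * f (c j) := fun f r hr hm hp h0 f0 hs i => by
    obtain ⟨l, -, hl⟩ := Finset.exists_max_image Finset.univ (fun i => f (c i)) ⟨e, by simp⟩
    have a1 : f (c e) ≤ r * f (c l) :=
      (hl e (by simp)).trans (le_mul_of_one_le_left (h0 _) hr)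
    refine ⟨l, ?_⟩
    fin_cases i
    swap
    · exact a1
    change f (c e * t) ≤ _
    rcases le_or_gt (f t) 1 with h1 | h1
    · rw [hm]; exact (mul_le_of_le_one_right (h0 _) h1).trans a1
    have := hs (f (c l) * f t ^ (e : ℕ) / f t) (by have := h0 (c l); positivity) fun j hj => by
      by_cases cj : c j = 0
      · rw [cj, zero_mul, f0]; have := h0 (c l); positivity
      have : j < e := lt_of_le_of_ne (hmax j (by simpa using cj)) (by simpa using hj)
      rw [hm, hp, le_div_iff₀ (by linarith), mul_assoc, ← pow_succ]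
      exact mul_le_mul (hl j (by simp)) (pow_le_pow_right₀ h1.le this) (by positivity) (h0 _)
    rw [hm, hp, ← mul_div_assoc, le_div_iff₀ (by linarith)] at this
    rw [hm]
    have hp : 0 < f t ^ (e : ℕ) := by positivity
    nlinarith
  rw [← mulHeight_smul_eq_mulHeight _ (show c e / Z ≠ 0 from div_ne_zero ce hZ),
    show (c e / Z) • ![Y, Z] = ![c e * t, c e] by
      ext i; fin_cases i <;> simp [ht] <;> field_simp]
  refine ht_le hc r1 (fun v i => ?_) fun φ => ?_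
  · simpa using key v 1 le_rfl (map_mul v) (map_pow v) (apply_nonneg v) (map_zero v)
      (fun M h0 hM => by
        rw [h2, map_neg_eq_map, one_mul]
        exact Finset.sum_induction _ (fun a => v a ≤ M)
          (fun a b ha hb => (v.add_le a b).trans (max_le ha hb)) (by simpa) hM) i
  · refine key (fun a => ‖φ a‖) _ r1 (by simp) (by simp) (by simp) (by simp) fun M h0 hM => ?_
    simp only [h2, map_neg, norm_neg, map_sum]
    refine (norm_sum_le_of_le _ hM).trans ?_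
    simp only [Finset.sum_const, nsmul_eq_mul]
    gcongr
    simp

end Pool.Agent.P.MP_68214b_ag
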