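import Pool.Agent.P.MP_68214b_ag.Reduce

open NumberField Height Filter Topology Finset

namespace Pool.Agent.P.MP_68214b_ag

theorem exists_spec (T : Finset ℂ) : ∃ (R : Subalgebra ℚ ℂ) (K : Type) (_ : Field K)
    (_ : NumberField K) (ψ : R →+* K), (∀ x ∈ T, x ∈ R) ∧ ∀ x : R, x.1 ∈ T → x ≠ 0 → ψ x ≠ 0 := by
  classical
  let R := Algebra.adjoin ℚ ((T ∪ T.image (·⁻¹) : Finset ℂ) : Set ℂ)
  have : Algebra.FiniteType ℚ R := (Subalgebra.fg_iff_finiteType _).1 (Subalgebra.fg_adjoin_finset _)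
  obtain ⟨m, hm⟩ := Ideal.exists_maximal R
  let _ : Field (R ⧸ m) := Ideal.Quotient.field m
  have hfin : Module.Finite ℚ (R ⧸ m) := finite_of_finite_type_of_isJacobsonRing ℚ (R ⧸ m)
  have : CharZero (R ⧸ m) := algebraRat.charZero _
  refine ⟨R, R ⧸ m, inferInstance, { to_finiteDimensional := ?_ }, Ideal.Quotient.mk m,
    fun x hx => Algebra.subset_adjoin (by simp [hx]), fun x hx x0 => ?_⟩
  · have key : ∀ i j : Algebra ℚ (R ⧸ m), @Module.Finite ℚ (R ⧸ m) _ _ i.toModule →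
        @Module.Finite ℚ (R ⧸ m) _ _ j.toModule := fun i j h => Subsingleton.elim i j ▸ h
    exact key (Ideal.Quotient.algebra ℚ) _ hfin
  have h : x.1⁻¹ ∈ R := Algebra.subset_adjoin (by
    simp only [coe_union, coe_image, Set.mem_union, Set.mem_image, mem_coe]
    exact Or.inr ⟨_, hx, rfl⟩)
  have : x * ⟨_, h⟩ = 1 := Subtype.ext (mul_inv_cancel₀ fun h => x0 (Subtype.ext h))
  exact left_ne_zero_of_mul_eq_one (by rw [← map_mul, this, map_one])

/-- the recurrence satisfied by the second coordinate along an orbit, started at x = k + 1 -/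
def URec (A B : ℂ) (k : ℕ) (u : ℕ → ℂ) : Prop :=
  ∀ n : ℕ, u (n + 2) = (2 * (k + n) + 3) * A * u (n + 1) - B * (k + n + 1) ^ 2 * u n

theorem nondeg {A B : ℂ} {u : ℕ → ℂ} (hu : URec A B 0 u) (hB : B ≠ 0)
    (h : u 1 - A * u 0 ≠ 0 ∧ (A ≠ 0 ∨ u 0 ≠ 0) ∨
      u 1 - A * u 0 = 0 ∧ u 0 ≠ 0 ∧ A ≠ 0 ∧ A ^ 2 ≠ B)
    {F : MvPolynomial (Fin 3) ℂ} (hF : F ≠ 0) :
    ∀ᶠ n : ℕ in atTop, MvPolynomial.eval ![(n : ℂ) + 1, u (n + 1), u n] F ≠ 0 := by
  classical
  obtain ⟨b, rfl⟩ := IsAlgClosed.exists_pow_nat_eq B two_pos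
  obtain ⟨x, y, rfl, rfl⟩ : ∃ x y, A = x + y ∧ b = x - y :=
    ⟨(A + b) / 2, (A - b) / 2, by ring, by ring⟩
  obtain ⟨R, K, _, _, ψ, hT, hψ⟩ :=
    exists_spec ({x, y, x + y, x - y, u 0, u 1, u 1 - (x + y) * u 0} ∪ F.coeffs)
  have f0 : ∀ n : ℕ, (n.factorial : ℂ) ≠ 0 := fun n => Nat.cast_ne_zero.2 n.factorial_ne_zero
  have hs : Rec (x + y) ((x - y) ^ 2) fun n => u n / n.factorial := fun n => by
    have := f0 n
    have h1 : (n : ℂ) + 1 ≠ 0 := Nat.cast_add_one_ne_zero n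
    have h2 : (n : ℂ) + 1 + 1 ≠ 0 := by exact_mod_cast (by omega : n + 1 + 1 ≠ 0)
    simp only [hu n, Nat.factorial_succ]
    push_cast; field_simp; ring
  have xR := hT x (by simp)
  have yR := hT y (by simp)
  have uR : ∀ n, u n ∈ R := fun n => by
    induction n using Nat.twoStepInduction with
    | zero => exact hT _ (by simp)
    | one => exact hT _ (by simp)
    | more n a c =>
      rw [hu n]
      exact sub_mem (mul_mem (mul_mem (by exact_mod_cast natCast_mem R (2 * (0 + n) + 3))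
        (add_mem xR yR)) c) (mul_mem (mul_mem (pow_mem (sub_mem xR yR) _)
          (by exact_mod_cast natCast_mem R ((0 + n + 1) ^ 2))) a)
  have sR : ∀ n, u n / n.factorial ∈ R := fun n => by
    simpa [div_eq_inv_mul, Rat.smul_def] using R.smul_mem (uR n) ((n.factorial : ℚ)⁻¹)
  let s : ℕ → R := fun n => ⟨_, sR n⟩
  let X : R := ⟨x, xR⟩
  let Y : R := ⟨y, yR⟩
  have hs1 : Rec (X + Y) ((X - Y) ^ 2) s := fun n => Subtype.ext (hs n)
  have hs2 : Rec (ψ X + ψ Y) ((ψ X - ψ Y) ^ 2) fun n => ψ (s n) := by simpa using hs1.map ψ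
  have nz : ∀ z : R, z.1 ∈ ({x, y, x + y, x - y, u 0, u 1, u 1 - (x + y) * u 0} : Finset ℂ) →
      z.1 ≠ 0 → ψ z ≠ 0 := fun z hz z0 => hψ z (mem_union_left _ hz) fun h => z0 (by simp [h])
  have hxy : ψ X ≠ ψ Y := sub_ne_zero.1 (by
    rw [← map_sub]; exact nz _ (by simp [X, Y]) (by simpa [X, Y] using hB))
  have hA : x + y ≠ 0 → ψ X + ψ Y ≠ 0 := fun h => by
    rw [← map_add]; exact nz _ (by simp [X, Y]) h
  have h0 : u 0 ≠ 0 → ψ (s 0) ≠ 0 := fun h => nz _ (by simp [s]) (by simpa [s] using h)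
  have hG : Grows fun n => ψ (s n) := by
    rcases h with ⟨h1, h2⟩ | ⟨h1, h2, h3, h4⟩
    · refine grows_generic hxy hs2 ?_ (h2.imp hA h0)
      rw [← map_add, ← map_mul, ← map_sub]
      exact nz _ (by simp [s, X, Y]) (by simpa [s, X, Y] using h1)
    · obtain ⟨κ, κ1, hκ⟩ := grows_special (nz X (by simp [X]) fun h => h4 (by
        rw [show x = 0 from h]; ring)) (nz Y (by simp [Y]) fun h => h4 (by
        rw [show y = 0 from h]; ring)) hxy (hA h3)
      have e : ∀ n, ψ (s n) = ψ (s 0) * LP (ψ X) (ψ Y) n := hs2.ext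
        (by simpa using (P_rec (ψ X) (ψ Y)).comb (P_rec _ _) (ψ (s 0)) 0) (by simp) (by
          rw [P_one, ← map_add, ← map_mul]
          congr 1
          exact Subtype.ext (by simpa [s, X, Y, mul_comm] using sub_eq_zero.1 h1))
      refine ⟨κ, κ1, hκ.mono fun n hn => hn.trans_eq ?_⟩
      rw [← mulHeight_smul_eq_mulHeight _ (h0 h2)]
      simp only [e (n + 1), e n, Matrix.smul_cons, smul_eq_mul, Matrix.smul_empty]
  obtain ⟨F', rfl⟩ : F ∈ Set.range (MvPolynomial.map (R.val : R →+* ℂ)) :=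
    MvPolynomial.mem_range_map_iff_coeffs_subset.2 fun c hc => ⟨⟨c, hT c (mem_union_right _ hc)⟩, rfl⟩
  have hF' : MvPolynomial.map ψ F' ≠ 0 := fun h => by
    obtain ⟨m, hm⟩ := MvPolynomial.support_nonempty.2 hF
    refine hψ (F'.coeff m) (mem_union_right _ (MvPolynomial.mem_coeffs_iff.2
      ⟨m, hm, by simp [MvPolynomial.coeff_map]⟩)) (fun h => ?_)
      (by simpa [MvPolynomial.coeff_map] using congrArg (MvPolynomial.coeff m) h)
    simp [MvPolynomial.coeff_map, h] at hm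
  filter_upwards [finite_zero hG (ht_sol hs2) hF'] with n hn h
  refine hn ?_
  let p : Fin 3 → R := ![(n : R) + 1, (n + 1).factorial * s (n + 1), n.factorial * s n]
  have h1 : MvPolynomial.eval p F' = 0 := Subtype.ext (by
    refine (MvPolynomial.map_eval (R.val : R →+* ℂ) p F').trans (Eq.trans ?_ h)
    congr 2
    ext i; fin_cases i <;> simp [p, s, mul_div_cancel₀ _ (f0 _)])
  have := MvPolynomial.map_eval ψ p F'
  rw [h1, map_zero] at this
  refine Eq.trans ?_ this.symm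
  congr 2
  ext i; fin_cases i <;> simp [p]

/-- eventually constant -/
def EvC (p : ℕ → Prop) : Prop := (∀ᶠ j in atTop, p j) ∨ ∀ᶠ j in atTop, ¬p j

/-- eventually of period two -/
def Per2 (p : ℕ → Prop) : Prop := ∀ᶠ n in atTop, (p n ↔ p (n + 2))

theorem EvC.per2 {p : ℕ → Prop} (h : EvC p) : Per2 p := by
  rcases h with h | h <;> filter_upwards [h, (tendsto_add_atTop_nat 2).eventually h] with n a b <;>
    simp [a, b]

theorem per2_of_parity {p : ℕ → Prop} (h0 : EvC fun j => p (2 * j)) (h1 : EvC fun j => p (2 * j + 1)) :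
    Per2 p := by
  have key : ∀ {q : ℕ → Prop}, EvC q → ∀ᶠ j in atTop, (q j ↔ q (j + 1)) := fun h => by
    rcases h with h | h <;> filter_upwards [h, (tendsto_add_atTop_nat 1).eventually h] with n a b <;>
      simp [a, b]
  have ht : Tendsto (fun k : ℕ => k / 2) atTop atTop := Nat.tendsto_div_const_atTop two_ne_zero
  filter_upwards [ht.eventually (key h0), ht.eventually (key h1)] with n a b
  rcases Nat.even_or_odd' n with ⟨j, rfl | rfl⟩
  · rwa [show 2 * j / 2 = j by omega] at a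
  · rwa [show (2 * j + 1) / 2 = j by omega, show 2 * (j + 1) + 1 = 2 * j + 1 + 2 by ring] at b

theorem Per2.of_shift {p : ℕ → Prop} (k : ℕ) (h : Per2 fun n => p (k + n)) : Per2 p := by
  obtain ⟨N, hN⟩ := eventually_atTop.1 h
  filter_upwards [eventually_ge_atTop (k + N)] with n hn
  obtain ⟨j, rfl⟩ := Nat.exists_eq_add_of_le (show k ≤ n by omega)
  exact hN j (by omega)

theorem Per2.shift {p : ℕ → Prop} (k : ℕ) (h : Per2 p) : Per2 fun n => p (k + n) := by
  obtain ⟨N, hN⟩ := eventually_atTop.1 h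
  filter_upwards [eventually_ge_atTop N] with n hn using hN (k + n) (by omega)

theorem poly_low {g : Polynomial ℂ} (hg : g ≠ 0) {x : ℕ → ℕ} (hx : Tendsto x atTop atTop) :
    ∃ c : ℝ, 0 < c ∧ ∀ᶠ j in atTop, c ≤ ‖g.eval (x j : ℂ)‖ := by
  rcases lt_or_ge 0 g.degree with h | h
  · exact ⟨1, one_pos, (g.tendsto_norm_atTop h
      (by simpa [Function.comp_def] using tendsto_natCast_atTop_atTop.comp hx)).eventually_ge_atTop 1⟩
  · rw [Polynomial.eq_C_of_degree_le_zero h] at hg ⊢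
    exact ⟨‖g.coeff 0‖, by simpa using hg, by simp⟩

theorem deg_case (F : MvPolynomial (Fin 3) ℂ) (a b : Polynomial ℂ) (r k : ℕ) (hr : 0 < r)
    {w c : ℕ → ℂ} (hw : ∀ j, w (j + 1) = c j * w j)
    (hc : (∀ᶠ j in atTop, 2 ≤ ‖c j‖) ∨ ∀ j, c j = 0) :
    EvC fun j => MvPolynomial.eval ![((r * j + k : ℕ) : ℂ), a.eval ((r * j + k : ℕ) : ℂ) * w j,
      b.eval ((r * j + k : ℕ) : ℂ) * w j] F = 0 := by
  set x : ℕ → ℕ := fun j => r * j + k with hx
  have xt : Tendsto x atTop atTop := tendsto_atTop_mono (fun j => by simp only [hx, id]; nlinarith)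
    tendsto_id
  set G : Polynomial (Polynomial ℂ) := MvPolynomial.eval₂ (Polynomial.C.comp Polynomial.C)
    ![Polynomial.C Polynomial.X, Polynomial.C a * Polynomial.X, Polynomial.C b * Polynomial.X] F
  have e : ∀ j, MvPolynomial.eval ![(x j : ℂ), a.eval (x j : ℂ) * w j, b.eval (x j : ℂ) * w j] F =
      G.eval₂ (Polynomial.evalRingHom (x j : ℂ)) (w j) := fun j => by
    have := MvPolynomial.eval₂_comp_left
      (Polynomial.eval₂RingHom (Polynomial.evalRingHom (x j : ℂ)) (w j)) (Polynomial.C.comp Polynomial.C)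
      ![Polynomial.C Polynomial.X, Polynomial.C a * Polynomial.X, Polynomial.C b * Polynomial.X] F
    refine Eq.trans ?_ this.symm
    rw [← MvPolynomial.eval₂_id]
    congr 1
    · ext; simp
    · ext i; fin_cases i <;> simp
  change EvC fun j => MvPolynomial.eval ![(x j : ℂ), a.eval (x j : ℂ) * w j,
    b.eval (x j : ℂ) * w j] F = 0
  simp only [e]
  by_cases h0 : ∃ j, w j = 0
  · obtain ⟨j0, h0⟩ := h0
    have : ∀ᶠ j in atTop, w j = 0 := eventually_atTop.2 ⟨j0, fun j hj => by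
      induction j, hj using Nat.le_induction with
      | base => exact h0
      | succ n _ ih => rw [hw, ih, mul_zero]⟩
    by_cases g0 : G.coeff 0 = 0
    · exact Or.inl (this.mono fun j hj => by simp [hj, g0])
    · obtain ⟨d, d0, hd⟩ := poly_low g0 xt
      refine Or.inr ?_
      filter_upwards [this, hd] with j h1 h2
      simpa [h1] using norm_pos_iff.1 (d0.trans_le h2)
  push Not at h0
  by_cases G0 : G = 0
  · exact Or.inl (by simp [G0])
  obtain ⟨j0, hj0⟩ := eventually_atTop.1 (hc.resolve_right fun h => h0 1 (by rw [hw, h, zero_mul]))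
  have w0 : 0 < ‖w j0‖ := norm_pos_iff.2 (h0 _)
  have gr : ∀ j, j0 ≤ j → ‖w j0‖ / 2 ^ j0 * 2 ^ j ≤ ‖w j‖ := fun j hj => by
    induction j, hj using Nat.le_induction with
    | base => simp
    | succ n hn ih =>
      rw [hw, norm_mul, pow_succ, ← mul_assoc, mul_comm]
      exact mul_le_mul (hj0 n hn) ih (by positivity) (norm_nonneg _)
  obtain ⟨d, d0, hd⟩ := poly_low (Polynomial.leadingCoeff_ne_zero.2 G0) xt
  have sx : ∀ g : Polynomial ℂ, Sx fun j => ‖g.eval (x j : ℂ)‖ := fun g => by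
    induction g using Polynomial.induction_on' with
    | add p q hp hq =>
      refine sx_le _ _ (fun n => ?_) (sx_mul _ _ (fun _ => by positivity) (fun _ => by positivity)
        (sx_const 2) (fun b hb => (hp b hb).mp ((hq b hb).mono fun n h1 h2 => max_le h2 h1) :
          Sx fun j => max ‖p.eval (x j : ℂ)‖ ‖q.eval (x j : ℂ)‖))
      rw [Polynomial.eval_add, two_mul]
      exact (norm_add_le _ _).trans (add_le_add (le_max_left _ _) (le_max_right _ _))
    | monomial n z =>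
      refine sx_le _ _ (fun j => ?_) (sx_poly (‖z‖ * (r + k) ^ n) n)
      rw [Polynomial.eval_monomial, norm_mul, norm_pow, Complex.norm_natCast, mul_assoc, ← mul_pow]
      gcongr
      exact_mod_cast (by simp only [hx]; nlinarith : x j ≤ (r + k) * (j + 1))
  refine Or.inr ?_
  filter_upwards [hd, eventually_ge_atTop j0, (eventually_all_finset (range G.natDegree)).2
      fun i _ => sx (G.coeff i) _ (by norm_num : (1 : ℝ) < 4 / 3),
    ev_poly ((G.natDegree + d + 1) / d / (‖w j0‖ / 2 ^ j0)) 0 (by norm_num : (1 : ℝ) < 3 / 2)]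
    with j h1 h2 h3 h4 h
  rw [pow_zero, mul_one, div_le_iff₀ (by positivity), div_le_iff₀ d0] at h4
  have t1 : (1 : ℝ) ≤ (4 / 3) ^ j := one_le_pow₀ (by norm_num)
  have h5 : (G.natDegree + d + 1) * (4 / 3) ^ j ≤ ‖w j‖ * d :=
    calc _ ≤ (3 / 2) ^ j * (‖w j0‖ / 2 ^ j0) * d * (4 / 3) ^ j := by gcongr
      _ = ‖w j0‖ / 2 ^ j0 * (3 / 2 * (4 / 3)) ^ j * d := by rw [mul_pow]; ring
      _ ≤ _ := by rw [show (3 / 2 * (4 / 3) : ℝ) = 2 by norm_num]; gcongr; exact gr j h2
  have n0 : (0 : ℝ) ≤ G.natDegree := by positivity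
  have w1 : 1 ≤ ‖w j‖ := le_of_mul_le_mul_right (by nlinarith) d0
  rw [Polynomial.eval₂_eq_sum_range, sum_range_succ, add_eq_zero_iff_neg_eq] at h
  have h6 : d * ‖w j‖ ^ G.natDegree * ‖w j‖ ≤ G.natDegree * (4 / 3) ^ j * ‖w j‖ ^ G.natDegree := by
    calc _ ≤ ‖Polynomial.evalRingHom (x j : ℂ) (G.coeff G.natDegree) * w j ^ G.natDegree‖ * ‖w j‖ := by
          rw [norm_mul, norm_pow]; gcongr; exact h1
      _ ≤ ∑ i ∈ range G.natDegree, (4 / 3) ^ j * ‖w j‖ ^ G.natDegree := by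
          rw [← h, norm_neg]
          refine (mul_le_mul_of_nonneg_right (norm_sum_le _ _) (norm_nonneg _)).trans ?_
          rw [sum_mul]
          refine sum_le_sum fun i hi => ?_
          rw [norm_mul, norm_pow, mul_assoc, ← pow_succ]
          exact mul_le_mul (h3 i hi) (pow_le_pow_right₀ w1 (mem_range.1 hi)) (by positivity)
            (by positivity)
      _ = _ := by simp [mul_assoc]
  have p0 : 0 < ‖w j‖ ^ G.natDegree := by positivity
  have h7 : d * ‖w j‖ ≤ G.natDegree * (4 / 3) ^ j := le_of_mul_le_mul_right (by linarith) p0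
  nlinarith

theorem ev_two {c : ℂ} (hc : c ≠ 0) {f : ℕ → ℂ} (hf : ∀ j : ℕ, (j : ℝ) ≤ ‖f j‖) :
    ∀ᶠ j in atTop, 2 ≤ ‖f j * c‖ := by
  have c0 := norm_pos_iff.2 hc
  filter_upwards [tendsto_natCast_atTop_atTop.eventually_ge_atTop (2 / ‖c‖)] with j hj
  rw [norm_mul, ← div_le_iff₀ c0]
  exact hj.trans (hf j)

theorem two_or {c : ℂ} (f : ℕ → ℕ) (hf : ∀ j, j ≤ f j) :
    (∀ᶠ j in atTop, 2 ≤ ‖(f j : ℂ) * c‖) ∨ ∀ j, (f j : ℂ) * c = 0 := by
  by_cases hc : c = 0
  · exact Or.inr (by simp [hc])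
  · exact Or.inl (ev_two hc fun j => by simpa using hf j)

theorem per2_zero {A B : ℂ} {u : ℕ → ℂ} (hu : URec A B 0 u) (hB : B ≠ 0)
    (F : MvPolynomial (Fin 3) ℂ) :
    Per2 fun n => MvPolynomial.eval ![(n : ℂ) + 1, u (n + 1), u n] F = 0 := by
  by_cases hF : F = 0
  · exact EvC.per2 (Or.inl (by simp [hF]))
  by_cases h : u 1 - A * u 0 ≠ 0 ∧ (A ≠ 0 ∨ u 0 ≠ 0) ∨
      u 1 - A * u 0 = 0 ∧ u 0 ≠ 0 ∧ A ≠ 0 ∧ A ^ 2 ≠ B
  · exact EvC.per2 (Or.inr (nondeg hu hB h hF))
  have st : A = 0 → ∀ n : ℕ, u (n + 2) = ((n + 1) ^ 2 : ℕ) * -B * u n := fun hA n => by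
    rw [hu n, hA]; push_cast; ring
  have z : A = 0 → ∀ i, u i = 0 → ∀ j, u (2 * j + i) = 0 := fun hA i hi j => by
    induction j with
    | zero => simpa using hi
    | succ j ih => rw [show 2 * (j + 1) + i = 2 * j + i + 2 by ring, st hA, ih, mul_zero]
  have dc : A = 0 → ∀ (a b : Polynomial ℂ) (k i : ℕ), EvC fun j => MvPolynomial.eval
      ![((2 * j + k : ℕ) : ℂ), a.eval ((2 * j + k : ℕ) : ℂ) * u (2 * j + i),
        b.eval ((2 * j + k : ℕ) : ℂ) * u (2 * j + i)] F = 0 := fun hA a b k i =>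
    deg_case F a b 2 k two_pos (w := fun j => u (2 * j + i))
      (fun j => by rw [← st hA]; congr 1; ring)
      (two_or (fun j => (2 * j + i + 1) ^ 2) fun j =>
        le_trans (by omega) (Nat.le_self_pow two_ne_zero _))
  by_cases h1 : A = 0 ∧ u 0 = 0
  · refine per2_of_parity ?_ ?_
    · simpa [show ∀ j, u (2 * j) = 0 from z h1.1 0 h1.2] using dc h1.1 1 0 1 1
    · simpa [show ∀ j, u (2 * j + 2) = 0 from fun j => z h1.1 0 h1.2 (j + 1), add_assoc,
        one_add_one_eq_two] using dc h1.1 0 1 2 1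
  have hm : u 1 = A * u 0 := by
    by_contra h2
    exact h (Or.inl ⟨sub_ne_zero.2 h2, by tauto⟩)
  by_cases hA : A = 0
  · have h2 : u 1 = 0 := by rw [hm, hA, zero_mul]
    refine per2_of_parity ?_ ?_
    · simpa [z hA 1 h2] using dc hA 0 1 1 0
    · simpa [z hA 1 h2, add_assoc, one_add_one_eq_two] using dc hA 1 0 2 2
  have e : ∀ n : ℕ, u (n + 1) = (n + 1 : ℕ) * A * u n := fun n => by
    by_cases u0 : u 0 = 0
    · have : ∀ n, u n = 0 := fun n => by
        induction n using Nat.twoStepInduction with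
        | zero => exact u0
        | one => rw [hm, u0, mul_zero]
        | more n a b => rw [hu, a, b]; ring
      simp [this]
    have hAB : A ^ 2 = B := by
      by_contra h2
      exact h (Or.inr ⟨sub_eq_zero.2 hm, u0, hA, h2⟩)
    induction n with
    | zero => simpa using hm
    | succ n ih => rw [hu, ih, ← hAB]; push_cast; ring
  refine EvC.per2 ?_
  have := deg_case F (Polynomial.C A * Polynomial.X) 1 1 1 one_pos e
    (two_or (fun j => j + 1) fun j => by omega)
  refine (congrArg EvC (funext fun j => ?_)).mp this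
  rw [e j]
  simp [mul_comm A]

theorem back {A B : ℂ} (hB : B ≠ 0) (k : ℕ) {v : ℕ → ℂ} (hv : URec A B k v) :
    ∃ u, URec A B 0 u ∧ ∀ j, u (k + j) = v j := by
  induction k generalizing v with
  | zero => exact ⟨v, hv, by simp⟩
  | succ k ih =>
    obtain ⟨u, hu, e⟩ := ih (v := fun j => Nat.casesOn j
      (((2 * k + 3) * A * v 0 - v 1) / (B * (k + 1) ^ 2)) v) fun n => by
        rcases n with _ | n
        · have := Nat.cast_add_one_ne_zero (R := ℂ) k
          change v 1 = (2 * (k + (0 : ℕ)) + 3) * A * v 0 - B * (k + (0 : ℕ) + 1) ^ 2 *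
            (((2 * k + 3) * A * v 0 - v 1) / (B * (k + 1) ^ 2))
          simp only [Nat.cast_zero, add_zero]; field_simp; ring
        · have := hv n
          push_cast at this ⊢
          linear_combination this
    exact ⟨u, hu, fun j => by rw [← show k + (j + 1) = k + 1 + j by ring, e]⟩

theorem per2_shift {A B : ℂ} {k : ℕ} {v : ℕ → ℂ} (hv : URec A B k v)
    (F : MvPolynomial (Fin 3) ℂ) :
    Per2 fun n => MvPolynomial.eval ![(k : ℂ) + n + 1, v (n + 1), v n] F = 0 := by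
  by_cases hB : B = 0
  · have e : ∀ n : ℕ, v (n + 2) = (2 * (k + n) + 3 : ℕ) * A * v (n + 1) := fun n => by
      rw [hv, hB]; push_cast; ring
    refine Per2.of_shift 1 (EvC.per2 ?_)
    have := deg_case F (Polynomial.C A * (2 * Polynomial.X - 1)) 1 1 (k + 2) one_pos
      (w := fun j => v (j + 1)) e (two_or (fun j => 2 * (k + j) + 3) fun j => by omega)
    refine (congrArg EvC (funext fun j => ?_)).mp this
    congr 3
    ext i; fin_cases i
    · simp; ring
    · simp [add_comm 1 j, e]; left; ring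
    · simp [add_comm]
  · obtain ⟨u, hu, e⟩ := back hB k hv
    simpa [← e, add_assoc] using (per2_zero hu hB F).shift k

end Pool.Agent.P.MP_68214b_ag
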