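import Pool.Agent.P.MP_68214b_ag.Basic

open Filter Topology Finset Chebyshev Nat

namespace Pool.Agent.P.MP_68214b_ag

/-- the part of lcm(1..2k) supported on primes up to k / r -/
def Nn (r k : ℕ) : ℕ := ∏ p ∈ primesLE (k / r), p ^ p.log (2 * k)

/-- the product of the primes in (k/2, k] -/
def Qn (k : ℕ) : ℕ := ∏ p ∈ (primesLE k).filter (fun p => k < 2 * p), p

theorem ev_sqrt (C ε : ℝ) (hε : 0 < ε) : ∀ᶠ k : ℕ in atTop, C * √(2 * k) + C ≤ ε * k := by
  have h : Tendsto (fun k : ℕ => √(2 * (k : ℝ))) atTop atTop :=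
    Real.tendsto_sqrt_atTop.comp (tendsto_natCast_atTop_atTop.const_mul_atTop two_pos)
  filter_upwards [h.eventually_ge_atTop (4 * |C| / ε + 1)] with k hk
  have e : √(2 * (k : ℝ)) * √(2 * (k : ℝ)) = 2 * k := Real.mul_self_sqrt (by positivity)
  set u := √(2 * (k : ℝ))
  have h0 : 0 ≤ 4 * |C| / ε := by positivity
  have h1 : 4 * |C| ≤ ε * u := by
    rw [← div_le_iff₀' hε]; linarith
  have h2 := le_abs_self C
  have h3 := abs_nonneg C
  nlinarith

theorem Nn_le (r : ℕ) (hr : 0 < r) {b : ℝ} (b0 : 0 < b) (hb : 4 < b ^ r) :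
    ∀ᶠ k : ℕ in atTop, (Nn r k : ℝ) ≤ b ^ k := by
  obtain ⟨C, hC⟩ := psi_sub_theta_le_mul_sqrt
  have r0 : (0 : ℝ) < r := by exact_mod_cast hr
  have h1 : Real.log 4 / r < Real.log b := by
    rw [div_lt_iff₀' r0, ← Real.log_pow]; exact Real.log_lt_log (by norm_num) hb
  filter_upwards [ev_sqrt |C| _ (sub_pos.2 h1)] with k hk
  have sub : primesLE (k / r) ⊆ primesLE (2 * k) := fun p hp => mem_primesLE.2
    ⟨(le_of_mem_primesLE hp).trans ((Nat.div_le_self _ _).trans (by omega)),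
      prime_of_mem_primesLE hp⟩
  have h2 : Real.log (Nn r k) ≤ θ (k / r : ℕ) + (ψ (2 * k : ℕ) - θ (2 * k : ℕ)) := by
    rw [Nn, cast_prod, Real.log_prod (fun p hp => by
      have := (prime_of_mem_primesLE hp).pos; positivity), psi_eq_sum_mul_log_prime,
      theta_eq_sum_primesLE_log, theta_eq_sum_primesLE_log, ← sum_sub_distrib,
      ← sum_sdiff sub, add_comm (∑ p ∈ _ \ _, _), ← add_assoc, ← sum_add_distrib]
    refine le_add_of_le_of_nonneg (le_of_eq (sum_congr rfl fun p _ => by simp))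
      (sum_nonneg fun p hp => ?_)
    have hp := mem_primesLE.1 (Finset.mem_sdiff.1 hp).1
    have : (1 : ℝ) ≤ p.log (2 * k) := by exact_mod_cast Nat.log_pos hp.2.one_lt hp.1
    have := Real.log_natCast_nonneg p
    nlinarith
  have h3 : θ (k / r : ℕ) ≤ Real.log 4 / r * k :=
    (theta_le_log4_mul_x (by positivity)).trans (by
      rw [div_mul_eq_mul_div, mul_div_assoc]
      exact mul_le_mul_of_nonneg_left Nat.cast_div_le (Real.log_nonneg (by norm_num)))
  have h4 := (hC (2 * k : ℕ)).trans (mul_le_mul_of_nonneg_right (le_abs_self C) (Real.sqrt_nonneg _))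
  have N0 : (0 : ℝ) < Nn r k := by
    exact_mod_cast prod_pos fun p hp => pow_pos (prime_of_mem_primesLE hp).pos _
  rw [← Real.log_le_log_iff N0 (by positivity), Real.log_pow]
  push_cast at h2 h4
  have := abs_nonneg C
  nlinarith

theorem Qn_pos (k : ℕ) : 0 < Qn k :=
  prod_pos fun _ hp => (prime_of_mem_primesLE (mem_filter.1 hp).1).pos

theorem Qn_ge : ∃ b : ℝ, 1 < b ∧ ∀ᶠ k : ℕ in atTop, b ^ k ≤ Qn k := by
  obtain ⟨C, hC⟩ := psi_sub_theta_le_mul_sqrt
  have l4 : 1 < Real.log 4 := by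
    rw [Real.lt_log_iff_exp_lt (by norm_num)]; linarith [Real.exp_one_lt_d9]
  refine ⟨Real.exp (1 / 12), Real.one_lt_exp_iff.2 (by norm_num), ?_⟩
  have ht : Tendsto (fun k : ℕ => k / 2) atTop atTop := Nat.tendsto_div_const_atTop two_ne_zero
  filter_upwards [ht.eventually (ev_sqrt (|C| + 2) (1 / 12) (by norm_num)),
    ht.eventually_gt_atTop 2] with k hk h2
  set h := k / 2 with hh
  have lg : ∀ S : Finset ℕ, S ⊆ primesLE (2 * h) → Real.log (∏ p ∈ S, p : ℕ) = ∑ p ∈ S, Real.log p :=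
    fun S hS => by
      rw [cast_prod, Real.log_prod fun p hp => by
        have := (prime_of_mem_primesLE (hS hp)).pos; positivity]
  have s1 : primesLE (2 * h / 3) ⊆ primesLE h := fun p hp => mem_primesLE.2
    ⟨(le_of_mem_primesLE hp).trans (by omega), prime_of_mem_primesLE hp⟩
  have s2 : primesLE h ⊆ primesLE (2 * h) := fun p hp => mem_primesLE.2
    ⟨(le_of_mem_primesLE hp).trans (by omega), prime_of_mem_primesLE hp⟩
  have d1 : centralBinom h * ∏ p ∈ primesLE h \ primesLE (2 * h / 3), p ∣ lcmUpto (2 * h) := by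
    refine Coprime.mul_dvd_of_dvd_of_dvd (Coprime.prod_right fun p hp => ?_)
      (choose_dvd_lcmUpto (by omega))
      ((prod_dvd_prod_of_subset _ _ _ (sdiff_subset.trans s2)).trans (primorial_dvd_lcmUpto _))
    obtain ⟨h1, h3⟩ := Finset.mem_sdiff.1 hp
    rw [mem_primesLE] at h1 h3
    refine ((Nat.Prime.coprime_iff_not_dvd h1.2).2 fun hd => ?_).symm
    have := factorization_centralBinom_of_two_mul_self_lt_three_mul h2 h1.1
      (by have := h1.2; simp only [this, and_true] at h3; omega)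
    exact (h1.2.factorization_pos_of_dvd (centralBinom_ne_zero h) hd).ne' this
  have a1 : Real.log (centralBinom h) + (θ h - θ (2 * h / 3 : ℕ)) ≤ ψ (2 * h : ℕ) := by
    have p0 : 0 < ∏ p ∈ primesLE h \ primesLE (2 * h / 3), p :=
      prod_pos fun p hp => (prime_of_mem_primesLE (Finset.mem_sdiff.1 hp).1).pos
    rw [theta_eq_sum_primesLE_log, theta_eq_sum_primesLE_log, ← sum_sdiff_eq_sub s1,
      ← lg _ (sdiff_subset.trans s2), psi_eq_log_lcmUpto,
      ← Real.log_mul (by have := centralBinom_pos h; positivity) (by positivity)]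
    exact Real.log_le_log (by have := centralBinom_pos h; positivity)
      (by exact_mod_cast le_of_dvd (lcmUpto_pos _) d1)
  have a2 : θ (2 * h : ℕ) - θ h ≤ Real.log (Qn k) := by
    rw [theta_eq_sum_primesLE_log, theta_eq_sum_primesLE_log, ← sum_sdiff_eq_sub s2,
      ← lg _ sdiff_subset]
    refine Real.log_le_log (by
      exact_mod_cast prod_pos fun p hp => (prime_of_mem_primesLE (Finset.mem_sdiff.1 hp).1).pos)
      (Nat.cast_le.2 (le_of_dvd (Qn_pos k) (prod_dvd_prod_of_subset _ _ _ fun p hp => ?_)))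
    obtain ⟨h1, h3⟩ := Finset.mem_sdiff.1 hp
    rw [mem_primesLE] at h1 h3
    have := h1.2
    simp only [this, and_true] at h3
    exact mem_filter.2 ⟨mem_primesLE.2 ⟨by omega, this⟩, by omega⟩
  have h0 : (0 : ℝ) < h := by exact_mod_cast (by omega : 0 < h)
  have a3 : h * Real.log 4 ≤ Real.log (2 * h) + Real.log (centralBinom h) := by
    rw [← Real.log_pow, ← Real.log_mul (by positivity) (by have := centralBinom_pos h; positivity)]
    exact Real.log_le_log (by positivity)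
      (by exact_mod_cast four_pow_le_two_mul_self_mul_centralBinom h (by omega))
  have a4 : θ (2 * h / 3 : ℕ) ≤ Real.log 4 * (2 * h / 3) :=
    (theta_le_log4_mul_x (by positivity)).trans
      (mul_le_mul_of_nonneg_left (Nat.cast_div_le.trans (by simp)) (by linarith))
  have a5 := (hC (2 * h : ℕ)).trans (mul_le_mul_of_nonneg_right (le_abs_self C) (Real.sqrt_nonneg _))
  have a6 : Real.log (2 * h) ≤ 2 * √(2 * h) := by
    have := Real.log_le_sub_one_of_pos (Real.sqrt_pos.2 (by positivity : (0 : ℝ) < 2 * h))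
    rw [Real.log_sqrt (by positivity)] at this
    linarith
  have a7 : (k : ℝ) ≤ 2 * h + 1 := by exact_mod_cast (by omega : k ≤ 2 * h + 1)
  rw [← Real.exp_nat_mul, ← Real.le_log_iff_exp_le (by exact_mod_cast Qn_pos k)]
  push_cast at a1 a2 a5
  have := abs_nonneg C
  nlinarith

section Abs
variable {K : Type*} [Field K] {v : AbsoluteValue K ℝ}

theorem v_prime_unique (hv : IsNonarchimedean v) {p q : ℕ} (hp : p.Prime) (hq : q.Prime)
    (h1 : v p < 1) (h2 : v q < 1) : p = q := by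
  by_contra h
  obtain ⟨a, b, hab⟩ := Nat.isCoprime_iff_coprime.2 ((coprime_primes hp hq).2 h)
  have : (a : K) * p + b * q = 1 := by exact_mod_cast congrArg (Int.cast : ℤ → K) hab
  have h3 := hv ((a : K) * p) (b * q)
  rw [this, map_one, map_mul, map_mul] at h3
  exact absurd h3 (not_le.2 (max_lt
    ((mul_le_of_le_one_left (v.nonneg _) (v_int_le hv a)).trans_lt h1)
    ((mul_le_of_le_one_left (v.nonneg _) (v_int_le hv b)).trans_lt h2)))

theorem v_prod_one {T : Finset ℕ} (f : ℕ → ℕ) (h : ∀ p ∈ T, v p = 1) :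
    v (∏ p ∈ T, p ^ f p : ℕ) = 1 := by
  rw [cast_prod, map_prod]
  exact prod_eq_one fun p hp => by simp [h p hp]

theorem v_prod_eq (hv : IsNonarchimedean v) {T : Finset ℕ} (hT : ∀ p ∈ T, p.Prime) (f : ℕ → ℕ)
    {p : ℕ} (hp : p ∈ T) (h : v p < 1) : v (∏ p ∈ T, p ^ f p : ℕ) = v p ^ f p := by
  rw [← mul_prod_erase _ _ hp, cast_mul, map_mul, v_prod_one f fun q hq =>
    le_antisymm (v_nat_le hv q) (not_lt.1 fun h' => (mem_erase.1 hq).1
      (v_prime_unique hv (hT q (mem_erase.1 hq).2) (hT p hp) h' h))]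
  simp

theorem exists_prime_of_lt {k : ℕ} (hk : k ≠ 0) (h : v k ≠ 1) : ∃ p, p.Prime ∧ p ∣ k ∧ v p ≠ 1 := by
  by_contra! H
  refine h ?_
  rw [← prod_factorization_pow_eq_self hk, Finsupp.prod]
  exact v_prod_one _ fun p hp => H p (prime_of_mem_primeFactors hp) (dvd_of_mem_primeFactors hp)

theorem v_lcm (hv : IsNonarchimedean v) {N : ℕ} (hN : 0 < N) :
    ∃ i, 0 < i ∧ i ≤ N ∧ v (lcmUpto N) = v i := by
  rw [lcmUpto_eq_prod_pow_log]
  by_cases h : ∃ p ∈ primesLE N, v p < 1
  · obtain ⟨p, hp, h⟩ := h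
    exact ⟨p ^ p.log N, pow_pos (prime_of_mem_primesLE hp).pos _, pow_log_le_self p hN.ne', by
      rw [v_prod_eq hv (fun q => prime_of_mem_primesLE) _ hp h]; simp⟩
  · push Not at h
    exact ⟨1, one_pos, hN, by
      rw [v_prod_one _ fun p hp => le_antisymm (v_nat_le hv p) (h p hp)]; simp⟩

end Abs

end Pool.Agent.P.MP_68214b_ag
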