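import Pool.Agent.P.MP_68214b_ag.Growth

open NumberField Height Filter Topology Finset

namespace Pool.Agent.P.MP_68214b_ag

variable {K : Type} [Field K] [NumberField K]

theorem ht_sol {x y : K} {s : ℕ → K} (hs : Rec (x + y) ((x - y) ^ 2) s) :
    ∃ C : ℝ, ∀ᶠ n : ℕ in atTop, mulHeight₁ (s n) ≤ C ^ n := by
  set d := Module.finrank ℚ K
  set R := 2 * mulHeight₁ (x + y) + mulHeight₁ ((x - y) ^ 2) with hR
  have R1 : 1 ≤ R := by linarith [one_le_mulHeight₁ (x + y), one_le_mulHeight₁ ((x - y) ^ 2)]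
  have arch : ∀ (φ : K →+* ℂ) (n : ℕ), ‖φ (s n)‖ ≤ R ^ n * max ‖φ (s 0)‖ ‖φ (s 1)‖ := fun φ n => by
    induction n using Nat.twoStepInduction with
    | zero => simp
    | one => exact (le_max_right _ _).trans (le_mul_of_one_le_left (by positivity) (by simpa))
    | more n a b =>
      have e : φ (s (n + 2)) = ((2 * n + 3) / (n + 2) : ℝ) * (φ (x + y) * φ (s (n + 1))) -
          ((n + 1) / (n + 2) : ℝ) * (φ ((x - y) ^ 2) * φ (s n)) := by
        have := hs.map φ n
        have h : (n : ℂ) + 2 ≠ 0 := by exact_mod_cast (by omega : n + 2 ≠ 0)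
        push_cast; field_simp; linear_combination this
      rw [e]
      refine (norm_sub_le _ _).trans ?_
      simp only [norm_mul, Complex.norm_real, Real.norm_eq_abs]
      rw [abs_of_nonneg (by positivity), abs_of_nonneg (by positivity)]
      have h1 : (2 * n + 3) / (n + 2 : ℝ) ≤ 2 := by rw [div_le_iff₀ (by positivity)]; linarith
      have h2 : (n + 1) / (n + 2 : ℝ) ≤ 1 := by rw [div_le_iff₀ (by positivity)]; linarith
      have a' := a.trans (mul_le_mul_of_nonneg_right (pow_le_pow_right₀ R1 n.le_succ) (by positivity))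
      have := arch_le_ht φ (x + y)
      have := arch_le_ht φ ((x - y) ^ 2)
      have := mulHeight₁_pos (x + y)
      have := mulHeight₁_pos ((x - y) ^ 2)
      calc _ ≤ 2 * (mulHeight₁ (x + y) * (R ^ (n + 1) * max ‖φ (s 0)‖ ‖φ (s 1)‖)) +
            1 * (mulHeight₁ ((x - y) ^ 2) * (R ^ (n + 1) * max ‖φ (s 0)‖ ‖φ (s 1)‖)) := by gcongr
        _ = _ := by rw [pow_succ R (n + 1), hR]; ring
  set E := Real.exp (Real.log 4 + 4)
  have L : ∀ n : ℕ, (Nat.lcmUpto n : ℝ) ≤ E ^ n := fun n => by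
    rw [← Real.exp_nat_mul, ← Real.log_le_iff_le_exp (by exact_mod_cast Nat.lcmUpto_pos n),
      ← Chebyshev.psi_eq_log_lcmUpto, mul_comm]
    exact Chebyshev.psi_le_const_mul_self (by positivity)
  refine ⟨(2 * E) ^ d * (2 * E * R) ^ d * mulHeight ![s 0, s 1, 1] * mulHeight ![x, y, 1], ?_⟩
  filter_upwards [eventually_gt_atTop 0] with n hn
  have l0 := Nat.lcmUpto_pos n
  have l1 : (1 : ℝ) ≤ 2 * Nat.lcmUpto n := by exact_mod_cast (by omega : 1 ≤ 2 * Nat.lcmUpto n)
  have l2 : (2 * Nat.lcmUpto n : ℝ) ≤ (2 * E) ^ n := by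
    rw [mul_pow]; exact mul_le_mul (le_self_pow₀ one_le_two hn.ne') (L n) (by positivity) (by positivity)
  set Y : Fin 3 × Fin 3 → K := fun i => ![s 0, s 1, 1] i.1 * (![x, y, 1] ^ n) i.2 with hY
  have h1 : mulHeight ![2 * Nat.lcmUpto n * s n, 1] ≤ (2 * Nat.lcmUpto n * R ^ n) ^ d * mulHeight Y := by
    refine ht_le (Function.ne_iff.2 ⟨(2, 2), by simp [hY]⟩)
      (one_le_mul_of_one_le_of_one_le l1 (one_le_pow₀ R1)) (fun v i => ?_) fun φ i => ?_
    · fin_cases i
      · have := sol_le (fin_na v) hs n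
        simp only [← FinitePlace.coe_apply] at this
        obtain ⟨a, ha⟩ : ∃ a, max (v (s 0)) (v (s 1)) = v (![s 0, s 1, 1] a) :=
          (max_choice _ _).elim (fun h => ⟨0, h⟩) fun h => ⟨1, h⟩
        obtain ⟨b, hb⟩ : ∃ b, max 1 (max (v x) (v y)) = v (![x, y, 1] b) :=
          (max_choice _ _).elim (fun h => ⟨2, by simpa using h⟩) fun h =>
            (max_choice _ _).elim (fun h' => ⟨0, h.trans h'⟩) fun h' => ⟨1, h.trans h'⟩
        exact ⟨(a, b), by rw [ha, hb] at this; simpa [hY] using this⟩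
      · exact ⟨(2, 2), by simp [hY]⟩
    · fin_cases i
      · obtain ⟨a, ha⟩ : ∃ a, max ‖φ (s 0)‖ ‖φ (s 1)‖ = ‖φ (![s 0, s 1, 1] a)‖ :=
          (max_choice _ _).elim (fun h => ⟨0, h⟩) fun h => ⟨1, h⟩
        refine ⟨(a, 2), ?_⟩
        have := arch φ n
        rw [ha] at this
        simpa [hY, mul_assoc, map_ofNat, l0] using this
      · exact ⟨(2, 2), by simpa [hY] using one_le_mul_of_one_le_of_one_le l1 (one_le_pow₀ R1)⟩
  rw [hY, mulHeight_fun_mul_eq (by simp) (Function.ne_iff.2 ⟨2, by simp⟩), mulHeight_pow,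
    ← mulHeight₁_eq_mulHeight] at h1
  have h2 := ht_nat (K := K) (i := 2 * Nat.lcmUpto n) (by omega)
  push_cast at h2
  have h3 := mulHeight₁_mul_le (2 * Nat.lcmUpto n : K)⁻¹ (2 * Nat.lcmUpto n * s n)
  rw [inv_mul_cancel_left₀ (by simp [l0.ne']), mulHeight₁_inv] at h3
  have h4 := le_self_pow₀ (one_le_mulHeight ![s 0, s 1, 1]) hn.ne'
  have := mulHeight_pos ![s 0, s 1, 1]
  have := mulHeight_pos ![x, y, 1]
  have := mulHeight₁_pos (2 * Nat.lcmUpto n * s n)
  calc _ ≤ _ := h3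
    _ ≤ ((2 * E) ^ n) ^ d * (((2 * E) ^ n * R ^ n) ^ d *
        (mulHeight ![s 0, s 1, 1] ^ n * mulHeight ![x, y, 1] ^ n)) := by
      refine mul_le_mul (h2.trans ?_) (h1.trans ?_) (by positivity) (by positivity) <;> gcongr
    _ = _ := by simp only [mul_pow, pow_right_comm _ n d]; ring

theorem ht_root' (k : ℕ) (c : ℕ → K) (hc : ∃ j ≤ k, c j ≠ 0) {Y Z : K}
    (h : ∑ j ∈ range (k + 1), c j * Y ^ j * Z ^ (k - j) = 0) :
    mulHeight ![Y, Z] ≤ (k + 1 : ℝ) ^ Module.finrank ℚ K * ∏ j ∈ range (k + 1), mulHeight₁ (c j) := by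
  obtain ⟨j, hj, h0⟩ := hc
  refine (ht_root (c := fun i : Fin (k + 1) => c i)
    (Function.ne_iff.2 ⟨⟨j, by omega⟩, h0⟩) (by rwa [sum_range] at h)).trans
    (mul_le_mul_of_nonneg_left ?_ (by positivity))
  rw [prod_range]
  simp only [mulHeight₁_eq_mulHeight]
  rw [← mulHeight_fun_prod_eq (ι := fun _ => Fin 2) fun i => pair_ne _]
  refine le_of_eq_of_le ?_ (mulHeight_comp_le (fun i l => if l = i then (0 : Fin 2) else 1) _)
  congr 1
  ext i
  rw [Function.comp_apply, prod_eq_single i (fun l _ hl => by simp [hl]) (by simp)]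
  simp

/-- sequences whose height lies in a growth class -/
def htRing (G : (ℕ → ℝ) → Prop) (hc : ∀ c, G fun _ => c)
    (hm : ∀ f g : ℕ → ℝ, (∀ n, 0 ≤ f n) → (∀ n, 0 ≤ g n) → G f → G g → G fun n => f n * g n)
    (hle : ∀ f g : ℕ → ℝ, (∀ n, f n ≤ g n) → G g → G f) : Subring (ℕ → K) where
  carrier := {g | G fun n => mulHeight₁ (g n)}
  mul_mem' := fun {a b} ha hb => hle _ _ (fun n => mulHeight₁_mul_le _ _)
    (hm _ _ (fun _ => mulHeight₁_nonneg _) (fun _ => mulHeight₁_nonneg _) ha hb)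
  one_mem' := hc (mulHeight₁ (1 : K))
  add_mem' := fun {a b} ha hb => hle _ _ (fun n => mulHeight₁_add_le _ _)
    (hm _ _ (fun _ => by positivity) (fun _ => mulHeight₁_nonneg _)
      (hm _ _ (fun _ => by positivity) (fun _ => mulHeight₁_nonneg _) (hc _) ha) hb)
  zero_mem' := hc (mulHeight₁ (0 : K))
  neg_mem' := fun {a} ha => by simpa using ha

/-- at most exponential -/
def Ex (f : ℕ → ℝ) : Prop := ∃ C : ℝ, ∀ᶠ n : ℕ in atTop, f n ≤ C ^ n

/-- subexponential -/
def Sx (f : ℕ → ℝ) : Prop := ∀ b : ℝ, 1 < b → ∀ᶠ n : ℕ in atTop, f n ≤ b ^ n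

theorem Sx.ex {f : ℕ → ℝ} (h : Sx f) : Ex f := ⟨2, h 2 one_lt_two⟩

theorem sx_poly (c : ℝ) (e : ℕ) : Sx fun n => c * (n + 1 : ℝ) ^ e := fun _ hb => ev_poly c e hb

theorem sx_const (c : ℝ) : Sx fun _ => c := by simpa using sx_poly c 0

theorem sx_mul (f g : ℕ → ℝ) (_ : ∀ n, 0 ≤ f n) (g0 : ∀ n, 0 ≤ g n) (hf : Sx f) (hg : Sx g) :
    Sx fun n => f n * g n := fun b hb => by
  have s1 : 1 < √b := by rw [Real.lt_sqrt zero_le_one]; simpa
  filter_upwards [hf _ s1, hg _ s1] with n h1 h2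
  rw [← Real.mul_self_sqrt (by linarith : 0 ≤ b), mul_pow]
  exact mul_le_mul h1 h2 (g0 n) (by positivity)

theorem ex_mul (f g : ℕ → ℝ) (f0 : ∀ n, 0 ≤ f n) (g0 : ∀ n, 0 ≤ g n) (hf : Ex f) (hg : Ex g) :
    Ex fun n => f n * g n := by
  obtain ⟨C, hC⟩ := hf
  obtain ⟨D, hD⟩ := hg
  refine ⟨C * D, ?_⟩
  filter_upwards [hC, hD] with n h1 h2
  rw [mul_pow]
  exact mul_le_mul h1 h2 (g0 n) ((f0 n).trans h1)

theorem sx_le (f g : ℕ → ℝ) (h : ∀ n, f n ≤ g n) (hg : Sx g) : Sx f :=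
  fun b hb => (hg b hb).mono fun n hn => (h n).trans hn

theorem ex_le (f g : ℕ → ℝ) (h : ∀ n, f n ≤ g n) (hg : Ex g) : Ex f :=
  hg.imp fun _ hC => hC.mono fun n hn => (h n).trans hn

theorem cls_prod {G : (ℕ → ℝ) → Prop} (hc : ∀ c, G fun _ => c)
    (hm : ∀ f g : ℕ → ℝ, (∀ n, 0 ≤ f n) → (∀ n, 0 ≤ g n) → G f → G g → G fun n => f n * g n)
    (c : ℝ) (c0 : 0 ≤ c) (k : ℕ) (a : ℕ → ℕ → K) (h : ∀ j, G fun n => mulHeight₁ (a j n)) :
    G fun n => c * ∏ j ∈ range k, mulHeight₁ (a j n) := by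
  induction k with
  | zero => simpa using hc c
  | succ k ih =>
    simp only [prod_range_succ, ← mul_assoc]
    exact hm _ _ (fun n => mul_nonneg c0 (prod_nonneg fun _ _ => mulHeight₁_nonneg _))
      (fun _ => mulHeight₁_nonneg _) ih (h k)

theorem finite_zero {s : ℕ → K} (hG : Grows s) (hH : Ex fun n => mulHeight₁ (s n))
    {F : MvPolynomial (Fin 3) K} (hF : F ≠ 0) : ∀ᶠ n : ℕ in atTop,
      MvPolynomial.eval ![(n : K) + 1, (n + 1).factorial * s (n + 1), n.factorial * s n] F ≠ 0 := by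
  classical
  obtain ⟨κ, κ1, hκ⟩ := hG
  obtain ⟨m0, hm0⟩ := MvPolynomial.support_nonempty.2 hF
  set k := m0 1 + m0 2 with hk
  set D := F.support.sup fun m => m 1 + m 2
  let RE : Subring (ℕ → K) := htRing Ex (fun c => (sx_const c).ex) ex_mul ex_le
  let RS : Subring (ℕ → K) := htRing Sx sx_const sx_mul sx_le
  have n1 : (fun n : ℕ => (n : K) + 1) ∈ RS := sx_le _ _ (fun n => by
    simpa using ht_nat (K := K) n.succ_pos) (sx_poly 1 (Module.finrank ℚ K))
  have s1 : (fun n => s (n + 1)) ∈ RE := by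
    obtain ⟨C, hC⟩ := hH
    refine ⟨C ^ 2, ?_⟩
    filter_upwards [(tendsto_add_atTop_nat 1).eventually hC, eventually_ge_atTop 1] with n h1 h2
    have h3 : 1 ≤ |C| ^ (n + 1) := ((one_le_mulHeight₁ _).trans h1).trans
      (by rw [← abs_pow]; exact le_abs_self _)
    have h4 : 1 ≤ |C| := (one_le_pow_iff_of_nonneg (abs_nonneg C) (by omega)).1 h3
    rw [← sq_abs, ← pow_mul]
    exact h1.trans ((le_abs_self _).trans (by rw [abs_pow]; exact pow_le_pow_right₀ h4 (by omega)))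
  set a : ℕ → ℕ → K := fun l => ∑ m ∈ F.support, if m 1 + m 2 = l then
    (fun _ => F.coeff m) * (fun n : ℕ => (n : K) + 1) ^ m 0 *
      ((fun n : ℕ => (n : K) + 1) * fun n => s (n + 1)) ^ m 1 * s ^ m 2 else 0 with ha
  set c : ℕ → ℕ → K := fun j => ∑ m ∈ F.support, if m 1 + m 2 = k ∧ m 1 = j then
    (fun _ => F.coeff m) * (fun n : ℕ => (n : K) + 1) ^ m 0 else 0 with hc
  have aE : ∀ l, a l ∈ RE := fun l => sum_mem fun m _ => by
    split_ifs
    · exact mul_mem (mul_mem (mul_mem (sx_const _).ex (pow_mem (Sx.ex n1) _))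
        (pow_mem (mul_mem (Sx.ex n1) s1) _)) (pow_mem hH _)
    · exact zero_mem _
  have cS : ∀ j, c j ∈ RS := fun l => sum_mem fun m _ => by
    split_ifs
    · exact mul_mem (sx_const _) (pow_mem n1 _)
    · exact zero_mem _
  obtain ⟨C, hC⟩ := cls_prod (fun c => (sx_const c).ex) ex_mul
    ((D + 1 : ℝ) ^ Module.finrank ℚ K) (by positivity) (D + 1) a aE
  have s2 : 1 < (1 + κ) / 2 := by linarith
  have h2 := sx_mul _ _ (fun _ => mulHeight₁_nonneg _)
    (fun n => mul_nonneg (by positivity) (prod_nonneg fun _ _ => mulHeight₁_nonneg _)) n1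
    (cls_prod sx_const sx_mul ((k + 1 : ℝ) ^ Module.finrank ℚ K) (by positivity) (k + 1) c cS) _ s2
  set q : Polynomial K := ∑ m ∈ F.support, if m 1 + m 2 = k ∧ m 1 = m0 1 then
    Polynomial.monomial (m 0) (F.coeff m) else 0 with hq
  have q0 : q ≠ 0 := fun h => by
    have := congrArg (fun p => Polynomial.coeff p (m0 0)) h
    simp only [hq, Polynomial.finsetSum_coeff, Polynomial.coeff_zero] at this
    rw [sum_eq_single m0 (fun m _ hm => ?_) (fun h => absurd hm0 h)] at this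
    · simp [hk] at this
      exact MvPolynomial.mem_support_iff.1 hm0 this
    · split_ifs with h
      · refine Polynomial.coeff_monomial_of_ne _ fun h' => hm ?_
        ext i; fin_cases i
        · exact h'.symm
        · exact h.2
        · change m 2 = m0 2; omega
      · simp
  have h3 : ∀ᶠ n : ℕ in atTop, q.eval ((n : K) + 1) ≠ 0 := by
    rw [← Nat.cofinite_eq_atTop, eventually_cofinite]
    refine ((q.rootSet_finite K).preimage (f := fun n : ℕ => (n : K) + 1)
      fun a _ b _ h => by simpa using h).subset fun n hn => ?_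
    simpa [Polynomial.mem_rootSet, q0] using hn
  filter_upwards [hκ, hC, h2, h3, eventually_gt_atTop 0,
    (FloorSemiring.tendsto_pow_div_factorial_atTop C).eventually_lt_const one_pos]
    with n g1 g2 g3 g4 g5 g6 h
  have a0 : a k n = 0 := by
    by_contra h0
    have := ht_root' D (fun l => a l n) ⟨k, le_sup (f := fun m => m 1 + m 2) hm0, h0⟩
      (Y := n.factorial) (Z := 1) (by
        rw [← h, MvPolynomial.eval_eq']
        simp only [ha, Finset.sum_apply, sum_mul, one_pow, mul_one]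
        rw [sum_comm]
        refine sum_congr rfl fun m hm => ?_
        rw [sum_eq_single (m 1 + m 2) (fun l _ hl => by simp [hl.symm]) fun h => absurd
          (mem_range.2 (Nat.lt_succ_of_le (le_sup (f := fun m => m 1 + m 2) hm))) h]
        simp [Fin.prod_univ_three, Nat.factorial_succ, mul_pow]; ring)
    obtain ⟨φ⟩ : Nonempty (K →+* ℂ) := inferInstance
    have h1 := arch_le_ht φ (n.factorial : K)
    rw [mulHeight₁_eq_mulHeight, map_natCast, Complex.norm_natCast] at h1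
    rw [div_lt_one (by positivity)] at g6
    linarith
  have := ht_root' k (fun j => c j n) ⟨m0 1, by omega, by
      refine fun h => g4 (h ▸ ?_)
      simp only [hc, hq, Finset.sum_apply, Polynomial.eval_finsetSum]
      exact sum_congr rfl fun m _ => by split_ifs <;> simp⟩
    (Y := (n + 1) * s (n + 1)) (Z := s n) (by
      rw [← a0]
      simp only [ha, hc, Finset.sum_apply, sum_mul]
      rw [sum_comm]
      refine sum_congr rfl fun m hm => ?_
      by_cases h : m 1 + m 2 = k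
      · rw [sum_eq_single (m 1) (fun l _ hl => by simp [hl.symm]) fun h => absurd
          (mem_range.2 (by omega)) h]
        simp [h, show k - m 1 = m 2 by omega]
      · simp [h])
  have h4 := mulHeight_mul_le ![1, (n : K) + 1] ![(n + 1) * s (n + 1), s n]
  rw [show ![1, (n : K) + 1] * ![(n + 1) * s (n + 1), s n] = ((n : K) + 1) • ![s (n + 1), s n] by
    ext i; fin_cases i <;> simp, mulHeight_smul_eq_mulHeight _ (Nat.cast_add_one_ne_zero n),
    mulHeight_swap 1, ← mulHeight₁_eq_mulHeight] at h4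
  have h5 := g1.trans (h4.trans ((mul_le_mul_of_nonneg_left this (mulHeight₁_nonneg _)).trans g3))
  exact absurd h5 (not_le.2 (pow_lt_pow_left₀ (by linarith) (by linarith) g5.ne'))

end Pool.Agent.P.MP_68214b_ag
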